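import Pool.Agent.H411R2.WSK.Sound

/-!
Kempe equivalence as an equivalence relation, invariant under colour permutations and automorphisms.
-/

namespace Pool.Agent.H411R2.WSK

variable {V : Type*} {G : SimpleGraph V} {q : ℕ}

def toCol (c : V → Fin q) (hc : Proper G c) : G.Coloring (Fin q) :=
  SimpleGraph.Coloring.mk c (fun {_ _} h => hc _ _ h)

theorem toCol_apply (c : V → Fin q) (hc : Proper G c) (v : V) : toCol c hc v = c v := rfl

/-- two proper colourings are joined by Kempe changes -/
def Conn (G : SimpleGraph V) (c c' : V → Fin q) : Prop :=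
  ∃ (hc : Proper G c) (hc' : Proper G c'),
    Relation.ReflTransGen KempeStep (toCol c hc) (toCol c' hc')

theorem Conn.refl {c : V → Fin q} (hc : Proper G c) : Conn G c c :=
  ⟨hc, hc, Relation.ReflTransGen.refl⟩

theorem Conn.trans {c c' c'' : V → Fin q} (h : Conn G c c') (h' : Conn G c' c'') : Conn G c c'' := by
  obtain ⟨h1, h2, h3⟩ := h
  obtain ⟨h1', h2', h3'⟩ := h'
  exact ⟨h1, h2', h3.trans h3'⟩

theorem swap_closed_symm {c c' : V → Fin q} {a b : Fin q} {U : Set V} (hU : Closed G c a b U)
    (hs : IsSwap c c' a b U) : Closed G c' a b U ∧ IsSwap c' c a b U := by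
  refine ⟨⟨?_, ?_⟩, ?_, ?_⟩
  · intro v hv
    rw [hs.1 v hv]
    exact swap_mem (hU.1 v hv)
  · intro v hv w hvw hw
    by_contra hwU
    rw [hs.2 w hwU] at hw
    exact hwU (hU.2 v hv w hvw hw)
  · intro v hv
    rw [hs.1 v hv, Equiv.swap_apply_self]
  · intro v hv
    rw [hs.2 v hv]

theorem conn_of_closed [Finite V] {c c' : V → Fin q} (hc : Proper G c) {a b : Fin q} (hab : a ≠ b)
    {U : Set V} (hU : Closed G c a b U) (hs : IsSwap c c' a b U) : Conn G c c' := by
  have hc' : Proper G c' := proper_of_swap hc hU hs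
  exact ⟨hc, hc', reach_of_closed hab _ (toCol c hc) (toCol c' hc') U rfl hU hs⟩

theorem Conn.symm [Finite V] {c c' : V → Fin q} (h : Conn G c c') : Conn G c' c := by
  obtain ⟨hc, hc', h⟩ := h
  have key : ∀ d d' : G.Coloring (Fin q), Relation.ReflTransGen KempeStep d d' →
      Relation.ReflTransGen KempeStep d' d := by
    intro d d' h
    induction h with
    | refl => exact Relation.ReflTransGen.refl
    | tail _ hstep ih =>
      obtain ⟨a, b, hab, U, hU, hs⟩ := hstep.closed
      obtain ⟨hU', hs'⟩ := swap_closed_symm hU hs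
      exact (reach_of_closed hab _ _ _ U rfl hU' hs').trans ih
  exact ⟨hc', hc, key _ _ h⟩

theorem proper_perm {c : V → Fin q} (hc : Proper G c) (σ : Equiv.Perm (Fin q)) :
    Proper G (fun v => σ (c v)) := fun v w h h' => hc v w h (σ.injective h')

theorem Conn.perm [Finite V] {c : V → Fin q} (hc : Proper G c) (σ : Equiv.Perm (Fin q)) :
    Conn G c (fun v => σ (c v)) := by
  induction σ using Equiv.Perm.swap_induction_on with
  | one => exact Conn.refl hc
  | swap_mul f x y hxy ih =>
    refine ih.trans ?_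
    refine conn_of_closed (proper_perm hc f) hxy (U := {v | f (c v) = x ∨ f (c v) = y}) ⟨?_, ?_⟩ ⟨?_, ?_⟩
    · intro v hv; exact hv
    · intro v _ w _ hw; exact hw
    · intro v _; rfl
    · intro v hv
      simp only [Set.mem_setOf_eq, not_or] at hv
      show Equiv.swap x y (f (c v)) = f (c v)
      exact Equiv.swap_apply_of_ne_of_ne hv.1 hv.2

theorem proper_comp {c : V → Fin q} (hc : Proper G c) (φ : V ≃ V)
    (hφ : ∀ v w, G.Adj v w → G.Adj (φ v) (φ w)) : Proper G (fun v => c (φ v)) :=
  fun v w h => hc _ _ (hφ v w h)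

theorem Conn.comp [Finite V] {c c' : V → Fin q} (h : Conn G c c') (φ : V ≃ V)
    (hφ : ∀ v w, G.Adj v w → G.Adj (φ v) (φ w)) :
    Conn G (fun v => c (φ v)) (fun v => c' (φ v)) := by
  obtain ⟨hc, hc', h⟩ := h
  have key : ∀ d d' : G.Coloring (Fin q), Relation.ReflTransGen KempeStep d d' →
      Conn G (fun v => d (φ v)) (fun v => d' (φ v)) := by
    intro d d' h
    induction h with
    | refl => exact Conn.refl (proper_comp (fun v w h => d.valid h) φ hφ)
    | tail _ hstep ih =>
      obtain ⟨a, b, hab, U, hU, hs⟩ := hstep.closed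
      rename_i e e' _
      refine ih.trans ?_
      refine conn_of_closed (proper_comp (fun v w h => e.valid h) φ hφ) hab (U := φ ⁻¹' U)
        ⟨?_, ?_⟩ ⟨?_, ?_⟩
      · intro v hv; exact hU.1 _ hv
      · intro v hv w hvw hw; exact hU.2 _ hv _ (hφ v w hvw) hw
      · intro v hv; exact hs.1 _ hv
      · intro v hv; exact hs.2 _ hv
  exact key _ _ h

theorem ergodic_of_conn [Finite V] {base : V → Fin q} (h : ∀ c : V → Fin q, Proper G c → Conn G c base) :
    WSKErgodic G q := by
  intro c c'
  have h1 := h c (fun v w h => c.valid h)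
  have h2 := h c' (fun v w h => c'.valid h)
  obtain ⟨_, _, h3⟩ := h1.trans h2.symm
  exact h3

/-- the hypotheses of the search, for the goodness predicate of being joined to `base` -/
theorem conn_hswap [Finite V] {base : V → Fin q} (c : V → Fin q) (a b : Fin q) (U : Set V)
    (hc : Proper G c) (hab : a ≠ b) (hU : Closed G c a b U) (h : Conn G (swapOn c a b U) base) :
    Conn G c base :=
  (conn_of_closed hc hab hU (swapOn_isSwap c a b U)).trans h

theorem permCodes_inj : ∀ pi ∈ permCodes, ∀ x y : Fin 4, dig pi x.val = dig pi y.val → x = y := by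
  decide +kernel

/-- the permutation with a given code -/
theorem exists_perm {pi : ℕ} (h : pi ∈ permCodes) :
    ∃ σ : Equiv.Perm (Fin 4), ∀ x : Fin 4, (σ x).val = dig pi x.val := by
  have hinj : Function.Injective (fun x : Fin 4 => (⟨dig pi x.val, dig_lt _ _⟩ : Fin 4)) := by
    intro x y hxy
    exact permCodes_inj pi h x y (congrArg Fin.val hxy)
  exact ⟨Equiv.ofBijective _ (Finite.injective_iff_bijective.mp hinj), fun x => rfl⟩

end Pool.Agent.H411R2.WSK
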