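import Mathlib

/-!
# Kempe changes, the Wang–Swendsen–Kotecky dynamics, and the periodic triangular and kagome lattices

Definitions used by the hand-ins for MP_11305c_co.
-/

namespace Pool.Agent.H411R2.WSK

/-- `KempeStep c c'`: the proper colouring `c'` arises from the proper colouring `c` by choosing two
distinct colours `a`, `b` and one connected component `K` of the subgraph induced by the vertices
coloured `a` or `b` (a Kempe chain), and swapping the colours `a` and `b` on `K`. -/
def KempeStep {V : Type*} {G : SimpleGraph V} {q : ℕ} (c c' : G.Coloring (Fin q)) : Prop :=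
  ∃ a b : Fin q, a ≠ b ∧
    ∃ K : (G.induce {v : V | c v = a ∨ c v = b}).ConnectedComponent,
      (∀ v : V, ∀ h : v ∈ {v : V | c v = a ∨ c v = b},
        (⟨v, h⟩ : {v : V | c v = a ∨ c v = b}) ∈ K.supp → c' v = Equiv.swap a b (c v)) ∧
      (∀ v : V, (¬ ∃ h : v ∈ {v : V | c v = a ∨ c v = b},
        (⟨v, h⟩ : {v : V | c v = a ∨ c v = b}) ∈ K.supp) → c' v = c v)

/-- The WSK dynamics for `q`-colourings of `G` is ergodic: any two proper `q`-colourings of `G` are
joined by a finite sequence of single Kempe-chain swaps. -/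
def WSKErgodic {V : Type*} (G : SimpleGraph V) (q : ℕ) : Prop :=
  ∀ c c' : G.Coloring (Fin q), Relation.ReflTransGen KempeStep c c'

/-- The `n × n` periodic triangular lattice `T_n`: the vertex set is `(ℤ/n)²`, and `x` is adjacent to
`x ± e₁`, `x ± e₂` and `x ± (e₁ - e₂)`. -/
def triangular (n : ℕ) : SimpleGraph (ZMod n × ZMod n) :=
  SimpleGraph.fromRel fun x y => y = x + (1, 0) ∨ y = x + (0, 1) ∨ y = x + (1, -1)

/-- The `n × n` periodic honeycomb graph: `Sum.inl x` is the vertex `(x, A)` and `Sum.inr x` is the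
vertex `(x, B)`; `(x, A)` is joined to `(x, B)`, `(x - e₁, B)` and `(x - e₂, B)`. -/
def honeycomb (n : ℕ) : SimpleGraph ((ZMod n × ZMod n) ⊕ (ZMod n × ZMod n)) :=
  SimpleGraph.fromRel fun u v => ∃ x : ZMod n × ZMod n, u = Sum.inl x ∧
    (v = Sum.inr x ∨ v = Sum.inr (x - (1, 0)) ∨ v = Sum.inr (x - (0, 1)))

/-- The `n × n` periodic kagome lattice `K_n`: the line graph of the periodic honeycomb graph. -/
def kagome (n : ℕ) : SimpleGraph (honeycomb n).edgeSet := (honeycomb n).lineGraph

end Pool.Agent.H411R2.WSK
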