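import Mathlib

/-!
Height functions on the triangular lattice: for `n = k + 3 m` the lattice point of the right class
next to the image of `(i, j)` under the linear map of ratio `k / n`.
-/

namespace Pool.Agent.H411R2.WSK

/-- `(a0, a1, a2)` is the height (in coordinates modulo `(1,1,1)`) of the lattice point `(i, j)`. -/
structure IsH (k m i j a0 a1 a2 : ℤ) : Prop where
  sum : a0 + a1 + a2 = i - j
  h01 : (3 * ((k + m) * i - m * j - (k + 3 * m) * a0)) -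
    (3 * (m * i - (k + m) * j - (k + 3 * m) * a1) + 1) < 3 * (k + 3 * m)
  h10 : (3 * (m * i - (k + m) * j - (k + 3 * m) * a1) + 1) -
    (3 * ((k + m) * i - m * j - (k + 3 * m) * a0)) < 3 * (k + 3 * m)
  h02 : (3 * ((k + m) * i - m * j - (k + 3 * m) * a0)) -
    (3 * (m * i - m * j - (k + 3 * m) * a2) + 2) < 3 * (k + 3 * m)
  h20 : (3 * (m * i - m * j - (k + 3 * m) * a2) + 2) -
    (3 * ((k + m) * i - m * j - (k + 3 * m) * a0)) < 3 * (k + 3 * m)
  h12 : (3 * (m * i - (k + m) * j - (k + 3 * m) * a1) + 1) -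
    (3 * (m * i - m * j - (k + 3 * m) * a2) + 2) < 3 * (k + 3 * m)
  h21 : (3 * (m * i - m * j - (k + 3 * m) * a2) + 2) -
    (3 * (m * i - (k + m) * j - (k + 3 * m) * a1) + 1) < 3 * (k + 3 * m)

theorem exists_H (k m : ℤ) (hn : 0 < k + 3 * m) (i j : ℤ) :
    ∃ a0 a1 a2, IsH k m i j a0 a1 a2 := by
  obtain ⟨n, hnn⟩ : ∃ n, n = k + 3 * m := ⟨_, rfl⟩
  rw [← hnn] at hn
  obtain ⟨Y0, hY0⟩ : ∃ Y0, Y0 = (k + m) * i - m * j := ⟨_, rfl⟩
  obtain ⟨Y1, hY1⟩ : ∃ Y1, Y1 = m * i - (k + m) * j := ⟨_, rfl⟩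
  obtain ⟨Y2, hY2⟩ : ∃ Y2, Y2 = m * i - m * j := ⟨_, rfl⟩
  have hsum : Y0 + Y1 + Y2 = n * (i - j) := by rw [hY0, hY1, hY2, hnn]; ring
  -- division
  obtain ⟨q0, g0, e0, l0, u0⟩ : ∃ q g, Y0 = n * q + g ∧ 0 ≤ g ∧ g < n :=
    ⟨Y0 / n, Y0 % n, (Int.mul_ediv_add_emod Y0 n).symm, Int.emod_nonneg _ hn.ne', Int.emod_lt_of_pos _ hn⟩
  obtain ⟨q1, g1, e1, l1, u1⟩ : ∃ q g, Y1 = n * q + g ∧ 0 ≤ g ∧ g < n :=
    ⟨Y1 / n, Y1 % n, (Int.mul_ediv_add_emod Y1 n).symm, Int.emod_nonneg _ hn.ne', Int.emod_lt_of_pos _ hn⟩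
  obtain ⟨q2, g2, e2, l2, u2⟩ : ∃ q g, Y2 = n * q + g ∧ 0 ≤ g ∧ g < n :=
    ⟨Y2 / n, Y2 % n, (Int.mul_ediv_add_emod Y2 n).symm, Int.emod_nonneg _ hn.ne', Int.emod_lt_of_pos _ hn⟩
  obtain ⟨r, hr⟩ : ∃ r, r = (i - j) - (q0 + q1 + q2) := ⟨_, rfl⟩
  have hg : g0 + g1 + g2 = n * r := by
    rw [hr]; linear_combination hsum - e0 - e1 - e2
  have r0 : 0 ≤ r := by
    by_contra h
    have : n * r ≤ n * (-1) := mul_le_mul_of_nonneg_left (by omega) hn.le
    linarith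
  have r3 : r ≤ 2 := by
    by_contra h
    have : n * 3 ≤ n * r := mul_le_mul_of_nonneg_left (by omega) hn.le
    linarith
  have main : ∃ c0 c1 c2 : ℤ, c0 + c1 + c2 = r ∧
      (3 * (g0 - n * c0)) - (3 * (g1 - n * c1) + 1) < 3 * n ∧
      (3 * (g1 - n * c1) + 1) - (3 * (g0 - n * c0)) < 3 * n ∧
      (3 * (g0 - n * c0)) - (3 * (g2 - n * c2) + 2) < 3 * n ∧
      (3 * (g2 - n * c2) + 2) - (3 * (g0 - n * c0)) < 3 * n ∧
      (3 * (g1 - n * c1) + 1) - (3 * (g2 - n * c2) + 2) < 3 * n ∧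
      (3 * (g2 - n * c2) + 2) - (3 * (g1 - n * c1) + 1) < 3 * n := by
    have hr' : r = 0 ∨ r = 1 ∨ r = 2 := by omega
    rcases hr' with rfl | rfl | rfl
    · exact ⟨0, 0, 0, by norm_num, by omega, by omega, by omega, by omega, by omega, by omega⟩
    · -- the largest residue is increased
      by_cases c1 : 3 * g0 < 3 * g1 + 1 <;> by_cases c2 : 3 * g1 + 1 < 3 * g2 + 2 <;>
        by_cases c3 : 3 * g0 < 3 * g2 + 2
      · exact ⟨0, 0, 1, by norm_num, by omega, by omega, by omega, by omega, by omega, by omega⟩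
      · exact ⟨0, 0, 1, by norm_num, by omega, by omega, by omega, by omega, by omega, by omega⟩
      · exact ⟨0, 1, 0, by norm_num, by omega, by omega, by omega, by omega, by omega, by omega⟩
      · exact ⟨0, 1, 0, by norm_num, by omega, by omega, by omega, by omega, by omega, by omega⟩
      · exact ⟨0, 0, 1, by norm_num, by omega, by omega, by omega, by omega, by omega, by omega⟩
      · exact ⟨1, 0, 0, by norm_num, by omega, by omega, by omega, by omega, by omega, by omega⟩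
      · exact ⟨1, 0, 0, by norm_num, by omega, by omega, by omega, by omega, by omega, by omega⟩
      · exact ⟨1, 0, 0, by norm_num, by omega, by omega, by omega, by omega, by omega, by omega⟩
    · -- all but the smallest residue are increased
      by_cases c1 : 3 * g0 < 3 * g1 + 1 <;> by_cases c2 : 3 * g1 + 1 < 3 * g2 + 2 <;>
        by_cases c3 : 3 * g0 < 3 * g2 + 2
      · exact ⟨0, 1, 1, by norm_num, by omega, by omega, by omega, by omega, by omega, by omega⟩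
      · exact ⟨0, 1, 1, by norm_num, by omega, by omega, by omega, by omega, by omega, by omega⟩
      · exact ⟨0, 1, 1, by norm_num, by omega, by omega, by omega, by omega, by omega, by omega⟩
      · exact ⟨1, 1, 0, by norm_num, by omega, by omega, by omega, by omega, by omega, by omega⟩
      · exact ⟨1, 0, 1, by norm_num, by omega, by omega, by omega, by omega, by omega, by omega⟩
      · exact ⟨1, 0, 1, by norm_num, by omega, by omega, by omega, by omega, by omega, by omega⟩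
      · exact ⟨1, 1, 0, by norm_num, by omega, by omega, by omega, by omega, by omega, by omega⟩
      · exact ⟨1, 1, 0, by norm_num, by omega, by omega, by omega, by omega, by omega, by omega⟩
  obtain ⟨c0, c1, c2, hc, k01, k10, k02, k20, k12, k21⟩ := main
  have f0 : (k + m) * i - m * j - (k + 3 * m) * (q0 + c0) = g0 - n * c0 := by
    rw [← hY0, ← hnn, e0]; ring
  have f1 : m * i - (k + m) * j - (k + 3 * m) * (q1 + c1) = g1 - n * c1 := by
    rw [← hY1, ← hnn, e1]; ring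
  have f2 : m * i - m * j - (k + 3 * m) * (q2 + c2) = g2 - n * c2 := by
    rw [← hY2, ← hnn, e2]; ring
  refine ⟨q0 + c0, q1 + c1, q2 + c2, ⟨by linarith, ?_, ?_, ?_, ?_, ?_, ?_⟩⟩
  all_goals
    first
    | rw [f0, f1, ← hnn]; assumption
    | rw [f0, f2, ← hnn]; assumption
    | rw [f1, f2, ← hnn]; assumption

/-- the abstract step lemma -/
theorem step_core {n k m z0 z1 z2 y0 y1 y2 d0 d1 d2 : ℤ} (hn : n = k + 3 * m) (hk : 0 ≤ k)
    (hm : 0 ≤ m) (hpos : 0 < n)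
    (a01 : z0 - z1 < 3 * n) (a10 : z1 - z0 < 3 * n) (a02 : z0 - z2 < 3 * n)
    (a20 : z2 - z0 < 3 * n) (a12 : z1 - z2 < 3 * n) (a21 : z2 - z1 < 3 * n)
    (b01 : y0 - y1 < 3 * n) (b10 : y1 - y0 < 3 * n) (b02 : y0 - y2 < 3 * n)
    (b20 : y2 - y0 < 3 * n) (b12 : y1 - y2 < 3 * n) (b21 : y2 - y1 < 3 * n)
    (hy0 : y0 = z0 + 3 * m + 3 * k - 3 * (n * d0)) (hy1 : y1 = z1 + 3 * m - 3 * (n * d1))
    (hy2 : y2 = z2 + 3 * m - 3 * (n * d2)) (hd : d0 + d1 + d2 = 1) :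
    (d0 = 1 ∧ d1 = 0 ∧ d2 = 0) ∨ (d0 = 0 ∧ d1 = 1 ∧ d2 = 0) ∨ (d0 = 0 ∧ d1 = 0 ∧ d2 = 1) := by
  have mulle : ∀ {d c : ℤ}, d ≤ c → n * d ≤ n * c := fun h => mul_le_mul_of_nonneg_left h hpos.le
  have p0 : 0 ≤ d0 := by
    by_contra h
    have h0 : d0 ≤ -1 := by omega
    have e0 := mulle h0
    rcases le_or_gt 1 d1 with h1 | h1
    · have e1 := mulle h1; linarith
    · have h2 : 1 ≤ d2 := by omega
      have e2 := mulle h2; linarith
  have p1 : 0 ≤ d1 := by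
    by_contra h
    have h0 : d1 ≤ -1 := by omega
    have e0 := mulle h0
    rcases le_or_gt 1 d2 with h1 | h1
    · have e1 := mulle h1; linarith
    · have h2 : 2 ≤ d0 := by omega
      have e2 := mulle h2; linarith
  have p2 : 0 ≤ d2 := by
    by_contra h
    have h0 : d2 ≤ -1 := by omega
    have e0 := mulle h0
    rcases le_or_gt 1 d1 with h1 | h1
    · have e1 := mulle h1; linarith
    · have h2 : 2 ≤ d0 := by omega
      have e2 := mulle h2; linarith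
  omega

/-- uniqueness -/
theorem IsH.unique {k m i j a0 a1 a2 b0 b1 b2 : ℤ} (hn : 0 < k + 3 * m)
    (ha : IsH k m i j a0 a1 a2) (hb : IsH k m i j b0 b1 b2) : a0 = b0 ∧ a1 = b1 ∧ a2 = b2 := by
  obtain ⟨s, a01, a10, a02, a20, a12, a21⟩ := ha
  obtain ⟨s', b01, b10, b02, b20, b12, b21⟩ := hb
  have mulle : ∀ {d c : ℤ}, d ≤ c → (k + 3 * m) * d ≤ (k + 3 * m) * c :=
    fun h => mul_le_mul_of_nonneg_left h hn.le
  -- if `a_p < b_p` and `a_q > b_q` we get a contradiction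
  have A : ¬ (a0 < b0 ∧ b1 < a1) := by
    rintro ⟨h, h'⟩
    have e := mulle (show a0 - b0 ≤ -1 by omega); have e' := mulle (show b1 - a1 ≤ -1 by omega)
    nlinarith
  have B : ¬ (b0 < a0 ∧ a1 < b1) := by
    rintro ⟨h, h'⟩
    have e := mulle (show b0 - a0 ≤ -1 by omega); have e' := mulle (show a1 - b1 ≤ -1 by omega)
    nlinarith
  have C : ¬ (a0 < b0 ∧ b2 < a2) := by
    rintro ⟨h, h'⟩
    have e := mulle (show a0 - b0 ≤ -1 by omega); have e' := mulle (show b2 - a2 ≤ -1 by omega)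
    nlinarith
  have D : ¬ (b0 < a0 ∧ a2 < b2) := by
    rintro ⟨h, h'⟩
    have e := mulle (show b0 - a0 ≤ -1 by omega); have e' := mulle (show a2 - b2 ≤ -1 by omega)
    nlinarith
  have E : ¬ (a1 < b1 ∧ b2 < a2) := by
    rintro ⟨h, h'⟩
    have e := mulle (show a1 - b1 ≤ -1 by omega); have e' := mulle (show b2 - a2 ≤ -1 by omega)
    nlinarith
  have F : ¬ (b1 < a1 ∧ a2 < b2) := by
    rintro ⟨h, h'⟩
    have e := mulle (show b1 - a1 ≤ -1 by omega); have e' := mulle (show a2 - b2 ≤ -1 by omega)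
    nlinarith
  omega

theorem IsH.shift1 {k m i j a0 a1 a2 : ℤ} (ha : IsH k m i j a0 a1 a2) :
    IsH k m (i + (k + 3 * m)) j (a0 + (k + m)) (a1 + m) (a2 + m) := by
  obtain ⟨s, a01, a10, a02, a20, a12, a21⟩ := ha
  refine ⟨by linarith, ?_, ?_, ?_, ?_, ?_, ?_⟩ <;> ring_nf at * <;> linarith

theorem IsH.shift2 {k m i j a0 a1 a2 : ℤ} (ha : IsH k m i j a0 a1 a2) :
    IsH k m i (j + (k + 3 * m)) (a0 - m) (a1 - (k + m)) (a2 - m) := by
  obtain ⟨s, a01, a10, a02, a20, a12, a21⟩ := ha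
  refine ⟨by linarith, ?_, ?_, ?_, ?_, ?_, ?_⟩ <;> ring_nf at * <;> linarith

/-- step in direction `e₁` -/
theorem IsH.step1 {k m i j a0 a1 a2 b0 b1 b2 : ℤ} (hk : 0 ≤ k) (hm : 0 ≤ m) (hn : 0 < k + 3 * m)
    (ha : IsH k m i j a0 a1 a2) (hb : IsH k m (i + 1) j b0 b1 b2) :
    (b0 = a0 + 1 ∧ b1 = a1 ∧ b2 = a2) ∨ (b0 = a0 ∧ b1 = a1 + 1 ∧ b2 = a2) ∨
      (b0 = a0 ∧ b1 = a1 ∧ b2 = a2 + 1) := by
  have := step_core (n := k + 3 * m) rfl hk hm hn ha.h01 ha.h10 ha.h02 ha.h20 ha.h12 ha.h21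
    hb.h01 hb.h10 hb.h02 hb.h20 hb.h12 hb.h21 (d0 := b0 - a0) (d1 := b1 - a1) (d2 := b2 - a2)
    (by ring) (by ring) (by ring) (by have := ha.sum; have := hb.sum; linarith)
  omega

/-- step in direction `-e₂` -/
theorem IsH.step2 {k m i j a0 a1 a2 b0 b1 b2 : ℤ} (hk : 0 ≤ k) (hm : 0 ≤ m) (hn : 0 < k + 3 * m)
    (ha : IsH k m i (j + 1) a0 a1 a2) (hb : IsH k m i j b0 b1 b2) :
    (b0 = a0 + 1 ∧ b1 = a1 ∧ b2 = a2) ∨ (b0 = a0 ∧ b1 = a1 + 1 ∧ b2 = a2) ∨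
      (b0 = a0 ∧ b1 = a1 ∧ b2 = a2 + 1) := by
  have := step_core (n := k + 3 * m) rfl hk hm hn ha.h10 ha.h01 ha.h12 ha.h21 ha.h02 ha.h20
    hb.h10 hb.h01 hb.h12 hb.h21 hb.h02 hb.h20 (d0 := b1 - a1) (d1 := b0 - a0) (d2 := b2 - a2)
    (by ring) (by ring) (by ring) (by have := ha.sum; have := hb.sum; linarith)
  omega

/-- step in direction `e₂ - e₁` -/
theorem IsH.step3 {k m i j a0 a1 a2 b0 b1 b2 : ℤ} (hk : 0 ≤ k) (hm : 0 ≤ m) (hn : 0 < k + 3 * m)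
    (ha : IsH k m (i + 1) j a0 a1 a2) (hb : IsH k m i (j + 1) b0 b1 b2) :
    (b0 = a0 ∧ b1 = a1 - 1 ∧ b2 = a2 - 1) ∨ (b0 = a0 - 1 ∧ b1 = a1 ∧ b2 = a2 - 1) ∨
      (b0 = a0 - 1 ∧ b1 = a1 - 1 ∧ b2 = a2) := by
  have := step_core (n := k + 3 * m) rfl hk hm hn ha.h20 ha.h02 ha.h21 ha.h12 ha.h01 ha.h10
    hb.h20 hb.h02 hb.h21 hb.h12 hb.h01 hb.h10 (d0 := b2 - a2 + 1) (d1 := b0 - a0 + 1)
    (d2 := b1 - a1 + 1)
    (by ring) (by ring) (by ring) (by have := ha.sum; have := hb.sum; linarith)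
  omega

end Pool.Agent.H411R2.WSK
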