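import Pool.Agent.H411R2.WSK.TriSys

/-!
Packaging for the concrete runs.
-/

namespace Pool.Agent.H411R2.WSK

instance NBok.dec (nb : ℕ → List ℕ) (N : ℕ) : ∀ (l : List (List ℕ)) (k : ℕ), Decidable (NBok nb N l k)
  | [], _ => isTrue trivial
  | nbk :: rest, k =>
    have := NBok.dec nb N rest (k + 1)
    inferInstanceAs (Decidable (k < N ∧ (∀ u ∈ nbk, u < k ∧ u ∈ nb k) ∧ NBok nb N rest (k + 1)))

theorem NBok.drop {nb : ℕ → List ℕ} {N : ℕ} : ∀ (i : ℕ) (l : List (List ℕ)) (k : ℕ),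
    NBok nb N l k → NBok nb N (l.drop i) (k + i)
  | 0, l, k, h => h
  | i + 1, [], k, _ => trivial
  | i + 1, x :: l, k, h => by
    have := NBok.drop i l (k + 1) h.2.2
    rw [List.drop_succ_cons]
    have e : k + (i + 1) = k + 1 + i := by ring
    rw [e]; exact this

/-- everything about one concrete `n` except the search itself -/
structure Run (n : ℕ) where
  hn : 2 ≤ n
  nbt : List (List ℕ)
  NB : List (List ℕ)
  s0 : ℕ
  s1 : ℕ
  s2 : ℕ
  D1 : List Der
  D2 : List Der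
  goals : List ℕ
  hlen : nbt.length = n * n
  htab : ∀ v < n * n, nth nbt v = nbf n v
  hbase : ∀ v < n * n, ∀ w ∈ nth nbt v, dig s0 v ≠ dig s0 w
  hNB : NBok (nth nbt) (n * n) NB 0
  hs1 : ∀ v < n * n, dig s1 v = dig s0 (gT n n v)
  hs2 : ∀ v < n * n, dig s2 v = dig s0 (gT n 1 v)
  hD1 : chkDer (inst1 n nbt) (n * n) D1 [s0] [s1, s2] = true
  hD2 : chkDer (inst2 n nbt []) (n * n) D2 [s0] goals = true

/-- `(k, s)` is solved in the run `R` -/
def Run.S {n : ℕ} (R : Run n) (k s : ℕ) : Prop :=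
  Solved (q := 4) (triangular n) (n * n) (ixT n)
    (fun c => Conn (triangular n) c (baseT n R.s0)) k s

theorem Run.leaf {n : ℕ} (R : Run n) {s : ℕ} (h : s ∈ R.goals) : R.S (n * n) s :=
  solved_of_goodcode (leaves_good R.hn R.hlen R.htab R.hbase
    (base_trans R.hn R.hlen R.htab R.hbase R.hs1 R.hs2 R.D1 R.hD1) R.goals R.D2 R.hD2 s h)

theorem Run.piece {n : ℕ} (R : Run n) (leaves : List (ℕ × ℕ))
    (hleaf : ∀ x ∈ leaves, R.S x.1 x.2) (C : Cert) (k s p : ℕ) (hk : k ≤ n * n) (hp : p = 4 ^ k)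
    (hs : s < p) (h : check (inst2 n R.nbt leaves) C (R.NB.drop k) k s p = true) : R.S k s := by
  subst hp
  exact WSK.piece R.hn R.hlen R.htab R.hbase
    (base_trans R.hn R.hlen R.htab R.hbase R.hs1 R.hs2 R.D1 R.hD1) leaves
    (fun k s hks => hleaf (k, s) hks) C (R.NB.drop k) k s
    (by have := NBok.drop k R.NB 0 R.hNB; rwa [zero_add] at this) hk hs h

theorem Run.ergodic {n : ℕ} (R : Run n) (h : R.S 0 0) : WSKErgodic (triangular n) 4 :=
  ergodic_of_solved R.hn h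

end Pool.Agent.H411R2.WSK
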