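import Pool.Agent.H411R2.WSK.Kag
import Pool.Agent.H411R2.WSK.TriRun

set_option maxRecDepth 100000
set_option linter.all false

/-!
The periodic kagome lattice for `n = 2`.
-/

namespace Pool.Agent.H411R2.WSK

namespace K2

/-- the edge number `v` of the honeycomb graph as a pair (vertex, direction) -/
def dec (v : ℕ) : (ZMod 2 × ZMod 2) × Fin 3 :=
  (((v / 3 / 2 : ℕ), (v / 3 % 2 : ℕ)), ⟨v % 3, Nat.mod_lt _ (by norm_num)⟩)

def ixK (v : ℕ) : (honeycomb 2).edgeSet := edgeK 2 (dec v).1 (dec v).2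

def nbt : List (List ℕ) := [[1, 2, 5, 7], [0, 2, 6, 11], [0, 1, 3, 10], [2, 4, 5, 10], [3, 5, 8, 9], [0, 3, 4, 7], [1, 7, 8, 11], [0, 5, 6, 8], [4, 6, 7, 9], [4, 8, 10, 11], [2, 3, 9, 11], [1, 6, 9, 10]]

def NB : List (List ℕ) := [[], [0], [0, 1], [2], [3], [0, 3, 4], [1], [0, 5, 6], [4, 6, 7], [4, 8], [2, 3, 9], [1, 6, 9, 10]]

def D : List Der := []

def root : Cert := (.br (.br .no (.br .no .no (.br (.br .no (.br .no .no (.br (.br .no (.br .no .no (.br (.br .no (.br .no .no .lf .no) .no .no) .no .no .no) .no) .no .no) .no (.br .no (.br (.br .no .no (.br .no (.br (.sw 0 2 [6, 8, 9, 11]) .no .no .no) .no .no) .no) .no .no .no) .no .no) .no) .no) (.br .no (.br (.br .no .no (.br .no (.br (.sw 1 2 [4, 5, 7, 8]) .no .no .no) .no .no) .no) .no (.br .no .no .no .no) .no) .no .no) .no) (.br (.br .no .no (.br (.br .no (.br .no .no (.br .no (.br (.br .no .no (.sw 0 1 [3, 4, 9, 10]) .no) .no .no .no) .no .no) .no) .no .no) .no (.br .no (.br .no .no .no .no) .no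 .no) .no) .no) .no (.br .no .no .no .no) .no) .no .no) .no) (.br .no (.br (.br .no (.br .no .no (.br (.br .no (.br .no .no (.br (.br .no .no (.br .no (.sw 1 2 [1, 2, 10, 11]) .no .no) .no) .no .no .no) .no) .no .no) (.br .no .no .no .no) .no .no) .no) (.br .no (.br (.br .no .no (.br .no (.br (.sw 1 2 [4, 5, 7, 8]) .no .no .no) .no .no) .no) (.br .no .no (.br (.br .no (.br .no .no (.br (.sw 0 1 [6, 8, 9, 11]) .no .no .no) .no) .no .no) .no .no .no) .no) .no .no) .no .no) .no) .no (.br (.br .no (.br (.br .no .no (.br .no (.br .no .no (.br (.br .no (.sw 0 2 [3, 4, 9, 10]) .no .no) .no .no .no) .no) .no .no) .no) (.br .no .no (.br .no .no .no .no) .no) .no .no) .no .no) (.br .no .no .no .no) .no .no) .no) .no .no) .no) (.br (.br .no .no (.br (.br .no (.br .no .no (.br .no (.br (.br .no .no (.br (.br .no (.br .no .no (.sw 0 1 [0, 1, 6, 7]) .no) .no .no) .no .no .no) .no) .no .no .no) (.br (.br .no .no .no .no) .no .no .no) .no) .no) (.br .no .no .no .no) .no)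 (.br (.br .no .no (.br .no (.br (.br .no .no (.br .no (.br (.br .no .no (.sw 0 1 [0, 1, 6, 7]) .no) .no .no .no) .no .no) .no) .no .no .no) (.br (.br .no (.br .no .no (.br (.br .no (.sw 1 2 [6, 8, 9, 11]) .no .no) .no .no .no) .no) .no .no) .no .no .no) .no) .no) .no (.br (.br .no (.br .no .no (.br (.br .no (.sw 0 2 [4, 5, 7, 8]) .no .no) .no .no .no) .no) (.br .no .no .no .no) .no) .no .no .no) .no) .no .no) .no) .no (.br (.br .no (.br (.br .no .no (.br (.br .no .no .no .no) (.br (.br .no .no (.br .no (.br .no .no (.br (.sw 0 2 [1, 2, 10, 11]) .no .no .no) .no) .no .no) .no) .no .no .no) .no .no) .no) .no (.br (.br (.br .no .no (.br .no (.br (.br .no .no (.sw 0 1 [0, 2, 3, 5]) .no) .no .no .no) .no .no) .no) (.br .no .no (.br (.br .no (.sw 0 2 [4, 5, 7, 8]) .no .no) .no .no .no) .no) .no .no) .no .no .no) .no) (.br (.br .no .no .no .no) (.br (.br (.br .no .no (.br .no .no .no .no) .no) (.br .no .no (.br (.br .no .no (.br .no (.br (.sw 1 2 [3, 4, 9, 10])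 .no .no .no) .no .no) .no) .no .no .no) .no) .no .no) .no .no .no) .no .no) .no) .no .no .no) .no) (.br (.br .no (.br (.br .no (.br .no .no .no .no) (.br .no (.br .no (.br (.br .no .no .no .no) .no .no .no) (.br (.br .no (.br (.br .no .no (.br .no (.sw 0 2 [0, 1, 6, 7]) .no .no) .no) .no .no .no) .no .no) .no .no .no) .no) .no .no) .no) .no (.br (.br .no (.br .no (.br (.br .no .no (.br .no (.br (.sw 1 2 [0, 2, 3, 5]) .no .no .no) .no .no) .no) .no .no .no) (.br (.br .no (.br .no .no (.br (.sw 1 2 [0, 2, 3, 5]) .no .no .no) .no) .no .no) .no .no .no) .no) .no .no) (.br (.br .no (.br .no .no .no .no) (.br .no (.br (.br .no .no (.sw 0 1 [4, 5, 7, 8]) .no) .no .no .no) .no .no) .no) .no .no .no) .no .no) .no) .no .no) (.br (.br .no (.br (.br .no .no .no .no) .no (.br (.br (.br .no (.br .no .no .no .no) .no .no) .no (.br .no (.br (.br .no (.br .no .no (.br (.sw 1 2 [0, 1, 6, 7]) .no .no .no) .no) .no .no) .no .no .no) .no .no) .no) .no .no .no) .no) (.br (.br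 .no (.br (.br .no .no .no .no) .no (.br (.br .no (.br .no .no (.br .no (.br (.sw 0 1 [1, 2, 10, 11]) .no .no .no) .no .no) .no) .no .no) .no .no .no) .no) .no .no) (.br (.br (.br .no (.br .no .no (.br (.br .no (.sw 0 2 [0, 2, 3, 5]) .no .no) .no .no .no) .no) .no .no) .no (.br .no (.br (.br .no .no (.sw 0 1 [4, 5, 7, 8]) .no) .no .no .no) .no .no) .no) .no .no .no) .no .no) .no) .no .no .no) .no .no) .no)

def goals : List ℕ := [9586980]

def s0 : ℕ := 9586980

noncomputable def I : Inst := ⟨3, nth nbt, fun _ v => v, fun _ _ => false, goals.map (fun s => (12, s))⟩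

theorem surj' : ∀ (x : ZMod 2 × ZMod 2) (t : Fin 3), ∃ v < 12, dec v = (x, t) := by
  decide +kernel

theorem inj' : ∀ v < 12, ∀ w < 12, dec v = dec w → v = w := by
  decide +kernel

theorem adj' : ∀ v < 12, ∀ w ∈ nth nbt v, w < 12 ∧ (dec v).2 ≠ (dec w).2 ∧
    ((dec v).1 = (dec w).1 ∨ (dec v).1 - dd 2 (dec v).2 = (dec w).1 - dd 2 (dec w).2) := by
  decide +kernel

theorem comp'' : ∀ v < 12, ∀ w < 12, ((dec v).2 ≠ (dec w).2 ∧
    ((dec v).1 = (dec w).1 ∨ (dec v).1 - dd 2 (dec v).2 = (dec w).1 - dd 2 (dec w).2)) →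
      w ∈ nth nbt v := by
  decide +kernel

theorem comp' (v : ℕ) (hv : v < 12) (y : ZMod 2 × ZMod 2) (t : Fin 3) (h1 : (dec v).2 ≠ t)
    (h2 : (dec v).1 = y ∨ (dec v).1 - dd 2 (dec v).2 = y - dd 2 t) :
    ∃ w ∈ nth nbt v, dec w = (y, t) := by
  obtain ⟨w, hw, h⟩ := surj' y t
  refine ⟨w, comp'' v hv w hw ⟨?_, ?_⟩, h⟩
  · rw [h]; exact h1
  · rw [h]; exact h2

theorem nth_nil : ∀ (l : List (List ℕ)) (v : ℕ), l.length ≤ v → nth l v = [] := by
  intro l
  induction l with
  | nil => intro v _; rfl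
  | cons x l ih =>
    intro v hv
    cases v with
    | zero => simp at hv
    | succ v =>
      show nth l v = []
      exact ih v (by simpa using hv)

theorem sys : Sys (kagome 2) 12 ixK (nth nbt) := by
  refine ⟨?_, ?_, ?_, ?_⟩
  · intro e
    obtain ⟨x, t, rfl⟩ := edgeK_surj e
    obtain ⟨v, hv, h⟩ := surj' x t
    exact ⟨v, hv, by rw [ixK, h]⟩
  · intro v hv w hw h
    obtain ⟨h1, h2⟩ := edgeK_inj le_rfl h
    exact inj' v hv w hw (Prod.ext h1 h2)
  · intro v w hw
    by_cases hv : v < 12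
    · obtain ⟨h1, h2, h3⟩ := adj' v hv w hw
      exact ⟨h1, (kagome_adj le_rfl _ _ _ _).2 ⟨h2, h3⟩⟩
    · rw [nth_nil nbt v (by simpa [nbt] using hv)] at hw
      simp at hw
  · intro v hv e he
    obtain ⟨y, t, rfl⟩ := edgeK_surj e
    obtain ⟨h1, h2⟩ := (kagome_adj le_rfl _ _ _ _).1 he
    obtain ⟨w, hw, h⟩ := comp' v hv y t h1 h2
    exact ⟨w, hw, by rw [ixK, h]⟩

theorem base_dig : ∀ v < 12, dig s0 v = (dec v).2.val := by
  decide +kernel

theorem hNB : NBok (nth nbt) 12 NB 0 := by decide +kernel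

theorem run : check I root NB 0 0 1 = true := by decide +kernel

theorem ergodic : WSKErgodic (kagome 2) 3 := by
  have hex : ∀ e : (honeycomb 2).edgeSet, ∃ y : (ZMod 2 × ZMod 2) × Fin 3, edgeK 2 y.1 y.2 = e := by
    intro e
    obtain ⟨x, t, h⟩ := edgeK_surj e
    exact ⟨(x, t), h⟩
  choose rep hrep using hex
  have hrep' : ∀ x t, rep (edgeK 2 x t) = (x, t) := by
    intro x t
    obtain ⟨h1, h2⟩ := edgeK_inj le_rfl (hrep (edgeK 2 x t))
    exact Prod.ext h1 h2
  let c0 : (honeycomb 2).edgeSet → Fin 3 := fun e => (rep e).2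
  have hc0 : ∀ x t, c0 (edgeK 2 x t) = t := fun x t => by simp only [c0, hrep']
  have hP : Proper (kagome 2) c0 := by
    intro e f h
    obtain ⟨x, s, rfl⟩ := edgeK_surj e
    obtain ⟨y, t, rfl⟩ := edgeK_surj f
    rw [hc0, hc0]
    exact ((kagome_adj le_rfl _ _ _ _).1 h).1
  have hfin : Finite (honeycomb 2).edgeSet := by
    have : Finite (((ZMod 2 × ZMod 2)) × Fin 3) := inferInstance
    exact Finite.of_injective rep fun e f h => by rw [← hrep e, ← hrep f, h]
  have hgood : GoodCode (kagome 2) 12 ixK (fun c => Conn (kagome 2) c c0) s0 := by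
    intro c hc hm
    have : c = c0 := by
      funext e
      obtain ⟨v, hv, rfl⟩ := sys.surj e
      apply Fin.ext
      rw [← hm v hv, base_dig v hv, ixK, hc0]
    subst this
    exact Conn.refl hc
  have hsolved : Solved (kagome 2) 12 ixK (fun c => Conn (kagome 2) c c0) 0 0 := by
    refine check_sound I rfl (show 3 ≤ 4 by norm_num) sys
      (fun c a b U hc hab hU h => conn_hswap c a b U hc hab hU h)
      (fun g pi h => absurd h (by simp [I])) (fun g pi h => absurd h (by simp [I])) ?_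
      root NB 0 0 1 hNB (by norm_num) (by norm_num) (by norm_num) run
    intro k s hks
    have : (k, s) = (12, s0) := by simpa [I, goals, s0] using hks
    obtain ⟨rfl, rfl⟩ := Prod.mk.inj this
    exact fun c hc hm _ => hgood c hc fun v hv => hm.2 v hv
  exact ergodic_of_conn (base := c0) fun c hc => good_of_solved hsolved c hc

end K2

end Pool.Agent.H411R2.WSK
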