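import Mathlib

/-!
A discrete Stokes formula on the torus and sums over `ZMod n`.
-/

namespace Pool.Agent.H411R2.WSK

open Finset

/-- twice the signed area of the image of a unit cell -/
def cell (P Q : ℤ → ℤ → ℤ) (i j : ℤ) : ℤ :=
  (P (i + 1) j - P i j) * (Q i (j + 1) - Q i j) - (Q (i + 1) j - Q i j) * (P i (j + 1) - P i j) +
    ((P (i + 1) (j + 1) - P i (j + 1)) * (Q (i + 1) (j + 1) - Q (i + 1) j) -
      (Q (i + 1) (j + 1) - Q i (j + 1)) * (P (i + 1) (j + 1) - P (i + 1) j))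

theorem stokes (n : ℕ) (P Q : ℤ → ℤ → ℤ) (A1 A2 B1 B2 : ℤ)
    (hP1 : ∀ i j, P (i + n) j = P i j + A1) (hQ1 : ∀ i j, Q (i + n) j = Q i j + A2)
    (hP2 : ∀ i j, P i (j + n) = P i j + B1) (hQ2 : ∀ i j, Q i (j + n) = Q i j + B2) :
    ∑ i ∈ range n, ∑ j ∈ range n, cell P Q i j = 2 * (A1 * B2 - A2 * B1) := by
  let H : ℤ → ℤ → ℤ := fun i j => P i j * Q (i + 1) j - Q i j * P (i + 1) j
  let K : ℤ → ℤ → ℤ := fun i j => P i j * Q i (j + 1) - Q i j * P i (j + 1)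
  have hcell : ∀ i j, cell P Q i j = (H i j - H i (j + 1)) + (K (i + 1) j - K i j) := by
    intro i j; simp only [cell, H, K]; ring
  have h1 : ∀ i : ℤ, ∑ j ∈ range n, (H i j - H i (j + 1)) =
      -(B1 * (Q (i + 1) 0 - Q i 0) - B2 * (P (i + 1) 0 - P i 0)) := by
    intro i
    have := Finset.sum_range_sub' (fun j : ℕ => H i (j : ℤ)) n
    simp only [Nat.cast_add, Nat.cast_one, Nat.cast_zero] at this
    rw [this]
    simp only [H]
    have e1 := hP2 i 0; have e2 := hQ2 i 0; have e3 := hP2 (i + 1) 0; have e4 := hQ2 (i + 1) 0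
    rw [zero_add] at e1 e2 e3 e4
    rw [e1, e2, e3, e4]; ring
  have h2 : ∀ j : ℤ, ∑ i ∈ range n, (K (i + 1) j - K i j) =
      A1 * (Q 0 (j + 1) - Q 0 j) - A2 * (P 0 (j + 1) - P 0 j) := by
    intro j
    have := Finset.sum_range_sub (fun i : ℕ => K (i : ℤ) j) n
    simp only [Nat.cast_add, Nat.cast_one, Nat.cast_zero] at this
    rw [this]
    simp only [K]
    have e1 := hP1 0 j; have e2 := hQ1 0 j; have e3 := hP1 0 (j + 1); have e4 := hQ1 0 (j + 1)
    rw [zero_add] at e1 e2 e3 e4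
    rw [e1, e2, e3, e4]; ring
  simp only [hcell, sum_add_distrib]
  rw [Finset.sum_comm (f := fun (i j : ℕ) => K ((i : ℤ) + 1) j - K i j)]
  simp only [h1, h2]
  have t1 : ∀ F : ℤ → ℤ, ∑ i ∈ range n, (F ((i : ℤ) + 1) - F i) = F n - F 0 := by
    intro F
    have := Finset.sum_range_sub (fun i : ℕ => F (i : ℤ)) n
    simpa only [Nat.cast_add, Nat.cast_one, Nat.cast_zero] using this
  rw [sum_neg_distrib, sum_sub_distrib, sum_sub_distrib, ← mul_sum, ← mul_sum, ← mul_sum,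
    ← mul_sum, t1 (fun i => Q i 0), t1 (fun i => P i 0), t1 (fun j => Q 0 j), t1 (fun j => P 0 j)]
  have e1 := hP1 0 0; have e2 := hQ1 0 0; have e3 := hP2 0 0; have e4 := hQ2 0 0
  rw [zero_add] at e1 e2 e3 e4
  rw [e1, e2, e3, e4]; ring

theorem sum_zmod (n : ℕ) [NeZero n] (F : ℤ → ℤ) :
    ∑ x : ZMod n, F (x.val : ℤ) = ∑ i ∈ range n, F (i : ℤ) := by
  refine Finset.sum_nbij' (fun x => x.val) (fun i => (i : ZMod n)) ?_ ?_ ?_ ?_ ?_
  · intro x _; simpa using ZMod.val_lt x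
  · intro i _; simp
  · intro x _; simp
  · intro i hi
    simp only [mem_range] at hi
    exact ZMod.val_natCast_of_lt hi
  · intro x _; rfl

theorem per_val {β : Type*} {f : ℤ → β} {n : ℕ} (h : ∀ i, f (i + n) = f i) [NeZero n] (i : ℤ) :
    f (((i : ZMod n)).val : ℤ) = f i := by
  have hp : Function.Periodic f (n : ℤ) := h
  rw [ZMod.val_intCast]
  have h2 := hp.int_mul (i / (n : ℤ)) (i % n)
  rw [← h2]
  congr 1
  have := Int.emod_add_mul_ediv i n
  simp only [Int.cast_id]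
  linarith

theorem per_val2 {β : Type*} {f : ℤ → ℤ → β} {n : ℕ} (h1 : ∀ i j, f (i + n) j = f i j)
    (h2 : ∀ i j, f i (j + n) = f i j) [NeZero n] (i j : ℤ) :
    f (((i : ZMod n)).val : ℤ) (((j : ZMod n)).val : ℤ) = f i j := by
  rw [per_val (f := fun i => f i (((j : ZMod n)).val : ℤ)) (fun i => h1 i _)]
  exact per_val (f := fun j => f i j) (fun j => h2 i j) j

theorem sum_torus (n : ℕ) [NeZero n] (F : ℤ → ℤ → ℤ) :
    ∑ x : ZMod n × ZMod n, F (x.1.val : ℤ) (x.2.val : ℤ) =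
      ∑ i ∈ range n, ∑ j ∈ range n, F (i : ℤ) (j : ℤ) := by
  rw [Fintype.sum_prod_type]
  rw [← sum_zmod n (fun i => ∑ j ∈ range n, F i (j : ℤ))]
  refine Finset.sum_congr rfl fun x _ => ?_
  exact sum_zmod n (fun j => F (x.val : ℤ) j)

end Pool.Agent.H411R2.WSK
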