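import Pool.Agent.H411R2.WSK.Tri
import Pool.Agent.H411R2.WSK.Height
import Pool.Agent.H411R2.WSK.Stokes

/-!
4-colourings of the periodic triangular lattice with prescribed degree `k²/2`.
-/

namespace Pool.Agent.H411R2.WSK

open Finset

/-- parity of an integer as a Boolean -/
def bit (p : ℤ) : Bool := decide (p % 2 = 1)

theorem bit_add (p x : ℤ) : bit (p + x) = xor (bit p) (bit x) := by
  unfold bit
  rcases Int.emod_two_eq_zero_or_one p with h | h <;>
    rcases Int.emod_two_eq_zero_or_one x with h' | h' <;>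
    simp [Int.add_emod, h, h']

/-- the colour of a height modulo 2 -/
def colB (x y : Bool) : Fin 4 := if x then (if y then 3 else 1) else (if y then 2 else 0)

theorem or4_trans : ∀ x y u v w z : Bool, or4 (colB x y) (colB (xor x u) (xor y v))
    (colB (xor x w) (xor y z)) = or4 (colB false false) (colB u v) (colB w z) := by decide

theorem colB_inj : ∀ x y u v : Bool, colB x y = colB (xor x u) (xor y v) → u = false ∧ v = false := by
  decide

theorem or4_anti : ∀ p q r : Fin 4, or4 p q r = - or4 p r q := by decide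

/-- the colour of a height -/
def colI (p q : ℤ) : Fin 4 := colB (bit p) (bit q)

/-- the three unit steps -/
def VS (x y : ℤ) : Prop := (x = 1 ∧ y = 0) ∨ (x = 0 ∧ y = 1) ∨ (x = -1 ∧ y = -1)

theorem colI_add (p q x y : ℤ) :
    colI (p + x) (q + y) = colB (xor (bit p) (bit x)) (xor (bit q) (bit y)) := by
  rw [colI, bit_add, bit_add]

theorem up_face {p q p1 q1 p2 q2 : ℤ} (h1 : VS (p1 - p) (q1 - q)) (h2 : VS (p - p2) (q - q2))
    (h3 : VS (p2 - p1) (q2 - q1)) :
    or4 (colI p q) (colI p1 q1) (colI p2 q2) = (p1 - p) * (q2 - q) - (q1 - q) * (p2 - p) := by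
  obtain ⟨x, rfl⟩ : ∃ x, p1 = p + x := ⟨p1 - p, by ring⟩
  obtain ⟨y, rfl⟩ : ∃ y, q1 = q + y := ⟨q1 - q, by ring⟩
  obtain ⟨z, rfl⟩ : ∃ z, p2 = p + (-z) := ⟨p - p2, by ring⟩
  obtain ⟨w, rfl⟩ : ∃ w, q2 = q + (-w) := ⟨q - q2, by ring⟩
  have e1 : p + x - p = x := by ring
  have e2 : q + y - q = y := by ring
  have e3 : p + (-z) - p = -z := by ring
  have e4 : q + (-w) - q = -w := by ring
  have e5 : p - (p + (-z)) = z := by ring
  have e6 : q - (q + (-w)) = w := by ring
  have e7 : p + (-z) - (p + x) = -z - x := by ring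
  have e8 : q + (-w) - (q + y) = -w - y := by ring
  rw [e1, e2] at h1
  rw [e5, e6] at h2
  rw [e7, e8] at h3
  rw [e1, e2, e3, e4, colI_add, colI_add, colI, or4_trans]
  clear e1 e2 e3 e4 e5 e6 e7 e8
  rcases h1 with ⟨rfl, rfl⟩ | ⟨rfl, rfl⟩ | ⟨rfl, rfl⟩ <;>
    rcases h2 with ⟨rfl, rfl⟩ | ⟨rfl, rfl⟩ | ⟨rfl, rfl⟩ <;>
    first
    | decide
    | exact absurd h3 (by unfold VS; decide)

theorem colI_ne {p q p1 q1 : ℤ} (h : VS (p1 - p) (q1 - q)) : colI p q ≠ colI p1 q1 := by
  obtain ⟨x, rfl⟩ : ∃ x, p1 = p + x := ⟨p1 - p, by ring⟩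
  obtain ⟨y, rfl⟩ : ∃ y, q1 = q + y := ⟨q1 - q, by ring⟩
  have e1 : p + x - p = x := by ring
  have e2 : q + y - q = y := by ring
  rw [e1, e2] at h
  rw [colI_add, colI]
  intro hc
  have := colB_inj _ _ _ _ hc
  revert this
  rcases h with ⟨rfl, rfl⟩ | ⟨rfl, rfl⟩ | ⟨rfl, rfl⟩ <;> decide

/-- heights in the plane with all the properties we need -/
theorem exists_height (k m : ℤ) (n : ℕ) (hk : 0 ≤ k) (hm : 0 ≤ m) (hn : (n : ℤ) = k + 3 * m)
    (hpos : 0 < n) : ∃ P Q : ℤ → ℤ → ℤ,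
      (∀ i j, P (i + n) j = P i j + k) ∧ (∀ i j, Q (i + n) j = Q i j + 0) ∧
      (∀ i j, P i (j + n) = P i j + 0) ∧ (∀ i j, Q i (j + n) = Q i j + (-k)) ∧
      (∀ i j, VS (P (i + 1) j - P i j) (Q (i + 1) j - Q i j)) ∧
      (∀ i j, VS (P i j - P i (j + 1)) (Q i j - Q i (j + 1))) ∧
      (∀ i j, VS (P i (j + 1) - P (i + 1) j) (Q i (j + 1) - Q (i + 1) j)) := by
  have hpos' : 0 < k + 3 * m := by rw [← hn]; exact_mod_cast hpos
  choose a0 a1 a2 ha using exists_H k m hpos'
  refine ⟨fun i j => a0 i j - a2 i j, fun i j => a1 i j - a2 i j, ?_, ?_, ?_, ?_, ?_, ?_, ?_⟩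
  · intro i j
    have := (ha i j).shift1.unique hpos' (ha (i + (k + 3 * m)) j)
    rw [← hn] at this
    simp only; omega
  · intro i j
    have := (ha i j).shift1.unique hpos' (ha (i + (k + 3 * m)) j)
    rw [← hn] at this
    simp only; omega
  · intro i j
    have := (ha i j).shift2.unique hpos' (ha i (j + (k + 3 * m)))
    rw [← hn] at this
    simp only; omega
  · intro i j
    have := (ha i j).shift2.unique hpos' (ha i (j + (k + 3 * m)))
    rw [← hn] at this
    simp only; omega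
  · intro i j
    have := (ha i j).step1 hk hm hpos' (ha (i + 1) j)
    simp only [VS]; omega
  · intro i j
    have := (ha i (j + 1)).step2 hk hm hpos' (ha i j)
    simp only [VS]; omega
  · intro i j
    have := (ha (i + 1) j).step3 hk hm hpos' (ha i (j + 1))
    simp only [VS]; omega

theorem add_cast1 {n : ℕ} [NeZero n] (x : ZMod n × ZMod n) (s t : ℤ) :
    x + ((s : ZMod n), (t : ZMod n)) =
      ((((x.1.val : ℤ) + s : ℤ) : ZMod n), (((x.2.val : ℤ) + t : ℤ) : ZMod n)) := by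
  ext <;> simp

/-- For even `k ≡ n (mod 3)` with `0 ≤ k ≤ n` there is a 4-colouring of `T_n` of degree `k²/2`. -/
theorem exists_colouring (k m : ℤ) (n : ℕ) (hk : 0 ≤ k) (hm : 0 ≤ m) (hn : (n : ℤ) = k + 3 * m)
    (hn2 : 2 ≤ n) (hev : Even k) :
    ∃ c : (triangular n).Coloring (Fin 4), haveI : NeZero n := ⟨by omega⟩; E c = -2 * k ^ 2 := by
  have : NeZero n := ⟨by omega⟩
  obtain ⟨P, Q, p1, q1, p2, q2, s1, s2, s3⟩ := exists_height k m n hk hm hn (by omega)
  have hk2 : bit k = false := by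
    obtain ⟨t, rfl⟩ := hev
    simp only [bit, decide_eq_false_iff_not]
    omega
  have hk2' : bit (-k) = false := by
    obtain ⟨t, rfl⟩ := hev
    simp only [bit, decide_eq_false_iff_not]
    omega
  have hk0 : bit 0 = false := by decide
  let col : ℤ → ℤ → Fin 4 := fun i j => colI (P i j) (Q i j)
  have per1 : ∀ i j, col (i + n) j = col i j := by
    intro i j
    simp only [col, p1, q1, colI, bit_add, hk2, hk0, Bool.xor_false]
  have per2 : ∀ i j, col i (j + n) = col i j := by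
    intro i j
    simp only [col, p2, q2, colI, bit_add, hk2', hk0, Bool.xor_false]
  let c : ZMod n × ZMod n → Fin 4 := fun x => col (x.1.val : ℤ) (x.2.val : ℤ)
  have hcc : ∀ i j : ℤ, c ((i : ZMod n), (j : ZMod n)) = col i j := by
    intro i j
    exact per_val2 per1 per2 i j
  have hsh : ∀ (x : ZMod n × ZMod n) (s t : ℤ),
      c (x + ((s : ZMod n), (t : ZMod n))) = col ((x.1.val : ℤ) + s) ((x.2.val : ℤ) + t) := by
    intro x s t
    rw [add_cast1, hcc]
  have h10 : ∀ x, c (x + (1, 0)) = col ((x.1.val : ℤ) + 1) (x.2.val : ℤ) := by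
    intro x; have := hsh x 1 0; simpa using this
  have h01 : ∀ x, c (x + (0, 1)) = col (x.1.val : ℤ) ((x.2.val : ℤ) + 1) := by
    intro x; have := hsh x 0 1; simpa using this
  have h11 : ∀ x, c (x + (1, 1)) = col ((x.1.val : ℤ) + 1) ((x.2.val : ℤ) + 1) := by
    intro x; have := hsh x 1 1; simpa using this
  have d1 : ∀ x, c x ≠ c (x + (1, 0)) := by
    intro x; rw [h10]; exact colI_ne (s1 _ _)
  have d2 : ∀ x, c x ≠ c (x + (0, 1)) := by
    intro x; rw [h01]; exact (colI_ne (s2 _ _)).symm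
  have d3 : ∀ x, c (x + (1, 0)) ≠ c (x + (0, 1)) := by
    intro x; rw [h01, h10]; exact colI_ne (s3 _ _)
  have d3' : ∀ x, c x ≠ c (x + (1, -1)) := by
    intro x
    have := d3 (x + (0, -1))
    have e1 : x + (0, -1) + (1, 0) = x + (1, -1) := by rw [add_assoc]; simp
    have e2 : x + (0, -1) + (0, 1) = x := by
      rw [add_assoc]
      ext <;> simp
    rw [e1, e2] at this
    exact this.symm
  have proper : ∀ {x y : ZMod n × ZMod n}, (triangular n).Adj x y → c x ≠ c y := by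
    intro x y h
    rw [adj_iff] at h
    rcases h.2 with (rfl | rfl | rfl) | (rfl | rfl | rfl)
    · exact d1 _
    · exact d2 _
    · exact d3' _
    · exact (d1 _).symm
    · exact (d2 _).symm
    · exact (d3' _).symm
  refine ⟨SimpleGraph.Coloring.mk c proper, ?_⟩
  show E c = _
  have hcell : ∀ x : ZMod n × ZMod n, or4 (c x) (c (x + (1, 0))) (c (x + (0, 1))) +
      or4 (c (x + (1, 0))) (c (x + (1, 1))) (c (x + (0, 1))) =
      cell P Q (x.1.val : ℤ) (x.2.val : ℤ) := by
    intro x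
    rw [h10, h01, h11]
    have u1 := up_face (s1 (x.1.val : ℤ) (x.2.val : ℤ)) (s2 (x.1.val : ℤ) (x.2.val : ℤ))
      (s3 (x.1.val : ℤ) (x.2.val : ℤ))
    have u2 := up_face (s3 (x.1.val : ℤ) (x.2.val : ℤ)) (s2 ((x.1.val : ℤ) + 1) (x.2.val : ℤ))
      (s1 (x.1.val : ℤ) ((x.2.val : ℤ) + 1))
    rw [or4_anti] at u2
    show or4 (colI _ _) (colI _ _) (colI _ _) + or4 (colI _ _) (colI _ _) (colI _ _) = _
    rw [u1]
    unfold cell
    linear_combination -u2
  unfold E
  simp only [hcell]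
  rw [sum_torus n (fun i j => cell P Q i j), stokes n P Q k 0 0 (-k) p1 q1 p2 q2]
  ring

end Pool.Agent.H411R2.WSK
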