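import Pool.Agent.H411R2.WSK.Kempe
import Pool.Agent.H411R2.WSK.TriFam

/-!
The periodic kagome lattice: an invariant of 3-colourings modulo 4 and non-ergodicity for `n ≥ 3`.
-/

namespace Pool.Agent.H411R2.WSK

open Finset

/-- the three directions -/
def dd (n : ℕ) : Fin 3 → ZMod n × ZMod n := ![(0, 0), (1, 0), (0, 1)]

theorem dd_inj {n : ℕ} (hn : 2 ≤ n) {s t : Fin 3} (h : dd n s = dd n t) : s = t := by
  have : Fact (1 < n) := ⟨hn⟩
  fin_cases s <;> fin_cases t <;> simp [dd] at h ⊢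

theorem honeycomb_adj {n : ℕ} (x y : ZMod n × ZMod n) :
    (honeycomb n).Adj (Sum.inl x) (Sum.inr y) ↔ ∃ t : Fin 3, y = x - dd n t := by
  rw [honeycomb, SimpleGraph.fromRel_adj]
  constructor
  · rintro ⟨-, ⟨z, hz, h⟩ | ⟨z, hz, -⟩⟩
    · obtain rfl := Sum.inl_injective hz
      rcases h with h | h | h
      · exact ⟨0, by rw [Sum.inr_injective h]; ext <;> simp [dd]⟩
      · exact ⟨1, Sum.inr_injective h⟩
      · exact ⟨2, Sum.inr_injective h⟩
    · exact absurd hz (by simp)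
  · rintro ⟨t, ht⟩
    refine ⟨by simp, Or.inl ⟨x, rfl, ?_⟩⟩
    fin_cases t
    · left; rw [ht]; simp [dd]
    · right; left; rw [ht]; rfl
    · right; right; rw [ht]; rfl

/-- the edge of direction `t` at the vertex `(x, A)` -/
def edgeK (n : ℕ) (x : ZMod n × ZMod n) (t : Fin 3) : (honeycomb n).edgeSet :=
  ⟨s(Sum.inl x, Sum.inr (x - dd n t)), by
    rw [SimpleGraph.mem_edgeSet]; exact (honeycomb_adj _ _).2 ⟨t, rfl⟩⟩

theorem edgeK_surj {n : ℕ} (e : (honeycomb n).edgeSet) : ∃ x t, edgeK n x t = e := by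
  obtain ⟨e, he⟩ := e
  induction e using Sym2.ind with
  | _ u v =>
    rw [SimpleGraph.mem_edgeSet] at he
    rcases u with x | x <;> rcases v with y | y
    · exfalso
      rw [honeycomb, SimpleGraph.fromRel_adj] at he
      rcases he.2 with ⟨z, -, h | h | h⟩ | ⟨z, -, h | h | h⟩ <;> simp at h
    · obtain ⟨t, ht⟩ := (honeycomb_adj x y).1 he
      exact ⟨x, t, Subtype.ext (by simp [edgeK, ht])⟩
    · obtain ⟨t, ht⟩ := (honeycomb_adj y x).1 he.symm
      exact ⟨y, t, Subtype.ext (by simp [edgeK, ht, Sym2.eq_swap])⟩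
    · exfalso
      rw [honeycomb, SimpleGraph.fromRel_adj] at he
      rcases he.2 with ⟨z, h, -⟩ | ⟨z, h, -⟩ <;> simp at h

theorem edgeK_inj {n : ℕ} (hn : 2 ≤ n) {x y : ZMod n × ZMod n} {s t : Fin 3}
    (h : edgeK n x s = edgeK n y t) : x = y ∧ s = t := by
  have h' := congrArg Subtype.val h
  simp only [edgeK, Sym2.eq_iff, Sum.inl.injEq, Sum.inr.injEq, reduceCtorEq, and_false,
    or_false] at h'
  obtain ⟨h1, h2⟩ := h'
  subst h1
  exact ⟨rfl, dd_inj hn (sub_right_injective h2)⟩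

theorem kagome_adj {n : ℕ} (hn : 2 ≤ n) (x y : ZMod n × ZMod n) (s t : Fin 3) :
    (kagome n).Adj (edgeK n x s) (edgeK n y t) ↔ s ≠ t ∧ (x = y ∨ x - dd n s = y - dd n t) := by
  rw [kagome, SimpleGraph.lineGraph_adj_iff_exists]
  constructor
  · rintro ⟨hne, v, h1, h2⟩
    simp only [edgeK, Sym2.mem_iff] at h1 h2
    rcases h1 with rfl | rfl
    · have hxy : x = y := by simpa using h2
      subst hxy
      exact ⟨fun h => hne (by rw [h]), Or.inl rfl⟩
    · have hxy : x - dd n s = y - dd n t := by simpa using h2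
      refine ⟨fun h => hne ?_, Or.inr hxy⟩
      subst h
      rw [sub_left_injective hxy]
  · rintro ⟨hst, h⟩
    refine ⟨fun h' => hst (edgeK_inj hn h').2, ?_⟩
    rcases h with rfl | h
    · exact ⟨Sum.inl x, by simp [edgeK], by simp [edgeK]⟩
    · exact ⟨Sum.inr (x - dd n s), by simp [edgeK], by simp [edgeK, h]⟩

/-- orientation sign -/
def sg (r s : Fin 3) : ℤ := if s = r + 1 then 1 else if r = s + 1 then -1 else 0

theorem sg_swap : ∀ a b : Fin 3, a ≠ b → ∀ p0 p1 p2 : Fin 3, p0 ≠ p1 → p1 ≠ p2 → p0 ≠ p2 →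
    (sg (Equiv.swap a b p2) (Equiv.swap a b p1) = sg p2 p1 -
      2 * ((if p0 = a then 1 else 0) + (if p1 = a then 1 else 0) + (if p2 = a then 1 else 0))) ∨
    (sg (Equiv.swap a b p2) (Equiv.swap a b p1) = sg p2 p1 -
      2 * ((if p0 = a then 1 else 0) + (if p1 = a then 1 else 0) + (if p2 = a then 1 else 0)) + 4) := by
  decide

section

variable {V : Type*} {G : SimpleGraph V}

theorem tri_swap {c c' : V → Fin 3} {a b : Fin 3} (hab : a ≠ b)
    {U : Set V} [DecidablePred (· ∈ U)] (hc : ∀ v w, G.Adj v w → c v ≠ c w)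
    (hU : Closed G c a b U) (hs : IsSwap c c' a b U)
    {f0 f1 f2 : V} (h01 : G.Adj f0 f1) (h12 : G.Adj f1 f2) (h02 : G.Adj f0 f2) :
    ∃ t : ℤ, sg (c' f2) (c' f1) = sg (c f2) (c f1) -
      2 * ((if c f0 = a ∧ f0 ∈ U then 1 else 0) + (if c f1 = a ∧ f1 ∈ U then 1 else 0) +
        (if c f2 = a ∧ f2 ∈ U then 1 else 0)) + 4 * t := by
  by_cases hf : f0 ∉ U ∧ f1 ∉ U ∧ f2 ∉ U
  · obtain ⟨h0, h1, h2⟩ := hf
    refine ⟨0, ?_⟩
    rw [hs.2 f2 h2, hs.2 f1 h1]
    simp [h0, h1, h2]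
  · have all : (c f0 = a ∨ c f0 = b → f0 ∈ U) ∧ (c f1 = a ∨ c f1 = b → f1 ∈ U) ∧
        (c f2 = a ∨ c f2 = b → f2 ∈ U) := by
      by_cases h0 : f0 ∈ U
      · exact ⟨fun _ => h0, fun h => hU.2 _ h0 _ h01 h, fun h => hU.2 _ h0 _ h02 h⟩
      · by_cases h1 : f1 ∈ U
        · exact ⟨fun h => hU.2 _ h1 _ h01.symm h, fun _ => h1, fun h => hU.2 _ h1 _ h12 h⟩
        · by_cases h2 : f2 ∈ U
          · exact ⟨fun h => hU.2 _ h2 _ h02.symm h, fun h => hU.2 _ h2 _ h12.symm h, fun _ => h2⟩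
          · exact absurd ⟨h0, h1, h2⟩ hf
    have sw : ∀ z : V, (c z = a ∨ c z = b → z ∈ U) → c' z = Equiv.swap a b (c z) := by
      intro z hz
      by_cases h : z ∈ U
      · exact hs.1 z h
      · rw [hs.2 z h, Equiv.swap_apply_of_ne_of_ne]
        · exact fun h' => h (hz (Or.inl h'))
        · exact fun h' => h (hz (Or.inr h'))
    have i1 : (c f0 = a ∧ f0 ∈ U) ↔ c f0 = a := ⟨fun h => h.1, fun h => ⟨h, all.1 (Or.inl h)⟩⟩
    have i2 : (c f1 = a ∧ f1 ∈ U) ↔ c f1 = a := ⟨fun h => h.1, fun h => ⟨h, all.2.1 (Or.inl h)⟩⟩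
    have i3 : (c f2 = a ∧ f2 ∈ U) ↔ c f2 = a := ⟨fun h => h.1, fun h => ⟨h, all.2.2 (Or.inl h)⟩⟩
    simp only [i1, i2, i3]
    rw [sw f2 all.2.2, sw f1 all.2.1]
    rcases sg_swap a b hab (c f0) (c f1) (c f2) (hc _ _ h01) (hc _ _ h12) (hc _ _ h02) with h | h
    · exact ⟨0, by rw [h]; ring⟩
    · exact ⟨1, by rw [h]; ring⟩

end

/-- signed number of honeycomb vertices -/
def EK {n : ℕ} [NeZero n] (c : (honeycomb n).edgeSet → Fin 3) : ℤ :=
  ∑ x : ZMod n × ZMod n, (sg (c (edgeK n x 2)) (c (edgeK n x 1)) +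
    sg (c (edgeK n (x + (0, 1)) 2)) (c (edgeK n (x + (1, 0)) 1)))

theorem adjA {n : ℕ} (hn : 2 ≤ n) (x : ZMod n × ZMod n) {s t : Fin 3} (h : s ≠ t) :
    (kagome n).Adj (edgeK n x s) (edgeK n x t) := (kagome_adj hn _ _ _ _).2 ⟨h, Or.inl rfl⟩

theorem adjB {n : ℕ} (hn : 2 ≤ n) (x : ZMod n × ZMod n) {s t : Fin 3} (h : s ≠ t) :
    (kagome n).Adj (edgeK n (x + dd n s) s) (edgeK n (x + dd n t) t) :=
  (kagome_adj hn _ _ _ _).2 ⟨h, Or.inr (by simp)⟩

theorem EK_invariant {n : ℕ} [NeZero n] (hn : 2 ≤ n) {c c' : (honeycomb n).edgeSet → Fin 3}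
    (hc : ∀ x y, (kagome n).Adj x y → c x ≠ c y) {a b : Fin 3} (hab : a ≠ b)
    {U : Set (honeycomb n).edgeSet} (hU : Closed (kagome n) c a b U) (hs : IsSwap c c' a b U) :
    ∃ t : ℤ, EK c' = EK c + 4 * t := by
  classical
  let w : (honeycomb n).edgeSet → ℤ := fun e => if c e = a ∧ e ∈ U then 1 else 0
  have hA : ∀ x : ZMod n × ZMod n, ∃ t : ℤ, sg (c' (edgeK n x 2)) (c' (edgeK n x 1)) =
      sg (c (edgeK n x 2)) (c (edgeK n x 1)) -
      2 * (w (edgeK n x 0) + w (edgeK n x 1) + w (edgeK n x 2)) + 4 * t := fun x =>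
    tri_swap hab hc hU hs (adjA hn x (by decide)) (adjA hn x (by decide)) (adjA hn x (by decide))
  have hB : ∀ x : ZMod n × ZMod n, ∃ t : ℤ,
      sg (c' (edgeK n (x + (0, 1)) 2)) (c' (edgeK n (x + (1, 0)) 1)) =
      sg (c (edgeK n (x + (0, 1)) 2)) (c (edgeK n (x + (1, 0)) 1)) -
      2 * (w (edgeK n (x + (0, 0)) 0) + w (edgeK n (x + (1, 0)) 1) + w (edgeK n (x + (0, 1)) 2)) +
        4 * t := fun x =>
    tri_swap hab hc hU hs (adjB hn x (s := 0) (t := 1) (by decide))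
      (adjB hn x (s := 1) (t := 2) (by decide)) (adjB hn x (s := 0) (t := 2) (by decide))
  choose tA hA using hA
  choose tB hB using hB
  have s0 := Equiv.sum_comp (Equiv.addRight ((0, 0) : ZMod n × ZMod n)) (fun x => w (edgeK n x 0))
  have s1 := Equiv.sum_comp (Equiv.addRight ((1, 0) : ZMod n × ZMod n)) (fun x => w (edgeK n x 1))
  have s2 := Equiv.sum_comp (Equiv.addRight ((0, 1) : ZMod n × ZMod n)) (fun x => w (edgeK n x 2))
  simp only [Equiv.coe_addRight] at s0 s1 s2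
  refine ⟨∑ x, tA x + ∑ x, tB x - ∑ x : ZMod n × ZMod n, w (edgeK n x 0) -
    ∑ x : ZMod n × ZMod n, w (edgeK n x 1) - ∑ x : ZMod n × ZMod n, w (edgeK n x 2), ?_⟩
  unfold EK
  simp only [hA, hB, sum_add_distrib, sum_sub_distrib, ← mul_sum]
  rw [s0, s1, s2]
  ring

theorem EK_reach {n : ℕ} [NeZero n] (hn : 2 ≤ n) {c c' : (kagome n).Coloring (Fin 3)}
    (h : Relation.ReflTransGen KempeStep c c') : ∃ t : ℤ, EK c' = EK c + 4 * t := by
  induction h with
  | refl => exact ⟨0, by ring⟩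
  | tail _ hstep ih =>
    obtain ⟨t, ht⟩ := ih
    obtain ⟨a, b, hab, U, hU, hs⟩ := hstep.closed
    obtain ⟨t', ht'⟩ := EK_invariant hn (fun x y h => SimpleGraph.Coloring.valid _ h) hab hU hs
    exact ⟨t + t', by rw [ht', ht]; ring⟩

/-- index of a unit step -/
def idxV (x y : ℤ) : Fin 3 := if x = 1 then 0 else if y = 1 then 1 else 2

theorem sg_idxV {x y z w : ℤ} (h : VS x y) (h' : VS z w) :
    sg (idxV x y) (idxV z w) = x * w - y * z := by
  rcases h with ⟨rfl, rfl⟩ | ⟨rfl, rfl⟩ | ⟨rfl, rfl⟩ <;>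
    rcases h' with ⟨rfl, rfl⟩ | ⟨rfl, rfl⟩ | ⟨rfl, rfl⟩ <;> decide

theorem idxV_ne {x y z w : ℤ} (h : VS x y) (h' : VS z w) (h'' : VS (-x - z) (-y - w)) :
    idxV x y ≠ idxV z w := by
  rcases h with ⟨rfl, rfl⟩ | ⟨rfl, rfl⟩ | ⟨rfl, rfl⟩ <;>
    rcases h' with ⟨rfl, rfl⟩ | ⟨rfl, rfl⟩ | ⟨rfl, rfl⟩ <;>
    first
    | decide
    | exact absurd h'' (by unfold VS; decide)

theorem exists_colouringK (k m : ℤ) (n : ℕ) (hk : 0 ≤ k) (hm : 0 ≤ m) (hn : (n : ℤ) = k + 3 * m)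
    (hn2 : 2 ≤ n) :
    ∃ c : (kagome n).Coloring (Fin 3), haveI : NeZero n := ⟨by omega⟩; EK c = 2 * k ^ 2 := by
  have : NeZero n := ⟨by omega⟩
  obtain ⟨P, Q, p1, q1, p2, q2, s1, s2, s3⟩ := exists_height k m n hk hm hn (by omega)
  -- the three edge colours
  let al : ℤ → ℤ → Fin 3 := fun i j => idxV (P (i + 1) j - P i j) (Q (i + 1) j - Q i j)
  let be : ℤ → ℤ → Fin 3 := fun i j => idxV (P i j - P i (j + 1)) (Q i j - Q i (j + 1))
  let ga : ℤ → ℤ → Fin 3 := fun i j =>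
    idxV (P i (j + 1) - P (i + 1) j) (Q i (j + 1) - Q (i + 1) j)
  have eP1 : ∀ i j, P (i + n + 1) j = P (i + 1) j + k := by
    intro i j; rw [← p1 (i + 1) j]; congr 1; ring
  have eQ1 : ∀ i j, Q (i + n + 1) j = Q (i + 1) j := by
    intro i j; rw [← add_zero (Q (i + 1) j), ← q1 (i + 1) j]; congr 1; ring
  have eP2 : ∀ i j, P i (j + n + 1) = P i (j + 1) := by
    intro i j; rw [← add_zero (P i (j + 1)), ← p2 i (j + 1)]; congr 1; ring
  have eQ2 : ∀ i j, Q i (j + n + 1) = Q i (j + 1) + (-k) := by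
    intro i j; rw [← q2 i (j + 1)]; congr 1; ring
  have al1 : ∀ i j, al (i + n) j = al i j := by
    intro i j; simp only [al, eP1, eQ1, p1, q1]; congr 1 <;> ring
  have al2 : ∀ i j, al i (j + n) = al i j := by
    intro i j; simp only [al, p2, q2]; congr 1 <;> ring
  have be1 : ∀ i j, be (i + n) j = be i j := by
    intro i j; simp only [be, p1, q1]; congr 1 <;> ring
  have be2 : ∀ i j, be i (j + n) = be i j := by
    intro i j; simp only [be, eP2, eQ2, p2, q2]; congr 1 <;> ring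
  have ga1 : ∀ i j, ga (i + n) j = ga i j := by
    intro i j; simp only [ga, eP1, eQ1, p1, q1]; congr 1 <;> ring
  have ga2 : ∀ i j, ga i (j + n) = ga i j := by
    intro i j; simp only [ga, eP2, eQ2, p2, q2]; congr 1 <;> ring
  -- transfer to the torus
  let T : (ℤ → ℤ → Fin 3) → ZMod n × ZMod n → Fin 3 := fun f x => f (x.1.val : ℤ) (x.2.val : ℤ)
  have hT : ∀ (f : ℤ → ℤ → Fin 3), (∀ i j, f (i + n) j = f i j) → (∀ i j, f i (j + n) = f i j) →
      ∀ (x : ZMod n × ZMod n) (s t : ℤ),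
      T f (x + ((s : ZMod n), (t : ZMod n))) = f ((x.1.val : ℤ) + s) ((x.2.val : ℤ) + t) := by
    intro f h1 h2 x s t
    rw [add_cast1]
    exact per_val2 h1 h2 _ _
  let C : ZMod n × ZMod n → Fin 3 → Fin 3 := fun x => ![T ga x, T be x, T al x]
  -- colours at the vertices of type A
  have A01 : ∀ i j, ga i j ≠ be i j := fun i j =>
    idxV_ne (s3 i j) (s2 i j) (by convert s1 i j using 1 <;> ring)
  have A12 : ∀ i j, be i j ≠ al i j := fun i j =>
    idxV_ne (s2 i j) (s1 i j) (by convert s3 i j using 1 <;> ring)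
  have A02 : ∀ i j, ga i j ≠ al i j := fun i j =>
    idxV_ne (s3 i j) (s1 i j) (by convert s2 i j using 1 <;> ring)
  -- colours at the vertices of type B
  have B01 : ∀ i j, ga i j ≠ be (i + 1) j := fun i j =>
    idxV_ne (s3 i j) (s2 (i + 1) j) (by convert s1 i (j + 1) using 1 <;> ring)
  have B12 : ∀ i j, be (i + 1) j ≠ al i (j + 1) := fun i j =>
    idxV_ne (s2 (i + 1) j) (s1 i (j + 1)) (by convert s3 i j using 1 <;> ring)
  have B02 : ∀ i j, ga i j ≠ al i (j + 1) := fun i j =>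
    idxV_ne (s3 i j) (s1 i (j + 1)) (by convert s2 (i + 1) j using 1 <;> ring)
  have CA : ∀ (x : ZMod n × ZMod n) (s t : Fin 3), s ≠ t → C x s ≠ C x t := by
    intro x s t hst
    have a01 : T ga x ≠ T be x := A01 _ _
    have a12 : T be x ≠ T al x := A12 _ _
    have a02 : T ga x ≠ T al x := A02 _ _
    fin_cases s <;> fin_cases t <;> first
      | exact absurd rfl hst
      | exact a01
      | exact a12
      | exact a02
      | exact a01.symm
      | exact a12.symm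
      | exact a02.symm
  have CB : ∀ (x : ZMod n × ZMod n) (s t : Fin 3), s ≠ t →
      C (x + dd n s) s ≠ C (x + dd n t) t := by
    intro x s t hst
    have t0 : C (x + dd n 0) 0 = ga (x.1.val : ℤ) (x.2.val : ℤ) := by
      have := hT ga ga1 ga2 x 0 0
      simp only [Int.cast_zero, add_zero] at this
      exact this
    have t1 : C (x + dd n 1) 1 = be ((x.1.val : ℤ) + 1) (x.2.val : ℤ) := by
      have := hT be be1 be2 x 1 0
      simp only [Int.cast_zero, Int.cast_one, add_zero] at this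
      exact this
    have t2 : C (x + dd n 2) 2 = al (x.1.val : ℤ) ((x.2.val : ℤ) + 1) := by
      have := hT al al1 al2 x 0 1
      simp only [Int.cast_zero, Int.cast_one, add_zero] at this
      exact this
    have b01 := B01 (x.1.val : ℤ) (x.2.val : ℤ)
    have b12 := B12 (x.1.val : ℤ) (x.2.val : ℤ)
    have b02 := B02 (x.1.val : ℤ) (x.2.val : ℤ)
    rw [← t0, ← t1] at b01
    rw [← t1, ← t2] at b12
    rw [← t0, ← t2] at b02
    fin_cases s <;> fin_cases t <;> first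
      | exact absurd rfl hst
      | exact b01
      | exact b12
      | exact b02
      | exact b01.symm
      | exact b12.symm
      | exact b02.symm
  -- the colouring of the edges
  have hex : ∀ e : (honeycomb n).edgeSet, ∃ y : (ZMod n × ZMod n) × Fin 3, edgeK n y.1 y.2 = e := by
    intro e
    obtain ⟨x, t, h⟩ := edgeK_surj e
    exact ⟨(x, t), h⟩
  choose rep hrep using hex
  have hrep' : ∀ x t, rep (edgeK n x t) = (x, t) := by
    intro x t
    obtain ⟨h1, h2⟩ := edgeK_inj hn2 (hrep (edgeK n x t))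
    exact Prod.ext h1 h2
  let c : (honeycomb n).edgeSet → Fin 3 := fun e => C (rep e).1 (rep e).2
  have hcE : ∀ x t, c (edgeK n x t) = C x t := by
    intro x t; simp only [c, hrep']
  have proper : ∀ {e f : (honeycomb n).edgeSet}, (kagome n).Adj e f → c e ≠ c f := by
    intro e f h
    obtain ⟨x, s, rfl⟩ := edgeK_surj e
    obtain ⟨y, t, rfl⟩ := edgeK_surj f
    rw [kagome_adj hn2] at h
    rw [hcE, hcE]
    obtain ⟨hst, rfl | h⟩ := h
    · exact CA x s t hst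
    · have := CB (x - dd n s) s t hst
      rw [sub_add_cancel, h, sub_add_cancel] at this
      exact this
  refine ⟨SimpleGraph.Coloring.mk c proper, ?_⟩
  show EK c = _
  have hcell : ∀ x : ZMod n × ZMod n, sg (c (edgeK n x 2)) (c (edgeK n x 1)) +
      sg (c (edgeK n (x + (0, 1)) 2)) (c (edgeK n (x + (1, 0)) 1)) =
      - cell P Q (x.1.val : ℤ) (x.2.val : ℤ) := by
    intro x
    simp only [hcE]
    have t1 : C (x + (1, 0)) 1 = be ((x.1.val : ℤ) + 1) (x.2.val : ℤ) := by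
      have := hT be be1 be2 x 1 0
      simp only [Int.cast_zero, Int.cast_one, add_zero] at this
      exact this
    have t2 : C (x + (0, 1)) 2 = al (x.1.val : ℤ) ((x.2.val : ℤ) + 1) := by
      have := hT al al1 al2 x 0 1
      simp only [Int.cast_zero, Int.cast_one, add_zero] at this
      exact this
    have t3 : C x 2 = al (x.1.val : ℤ) (x.2.val : ℤ) := rfl
    have t4 : C x 1 = be (x.1.val : ℤ) (x.2.val : ℤ) := rfl
    rw [t1, t2, t3, t4]
    have u1 := sg_idxV (s1 (x.1.val : ℤ) (x.2.val : ℤ)) (s2 (x.1.val : ℤ) (x.2.val : ℤ))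
    have u2 := sg_idxV (s1 (x.1.val : ℤ) ((x.2.val : ℤ) + 1)) (s2 ((x.1.val : ℤ) + 1) (x.2.val : ℤ))
    show sg (idxV _ _) (idxV _ _) + sg (idxV _ _) (idxV _ _) = _
    rw [u1, u2]
    unfold cell
    ring
  unfold EK
  simp only [hcell, sum_neg_distrib]
  rw [sum_torus n (fun i j => cell P Q i j), stokes n P Q k 0 0 (-k) p1 q1 p2 q2]
  ring

/-- the kagome lattice is not ergodic for `n ≥ 3` -/
theorem kagome_not_ergodic {n : ℕ} (hn : 3 ≤ n) : ¬ WSKErgodic (kagome n) 3 := by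
  intro herg
  have : NeZero n := ⟨by omega⟩
  obtain ⟨c, hc⟩ := exists_colouringK (n : ℤ) 0 n (by positivity) le_rfl (by ring) (by omega)
  obtain ⟨c', hc'⟩ := exists_colouringK ((n : ℤ) - 3) 1 n (by omega) (by norm_num) (by ring)
    (by omega)
  obtain ⟨t, ht⟩ := EK_reach (by omega) (herg c c')
  rw [hc, hc'] at ht
  have h9 : 2 * ((n : ℤ) - 3) ^ 2 = 2 * (n : ℤ) ^ 2 - 12 * n + 18 := by ring
  rw [h9] at ht
  omega

end Pool.Agent.H411R2.WSK
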