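import Pool.Agent.H411R2.WSK.Defs

/-!
Closed swaps: swapping two colours on any union of Kempe chains.
-/

namespace Pool.Agent.H411R2.WSK

variable {V : Type*} {G : SimpleGraph V} {q : ℕ}

/-- swapping `a` and `b` on a set `U` which is a union of Kempe chains -/
def Closed (G : SimpleGraph V) (c : V → Fin q) (a b : Fin q) (U : Set V) : Prop :=
  (∀ v ∈ U, c v = a ∨ c v = b) ∧
    (∀ v ∈ U, ∀ w, G.Adj v w → (c w = a ∨ c w = b) → w ∈ U)

/-- `c'` is obtained from `c` by swapping `a` and `b` on `U`. -/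
def IsSwap (c c' : V → Fin q) (a b : Fin q) (U : Set V) : Prop :=
  (∀ v ∈ U, c' v = Equiv.swap a b (c v)) ∧ (∀ v ∉ U, c' v = c v)

theorem KempeStep.closed {c c' : G.Coloring (Fin q)} (h : KempeStep c c') :
    ∃ a b : Fin q, a ≠ b ∧ ∃ U : Set V, Closed G c a b U ∧ IsSwap c c' a b U := by
  obtain ⟨a, b, hab, K, h1, h2⟩ := h
  refine ⟨a, b, hab, {v | ∃ h : v ∈ {v : V | c v = a ∨ c v = b},
    (⟨v, h⟩ : {v : V | c v = a ∨ c v = b}) ∈ K.supp}, ⟨?_, ?_⟩, ⟨?_, ?_⟩⟩
  · rintro v ⟨hv, -⟩; exact hv
  · rintro v ⟨hv, hvK⟩ w hvw hw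
    refine ⟨hw, ?_⟩
    rw [SimpleGraph.ConnectedComponent.mem_supp_iff] at hvK ⊢
    rw [← hvK]
    apply SimpleGraph.ConnectedComponent.sound
    apply SimpleGraph.Adj.reachable
    simpa using hvw.symm
  · rintro v ⟨hv, hvK⟩; exact h1 v hv hvK
  · intro v hv; exact h2 v hv

theorem swap_mem {a b x : Fin q} (h : x = a ∨ x = b) :
    Equiv.swap a b x = a ∨ Equiv.swap a b x = b := by
  rcases h with rfl | rfl <;> simp

theorem swap_mem_iff {a b x : Fin q} :
    (Equiv.swap a b x = a ∨ Equiv.swap a b x = b) ↔ (x = a ∨ x = b) := by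
  constructor
  · intro h
    have := swap_mem h
    simpa using this
  · exact swap_mem

/-- a swap on a closed set is proper -/
theorem proper_of_swap {c c' : V → Fin q} {a b : Fin q} {U : Set V}
    (hc : ∀ v w, G.Adj v w → c v ≠ c w) (hU : Closed G c a b U) (hs : IsSwap c c' a b U) :
    ∀ v w, G.Adj v w → c' v ≠ c' w := by
  intro v w hvw
  by_cases hv : v ∈ U <;> by_cases hw : w ∈ U
  · rw [hs.1 v hv, hs.1 w hw]
    intro h
    exact hc v w hvw ((Equiv.swap a b).injective h)
  · rw [hs.1 v hv, hs.2 w hw]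
    intro h
    apply hw
    refine hU.2 v hv w hvw ?_
    rw [← h]
    exact swap_mem (hU.1 v hv)
  · rw [hs.2 v hv, hs.1 w hw]
    intro h
    apply hv
    refine hU.2 w hw v hvw.symm ?_
    rw [h]
    exact swap_mem (hU.1 w hw)
  · rw [hs.2 v hv, hs.2 w hw]
    exact hc v w hvw

/-- the swapped function -/
noncomputable def swapOn (c : V → Fin q) (a b : Fin q) (U : Set V) : V → Fin q :=
  open Classical in fun v => if v ∈ U then Equiv.swap a b (c v) else c v

theorem swapOn_isSwap (c : V → Fin q) (a b : Fin q) (U : Set V) :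
    IsSwap c (swapOn c a b U) a b U := by
  constructor
  · intro v hv; simp [swapOn, hv]
  · intro v hv; simp [swapOn, hv]

/-- A closed swap is a sequence of single Kempe-chain swaps. -/
theorem reach_of_closed [Finite V] {a b : Fin q} (hab : a ≠ b) :
    ∀ (N : ℕ) (c c' : G.Coloring (Fin q)) (U : Set V), U.ncard = N →
      Closed G c a b U → IsSwap c c' a b U → Relation.ReflTransGen KempeStep c c' := by
  intro N
  induction N using Nat.strong_induction_on with
  | _ N ih =>
  intro c c' U hN hU hs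
  rcases U.eq_empty_or_nonempty with rfl | ⟨v, hv⟩
  · have : c' = c := by
      apply DFunLike.ext
      intro v
      exact hs.2 v (by simp)
    rw [this]
  · have hvab : v ∈ {v : V | c v = a ∨ c v = b} := hU.1 v hv
    set H := G.induce {v : V | c v = a ∨ c v = b} with hH
    set K := H.connectedComponentMk ⟨v, hvab⟩ with hK
    set KU : Set V := {w | ∃ h : w ∈ {v : V | c v = a ∨ c v = b},
      (⟨w, h⟩ : {v : V | c v = a ∨ c v = b}) ∈ K.supp} with hKU
    have hvKU : v ∈ KU := ⟨hvab, by simp [hK]⟩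
    -- every vertex reachable from `v` is in `U`
    have key : ∀ x y : {v : V | c v = a ∨ c v = b}, H.Walk x y → x.1 ∈ U → y.1 ∈ U := by
      intro x y p
      induction p with
      | nil => exact id
      | cons hadj _ ih' =>
        intro hx
        apply ih'
        rename_i x' y' _ _
        exact hU.2 _ hx _ (by simpa [hH] using hadj) y'.2
    have hsub : KU ⊆ U := by
      rintro w ⟨hw, hwK⟩
      rw [SimpleGraph.ConnectedComponent.mem_supp_iff, hK, SimpleGraph.ConnectedComponent.eq] at hwK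
      obtain ⟨p⟩ := hwK.symm
      exact key _ _ p hv
    have hKcl : Closed G c a b KU := by
      refine ⟨fun w hw => hw.1, ?_⟩
      rintro x ⟨hx, hxK⟩ w hxw hw
      refine ⟨hw, ?_⟩
      rw [SimpleGraph.ConnectedComponent.mem_supp_iff] at hxK ⊢
      rw [← hxK]
      apply SimpleGraph.ConnectedComponent.sound
      apply SimpleGraph.Adj.reachable
      simpa [hH] using hxw.symm
    have hsw := swapOn_isSwap (c : V → Fin q) a b KU
    let c1 : G.Coloring (Fin q) := SimpleGraph.Coloring.mk (swapOn c a b KU)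
      (fun {v w} h => proper_of_swap (fun v w h => c.valid h) hKcl hsw v w h)
    have hc1 : ∀ w, c1 w = swapOn c a b KU w := fun w => rfl
    have step1 : KempeStep c c1 := by
      refine ⟨a, b, hab, K, ?_, ?_⟩
      · intro w hw hwK
        rw [hc1]
        exact hsw.1 w ⟨hw, hwK⟩
      · intro w hw
        rw [hc1]
        exact hsw.2 w hw
    have hcard : (U \ KU).ncard < N := by
      rw [← hN]
      apply Set.ncard_lt_ncard _ (Set.toFinite U)
      refine ⟨Set.diff_subset, fun h => ?_⟩
      exact (h hv).2 hvKU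
    refine Relation.ReflTransGen.head step1 (ih _ hcard c1 c' (U \ KU) rfl ⟨?_, ?_⟩ ⟨?_, ?_⟩)
    · intro w hw
      rw [hc1, hsw.2 w hw.2]
      exact hU.1 w hw.1
    · intro x hx w hxw hw
      have hwc : c w = a ∨ c w = b := by
        rw [hc1] at hw
        by_cases hwK : w ∈ KU
        · exact hKcl.1 w hwK
        · rwa [hsw.2 w hwK] at hw
      refine ⟨hU.2 x hx.1 w hxw hwc, fun hwK => hx.2 ?_⟩
      exact hKcl.2 w hwK x hxw.symm (hU.1 x hx.1)
    · intro w hw
      rw [hs.1 w hw.1, hc1, hsw.2 w hw.2]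
    · intro w hw
      rw [hc1]
      by_cases hwU : w ∈ U
      · have : w ∈ KU := by
          by_contra hcon
          exact hw ⟨hwU, hcon⟩
        rw [hs.1 w hwU, hsw.1 w this]
      · rw [hs.2 w hwU, hsw.2 w (fun h => hwU (hsub h))]

end Pool.Agent.H411R2.WSK
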