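import Mathlib

/-!
Orientation signs of triples of colours.
-/

namespace Pool.Agent.H411R2.WSK

/-- successor on `{1, 2, 3}` (cyclic) -/
def cyc (s : Fin 4) : Fin 4 := if s = 1 then 2 else if s = 2 then 3 else if s = 3 then 1 else 0

/-- orientation sign of a triple of colours; `0` unless the three colours are distinct -/
def or4 (p q r : Fin 4) : ℤ :=
  if p = q ∨ q = r ∨ p = r then 0 else if (p ^^^ r) = cyc (p ^^^ q) then -1 else 1

/-- orientation sign of a triple of colours none of which is `d` -/
def orm (d p q r : Fin 4) : ℤ := if p = d ∨ q = d ∨ r = d then 0 else or4 p q r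

theorem or4_cyc : ∀ p q r : Fin 4, or4 p q r = or4 q r p := by decide
theorem orm_cyc : ∀ d p q r : Fin 4, orm d p q r = orm d q r p := by decide
theorem or4_sum : ∀ p q r : Fin 4, or4 p q r = orm 0 p q r + orm 1 p q r + orm 2 p q r + orm 3 p q r := by
  decide

set_option maxRecDepth 100000 in
/-- swapping two colours reverses the orientation -/
theorem orm_swap : ∀ a b : Fin 4, a ≠ b → ∀ d : Fin 4, d ≠ a → d ≠ b → ∀ p q r : Fin 4,
    orm d (Equiv.swap a b p) (Equiv.swap a b q) (Equiv.swap a b r) = - orm d p q r := by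
  decide

/-- the link edges `d' e` and the link edges `e d` of an `a`-coloured vertex -/
theorem orm_link : ∀ a d d' e : Fin 4, a ≠ d → a ≠ d' → a ≠ e → d ≠ d' → d ≠ e → d' ≠ e →
    ∀ p q : Fin 4, p ≠ a → q ≠ a → p ≠ q →
    orm d a p q - orm d' a p q = or4 a d' e * ((if q = e then 1 else 0) - (if p = e then 1 else 0)) := by
  decide

theorem orm_even : ∀ a d : Fin 4, a ≠ d → ∀ p q : Fin 4, p ≠ a → q ≠ a → p ≠ q →
    ∃ t : Fin 3, orm d a p q = 1 + (if p = d then 1 else 0) + (if q = d then 1 else 0) - 2 * (t : ℕ) := by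
  decide

end Pool.Agent.H411R2.WSK
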