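import Mathlib

/-!
A verified exhaustive search over the proper colourings of a finite graph, with pruning by Kempe
changes and symmetries that decrease the colouring lexicographically: the executable part.
The functions are written with recursors, for fast evaluation in the kernel.
-/

namespace Pool.Agent.H411R2.WSK

/-- colour (two binary digits) of vertex `v` in the code `s` -/
def dig (s v : ℕ) : ℕ := Nat.land (Nat.shiftRight s (Nat.mul (nat_lit 2) v)) (nat_lit 3)

noncomputable def memb (x : ℕ) (l : List ℕ) : Bool :=
  List.rec (motive := fun _ => Bool) false (fun y _ r => cond (Nat.beq x y) true r) l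

noncomputable def memb2 (x y : ℕ) (l : List (ℕ × ℕ)) : Bool :=
  List.rec (motive := fun _ => Bool) false
    (fun z _ r => cond (Nat.beq x z.1) (cond (Nat.beq y z.2) true r) r) l

noncomputable def allB {α : Type} (p : α → Bool) (l : List α) : Bool :=
  List.rec (motive := fun _ => Bool) true (fun y _ r => cond (p y) r false) l

noncomputable def nth (l : List (List ℕ)) : ℕ → List ℕ :=
  List.rec (motive := fun _ => ℕ → List ℕ) (fun _ => [])
    (fun x _ r v => Nat.rec (motive := fun _ => List ℕ) x (fun m _ => r m) v) l

/-- certificates for the search -/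
inductive Cert
  /-- branch on the colour of the next vertex -/
  | br (c0 c1 c2 c3 : Cert)
  /-- this colour is not allowed -/
  | no
  /-- swap the colours `a < b` on `U` -/
  | sw (a b : ℕ) (U : List ℕ)
  /-- use the symmetry number `g` and the colour permutation `pi` (coded like a colouring); first
  difference at `t` -/
  | sy (g : ℕ) (pi : ℕ) (t : ℕ)
  /-- the vertex `w` can no longer be coloured -/
  | de (w : ℕ)
  /-- a partial colouring treated separately -/
  | lf

/-- the swap of `a` and `b` on `U` is closed, all neighbours of `U` being among the first `k`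
vertices, and it makes the colouring smaller. -/
noncomputable def chkSwap (nb : ℕ → List ℕ) (k s a b : ℕ) (U : List ℕ) : Bool :=
  List.rec (motive := fun _ => Bool) false (fun u0 _ _ => cond (Nat.beq (dig s u0) b)
    (allB (fun v => cond (Nat.ble u0 v) (cond (Nat.ble (Nat.succ v) k)
      (cond (cond (Nat.beq (dig s v) a) true (Nat.beq (dig s v) b))
        (allB (fun w => cond (memb w U) true
          (cond (Nat.ble (Nat.succ w) k)
            (cond (Nat.beq (dig s w) a) false (cond (Nat.beq (dig s w) b) false true)) false)) (nb v))
        false) false) false) U) false) U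

/-- the symmetric image `i ↦ pi (c (g i))` is smaller than `c`, with first difference at `t`;
`chkSym` runs through `i, i+1, …, i + f = t`. -/
noncomputable def chkSym (g : ℕ → ℕ) (k s pi : ℕ) (f : ℕ) : ℕ → Bool :=
  Nat.rec (motive := fun _ => ℕ → Bool)
    (fun i => cond (Nat.ble (Nat.succ (g i)) k)
      (Nat.ble (Nat.succ (dig pi (dig s (g i)))) (dig s i)) false)
    (fun _ r i => cond (Nat.ble (Nat.succ (g i)) k)
      (cond (Nat.beq (dig pi (dig s (g i))) (dig s i)) (r (Nat.succ i)) false) false) f

/-- the codes of the 24 permutations of `{0,1,2,3}` -/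
def permCodes : List ℕ := [228, 180, 216, 120, 156, 108, 225, 177, 201, 57, 141, 45, 210, 114, 198,
  54, 78, 30, 147, 99, 135, 39, 75, 27]

/-- no vertex in the list `l` has colour `x` -/
noncomputable def ok (s x : ℕ) (l : List ℕ) : Bool :=
  allB (fun u => cond (Nat.beq (dig s u) x) false true) l

/-- some vertex in `l` among the first `k` vertices has colour `x` -/
noncomputable def blk (k s x : ℕ) (l : List ℕ) : Bool :=
  List.rec (motive := fun _ => Bool) false
    (fun u _ r => cond (cond (Nat.ble (Nat.succ u) k) (Nat.beq (dig s u) x) false) true r) l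

/-- data of an instance: number of colours, neighbour lists, symmetries, allowed pairs (symmetry,
colour permutation), treated partial colourings -/
structure Inst where
  q : ℕ
  nb : ℕ → List ℕ
  g : ℕ → ℕ → ℕ
  sok : ℕ → ℕ → Bool
  leaves : List (ℕ × ℕ)

noncomputable def check (I : Inst) (C : Cert) : List (List ℕ) → ℕ → ℕ → ℕ → Bool :=
  Cert.rec (motive := fun _ => List (List ℕ) → ℕ → ℕ → ℕ → Bool)
    (fun _ _ _ _ r0 r1 r2 r3 NB k s p =>
      List.rec (motive := fun _ => Bool) false (fun nbk rest _ =>
      cond (cond (ok s (nat_lit 0) nbk) (r0 rest (Nat.succ k) s (Nat.mul (nat_lit 4) p)) true)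
        (cond (cond (ok s (nat_lit 1) nbk) (r1 rest (Nat.succ k) (Nat.add s p) (Nat.mul (nat_lit 4) p)) true)
          (cond (cond (ok s (nat_lit 2) nbk)
              (r2 rest (Nat.succ k) (Nat.add s (Nat.mul (nat_lit 2) p)) (Nat.mul (nat_lit 4) p)) true)
            (cond (Nat.ble I.q (nat_lit 3)) true (cond (ok s (nat_lit 3) nbk)
              (r3 rest (Nat.succ k) (Nat.add s (Nat.mul (nat_lit 3) p)) (Nat.mul (nat_lit 4) p)) true))
            false) false) false) NB)
    (fun _ _ _ _ => false)
    (fun a b U _ k s _ => cond (Nat.ble (Nat.succ a) b) (chkSwap I.nb k s a b U) false)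
    (fun g pi t _ k s _ => cond (I.sok g pi) (chkSym (I.g g) k s pi t 0) false)
    (fun w _ k s _ => cond (blk k s (nat_lit 0) (I.nb w)) (cond (blk k s (nat_lit 1) (I.nb w))
      (cond (blk k s (nat_lit 2) (I.nb w)) (cond (Nat.ble I.q (nat_lit 3)) true
        (blk k s (nat_lit 3) (I.nb w))) false) false) false)
    (fun _ k s _ => memb2 k s I.leaves) C

/-! Derivations: chains of full colourings. -/

/-- one derivation step: `s` is good because `s'` is good -/
inductive Der
  /-- `s'` arises from `s` by the swap of `a` and `b` on `U` -/
  | sw (s s' a b : ℕ) (U : List ℕ)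
  /-- `s' = pi ∘ s ∘ g` -/
  | sy (s s' g pi : ℕ)

noncomputable def upto (N : ℕ) (p : ℕ → Bool) : Bool :=
  Nat.rec (motive := fun _ => Bool) true (fun i r => cond (p i) r false) N

noncomputable def chkStep (q : ℕ) (nb : ℕ → List ℕ) (N s s' a b : ℕ) (U : List ℕ) : Bool :=
  cond (Nat.ble (Nat.succ a) b)
    (cond (Nat.ble (Nat.succ b) q) (cond (allB (fun v => cond (Nat.ble (Nat.succ v) N)
      (cond (cond (Nat.beq (dig s v) a) true (Nat.beq (dig s v) b))
        (allB (fun w => cond (memb w U) true
            (cond (Nat.beq (dig s w) a) false (cond (Nat.beq (dig s w) b) false true))) (nb v))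
        false) false) U)
      (upto N (fun v => cond (memb v U)
        (cond (Nat.beq (dig s v) a) (Nat.beq (dig s' v) b) (Nat.beq (dig s' v) a))
        (Nat.beq (dig s' v) (dig s v)))) false) false) false

noncomputable def chkDer (I : Inst) (N : ℕ) (l : List Der) : List ℕ → List ℕ → Bool :=
  List.rec (motive := fun _ => List ℕ → List ℕ → Bool)
    (fun known goals => allB (fun s => memb s known) goals)
    (fun d _ r known goals => Der.rec (motive := fun _ => Bool)
      (fun s s' a b U => cond (memb s' known) (cond (chkStep I.q I.nb N s s' a b U) (r (s :: known) goals) false) false)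
      (fun s s' g pi => cond (memb s' known) (cond (I.sok g pi)
        (cond (upto N (fun v => Nat.beq (dig s' v) (dig pi (dig s (I.g g v))))) (r (s :: known) goals) false) false) false)
      d) l

end Pool.Agent.H411R2.WSK
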