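import Pool.Agent.H411R2.WSK.Kempe
import Pool.Agent.H411R2.WSK.Search

/-!
Soundness of the search.
-/

namespace Pool.Agent.H411R2.WSK

theorem dig_eq (s v : ℕ) : dig s v = s / 4 ^ v % 4 := by
  unfold dig
  have h1 : Nat.shiftRight s (Nat.mul 2 v) = s / 4 ^ v := by
    show s >>> (2 * v) = s / 4 ^ v
    rw [Nat.shiftRight_eq_div_pow, pow_mul]
    norm_num
  rw [h1]
  show (s / 4 ^ v) &&& 3 = _
  exact Nat.and_two_pow_sub_one_eq_mod (s / 4 ^ v) 2

theorem dig_lt (s v : ℕ) : dig s v < 4 := by
  rw [dig_eq]; exact Nat.mod_lt _ (by norm_num)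

theorem dig_add {s x k v : ℕ} (hv : v < k) : dig (s + x * 4 ^ k) v = dig s v := by
  rw [dig_eq, dig_eq]
  obtain ⟨j, rfl⟩ := Nat.exists_eq_add_of_lt hv
  have : x * 4 ^ (v + j + 1) = (x * 4 ^ j * 4) * 4 ^ v := by ring
  rw [this, Nat.add_mul_div_right _ _ (by positivity)]
  rw [Nat.add_mul_mod_self_right]

theorem dig_add_self {s x k : ℕ} (hs : s < 4 ^ k) (hx : x < 4) : dig (s + x * 4 ^ k) k = x := by
  rw [dig_eq, Nat.add_mul_div_right _ _ (by positivity), Nat.div_eq_of_lt hs, zero_add,
    Nat.mod_eq_of_lt hx]

theorem dig_zero {s k v : ℕ} (hs : s < 4 ^ k) (hv : k ≤ v) : dig s v = 0 := by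
  rw [dig_eq, Nat.div_eq_of_lt (lt_of_lt_of_le hs (Nat.pow_le_pow_right (by norm_num) hv))]

theorem memb_iff {x : ℕ} {l : List ℕ} : memb x l = true ↔ x ∈ l := by
  induction l with
  | nil => simp [memb]
  | cons y l ih =>
    have : memb x (y :: l) = cond (Nat.beq x y) true (memb x l) := rfl
    rw [this]
    by_cases h : x = y
    · subst h; simp
    · have : Nat.beq x y = false := by
        rw [Bool.eq_false_iff]
        intro h'; exact h (Nat.eq_of_beq_eq_true h')
      rw [this]
      simp [ih, h]

theorem memb2_iff {x y : ℕ} {l : List (ℕ × ℕ)} : memb2 x y l = true ↔ (x, y) ∈ l := by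
  induction l with
  | nil => simp [memb2]
  | cons z l ih =>
    have : memb2 x y (z :: l) = cond (Nat.beq x z.1) (cond (Nat.beq y z.2) true (memb2 x y l))
      (memb2 x y l) := rfl
    rw [this]
    by_cases h : x = z.1
    · by_cases h' : y = z.2
      · subst h h'; simp
      · have e1 : Nat.beq x z.1 = true := Nat.beq_eq.mpr h
        have e2 : Nat.beq y z.2 = false := by
          rw [Bool.eq_false_iff]; intro h''; exact h' (Nat.eq_of_beq_eq_true h'')
        rw [e1, e2]
        simp only [cond_true, cond_false, ih, List.mem_cons]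
        constructor
        · exact Or.inr
        · rintro (rfl | h''')
          · exact absurd rfl h'
          · exact h'''
    · have e1 : Nat.beq x z.1 = false := by
        rw [Bool.eq_false_iff]; intro h''; exact h (Nat.eq_of_beq_eq_true h'')
      rw [e1]
      simp only [cond_false, ih, List.mem_cons]
      constructor
      · exact Or.inr
      · rintro (rfl | h''')
        · exact absurd rfl h
        · exact h'''

theorem allB_iff {α : Type} {p : α → Bool} {l : List α} :
    allB p l = true ↔ ∀ x ∈ l, p x = true := by
  induction l with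
  | nil => simp [allB]
  | cons y l ih =>
    have : allB p (y :: l) = cond (p y) (allB p l) false := rfl
    rw [this]
    cases h : p y <;> simp [ih, h]

theorem cond_tf {a b : Bool} : cond a b false = true ↔ a = true ∧ b = true := by
  cases a <;> simp

theorem cond_ft {a : Bool} : cond a false true = true ↔ a = false := by
  cases a <;> simp

theorem cond_tt {a b : Bool} : cond a true b = true ↔ a = true ∨ b = true := by
  cases a <;> simp

theorem cond_imp {a b : Bool} : cond a b true = true ↔ (a = true → b = true) := by
  cases a <;> simp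

theorem beq_tt {a b : ℕ} : Nat.beq a b = true ↔ a = b := by rw [Nat.beq_eq]

theorem beq_ff {a b : ℕ} : Nat.beq a b = false ↔ a ≠ b := by
  rw [← Bool.not_eq_true, beq_tt]

theorem ble_tt {a b : ℕ} : Nat.ble a b = true ↔ a ≤ b := by rw [Nat.ble_eq]

section

variable {V : Type*} {G : SimpleGraph V} {q : ℕ}

/-- a numbering of the vertices of `G` by `0, …, N-1` with neighbour lists -/
structure Sys (G : SimpleGraph V) (N : ℕ) (ix : ℕ → V) (nb : ℕ → List ℕ) : Prop where
  surj : ∀ y, ∃ v < N, ix v = y
  inj : ∀ v < N, ∀ w < N, ix v = ix w → v = w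
  adj : ∀ v, ∀ w ∈ nb v, w < N ∧ G.Adj (ix v) (ix w)
  comp : ∀ v < N, ∀ y, G.Adj (ix v) y → ∃ w ∈ nb v, ix w = y

def Proper (G : SimpleGraph V) (c : V → Fin q) : Prop := ∀ v w, G.Adj v w → c v ≠ c w

def Matches (ix : ℕ → V) (c : V → Fin q) (k s : ℕ) : Prop :=
  s < 4 ^ k ∧ ∀ v < k, dig s v = (c (ix v)).val

/-- lexicographically smaller -/
def Lex (ix : ℕ → V) (N : ℕ) (c' c : V → Fin q) : Prop :=
  ∃ t < N, (∀ i < t, c' (ix i) = c (ix i)) ∧ c' (ix t) < c (ix t)

theorem lex_wf [Finite V] (ix : ℕ → V) (N : ℕ) : WellFounded (Lex (q := q) ix N) := by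
  have : IsTrans (V → Fin q) (Lex ix N) := ⟨by
    rintro c1 c2 c3 ⟨t, ht, h1, h2⟩ ⟨t', ht', h1', h2'⟩
    rcases lt_trichotomy t t' with h | h | h
    · exact ⟨t, ht, fun i hi => (h1 i hi).trans (h1' i (hi.trans h)), (h1' t h) ▸ h2⟩
    · subst h
      exact ⟨t, ht, fun i hi => (h1 i hi).trans (h1' i hi), h2.trans h2'⟩
    · exact ⟨t', ht', fun i hi => (h1 i (hi.trans h)).trans (h1' i hi), by
        rw [h1 t' h]; exact h2'⟩⟩
  have : Std.Irrefl (Lex (q := q) ix N) := ⟨by
    rintro c ⟨t, _, _, h⟩; exact lt_irrefl _ h⟩
  exact Finite.wellFounded_of_trans_of_irrefl _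

/-- hypotheses on the neighbour lists used for branching -/
def NBok (nb : ℕ → List ℕ) (N : ℕ) : List (List ℕ) → ℕ → Prop
  | [], _ => True
  | nbk :: rest, k => k < N ∧ (∀ u ∈ nbk, u < k ∧ u ∈ nb k) ∧ NBok nb N rest (k + 1)

/-- `(k, s)` is solved: if all lexicographically smaller colourings are good, then so are the
colourings that start with `(k, s)`. -/
def Solved (G : SimpleGraph V) (N : ℕ) (ix : ℕ → V) (Good : (V → Fin q) → Prop) (k s : ℕ) : Prop :=
  ∀ c : V → Fin q, Proper G c → Matches ix c k s →
    (∀ c', Proper G c' → Lex ix N c' c → Good c') → Good c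

variable {N : ℕ} {ix : ℕ → V} {Good : (V → Fin q) → Prop}

theorem check_sound (I : Inst) (hIq : I.q = q) (hq : q ≤ 4) (S : Sys G N ix I.nb)
    (hswap : ∀ (c : V → Fin q) (a b : Fin q) (U : Set V), Proper G c → a ≠ b → Closed G c a b U →
      Good (swapOn c a b U) → Good c)
    (hsym : ∀ g pi, I.sok g pi = true → ∀ c : V → Fin q, Proper G c → ∃ c' : V → Fin q,
      Proper G c' ∧ (∀ v < N, (c' (ix v)).val = dig pi (c (ix (I.g g v))).val) ∧ (Good c' → Good c))
    (hg : ∀ g pi, I.sok g pi = true → ∀ v < N, I.g g v < N)
    (hleaf : ∀ k s, (k, s) ∈ I.leaves → Solved G N ix Good k s) :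
    ∀ (C : Cert) (NB : List (List ℕ)) (k s p : ℕ), NBok I.nb N NB k → k ≤ N → p = 4 ^ k → s < 4 ^ k →
      check I C NB k s p = true → Solved G N ix Good k s := by
  intro C
  induction C with
  | br c0 c1 c2 c3 ih0 ih1 ih2 ih3 =>
    intro NB k s p hNB hk hp hs h
    cases NB with
    | nil => exact absurd h (by simp [check])
    | cons nbk rest =>
      obtain ⟨hkN, hnbk, hrest⟩ := hNB
      have hun : check I (Cert.br c0 c1 c2 c3) (nbk :: rest) k s p =
        cond (cond (ok s 0 nbk) (check I c0 rest (k + 1) s (4 * p)) true)
        (cond (cond (ok s 1 nbk) (check I c1 rest (k + 1) (s + p) (4 * p)) true)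
          (cond (cond (ok s 2 nbk) (check I c2 rest (k + 1) (s + 2 * p) (4 * p)) true)
            (cond (Nat.ble I.q 3) true (cond (ok s 3 nbk)
              (check I c3 rest (k + 1) (s + 3 * p) (4 * p)) true)) false) false) false := rfl
      rw [hun] at h
      simp only [cond_tf, cond_imp, cond_tt, ble_tt] at h
      obtain ⟨h0, h1, h2, h3⟩ := h
      intro c hc hm hlex
      -- no neighbour has the colour of `k`
      have hok : ok s (c (ix k)).val nbk = true := by
        unfold ok
        rw [allB_iff]
        intro u hu
        rw [cond_ft, beq_ff]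
        obtain ⟨huk, hunb⟩ := hnbk u hu
        rw [hm.2 u huk]
        intro h'
        exact hc _ _ (S.adj k u hunb).2 (Fin.ext h'.symm)
      have hp' : 4 * p = 4 ^ (k + 1) := by rw [hp]; ring
      have hlt : (c (ix k)).val < 4 := lt_of_lt_of_le (c (ix k)).isLt hq
      have hs' : ∀ x < 4, s + x * p < 4 ^ (k + 1) := by
        intro x hx
        rw [hp, pow_succ]
        have : x * 4 ^ k ≤ 3 * 4 ^ k := Nat.mul_le_mul_right _ (by omega)
        omega
      have hmatch : Matches ix c (k + 1) (s + (c (ix k)).val * p) := by
        refine ⟨hs' _ hlt, ?_⟩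
        intro v hv
        rw [hp]
        rcases Nat.lt_succ_iff_lt_or_eq.mp hv with hv | rfl
        · rw [dig_add hv]; exact hm.2 v hv
        · rw [dig_add_self hs hlt]
      have hx : (c (ix k)).val = 0 ∨ (c (ix k)).val = 1 ∨ (c (ix k)).val = 2 ∨
        (c (ix k)).val = 3 := by omega
      rcases hx with hx | hx | hx | hx
      · rw [hx] at hok hmatch
        rw [zero_mul, add_zero] at hmatch
        exact ih0 rest (k + 1) s (4 * p) hrest (by omega) hp' (by simpa using hs' 0 (by norm_num))
          (h0 hok) c hc hmatch hlex
      · rw [hx] at hok hmatch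
        rw [one_mul] at hmatch
        exact ih1 rest (k + 1) _ (4 * p) hrest (by omega) hp' (by simpa using hs' 1 (by norm_num))
          (h1 hok) c hc hmatch hlex
      · rw [hx] at hok hmatch
        exact ih2 rest (k + 1) _ (4 * p) hrest (by omega) hp' (hs' 2 (by norm_num))
          (h2 hok) c hc hmatch hlex
      · rw [hx] at hok hmatch
        rcases h3 with h3 | h3
        · have := (c (ix k)).isLt
          omega
        · exact ih3 rest (k + 1) _ (4 * p) hrest (by omega) hp' (hs' 3 (by norm_num))
            (h3 hok) c hc hmatch hlex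
  | no =>
    intro NB k s p hNB hk hp hs h
    exact absurd h (by simp [check])
  | sw a b U =>
    intro NB k s p hNB hk hp hs h
    intro c hc hm hlex
    have hun : check I (Cert.sw a b U) NB k s p =
      cond (Nat.ble (a + 1) b) (chkSwap I.nb k s a b U) false := rfl
    rw [hun, cond_tf, ble_tt] at h
    obtain ⟨hab, h⟩ := h
    cases U with
    | nil => exact absurd h (by simp [chkSwap])
    | cons u0 U' =>
      have hun2 : chkSwap I.nb k s a b (u0 :: U') = cond (Nat.beq (dig s u0) b)
        (allB (fun v => cond (Nat.ble u0 v) (cond (Nat.ble (v + 1) k)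
          (cond (cond (Nat.beq (dig s v) a) true (Nat.beq (dig s v) b))
            (allB (fun w => cond (memb w (u0 :: U')) true
              (cond (Nat.ble (w + 1) k)
                (cond (Nat.beq (dig s w) a) false (cond (Nat.beq (dig s w) b) false true)) false))
              (I.nb v))
            false) false) false) (u0 :: U')) false := rfl
      rw [hun2, cond_tf, beq_tt, allB_iff] at h
      obtain ⟨hb, h⟩ := h
      simp only [cond_tf, cond_tt, ble_tt, beq_tt, allB_iff, memb_iff] at h
      have hu0 := h u0 (by simp)
      -- the colours as elements of `Fin q`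
      have hb' : b < q := by
        rw [← hb, hm.2 u0 (by omega)]; exact (c (ix u0)).isLt
      have ha' : a < q := by omega
      let A : Set V := {y | ∃ v ∈ (u0 :: U'), ix v = y}
      have hcl : Closed G c ⟨a, ha'⟩ ⟨b, hb'⟩ A := by
        constructor
        · rintro y ⟨v, hv, rfl⟩
          obtain ⟨h1, h2, h3, h4⟩ := h v hv
          have := hm.2 v (by omega)
          rcases h3 with h3 | h3
          · left; apply Fin.ext; simp only; omega
          · right; apply Fin.ext; simp only; omega
        · rintro y ⟨v, hv, rfl⟩ z hz hcz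
          obtain ⟨h1, h2, h3, h4⟩ := h v hv
          obtain ⟨w, hw, rfl⟩ := S.comp v (by omega) z hz
          rcases h4 w hw with h5 | ⟨h5, h6⟩
          · exact ⟨w, h5, rfl⟩
          · exfalso
            have h7 := hm.2 w (by omega)
            by_cases e1 : dig s w = a
            · rw [beq_tt.mpr e1] at h6; simp at h6
            · by_cases e2 : dig s w = b
              · rw [beq_tt.mpr e2] at h6; simp at h6
              · rcases hcz with hcz | hcz
                · rw [hcz] at h7; exact e1 h7
                · rw [hcz] at h7; exact e2 h7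
      have hne : (⟨a, ha'⟩ : Fin q) ≠ ⟨b, hb'⟩ := by
        intro h'
        have := congrArg Fin.val h'
        simp only at this
        omega
      have hsw := swapOn_isSwap c ⟨a, ha'⟩ ⟨b, hb'⟩ A
      refine hswap c ⟨a, ha'⟩ ⟨b, hb'⟩ A hc hne hcl (hlex _ (proper_of_swap hc hcl hsw) ?_)
      refine ⟨u0, by omega, ?_, ?_⟩
      · intro i hi
        apply hsw.2
        rintro ⟨v, hv, hv'⟩
        obtain ⟨h1, h2, -⟩ := h v hv
        have := S.inj v (by omega) i (by omega) hv'
        omega
      · rw [hsw.1 (ix u0) ⟨u0, by simp, rfl⟩]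
        have : c (ix u0) = ⟨b, hb'⟩ := by
          apply Fin.ext
          rw [← hm.2 u0 (by omega)]
          exact hb
        rw [this, Equiv.swap_apply_right]
        exact Fin.mk_lt_mk.mpr (by omega)
  | sy g pi t =>
    intro NB k s p hNB hk hp hs h
    intro c hc hm hlex
    have hun : check I (Cert.sy g pi t) NB k s p = cond (I.sok g pi) (chkSym (I.g g) k s pi t 0) false := rfl
    rw [hun, cond_tf] at h
    obtain ⟨hok, h⟩ := h
    obtain ⟨c', hc', hcol, himp⟩ := hsym g pi hok c hc
    apply himp
    apply hlex c' hc'
    have gen : ∀ (f i : ℕ), chkSym (I.g g) k s pi f i = true →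
        (∀ j, i ≤ j → j < i + f → I.g g j < k ∧ dig pi (dig s (I.g g j)) = dig s j) ∧
        (I.g g (i + f) < k ∧ dig pi (dig s (I.g g (i + f))) < dig s (i + f)) := by
      intro f
      induction f with
      | zero =>
        intro i hi
        have : chkSym (I.g g) k s pi 0 i = cond (Nat.ble (I.g g i + 1) k)
          (Nat.ble ((dig pi (dig s (I.g g i))) + 1) (dig s i)) false := rfl
        rw [this, cond_tf, ble_tt, ble_tt] at hi
        refine ⟨fun j h1 h2 => by omega, ?_⟩
        rw [add_zero]; omega
      | succ f ih =>
        intro i hi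
        have : chkSym (I.g g) k s pi (f + 1) i = cond (Nat.ble (I.g g i + 1) k)
          (cond (Nat.beq (dig pi (dig s (I.g g i))) (dig s i))
            (chkSym (I.g g) k s pi f (i + 1)) false) false := rfl
        rw [this, cond_tf, cond_tf, ble_tt, beq_tt] at hi
        obtain ⟨h1, h2, h3⟩ := hi
        obtain ⟨h4, h5⟩ := ih (i + 1) h3
        refine ⟨?_, ?_⟩
        · intro j hj1 hj2
          rcases Nat.eq_or_lt_of_le hj1 with rfl | hj
          · exact ⟨by omega, h2⟩
          · exact h4 j hj (by omega)
        · have e : i + (f + 1) = i + 1 + f := by ring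
          rw [e]; exact h5
    obtain ⟨h1, h2, h3⟩ := gen t 0 h
    rw [zero_add] at h1 h2 h3
    have htk : t < k := by
      by_contra hcon
      rw [dig_zero hs (not_lt.mp hcon)] at h3
      omega
    refine ⟨t, by omega, ?_, ?_⟩
    · intro i hi
      apply Fin.ext
      obtain ⟨h4, h5⟩ := h1 i (by omega) (by omega)
      rw [hcol i (by omega), ← hm.2 _ h4, h5, hm.2 i (by omega)]
    · rw [Fin.lt_def, hcol t (by omega), ← hm.2 _ h2, ← hm.2 t htk]
      exact h3
  | de w =>
    intro NB k s p hNB hk hp hs h
    intro c hc hm hlex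
    exfalso
    have hun : check I (Cert.de w) NB k s p =
      cond (blk k s 0 (I.nb w)) (cond (blk k s 1 (I.nb w))
      (cond (blk k s 2 (I.nb w)) (cond (Nat.ble I.q 3) true
        (blk k s 3 (I.nb w))) false) false) false := rfl
    rw [hun, cond_tf, cond_tf, cond_tf, cond_tt, ble_tt] at h
    have hblk : ∀ (x : ℕ) (l : List ℕ), blk k s x l = true → ∃ u ∈ l, u < k ∧ dig s u = x := by
      intro x l
      induction l with
      | nil => intro h'; exact absurd h' (by simp [blk])
      | cons u l ih =>
        intro h'
        have : blk k s x (u :: l) = cond (cond (Nat.ble (u + 1) k) (Nat.beq (dig s u) x) false) true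
          (blk k s x l) := rfl
        rw [this, cond_tt, cond_tf, ble_tt, beq_tt] at h'
        rcases h' with ⟨h1, h2⟩ | h'
        · exact ⟨u, by simp, by omega, h2⟩
        · obtain ⟨u', h1, h2⟩ := ih h'
          exact ⟨u', by simp [h1], h2⟩
    have key : ∀ x, blk k s x (I.nb w) = true → (c (ix w)).val ≠ x := by
      intro x hx hcx
      obtain ⟨u, hu, huk, hdu⟩ := hblk x _ hx
      have h1 := hm.2 u huk
      exact hc _ _ (S.adj w u hu).2 (Fin.ext (by omega))
    have k0 := key 0 h.1
    have k1 := key 1 h.2.1
    have k2 := key 2 h.2.2.1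
    have hlt := (c (ix w)).isLt
    rcases h.2.2.2 with h3 | h3
    · omega
    · have k3 := key 3 h3
      omega
  | lf =>
    intro NB k s p hNB hk hp hs h
    have hun : check I Cert.lf NB k s p = memb2 k s I.leaves := rfl
    rw [hun, memb2_iff] at h
    exact hleaf k s h

/-- if the empty partial colouring is solved then all colourings are good -/
theorem good_of_solved [Finite V] (h : Solved G N ix Good 0 0) (c : V → Fin q)
    (hc : Proper G c) : Good c := by
  have key : ∀ c : V → Fin q, Proper G c → Good c := by
    intro c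
    apply (lex_wf (q := q) ix N).induction c
    intro c ih hc
    refine h c hc ⟨by norm_num, fun v hv => absurd hv (by omega)⟩ fun c' hc' hlex => ?_
    exact ih c' hlex hc'
  exact key c hc

theorem upto_iff {N : ℕ} {p : ℕ → Bool} : upto N p = true ↔ ∀ v < N, p v = true := by
  induction N with
  | zero => simp [upto]
  | succ N ih =>
    have : upto (N + 1) p = cond (p N) (upto N p) false := rfl
    rw [this, cond_tf, ih]
    constructor
    · rintro ⟨h1, h2⟩ v hv
      rcases Nat.lt_succ_iff_lt_or_eq.mp hv with hv | rfl
      · exact h2 v hv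
      · exact h1
    · intro h
      exact ⟨h N (by omega), fun v hv => h v (by omega)⟩

/-- a full colouring with code `s` is good -/
def GoodCode (G : SimpleGraph V) (N : ℕ) (ix : ℕ → V) (Good : (V → Fin q) → Prop) (s : ℕ) : Prop :=
  ∀ c : V → Fin q, Proper G c → (∀ v < N, dig s v = (c (ix v)).val) → Good c

theorem chkDer_sound (I : Inst) (S : Sys G N ix I.nb) (hq : q ≤ 4) (hq0 : I.q = q)
    (hswap : ∀ (c : V → Fin q) (a b : Fin q) (U : Set V), Proper G c → a ≠ b → Closed G c a b U →
      Good (swapOn c a b U) → Good c)
    (hsym : ∀ g pi, I.sok g pi = true → ∀ c : V → Fin q, Proper G c → ∃ c' : V → Fin q,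
      Proper G c' ∧ (∀ v < N, (c' (ix v)).val = dig pi (c (ix (I.g g v))).val) ∧ (Good c' → Good c))
    (hg : ∀ g pi, I.sok g pi = true → ∀ v < N, I.g g v < N) (hN : 0 < N) :
    ∀ (l : List Der) (known goals : List ℕ), (∀ s ∈ known, GoodCode G N ix Good s) →
      chkDer I N l known goals = true → ∀ s ∈ goals, GoodCode G N ix Good s := by
  intro l
  induction l with
  | nil =>
    intro known goals hk h s hs
    have hun : chkDer I N [] known goals = allB (fun s => memb s known) goals := rfl
    rw [hun, allB_iff] at h
    exact hk s (memb_iff.mp (h s hs))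
  | cons d l ih =>
    intro known goals hk h
    cases d with
    | sw s s' a b U =>
      have hun : chkDer I N (Der.sw s s' a b U :: l) known goals =
        cond (memb s' known) (cond (chkStep I.q I.nb N s s' a b U)
          (chkDer I N l (s :: known) goals) false) false := rfl
      rw [hun, cond_tf, cond_tf, memb_iff] at h
      obtain ⟨h1, h2, h3⟩ := h
      refine ih (s :: known) goals ?_ h3
      intro r hr
      rcases List.mem_cons.mp hr with rfl | hr
      · -- the new code
        intro c hc hm
        have hun2 : chkStep I.q I.nb N r s' a b U = cond (Nat.ble (a + 1) b)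
          (cond (Nat.ble (b + 1) I.q) (cond (allB (fun v => cond (Nat.ble (v + 1) N)
            (cond (cond (Nat.beq (dig r v) a) true (Nat.beq (dig r v) b))
              (allB (fun w => cond (memb w U) true
                  (cond (Nat.beq (dig r w) a) false (cond (Nat.beq (dig r w) b) false true))) (I.nb v))
              false) false) U)
            (upto N (fun v => cond (memb v U)
              (cond (Nat.beq (dig r v) a) (Nat.beq (dig s' v) b) (Nat.beq (dig s' v) a))
              (Nat.beq (dig s' v) (dig r v)))) false) false) false := rfl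
        rw [hun2, cond_tf, cond_tf, cond_tf, ble_tt, ble_tt, allB_iff, upto_iff] at h2
        obtain ⟨hab, hbq', hU, hall⟩ := h2
        simp only [cond_tf, cond_tt, ble_tt, beq_tt, allB_iff, memb_iff] at hU
        cases U with
        | nil =>
          -- nothing changes
          refine hk s' h1 c hc fun v hv => ?_
          have := hall v hv
          have e : memb v [] = false := rfl
          rw [e, cond_false, beq_tt] at this
          rw [this, hm v hv]
        | cons u0 U' =>
          let A : Set V := {y | ∃ v ∈ (u0 :: U'), ix v = y}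
          have hbq : b < q := by omega
          have ha' : a < q := by omega
          have hne : (⟨a, ha'⟩ : Fin q) ≠ ⟨b, hbq⟩ := by
            intro h'
            have := congrArg Fin.val h'
            simp only at this
            omega
          have hcl : Closed G c ⟨a, ha'⟩ ⟨b, hbq⟩ A := by
            constructor
            · rintro y ⟨v, hv, rfl⟩
              obtain ⟨h1, h3, h4⟩ := hU v hv
              have := hm v (by omega)
              rcases h3 with h3 | h3
              · left; apply Fin.ext; simp only; omega
              · right; apply Fin.ext; simp only; omega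
            · rintro y ⟨v, hv, rfl⟩ z hz hcz
              obtain ⟨h1, h3, h4⟩ := hU v hv
              obtain ⟨w, hw, rfl⟩ := S.comp v (by omega) z hz
              rcases h4 w hw with h5 | h6
              · exact ⟨w, h5, rfl⟩
              · exfalso
                have h7 := hm w (S.adj v w hw).1
                by_cases e1 : dig r w = a
                · rw [beq_tt.mpr e1] at h6; simp at h6
                · by_cases e2 : dig r w = b
                  · rw [beq_tt.mpr e2] at h6; simp at h6
                  · rcases hcz with hcz | hcz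
                    · rw [hcz] at h7; exact e1 h7
                    · rw [hcz] at h7; exact e2 h7
          have hsw := swapOn_isSwap c ⟨a, ha'⟩ ⟨b, hbq⟩ A
          refine hswap c ⟨a, ha'⟩ ⟨b, hbq⟩ A hc hne hcl ?_
          refine hk s' h1 _ (proper_of_swap hc hcl hsw) ?_
          intro v hv
          have hv' := hall v hv
          by_cases hvU : v ∈ (u0 :: U')
          · rw [memb_iff.mpr hvU, cond_true] at hv'
            rw [hsw.1 (ix v) ⟨v, hvU, rfl⟩]
            obtain ⟨-, h3, -⟩ := hU v hvU
            have hmv := hm v hv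
            by_cases e1 : dig r v = a
            · rw [beq_tt.mpr e1, cond_true, beq_tt] at hv'
              have : c (ix v) = ⟨a, ha'⟩ := Fin.ext (by simp only; omega)
              rw [this, Equiv.swap_apply_left, hv']
            · rw [beq_ff.mpr e1, cond_false, beq_tt] at hv'
              have : c (ix v) = ⟨b, hbq⟩ := Fin.ext (by simp only; omega)
              rw [this, Equiv.swap_apply_right, hv']
          · have e : memb v (u0 :: U') = false := by
              rw [Bool.eq_false_iff]; intro h'; exact hvU (memb_iff.mp h')
            rw [e, cond_false, beq_tt] at hv'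
            rw [hsw.2 (ix v), hv', hm v hv]
            rintro ⟨w, hw, hw'⟩
            obtain ⟨h1, -⟩ := hU w hw
            have := S.inj w (by omega) v hv hw'
            exact hvU (this ▸ hw)
      · exact hk r hr
    | sy s s' g pi =>
      have hun : chkDer I N (Der.sy s s' g pi :: l) known goals =
        cond (memb s' known) (cond (I.sok g pi)
          (cond (upto N (fun v => Nat.beq (dig s' v) (dig pi (dig s (I.g g v)))))
            (chkDer I N l (s :: known) goals) false) false) false := rfl
      rw [hun, cond_tf, cond_tf, cond_tf, memb_iff, upto_iff] at h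
      obtain ⟨h1, h2, h3, h4⟩ := h
      refine ih (s :: known) goals ?_ h4
      intro r hr
      rcases List.mem_cons.mp hr with rfl | hr
      · intro c hc hm
        obtain ⟨c', hc', hcol, himp⟩ := hsym g pi h2 c hc
        refine himp (hk s' h1 c' hc' fun v hv => ?_)
        rw [beq_tt.mp (h3 v hv), hcol v hv, hm _ (hg g pi h2 v hv)]
      · exact hk r hr

end

end Pool.Agent.H411R2.WSK
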