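import Pool.Agent.H411R2.WSK.TriRun

set_option maxRecDepth 100000
set_option linter.all false

namespace Pool.Agent.H411R2.WSK

namespace T3

def nbt : List (List ℕ) := [[3,1,5,6,2,7], [4,2,3,7,0,8], [5,0,4,8,1,6], [6,4,8,0,5,1], [7,5,6,1,3,2], [8,3,7,2,4,0], [0,7,2,3,8,4], [1,8,0,4,6,5], [2,6,1,5,7,3]]

def NB : List (List ℕ) := [[], [0], [0,1], [0,1], [1,3,2], [3,2,4,0], [0,2,3,4], [1,0,4,6,5], [2,6,1,5,7,3]]

def D1 : List Der := [.sy 148050 38052 0 201, .sy 76041 38052 0 210]

def D2 : List Der := []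

def goals : List ℕ := [38052]


def R : Run 3 where
  hn := by norm_num
  nbt := nbt
  NB := NB
  s0 := 38052
  s1 := 148050
  s2 := 76041
  D1 := D1
  D2 := D2
  goals := goals
  hlen := by decide +kernel
  htab := by decide +kernel
  hbase := by decide +kernel
  hNB := by decide +kernel
  hs1 := by decide +kernel
  hs2 := by decide +kernel
  hD1 := by decide +kernel
  hD2 := by decide +kernel

def L : List (ℕ × ℕ) := goals.map (fun s => (9, s))

theorem hL : ∀ x ∈ L, R.S x.1 x.2 := by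
  intro x hx
  obtain ⟨s, hs, rfl⟩ := List.mem_map.mp hx
  exact R.leaf hs

def root : Cert := (.br (.br .no (.br .no .no (.br .no .no (.br (.br .no (.br .no (.br .no .no (.br .lf .no .no (.sw 0 3 [8])) (.br (.sw 2 3 [7]) .no .no .no)) .no (.br .no .no (.sy 1 210 6) .no)) .no (.br .no (.br .no .no (.br (.sw 1 3 [5]) .no .no .no) .no) .no (.br .no .no (.br (.sw 1 3 [5]) .no .no .no) .no))) .no .no (.br .no (.sy 2 201 4) .no .no)) (.br (.sy 1 210 3) .no .no .no)) (.sy 0 180 2)) (.sy 0 216 1) (.sy 0 120 1)) (.sy 0 225 0) (.sy 0 201 0) (.sy 0 57 0))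

theorem solved : R.S 0 0 := R.piece L hL root 0 0 1 (by norm_num) (by norm_num) (by norm_num) (by decide +kernel)

theorem ergodic : WSKErgodic (triangular 3) 4 := R.ergodic solved

end T3
end Pool.Agent.H411R2.WSK
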