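import Pool.Agent.H411R2.WSK.TriRun

set_option maxRecDepth 100000
set_option linter.all false

namespace Pool.Agent.H411R2.WSK

namespace T4

def nbt : List (List ℕ) := [[4,1,7,12,3,13], [5,2,4,13,0,14], [6,3,5,14,1,15], [7,0,6,15,2,12], [8,5,11,0,7,1], [9,6,8,1,4,2], [10,7,9,2,5,3], [11,4,10,3,6,0], [12,9,15,4,11,5], [13,10,12,5,8,6], [14,11,13,6,9,7], [15,8,14,7,10,4], [0,13,3,8,15,9], [1,14,0,9,12,10], [2,15,1,10,13,11], [3,12,2,11,14,8]]

def NB : List (List ℕ) := [[], [0], [1], [0,2], [0,1], [1,4,2], [2,5,3], [4,3,6,0], [4,5], [5,8,6], [6,9,7], [8,7,10,4], [0,3,8,9], [1,0,9,12,10], [2,1,10,13,11], [3,12,2,11,14,8]]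

def D1 : List Der := [.sy 1156465902 3997494852 0 78, .sy 3138501393 3997494852 0 177]

def D2 : List Der := []

def goals : List ℕ := [3997494852]


def R : Run 4 where
  hn := by norm_num
  nbt := nbt
  NB := NB
  s0 := 3997494852
  s1 := 1156465902
  s2 := 3138501393
  D1 := D1
  D2 := D2
  goals := goals
  hlen := by decide +kernel
  htab := by decide +kernel
  hbase := by decide +kernel
  hNB := by decide +kernel
  hs1 := by decide +kernel
  hs2 := by decide +kernel
  hD1 := by decide +kernel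
  hD2 := by decide +kernel

def L : List (ℕ × ℕ) := goals.map (fun s => (16, s))

theorem hL : ∀ x ∈ L, R.S x.1 x.2 := by
  intro x hx
  obtain ⟨s, hs, rfl⟩ := List.mem_map.mp hx
  exact R.leaf hs

def root : Cert := (.br (.br .no (.br (.br .no (.br .no .no (.br .no .no .no (.br .no .no (.br .no .no .no (.br (.br .no (.br (.br .no (.br .no .no (.br .no .no .no (.br .no .no (.br .no .no .no .lf) .no)) (.br .no .no (.br .no .no .no (.br .no .no (.sw 2 3 [12,13,14,15]) .no)) .no)) .no .no) .no .no .no) .no .no) (.br (.br .no (.br (.br .no .no (.sy 4 75 8) (.br .no .no (.br .no .no .no (.br .no .no (.sw 0 1 [8,9,10,11]) .no)) .no)) .no .no .no) .no .no) .no .no .no) .no .no)) .no)) (.sy 0 180 4)) (.br .no .no (.br .no .no .no (.br .no (.br .no .no .no (.br (.br .no .no (.br (.br .no (.br .no (.br .no .no .no (.br .no .no (.br .no .no .no (.sw 1 2 [3,6,9,12])) .no)) .no (.de 13)) .no .no) .no .no .no) .no) (.br (.br .no .no (.br (.br .no .no .no (.de 13)) .no .no .no) .no) .no (.br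 (.de 11) .no .no .no) .no) .no .no)) .no .no)) (.br .no .no (.br .no (.de 7) .no (.br .no (.br (.br .no (.br (.br .no .no (.br .no .no .no (.br .no .no (.br .no .no .no (.br .no (.sw 1 2 [3,7,11,15]) .no .no)) .no)) .no) .no (.de 11) .no) .no .no) (.sy 4 27 4) .no .no) .no .no)) .no)) (.sy 0 180 3)) .no (.br .no (.sy 1 210 2) .no (.br .no .no (.br (.br .no (.de 7) .no .no) .no .no (.br (.br .no (.br (.br .no (.br .no .no (.br .no .no .no (.br .no .no (.br .no .no .no (.br (.br .no (.sw 0 2 [2,6,10,14]) .no .no) .no .no .no)) .no)) (.de 11)) (.sy 4 78 5) .no) (.br .no .no (.de 12) .no) .no .no) .no .no) (.de 7) .no .no)) (.br (.br .no (.br .no .no (.br .no (.sy 4 57 4) (.br .no .no .no (.br (.br .no (.br .no (.br .no .no (.br .no .no .no (.br (.sw 0 2 [2,5,8,15]) .no .no .no)) .no) .no .no) .no .no) .no .no .no)) .no) .no) .no .no) .no .no .no))) (.sy 0 180 2)) (.sy 0 216 1) (.sy 0 120 1)) (.sy 0 225 0) (.sy 0 201 0) (.sy 0 57 0))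

theorem solved : R.S 0 0 := R.piece L hL root 0 0 1 (by norm_num) (by norm_num) (by norm_num) (by decide +kernel)

theorem ergodic : WSKErgodic (triangular 4) 4 := R.ergodic solved

end T4
end Pool.Agent.H411R2.WSK
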