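import Pool.Agent.H411R2.WSK.TriRun

set_option maxRecDepth 100000
set_option linter.all false

namespace Pool.Agent.H411R2.WSK

namespace T5

def nbt : List (List ℕ) := [[5,1,9,20,4,21], [6,2,5,21,0,22], [7,3,6,22,1,23], [8,4,7,23,2,24], [9,0,8,24,3,20], [10,6,14,0,9,1], [11,7,10,1,5,2], [12,8,11,2,6,3], [13,9,12,3,7,4], [14,5,13,4,8,0], [15,11,19,5,14,6], [16,12,15,6,10,7], [17,13,16,7,11,8], [18,14,17,8,12,9], [19,10,18,9,13,5], [20,16,24,10,19,11], [21,17,20,11,15,12], [22,18,21,12,16,13], [23,19,22,13,17,14], [24,15,23,14,18,10], [0,21,4,15,24,16], [1,22,0,16,20,17], [2,23,1,17,21,18], [3,24,2,18,22,19], [4,20,3,19,23,15]]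

def NB : List (List ℕ) := [[], [0], [1], [2], [0,3], [0,1], [1,5,2], [2,6,3], [3,7,4], [5,4,8,0], [5,6], [6,10,7], [7,11,8], [8,12,9], [10,9,13,5], [10,11], [11,15,12], [12,16,13], [13,17,14], [15,14,18,10], [0,4,15,16], [1,0,16,20,17], [2,1,17,21,18], [3,2,18,22,19], [4,20,3,19,23,15]]

def D1 : List Der := [.sy 690641329878306 203704850758212 0 201, .sw 690640893697314 690641329878306 1 3 [5,6,7,12,13,14], .sw 637915674628398 690640893697314 0 3 [1,5,9,13,17,22], .sy 337108553773209 203704850758212 0 210, .sw 319533535010973 337108553773209 2 3 [1,6,11,12,17,22], .sw 332675530960017 319533535010973 0 3 [1,5,13,14,17,21]]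

def D2 : List Der := [.sy 262254922857348 203704850758212 20 78, .sw 262310757432196 262254922857348 0 1 [16,17,18], .sw 261215536593732 262310757432196 1 2 [3,7,11,16,20], .sw 261215536593476 261215536593732 2 3 [4], .sy 261214694586948 203704850758212 14 228, .sw 204318189075012 261214694586948 2 3 [15,16,19,21,22,23]]

def goals : List ℕ := [203704850758212, 261215536593476, 204318189075012]


def R : Run 5 where
  hn := by norm_num
  nbt := nbt
  NB := NB
  s0 := 203704850758212
  s1 := 637915674628398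
  s2 := 332675530960017
  D1 := D1
  D2 := D2
  goals := goals
  hlen := by decide +kernel
  htab := by decide +kernel
  hbase := by decide +kernel
  hNB := by decide +kernel
  hs1 := by decide +kernel
  hs2 := by decide +kernel
  hD1 := by decide +kernel
  hD2 := by decide +kernel

def L : List (ℕ × ℕ) := goals.map (fun s => (25, s))

theorem hL : ∀ x ∈ L, R.S x.1 x.2 := by
  intro x hx
  obtain ⟨s, hs, rfl⟩ := List.mem_map.mp hx
  exact R.leaf hs

def root : Cert := (.br (.br .no (.br (.br .no (.br .no .no (.br .no .no (.br .no .no .no (.br .no .no (.br (.br .no (.br (.br .no (.br .no .no .no (.br .no .no (.br .no .no .no (.br .no .no (.br (.br .no (.br (.br .no (.br .no (.br .no .no (.br .no .no .no (.br .no .no (.br .lf .no .no (.sw 0 3 [24])) .no)) (.br .no .no (.br .no .no .no (.br (.sw 2 3 [21,22,23]) .no .no .no)) .no)) .no (.br .no .no (.br .no .no .no (.br .no .no (.br (.sw 1 3 [20]) .no .no .no) .no)) .no)) .no .no) .no .no .no) .no .no) .no .no .no) (.br (.br .no (.br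 (.br .no (.br .no (.br .no .no (.br .no .no .no (.br .no .no (.br (.sw 2 3 [15]) .no .no .no) .no)) (.br .no .no (.br .no .no .no (.br (.sw 2 3 [15]) .no .no .no)) .no)) .no .no) (.br .no (.br .no .no (.br .no .no .no (.de 23)) (.br .no .no (.br .no .no .no (.br (.sw 1 2 [19]) .no .no .no)) .no)) .no .no) .no) .no .no .no) .no .no) .no (.br (.br .no (.br .no .no (.br .no (.br .no .no .no (.br .no .no (.br .no .no .no (.br .lf .no .no .no)) .no)) .no .no) .no) .no .no) (.br (.br .no (.br .no (.br .no .no .no (.sw 0 2 [16])) .no .no) (.br .no (.br .no .no .no (.sw 0 2 [16])) .no .no) .no) .no .no .no) .no .no) .no))) .no)) .no .no) (.br (.br .no (.br .no .no (.br (.br .no .no (.br .no .no .no (.br (.br .no (.br .no .no .no (.br .no (.br .no .no (.br .no .no .no (.br .no .no (.br .lf .no .no .no) .no)) .no) .no .no)) .no (.de 19)) .no .no .no)) (.br .no .no (.br (.br .no (.br .no .no (.br .no (.br .no .no .no (.br .no .no (.br .no .no .no (.br (.sw 2 3 [15,16,19,21,22,23]) .no .no .no))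 .no)) .no .no) .no) .no (.br .no .no (.de 23) .no)) .no .no (.de 21)) .no)) .no .no (.br .no .no (.br .no .no .no (.br (.br .no (.br (.br .no (.br .no .no (.br .no .no .no (.br .no .no (.br .no .no .no (.sw 0 3 [14,19,24])) .no)) .no) .no .no) .no .no .no) .no .no) .no .no .no)) (.br .no .no (.br (.br .no (.br (.de 24) .no (.sw 0 3 [14]) .no) .no .no) .no .no (.de 21)) .no))) (.br (.br .no .no (.br .no .no .no (.br (.br .no (.sw 2 3 [13]) (.br .no .no .no (.de 23)) .no) .no (.de 21) .no)) (.br .no .no (.br (.br .no (.sw 2 3 [13]) (.de 19) .no) .no .no .no) .no)) .no .no .no)) .no (.br .no .no (.br (.br .no .no (.br .no (.br (.br .no (.br .no .no .no (.br .no .no .no (.br .no .no (.br .no .no .no (.br .no .no (.br (.sw 1 3 [12,16,20]) .no .no .no) .no)) .no))) .no (.de 19)) .no .no .no) .no .no) (.br .no (.de 20) (.br (.sw 1 3 [12]) (.br .no .no .no (.br .no .no (.de 23) .no)) .no .no) .no)) .no .no (.br .no .no (.br .no (.br (.br .no (.br (.br .no .no .no (.de 24)) .no .no .no) .no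 .no) .no .no .no) .no .no) (.br .no (.de 20) (.br (.sw 1 3 [12]) (.br (.br .no .no (.sw 0 1 [10,11]) .no) .no .no .no) .no .no) .no))) .no)) .no .no .no) .no .no) .no (.br (.br .no (.br .no .no .no (.br .no (.de 14) (.br .no (.br .no .no (.br (.br .no (.br (.br .no .no .no (.br .no (.br .no .no (.br .no .no .no (.br .no .no (.br (.sw 1 3 [9,14,19]) .no .no .no) .no)) (.br .no .no (.de 23) .no)) .no (.br .no .no (.br .no .no .no (.br .no .no (.br (.sw 1 3 [20]) .no .no .no) .no)) .no))) .no .no (.de 19)) .no .no) .no .no .no) (.br (.br .no (.br (.br .no .no (.sw 1 3 [9,14]) .no) .no .no (.br .no .no (.de 23) .no)) .no .no) .no (.br (.br .no .no .no (.br .no .no (.de 23) .no)) (.br (.br .no .no (.sw 1 3 [9,14]) .no) .no .no (.br .no .no (.de 23) .no)) .no .no) .no)) .no .no) .no)) .no .no) (.br (.br .no (.br .no .no (.br (.sw 1 3 [9]) .no .no .no) .no) .no (.br .no (.br (.br .no .no (.br .no (.br (.br .no .no (.br .no .no .no (.de 23)) (.de 19)) .no (.br .no .no .no (.de 19)) .no)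 .no .no) (.br .no (.de 20) (.br (.br .no .no (.de 19) (.br .no .no (.de 23) .no)) .no .no .no) .no)) .no .no .no) (.br (.sw 1 3 [9]) .no .no .no) .no)) .no .no .no) .no .no)) .no .no (.br .no (.br (.br .no (.br (.br .no .no (.br .no .no .no (.br .no .no (.br .no .no .no (.br .no (.br (.br .no (.br .no (.br .no .no (.sw 0 3 [8,12,16]) .no) .no .no) .no .no) .no .no .no) .no .no)) (.br .no .no (.br .no (.sw 0 3 [8,12]) .no (.de 21)) .no))) .no) .no .no .no) .no .no) (.br (.br .no (.br (.br .no .no .no (.br .no .no (.sy 5 75 10) (.br .no .no (.br .no .no .no (.de 21)) .no))) .no (.sw 0 3 [8]) .no) .no .no) .no .no .no) .no .no) .no .no)) .no)) (.br .no .no (.br .no .no .no (.br (.br .no (.br (.br .no (.br .no .no (.br .no .no .no (.br .no .no (.br .no .no (.br (.br .no (.br (.br .no (.sw 2 3 [5,6,7,12,13,14]) .no (.br .no (.br .no .no (.br .no .no .no (.br .no .no (.br (.sw 1 3 [19]) .no .no .no) .no)) (.br .no .no (.de 23) .no)) .no (.br .no .no (.br .no .no .no (.br .no .no (.br (.sw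 1 3 [19]) .no .no .no) .no)) .no))) .no .no .no) .no .no) .no .no (.br (.br .no (.br .no .no .no (.br .no (.br .no .no (.br .no .no .no (.br .no .no (.br (.sw 2 3 [5,6,7,12,13,14,15,16,19,21,22,23]) .no .no .no) .no)) .no) .no .no)) .no .no) (.br (.br .no (.br .no (.br .no .no (.sw 0 3 [16]) .no) .no .no) .no (.br .no (.br .no .no (.sw 0 3 [16]) .no) .no .no)) .no .no .no) .no .no)) (.br (.br .no (.br (.br .no (.sw 2 3 [5,6,7,12,13,14]) .no .no) .no .no .no) .no .no) .no .no .no)) .no)) .no) .no .no) (.br (.br .no (.br .no .no (.br (.sw 2 3 [5,6,7]) .no .no .no) (.br (.sw 2 3 [5,6,7]) .no (.br .no .no (.br .no .no .no (.br (.br .no (.br (.sw 2 3 [5,6,7,13,14]) .no .no (.sw 0 2 [14])) .no .no) .no (.de 21) .no)) (.br .no .no (.br (.br .no (.br (.de 24) .no .no .no) .no .no) .no .no .no) .no)) .no)) (.br .no .no .no (.br (.br .no .no (.br .no (.br (.br .no (.sw 2 3 [5,6,7,12,13]) (.br .no .no .no (.de 23)) .no) .no .no .no) .no (.br (.sw 1 2 [12]) (.br .no .no (.br .no .no .no (.de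 23)) .no) .no .no)) (.br .no (.de 20) .no .no)) .no (.br .no .no (.br .no (.br (.br .no (.br (.sw 2 3 [5,6,7,12,13,14]) .no .no (.sw 0 2 [14])) .no .no) .no .no .no) .no (.br (.sw 1 2 [12]) (.br (.br .no .no .no (.sw 0 1 [10,11])) .no .no .no) .no .no)) (.br .no (.de 20) .no .no)) .no)) .no) .no .no .no) .no .no) .no .no) .no .no .no)) .no)) (.sy 0 180 4)) (.br .no (.sy 4 225 3) .no (.br .no .no (.br .no .no .no (.br .no (.br (.br .no (.br (.br .no .no (.br .no .no .no (.br .no .no (.br .no .no .no (.sy 11 78 3)) .no)) .no) (.br (.br .no .no (.br .no .no .no (.br (.br .no .no (.br .no (.de 20) .no (.br (.br .no (.br .no .no .no (.de 23)) (.br .no .no .no (.sy 18 78 3)) .no) (.sy 7 225 10) .no .no)) (.br .no (.br (.br .no (.br .no .no (.br .no .no (.br .no .no .no (.br .no .no (.sy 7 225 15) .no)) .no) .no) (.de 19) .no) .no .no .no) .no .no)) .no .no .no)) (.br .no .no (.br (.br .no .no (.br .no (.de 20) .no .no) (.br .no (.br (.br .no (.sw 2 3 [12,13]) .no (.br .no .no (.br .no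 .no (.br .no .no .no (.br .no .no (.br .no (.br (.sw 1 3 [4,9]) .no .no .no) .no .no) .no)) .no) .no)) .no .no .no) (.br (.br .no (.br .no .no (.br .no (.br .no .no .no (.br .no .no (.br .no .no .no (.br (.sw 1 2 [3,7]) .no .no .no)) .no)) .no .no) .no) .no (.br .no .no (.sy 18 30 3) .no)) (.br .no .no .no (.br .no .no (.sy 18 30 3) .no)) .no .no) .no)) .no .no (.br .no .no (.br .no (.de 20) .no .no) (.br .no (.br (.br .no (.br (.sy 16 225 3) .no (.sw 0 3 [14]) .no) .no .no) .no .no .no) (.br (.br .no (.br (.br .no (.de 24) .no .no) .no (.sw 0 3 [14]) .no) .no .no) (.br (.br .no .no (.br .no (.br .no .no .no (.br .no .no (.br .no (.sw 0 3 [14,18]) .no (.sw 0 1 [17,18])) .no)) .no .no) .no) .no .no .no) .no .no) .no))) .no)) .no (.br .no .no .no (.br .no .no (.br (.br (.br .no (.br (.br .no (.sy 15 228 3) .no (.br .no .no (.br .no .no (.br .no .no .no (.br .no .no (.br .no (.de 24) .no .no) .no)) .no) .no)) .no .no .no) .no .no) .no .no (.br (.br .no (.br .no .no .no (.br .no .no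 (.br .no (.br .no .no (.de 22) (.sw 0 2 [11,16])) (.br .no .no .no (.br .no .no (.sy 11 78 11) .no)) .no) .no)) .no .no) (.sw 0 2 [11]) .no .no)) .no .no (.sy 11 78 3)) .no)) .no) .no .no) .no .no) .no .no .no) .no .no)) (.br .no .no (.br .no (.br (.br .no (.br (.br .no .no .no (.br .no .no (.br .no .no .no (.br .no .no (.sy 11 30 3) .no)) .no)) (.br (.br .no .no (.br .no .no .no (.br (.sw 2 3 [5,6]) .no (.br .no .no (.br .no (.de 20) .no (.br (.br .no (.br (.br .no (.de 24) .no .no) .no .no (.de 23)) .no .no) (.sy 12 75 5) .no .no)) (.br .no (.br (.br .no (.br (.sw 2 3 [5,6,12,13,14]) .no .no .no) .no .no) .no .no .no) .no .no)) .no)) (.sy 7 177 5)) .no .no (.br .no .no (.br .no .no .no (.br (.br (.br .no (.br (.br .no (.sw 2 3 [5,6,11,12,13]) (.br .no .no .no (.br .no .no (.sy 15 228 5) .no)) .no) .no .no .no) .no .no) .no (.br (.sy 11 30 5) (.de 20) .no .no) .no) .no (.sy 11 30 3) .no)) .no)) .no .no) (.br (.br .no .no .no (.br .no .no (.br .no (.de 14) .no (.br .no (.sy 9 75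 5) .no .no)) .no)) (.br (.br .no .no (.br .no (.br (.sy 13 225 3) .no .no .no) .no (.br (.sw 1 2 [9]) .no .no .no)) (.br .no (.br (.sy 13 225 3) .no .no .no) .no .no)) .no .no (.br .no .no (.br .no (.br (.br (.br .no (.br (.br .no .no (.br .no .no .no (.sy 13 177 9)) (.sy 13 177 5)) .no .no (.br .no .no (.de 22) .no)) .no .no) .no (.br (.br .no .no .no (.br .no .no (.de 22) .no)) (.de 20) .no .no) .no) .no .no .no) .no (.br (.sw 1 2 [9]) .no .no .no)) .no)) .no .no) .no) .no .no .no) .no (.br (.br .no (.br (.sy 5 30 5) (.br (.br .no (.br .no .no (.br (.sy 14 228 3) .no .no .no) (.br (.sy 14 228 3) .no (.br .no .no (.br .no .no .no (.br (.sy 10 177 7) .no (.de 21) .no)) (.sy 10 177 5)) .no)) (.sw 1 3 [7]) .no) .no .no .no) .no .no) (.sy 9 78 3) .no) (.br .no .no (.sy 9 78 3) .no) .no .no)) .no))) (.sy 0 180 3)) .no (.br (.br .no (.sy 3 228 2) (.sy 2 201 2) (.sy 3 120 2)) (.sy 1 210 2) .no (.br .no (.sy 4 225 2) (.sy 2 78 2) .no)) (.sy 0 180 2)) (.sy 0 216 1) (.sy 0 120 1)) (.sy 0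 225 0) (.sy 0 201 0) (.sy 0 57 0))

theorem solved : R.S 0 0 := R.piece L hL root 0 0 1 (by norm_num) (by norm_num) (by norm_num) (by decide +kernel)

theorem ergodic : WSKErgodic (triangular 5) 4 := R.ergodic solved

end T5
end Pool.Agent.H411R2.WSK
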