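import Pool.Agent.H411R2.WSK.T7

set_option maxRecDepth 100000
set_option linter.all false

namespace Pool.Agent.H411R2.WSK

namespace T7

def c0_0_0 : Cert := (.br .no .no (.br .no .no .no (.br .no .no (.br (.br .no (.br (.br .no (.br (.br .no (.br .no .no .no (.br .no .no (.br .no .no .no (.br .no .no (.br .no .no .no (.br .no .no (.br (.br .no (.br (.br .no (.br (.br .no (.br .no (.br .no .no (.br .no .no .no (.br .no .no (.br .no .no .no (.br .no .no (.br .lf .no .no (.sw 0 3 [48])) .no)) .no)) (.br .no .no (.br .no .no .no (.br .no .no (.br .no .no .no (.br (.sw 2 3 [43,44,45,46,47]) .no .no .no)) .no)) .no)) .no (.br .no .no (.br .no .no .no (.br .no .no (.br .no .no .no (.br .no .no (.br (.sw 1 3 [42]) .no .no .no) .no)) .no)) .no)) .no .no) .no .no .no) .no .no) .no .no .no) .no .no) .no .no .no) (.br (.br .no (.br (.br .no (.br (.br .no (.br .no (.br .no .no (.br .no .no .no (.br .no .no (.br .no .no .no (.br .no .no (.br (.sw 2 3 [35]) .no .no .no) .no)) .no)) (.br .no .no (.br .no .no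 .no (.br .no .no (.br .no .no .no (.br (.sw 2 3 [35]) .no .no .no)) .no)) .no)) .no .no) (.br .no (.br .no .no (.br .no .no .no (.br .no .no (.br .no .no .no (.de 47)) .no)) (.br .no .no (.br .no .no .no (.br .no .no (.br .no .no .no (.br (.sw 1 2 [41]) .no .no .no)) .no)) .no)) .no .no) .no) .no .no .no) .no .no) .no .no .no) .no .no) .no (.br (.br .no (.br (.br .no (.br .no .no (.br .no (.br .no .no .no (.br .no .no (.br .no .no .no (.br .no .no (.br .no .no .no (.br .lf .no .no .no)) .no)) .no)) .no .no) .no) .no .no) .no .no .no) .no .no) (.br (.br .no (.br (.br .no (.br .no (.br .no .no .no (.sw 0 2 [36])) .no .no) (.br .no (.br .no .no .no (.sw 0 2 [36])) .no .no) .no) .no .no .no) .no .no) .no .no .no) .no .no) .no))) .no)) .no)) .no .no) (.br (.br .no (.br .no .no (.br .no .no .no (.br .no .no (.br (.br .no .no (.br .no .no .no (.br (.br .no (.br (.br .no (.br .no .no .no (.br .no (.br .no .no (.br .no .no .no (.br .no .no (.br .no .no .no (.br .no .no (.br .lf .no .no .no) .no)) .no))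 .no) .no .no)) .no (.de 41)) .no .no .no) .no .no) .no .no .no)) (.br .no .no (.br (.br .no (.br (.br .no (.br .no .no (.br .no (.br .no .no .no (.br .no .no (.br .no .no .no (.br .no .no (.br .no .no .no (.br (.sw 2 3 [35,36,41,43,44,45,46,47]) .no .no .no)) .no)) .no)) .no .no) .no) .no (.br .no .no (.de 47) .no)) .no .no .no) .no .no) .no .no (.de 43)) .no)) .no .no (.br .no .no (.br .no .no .no (.br (.br .no (.br (.br .no (.br (.br .no (.br .no .no (.br .no .no .no (.br .no .no (.br .no .no .no (.br .no .no (.br .no .no .no (.sw 0 3 [34,41,48])) .no)) .no)) .no) .no .no) .no .no .no) .no .no) .no .no .no) .no .no) .no .no .no)) (.br .no .no (.br (.br .no (.br (.br .no (.br (.de 48) .no (.sw 0 3 [34]) .no) .no .no) .no .no .no) .no .no) .no .no (.de 43)) .no))) .no)) (.br .no .no (.br .no .no .no (.br (.br .no .no (.br .no .no .no (.br (.br .no (.br (.br .no (.sw 2 3 [31,32,33]) (.br .no .no .no (.de 47)) .no) .no .no .no) .no .no) .no (.de 43) .no)) (.br .no .no (.br (.br .no (.br (.br .no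 (.sw 2 3 [31,32,33]) (.de 41) .no) .no .no .no) .no .no) .no .no .no) .no)) .no .no .no)) .no)) .no (.br .no .no (.br .no .no .no (.br .no .no (.br (.br .no .no (.br .no (.br (.br .no (.br (.br .no (.br .no .no .no (.br .no .no .no (.br .no .no (.br .no .no .no (.br .no .no (.br .no .no .no (.br .no .no (.br (.sw 1 3 [30,36,42]) .no .no .no) .no)) .no)) .no))) .no (.de 41)) .no .no .no) .no .no) .no .no .no) .no .no) (.br .no (.de 42) (.br (.sw 1 3 [30]) (.br (.br .no (.br .no .no .no (.br .no .no (.de 47) .no)) .no .no) .no .no .no) .no .no) .no)) .no .no (.br .no .no (.br .no (.br (.br .no (.br (.br .no (.br (.br .no .no .no (.de 48)) .no .no .no) .no .no) .no .no .no) .no .no) .no .no .no) .no .no) (.br .no (.de 42) (.br (.sw 1 3 [30]) (.br (.br .no (.br (.br .no .no (.sw 0 1 [28,29]) .no) .no .no .no) .no .no) .no .no .no) .no .no) .no))) .no)) .no)) .no .no .no) .no .no) .no .no) .no .no .no) .no .no) .no .no .no) .no)) (.br .no .no (.br .no .no .no (.br (.br .no (.br (.br .no (.br (.br .no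 (.br .no .no (.br .no .no .no (.br .no .no (.br .no .no .no (.br .no .no (.br .no .no (.br (.br .no (.br (.br .no (.br (.br .no (.sw 2 3 [21,22,23,30,31,32,33,34]) .no (.br .no (.br .no .no (.br .no .no .no (.br .no .no (.br .no .no .no (.br .no .no (.br (.sw 1 3 [41]) .no .no .no) .no)) .no)) (.br .no .no (.br .no .no .no (.br .no .no (.de 47) .no)) .no)) .no (.br .no .no (.br .no .no .no (.br .no .no (.br .no .no .no (.br .no .no (.br (.sw 1 3 [41]) .no .no .no) .no)) .no)) .no))) .no .no .no) .no .no) .no .no .no) .no .no) .no .no (.br (.br .no (.br (.br .no (.br .no .no .no (.br .no (.br .no .no (.br .no .no .no (.br .no .no (.br .no .no .no (.br .no .no (.br (.sw 2 3 [21,22,23,30,31,32,33,34,35,36,41,43,44,45,46,47]) .no .no .no) .no)) .no)) .no) .no .no)) .no .no) .no .no .no) .no .no) (.br (.br .no (.br (.br .no (.br .no (.br .no .no (.sw 0 3 [36]) .no) .no .no) .no (.br .no (.br .no .no (.sw 0 3 [36]) .no) .no .no)) .no .no .no) .no .no) .no .no .no) .no .no)) (.br (.br .no (.br (.br .no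 (.br (.br .no (.sw 2 3 [21,22,23,30,31,32,33,34]) .no .no) .no .no .no) .no .no) .no .no .no) .no .no) .no .no .no)) .no)) .no)) .no) .no .no) (.br (.br .no (.br .no .no (.br .no .no .no (.br .no .no (.br (.sw 2 3 [21,22,23]) .no .no .no) .no)) (.br .no .no (.br .no .no .no (.br (.sw 2 3 [21,22,23]) .no (.br .no .no (.br .no .no .no (.br (.br .no (.br (.br .no (.br (.sw 2 3 [21,22,23,31,32,33,34]) .no .no (.sw 0 2 [34])) .no .no) .no .no .no) .no .no) .no (.de 43) .no)) (.br .no .no (.br (.br .no (.br (.br .no (.br (.de 48) .no .no .no) .no .no) .no .no .no) .no .no) .no .no .no) .no)) .no)) .no)) (.br .no .no .no (.br .no .no (.br .no .no .no (.br (.br .no .no (.br .no (.br (.br .no (.br (.br .no (.sw 2 3 [21,22,23,30,31,32,33]) (.br .no .no .no (.de 47)) .no) .no .no .no) .no .no) .no .no .no) .no (.br (.sw 1 2 [30]) (.br (.br .no (.br .no .no (.br .no .no .no (.de 47)) .no) .no .no) .no .no .no) .no .no)) (.br .no (.de 42) .no .no)) .no (.br .no .no (.br .no (.br (.br .no (.br (.br .no (.br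 (.sw 2 3 [21,22,23,30,31,32,33,34]) .no .no (.sw 0 2 [34])) .no .no) .no .no .no) .no .no) .no .no .no) .no (.br (.sw 1 2 [30]) (.br (.br .no (.br (.br .no .no .no (.sw 0 1 [28,29])) .no .no .no) .no .no) .no .no .no) .no .no)) (.br .no (.de 42) .no .no)) .no)) .no)) .no) .no .no .no) .no .no) (.br (.br .no (.br .no .no (.br .no .no .no (.br .no .no (.br .no (.de 34) .no (.br .no (.br .no .no (.br (.br .no (.br (.br .no (.br (.br .no .no .no (.sw 1 2 [27,34])) .no (.br .no .no .no (.de 47)) .no) .no .no) .no .no .no) .no .no) .no .no (.br (.br .no (.br (.br .no .no (.br .no .no .no (.de 47)) .no) .no .no .no) .no .no) (.br (.br .no (.br (.br .no .no .no (.sw 1 2 [27,34])) .no (.br .no .no .no (.de 47)) .no) .no .no) .no .no .no) .no .no)) (.br (.br .no (.br (.br .no (.br (.br .no .no (.br .no (.br .no .no (.br .no .no .no (.br .no .no (.br .no .no .no (.de 47)) .no)) (.br .no .no (.br .no .no .no (.br .no .no (.br .no .no .no (.br (.sw 1 2 [27,34,41]) .no .no .no)) .no)) .no)) .no .no) .no) .no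 (.de 41) .no) .no .no) .no .no .no) .no .no) .no .no .no)) .no .no)) .no)) .no) .no .no) (.br (.br .no (.br .no .no (.br .no .no .no (.br .no (.br (.br .no .no (.br .no .no .no (.br (.br .no (.br (.br .no .no (.br .no .no .no (.de 47)) (.de 41)) .no (.br .no .no .no (.de 41)) .no) .no .no) .no .no .no)) (.br .no .no (.br (.br .no (.br (.br .no .no (.de 41) (.sw 1 2 [27,33])) .no (.br .no .no .no (.de 46)) .no) .no .no) .no .no (.de 43)) .no)) .no .no .no) .no .no)) (.br .no .no (.br .no (.br (.br .no .no (.br .no .no .no (.br (.br .no (.br (.sw 2 3 [31,32]) .no .no (.br .no .no (.de 46) .no)) .no .no) .no (.de 43) .no)) (.br .no .no (.br (.br .no (.br (.sw 2 3 [31,32]) .no .no (.br .no .no (.de 41) .no)) .no .no) .no .no .no) .no)) .no .no .no) .no (.br (.sw 1 2 [27]) .no .no .no)) .no)) (.br .no .no .no (.br .no .no (.br .no (.br (.br .no .no (.br .no (.br (.br .no (.br (.br .no .no (.br .no .no .no (.de 47)) (.de 41)) .no .no (.br .no .no (.de 46) .no)) .no .no) .no .no .no) .no (.br (.sw 1 2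 [30]) (.br (.br .no .no .no (.br .no .no (.de 46) .no)) .no .no .no) .no .no)) (.br .no (.de 42) .no .no)) .no .no .no) .no (.br (.sw 1 2 [27]) .no .no .no)) .no)) .no) .no .no .no) .no .no) .no) .no .no .no) .no .no) .no (.br (.br .no (.br .no .no (.br (.br .no (.br (.br .no (.br .no .no (.br (.br .no (.br .no .no (.br .no .no .no (.br .no .no (.de 43) .no)) (.br .no .no (.br .no .no .no (.de 43)) .no)) .no .no) .no .no (.br .no (.br .no .no (.br .no .no .no (.br .no .no (.de 43) .no)) (.br .no .no (.br .no .no .no (.de 43)) .no)) .no .no)) (.br (.br .no (.br .no .no (.br .no .no .no (.br .no .no (.de 43) .no)) (.br .no .no (.br .no .no .no (.de 43)) .no)) .no .no) .no .no .no)) .no (.br .no .no (.br (.br .no (.br .no .no (.br .no .no .no (.br .no (.br (.br .no (.br .no .no (.br .no .no .no (.de 47)) (.de 41)) .no (.br .no .no (.de 46) .no)) .no .no .no) (.de 43) .no)) (.br .no .no (.br .no (.br (.br .no (.br .no .no (.de 41) (.br .no .no (.de 47) .no)) .no (.br .no .no (.de 41) .no)) .no .no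 .no) .no .no) .no)) .no .no) .no .no (.br .no (.br .no .no (.br .no .no .no (.br .no (.br (.br .no (.br (.br .no .no .no (.br .no (.br .no .no (.br .no .no .no (.br .no .no (.br .no .no .no (.br .no .no (.br .lf .no .no .no) .no)) .no)) .no) .no .no)) .no (.sw 0 3 [33]) .no) .no .no) .no .no .no) (.de 43) .no)) (.br .no .no (.br .no (.br (.br .no (.br (.br .no .no (.br .no (.br .no .no .no (.br .no .no (.br .no .no .no (.br .no .no (.br .no .no .no (.br (.sw 2 3 [35,36,41,43,44,45,46,47]) .no .no .no)) .no)) .no)) .no .no) .no) .no (.de 41) .no) .no .no) .no .no .no) .no .no) .no)) .no .no)) .no)) .no .no .no) .no .no) (.br (.br .no (.br .no .no .no (.br .no .no (.br (.de 34) .no .no (.br (.br .no .no (.br .no .no .no (.br (.br .no (.br (.br .no (.br .no .no .no (.br .no (.br .no .no (.br .no .no .no (.br .no .no (.br .no .no .no (.br .no .no (.sw 0 1 [28,29,30,34,37,38,39,40]) .no)) .no)) .no) .no .no)) (.br .no .no .no (.de 47)) .no) .no .no .no) .no .no) .no (.de 43) .no)) (.br .no .no (.br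 (.br .no (.br (.br .no (.br .no .no (.br .no (.br .no .no .no (.br .no .no (.br .no .no .no (.br .no .no (.br .no .no .no (.sw 0 1 [28,29,30,34,37,38,39,40])) .no)) .no)) .no .no) .no) (.de 41) .no) .no .no .no) .no .no) .no .no .no) .no)) .no .no .no)) .no)) .no .no) .no .no .no) .no .no) .no) .no .no) (.br (.br .no (.br (.br .no (.br (.br .no .no .no (.br .no .no (.br .no .no .no (.br .no .no (.br .no .no (.br .no .no .no (.br .no (.sw 0 2 [24,30]) (.de 43) .no)) (.br .no .no (.br .no (.br (.br .no (.br (.br .no (.br .no (.br .no .no .no (.sw 0 2 [24,30,36])) .no .no) .no .no) .no .no .no) .no .no) .no .no .no) .no .no) .no)) .no)) .no)) .no .no .no) .no .no) (.br (.br .no (.br (.br .no .no (.br .no .no .no (.br (.br .no .no (.br .no .no .no (.br .no .no (.de 43) .no)) (.br .no .no (.br .no .no .no (.de 43)) .no)) .no (.br .no .no (.br .no .no .no (.br .no .no (.de 43) .no)) (.br .no .no (.br .no .no .no (.de 43)) .no)) .no)) (.br .no .no (.br (.br .no .no (.br .no .no .no (.br .no .no (.de 43)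 .no)) (.br .no .no (.br .no .no .no (.de 43)) .no)) .no .no .no) .no)) .no .no (.sw 0 2 [24])) .no .no) .no .no .no) .no .no) (.br (.br .no (.br (.br .no .no .no (.br .no .no (.br .no (.de 34) .no (.sw 0 1 [25,26])) .no)) .no .no .no) .no .no) (.br (.br .no (.br (.br .no .no (.br .no (.br (.br .no .no (.br .no .no .no (.br .no .no (.de 43) .no)) (.br .no .no (.br .no .no .no (.de 43)) .no)) .no .no .no) .no (.br (.sw 1 2 [27]) .no .no .no)) (.br .no (.br (.br .no .no (.br .no .no .no (.br .no .no (.de 43) .no)) (.br .no .no (.br .no .no .no (.de 43)) .no)) .no .no .no) .no .no)) .no .no (.sw 0 2 [24])) .no .no) .no .no .no) .no .no) .no) .no .no .no) .no .no) .no)) .no))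

def c0_0_1 : Cert := (.br .no .no (.br (.br .no .no (.br .no .no .no (.br .no .no (.br .no .no .no (.br (.br .no (.br .no .no .no (.br (.br .no (.br (.br .no (.br .no .no (.br (.br .no (.br .no .no (.br .no .no .no (.br .no .no (.de 43) .no)) (.br .no .no (.br .no .no .no (.de 43)) .no)) .no .no) .no .no .no) (.br (.br .no (.br .no .no (.br .no .no .no (.br .no .no (.de 43) .no)) (.br .no .no (.br .no .no .no (.de 43)) .no)) .no .no) .no (.br .no (.br .no .no (.br .no .no .no (.br .no .no (.de 43) .no)) (.br .no .no (.br .no .no .no (.de 43)) .no)) .no .no) .no)) (.br .no .no .no (.br (.br .no (.br .no .no (.br .no .no .no (.br .no (.br (.br .no (.br .no .no (.br .no .no .no (.de 47)) (.de 41)) (.br .no .no .no (.de 41)) .no) .no .no .no) .no .no)) (.br .no .no (.br .no (.br (.br .no (.br .no .no (.de 41) (.br .no .no (.de 47) .no)) (.br .no .no .no (.de 46)) .no) .no .no .no) .no (.de 43)) .no)) .no .no) .no (.br .no (.br .no .no (.br .no .no .no (.br .no (.br (.br .no (.br (.br .no .no .no (.br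 .no (.br .no .no (.br .no .no .no (.br .no .no (.br .no .no .no (.br .no .no (.br .lf .no .no .no) .no)) .no)) .no) .no .no)) .no .no (.de 41)) .no .no) .no .no .no) .no .no)) (.br .no .no (.br .no (.br (.br .no (.br (.br .no .no (.br .no (.br .no .no .no (.br .no .no (.br .no .no .no (.br .no .no (.br .no .no .no (.br (.sw 2 3 [35,36,41,43,44,45,46,47]) .no .no .no)) .no)) .no)) .no .no) .no) .no .no (.sw 0 2 [33])) .no .no) .no .no .no) .no (.de 43)) .no)) .no .no) .no)) .no) .no .no .no) .no .no) (.br (.br .no (.br .no .no (.br .no .no .no (.br (.de 34) .no (.br (.br .no .no (.br .no .no .no (.br (.br .no (.br (.br .no (.br .no .no .no (.br .no (.br .no .no (.br .no .no .no (.br .no .no (.br .no .no .no (.br .no .no (.sw 0 1 [28,29,30,34,37,38,39,40]) .no)) .no)) .no) .no .no)) .no (.de 41)) .no .no .no) .no .no) .no .no .no)) (.br .no .no (.br (.br .no (.br (.br .no (.br .no .no (.br .no (.br .no .no .no (.br .no .no (.br .no .no .no (.br .no .no (.br .no .no .no (.sw 0 1 [28,29,30,34,37,38,39,40]))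 .no)) .no)) .no .no) .no) .no (.br .no .no (.de 47) .no)) .no .no .no) .no .no) .no .no (.de 43)) .no)) .no .no .no) .no)) .no) .no .no) .no .no .no) .no .no)) .no (.de 27)) .no .no .no)) .no)) (.br .no .no (.br .no .no .no (.br .no .no (.br (.br .no (.br .no .no (.br (.br .no (.br (.br .no (.br .no .no (.br (.br .no (.sw 2 3 [21,22,23,24,27]) .no .no) .no .no (.br .no (.br .no .no (.br .no .no .no (.br .no .no (.de 43) .no)) (.br .no .no (.br .no .no .no (.de 43)) .no)) .no .no)) (.br (.br .no (.sw 2 3 [21,22,23,24,27]) .no .no) .no .no .no)) .no (.br .no .no (.br (.br .no (.br .no .no (.br .no .no .no (.br .no (.br (.br .no (.sw 2 3 [21,22,23,24,27,31,32]) .no (.br .no .no (.de 46) .no)) .no .no .no) (.de 43) .no)) (.br .no .no (.br .no (.br (.br .no (.sw 2 3 [21,22,23,24,27,31,32]) .no (.br .no .no (.de 41) .no)) .no .no .no) .no .no) .no)) .no .no) .no .no (.br .no (.br .no .no (.br .no .no .no (.br .no (.br (.br .no (.br (.sw 2 3 [21,22,23,24,27,31,32,33]) .no (.sw 0 3 [33]) .no) .no .no)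 .no .no .no) (.de 43) .no)) (.br .no .no (.br .no (.br (.br .no (.br (.sw 2 3 [21,22,23,24,27,31,32,33]) .no (.de 41) .no) .no .no) .no .no .no) .no .no) .no)) .no .no)) .no)) .no .no .no) .no .no) (.br (.br .no (.br .no .no .no (.br .no .no (.br (.de 34) .no .no (.br (.sy 20 228 14) .no .no .no)) .no)) .no .no) .no .no .no) .no .no) .no) .no (.br .no .no (.br (.br .no (.br (.br .no (.br .no .no (.br (.sw 1 3 [26]) (.de 34) .no .no) .no) .no (.br .no (.br (.br .no (.br .no .no (.br .no .no .no (.br .no (.br (.br .no .no (.br .no .no .no (.de 41)) (.br .no .no (.de 46) .no)) .no (.br .no .no .no (.de 45)) .no) (.de 43) .no)) (.br .no .no (.br .no (.br (.br .no .no (.br .no .no .no (.de 46)) (.br .no .no (.de 41) .no)) .no (.br .no .no .no (.de 45)) .no) .no .no) .no)) .no .no) .no .no .no) (.br (.sw 1 3 [26]) (.de 34) .no .no) .no)) .no .no .no) .no .no) (.br (.br .no (.br .no .no .no (.br .no (.br (.de 34) .no .no .no) (.br (.de 34) (.br (.br .no .no (.br .no .no .no (.br (.br .no (.br (.br .no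 .no (.sw 1 3 [26,33]) (.de 41)) .no .no (.br .no .no (.de 46) .no)) .no .no) .no (.de 43) .no)) (.br .no .no (.br (.br .no (.br (.br .no .no (.de 41) (.br .no .no (.de 47) .no)) .no .no (.br .no .no (.de 41) .no)) .no .no) .no .no .no) .no)) .no .no .no) .no .no) .no)) .no .no) .no .no .no) .no .no) .no)) .no .no (.br .no (.br .no .no (.br (.br .no (.br (.br .no (.br (.br .no .no .no (.br .no (.br .no .no (.br .no .no .no (.br .no .no (.de 43) .no)) (.br .no .no (.br .no .no .no (.de 43)) .no)) .no .no)) .no (.sw 0 3 [25]) .no) .no .no) .no .no .no) .no .no) (.br (.br .no (.br (.br .no .no (.br (.de 34) .no .no (.br (.br .no .no (.br .no .no .no (.br .no .no (.de 43) .no)) (.br .no .no (.br .no .no .no (.de 43)) .no)) .no .no .no)) .no) .no .no .no) .no .no) .no .no .no) .no .no) .no) .no .no)) .no)) .no)) .no .no (.br .no .no (.br .no .no .no (.br .no .no (.br .no .no .no (.br (.br .no (.br (.br (.br .no (.br (.br .no (.br .no .no (.br .no .no .no (.br .no (.br .no .no (.br .no .no .no (.br .no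 .no (.de 43) .no)) (.br .no .no (.br .no .no .no (.de 43)) .no)) .no .no)) (.br .no .no (.br .no (.sw 0 3 [20,27]) .no (.br .no .no (.br .no .no .no (.br .no .no (.de 43) .no)) (.br .no .no (.br .no .no .no (.de 43)) .no))) .no)) (.br .no .no .no (.br .no .no (.br .no (.sw 0 3 [20,27]) .no (.br .no .no (.br .no .no .no (.br .no (.br (.br .no (.br (.br .no (.br .no (.br .no .no (.br .no .no .no (.br .no .no (.br .no .no .no (.br .no .no (.br (.sw 1 3 [34,41]) .no .no (.sw 0 3 [48])) .no)) .no)) .no) .no .no) .no .no) .no .no .no) .no .no) .no .no .no) .no .no)) (.br .no .no (.br .no (.br (.br .no (.br (.br .no (.br .no (.br .no .no .no (.br .no .no (.br .no .no .no (.br .no .no (.br .no .no .no (.br (.sw 2 3 [35,36,43,44,45,46,47]) .no .no .no)) .no)) .no)) .no .no) (.sw 1 3 [34]) .no) .no .no .no) .no .no) .no .no .no) .no (.de 43)) .no))) .no)) .no) .no .no .no) .no .no) (.br (.br .no (.br .no .no (.br .no .no .no (.br .no .no (.br .no .no .no (.br .no .no (.br .no .no .no (.br (.br .no (.br (.br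 .no (.br (.br .no (.br .no .no (.br .no .no .no (.br .no .no (.br .no .no .no (.br .no .no (.br .no .no .no (.sw 0 3 [20,27,34,41,48])) .no)) .no)) .no) .no .no) .no .no .no) .no .no) .no .no .no) .no .no) .no .no .no)) (.br .no .no (.br (.br .no (.br (.br .no (.br (.de 48) .no (.sw 0 3 [20,27,34]) .no) .no .no) .no .no .no) .no .no) .no .no (.de 43)) .no))) .no)) .no) .no .no) .no .no .no) .no .no) .no .no .no) .no .no) .no .no .no)) .no)) (.br .no .no (.br .no .no .no (.br .no .no (.br (.br .no (.br (.br (.br .no (.br (.br .no (.br .no .no (.br .no .no .no (.br .no (.sw 2 3 [21,22,23,24]) (.br .no .no (.br .no .no .no (.br .no .no (.de 43) .no)) (.br .no .no (.br .no .no .no (.de 43)) .no)) .no)) (.br .no .no (.br .no (.sw 2 3 [21,22,23,24]) .no .no) .no)) .no (.br .no .no (.br .no .no .no (.br .no (.br .no .no (.br .no .no .no (.br .no (.br (.br .no (.br (.sw 2 3 [21,22,23,24,31,32,33]) .no (.br .no .no .no (.de 47)) .no) .no .no) .no .no .no) (.de 43) .no)) (.br .no .no (.br .no (.br (.br .no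 (.br (.sw 2 3 [21,22,23,24,31,32,33]) .no (.de 41) .no) .no .no) .no .no .no) .no .no) .no)) (.br .no .no (.br .no .no .no (.br .no (.br (.br .no (.br (.br .no (.sw 2 3 [21,22,23,24,31,32,33,34]) .no (.sw 1 2 [34])) .no .no .no) .no .no) .no .no .no) (.de 43) .no)) (.br .no .no (.br .no (.br (.br .no (.br (.br .no (.sw 2 3 [21,22,23,24,31,32,33,34]) .no .no) .no .no .no) .no .no) .no .no .no) .no .no) .no)) .no)) .no)) .no .no .no) .no .no) (.br (.br .no (.br .no .no .no (.br .no .no (.br .no .no .no (.br .no .no (.br .no .no (.br .no .no .no (.br (.br .no (.br (.br .no (.br (.sw 2 3 [21,22,23,24,31,32,33,34]) .no .no (.br .no (.br .no .no (.br .no .no .no (.br .no .no (.br .no .no .no (.br .no .no (.sw 0 1 [28,29,30,37,38,39,40]) .no)) .no)) .no) .no .no)) .no .no) .no .no .no) .no .no) .no (.de 43) .no)) (.br .no .no (.br (.br .no (.br (.br .no (.br (.de 48) .no .no .no) .no .no) .no .no .no) .no .no) .no .no .no) .no)) .no)) .no)) .no .no) .no .no .no) .no .no) .no (.sw 0 3 [20]) .no) .no .no)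 .no .no (.br (.br .no .no (.br (.br .no (.br (.br .no (.br .no .no (.br .no (.de 34) .no (.br .no (.br .no .no (.br .no .no .no (.br .no .no (.de 43) .no)) (.br .no .no (.br .no .no .no (.de 43)) .no)) .no .no)) .no) .no .no) .no .no .no) .no .no) (.br (.br .no (.br (.br .no (.br .no .no .no (.br (.br .no .no (.br .no .no .no (.br .no .no (.de 43) .no)) (.br .no .no (.br .no .no .no (.de 43)) .no)) .no .no .no)) (.br .no (.br (.br .no .no (.br .no .no .no (.br .no .no (.de 43) .no)) (.br .no .no (.br .no .no .no (.de 43)) .no)) .no .no .no) .no (.br (.br .no .no (.br .no .no .no (.br .no .no (.de 43) .no)) (.br .no .no (.br .no .no .no (.de 43)) .no)) .no .no .no)) .no) .no .no .no) .no .no) .no .no .no) .no .no) .no) (.br (.br (.br .no (.br (.br .no (.br (.br .no .no (.br .no (.br .no .no (.br .no .no .no (.br .no .no (.de 43) .no)) (.br .no .no (.br .no .no .no (.de 43)) .no)) .no .no) (.br .no (.br .no .no (.br .no .no .no (.br .no .no (.de 43) .no)) (.br .no .no (.br .no .no .no (.de 43)) .no))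 (.br .no .no (.br .no .no .no (.br .no .no (.de 43) .no)) (.br .no .no (.br .no .no .no (.de 43)) .no)) .no)) .no (.sw 0 3 [25]) .no) .no .no) .no .no .no) .no .no) (.br (.br .no (.br (.br .no .no (.br .no .no .no (.br .no .no (.br .no .no (.br .no .no .no (.br .no .no (.de 43) .no)) (.br .no .no (.br .no .no .no (.de 43)) .no)) .no)) .no) .no .no .no) .no .no) .no .no .no) .no .no) .no (.sw 0 3 [20]) .no) .no .no)) .no)) .no))) (.br (.br .no .no (.br .no .no .no (.br .no .no (.br .no .no .no (.br (.br .no (.sw 2 3 [19]) (.br .no .no .no (.br (.br .no (.br (.br .no (.br .no .no .no (.br (.sw 1 2 [26]) (.de 34) .no .no)) (.br .no (.br (.br .no (.br .no .no (.br .no .no .no (.br .no (.br (.sw 2 3 [19,21,22,23,24,26,27,31]) .no .no (.br .no .no (.de 45) .no)) .no .no)) (.br .no .no (.br .no (.br (.sw 2 3 [19,21,22,23,24,26,27,31]) .no .no (.br .no .no (.de 45) .no)) .no (.de 43)) .no)) .no .no) .no .no .no) .no (.br (.sw 1 2 [26]) (.de 34) .no .no)) .no) .no .no .no) .no .no) (.br (.br .no (.br .no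 .no (.br .no (.br (.de 34) .no .no .no) .no (.br (.de 34) (.br (.br .no .no (.br .no .no .no (.br (.br .no (.br (.sw 2 3 [19,21,22,23,24,26,27,31,32]) .no (.br .no .no .no (.de 41)) .no) .no .no) .no .no .no)) (.br .no .no (.br (.br .no (.br (.sw 2 3 [19,21,22,23,24,26,27,31,32]) .no (.br .no .no .no (.de 46)) .no) .no .no) .no .no (.de 43)) .no)) .no .no .no) .no .no)) .no) .no .no) .no .no .no) .no .no)) .no) .no (.br .no (.br .no .no .no (.br (.br .no (.br (.br .no (.br (.br .no .no (.br .no (.br .no .no (.br .no .no .no (.br .no .no (.de 43) .no)) (.br .no .no (.br .no .no .no (.de 43)) .no)) .no .no) .no) .no .no (.sw 0 2 [25])) .no .no) .no .no .no) .no .no) (.br (.br .no (.br (.br .no .no .no (.br (.de 34) .no (.br (.br .no .no (.br .no .no .no (.br .no .no (.de 43) .no)) (.br .no .no (.br .no .no .no (.de 43)) .no)) .no .no .no) .no)) .no .no .no) .no .no) .no .no .no) .no .no)) .no .no) .no)) .no)) (.br .no .no (.br .no .no .no (.br .no .no (.br (.br .no (.sw 2 3 [19]) (.de 27) .no) .no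 .no .no) .no)) .no)) .no .no .no))

def c0_0_2 : Cert := (.br .no (.br (.br .no (.br (.br .no (.br .no .no .no (.br .no .no (.br .no .no .no c0_0_0) .no)) .no .no) .no .no .no) .no .no) (.br (.br .no (.br (.br .no c0_0_1 .no (.br .no .no (.br (.br .no .no (.br .no .no .no (.br .no .no (.br .no (.br (.br .no (.br .no .no .no (.br (.br .no (.br (.br .no .no (.sw 1 3 [18,24]) (.br .no .no (.br (.br .no (.br .no .no (.br .no .no .no (.br .no (.br (.br .no (.sw 2 3 [31,32]) .no (.br .no .no (.de 46) .no)) .no .no .no) (.de 43) .no)) (.br .no .no (.br .no (.br (.br .no (.sw 2 3 [31,32]) .no (.br .no .no (.de 41) .no)) .no .no .no) .no .no) .no)) .no .no) .no .no .no) .no)) .no .no (.br .no .no (.br .no .no .no (.br (.br .no (.br .no .no (.br (.br .no (.br (.br .no (.br .no .no (.br .no .no .no (.de 47)) (.de 41)) (.br .no .no .no (.de 41)) .no) .no .no .no) .no .no) .no .no .no) (.br (.br .no (.br (.br .no (.br .no .no (.de 41) (.br .no .no (.de 47) .no)) (.br .no .no .no (.de 46)) .no) .no .no .no)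 .no .no) .no (.br (.br .no (.br .no .no (.br .no .no .no (.de 46)) .no) .no .no) (.sw 0 3 [30]) .no .no) .no)) .no .no) .no (.br .no (.br .no .no (.br (.br .no (.br (.br .no (.br (.br .no .no .no (.br .no (.br .no .no (.sw 0 3 [30,36]) (.br .no .no (.br .no .no .no (.br .no .no (.de 47) .no)) .no)) .no (.br .no .no (.br .no .no .no (.br .no .no (.br .no .no .no (.br .no .no (.br (.sw 1 3 [42]) .no .no .no) .no)) .no)) .no))) .no .no (.de 41)) .no .no) .no .no .no) .no .no) .no .no .no) (.br (.br .no (.br (.br .no (.br (.br .no .no (.br .no (.br .no .no (.br .no .no .no (.br .no .no (.br .no .no .no (.de 47)) .no)) (.br .no .no (.br .no .no .no (.br .no .no (.br .no .no .no (.br (.sw 2 3 [35,41,43,44,45,46,47]) .no .no .no)) .no)) .no)) .no .no) .no) .no .no (.sw 0 2 [33])) .no .no) .no .no .no) .no .no) .no (.br (.br .no (.br (.br .no .no .no (.br .no .no (.de 47) .no)) .no .no .no) .no .no) (.sw 0 3 [30]) .no .no) .no)) .no .no) .no)) .no)) .no .no) (.br (.br .no .no .no (.br .no .no (.br .no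 .no .no (.br (.de 34) .no (.br (.br .no .no (.br .no (.br (.br .no (.br (.br .no (.br .no .no .no (.br .no .no .no (.br .no .no (.br .no .no .no (.br .no .no (.br .no .no .no (.br .no .no (.sw 0 1 [28,29,34,36,37,38,39,40]) .no)) .no)) .no))) .no (.de 41)) .no .no .no) .no .no) .no .no .no) .no .no) (.br .no (.de 42) (.br (.sw 1 3 [18,24,30]) (.br (.br .no (.br .no .no .no (.br .no .no (.de 47) .no)) .no .no) .no .no .no) .no .no) .no)) .no .no .no) .no)) .no)) .no .no .no) .no .no)) .no (.de 27)) .no .no .no) .no .no) .no)) (.br .no .no (.br .no .no .no (.br .no (.br (.br .no (.br .no .no (.br (.br .no (.br (.br .no .no (.br .no .no .no (.br (.br .no (.sw 2 3 [21,22,23,27]) .no .no) .no .no .no)) (.br .no .no (.br (.br .no (.sw 2 3 [21,22,23,27]) .no .no) .no .no (.br .no (.br .no .no (.br .no .no .no (.br .no (.br (.br .no (.br (.sw 2 3 [21,22,23,27,31,32,33]) .no (.sw 0 3 [33]) .no) .no .no) .no .no .no) (.de 43) .no)) (.br .no .no (.br .no (.br (.br .no (.br (.sw 2 3 [21,22,23,27,31,32,33])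 .no (.de 41) .no) .no .no) .no .no .no) .no .no) .no)) .no .no)) .no)) .no (.br .no .no .no (.br .no .no (.br (.br .no (.br .no .no (.br (.br .no (.br (.br .no (.sw 2 3 [21,22,23,27,30,31,32]) .no (.br .no .no (.de 46) .no)) .no .no .no) .no .no) .no .no (.br (.br .no (.br .no .no .no (.br .no .no (.de 46) .no)) .no .no) (.sw 0 2 [30]) .no .no)) (.br (.br .no (.br (.br .no (.sw 2 3 [21,22,23,27,30,31,32]) .no (.br .no .no (.de 41) .no)) .no .no .no) .no .no) .no .no .no)) .no .no) .no .no (.br .no (.br .no .no (.br (.br .no (.br (.br .no (.br (.sw 2 3 [21,22,23,27,30,31,32,33]) .no (.sw 0 3 [33]) .no) .no .no) .no .no .no) .no .no) .no .no (.br (.br .no (.br (.br .no .no (.br .no .no .no (.de 47)) .no) .no .no .no) .no .no) (.sw 0 2 [30]) .no .no)) (.br (.br .no (.br (.br .no (.br (.sw 2 3 [21,22,23,27,30,31,32,33]) .no (.de 41) .no) .no .no) .no .no .no) .no .no) .no .no .no)) .no .no)) .no)) .no) .no .no) (.br (.br .no .no (.br .no .no .no (.br .no .no (.br (.de 34) .no .no (.br (.br .no .no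 (.br .no (.br (.br .no (.br (.br .no (.sw 2 3 [21,22,23,27,30,31,32,33]) (.br .no .no .no (.de 47)) .no) .no .no .no) .no .no) .no .no .no) .no (.br (.br .no (.br (.br .no (.br .no .no .no (.br .no (.br .no .no (.br .no .no .no (.br .no .no (.br .no .no .no (.br .no .no (.sw 0 1 [28,29,34,37,38,39,40]) .no)) .no)) .no) .no .no)) (.br .no .no .no (.de 47)) .no) .no .no .no) .no .no) (.br (.br .no (.br .no .no (.br .no .no .no (.de 47)) .no) .no .no) .no .no .no) .no .no)) (.br .no (.de 42) .no .no)) .no .no .no)) .no)) .no) .no .no .no) .no .no) .no) .no (.br .no .no (.br (.br .no (.br (.br .no .no (.br .no (.br (.br .no (.br .no .no (.br .no .no .no (.br .no (.br (.br .no .no (.sw 1 3 [26,32]) (.br .no .no (.de 46) .no)) .no .no (.br .no .no (.de 45) .no)) .no .no)) (.br .no .no (.br .no (.br (.br .no .no (.sw 1 3 [26,32]) (.br .no .no (.de 41) .no)) .no .no (.br .no .no (.de 45) .no)) .no (.de 43)) .no)) .no .no) .no .no .no) .no .no) (.br .no (.br (.br .no (.br .no .no (.br .no .no .no (.br .no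 (.br (.sw 2 3 [31]) .no (.br .no .no .no (.de 45)) .no) (.de 43) .no)) (.br .no .no (.br .no (.br (.sw 2 3 [31]) .no (.br .no .no .no (.de 45)) .no) .no .no) .no)) .no .no) .no .no .no) (.br (.sw 1 3 [26]) (.de 34) .no .no) .no)) .no (.br .no .no .no (.br .no (.br (.br .no (.br .no .no (.br (.br .no (.br (.br .no .no (.br .no .no .no (.de 41)) (.br .no .no (.de 46) .no)) .no (.br .no .no .no (.de 45)) .no) .no .no) .no .no (.br (.br .no .no (.br .no .no .no (.de 45)) .no) (.sw 0 2 [30]) .no .no)) (.br (.br .no (.br (.br .no .no (.br .no .no .no (.de 46)) (.br .no .no (.de 41) .no)) .no (.br .no .no .no (.de 45)) .no) .no .no) .no .no .no)) .no .no) .no .no .no) (.br (.sw 1 3 [26]) (.de 34) .no .no) .no)) .no) .no .no) (.br (.br .no .no (.br .no .no .no (.br .no (.br (.de 34) .no .no .no) (.br (.de 34) (.br (.br .no .no (.br .no (.br (.br .no (.br (.br .no .no (.sw 1 3 [26,33]) (.de 41)) .no .no (.br .no .no (.de 46) .no)) .no .no) .no .no .no) .no (.br (.br .no (.br (.br .no .no (.sw 1 3 [26,33])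 (.de 41)) .no .no (.br .no .no (.de 46) .no)) .no .no) (.br (.br .no .no .no (.br .no .no (.de 46) .no)) .no .no .no) .no .no)) (.br .no (.de 42) .no .no)) .no .no .no) .no .no) .no)) .no) .no .no .no) .no .no) .no)) .no .no .no) (.br (.sw 1 3 [18]) (.br .no .no .no (.br .no .no (.br (.br .no (.br (.br .no .no .no (.br (.br .no (.de 34) .no .no) .no (.sw 0 1 [25]) .no)) .no .no .no) .no .no) (.br (.br .no (.br (.br .no .no (.br (.de 34) (.br (.br .no .no (.br .no .no .no (.br .no .no (.de 43) .no)) (.br .no .no (.br .no .no .no (.de 43)) .no)) .no .no .no) .no .no) .no) .no .no (.br (.br .no (.br (.br .no .no (.br .no .no .no (.br (.br .no (.br .no .no (.br .no .no .no (.de 41)) (.br .no .no (.de 46) .no)) (.br .no .no .no (.de 45)) .no) .no (.de 43) .no)) (.br .no .no (.br (.br .no (.br .no .no (.br .no .no .no (.de 46)) (.br .no .no (.de 41) .no)) (.br .no .no .no (.de 45)) .no) .no .no .no) .no)) .no .no .no) .no .no) .no (.sw 0 1 [25]) .no)) .no .no) .no .no .no) .no .no) .no)) .no .no) .no))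 .no)) .no .no (.br .no .no (.br .no .no .no (.br .no .no (.br .no (.br (.br .no (.br (.br (.br .no (.br (.br .no .no (.sw 1 3 [18,24]) (.br .no .no (.br .no .no .no (.br .no (.br .no .no (.br .no .no .no (.br .no (.br (.br .no (.br (.sw 2 3 [31,32,33]) .no (.sw 0 3 [20,27,33]) .no) .no .no) .no .no .no) (.de 43) .no)) (.br .no .no (.br .no (.br (.br .no (.br (.sw 2 3 [31,32,33]) .no (.de 41) .no) .no .no) .no .no .no) .no .no) .no)) .no .no)) .no)) .no .no (.br .no .no (.br .no .no .no (.br .no .no (.br .no (.sw 0 3 [20,27]) .no (.sw 0 1 [14,15,16,17,24,25,26,27])) .no)) .no)) .no .no) (.br (.br .no .no .no (.br .no .no (.br .no .no .no (.br .no .no (.br .no .no .no (.sw 0 1 [14,15,16,17,24,25,26,27])) .no)) .no)) .no .no .no) .no .no) .no .no .no) .no .no) .no .no .no) .no .no) .no)) (.br .no .no (.br .no .no .no (.br .no (.br (.br .no (.br (.br (.br .no (.br (.br .no .no (.br .no .no .no (.br .no .no (.br .no (.sw 2 3 [21,22,23]) .no .no) .no)) (.br .no .no (.br .no .no .no (.br .no (.sw 2 3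 [21,22,23]) (.br .no .no (.br .no .no .no (.br .no (.br (.br .no (.br (.br .no (.sw 2 3 [21,22,23,31,32,33,34]) .no (.sw 1 2 [34])) .no .no .no) .no .no) .no .no .no) (.de 43) .no)) (.br .no .no (.br .no (.br (.br .no (.br (.br .no (.sw 2 3 [21,22,23,31,32,33,34]) .no .no) .no .no .no) .no .no) .no .no .no) .no .no) .no)) .no)) .no)) .no (.br .no .no .no (.br .no .no (.br .no .no .no (.br .no (.br .no .no (.br (.br .no (.br (.br .no (.br (.sw 2 3 [21,22,23,30,31,32,33]) .no (.br .no .no .no (.de 47)) .no) .no .no) .no .no .no) .no .no) .no .no (.br (.br .no (.br (.br .no .no (.br .no .no .no (.de 47)) .no) .no .no .no) .no .no) (.sw 0 2 [30]) .no .no)) (.br (.br .no (.br (.br .no (.br (.sw 2 3 [21,22,23,30,31,32,33]) .no (.de 41) .no) .no .no) .no .no .no) .no .no) .no .no .no)) (.sw 0 1 [14,15,16,17,24,25,26,27]) .no)) .no)) .no) .no .no) (.br (.br .no .no (.br .no .no .no (.br .no .no (.br .no .no .no (.br .no .no (.sw 0 1 [14,15,16,17,24,25,26,27]) .no)) .no)) .no) .no .no .no) .no .no) .no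 (.sw 0 3 [20]) .no) .no .no) .no .no .no) (.br (.sw 1 3 [18]) (.br (.br .no .no (.sw 0 1 [14,15,16,17]) .no) .no .no .no) .no .no) .no)) .no))) .no)) .no .no .no) .no .no) .no .no .no) .no .no) .no (.br (.br .no (.br (.br .no (.br .no .no .no (.br .no (.de 20) (.br .no (.br .no .no (.br .no .no .no (.br .no .no (.br (.br .no (.br (.br .no .no .no (.br (.br .no (.br .no .no .no (.br .no .no (.br .no .no .no (.br .no (.de 34) (.br .no (.br .no .no (.br (.br .no (.br (.br .no (.br (.br .no .no .no (.br .no (.br .no .no (.br .no .no .no (.br .no .no (.br .no .no .no (.br .no .no (.br (.sw 1 3 [13,20,27,34,41]) .no .no .no) .no)) .no)) (.br .no .no (.br .no .no .no (.br .no .no (.de 47) .no)) .no)) .no (.br .no .no (.br .no .no .no (.br .no .no (.br .no .no .no (.br .no .no (.br (.sw 1 3 [42]) .no .no .no) .no)) .no)) .no))) .no .no (.de 41)) .no .no) .no .no .no) .no .no) .no .no .no) (.br (.br .no (.br (.br .no (.br (.br .no .no (.sw 1 3 [13,20,27,34]) .no) .no .no (.br .no .no (.de 47) .no)) .no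 .no) .no .no .no) .no .no) .no (.br (.br .no (.br (.br .no .no .no (.br .no .no (.de 47) .no)) .no .no .no) .no .no) (.br (.br .no (.br (.br .no .no (.sw 1 3 [13,20,27,34]) .no) .no .no (.br .no .no (.de 47) .no)) .no .no) .no .no .no) .no .no) .no)) .no .no) .no)) .no)) .no .no) (.br (.br .no (.br .no .no (.br .no .no .no (.br .no (.br (.br .no .no (.br .no .no .no (.br (.br .no (.br (.br .no .no (.br .no .no .no (.de 47)) (.de 41)) .no (.br .no .no .no (.de 41)) .no) .no .no) .no .no .no)) (.br .no .no (.br (.br .no (.br (.br .no .no (.de 41) (.br .no .no (.de 47) .no)) .no (.br .no .no .no (.de 46)) .no) .no .no) .no .no (.de 43)) .no)) .no .no .no) (.br (.sw 1 3 [13,20,27]) .no .no .no) .no)) (.br .no .no (.br .no (.br (.br .no .no (.br .no .no .no (.br (.br .no (.br (.sw 2 3 [31,32]) .no .no (.br .no .no (.de 46) .no)) .no .no) .no (.de 43) .no)) (.br .no .no (.br (.br .no (.br (.sw 2 3 [31,32]) .no .no (.br .no .no (.de 41) .no)) .no .no) .no .no .no) .no)) .no .no .no) .no .no) .no)) .no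 (.br .no .no (.br .no .no .no (.br .no (.br (.br .no .no (.br .no (.br (.br .no (.br (.br .no .no (.br .no .no .no (.de 47)) (.de 41)) .no (.br .no .no .no (.de 41)) .no) .no .no) .no .no .no) .no .no) (.br .no (.de 42) (.br (.sw 1 3 [30]) (.br (.br .no .no (.br .no .no .no (.de 46)) .no) .no .no .no) .no .no) .no)) .no .no .no) (.br (.sw 1 3 [13,20,27]) .no .no .no) .no)) .no)) .no .no .no) .no .no)) .no .no (.de 27)) .no .no) .no .no .no) .no)) (.br .no .no (.br .no .no .no (.br (.br .no (.br (.br .no .no (.sw 1 3 [13,20]) .no) .no .no (.br .no .no (.br (.br .no (.br .no .no (.br .no .no .no (.br (.br .no (.de 34) .no .no) .no (.br (.br .no (.br .no .no (.br (.br .no (.br (.br .no (.br .no .no (.sw 0 3 [26,33]) (.de 41)) .no (.br .no .no (.de 46) .no)) .no .no .no) .no .no) .no .no (.br (.br .no (.br .no .no .no (.br .no .no (.de 46) .no)) .no .no) (.br (.br .no (.br .no .no (.sw 0 3 [26,33]) (.de 41)) .no (.br .no .no (.de 46) .no)) .no .no .no) .no .no)) (.br (.br .no (.br (.br .no (.br .no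 .no (.de 41) (.br .no .no (.de 47) .no)) .no (.br .no .no (.de 41) .no)) .no .no .no) .no .no) .no .no .no)) .no .no) (.de 34) .no .no) .no)) .no) .no .no) (.br (.br .no (.br .no .no (.br (.br .no (.br (.br .no .no (.br .no .no .no (.br (.br .no (.br .no .no (.sw 0 3 [26,32]) (.br .no .no (.de 46) .no)) .no (.br .no .no (.de 45) .no)) .no .no .no)) (.br .no .no (.br (.br .no (.br .no .no (.sw 0 3 [26,32]) (.br .no .no (.de 41) .no)) .no (.br .no .no (.de 45) .no)) .no .no (.de 43)) .no)) .no .no .no) .no .no) .no .no .no) (.br (.br .no (.br (.br .no .no (.br .no .no .no (.br (.br .no (.sw 2 3 [31]) (.br .no .no .no (.de 45)) .no) .no (.de 43) .no)) (.br .no .no (.br (.br .no (.sw 2 3 [31]) (.br .no .no .no (.de 45)) .no) .no .no .no) .no)) .no .no .no) .no .no) .no (.br (.de 34) (.sw 0 3 [26]) .no .no) .no)) (.br .no .no .no (.br (.br .no (.br (.br .no .no (.br .no (.br (.br .no (.br .no .no (.br .no .no .no (.de 41)) (.br .no .no (.de 46) .no)) (.br .no .no .no (.de 45)) .no) .no .no .no) .no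 (.br (.sw 1 2 [30]) (.br .no .no (.br .no .no .no (.de 45)) .no) .no .no)) (.br .no (.de 42) .no .no)) .no .no .no) .no .no) .no (.br (.de 34) (.sw 0 3 [26]) .no .no) .no)) .no) .no .no .no) .no .no) .no)) .no .no) .no (.br (.br .no .no .no (.br .no .no (.br (.br .no (.br (.br .no (.br .no .no (.br (.sw 1 3 [13,20,26]) (.de 34) .no .no) .no) .no (.br .no (.br (.br .no (.br .no .no (.br .no .no .no (.br .no (.br (.br .no .no (.br .no .no .no (.de 41)) (.br .no .no (.de 46) .no)) .no (.br .no .no .no (.de 45)) .no) (.de 43) .no)) (.br .no .no (.br .no (.br (.br .no .no (.br .no .no .no (.de 46)) (.br .no .no (.de 41) .no)) .no (.br .no .no .no (.de 45)) .no) .no .no) .no)) .no .no) .no .no .no) (.br (.sw 1 3 [13,20,26]) (.de 34) .no .no) .no)) .no .no .no) .no .no) (.br (.br .no (.br .no .no .no (.br .no (.br (.de 34) .no .no .no) (.br (.de 34) (.br (.br .no .no (.br .no .no .no (.br (.br .no (.br (.br .no .no (.sw 1 3 [13,20,26,33]) (.de 41)) .no .no (.br .no .no (.de 46) .no)) .no .no) .no (.de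 43) .no)) (.br .no .no (.br (.br .no (.br (.br .no .no (.de 41) (.br .no .no (.de 47) .no)) .no .no (.br .no .no (.de 41) .no)) .no .no) .no .no .no) .no)) .no .no .no) .no .no) .no)) .no .no) .no .no .no) .no .no) .no)) (.br (.br .no .no (.sw 1 3 [13,20]) .no) .no .no (.br .no .no (.br (.br .no (.br (.br .no .no .no (.br (.br .no (.de 34) .no .no) .no (.sw 0 1 [25]) .no)) .no .no .no) .no .no) (.br (.br .no (.br (.br .no .no (.br (.de 34) (.sw 0 3 [26]) .no .no) .no) .no .no (.sw 0 2 [24])) .no .no) .no .no .no) .no .no) .no)) .no .no) .no)) .no)) .no .no) .no)) .no .no) .no .no .no) .no .no) (.br (.br .no (.br (.br .no (.br .no .no (.br (.sw 1 3 [13]) .no .no .no) .no) .no (.br .no (.br (.br .no .no (.br .no .no .no (.br .no .no (.br .no (.br (.br .no .no (.br .no .no .no (.sy 13 30 14)) (.de 27)) .no (.br .no .no .no (.de 27)) .no) .no .no) .no)) (.br .no .no (.br .no .no .no (.br .no (.br (.br .no .no (.de 27) (.br .no .no (.sy 19 177 13) .no)) .no (.br .no .no .no (.br .no .no (.br (.br .no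 (.br (.br .no .no .no (.br (.br .no (.de 34) .no .no) (.sw 0 2 [25]) .no .no)) .no (.br (.br .no (.br (.br .no (.br .no .no (.br (.br .no (.br .no .no (.br .no .no .no (.de 45)) (.br .no .no (.de 45) .no)) .no (.br .no .no (.de 44) .no)) .no .no (.br .no (.br .no .no (.br .no .no .no (.de 45)) (.sw 0 2 [25,30,31])) .no .no)) (.br (.br .no (.br .no .no (.br .no .no .no (.de 45)) (.br .no .no (.de 45) .no)) .no (.br .no .no (.de 44) .no)) .no .no .no)) .no .no) .no .no .no) .no .no) .no .no (.br (.br .no (.de 34) .no .no) (.sw 0 2 [25]) .no .no)) .no) .no .no) (.br (.br .no .no (.br (.br .no (.br (.de 34) .no .no .no) .no .no) .no .no (.br (.br .no (.sy 19 177 14) .no .no) (.sw 0 2 [25]) .no .no)) .no) .no .no .no) .no .no) .no)) .no) (.br (.br .no .no (.de 27) (.br .no .no (.sy 13 30 18) .no)) .no .no .no) .no)) .no)) .no .no .no) (.br (.sw 1 3 [13]) .no .no .no) .no)) .no .no .no) .no .no) .no .no .no) .no .no))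

def c0_0_3 : Cert := (.br .no .no (.br .no .no .no (.br .no .no (.br .no .no .no (.br .no .no (.br c0_0_2 .no .no (.br .no (.br (.br .no (.br (.br .no (.br (.br .no .no (.br .no .no .no (.br .no .no (.br .no .no .no (.br .no .no (.br .no .no .no (.br .no (.br (.br .no (.br (.br .no (.br (.br .no .no (.br .no .no .no (.br .no .no (.br .no .no .no (.br .no .no (.br .no .no .no (.br .no (.br (.br .no (.br (.br .no (.br .no (.br .no .no (.sw 0 3 [12,18,24,30,36]) .no) .no .no) .no .no) .no .no .no) .no .no) .no .no .no) .no .no)) (.br .no .no (.br .no (.sw 0 3 [12,18,24,30]) .no (.de 43)) .no))) .no)) .no) .no .no .no) .no .no) (.br (.br .no (.br (.br .no .no (.br .no .no .no (.br (.br .no .no (.br .no .no .no (.br .no .no (.de 43) .no)) (.br .no .no (.br .no .no .no (.de 43)) .no)) .no .no .no)) (.br .no .no (.br (.br .no .no (.br .no .no .no (.br .no .no (.de 43) .no)) (.br .no .no (.br .no .no .no (.de 43)) .no)) .no .no (.br .no .no (.br .no .no .no (.br .no .no (.de 43) .no)) (.br .no .no (.br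 .no .no .no (.de 43)) .no))) .no)) .no (.sw 0 3 [12,18,24]) .no) .no .no) .no .no .no) .no .no) .no .no) .no .no .no) .no .no)) .no)) (.br .no .no (.br .no .no .no (.br .no .no (.br .no (.sw 0 3 [12,18]) .no (.br (.br .no (.br (.br .no (.br (.br .no (.br .no .no (.br .no .no .no (.br .no .no (.br .no .no (.br .no .no .no (.br .no .no (.de 43) .no)) (.br .no .no (.br .no .no .no (.de 43)) .no)) .no)) .no) .no .no) .no .no .no) .no .no) (.br (.br .no (.br (.br .no (.br .no .no (.br (.br .no .no (.br .no .no .no (.br .no .no (.de 43) .no)) (.br .no .no (.br .no .no .no (.de 43)) .no)) .no .no .no) (.br (.br .no .no (.br .no .no .no (.br .no .no (.de 43) .no)) (.br .no .no (.br .no .no .no (.de 43)) .no)) .no (.br .no .no (.br .no .no .no (.br .no .no (.de 43) .no)) (.br .no .no (.br .no .no .no (.de 43)) .no)) .no)) (.sw 1 3 [25]) .no) .no .no .no) .no .no) .no .no .no) .no .no) (.br (.br .no (.br (.br .no (.br .no .no (.br .no (.de 34) .no (.br .no (.br .no .no (.br .no .no .no (.br .no .no (.de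 43) .no)) (.br .no .no (.br .no .no .no (.de 43)) .no)) .no .no)) .no) .no .no) .no .no .no) .no .no) (.br (.br .no (.br (.br .no (.br .no .no .no (.br (.sw 1 2 [27]) .no .no .no)) (.sw 1 3 [25]) .no) .no .no .no) .no .no) .no .no .no) .no .no) .no) (.br .no .no (.br (.br .no (.br (.br .no (.br (.br .no .no .no (.br .no (.br .no .no (.br .no .no .no (.br .no .no (.de 43) .no)) (.br .no .no (.br .no .no .no (.de 43)) .no)) .no .no)) .no (.sw 0 3 [12,18,25]) .no) .no .no) .no .no .no) .no .no) (.br (.br .no (.br (.br .no .no (.br (.de 34) .no .no (.sw 0 1 [26])) .no) .no .no .no) .no .no) .no .no .no) .no .no) .no) .no .no)) .no)) .no))) .no) .no .no .no) .no .no) .no .no .no) .no .no) (.br (.br .no (.br (.br .no (.br (.br .no .no .no (.br .no .no (.sy 7 75 14) (.br .no .no (.br .no .no .no (.br .no .no (.br .no .no .no (.br .no (.sy 14 177 12) (.br (.br (.br .no (.br (.br .no (.br (.br .no (.br .no .no (.br .no .no (.br .no .no .no (.br .no .no (.de 43) .no)) (.sy 21 30 14)) .no) .no (.sw 1 2 [26]))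 .no .no .no) .no .no) .no .no .no) .no .no) (.sy 14 177 14) .no .no) .no .no .no) .no)) .no)) .no))) .no (.sw 0 3 [12]) .no) .no .no) .no .no .no) .no .no) .no .no .no) .no .no) .no .no)) .no)) .no)) (.br .no .no (.br .no .no .no (.br .no .no (.br .no .no .no (.br (.br .no (.br (.br .no (.br (.br .no (.br .no .no (.br .no .no .no (.br .no .no (.br .no .no (.br .no .no .no (.br .no .no (.br (.br .no (.br (.br .no (.sw 2 3 [7,8,9,10,11,18,19,20]) .no (.br (.br .no (.br .no .no .no (.br .no .no (.br .no .no .no (.br .no (.de 34) (.br .no (.br .no .no (.br (.br .no (.br (.br .no (.br (.sw 2 3 [7,8,9,10,11,18,19,20,21,22,23,27,30,31,32,33]) .no .no (.de 41)) .no .no) .no .no .no) .no .no) .no .no .no) (.br (.br .no (.br (.br .no (.br (.sw 2 3 [7,8,9,10,11,18,19,20,21,22,23,27,30,31,32,33]) .no .no (.br .no .no (.de 47) .no)) .no .no) .no .no .no) .no .no) .no (.br (.br .no (.br (.br .no .no .no (.br .no .no (.de 47) .no)) .no .no .no) .no .no) (.br (.br .no (.br (.br .no .no (.sw 1 3 [27,34]) .no) .no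 .no (.br .no .no (.de 47) .no)) .no .no) .no .no .no) .no .no) .no)) .no .no) .no)) .no)) .no .no) (.br (.br .no (.br .no .no (.br .no .no .no (.br .no (.br (.sw 2 3 [7,8,9,10,11,18,19,20,21,22,23,27]) .no .no .no) (.br (.sw 1 3 [27]) .no .no .no) .no)) (.br .no .no (.br .no (.br (.sw 2 3 [7,8,9,10,11,18,19,20,21,22,23,27]) .no .no .no) .no .no) .no)) .no (.br .no .no (.br .no .no .no (.br .no (.br (.br .no .no (.br .no (.br (.br .no (.br (.sw 2 3 [7,8,9,10,11,18,19,20,21,22,23,27,30,31,32]) .no (.br .no .no .no (.de 41)) .no) .no .no) .no .no .no) .no .no) (.br .no (.de 42) (.br (.sw 1 3 [30]) (.br (.br .no .no (.br .no .no .no (.de 46)) .no) .no .no .no) .no .no) .no)) .no .no .no) (.br (.sw 1 3 [27]) .no .no .no) .no)) .no)) .no .no .no) .no .no)) .no .no .no) .no .no) .no .no (.br (.br .no (.br .no .no .no (.br (.br .no (.br (.br .no (.br .no .no (.br (.br .no (.sw 2 3 [7,8,9,10,11,18,19,20,21,22,23,24,27]) .no .no) .no .no .no) (.br (.br .no (.sw 2 3 [7,8,9,10,11,18,19,20,21,22,23,24,27])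 .no .no) .no (.br .no (.br .no .no (.br .no .no .no (.br .no .no (.de 43) .no)) (.br .no .no (.br .no .no .no (.de 43)) .no)) .no .no) .no)) (.br .no .no .no (.br (.br .no (.br .no .no (.br .no .no .no (.br .no (.br (.br .no (.sw 2 3 [7,8,9,10,11,18,19,20,21,22,23,24,27,31,32]) (.br .no .no .no (.de 41)) .no) .no .no .no) .no .no)) (.br .no .no (.br .no (.br (.br .no (.sw 2 3 [7,8,9,10,11,18,19,20,21,22,23,24,27,31,32]) (.br .no .no .no (.de 46)) .no) .no .no .no) .no (.de 43)) .no)) .no .no) .no (.br .no (.br .no .no (.br .no .no .no (.br .no (.br (.br .no (.br (.sw 2 3 [7,8,9,10,11,18,19,20,21,22,23,24,27,31,32,33]) .no .no (.de 41)) .no .no) .no .no .no) .no .no)) (.br .no .no (.br .no (.br (.br .no (.br (.sw 2 3 [7,8,9,10,11,18,19,20,21,22,23,24,27,31,32,33]) .no .no (.sw 0 2 [33])) .no .no) .no .no .no) .no (.de 43)) .no)) .no .no) .no)) .no) .no .no .no) .no .no) (.br (.br .no (.br .no .no (.br .no .no .no (.br (.de 34) .no (.br (.br .no .no (.br .no .no .no (.br (.br .no (.br (.br .no (.sw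 2 3 [7,8,9,10,11,18,19,20,21,22,23,24,27,31,32,33]) .no (.de 41)) .no .no .no) .no .no) .no .no .no)) (.br .no .no (.br (.br .no (.br (.br .no (.sw 2 3 [7,8,9,10,11,18,19,20,21,22,23,24,27,31,32,33]) .no (.br .no .no (.de 47) .no)) .no .no .no) .no .no) .no .no (.de 43)) .no)) .no .no .no) .no)) .no) .no .no) .no .no .no) .no .no)) .no .no) (.br (.br .no (.br (.br .no (.br (.br .no .no (.br .no .no .no (.br .no .no (.br .no .no .no (.br .no .no (.br .no .no .no (.br .no (.br (.br .no (.br (.br .no (.sw 2 3 [7,8,9,10,11,18,19,20,21,22,23,24,31,32,33,34]) .no .no) .no .no .no) .no .no) .no .no .no) .no .no)) (.br .no .no (.br .no (.sw 0 3 [24,30]) .no (.de 43)) .no))) .no)) .no) .no .no .no) .no .no) (.br (.br .no (.br (.br .no .no (.br .no .no .no (.br (.sw 2 3 [7,8,9,10,11,18,19,20,21,22,23,24]) .no .no .no)) (.br .no .no (.br (.sw 2 3 [7,8,9,10,11,18,19,20,21,22,23,24]) .no .no (.br .no .no (.br .no .no .no (.br .no .no (.de 43) .no)) (.br .no .no (.br .no .no .no (.de 43)) .no))) .no)) .no (.sw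 0 3 [24]) .no) .no .no) .no .no .no) .no .no) .no (.br (.br .no (.br (.br .no .no (.br .no .no .no (.br .no (.de 34) (.sw 0 1 [25,26]) .no)) .no) .no .no .no) .no .no) (.br (.br .no (.br (.br .no .no (.br .no (.br (.sw 2 3 [7,8,9,10,11,18,19,20,21,22,23,24,27]) .no .no .no) .no .no) (.br .no (.br (.sw 2 3 [7,8,9,10,11,18,19,20,21,22,23,24,27]) .no .no .no) (.br (.sw 1 3 [27]) .no .no .no) .no)) .no (.sw 0 3 [24]) .no) .no .no) .no .no .no) .no .no)) .no .no .no) .no .no)) .no)) (.br .no .no (.br .no .no .no (.br (.br .no (.br (.br .no (.sw 2 3 [7,8,9,10,11,18,19,20]) .no .no) .no .no .no) .no .no) .no .no .no)) .no)) .no)) .no) .no .no) .no .no .no) .no .no) (.br (.br .no (.br (.br .no (.br .no .no (.br (.sw 2 3 [7,8,9,10,11]) .no .no .no) (.br (.sw 2 3 [7,8,9,10,11]) .no (.br .no .no (.br .no .no .no (.br .no .no (.br .no .no .no (.br (.br .no (.br (.sw 2 3 [7,8,9,10,11,19,20]) .no .no (.sw 0 2 [20])) .no .no) .no (.br (.br .no .no .no (.br (.br .no (.br (.br .no (.br .no .no .no (.br .no (.de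 34) (.br .no (.br .no .no (.br .no .no .no (.br .no .no (.de 43) .no)) (.br .no .no (.br .no .no .no (.de 43)) .no)) .no .no) .no)) .no .no) .no .no .no) .no .no) (.br (.br .no (.br (.br .no (.br .no .no (.br (.sy 27 30 7) .no .no .no) .no) .no (.br .no (.br (.sy 27 30 7) .no .no .no) (.br (.sy 27 30 7) .no .no .no) .no)) .no .no .no) .no .no) .no .no .no) .no .no)) (.br (.br (.br .no (.br (.br .no (.br (.br .no .no (.br .no (.sw 2 3 [7,8,9,10,11,19,20,21,22,23,24,25]) .no (.br .no .no (.br .no .no .no (.br .no .no (.de 43) .no)) (.br .no .no (.br .no .no .no (.de 43)) .no))) (.br .no (.sw 2 3 [7,8,9,10,11,19,20,21,22,23,24,25]) .no .no)) .no .no (.sw 0 2 [25])) .no .no) .no .no .no) .no .no) (.br (.br .no (.br (.br .no .no .no (.br .no .no (.br .no .no .no (.br .no .no (.br .no .no .no (.br .no .no (.de 43) .no)) (.br .no .no (.br .no .no .no (.de 43)) .no))) .no)) .no .no .no) .no .no) .no .no .no) .no .no) .no .no (.sw 0 2 [20])) .no .no) .no)) .no)) (.br .no .no (.br .no .no .no (.br .no .no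 (.br (.br .no (.br (.sw 2 3 [7,8,9,10,11,19,20]) .no .no .no) .no .no) .no .no .no) .no)) .no)) .no)) (.br .no .no .no (.br (.br .no .no (.br .no .no .no (.br .no .no (.br .no (.br (.br .no (.sw 2 3 [7,8,9,10,11,18,19]) (.br .no .no .no (.br (.br .no (.br (.br .no .no (.br .no (.br (.br .no (.sw 2 3 [7,8,9,10,11,18,19,21,22,23,26,27]) .no .no) .no .no .no) .no (.br (.sw 1 2 [26]) (.de 34) .no .no)) (.br .no (.br (.br .no (.sw 2 3 [7,8,9,10,11,18,19,21,22,23,26,27]) .no .no) .no .no .no) .no .no)) .no .no (.br .no .no (.br .no (.br (.br .no (.br .no .no (.br (.br .no (.br (.sw 2 3 [7,8,9,10,11,18,19,21,22,23,26,27,30,31]) .no .no (.br .no .no (.de 45) .no)) .no .no) .no .no .no) (.br (.br .no (.br (.sw 2 3 [7,8,9,10,11,18,19,21,22,23,26,27,30,31]) .no .no (.br .no .no (.de 45) .no)) .no .no) .no (.br (.br .no .no .no (.br .no .no (.de 45) .no)) (.sw 0 3 [30]) .no .no) .no)) .no .no) .no .no .no) .no (.br (.sw 1 2 [26]) (.de 34) .no .no)) .no)) .no .no) (.br (.br .no .no .no (.br .no .no (.br .no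 (.br (.de 34) .no .no .no) .no (.br (.de 34) (.br (.br .no .no (.br .no (.br (.br .no (.br (.sw 2 3 [7,8,9,10,11,18,19,21,22,23,26,27,30,31,32]) .no (.br .no .no .no (.de 41)) .no) .no .no) .no .no .no) .no .no) (.br .no (.de 42) (.br (.br .no (.br (.br .no .no (.de 41) (.sw 1 2 [26,33])) .no (.br .no .no .no (.de 46)) .no) .no .no) (.br (.br .no .no (.br .no .no .no (.de 46)) .no) .no .no .no) .no .no) .no)) .no .no .no) .no .no)) .no)) .no .no .no) .no .no)) .no) .no .no .no) .no (.br (.sw 1 2 [18]) (.br .no .no (.br .no .no .no (.br (.br .no (.br (.br .no .no (.br (.br .no (.de 34) .no .no) .no .no (.sw 0 1 [25])) .no) .no .no .no) .no .no) (.br (.br .no (.br (.br .no .no .no (.br (.de 34) (.sy 26 75 7) .no .no)) .no (.br (.br .no (.sy 26 75 7) .no .no) .no .no (.sw 0 1 [25])) .no) .no .no) .no .no .no) .no .no)) .no) .no .no)) .no)) (.br .no .no (.br .no .no .no (.br .no (.br (.br .no (.sw 2 3 [7,8,9,10,11,18,19]) (.de 27) .no) .no .no .no) .no .no)) .no)) .no (.br .no .no (.br .no .no .no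 (.br .no .no (.br .no (.br (.br .no (.br (.sw 2 3 [7,8,9,10,11,18,19,20]) .no .no (.sw 0 2 [20])) .no .no) .no .no .no) .no (.br (.sw 1 2 [18]) (.br (.br .no .no .no (.sw 0 1 [14,15,16,17])) .no .no .no) .no .no)) .no)) (.br .no .no (.br .no .no .no (.br .no (.br (.br .no (.br (.sw 2 3 [7,8,9,10,11,18,19,20]) .no .no .no) .no .no) .no .no .no) .no .no)) .no)) .no)) .no) .no .no .no) .no .no) .no .no .no) .no .no) .no .no) .no .no .no)) .no)) .no))

theorem P0_0 : R.S 6 1092 :=
  R.piece L hL (.br .no .no c0_0_3 (.sy 0 180 6)) 6 1092 4096 (by norm_num) (by norm_num) (by norm_num) (by decide +kernel)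

def c0_1_0 : Cert := (.br .no (.br (.br .no (.br (.br .no (.br (.br .no .no .no (.br .no .no (.br .no .no .no (.br .no .no (.br .no .no .no (.br .no .no (.sy 29 30 5) .no)) .no)) .no)) (.br (.br .no .no (.br .no .no .no (.br .no .no (.br .no .no .no (.br (.sw 2 3 [21,22]) .no (.br .no .no (.br .no (.de 42) .no (.br (.br .no (.br (.br .no (.br (.br .no (.de 48) .no .no) .no .no (.de 47)) .no .no) .no .no .no) .no .no) (.br (.br .no (.br (.br .no .no .no (.br .no (.br .no .no (.br .no .no .no (.br .no .no (.br .no .no .no (.br .no (.sw 0 2 [34,40]) .no .no)) .no)) .no) .no .no)) .no .no .no) .no .no) .no .no .no) .no .no)) (.br .no (.br (.br .no (.br (.br .no (.br (.sw 2 3 [21,22,30,31,32,33,34]) .no .no .no) .no .no) .no .no .no) .no .no) .no .no .no) .no .no)) .no)) .no)) (.br .no .no (.br .no .no .no (.br .no .no (.br (.sw 2 3 [21,22]) .no .no .no) .no)) .no)) .no .no (.br .no .no (.br .no .no .no (.br .no .no (.br .no .no .no (.br (.br (.br .no (.br (.br .no (.br (.br .no (.sw 2 3 [21,22,29,30,31,32,33])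 (.br .no .no .no (.br .no .no (.br .no .no .no (.br .no .no (.br .no .no .no (.de 46)) .no)) .no)) .no) .no .no .no) .no .no) .no .no .no) .no .no) .no (.br (.br .no (.br (.br .no (.br .no .no (.br .no .no .no (.br .no (.br .no .no (.sw 0 3 [29,36]) (.br .no .no (.br .no .no .no (.de 46)) .no)) .no .no)) .no) .no .no) .no .no .no) .no .no) (.de 42) .no .no) .no) .no (.sy 29 30 5) .no)) .no)) .no)) .no .no) (.br (.br .no .no .no (.br .no .no (.br .no .no .no (.br .no .no (.br .no (.de 34) .no (.br .no (.br .no (.br (.br .no (.br (.br .no (.br (.sy 35 225 5) .no (.br .no .no .no (.br .no .no (.br .no .no .no (.br .no .no (.br .no .no .no (.de 46)) .no)) .no)) .no) .no .no) .no .no .no) .no .no) .no .no .no) (.br (.br .no (.br (.br .no (.br (.br .no .no .no (.sw 1 2 [27,34])) .no (.br .no .no .no (.br .no (.br .no .no (.br .no .no .no (.br .no .no (.br .no .no .no (.br .no (.sw 0 2 [40]) .no .no)) .no)) (.br .no .no (.br .no .no .no (.de 46)) .no)) .no .no)) .no) .no .no) .no .no .no) .no .no) (.de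 42) .no .no) .no) .no .no)) .no)) .no)) (.br (.br .no .no (.br .no .no .no (.br .no .no (.br .no (.br (.br .no .no (.br .no (.de 42) .no (.br (.br .no (.br (.br .no .no (.br .no .no .no (.br .no (.br .no .no (.br .no .no .no (.br .no .no (.br .no .no .no (.br .no (.br (.sw 1 3 [6,13,20,36,42]) .no .no .no) .no .no)) .no)) .no) .no .no)) (.de 41)) .no .no (.br .no .no (.de 46) .no)) .no .no) (.br (.br .no .no .no (.br .no .no (.de 46) .no)) .no .no .no) .no .no)) (.br .no (.br (.br .no (.br (.br .no .no (.de 41) (.br .no .no (.br .no .no (.br .no .no .no (.br .no .no (.br .no .no .no (.br .no .no (.br .no (.br (.sw 1 3 [6,13,20]) .no .no .no) .no .no) .no)) .no)) .no) .no)) .no .no (.br .no .no (.de 41) .no)) .no .no) .no .no .no) .no .no)) .no .no .no) .no (.br (.sw 1 2 [27]) .no .no .no)) .no)) (.br .no .no (.br .no .no .no (.br .no (.br (.br .no .no (.br .no (.de 42) .no .no) (.br .no (.br (.br .no (.br (.sw 2 3 [30,31,32]) .no (.br .no .no .no (.de 46)) .no) .no .no) .no .no .no) (.br (.br .no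 (.br (.br .no .no (.de 41) (.sw 1 2 [27,33])) .no (.br .no .no .no (.de 46)) .no) .no .no) (.br (.br .no .no (.br .no .no .no (.de 46)) .no) .no .no .no) .no .no) .no)) .no .no .no) .no .no)) .no)) .no .no (.br .no .no (.br .no .no .no (.br .no .no (.br .no (.br (.br (.br .no (.br (.br .no (.br (.br .no .no (.br .no .no .no (.br .no .no (.br .no .no .no (.br .no .no (.br .no .no .no (.de 46)) .no)) .no)) (.br .no .no (.br .no .no (.br .no .no .no (.br .no .no (.br .no .no .no (.br .no .no (.br .no (.de 48) .no .no) .no)) .no)) .no) .no)) .no .no (.br .no .no (.de 46) .no)) .no .no) .no .no .no) .no .no) .no (.br (.br .no (.br (.br .no .no .no (.br .no .no (.de 46) .no)) .no .no .no) .no .no) (.de 42) .no .no) .no) .no .no .no) .no (.br (.sw 1 2 [27]) .no .no .no)) .no)) .no)) .no .no) .no) .no .no .no) .no .no) .no .no .no) .no (.br (.br .no (.br (.br .no (.br (.br .no (.br .no .no (.br .no .no .no (.br .no .no (.br .no .no .no (.br .no .no (.br .no .no (.br (.sw 1 3 [23,29]) .no .no (.br (.br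 .no (.br (.br .no (.br .no .no .no (.de 47)) .no .no) .no .no .no) .no .no) (.br (.br .no (.br (.br .no (.br .no (.br .no .no (.sw 0 3 [36]) .no) .no .no) .no (.br .no (.br .no .no (.sw 0 3 [36]) .no) .no .no)) .no .no .no) .no .no) .no .no .no) .no .no)) (.br (.br .no (.br (.br .no (.br (.br .no (.sy 36 228 5) .no .no) .no .no .no) .no .no) .no .no .no) .no .no) .no .no .no)) .no)) .no)) .no) .no .no) (.br (.br .no (.br .no .no (.br .no .no .no (.br .no .no (.br (.br .no .no (.br .no .no .no (.br (.br .no (.br (.br .no (.br .no .no .no (.de 47)) .no (.de 41)) .no .no .no) .no .no) .no .no .no)) (.br .no .no (.br (.sw 1 3 [23,30]) .no .no (.de 43)) .no)) .no .no .no) .no)) (.br .no .no (.br .no .no .no (.br (.br .no .no (.br .no .no .no (.br (.br .no (.br (.br .no (.sw 2 3 [31,32,33]) (.br .no .no .no (.br .no (.br .no .no (.br .no .no .no (.br .no .no (.br .no .no .no (.br .no (.br (.sw 1 2 [5,11,17,40,47]) .no .no .no) .no .no)) .no)) .no) .no .no)) .no) .no .no .no) .no .no) .no (.de 43) .no))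 (.br .no .no (.br (.br .no (.br (.br .no (.sw 2 3 [31,32,33]) (.de 41) .no) .no .no .no) .no .no) .no .no .no) .no)) .no (.br .no .no (.br .no .no .no (.br (.br .no (.br (.br .no (.br (.br .no (.de 48) .no .no) .no .no (.de 47)) .no .no) .no .no .no) .no .no) .no (.de 43) .no)) (.br .no .no (.br (.br .no (.br (.br .no (.br (.br .no (.de 48) .no .no) .no .no .no) .no .no) .no .no .no) .no .no) .no .no .no) .no)) .no)) .no)) (.sw 1 3 [23]) .no) .no .no .no) .no .no) (.br (.br .no (.br .no .no (.br .no .no .no (.br .no .no (.br .no (.de 34) .no (.br .no (.br .no .no (.br (.sw 1 3 [23,29]) .no .no (.br (.br .no (.br (.br .no .no (.br .no .no .no (.br .no (.br .no .no (.br .no .no .no (.br .no .no (.br .no .no .no (.br .no (.br (.sw 1 2 [5,11,17,27,34,40,47]) .no .no .no) .no .no)) .no)) .no) .no .no)) .no) .no .no .no) .no .no) (.br (.br .no (.br (.br .no .no .no (.sw 1 2 [27,34])) .no (.br .no .no .no (.br .no (.br .no .no (.sw 0 3 [36]) .no) .no .no)) .no) .no .no) .no .no .no) .no .no)) (.br (.br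 .no (.br (.br .no (.br (.br .no .no (.br .no (.br .no .no (.br .no .no .no (.br .no .no (.br .no .no .no (.br .no (.br (.sw 2 3 [35,41]) .no .no .no) .no .no)) .no)) (.br .no .no (.br .no .no .no (.br .no .no (.br .no (.sw 2 3 [43,44,45,46]) .no (.br (.sw 1 3 [47]) .no .no .no)) .no)) .no)) (.br .no .no .no (.br .no .no (.br .no .no .no (.br .no .no (.br .no (.br (.sw 1 2 [42]) .no .no .no) .no (.sy 42 78 5)) .no)) .no)) .no) .no) .no (.de 41) .no) .no .no) .no .no .no) .no .no) .no .no .no)) .no .no)) .no)) .no) .no .no) (.br (.br .no (.br .no .no (.br .no .no .no (.br .no (.br (.br .no .no (.br .no .no .no (.br (.br .no (.br (.br .no .no (.br .no .no .no (.br .no (.br .no .no (.br .no .no .no (.br .no .no (.br .no .no .no (.br .no (.br (.sw 1 2 [5,11,17,27,33,40,47]) .no .no .no) .no .no)) .no)) .no) .no .no)) (.de 41)) .no (.br .no .no .no (.de 41)) .no) .no .no) .no .no .no)) (.br .no .no (.br (.sw 1 3 [23,30]) .no .no (.de 43)) .no)) .no .no .no) .no .no)) (.br .no .no (.br .no (.br (.br .no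 .no (.br .no .no .no (.br (.br .no (.br (.sw 2 3 [31,32]) .no .no (.br .no .no (.de 46) .no)) .no .no) .no (.de 43) .no)) (.br .no .no (.br (.br .no (.br (.sw 2 3 [31,32]) .no .no (.br .no .no (.de 41) .no)) .no .no) .no .no .no) .no)) .no .no .no) .no (.br (.sw 1 2 [27]) .no .no .no)) .no)) (.sw 1 3 [23]) .no) .no .no .no) .no .no) .no) .no .no .no) .no .no) (.br (.br .no (.br .no .no (.br (.br .no (.br (.br .no .no (.br .no .no .no (.br (.br .no (.br .no .no (.br .no .no .no (.br .no (.br (.br .no (.br .no .no (.br .no .no .no (.br .no (.br .no .no (.br .no .no .no (.br .no .no (.br .no .no .no (.sw 0 1 [24,25,26,28,29,30,33,34,37,38,39])) .no)) .no) .no .no)) (.de 41)) (.br .no .no .no (.de 41)) .no) .no .no .no) .no .no)) (.br .no .no (.br .no (.br (.br .no (.br .no .no (.de 41) (.br .no .no (.br .no (.br .no .no .no (.br .no .no (.br .no .no .no (.br .no .no (.sw 0 1 [24,25,26,28,29,30,33,34,37,38,39]) .no)) .no)) .no .no) .no)) (.br .no .no .no (.de 46)) .no) .no .no .no) .no (.de 43)) .no))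 .no .no) .no .no .no)) (.br .no .no (.br (.br .no (.br .no .no (.br .no .no .no (.br .no (.br (.br .no (.sw 2 3 [31,32]) .no (.br .no .no (.de 46) .no)) .no .no .no) (.de 43) .no)) (.br .no .no (.br .no (.br (.br .no (.sw 2 3 [31,32]) .no (.br .no .no (.de 41) .no)) .no .no .no) .no .no) .no)) .no .no) .no .no (.br .no (.br .no .no (.br .no .no .no (.br .no (.br (.br .no (.br (.br .no .no .no (.br .no (.br .no .no (.br .no .no .no (.br .no .no (.br .no .no .no (.br .no (.br (.sw 1 2 [5,11,17,24,47]) .no .no .no) .no .no)) .no)) .no) .no .no)) .no (.sw 0 3 [33]) .no) .no .no) .no .no .no) (.de 43) .no)) (.br .no .no (.br .no (.br (.br .no (.br (.br .no .no (.br .no (.br .no .no .no (.br .no .no (.br .no .no .no (.br .no .no (.br .no (.sw 0 3 [33,40]) .no (.sw 0 1 [24,25,26,28,29,30,34,37,38,39,40])) .no)) .no)) .no .no) .no) .no (.de 41) .no) .no .no) .no .no .no) .no .no) .no)) .no .no)) .no)) .no (.br .no .no .no (.br .no .no (.br (.br .no (.br .no .no (.br (.br .no (.br (.br .no (.br .no .no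 (.br .no .no .no (.br .no (.br .no .no (.br .no .no .no (.br .no .no (.br .no .no .no (.br .no (.br (.sw 1 3 [6,13,20,26,42]) .no .no .no) .no .no)) .no)) (.br .no .no (.br .no .no .no (.de 46)) .no)) .no .no)) (.de 41)) .no (.br .no .no (.de 46) .no)) .no .no .no) .no .no) .no .no (.br (.br .no (.br .no .no .no (.br .no .no (.de 46) .no)) .no .no) (.sw 0 2 [30]) .no .no)) (.br (.br .no (.br (.br .no (.br .no .no (.de 41) (.br .no .no (.br .no (.br .no .no (.br .no .no .no (.br .no .no (.de 46) .no)) (.sw 0 2 [30,36])) (.br .no .no .no (.br .no .no (.br .no .no .no (.br .no .no (.sw 0 1 [24,25,26,28,29,33,34,36,37,38,39]) .no)) .no)) .no) .no)) .no (.br .no .no (.de 41) .no)) .no .no .no) .no .no) .no .no .no)) .no .no) .no .no (.sw 0 1 [24,25,26])) .no)) .no) .no .no) (.br (.br .no .no (.br .no .no .no (.br .no .no (.br (.de 34) .no .no (.sw 0 1 [24,25,26])) .no)) .no) .no .no .no) .no .no) .no) .no .no) .no .no .no) .no .no))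

def c0_1_1 : Cert := (.br .no .no (.br .no .no .no (.br (.br .no .no (.br .no .no .no (.br .no .no (.br .no (.br (.br .no (.br .no .no .no (.br (.br .no (.br (.br .no .no (.br .no .no .no (.br (.br .no (.br .no .no (.br .no .no .no (.br .no (.br (.br .no (.br .no .no (.br .no .no .no (.br .no (.br .no .no (.br .no .no .no (.br .no .no (.br .no .no .no (.br .no (.br .lf .no .no .no) .no .no)) .no)) .no) .no .no)) (.de 41)) (.br .no .no .no (.de 41)) .no) .no .no .no) .no .no)) (.br .no .no (.br .no (.br (.br .no (.br .no .no (.de 41) (.br .no .no (.br .no (.br .no .no .no (.br .no .no (.br .no .no .no (.br .no .no (.br .no (.br (.sw 2 3 [35,36,40,41,43,44,45,46]) .no .no .no) .no .no) .no)) .no)) .no .no) .no)) (.br .no .no .no (.de 46)) .no) .no .no .no) .no (.de 43)) .no)) .no .no) .no (.br .no (.br .no .no (.br .no .no .no (.br .no (.br (.br .no (.br (.br .no .no .no (.br .no (.br .no .no (.br .no .no .no (.br .no .no (.br .no .no .no (.br .no (.sw 0 2 [33,40]) .no .no)) .no)) .no) .no .no))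 .no .no (.de 41)) .no .no) .no .no .no) .no .no)) (.br .no .no (.br .no (.br (.br .no (.br (.br .no .no (.br .no (.br .no .no .no (.br .no .no (.br .no .no .no (.br .no .no (.br .no (.br (.sw 2 3 [35,36,41,43,44,45,46]) .no .no .no) .no (.br (.sw 1 3 [47]) .no .no .no)) .no)) .no)) .no .no) .no) .no .no (.sw 0 2 [33])) .no .no) .no .no .no) .no (.de 43)) .no)) .no .no) .no)) (.br .no .no (.br (.br .no (.br .no .no (.br .no .no .no (.br .no (.br (.br .no (.sw 2 3 [31,32]) .no (.br .no .no (.de 46) .no)) .no .no .no) (.de 43) .no)) (.br .no .no (.br .no (.br (.br .no (.sw 2 3 [31,32]) .no (.br .no .no (.de 41) .no)) .no .no .no) .no .no) .no)) .no .no) .no .no .no) .no)) .no .no (.br .no .no (.br .no .no .no (.br (.br .no (.br .no .no (.br (.br .no (.br (.br .no (.br .no .no (.br .no .no .no (.br .no (.br .no .no (.sw 0 3 [30,36]) (.br .no .no (.br .no .no .no (.de 46)) .no)) .no .no)) (.de 41)) (.br .no .no .no (.de 41)) .no) .no .no .no) .no .no) .no .no .no) (.br (.br .no (.br (.br .no (.br .no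 .no (.de 41) (.br .no .no (.br .no (.br .no .no (.br .no .no .no (.br .no .no (.de 46) .no)) (.br .no .no (.br .no .no .no (.br .no .no (.br .no (.br (.sw 2 3 [35,40,41,43,44,45,46]) .no .no .no) .no .no) .no)) .no)) (.br .no .no .no (.br .no .no (.br .no .no .no (.br .no .no (.br .no (.br (.sw 1 2 [42]) .no .no .no) .no .no) .no)) .no)) .no) .no)) (.br .no .no .no (.de 46)) .no) .no .no .no) .no .no) .no (.br (.br .no (.br .no .no (.br .no .no .no (.de 46)) .no) .no .no) (.sw 0 3 [30]) .no .no) .no)) .no .no) .no (.br .no (.br .no .no (.br (.br .no (.br (.br .no (.br (.br .no .no .no (.br .no (.br .no .no (.sw 0 3 [30,36]) (.br .no .no (.br .no .no .no (.br .no .no (.br .no (.sw 2 3 [43,44,45,46]) .no .no) .no)) .no)) .no .no)) .no .no (.de 41)) .no .no) .no .no .no) .no .no) .no .no .no) (.br (.br .no (.br (.br .no (.br (.br .no .no (.br .no (.br .no .no (.br .no .no .no (.br .no .no (.br .no .no .no (.br .no (.br (.sw 2 3 [35,41]) .no .no .no) .no .no)) .no)) (.br .no .no (.br .no .no .no (.br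 .no .no (.br .no (.sw 2 3 [43,44,45,46]) .no (.br (.sw 1 3 [47]) .no .no .no)) .no)) .no)) (.br .no .no .no (.br .no .no (.br .no .no .no (.br .no .no (.br .no (.br (.sw 1 2 [42]) .no .no .no) .no (.sy 42 78 5)) .no)) .no)) .no) .no) .no .no (.sw 0 2 [33])) .no .no) .no .no .no) .no .no) .no (.br (.br .no (.br (.br .no .no .no (.br .no .no (.br .no (.br .no .no .no (.br .no .no (.br .no .no .no (.br .no .no (.br .no (.br .lf .no .no .no) .no .no) .no)) .no)) .no .no) .no)) .no .no .no) .no .no) (.sw 0 3 [30]) .no .no) .no)) .no .no) .no)) .no)) .no .no) (.br (.br .no .no .no (.br .no .no (.br .no .no .no (.br (.de 34) .no (.br (.br .no .no (.br .no (.de 42) .no .no) (.br .no (.br (.br .no (.br (.br .no (.br .no .no (.br .no .no (.br .no .no .no (.br .no .no (.br .no .no .no (.br .no .no (.br .no .no .no (.sw 0 1 [28,29,34,36,37,38,39,40])) .no)) .no)) .no) .no) .no (.br .no .no (.br .no .no (.br .no .no .no (.br .no .no (.br .no .no .no (.br .no .no (.sw 0 1 [28,29,34,36,37,38,39]) .no)) .no))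 .no) .no)) .no .no .no) .no .no) .no .no .no) (.br (.br .no (.br (.br .no (.br .no .no (.br .no (.br .no .no .no (.br .no .no (.br .no .no .no (.br .no .no (.br .no .no .no (.sw 0 1 [28,29,34,37,38,39,40])) .no)) .no)) .no .no) .no) .no (.br .no .no (.sw 0 1 [28,29,34]) .no)) .no .no .no) .no .no) (.br (.br .no (.br .no .no .no (.br .no .no (.sw 0 1 [28,29,34]) .no)) .no .no) .no .no .no) .no .no) .no)) .no .no .no) .no)) .no)) .no .no .no) .no .no)) (.br .no .no .no (.br (.br .no (.br (.br .no .no (.br .no (.br (.br .no (.sy 32 225 5) .no .no) .no .no .no) .no (.br (.sw 1 2 [26]) (.de 34) .no .no)) (.br .no (.br (.br .no (.sy 32 225 5) .no .no) .no .no .no) .no .no)) .no .no (.br .no .no (.br .no (.br (.br .no (.br .no .no (.br (.br .no (.br (.br .no .no (.br .no .no .no (.de 41)) (.br .no .no (.de 46) .no)) .no .no (.br .no .no (.de 45) .no)) .no .no) .no .no .no) (.br (.br .no (.br (.br .no .no (.br .no .no .no (.de 46)) (.br .no .no (.de 41) .no)) .no .no (.br .no .no (.de 45) .no)) .no .no)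 .no (.br (.br .no .no .no (.br .no .no (.de 45) .no)) (.sw 0 3 [30]) .no .no) .no)) .no .no) .no .no .no) .no (.br (.sw 1 2 [26]) (.de 34) .no .no)) .no)) .no .no) (.br (.br .no .no .no (.br .no .no (.br .no (.br (.de 34) .no .no .no) .no (.br (.de 34) (.br (.br .no .no (.br .no (.de 42) .no .no) (.br .no (.br (.br .no (.br (.br .no .no (.de 41) (.sw 1 2 [26,33])) .no (.br .no .no .no (.de 46)) .no) .no .no) .no .no .no) (.br (.br .no (.br (.br .no .no (.de 41) (.sw 1 2 [26,33])) .no (.br .no .no .no (.de 46)) .no) .no .no) (.br (.br .no .no (.br .no .no .no (.de 46)) .no) .no .no .no) .no .no) .no)) .no .no .no) .no .no)) .no)) .no .no .no) .no .no)) .no) .no .no .no) .no (.br (.br .no (.br .no .no .no (.br (.br .no (.br (.br .no (.br .no .no (.br (.br .no (.sy 33 228 5) .no .no) .no .no .no) (.br (.br .no (.sy 33 228 5) .no .no) .no (.br .no (.br .no .no (.br .no .no .no (.br .no .no (.de 43) .no)) (.br .no .no (.br .no .no .no (.de 43)) .no)) .no .no) .no)) (.sw 1 3 [24]) .no) .no .no .no) .no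 .no) (.br (.br .no (.br .no .no (.br .no .no .no (.br (.de 34) .no (.br (.br .no .no (.br .no .no .no (.br (.br .no (.br (.br .no (.br .no .no .no (.de 47)) .no (.de 41)) .no .no .no) .no .no) .no .no .no)) (.br .no .no (.br (.sw 1 3 [24,30]) .no .no (.de 43)) .no)) .no .no .no) .no)) .no) .no .no) .no .no .no) .no .no)) (.br .no .no .no (.sy 26 78 5)) .no) (.br .no .no (.br .no .no .no (.sy 26 78 5)) .no) .no .no)) .no)) (.br .no .no (.br .no .no .no (.br .no (.br (.br .no (.br .no .no (.br (.br .no (.br (.br .no .no (.br .no .no .no (.br (.br .no (.sw 2 3 [21,22,23,27]) .no .no) .no .no .no)) (.br .no .no (.br (.br .no (.sw 2 3 [21,22,23,27]) .no .no) .no .no (.br .no (.br .no .no (.br .no .no .no (.br .no (.br (.br .no (.br (.sw 2 3 [21,22,23,27,31,32,33]) .no (.sw 0 3 [33]) .no) .no .no) .no .no .no) (.de 43) .no)) (.br .no .no (.br .no (.br (.br .no (.br (.sw 2 3 [21,22,23,27,31,32,33]) .no (.de 41) .no) .no .no) .no .no .no) .no .no) .no)) .no .no)) .no)) .no (.br .no .no .no (.br .no .no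 (.br (.br .no (.br .no .no (.br (.br .no (.br (.br .no (.sw 2 3 [21,22,23,27,30,31,32]) .no (.br .no .no (.de 46) .no)) .no .no .no) .no .no) .no .no (.br (.br .no (.br .no .no .no (.br .no .no (.de 46) .no)) .no .no) (.sw 0 2 [30]) .no .no)) (.br (.br .no (.br (.br .no (.sw 2 3 [21,22,23,27,30,31,32]) .no (.br .no .no (.de 41) .no)) .no .no .no) .no .no) .no .no .no)) .no .no) .no .no (.br .no (.br .no .no (.br (.br .no (.br (.br .no (.br (.sw 2 3 [21,22,23,27,30,31,32,33]) .no (.sw 0 3 [33]) .no) .no .no) .no .no .no) .no .no) .no .no (.br (.br .no (.br (.br .no .no (.br .no .no .no (.br .no (.br .no .no (.br .no .no .no (.br .no .no (.br .no .no .no (.br .no (.br (.sw 2 3 [21,22,23,27,30,31,32,33,35,36,40,41,43,44,45,46]) .no .no .no) .no .no)) .no)) .no) .no .no)) .no) .no .no .no) .no .no) (.sw 0 2 [30]) .no .no)) (.br (.br .no (.br (.br .no (.br (.sw 2 3 [21,22,23,27,30,31,32,33]) .no (.de 41) .no) .no .no) .no .no .no) .no .no) .no .no .no)) .no .no)) .no)) .no) .no .no) (.br (.br .no .no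 (.br .no .no .no (.br .no .no (.br (.de 34) .no .no (.br (.sy 20 228 14) .no .no .no)) .no)) .no) .no .no .no) .no .no) .no) (.de 27) .no) .no .no .no) .no .no)) .no)) .no .no .no)) (.br .no .no (.br (.br .no .no (.br .no .no .no (.br .no .no (.br .no (.br (.br .no (.sw 2 3 [18,19]) .no (.de 27)) .no .no .no) .no .no) .no)) (.br .no .no (.br .no .no .no (.br .no (.br (.br .no (.sw 2 3 [18,19]) .no (.br .no .no (.br (.br .no (.br (.br .no .no (.br .no (.br (.br .no (.sw 2 3 [18,19,21,22,23,26,27]) .no .no) .no .no .no) .no .no) (.br .no (.br (.br .no (.sw 2 3 [18,19,21,22,23,26,27]) .no .no) .no .no .no) (.br (.sw 1 3 [26]) (.de 34) .no .no) .no)) .no (.br .no .no .no (.br .no (.br (.br .no (.br .no .no (.br (.br .no (.br (.sw 2 3 [18,19,21,22,23,26,27,30,31]) .no (.br .no .no .no (.de 45)) .no) .no .no) .no .no (.br (.br .no .no (.br .no .no .no (.de 45)) .no) (.sw 0 2 [30]) .no .no)) (.br (.br .no (.br (.sw 2 3 [18,19,21,22,23,26,27,30,31]) .no (.br .no .no .no (.de 45)) .no) .no .no) .no .no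 .no)) .no .no) .no .no .no) (.br (.sw 1 3 [26]) (.de 34) .no .no) .no)) .no) .no .no) (.br (.br .no .no (.br .no .no .no (.br .no (.br (.de 34) .no .no .no) (.br (.de 34) (.br (.br .no .no (.br .no (.de 42) .no (.br (.br .no (.br (.br .no .no (.sw 1 3 [26,33]) (.de 41)) .no .no (.br .no .no (.de 46) .no)) .no .no) (.br (.br .no .no .no (.br .no .no (.de 46) .no)) .no .no .no) .no .no)) (.br .no (.br (.br .no (.br (.sw 2 3 [18,19,21,22,23,26,27,30,31,32]) .no .no (.br .no .no (.de 41) .no)) .no .no) .no .no .no) .no .no)) .no .no .no) .no .no) .no)) .no) .no .no .no) .no .no) .no)) .no .no .no) (.br (.br .no (.br .no .no (.br (.br .no (.br (.br .no (.br .no .no (.br (.br .no (.sw 2 3 [18,19,21,22,23,24,27]) .no .no) .no .no (.br .no (.br .no .no (.br .no .no .no (.br .no .no (.de 43) .no)) (.br .no .no (.br .no .no .no (.de 43)) .no)) .no .no)) (.br (.br .no (.sw 2 3 [18,19,21,22,23,24,27]) .no .no) .no .no .no)) .no (.sw 1 2 [24])) .no .no .no) .no .no) (.br (.br .no (.br .no .no .no (.br .no .no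 (.br (.de 34) .no .no (.br (.br .no .no (.br .no .no .no (.br (.sw 1 2 [24,30]) .no (.de 43) .no)) (.br .no .no (.br (.br .no (.br (.br .no (.sw 2 3 [18,19,21,22,23,24,27,31,32,33]) (.de 41) .no) .no .no .no) .no .no) .no .no .no) .no)) .no .no .no)) .no)) .no .no) .no .no .no) .no .no) .no) .no (.br .no .no (.sy 26 30 5) .no)) (.br .no .no .no (.br .no .no (.sy 26 30 5) .no)) .no .no) .no)) .no)) .no .no (.br .no .no (.br .no .no .no (.br .no .no (.br .no (.br (.br .no (.br (.br (.br .no (.br (.br .no .no (.br .no .no .no (.br .no .no (.br .no (.sw 0 3 [20,27]) .no (.br .no .no (.br .no .no .no (.br .no (.br (.br .no (.br (.br .no (.br .no (.br .no .no (.br .no .no .no (.br .no .no (.br .no .no .no (.de 47)) .no)) .no) .no .no) .no .no) .no .no .no) .no .no) .no .no .no) .no .no)) (.br .no .no (.br .no (.br (.br .no (.br (.br .no (.br .no (.br .no .no .no (.br .no .no (.br .no .no .no (.br .no .no (.br .no .no .no (.br (.sw 1 2 [5,11]) .no .no .no)) .no)) .no)) .no .no) (.sw 1 3 [34]) .no) .no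 .no .no) .no .no) .no .no .no) .no (.de 43)) .no))) .no)) (.br .no .no (.br .no .no .no (.br .no (.br .no .no (.br .no .no .no (.br .no (.br (.br .no (.br (.sw 2 3 [31,32,33]) .no (.sw 0 3 [20,27,33]) .no) .no .no) .no .no .no) (.de 43) .no)) (.br .no .no (.br .no (.br (.br .no (.br (.sw 2 3 [31,32,33]) .no (.de 41) .no) .no .no) .no .no .no) .no .no) .no)) .no .no)) .no)) .no .no (.br .no .no (.br .no .no .no (.br .no .no (.br .no (.sw 0 3 [20,27]) .no (.br .no .no (.br (.br .no (.br (.br .no (.br (.br .no (.sy 36 228 5) .no .no) .no .no .no) .no .no) .no .no .no) .no .no) .no .no .no) (.br (.br .no (.br (.br .no (.br (.br .no (.sy 36 228 5) (.sw 1 3 [34]) .no) .no .no .no) .no .no) .no .no .no) .no .no) .no (.br (.br .no (.br (.br .no (.br .no .no (.br .no (.br .no .no .no (.br .no .no (.br .no .no .no (.br .no .no (.br .no .no .no (.br (.sw 1 2 [5,11]) .no .no .no)) .no)) .no)) .no .no) .no) .no .no) .no .no .no) .no .no) (.sw 0 3 [30]) .no .no) .no))) .no)) .no)) .no .no) (.br (.br .no .no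 .no (.br .no .no (.br .no .no .no (.br .no .no (.br .no .no .no (.br .no .no (.br .no (.de 42) .no .no) (.br .no (.br (.br .no (.br (.br .no (.br (.sy 36 225 5) .no (.sw 0 3 [20,27,34]) .no) .no .no) .no .no .no) .no .no) .no .no .no) (.br (.br .no (.br (.br .no (.br (.br .no (.de 48) .no .no) .no (.sw 0 1 [28,29]) .no) .no .no) .no .no .no) .no .no) (.br (.br .no (.br (.br .no .no (.sw 0 1 [28,29]) .no) .no .no .no) .no .no) .no .no .no) .no .no) .no))) .no)) .no)) .no .no .no) .no .no) .no .no .no) .no .no) .no .no .no) .no .no) .no)) (.br .no .no (.br .no .no .no (.br .no (.br (.br .no (.br (.br (.br .no (.br (.br .no .no (.br .no .no .no (.br .no .no (.br .no (.sw 2 3 [21,22,23]) .no .no) .no)) (.br .no .no (.br .no .no .no (.br .no (.sw 2 3 [21,22,23]) (.br .no .no (.br .no .no .no (.br .no (.br (.br .no (.br (.br .no (.sw 2 3 [21,22,23,31,32,33,34]) .no (.sw 1 2 [34])) .no .no .no) .no .no) .no .no .no) (.de 43) .no)) (.br .no .no (.br .no (.br (.br .no (.br (.br .no (.sw 2 3 [21,22,23,31,32,33,34])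 .no .no) .no .no .no) .no .no) .no .no .no) .no .no) .no)) .no)) .no)) .no (.br .no .no .no (.br .no .no (.br .no .no .no (.br .no (.br .no .no (.br (.br .no (.br (.br .no (.br (.sw 2 3 [21,22,23,30,31,32,33]) .no (.br .no .no .no (.br .no (.br .no .no (.br .no .no .no (.br .no .no (.br .no .no .no (.br .no (.sw 0 2 [40]) .no .no)) .no)) (.br .no .no (.br .no .no .no (.de 46)) .no)) .no .no)) .no) .no .no) .no .no .no) .no .no) .no .no (.br (.br .no (.br (.br .no .no (.br .no .no .no (.br .no (.br .no .no (.br .no .no .no (.br .no .no (.br .no .no .no (.br .no (.br (.sw 1 2 [5,11,34,40,47]) .no .no .no) .no .no)) .no)) .no) .no .no)) .no) .no .no .no) .no .no) (.sw 0 2 [30]) .no .no)) (.br (.br .no (.br (.br .no (.br (.sw 2 3 [21,22,23,30,31,32,33]) .no (.de 41) .no) .no .no) .no .no .no) .no .no) .no .no .no)) (.br .no .no (.br (.br .no (.br (.br .no (.br (.br .no (.sw 2 3 [21,22,23,30,31,32,33,34]) .no (.sw 1 2 [34])) .no .no .no) .no .no) .no .no .no) .no .no) .no .no (.br (.br .no (.br (.br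 .no (.br .no .no .no (.de 47)) .no .no) .no .no .no) .no .no) (.sw 0 2 [30]) .no .no)) (.br (.br .no (.br (.br .no (.br (.br .no (.sw 2 3 [21,22,23,30,31,32,33,34]) .no .no) .no .no .no) .no .no) .no .no .no) .no .no) .no .no .no)) .no)) .no)) .no) .no .no) (.br (.br .no .no (.br .no .no .no (.br .no .no (.br .no .no .no (.br .no .no (.br .no .no (.br .no (.de 42) .no (.br (.br .no (.br (.br .no (.br (.br .no (.de 48) .no .no) .no .no (.de 47)) .no .no) .no .no .no) .no .no) (.br (.br .no (.br (.br .no .no .no (.sw 0 1 [28,29])) .no .no .no) .no .no) .no .no .no) .no .no)) (.br .no (.br (.br .no (.br (.br .no (.br (.sw 2 3 [21,22,23,30,31,32,33,34]) .no .no .no) .no .no) .no .no .no) .no .no) .no .no .no) .no .no)) .no)) .no)) .no) .no .no .no) .no .no) .no (.sw 0 3 [20]) .no) .no .no) .no .no .no) (.br (.br .no (.br (.br (.br .no (.br (.br .no (.br .no .no (.br .no .no .no (.br .no (.br .no .no (.br .no .no .no (.br .no .no (.de 43) .no)) (.br .no .no (.br .no .no .no (.de 43)) .no)) (.br .no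 .no (.br .no .no .no (.br .no .no (.de 43) .no)) (.br .no .no (.br .no .no .no (.de 43)) .no)) .no)) (.br .no .no (.br .no (.br .no .no (.br .no .no .no (.br .no .no (.de 43) .no)) (.br .no .no (.br .no .no .no (.de 43)) .no)) .no .no) .no)) .no (.sw 1 2 [24])) .no .no .no) .no .no) (.br (.br .no (.br .no .no .no (.br .no .no (.br .no .no .no (.br .no .no (.br .no .no (.br .no .no .no (.br (.sw 1 2 [24,30]) .no (.de 43) .no)) (.br .no .no (.br (.br .no (.br (.br .no (.br (.br .no (.de 48) .no .no) .no .no .no) .no .no) .no .no .no) .no .no) .no .no .no) .no)) .no)) .no)) .no .no) .no .no .no) .no .no) .no (.sw 0 3 [20]) .no) .no .no) (.br (.br .no .no (.br (.br .no (.br (.br .no .no .no (.br .no .no (.br .no (.de 34) .no (.sw 0 1 [25,26])) .no)) .no .no .no) .no .no) (.br (.br .no (.br (.br .no .no (.br .no (.sw 0 3 [20,26]) .no (.br (.br .no .no (.br .no .no .no (.br .no .no (.de 43) .no)) (.br .no .no (.br .no .no .no (.de 43)) .no)) .no .no .no)) (.br .no (.br (.sy 33 225 5) .no .no .no) .no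 .no)) .no .no (.br .no .no (.br .no (.sw 0 3 [20,26]) .no (.sw 0 1 [25,26])) .no)) .no .no) .no .no .no) .no .no) .no) .no .no .no) .no .no) .no)) .no))) .no))

def c0_1_2 : Cert := (.br (.br .no .no (.br .no .no .no (.br (.br .no (.br (.br .no (.br .no .no .no (.br (.br .no (.br .no .no (.br .no .no .no (.br .no .no (.br (.br .no (.br .no .no (.br (.br .no (.br (.br .no (.br .no .no (.br .no .no .no (.br .no (.br .no .no (.br .no .no .no (.br .no .no (.br .no .no .no (.br .no (.br (.sw 1 3 [6,13,42]) .no .no .no) .no .no)) .no)) (.br .no .no (.br .no .no .no (.de 46)) .no)) .no .no)) (.de 41)) .no (.br .no .no (.de 46) .no)) .no .no .no) .no .no) .no .no (.br (.br .no (.br .no .no .no (.br .no .no (.de 46) .no)) .no .no) (.sw 0 2 [17,23,30]) .no .no)) (.br (.br .no (.br (.br .no (.br .no .no (.de 41) (.br .no .no (.br .no (.br .no .no (.br .no .no .no (.br .no .no (.de 46) .no)) (.sw 0 2 [17,23,30,36])) (.br .no .no .no (.br .no .no (.br .no .no .no (.br .no .no (.br .no (.br (.sw 1 2 [42]) .no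 .no .no) .no .no) .no)) .no)) .no) .no)) .no (.br .no .no (.de 41) .no)) .no .no .no) .no .no) .no .no .no)) .no .no) .no .no .no) .no)) (.sw 0 2 [17,23])) (.br .no .no .no (.br .no .no (.br .no .no .no (.br (.br .no (.br .no (.br (.br .no (.br (.br .no (.br .no .no (.br .no .no .no (.br .no .no (.br .no .no .no (.br .no .no (.br .no .no .no (.de 46)) .no)) .no)) (.br .no .no (.br .no .no (.br .no .no .no (.br .no .no (.br .no .no .no (.br .no .no (.br .no (.br (.sw 1 3 [6,13]) .no .no .no) .no .no) .no)) .no)) .no) .no)) (.br .no .no .no (.de 46)) .no) .no .no .no) .no .no) .no .no .no) .no (.br (.sw 1 2 [29]) (.br (.br .no (.br .no .no (.br .no .no .no (.de 46)) .no) .no .no) .no .no .no) .no .no)) .no .no) .no (.br .no (.br .no (.br (.br .no (.br (.br .no (.br (.sy 35 225 5) .no .no (.sw 0 2 [33])) .no .no) .no .no .no) .no .no) .no .no .no) .no (.br (.sw 1 2 [29]) (.br (.br .no (.br (.br .no .no .no (.br .no .no (.br .no .no (.br .no .no .no (.br .no .no (.br .no .no .no (.br .no .no (.sw 0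 1 [36,37,38,39]) .no)) .no)) .no) .no)) .no .no .no) .no .no) .no .no .no) .no .no)) .no .no) .no)) .no)) .no) (.br .no .no (.br .no .no .no (.br .no .no (.br .no .no .no (.br (.de 34) .no (.br (.br (.br .no (.br (.br .no (.br (.br .no (.sy 35 228 5) .no (.br .no .no (.br .no .no (.br .no .no .no (.br .no .no (.br .no .no .no (.br .no .no (.br .no (.de 48) .no .no) .no)) .no)) .no) .no)) .no .no .no) .no .no) .no .no .no) .no .no) .no .no (.br (.br .no (.br (.br .no (.br .no .no .no (.br .no .no (.sw 0 1 [28,34]) .no)) .no .no) .no .no .no) .no .no) (.sw 0 2 [17,23,29]) .no .no)) .no .no .no) .no)) .no)) .no) .no .no)) .no (.de 27)) .no .no .no) .no .no) .no .no .no)) (.br .no .no (.br (.br .no (.br (.br .no (.br .no .no (.br (.br .no (.br .no .no (.br .no .no .no (.br .no .no (.br (.br .no (.sw 2 3 [21,22,27]) .no .no) .no .no (.br .no (.br .no .no (.br (.br .no (.br (.br .no (.br (.sw 2 3 [21,22,27,30,31,32,33]) .no (.sw 0 3 [33]) .no) .no .no) .no .no .no) .no .no) .no .no (.br (.br .no (.br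 (.br .no .no (.br .no .no .no (.br .no (.br .no .no (.br .no .no .no (.br .no .no (.br .no .no .no (.br .no (.br (.sw 1 3 [6,13,29,36,42]) .no .no .no) .no .no)) .no)) .no) .no .no)) .no) .no .no .no) .no .no) (.br (.br .no (.br (.br .no .no .no (.br .no (.br .no .no (.sw 0 3 [36]) .no) .no .no)) .no (.sw 0 3 [33]) .no) .no .no) .no .no .no) .no .no)) (.br (.br .no (.br (.br .no (.br (.sw 2 3 [21,22,27,30,31,32,33]) .no (.de 41) .no) .no .no) .no .no .no) .no .no) .no .no .no)) .no .no)) .no)) (.br .no .no (.br .no .no .no (.br (.br .no (.sw 2 3 [21,22,27]) .no .no) .no .no .no)) .no)) .no (.br .no .no (.br .no .no .no (.br .no .no (.br (.br .no (.br .no (.br (.br .no (.br (.br .no (.sw 2 3 [21,22,27,29,30,31,32]) .no (.br .no .no (.de 46) .no)) .no .no .no) .no .no) .no .no .no) (.br (.sw 1 3 [29]) (.de 42) .no .no) .no) .no .no) .no .no (.br .no (.br .no (.br (.br .no (.br (.br .no (.br (.sw 2 3 [21,22,27,29,30,31,32,33]) .no (.sw 0 3 [33]) .no) .no .no) .no .no .no) .no .no) .no .no .no) (.br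 (.sw 1 3 [29]) (.de 42) .no .no) .no) .no .no)) .no)) .no)) (.br .no .no .no (.br .no .no (.br .no .no .no (.br .no .no (.br (.de 34) .no .no (.br (.br (.br .no (.br (.br .no (.br (.br .no (.sw 2 3 [21,22,27,29,30,31,32,33]) (.br .no .no .no (.br .no .no (.br .no .no .no (.br .no .no (.br .no .no .no (.de 46)) .no)) .no)) .no) .no .no .no) .no .no) .no .no .no) .no .no) .no (.br (.br .no (.br (.br .no (.br .no .no (.br .no .no .no (.sw 0 1 [28,34])) .no) .no .no) .no .no .no) .no .no) (.de 42) .no .no) .no) .no .no .no)) .no)) .no)) .no .no) .no) .no (.br .no .no (.br (.br .no (.br .no .no (.br .no .no .no (.br .no (.br (.br .no (.br .no .no (.br (.br .no (.br (.br .no .no (.br .no .no .no (.de 41)) (.br .no .no (.de 46) .no)) .no (.br .no .no .no (.de 45)) .no) .no .no) .no .no (.br (.br .no .no (.br .no .no .no (.de 45)) .no) (.br (.br .no .no (.br .no .no .no (.de 41)) (.br .no .no (.de 46) .no)) .no (.br .no .no .no (.de 45)) .no) .no .no)) (.br (.br .no (.br (.br .no .no (.br .no .no .no (.de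 46)) (.br .no .no (.de 41) .no)) .no (.br .no .no .no (.de 45)) .no) .no .no) .no .no .no)) .no .no) .no .no .no) (.br (.sw 1 3 [26]) (.de 34) .no .no) .no)) (.br .no .no (.br .no (.br (.br .no (.br .no .no (.br (.br .no (.br (.sw 2 3 [30,31]) .no .no (.br .no .no (.de 45) .no)) .no .no) .no .no .no) (.br (.br .no (.br (.sw 2 3 [30,31]) .no .no (.br .no .no (.de 45) .no)) .no .no) .no (.br (.br .no .no .no (.br .no .no (.de 45) .no)) (.br (.br .no .no (.sw 1 3 [26,32]) (.br .no .no (.de 41) .no)) .no .no (.br .no .no (.de 45) .no)) .no .no) .no)) .no .no) .no .no .no) .no .no) .no)) .no (.br .no .no (.br .no .no .no (.br .no (.br (.br .no (.br .no (.br (.br .no (.br (.br .no .no (.br .no .no .no (.de 46)) (.br .no .no (.de 46) .no)) .no (.br .no .no .no (.de 45)) .no) .no .no) .no .no .no) (.br (.sw 1 3 [29]) (.de 42) .no .no) .no) .no .no) .no .no .no) (.br (.sw 1 3 [26]) (.de 34) .no .no) .no)) .no)) (.br .no .no .no (.br .no .no (.br .no .no .no (.br .no (.br (.de 34) .no .no .no) (.br (.de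 34) (.br (.br (.br .no (.br (.br .no (.br (.br .no .no (.sw 1 3 [26,33]) (.br .no .no (.br .no .no (.br .no .no .no (.br .no .no (.br .no .no .no (.br .no .no (.br .no (.de 48) .no .no) .no)) .no)) .no) .no)) .no .no (.br .no .no (.de 46) .no)) .no .no) .no .no .no) .no .no) .no (.br (.br .no (.br (.br .no .no .no (.br .no .no (.de 46) .no)) .no .no .no) .no .no) (.de 42) .no .no) .no) .no .no .no) .no .no) .no)) .no)) .no .no) .no)) .no .no .no) .no .no) .no .no (.br (.br .no (.br .no .no .no (.br .no .no (.br (.br .no (.br .no .no (.br .no .no .no (.br (.br .no (.de 34) .no .no) .no (.br (.br .no (.br .no .no (.br (.br .no (.br (.br .no (.br .no .no (.br .no .no .no (.br .no (.br .no .no (.br .no .no .no (.br .no .no (.br .no .no .no (.br .no (.br (.sw 1 3 [6,13,42]) .no .no .no) .no .no)) .no)) (.br .no .no (.br .no .no .no (.de 46)) .no)) .no .no)) (.de 41)) .no (.br .no .no (.de 46) .no)) .no .no .no) .no .no) .no .no (.br (.br .no (.br .no .no .no (.br .no .no (.de 46) .no)) .no .no) (.sw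 0 2 [17,24,30]) .no .no)) (.br (.br .no (.br (.br .no (.br .no .no (.de 41) (.sy 26 30 14)) .no (.br .no .no (.de 41) .no)) .no .no .no) .no .no) .no .no .no)) .no .no) (.de 34) .no .no) .no)) .no) .no .no) (.br (.br .no (.br .no .no (.br (.br .no (.br (.sy 32 228 5) .no .no .no) .no .no) .no .no .no) (.sw 0 2 [17,24])) (.br .no .no .no (.br (.br .no (.br (.br .no .no (.br .no (.de 42) .no (.br (.sw 1 2 [30]) (.br .no .no (.br .no .no .no (.de 45)) .no) .no .no)) (.br .no (.br (.br .no (.br .no .no (.br .no .no .no (.de 46)) (.br .no .no (.de 41) .no)) (.br .no .no .no (.de 45)) .no) .no .no .no) .no .no)) .no .no .no) .no .no) .no (.br (.de 34) (.br (.br .no .no (.br .no (.de 42) .no (.br (.sw 1 2 [30]) (.br (.br .no .no .no (.br .no .no (.de 46) .no)) .no .no .no) .no .no)) (.br .no (.br (.br .no (.br (.br .no .no (.de 41) (.br .no .no (.br .no .no (.br .no .no .no (.br .no .no (.br .no .no .no (.br .no .no (.sw 0 1 [28,29,33,34,36,37,38,39]) .no)) .no)) .no) .no)) .no .no (.sw 0 2 [32])) .no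 .no) .no .no .no) .no .no)) .no .no .no) .no .no) .no)) .no) .no .no .no) .no .no) .no)) .no .no) (.sw 0 2 [17]) .no .no)) .no)) .no .no (.br .no .no (.br .no .no .no (.br (.br .no (.br (.br .no (.br (.br (.br .no (.br .no .no (.br .no .no .no (.br .no .no (.br .no .no .no (.br .no (.br .no .no (.br (.br .no (.br (.br .no (.br (.sy 23 228 17) .no (.sw 0 3 [20,27,33]) .no) .no .no) .no .no .no) .no .no) .no .no (.br (.sy 23 228 14) (.sw 0 2 [17,23,30]) .no .no)) (.br (.br .no (.br (.br .no (.br (.sy 23 228 17) .no (.de 41) .no) .no .no) .no .no .no) .no .no) .no .no .no)) .no .no)) .no)) (.sw 0 2 [17,23])) (.br .no .no .no (.br .no .no (.br .no .no .no (.br .no .no (.br .no (.sw 0 3 [20,27]) .no (.sw 0 1 [14,15,16,23,24,25,26,27])) .no)) .no)) .no) (.br .no .no (.br .no .no .no (.br .no .no (.br .no .no .no (.br .no .no (.br .no .no .no (.sw 0 1 [14,15,16,23,24,25,26,27])) .no)) .no)) .no) .no .no) .no .no .no) .no .no) .no .no .no) .no .no) .no .no .no)) (.br .no .no (.br (.br .no (.br (.br .no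 (.br (.br (.br .no (.br .no .no (.br .no .no .no (.br .no .no (.br .no .no .no (.br .no (.sw 2 3 [21,22]) (.br .no .no (.br (.br .no (.br (.br .no (.br (.br .no (.sw 2 3 [21,22,30,31,32,33,34]) .no (.sw 1 2 [34])) .no .no .no) .no .no) .no .no .no) .no .no) .no .no (.br (.br .no (.br (.br .no (.br .no .no .no (.de 47)) .no .no) .no .no .no) .no .no) (.br (.br .no (.br (.br .no (.br .no (.br .no .no (.sw 0 3 [36]) .no) .no .no) .no (.sw 1 2 [34])) .no .no .no) .no .no) .no .no .no) .no .no)) (.br (.br .no (.br (.br .no (.br (.br .no (.sw 2 3 [21,22,30,31,32,33,34]) .no .no) .no .no .no) .no .no) .no .no .no) .no .no) .no .no .no)) .no)) .no)) (.br .no .no (.br .no .no .no (.br .no .no (.br .no (.sw 2 3 [21,22]) .no .no) .no)) .no)) .no (.br .no .no (.br .no .no .no (.br .no .no (.br .no .no .no (.br .no (.br .no (.br (.br .no (.br (.br .no (.br (.sw 2 3 [21,22,29,30,31,32,33]) .no (.br .no .no .no (.br .no .no (.br .no .no .no (.br .no .no (.br .no .no .no (.de 46)) .no)) .no)) .no) .no .no) .no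 .no .no) .no .no) .no .no .no) (.br (.sw 1 3 [29]) (.de 42) .no .no) .no) (.sw 0 1 [14,15,16,23,24,25,26,27]) .no)) .no)) .no)) (.br .no .no .no (.br .no .no (.br .no .no .no (.br .no .no (.br .no .no .no (.br .no .no (.sw 0 1 [14,15,16,23,24,25,26,27]) .no)) .no)) .no)) .no .no) .no (.sw 0 3 [20]) .no) .no .no) .no .no .no) .no .no) .no .no (.br (.br .no (.br (.br .no .no (.sw 0 1 [14,15,16]) .no) .no .no .no) .no .no) (.sw 0 2 [17]) .no .no)) .no)))

def c0_1_3 : Cert := (.br .no (.br (.br .no (.br (.br .no .no .no (.br .no .no (.br .no .no .no (.br .no .no (.br .no .no (.br .no .no .no (.br .no (.br (.br .no (.br (.br .no (.sw 2 3 [7,8,9,10,17,18,19,20]) .no (.br (.br .no .no (.br .no .no .no (.br .no .no (.br .no .no .no (.br .no (.de 34) (.br .no (.br .no (.br (.br .no (.br (.br .no (.br (.sw 2 3 [7,8,9,10,17,18,19,20,21,22,27,29,30,31,32,33]) .no .no (.br .no .no (.br .no .no (.br .no .no .no (.br .no .no (.br .no .no .no (.br .no .no (.br .no (.sw 0 3 [40]) .no .no) .no)) .no)) .no) .no))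 .no .no) .no .no .no) .no .no) .no .no .no) .no (.br (.br .no (.br (.br .no (.br (.br .no .no (.sw 1 3 [27,34]) .no) .no .no (.br .no .no (.br .no (.br .no .no (.br .no .no .no (.br .no .no (.de 46) .no)) (.br .no .no (.br .no .no .no (.br .no .no (.br .no (.sw 0 3 [40]) .no .no) .no)) .no)) (.br .no .no .no (.br .no .no (.br .no .no .no (.br .no .no (.br .no (.sw 0 3 [40]) .no .no) .no)) .no)) .no) .no)) .no .no) .no .no .no) .no .no) (.sy 29 75 7) .no .no)) .no .no) .no)) .no)) .no) (.br (.br .no .no (.br .no .no .no (.br .no .no (.br .no (.br (.sw 2 3 [7,8,9,10,17,18,19,20,21,22,27]) .no .no .no) .no .no) .no)) (.br .no .no (.br .no .no .no (.br .no (.br (.sw 2 3 [7,8,9,10,17,18,19,20,21,22,27]) .no .no .no) (.br (.sw 1 3 [27]) .no .no .no) .no)) .no)) .no (.br .no .no .no (.br .no .no (.br .no .no .no (.br .no (.br (.br (.br .no (.br (.br .no (.br (.sw 2 3 [7,8,9,10,17,18,19,20,21,22,27,29,30,31,32]) .no (.br .no .no .no (.de 46)) .no) .no .no) .no .no .no) .no .no) .no .no (.br (.br .no (.br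 (.br .no .no (.br .no .no .no (.de 46)) .no) .no .no .no) .no .no) (.sw 0 2 [29]) .no .no)) .no .no .no) (.br (.sw 1 3 [27]) .no .no .no) .no)) .no)) .no) .no .no)) .no .no .no) .no .no) .no .no .no) (.br (.br .no (.br (.br .no (.br (.br .no (.br .no .no .no (.br .no .no (.br .no .no .no (.br .no .no (.br .no .no .no (.br .no .no (.br (.br .no (.br (.br .no (.br (.br .no (.sw 2 3 [7,8,9,10,17,18,19,20,21,22,23,30,31,32,33,34]) .no .no) .no .no .no) .no .no) .no .no .no) .no .no) .no .no .no) (.br (.sw 1 2 [23,29]) .no (.br (.sy 30 30 7) (.br (.br .no (.br (.br .no (.br .no (.br .no .no .no (.sw 0 2 [36])) .no .no) (.br .no (.br .no .no .no (.sw 0 2 [36])) .no .no) .no) .no .no .no) .no .no) .no .no .no) .no .no) .no))) .no)) .no)) .no .no) (.br (.br .no (.br .no .no (.br .no .no .no (.br .no .no (.br (.sw 2 3 [7,8,9,10,17,18,19,20,21,22,23]) .no .no (.br .no .no (.br .no .no .no (.br (.br .no (.br (.br .no (.br (.sw 2 3 [7,8,9,10,17,18,19,20,21,22,23,31,32,33,34]) .no .no .no) .no .no) .no .no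 .no) .no .no) .no .no .no)) (.br .no .no (.br (.br .no (.br (.br .no (.br (.sw 2 3 [7,8,9,10,17,18,19,20,21,22,23,31,32,33,34]) .no (.sw 0 3 [34]) .no) .no .no) .no .no .no) .no .no) .no .no (.de 43)) .no))) .no)) (.br .no .no (.br .no .no .no (.br (.sw 2 3 [7,8,9,10,17,18,19,20,21,22,23]) .no .no .no)) .no)) .no (.sw 1 2 [23])) .no .no .no) .no .no) .no (.br (.br .no (.br .no .no .no (.br .no .no (.br .no .no .no (.br .no (.de 34) (.br .no (.br .no .no (.br (.br .no (.br (.br .no (.br (.sw 2 3 [7,8,9,10,17,18,19,20,21,22,23,27,30,31,32,33]) .no .no (.de 41)) .no .no) .no .no .no) .no .no) .no .no .no) (.br (.sw 1 2 [23,29]) .no (.br (.br .no (.br (.br .no .no .no (.br .no .no (.br .no (.br .no .no .no (.br .no .no (.br .no .no .no (.br .no .no (.br .no (.br (.sw 1 2 [23,29,36,42]) .no .no .no) .no .no) .no)) .no)) .no .no) .no)) .no .no .no) .no .no) (.br (.br .no (.br (.br .no .no (.sw 1 3 [27,34]) .no) .no .no (.br .no .no (.br .no (.br .no .no .no (.sw 0 2 [36])) .no .no) .no)) .no .no) .no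 .no .no) .no .no) .no)) .no .no) .no)) .no)) .no .no) (.br (.br .no (.br .no .no (.br .no .no .no (.br .no (.br (.sw 2 3 [7,8,9,10,17,18,19,20,21,22,23,27]) .no .no .no) (.br (.sw 1 3 [27]) .no .no .no) .no)) (.br .no .no (.br .no (.br (.sw 2 3 [7,8,9,10,17,18,19,20,21,22,23,27]) .no .no .no) .no .no) .no)) .no (.sw 1 2 [23])) .no .no .no) .no .no)) .no .no .no) .no .no) (.br (.br .no (.br .no .no .no (.br (.br .no (.br (.br .no .no (.br .no .no .no (.br (.br .no (.sw 2 3 [7,8,9,10,17,18,19,20,21,22,23,27]) .no .no) .no (.br .no (.br .no .no (.br .no .no .no (.br .no (.br (.br .no (.br (.sw 2 3 [7,8,9,10,17,18,19,20,21,22,23,27,31,32,33]) .no .no (.de 41)) .no .no) .no .no .no) .no .no)) (.br .no .no (.br .no (.br (.br .no (.br (.sw 2 3 [7,8,9,10,17,18,19,20,21,22,23,27,31,32,33]) .no .no (.sw 0 2 [33])) .no .no) .no .no .no) .no (.de 43)) .no)) .no .no) .no)) (.br .no .no (.br (.br .no (.sw 2 3 [7,8,9,10,17,18,19,20,21,22,23,27]) .no .no) .no .no .no) .no)) .no .no (.br .no .no (.br .no .no .no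 (.br (.br .no (.br .no .no (.br (.br .no (.br (.br .no (.sw 2 3 [7,8,9,10,17,18,19,20,21,22,23,27,30,31,32]) (.br .no .no .no (.de 41)) .no) .no .no .no) .no .no) .no .no .no) (.br (.br .no (.br (.br .no (.sw 2 3 [7,8,9,10,17,18,19,20,21,22,23,27,30,31,32]) (.br .no .no .no (.de 46)) .no) .no .no .no) .no .no) .no (.br (.br .no (.br .no .no (.br .no .no .no (.de 46)) .no) .no .no) (.sw 0 3 [30]) .no .no) .no)) .no .no) .no (.sw 0 1 [24,25,26]) .no)) .no)) .no .no) (.br (.br .no .no .no (.br .no .no (.br .no .no .no (.br (.de 34) .no (.sw 0 1 [24,25,26]) .no)) .no)) .no .no .no) .no .no)) .no .no) .no .no .no) .no .no) .no)) (.br .no .no (.br .no (.br (.br .no (.br (.br .no (.sw 2 3 [7,8,9,10,17,18,19,20]) .no .no) .no .no .no) .no .no) .no .no .no) .no .no) .no)) .no)) .no)) .no .no .no) .no .no) (.br (.br .no (.br (.br .no .no (.br .no .no .no (.br (.sw 2 3 [7,8,9,10]) .no (.br .no .no (.br .no .no .no (.br .no .no (.br .no (.br (.br .no (.br (.sw 2 3 [7,8,9,10,18,19,20]) .no .no (.sw 0 2 [20]))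 .no .no) .no .no .no) .no (.br (.br .no (.br (.br (.br .no (.br (.br .no (.br .no .no (.br .no .no .no (.br .no (.sw 2 3 [7,8,9,10,18,19,20,21,22,23,24]) .no .no)) (.br .no .no (.br .no (.sw 2 3 [7,8,9,10,18,19,20,21,22,23,24]) .no (.br .no .no (.br .no .no .no (.br .no .no (.de 43) .no)) (.br .no .no (.br .no .no .no (.de 43)) .no))) .no)) (.sw 1 3 [24]) .no) .no .no .no) .no .no) (.br (.br .no (.br .no .no (.br .no .no .no (.br .no .no (.br .no .no .no (.br .no .no (.br .no .no .no (.br (.br .no (.br (.br .no (.br (.sw 2 3 [7,8,9,10,18,19,20,21,22,23,24,31,32,33,34]) .no .no .no) .no .no) .no .no .no) .no .no) .no .no .no)) (.br .no .no (.br (.sw 1 3 [24,30]) .no .no (.de 43)) .no))) .no)) .no) .no .no) .no .no .no) .no .no) .no .no (.sw 0 2 [20])) .no .no) (.br (.br .no .no .no (.br (.br .no (.br (.br .no .no (.br .no .no .no (.br .no (.de 34) (.sw 0 1 [25,26]) .no)) .no) .no .no .no) .no .no) (.br (.br .no (.br (.br .no .no (.br .no (.br (.sw 2 3 [7,8,9,10,18,19,20,21,22,23,24,27]) .no .no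 .no) .no .no) (.br .no (.sw 0 2 [20,26]) (.br (.br .no .no (.br .no .no .no (.br .no .no (.de 43) .no)) (.br .no .no (.br .no .no .no (.de 43)) .no)) .no .no .no) .no)) .no (.br .no .no .no (.br .no (.sw 0 2 [20,26]) (.sw 0 1 [25,26]) .no)) .no) .no .no) .no .no .no) .no .no)) .no .no .no) .no .no)) .no)) (.br .no .no (.br .no .no .no (.br .no (.br (.br .no (.br (.sw 2 3 [7,8,9,10,18,19,20]) .no .no .no) .no .no) .no .no .no) .no .no)) .no)) .no)) (.br .no .no (.br (.sw 2 3 [7,8,9,10]) .no .no .no) .no)) .no .no (.br .no .no (.br .no .no .no (.br (.br .no .no (.br .no .no .no (.br (.br .no (.br (.br .no (.sw 2 3 [7,8,9,10,17,18,19]) (.br .no .no .no (.br (.br .no (.br .no .no (.br .no .no .no (.br .no (.br (.br .no (.sw 2 3 [7,8,9,10,17,18,19,21,22,26,27]) .no .no) .no .no .no) .no .no)) (.br .no .no (.br .no (.br (.br .no (.sw 2 3 [7,8,9,10,17,18,19,21,22,26,27]) .no .no) .no .no .no) .no (.br (.sw 1 2 [26]) (.de 34) .no .no)) .no)) (.br .no .no .no (.br .no .no (.br .no (.br (.br .no (.br .no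 (.br (.br .no (.br (.sw 2 3 [7,8,9,10,17,18,19,21,22,26,27,29,30,31]) .no .no (.br .no .no (.de 45) .no)) .no .no) .no .no .no) .no (.br (.sw 1 2 [29]) (.br (.br .no .no .no (.br .no .no (.de 45) .no)) .no .no .no) .no .no)) .no .no) .no .no .no) .no (.br (.sw 1 2 [26]) (.de 34) .no .no)) .no)) .no) (.br .no .no (.br .no .no .no (.br .no .no (.br .no (.br (.de 34) .no .no .no) .no (.br (.de 34) (.br (.br (.br .no (.br (.br .no (.br (.sw 2 3 [7,8,9,10,17,18,19,21,22,26,27,29,30,31,32]) .no (.br .no .no .no (.de 46)) .no) .no .no) .no .no .no) .no .no) .no .no (.br (.br .no (.br (.br .no .no (.br .no .no .no (.de 46)) .no) .no .no .no) .no .no) (.br (.br .no (.br (.br .no .no (.de 41) (.sw 1 2 [26,33])) .no (.br .no .no .no (.de 46)) .no) .no .no) .no .no .no) .no .no)) .no .no .no) .no .no)) .no)) .no) .no .no)) .no) .no .no .no) .no .no) .no (.br (.br .no (.br .no .no (.br .no .no .no (.br (.br .no (.br .no .no .no (.br .no .no (.br (.br .no (.de 34) .no .no) .no .no (.br (.sy 26 78 7) (.de 34)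 .no .no)) .no)) .no .no) (.br (.br .no (.br .no .no (.sw 0 3 [17,24]) (.br (.br .no (.br (.sw 2 3 [7,8,9,10,17,18,19,21,22,23,26,27]) .no .no .no) .no .no) .no .no .no)) .no (.br .no .no (.br (.br .no (.br (.br .no .no (.br .no (.de 42) .no .no) (.br .no (.br (.br .no (.sw 2 3 [7,8,9,10,17,18,19,21,22,23,26,27,30,31]) .no (.br .no .no (.de 45) .no)) .no .no .no) (.br (.sw 1 3 [30]) (.br .no .no .no (.br .no .no (.de 45) .no)) .no .no) .no)) .no .no .no) .no .no) .no .no (.br (.de 34) (.br (.br .no .no (.br .no (.de 42) .no .no) (.br .no (.br (.br .no (.br (.sw 2 3 [7,8,9,10,17,18,19,21,22,23,26,27,30,31,32]) .no (.sw 0 3 [32]) .no) .no .no) .no .no .no) (.br (.sw 1 3 [30]) (.br (.br .no .no (.br .no .no .no (.de 46)) .no) .no .no .no) .no .no) .no)) .no .no .no) .no .no)) .no)) .no .no .no) .no .no)) .no) .no .no) (.sw 0 3 [17]) .no .no) .no)) (.br .no .no (.br (.br .no (.br (.br .no (.sw 2 3 [7,8,9,10,17,18,19]) (.de 27) .no) .no .no .no) .no .no) .no .no .no) .no)) .no (.br .no .no (.br .no .no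 .no (.br (.br .no (.br (.br .no (.br (.sw 2 3 [7,8,9,10,17,18,19,20]) .no .no (.sw 0 2 [20])) .no .no) .no .no .no) .no .no) .no (.br (.br .no (.br (.br .no .no .no (.sw 0 1 [14,15,16])) .no .no .no) .no .no) (.sw 0 3 [17]) .no .no) .no)) (.br .no .no (.br (.br .no (.br (.br .no (.br (.sw 2 3 [7,8,9,10,17,18,19,20]) .no .no .no) .no .no) .no .no .no) .no .no) .no .no .no) .no)) .no)) .no)) .no .no) .no .no .no) .no .no) (.br (.br .no (.br (.br .no .no .no (.br .no .no (.br .no (.de 20) .no (.br .no (.sy 13 75 7) .no .no)) .no)) .no .no .no) .no .no) (.br (.br .no (.br (.br .no .no (.br .no (.br (.sy 19 225 5) .no .no .no) .no (.br (.sw 1 2 [13]) .no .no .no)) (.br .no (.br (.sy 19 225 5) .no .no .no) .no .no)) .no .no (.br .no .no (.br .no (.br (.br .no .no (.br .no .no .no (.br (.br .no (.br (.br .no .no (.br .no .no .no (.sy 19 177 13)) (.de 27)) .no .no (.br .no .no (.br .no .no .no (.br (.br .no (.br .no .no (.br (.br .no (.br (.br .no (.sy 31 228 5) .no .no) .no .no .no) .no .no) .no .no .no)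 (.br (.br .no (.br (.br .no (.sy 31 228 5) .no .no) .no .no .no) .no .no) .no (.br (.sy 25 30 7) (.sw 0 3 [25]) .no .no) .no)) (.br .no .no .no (.br (.br .no (.br (.br .no (.br .no (.br (.br .no (.br .no .no (.sy 31 228 7) (.br .no .no (.de 45) .no)) (.br .no .no .no (.de 44)) .no) .no .no .no) .no (.br (.sw 1 2 [29]) (.br .no .no (.br .no .no .no (.de 44)) .no) .no .no)) .no .no) .no .no .no) .no .no) .no (.br (.sy 25 30 7) (.sw 0 3 [25]) .no .no) .no)) .no) (.br .no .no (.br .no .no .no (.br (.br .no (.br (.de 34) .no .no .no) .no .no) .no (.br (.sy 25 30 7) (.sw 0 3 [25]) .no .no) .no)) .no) .no .no)) .no)) .no .no) .no (.br (.br .no .no .no (.br .no .no (.br .no .no .no (.sy 25 30 5)) .no)) (.sw 0 3 [17]) .no .no) .no)) (.br .no .no (.br (.br .no (.br (.br .no .no (.de 27) (.sy 19 177 7)) .no .no (.br .no .no (.de 27) .no)) .no .no) .no .no .no) .no)) .no .no .no) .no (.br (.sw 1 2 [13]) .no .no .no)) .no)) .no .no) .no .no .no) .no .no) .no)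

theorem P0_1 : R.S 6 2116 :=
  R.piece L hL (.br .no (.sy 6 225 5) .no (.br .no .no (.br .no .no .no (.br .no .no (.br .no .no .no (.br .no (.br (.br .no (.br (.br .no (.br (.br .no .no (.br .no .no .no (.br .no .no (.br .no .no .no (.br .no .no (.br .no .no .no (.br .no (.br (.br .no (.br (.br .no (.br (.br .no .no (.br .no .no .no (.br .no .no (.br .no .no .no (.br .no .no (.br .no .no .no (.sy 29 78 5)) .no)) .no)) .no) (.br (.br .no .no (.br .no .no .no (.br .no .no (.br .no .no .no (.br (.br .no .no (.br .no (.de 42) .no (.br (.br .no (.br (.br .no (.br .no .no .no (.de 47)) (.br .no .no .no (.br .no (.br .no .no (.br .no .no .no (.br .no .no (.br .no .no .no (.br .no (.br (.sw 1 2 [5,11,17,23,30,40,47]) .no .no .no) .no .no)) .no)) .no) .no .no)) .no) .no .no .no) .no .no) (.br (.br .no (.br .no .no (.br .no .no .no (.br .no (.br .no .no (.br .no .no .no (.br .no .no (.br .no .no .no (.sw 0 1 [37,38,39])) .no)) .no) .no .no)) .no) .no .no) .no .no .no) .no .no)) (.br .no (.br (.br .no (.br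 (.br .no (.br .no .no (.br .no .no (.br .no .no .no (.br .no .no (.br .no .no .no (.br .no .no (.br .no .no .no (.sy 42 78 5)) .no)) .no)) .no) .no) (.de 41) .no) .no .no .no) .no .no) .no .no .no) .no .no)) .no .no .no)) .no)) (.br .no .no (.br .no .no .no (.br .no .no (.br (.br .no .no (.br .no (.de 42) .no .no) (.br .no (.br (.br .no (.br (.br .no (.sw 2 3 [30,31,32,33]) .no (.br .no .no (.br .no .no (.br .no .no .no (.br .no .no (.br .no .no .no (.br .no .no (.br .no (.br (.sw 1 3 [40,47]) .no .no .no) .no .no) .no)) .no)) .no) .no)) .no .no .no) .no .no) .no .no .no) (.br (.br .no (.br (.br .no (.br .no .no (.br .no (.br .no .no .no (.br .no .no (.br .no .no .no (.br .no .no (.br .no .no .no (.br (.sw 1 2 [36,42]) .no .no .no)) .no)) .no)) .no .no) .no) .no (.br .no .no (.br .no (.br .no .no .no (.br .no .no (.br .no .no .no (.br .no .no (.br .no (.br (.sw 1 2 [36,42]) .no .no .no) .no .no) .no)) .no)) .no .no) .no)) .no .no .no) .no .no) (.br (.br .no (.br .no .no .no (.br .no .no (.br .no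 (.br .no .no .no (.br .no .no (.br .no .no .no (.br .no .no (.sw 0 1 [37,38,39]) .no)) .no)) .no .no) .no)) .no .no) .no .no .no) .no .no) .no)) .no .no (.br .no .no (.br .no (.de 42) .no .no) (.br .no (.br (.br .no (.br (.br .no (.br (.sy 36 225 5) .no (.sw 0 3 [34]) .no) .no .no) .no .no .no) .no .no) .no .no .no) (.br (.br .no (.br (.br .no (.br (.br .no (.de 48) .no .no) .no (.sw 0 3 [34]) .no) .no .no) .no .no .no) .no .no) (.br (.br .no (.br (.br .no .no (.br .no (.br .no .no .no (.br .no .no (.br .no .no .no (.br .no .no (.br .no (.sw 0 3 [34,40]) .no (.sw 0 1 [37,38,39,40])) .no)) .no)) .no .no) .no) .no .no .no) .no .no) .no .no .no) .no .no) .no))) .no)) .no)) .no (.br .no .no .no (.br .no .no (.br .no .no .no (.br .no .no (.br (.br (.br .no (.br (.br .no (.br (.br .no (.sy 35 228 5) .no (.br .no .no (.br .no .no (.br .no .no .no (.br .no .no (.br .no .no .no (.br .no .no (.br .no (.de 48) .no .no) .no)) .no)) .no) .no)) .no .no .no) .no .no) .no .no .no) .no .no) .no .no (.br (.br .no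 (.br (.br .no (.br .no .no .no (.br .no .no (.br .no (.br .no .no (.br .no .no .no (.br .no .no (.de 46) .no)) (.sw 0 2 [29,36])) (.br .no .no .no (.br .no .no (.br .no .no .no (.br .no .no (.br .no (.br (.sw 1 2 [42]) .no .no .no) .no .no) .no)) .no)) .no) .no)) .no .no) .no .no .no) .no .no) (.sw 0 2 [29]) .no .no)) .no .no (.sy 29 78 5)) .no)) .no)) .no) .no .no) .no .no) .no .no .no) .no .no) .no .no .no) .no .no)) (.br .no .no c0_1_0 .no))) .no)) .no) .no .no .no) .no .no) (.br (.br .no (.br c0_1_1 .no (.br .no .no .no (.br .no .no c0_1_2 .no)) .no) .no .no) .no .no .no) .no .no) .no .no) .no .no .no) .no .no)) .no)) (.br .no .no (.br .no .no .no (.br .no .no (.br .no (.br c0_1_3 .no .no .no) .no (.br (.br .no (.br (.sy 7 30 7) (.br (.br .no (.br (.br .no (.br .no .no (.br (.sy 20 228 5) .no .no .no) (.br (.sy 20 228 5) .no (.br .no .no (.br .no .no .no (.br .no .no (.br .no .no .no (.br (.sy 14 177 11) .no (.br (.sy 7 30 19) (.br (.br (.br .no (.br (.br .no (.br (.br .no .no (.br .no (.sy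 34 225 5) .no (.br .no .no (.sy 28 228 7) (.br .no .no (.br .no .no .no (.de 43)) .no))) (.sy 14 177 19)) .no .no (.sw 0 2 [25])) .no .no) .no .no .no) .no .no) (.sy 21 75 7) .no .no) .no .no (.sw 0 2 [20])) .no .no) .no)) .no)) (.sy 14 177 7)) .no)) (.sw 1 3 [11]) .no) .no .no .no) .no .no) .no .no .no) .no .no) (.sy 13 78 5) .no) (.br .no .no (.sy 13 78 5) .no) .no .no)) .no)) .no))) 6 2116 4096 (by norm_num) (by norm_num) (by norm_num) (by decide +kernel)

def c0_2_0 : Cert := (.br .no (.br (.br .no (.br .no .no (.br (.br .no (.br .no .no (.de 34) (.br .no .no (.br .no .no (.br (.br .no (.br .no .no (.br (.br .no (.br .no .no .no (.de 47)) .no .no) .no .no .no) (.br (.br .no (.br .no .no .no (.de 47)) .no .no) .no (.de 45) .no)) .no (.br .no .no (.de 44) .no)) .no .no (.br .no (.br .no .no (.br (.br .no (.br .no .no .no (.de 47)) .no .no) .no .no .no) (.br (.br .no (.br .no .no .no (.de 47)) .no .no) .no (.de 45) .no)) .no .no)) (.br (.br .no (.br .no .no (.br (.br .no (.de 41) .no .no) .no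 .no .no) (.br (.br .no (.de 41) .no .no) .no (.de 45) .no)) .no (.br .no .no (.de 44) .no)) .no .no .no)) .no)) (.br .no .no .no (.br .no .no (.br .no .no (.br (.br .no (.br .no .no .no (.br (.sw 1 2 [32]) (.br (.br .no (.br .no (.br .no .no (.de 44) (.br .no .no (.de 45) .no)) .no (.de 48)) .no (.br .no (.de 48) .no (.br .no .no (.de 44) .no))) .no .no .no) .no .no)) .no (.br .no (.br (.br .no (.br .no .no .no (.de 47)) .no .no) .no .no .no) .no .no)) .no .no (.br .no (.br .no .no .no (.br (.sw 1 2 [32]) (.br (.br .no (.br .no (.br .no .no (.de 44) .no) .no .no) .no (.br .no (.de 48) .no .no)) .no .no .no) .no .no)) .no .no)) (.br (.br .no (.br .no .no .no (.br (.sw 1 2 [32]) (.br (.br .no (.de 48) .no .no) .no .no .no) .no .no)) .no (.br .no (.br (.br .no (.de 41) .no .no) .no .no .no) .no .no)) .no .no .no)) .no)) .no) .no .no .no) (.br (.br .no (.br .no .no (.de 34) (.br .no .no (.br .no .no (.br (.br .no (.sw 2 3 [30]) (.br .no .no .no (.de 44)) .no) .no .no .no) (.br (.br .no (.sw 2 3 [30])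 (.br .no .no .no (.de 44)) .no) .no (.br .no (.br .no .no (.br (.br .no (.de 41) .no .no) .no .no .no) (.br (.br .no (.de 41) .no .no) .no (.de 45) .no)) .no .no) .no)) .no)) (.br .no .no .no (.br .no .no (.br .no .no (.br (.br .no (.sw 2 3 [30]) (.br .no (.br (.br .no (.br .no .no .no (.de 47)) .no .no) .no .no .no) .no (.de 44)) .no) .no .no .no) (.br (.br .no (.sw 2 3 [30]) (.br .no (.br (.br .no (.de 41) .no .no) .no .no .no) .no (.de 44)) .no) .no (.br .no (.br .no .no .no (.br (.sw 1 2 [32]) (.br (.br .no (.de 48) .no .no) .no .no .no) .no .no)) .no .no) .no)) .no)) .no) .no (.br .no (.br .no .no (.de 34) (.br .no .no (.br .no .no (.br (.br .no (.br (.br .no .no (.br (.br .no (.br .no (.br .no .no (.br .no .no .no (.de 45)) (.br .no .no (.br .no .no .no (.de 46)) .no)) .no (.de 48)) .no (.br .no (.de 48) .no (.br .no .no (.br .no .no .no (.de 45)) .no))) (.br .no .no .no (.de 47)) .no .no) .no) .no .no (.sw 0 2 [31])) .no .no) .no .no .no) (.br (.br .no (.br (.br .no .no (.br (.br .no (.de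 48) .no .no) (.de 41) .no .no) .no) .no .no (.sw 0 2 [31])) .no .no) .no (.br (.br .no .no .no (.br (.br .no (.de 41) .no .no) .no (.de 45) .no)) (.br (.br .no .no (.br (.br .no (.de 48) .no .no) (.de 41) .no .no) .no) .no .no (.sw 0 2 [31])) .no .no) .no)) .no)) .no .no) .no)) .no (.br .no .no (.br (.br .no (.br .no .no (.de 34) (.br .no .no (.br .no (.br (.br .no (.br .no .no (.br (.br .no (.br .no .no .no (.de 47)) .no .no) .no .no .no) (.br (.br .no (.br .no .no .no (.de 47)) .no .no) .no (.de 45) .no)) .no (.br .no .no (.de 44) .no)) .no .no .no) (.br (.sw 1 3 [29]) (.br .no .no .no (.br .no .no (.de 44) .no)) .no .no) .no) .no)) (.br .no .no .no (.br .no .no (.br .no (.br (.br .no (.br .no .no .no (.br (.sw 1 2 [32]) (.br (.br .no .no .no (.de 48)) .no .no .no) .no .no)) .no (.br .no (.br (.br .no (.br .no .no .no (.de 47)) .no .no) .no .no .no) .no .no)) .no .no .no) (.br (.sw 1 3 [29]) (.br .no .no .no (.br .no (.br (.br .no (.br .no .no .no (.de 47)) .no .no) .no .no .no) .no .no)) .no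 .no) .no) .no)) .no) .no .no .no) .no)) (.br .no .no .no (.br .no .no (.br (.br .no (.br .no .no (.br (.br (.br .no (.br .no .no .no (.br .no .no (.de 44) .no)) .no .no) .no (.br (.br .no (.br .no .no (.br (.br .no (.br .no .no .no (.de 47)) .no (.de 41)) .no .no (.de 45)) (.br (.br .no (.br .no .no .no (.de 47)) .no (.de 41)) .no .no .no)) .no (.br .no .no (.de 44) .no)) (.br .no .no .no (.br .no .no (.de 44) .no)) .no .no) .no) .no .no .no) (.br (.br (.br .no (.br .no .no .no (.br .no .no (.de 44) .no)) .no .no) .no (.br (.br .no (.br .no .no (.br (.br .no (.sw 2 3 [33]) (.br .no .no .no (.br .no (.de 48) .no (.br .no .no (.br .no .no .no (.de 45)) .no))) .no) .no .no .no) (.br (.br .no (.sw 2 3 [33]) (.br .no .no .no (.br .no (.de 48) .no (.br .no .no (.de 44) .no))) .no) .no (.de 45) .no)) .no (.br .no .no (.de 44) .no)) (.br .no .no .no (.br .no .no (.de 44) .no)) .no .no) .no) .no (.br (.br .no (.br .no .no .no (.br .no .no (.de 44) .no)) .no .no) .no (.br (.br .no (.br .no .no (.br (.br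 .no (.br (.br .no (.br .no .no (.br .no .no .no (.de 45)) (.de 44)) .no (.br .no .no (.br .no .no .no (.de 45)) .no)) .no .no (.de 47)) .no .no) .no .no .no) (.br (.br .no (.br (.br .no (.br .no .no (.de 44) (.br .no .no (.de 45) .no)) .no (.br .no .no (.de 44) .no)) .no .no (.de 47)) .no .no) .no (.de 45) .no)) .no (.br .no .no (.de 44) .no)) (.br .no .no .no (.br .no .no (.de 44) .no)) .no .no) .no) .no)) (.br .no .no .no (.br (.br (.br .no (.br .no .no .no (.br .no (.br (.br .no (.br .no .no (.br .no .no .no (.br .no .no (.de 44) .no)) (.de 47)) (.br .no .no .no (.br .no .no .no (.br .no .no (.de 44) .no))) .no) .no .no .no) .no .no)) .no .no) .no (.br (.br .no (.br .no .no .no (.br (.sw 1 2 [32]) (.br .no .no (.br .no .no .no (.br .no (.de 48) .no (.br .no .no (.de 44) .no))) .no) .no .no)) .no (.br .no (.br (.br .no (.br .no .no .no (.de 47)) (.br .no .no .no (.br .no (.de 48) .no (.br .no .no (.de 44) .no))) .no) .no .no .no) .no .no)) (.br .no .no .no (.br .no (.br (.br .no (.br .no .no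 .no (.de 47)) (.br .no .no .no (.br .no .no .no (.br .no .no (.de 44) .no))) .no) .no .no .no) .no .no)) .no .no) .no) .no (.br (.br .no (.br .no .no .no (.br .no (.br (.br .no (.br .no .no .no (.de 47)) .no .no) .no .no .no) .no .no)) .no .no) .no (.br (.br .no (.br .no .no .no (.br (.sw 1 2 [32]) (.br (.br .no .no .no (.sw 0 1 [28])) .no .no .no) .no .no)) .no (.br .no (.br (.br .no (.br (.br .no (.br .no .no (.de 44) .no) .no (.br .no .no (.de 44) .no)) .no .no (.de 47)) .no .no) .no .no .no) .no .no)) (.br .no .no .no (.br .no (.br (.br .no (.br (.br .no .no .no (.br .no .no (.de 44) .no)) .no .no (.de 47)) .no .no) .no .no .no) .no .no)) .no .no) .no) .no)) .no) .no .no .no) .no)) .no .no) (.br (.br .no (.br .no .no (.br (.br .no (.br .no .no .no (.br .no (.br .no .no (.br (.br .no (.br .no .no (.br (.br .no .no (.br .no .no .no (.br .no (.de 48) .no (.br .no .no (.br .no .no .no (.de 45)) .no))) .no) .no .no .no) (.br (.br .no .no (.br .no .no .no (.br .no (.de 48) .no (.br .no .no (.de 44)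 .no))) .no) .no (.de 45) .no)) .no (.br .no .no (.de 44) .no)) .no .no (.br .no (.br .no .no (.br (.br .no .no (.br .no .no .no (.br .no (.de 48) .no .no)) .no) .no .no .no) (.br (.br .no .no (.br .no .no .no (.br .no (.de 48) .no .no)) .no) .no (.de 45) .no)) .no .no)) (.br (.br .no (.br .no .no (.br (.br .no .no (.de 41) .no) .no .no .no) (.br (.br .no .no (.de 41) .no) .no (.de 45) .no)) .no (.br .no .no (.de 44) .no)) .no .no .no)) .no .no)) (.br .no (.de 34) .no (.br .no (.br .no .no (.br (.br .no (.br .no .no .no (.br (.sw 1 2 [32]) (.br (.br .no .no .no (.sw 1 2 [27,34])) .no (.br .no .no .no (.br .no (.de 48) .no (.br .no .no (.de 44) .no))) .no) .no .no)) .no (.br .no (.br (.br .no .no (.br .no .no .no (.br .no (.de 48) .no (.br .no .no (.de 44) .no))) .no) .no .no .no) .no .no)) .no .no (.br .no (.br .no .no .no (.br (.sw 1 2 [32]) (.br (.br .no .no .no (.sw 1 2 [27,34])) .no (.br .no .no .no (.br .no (.de 48) .no .no)) .no) .no .no)) .no .no)) (.br (.br .no (.br .no .no .no (.br (.sw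 1 2 [32]) (.br (.br .no .no (.br .no (.de 48) .no .no) .no) .no (.de 41) .no) .no .no)) .no (.br .no (.br (.br .no .no (.de 41) .no) .no .no .no) .no .no)) .no .no .no)) .no .no)) .no) .no .no .no) (.br (.br .no (.br .no .no .no (.br .no (.br .no .no (.br (.br .no (.sw 2 3 [30]) (.br .no .no .no (.de 44)) .no) .no .no .no) (.br (.br .no (.sw 2 3 [30]) (.br .no .no .no (.de 44)) .no) .no (.br .no (.br .no .no (.br (.br .no .no (.de 41) .no) .no .no .no) (.br (.br .no .no (.de 41) .no) .no (.de 45) .no)) .no .no) .no)) .no .no)) (.br .no (.de 34) .no (.br .no (.br .no .no (.br (.br .no (.sw 2 3 [30]) (.br .no (.br (.br .no .no (.br .no .no .no (.br .no (.de 48) .no (.de 43))) .no) .no .no .no) .no (.de 44)) .no) .no .no .no) (.br (.br .no (.sw 2 3 [30]) (.br .no (.br (.br .no .no (.de 41) .no) .no .no .no) .no (.de 44)) .no) .no (.br .no (.br .no .no .no (.br (.sw 1 2 [32]) (.br (.br .no .no (.br .no (.de 48) .no .no) .no) .no (.de 41) .no) .no .no)) .no .no) .no)) .no .no)) .no) .no (.br .no (.br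 .no .no .no (.br .no (.br .no .no (.br (.br .no (.br (.br .no .no (.br (.br .no .no .no (.sw 1 2 [27,34])) .no .no .no) .no) .no .no (.sw 0 2 [31])) .no .no) .no .no .no) (.br (.br .no (.br (.br .no .no (.br (.br .no .no (.br .no (.de 48) .no .no) .no) .no .no .no) .no) .no .no (.sw 0 2 [31])) .no .no) .no (.br (.br .no .no .no (.br (.br .no .no (.de 41) .no) .no (.de 45) .no)) (.br (.br .no .no (.br (.br .no .no (.br .no (.de 48) .no .no) .no) .no .no .no) .no) .no .no (.sw 0 2 [31])) .no .no) .no)) .no .no)) .no .no) .no)) .no (.br .no .no (.br (.br .no (.br .no .no .no (.br .no (.br .no (.br (.br .no (.br .no .no (.br (.br .no .no (.br .no .no .no (.de 48)) .no) .no .no .no) (.br (.br .no .no (.br .no .no .no (.de 48)) .no) .no (.de 45) .no)) .no (.br .no .no (.de 44) .no)) .no .no .no) (.br (.sw 1 3 [29]) (.br .no .no .no (.br .no .no (.de 44) .no)) .no .no) .no) .no .no)) (.br .no (.de 34) .no (.br .no (.br .no (.br (.br .no (.br .no .no .no (.br (.sw 1 2 [32]) (.br (.br .no .no (.br .no .no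 .no (.de 48)) (.de 48)) .no (.br .no .no .no (.de 48)) .no) .no .no)) .no (.br .no (.br (.br .no .no (.br .no .no .no (.de 48)) .no) .no .no .no) .no .no)) .no .no .no) (.br (.sw 1 3 [29]) (.br .no .no .no (.br .no (.br (.br .no .no (.br .no .no .no (.br .no .no .no (.br .no .no (.de 44) .no))) .no) .no .no .no) .no .no)) .no .no) .no) .no .no)) .no) .no .no .no) .no)) (.br .no .no .no (.br .no .no (.br (.br .no (.br .no .no .no (.br (.sw 1 2 [27]) .no .no .no)) (.br .no (.br (.br (.br .no (.br .no .no .no (.br .no (.br (.br .no .no (.br .no .no .no (.br .no .no .no (.br .no .no (.de 44) .no))) (.de 46)) .no .no (.br .no .no (.br .no .no .no (.br .no .no .no (.br .no .no (.de 44) .no))) .no)) .no .no)) .no .no) .no (.br (.br .no (.br .no .no .no (.br (.br .no .no (.br .no .no .no (.br .no (.de 48) .no (.br .no .no (.de 44) .no))) (.de 41)) .no .no .no)) .no (.br .no (.br (.br .no .no (.br .no .no .no (.br .no (.de 48) .no (.br .no .no (.de 44) .no))) (.de 41)) .no .no (.br .no .no (.br .no .no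 .no (.br .no (.de 48) .no (.br .no .no (.de 44) .no))) .no)) .no .no)) (.br .no .no .no (.br .no (.br (.br .no .no (.br .no .no .no (.br .no .no .no (.br .no .no (.de 44) .no))) (.de 41)) .no .no (.br .no .no (.br .no .no .no (.br .no .no .no (.br .no .no (.de 44) .no))) .no)) .no .no)) .no .no) .no) .no .no .no) .no (.br (.sw 1 2 [27]) .no .no .no)) .no) .no .no .no) .no)) .no .no) .no)

def c0_2_1 : Cert := (.br (.br .no (.br .no .no .no (.br c0_2_0 (.br .no .no (.br (.br .no (.br .no .no (.br (.br .no .no (.br (.br .no (.br .no .no (.br (.br .no (.br .no .no .no (.br .no (.br .no .no (.br .no .no .no (.br .no (.de 48) .no (.br .no .no (.de 44) .no))) (.de 41)) .no .no)) .no (.br .no (.br .no .no .no (.br .no .no (.br .no .no .no (.br .no (.de 48) .no (.br .no .no (.de 44) .no))) .no)) .no .no)) .no .no (.br .no (.br .no .no .no (.br .no (.br .no .no (.br .no .no .no (.br .no (.de 48) .no .no)) (.de 41)) .no .no)) .no .no)) (.br (.br .no (.br .no .no .no (.br .no (.br .no .no (.de 41) (.br .no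 .no (.br .no (.de 48) .no .no) .no)) .no .no)) .no (.br .no (.br .no .no .no (.br .no .no (.de 41) .no)) .no .no)) .no .no .no)) .no .no) .no .no (.sw 0 1 [26])) .no) .no .no .no) (.br (.br .no .no (.br (.br .no (.br .no .no (.br (.br .no (.sw 2 3 [30]) (.br .no (.br .no .no .no (.br .no .no (.br .no .no .no (.br .no (.de 48) .no (.de 43))) .no)) .no (.de 44)) .no) .no .no .no) (.br (.br .no (.sw 2 3 [30]) (.br .no (.br .no .no .no (.br .no .no (.de 41) .no)) .no (.de 44)) .no) .no (.br .no (.br .no .no .no (.br .no (.br .no .no (.de 41) (.br .no .no (.br .no (.de 48) .no .no) .no)) .no .no)) .no .no) .no)) .no .no) .no .no (.sw 0 1 [26])) .no) .no (.br (.br .no .no .no (.br .no (.br .no .no (.br (.br .no (.br .no .no .no (.br .no (.sw 0 2 [31,32]) (.de 45) .no)) .no .no) .no .no .no) (.br (.br .no (.br .no .no .no (.br .no (.sw 0 2 [31,32]) (.de 45) .no)) .no .no) .no (.br (.br .no (.br .no .no (.br (.br .no .no (.br .no (.de 48) .no .no) .no) .no .no .no) .no) .no (.br .no (.br (.br .no .no (.br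 .no (.de 48) .no .no) .no) .no (.de 41) .no) (.de 45) .no)) (.br .no .no .no (.br .no (.sw 0 2 [31,32]) (.de 45) .no)) .no .no) .no)) .no .no)) .no .no .no) .no)) .no (.br .no .no (.br (.br .no .no (.br (.br .no (.br .no (.br (.br .no (.br .no .no .no (.br .no (.br .no .no (.br .no .no .no (.de 48)) (.br .no .no (.br .no .no .no (.de 48)) .no)) .no .no)) .no (.br .no (.br .no .no .no (.br .no .no (.br .no .no .no (.de 48)) .no)) .no .no)) .no .no .no) (.br (.sw 1 3 [29]) (.br .no .no .no (.br .no (.br .no .no .no (.br .no .no (.br .no .no .no (.sw 0 1 [26,28,33,34])) .no)) .no .no)) .no .no) .no) .no .no) .no .no (.sw 0 1 [26])) .no) .no .no .no) .no)) (.br .no .no .no (.br .no .no (.br (.br .no .no (.br (.de 34) .no .no (.sw 0 1 [26])) .no) .no .no .no) .no)) .no .no) .no) .no .no)) .no (.br .no (.br (.br .no (.br (.br .no (.br .no .no (.br (.br .no .no (.sw 1 3 [24,25]) (.br .no .no (.de 34) .no)) .no .no .no) .no) .no (.br .no (.br (.br .no .no (.br .no .no .no (.br .no .no (.br .no (.br (.br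 .no .no (.br .no (.br (.br .no (.br .no .no .no (.de 47)) .no .no) .no .no .no) .no (.de 44)) (.br .no (.br (.br .no (.br .no .no .no (.de 47)) .no .no) .no .no .no) .no .no)) .no (.br .no .no .no (.de 43)) .no) (.br (.br .no .no (.sw 1 3 [24,25,29,30]) (.br .no (.br (.br .no (.br .no .no .no (.de 47)) .no .no) .no .no .no) .no .no)) .no .no .no) .no) .no)) (.br .no .no (.de 34) .no)) .no (.br .no .no .no (.br .no .no (.de 34) .no)) .no) (.br (.br .no .no (.sw 1 3 [24,25]) (.br .no .no (.de 34) .no)) .no .no .no) .no)) (.br .no .no .no (.br .no (.br (.br .no .no (.br .no .no .no (.br (.br (.br .no .no (.br .no .no .no (.de 43)) .no) .no (.br (.br .no .no (.br .no (.br (.br .no (.br .no .no .no (.de 47)) (.br .no .no .no (.br .no (.de 48) .no (.de 43))) .no) .no .no .no) .no (.de 44)) (.br .no (.br (.br .no (.br .no .no .no (.de 47)) (.br .no .no .no (.br .no (.de 48) .no (.br .no .no (.de 44) .no))) .no) .no .no .no) .no .no)) .no .no .no) .no) .no (.br (.br .no .no (.br .no .no .no (.de 43)) .no)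 .no (.br (.br .no .no (.br .no (.br (.br .no (.br (.br .no (.br .no .no .no (.de 44)) .no (.de 43)) .no .no (.de 47)) .no .no) .no .no .no) .no (.de 44)) (.br .no (.br (.br .no (.br (.br .no (.br .no .no (.de 44) .no) .no (.br .no .no (.de 44) .no)) .no .no (.de 47)) .no .no) .no .no .no) .no .no)) .no .no .no) .no) .no)) (.br .no .no (.br (.br (.br .no .no (.br .no .no .no (.de 43)) .no) .no (.br (.br .no .no (.br .no (.br (.br .no (.sw 2 3 [32,33]) .no (.de 41)) .no .no .no) .no .no) (.br .no (.br (.br .no (.sw 2 3 [32,33]) .no (.de 41)) .no .no .no) (.de 44) .no)) .no .no .no) .no) .no .no .no) .no)) .no (.br .no .no .no (.br .no .no (.br (.br (.br .no .no (.br (.br .no (.br (.br .no (.br .no .no (.br .no (.br .no .no .no (.br .no .no (.br .no .no .no (.de 46)) .no)) .no (.de 43)) (.de 47)) .no (.de 46)) .no .no .no) .no .no) .no .no (.de 43)) .no) .no (.br (.br .no .no .no (.br (.br .no (.br .no .no .no (.de 41)) .no .no) (.sw 0 2 [31]) .no .no)) .no .no .no) .no) .no .no .no) .no)) .no) (.br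 (.br .no .no (.sw 1 3 [24,25]) (.br .no .no (.br (.br (.br .no (.br .no .no .no (.br .no (.br (.br .no (.sw 2 3 [32,33]) .no (.de 46)) .no .no .no) (.de 44) .no)) .no .no) .no (.br (.br .no (.br .no .no (.br (.sw 1 3 [24,25,32]) (.br .no .no .no (.de 41)) .no .no) .no) .no (.sw 1 2 [30])) (.br .no .no .no (.br .no (.br (.br .no (.sw 2 3 [32,33]) .no (.de 41)) .no .no .no) (.de 44) .no)) .no .no) .no) .no .no .no) .no)) .no .no .no) .no)) .no .no) (.br (.br .no (.br .no .no (.br (.br .no .no (.sw 1 3 [24,25]) (.br .no (.de 34) .no .no)) .no .no .no) .no) .no (.br .no (.br (.br .no .no (.br .no (.de 34) .no (.br .no (.br .no (.br (.br .no .no (.br .no (.br (.br .no .no (.br .no .no .no (.de 48)) .no) .no .no .no) .no (.de 44)) (.br .no (.br (.br .no .no (.br .no .no .no (.de 48)) .no) .no .no .no) .no .no)) .no (.br .no .no .no (.de 43)) .no) (.br (.br .no .no (.sw 1 3 [24,25,29,30]) (.br .no (.br (.br .no .no (.br .no .no .no (.br .no (.de 48) .no (.br .no .no (.de 44) .no))) .no) .no .no .no) .no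 .no)) .no .no .no) .no) .no .no)) (.br .no (.de 34) .no .no)) .no (.br .no .no .no (.br .no (.de 34) .no .no)) .no) (.br (.br .no .no (.sw 1 3 [24,25]) (.br .no (.de 34) .no .no)) .no .no .no) .no)) (.br .no .no .no (.br .no (.br (.br .no .no (.br .no (.br (.br (.br .no .no (.br .no .no .no (.de 43)) .no) .no (.br (.br .no .no (.br .no (.br (.br .no .no (.br .no .no .no (.br .no (.de 48) .no (.de 43))) (.de 41)) .no .no (.br .no .no (.br .no .no .no (.br .no (.de 48) .no (.de 43))) .no)) .no (.de 44)) (.br .no (.br (.br .no .no (.br .no .no .no (.br .no (.de 48) .no (.br .no .no (.de 44) .no))) (.de 41)) .no .no (.br .no .no (.br .no .no .no (.br .no (.de 48) .no (.br .no .no (.de 44) .no))) .no)) .no .no)) .no .no .no) .no) .no .no .no) .no (.br (.sw 1 2 [27]) .no .no .no)) (.br .no (.br (.br (.br .no .no (.br .no .no .no (.de 43)) .no) .no (.br (.br .no .no (.br .no (.br (.sw 2 3 [32]) .no (.br .no .no .no (.de 41)) .no) .no .no) (.br .no (.br (.sw 2 3 [32]) .no (.br .no .no .no (.de 41)) .no)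 (.de 44) .no)) .no .no .no) .no) .no .no .no) .no .no)) .no (.br .no .no .no (.br .no (.br (.br (.br .no .no (.br (.br .no (.br (.br .no .no (.br .no .no .no (.br .no (.de 48) .no (.de 43))) (.de 46)) .no (.br .no .no .no (.br .no .no (.br .no (.br .no .no .no (.br .no .no (.br .no .no .no (.br (.br .no (.br .no .no .no .lf) .no .no) .no .no .no)) .no)) .no (.de 43)) .no)) .no) .no .no) .no .no (.de 43)) .no) .no (.br (.br .no .no .no (.br (.br .no .no (.br .no .no .no (.de 41)) .no) (.sw 0 2 [31]) .no .no)) .no .no .no) .no) .no .no .no) .no .no)) .no) (.br (.br .no .no (.sw 1 3 [24,25]) (.br .no (.br (.br (.br .no (.br .no .no .no (.br .no (.br (.sw 2 3 [32]) .no (.br .no .no .no (.br .no .no (.br .no .no .no (.br .no .no (.de 44) .no)) .no)) .no) (.de 44) .no)) .no .no) .no (.br (.br .no (.br .no .no (.br (.br .no .no (.sw 1 3 [24,25,32,33]) (.de 41)) .no .no .no) .no) .no (.sw 1 2 [30])) (.br .no .no .no (.br .no (.br (.sw 2 3 [32]) .no (.br .no .no .no (.de 41)) .no) (.de 44) .no)) .no .no)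 .no) .no .no .no) .no .no)) .no .no .no) .no)) .no .no) .no) .no .no .no) .no .no)) (.br .no .no .no (.br .no (.br (.br .no (.br (.br .no .no .no (.br (.br .no .no (.br .no .no .no (.br .no .no (.de 34) .no)) .no) .no (.sw 0 1 [23]) .no)) (.br (.br .no .no (.br (.br .no .no (.br .no .no .no (.br (.br .no .no (.br .no (.br .no .no .no (.br .no (.br (.br .no (.br .no .no .no (.de 47)) (.br .no .no .no (.br .no .no .no (.br .no .no (.de 44) .no))) .no) .no .no .no) .no .no)) .no (.br .no (.br .no .no .no (.br (.br .no (.br .no .no .no (.de 47)) (.br .no .no .no (.br .no (.de 48) .no .no)) .no) (.br .no .no (.br .no .no .no (.br .no (.de 48) .no .no)) .no) .no .no)) .no .no)) (.br .no (.de 42) .no .no)) .no (.br .no .no (.br .no (.br .no .no .no (.br .no (.br (.br .no (.br (.br .no .no .no (.br .no .no (.de 44) .no)) .no .no (.de 47)) .no .no) .no .no .no) .no .no)) .no (.br .no (.br .no .no .no (.br (.br .no (.br (.br .no (.br .no .no (.de 44) .no) .no .no) .no .no (.de 47)) .no .no) (.br (.br .no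 .no .no (.sw 0 1 [23,28,29])) .no .no .no) .no .no)) .no .no)) (.br .no (.de 42) .no .no)) .no)) (.br .no .no (.br (.br .no .no (.br .no (.br .no .no .no (.br .no (.br (.br .no (.sw 2 3 [32,33]) .no (.de 41)) .no .no .no) (.de 44) .no)) .no (.br .no (.br .no .no (.br (.br .no (.br .no .no .no (.de 47)) .no (.de 41)) (.br .no .no .no (.de 41)) .no .no) .no) .no .no)) (.br .no (.de 42) .no .no)) .no .no .no) .no)) .no .no .no) .no) .no .no (.sw 0 2 [22])) .no .no) (.br (.br .no .no .no (.br (.br .no .no (.br .no .no .no (.br .no (.de 34) .no .no)) .no) .no (.sw 0 1 [23]) .no)) (.br (.br .no .no (.br (.br .no .no (.br .no (.br (.br .no .no (.br .no (.br .no .no .no (.br .no (.br (.br .no .no (.br .no .no .no (.br .no .no .no (.br .no .no (.de 44) .no))) (.de 41)) .no .no (.br .no .no (.br .no .no .no (.br .no .no .no (.br .no .no (.de 44) .no))) .no)) .no .no)) .no (.br .no (.br .no .no .no (.br (.br .no .no (.br .no .no .no (.br .no (.de 48) .no .no)) (.de 41)) .no .no .no)) .no .no)) (.br .no (.de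 42) .no .no)) .no .no .no) .no (.br (.sw 1 2 [27]) .no .no .no)) (.br .no (.br (.br .no .no (.br .no (.br .no .no .no (.br .no (.br (.sw 2 3 [32]) .no (.br .no .no .no (.de 41)) .no) (.de 44) .no)) .no (.br .no (.br .no .no (.br (.br .no .no (.br .no .no .no (.br .no (.de 48) .no .no)) (.de 41)) .no .no .no) .no) .no .no)) (.br .no (.de 42) .no .no)) .no .no .no) .no .no)) .no .no .no) .no) .no .no (.sw 0 2 [22])) .no .no) .no) .no .no .no) .no .no)) .no .no)

def c0_2_2 : Cert := (.br .no .no (.br (.br .no (.br .no .no .no (.br .no (.br (.br .no (.br .no (.br .no .no (.br (.br .no .no (.br .no .no .no (.br .no .no (.br (.br (.br .no (.br .no .no .no (.br (.br .no (.br .no .no .no (.br .no .no (.br .no .no .no (.br .no .no (.de 44) .no)) .no)) .no .no) (.br (.br .no (.br .no .no (.br .no .no .no (.br .no .no (.de 44) .no)) (.de 47)) .no (.de 46)) .no .no .no) .no .no)) .no (.br .no (.br (.br .no (.br .no .no .no (.br .no .no (.br .no (.br .no .no (.br .no .no .no (.br .no .no (.br (.br .no (.br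 .no .no .no .lf) .no .no) .no .no .no) .no)) .no) .no .no) .no)) .no .no) .no .no .no) .no .no)) .no .no (.br .no (.de 42) .no .no)) .no .no (.br (.br .no (.br .no .no .no (.br (.br .no (.br (.br .no .no (.br .no .no .no (.br .no .no (.de 44) .no)) .no) .no .no .no) .no .no) (.br (.br .no (.br .no .no (.sw 0 3 [34]) .no) .no .no) .no .no .no) .no .no)) .no (.br .no (.br (.br .no (.br (.br .no .no (.br .no (.br .no .no (.br .no .no .no (.br .no .no (.br .no .no .no (.br .no (.sw 0 3 [34,40,46]) .no .no)) .no)) .no) .no .no) .no) .no .no .no) .no .no) .no .no .no) .no .no)) .no .no (.br .no (.de 42) .no .no))) .no)) .no) .no .no .no) (.br (.br .no .no (.br .no .no .no (.br .no .no (.br (.br (.br .no (.sw 2 3 [29]) (.br .no (.br (.br .no (.br .no .no .no (.br .no .no (.br .no (.br .no .no .no (.br .no .no (.br .no .no .no (.br (.sw 2 3 [29,36,43,44,45]) .no .no .no)) .no)) .no (.de 43)) .no)) .no .no) .no .no .no) .no (.de 43)) .no) .no (.br .no (.br .no .no .no (.br (.br .no (.br .no .no .no (.de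 41)) .no .no) (.br (.br .no (.br .no .no .no (.de 47)) .no (.de 41)) .no .no .no) .no .no)) .no .no) .no) .no .no (.br (.br .no (.sw 2 3 [29]) (.br .no (.br (.br .no (.br (.br .no .no (.br .no (.br .no .no .no (.br .no .no (.br .no .no .no (.de 46)) .no)) .no (.de 43)) .no) .no .no .no) .no .no) .no .no .no) .no (.de 43)) .no) .no (.br .no (.br .no .no .no (.br (.br .no (.br (.de 41) .no .no .no) .no .no) (.br (.br .no (.br (.br .no .no .no (.br .no .no (.de 44) .no)) .no .no .no) .no .no) .no .no .no) .no .no)) .no .no) .no)) .no)) .no) .no (.br (.br .no .no (.br .no .no .no (.br (.br (.br .no (.br .no .no .no (.br .no (.br (.br .no (.br .no .no (.br .no .no .no (.br .no .no (.de 44) .no)) (.de 47)) (.br .no .no .no (.br .no .no .no (.br .no .no (.de 44) .no))) .no) .no .no .no) .no .no)) .no .no) .no (.br (.br .no (.br .no .no .no (.br (.br .no (.br .no .no .no (.de 47)) (.br .no .no .no (.br .no (.de 48) .no (.br .no .no (.de 44) .no))) .no) (.br .no .no (.br .no .no .no (.br .no (.de 48) .no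 (.br .no .no (.de 44) .no))) .no) .no .no)) .no (.br .no (.br (.br .no (.br .no .no .no (.de 47)) (.br .no .no .no (.br .no (.de 48) .no (.br .no .no (.de 44) .no))) .no) .no .no .no) .no .no)) (.br .no .no .no (.br .no (.br (.br .no (.br .no .no .no (.de 47)) (.br .no .no .no (.br .no .no .no (.br .no .no (.de 44) .no))) .no) .no .no .no) .no .no)) .no .no) .no) .no .no .no)) (.br .no .no (.br (.br (.br .no (.br .no .no .no (.br .no (.sw 0 2 [30,31]) (.de 44) .no)) .no .no) .no (.br (.br .no (.br .no .no (.br (.br .no (.br .no .no .no (.de 47)) .no (.de 41)) (.br .no .no .no (.de 41)) .no .no) .no) .no (.br .no (.br (.br .no (.sw 2 3 [32,33]) .no (.de 41)) .no .no .no) (.de 44) .no)) (.br .no .no .no (.br .no (.sw 0 2 [30,31]) (.de 44) .no)) .no .no) .no) .no .no (.br (.br .no (.br .no .no .no (.br .no (.sw 0 2 [30,31]) (.de 44) .no)) .no .no) .no (.br (.br .no (.br .no .no (.br (.br .no (.br (.br .no (.br .no .no (.br .no .no .no (.de 45)) (.de 44)) .no (.br .no .no (.br .no .no .no (.de 45))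 .no)) .no .no .no) .no .no) (.br (.de 41) .no .no .no) .no .no) .no) .no (.br .no (.br (.br .no (.br (.br .no (.br .no .no (.de 44) .no) .no (.br .no .no (.de 44) .no)) .no .no .no) .no .no) .no .no .no) (.de 44) .no)) (.br .no .no .no (.br .no (.sw 0 2 [30,31]) (.de 44) .no)) .no .no) .no)) .no)) .no .no .no) .no)) .no (.br .no .no (.br (.br .no .no (.br .no .no .no (.br .no .no (.br (.br (.br .no (.br .no .no .no (.br (.br .no (.br .no .no .no (.br .no (.de 47) (.sw 1 3 [28]) .no)) .no .no) (.br (.br .no (.br .no .no (.sw 1 3 [28]) .no) .no (.de 46)) .no .no .no) .no .no)) .no (.br .no (.br (.br .no (.br .no .no .no (.br .no (.de 47) (.sw 1 3 [28]) .no)) .no .no) .no .no .no) .no .no)) (.br .no .no .no (.de 42)) .no .no) .no .no .no) .no)) .no) .no .no .no) .no)) .no .no) .no .no .no) .no .no)) .no .no) .no .no .no) (.br (.br .no (.br .no .no .no (.br .no (.br (.br .no (.br .no (.br .no .no (.br (.br .no .no (.br .no .no .no (.br .no .no (.br (.sw 2 3 [21]) .no .no .no) .no)) .no) .no .no .no)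 (.br (.br .no .no (.br .no .no .no (.br .no .no (.br (.sw 2 3 [21]) .no .no .no) .no)) .no) .no (.br (.br .no .no (.br .no .no .no (.br (.sw 2 3 [21]) .no (.br (.br .no (.br .no .no .no (.br .no (.br (.br .no (.br .no .no .no (.de 47)) .no .no) .no .no .no) .no .no)) .no .no) .no (.br (.br .no (.br .no .no .no (.br (.br .no (.br (.br .no (.br .no .no (.de 44) (.br .no .no (.de 45) .no)) .no (.br .no .no (.de 44) .no)) .no .no (.de 47)) .no .no) (.br (.br .no .no .no (.br .no (.de 48) .no (.br .no .no (.de 44) .no))) .no .no .no) .no .no)) .no (.br .no (.br (.br .no (.br (.sw 2 3 [21,32,33,34]) .no .no (.de 47)) .no .no) .no .no .no) .no .no)) (.br .no .no .no (.br .no (.br (.br .no (.br (.sw 2 3 [21,32,33,34]) .no .no (.de 47)) .no .no) .no .no .no) .no .no)) .no .no) .no) .no)) (.br .no .no (.br (.sw 2 3 [21]) .no .no .no) .no)) .no .no .no) .no)) (.br .no .no .no (.br (.br .no .no (.br .no .no .no (.br .no .no (.br (.br (.br .no (.br .no .no .no (.br (.br .no (.br .no .no .no (.br .no (.de 47)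 .no .no)) .no .no) (.br (.br .no (.br .no .no .no (.de 47)) .no (.de 46)) .no .no .no) .no .no)) (.br .no (.br (.br .no (.br .no .no .no (.br .no (.de 47) .no .no)) .no .no) .no .no .no) .no (.de 43)) .no) (.br .no .no (.br .no (.br (.br .no (.br .no .no .no (.de 41)) .no .no) .no .no .no) .no (.de 43)) .no) .no .no) .no .no .no) .no)) .no) .no (.br (.br .no .no (.br .no .no .no (.br (.br (.br .no (.br .no .no .no (.br .no (.br (.br .no (.br .no .no .no (.de 47)) (.br .no (.br .no .no .no (.de 48)) .no (.sw 1 2 [28])) .no) .no .no .no) .no .no)) .no .no) (.br (.br .no (.br .no .no .no (.br (.br .no (.br .no .no .no (.de 47)) (.br .no .no .no (.de 48)) .no) (.br .no .no (.br .no .no .no (.de 48)) .no) .no .no)) .no (.br .no (.br (.br .no (.br .no .no .no (.de 47)) (.br .no .no .no (.de 48)) .no) .no .no .no) .no .no)) .no .no .no) .no .no) .no .no .no)) (.br .no .no (.br (.br (.br .no (.br .no .no .no (.br .no (.sw 0 2 [30,31]) (.de 44) .no)) .no .no) (.br (.br .no (.br .no .no (.br (.br .no (.br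 .no .no .no (.de 47)) .no (.de 41)) (.br .no .no .no (.de 41)) .no .no) .no) .no (.br .no (.br (.br .no (.sw 2 3 [32,33]) .no (.de 41)) .no .no .no) (.de 44) .no)) .no .no .no) .no .no) .no .no .no) .no)) .no .no .no) .no)) .no) (.br .no (.br .no .no (.br (.br .no .no (.br .no .no .no (.br .no (.br (.br (.br .no (.br .no .no .no (.br (.br .no .no (.br .no .no .no (.br .no .no (.br .no .no .no (.br .no .no (.de 44) .no)) .no)) .no) (.br (.br .no .no (.br .no .no .no (.br .no .no .no (.br .no .no (.de 44) .no))) (.de 46)) .no (.br .no .no .no (.br .no .no (.br .no .no .no (.br .no .no (.de 44) .no)) .no)) .no) .no .no)) .no (.br .no (.br (.br .no .no (.br .no .no .no (.br .no .no (.br .no (.br .no .no (.br .no .no .no (.de 45)) .no) .no .no) .no)) .no) .no .no .no) .no .no)) .no .no (.br .no (.de 42) .no .no)) .no .no .no) .no .no)) .no) .no .no .no) (.br (.br .no .no (.br .no .no .no (.br .no (.br (.br (.br .no (.sw 2 3 [29]) (.br .no (.br (.br .no .no (.br .no .no .no (.br .no .no (.br .no (.br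 .no .no .no (.br .no .no (.br .no .no .no (.br (.sw 1 2 [27,33,39]) .no .no .no)) .no)) .no (.de 43)) .no)) .no) .no .no .no) .no (.de 43)) .no) .no (.br .no (.br .no .no .no (.br (.br .no .no (.br .no .no .no (.de 41)) .no) (.br (.br .no .no (.br .no .no .no (.br .no .no .no (.br .no .no (.de 44) .no))) (.de 41)) .no (.br .no .no .no (.de 41)) .no) .no .no)) .no .no) .no) .no .no .no) .no .no)) .no) .no (.br (.br .no .no (.br .no (.br (.br (.br .no (.br .no .no .no (.br .no (.br (.br .no .no (.br .no .no .no (.br .no .no .no (.br .no .no (.de 44) .no))) (.de 46)) .no .no (.br .no .no (.br .no .no .no (.br .no .no .no (.br .no .no (.de 44) .no))) .no)) .no .no)) .no .no) .no (.br (.br .no (.br .no .no .no (.br (.br .no .no (.br .no .no .no (.br .no (.de 48) .no (.br .no .no (.de 44) .no))) (.de 41)) .no .no .no)) .no (.br .no (.br (.br .no .no (.br .no .no .no (.br .no (.de 48) .no (.br .no .no (.de 44) .no))) (.de 41)) .no .no (.br .no .no (.br .no .no .no (.br .no (.de 48) .no (.br .no .no (.de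 44) .no))) .no)) .no .no)) (.br .no .no .no (.br .no (.br (.br .no .no (.br .no .no .no (.br .no .no .no (.br .no .no (.de 44) .no))) (.de 41)) .no .no (.br .no .no (.br .no .no .no (.br .no .no .no (.br .no .no (.de 44) .no))) .no)) .no .no)) .no .no) .no) .no .no .no) .no (.br (.sw 1 2 [27]) .no .no .no)) (.br .no (.br (.br (.br .no (.br .no .no .no (.br .no (.sw 0 2 [30,31]) (.de 44) .no)) .no .no) .no (.br (.br .no (.br .no .no (.br (.br .no .no (.br .no .no .no (.br .no (.de 48) .no (.br .no .no (.br .no .no .no (.de 45)) .no))) (.de 41)) .no .no .no) .no) .no (.br .no (.br (.sw 2 3 [32]) .no (.br .no .no .no (.de 41)) .no) (.de 44) .no)) (.br .no .no .no (.br .no (.sw 0 2 [30,31]) (.de 44) .no)) .no .no) .no) .no .no .no) .no .no)) .no .no .no) .no)) (.br .no .no .no (.br (.br .no .no (.br .no .no .no (.br .no (.br (.br (.br .no (.br .no .no .no (.br (.br .no .no (.br .no .no .no (.br .no (.de 47) .no .no)) .no) (.br (.br .no .no (.br .no (.br .no .no .no (.de 48)) .no (.sw 1 2 [28])) (.de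 46)) .no (.br .no .no .no (.br .no (.de 47) .no .no)) .no) .no .no)) (.br .no (.br (.br .no .no (.br .no .no .no (.br .no (.de 47) .no .no)) .no) .no .no .no) .no (.de 43)) .no) (.br .no .no (.br .no (.br (.br .no .no (.br .no .no .no (.de 41)) .no) .no .no .no) .no (.de 43)) .no) .no .no) .no .no .no) .no .no)) .no) .no (.br (.br .no .no (.br .no (.br (.br (.br .no (.br .no .no .no (.br .no (.br (.br .no .no (.br .no (.br .no .no .no (.de 48)) .no (.sw 1 2 [28])) (.de 46)) .no .no (.br .no .no (.br .no (.br .no .no .no (.de 48)) .no (.sw 1 2 [28])) .no)) .no .no)) .no .no) (.br (.br .no (.br .no .no .no (.br (.br .no .no (.br .no .no .no (.de 48)) (.de 41)) .no .no .no)) .no (.br .no (.br (.br .no .no (.br .no .no .no (.de 48)) (.de 41)) .no .no (.br .no .no (.br .no .no .no (.de 48)) .no)) .no .no)) .no .no .no) .no .no) .no .no .no) .no (.br (.sw 1 2 [27]) (.br (.br .no (.br .no .no .no (.br .no (.br (.br .no .no (.br .no .no .no (.sw 0 1 [34])) .no) .no .no .no) .no .no)) .no .no) (.br (.br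 .no (.br .no .no .no (.br (.br .no .no (.br (.br .no .no .no (.de 48)) .no .no (.de 48)) .no) (.br (.br .no .no .no (.de 48)) .no (.br (.br .no .no .no (.de 48)) .no .no (.de 48)) .no) .no .no)) .no (.br .no (.br (.br .no .no (.br (.br .no .no .no (.de 48)) .no .no (.de 48)) .no) .no .no .no) .no .no)) .no .no .no) .no .no) .no .no)) (.br .no (.br (.br (.br .no (.br .no .no .no (.br .no (.sw 0 2 [30,31]) (.de 44) .no)) .no .no) (.br (.br .no (.br .no .no (.br (.br .no .no (.br .no .no .no (.de 48)) (.de 41)) .no .no .no) .no) .no (.br .no (.br (.sw 2 3 [32]) .no (.br .no .no .no (.de 41)) .no) (.de 44) .no)) .no .no .no) .no .no) .no .no .no) .no .no)) .no .no .no) .no)) .no) .no) .no .no .no) .no .no)) .no .no) .no c0_2_1 .no))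

theorem P0_2 : R.S 15 122397252 :=
  R.piece L hL (.br .no (.br .no .no .no (.br .no .no (.br (.br .no .no (.br .no .no .no c0_2_2) .no) .no .no .no) .no)) .no .no) 15 122397252 1073741824 (by norm_num) (by norm_num) (by norm_num) (by decide +kernel)

def c0_3_0 : Cert := (.br .no .no (.br .no .no .no (.br (.br .no (.br .no .no .no (.br .no (.br .no .no .no (.br (.br .no (.br .no .no (.br (.br .no .no (.br (.br .no (.br .no .no (.br (.br .no (.br .no .no .no (.br .no (.br .no .no (.br .no .no .no (.br .no (.de 48) .no (.br .no .no (.de 44) .no))) (.de 41)) .no .no)) .no (.br .no (.br .no .no .no (.br .no .no (.br .no .no .no (.br .no (.de 48) .no (.br .no .no (.de 44) .no))) .no)) .no .no)) .no .no (.br .no (.br .no .no .no (.br .no (.br .no .no (.br .no .no .no (.br .no (.de 48) .no .no)) (.de 41)) .no .no)) .no .no)) (.br (.br .no (.br .no .no .no (.br .no (.br .no .no (.de 41) (.br .no .no (.br .no (.de 48) .no .no) .no)) .no .no)) .no (.br .no (.br .no .no .no (.br .no .no (.de 41) .no)) .no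 .no)) .no .no .no)) .no .no) .no .no .no) .no) .no .no .no) (.br (.br .no .no (.br (.br .no (.br .no .no (.br (.br .no (.sw 2 3 [30]) (.br .no (.br .no .no .no (.br .no .no (.br .no .no .no (.br .no (.de 48) .no (.de 43))) .no)) .no (.de 44)) .no) .no .no .no) (.br (.br .no (.sw 2 3 [30]) (.br .no (.br .no .no .no (.br .no .no (.de 41) .no)) .no (.de 44)) .no) .no (.br .no (.br .no .no .no (.br .no (.br .no .no (.de 41) (.br .no .no (.br .no (.de 48) .no .no) .no)) .no .no)) .no .no) .no)) .no .no) .no .no .no) .no) .no (.br (.br .no .no (.br .no (.br .no .no (.br (.br .no (.br .no .no .no (.br .no (.br (.br .no .no .no (.br .no (.de 48) .no (.br .no .no (.de 44) .no))) .no .no (.de 41)) .no .no)) .no .no) .no .no .no) (.br (.br .no (.br .no .no .no (.br .no (.br (.br .no .no (.br .no (.de 48) .no .no) .no) .no .no (.sw 0 2 [31,32,33])) .no .no)) .no .no) .no (.br (.br .no (.br .no .no .no (.br (.de 46) .no .no .no)) .no (.br .no (.br (.br .no .no (.br .no (.de 48) .no .no) .no) .no .no (.br .no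 .no (.br .no (.de 48) .no .no) .no)) .no .no)) (.br .no .no .no (.br .no (.br (.br .no .no (.br .no (.de 48) .no .no) .no) .no .no (.sw 0 2 [31,32,33])) .no .no)) .no .no) .no)) .no .no) .no) .no .no .no) .no)) (.br .no .no .no (.br (.br .no .no (.br (.br .no (.br .no (.br (.br .no (.br .no .no .no (.br .no (.br .no .no (.br .no .no .no (.de 48)) (.br .no .no (.br .no .no .no (.de 48)) .no)) .no .no)) (.br .no (.br .no .no .no (.br .no .no (.br .no .no .no (.de 48)) .no)) .no (.de 44)) .no) .no .no .no) .no (.br (.sw 1 2 [29]) (.de 42) .no .no)) .no .no) .no .no .no) .no) .no (.br (.br .no .no (.br .no (.br .no (.br (.br .no (.br .no .no .no (.br .no (.br (.br .no .no (.br .no .no .no (.de 48)) (.de 48)) .no .no (.sw 0 2 [31,32,33])) .no .no)) .no .no) .no .no .no) .no (.br (.sw 1 2 [29]) (.de 42) .no .no)) .no .no) .no) .no .no .no) .no)) .no) (.br .no .no (.br .no .no .no (.br (.br .no .no (.br (.de 34) .no .no .no) .no) .no (.br (.br .no .no (.br (.br (.br .no (.br (.br .no (.br .no .no .no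 (.br .no (.br .no .no (.br .no .no .no (.br .no .no (.br .no .no .no (.br .no .no (.br (.br .no .no .no (.br .no .lf .no .no)) .no .no .no) .no)) .no)) (.de 47)) .no .no)) .no (.br .no (.br .no .no .no (.br .no .no (.br .no .no .no (.br .no .no (.de 44) .no)) .no)) .no .no)) .no .no .no) .no .no) .no .no (.br (.br .no (.br .no .no .no (.br .no (.br .no .no .no (.br .no .no (.sw 0 1 [28,34]) .no)) .no .no)) .no .no) (.de 42) .no .no)) .no .no .no) .no) .no .no .no) .no)) .no) .no .no)) .no .no)) .no (.br .no (.br .no .no .no (.de 27)) .no .no)) .no .no .no)) (.br .no .no (.br (.br .no (.br .no .no .no (.br .no (.br .no .no (.br (.br .no (.br .no .no (.br (.br .no .no (.br (.br .no (.sw 2 3 [21,22,27]) .no .no) .no .no (.br .no (.br .no .no (.br (.br .no (.br .no .no .no (.br (.br .no .no (.br .no .no .no (.br .no (.de 48) .no (.br .no .no (.de 44) .no))) .no) (.br (.br .no .no .no (.br .no (.de 48) .no (.br .no .no (.de 44) .no))) .no (.sw 0 3 [33]) .no) .no .no)) .no (.br .no (.br (.br .no .no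 (.br .no .no .no (.br .no (.de 48) .no (.br .no .no (.de 44) .no))) .no) .no .no .no) .no .no)) .no .no (.br .no (.br .no .no .no (.br (.br .no .no (.br .no .no .no (.br .no (.de 48) .no .no)) .no) (.br (.br .no .no .no (.br .no (.de 48) .no .no)) .no (.sw 0 3 [33]) .no) .no .no)) .no .no)) (.br (.br .no (.br .no .no .no (.br (.br .no .no (.de 41) .no) (.br (.br .no .no (.br .no (.de 48) .no .no) .no) .no (.de 41) .no) .no .no)) .no (.br .no (.br (.br .no .no (.de 41) .no) .no .no .no) .no .no)) .no .no .no)) .no .no)) .no) .no .no .no) (.br (.br .no .no (.br (.br .no (.sw 2 3 [21,22,27]) .no .no) .no .no (.br .no (.br .no .no (.br (.br .no (.sw 2 3 [30]) (.br .no (.br (.br .no .no (.br .no .no .no (.br .no (.de 48) .no (.de 43))) .no) .no .no .no) .no (.de 44)) .no) .no .no .no) (.br (.br .no (.sw 2 3 [30]) (.br .no (.br (.br .no .no (.de 41) .no) .no .no .no) .no (.de 44)) .no) .no (.br .no (.br .no .no .no (.br (.br .no .no (.de 41) .no) (.br (.br .no .no (.br .no (.de 48) .no .no) .no) .no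 (.de 41) .no) .no .no)) .no .no) .no)) .no .no)) .no) .no (.br (.br .no .no .no (.br .no (.br .no .no (.br (.br .no (.br .no .no .no (.br .no (.sw 0 2 [31,32]) (.de 45) .no)) .no .no) .no .no .no) (.br (.br .no (.br .no .no .no (.br .no (.sw 0 2 [31,32]) (.de 45) .no)) .no .no) .no (.br (.br .no (.br .no .no (.br (.br .no .no (.br .no (.de 48) .no .no) .no) .no .no .no) .no) .no (.br .no (.br (.sw 2 3 [21,22,27,33]) .no (.de 41) .no) (.de 45) .no)) (.br .no .no .no (.br .no (.sw 0 2 [31,32]) (.de 45) .no)) .no .no) .no)) .no .no)) .no .no .no) .no)) .no (.br .no .no (.br (.br .no .no (.br (.br .no (.br .no (.br (.br .no (.sw 2 3 [21,22,27,29,30]) .no (.br .no (.br .no .no .no (.br .no .no (.br .no .no .no (.de 48)) .no)) .no .no)) .no .no .no) (.br (.sw 1 3 [29]) (.br .no .no .no (.br .no (.br .no .no .no (.br .no .no (.br .no .no .no (.br .no .no .no (.br .no .no (.de 44) .no))) .no)) .no .no)) .no .no) .no) .no .no) .no .no (.br .no (.br .no (.br (.br .no (.br .no .no .no (.br (.br .no .no (.br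 .no .no .no (.de 48)) .no) (.br (.br .no .no (.br .no .no .no (.de 48)) (.de 48)) .no (.sw 0 3 [33]) .no) .no .no)) .no (.br .no (.br (.br .no .no (.br .no .no .no (.de 48)) .no) .no .no .no) .no .no)) .no .no .no) (.br (.sw 1 3 [29]) (.br .no .no .no (.br .no (.br (.br .no .no (.br .no .no .no (.br .no .no .no (.br .no .no (.de 44) .no))) .no) .no .no .no) .no .no)) .no .no) .no) .no .no)) .no) .no .no .no) .no)) (.br .no .no .no (.br .no .no (.br (.br .no .no (.br (.de 34) .no .no (.br (.sy 20 228 14) .no .no .no)) .no) .no .no .no) .no)) .no .no) .no) .no .no)) .no (.br .no (.br .no .no .no (.br .no .no (.br (.br .no (.br .no .no (.br (.br .no .no (.br (.sw 1 3 [24,25,26]) (.de 34) .no .no) .no) .no .no .no) .no) .no (.br .no (.br (.br .no .no (.br (.br .no (.br .no (.br (.br .no .no (.br .no (.br .no .no .no (.br .no .no (.br .no .no .no (.de 48)) .no)) .no (.de 44)) (.br .no (.br .no .no .no (.br .no .no (.br .no .no .no (.de 48)) .no)) .no .no)) .no (.br .no .no .no (.de 43)) .no) (.br (.br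 .no .no (.sw 1 3 [24,25,26,29,30]) (.br .no (.br .no .no .no (.br .no .no (.br .no .no .no (.br .no (.de 48) .no (.br .no .no (.de 44) .no))) .no)) .no .no)) .no .no .no) .no) .no .no) (.de 34) .no .no) .no) .no (.br (.br .no (.de 34) .no .no) .no .no .no) .no) (.br (.br .no .no (.br (.sw 1 3 [24,25,26]) (.de 34) .no .no) .no) .no .no .no) .no)) (.br .no .no .no (.br .no (.br (.br .no .no (.br (.de 34) (.br (.br (.br .no .no (.br .no .no .no (.de 43)) .no) .no (.br (.br .no .no (.br .no (.br (.br .no .no (.br .no .no .no (.br .no (.de 48) .no (.de 43))) (.de 41)) .no .no (.br .no .no (.br .no .no .no (.sw 0 1 [28,33,34])) .no)) .no (.de 44)) (.br .no (.br (.br .no .no (.br .no .no .no (.br .no (.de 48) .no (.br .no .no (.de 44) .no))) (.de 41)) .no .no (.br .no .no (.br .no .no .no (.sw 0 1 [28,33,34])) .no)) .no .no)) .no .no .no) .no) .no .no .no) .no .no) .no) .no (.br (.br .no (.br (.br (.br .no .no (.br (.br .no (.br .no .no (.br .no .no .no (.br .no .no (.br .no (.br .no .no .no (.br .no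 .no (.br .no .no .no (.br (.br .no (.br .no .no .no .lf) .no .no) .no .no .no)) .no)) .no (.de 43)) .no)) (.br .no .no (.br .no .no .no (.br .no (.de 48) .no (.de 43))) .no)) .no (.br .no .no (.de 45) .no)) .no .no (.de 43)) .no) .no (.br (.br .no .no .no (.br .no (.br .no .no (.br .no .no .no (.de 41)) (.sw 0 2 [31,32])) .no .no)) .no .no .no) .no) .no .no .no) .no .no) .no .no .no) .no) (.br (.br .no .no (.br (.de 34) (.br (.br (.br .no (.br .no .no .no (.br .no (.br (.br .no .no (.sw 1 3 [24,25,26,33]) (.de 46)) .no .no (.br .no .no (.br .no .no .no (.br .no .no .no (.br .no .no (.de 44) .no))) .no)) .no .no)) .no .no) .no (.br (.br .no (.br .no .no .no (.br (.br .no .no (.sw 1 3 [24,25,26,33]) (.de 41)) .no .no .no)) .no (.sw 1 2 [30])) (.br .no .no .no (.br .no (.br (.br .no .no (.sw 1 3 [24,25,26,33]) (.de 41)) .no .no (.br .no .no (.br .no .no .no (.sw 0 1 [28,33,34])) .no)) .no .no)) .no .no) .no) .no .no .no) .no .no) .no) .no .no .no) .no)) .no .no) .no)) .no .no)) .no .no (.br .no (.br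 .no .no .no (.br .no (.br .no .no (.br (.br .no (.br (.br .no .no (.br (.br .no .no .no (.br .no (.br .no .no (.br .no .no .no (.br .no (.br .no .no .no (.br .no (.br (.br .no .no .no (.br .no (.de 48) .no .no)) .no (.br .no .no .no (.br .no (.de 48) .no .no)) .no) (.de 45) .no)) .no .no)) (.br .no .no (.br .no (.sw 0 3 [23,30]) .no (.de 43)) .no)) .no .no)) .no .no .no) .no) .no (.sw 0 3 [23]) .no) .no .no) (.br (.br .no .no (.br (.br .no .no (.br (.de 34) .no .no (.br (.br .no .no (.br .no (.sw 0 3 [23,29]) .no (.br .no (.br .no .no .no (.br (.br .no (.br .no .no .no (.de 47)) (.br .no .no .no (.sw 0 1 [28,29,34])) .no) (.br .no .no (.br .no .no .no (.sw 0 1 [28,29,34])) .no) .no .no)) .no .no)) (.br .no (.de 42) .no .no)) .no .no .no)) .no) .no .no .no) .no) .no .no .no) .no .no) .no) .no .no)) .no .no)) .no))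

def c0_3_1 : Cert := (.br (.br .no .no (.br (.br .no (.br .no .no (.br (.br .no (.br .no .no .no (.br .no (.br .no .no (.br (.br .no (.br .no .no (.br (.br .no .no (.br .no .no .no (.br .no (.de 48) .no (.br .no .no (.br .no .no .no (.de 45)) .no))) .no) .no .no .no) (.br (.br .no .no (.br .no .no .no (.br .no (.de 48) .no (.br .no .no (.de 44) .no))) .no) .no (.de 45) .no)) .no (.br .no .no (.de 44) .no)) .no .no (.br .no (.br .no .no (.br (.br .no .no (.br .no .no .no (.br .no (.de 48) .no .no)) .no) .no .no .no) (.br (.br .no .no (.br .no .no .no (.br .no (.de 48) .no .no)) .no) .no (.de 45) .no)) .no .no)) (.br (.br .no (.br .no .no (.br (.br .no .no (.de 41) .no) .no .no .no) (.br (.br .no .no (.de 41) .no) .no (.de 45) .no)) .no (.br .no .no (.de 44) .no)) .no .no .no)) .no .no)) (.br .no (.de 34) .no (.br .no (.br .no .no (.br (.br .no (.br .no .no .no (.br (.sw 1 2 [32]) (.br (.br .no .no .no (.br .no (.de 48) .no (.br .no .no (.de 44) .no))) .no (.br .no .no .no (.br .no (.de 48) .no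 (.br .no .no (.de 44) .no))) .no) .no .no)) .no (.br .no (.br (.br .no .no (.br .no .no .no (.br .no (.de 48) .no (.br .no .no (.de 44) .no))) .no) .no .no .no) .no .no)) .no .no (.br .no (.br .no .no .no (.br (.sw 1 2 [32]) (.br (.br .no .no .no (.br .no (.de 48) .no .no)) .no (.br .no .no .no (.br .no (.de 48) .no .no)) .no) .no .no)) .no .no)) (.br (.br .no (.br .no .no .no (.br (.sw 1 2 [32]) (.br (.br .no .no (.br .no (.de 48) .no .no) .no) .no (.de 41) .no) .no .no)) .no (.br .no (.br (.br .no .no (.de 41) .no) .no .no .no) .no .no)) .no .no .no)) .no .no)) .no) .no .no .no) (.br (.br .no (.br .no .no .no (.br .no (.br .no .no (.br (.br .no (.sw 2 3 [30]) (.br .no .no .no (.de 44)) .no) .no .no .no) (.br (.br .no (.sw 2 3 [30]) (.br .no .no .no (.de 44)) .no) .no (.br .no (.br .no .no (.br (.br .no .no (.de 41) .no) .no .no .no) (.br (.br .no .no (.de 41) .no) .no (.de 45) .no)) .no .no) .no)) .no .no)) (.br .no (.de 34) .no (.br .no (.br .no .no (.br (.br .no (.sw 2 3 [30]) (.br .no (.br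 (.br .no .no (.br .no .no .no (.br .no (.de 48) .no (.de 43))) .no) .no .no .no) .no (.de 44)) .no) .no .no .no) (.br (.br .no (.sw 2 3 [30]) (.br .no (.br (.br .no .no (.de 41) .no) .no .no .no) .no (.de 44)) .no) .no (.br .no (.br .no .no .no (.br (.sw 1 2 [32]) (.br (.br .no .no (.br .no (.de 48) .no .no) .no) .no (.de 41) .no) .no .no)) .no .no) .no)) .no .no)) .no) .no (.br .no (.br .no .no .no (.br .no (.br .no .no (.br (.br .no (.br (.br .no .no (.br (.br .no .no .no (.br .no (.de 48) .no (.br .no .no (.br .no .no .no (.de 45)) .no))) .no .no .no) .no) .no .no (.sw 0 2 [31])) .no .no) .no .no .no) (.br (.br .no (.br (.br .no .no (.br (.br .no .no (.br .no (.de 48) .no .no) .no) .no .no .no) .no) .no .no (.sw 0 2 [31])) .no .no) .no (.br (.br .no .no .no (.br (.br .no .no (.de 41) .no) .no (.de 45) .no)) (.br (.br .no .no (.br (.br .no .no (.br .no (.de 48) .no .no) .no) .no .no .no) .no) .no .no (.sw 0 2 [31])) .no .no) .no)) .no .no)) .no .no) .no)) .no (.br .no .no (.br (.br .no (.br .no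 .no .no (.br .no (.br .no (.br (.br .no (.br .no .no (.br (.br .no .no (.br .no .no .no (.de 48)) .no) .no .no .no) (.br (.br .no .no (.br .no .no .no (.de 48)) .no) .no (.de 45) .no)) .no (.br .no .no (.de 44) .no)) .no .no .no) (.br (.sw 1 3 [29]) (.br .no .no .no (.br .no .no (.de 44) .no)) .no .no) .no) .no .no)) (.br .no (.de 34) .no (.br .no (.br .no (.br (.br .no (.br .no .no .no (.br (.sw 1 2 [32]) (.br (.br .no .no (.br .no .no .no (.de 48)) (.de 48)) .no (.br .no .no .no (.de 48)) .no) .no .no)) .no (.br .no (.br (.br .no .no (.br .no .no .no (.de 48)) .no) .no .no .no) .no .no)) .no .no .no) (.br (.sw 1 3 [29]) (.br .no .no .no (.br .no (.br (.br .no .no (.br .no .no .no (.br .no .no .no (.br .no .no (.de 44) .no))) .no) .no .no .no) .no .no)) .no .no) .no) .no .no)) .no) .no .no .no) .no)) (.br .no .no .no (.br .no .no (.br (.br .no (.br .no .no .no (.br (.br (.br .no (.br .no .no .no (.br .no .no (.de 44) .no)) .no .no) .no (.br (.br .no (.br .no .no (.br (.br .no (.br .no .no .no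 (.de 47)) (.br .no .no .no (.sw 0 1 [28,34])) .no) .no .no .no) (.br (.br .no (.br .no .no .no (.de 47)) (.br .no .no .no (.sw 0 1 [28,34])) .no) .no (.de 45) .no)) .no (.br .no .no (.de 44) .no)) (.br .no .no .no (.br .no .no (.de 44) .no)) .no .no) .no) .no .no .no)) (.br .no (.br (.br (.br .no (.br .no .no .no (.br .no (.br (.br .no .no (.br .no .no .no (.br .no .no .no (.br .no .no (.de 44) .no))) (.de 46)) .no .no (.br .no .no (.br .no .no .no (.br .no .no .no (.br .no .no (.de 44) .no))) .no)) .no .no)) .no .no) .no (.br (.br .no (.br .no .no .no (.br (.br .no .no (.br .no .no .no (.br .no (.de 48) .no (.br .no .no (.de 44) .no))) (.de 41)) .no .no .no)) .no (.br .no (.br (.br .no .no (.br .no .no .no (.br .no (.de 48) .no (.br .no .no (.de 44) .no))) (.de 41)) .no .no (.br .no .no (.br .no .no .no (.br .no (.de 48) .no (.br .no .no (.de 44) .no))) .no)) .no .no)) (.br .no .no .no (.br .no (.br (.br .no .no (.br .no .no .no (.br .no .no .no (.br .no .no (.de 44) .no))) (.de 41)) .no .no (.br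 .no .no (.br .no .no .no (.br .no .no .no (.br .no .no (.de 44) .no))) .no)) .no .no)) .no .no) .no) .no .no .no) .no (.br (.br (.br .no (.br .no .no .no (.br .no (.br (.br .no (.br .no .no (.br .no .no .no (.br .no .no (.de 44) .no)) (.de 47)) (.sw 1 3 [33]) .no) .no .no .no) .no .no)) .no .no) .no (.br (.br .no (.br .no .no .no (.br (.sw 1 2 [32]) (.br .no .no (.br .no .no .no (.sw 0 1 [28,34])) .no) .no .no)) .no (.br .no (.br (.br .no (.br .no .no .no (.de 47)) (.sw 1 3 [33]) .no) .no .no .no) .no .no)) (.br .no .no .no (.br .no (.br (.br .no (.br .no .no .no (.de 47)) (.sw 1 3 [33]) .no) .no .no .no) .no .no)) .no .no) .no) .no .no .no)) .no) .no .no .no) .no)) .no .no) .no) (.br (.br (.br .no (.br .no .no (.br (.br .no .no (.br .no .no .no (.br .no (.sw 2 3 [21,22]) (.br .no .no (.br (.br .no (.br .no .no .no (.br (.br .no (.br .no .no .no (.de 47)) .no .no) (.br (.br .no (.br .no (.br .no .no (.de 44) (.br .no .no (.de 45) .no)) .no (.de 48)) .no (.sw 1 2 [34])) .no .no .no) .no .no)) .no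 (.br .no (.br (.br .no (.br .no .no .no (.de 47)) .no .no) .no .no .no) .no .no)) .no .no (.br .no (.br .no .no .no (.br (.br .no (.br .no .no .no (.de 47)) .no .no) (.br (.br .no (.br .no (.br .no .no (.de 44) .no) .no .no) .no (.sw 1 2 [34])) .no .no .no) .no .no)) .no .no)) (.br (.br .no (.br .no .no .no (.br (.br .no (.de 41) .no .no) (.br (.br .no (.de 48) .no .no) .no .no .no) .no .no)) .no (.br .no (.br (.br .no (.de 41) .no .no) .no .no .no) .no .no)) .no .no .no)) .no)) .no) .no .no .no) (.br (.br .no .no (.br .no .no .no (.br .no (.sw 2 3 [21,22]) (.br .no .no (.br (.br .no (.sw 2 3 [30]) (.br .no (.br (.br .no (.br .no .no .no (.de 47)) .no .no) .no .no .no) .no (.de 44)) .no) .no .no .no) (.br (.br .no (.sw 2 3 [30]) (.br .no (.br (.br .no (.de 41) .no .no) .no .no .no) .no (.de 44)) .no) .no (.br .no (.br .no .no .no (.br (.br .no (.de 41) .no .no) (.br (.br .no (.de 48) .no .no) .no .no .no) .no .no)) .no .no) .no)) .no)) .no) .no (.br (.br .no .no (.br .no (.sw 2 3 [21,22]) .no .no)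 (.br .no (.sw 2 3 [21,22]) (.br .no .no (.br (.br .no (.br .no .no .no (.br .no (.sw 0 2 [31,32]) (.de 45) .no)) .no .no) .no .no .no) (.br (.br .no (.br .no .no .no (.br .no (.sw 0 2 [31,32]) (.de 45) .no)) .no .no) .no (.br (.br .no (.br .no .no (.br (.br .no (.de 48) .no .no) (.de 41) .no .no) .no) .no (.br .no (.br (.br .no (.de 48) .no .no) .no .no .no) (.de 45) .no)) (.br .no .no .no (.br .no (.sw 0 2 [31,32]) (.de 45) .no)) .no .no) .no)) .no)) .no .no .no) .no)) .no (.br .no .no (.br (.br .no .no (.br .no .no .no (.br .no (.br .no (.br (.br .no (.sw 2 3 [21,22,29,30]) .no (.br .no (.br (.br .no .no (.br .no .no .no (.de 48)) .no) .no .no .no) .no .no)) .no .no .no) (.br (.sw 1 3 [29]) (.br .no .no .no (.br .no (.br (.br .no .no (.br .no .no .no (.br .no .no .no (.br .no .no (.de 44) .no))) .no) .no .no .no) .no .no)) .no .no) .no) (.br .no (.br (.br .no (.br .no .no .no (.br (.br .no (.br .no .no .no (.de 47)) .no .no) (.br (.br .no .no .no (.de 48)) .no .no .no) .no .no)) .no (.br .no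 (.br (.br .no (.br .no .no .no (.de 47)) .no .no) .no .no .no) .no .no)) .no .no .no) (.br (.sw 1 3 [29]) (.br .no .no .no (.br .no (.br (.br .no (.br .no .no .no (.de 47)) .no .no) .no .no .no) .no .no)) .no .no) .no) .no)) .no) .no .no .no) .no)) (.br .no .no .no (.br .no .no (.br (.br .no .no (.br .no .no .no (.br .no .no (.br (.br .no (.br .no .no .no (.br .no (.br (.br .no (.br .no .no .no (.de 47)) .no .no) .no .no .no) .no .no)) .no .no) .no (.br (.br .no (.br .no .no .no (.br (.br .no (.br (.br .no (.br .no .no (.de 44) (.br .no .no (.de 45) .no)) .no (.br .no .no (.de 44) .no)) .no .no (.de 47)) .no .no) (.br (.br .no .no .no (.sw 0 1 [28])) .no .no .no) .no .no)) .no (.br .no (.br (.br .no (.br (.br .no (.br .no .no (.de 44) .no) .no (.br .no .no (.de 44) .no)) .no .no (.de 47)) .no .no) .no .no .no) .no .no)) (.br .no .no .no (.br .no (.br (.br .no (.br (.br .no .no .no (.br .no .no (.de 44) .no)) .no .no (.de 47)) .no .no) .no .no .no) .no .no)) .no .no) .no) .no)) .no) .no .no .no)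 .no)) .no .no) .no (.sw 0 3 [20]) .no) .no .no)

def c0_3_2 : Cert := (.br (.br .no .no (.br .no .no .no (.br (.br .no (.sw 2 3 [17]) (.br .no (.br .no .no .no (.de 27)) .no (.br .no (.br .no .no .no (.br (.br .no (.br .no .no .no (.br (.sw 1 2 [24]) (.br (.br .no .no (.br .no (.br .no .no (.br (.br .no .no (.br .no .no .no (.de 44)) .no) .no .no .no) (.br (.br .no .no (.br .no .no .no (.de 44)) .no) .no (.br (.br .no .no (.br .no (.br (.br .no .no (.br .no (.de 48) .no .no) .no) .no .no (.br .no .no (.br .no (.de 48) .no .no) .no)) .no (.de 45)) (.sw 1 2 [24,31])) .no .no .no) .no)) .no .no) .no) .no (.br (.br .no (.br .no .no (.br (.br .no .no (.br (.br .no (.br .no .no (.br .no .no .no (.br .no (.de 48) .no (.de 43))) (.de 41)) .no (.br .no .no (.br .no .no .no (.br .no (.de 48) .no (.de 43))) .no)) .no .no (.de 44)) .no) .no .no .no) (.br (.br .no .no (.br (.br .no (.br .no .no (.de 41) (.br .no .no (.br .no (.de 48) .no .no) .no)) .no (.br .no .no (.de 41) .no)) .no .no (.de 44)) .no) .no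 (.br (.br .no .no .no (.br .no (.br .no .no (.de 41) (.sw 0 2 [32,33])) .no .no)) .no .no .no) .no)) .no .no) .no .no .no) .no) .no .no)) (.br .no (.br (.br .no .no (.br (.br .no (.br .no (.br (.br .no .no (.br .no (.br .no .no .no (.br .no .no (.br .no .no .no (.de 48)) .no)) .no (.de 44)) (.br .no (.br .no .no .no (.br .no .no (.br .no .no .no (.de 48)) .no)) .no .no)) .no .no (.de 42)) .no (.br (.br .no .no (.br .no (.br .no .no .no (.br .no .no (.de 41) .no)) .no (.de 44)) (.sw 1 2 [24,29,30])) .no .no .no)) .no .no) .no .no .no) .no) .no .no .no) .no (.br (.sw 1 2 [24]) (.br (.br .no .no (.br .no (.br .no (.br (.br .no .no (.br .no .no .no (.de 44)) .no) .no .no .no) .no (.br (.sw 1 2 [29]) (.de 42) .no .no)) .no .no) .no) .no (.br (.br .no (.br .no (.br (.br .no .no (.br (.br .no (.br .no .no (.br .no .no .no (.de 48)) (.br .no .no (.br .no .no .no (.de 43)) .no)) .no (.br .no .no (.br .no .no .no (.de 48)) .no)) .no .no (.de 44)) .no) .no .no .no) .no (.br (.sw 1 2 [29]) (.de 42) .no .no))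 .no .no) .no .no .no) .no) .no .no)) .no) (.br .no .no (.br .no (.br (.br .no .no (.br (.de 34) .no .no .no) .no) .no .no .no) .no (.br (.sw 1 2 [24]) (.br (.br .no .no (.br (.br (.br .no (.br (.br .no .no (.br .no (.br .no .no .no (.br .no .no (.br .no .no .no (.br .no .no (.br .no .no .no (.de 45)) .no)) .no)) .no (.de 45)) (.sw 1 2 [24,31])) .no (.br .no .no .no (.de 44)) .no) .no .no) .no .no (.br (.br .no .no (.br .no .no .no (.de 44)) .no) (.de 42) .no .no)) .no .no .no) .no) .no (.br (.de 34) .no .no .no) .no) .no .no)) .no) .no .no)) .no .no)) .no) .no (.br .no (.br .no .no .no (.br .no (.br .no .no .no (.br (.br .no (.br (.br .no .no (.br (.br .no .no (.br .no (.br .no .no (.br .no .no .no (.br .no (.br .no .no .no (.br .no (.br (.sw 2 3 [17,21,22,23,27,33]) .no .no (.de 41)) .no .no)) .no .no)) (.br .no .no (.br .no (.br .no .no .no (.br .no (.br (.sw 2 3 [17,21,22,23,27,33]) .no .no (.br .no .no (.br .no (.de 48) .no .no) .no)) .no .no)) .no (.de 43)) .no)) .no .no) .no) .no .no .no)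 .no) .no .no (.sw 0 2 [23])) .no .no) (.br (.br .no .no .no (.br (.br .no .no (.br (.de 34) .no .no .no) .no) .no (.br (.br .no .no (.br (.br .no .no (.br .no (.br (.br .no (.br .no .no .no (.br .no (.br .no .no .no (.de 47)) .no .no)) .no (.br .no (.br .no .no .no (.de 41)) .no .no)) .no .no .no) .no .no) (.br .no (.de 42) (.br (.br .no (.br .no .no .no (.br .no (.br .no .no (.br .no (.de 48) .no .no) .no) .no .no)) .no (.br .no (.br .no .no .no (.br .no .no (.sw 0 1 [28,29,34]) .no)) .no .no)) (.br .no .no .no (.br .no (.br .no .no .no (.br .no .no (.sw 0 1 [28,29,34]) .no)) .no .no)) .no .no) .no)) .no .no .no) .no) .no .no .no) .no)) .no .no .no) .no .no)) .no .no)) .no .no) .no)) (.br .no .no (.br (.br .no (.sw 2 3 [17]) (.br .no (.br .no .no .no (.br .no .no (.br (.br .no (.br .no .no .no (.br (.br .no .no (.br (.br .no (.br .no .no (.br (.br .no (.sw 2 3 [17,24,30]) (.br .no (.br .no .no .no (.br .no .no (.br .no .no .no (.br .no (.de 48) .no (.de 43))) .no)) .no (.de 44)) .no) .no .no .no)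 (.br (.br .no (.sw 2 3 [17,24,30]) (.br .no (.br .no .no .no (.br .no .no (.de 41) .no)) .no (.de 44)) .no) .no (.br .no (.br .no .no .no (.br .no (.br .no .no (.de 41) (.br .no .no (.br .no (.de 48) .no .no) .no)) .no .no)) .no .no) .no)) .no .no) (.de 34) .no .no) .no) .no .no .no)) .no (.br .no (.br (.sw 2 3 [17,24]) .no .no (.br (.br .no (.de 34) .no .no) .no (.br (.br .no (.br .no (.br (.br .no .no (.br (.br .no (.br .no .no (.br .no .no .no (.de 48)) (.br .no .no (.br .no .no .no (.de 43)) .no)) .no (.br .no .no (.br .no .no .no (.de 48)) .no)) (.sw 0 3 [31]) .no .no) .no) .no (.br (.br .no (.br .no .no .no (.br .no .no (.br .no .no .no (.de 48)) .no)) .no .no) .no .no .no) .no) (.br (.br .no .no (.br (.br .no (.br .no .no (.br .no .no .no (.br .no (.de 48) .no (.de 43))) (.de 41)) .no (.br .no .no (.br .no .no .no (.br .no (.de 48) .no (.de 43))) .no)) (.sw 0 3 [31]) .no .no) .no) .no .no .no) .no) .no .no) (.de 34) .no .no) .no)) .no .no)) (.br .no .no .no (.br .no (.br (.sw 2 3 [17,24])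 .no .no (.br (.br .no (.br (.br (.br .no .no (.br (.br .no (.sw 2 3 [17,24,31]) (.br .no .no .no (.de 45)) .no) .no .no .no) .no) .no (.br (.br .no .no (.br .no (.br .no .no (.br .no .no .no (.de 41)) (.br .no .no (.br .no .no .no (.br .no (.de 48) .no (.de 43))) .no)) .no .no) .no) .no .no .no) .no) .no .no .no) .no .no) .no (.br (.de 34) (.br (.br (.br .no .no (.br (.br .no (.br (.br .no .no (.br .no .no .no (.br .no (.de 48) .no (.de 43))) (.de 46)) .no .no (.sw 0 2 [32])) .no .no) .no .no .no) .no) .no (.br (.br .no .no (.br (.br .no .no .no (.br .no .no (.br .no .no .no (.sw 0 1 [28,33,34])) .no)) (.sw 0 3 [31]) .no .no) .no) .no .no .no) .no) .no .no .no) .no .no) .no)) .no .no)) .no .no) .no)) .no (.br .no (.br .no .no (.br (.br .no (.br .no .no .no (.br (.sw 1 2 [24]) (.br (.br .no .no .no (.br .no (.br .no .no (.br (.br .no .no (.br .no .no .no (.de 44)) .no) .no .no .no) (.br (.br .no .no (.br .no .no .no (.de 44)) .no) .no (.br (.br .no .no (.br .no (.br (.sw 2 3 [21,22,27,33]) .no (.de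 41) .no) .no .no) (.sw 1 2 [24,31])) .no .no .no) .no)) .no .no)) .no (.br (.br .no (.sw 2 3 [21,22,27]) .no .no) .no .no (.br .no (.br .no .no (.br (.br .no .no (.br (.br .no (.br (.br .no .no .no (.br .no (.de 48) .no (.de 43))) .no (.sw 0 3 [33]) .no) .no .no) .no .no (.de 44)) .no) .no .no .no) (.br (.br .no .no (.br (.br .no (.br (.br .no .no (.br .no (.de 48) .no .no) .no) .no (.de 41) .no) .no .no) .no .no (.de 44)) .no) .no (.br (.br .no .no .no (.br (.br .no .no (.de 41) .no) (.sw 0 2 [32]) .no .no)) .no .no .no) .no)) .no .no)) .no) .no .no)) .no (.br .no (.br (.br .no .no (.br (.sw 1 3 [25,26]) .no .no (.br .no (.br .no (.br (.br .no .no (.br .no (.br (.br .no .no (.br .no .no .no (.de 48)) .no) .no .no .no) .no (.de 44)) (.sw 1 2 [24,30])) .no (.br .no .no .no (.de 43)) .no) (.br (.br .no .no (.sw 1 3 [29,30]) (.sw 1 2 [24,30])) .no .no .no) .no) .no .no)) .no) .no .no .no) .no .no)) (.br .no .no .no (.br .no (.br (.br .no .no (.br (.de 34) .no .no (.br (.br (.br .no .no (.br .no .no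 .no (.de 43)) .no) .no (.br (.br .no .no (.br .no (.br (.br .no (.br .no .no .no (.de 47)) (.sw 1 3 [25,26,33]) .no) .no .no .no) .no (.de 44)) (.sw 1 2 [24,30])) .no .no .no) .no) .no .no .no)) .no) .no .no .no) .no .no)) .no .no) .no) .no .no)) .no) .no .no .no) .no)) .no .no (.br .no .no (.br .no .no .no (.br (.br .no (.sw 2 3 [17]) (.br .no (.br (.de 27) .no .no .no) .no (.br (.de 27) (.br (.br (.br .no (.br .no .no .no (.br (.sw 1 2 [24]) (.br (.br .no .no (.br .no (.sw 0 3 [20,27]) .no (.br .no .no (.br (.br .no .no (.br .no .no .no (.de 44)) .no) .no .no .no) (.br (.br .no .no (.br .no .no .no (.de 44)) .no) .no (.br (.br .no .no (.br .no (.br (.br .no (.de 48) (.sw 1 3 [34]) .no) .no .no .no) .no (.de 45)) (.sw 1 2 [24,31])) .no .no .no) .no))) (.br .no (.br .no .no (.br (.br .no .no (.br .no .no .no (.de 44)) .no) .no .no .no) (.br (.br .no .no (.br .no .no .no (.de 44)) .no) .no (.br (.br .no .no (.br .no (.br (.sw 2 3 [33]) .no (.de 41) .no) .no .no) (.sw 1 2 [24,31])) .no .no .no) .no))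 .no .no)) .no (.br .no .no .no (.br .no (.br .no .no (.br (.br .no .no (.br (.br .no (.br (.br .no .no .no (.br .no (.de 48) .no (.de 43))) .no (.sw 0 3 [20,27,33]) .no) .no .no) .no .no (.de 44)) .no) .no .no .no) (.br (.br .no .no (.br (.br .no (.br (.br .no .no (.br .no (.de 48) .no .no) .no) .no (.de 41) .no) .no .no) .no .no (.de 44)) .no) .no (.br (.br .no .no .no (.br (.br .no .no (.de 41) .no) (.sw 0 2 [32]) .no .no)) .no .no .no) .no)) .no .no)) .no) .no .no)) (.br .no (.br (.br .no .no (.br .no .no .no (.br .no (.br .no (.br (.br .no .no (.br .no (.br (.br .no .no (.br .no .no .no (.de 48)) .no) .no .no .no) .no (.de 44)) (.br .no (.br (.br .no .no (.br .no .no .no (.de 48)) .no) .no .no .no) .no .no)) .no .no (.de 42)) .no (.br (.br .no .no (.br .no (.br (.br .no .no (.de 41) .no) .no .no .no) .no (.de 44)) (.sw 1 2 [24,29,30])) .no .no .no)) .no .no)) .no) .no .no .no) .no (.br (.sw 1 2 [24]) (.br (.br .no .no (.br .no (.sw 0 3 [20,27]) .no (.br .no (.br (.br .no .no (.br .no .no .no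 (.de 44)) .no) .no .no .no) .no (.br (.sw 1 2 [29]) (.de 42) .no .no))) (.br .no (.br .no (.br (.br .no .no (.br .no .no .no (.de 44)) .no) .no .no .no) .no (.br (.sw 1 2 [29]) (.de 42) .no .no)) .no .no)) .no (.br .no .no .no (.br .no (.br .no (.br (.br .no .no (.br (.br .no (.br (.br .no .no (.br .no .no .no (.de 43)) (.de 48)) .no (.sw 0 3 [20,27,33]) .no) .no .no) .no .no (.de 44)) .no) .no .no .no) .no (.br (.sw 1 2 [29]) (.de 42) .no .no)) .no .no)) .no) .no .no)) .no) (.br .no .no (.br .no (.br (.br .no .no (.br .no .no .no (.de 34)) .no) .no .no .no) .no (.br (.sw 1 2 [24]) (.br (.br .no .no (.br .no .no .no (.br (.br .no (.br (.br .no .no (.br .no (.br (.br .no .no (.br .no .no .no (.br .no .no (.br .no .no .no (.de 45)) .no)) .no) .no .no .no) .no (.de 45)) (.sw 1 2 [24,31])) .no (.br .no .no .no (.de 44)) .no) .no .no) .no .no (.br (.br .no .no (.br .no .no .no (.de 44)) .no) (.de 42) .no .no))) (.de 34)) .no (.br .no .no .no (.de 34)) .no) .no .no)) .no) .no .no) .no .no .no) .no .no))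 .no) .no (.br .no (.br .no .no .no (.br (.de 27) (.br (.br (.br .no (.br (.br .no .no (.br (.br .no .no (.br .no (.sw 0 3 [20,27]) .no (.br .no .no (.br .no .no .no (.br .no (.br .no .no .no (.br .no (.br (.br .no (.sw 2 3 [17,21,22,23,33,34]) .no .no) .no .no .no) .no .no)) .no .no)) (.br .no .no (.br .no (.br .no .no .no (.br .no (.br (.br .no (.de 48) (.sw 1 3 [34]) .no) .no .no .no) .no .no)) .no (.de 43)) .no))) (.br .no (.sw 2 3 [17,21,22,23]) .no .no)) .no .no .no) .no) .no .no (.sw 0 2 [23])) .no .no) (.br (.br .no .no .no (.br (.br .no .no (.br .no .no .no (.de 34)) .no) .no (.br (.br .no .no (.br .no .no .no (.br .no .no (.br .no (.br (.br .no (.br .no .no .no (.br (.de 41) (.br (.br .no .no .no (.br .no .no (.br .no .no .no (.br .no .no (.br (.br .no .no .no (.br .no (.sw 0 2 [23,29,35,41]) .no .no)) .no .no .no) .no)) .no)) .no .no .no) .no .no)) .no (.br .no (.br (.de 41) .no .no .no) .no .no)) .no .no .no) .no .no) (.br .no (.de 42) (.br (.br .no (.br .no .no .no (.br (.de 46) (.br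 (.br .no (.de 48) .no .no) .no (.sw 0 1 [28,29]) .no) .no .no)) .no (.br .no (.br (.br .no .no (.sw 0 1 [28,29]) .no) .no .no .no) .no .no)) (.br .no .no .no (.br .no (.br (.br .no .no (.sw 0 1 [28,29]) .no) .no .no .no) .no .no)) .no .no) .no))) (.de 34)) .no .no .no) .no)) .no .no .no) .no .no) .no .no .no) .no .no)) .no .no) .no)) (.br .no .no (.br (.br .no (.sw 2 3 [17]) (.br .no (.br (.br .no .no (.br (.br .no (.br .no .no .no (.br (.br .no .no (.br .no (.de 34) .no (.br .no (.br .no .no (.br (.br .no (.sw 2 3 [17,24,30]) (.br .no (.br (.br .no .no (.br .no .no .no (.br .no (.de 48) .no (.de 43))) .no) .no .no .no) .no (.de 44)) .no) .no .no .no) (.br (.br .no (.sw 2 3 [17,24,30]) (.br .no (.br (.br .no .no (.de 41) .no) .no .no .no) .no (.de 44)) .no) .no (.br .no (.br .no .no .no (.br (.br .no .no (.de 41) .no) (.br (.br .no .no (.br .no (.de 48) .no .no) .no) .no (.de 41) .no) .no .no)) .no .no) .no)) .no .no)) (.br .no (.de 34) .no .no)) .no .no .no)) .no (.br .no (.br (.sw 2 3 [17,24])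 .no .no (.br .no .no (.br .no (.de 34) .no (.br .no (.br .no (.br (.br .no .no (.br (.br .no (.br (.br .no .no (.br .no .no .no (.de 43)) (.de 48)) .no (.sw 0 3 [20,26,33]) .no) .no .no) (.sw 0 3 [31]) .no .no) .no) .no (.br (.br .no (.br (.br .no .no (.br .no .no .no (.de 48)) .no) .no .no .no) .no .no) .no .no .no) .no) (.br (.br .no .no (.br (.br .no (.br (.br .no .no .no (.br .no (.de 48) .no (.de 43))) .no (.sw 0 3 [20,26,33]) .no) .no .no) (.sw 0 3 [31]) .no .no) .no) .no .no .no) .no) .no .no)) .no)) .no .no)) (.br .no .no .no (.br .no (.br (.sw 2 3 [17,24]) .no .no (.br .no .no (.br .no (.sw 0 3 [20,26]) .no (.br (.br (.br .no .no (.br (.br .no (.br (.br .no (.br .no .no (.br .no (.br .no .no .no (.br .no .no (.br .no .no .no (.de 46)) .no)) .no (.de 43)) (.de 47)) (.sw 1 3 [33]) .no) .no .no .no) .no .no) .no .no .no) .no) .no (.br (.br .no .no (.br (.br .no (.br .no .no (.br .no .no .no (.sw 0 1 [28,34])) .no) .no .no) (.sw 0 3 [31]) .no .no) .no) .no .no .no) .no) .no .no .no)) .no))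 .no .no)) .no .no) .no) .no .no .no) .no (.br (.br .no .no (.br (.br .no (.br .no .no .no (.br (.sw 1 2 [24]) (.br .no .no (.br .no (.de 34) .no (.br .no (.br .no .no (.br (.br .no .no (.br (.sw 1 3 [25,29,30,31]) .no .no (.de 44)) .no) .no .no .no) (.br (.br .no .no (.br (.br .no (.br (.br .no .no (.br .no (.de 48) .no .no) .no) .no (.de 41) .no) .no .no) .no .no (.de 44)) .no) .no (.br (.br .no .no .no (.br (.sw 1 2 [24,31,32]) (.br (.br .no .no (.br .no (.de 48) .no .no) .no) .no (.de 41) .no) .no .no)) .no .no .no) .no)) .no .no)) .no) .no .no)) .no (.br .no (.br (.br .no (.br .no .no .no (.br .no (.br .no (.br (.br .no .no (.br .no .no .no (.de 44)) (.sw 1 2 [24,30])) .no (.br .no .no .no (.de 43)) .no) (.br (.br .no .no (.sw 1 3 [29,30]) (.sw 1 2 [24,30])) .no .no .no) .no) .no .no)) (.sw 1 3 [25]) .no) .no .no .no) .no .no)) (.br .no .no .no (.br .no (.br (.br .no (.br .no .no .no (.br (.br (.br .no .no (.br .no .no .no (.de 43)) .no) .no (.br (.br .no .no (.br .no .no .no (.de 44)) (.sw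 1 2 [24,30])) .no .no .no) .no) .no .no .no)) (.sw 1 3 [25]) .no) .no .no .no) .no .no)) .no .no) .no) (.br (.br (.br .no (.br .no .no .no (.br (.sw 1 2 [24]) (.br (.br .no .no (.br .no (.sw 2 3 [21,22]) .no .no) (.br .no (.sw 2 3 [21,22]) (.br .no .no (.br (.br .no .no (.br .no .no .no (.de 44)) .no) .no .no .no) (.br (.br .no .no (.br .no .no .no (.de 44)) .no) .no (.br (.br .no .no (.br .no (.br (.br .no (.de 48) .no .no) .no .no .no) .no .no) (.sw 1 2 [24,31])) .no .no .no) .no)) .no)) .no (.br .no .no .no (.br .no (.sw 2 3 [21,22]) (.br .no .no (.br (.br .no .no (.br (.br .no (.br (.br .no (.br .no (.br .no .no .no (.de 44)) .no (.de 43)) .no (.sw 1 2 [34])) .no .no .no) .no .no) .no .no (.de 44)) .no) .no .no .no) (.br (.br .no .no (.br (.br .no (.br (.br .no (.de 48) .no .no) .no .no .no) .no .no) .no .no (.de 44)) .no) .no (.br (.br .no .no .no (.br (.br .no (.de 41) .no .no) (.sw 0 2 [32]) .no .no)) .no .no .no) .no)) .no)) .no) .no .no)) .no (.br .no (.br (.br .no .no (.br .no .no .no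 (.br .no (.br .no (.br (.sw 2 3 [21,22,29]) .no (.br .no .no .no (.de 43)) .no) (.br (.br .no .no (.sw 1 3 [29,30]) (.sw 1 2 [24,30])) .no .no .no) .no) (.br .no (.br (.br .no .no (.br .no (.br (.br .no (.br .no .no .no (.de 47)) .no .no) .no .no .no) .no (.de 44)) (.sw 1 2 [24,30])) .no (.br .no .no .no (.de 43)) .no) (.br (.br .no .no (.sw 1 3 [29,30]) (.sw 1 2 [24,30])) .no .no .no) .no) .no)) .no) .no .no .no) .no .no)) (.br .no .no .no (.br .no (.br (.br .no .no (.br .no .no .no (.br .no .no (.br (.br .no .no (.br .no .no .no (.de 43)) .no) .no (.br (.br .no .no (.br .no (.br (.br .no (.br (.br .no (.br .no .no .no (.de 44)) .no (.de 43)) .no .no (.de 47)) .no .no) .no .no .no) .no (.de 44)) (.sw 1 2 [24,30])) .no .no .no) .no) .no)) .no) .no .no .no) .no .no)) .no .no) .no (.sw 0 3 [20]) .no) .no .no)) .no) .no .no .no) .no)))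

def c0_3_3 : Cert := (.br (.br .no (.br .no .no (.br (.br (.br .no (.br .no .no .no (.br .no .no (.br (.br .no (.br .no .no .no (.br .no .no (.br (.br .no (.br .no .no .no (.br .no .no (.de 45) .no)) .no .no) .no .no .no) (.br (.br .no (.br .no .no .no (.br .no .no (.de 45) .no)) .no .no) .no (.br (.br .no (.br .no .no (.br (.br .no (.de 48) (.br .no (.de 48) .no .no) .no) .no .no .no) (.br (.de 46) .no (.br .no (.de 48) .no .no) .no)) .no (.br .no .no (.de 45) .no)) (.br .no .no .no (.br .no .no (.de 45) .no)) .no .no) .no))) .no (.br .no (.br .no .no (.br (.br .no (.br .no .no .no (.br .no (.br (.br .no .no .no (.br .no (.de 48) .no (.br .no .no (.de 44) .no))) .no (.br .no .no .no (.br .no (.de 48) .no (.br .no .no (.de 44) .no))) .no) (.de 45) .no)) .no .no) .no .no .no) (.br (.br .no (.br .no .no .no (.br .no (.br (.br .no .no (.br .no (.de 48) .no .no) .no) .no (.de 41) .no) (.de 45) .no)) .no .no) .no (.br (.br .no (.br .no .no (.br (.br .no .no (.sw 1 3 [33,34]) .no) .no .no .no) .no)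 .no (.br .no (.br (.br .no .no (.br .no (.de 48) .no .no) .no) .no (.de 41) .no) (.de 45) .no)) (.br .no .no .no (.br .no (.br (.br .no .no (.br .no (.de 48) .no .no) .no) .no (.de 41) .no) (.de 45) .no)) .no .no) .no)) .no .no)) .no .no (.br .no (.br .no .no .no (.br .no .no (.br (.br .no (.br (.br .no .no (.br (.br .no (.br .no (.br .no .no (.br .no .no .no (.de 45)) (.br .no .no (.br .no .no .no (.de 46)) .no)) .no (.de 48)) .no .no) .no .no .no) .no) .no .no .no) .no .no) .no .no .no) (.br (.br .no (.br (.br .no .no (.br (.br .no (.de 48) (.br .no (.de 48) .no .no) .no) .no .no .no) .no) .no .no .no) .no .no) .no (.br (.br .no (.br (.br .no .no (.br .no (.de 48) .no .no) .no) .no (.sw 0 3 [32]) .no) .no .no) (.br (.br .no .no (.br (.br .no (.de 48) (.br .no (.de 48) .no .no) .no) .no .no .no) .no) .no .no .no) .no .no) .no))) .no .no)) .no)) .no .no) (.br (.br .no (.br .no .no (.br (.br .no (.br .no .no .no (.br .no .no (.br .no .no .no (.br (.br .no (.br .no .no (.br (.de 41) .no .no .no)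 (.br (.de 41) .no (.br (.br .no (.br .no .no (.br .no .no .no (.br .no .no (.br (.br .no (.br .no .no .no .lf) .no (.de 48)) .no .no .no) .no)) .no) .no .no) .no .no .no) .no)) .no (.br .no .no (.de 45) .no)) .no .no .no)) (.br .no .no (.br (.br .no (.br .no .no (.br (.br .no .no (.br .no (.de 48) .no .no) .no) .no .no .no) (.br (.de 46) .no (.br (.br .no (.de 48) .no .no) .no .no .no) .no)) .no (.br .no .no (.de 45) .no)) .no .no (.de 43)) .no))) .no (.de 34)) .no .no (.br .no (.br .no .no .no (.br .no .no (.br .no .no .no (.br (.br .no (.br (.br .no .no (.br (.br .no (.br .no .no (.br .no .no .no (.br .no .no (.br .no .no .no (.br .no (.sw 0 3 [32,39,46]) .no .no)) .no)) .no) .no .no) .no .no .no) .no) .no (.sw 0 3 [32]) .no) .no .no) .no .no .no)) (.br .no .no (.br (.br .no (.br (.br .no .no (.br (.br .no (.de 48) .no .no) .no .no .no) .no) .no (.sw 0 3 [32]) .no) .no .no) .no .no (.de 43)) .no))) .no .no)) (.br (.br .no (.br .no .no .no (.br .no .no (.br .no .no .no (.br (.br .no (.sw 2 3 [31])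 (.br .no .no .no (.de 45)) .no) .no (.de 43) .no)) (.br .no .no (.br (.br .no (.sw 2 3 [31]) (.br .no .no .no (.de 45)) .no) .no .no .no) .no))) .no (.de 34)) .no .no .no)) .no (.br .no .no (.br (.br .no (.br .no .no .no (.br .no .no (.br .no (.br (.br .no (.br .no .no (.br (.de 41) .no .no .no) (.br (.de 41) .no (.br (.br .no .no .no (.br .no .no (.br .no .no .no (.br .no .no (.br (.br .no (.de 48) .no (.br .no (.sw 1 3 [30,36,42,47,48]) .no .no)) .no .no .no) .no)) .no)) .no .no .no) .no)) .no (.br .no .no (.de 45) .no)) .no .no .no) .no .no) (.br .no (.de 42) (.br (.sw 1 3 [30]) (.br .no .no .no (.br .no .no (.de 45) .no)) .no .no) .no))) .no (.de 34)) .no .no (.br .no (.br .no .no .no (.br .no .no (.br .no (.br (.br .no (.br (.br .no .no (.br (.br .no .no .no (.br .no .no (.br .no .no .no (.br .no .no (.br .no .no .no (.sy 42 30 4)) .no)) .no)) .no .no .no) .no) .no (.sw 0 3 [32]) .no) .no .no) .no .no .no) .no .no) (.br .no (.de 42) (.br (.sw 1 3 [30]) (.br (.br .no .no (.br (.br .no .no (.sw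 0 1 [28,29]) .no) .no .no .no) .no) .no .no .no) .no .no) .no))) .no .no)) .no)) .no .no .no) .no .no) .no .no .no) .no) .no (.br .no (.br (.br (.br .no (.br .no .no .no (.br .no (.sw 0 2 [18,19,23,24]) (.br (.br .no .no (.br .no (.br .no .no (.br (.br .no (.br .no .no .no (.br .no (.br (.br .no .no .no (.br .no (.de 48) .no (.br .no .no (.de 44) .no))) .no .no (.de 41)) .no .no)) .no .no) .no .no .no) (.br (.br .no (.br .no .no .no (.br .no (.br (.br .no .no (.br .no (.de 48) .no .no) .no) .no .no (.br .no .no (.br .no (.de 48) .no .no) .no)) .no .no)) .no .no) .no (.br (.br .no (.br .no .no .no (.br (.de 46) .no .no .no)) .no (.sw 1 2 [31])) (.br .no .no .no (.br .no (.br (.br .no .no (.br .no (.de 48) .no .no) .no) .no .no (.br .no .no (.br .no (.de 48) .no .no) .no)) .no .no)) .no .no) .no)) .no (.br .no .no (.br (.br .no (.br .no .no .no (.br .no (.br (.br .no (.br .no (.br .no .no (.de 44) (.br .no .no (.de 45) .no)) .no (.de 48)) .no .no) .no .no .no) .no .no)) .no .no) .no .no .no) (.br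 (.br .no (.br .no .no .no (.br .no (.br (.br .no (.de 48) (.sw 1 3 [34]) .no) .no .no .no) .no .no)) .no .no) .no (.br (.br .no (.br .no .no .no (.br (.de 46) (.br .no .no (.br .no (.de 48) .no .no) .no) .no .no)) .no (.sw 1 2 [31])) (.br .no .no .no (.br .no (.br (.br .no (.de 48) (.sw 1 3 [34]) .no) .no .no .no) .no .no)) .no .no) .no))) (.br .no (.br .no .no (.br (.br .no (.br .no .no .no (.br .no (.sw 0 2 [18,19,23,24,31,32]) (.de 45) .no)) .no .no) .no .no .no) (.br (.br .no (.br .no .no .no (.br .no (.sw 0 2 [18,19,23,24,31,32]) (.de 45) .no)) .no .no) .no (.br (.br .no (.br .no .no (.br (.br .no .no (.br .no (.de 48) .no .no) .no) .no .no .no) .no) .no (.sw 1 2 [31])) (.br .no .no .no (.br .no (.sw 0 2 [18,19,23,24,31,32]) (.de 45) .no)) .no .no) .no)) .no .no)) .no .no .no) .no)) .no .no) (.br (.br .no (.br .no .no (.br (.br .no .no (.br .no .no .no (.br .no .no (.br .no .no .no (.br (.br .no (.br .no .no .no (.br (.de 41) (.br (.br .no (.br .no .no (.br .no .no .no (.br .no .no (.br (.br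 .no .no .no (.de 48)) .no .no .no) .no)) .no) .no .no) .no .no .no) .no .no)) .no (.br .no (.br (.de 41) .no .no .no) .no .no)) .no .no .no)) (.br .no .no (.br (.br .no (.br .no .no .no (.br (.de 46) (.br (.br .no (.de 48) .no .no) .no (.br .no (.de 48) .no .no) .no) .no .no)) .no (.br .no (.br (.br .no .no (.br .no (.de 48) .no .no) .no) .no .no .no) .no .no)) .no .no (.de 43)) .no))) (.de 34)) .no .no .no) .no) .no (.br .no (.br (.br .no .no (.br .no .no .no (.br .no .no (.br .no (.br (.br .no .no (.br .no (.br (.de 41) .no .no .no) .no (.de 45)) (.br .no (.br (.de 41) .no .no .no) .no .no)) .no (.br .no .no .no (.de 44)) .no) .no .no) (.br .no (.de 42) (.br (.br .no .no (.br .no (.br (.br .no .no (.sw 0 1 [28,29]) .no) .no .no .no) .no (.de 45)) (.br .no (.br (.br .no .no (.sw 0 1 [28,29]) .no) .no .no .no) .no .no)) .no .no .no) .no))) (.de 34)) .no (.br .no .no .no (.de 34)) .no) (.br (.br .no .no (.br .no .no .no (.br .no .no (.br .no (.br (.br .no (.br .no .no .no (.br (.de 41) (.br (.br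 .no .no .no (.br .no .no (.br .no .no .no (.br .no .no (.br (.br .no .no .no (.br .no .lf .no .no)) .no .no .no) .no)) .no)) .no .no .no) .no .no)) .no (.sw 1 2 [31])) .no .no .no) .no .no) (.br .no (.de 42) (.br (.sw 1 3 [30]) (.br .no .no .no (.br .no (.br (.br .no .no (.sw 0 1 [28,29]) .no) .no .no .no) .no .no)) .no .no) .no))) (.de 34)) .no .no .no) .no)) .no .no .no) .no .no) .no .no .no) (.br (.br (.br .no (.br .no .no .no (.br .no (.br (.br .no (.br .no .no .no (.br .no .no (.br (.br .no .no (.br .no .no .no (.de 44)) .no) .no .no .no) (.br (.br .no .no (.br .no .no .no (.de 44)) .no) .no (.br (.br .no .no (.br .no .no .no (.de 45)) (.br .no .no (.de 45) .no)) .no .no .no) .no))) .no (.sw 1 2 [26])) .no .no .no) (.br (.sw 1 3 [25]) (.br .no .no .no (.br .no (.br .no .no (.br (.br .no (.br (.br .no .no (.br (.br .no .no .no (.br .no (.de 48) .no (.br .no .no (.br .no .no .no (.de 45)) .no))) .no .no .no) .no) .no .no (.br (.br .no .no (.br .no .no .no (.br .no (.de 48) .no (.br .no .no (.de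 44) .no))) .no) .no (.de 45) .no)) .no .no) .no .no .no) (.br (.br .no (.br (.br .no .no (.br (.br .no .no (.sw 1 3 [25,32,33,34]) .no) .no .no .no) .no) .no .no (.br (.br .no .no (.de 41) .no) .no (.de 45) .no)) .no .no) .no (.br (.br .no .no .no (.br (.sw 1 2 [26,31,32]) .no (.de 45) .no)) (.br (.br .no .no (.br (.br .no .no (.sw 1 3 [25,32,33,34]) .no) .no .no .no) .no) .no .no (.br (.br .no .no (.de 41) .no) .no (.de 45) .no)) .no .no) .no)) .no .no)) .no .no) .no)) .no .no) (.br (.br .no (.br .no .no (.br (.sw 1 3 [25]) (.br .no .no .no (.de 34)) .no .no) .no) .no (.br .no (.br (.br .no (.br .no .no .no (.br .no .no (.br .no (.br (.br .no .no (.br .no .no .no (.de 45)) (.br .no .no (.de 45) .no)) .no (.br .no .no .no (.de 44)) .no) .no .no) (.br .no (.de 42) (.br (.br .no .no (.sw 1 3 [25,30,31]) (.br .no .no (.de 45) .no)) .no .no .no) .no))) .no (.de 34)) .no .no .no) (.br (.sw 1 3 [25]) (.br .no .no .no (.de 34)) .no .no) .no)) .no .no .no) .no .no) .no .no .no) .no)) (.br .no .no .no (.br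 .no (.sw 0 2 [18,19]) (.br (.br (.br .no (.br (.br .no .no (.br (.br .no (.br .no .no .no (.br .no .no (.br .no .no .no (.br .no (.br .no .no .no (.br .no .no (.de 45) .no)) .no .no)) (.br .no .no (.br .no (.br .no .no .no (.br .no .no (.de 45) .no)) .no (.de 43)) .no))) .no (.sw 1 2 [26])) (.br .no .no .no (.br .no (.br .no .no (.br .no .no .no (.br .no (.br (.br .no .no (.br (.br .no .no .no (.br .no (.de 48) .no .no)) .no .no .no) .no) .no .no (.sw 0 2 [23,30,31])) .no .no)) (.br .no .no (.br .no (.br (.br .no .no (.br (.br .no .no (.br .no (.de 48) .no .no) .no) .no .no .no) .no) .no .no (.br (.br .no .no (.de 41) .no) .no (.de 45) .no)) .no (.de 43)) .no)) .no .no)) .no .no) .no) .no .no (.sw 0 2 [23])) .no .no) (.br (.br .no .no .no (.br (.br .no (.br .no .no .no (.de 34)) .no .no) .no (.sw 0 1 [24]) .no)) .no .no .no) .no .no) .no .no .no) .no)) .no .no)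

def c0_3_4 : Cert := (.br .no .no (.br (.br .no .no (.br c0_3_0 .no .no (.br .no .no (.br .no .no .no (.br (.br .no (.br .no .no .no (.br (.de 27) (.br (.br (.br .no (.br .no .no (.br (.br .no .no (.br .no .no .no (.br .no (.br .no .no (.br (.br .no (.br .no .no .no (.br (.br .no .no (.br .no .no .no (.br .no (.de 48) .no (.br .no .no (.de 44) .no))) .no) (.br (.br .no .no .no (.br .no (.de 48) .no (.br .no .no (.de 44) .no))) .no (.sw 0 3 [20,27,33]) .no) .no .no)) .no (.br .no (.br (.br .no .no (.br .no .no .no (.br .no (.de 48) .no (.br .no .no (.de 44) .no))) .no) .no .no .no) .no .no)) .no .no (.br .no (.br .no .no .no (.br (.br .no .no (.br .no .no .no (.br .no (.de 48) .no .no)) .no) (.br (.br .no .no .no (.br .no (.de 48) .no .no)) .no (.sw 0 3 [20,27,33]) .no) .no .no)) .no .no)) (.br (.br .no (.br .no .no .no (.br (.br .no .no (.de 41) .no) (.br (.br .no .no (.br .no (.de 48) .no .no) .no) .no (.de 41) .no) .no .no)) .no (.br .no (.br (.br .no .no (.de 41) .no) .no .no .no) .no .no))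 .no .no .no)) .no .no)) .no) .no .no .no) (.br (.br .no .no (.br .no .no .no (.br .no (.br .no .no (.br (.br .no (.sw 2 3 [30]) (.br .no (.br (.br .no .no (.br .no .no .no (.br .no (.de 48) .no (.de 43))) .no) .no .no .no) .no (.de 44)) .no) .no .no .no) (.br (.br .no (.sw 2 3 [30]) (.br .no (.br (.br .no .no (.de 41) .no) .no .no .no) .no (.de 44)) .no) .no (.br .no (.br .no .no .no (.br (.br .no .no (.de 41) .no) (.br (.br .no .no (.br .no (.de 48) .no .no) .no) .no (.de 41) .no) .no .no)) .no .no) .no)) .no .no)) .no) .no (.br (.br .no .no (.br .no (.sw 0 3 [20,27]) .no (.br .no .no (.br (.br .no (.br .no .no .no (.br .no (.br (.br .no (.br .no (.br .no .no (.de 44) (.br .no .no (.de 45) .no)) .no (.de 48)) .no .no) .no .no .no) .no .no)) .no .no) .no .no .no) (.br (.br .no (.br .no .no .no (.br .no (.br (.br .no (.de 48) (.sw 1 3 [34]) .no) .no .no .no) .no .no)) .no .no) .no (.br (.br .no (.br .no .no .no (.br (.de 46) (.br .no .no (.br .no (.de 48) .no .no) .no) .no .no)) .no (.br .no (.br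 (.br .no (.de 48) (.sw 1 3 [34]) .no) .no .no .no) .no .no)) (.br .no .no .no (.br .no (.br (.br .no (.de 48) (.sw 1 3 [34]) .no) .no .no .no) .no .no)) .no .no) .no))) (.br .no (.br .no .no (.br (.br .no (.br .no .no .no (.br .no (.sw 0 2 [31,32]) (.de 45) .no)) .no .no) .no .no .no) (.br (.br .no (.br .no .no .no (.br .no (.sw 0 2 [31,32]) (.de 45) .no)) .no .no) .no (.br (.br .no (.br .no .no (.br (.br .no .no (.br .no (.de 48) .no .no) .no) .no .no .no) .no) .no (.br .no (.br (.sw 2 3 [33]) .no (.de 41) .no) (.de 45) .no)) (.br .no .no .no (.br .no (.sw 0 2 [31,32]) (.de 45) .no)) .no .no) .no)) .no .no)) .no .no .no) .no)) (.br .no .no .no (.br (.br .no .no (.br .no .no .no (.br .no (.br .no (.br (.br .no (.br .no .no .no (.br (.br .no .no (.br .no .no .no (.de 48)) .no) (.br (.br .no .no (.br .no .no .no (.de 48)) (.de 48)) .no (.sw 0 3 [20,27,33]) .no) .no .no)) (.br .no (.br (.br .no .no (.br .no .no .no (.de 48)) .no) .no .no .no) .no (.de 44)) .no) .no .no .no) .no (.br (.sw 1 2 [29])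 (.de 42) .no .no)) .no .no)) .no) .no (.br (.br .no .no (.br .no (.sw 0 3 [20,27]) .no (.br .no (.br (.br .no (.br .no .no .no (.br .no (.br (.br .no .no (.sw 1 3 [34]) .no) .no .no .no) .no .no)) .no .no) .no .no .no) .no (.br (.sw 1 2 [29]) (.de 42) .no .no))) (.br .no (.br .no (.br (.br .no (.br .no .no .no (.br .no (.sw 0 2 [31,32]) (.de 45) .no)) .no .no) .no .no .no) .no (.br (.sw 1 2 [29]) (.de 42) .no .no)) .no .no)) .no .no .no) .no)) .no) (.br .no .no (.br .no .no .no (.br (.br .no .no (.br .no .no .no (.de 34)) .no) .no (.br (.br .no .no (.br .no .no .no (.br (.br .no (.br (.br .no (.br .no .no .no (.br (.de 46) (.br .no .no (.sw 0 3 [20,27,34]) .no) .no .no)) .no (.br .no (.br (.br .no .no (.br .no .no .no (.br .no .no (.de 44) .no)) .no) .no .no .no) .no .no)) .no .no .no) .no .no) .no .no (.br (.br .no (.br .no .no .no (.br .no (.br (.br .no .no (.sw 0 1 [28]) .no) .no .no .no) .no .no)) .no .no) (.de 42) .no .no))) (.de 34)) .no .no .no) .no)) .no) .no .no) .no .no .no) .no .no))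 .no (.br .no (.br (.de 27) .no .no .no) .no .no)) .no .no .no)) (.br .no .no (.br (.br .no (.br .no .no .no c0_3_1) .no (.br .no (.br (.br .no .no (.br (.br .no (.br .no .no (.br (.br .no .no (.sw 1 3 [24,25]) (.br .no (.de 34) .no .no)) .no .no .no) .no) .no (.br .no (.br (.br .no .no (.br .no (.de 34) .no (.br .no (.br .no (.br (.br .no .no (.br .no (.br (.br .no .no (.br .no .no .no (.de 48)) .no) .no .no .no) .no (.de 44)) (.br .no (.br (.br .no .no (.br .no .no .no (.de 48)) .no) .no .no .no) .no .no)) .no (.br .no .no .no (.de 43)) .no) (.br (.br .no .no (.sw 1 3 [24,25,29,30]) (.br .no (.br (.br .no .no (.br .no .no .no (.br .no (.de 48) .no (.br .no .no (.de 44) .no))) .no) .no .no .no) .no .no)) .no .no .no) .no) .no .no)) (.br .no (.de 34) .no .no)) .no (.br .no .no .no (.br .no (.de 34) .no .no)) .no) (.br (.br .no .no (.sw 1 3 [24,25]) (.br .no (.de 34) .no .no)) .no .no .no) .no)) (.br .no .no .no (.br .no (.br (.br .no .no (.br .no (.sw 0 3 [20,26]) .no (.br (.br (.br .no .no (.br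 .no .no .no (.de 43)) .no) .no (.br (.br .no .no (.br .no (.br (.br .no (.br .no .no .no (.de 47)) (.sw 1 3 [33]) .no) .no .no .no) .no (.de 44)) (.br .no (.br (.br .no (.br .no .no .no (.de 47)) (.sw 1 3 [33]) .no) .no .no .no) .no .no)) .no .no .no) .no) .no .no .no)) (.br .no (.br (.br (.br .no .no (.br .no .no .no (.de 43)) .no) .no (.br (.br .no .no (.br .no (.br (.sw 2 3 [32]) .no (.br .no .no .no (.de 41)) .no) .no .no) (.br .no (.br (.sw 2 3 [32]) .no (.br .no .no .no (.de 41)) .no) (.de 44) .no)) .no .no .no) .no) .no .no .no) .no .no)) .no (.br .no .no .no (.br .no (.br (.br (.br .no .no (.br (.br .no (.br (.br .no .no (.br .no .no .no (.br .no (.de 48) .no (.de 43))) (.de 46)) .no (.sw 0 3 [20,26,32]) .no) .no .no) .no .no (.de 43)) .no) .no (.br (.br .no .no .no (.br (.br .no .no (.br .no .no .no (.de 41)) .no) (.sw 0 2 [31]) .no .no)) .no .no .no) .no) .no .no .no) .no .no)) .no) (.br (.br .no .no (.sw 1 3 [24,25]) (.br .no (.br (.br (.br .no (.br .no .no .no (.br .no (.br (.sw 2 3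 [32]) .no (.br .no .no .no (.br .no .no (.br .no .no .no (.br .no .no (.de 44) .no)) .no)) .no) (.de 44) .no)) .no .no) .no (.br (.br .no (.br .no .no (.br (.br .no .no (.sw 1 3 [24,25,32,33]) (.de 41)) .no .no .no) .no) .no (.sw 1 2 [30])) (.br .no .no .no (.br .no (.br (.sw 2 3 [32]) .no (.br .no .no .no (.de 41)) .no) (.de 44) .no)) .no .no) .no) .no .no .no) .no .no)) .no .no .no) .no)) .no .no) .no) .no .no .no) .no .no)) .no .no (.br .no (.br .no .no .no (.br (.br .no .no (.br (.br .no (.br (.br .no .no (.br .no (.br .no .no .no (.br .no (.br .no .no (.br .no .no .no (.br .no (.br (.br .no .no (.br (.br .no .no .no (.br .no (.de 48) .no .no)) .no .no .no) .no) .no .no (.br (.br .no .no (.br .no .no .no (.br .no (.de 48) .no .no)) .no) .no (.de 45) .no)) .no .no)) (.br .no .no (.br .no (.sw 0 3 [23,30]) .no (.de 43)) .no)) .no .no)) .no .no) .no) .no (.sw 0 3 [23]) .no) .no .no) (.br (.br .no .no (.br (.br .no (.br .no .no .no (.br (.br .no .no (.br .no (.sw 0 3 [23,29]) .no (.br .no (.br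 .no .no (.br (.br .no (.br .no .no .no (.de 47)) (.br .no .no .no (.sw 0 1 [28,29,34])) .no) .no .no .no) (.br (.br .no (.br .no .no .no (.de 47)) (.br .no .no .no (.sw 0 1 [28,29,34])) .no) .no (.de 45) .no)) .no .no)) (.br .no (.de 42) .no .no)) .no .no .no)) (.br .no (.br (.br .no .no (.br .no (.sw 0 3 [23,29]) .no (.br .no (.br .no .no .no (.br (.br .no .no (.br .no .no .no (.br .no (.de 48) .no .no)) (.de 41)) .no .no .no)) .no .no)) (.br .no (.de 42) .no .no)) .no .no .no) .no (.br (.br .no .no (.br .no (.sw 0 3 [23,29]) .no (.br .no (.br .no .no .no (.br (.sw 1 2 [32]) (.br .no .no (.br .no .no .no (.sw 0 1 [28,29,34])) .no) .no .no)) .no .no)) (.br .no (.de 42) .no .no)) .no .no .no)) .no) .no .no .no) .no) .no .no .no) .no .no) .no) (.br (.br (.br .no (.br (.br .no .no (.br (.br .no .no (.br .no (.br .no .no (.br .no .no .no (.br .no (.br .no .no .no (.br .no (.br (.br .no .no .no (.br .no (.de 48) .no .no)) .no .no (.de 41)) .no .no)) .no .no)) (.br .no .no (.br .no (.sw 0 3 [23,30])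 .no (.de 43)) .no)) .no .no) (.br .no (.br .no .no (.br .no .no .no (.br .no (.br .no .no .no (.br .no (.br (.sw 2 3 [33]) .no (.br .no .no .no (.br .no (.de 48) .no .no)) .no) (.de 45) .no)) .no .no)) (.br .no .no (.br .no (.sw 0 3 [23,30]) .no (.de 43)) .no)) (.br .no .no (.br .no .no .no (.br .no (.br .no .no .no (.br .no (.br (.br .no (.br .no (.br .no .no (.de 44) .no) .no .no) .no (.sw 1 2 [34])) .no .no .no) (.de 45) .no)) .no .no)) (.br .no .no (.br .no (.sw 0 3 [23,30]) .no (.de 43)) .no)) .no)) .no .no .no) .no) .no (.sw 0 3 [23]) .no) .no .no) (.br (.br .no .no (.br (.br .no .no (.br .no .no .no (.br .no .no (.br .no .no (.br .no (.sw 0 3 [23,29]) .no (.br .no (.br .no .no .no (.br (.br .no (.br (.br .no (.br .no .no (.de 44) .no) .no .no) .no .no (.de 47)) .no .no) (.br (.br .no .no .no (.sw 0 1 [28,29])) .no .no .no) .no .no)) .no .no)) (.br .no (.de 42) .no .no)) .no)) .no) .no .no .no) .no) .no .no .no) .no .no) .no (.sw 0 3 [20]) .no) .no .no)) .no .no)) .no))) .no) .no .no .no)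 (.br (.br .no .no c0_3_2 .no) .no (.br (.br .no .no .no (.br .no .no (.br .no .no .no (.br (.br .no (.br .no .no .no (.br .no (.sw 0 2 [18,19]) (.br (.br (.br .no (.br .no .no (.br (.br .no (.br .no .no .no (.br .no (.br .no .no (.br (.br .no (.br .no .no (.br (.br .no .no (.br .no .no .no (.br .no (.de 48) .no (.br .no .no (.br .no .no .no (.de 45)) .no))) .no) .no .no .no) (.br (.sw 1 2 [26,32]) .no (.de 45) .no)) .no (.br .no .no (.de 44) .no)) .no .no (.br .no (.br .no .no (.br (.br .no .no (.br .no .no .no (.br .no (.de 48) .no .no)) .no) .no .no .no) (.br (.sw 1 2 [26,32]) .no (.de 45) .no)) .no .no)) (.br (.br .no (.br .no .no (.br (.br .no .no (.de 41) .no) .no .no .no) (.br (.sw 1 2 [26,32]) .no (.de 45) .no)) .no (.br .no .no (.de 44) .no)) .no .no .no)) .no .no)) .no .no) .no .no .no) (.br (.br .no (.br .no .no .no (.br .no (.br .no .no (.br (.br .no (.sw 2 3 [30]) (.br .no .no .no (.de 44)) .no) .no .no .no) (.br (.br .no (.sw 2 3 [30]) (.br .no .no .no (.de 44)) .no) .no (.br .no (.br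 .no .no (.br (.br .no .no (.de 41) .no) .no .no .no) (.br (.sw 1 2 [26,32]) .no (.de 45) .no)) .no .no) .no)) .no .no)) .no .no) .no (.br (.br .no (.br .no .no .no (.br .no .no (.br (.br .no (.br .no .no .no (.br .no .no (.de 45) .no)) .no .no) .no .no .no) (.br (.br .no (.br .no .no .no (.br .no .no (.de 45) .no)) .no .no) .no (.br (.br .no (.br .no .no (.br (.br .no (.de 48) (.br .no (.de 48) .no .no) .no) .no .no .no) (.br (.de 46) .no (.br .no (.de 48) .no .no) .no)) .no (.br .no .no (.de 45) .no)) (.br .no .no .no (.br .no .no (.de 45) .no)) .no .no) .no))) .no (.sw 1 2 [26])) (.br .no .no .no (.br .no (.br .no .no (.br (.br .no (.br (.br .no .no (.br (.br .no .no .no (.br .no (.de 48) .no (.br .no .no (.br .no .no .no (.de 45)) .no))) .no .no .no) .no) .no .no (.sw 0 2 [31])) .no .no) .no .no .no) (.br (.br .no (.br (.br .no .no (.br (.br .no .no (.br .no (.de 48) .no .no) .no) .no .no .no) .no) .no .no (.sw 0 2 [31])) .no .no) .no (.br (.br .no .no .no (.br (.br .no .no (.de 41) .no) .no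 (.de 45) .no)) (.br (.br .no .no (.br (.br .no .no (.br .no (.de 48) .no .no) .no) .no .no .no) .no) .no .no (.sw 0 2 [31])) .no .no) .no)) .no .no)) .no .no) .no)) (.br .no .no .no (.br (.br .no (.br .no .no .no (.br .no (.br .no (.br (.br .no (.br .no .no (.br (.br .no .no (.br .no .no .no (.de 48)) .no) .no .no .no) (.br (.sw 1 2 [26,32]) .no (.de 45) .no)) (.br .no .no .no (.de 44)) .no) .no .no .no) .no (.br (.sw 1 2 [29]) (.de 42) .no .no)) .no .no)) .no .no) .no (.br (.br .no (.br .no .no .no (.br .no (.br (.br .no (.br .no .no .no (.br .no .no (.de 45) .no)) .no .no) .no .no .no) .no (.br (.sw 1 2 [29]) (.de 42) .no .no))) .no (.sw 1 2 [26])) (.br .no .no .no (.br .no (.br .no (.br (.br .no (.br (.br .no .no (.br (.br .no .no (.br .no .no .no (.de 48)) (.de 48)) .no .no .no) .no) .no .no (.sw 0 2 [31])) .no .no) .no .no .no) .no (.br (.sw 1 2 [29]) (.de 42) .no .no)) .no .no)) .no .no) .no)) .no) (.br .no .no (.br .no .no .no (.br (.br .no (.br .no .no .no (.de 34)) .no .no) .no (.br (.br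 .no (.br .no .no .no (.br (.br .no (.br (.br .no (.br .no .no (.br (.br .no .no (.br .no .no .no (.br .no .no (.br .no .no .no (.de 45)) .no)) .no) .no .no .no) (.br (.de 46) .no (.de 41) .no)) .no (.br .no .no (.de 45) .no)) .no .no .no) .no .no) .no .no (.br (.br .no (.br .no .no .no (.br .no .no (.de 45) .no)) .no .no) (.de 42) .no .no))) .no (.de 34)) (.br .no .no .no (.de 34)) .no .no) .no)) .no) .no .no) .no .no .no) .no)) .no .no) .no c0_3_3 .no)) (.br .no .no (.br (.br .no (.br .no .no .no (.br .no (.sw 0 2 [18,19]) (.br (.br (.br .no (.br .no .no (.br (.br .no (.br .no .no .no (.br .no (.sw 2 3 [21,22]) (.br .no .no (.br (.br .no (.br .no .no (.br (.br .no (.br .no .no .no (.de 47)) .no .no) .no .no .no) (.br (.sw 1 2 [26,32]) .no (.de 45) .no)) .no (.br .no .no (.de 44) .no)) .no .no (.br .no (.br .no .no (.br (.br .no (.br .no .no .no (.de 47)) .no .no) .no .no .no) (.br (.sw 1 2 [26,32]) .no (.de 45) .no)) .no .no)) (.br (.br .no (.br .no .no (.br (.br .no (.de 41) .no .no) .no .no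 .no) (.br (.sw 1 2 [26,32]) .no (.de 45) .no)) .no (.br .no .no (.de 44) .no)) .no .no .no)) .no)) .no .no) .no .no .no) (.br (.br .no (.br .no .no .no (.br .no (.sw 2 3 [21,22]) (.br .no .no (.br (.br .no (.sw 2 3 [30]) (.br .no .no .no (.de 44)) .no) .no .no .no) (.br (.br .no (.sw 2 3 [30]) (.br .no .no .no (.de 44)) .no) .no (.br .no (.br .no .no (.br (.br .no (.de 41) .no .no) .no .no .no) (.br (.sw 1 2 [26,32]) .no (.de 45) .no)) .no .no) .no)) .no)) .no .no) .no (.br (.br .no (.br .no .no (.br .no .no (.br (.br .no (.br .no .no .no (.br .no .no (.de 45) .no)) .no .no) .no .no .no) (.br (.br .no (.br .no .no .no (.br .no .no (.de 45) .no)) .no .no) .no (.br (.br .no (.br .no .no (.br (.br .no (.de 48) .no .no) .no .no (.br .no (.de 47) .no .no)) (.br (.de 46) .no .no .no)) .no (.br .no .no (.de 45) .no)) (.br .no .no .no (.br .no .no (.de 45) .no)) .no .no) .no)) .no) .no (.sw 1 2 [26])) (.br .no .no .no (.br .no (.sw 2 3 [21,22]) (.br .no .no (.br (.br .no (.br (.br .no .no (.br (.br .no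 (.br .no (.br .no .no (.br .no .no .no (.de 45)) (.br .no .no (.br .no .no .no (.de 46)) .no)) .no (.de 48)) .no (.sw 1 2 [34])) (.br .no .no .no (.de 47)) .no .no) .no) .no .no (.sw 0 2 [31])) .no .no) .no .no .no) (.br (.br .no (.br (.br .no .no (.br (.br .no (.de 48) .no .no) (.de 41) .no .no) .no) .no .no (.sw 0 2 [31])) .no .no) .no (.br (.br .no .no .no (.br (.br .no (.de 41) .no .no) .no (.de 45) .no)) (.br (.br .no .no (.br (.br .no (.de 48) .no .no) (.de 41) .no .no) .no) .no .no (.sw 0 2 [31])) .no .no) .no)) .no)) .no .no) .no)) .no (.br .no .no (.br (.br .no (.br .no .no .no (.br .no (.sw 0 2 [18,19,26,27]) (.br .no (.br (.br .no (.br .no .no (.br (.br .no (.br .no .no .no (.de 47)) .no .no) .no .no .no) (.br (.sw 1 2 [26,32]) .no (.de 45) .no)) .no (.br .no .no (.de 44) .no)) .no .no .no) (.br (.sw 1 3 [29]) (.br .no .no .no (.br .no .no (.de 44) .no)) .no .no) .no) .no)) .no .no) .no .no .no) .no)) (.br .no .no .no (.br .no .no (.br (.br .no (.br .no .no .no (.br .no .no (.br (.br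 .no (.br .no .no .no (.br .no .no (.de 44) .no)) .no .no) .no (.br (.br .no (.br .no .no (.br (.br .no (.br (.br .no (.br .no .no (.br .no .no .no (.de 45)) (.de 44)) .no (.br .no .no (.br .no .no .no (.de 45)) .no)) .no .no (.de 47)) .no .no) .no .no .no) (.br (.sw 1 2 [26,32]) .no (.de 45) .no)) .no (.br .no .no (.de 44) .no)) (.br .no .no .no (.br .no .no (.de 44) .no)) .no .no) .no) .no)) .no .no) .no .no .no) .no)) .no .no) .no .no .no) .no)) .no .no) .no .no .no) .no))) .no .no .no) .no))

theorem P0_3 : R.S 17 4685800004 :=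
  R.piece L hL c0_3_4 17 4685800004 17179869184 (by norm_num) (by norm_num) (by norm_num) (by decide +kernel)

def c0_4_0 : Cert := (.br .no .no (.br .no (.br (.br .no (.br .no .no .no (.br .no (.br .no .no .no (.br (.br .no .no (.sw 1 3 [16,22]) (.br .no .no (.br (.br .no .no (.br (.br .no (.br .no (.br (.br .no (.sw 2 3 [29,30]) .no (.br .no (.br .no .no .no (.br .no .no (.br .no .no .no (.de 48)) .no)) .no .no)) .no .no .no) (.br (.sw 1 3 [16,22,29]) (.br .no .no .no (.br .no (.br .no .no .no (.br .no .no (.br .no .no .no (.br .no .no .no (.br .no .no (.de 44) .no))) .no)) .no .no)) .no .no) .no) .no .no) .no .no .no) .no) .no .no .no) .no)) .no .no (.br .no .no (.br .no .no .no (.br (.br .no .no (.br (.br .no (.br (.br .no (.br .no .no (.br .no (.br .no .no .no (.br .no .no (.de 41) .no)) .no (.de 44)) .no) .no .no) (.br (.br .no (.br .no .no .no (.br .no (.br .no .no (.br (.br .no .no .no (.de 48)) .no .no .no) (.br (.br .no .no .no (.de 48)) .no (.sw 0 3 [28]) .no)) .no .no)) (.br .no (.br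 .no .no .no (.br .no .no (.br (.br .no .no .no (.de 43)) .no .no .no) .no)) .no (.de 44)) .no) .no .no .no) .no .no) .no .no) .no .no .no) .no) .no (.br (.br .no .no (.br (.br (.br .no (.br (.br .no (.br .no .no .no (.br .no (.br .no .no (.sw 1 3 [16,22,28]) .no) .no .no)) .no (.br .no (.br .no .no .no (.br .no (.de 47) (.sw 1 3 [16,22,28]) .no)) .no .no)) .no .no .no) .no .no) (.br (.br .no (.br .no .no .no (.br .no (.br .no .no .no (.br .no .no (.br .no .no .no (.de 48)) .no)) .no .no)) .no .no) .no .no .no) .no .no) (.br (.br .no (.br (.br .no (.br .no .no .no (.br (.de 46) .no .no .no)) .no (.br .no (.br (.br .no .no (.br .no .no .no (.br .no .no (.de 44) .no)) .no) .no .no (.br .no .no (.sw 0 1 [34]) .no)) .no .no)) .no .no .no) .no .no) (.br (.br .no (.br .no .no .no (.br .no (.br (.br .no .no (.sw 0 3 [28]) .no) .no .no (.sw 0 2 [31,32,33])) .no .no)) .no .no) .no .no .no) .no .no) .no .no) .no) .no .no .no) .no)) .no))) .no .no)) .no (.br .no (.br .no .no .no (.de 27)) .no .no)) .no .no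 .no) .no .no) (.br .no (.br (.br .no (.br .no .no .no (.br .no (.br .no .no (.br (.br .no .no (.br .no .no .no (.br (.br .no .no (.br (.br .no (.sw 2 3 [21,27]) .no .no) .no .no (.br .no (.br .no (.br (.br .no (.br .no .no .no (.br (.br .no .no (.br .no .no .no (.de 48)) .no) (.br (.br .no .no (.br .no .no .no (.de 48)) (.de 48)) .no (.sw 0 3 [33]) .no) .no .no)) (.br .no (.br (.br .no .no (.br .no .no .no (.de 48)) .no) .no .no .no) .no (.de 44)) .no) .no .no .no) .no (.br (.br .no (.br .no .no .no (.br (.br .no .no (.de 41) .no) (.br (.br .no .no (.br .no (.de 48) .no .no) .no) .no (.de 41) .no) .no .no)) (.br .no (.br (.br .no .no (.de 41) .no) .no .no .no) .no (.de 44)) .no) (.de 42) .no .no)) .no .no)) .no) .no (.br (.br .no .no .no (.br .no (.br .no (.br (.br .no (.br .no .no .no (.br .no (.sw 0 2 [31,32]) (.de 45) .no)) .no .no) .no .no .no) .no (.br (.br .no (.br .no .no .no (.br .no (.sw 0 2 [31,32]) (.de 45) .no)) .no .no) (.de 42) .no .no)) .no .no)) .no .no .no) .no)) (.br .no .no (.br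 (.br .no .no (.br (.br .no (.sw 2 3 [21,27]) .no .no) .no .no (.br .no (.br .no (.br (.br .no (.sw 2 3 [29,30]) .no (.br .no (.br (.br .no .no (.br .no .no .no (.de 48)) .no) .no .no .no) .no .no)) .no .no .no) (.br (.br .no (.br .no .no .no (.br (.br .no .no (.br .no .no .no (.br .no (.de 48) .no (.br .no .no (.de 44) .no))) .no) (.br (.br .no .no .no (.br .no (.de 48) .no (.br .no .no (.de 44) .no))) .no (.sw 0 3 [33]) .no) .no .no)) .no (.br .no (.br (.br .no .no (.br .no .no .no (.br .no (.de 48) .no (.br .no .no (.de 44) .no))) .no) .no .no .no) .no .no)) (.br .no .no .no (.br .no (.br (.br .no .no (.br .no .no .no (.br .no .no .no (.br .no .no (.de 44) .no))) .no) .no .no .no) .no .no)) .no .no) .no) .no .no)) .no) .no .no .no) .no)) .no (.br .no .no .no (.br .no .no (.br (.br .no .no (.br (.br .no (.br (.br .no (.br .no .no .no (.br .no (.br .no .no .no (.br .no .no (.br .no .no .no (.br .no .no .no (.br .no .no (.de 44) .no))) .no)) .no .no)) .no .no) (.br (.br .no (.br .no .no .no (.br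 .no (.br .no .no (.br (.sw 2 3 [21,27,28,29,30]) .no .no (.de 48)) (.br (.sw 2 3 [21,27,28,29,30]) .no .no .no)) .no .no)) .no (.br .no (.br .no .no .no (.br .no .no (.br (.br .no .no .no (.de 48)) .no .no (.de 48)) .no)) .no .no)) .no .no .no) .no .no) .no .no) .no .no (.br (.br (.br .no (.br .no .no .no (.br .no (.br (.br .no (.br .no .no .no (.de 47)) (.br .no (.br .no .no .no (.de 48)) .no (.br .no .no .no (.br .no .no (.de 44) .no))) .no) .no .no .no) .no .no)) .no .no) (.br (.br .no (.br .no .no .no (.br (.br .no (.br .no .no .no (.de 47)) (.br .no .no .no (.de 48)) .no) (.br .no .no (.br .no .no .no (.de 48)) .no) .no .no)) .no (.br .no (.br (.br .no (.br .no .no .no (.de 47)) (.br .no .no .no (.de 48)) .no) .no .no .no) .no .no)) .no .no .no) .no .no) (.br (.br .no (.br .no .no .no (.br .no (.br (.br .no .no (.br .no .no .no (.sw 0 1 [34])) .no) .no .no .no) .no .no)) .no .no) (.br (.br .no (.br .no .no .no (.br (.br .no .no (.br (.br .no .no .no (.de 48)) .no .no (.de 48)) .no) (.br (.br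 .no .no .no (.de 48)) .no (.sw 0 3 [33]) .no) .no .no)) .no (.br .no (.br (.br .no .no (.br (.br .no .no .no (.de 48)) .no .no (.de 48)) .no) .no .no .no) .no .no)) .no .no .no) .no .no) .no .no)) .no) .no .no .no) .no)) .no) .no) .no .no)) .no (.br .no (.br .no .no .no (.br .no .no (.br (.br .no .no (.br .no (.br (.br .no .no (.br (.br .no (.br .no (.br (.br .no .no (.sw 1 3 [24,25,26,30]) (.br .no (.br .no .no .no (.br .no .no (.br .no .no .no (.de 48)) .no)) .no .no)) .no .no (.de 42)) .no (.br (.br .no .no (.sw 1 3 [24,25,26,30]) (.br .no (.br .no .no .no (.br .no .no (.de 41) .no)) .no .no)) .no .no .no)) .no .no) (.de 34) .no .no) .no) .no (.br (.br .no (.de 34) .no .no) .no .no .no) .no) .no .no) (.br .no (.br (.br .no .no (.br (.br .no (.br .no (.br (.sw 2 3 [29]) .no (.br .no .no .no (.de 43)) .no) (.br (.br .no .no (.br .no (.br .no .no .no (.br .no .no (.br .no .no .no (.br .no (.de 48) .no (.de 43))) .no)) .no (.de 44)) (.br .no (.br .no .no .no (.br .no .no (.br .no .no .no (.br .no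 (.de 48) .no (.br .no .no (.de 44) .no))) .no)) .no .no)) .no .no .no) .no) .no .no) (.de 34) .no .no) .no) .no (.br (.br .no (.de 34) .no .no) .no .no .no) .no) (.br (.br .no .no (.br (.sw 1 3 [24,25,26]) (.de 34) .no .no) .no) .no .no .no) .no)) .no (.br .no .no .no (.br .no (.br (.br .no .no (.br (.br .no (.br (.br .no .no (.br .no .no .no (.de 43)) .no) (.br (.br .no .no (.br .no (.br .no .no .no (.br .no .no (.br (.br .no .no .no (.de 43)) .no .no (.de 48)) .no)) .no (.de 44)) (.br .no (.br .no .no .no (.br .no .no (.br (.br .no .no .no (.de 48)) .no .no (.de 48)) .no)) .no .no)) .no (.br .no .no .no (.de 43)) .no) .no .no) .no .no) (.br (.br (.br .no .no (.br .no .no .no (.de 43)) .no) (.br (.br .no .no (.br .no (.br (.br .no .no (.br .no .no .no (.de 48)) (.de 41)) .no .no (.br .no .no (.br .no .no .no (.de 48)) .no)) .no (.de 44)) (.br .no (.br (.br .no .no (.br .no .no .no (.de 48)) (.de 41)) .no .no (.br .no .no (.br .no .no .no (.de 48)) .no)) .no .no)) .no (.br .no .no .no (.de 43))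 .no) .no .no) .no .no .no) .no .no) .no) .no (.br (.br .no (.br (.br (.br .no .no (.br (.br .no (.br .no .no (.br .no .no .no (.br .no (.de 47) .no .no)) (.br .no .no (.br .no (.br .no (.br .no .no .no (.br .no .no (.de 45) .no)) .no (.de 43)) .no (.br .no (.de 48) .no (.de 43))) .no)) .no (.br .no .no (.de 45) .no)) .no .no (.de 43)) .no) (.br (.br .no .no .no (.br .no (.br .no .no (.br .no .no .no (.de 41)) (.sw 0 2 [31,32])) .no .no)) .no (.br (.br .no (.br .no .no (.br .no .no .no (.de 41)) (.br .no .no (.br .no .no .no (.de 48)) .no)) .no (.br .no .no (.de 45) .no)) .no .no (.de 43)) .no) .no .no) .no .no .no) .no .no) .no .no .no) .no) (.br (.br .no .no (.br (.sw 1 3 [24,25,26]) (.br (.br (.br .no (.br .no .no .no (.br .no (.br (.br .no .no (.sw 1 3 [24,25,26,33]) (.de 46)) .no .no (.br .no .no (.br .no (.br .no .no .no (.de 48)) .no (.sw 0 1 [33,34])) .no)) .no .no)) .no .no) (.br (.br .no (.br .no .no .no (.br (.br .no .no (.sw 1 3 [24,25,26,33]) (.de 41)) .no .no .no)) .no (.sw 1 2 [30]))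 .no .no .no) .no .no) .no .no .no) .no .no) .no) .no .no .no) .no)) .no) .no)) .no .no)) .no .no .no) (.br (.sw 1 3 [16]) (.br .no .no .no (.br .no (.br .no .no .no (.br .no .no (.br (.br .no .no .no (.br (.br .no .no (.br (.br .no (.de 34) .no .no) .no .no .no) .no) .no (.sw 0 1 [23]) .no)) (.br (.br .no .no (.br (.br .no .no (.br (.de 34) (.br (.br .no .no (.br .no (.br .no .no .no (.br .no (.br (.br .no .no (.sw 1 3 [16,23,24,25,26,33]) (.de 41)) .no .no (.br .no .no (.br .no .no .no (.br .no .no .no (.br .no .no (.de 44) .no))) .no)) .no .no)) .no (.br .no (.br .no .no .no (.br (.br .no .no (.sw 1 3 [16,23,24,25,26,33]) (.de 41)) .no .no .no)) .no .no)) (.br .no (.de 42) .no .no)) .no .no .no) .no .no) .no) .no .no .no) .no) .no .no (.br (.br .no .no (.br (.br .no (.br (.br (.br .no (.br .no .no .no (.br .no (.br .no .no (.br .no .no .no (.br .no .no (.br .no .no .no (.br .no .no (.de 44) .no)) .no)) (.br .no .no (.br .no .no .no (.br .no .no .no (.br .no .no (.de 44) .no))) .no)) .no .no))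 (.br .no (.br .no .no .no (.br .no .no (.de 45) .no)) .no (.de 43)) .no) .no (.br .no (.br .no .no .no (.br .no (.br .no .no (.br .no .no .no (.de 41)) (.br .no .no (.br .no .no .no (.br .no .no .no (.br .no .no (.de 44) .no))) .no)) .no .no)) .no .no) .no) .no .no .no) .no .no) .no .no .no) .no) .no (.sw 0 1 [23]) .no)) .no .no) .no)) .no .no)) .no .no) .no))

def c0_4_1 : Cert := (.br .no (.br .no .no .no (.br (.br .no .no (.br (.br .no .no (.br .no .no .no (.br (.br .no (.br .no .no .no (.br .no (.br .no (.br (.br .no (.br .no .no (.br (.br .no .no (.br .no .no .no (.de 48)) .no) .no .no .no) (.br (.br .no .no (.br .no .no .no (.de 48)) .no) .no (.de 45) .no)) (.br .no .no .no (.de 44)) .no) .no .no .no) .no (.br (.br .no (.br .no .no (.br (.br .no .no (.de 41) .no) .no .no .no) (.br (.br .no .no (.de 41) .no) .no (.de 45) .no)) (.br .no .no .no (.de 44)) .no) (.de 42) .no .no)) .no .no)) (.br .no (.de 34) .no (.br .no (.br .no (.br (.br .no (.br .no .no .no (.br (.sw 1 2 [32]) (.br (.br .no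 .no (.br .no .no .no (.de 48)) (.de 48)) .no (.br .no .no .no (.de 48)) .no) .no .no)) (.br .no (.br (.br .no .no (.br .no .no .no (.de 48)) .no) .no .no .no) .no (.de 44)) .no) .no .no .no) .no (.br (.br .no (.br .no .no .no (.br (.sw 1 2 [32]) (.br (.br .no .no (.br .no (.de 48) .no .no) .no) .no (.de 41) .no) .no .no)) (.br .no (.br (.br .no .no (.de 41) .no) .no .no .no) .no (.de 44)) .no) (.de 42) .no .no)) .no .no)) .no) .no (.br .no (.br .no .no .no (.br .no (.br .no (.br (.br .no (.br (.br .no .no (.br (.br .no .no (.br .no .no .no (.de 48)) (.de 48)) .no .no .no) .no) .no .no (.sw 0 2 [31])) .no .no) .no .no .no) .no (.br (.br .no (.br (.br .no .no (.br (.br .no .no (.br .no (.de 48) .no .no) .no) .no .no .no) .no) .no .no (.sw 0 2 [31])) .no .no) (.de 42) .no .no)) .no .no)) .no .no) .no)) (.br .no .no (.br (.br .no (.br .no .no .no (.br .no (.br .no (.br (.br .no (.sw 2 3 [29,30]) .no (.br .no .no (.de 44) .no)) .no .no .no) (.br (.br .no (.br .no .no (.br (.br .no .no (.br .no .no .no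 (.br .no (.de 48) .no (.br .no .no (.br .no .no .no (.de 45)) .no))) .no) .no .no .no) (.br (.br .no .no (.br .no .no .no (.br .no (.de 48) .no (.br .no .no (.de 44) .no))) .no) .no (.de 45) .no)) .no (.br .no .no (.de 44) .no)) (.br .no .no .no (.br .no .no (.de 44) .no)) .no .no) .no) .no .no)) (.br .no (.de 34) .no (.br .no (.br .no (.br (.br .no (.sw 2 3 [29,30]) .no (.br .no (.br (.br .no .no (.br .no .no .no (.de 48)) .no) .no .no .no) .no .no)) .no .no .no) (.br (.br .no (.br .no .no .no (.br (.sw 1 2 [32]) (.br (.br .no .no .no (.br .no (.de 48) .no (.br .no .no (.de 44) .no))) .no (.br .no .no .no (.br .no (.de 48) .no (.br .no .no (.de 44) .no))) .no) .no .no)) .no (.br .no (.br (.br .no .no (.br .no .no .no (.br .no (.de 48) .no (.br .no .no (.de 44) .no))) .no) .no .no .no) .no .no)) (.br .no .no .no (.br .no (.br (.br .no .no (.br .no .no .no (.br .no .no .no (.br .no .no (.de 44) .no))) .no) .no .no .no) .no .no)) .no .no) .no) .no .no)) .no) .no .no .no) .no)) .no (.br .no .no .no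 (.br .no .no (.br (.br .no (.br .no .no .no (.br (.br (.br .no (.br .no .no .no (.br .no .no (.de 44) .no)) .no .no) (.br (.br .no (.br .no .no (.br (.br .no (.br .no .no .no (.de 47)) (.br .no .no .no (.de 48)) .no) .no .no .no) (.br (.br .no (.br .no .no .no (.de 47)) (.br .no .no .no (.de 48)) .no) .no (.de 45) .no)) .no (.br .no .no (.de 44) .no)) .no .no .no) .no .no) (.br (.br .no (.br .no .no .no (.br .no .no (.de 44) .no)) .no .no) (.br (.br .no (.br .no .no (.br (.br .no .no (.br (.br .no .no .no (.de 48)) .no .no (.de 48)) .no) .no .no .no) (.br (.br .no .no (.br (.br .no .no .no (.de 48)) .no .no (.de 48)) .no) .no (.de 45) .no)) .no (.br .no .no (.de 44) .no)) .no .no .no) .no .no) .no .no)) (.br .no (.br (.br (.br .no (.br .no .no .no (.br .no (.br (.br .no .no (.br .no (.br .no .no .no (.de 48)) .no (.br .no .no .no (.br .no .no (.de 44) .no))) (.de 46)) .no .no (.br .no .no (.br .no (.br .no .no .no (.de 48)) .no (.br .no .no .no (.br .no .no (.de 44) .no))) .no)) .no .no)) .no .no)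 (.br (.br .no (.br .no .no .no (.br (.br .no .no (.br .no .no .no (.de 48)) (.de 41)) .no .no .no)) .no (.br .no (.br (.br .no .no (.br .no .no .no (.de 48)) (.de 41)) .no .no (.br .no .no (.br .no .no .no (.de 48)) .no)) .no .no)) .no .no .no) .no .no) .no .no .no) .no (.br (.br (.br .no (.br .no .no .no (.br .no (.br (.br .no (.br .no .no .no (.de 47)) (.sw 1 3 [33]) .no) .no .no .no) .no .no)) .no .no) (.br (.br .no (.br .no .no .no (.br (.sw 1 2 [32]) (.br .no .no (.br .no .no .no (.de 48)) .no) .no .no)) .no (.br .no (.br (.br .no (.br .no .no .no (.de 47)) (.sw 1 3 [33]) .no) .no .no .no) .no .no)) .no .no .no) .no .no) (.br (.br .no (.br .no .no .no (.br .no (.br (.br .no .no (.br .no .no .no (.sw 0 1 [34])) .no) .no .no .no) .no .no)) .no .no) (.br (.br .no (.br .no .no .no (.br (.sw 1 2 [32]) (.br (.br .no .no .no (.de 48)) .no (.br (.br .no .no .no (.de 48)) .no .no (.de 48)) .no) .no .no)) .no (.br .no (.br (.br .no .no (.br (.br .no .no .no (.de 48)) .no .no (.de 48)) .no) .no .no .no)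 .no .no)) .no .no .no) .no .no) .no .no)) .no) .no .no .no) .no)) .no) .no) (.br (.br (.br .no .no (.br .no .no .no (.br (.br .no .no (.br .no .no .no (.br .no (.sw 2 3 [21]) (.br .no (.br (.br .no (.br .no .no .no (.br (.br .no (.br .no .no .no (.de 47)) .no .no) (.br (.br .no .no .no (.de 48)) .no .no .no) .no .no)) (.br .no (.br (.br .no (.br .no .no .no (.de 47)) .no .no) .no .no .no) .no (.de 44)) .no) .no .no .no) .no (.br (.br .no (.br .no .no .no (.br (.br .no (.de 41) .no .no) (.br (.br .no (.de 48) .no .no) .no .no .no) .no .no)) (.br .no (.br (.br .no (.de 41) .no .no) .no .no .no) .no (.de 44)) .no) (.de 42) .no .no)) .no)) .no) .no (.br (.br .no .no (.br .no (.sw 2 3 [21]) .no .no) (.br .no (.sw 2 3 [21]) (.br .no (.br (.br .no (.br .no .no .no (.br .no (.sw 0 2 [31,32]) (.de 45) .no)) .no .no) .no .no .no) .no (.br (.br .no (.br .no .no .no (.br .no (.sw 0 2 [31,32]) (.de 45) .no)) .no .no) (.de 42) .no .no)) .no)) .no .no .no) .no)) (.br .no .no (.br (.br .no .no (.br .no .no .no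 (.br .no (.sw 2 3 [21]) (.br .no (.br (.br .no (.sw 2 3 [29,30]) .no (.br .no (.br (.br .no (.br .no .no .no (.de 47)) .no .no) .no .no .no) .no .no)) .no .no .no) (.br (.br .no (.br .no .no .no (.br (.br .no (.br .no .no .no (.de 47)) .no .no) (.br (.br .no (.br .no (.br .no .no (.de 44) (.br .no .no (.de 45) .no)) .no (.de 48)) .no (.sw 1 2 [34])) .no .no .no) .no .no)) .no (.br .no (.br (.br .no (.br .no .no .no (.de 47)) .no .no) .no .no .no) .no .no)) (.br .no .no .no (.br .no (.br (.br .no (.br .no .no .no (.de 47)) .no .no) .no .no .no) .no .no)) .no .no) .no) .no)) .no) .no .no .no) .no)) .no (.br .no .no .no (.br .no .no (.br (.br .no .no (.br .no .no .no (.br .no (.br (.br .no (.br .no .no .no (.br .no (.br (.br .no .no (.br .no .no .no (.br .no .no .no (.br .no .no (.de 44) .no))) .no) .no .no .no) .no .no)) .no .no) (.br (.br .no (.br .no .no .no (.br (.br .no .no (.br (.sw 2 3 [21,28,29,30]) .no .no (.de 48)) .no) (.br (.br .no .no .no (.de 48)) .no (.br (.sw 2 3 [21,28,29,30]) .no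 .no (.de 48)) .no) .no .no)) .no (.br .no (.br (.br .no .no (.br (.br .no .no .no (.de 48)) .no .no (.de 48)) .no) .no .no .no) .no .no)) .no .no .no) .no .no) .no .no)) .no) .no .no .no) .no)) .no) .no (.sw 0 3 [20]) .no) .no .no)) .no (.br .no (.br (.br .no .no (.br (.br .no .no (.br .no (.br (.br .no .no (.br .no (.de 34) .no (.br .no (.br .no (.br (.br .no .no (.sw 1 3 [24,25,30]) (.br .no (.br (.br .no .no (.br .no .no .no (.de 48)) .no) .no .no .no) .no .no)) .no .no (.de 42)) .no (.br (.br .no .no (.sw 1 3 [24,25,30]) (.br .no (.br (.br .no .no (.de 41) .no) .no .no .no) .no .no)) .no .no .no)) .no .no)) (.br .no (.de 34) .no .no)) .no (.br .no .no .no (.br .no (.de 34) .no .no)) .no) .no .no) (.br .no (.br (.br .no .no (.br .no (.de 34) .no (.br .no (.br .no (.br (.sw 2 3 [29]) .no (.br .no .no .no (.de 43)) .no) (.br (.br .no .no (.br .no (.br (.br .no .no (.br .no .no .no (.br .no (.de 48) .no (.de 43))) .no) .no .no .no) .no (.de 44)) (.br .no (.br (.br .no .no (.br .no .no .no (.br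 .no (.de 48) .no (.br .no .no (.de 44) .no))) .no) .no .no .no) .no .no)) .no .no .no) .no) .no .no)) (.br .no (.de 34) .no .no)) .no (.br .no .no .no (.br .no (.de 34) .no .no)) .no) (.br (.br .no .no (.sw 1 3 [24,25]) (.br .no (.de 34) .no .no)) .no .no .no) .no)) .no (.br .no .no .no (.br .no (.br (.br .no .no (.br .no (.sw 0 3 [20,26]) .no (.br (.br (.br .no .no (.br .no .no .no (.de 43)) .no) (.br (.br .no .no (.br .no (.br (.br .no (.br .no .no .no (.de 47)) (.sw 1 3 [33]) .no) .no .no .no) .no (.de 44)) (.br .no (.br (.br .no (.br .no .no .no (.de 47)) (.sw 1 3 [33]) .no) .no .no .no) .no .no)) .no (.br .no .no .no (.de 43)) .no) .no .no) (.br (.br .no .no (.br .no .no .no (.de 43)) .no) (.br (.br .no .no (.br .no (.br (.br .no .no (.br (.br .no .no .no (.de 43)) .no .no (.de 48)) .no) .no .no .no) .no (.de 44)) (.br .no (.br (.br .no .no (.br (.br .no .no .no (.de 48)) .no .no (.de 48)) .no) .no .no .no) .no .no)) .no (.br .no .no .no (.de 43)) .no) .no .no) .no .no)) (.br .no (.br (.br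 (.br .no .no (.br .no .no .no (.de 43)) .no) (.br (.br .no .no (.br .no (.br (.sw 2 3 [32]) .no (.br .no .no .no (.de 41)) .no) .no .no) (.br .no (.br (.sw 2 3 [32]) .no (.br .no .no .no (.de 41)) .no) (.de 44) .no)) .no (.br .no .no .no (.de 43)) .no) .no .no) .no .no .no) .no .no)) .no (.br .no .no .no (.br .no (.br (.br (.br .no .no (.br (.br .no (.br (.br .no .no (.br .no (.br .no (.br .no .no .no (.br .no .no (.br .no .no .no (.de 46)) .no)) .no (.de 43)) .no (.br .no (.de 48) .no (.de 43))) (.de 46)) .no (.sw 0 3 [20,26,32]) .no) .no .no) .no .no (.de 43)) .no) (.br (.br .no .no .no (.br (.br .no .no (.br .no .no .no (.de 41)) .no) (.sw 0 2 [31]) .no .no)) .no (.br (.br .no (.br (.br .no .no (.br .no .no .no (.de 48)) (.de 41)) .no (.sw 0 3 [20,26,32]) .no) .no .no) .no .no (.de 43)) .no) .no .no) .no .no .no) .no .no)) .no) (.sw 0 1 [14,15,22,23]) .no)) .no) .no) .no .no .no) .no .no))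

theorem P0_4 : R.S 17 13275734596 :=
  R.piece L hL (.br .no .no (.br (.br .no .no (.br c0_4_0 .no .no (.br .no .no (.br .no (.br (.br .no (.br .no .no .no (.br (.de 27) (.br (.br (.br .no .no (.sw 1 3 [16,22]) (.br .no .no (.br (.br .no .no (.br .no .no .no (.br .no (.br .no (.br (.br .no (.sw 2 3 [29,30]) .no (.br .no (.br (.br .no .no (.br .no .no .no (.de 48)) .no) .no .no .no) .no .no)) .no .no .no) (.br (.sw 1 3 [16,22,29]) (.br .no .no .no (.br .no (.br (.br .no .no (.br .no .no .no (.br .no .no .no (.br .no .no (.de 44) .no))) .no) .no .no .no) .no .no)) .no .no) .no) .no .no)) .no) .no .no .no) .no)) .no .no (.br .no .no (.br .no .no .no (.br (.br .no .no (.br .no .no .no (.br .no (.br (.br .no (.br .no .no (.br .no (.br (.br .no .no (.de 41) .no) .no .no .no) .no (.de 44)) .no) .no .no) (.br (.br .no (.br .no .no .no (.br (.br .no .no (.br (.br .no .no .no (.de 48)) .no .no .no) .no) (.br (.br .no .no (.sw 0 3 [28]) .no) .no (.sw 0 3 [20,27,33]) .no) .no .no)) (.br .no (.br (.br .no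 .no (.br (.br .no .no .no (.de 43)) .no .no .no) .no) .no .no .no) .no (.de 44)) .no) .no .no .no) .no .no) .no .no)) .no) .no (.br (.br .no .no (.br .no (.sw 0 3 [20,27]) .no .no) (.br .no (.br (.br .no (.br (.br .no (.br .no .no (.br (.br .no .no (.br .no .no .no (.br .no .no (.br .no .no .no (.de 45)) .no)) .no) .no .no .no) .no) .no (.br .no (.br (.sw 2 3 [33]) .no (.de 41) .no) (.de 45) .no)) .no .no .no) .no .no) (.br (.br .no (.br .no .no .no (.br .no (.sw 0 2 [31,32]) (.de 45) .no)) .no .no) .no .no .no) .no .no) .no .no)) .no .no .no) .no)) .no)) .no .no .no) .no .no)) .no (.br .no (.br (.de 27) .no .no .no) .no .no)) .no .no .no) .no .no) (.br .no (.br c0_4_1 .no .no .no) (.br (.sw 1 3 [16]) (.br .no .no .no (.br .no (.br (.br .no .no (.sw 0 1 [14,15]) .no) .no .no .no) .no .no)) .no .no) .no))) .no) .no .no .no) .no) 17 13275734596 17179869184 (by norm_num) (by norm_num) (by norm_num) (by decide +kernel)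

end T7
end Pool.Agent.H411R2.WSK
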