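import Pool.Agent.H411R2.WSK.T7

set_option maxRecDepth 100000
set_option linter.all false

namespace Pool.Agent.H411R2.WSK

namespace T7

def c1_0_0 : Cert := (.br .no .no (.br .no (.br (.br .no .no (.br (.br .no (.br .no .no .no (.br (.br .no .no (.br .no (.de 34) .no (.br .no (.br .no .no (.br (.br .no (.br .no .no .no (.br (.br .no .no (.br .no .no .no (.br .no (.de 48) .no (.br .no .no (.de 44) .no))) .no) (.br (.br .no .no .no (.br .no (.de 48) .no (.br .no .no (.de 44) .no))) .no (.br .no .no .no (.br .no (.de 48) .no (.br .no .no (.de 44) .no))) .no) .no .no)) (.br .no (.br (.br .no .no (.br .no .no .no (.br .no (.de 48) .no (.de 43))) .no) .no .no .no) .no (.de 44)) .no) .no .no .no) (.br (.br .no (.br .no .no .no (.br (.br .no .no (.de 41) .no) (.br (.br .no .no (.br .no (.de 48) .no .no) .no) .no (.de 41) .no) .no .no)) (.br .no (.br (.br .no .no (.de 41) .no) .no .no .no) .no (.de 44)) .no) .no (.br .no (.br .no .no .no (.br (.br .no .no (.de 41) .no) (.br (.br .no .no (.br .no (.de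 48) .no .no) .no) .no (.de 41) .no) .no .no)) .no .no) .no)) .no .no)) (.br .no (.de 34) .no .no)) .no .no .no)) .no (.br .no (.br (.br .no .no (.br .no (.de 34) .no (.br .no (.br .no (.br (.br .no .no (.br .no (.br (.br .no .no (.br .no .no .no (.de 48)) .no) .no .no .no) .no (.de 44)) (.br .no (.br (.br .no .no (.br .no .no .no (.de 48)) .no) .no .no .no) .no .no)) .no (.br .no .no .no (.de 43)) .no) (.br (.br .no .no (.sw 1 3 [29,30]) (.br .no (.br (.br .no .no (.br .no .no .no (.br .no (.de 48) .no (.br .no .no (.de 44) .no))) .no) .no .no .no) .no .no)) .no .no .no) .no) .no .no)) (.br .no (.de 34) .no .no)) .no .no (.br .no .no (.br .no (.de 34) .no (.br .no (.br .no (.br (.br .no .no (.br (.br .no (.br (.br .no .no (.br .no .no .no (.de 43)) (.de 48)) .no (.br .no .no .no (.de 48)) .no) .no .no) (.sw 0 3 [31]) .no .no) .no) .no (.br (.br .no (.br (.br .no .no (.br .no .no .no (.de 48)) .no) .no .no .no) .no .no) .no .no .no) .no) (.br (.br .no .no (.br (.br .no (.br (.br .no .no .no (.br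 .no (.de 48) .no (.de 43))) .no (.br .no .no .no (.br .no (.de 48) .no (.de 43))) .no) .no .no) (.sw 0 3 [31]) .no .no) .no) .no .no .no) .no) .no .no)) .no)) .no .no)) (.br .no .no .no (.br .no (.br (.br .no .no (.br .no (.br (.br (.br .no .no (.br .no .no .no (.de 43)) .no) .no (.br (.br .no .no (.br .no (.br (.br .no .no (.br .no .no .no (.br .no (.de 48) .no (.de 43))) (.de 41)) .no .no (.br .no .no (.br .no .no .no (.br .no (.de 48) .no (.de 43))) .no)) .no (.de 44)) (.br .no (.br (.br .no .no (.br .no .no .no (.br .no (.de 48) .no (.br .no .no (.de 44) .no))) (.de 41)) .no .no (.br .no .no (.br .no .no .no (.br .no (.de 48) .no (.br .no .no (.de 44) .no))) .no)) .no .no)) .no .no .no) .no) .no .no .no) .no (.br (.br (.br .no .no (.br .no .no .no (.de 43)) .no) .no (.br (.br .no .no (.br .no (.br (.br .no (.br .no .no .no (.de 47)) (.sw 1 3 [33]) .no) .no .no .no) .no (.de 44)) (.br .no (.br (.br .no (.br .no .no .no (.de 47)) (.sw 1 3 [33]) .no) .no .no .no) .no .no)) .no .no .no) .no) .no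 .no .no)) (.br .no (.br (.br (.br .no .no (.br .no .no .no (.de 43)) .no) .no (.br (.br .no .no (.br .no (.br (.sw 2 3 [32]) .no (.br .no .no .no (.de 41)) .no) .no .no) (.br .no (.br (.sw 2 3 [32]) .no (.br .no .no .no (.de 41)) .no) (.de 44) .no)) .no .no .no) .no) .no .no .no) .no .no)) .no .no (.br .no .no (.br .no (.br (.br (.br .no .no (.br (.br .no (.br (.br .no .no (.br .no .no .no (.br .no (.de 48) .no (.de 43))) (.de 46)) .no .no (.br .no .no (.br .no .no .no (.br .no (.de 48) .no (.de 43))) .no)) .no .no) .no .no .no) .no) .no (.br (.br .no .no (.br (.br .no .no .no (.br .no .no (.br .no .no .no (.br .no (.de 48) .no (.de 43))) .no)) (.sw 0 3 [31]) .no .no) .no) .no .no .no) .no) .no .no .no) .no (.br (.br (.br .no .no (.br (.br .no (.br (.br .no (.br .no .no (.br .no (.br .no .no .no (.br .no .no (.br .no .no .no (.de 46)) .no)) .no (.de 43)) (.de 47)) (.sw 1 3 [33]) .no) .no .no .no) .no .no) .no .no .no) .no) .no (.br (.br .no .no (.br (.br .no (.br .no .no (.br .no .no .no (.sw 0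 1 [28,34])) .no) .no .no) (.sw 0 3 [31]) .no .no) .no) .no .no .no) .no) .no .no .no)) .no)) .no .no)) .no .no) .no) .no .no (.br .no .no (.br (.br .no (.br .no .no .no (.br (.br .no .no (.br (.br .no (.br .no .no (.br (.br .no (.br .no .no .no (.br .no (.br .no .no (.sw 0 3 [26,33]) (.de 41)) .no .no)) (.br .no (.br .no .no .no (.br .no .no (.br .no .no .no (.br .no (.de 48) .no (.de 43))) .no)) .no (.de 44)) .no) .no .no .no) (.br (.br .no (.br .no .no .no (.br .no (.br .no .no (.de 41) (.br .no .no (.br .no (.de 48) .no .no) .no)) .no .no)) (.br .no (.br .no .no .no (.br .no .no (.de 41) .no)) .no (.de 44)) .no) .no (.br .no (.br .no .no .no (.br .no (.br .no .no (.de 41) (.br .no .no (.br .no (.de 48) .no .no) .no)) .no .no)) .no .no) .no)) .no .no) (.de 34) .no .no) .no) .no .no .no)) .no (.br .no (.br (.br .no .no (.br (.br .no (.br .no (.br (.br .no .no (.br .no (.br .no .no .no (.br .no .no (.br .no .no .no (.de 48)) .no)) .no (.de 44)) (.br .no (.br .no .no .no (.br .no .no (.br .no .no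 .no (.de 48)) .no)) .no .no)) .no (.br .no .no .no (.de 43)) .no) (.br (.br .no .no (.sw 1 3 [29,30]) (.br .no (.br .no .no .no (.br .no .no (.br .no .no .no (.br .no (.de 48) .no (.br .no .no (.de 44) .no))) .no)) .no .no)) .no .no .no) .no) .no .no) (.de 34) .no .no) .no) .no .no (.br (.br .no (.de 34) .no .no) .no (.br (.br .no (.br .no (.br (.br .no .no (.br (.br .no (.br .no .no (.sw 0 3 [26,33]) (.br .no .no (.br .no .no .no (.de 43)) .no)) .no (.br .no .no (.br .no .no .no (.de 48)) .no)) (.sw 0 3 [31]) .no .no) .no) .no (.br (.br .no (.br .no .no .no (.br .no .no (.br .no .no .no (.de 48)) .no)) .no .no) .no .no .no) .no) (.br (.br .no .no (.br (.br .no (.br .no .no (.sw 0 3 [26,33]) (.de 41)) .no (.br .no .no (.br .no .no .no (.br .no (.de 48) .no (.de 43))) .no)) (.sw 0 3 [31]) .no .no) .no) .no .no .no) .no) .no .no) (.de 34) .no .no) .no)) .no .no)) (.br .no .no .no (.br .no (.br (.br .no .no (.br (.de 34) (.sw 0 3 [26]) .no .no) .no) .no .no (.br (.br .no (.br (.br (.br .no .no (.br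 (.br .no (.br .no .no (.br .no .no .no (.br .no .no (.br .no (.br .no .no .no (.br .no .no (.br .no .no .no (.br (.br .no (.br .no .no .no .lf) .no .no) .no .no .no)) .no)) .no (.de 43)) .no)) (.sy 28 114 11)) (.br .no .no .no (.de 45)) .no) .no .no .no) .no) .no (.br (.br .no .no (.br .no (.br .no .no (.sw 0 3 [26,31,32]) (.br .no .no (.br .no .no .no (.br .no (.de 48) .no (.de 43))) .no)) .no .no) .no) .no .no .no) .no) .no .no .no) .no .no) .no (.br (.de 34) (.sw 0 3 [26]) .no .no) .no)) .no .no)) .no .no) .no)) .no (.br (.br .no .no (.br (.br .no (.br .no .no .no (.br (.br .no (.br .no .no .no (.br .no (.br .no .no (.br (.br .no (.br .no .no (.br (.br .no .no (.br .no .no .no (.br .no (.de 48) .no (.br .no .no (.br .no .no .no (.de 45)) .no))) .no) .no .no .no) (.br (.br .no .no (.br .no .no .no (.br .no (.de 48) .no (.br .no .no (.de 44) .no))) .no) .no (.de 45) .no)) (.br .no .no .no (.de 44)) .no) .no .no .no) (.br (.br .no (.br .no .no (.br (.br .no .no (.de 41) .no) .no .no .no) (.br (.br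 .no .no (.de 41) .no) .no (.de 45) .no)) (.br .no .no .no (.de 44)) .no) .no (.br .no (.br .no .no (.br (.br .no .no (.de 41) .no) .no .no .no) (.br (.br .no .no (.de 41) .no) .no (.de 45) .no)) .no .no) .no)) .no .no)) (.sw 1 3 [25]) .no) (.br .no .no (.br .no (.de 34) .no (.br .no (.br .no .no (.br (.br .no .no (.br (.sw 1 3 [25,29,30,31]) .no .no (.de 44)) .no) .no .no .no) (.br (.br .no .no (.br (.br .no (.br (.br .no .no (.br .no (.de 48) .no .no) .no) .no (.de 41) .no) .no .no) .no .no (.de 44)) .no) .no (.br (.br .no .no .no (.br (.br .no .no (.de 41) .no) (.br (.br .no .no (.br .no (.de 48) .no .no) .no) .no (.de 41) .no) .no .no)) .no .no .no) .no)) .no .no)) .no) .no .no)) .no (.br .no (.br (.br .no (.br .no .no .no (.br .no (.br .no (.br (.br .no .no (.br .no .no .no (.de 44)) (.br .no .no (.de 44) .no)) .no (.br .no .no .no (.de 43)) .no) (.br (.br .no .no (.sw 1 3 [29,30]) (.br .no .no (.de 44) .no)) .no .no .no) .no) .no .no)) (.sw 1 3 [25]) .no) .no .no .no) .no .no)) (.br .no .no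 .no (.br .no (.br (.br .no (.br .no .no .no (.br (.br (.br .no .no (.br .no .no .no (.de 43)) .no) .no (.br (.br .no .no (.br .no .no .no (.de 44)) (.br .no .no (.de 44) .no)) .no .no .no) .no) .no .no .no)) (.sw 1 3 [25]) .no) .no .no .no) .no .no)) .no .no) .no) .no .no .no)) (.br .no (.br (.br .no .no (.br (.br .no (.br .no .no (.br (.br .no .no (.br .no (.de 34) .no (.br .no (.br .no .no (.br (.br .no (.sw 2 3 [24,30]) .no (.br .no (.br (.br .no .no (.br .no .no .no (.br .no (.de 48) .no (.br .no .no (.de 44) .no))) .no) .no .no .no) .no .no)) .no .no (.br .no (.br .no .no .no (.br (.br .no .no (.br .no .no .no (.br .no (.de 48) .no .no)) .no) (.br (.br .no .no .no (.br .no (.de 48) .no .no)) .no (.br .no .no .no (.br .no (.de 48) .no .no)) .no) .no .no)) .no .no)) (.br (.br .no (.sw 2 3 [24,30]) .no (.br .no (.br (.br .no .no (.de 41) .no) .no .no .no) .no .no)) .no .no .no)) .no .no)) (.br .no (.de 34) .no .no)) .no .no .no) .no) .no (.br .no (.br (.sw 2 3 [24]) .no (.br .no .no .no (.br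 .no (.de 34) .no .no)) .no) (.br (.br .no .no (.br .no (.de 34) .no (.br .no (.br .no (.br (.br .no (.br .no .no .no (.br (.br .no .no (.br .no .no .no (.de 48)) .no) (.br (.br .no .no (.br .no .no .no (.de 48)) (.de 48)) .no (.br .no .no .no (.de 48)) .no) .no .no)) .no (.sw 1 2 [30])) .no .no .no) (.br (.sw 1 3 [29]) (.br .no .no .no (.br .no (.br (.br .no .no (.br .no .no .no (.br .no .no .no (.br .no .no (.de 44) .no))) .no) .no .no .no) .no .no)) .no .no) .no) .no .no)) (.br .no (.de 34) .no .no)) .no .no .no) .no)) (.br .no .no .no (.br .no (.sw 0 2 [22,23]) (.br (.br .no .no (.br .no (.br (.br (.br .no (.br .no .no .no (.br .no (.br (.br .no .no (.br .no .no .no (.br .no .no .no (.br .no .no (.de 44) .no))) (.de 46)) .no .no (.br .no .no (.br .no .no .no (.br .no .no .no (.br .no .no (.de 44) .no))) .no)) .no .no)) .no .no) .no (.br (.br .no (.br .no .no .no (.br (.br .no .no (.br .no .no .no (.br .no (.de 48) .no (.br .no .no (.de 44) .no))) (.de 41)) .no .no .no)) .no (.sw 1 2 [30])) (.br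 .no .no .no (.br .no (.br (.br .no .no (.br .no .no .no (.br .no .no .no (.br .no .no (.de 44) .no))) (.de 41)) .no .no (.br .no .no (.br .no .no .no (.br .no .no .no (.br .no .no (.de 44) .no))) .no)) .no .no)) .no .no) .no) .no .no .no) .no (.br (.br (.br .no (.br .no .no .no (.br .no (.br (.br .no (.br .no .no (.br .no .no .no (.br .no .no (.de 44) .no)) (.de 47)) (.sw 1 3 [33]) .no) .no .no .no) .no .no)) .no .no) .no (.br (.br .no (.br .no .no .no (.br (.br .no (.br .no .no .no (.de 47)) (.sw 1 3 [33]) .no) (.br .no .no (.br .no .no .no (.sw 0 1 [28,34])) .no) .no .no)) .no (.sw 1 2 [30])) (.br .no .no .no (.br .no (.br (.br .no (.br .no .no .no (.de 47)) (.sw 1 3 [33]) .no) .no .no .no) .no .no)) .no .no) .no) .no .no .no)) (.br .no (.br (.br (.br .no (.br .no .no .no (.br .no (.sw 0 2 [22,23,30,31]) (.de 44) .no)) .no .no) .no (.br (.br .no (.br .no .no (.br (.br .no .no (.br .no .no .no (.br .no (.de 48) .no (.br .no .no (.br .no .no .no (.de 45)) .no))) (.de 41)) .no .no .no) .no) .no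 (.sw 1 2 [30])) (.br .no .no .no (.br .no (.sw 0 2 [22,23,30,31]) (.de 44) .no)) .no .no) .no) .no .no .no) .no .no)) .no .no .no) .no)) .no .no) .no) .no .no (.br .no .no (.br (.br .no (.br .no .no (.br (.br .no .no (.br (.br .no (.br .no .no (.br (.br .no (.sw 2 3 [24,30]) .no (.br .no (.br .no .no .no (.br .no .no (.br .no .no .no (.br .no (.de 48) .no (.br .no .no (.de 44) .no))) .no)) .no .no)) .no .no (.br .no (.br .no .no .no (.br .no (.br .no .no (.sw 0 3 [26,33]) (.de 41)) .no .no)) .no .no)) (.br (.br .no (.sw 2 3 [24,30]) .no (.br .no (.br .no .no .no (.br .no .no (.de 41) .no)) .no .no)) .no .no .no)) .no .no) (.de 34) .no .no) .no) .no .no .no) .no) .no (.br .no (.br (.sw 2 3 [24]) .no (.br (.br .no (.de 34) .no .no) .no .no .no) .no) (.br (.br .no .no (.br (.br .no (.br .no (.br (.br .no (.br .no .no .no (.br .no (.br .no .no (.sw 0 3 [26,33]) (.br .no .no (.br .no .no .no (.de 48)) .no)) .no .no)) .no (.sw 1 2 [30])) .no .no .no) (.br (.sw 1 3 [29]) (.br .no .no .no (.br .no (.br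 .no .no .no (.br .no .no (.br .no .no .no (.br .no .no .no (.br .no .no (.de 44) .no))) .no)) .no .no)) .no .no) .no) .no .no) (.de 34) .no .no) .no) .no .no .no) .no)) (.br .no .no .no (.br .no (.sw 0 2 [22,23]) (.br (.br .no .no (.br (.de 34) (.sw 0 3 [26]) .no .no) .no) .no .no .no) .no)) .no .no) .no)) .no .no))

def c1_0_1 : Cert := (.br .no .no (.br (.br .no .no (.br .no .no .no (.br .no (.br (.br .no .no .no (.br .no (.br .no .no .no (.br (.br .no .no (.br .no .no .no (.br .no (.br (.br (.br .no (.br .no .no .no (.br (.br .no .no (.br .no .no .no (.br .no .no (.br .no .no .no (.br .no .no (.de 44) .no)) .no)) .no) (.br (.br .no .no (.br .no .no .no (.br .no .no .no (.br .no .no (.de 44) .no))) (.de 46)) .no (.br .no .no .no (.br .no .no (.br .no .no .no (.br .no .no (.de 44) .no)) .no)) .no) .no .no)) (.br .no (.br (.br .no .no (.br .no .no .no (.br .no .no (.br .no (.br .no .no .no (.br .no .no (.br .no .no .no (.br (.br .no (.br .no .no .no .lf) .no .no) .no .no .no)) .no)) .no (.de 43))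 .no)) .no) .no .no .no) .no (.de 43)) .no) .no (.br .no (.br .no .no .no (.br (.br .no .no (.br .no .no .no (.de 41)) .no) (.br (.br .no .no (.br .no .no .no (.br .no .no .no (.br .no .no (.de 44) .no))) (.de 41)) .no (.br .no .no .no (.de 41)) .no) .no .no)) .no .no) .no) .no .no .no) (.br (.br (.br .no (.br .no .no .no (.br (.br .no (.br .no .no .no (.br .no .no (.br .no .no .no (.br .no .no (.de 44) .no)) .no)) .no .no) (.br (.br .no (.br .no .no (.br .no .no .no (.br .no .no (.de 44) .no)) (.de 47)) .no (.de 46)) .no .no .no) .no .no)) (.br .no (.br (.br .no (.br .no .no .no (.br .no .no (.br .no (.br .no .no .no (.br .no .no (.br .no .no .no (.br (.sw 1 2 [33,39]) .no .no .no)) .no)) .no (.de 43)) .no)) .no .no) .no .no .no) .no (.de 43)) .no) .no (.br .no (.br .no .no .no (.br (.br .no (.br .no .no .no (.de 41)) .no .no) (.br (.br .no (.br .no .no .no (.de 47)) .no (.de 41)) .no .no .no) .no .no)) .no .no) .no) .no .no .no) .no)) .no) (.br (.br .no .no (.br .no (.br (.br (.br .no .no (.br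 .no .no .no (.de 43)) .no) .no (.br (.br .no .no (.br .no (.br (.br .no .no (.br .no .no .no (.br .no (.de 48) .no (.de 43))) (.de 41)) .no .no (.br .no .no (.br .no .no .no (.br .no (.de 48) .no (.de 43))) .no)) .no (.de 44)) (.br .no (.br (.br .no .no (.br .no .no .no (.br .no (.de 48) .no (.br .no .no (.de 44) .no))) (.de 41)) .no .no (.br .no .no (.br .no .no .no (.br .no (.de 48) .no (.br .no .no (.de 44) .no))) .no)) .no .no)) .no .no .no) .no) .no .no .no) .no .no) (.br .no (.br (.br (.br .no .no (.br .no .no .no (.de 43)) .no) .no (.br (.br .no .no (.br .no (.br (.sw 2 3 [32]) .no (.br .no .no .no (.de 41)) .no) .no .no) (.br .no (.br (.sw 2 3 [32]) .no (.br .no .no .no (.de 41)) .no) (.de 44) .no)) .no .no .no) .no) .no .no .no) (.br (.br (.br .no .no (.br .no .no .no (.de 43)) .no) .no (.br (.br .no .no (.br .no (.br (.br .no (.br .no .no .no (.de 47)) .no (.de 41)) .no .no .no) .no .no) (.br .no (.br (.br .no (.br .no .no .no (.de 47)) .no (.de 41)) .no .no .no) (.de 44) .no)) .no .no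 .no) .no) .no .no .no) .no)) .no (.br .no .no .no (.br .no (.br (.br (.br .no .no (.br (.br .no (.br (.br .no .no (.br .no .no .no (.br .no (.de 48) .no (.de 43))) (.de 46)) .no (.br .no .no .no (.br .no .no (.br .no (.br .no .no .no (.br .no .no (.br .no .no .no (.sw 0 1 [30,37,38])) .no)) .no (.de 43)) .no)) .no) .no .no) .no .no (.de 43)) .no) .no (.br (.br .no .no .no (.br (.br .no .no (.br .no .no .no (.de 41)) .no) (.sw 0 2 [31]) .no .no)) .no .no .no) .no) .no .no .no) (.br (.br (.br .no .no (.br (.br .no (.br (.br .no (.br .no .no (.br .no (.br .no .no .no (.br .no .no (.br .no .no .no (.de 46)) .no)) .no (.de 43)) (.de 47)) .no (.de 46)) .no .no .no) .no .no) .no .no (.de 43)) .no) .no (.br (.br .no .no .no (.br (.br .no (.br .no .no .no (.de 41)) .no .no) (.sw 0 2 [31]) .no .no)) .no .no .no) .no) .no .no .no) .no)) .no) .no .no)) .no (.br .no (.br (.br .no .no (.br .no .no .no (.br .no (.br (.br (.br .no .no (.br .no (.br (.br .no .no (.br .no .no .no (.br .no (.de 47) (.sw 1 3 [28,29])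 .no)) .no) .no .no .no) .no (.de 43)) (.br .no (.br (.br .no .no (.br .no .no .no (.br .no (.de 47) (.br .no (.br .no .no (.br .no .no .no (.de 45)) .no) .no .no) .no)) .no) .no .no .no) .no .no)) .no (.br .no .no .no (.br .no (.br (.br .no .no (.br .no .no .no (.br .no (.de 47) .no .no)) .no) .no .no .no) .no .no)) .no) .no .no .no) (.br (.br (.br .no .no (.br .no (.br (.br .no (.br .no .no .no (.br .no (.de 47) (.sw 1 3 [28,29]) .no)) .no .no) .no .no .no) .no (.de 43)) (.br .no (.br (.br .no (.br .no .no .no (.br .no (.de 47) (.br .no (.br .no .no (.br .no .no .no (.br .no .no (.br (.sw 2 3 [36,43,44,45]) .no .no .no) .no)) .no) .no .no) .no)) .no .no) .no .no .no) .no .no)) .no (.br .no .no .no (.br .no (.br (.br .no (.br .no .no .no (.br .no (.de 47) .no .no)) .no .no) .no .no .no) .no .no)) .no) (.br (.br .no .no (.br .no (.br (.br .no (.br (.br .no .no (.br .no (.br .no .no .no (.br .no .no (.br .no .no .no (.de 46)) .no)) .no (.de 43)) .no) .no .no (.br .no .no (.sw 0 1 [34]) .no)) .no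 .no) .no .no .no) .no (.de 43)) (.br .no (.br (.br .no (.br (.br .no .no (.br .no (.br .no .no (.br .no .no .no (.br .no .no (.br .no .no .no (.br .no (.br .no .no .no .lf) .no .no)) .no)) .no) .no .no) .no) .no .no (.br .no .no (.sw 0 1 [34]) .no)) .no .no) .no .no .no) .no .no)) .no (.br .no .no .no (.br .no (.br (.br .no (.br (.de 41) .no .no (.br (.br .no (.br .no .no (.br .no .no .no (.br .no .no (.br (.br .no (.br .no .no .no (.sw 0 2 [35,41])) .no .no) .no .no .no) .no)) .no) .no .no) .no .no .no)) .no .no) .no .no .no) .no .no)) .no) .no .no) .no)) .no) .no .no .no) .no .no))) .no .no (.de 27)) .no .no)) .no) .no .no .no) (.br (.br .no .no (.br .no .no .no (.br .no (.br (.br .no .no (.br .no (.br .no .no .no (.br (.br .no .no (.br .no .no .no (.br .no (.br (.sw 2 3 [21,27]) .no .no .no) .no .no)) .no) (.br (.br .no .no (.br .no (.br (.sw 2 3 [21,27]) .no .no .no) .no (.br (.br (.br .no .no (.br .no .no .no (.de 43)) .no) .no (.br (.br .no .no (.br .no (.br (.br .no (.sw 2 3 [21,27,32,33])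 (.sw 1 3 [33]) .no) .no .no .no) .no (.de 44)) (.br .no (.br (.br .no (.sw 2 3 [21,27,32,33]) (.sw 1 3 [33]) .no) .no .no .no) .no .no)) .no .no .no) .no) .no .no .no)) (.br .no (.br (.sw 2 3 [21,27]) .no .no .no) .no .no)) .no (.br .no .no .no (.br .no (.br (.sw 2 3 [21,27]) .no .no .no) .no .no)) .no) .no .no)) (.br .no (.br (.br .no .no (.br .no .no .no (.br .no (.br (.br (.br .no .no (.br .no (.br (.br .no .no (.br .no .no .no (.br .no (.de 47) .no .no)) .no) .no .no .no) .no (.de 43)) (.br .no (.br (.br .no .no (.br .no .no .no (.br .no (.de 47) .no .no)) .no) .no .no .no) .no .no)) .no .no (.br .no .no (.br .no (.br (.br .no .no (.br .no .no .no (.br .no (.de 47) .no .no)) .no) .no .no .no) .no (.de 43)) .no)) .no .no .no) .no .no)) .no) .no .no .no) .no (.br (.br .no .no (.br .no .no .no (.br .no (.br (.br (.br .no (.br .no .no .no (.br (.br .no .no (.br .no .no .no (.br .no (.de 47) .no .no)) .no) (.br (.br .no .no (.br .no (.br .no .no .no (.de 48)) .no (.sw 1 2 [28])) (.de 46)) .no (.br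 .no .no .no (.br .no (.de 47) .no .no)) .no) .no .no)) (.sw 1 3 [29]) .no) (.br .no .no (.br .no (.br (.br .no .no (.br .no .no .no (.de 41)) .no) .no .no .no) .no (.de 43)) .no) .no .no) .no .no .no) .no .no)) .no) (.br (.br .no .no (.br .no (.br (.br (.br .no .no (.br .no .no .no (.de 43)) .no) (.br (.br .no .no (.br .no (.br (.br .no .no (.br .no .no .no (.de 48)) (.de 41)) .no .no (.br .no .no (.br .no .no .no (.de 48)) .no)) .no (.de 44)) (.br .no (.br (.br .no .no (.br .no .no .no (.de 48)) (.de 41)) .no .no (.br .no .no (.br .no .no .no (.de 48)) .no)) .no .no)) .no (.br .no .no .no (.de 43)) .no) .no .no) .no .no .no) .no (.br (.br (.br .no .no (.br .no .no .no (.de 43)) .no) (.br (.br .no .no (.br .no (.br (.br .no (.br .no .no .no (.de 47)) (.sw 1 3 [33]) .no) .no .no .no) .no (.de 44)) (.br .no (.br (.br .no (.br .no .no .no (.de 47)) (.sw 1 3 [33]) .no) .no .no .no) .no .no)) .no (.br .no .no .no (.de 43)) .no) .no .no) (.br (.br .no .no (.br .no .no .no (.de 43)) .no) (.br (.br .no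 .no (.br .no (.br (.br .no .no (.br (.br .no .no .no (.de 43)) .no .no (.de 48)) .no) .no .no .no) .no (.de 44)) (.br .no (.br (.br .no .no (.br (.br .no .no .no (.de 48)) .no .no (.de 48)) .no) .no .no .no) .no .no)) .no (.br .no .no .no (.de 43)) .no) .no .no) .no .no)) (.br .no (.br (.br (.br .no .no (.br .no .no .no (.de 43)) .no) (.br (.br .no .no (.br .no (.br (.sw 2 3 [32]) .no (.br .no .no .no (.de 41)) .no) .no .no) (.br .no (.br (.sw 2 3 [32]) .no (.br .no .no .no (.de 41)) .no) (.de 44) .no)) .no (.br .no .no .no (.de 43)) .no) .no .no) .no .no .no) .no .no)) .no (.br .no .no .no (.br .no (.br (.br (.br .no .no (.br (.br .no (.br (.br .no .no (.br .no (.br .no (.br .no .no .no (.br .no .no (.br .no .no .no (.de 46)) .no)) .no (.de 43)) .no (.sw 1 2 [28])) (.de 46)) .no (.br .no .no .no (.br .no (.de 47) .no .no)) .no) .no .no) .no .no (.de 43)) .no) (.br (.br .no .no .no (.br (.br .no .no (.br .no .no .no (.de 41)) .no) (.sw 0 2 [31]) .no .no)) .no (.br (.br .no (.br (.br .no .no (.br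 .no .no .no (.de 48)) (.de 41)) .no (.br .no .no .no (.de 41)) .no) .no .no) .no .no (.de 43)) .no) .no .no) .no .no .no) .no .no)) .no) .no .no)) .no) .no) .no .no (.br .no .no (.br .no (.br .no .no .no (.br (.br .no .no (.br (.br .no (.br (.br (.br .no (.br .no .no .no (.br .no (.br .no .no (.sw 0 3 [26,32]) (.br .no .no (.br .no .no .no (.br .no .no .no (.br .no .no (.de 44) .no))) .no)) .no .no)) (.br .no (.br .no .no .no (.br .no .no (.de 45) .no)) .no (.de 43)) .no) .no (.br .no (.br .no .no .no (.br .no (.br .no .no (.sw 0 3 [26,32]) (.br .no .no (.br .no .no .no (.br .no .no .no (.br .no .no (.de 44) .no))) .no)) .no .no)) .no .no) .no) .no .no .no) .no .no) .no .no .no) .no) (.br (.br .no .no (.br (.de 34) (.sw 0 3 [26]) .no .no) .no) .no (.br (.br .no (.br (.br (.br .no .no (.br (.br .no (.br .no .no (.sw 0 3 [26,32]) (.br .no .no (.br .no .no .no (.br .no (.de 48) .no (.de 43))) .no)) .no (.br .no .no (.de 45) .no)) .no .no (.de 43)) .no) .no (.br (.br .no .no .no (.br .no (.br .no .no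 (.sw 0 3 [26,32]) (.sw 0 2 [31,32])) .no .no)) .no .no .no) .no) .no .no .no) .no .no) .no .no .no) .no) .no .no)) (.br .no (.br (.br .no .no (.br (.br .no (.br (.br (.br .no .no (.br .no (.br .no .no .no (.br .no .no (.de 45) .no)) .no (.de 43)) (.br .no (.br .no .no .no (.br .no .no (.de 45) .no)) .no .no)) .no .no (.br .no .no (.br .no (.br .no .no .no (.br .no .no (.de 45) .no)) .no (.de 43)) .no)) .no .no .no) .no .no) .no .no .no) .no) .no .no .no) .no (.br (.br .no .no (.br (.br .no (.br (.br (.br .no (.br .no .no .no (.br .no (.br .no .no (.sw 0 3 [26,32]) (.br .no .no (.br .no (.br .no .no .no (.de 48)) .no (.sw 1 2 [28])) .no)) .no .no)) (.sw 1 3 [29]) .no) (.br .no .no (.br .no (.br .no .no .no (.br .no .no (.de 45) .no)) .no (.de 43)) .no) .no .no) .no .no .no) .no .no) .no .no .no) .no) (.br (.br .no .no (.br (.br .no (.br (.br .no .no (.br .no .no .no (.de 43)) .no) (.br (.br .no .no (.br .no (.br .no .no .no (.br .no .no (.br (.br .no .no .no (.de 43)) .no .no (.de 48)) .no)) .no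 (.de 44)) (.br .no (.br .no .no .no (.br .no .no (.br (.br .no .no .no (.de 48)) .no .no (.de 48)) .no)) .no .no)) .no (.br .no .no .no (.de 43)) .no) .no .no) .no .no) (.sw 0 3 [26]) .no .no) .no) .no (.br (.br .no (.br (.br (.br .no .no (.br (.br .no (.br .no .no (.sw 0 3 [26,32]) (.br .no .no (.br .no (.br .no (.br .no .no .no (.br .no .no (.de 45) .no)) .no (.de 43)) .no (.sw 1 2 [28])) .no)) .no (.br .no .no (.de 45) .no)) .no .no (.de 43)) .no) (.br (.br .no .no .no (.br .no (.br .no .no (.sw 0 3 [26,32]) (.sw 0 2 [31,32])) .no .no)) .no (.br (.br .no (.br .no .no (.sw 0 3 [26,32]) (.br .no .no (.br .no .no .no (.de 48)) .no)) .no (.br .no .no (.de 45) .no)) .no .no (.de 43)) .no) .no .no) .no .no .no) .no .no) .no .no .no) .no) .no .no)) .no) .no)) .no .no)) .no) .no (.br c1_0_0 .no .no .no) .no))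

def c1_0_2 : Cert := (.br .no .no (.br (.br .no .no (.br (.br .no (.br .no .no (.br .no .no .no (.br .no (.br .no .no .no (.br .no (.br .no .no (.br (.br .no (.br (.br (.br .no .no (.br (.br .no (.br .no .no (.br .no .no .no (.br .no .no (.br .no (.br .no .no .no (.br .no .no (.br .no .no .no (.br (.br .no (.br .no .no .no .lf) .no .no) .no .no .no)) .no)) .no (.de 43)) .no)) (.br .no .no (.br .no .no .no (.br .no (.de 48) .no (.de 43))) .no)) .no (.br .no .no (.de 45) .no)) .no .no (.de 43)) .no) .no (.br (.br .no .no .no (.br .no (.br .no .no (.br .no .no .no (.de 41)) (.br .no .no (.br .no .no .no (.br .no (.de 48) .no (.br .no .no (.de 44) .no))) .no)) .no .no)) .no .no .no) .no) .no .no .no) .no .no) .no .no (.br (.de 34) (.br (.br (.br .no .no (.br (.br .no (.br (.br .no .no (.br .no .no .no (.br .no (.de 48) .no (.de 43))) (.de 46)) .no (.sw 0 3 [32]) .no) .no .no) .no .no (.de 43)) .no) .no (.br (.br .no .no .no (.br (.br .no .no (.br .no .no .no (.de 41)) .no) (.br (.br .no .no (.br .no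 .no .no (.br .no (.de 48) .no (.br .no .no (.de 44) .no))) (.de 41)) .no (.sw 0 3 [32]) .no) .no .no)) .no .no .no) .no) .no .no .no) .no .no)) (.br (.br .no (.br (.br (.br .no .no (.br (.br .no (.sw 2 3 [31]) (.br .no .no .no (.de 45)) .no) .no .no .no) .no) .no (.br (.br .no .no (.br .no (.br .no .no (.br .no .no .no (.de 41)) (.br .no .no (.br .no .no .no (.br .no (.de 48) .no (.de 43))) .no)) .no .no) .no) .no .no .no) .no) .no .no .no) .no .no) .no .no .no)) .no .no)) .no (.br .no (.br .no .no .no (.br .no .no (.br (.br .no (.br (.br (.br .no .no (.br (.br .no (.br .no .no (.br .no .no .no (.br .no (.de 47) (.sw 1 3 [28,29,30]) .no)) (.br .no .no (.br .no (.br .no (.br .no .no .no (.br .no .no (.de 45) .no)) .no (.de 43)) .no .no) .no)) .no (.br .no .no (.de 45) .no)) (.br .no .no .no (.br .no .no (.de 45) .no)) .no .no) .no) .no (.br (.br .no (.br .no .no .no (.br .no .no (.de 45) .no)) .no .no) .no .no .no) .no) .no .no .no) .no .no) .no .no (.br (.br .no (.br (.br .no .no (.br (.br .no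 (.br .no .no (.br .no .no .no (.br .no .no (.br .no (.br .no .no .no (.br .no .no (.br .no .no .no (.br (.br .no (.br .no .no .no .lf) .no .no) .no .no .no)) .no)) .no (.de 43)) .no)) .no) .no .no) (.br (.br .no (.br .no .no (.de 41) (.br .no .no (.br .no (.br .no .no .no (.br .no .no (.br .no .no .no (.br (.br .no (.br .no .no .no .lf) .no .no) .no .no .no)) .no)) .no (.de 43)) .no)) (.br .no .no .no (.br .no .no (.br .no (.br .no .no .no (.br .no .no (.br .no .no .no (.sw 0 1 [37,38])) .no)) .no (.de 43)) .no)) .no) .no .no .no) .no .no) .no) .no (.br (.br .no (.br (.br .no (.br .no .no (.br (.br .no (.br .no .no (.br .no .no .no (.br .no .no (.br (.br .no (.sy 36 228 11) .no (.de 48)) .no .no (.br .no (.sw 0 3 [46]) .no .no)) .no)) (.br .no .no (.br .no .no .no (.br (.sw 2 3 [43,44,45]) .no .no .no)) .no)) .no (.br .no .no (.br .no .no .no (.br .no .no (.br (.br .no (.de 48) .no (.br .no (.sw 1 3 [42,47,48]) .no .no)) .no .no (.sy 42 30 4)) .no)) .no)) .no .no .no) (.br (.br .no (.br .no .no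 (.br .no .no .no (.br .no .no (.br (.br .no (.sw 2 3 [40]) .no .no) .no .no .no) .no)) (.br .no .no (.br .no .no .no (.br (.sw 2 3 [43,44,45]) .no .no .no)) .no)) .no (.br .no .no (.br .no .no .no (.br .no .no (.br (.br .no (.de 48) .no .no) .no .no .no) .no)) .no)) .no .no .no)) (.br .no .no .no (.br (.br .no (.br .no .no (.br .no .no .no (.de 45)) (.br .no .no (.br .no .no .no (.br (.sw 1 2 [39]) .no .no .no)) .no)) .no (.br .no .no (.br .no .no .no (.de 45)) .no)) .no .no .no)) .no) .no .no .no) .no .no) .no .no .no) .no) .no .no) (.br (.br (.br .no .no (.br (.br .no (.br (.br .no .no (.br .no (.br .no (.br .no .no .no (.br .no .no (.br .no .no .no (.de 46)) .no)) .no (.de 43)) .no .no) (.de 46)) .no (.sw 0 3 [32]) .no) .no .no) (.br (.br .no .no (.br .no .no .no (.br .no (.de 47) (.sw 0 1 [33,34]) .no)) .no) .no .no .no) .no .no) .no) .no (.br (.br .no (.br (.br .no .no (.br .no .no .no (.br .no (.de 47) .no .no)) .no) .no .no .no) .no .no) .no .no .no) .no) .no .no .no) .no .no)) .no)) .no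 .no))) (.de 27)) .no (.br .no .no (.br .no .no .no (.br .no (.br .no .no .no (.br .no (.br .no .no (.br (.sw 1 3 [25]) (.br (.de 34) .no .no .no) .no .no) .no) .no .no)) .no (.br .no (.br .no .no .no (.br .no (.br (.br .no (.br (.br (.br .no .no (.br (.br .no .no (.br .no .no .no (.de 45)) (.br .no .no (.de 45) .no)) .no .no .no) .no) .no (.br (.br .no .no (.br .no .no .no (.de 44)) .no) .no .no .no) .no) .no .no .no) .no .no) .no .no .no) (.br (.sw 1 3 [25]) (.br (.br .no (.br (.br .no .no (.br (.br .no .no .no (.br .no .no (.de 45) .no)) (.br (.br .no .no (.sw 1 3 [25,32]) (.br .no .no (.de 41) .no)) .no .no (.br .no .no (.de 45) .no)) .no .no) .no) .no (.br (.br .no (.br (.br .no .no (.sw 1 3 [25,32]) (.br .no .no (.br (.br .no (.br .no .no (.br .no .no .no (.br .no .no (.br (.sw 1 3 [25,32,39]) .no .no .no) .no)) (.br .no .no (.de 45) .no)) .no (.br .no .no (.br .no .no .no (.br .no .no (.br (.sw 1 3 [25,32,39]) .no .no .no) .no)) .no)) .no .no .no) .no)) .no .no (.br .no .no (.de 45) .no))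 .no .no) .no .no .no) .no) .no .no) .no .no .no) .no .no) .no)) .no .no))) .no)) .no .no (.br .no (.br .no .no (.br .no .no .no (.br .no (.br .no .no .no (.br (.br .no .no (.br (.br .no (.br (.br (.br .no (.br .no .no .no (.br .no (.br .no .no (.br .no .no .no (.br .no .no (.br .no .no .no (.br .no .no (.de 44) .no)) .no)) (.br .no .no (.br .no .no .no (.br .no .no .no (.br .no .no (.de 44) .no))) .no)) .no .no)) (.br .no (.br .no .no .no (.br .no .no (.de 45) .no)) .no (.de 43)) .no) .no (.br .no (.br .no .no .no (.br .no (.br .no .no (.br .no .no .no (.de 41)) (.br .no .no (.br .no .no .no (.br .no .no .no (.br .no .no (.de 44) .no))) .no)) .no .no)) .no .no) .no) .no .no .no) .no .no) .no .no (.br (.de 34) (.sw 0 2 [18,19,26]) .no .no)) .no) (.br (.br .no .no .no (.br (.de 34) (.sw 0 2 [18,19,26]) .no .no)) .no (.sw 0 3 [24]) .no) .no .no)) .no (.br .no (.br (.br .no .no (.br (.br .no (.br (.br (.br .no .no (.br .no (.sw 0 3 [24,30]) .no (.de 43)) (.br .no (.br .no .no .no (.br .no .no (.de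 45) .no)) .no .no)) .no (.br .no .no .no (.br .no (.br .no .no .no (.br .no .no (.de 45) .no)) .no .no)) .no) .no .no .no) .no .no) .no .no (.br (.br .no (.br (.br .no .no (.br .no (.sw 0 3 [24,30]) .no (.de 43)) (.br .no (.br (.br .no (.br .no .no (.de 41) (.sw 0 2 [18,19,26,33])) (.br .no .no .no (.br .no .no (.br .no (.br .no .no (.br .no .no .no (.de 45)) .no) .no .no) .no)) .no) .no .no .no) .no .no)) .no (.br .no .no .no (.br .no (.br (.br .no (.br .no .no (.br (.br .no (.br .no .no (.sw 0 3 [24,30,36]) .no) .no .no) .no .no .no) (.sw 0 2 [18,19,26,33])) (.br .no .no .no (.br (.br .no (.br .no .no (.sw 0 3 [24,30,36]) .no) .no .no) .no .no .no)) .no) .no .no .no) .no .no)) .no) .no .no) (.sw 0 2 [18,19,26]) .no .no)) .no) .no .no .no) .no .no))) (.de 27)) .no .no)) .no) .no .no .no) (.br (.br .no .no (.br (.br .no (.br .no .no (.de 27) (.br .no .no (.br .no (.br .no .no .no (.br .no (.br .no .no (.br (.br .no (.br (.sw 2 3 [21,26,27]) .no .no .no) .no .no) .no .no .no) (.sw 0 2 [18,19,22,23,24]))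 .no .no)) (.br .no (.br .no .no .no (.br .no .no (.br (.br .no (.br (.br (.br .no .no (.br (.br .no (.br .no .no (.br .no .no .no (.br .no (.de 47) .no .no)) (.br .no .no (.br .no (.sw 2 3 [21,26,27,28]) .no (.br .no (.de 48) .no (.de 43))) .no)) .no (.br .no .no (.de 45) .no)) (.br .no .no .no (.br .no .no (.de 45) .no)) .no .no) .no) .no .no (.br (.br .no (.br .no .no .no (.br .no .no (.de 45) .no)) .no .no) .no (.br (.br .no (.br .no .no (.br .no .no .no (.br .no (.de 47) .no .no)) (.br .no .no (.br .no (.de 48) .no .no) .no)) .no (.br .no .no (.de 45) .no)) (.br .no .no .no (.br .no .no (.de 45) .no)) .no .no) .no)) .no .no .no) .no .no) .no .no .no) .no)) .no (.br .no (.br .no .no (.br (.br .no (.br (.br (.br .no .no (.br (.sw 1 3 [29,30]) .no .no (.de 43)) .no) (.br (.br .no .no .no (.br .no (.br .no .no (.br .no .no .no (.de 41)) (.br .no .no (.br .no .no .no (.de 48)) .no)) .no .no)) .no (.br (.br .no (.br .no .no (.br .no .no .no (.de 41)) (.br .no .no (.br .no .no .no (.de 48)) .no))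 .no (.br .no .no (.de 45) .no)) .no .no (.de 43)) .no) .no .no) .no .no .no) .no .no) .no .no .no) (.br (.br .no (.br (.br (.br .no .no (.br (.br .no (.sw 2 3 [31]) (.br .no .no .no (.de 45)) .no) .no .no .no) .no) (.br (.br .no .no (.br .no (.br .no .no (.br .no .no .no (.de 41)) (.br .no .no (.br .no .no .no (.de 48)) .no)) .no .no) .no) .no (.br (.br .no (.sw 2 3 [31]) (.br .no .no .no (.de 45)) .no) .no .no .no) .no) .no .no) .no .no .no) .no .no) .no (.br (.br .no (.br (.br .no .no (.br (.br .no (.br .no .no .no (.br .no .no (.br .no .no .no (.br .no (.de 48) .no (.de 43))) .no)) .no .no) .no .no .no) .no) (.br (.br .no .no (.br (.br .no (.br .no .no (.br (.br .no .no .no (.de 43)) .no .no (.de 48)) (.br (.br .no .no .no (.de 43)) .no .no .no)) .no (.br .no .no (.br (.br .no .no .no (.de 43)) .no .no (.de 48)) .no)) (.br .no .no .no (.br .no .no (.br (.br .no .no .no (.de 43)) .no .no (.de 48)) .no)) .no .no) .no) .no (.br (.br .no (.br .no .no .no (.br .no .no (.br (.br .no .no .no (.de 43))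 .no .no (.de 48)) .no)) .no .no) .no .no .no) .no) .no .no) .no .no) (.br (.br (.br .no .no (.br (.br .no (.br (.br .no .no (.br .no (.br .no (.br .no .no .no (.br .no .no (.br .no .no .no (.de 46)) .no)) .no (.de 43)) .no (.sw 1 2 [28])) (.de 46)) .no .no (.sw 0 2 [32])) .no .no) .no .no .no) .no) (.br (.br .no .no (.br (.br .no .no .no (.br .no .no (.br .no .no .no (.de 48)) .no)) (.br (.br .no .no (.br .no .no .no (.de 48)) (.de 41)) .no .no (.sw 0 2 [32])) .no .no) .no) .no (.br (.br .no (.br (.br .no .no (.br .no .no .no (.de 48)) (.de 41)) .no .no (.sw 0 2 [32])) .no .no) .no .no .no) .no) .no .no) .no .no .no) .no .no) .no)) .no .no)) .no) .no)) .no (.br .no .no (.de 27) .no)) .no .no (.br .no (.br .no .no (.de 27) (.sw 0 2 [18,19])) .no .no)) .no) .no (.br (.br .no .no .no (.br .no (.br .no .no (.de 27) (.sw 0 2 [18,19])) .no .no)) .no .no .no) .no))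

def c1_0_3 : Cert := (.br .no .no (.br .no (.br .no .no .no (.br .no .no (.br (.br .no .no (.br .no (.br (.br .no .no (.br (.br .no (.br .no (.br (.br .no .no (.br .no (.br .no .no .no (.br .no .no (.br .no .no .no (.de 48)) .no)) .no (.de 44)) (.br .no (.br .no .no .no (.br .no .no (.br .no .no .no (.de 48)) .no)) .no .no)) .no .no (.de 42)) .no (.br (.br .no .no (.br .no (.br .no .no .no (.br .no .no (.de 41) .no)) .no (.de 44)) (.br .no (.br .no .no .no (.br .no .no (.de 41) .no)) .no .no)) .no .no .no)) .no .no) (.de 34) .no .no) .no) .no .no (.br (.br .no (.de 34) .no .no) .no (.br (.br .no (.br .no (.br (.br .no .no (.br (.br .no (.br .no .no (.br .no .no .no (.de 48)) (.br .no .no (.br .no .no .no (.de 43)) .no)) .no (.br .no .no (.br .no .no .no (.de 48)) .no)) (.sw 0 3 [31]) .no .no) .no) .no .no (.de 42)) .no (.br (.br .no .no (.br (.br .no (.br .no .no (.de 41) (.br .no .no (.br .no (.de 48) .no .no) .no)) .no (.br .no .no (.de 41) .no)) (.sw 0 3 [31]) .no .no) .no) .no .no .no)) .no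 .no) (.de 34) .no .no) .no)) .no (.br (.br .no .no (.br (.br .no (.br .no (.br (.br .no (.br .no .no .no (.br .no (.br .no .no (.br .no .no .no (.de 48)) (.br .no .no (.br .no .no .no (.de 48)) .no)) .no .no)) (.sw 1 3 [30]) .no) .no .no .no) .no (.br (.br .no (.br .no .no .no (.br .no (.br .no .no (.de 41) (.br .no .no (.br .no (.de 48) .no .no) .no)) .no .no)) (.sw 1 3 [30]) .no) (.de 42) .no .no)) .no .no) (.de 34) .no .no) .no) .no .no .no)) (.br .no (.br (.br .no .no (.br (.br .no (.br .no (.br (.sw 2 3 [29]) .no (.br .no .no .no (.de 43)) .no) (.br (.br .no .no (.br .no (.br .no .no .no (.br .no .no (.br .no .no .no (.br .no (.de 48) .no (.de 43))) .no)) .no (.de 44)) (.br .no (.br .no .no .no (.br .no .no (.br .no .no .no (.br .no (.de 48) .no (.br .no .no (.de 44) .no))) .no)) .no .no)) .no .no .no) .no) .no .no) (.de 34) .no .no) .no) .no .no (.br (.br .no (.de 34) .no .no) .no (.br (.br .no (.br .no (.br (.sw 2 3 [29]) .no (.br (.br .no (.br .no .no .no (.br .no .no (.br .no .no .no (.de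 48)) .no)) .no .no) .no .no .no) .no) (.br (.br .no .no (.br (.br .no (.br .no .no (.br .no .no .no (.br .no (.de 48) .no (.de 43))) (.de 41)) .no (.br .no .no (.br .no .no .no (.br .no (.de 48) .no (.de 43))) .no)) (.sw 0 3 [31]) .no .no) .no) .no .no .no) .no) .no .no) (.de 34) .no .no) .no)) .no .no)) .no (.br .no .no .no (.br .no (.br (.br .no .no (.br (.br .no (.br (.br .no .no (.br .no .no .no (.de 43)) .no) (.br (.br .no .no (.br .no (.br .no .no .no (.br .no .no (.br (.br .no .no .no (.de 43)) .no .no (.de 48)) .no)) .no (.de 44)) (.br .no (.br .no .no .no (.br .no .no (.br (.br .no .no .no (.de 48)) .no .no (.de 48)) .no)) .no .no)) .no (.br .no .no .no (.de 43)) .no) .no .no) .no .no) (.br (.br (.br .no .no (.br .no .no .no (.de 43)) .no) (.br (.br .no .no (.br .no (.br (.br .no .no (.br .no .no .no (.de 48)) (.de 41)) .no .no (.br .no .no (.br .no .no .no (.de 48)) .no)) .no (.de 44)) (.br .no (.br (.br .no .no (.br .no .no .no (.de 48)) (.de 41)) .no .no (.br .no .no (.br .no .no .no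 (.de 48)) .no)) .no .no)) .no (.br .no .no .no (.de 43)) .no) .no .no) .no .no .no) .no .no) .no) .no .no (.br (.br .no (.br (.br (.br .no .no (.br (.br .no (.br .no .no (.br .no .no .no (.br .no (.de 47) .no .no)) (.br .no .no (.br .no (.br .no (.br .no .no .no (.br .no .no (.de 45) .no)) .no (.de 43)) .no (.br .no (.de 48) .no (.de 43))) .no)) (.br .no .no .no (.de 45)) .no) .no .no .no) .no) (.br (.br .no .no (.br .no (.br .no .no (.br .no .no .no (.de 41)) (.br .no .no (.br .no .no .no (.de 48)) .no)) .no .no) .no) .no (.br (.br .no (.br .no .no (.br .no .no .no (.de 41)) (.br .no .no (.br .no .no .no (.de 48)) .no)) (.br .no .no .no (.de 45)) .no) .no .no .no) .no) .no .no) .no .no .no) .no .no) .no (.br (.br .no (.br (.br .no .no (.br (.br .no (.br .no .no .no (.br .no .no (.br .no .no .no (.br .no (.de 48) .no (.de 43))) .no)) .no .no) .no .no .no) .no) (.br (.br .no .no (.br (.br .no (.br .no .no (.br (.br .no .no .no (.de 43)) .no .no (.de 48)) (.br (.br .no .no .no (.de 43)) .no .no .no))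 .no (.br .no .no (.br (.br .no .no .no (.de 43)) .no .no (.de 48)) .no)) (.sw 0 3 [31]) .no .no) .no) .no (.br (.br .no (.br .no .no .no (.br .no .no (.br (.br .no .no .no (.de 43)) .no .no (.de 48)) .no)) .no .no) .no .no .no) .no) .no .no) .no .no) (.br (.br (.br .no .no (.br (.br .no (.br (.br .no .no (.br .no (.br .no (.br .no .no .no (.br .no .no (.br .no .no .no (.de 46)) .no)) .no (.de 43)) .no (.br .no (.de 48) .no (.de 43))) (.de 46)) .no .no (.sw 0 2 [32])) .no .no) .no .no .no) .no) (.br (.br .no .no (.br (.br .no .no .no (.br .no .no (.br .no .no .no (.de 48)) .no)) (.sw 0 3 [31]) .no .no) .no) .no (.br (.br .no (.br (.br .no .no (.br .no .no .no (.de 48)) (.de 41)) .no .no (.sw 0 2 [32])) .no .no) .no .no .no) .no) .no .no) .no .no .no) .no .no) .no)) .no .no)) .no) .no)) .no (.br .no (.br .no .no (.br (.br .no .no (.br .no (.br (.br .no .no (.br (.sw 1 3 [25,26]) .no .no (.br .no (.br .no (.br (.br .no .no (.br .no (.br (.br .no .no (.br .no .no .no (.de 48)) .no) .no .no .no) .no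 (.de 44)) (.br .no (.br (.br .no .no (.br .no .no .no (.de 48)) .no) .no .no .no) .no .no)) .no .no (.de 42)) .no (.br (.br .no .no (.br .no (.br (.br .no .no (.de 41) .no) .no .no .no) .no (.de 44)) (.br .no (.br (.br .no .no (.de 41) .no) .no .no .no) .no .no)) .no .no .no)) .no .no)) .no) .no .no .no) .no (.br (.br .no .no (.br (.sw 1 3 [25,26]) .no .no (.br .no (.br .no (.br (.br .no (.br .no .no .no (.br (.br .no .no (.br .no .no .no (.de 48)) .no) (.br (.br .no .no (.br .no .no .no (.de 48)) (.de 48)) .no (.sw 0 3 [33]) .no) .no .no)) (.sw 1 3 [30]) .no) .no .no .no) .no (.br (.br .no (.br .no .no .no (.br (.br .no .no (.de 41) .no) (.br (.br .no .no (.br .no (.de 48) .no .no) .no) .no (.de 41) .no) .no .no)) (.sw 1 3 [30]) .no) (.de 42) .no .no)) .no .no)) .no) (.br (.br .no .no .no (.br .no (.br .no (.br (.br .no .no (.br .no .no .no (.de 44)) .no) .no .no .no) .no (.br (.br .no .no (.br .no .no .no (.de 44)) .no) (.de 42) .no .no)) .no .no)) .no (.br (.br .no (.sw 2 3 [21,27]) .no .no)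 .no .no (.br .no (.br .no (.br (.br .no .no (.br (.br .no (.br (.br .no .no (.br .no .no .no (.de 43)) (.de 48)) .no (.sw 0 3 [33]) .no) .no .no) .no .no (.de 44)) .no) .no .no .no) .no (.br (.br .no .no (.br (.br .no (.br (.br .no .no (.br .no (.de 48) .no .no) .no) .no (.de 41) .no) .no .no) .no .no (.de 44)) .no) (.de 42) .no .no)) .no .no)) .no) .no .no)) (.br .no (.br (.br .no .no (.br (.sw 1 3 [25,26]) .no .no (.br .no (.br .no (.br (.sw 2 3 [29]) .no (.br .no .no .no (.de 43)) .no) (.br (.br .no .no (.br .no (.br (.br .no .no (.br .no .no .no (.br .no (.de 48) .no (.de 43))) .no) .no .no .no) .no (.de 44)) (.br .no (.br (.br .no .no (.br .no .no .no (.br .no (.de 48) .no (.br .no .no (.de 44) .no))) .no) .no .no .no) .no .no)) .no .no .no) .no) .no .no)) .no) .no .no .no) .no .no)) .no (.br .no .no .no (.br .no (.br (.br .no .no (.br (.sw 1 3 [25,26]) .no .no (.br (.br (.br .no .no (.br .no .no .no (.de 43)) .no) (.br (.br .no .no (.br .no (.br (.br .no (.br .no .no .no (.de 47)) (.sw 1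 3 [25,26,33]) .no) .no .no .no) .no (.de 44)) (.br .no (.br (.br .no (.br .no .no .no (.de 47)) (.sw 1 3 [25,26,33]) .no) .no .no .no) .no .no)) .no (.br .no .no .no (.de 43)) .no) .no .no) (.br (.br .no .no (.br .no .no .no (.de 43)) .no) (.br (.br .no .no (.br .no (.br (.br .no .no (.br (.br .no .no .no (.de 43)) .no .no (.de 48)) .no) .no .no .no) .no (.de 44)) (.br .no (.br (.br .no .no (.br (.br .no .no .no (.de 48)) .no .no (.de 48)) .no) .no .no .no) .no .no)) .no (.br .no .no .no (.de 43)) .no) .no .no) .no .no)) .no) .no .no .no) .no .no)) .no) .no) .no .no)) (.br .no (.br .no .no .no (.br .no .no (.br (.br .no .no (.br .no (.br (.sw 2 3 [24]) .no (.br (.br .no (.de 34) .no .no) .no .no .no) .no) .no .no) (.br .no (.br (.sw 2 3 [24]) .no (.br (.br .no (.de 34) .no .no) .no .no .no) .no) (.br (.br .no .no (.br (.br .no (.br .no (.br (.br .no (.sw 2 3 [24,29,30]) .no (.sw 1 2 [30])) .no .no .no) (.br (.br .no (.br .no .no .no (.br .no (.br .no .no (.br .no .no .no (.br .no (.de 48) .no (.br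 .no .no (.de 44) .no))) (.de 41)) .no .no)) .no (.sw 1 2 [30])) (.br .no .no .no (.br .no (.br .no .no .no (.br .no .no (.br .no .no .no (.br .no .no .no (.br .no .no (.de 44) .no))) .no)) .no .no)) .no .no) .no) .no .no) (.de 34) .no .no) .no) .no .no .no) .no)) .no (.br .no .no .no (.br .no (.br (.sw 2 3 [24]) .no (.br (.br .no (.br (.br (.br .no .no (.br (.br .no (.sw 2 3 [24,31]) .no (.br .no .no (.de 45) .no)) .no .no (.de 43)) .no) (.br (.br .no .no .no (.br .no (.br .no .no (.br .no .no .no (.de 41)) (.sw 0 2 [31,32])) .no .no)) .no (.br (.br .no (.sw 2 3 [24,31]) .no (.br .no .no (.de 45) .no)) .no .no (.de 43)) .no) .no .no) .no .no .no) .no .no) .no .no .no) .no) (.br (.br .no .no (.br (.br .no (.br (.br .no (.br .no .no .no (.br .no (.br .no .no .no (.br .no .no (.br .no .no .no (.br .no .no .no (.br .no .no (.de 44) .no))) .no)) .no .no)) .no .no) (.br (.br .no (.br .no .no .no (.br .no (.br .no .no (.br (.br .no .no .no (.de 48)) .no .no (.de 48)) (.br (.br .no .no .no (.de 48)) .no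 .no .no)) .no .no)) .no (.sw 1 2 [30])) .no .no .no) .no .no) .no .no) (.br (.br (.br .no (.br .no .no .no (.br .no (.br (.br .no .no (.br .no (.br .no .no .no (.de 48)) .no (.br .no .no .no (.br .no .no (.de 44) .no))) (.de 46)) .no .no (.br .no .no (.br .no (.br .no .no .no (.de 48)) .no (.sw 0 1 [33,34])) .no)) .no .no)) .no .no) (.br (.br .no (.br .no .no .no (.br (.br .no .no (.br .no .no .no (.de 48)) (.de 41)) .no .no .no)) .no (.sw 1 2 [30])) .no .no .no) .no .no) .no .no .no) .no .no) .no) .no .no .no) .no)) .no) .no)) .no .no))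

theorem P1_0 : R.S 12 13345348 :=
  R.piece L hL (.br .no (.br .no .no .no (.br (.br .no (.br .no .no .no (.br .no (.br (.br .no .no (.br .no c1_0_1 .no .no) .no) .no (.br (.br .no c1_0_2 .no .no) .no .no .no) .no) (.br (.br .no .no (.br .no (.br .no .no (.br (.br .no (.br .no .no .no (.br .no (.br (.br .no .no .no (.br .no (.br .no .no (.br (.br .no .no (.br .no .no .no (.br .no (.br (.br (.br .no (.br .no .no .no (.br (.br .no .no (.br .no .no .no (.br .no .no (.br .no .no .no (.br .no .no (.de 44) .no)) .no)) .no) (.br (.br .no .no (.br .no .no .no (.br .no .no .no (.br .no .no (.de 44) .no))) (.de 46)) .no (.br .no .no .no (.br .no .no (.br .no .no .no (.br .no .no (.de 44) .no)) .no)) .no) .no .no)) .no (.br .no (.br (.br .no .no (.br .no .no .no (.br .no .no (.br .no (.br .no .no (.br .no .no .no (.de 45)) .no) .no .no) .no)) .no) .no .no .no) .no .no)) .no .no (.br .no (.de 42) .no .no)) .no .no .no) (.br (.sw 1 3 [11,12,13,20,27]) .no .no .no) .no)) .no) .no .no .no) (.br (.sw 1 2 [17,23])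 .no (.br (.br .no .no (.br .no (.br (.br (.br .no (.br .no .no .no (.br .no (.br (.br .no .no (.sw 1 3 [11,12,13,20,27,33]) (.de 46)) .no .no (.br .no .no (.br .no .no .no (.br .no .no .no (.br .no .no (.de 44) .no))) .no)) .no .no)) .no .no) .no (.br (.br .no (.br .no .no .no (.br (.br .no .no (.sw 1 3 [11,12,13,20,27,33]) (.de 41)) .no .no .no)) .no (.sw 1 2 [17,23,30])) (.br .no .no .no (.br .no (.br (.br .no .no (.sw 1 3 [11,12,13,20,27,33]) (.de 41)) .no .no (.br .no .no (.br .no .no .no (.br .no .no .no (.br .no .no (.de 44) .no))) .no)) .no .no)) .no .no) .no) .no .no .no) .no .no) (.br .no (.br (.br (.br .no (.br .no .no .no (.br .no (.sw 0 2 [30,31]) (.de 44) .no)) .no .no) .no (.br (.br .no (.br .no .no (.br (.br .no .no (.br .no .no .no (.br .no (.de 48) .no (.br .no .no (.br .no .no .no (.de 45)) .no))) (.de 41)) .no .no .no) .no) .no (.sw 1 2 [17,23,30])) (.br .no .no .no (.br .no (.sw 0 2 [30,31]) (.de 44) .no)) .no .no) .no) .no .no .no) (.br (.sw 1 3 [11,12,13,20,27]) .no .no .no)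 .no)) .no .no .no) .no)) .no (.br .no .no (.br (.br .no .no (.br .no .no .no (.br .no (.br (.br (.br .no (.br .no .no .no (.br (.br .no .no (.br .no .no .no (.br .no (.de 47) (.sw 1 3 [28]) .no)) .no) (.br (.br .no .no (.br .no (.br .no .no .no (.de 48)) .no .no) (.de 46)) .no (.br .no .no .no (.br .no (.de 47) (.sw 1 3 [28]) .no)) .no) .no .no)) .no (.sw 1 2 [17,23,29])) (.br .no .no .no (.de 42)) .no .no) .no .no .no) (.br (.sw 1 3 [11,12,13,20,27]) (.br (.br .no (.br .no .no .no (.br (.br .no (.br (.br .no .no (.sw 1 3 [11,12,13,20,27,28,34]) .no) .no .no (.br .no .no (.sw 0 1 [34]) .no)) .no .no) (.br (.br .no .no .no (.de 46)) .no .no .no) .no .no)) .no (.sw 1 2 [17,23,29])) (.br .no .no .no (.de 42)) .no .no) .no .no) .no)) .no) .no .no .no) .no))) .no .no (.de 27)) .no .no)) .no .no) .no .no .no) (.br (.br .no (.br .no .no .no (.br .no (.br (.br .no .no (.sw 1 3 [11,12,13,20]) .no) .no .no (.br .no .no (.br .no (.br .no .no (.br (.br .no .no (.br (.br .no (.br (.br (.br .no (.br .no .no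 .no (.br .no (.br .no .no (.sw 0 3 [26,32]) (.br .no .no (.br .no .no .no (.br .no .no .no (.br .no .no (.de 44) .no))) .no)) .no .no)) .no (.br .no (.br .no .no .no (.br .no .no (.de 45) .no)) .no .no)) .no .no (.br .no (.de 42) .no .no)) .no .no .no) .no .no) .no .no .no) .no) .no .no .no) (.br (.sw 1 2 [17,23]) .no (.br (.br .no .no (.br (.de 34) (.sw 0 3 [26]) .no .no) .no) .no .no .no) .no)) (.br .no .no .no (.br (.sw 1 2 [17,23]) .no (.br (.br .no .no (.br (.br .no (.br (.br .no (.br .no .no .no (.br .no (.br .no .no .no (.br .no .no (.br .no .no .no (.br .no .no .no (.br .no .no (.de 44) .no))) .no)) .no .no)) .no .no) (.br (.br .no (.br .no .no .no (.br .no (.br .no .no (.sw 0 3 [26,33]) (.br (.br .no .no .no (.de 48)) .no .no .no)) .no .no)) .no (.sw 1 2 [17,23,30])) .no .no .no) .no .no) .no .no) (.sw 0 3 [26]) .no .no) .no) .no .no .no) .no)) .no) .no)) .no .no)) .no .no) .no (.br (.br .no (.br .no .no .no (.br (.br .no .no (.sw 1 3 [11,12,13,20]) .no) .no .no .no)) .no (.sw 1 2 [17]))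 (.br .no .no .no (.br .no (.br (.br .no .no (.sw 1 3 [11,12,13,20]) .no) .no .no (.br .no .no (.br (.br .no .no .no (.br (.br .no .no (.br (.br .no (.de 34) .no .no) .no .no .no) .no) .no (.sw 0 1 [23]) .no)) (.br (.br .no .no (.br (.br .no .no (.br (.de 34) (.sw 0 3 [26]) .no .no) .no) .no .no .no) .no) .no .no (.sw 0 2 [22])) .no .no) .no)) .no .no)) .no .no) .no)) .no .no) .no) .no .no .no) .no)) .no .no) (.br (.br .no (.br .no .no (.br (.br .no .no (.br (.sw 1 3 [11,12,13]) .no .no .no) .no) .no .no .no) .no) .no (.br .no (.br (.br .no .no (.br (.br .no .no (.br .no (.br (.br .no .no (.br .no (.br .no .no .no (.de 27)) .no (.br .no (.br .no .no .no (.br (.br .no .no (.sw 1 3 [11,12,13,16,17,22]) (.br .no (.br (.br .no .no (.br (.br .no (.br .no (.br (.sw 2 3 [29]) .no (.br .no .no .no (.de 43)) .no) (.br (.br .no .no (.sw 1 3 [11,12,13,16,17,22,29,30]) (.br .no (.br .no .no .no (.br .no .no (.br .no .no .no (.br .no (.de 48) .no (.br .no .no (.de 44) .no))) .no)) .no .no)) .no .no .no) .no)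 .no .no) .no .no .no) .no) .no .no .no) .no .no)) .no .no (.br .no .no (.br .no (.br (.br .no .no (.br (.br .no (.br (.br .no .no .no (.br .no .no (.de 43) .no)) (.br (.br .no .no (.br .no (.br .no .no .no (.br .no .no (.br (.br .no .no .no (.de 43)) .no .no .no) .no)) .no (.de 44)) (.br .no (.br .no .no .no (.br .no .no (.br (.br .no .no .no (.de 48)) .no .no .no) .no)) .no .no)) .no .no (.de 42)) .no .no) .no .no) .no .no .no) .no) .no .no .no) .no (.br (.br .no .no (.br (.br .no (.br (.br .no (.br .no .no (.br .no (.br .no .no .no (.br .no .no (.de 41) .no)) .no (.de 44)) .no) .no .no) (.br (.br .no (.br .no .no .no (.br .no (.br .no .no (.br (.br .no .no .no (.de 48)) .no .no .no) (.br (.br .no .no .no (.de 48)) .no (.sw 0 3 [28]) .no)) .no .no)) (.sw 1 3 [30]) .no) .no .no .no) .no .no) .no .no) .no .no .no) .no) (.br (.br .no .no (.br (.br (.br .no (.br (.br .no .no (.br .no (.br .no .no .no (.br .no (.de 47) (.sw 1 3 [11,12,13,16,17,22,28]) .no)) .no (.de 45)) (.br .no (.br .no .no .no (.br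 .no (.de 47) (.sw 1 3 [11,12,13,16,17,22,28]) .no)) .no .no)) .no (.br .no .no .no (.de 44)) .no) .no .no) (.br (.br .no .no (.br .no .no .no (.de 44)) .no) .no .no .no) .no .no) (.br (.br .no (.br (.br .no .no (.br .no (.br (.br .no .no (.br .no .no .no (.br .no .no (.br .no .no .no (.de 45)) .no)) .no) .no .no (.br .no .no (.sw 0 1 [34]) .no)) .no (.de 45)) (.br .no (.br (.br .no .no (.br .no .no .no (.br .no .no (.de 44) .no)) .no) .no .no (.br .no .no (.sw 0 1 [34]) .no)) .no .no)) .no (.br .no .no .no (.de 44)) .no) .no .no) (.br (.br .no .no (.br .no .no .no (.de 44)) .no) .no .no .no) .no .no) .no .no) .no) .no (.br (.br .no (.br (.br .no (.br (.br .no .no .no (.br .no (.br .no .no (.de 41) (.sw 0 2 [32,33])) .no .no)) .no (.br (.br .no (.br .no .no (.de 41) (.br .no .no (.br .no .no .no (.de 43)) .no)) .no (.br .no .no (.de 41) .no)) .no .no (.de 44)) .no) .no .no) (.br (.br .no .no (.br (.br .no (.br .no .no (.br (.br .no .no .no (.de 43)) .no .no .no) (.br (.br .no .no .no (.de 43)) .no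 (.sw 0 3 [28]) .no)) .no (.br .no .no (.br (.br .no .no .no (.de 43)) .no .no .no) .no)) .no .no (.de 44)) .no) .no .no .no) .no .no) .no .no) .no .no .no) .no) .no .no)) .no))) .no .no)) (.br .no (.br .no .no .no (.de 27)) .no .no)) .no (.br .no .no .no (.br .no (.br .no .no .no (.de 27)) .no .no)) .no) .no .no) (.br .no (.br c1_0_3 .no (.br .no .no .no (.br .no (.br .no .no .no (.br .no .no (.br (.br .no .no .no (.br (.br .no .no (.br (.br .no (.de 34) .no .no) .no .no .no) .no) (.sw 0 2 [23]) .no .no)) .no (.br (.br .no (.br (.br .no .no (.br (.br .no (.br .no (.br .no .no (.br .no .no .no (.de 43)) (.de 42)) .no (.br .no .no (.br .no .no .no (.de 43)) .no)) .no .no) (.br (.br .no (.br .no .no (.br .no .no .no (.de 43)) (.de 42)) .no (.br .no .no (.br .no .no .no (.de 43)) .no)) .no .no .no) .no .no) .no) .no (.br (.br .no (.br (.br .no (.br .no .no (.br (.br .no (.br .no .no (.br .no .no .no (.de 41)) (.br .no .no (.br .no .no .no (.de 48)) .no)) .no (.br .no .no (.de 45) .no)) .no .no (.de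 43)) (.de 42)) .no (.br .no .no (.br (.br .no (.br .no .no (.br .no .no .no (.br .no (.de 47) .no .no)) (.br .no .no (.br .no (.de 48) .no .no) .no)) .no (.br .no .no (.de 45) .no)) .no .no (.de 43)) .no)) .no .no .no) .no .no) .no .no .no) .no) .no .no) .no .no (.sw 0 1 [14,15,20,22])) .no) .no)) .no .no)) .no) (.br (.br .no .no (.sw 1 3 [11,12,13,16,17]) (.br .no (.br .no .no .no (.br .no .no (.sw 0 1 [14,15,20]) .no)) .no .no)) .no .no .no) .no)) .no .no .no) .no) .no (.br (.de 20) .no .no .no) .no) (.br (.br .no .no (.br (.sw 1 3 [11,12,13]) .no .no .no) .no) .no .no .no) .no)) .no .no .no) .no .no)) .no .no) 12 13345348 16777216 (by norm_num) (by norm_num) (by norm_num) (by decide +kernel)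

theorem P1_1 : R.S 11 3908164 :=
  R.piece L hL (.br .no (.br .no .no .no (.br .no (.br (.br .no (.br (.br .no .no (.br (.br .no .no (.br .no .no .no (.sy 10 39 10)) .no) .no .no .no) .no) .no .no .no) .no .no) (.br (.br .no (.br (.br .no .no (.br (.br .no .no .no (.br .no .no (.br .no .no .no (.br .no .no (.br .no (.sw 0 3 [10,17]) .no (.br .no (.br .no .no (.br (.br (.br .no (.br (.br .no .no (.br (.sw 1 3 [24,25]) .no .no (.br .no (.br .no .no .no (.br .no .no (.br .no .no .no (.br .no (.br (.br .no .no (.br (.br .no (.br .no (.br .no .no (.sw 0 3 [10,17,24,30,36]) .no) .no .no) .no .no) .no .no .no) .no) .no .no .no) .no .no)) (.br .no .no (.br .no (.sw 0 3 [10,17,24,30]) .no (.de 43)) .no))) .no .no)) .no) .no .no .no) .no .no) (.br (.br .no (.br (.br .no .no .no (.br .no (.br .no .no .no (.br .no .no (.br .no .no .no (.br .no .no (.de 43) .no)) (.br .no .no (.br .no .no .no (.de 43)) .no))) .no .no)) .no (.sw 0 3 [10,17,24]) .no) .no .no) .no .no .no) .no .no) .no .no .no) .no) .no .no))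 .no)) (.br .no .no (.br .no .no .no (.br .no (.br .no .no .no (.br .no (.br (.br (.br .no (.br (.br .no .no (.br (.br .no .no (.br .no (.sw 2 3 [21,22,23]) .no .no) (.br .no (.sw 2 3 [21,22,23]) (.br .no .no (.br .no .no .no (.br .no (.br .no .no .no (.br .no (.br (.br .no (.sw 2 3 [21,22,23,33,34]) .no (.sw 1 2 [34])) .no .no .no) (.de 45) .no)) .no .no)) (.br .no .no (.br .no (.sw 0 3 [10,17,23,30]) .no (.de 43)) .no)) .no)) .no .no .no) .no) .no (.sw 0 3 [10,17,23]) .no) .no .no) (.br (.br .no .no (.br (.br .no .no (.br .no .no .no (.br .no .no (.br .no .no (.br .no (.sw 0 3 [10,17,23,29]) .no (.br .no (.br .no .no .no (.br (.br .no (.br (.br .no (.br .no .no (.de 44) .no) .no .no) .no .no (.de 47)) .no .no) (.br (.br .no .no .no (.sw 0 1 [28,29])) .no .no .no) .no .no)) .no .no)) (.br .no (.de 42) .no .no)) .no)) .no) .no .no .no) .no) .no .no .no) .no .no) .no (.br (.br .no (.br (.br .no .no (.br (.br .no .no .no (.br .no (.sw 0 2 [27]) .no .no)) .no .no .no) .no) .no (.sw 0 3 [10,17,23])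 .no) .no .no) (.br (.br .no .no (.br (.br .no .no (.br (.de 34) .no .no (.sy 23 39 10)) .no) .no .no .no) .no) .no .no .no) .no .no) .no) (.br (.br (.br .no (.br (.br .no .no (.br (.br .no (.br .no .no (.br .no .no (.br .no .no .no (.br .no (.br .no .no .no (.br .no .no (.de 45) .no)) .no .no)) (.br .no .no (.br .no (.sw 0 3 [10,17,23,30]) .no (.de 43)) .no)) .no) .no (.sw 1 2 [26])) (.br .no .no .no (.br .no (.sw 2 3 [21,22,23]) (.br .no .no (.br .no .no .no (.br .no (.br (.br .no .no (.br (.br .no (.br .no (.br .no .no (.sw 0 3 [10,17,23,30,36]) .no) .no .no) .no (.sw 1 2 [34])) (.br .no .no .no (.de 47)) .no .no) .no) .no .no (.br (.br .no (.br .no .no .no (.de 47)) .no .no) .no (.de 45) .no)) .no .no)) (.br .no .no (.br .no (.sw 0 3 [10,17,23,30]) .no (.de 43)) .no)) .no)) .no .no) .no) .no (.sw 0 3 [10,17,23]) .no) .no .no) (.br (.br .no .no (.br (.br .no (.br .no .no .no (.br .no .no (.br .no .no (.br .no (.sw 0 3 [10,17,23,29]) .no (.br .no (.br .no .no (.br (.br .no (.br (.br .no (.br .no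 .no (.sw 0 3 [10,17,23,29,36]) .no) .no .no) .no .no (.de 47)) .no .no) .no .no .no) (.br (.sw 1 2 [26,32]) .no (.de 45) .no)) .no .no)) (.br .no (.de 42) .no .no)) .no)) .no .no) .no .no .no) .no) .no .no .no) .no .no) .no .no .no) .no)) .no .no)) .no))) .no .no .no) .no) .no (.sw 0 3 [10]) .no) .no .no) .no .no .no) .no .no) .no .no)) .no .no) 11 3908164 4194304 (by norm_num) (by norm_num) (by norm_num) (by decide +kernel)

def c1_2_0 : Cert := (.br (.br .no (.br (.br .no (.br .no .no .no (.br .no (.br .no (.br .no .no (.br .no .no .no (.br .no .no (.br (.br .no .no (.br (.br (.br .no (.br (.br .no (.br .no .no .no (.br .no (.br .no .no (.br .no .no .no (.br .no .no (.br .no .no .no (.br .no .no (.br (.br .no .no .no (.br .no .lf .no .no)) .no .no .no) .no)) .no)) (.de 47)) .no .no)) .no (.br .no (.br .no .no .no (.br .no .no (.br .no .no .no (.br .no .no (.de 44) .no)) .no)) .no .no)) .no .no .no) .no .no) .no .no (.br (.br .no (.br .no .no .no (.br .no (.br .no .no .no (.br .no .no (.br .no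 (.de 48) .no .no) .no)) .no .no)) .no .no) (.de 42) .no .no)) .no .no (.br (.br .no (.br (.br .no (.br .no .no .no (.br (.de 46) (.br .no .no (.sw 0 3 [34]) .no) .no .no)) .no (.br .no (.br (.br .no .no (.br .no .no .no (.br .no .no (.de 44) .no)) .no) .no .no .no) .no .no)) .no .no .no) .no .no) .no .no (.br (.br .no (.br .no .no .no (.br .no (.br (.br .no .no (.br .no (.de 48) .no .no) .no) .no .no .no) .no .no)) .no .no) (.de 42) .no .no))) .no) .no .no .no) .no)) (.br .no .no (.br .no .no .no (.br (.br .no .no (.br (.br (.br .no (.br (.br .no (.sw 2 3 [29,30,31]) (.br .no (.br .no .no .no (.br .no .no (.br .no .no .no (.br .no .no (.br .no .no .no (.de 45)) .no)) .no)) .no (.de 45)) .no) .no .no .no) .no .no) .no (.br (.br .no (.br .no .no (.br .no (.br .no .no .no (.de 41)) .no (.de 45)) .no) .no .no) (.br (.br .no (.br .no .no .no (.br .no (.br .no .no .no (.de 47)) .no .no)) (.br .no (.br .no .no .no (.de 41)) .no (.de 45)) .no) .no .no .no) .no .no) .no) .no .no (.br (.br .no (.br (.br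 .no (.sw 2 3 [29,30,31]) (.br .no (.br (.br .no .no (.br .no .no .no (.br .no .no (.br .no .no .no (.de 45)) .no)) .no) .no .no .no) .no (.de 45)) .no) .no .no .no) .no .no) .no (.br (.br .no (.br .no .no (.br .no (.br (.de 41) .no .no .no) .no (.de 45)) .no) .no .no) (.br (.br .no (.br .no .no .no (.br (.de 41) (.br (.br .no .no .no (.br .no .no (.br .no .no .no (.br .no .no (.br (.br .no .no .no (.br .no (.sw 0 2 [35,41]) .no .no)) .no .no .no) .no)) .no)) .no .no .no) .no .no)) (.br .no (.br (.de 41) .no .no .no) .no (.de 45)) .no) .no .no .no) .no .no) .no)) .no) .no (.br (.br .no .no .no (.br (.br .no (.br (.br .no (.br .no .no .no (.br .no (.sw 0 2 [32,33]) (.de 41) .no)) .no .no) .no .no .no) .no .no) .no (.br (.br .no (.br (.br .no (.br .no .no (.br (.br .no (.br .no .no (.sy 36 228 7) (.br .no .no (.br .no .no .no (.br (.sw 2 3 [43,44,45]) .no .no .no)) .no)) .no (.br .no .no (.sy 36 228 7) .no)) .no .no .no) .no) .no (.br .no (.br (.br .no (.br .no .no (.br .no .no .no (.br .no .no (.br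 (.br .no .no .no (.de 48)) .no .no .no) .no)) (.br .no .no (.de 45) .no)) .no (.br .no .no (.br .no .no .no (.br .no .no (.br (.br .no .no .no (.br .no .lf .no .no)) .no .no .no) .no)) .no)) .no .no .no) (.br (.br .no (.br .no .no (.br .no .no .no (.br .no .no (.br (.sw 1 3 [39]) .no .no .no) .no)) (.br .no .no (.de 45) .no)) .no (.br .no .no (.br .no .no .no (.br .no .no (.br (.sw 1 3 [39]) .no .no .no) .no)) .no)) .no .no .no) .no)) .no .no .no) .no .no) (.br (.br .no (.br .no .no .no (.br .no (.sw 0 2 [32,33]) (.br (.br .no .no .no (.br .no .no (.br .no .no .no (.br .no .no (.sw 0 1 [36,37,38]) .no)) .no)) .no .no .no) .no)) .no .no) .no .no .no) .no .no) .no)) .no .no .no) .no)) .no)) .no (.br .no .no (.br .no .no .no (.br .no .no (.br (.br .no .no (.br (.br (.br .no (.br (.br .no (.br .no .no .no (.br .no (.br .no .no (.sw 1 3 [28]) .no) .no .no)) .no (.sy 31 141 7)) .no .no .no) .no .no) (.br (.br .no (.br .no .no .no (.sy 31 141 7)) .no .no) .no .no .no) .no .no) .no .no .no) .no) .no .no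 .no) .no)) .no)) .no .no)) .no (.br .no (.br .no .no .no (.br .no (.br .no .no (.br .no .no .no (.br .no (.br (.br .no .no (.br (.br (.br .no (.br (.br .no .no (.br .no (.br .no .no .no (.br .no .no (.br .no .no .no (.br .no .no (.br .no .no .no (.de 45)) .no)) .no)) .no (.de 45)) (.br .no (.br .no .no .no (.br .no .no (.br .no .no .no (.br .no .no (.de 44) .no)) .no)) .no .no)) .no (.br .no .no .no (.de 44)) .no) .no .no) .no .no (.br (.br .no .no (.br .no .no .no (.de 44)) .no) (.de 42) .no .no)) .no .no .no) .no) .no (.br (.de 34) .no .no .no) .no) (.br (.br .no .no (.br (.sw 1 3 [25,26,27]) .no .no .no) .no) .no .no .no) .no)) (.br .no .no (.br .no (.br (.br .no .no (.br (.br (.br .no (.br (.sw 2 3 [29,30]) .no .no (.br .no .no (.de 44) .no)) .no .no) .no (.br (.br .no .no .no (.br .no .no (.de 44) .no)) (.br (.br .no .no (.sw 1 3 [25,26,27,31]) (.br .no (.br .no .no .no (.de 41)) .no .no)) .no .no (.br .no .no (.de 44) .no)) .no .no) .no) .no .no .no) .no) .no (.br (.de 34) .no .no .no) .no)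 .no .no) .no)) .no (.br .no .no (.br .no .no .no (.br .no (.br (.br .no .no (.br (.br (.br .no (.br (.br .no .no (.br .no (.br .no .no .no (.br .no (.de 47) (.sw 1 3 [28]) .no)) .no (.de 45)) (.br .no (.br .no .no .no (.br .no (.de 47) (.sw 1 3 [28]) .no)) .no .no)) .no (.br .no .no .no (.de 44)) .no) .no .no) (.br (.br .no .no (.br .no .no .no (.de 44)) .no) .no .no .no) .no .no) (.br (.br .no (.br (.br .no .no (.br .no (.br (.br .no .no (.br .no .no .no (.br .no .no (.br .no .no .no (.de 45)) .no)) .no) .no .no (.br .no .no (.sw 0 1 [34]) .no)) .no (.de 45)) (.br .no (.br (.br .no .no (.br .no .no .no (.br .no .no (.de 44) .no)) .no) .no .no (.br .no .no (.sw 0 1 [34]) .no)) .no .no)) .no (.br .no .no .no (.de 44)) .no) .no .no) (.br (.br .no .no (.br .no .no .no (.de 44)) .no) .no .no .no) .no .no) .no .no) .no) .no (.br (.br .no (.br (.br .no (.br (.br .no .no .no (.br .no (.br .no .no (.de 41) (.sw 0 2 [32,33])) .no .no)) .no (.br (.br .no (.br .no .no (.de 41) (.br .no .no (.br .no .no .no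 (.de 43)) .no)) .no (.br .no .no (.de 41) .no)) .no .no (.de 44)) .no) .no .no) (.br (.br .no .no (.br (.br .no (.br .no .no (.br (.br .no .no .no (.de 43)) .no .no .no) (.br (.br .no .no .no (.de 43)) .no (.br .no .no .no (.de 43)) .no)) .no (.br .no .no (.br (.br .no .no .no (.de 43)) .no .no .no) .no)) .no .no (.de 44)) .no) .no .no .no) .no .no) .no .no) .no .no .no) .no) (.br (.br .no .no (.br (.sw 1 3 [25,26,27]) (.br (.br .no (.br (.br .no (.br .no .no .no (.br (.de 46) .no .no .no)) .no (.sw 1 2 [31])) .no .no .no) .no .no) (.br (.br .no (.br .no .no .no (.br .no (.br (.br .no .no (.br .no .no .no (.de 48)) .no) .no .no (.br (.br .no .no .no (.de 48)) .no (.sw 0 1 [34]) .no)) .no .no)) .no .no) .no .no .no) .no .no) .no .no) .no) .no .no .no) .no)) .no))) .no .no)) .no .no .no) .no .no) .no .no (.br (.br .no (.br .no .no .no (.br .no (.br .no .no .no (.br (.br .no (.br .no .no (.br (.br .no .no (.br (.br .no (.br .no .no (.br (.br .no (.br .no .no .no (.br .no (.br .no .no (.sy 33 228 7)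 (.de 41)) .no .no)) .no (.br .no (.br .no .no .no (.br .no .no (.sy 33 228 7) .no)) .no .no)) .no .no (.br .no (.br .no .no .no (.br .no (.br .no .no (.sy 33 228 7) (.de 41)) .no .no)) .no .no)) (.br (.br .no (.br .no .no .no (.br .no (.br .no .no (.de 41) (.br .no .no (.br .no (.de 48) .no .no) .no)) .no .no)) .no (.br .no (.br .no .no .no (.br .no .no (.de 41) .no)) .no .no)) .no .no .no)) .no .no) .no .no .no) .no) .no .no .no) (.br (.br .no .no (.br (.br .no (.br .no .no (.br (.br .no (.sw 2 3 [30]) (.br .no (.br .no .no .no (.br .no .no (.br .no .no .no (.br .no (.de 48) .no (.de 43))) .no)) .no (.de 44)) .no) .no .no .no) (.br (.br .no (.sw 2 3 [30]) (.br .no (.br .no .no .no (.br .no .no (.de 41) .no)) .no (.de 44)) .no) .no (.br .no (.br .no .no .no (.br .no (.br .no .no (.de 41) (.br .no .no (.br .no (.de 48) .no .no) .no)) .no .no)) .no .no) .no)) .no .no) .no .no .no) .no) .no (.br (.br .no .no (.br .no (.br .no .no (.br (.br .no (.br .no .no .no (.br .no (.br (.br .no .no .no (.br .no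 (.de 48) .no (.br .no .no (.de 44) .no))) .no .no (.de 41)) .no .no)) .no .no) .no .no .no) (.br (.br .no (.br .no .no .no (.br .no (.br (.br .no .no (.br .no (.de 48) .no .no) .no) .no .no (.sw 0 2 [31,32,33])) .no .no)) .no .no) .no (.br (.br .no (.br .no .no .no (.br (.de 46) .no .no .no)) .no (.br .no (.br (.br .no .no (.br .no (.de 48) .no .no) .no) .no .no (.br .no .no (.br .no (.de 48) .no .no) .no)) .no .no)) (.br .no .no .no (.br .no (.br (.br .no .no (.br .no (.de 48) .no .no) .no) .no .no (.sw 0 2 [31,32,33])) .no .no)) .no .no) .no)) .no .no) .no) .no .no .no) .no)) (.br .no .no .no (.br (.br .no .no (.br (.br .no (.br .no (.br (.br .no (.br .no .no .no (.br .no (.br .no .no (.br .no .no .no (.de 48)) (.br .no .no (.br .no .no .no (.de 48)) .no)) .no .no)) (.br .no (.br .no .no .no (.br .no .no (.br .no .no .no (.de 48)) .no)) .no (.de 44)) .no) .no .no .no) .no (.br (.sw 1 2 [29]) (.de 42) .no .no)) .no .no) .no .no .no) .no) .no (.br (.br .no .no (.br .no (.br .no (.br (.br .no (.br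 .no .no .no (.br .no (.br (.br .no .no (.br .no .no .no (.de 48)) (.de 48)) .no .no (.sw 0 2 [31,32,33])) .no .no)) .no .no) .no .no .no) .no (.br (.sw 1 2 [29]) (.de 42) .no .no)) .no .no) .no) .no .no .no) .no)) .no) (.br .no .no (.br .no .no .no (.br (.br .no .no (.br (.de 34) .no .no .no) .no) .no (.br (.br .no .no (.br (.br (.br .no (.br (.br .no (.br .no .no .no (.br .no (.br .no .no (.br .no .no .no (.br .no .no (.br .no .no .no (.br .no .no (.br (.br .no .no .no (.br .no .lf .no .no)) .no .no .no) .no)) .no)) (.de 47)) .no .no)) .no (.br .no (.br .no .no .no (.br .no .no (.br .no .no .no (.br .no .no (.de 44) .no)) .no)) .no .no)) .no .no .no) .no .no) .no .no (.br (.br .no (.br .no .no .no (.br .no (.br .no .no .no (.br .no .no (.sw 0 1 [28,34]) .no)) .no .no)) .no .no) (.de 42) .no .no)) .no .no .no) .no) .no .no .no) .no)) .no) .no .no)) .no .no)) .no .no) (.br (.br .no (.br .no .no .no (.br .no (.br (.br .no .no (.br .no .no .no (.br .no .no (.br (.br .no .no (.br .no .no .no (.br .no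 (.br (.br .no (.br .no .no .no (.br .no (.br (.br .no .no (.br .no .no .no (.de 48)) .no) .no .no .no) .no .no)) .no .no) .no .no .no) .no (.br (.br .no (.br .no .no .no (.br .no (.br (.br .no (.de 48) (.br .no (.de 48) .no .no) .no) .no .no .no) .no .no)) .no .no) (.de 42) .no .no))) .no) .no .no .no) .no)) .no) (.br (.br .no .no (.br .no .no .no (.br (.br .no .no (.br (.br .no .no (.br .no (.sw 0 3 [22,29]) .no (.br (.br .no (.br .no .no .no (.br .no (.br .no .no .no (.de 47)) .no .no)) (.br .no (.br .no .no .no (.de 41)) .no (.de 45)) .no) (.br .no .no (.br .no (.br .no .no .no (.de 41)) .no (.de 45)) .no) .no .no)) (.br .no (.de 42) .no .no)) .no .no (.br .no .no (.br .no (.sw 0 3 [22,29]) .no (.br (.br .no (.br .no .no .no (.br (.de 41) (.br (.br .no (.br .no .no (.br .no .no .no (.br .no .no (.br (.br .no .no .no (.de 48)) .no .no .no) .no)) .no) .no .no) .no .no .no) .no .no)) (.br .no (.br (.de 41) .no .no .no) .no (.de 45)) .no) (.br .no .no (.br .no (.br (.de 41) .no .no .no) .no (.de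 45)) .no) .no .no)) (.br .no (.de 42) .no .no))) .no) .no (.br (.br .no .no .no (.br .no .no (.br .no (.sw 0 3 [22,29]) .no (.br (.br .no (.br .no .no .no (.br .no (.sw 0 2 [32,33]) (.br (.br .no (.br .no .no (.br .no .no .no (.br .no .no (.br (.br .no (.br .no .no .no (.sw 1 3 [36,42,47,48])) .no (.de 48)) .no .no .no) .no)) .no) .no .no) .no .no .no) .no)) .no .no) (.br (.br .no (.br .no .no (.br (.br .no (.br .no .no (.sw 0 3 [22,29,36]) .no) .no .no) .no .no .no) .no) .no (.br .no (.br (.br .no (.br .no .no (.sw 0 3 [22,29,36]) .no) .no .no) .no .no .no) (.br (.br .no (.br .no .no (.sw 0 3 [22,29,36]) .no) .no .no) .no .no .no) .no)) .no .no .no) .no .no)) (.br .no (.de 42) .no .no))) .no .no .no) .no)) (.br .no .no (.br (.br .no .no (.br (.br .no .no (.br .no (.br (.br .no (.sw 2 3 [30,31]) .no (.br .no (.br .no .no .no (.de 41)) .no .no)) .no .no .no) .no .no) (.br .no (.de 42) (.br (.br .no (.br .no .no .no (.br .no (.br .no .no (.br .no (.de 48) .no .no) .no) .no .no)) .no (.br .no (.br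 .no .no .no (.br .no .no (.br .no (.de 48) .no .no) .no)) .no .no)) (.br .no .no .no (.br .no (.br .no .no .no (.br .no .no (.br .no (.de 48) .no .no) .no)) .no .no)) .no .no) .no)) .no .no (.br .no .no (.br .no (.br (.br .no (.sw 2 3 [30,31]) .no (.br .no (.br (.de 41) .no .no .no) .no .no)) .no .no .no) .no .no) (.br .no (.de 42) (.br (.br .no (.br .no .no .no (.br (.de 46) (.br (.br .no (.de 48) .no .no) .no (.sw 0 3 [34]) .no) .no .no)) .no (.br .no (.br (.br .no .no (.br .no (.de 48) .no .no) .no) .no .no .no) .no .no)) (.br .no .no .no (.br .no (.br (.br .no .no (.br .no (.de 48) .no .no) .no) .no .no .no) .no .no)) .no .no) .no))) .no) .no .no .no) .no)) .no (.sw 0 3 [22]) .no) .no .no) .no .no)) .no (.br .no (.br .no .no .no (.br (.br .no .no (.br .no .no .no (.br .no (.br (.br .no .no (.br .no (.br .no (.br (.br .no .no (.br .no .no .no (.de 44)) .no) .no .no .no) .no (.br (.br .no .no (.br .no .no .no (.de 44)) .no) (.de 42) .no .no)) .no .no) .no) .no (.br (.br .no (.br .no (.br (.br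 .no .no (.br (.br .no (.br .no .no (.br .no .no .no (.de 48)) (.br .no .no (.sw 0 3 [22,28]) .no)) .no (.br .no .no (.br .no .no .no (.de 48)) .no)) .no .no (.de 44)) .no) .no .no .no) .no (.br (.br .no .no (.br (.br .no (.br .no .no (.de 41) (.br .no .no (.br .no (.de 48) .no .no) .no)) .no (.br .no .no (.de 41) .no)) .no .no (.de 44)) .no) (.de 42) .no .no)) .no .no) .no .no .no) .no) (.sw 0 1 [23,24]) .no)) .no) (.br (.br .no .no (.br .no (.br (.br .no .no (.br (.br .no .no (.br .no (.sw 0 3 [22,29]) .no (.br (.br .no .no (.sw 1 3 [25,26,27,31]) (.br .no (.br .no .no .no (.de 41)) .no .no)) .no .no .no)) (.br .no (.de 42) .no .no)) .no .no .no) .no) .no (.br (.de 34) .no .no .no) .no) .no .no) (.br .no (.br (.br .no .no (.br (.br .no .no (.br .no (.br (.sw 2 3 [30]) .no (.br .no .no .no (.de 44)) .no) .no .no) (.br .no (.de 42) (.br (.br .no .no (.br .no (.br .no .no .no (.br .no .no (.br .no (.de 48) .no .no) .no)) .no (.de 45)) (.br .no (.br .no .no .no (.br .no .no (.br .no (.de 48) .no .no)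 .no)) .no .no)) .no .no .no) .no)) .no .no .no) .no) .no (.br (.de 34) .no .no .no) .no) (.br (.br .no .no (.br (.sw 1 3 [25,26,27]) .no .no .no) .no) .no .no .no) .no)) .no (.sw 0 3 [22]) .no) .no .no)) .no .no)) .no .no .no) .no .no))

def c1_2_1 : Cert := (.br (.br .no .no (.br (.br .no .no (.br .no (.br (.br .no (.sw 2 3 [7,8,9,16,17]) (.br .no (.br .no .no .no (.de 27)) .no (.br .no (.br .no .no .no (.br (.br .no .no (.br .no (.br (.br .no .no (.br (.br .no (.br .no (.br (.br .no .no (.br .no (.br .no .no .no (.br .no .no (.br .no .no .no (.de 48)) .no)) .no (.de 44)) (.br .no (.br .no .no .no (.br .no .no (.br .no .no .no (.de 48)) .no)) .no .no)) .no .no (.de 42)) .no (.br (.br .no .no (.br .no (.br .no .no .no (.br .no .no (.de 41) .no)) .no (.de 44)) (.br .no (.br .no .no .no (.br .no .no (.de 41) .no)) .no .no)) .no .no .no)) .no .no) .no .no .no) .no) .no .no .no) .no (.br (.sw 1 2 [24]) (.br (.br .no .no (.br .no (.br .no (.br (.br .no .no (.br .no .no .no (.de 44)) .no) .no .no .no)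 .no (.br (.br .no .no (.br .no .no .no (.de 44)) .no) (.de 42) .no .no)) .no .no) .no) .no (.br (.br .no (.br .no (.br (.br .no .no (.br (.br .no (.br .no .no (.br .no .no .no (.de 48)) (.br .no .no (.br .no .no .no (.de 43)) .no)) .no (.br .no .no (.br .no .no .no (.de 48)) .no)) .no .no (.de 44)) .no) .no .no .no) .no (.br (.br .no .no (.br (.br .no (.br .no .no (.de 41) (.br .no .no (.br .no (.de 48) .no .no) .no)) .no (.br .no .no (.de 41) .no)) .no .no (.de 44)) .no) (.de 42) .no .no)) .no .no) .no .no .no) .no) .no .no)) (.br .no (.br (.br .no .no (.br (.br .no (.br .no (.br (.sw 2 3 [29]) .no (.br .no .no .no (.de 43)) .no) (.br (.br .no .no (.br .no (.br .no .no .no (.br .no .no (.br .no .no .no (.br .no (.de 48) .no (.de 43))) .no)) .no (.de 44)) (.sw 1 2 [24,30])) .no .no .no) .no) .no .no) .no .no .no) .no) .no .no .no) .no .no)) .no .no (.br .no .no (.br .no (.br (.br .no .no (.br (.br .no (.br (.br .no .no .no (.br .no .no (.de 43) .no)) (.br (.br .no .no (.br .no (.br .no .no .no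 (.br .no .no (.br (.br .no .no .no (.de 43)) .no .no .no) .no)) .no (.de 44)) (.br .no (.br .no .no .no (.br .no .no (.br (.br .no .no .no (.de 48)) .no .no .no) .no)) .no .no)) .no .no (.de 42)) .no .no) .no .no) .no .no .no) .no) .no .no .no) .no (.br (.sw 1 2 [24]) (.br (.br .no .no (.br (.br (.br .no (.br (.br .no .no (.br .no (.br .no .no .no (.br .no (.de 47) (.br .no .no .no (.br .no .no (.br .no .no .no (.de 45)) .no)) .no)) .no (.de 45)) (.sw 1 2 [24,31])) .no (.br .no .no .no (.de 44)) .no) .no .no) (.br (.br .no .no (.br .no .no .no (.de 44)) .no) .no .no .no) .no .no) (.br (.br .no (.br (.br .no .no (.br .no (.br (.br .no .no (.br .no .no .no (.br .no .no (.br .no .no .no (.de 45)) .no)) .no) .no .no (.br .no .no (.sw 0 1 [34]) .no)) .no (.de 45)) (.sw 1 2 [24,31])) .no (.br .no .no .no (.de 44)) .no) .no .no) (.br (.br .no .no (.br .no .no .no (.de 44)) .no) .no .no .no) .no .no) .no .no) .no) .no (.br (.br .no (.br (.br .no (.br (.br .no .no .no (.br .no (.br .no .no (.de 41) (.sw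 0 2 [32,33])) .no .no)) .no (.br (.br .no (.br .no .no (.de 41) (.br .no .no (.br .no .no .no (.de 43)) .no)) .no (.br .no .no (.de 41) .no)) .no .no (.de 44)) .no) .no .no) (.br (.br .no .no (.br (.br .no (.br .no .no (.br (.br .no .no .no (.de 43)) .no .no .no) (.br (.br .no .no .no (.de 43)) .no (.sw 0 3 [28]) .no)) .no (.br .no .no (.br (.br .no .no .no (.de 43)) .no .no .no) .no)) .no .no (.de 44)) .no) .no .no .no) .no .no) .no .no) .no .no .no) .no) .no .no)) .no))) .no .no)) .no) .no .no .no) .no (.br (.sw 1 2 [16]) (.br .no .no (.br .no (.br .no .no .no (.de 27)) .no (.br .no (.br .no .no .no (.br (.br .no .no (.br (.br .no (.br (.br .no .no (.br .no (.br .no (.br .no .no .no (.de 42)) .no (.br .no (.de 42) .no .no)) .no .no) .no) .no (.br (.br .no (.br .no (.br .no .no .no (.de 42)) .no (.br .no (.de 42) .no .no)) .no .no) .no .no .no) .no) .no .no) .no .no (.sw 0 1 [23])) .no) (.br (.br .no .no .no (.br (.sw 1 2 [16,23,24]) (.br (.br .no .no (.br (.br .no .no (.br .no (.br (.br .no .no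 (.br .no (.br .no .no .no (.de 41)) .no (.de 45)) (.sw 1 2 [16,23,24,31])) .no (.br .no .no .no (.de 44)) .no) .no .no) (.br .no (.de 42) (.br (.br .no .no (.br .no (.br .no .no .no (.br .no .no (.sw 0 1 [23,28,29,34]) .no)) .no (.de 45)) (.sw 1 2 [16,23,24,31])) .no .no .no) .no)) .no .no .no) .no) .no (.br (.de 34) .no .no .no) .no) .no .no)) .no (.br (.br .no (.br (.br .no .no (.br (.br (.br .no (.br .no .no (.br .no .no .no (.de 44)) (.br .no .no (.de 44) .no)) .no (.br .no .no (.de 43) .no)) .no .no (.br .no (.de 42) .no .no)) .no .no .no) .no) .no (.br (.de 34) .no .no .no) .no) .no .no) .no .no (.sw 0 1 [23])) .no) .no .no)) .no .no)) .no) .no .no)) (.br .no (.br (.br .no (.sw 2 3 [7,8,9,16,17]) (.br .no (.br .no .no .no (.br .no .no (.br (.br .no .no (.br .no (.br (.sw 2 3 [7,8,9,16,17,24]) .no .no (.br (.br .no (.de 34) .no .no) .no (.br (.br .no (.br .no (.br (.br .no .no (.br (.br .no (.br .no .no (.br .no .no .no (.de 48)) (.br .no .no (.br .no .no .no (.de 43)) .no)) .no (.br .no .no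 (.br .no .no .no (.de 48)) .no)) (.sw 0 3 [31]) .no .no) .no) .no .no (.de 42)) .no (.br (.br .no .no (.br (.br .no (.br .no .no (.de 41) (.br .no .no (.br .no (.de 48) .no .no) .no)) .no (.br .no .no (.de 41) .no)) (.sw 0 3 [31]) .no .no) .no) .no .no .no)) .no .no) (.de 34) .no .no) .no)) .no (.br (.br .no .no (.br (.br .no (.br .no (.br (.br .no (.sw 2 3 [7,8,9,16,17,24,29,30]) (.sw 1 3 [30]) .no) .no .no .no) .no (.br (.sw 1 2 [16,22,29]) (.de 42) .no .no)) .no .no) (.de 34) .no .no) .no) .no .no .no)) (.sw 1 2 [16,22])) .no (.br .no .no .no (.br .no (.br (.sw 2 3 [7,8,9,16,17,24]) .no .no (.br (.br .no (.br (.br (.br .no .no (.br (.br .no (.sw 2 3 [7,8,9,16,17,24,31]) (.br .no .no .no (.de 45)) .no) .no .no .no) .no) (.br (.br .no .no (.br .no (.br .no .no (.br .no .no .no (.de 41)) (.br .no .no (.br .no .no .no (.de 48)) .no)) .no .no) .no) .no (.br (.br .no (.sw 2 3 [7,8,9,16,17,24,31]) (.br .no .no .no (.de 45)) .no) .no .no .no) .no) .no .no) .no .no .no) .no .no) .no (.br (.br .no (.br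 (.br .no .no (.br (.br .no (.br .no .no .no (.br .no .no (.br .no .no .no (.br .no (.de 48) .no (.de 43))) .no)) .no .no) .no .no .no) .no) (.br (.br .no .no (.br (.br .no (.br .no .no (.br (.br .no .no .no (.de 43)) .no .no (.de 48)) (.br (.br .no .no .no (.de 43)) .no .no .no)) .no (.br .no .no (.br (.br .no .no .no (.de 43)) .no .no (.de 48)) .no)) (.sw 0 3 [31]) .no .no) .no) .no (.br (.br .no (.br .no .no .no (.br .no .no (.br (.br .no .no .no (.de 43)) .no .no (.de 48)) .no)) .no .no) .no .no .no) .no) .no .no) .no .no) (.br (.br (.br .no .no (.br (.br .no (.br (.br .no .no (.br .no (.br .no (.br .no .no .no (.br .no .no (.br .no .no .no (.de 46)) .no)) .no (.de 43)) .no (.sw 1 2 [16,22,28])) (.de 46)) .no .no (.sw 0 2 [32])) .no .no) .no .no .no) .no) (.br (.br .no .no (.br (.br .no .no .no (.br .no .no (.br .no .no .no (.de 48)) .no)) (.sw 0 3 [31]) .no .no) .no) .no (.br (.br .no (.br (.br .no .no (.br .no .no .no (.de 48)) (.de 41)) .no .no (.sw 0 2 [32])) .no .no) .no .no .no) .no) .no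 .no) .no .no .no) .no .no) .no)) .no .no)) .no) .no)) .no (.br .no (.br .no .no (.br (.br .no .no (.br .no (.br (.br .no .no (.br (.sw 1 3 [25,26]) .no .no (.br .no (.br .no (.br (.br .no .no (.br .no (.br (.br .no .no (.br .no .no .no (.de 48)) .no) .no .no .no) .no (.de 44)) (.br .no (.br (.br .no .no (.br .no .no .no (.de 48)) .no) .no .no .no) .no .no)) .no .no (.de 42)) .no (.br (.br .no .no (.br .no (.br (.br .no .no (.de 41) .no) .no .no .no) .no (.de 44)) (.sw 1 2 [16,22,24,29,30])) .no .no .no)) .no .no)) .no) .no .no .no) .no (.br (.sw 1 2 [24]) (.br (.br .no .no .no (.br .no (.br .no (.br (.br .no .no (.br .no .no .no (.de 44)) .no) .no .no .no) .no (.br (.sw 1 2 [16,22,29]) (.de 42) .no .no)) .no .no)) .no (.br (.br .no (.sw 2 3 [21,27]) .no .no) .no .no (.br .no (.br .no (.br (.br .no .no (.br (.br .no (.br (.br .no .no (.br .no .no .no (.de 43)) (.de 48)) .no (.sw 0 3 [33]) .no) .no .no) .no .no (.de 44)) .no) .no .no .no) .no (.br (.sw 1 2 [16,22,29]) (.de 42) .no .no)) .no .no))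 .no) .no .no)) (.sw 1 2 [16,22])) .no (.br .no .no .no (.br .no (.br (.br .no .no (.br (.sw 1 3 [25,26]) .no .no (.br (.br (.br .no .no (.br .no .no .no (.de 43)) .no) (.br (.br .no .no (.br .no (.br (.br .no (.br .no .no .no (.de 47)) (.sw 1 3 [25,26,33]) .no) .no .no .no) .no (.de 44)) (.sw 1 2 [24,30])) .no (.br .no .no .no (.de 43)) .no) .no .no) (.br (.br .no .no (.br .no .no .no (.de 43)) .no) (.br (.br .no .no (.br .no (.br (.br .no .no (.br (.br .no .no .no (.de 43)) .no .no (.de 48)) .no) .no .no .no) .no (.de 44)) (.sw 1 2 [24,30])) .no (.br .no .no .no (.de 43)) .no) .no .no) .no .no)) .no) .no .no .no) .no .no)) .no) .no) .no .no)) .no) .no .no .no) .no .no)) .no .no .no) .no) .no (.br (.br .no .no (.br .no .no (.br .no (.br (.br .no (.br .no .no .no (.br .no (.br (.br (.br .no .no (.br .no .no .no (.br (.br .no .no (.br .no .no .no (.br .no (.br .no (.br (.br .no (.br .no .no .no (.br (.br .no .no (.br .no .no .no (.de 48)) .no) (.br (.br .no .no (.br .no .no .no (.de 48)) (.de 48))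 .no (.br .no .no .no (.de 48)) .no) .no .no)) (.br .no (.br (.br .no .no (.br .no .no .no (.de 48)) .no) .no .no .no) .no (.de 44)) .no) .no .no .no) .no (.br (.br .no (.br .no .no .no (.br (.br .no .no (.de 41) .no) (.br (.br .no .no (.br .no (.de 48) .no .no) .no) .no (.de 41) .no) .no .no)) (.br .no (.br (.br .no .no (.de 41) .no) .no .no .no) .no (.de 44)) .no) (.de 42) .no .no)) .no .no)) .no) .no (.br (.br .no .no (.br .no (.br .no (.br (.br .no (.br .no .no .no (.br .no (.br (.br .no .no (.br .no .no .no (.de 48)) (.de 48)) .no .no (.br .no .no (.br .no .no .no (.de 48)) .no)) .no .no)) .no .no) .no .no .no) .no (.br (.br .no (.br .no .no .no (.br .no (.br (.br .no .no (.br .no (.de 48) .no .no) .no) .no .no (.br .no .no (.br .no (.de 48) .no .no) .no)) .no .no)) .no .no) (.de 42) .no .no)) .no (.br .no (.br (.br .no (.br .no .no .no (.br .no (.br (.br .no .no (.sw 1 3 [34]) .no) .no .no .no) .no .no)) .no .no) .no .no .no) .no (.br (.br .no (.br .no .no .no (.br .no (.br (.br .no (.de 48)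 (.sw 1 3 [34]) .no) .no .no .no) .no .no)) .no .no) (.de 42) .no .no))) (.br .no (.br .no (.br (.br .no (.br .no .no .no (.br .no (.sw 0 2 [31,32]) (.de 45) .no)) .no .no) .no .no .no) .no (.br (.br .no (.br .no .no .no (.br .no (.sw 0 2 [31,32]) (.de 45) .no)) .no .no) (.de 42) .no .no)) .no .no)) .no .no .no) .no)) (.br .no .no (.br (.br .no .no (.br .no .no .no (.br .no (.br .no (.br (.br .no (.sw 2 3 [29,30]) .no (.br .no (.br (.br .no .no (.br .no .no .no (.de 48)) .no) .no .no .no) .no .no)) .no .no .no) (.br (.br .no (.br .no .no .no (.br (.br .no .no (.br .no .no .no (.br .no (.de 48) .no (.br .no .no (.de 44) .no))) .no) (.br (.br .no .no .no (.br .no (.de 48) .no (.br .no .no (.de 44) .no))) .no (.br .no .no .no (.br .no (.de 48) .no (.br .no .no (.de 44) .no))) .no) .no .no)) .no (.br .no (.br (.br .no .no (.br .no .no .no (.br .no (.de 48) .no (.br .no .no (.de 44) .no))) .no) .no .no .no) .no .no)) (.br .no .no .no (.br .no (.br (.br .no .no (.br .no .no .no (.br .no .no .no (.br .no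 .no (.de 44) .no))) .no) .no .no .no) .no .no)) .no .no) .no) .no .no)) .no) .no .no .no) .no)) .no .no (.br .no .no (.br .no .no .no (.br (.br .no .no (.br .no .no .no (.br .no (.br (.br .no (.br .no .no (.br .no (.br (.br .no .no (.de 41) .no) .no .no .no) .no (.de 44)) .no) .no .no) (.br (.br .no (.br .no .no .no (.br (.br .no .no (.br (.br .no .no .no (.de 48)) .no .no .no) .no) (.br (.br .no .no (.sw 0 3 [28]) .no) .no (.br (.br .no .no .no (.de 48)) .no .no .no) .no) .no .no)) (.br .no (.br (.br .no .no (.br (.br .no .no .no (.de 43)) .no .no .no) .no) .no .no .no) .no (.de 44)) .no) .no .no .no) .no .no) .no .no)) .no) .no (.br (.br .no .no (.br .no (.br (.br .no (.br (.br .no (.br .no .no .no (.br (.de 46) .no .no .no)) .no (.br .no (.br (.br .no .no (.br .no .no .no (.br .no .no (.de 44) .no)) .no) .no .no (.br .no .no (.br .no .no .no (.br .no .no (.de 44) .no)) .no)) .no .no)) .no .no .no) .no .no) (.br (.br .no (.br .no .no .no (.br .no (.br (.br .no .no (.sw 0 3 [28]) .no) .no .no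 (.br (.br .no .no .no (.de 48)) .no (.sw 0 3 [28]) .no)) .no .no)) .no .no) .no .no .no) .no .no) .no .no) (.br .no (.br (.br .no (.br (.br .no (.br .no .no (.br (.br .no .no (.br .no .no .no (.br .no .no (.br .no .no .no (.de 45)) .no)) .no) .no .no .no) .no) .no (.br .no (.br (.sw 2 3 [33]) .no (.de 41) .no) (.de 45) .no)) .no .no .no) .no .no) (.br (.br .no (.br .no .no .no (.br .no (.sw 0 2 [31,32]) (.de 45) .no)) .no .no) .no .no .no) .no .no) .no .no)) .no .no .no) .no)) .no)) .no .no (.sw 0 2 [18,19,20])) .no .no)) .no .no) .no .no .no) .no (.br (.sw 1 2 [16]) (.br (.br .no (.br .no .no .no (.br (.br (.br .no .no (.br .no .no .no (.br .no .no (.br (.br .no (.br .no .no .no (.br .no (.br (.br .no (.br .no .no .no (.br .no .no (.de 45) .no)) .no .no) .no .no .no) .no (.br (.sw 1 2 [16,23,29]) (.de 42) .no .no))) (.br .no (.br .no (.br (.br .no (.br .no .no .no (.br .no (.br (.br .no .no (.br .no .no .no (.de 48)) (.de 48)) .no .no (.br .no .no (.br .no .no .no (.de 48)) .no)) .no .no)) .no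 .no) .no .no .no) .no (.br (.sw 1 2 [16,23,29]) (.de 42) .no .no)) .no (.sw 0 1 [14,15,27])) .no) .no .no .no) .no)) .no) (.br (.br .no .no (.br .no .no .no (.br (.br .no (.br .no .no .no (.br .no .no (.br .no (.br (.br .no (.br .no .no (.br (.de 41) .no .no .no) (.br (.de 41) .no (.br (.br .no .no .no (.br .no .no (.br .no .no .no (.br .no .no (.br (.br .no (.de 48) .no (.br .no .lf .no .no)) .no .no .no) .no)) .no)) .no .no .no) .no)) (.br .no .no .no (.de 45)) .no) .no .no .no) .no (.br (.sw 1 2 [16,23,30]) (.br .no .no (.br .no .no .no (.de 45)) .no) .no .no)) (.br .no (.de 42) .no .no))) (.br .no .no .no (.sw 0 1 [14,15,27])) .no) .no (.br .no (.br .no .no .no (.br .no .no (.br .no (.br (.br .no (.br (.br .no .no (.br (.br .no .no .no (.br .no .no (.br .no .no .no (.br .no .no (.br .no .no .no (.sy 42 30 4)) .no)) .no)) .no .no .no) .no) .no .no (.sw 0 2 [32])) .no .no) .no .no .no) .no (.br (.sw 1 2 [16,23,30]) (.br (.br .no .no .no (.br (.de 41) .no (.sw 0 1 [14,15,27,33]) .no)) .no .no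 .no) .no .no)) (.br .no (.de 42) .no .no))) .no .no) .no)) (.sw 1 2 [16,23])) .no (.br .no .no .no (.br .no .no (.br (.br .no (.br .no .no .no (.br (.br .no (.br (.br .no (.br .no .no (.br (.br .no .no (.br .no .no .no (.br .no .no (.br .no .no .no (.de 45)) .no)) .no) .no .no .no) (.br (.de 46) .no (.de 41) .no)) .no (.br .no .no (.de 45) .no)) .no .no .no) .no .no) .no .no (.br (.br .no (.br .no .no .no (.br .no .no (.de 45) .no)) .no .no) (.de 42) .no .no))) (.br .no .no .no (.sw 0 1 [14,15,27])) .no) .no .no .no) .no)) .no) .no .no) .no .no .no)) .no (.br .no (.br (.br (.br .no .no (.br .no .no .no (.br .no (.br (.br .no .no (.br .no (.br .no (.br (.br .no .no (.br .no .no .no (.de 44)) .no) .no .no .no) .no (.br (.sw 1 2 [16,23,29]) (.de 42) .no .no)) .no (.br .no (.br (.br .no .no (.br .no .no .no (.de 44)) .no) .no .no .no) .no (.br (.sw 1 2 [16,23,29]) (.de 42) .no .no))) (.br .no (.br .no (.br (.br .no .no (.br .no .no .no (.de 44)) .no) .no .no .no) .no (.br (.sw 1 2 [16,23,29]) (.de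 42) .no .no)) .no .no)) .no (.br .no .no .no (.br .no (.br .no (.br (.br .no .no (.br (.br .no (.br (.br .no .no (.br .no .no .no (.de 43)) (.de 48)) .no (.br .no .no .no (.de 48)) .no) .no .no) .no .no (.de 44)) .no) .no .no .no) .no (.br (.sw 1 2 [16,23,29]) (.de 42) .no .no)) .no .no)) .no) (.sw 0 1 [23,24]) .no)) .no) (.br (.br .no .no (.br .no (.br (.br .no .no (.br .no .no .no (.br .no .no (.br .no (.br (.br .no .no (.sw 1 3 [25,26,31]) (.br .no (.br (.de 41) .no .no .no) .no .no)) .no .no (.br .no .no (.de 44) .no)) .no (.br (.br .no .no (.sw 1 3 [25,26,31]) (.sw 1 2 [16,23,30,31])) .no .no .no)) (.br .no (.de 42) .no .no))) (.de 34)) .no (.br .no .no .no (.de 34)) .no) .no .no) (.sw 1 2 [16,23])) .no (.br .no .no .no (.br .no (.br (.br .no .no (.br .no .no .no (.br (.br .no (.br (.br .no .no (.br .no (.br (.br .no .no (.br .no .no .no (.br .no .no (.br .no .no .no (.de 45)) .no)) .no) .no .no .no) .no (.de 45)) (.br .no (.br (.br .no .no (.br .no .no .no (.br .no .no (.de 44) .no)) .no)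 .no .no .no) .no .no)) .no (.br .no .no .no (.de 44)) .no) .no .no) .no .no (.br (.br .no .no (.br .no .no .no (.de 44)) .no) (.de 42) .no .no))) (.de 34)) .no (.br .no .no .no (.de 34)) .no) (.sw 0 1 [23,24]) .no)) .no) .no .no) .no .no (.sw 0 1 [14,15])) .no .no)) .no .no .no) .no .no)) (.br .no (.br (.br .no (.br .no .no .no (.br .no (.br (.br (.br .no .no (.br .no .no .no (.br (.br .no .no (.br .no .no .no (.br .no (.sw 2 3 [21]) (.br .no (.br (.br .no (.br .no .no .no (.br (.br .no (.br .no .no .no (.de 47)) .no .no) (.br (.br .no .no .no (.de 48)) .no .no .no) .no .no)) (.br .no (.br (.br .no (.br .no .no .no (.de 47)) .no .no) .no .no .no) .no (.de 44)) .no) .no .no .no) .no (.br (.sw 1 2 [16,22,29]) (.de 42) .no .no)) .no)) .no) .no (.br (.br .no .no (.br .no (.sw 2 3 [21]) .no .no) (.br .no (.sw 2 3 [21]) (.br .no (.br (.br .no (.br .no .no .no (.br .no (.sw 0 2 [31,32]) (.de 45) .no)) .no .no) .no .no .no) .no (.br (.sw 1 2 [16,22,29]) (.de 42) .no .no)) .no)) .no .no .no) .no)) (.sw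 1 2 [16,22])) .no (.br .no .no .no (.br .no .no (.br (.br .no .no (.br .no .no .no (.br .no (.sw 0 2 [18,19,20,27]) .no .no)) .no) .no .no .no) .no)) .no) .no .no .no) .no .no)) .no .no) .no .no .no) .no .no)) .no) .no .no .no) .no)

theorem P1_2 : R.S 8 57924 :=
  R.piece L hL (.br .no .no (.br .no .no .no (.br (.br .no (.br .no .no .no (.br .no (.br (.br .no (.br .no .no (.br .no .no .no (.br (.br .no .no (.de 20) .no) .no (.br (.br .no .no (.br .no .no c1_2_0 (.br (.br .no (.br (.br .no (.br .no .no .no (.br .no (.br .no (.br .no .no (.br .no .no .no (.br .no .no (.br (.sy 25 114 7) .no .no .no) .no)) (.br .no .no (.br .no .no .no (.br (.sy 25 114 7) .no (.br (.br .no .no (.br (.br .no (.br (.br .no (.br .no .no .no (.br .no (.br .no .no .no (.de 47)) .no .no)) .no .no) .no .no .no) .no .no) .no (.br (.br .no (.br (.br .no (.br .no .no .no (.br (.br .no (.br .no .no (.br .no .no .no (.br .no .no (.br (.sy 25 114 21) .no .no .no) .no)) (.br .no .no (.br .no .no .no (.br (.sw 2 3 [43,44,45]) .no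 .no .no)) .no)) .no (.br .no .no (.br .no .no .no (.br .no .no (.br (.sy 25 114 21) .no .no .no) .no)) .no)) .no .no .no)) .no (.br .no (.br (.sw 2 3 [21,34]) .no .no (.de 47)) .no .no)) .no .no .no) .no .no) (.br (.br .no (.br .no .no .no (.br .no (.br (.sw 2 3 [21,34]) .no .no (.de 47)) .no .no)) .no .no) .no .no .no) .no .no) .no) .no) .no .no .no) .no)) .no)) (.br .no .no .no (.br .no .no (.br .no .no .no (.br (.sy 25 114 7) .no (.sy 28 78 4) .no)) .no)) .no) .no .no)) .no (.br .no (.de 27) .no .no)) .no .no .no) .no .no) .no .no .no)) .no) .no .no .no) .no)) .no) .no .no) (.br (.br .no (.br .no .no (.br (.br .no .no (.br (.sw 2 3 [7,8,9]) .no .no .no) .no) .no .no .no) (.br (.br .no .no (.br (.sw 2 3 [7,8,9]) .no .no .no) .no) .no (.br (.br .no .no (.br .no .no (.br .no .no .no (.br (.br .no (.br .no .no .no (.br .no (.br (.sw 2 3 [7,8,9,20]) .no .no (.sw 0 2 [18,19,20])) .no .no)) .no .no) .no (.br (.br .no (.br .no .no .no (.br (.br (.br .no (.br .no .no .no (.br .no .no (.br (.br .no (.sw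 2 3 [7,8,9,20,26]) (.br .no (.br .no .no (.br (.br .no (.br .no .no .no (.br .no (.br (.sw 2 3 [7,8,9,20,26,33]) .no .no (.de 41)) .no .no)) .no .no) .no .no .no) (.br (.br .no (.br .no .no .no (.br .no (.br (.sw 2 3 [7,8,9,20,26,33]) .no .no (.br .no .no (.br .no (.de 48) .no .no) .no)) .no .no)) .no .no) .no (.br (.br .no (.br .no .no .no (.br (.de 46) .no .no .no)) .no (.br .no (.br (.sw 2 3 [7,8,9,20,26,33]) .no .no (.br .no .no (.br .no (.de 48) .no .no) .no)) .no .no)) (.br .no .no .no (.br .no (.br (.sw 2 3 [7,8,9,20,26,33]) .no .no (.br .no .no (.br .no (.de 48) .no .no) .no)) .no .no)) .no .no) .no)) .no (.br .no .no (.br (.br .no (.br .no .no .no (.br .no (.br (.br .no (.br .no (.br .no .no (.de 44) (.br .no .no (.de 45) .no)) .no (.de 48)) .no .no) .no .no .no) .no .no)) .no .no) .no .no .no) (.br (.br .no (.br .no .no .no (.br .no (.br (.br .no (.de 48) (.sw 1 3 [34]) .no) .no .no .no) .no .no)) .no .no) .no (.br (.br .no (.br .no .no .no (.br (.de 46) (.br .no .no (.br .no (.de 48)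 .no .no) .no) .no .no)) .no (.br .no (.br (.br .no (.de 48) (.sw 1 3 [34]) .no) .no .no .no) .no .no)) (.br .no .no .no (.br .no (.br (.br .no (.de 48) (.sw 1 3 [34]) .no) .no .no .no) .no .no)) .no .no) .no))) .no) .no .no .no) .no)) .no .no) (.br (.br .no (.br .no .no (.br (.br .no (.sw 2 3 [7,8,9,20,26]) (.br .no .no .no (.br .no .no (.br .no .no .no (.br (.br .no (.br .no .no .no (.br (.de 41) (.br (.br .no (.br .no .no (.br .no .no .no (.br .no .no (.br (.br .no .no .no (.de 48)) .no .no .no) .no)) .no) .no .no) .no .no .no) .no .no)) .no (.br .no (.br (.de 41) .no .no .no) .no .no)) .no .no .no)) (.br .no .no (.br (.br .no (.br .no .no .no (.br (.de 46) (.br (.br .no (.de 48) .no .no) .no (.br .no (.de 48) .no .no) .no) .no .no)) .no (.br .no (.br (.br .no .no (.br .no (.de 48) .no .no) .no) .no .no .no) .no .no)) .no .no (.de 43)) .no))) .no) .no .no .no) (.br (.br .no (.sw 2 3 [7,8,9,20,26]) (.br .no .no .no (.br .no .no (.br .no .no .no (.br (.br .no (.sw 2 3 [31]) (.br .no (.br (.de 41)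 .no .no .no) .no (.de 45)) .no) .no (.de 43) .no)) (.br .no .no (.br (.br .no (.sw 2 3 [31]) (.br .no (.br (.br .no .no (.br .no (.de 48) .no .no) .no) .no .no .no) .no (.de 45)) .no) .no .no .no) .no))) .no) .no (.br .no (.br .no .no .no (.br .no .no (.br .no .no .no (.br (.br .no (.br (.sw 2 3 [7,8,9,20,26,31,32]) .no .no (.sw 0 2 [32])) .no .no) .no (.de 43) .no)) (.br .no .no (.br (.br .no (.br (.sw 2 3 [7,8,9,20,26,31,32]) .no .no (.sw 0 2 [32])) .no .no) .no .no .no) .no))) .no .no) .no)) .no (.br .no .no (.br (.br .no (.sw 2 3 [7,8,9,20,26]) (.br .no .no .no (.br .no .no (.br .no (.br (.br .no (.br .no .no .no (.br (.de 41) (.br (.br .no .no .no (.br .no .no (.br .no .no .no (.br .no .no (.br (.br .no .no .no (.sw 1 2 [33,40])) .no .no .no) .no)) .no)) .no .no .no) .no .no)) .no (.br .no (.br (.de 41) .no .no .no) .no .no)) .no .no .no) .no .no) (.br .no (.de 42) (.br (.sw 1 3 [30]) (.br .no .no .no (.br .no (.br (.br .no .no (.sw 0 1 [28,29]) .no) .no .no .no) .no .no)) .no .no) .no)))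 .no) .no .no .no) .no)) .no .no .no) .no .no) .no .no .no)) .no (.br .no (.br (.sw 2 3 [7,8,9,20]) .no .no (.br (.br .no (.br .no .no .no (.br .no (.sw 0 2 [18,19,20,23,24]) (.br (.br .no .no (.br .no (.sw 0 3 [27]) .no .no) .no) .no .no .no) .no)) .no .no) (.br (.br .no (.br .no .no (.br (.br .no .no (.br (.br .no .no (.br .no .no .no (.br (.br .no (.br .no .no .no (.br .no (.br .no .no .no (.de 47)) .no .no)) .no (.br .no (.br .no .no .no (.de 41)) .no .no)) .no .no .no)) (.br .no .no (.br (.br .no (.br .no .no .no (.br .no (.br .no .no (.sw 0 3 [27,34]) .no) .no .no)) .no (.br .no (.br .no .no .no (.br .no .no (.sy 34 228 7) .no)) .no .no)) .no .no (.de 43)) .no)) .no .no .no) .no) .no .no .no) .no) .no (.br .no (.br (.br .no .no (.br (.br .no .no (.br .no (.br (.br .no .no (.br .no (.br .no .no .no (.de 41)) .no (.de 45)) (.br .no (.br .no .no .no (.de 41)) .no .no)) .no (.br .no .no .no (.de 44)) .no) .no .no) (.br .no (.de 42) (.br (.br .no .no (.br .no (.br .no .no .no (.br .no .no (.sw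 0 1 [28,29,34]) .no)) .no (.de 45)) (.br .no (.br .no .no .no (.br .no .no (.sw 0 1 [28,29,34]) .no)) .no .no)) .no .no .no) .no)) .no .no .no) .no) .no (.br (.de 34) .no .no .no) .no) (.br (.br .no .no (.br (.br .no .no (.br .no (.br (.br .no (.br .no .no .no (.br .no (.br .no .no .no (.de 47)) .no .no)) .no (.sw 1 2 [31])) .no .no .no) .no .no) (.br .no (.de 42) (.br (.sw 1 3 [30]) (.br .no .no .no (.br .no (.br .no .no .no (.br .no .no (.sw 0 1 [28,29,34]) .no)) .no .no)) .no .no) .no)) .no .no .no) .no) .no .no .no) .no)) .no .no .no) .no .no)) .no .no)) (.br .no .no .no (.br .no (.br (.sw 2 3 [7,8,9,20]) .no .no (.sw 0 2 [18,19,20])) .no .no)) .no .no) .no)) (.br .no .no (.br (.br .no (.br .no .no .no (.br .no (.br (.sw 2 3 [7,8,9,20]) .no .no .no) .no .no)) .no .no) .no .no .no) .no)) .no) .no .no .no) .no)) (.br .no .no .no c1_2_1) .no) .no .no .no) .no .no) .no .no)) .no (.br .no (.de 13) .no .no)) .no .no .no)) .no) 8 57924 65536 (by norm_num) (by norm_num) (by norm_num) (by decide +kernel)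

def c1_3_0 : Cert := (.br (.br .no (.br (.br .no (.br .no .no (.br .no (.br .no (.br .no .no (.br .no .no .no (.br .no .no (.br (.br .no .no .no (.br (.sw 2 3 [21]) .no (.br (.br .no (.br (.br .no (.br .no .no (.br (.br .no .no .no (.br .no .no (.br .no .no .no (.br .no .no (.br .no .no .no (.de 46)) .no)) .no)) (.br .no .no .no (.de 47)) .no .no) .no) .no (.br .no (.br (.br .no .no .no (.br .no .no (.br .no .no .no (.br .no .no (.de 45) .no)) .no)) .no .no .no) (.de 45) .no)) .no .no .no) .no .no) .no .no (.br (.br .no (.br .no .no .no (.br .no (.br (.de 41) .no .no .no) (.de 45) .no)) .no .no) (.br (.br .no (.br .no .no (.br (.de 41) (.br (.br .no .no (.br .no .no .no (.br .no .no (.br .no .no .no (.br (.br .no .no .no (.br .no (.sw 0 2 [34,41]) .no .no)) .no .no .no)) .no)) .no) .no .no .no) .no .no) .no) .no (.br .no (.br (.de 41) .no .no .no) (.de 45) .no)) .no .no .no) .no .no)) .no)) .no .no (.br (.br .no .no (.br (.br .no (.br (.br .no (.br .no .no (.br .no (.sw 0 3 [32,33]) .no (.de 41))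 .no) .no .no) .no .no .no) .no .no) .no .no (.br (.br .no (.br (.br .no (.sy 18 57 21) (.br .no (.br (.sw 2 3 [21,34]) .no .no .no) .no (.br (.br .no (.br .no .no (.br .no .no .no (.de 45)) (.br .no .no (.br .no .no .no (.br (.sw 1 2 [39]) .no .no .no)) .no)) (.br .no .no .no (.br .no .no (.br .no .no .no (.br (.sw 1 2 [39]) .no .no .no)) .no)) .no) .no .no .no)) .no) .no .no .no) .no .no) (.br (.br .no (.br .no .no (.br .no (.sw 0 3 [32,33]) .no (.br (.br .no .no (.br .no .no .no (.br .no .no (.br .no .no .no (.sw 0 1 [36,37,38])) .no)) .no) .no .no .no)) .no) .no .no) .no .no .no) .no .no)) .no) .no .no .no)) .no)) (.br .no .no (.br .no .no .no (.br (.br .no .no .no (.br (.sw 2 3 [21]) .no (.br (.br .no (.br (.br .no (.sw 2 3 [29,30,31]) (.br .no (.br (.br .no .no .no (.br .no .no (.br .no .no .no (.de 44)) .no)) .no .no .no) .no .no) .no) .no .no .no) .no .no) .no (.br (.br .no (.br .no .no (.br .no (.br (.br .no .no .no (.br .no (.de 48) .no .no)) .no .no .no) .no .no) .no) .no .no) (.de 42)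 .no .no) .no) .no)) .no .no .no)) .no)) (.br .no .no .no (.br .no .no (.br .no .no .no (.br (.br .no .no .no (.br (.sy 31 45 6) .no .no .no)) .no .no .no)) .no)) .no) .no .no) .no) (.br .no (.br .no .no (.br .no (.br .no .no (.br .no .no .no (.br .no (.br (.br .no .no .no (.br (.br (.br .no (.br (.br .no .no (.br .no (.br .no .no (.br .no .no .no (.br .no .no (.br .no .no .no (.de 44)) .no)) .no) .no .no) (.sw 1 2 [25,26,27,31])) .no (.br .no .no .no (.de 44)) .no) .no .no) .no .no (.br (.br .no .no (.br .no .no .no (.de 44)) .no) (.br (.br .no .no (.br .no (.br .no .no (.de 41) .no) .no .no) (.sw 1 2 [25,26,27,31])) .no (.br .no .no .no (.de 44)) .no) .no .no)) .no .no .no)) .no .no (.br (.de 34) .no .no .no)) .no .no)) (.br .no .no (.br .no (.br (.br .no .no .no (.br (.br (.br .no (.br (.sw 2 3 [29,30]) .no .no (.br .no .no (.de 44) .no)) .no .no) .no (.br (.br .no .no .no (.br .no .no (.de 44) .no)) (.de 42) .no .no) .no) .no .no .no)) .no .no (.br (.de 34) .no .no .no)) .no (.br (.br .no .no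 .no (.br (.sw 1 2 [25,26,27]) .no .no .no)) .no .no .no)) .no)) (.br .no .no .no (.br .no .no (.br .no (.br (.br .no .no .no (.br (.br (.br .no (.br (.br .no .no (.br .no (.br .no .no (.br .no (.sy 41 225 6) .no (.sw 1 2 [28])) .no) .no .no) (.br .no (.br .no .no (.br .no (.br .no .no (.de 48) .no) .no (.sw 1 2 [28])) .no) (.de 45) .no)) .no .no (.br .no .no (.de 44) .no)) .no .no) (.br (.br .no .no .no (.br .no .no (.de 44) .no)) .no .no .no) .no .no) (.br (.br .no (.br (.br .no .no (.br .no (.br (.br .no .no .no (.br .no .no (.br .no .no .no (.de 44)) .no)) .no (.br .no .no .no (.sw 0 1 [34])) .no) .no .no) (.br .no (.br (.br .no .no .no (.br .no .no (.br .no .no .no (.br .no .no (.de 45) .no)) .no)) .no (.br .no .no .no (.sw 0 1 [34])) .no) (.de 45) .no)) .no .no (.br .no .no (.de 44) .no)) .no .no) (.br (.br .no .no .no (.br .no .no (.de 44) .no)) .no .no .no) .no .no) .no .no)) .no .no (.br (.br .no (.br (.br .no (.br (.br .no .no (.br .no (.br .no .no (.sw 0 3 [32,33]) (.de 41)) .no .no)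 .no) .no .no (.br (.br .no (.br .no .no (.br .no .no .no (.br .no .no (.de 43) .no)) (.de 41)) (.br .no .no .no (.de 41)) .no) .no (.de 44) .no)) .no .no) (.br (.br .no .no .no (.br (.br .no (.br .no .no (.br (.br .no .no (.de 43) .no) .no .no (.br .no .no (.de 43) .no)) (.br (.br .no .no (.de 43) .no) .no .no .no)) (.br .no .no .no (.br (.br .no .no (.de 43) .no) .no .no .no)) .no) .no (.de 44) .no)) .no .no .no) .no .no) .no .no) .no .no .no)) .no (.br (.br .no .no .no (.br (.sw 1 2 [25,26,27]) (.br (.br .no (.br (.br .no (.br .no .no (.br (.br .no .no .no (.sw 1 2 [25,26,27,28,34])) .no .no .no) .no) (.sw 1 3 [31]) .no) .no .no .no) .no .no) (.br (.br .no (.br .no .no (.br .no (.br (.br .no .no .no (.br .no .no (.de 48) .no)) .no (.br (.sy 37 210 6) .no .no (.sw 0 1 [34])) .no) .no .no) .no) .no .no) .no .no .no) .no .no) .no .no)) .no .no .no)) .no)) .no) .no) .no .no) .no) .no .no .no) .no .no) .no (.br (.br .no (.br .no .no (.br .no (.br .no .no (.br (.br .no (.br .no .no (.br (.br .no .no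 .no (.br (.br .no (.br .no .no (.br (.br .no (.br .no .no (.br .no (.br .no .no (.br .no .no .no (.br .no (.de 48) .no .no)) (.de 41)) .no .no) .no) .no (.br .no (.br .no .no (.br .no .no .no (.de 41)) .no) (.de 44) .no)) .no .no (.br .no (.br .no .no (.br .no (.br .no .no (.br .no .no .no (.sy 40 75 6)) (.de 41)) .no .no) .no) .no .no)) (.br (.br .no (.br .no .no (.br .no (.br .no .no (.de 41) (.br .no .no (.br .no (.de 48) (.br .no .no .no (.de 44)) .no) .no)) .no .no) .no) .no (.br .no (.br .no .no (.br .no .no .no (.br .no .no (.br .no (.de 48) (.de 43) .no) .no)) .no) (.de 44) .no)) .no .no .no)) .no .no) .no .no .no)) .no .no (.br (.br .no .no .no (.br .no (.br .no .no (.br (.br .no (.br .no .no (.br .no (.br (.br .no .no .no (.br .no (.de 48) .no .no)) .no (.sw 0 3 [31,32,33]) .no) .no .no) .no) .no .no) .no .no (.br (.br .no (.br .no .no (.br (.br .no .no .no (.br .no (.de 48) .no .no)) .no .no .no) .no) (.br .no (.br (.br .no .no .no (.br .no (.de 48) .no .no)) .no (.br .no .no .no (.br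 .no (.de 48) .no .no)) .no) .no .no) .no) (.br .no .no (.br .no (.br (.br .no .no .no (.br .no (.de 48) .no .no)) .no (.sw 0 3 [31,32,33]) .no) .no .no) .no) .no .no)) (.br (.br .no (.br .no .no (.br .no (.br (.br .no .no (.br .no (.de 48) (.br .no .no .no (.de 44)) .no) .no) .no (.de 41) .no) .no .no) .no) .no .no) .no .no .no)) .no .no)) .no .no .no)) (.br (.br .no .no .no (.br (.br .no (.sy 33 180 6) .no .no) .no .no .no)) .no .no .no)) .no (.br .no .no (.br (.br .no .no .no (.br (.br .no (.br .no (.br (.br .no (.br .no .no (.br .no (.br .no .no (.br .no .no .no (.br .no .no (.de 48) .no)) (.br .no .no (.de 48) .no)) .no .no) .no) .no (.br .no (.br .no .no (.br .no .no .no (.br .no .no (.de 48) .no)) .no) (.de 44) .no)) .no .no .no) (.br (.sw 1 3 [29]) (.de 42) .no .no) .no) .no .no) .no .no .no)) .no .no (.br (.br .no .no .no (.br .no (.br .no (.br (.br .no (.br .no .no (.br .no (.br (.br .no .no (.de 48) (.br .no .no (.de 48) .no)) .no (.sw 0 3 [31,32,33]) .no) .no .no) .no) .no .no) .no .no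 .no) (.br (.sw 1 3 [29]) (.de 42) .no .no) .no) .no .no)) .no .no .no)) .no)) (.br .no .no .no (.br .no .no (.br (.br .no .no .no (.br (.de 34) .no .no .no)) .no .no (.br (.br .no .no .no (.br (.br (.br .no (.br (.br .no (.br .no .no (.br .no (.br .no .no (.sy 38 210 6) (.de 47)) .no .no) .no) (.br .no (.br .no .no (.br .no .no .no (.br .no .no (.br .no .no .no (.de 44)) .no)) .no) .no .no) .no) .no .no .no) .no .no) .no (.br (.br .no (.br .no .no (.br .no (.br .no .no (.br .no .no .no (.sw 0 1 [28,34])) .no) .no .no) .no) .no .no) (.de 42) .no .no) .no) .no .no .no)) .no .no .no)) .no)) .no .no) .no) .no .no) .no) .no .no) (.br (.br .no (.br .no .no (.br .no (.br (.br .no .no .no (.br .no .no (.br .no .no .no (.br (.br .no .no .no (.br .no .no (.br .no (.br (.br .no (.br .no .no (.br .no (.br (.br .no .no .no (.br .no .no (.de 48) .no)) .no .no .no) .no .no) .no) .no .no) .no .no .no) (.br (.br .no (.br .no .no (.br .no (.br (.br .no (.de 48) .no (.br .no (.de 48) .no .no)) .no .no .no) .no .no)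 .no) .no .no) (.de 42) .no .no) .no) .no)) .no .no .no)) .no)) (.br (.br .no .no (.br .no .no .no (.br (.br .no .no .no (.br (.br .no .no (.br .no (.de 42) .no (.br (.br .no (.br .no .no (.br .no (.br .no .no .no (.de 47)) .no .no) .no) (.br .no (.br .no .no (.br .no .no .no (.br .no (.de 48) .no .no)) .no) .no .no) .no) (.br .no .no (.br .no (.br .no .no (.br .no .no .no (.sy 40 75 6)) .no) .no .no) .no) .no .no)) (.br .no (.br (.br .no (.br .no .no (.br .no (.br .no .no (.br .no .no (.br .no .no .no (.br .no .no (.br .no .no .no (.br (.br .no .no .no (.br .no (.sy 38 147 22) .no .no)) .no .no .no)) .no)) .no) .no) .no .no) .no) (.br .no (.br .no .no (.de 41) .no) .no .no) .no) .no .no .no) .no .no)) .no (.br .no .no (.br .no (.de 42) .no (.br (.br .no (.br .no .no (.br (.br .no .no .no (.br .no (.de 48) .no .no)) (.br (.br .no (.de 48) .no .no) .no .no (.de 47)) .no .no) .no) (.br .no (.br (.br .no .no .no (.br .no (.de 48) .no .no)) .no .no .no) .no .no) .no) (.br .no .no (.br .no (.br (.br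 .no .no .no (.br .no (.de 48) .no .no)) .no .no .no) .no .no) .no) .no .no)) (.br .no (.br (.br .no (.br .no .no (.br (.de 41) (.br (.br .no .no (.br .no .no .no (.br .no .no (.br .no .no .no (.br (.br .no .no .no (.br .no (.sw 0 2 [34,41]) .no .no)) .no .no .no)) .no)) .no) .no .no .no) .no .no) .no) (.br .no (.br (.de 41) .no .no .no) .no .no) .no) .no .no .no) .no .no)) .no)) .no .no .no)) (.br .no .no (.br (.br .no .no .no (.br (.br .no .no (.br .no (.de 42) .no .no) (.br .no (.sw 0 2 [22,29]) (.br (.br .no (.br .no .no (.br .no (.br .no .no (.br .no (.de 48) .no .no) .no) .no .no) .no) .no (.br .no (.br .no .no (.de 41) .no) (.de 45) .no)) (.br .no .no .no (.br .no (.br .no .no (.de 41) .no) (.de 45) .no)) .no .no) .no)) .no (.br .no .no (.br .no (.de 42) .no .no) (.br .no (.sw 0 2 [22,29]) (.br (.br .no (.br .no .no (.br (.de 41) (.br (.br .no (.br .no .no .no (.br .no .no (.br .no .no .no (.br (.br .no .no .no (.br .no .no (.sw 1 2 [36,42,48]) .no)) .no .no .no)) .no)) .no .no) .no .no .no)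 .no .no) .no) .no (.br .no (.br (.de 41) .no .no .no) (.de 45) .no)) (.br .no .no .no (.br .no (.br (.de 41) .no .no .no) (.de 45) .no)) .no .no) .no)) .no)) .no .no (.br (.br .no .no (.br .no .no (.br .no (.de 42) .no .no) (.br .no (.sw 0 2 [22,29]) (.br (.br .no (.br .no .no (.br .no (.sw 0 3 [32,33]) .no (.br (.br .no (.br .no .no .no (.br .no .no (.br .no .no .no (.br (.br .no (.br .no .no (.sw 1 3 [40,47]) .no) .no .no) .no .no .no)) .no)) .no .no) .no .no .no)) .no) .no .no) (.br (.br .no (.br .no .no .no (.br (.br .no (.br .no .no .no (.sw 0 2 [22,29,36])) .no .no) .no .no .no)) (.br .no (.br (.br .no (.br .no .no .no (.sw 0 2 [22,29,36])) .no .no) .no .no .no) .no (.br (.br .no (.br .no .no .no (.sw 0 2 [22,29,36])) .no .no) .no .no .no)) .no) .no .no .no) .no .no) .no)) .no) .no .no .no)) .no)) .no .no (.sw 0 2 [22])) .no .no) .no .no) .no) (.br .no (.br .no .no (.br (.br .no .no .no (.br .no .no (.br .no (.br (.br .no .no .no (.br .no (.br .no (.br (.br .no .no .no (.br .no .no (.de 44)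 .no)) .no .no .no) (.br (.br .no .no .no (.br .no .no (.de 44) .no)) (.de 42) .no .no) .no) .no .no)) .no .no (.br (.br .no (.br .no (.br (.br .no .no .no (.br (.br .no (.br .no .no (.br .no .no .no (.sw 0 2 [22,28])) (.br .no .no (.de 48) .no)) (.br .no .no .no (.br .no .no (.de 48) .no)) .no) .no (.de 44) .no)) .no .no .no) (.br (.br .no .no .no (.br (.br .no (.br .no .no (.br .no .no .no (.br .no (.de 48) .no .no)) (.de 41)) (.br .no .no .no (.de 41)) .no) .no (.de 44) .no)) (.de 42) .no .no) .no) .no .no) .no .no .no)) .no (.sw 0 1 [23,24])) .no)) (.br (.br .no .no (.br .no (.br (.br .no .no .no (.br (.br .no .no (.br .no (.de 42) .no (.br (.br .no .no (.br .no (.br .no .no (.br .no .no .no (.br .no (.de 48) .no .no)) .no) .no .no) (.br .no (.br .no .no (.br .no .no .no (.br .no (.de 48) .no .no)) .no) (.de 45) .no)) .no .no .no)) (.br .no (.br (.br .no .no (.br .no (.br .no .no (.de 41) .no) .no .no) (.br .no (.br .no .no (.de 41) .no) (.de 45) .no)) .no .no (.br .no .no (.de 44) .no)) .no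 .no)) .no .no .no)) .no .no (.br (.de 34) .no .no .no)) .no (.br (.br .no .no .no (.br (.sw 1 2 [25,26,27]) .no .no .no)) .no .no .no)) (.br .no (.br (.br .no .no .no (.br (.br .no .no (.br .no (.de 42) .no .no) (.br .no (.sw 0 2 [22,29]) (.br (.br .no .no (.br .no (.br .no .no (.de 41) .no) .no .no) (.sw 1 2 [25,26,27,31])) .no .no .no) .no)) .no .no .no)) .no .no (.br (.de 34) .no .no .no)) .no .no)) .no .no (.sw 0 2 [22])) .no .no) .no) .no .no) .no) .no .no .no) .no .no) .no)

def c1_3_1 : Cert := (.br .no .no (.br .no .no .no (.br (.br .no (.br .no .no (.br .no (.br .no .no .no (.br (.br .no (.br .no .no (.br (.br .no .no .no (.br (.br .no (.br .no .no (.br (.br .no (.br .no .no (.br .no (.br .no .no (.br .no .no .no (.br .no (.de 48) .no .no)) (.de 41)) .no .no) .no) .no (.br .no (.br .no .no (.br .no .no .no (.de 41)) .no) (.de 44) .no)) .no .no (.br .no (.br .no .no (.br .no (.br .no .no (.br .no .no .no (.sy 40 75 6)) (.de 41)) .no .no) .no) .no .no)) (.br (.br .no (.br .no .no (.br .no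 (.br .no .no (.de 41) (.br .no .no (.br .no (.de 48) (.br .no .no .no (.de 44)) .no) .no)) .no .no) .no) .no (.br .no (.br .no .no (.br .no .no .no (.br .no .no (.br .no (.de 48) (.de 43) .no) .no)) .no) (.de 44) .no)) .no .no .no)) .no .no) .no (.br .no (.br .no .no (.br (.br .no (.br .no .no (.br (.br .no .no .no (.de 41)) (.br (.br .no .no .no (.br .no (.de 48) .no .no)) .no .no (.de 41)) .no .no) .no) .no (.br .no (.br (.br .no .no .no (.de 41)) .no .no .no) (.de 44) .no)) .no .no (.br .no (.br .no .no (.br (.br .no .no .no (.de 41)) (.br (.br .no .no .no (.br .no (.de 48) .no .no)) .no .no (.de 41)) .no .no) .no) .no .no)) (.br (.br .no (.br .no .no (.br (.br .no .no .no (.de 46)) (.br (.br .no .no (.br .no (.de 48) (.br .no .no .no (.de 44)) .no) .no) .no .no (.sw 0 2 [33])) .no .no) .no) .no (.br .no (.br (.br .no .no .no (.de 46)) .no .no .no) (.de 44) .no)) .no .no .no)) .no .no) .no)) .no .no (.br (.br .no .no (.br .no (.br .no .no (.br (.br .no (.br .no .no (.br .no (.sw 0 3 [31,32])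 .no (.de 45)) .no) .no .no) .no .no (.br (.br .no (.br .no .no .no (.br (.de 46) .no .no .no)) (.br .no (.br (.br .no .no .no (.br .no (.de 48) .no .no)) .no .no (.de 41)) .no (.de 45)) .no) (.br .no .no (.br .no (.sw 0 3 [31,32]) .no (.de 45)) .no) .no .no)) (.br (.br .no (.br .no .no (.br .no (.sw 0 3 [31,32]) .no (.de 45)) .no) .no .no) .no .no .no)) .no .no) .no) .no .no .no)) (.br (.br .no .no .no (.br (.br .no (.sy 33 180 6) .no .no) .no (.br .no (.br .no .no (.br (.br .no (.sw 2 3 [30]) (.br .no (.br (.br .no .no .no (.de 41)) .no .no .no) .no .no) .no) .no .no .no) (.br (.br .no (.sw 2 3 [30]) (.br .no (.br (.br .no .no .no (.de 46)) .no .no .no) .no .no) .no) .no (.br .no (.br .no .no (.br (.br .no .no .no (.de 46)) (.br (.br .no .no (.br .no (.de 48) .no .no) .no) .no .no (.sw 0 2 [33])) .no .no) .no) .no .no) .no)) .no .no) .no)) .no .no .no)) (.br .no .no .no (.br (.br .no .no .no (.br (.br .no (.br .no (.br (.br .no (.br .no .no (.br .no (.br .no .no (.br .no .no .no (.br .no .no (.de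 48) .no)) (.br .no .no (.de 48) .no)) .no .no) .no) (.br .no (.br .no .no (.br .no .no .no (.br .no .no (.de 48) .no)) .no) .no .no) .no) .no .no .no) .no (.br (.sw 1 2 [29]) (.br .no .no (.br .no (.br .no .no (.br .no .no .no (.br .no .no (.sy 39 75 6) .no)) .no) .no .no) .no) .no .no)) .no .no) .no (.br .no (.br .no (.br (.br .no (.br .no .no (.br (.br .no .no .no (.de 46)) (.br (.br .no .no (.de 48) (.br .no .no (.de 48) .no)) .no .no (.sw 0 2 [33])) .no .no) .no) (.br .no (.br (.br .no .no .no (.de 46)) .no .no .no) .no .no) .no) .no .no .no) .no (.br (.sw 1 2 [29]) (.br .no .no (.br .no (.br (.br .no .no .no (.de 46)) .no .no .no) .no .no) .no) .no .no)) .no .no) .no)) .no .no .no)) .no) (.br .no .no (.br .no .no .no (.br (.br .no .no .no (.br (.de 34) .no (.br (.br (.br .no (.br .no .no (.br .no (.br (.br .no (.br .no .no (.br .no .no (.br .no .no .no (.de 44)) .no) (.de 47)) .no (.de 46)) .no .no .no) .no .no) .no) .no .no) .no .no (.br (.br .no (.br .no .no (.br (.br .no (.br .no .no (.br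 .no (.de 48) (.br .no .no .no (.de 44)) .no) .no) .no (.de 46)) (.br .no .no .no (.br .no .no (.sw 0 1 [28,34]) .no)) .no .no) .no) (.br .no (.br (.br .no (.br .no .no (.br .no (.de 48) (.br .no .no .no (.de 44)) .no) .no) .no (.de 46)) .no .no .no) .no .no) .no) (.br .no .no (.br .no (.br (.br .no (.br .no .no (.br .no .no (.br .no .no .no (.de 44)) .no) .no) .no (.de 46)) .no .no .no) .no .no) .no) .no .no)) .no .no .no) .no)) .no .no .no)) .no) .no .no)) .no .no) .no) .no (.br .no (.br .no .no (.br .no .no .no (.br (.br .no (.br .no .no (.br (.br .no .no .no (.br (.br .no (.br .no .no (.br (.br .no (.br .no .no (.br .no (.br .no .no (.br .no .no .no (.br .no (.de 48) .no .no)) (.de 41)) .no .no) .no) .no (.br .no (.br .no .no (.br .no .no .no (.de 41)) .no) (.de 44) .no)) .no .no (.br .no (.br .no .no (.br .no (.br .no .no (.br .no .no .no (.sy 40 75 6)) (.de 41)) .no .no) .no) .no .no)) (.br (.br .no (.br .no .no (.br .no (.br .no .no (.de 41) (.br .no .no (.br .no (.de 48) (.br .no .no .no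 (.de 44)) .no) .no)) .no .no) .no) .no (.br .no (.br .no .no (.br .no .no .no (.br .no .no (.br .no (.de 48) (.de 43) .no) .no)) .no) (.de 44) .no)) .no .no .no)) .no .no) (.de 34) .no .no)) .no .no .no) .no) (.br .no (.br (.br .no .no .no (.br (.br .no (.br .no (.br (.br .no .no (.br .no (.br .no .no (.br .no .no .no (.br .no .no (.de 48) .no)) .no) .no .no) (.br .no (.br .no .no (.br .no .no .no (.br .no .no (.de 48) .no)) .no) (.de 44) .no)) .no .no (.br .no .no (.de 43) .no)) .no (.br (.br .no .no (.br .no (.br .no .no (.br .no .no .no (.br .no .no (.br .no (.de 48) (.br .no .no .no (.de 44)) .no) .no)) .no) .no .no) (.sw 1 2 [29,30])) .no .no .no)) .no .no) (.de 34) .no .no)) .no (.br (.br .no (.de 34) .no .no) .no .no (.br (.br .no (.br .no (.br (.br .no .no .no (.br (.br .no (.br .no .no (.br .no .no .no (.br .no .no (.de 43) .no)) (.br .no .no (.de 48) .no)) (.br .no .no .no (.br .no .no (.de 48) .no)) .no) (.sw 0 2 [31]) .no .no)) .no .no (.br (.br .no (.br .no .no (.br .no .no .no (.br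 .no .no (.de 48) .no)) .no) .no .no) .no .no .no)) .no (.br (.br .no .no .no (.br (.br .no (.br .no .no (.de 41) (.br .no .no (.br .no (.de 48) (.de 43) .no) .no)) (.br .no .no .no (.br .no .no (.sy 35 45 6) .no)) .no) (.sw 0 2 [31]) .no .no)) .no .no .no)) .no .no) (.de 34) .no .no)) .no) .no .no) .no) (.br .no .no (.br .no (.br (.br .no .no .no (.br (.de 34) (.br (.br (.br .no .no .no (.br .no .no (.de 43) .no)) .no .no (.br (.br .no .no (.br .no (.br (.br .no .no (.de 41) (.de 46)) .no (.br .no .no .no (.br .no .no (.sw 0 1 [28,33,34]) .no)) .no) .no .no) (.br .no (.br (.br .no .no (.de 41) (.de 46)) .no (.br .no .no .no (.br .no .no (.sw 0 1 [28,33,34]) .no)) .no) (.de 44) .no)) .no .no .no)) .no .no .no) .no .no)) .no (.br (.br .no (.br (.sy 28 210 6) .no .no .no) .no .no) .no .no (.br (.de 34) (.br (.br (.br .no .no .no (.br (.br .no (.br (.br .no .no (.br .no .no .no (.br .no (.br .no .no (.br .no .no .no (.br .no .no (.br .no .no .no (.br .no (.sw 0 3 [32,39,46]) .no .no)) .no)) .no) (.de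 43) .no)) (.de 46)) .no (.sw 0 3 [32]) .no) .no .no) .no .no .no)) .no .no (.br (.br .no .no .no (.br (.br .no .no (.br .no .no .no (.br .no .no (.sw 0 1 [28,33,34]) .no)) .no) (.sw 0 2 [31]) .no .no)) .no .no .no)) .no .no .no) .no .no)) .no) .no .no) .no) .no .no)) .no) (.br .no (.br .no .no .no (.br (.br .no (.br .no .no (.br (.sw 1 3 [24]) (.br (.br .no .no (.br .no (.br .no .no (.br (.br .no .no .no (.br .no .no (.de 44) .no)) .no .no (.br (.br .no .no (.sw 1 3 [24,31]) (.br .no (.br (.br .no .no .no (.br .no (.de 48) .no .no)) .no .no (.de 41)) .no .no)) .no .no .no)) (.br (.br .no .no .no (.br .no .no (.de 44) .no)) .no .no .no)) .no .no) .no) .no .no (.br (.br .no (.br .no .no (.br (.br .no .no .no (.br (.br .no (.br .no .no (.br .no .no .no (.br .no (.de 48) .no .no)) (.de 41)) (.br .no .no .no (.de 41)) .no) .no (.de 44) .no)) .no .no (.br (.br .no .no (.br .no (.br .no .no (.br .no .no .no (.br .no (.de 48) .no .no)) (.de 41)) .no .no) .no) .no .no .no)) (.br (.br .no .no .no (.br (.sw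 1 2 [25,26,29,30,31]) .no (.de 44) .no)) .no .no .no)) .no .no) .no (.br .no (.br .no .no (.br (.br .no .no .no (.br (.br .no (.br (.br .no .no .no (.br .no (.de 48) .no .no)) .no .no (.de 41)) .no .no) .no (.de 44) .no)) .no .no (.br (.br .no .no (.br (.br .no .no .no (.de 41)) (.sw 0 3 [32]) .no .no) .no) .no .no .no)) (.br (.br .no .no .no (.br (.br .no (.br (.br .no .no (.br .no (.de 48) (.de 43) .no) .no) .no .no (.sw 0 2 [33])) .no .no) .no (.de 44) .no)) .no .no .no)) .no .no) .no)) .no .no) .no) (.br .no (.br (.br .no .no .no (.br (.sw 1 2 [25,26]) .no (.br .no (.br .no (.br (.br .no .no (.sw 1 3 [24,30]) (.br .no (.br (.br .no .no .no (.de 46)) .no .no .no) (.de 44) .no)) .no .no (.br .no .no (.de 43) .no)) .no (.br (.br .no .no (.sw 1 3 [24,30]) (.sw 1 2 [29,30])) .no .no .no)) .no .no) .no)) .no .no .no) .no .no) .no) (.br .no .no (.br .no (.br (.br .no .no .no (.br (.de 34) .no (.br (.br (.br .no .no .no (.br .no .no (.de 43) .no)) .no .no (.br (.br .no .no (.sw 1 3 [24,30]) (.br .no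 (.br (.br .no (.br .no .no (.br .no (.de 48) (.de 43) .no) .no) .no (.de 46)) .no .no .no) (.de 44) .no)) .no .no .no)) .no .no .no) .no)) .no .no .no) .no .no) .no) .no .no)) .no .no) .no)) .no .no .no)) (.br .no .no (.br (.br .no (.br .no .no (.br .no (.br .no .no (.br (.br .no (.br .no .no (.br (.br .no .no .no (.br (.br .no (.sw 2 3 [21,22,27]) .no .no) .no .no .no)) .no .no (.br (.br .no .no .no (.br .no (.br .no .no (.br (.br .no (.br .no .no (.br .no (.br (.sw 2 3 [21,22,27,33]) .no (.sw 0 3 [31,32,33]) .no) .no .no) .no) .no .no) .no .no (.br (.br .no (.br .no .no (.br (.br .no .no .no (.br .no (.de 48) .no .no)) .no .no .no) .no) (.br .no (.br (.sw 2 3 [21,22,27,33]) .no (.br .no .no .no (.br .no (.de 48) .no .no)) .no) .no .no) .no) (.br .no .no (.br .no (.br (.sw 2 3 [21,22,27,33]) .no (.sw 0 3 [31,32,33]) .no) .no .no) .no) .no .no)) (.br (.br .no (.br .no .no (.br .no (.br (.sw 2 3 [21,22,27,33]) .no (.de 41) .no) .no .no) .no) .no .no) .no .no .no)) .no .no)) .no .no .no)) (.br (.br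 .no .no .no (.br (.br .no (.sw 2 3 [21,22,27]) .no .no) .no .no .no)) .no .no .no)) .no (.br .no .no (.br (.br .no .no .no (.br (.br .no (.br .no (.br (.br .no (.sw 2 3 [21,22,27,29,30]) .no (.br .no (.br .no .no (.br .no .no .no (.br .no .no (.de 48) .no)) .no) (.de 44) .no)) .no .no .no) (.br (.sw 1 3 [29]) (.de 42) .no .no) .no) .no .no) .no .no .no)) .no .no (.br (.br .no .no .no (.br .no (.br .no (.br (.br .no (.br .no .no (.br .no (.br (.br .no .no (.de 48) (.br .no .no (.de 48) .no)) .no (.sw 0 3 [31,32,33]) .no) .no .no) .no) .no .no) .no .no .no) (.br (.sw 1 3 [29]) (.de 42) .no .no) .no) .no .no)) .no .no .no)) .no)) (.br .no .no .no (.br .no .no (.br (.br .no .no .no (.br (.de 34) .no .no .no)) .no .no (.br (.br .no .no .no (.br (.sy 20 228 14) .no .no .no)) .no .no .no)) .no)) .no .no) .no) .no .no) .no) .no (.br .no (.br .no .no (.de 27) .no) (.br .no (.br .no .no (.br (.br .no (.br .no .no (.br (.sw 1 3 [24]) (.br (.br .no .no .no (.br .no (.br .no .no (.br (.br .no .no .no (.br .no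 .no (.de 44) .no)) .no .no (.br (.br .no .no (.sw 1 3 [24,31]) (.br .no (.br (.sw 2 3 [21,22,27,33]) .no (.br .no .no .no (.br .no (.de 48) .no .no)) .no) (.de 45) .no)) .no .no .no)) (.br (.br .no .no .no (.br .no .no (.de 44) .no)) .no .no .no)) .no .no)) .no .no (.br (.br .no (.sw 2 3 [21,22,27]) .no .no) .no .no .no)) .no .no) .no) .no (.br .no (.br (.br .no .no .no (.br (.br .no (.br .no (.br (.sw 2 3 [21,22,27,29]) .no (.de 42) .no) (.br (.br .no .no (.sw 1 3 [24,29,30]) (.br .no (.br .no .no (.br .no .no .no (.de 41)) .no) (.de 44) .no)) .no .no .no) .no) .no .no) .no .no .no)) .no .no .no) (.br (.sw 1 3 [24]) (.br (.br .no .no .no (.br .no (.br .no (.br (.br .no .no .no (.br .no .no (.de 44) .no)) .no .no .no) (.br (.sw 1 3 [29]) (.de 42) .no .no) .no) .no .no)) .no .no (.br (.br .no (.br .no (.br (.br .no .no .no (.br (.br .no (.br .no .no (.br .no .no .no (.br .no .no (.de 43) .no)) (.br .no .no (.de 48) .no)) (.br .no .no .no (.br .no .no (.de 48) .no)) .no) .no (.de 44) .no)) .no .no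 .no) (.br (.sw 1 3 [29]) (.de 42) .no .no) .no) .no .no) .no .no .no)) .no .no) .no)) (.br .no .no .no (.br .no (.br (.br .no .no .no (.br (.de 34) .no .no .no)) .no .no .no) (.br (.sw 1 3 [24]) (.br (.br .no .no .no (.br (.br (.br .no (.br (.br .no .no (.sw 1 3 [24,31]) (.br .no (.br .no .no (.br .no .no .no (.br .no .no (.br .no .no .no (.br .no .no (.de 45) .no)) .no)) .no) (.de 45) .no)) .no .no (.br .no .no (.de 44) .no)) .no .no) .no (.br (.br .no .no .no (.br .no .no (.de 44) .no)) (.de 42) .no .no) .no) .no .no .no)) .no .no (.br (.de 34) .no .no .no)) .no .no) .no)) .no .no) .no) .no .no) .no)) .no .no (.br .no (.br .no .no (.br .no (.br .no .no (.sy 27 75 6) .no) .no .no) .no) .no .no)) .no))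

def c1_3_2 : Cert := (.br (.br .no (.br .no .no (.br (.br (.br .no (.br .no .no (.br .no .no .no (.br (.br .no (.br .no .no (.br .no .no (.br (.br .no (.br .no .no (.br .no .no .no (.de 45)) .no) .no .no) .no .no (.br (.br .no (.br .no .no (.br (.br .no (.de 48) .no (.br .no (.de 48) .no .no)) .no .no (.br .no (.de 47) .no .no)) (.br (.de 46) .no .no .no)) (.br .no .no .no (.de 45)) .no) (.br .no .no (.br .no .no .no (.de 45)) .no) .no .no)) (.br (.br .no (.br .no .no (.br .no .no .no (.de 45)) .no) .no .no) .no .no .no)) .no) .no (.br .no (.br .no .no (.br (.br .no (.br .no .no (.br .no (.br (.br .no .no .no (.br .no (.de 48) .no .no)) .no (.br .no .no .no (.br .no (.de 48) .no .no)) .no) .no .no) .no) .no .no) .no .no (.br (.br .no (.br .no .no (.br (.br .no .no .no (.br .no (.de 48) .no .no)) .no .no .no) .no) (.br .no (.br (.br .no .no .no (.br .no (.de 48) .no .no)) .no (.br .no .no .no (.br .no (.de 48) .no .no)) .no) .no .no) .no) (.br .no .no (.br .no (.br (.br .no .no .no (.br .no (.de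 48) .no .no)) .no (.br .no .no .no (.sy 40 75 6)) .no) .no .no) .no) .no .no)) (.br (.br .no (.br .no .no (.br .no (.br (.br .no .no (.br .no (.de 48) (.br .no .no .no (.de 44)) .no) .no) .no (.de 41) .no) .no .no) .no) .no .no) .no .no .no)) (.br .no .no (.br (.br .no (.br .no .no (.br .no (.br (.br .no (.de 48) .no (.sw 1 2 [34])) .no .no .no) .no .no) .no) .no .no) .no .no (.br (.br .no (.br .no .no (.br (.sw 1 3 [33]) (.br .no .no .no (.de 47)) .no .no) .no) (.br .no (.br (.br .no (.de 48) .no (.sw 1 2 [34])) .no .no .no) .no .no) .no) (.br .no .no (.br .no (.br (.br .no (.de 48) .no (.sw 1 2 [34])) .no .no .no) .no .no) .no) .no .no)) (.br (.br .no (.br .no .no (.br .no (.br (.br .no (.br .no (.br .no .no (.br .no .no .no (.de 45)) (.de 44)) (.de 48) .no) .no .no) .no .no .no) .no .no) .no) .no .no) .no .no .no)) .no)) .no .no .no)) .no) .no .no) (.br (.br .no (.br .no .no (.br (.br .no (.br .no .no (.br .no .no (.br .no .no .no (.br (.br .no (.br .no .no (.br (.br .no .no .no (.br .no (.de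 48) .no .no)) .no .no (.br (.br .no (.de 48) .no .no) .no .no .no)) (.br (.de 46) .no .no .no)) .no (.br .no .no (.de 45) .no)) .no .no .no)) (.br .no .no (.br (.br .no (.br .no .no (.br (.de 41) .no .no (.br (.br .no (.br .no .no .no (.br .no .no (.br .no .no .no (.br (.br .no (.br .no .no (.sw 2 3 [6,12,17,18,21,22,23,34,35,36,39,40,43,44,45,48]) .no) .no .no) .no .no .no)) .no)) .no .no) .no .no .no)) (.br (.de 41) .no .no .no)) .no (.br .no .no (.de 45) .no)) .no .no (.de 43)) .no)) .no) .no (.br .no .no (.br .no .no (.br .no .no .no (.br (.br .no (.br .no .no (.br (.sw 1 3 [33]) (.br (.br .no (.de 48) .no .no) .no .no (.de 47)) .no .no) .no) .no (.br .no (.br (.br .no .no .no (.br .no (.de 48) .no .no)) .no .no .no) (.de 45) .no)) .no .no .no)) (.br .no .no (.br (.br .no (.br .no .no (.br (.de 41) (.br (.br .no (.br .no .no .no (.br .no .no (.br .no .no .no (.br (.br .no .no .no (.br .no .no (.sw 1 3 [33,40,47]) .no)) .no .no .no)) .no)) .no .no) .no .no .no) .no .no) .no) .no (.br .no (.br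 (.de 41) .no .no .no) (.de 45) .no)) .no .no (.de 43)) .no)) .no)) .no .no (.br .no (.br .no .no (.br .no .no (.br .no .no .no (.br (.br .no (.br (.br .no .no .no (.de 46)) .no (.sw 0 3 [32]) .no) .no .no) .no .no .no)) (.br .no .no (.br (.br .no (.br (.br .no .no .no (.de 46)) .no (.sw 0 3 [32]) .no) .no .no) .no .no (.de 43)) .no)) .no) .no .no)) (.br (.br .no (.br .no .no (.br .no .no (.br .no .no .no (.br (.br .no (.sw 2 3 [31]) (.br .no .no .no (.de 45)) .no) .no (.de 43) .no)) (.br .no .no (.br (.br .no (.sw 2 3 [31]) (.br .no .no .no (.de 45)) .no) .no .no .no) .no)) .no) .no (.br .no .no (.br .no .no (.br .no .no .no (.br (.br .no (.sw 2 3 [31]) (.br .no (.br (.br .no .no .no (.br .no (.de 48) .no .no)) .no .no .no) .no .no) .no) .no (.de 43) .no)) (.br .no .no (.br (.br .no (.sw 2 3 [31]) (.br .no (.br (.de 41) .no .no .no) .no .no) .no) .no .no .no) .no)) .no)) .no .no .no)) (.br .no .no .no (.br (.br .no (.br .no .no (.br .no .no (.br .no (.de 42) .no (.br (.sw 1 2 [30]) (.br .no .no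 (.br .no .no .no (.de 45)) .no) .no .no)) (.br .no (.br (.br .no (.br .no .no (.br (.de 41) .no .no (.br (.br .no .no (.br .no .no .no (.br .no .no (.br .no .no .no (.br (.br .no (.de 48) .no .no) .no .no .no)) .no)) .no) .no .no .no)) (.br (.de 41) .no .no .no)) (.br .no .no .no (.de 45)) .no) .no .no .no) .no .no)) .no) .no (.br .no .no (.br .no .no (.br .no (.de 42) .no (.br (.sw 1 2 [30]) (.br .no .no (.br .no (.br (.br .no .no .no (.sw 0 1 [28,29])) .no .no .no) .no .no) .no) .no .no)) (.br .no (.br (.br .no (.br .no .no (.br (.de 41) (.br (.br .no .no (.br .no .no .no (.br .no .no (.br .no .no .no (.br (.br .no .no .no (.br .no (.sw 1 2 [30,36,42,48]) .no .no)) .no .no .no)) .no)) .no) .no .no .no) .no .no) .no) (.br .no (.br (.de 41) .no .no .no) .no .no) .no) .no .no .no) .no .no)) .no)) .no .no .no)) .no) .no .no .no) .no .no) .no .no .no) .no) (.br .no (.br (.br (.br .no (.br .no .no (.br .no (.br (.br .no .no (.br .no (.br .no .no (.br (.br .no .no .no (.br .no .no (.de 44) .no)) .no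 .no (.br (.br .no .no (.br .no (.br (.br .no .no .no (.br .no (.de 48) .no .no)) .no .no (.de 41)) .no (.de 45)) (.br .no (.br (.br .no .no .no (.br .no (.de 48) .no .no)) .no .no (.de 41)) .no .no)) .no .no .no)) (.br (.br .no .no .no (.br .no .no (.de 44) .no)) .no .no .no)) .no .no) (.br .no (.br .no .no (.br (.br .no .no .no (.br .no .no (.de 44) .no)) .no .no (.br (.br .no .no (.br .no (.br (.sw 2 3 [33]) .no (.br .no .no .no (.br .no (.de 48) .no .no)) .no) .no .no) (.br .no (.br (.sw 2 3 [33]) .no (.br .no .no .no (.br .no (.de 48) .no .no)) .no) (.de 45) .no)) .no .no .no)) (.br (.br .no .no .no (.br .no .no (.de 44) .no)) .no .no .no)) (.br .no .no (.br (.br .no .no .no (.br .no .no (.de 44) .no)) .no .no (.br (.br .no .no (.br .no (.br (.br .no (.de 48) .no (.sw 1 2 [34])) .no .no .no) .no .no) (.br .no (.br (.br .no (.de 48) .no (.sw 1 2 [34])) .no .no .no) (.de 45) .no)) .no .no .no)) (.br (.br .no .no .no (.br .no .no (.de 44) .no)) .no .no .no)) .no)) .no .no (.br .no .no (.br .no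 (.br .no .no (.br (.br .no .no .no (.br (.br .no (.br (.br .no .no .no (.br .no (.de 48) .no .no)) .no .no (.de 41)) .no .no) .no (.de 44) .no)) .no .no (.br (.br .no .no (.br (.br .no .no .no (.de 41)) (.sw 0 3 [32]) .no .no) .no) .no .no .no)) (.br (.br .no .no .no (.br (.br .no (.br (.br .no .no (.br .no (.de 48) (.de 43) .no) .no) .no .no (.br .no .no (.br .no (.de 48) (.de 43) .no) .no)) .no .no) .no (.de 44) .no)) .no .no .no)) .no .no) .no)) .no (.br (.br .no .no (.br .no (.br .no .no (.br (.br .no (.br .no .no (.br .no (.br (.br .no .no .no (.br .no (.de 48) .no .no)) .no .no (.de 41)) .no (.de 45)) .no) .no .no) .no .no (.br (.br .no (.br .no .no .no (.br (.de 46) .no .no .no)) (.sw 1 3 [31]) .no) (.br .no .no (.br .no (.br (.br .no .no .no (.br .no (.de 48) .no .no)) .no .no (.de 41)) .no (.de 45)) .no) .no .no)) (.br (.br .no (.br .no .no (.br .no (.br (.br .no .no (.br .no (.de 48) (.br .no .no .no (.de 44)) .no) .no) .no .no (.br .no .no (.br .no (.de 48) (.br .no .no .no (.de 44))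 .no) .no)) .no (.de 45)) .no) .no .no) .no .no .no)) .no .no) (.sw 1 2 [25,26])) .no .no .no)) .no) .no .no) (.br (.br .no (.br .no .no .no (.br (.br .no .no (.de 34) (.sw 1 2 [25,26])) .no .no .no)) (.br .no (.br (.br .no .no (.de 34) (.br .no .no (.br .no .no (.br .no (.de 42) .no (.br (.br .no .no (.br .no (.br (.br .no .no .no (.sw 0 1 [28,29])) .no .no .no) .no .no) (.sw 1 2 [25,26,30,31])) .no .no .no)) (.br .no (.br (.br .no .no (.br .no (.br (.de 41) .no .no .no) .no .no) (.br .no (.br (.de 41) .no .no .no) (.de 45) .no)) .no .no (.br .no .no (.de 44) .no)) .no .no)) .no)) .no .no (.br .no .no (.de 34) .no)) .no (.br (.br .no .no (.de 34) (.sw 1 2 [25,26])) .no .no .no)) .no) .no .no .no) .no .no) .no (.br (.br .no (.br .no .no (.br .no (.sw 0 3 [18,19,20,23,24]) .no (.br (.br .no .no .no (.br .no (.sw 0 2 [27]) .no .no)) .no .no .no)) .no) .no .no) (.br (.br .no (.br .no .no .no (.br (.br .no .no .no (.br (.sy 34 180 6) .no .no .no)) .no .no .no)) (.br .no (.br (.br .no .no .no (.br (.br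 .no .no (.br .no (.de 42) .no (.br (.br .no .no (.br .no (.br .no .no (.br .no .no .no (.sw 0 1 [28,29,34])) .no) .no .no) (.br .no (.br .no .no (.br .no .no .no (.sw 0 1 [28,29,34])) .no) (.de 45) .no)) .no .no .no)) (.br .no (.br (.br .no .no (.br .no (.br .no .no (.de 41) .no) .no .no) (.br .no (.br .no .no (.de 41) .no) (.de 45) .no)) .no .no (.br .no .no (.de 44) .no)) .no .no)) .no .no .no)) .no .no (.br (.de 34) .no .no .no)) .no (.br (.br .no .no .no (.br (.br .no .no (.br .no (.de 42) .no (.br (.sw 1 2 [30]) (.br .no .no (.br .no (.br .no .no (.br .no .no .no (.sw 0 1 [28,29,34])) .no) .no .no) .no) .no .no)) (.br .no (.br (.br .no (.br .no .no (.br .no (.br .no .no (.sy 27 78 14) .no) .no .no) .no) (.sw 1 3 [31]) .no) .no .no .no) .no .no)) .no .no .no)) .no .no .no)) .no) .no .no .no) .no .no) .no) .no .no) .no) (.br .no .no (.br .no (.br (.br (.br .no (.br (.br .no .no .no (.br (.br .no .no (.br .no (.br .no .no (.br .no .no .no (.br .no (.br .no .no (.br .no (.br (.br .no .no .no (.br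 .no (.de 48) .no .no)) .no .no (.de 41)) .no (.de 45)) .no) (.de 43) .no)) (.br .no .no (.br .no (.br .no .no (.br .no (.sw 0 3 [23,30,31,32]) .no (.de 45)) .no) .no .no) .no)) .no .no) (.br .no (.sy 30 120 6) (.br .no .no (.br .no .no .no (.br .no (.br .no .no (.br .no (.br (.br .no (.de 48) .no (.sw 1 2 [34])) .no .no .no) .no .no) .no) (.de 43) .no)) (.br .no .no (.br .no (.br .no .no (.br .no (.br (.br .no (.br .no (.br .no .no .no (.de 44)) .no .no) .no .no) .no .no .no) .no .no) .no) .no .no) .no)) .no)) .no .no .no)) .no (.sw 0 3 [23]) .no) .no .no) (.br (.br .no .no (.br (.br .no .no .no (.br .no .no (.de 34) .no)) .no .no (.sw 0 1 [24])) .no) .no .no .no) .no .no) .no (.sw 0 3 [18,19,20]) .no) .no .no) .no) .no .no)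

def c1_3_3 : Cert := (.br .no .no (.br .no (.br (.br .no (.br .no .no (.br .no (.br .no .no .no (.br (.br .no .no (.sw 1 3 [16,22]) (.br .no .no (.br (.br .no .no .no (.br (.br .no (.br .no (.br (.br .no (.sw 2 3 [29,30]) .no (.br .no (.br .no .no (.br .no .no .no (.br .no .no (.de 48) .no)) .no) (.de 44) .no)) .no .no .no) (.br (.sw 1 3 [16,22,29]) (.de 42) .no .no) .no) .no .no) .no (.br .no (.br .no (.br (.br .no (.sw 2 3 [29,30]) .no (.br .no (.br (.br .no .no .no (.de 46)) .no .no .no) (.de 44) .no)) .no .no .no) (.br (.sw 1 3 [16,22,29]) (.de 42) .no .no) .no) .no .no) .no)) .no .no (.br (.br .no .no (.br .no (.br .no (.br (.br .no (.br .no .no (.br .no (.sw 0 3 [31,32]) .no (.de 45)) .no) .no .no) .no .no .no) (.br (.sw 1 3 [16,22,29]) (.de 42) .no .no) .no) .no .no) .no) .no .no .no)) .no)) .no .no (.br .no .no (.br .no .no .no (.br (.br .no .no .no (.br (.br .no (.br (.br .no (.br .no .no (.br .no (.br .no .no (.br .no .no .no (.br .no .no (.br .no .no (.br .no .no .no (.de 44)) .no)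 .no)) .no) .no .no) .no) .no .no) (.br (.br .no (.br .no .no (.br .no (.br .no .no (.br (.sy 37 210 6) .no .no .no) (.br (.br .no .no (.de 48) .no) .no (.de 48) .no)) .no .no) .no) (.br .no (.br .no .no (.br .no .no .no (.br (.br .no .no (.de 48) .no) .no (.de 48) .no)) .no) .no .no) .no) .no .no .no) .no .no) .no .no) .no (.br (.br (.br .no (.br .no .no (.br .no (.br (.br .no (.br .no .no (.sw 1 3 [16,22,28]) .no) .no (.de 46)) .no .no .no) .no .no) .no) .no .no) (.br (.br .no (.br .no .no (.br (.br .no (.br .no .no (.de 48) .no) .no (.de 46)) (.br .no .no .no (.br .no .no (.de 48) .no)) .no .no) .no) (.br .no (.br (.br .no (.br .no .no (.de 48) .no) .no (.de 46)) .no .no .no) .no .no) .no) .no .no .no) .no .no) (.br (.br .no (.br .no .no (.br .no (.br (.br .no .no .no (.de 46)) .no .no .no) .no .no) .no) .no .no) (.br (.br .no (.br .no .no (.br (.br .no .no .no (.de 46)) (.br (.br .no .no (.de 48) .no) .no .no (.sw 0 2 [33])) .no .no) .no) (.br .no (.br (.br .no .no .no (.de 46)) .no .no .no)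 .no .no) .no) .no .no .no) .no .no) .no .no) .no)) .no .no .no)) .no))) .no .no) .no) .no (.br .no (.br .no .no (.br .no .no .no (.br (.br .no .no (.sw 1 3 [16,22]) (.br .no (.br (.br .no .no .no (.br (.br .no (.br .no (.br (.sw 2 3 [29]) .no (.de 42) .no) (.br (.br .no .no (.br .no (.br .no .no (.br .no .no .no (.de 41)) .no) .no .no) (.br .no (.br .no .no (.br .no .no .no (.de 41)) .no) (.de 44) .no)) .no .no .no) .no) .no .no) (.de 34) .no .no)) .no (.br (.br .no (.de 34) .no .no) .no .no (.br (.br .no (.br .no (.br (.sw 2 3 [29]) .no (.de 42) .no) (.br (.br .no .no .no (.br (.br .no (.br .no .no (.br .no .no .no (.br .no (.de 48) .no .no)) (.de 41)) (.br .no .no .no (.de 41)) .no) (.sw 0 2 [31]) .no .no)) .no .no .no) .no) .no .no) (.de 34) .no .no)) .no) (.br (.br .no .no .no (.br (.br .no (.br .no (.br (.br .no (.br .no .no (.br .no (.br .no .no (.br .no .no .no (.br .no .no (.de 48) .no)) (.br .no .no (.de 48) .no)) .no .no) .no) .no (.sw 1 2 [30])) .no .no .no) (.br (.sw 1 3 [16,22,29])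 (.de 42) .no .no) .no) .no .no) (.de 34) .no .no)) .no .no .no) .no)) .no .no (.br .no .no (.br .no (.br (.br .no .no .no (.br (.br .no (.br (.br .no .no .no (.br .no .no (.de 43) .no)) (.br (.br .no .no (.br .no (.br .no .no (.br .no .no .no (.br (.br .no .no (.de 48) .no) .no (.de 48) .no)) .no) .no .no) (.br .no (.br .no .no (.br .no .no .no (.br (.br .no .no (.de 43) .no) .no (.de 48) .no)) .no) (.de 44) .no)) .no .no (.br .no .no (.de 43) .no)) .no .no) .no .no) (.br (.br (.br .no .no .no (.br .no .no (.de 43) .no)) (.br (.br .no .no (.br .no (.br (.br .no .no (.de 41) (.de 46)) .no (.br .no .no .no (.br .no .no (.de 48) .no)) .no) .no .no) (.br .no (.br (.br .no .no (.de 41) (.de 46)) .no (.br .no .no .no (.br .no .no (.de 48) .no)) .no) (.de 44) .no)) .no .no (.br .no .no (.de 43) .no)) .no .no) .no .no .no) .no .no)) .no (.br (.br .no (.br (.br (.br .no .no .no (.br (.br .no (.br .no .no (.br .no .no .no (.br .no (.de 47) (.sw 1 3 [16,22,28]) .no)) (.br .no .no (.br .no (.br .no (.br .no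 .no (.br .no .no .no (.br .no .no (.br (.br .no .no .no (.br .no .no (.sw 1 3 [16,22,28,41,47]) .no)) .no .no .no) .no)) .no) (.de 43) .no) .no .no) .no)) .no (.br .no .no (.de 45) .no)) .no .no .no)) (.br (.br .no .no .no (.br .no (.br .no .no (.br .no .no .no (.br .no .no (.de 48) .no)) (.br .no .no (.de 41) .no)) .no .no)) .no .no (.br (.br .no (.br .no .no (.br .no .no .no (.br .no .no (.de 48) .no)) (.br .no .no (.de 41) .no)) .no (.br .no .no (.de 45) .no)) .no .no .no)) .no .no) .no .no .no) .no .no) .no .no (.br (.br .no (.br (.br .no .no .no (.br (.br .no (.br .no .no (.br .no .no .no (.br .no .no (.br .no (.de 48) (.de 43) .no) .no)) .no) .no .no) .no .no .no)) (.br (.br .no .no .no (.br (.br .no (.br .no .no (.br (.br .no .no (.de 43) .no) .no .no .no) (.br (.br .no .no (.de 43) .no) .no (.de 48) .no)) (.br .no .no .no (.br (.br .no .no (.de 43) .no) .no (.de 48) .no)) .no) (.sw 0 2 [31]) .no .no)) .no .no (.br (.br .no (.br .no .no (.br .no .no .no (.br (.br .no .no (.de 43) .no) .no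 (.de 48) .no)) .no) .no .no) .no .no .no)) .no .no) .no .no) (.br (.br (.br .no .no .no (.br (.br .no (.br (.br .no .no (.br .no (.br .no (.br .no .no (.br .no .no .no (.br .no .no (.br .no .no .no (.de 47)) .no)) .no) (.de 43) .no) .no .no) (.de 46)) .no (.sw 0 3 [32]) .no) .no .no) .no .no .no)) (.br (.br .no .no .no (.br (.br .no .no (.br .no .no .no (.br .no .no (.de 48) .no)) .no) (.sw 0 2 [31]) .no .no)) .no .no (.br (.br .no (.br (.br .no .no (.de 41) (.de 46)) .no (.sw 0 3 [32]) .no) .no .no) .no .no .no)) .no .no) .no .no .no) .no .no)) .no) .no .no) .no))) .no) (.br .no (.br .no .no .no (.br (.br .no .no (.sw 1 3 [16,22]) (.br .no (.br (.br .no .no .no (.br (.sw 1 2 [25,26]) .no (.br .no (.br .no (.br (.sw 2 3 [29]) .no (.de 42) .no) (.br (.br .no .no (.sw 1 3 [16,22,24,29,30]) (.br .no (.br (.br .no .no .no (.de 41)) .no .no .no) (.de 44) .no)) .no .no .no) .no) .no .no) .no)) .no .no .no) (.br (.sw 1 3 [24]) (.br (.br .no .no (.br .no (.br .no (.br (.br .no .no .no (.br .no .no (.de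 44) .no)) .no .no .no) (.br (.sw 1 3 [16,22,29]) (.de 42) .no .no) .no) .no .no) .no) .no .no (.br (.br .no (.br .no (.br (.br .no .no .no (.br (.sw 1 2 [25,26,30,31]) .no (.de 44) .no)) .no .no .no) (.br (.sw 1 3 [16,22,29]) (.de 42) .no .no) .no) .no .no) .no (.br .no (.br .no (.br (.br .no .no .no (.br (.br .no (.br (.br .no .no (.de 48) (.br .no .no (.de 43) .no)) .no .no (.sw 0 2 [33])) .no .no) .no (.de 44) .no)) .no .no .no) (.br (.sw 1 3 [16,22,29]) (.de 42) .no .no) .no) .no .no) .no)) .no .no) .no)) .no .no (.br .no .no (.br .no (.br (.br .no .no .no (.br (.sw 1 2 [25,26]) .no (.br (.br (.br .no .no .no (.br .no .no (.de 43) .no)) (.br (.br .no .no (.sw 1 3 [24,30]) (.br .no (.br (.br .no (.br .no .no (.de 48) .no) .no (.de 46)) .no .no .no) (.de 44) .no)) .no .no (.br .no .no (.de 43) .no)) .no .no) (.br (.br .no .no .no (.br .no .no (.de 43) .no)) (.br (.br .no .no (.sw 1 3 [24,30]) (.br .no (.br (.br .no .no .no (.de 46)) .no .no .no) (.de 44) .no)) .no .no (.br .no .no (.de 43) .no))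 .no .no) .no .no) .no)) .no .no .no) .no .no) .no))) .no .no) .no)) .no .no .no) .no .no) (.br .no (.br (.br .no (.br .no .no (.br .no (.br .no .no (.br (.br .no .no (.br .no .no .no (.br (.br .no .no .no (.br (.br .no (.sw 2 3 [21,27]) .no .no) .no .no .no)) .no .no .no)) (.br .no .no (.br (.br .no .no .no (.br (.br .no (.sw 2 3 [21,27]) .no .no) .no .no .no)) .no .no (.br (.br .no .no .no (.br .no (.br .no (.br (.br .no (.br .no .no (.br .no (.br (.sw 2 3 [21,27,33]) .no (.sw 0 3 [31,32,33]) .no) .no .no) .no) .no .no) .no .no .no) (.br (.br .no (.br .no .no (.br .no (.br (.sw 2 3 [21,27,33]) .no (.sw 0 3 [31,32,33]) .no) .no .no) .no) .no .no) (.de 42) .no .no) .no) .no .no)) .no .no .no)) .no)) .no (.br .no .no .no (.br .no .no (.br (.br .no .no .no (.br (.br .no (.br (.br .no (.br .no .no .no (.br .no (.br .no .no (.br .no .no .no (.de 41)) .no) (.de 44) .no)) .no .no) (.br (.br .no (.br .no .no (.br .no (.br .no .no (.br (.sw 2 3 [21,27,28,29,30]) .no .no (.sw 0 2 [28])) (.br (.sw 2 3 [21,27,28,29,30])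 .no .no .no)) .no .no) .no) .no (.br .no (.br .no .no (.br .no .no .no (.br (.br .no .no (.de 43) .no) .no .no .no)) .no) (.de 44) .no)) .no .no .no) .no .no) .no .no) .no .no .no)) .no .no (.br (.br .no .no .no (.br (.sy 31 45 6) (.br (.br .no (.br (.br .no (.sy 24 147 14) (.br .no (.br (.br .no .no .no (.br .no .no (.br .no .no .no (.de 44)) .no)) .no (.sy 24 147 16) .no) .no .no) .no) .no .no .no) .no .no) (.br (.br .no (.br .no .no (.br .no (.br (.br .no .no .no (.sw 0 2 [28])) .no (.sw 0 3 [31,32,33]) .no) .no .no) .no) .no .no) .no .no .no) .no .no) .no .no)) .no .no .no)) .no)) .no) .no) .no .no) .no) .no (.br .no (.br .no .no (.de 27) .no) (.br .no (.br .no .no (.br (.br .no .no (.br .no (.br (.br .no .no .no (.br (.br .no (.sw 2 3 [21,27]) .no .no) .no .no .no)) .no .no .no) .no .no) (.br .no (.br (.br .no .no .no (.br (.br .no (.sw 2 3 [21,27]) .no .no) .no .no .no)) .no .no .no) (.br (.sw 1 3 [24]) (.br (.br .no .no .no (.br .no (.br .no (.br (.br .no .no .no (.br .no .no (.de 44) .no))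 .no .no .no) (.br (.br .no .no .no (.br .no .no (.de 44) .no)) (.de 42) .no .no) .no) .no .no)) .no .no (.br (.br .no (.sw 2 3 [21,27]) .no .no) .no .no .no)) .no .no) .no)) .no (.br .no .no .no (.br .no (.br (.br .no .no .no (.br (.br .no (.br (.br .no .no (.br .no .no .no (.de 43)) .no) (.br (.br .no .no (.br .no (.br .no .no (.br .no .no .no (.br (.sw 2 3 [21,27,28,29]) .no .no .no)) .no) .no .no) (.br .no (.br .no .no (.br .no .no .no (.br (.sw 2 3 [21,27,28,29]) .no .no .no)) .no) (.de 44) .no)) .no (.de 42) .no) .no .no) .no .no) .no .no .no)) .no .no .no) (.br (.sw 1 3 [24]) (.br (.br .no .no .no (.br (.br (.br .no (.br (.br .no .no (.sw 1 3 [24,31]) (.br .no (.br .no .no (.br .no (.br .no .no (.de 48) .no) .no (.br .no .no (.br .no .no .no (.br .no .no (.de 45) .no)) .no)) .no) (.de 45) .no)) .no .no (.br .no .no (.de 44) .no)) .no .no) (.br (.br .no .no .no (.br .no .no (.de 44) .no)) .no .no .no) .no .no) (.br (.br .no (.br (.br .no .no (.sw 1 3 [24,31]) (.br .no (.br (.br .no .no .no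 (.br .no .no (.br .no .no .no (.br .no .no (.de 45) .no)) .no)) .no (.br .no .no .no (.sw 0 1 [34])) .no) (.de 45) .no)) .no .no (.br .no .no (.de 44) .no)) .no .no) (.br (.br .no .no .no (.br .no .no (.de 44) .no)) .no .no .no) .no .no) .no .no)) .no .no (.br (.br .no (.br (.br .no (.br (.br .no .no (.br .no (.br .no .no (.sw 0 3 [32,33]) (.de 41)) .no .no) .no) .no .no (.br (.br .no (.br .no .no (.br .no .no .no (.br .no .no (.de 43) .no)) (.de 41)) (.br .no .no .no (.de 41)) .no) .no (.de 44) .no)) .no .no) (.br (.br .no .no .no (.br (.br .no (.br .no .no (.br (.br .no .no (.de 43) .no) .no .no (.sw 0 2 [28])) (.br (.br .no .no (.de 43) .no) .no .no .no)) (.br .no .no .no (.br (.br .no .no (.de 43) .no) .no .no .no)) .no) .no (.de 44) .no)) .no .no .no) .no .no) .no .no) .no .no .no)) .no .no) .no)) .no) .no) .no .no) .no)) .no .no .no) (.br (.sw 1 3 [16]) (.br .no .no .no (.br .no (.br .no .no (.de 27) .no) (.br .no (.br .no .no (.br (.br .no .no .no (.br (.br .no (.br (.br .no .no .no (.br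 .no (.br .no (.br .no .no (.de 42) .no) (.br .no (.de 42) .no .no) .no) .no .no)) .no .no (.br (.br .no (.br .no (.br .no .no (.de 42) .no) (.br .no (.de 42) .no .no) .no) .no .no) .no .no .no)) .no .no) .no (.sw 0 1 [23]) .no)) (.br (.br .no .no (.br (.sw 1 3 [16,23,24]) (.br (.br .no .no .no (.br (.br .no .no (.br .no (.de 42) .no (.br (.br .no .no (.sw 1 3 [16,23,24,31]) (.br .no (.br .no .no (.br .no .no .no (.sw 0 1 [23,28,29,34])) .no) (.de 45) .no)) .no .no .no)) (.br .no (.br (.br .no .no (.sw 1 3 [16,23,24,31]) (.br .no (.br .no .no (.de 41) .no) (.de 45) .no)) .no .no (.br .no .no (.de 44) .no)) .no .no)) .no .no .no)) .no .no (.br (.de 34) .no .no .no)) .no .no) .no) .no .no (.br (.br .no (.br (.br .no .no .no (.br (.br (.br .no (.br .no .no (.br .no .no .no (.de 44)) (.br .no .no (.de 44) .no)) (.br .no .no .no (.de 43)) .no) .no (.br .no (.de 42) .no .no) .no) .no .no .no)) .no .no (.br (.de 34) .no .no .no)) .no .no) .no (.sw 0 1 [23]) .no)) .no .no) .no) .no .no) .no)) .no .no) .no))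

def c1_3_4 : Cert := (.br .no (.br .no .no (.br (.br .no .no .no (.br c1_3_1 .no .no .no)) .no .no (.br (.br .no .no .no (.br .no .no (.br .no .no .no (.br (.br .no (.br .no .no (.br .no (.br (.br (.br .no (.br .no .no (.br (.br .no .no .no (.br .no .no (.br .no (.sw 0 3 [18,19,20,27]) .no (.br .no .no (.br (.br .no (.br .no .no (.br (.br .no (.de 41) .no .no) (.br (.br .no (.de 48) .no .no) .no .no .no) .no .no) .no) .no (.br .no (.br (.br .no (.de 41) .no .no) .no .no .no) (.de 44) .no)) .no .no (.br .no (.br .no .no (.br (.br .no (.de 41) .no .no) (.br (.br .no (.de 48) .no .no) .no .no .no) .no .no) .no) .no .no)) (.br (.br .no (.br .no .no (.br (.br .no (.br .no .no (.br .no (.de 48) (.br .no .no .no (.de 44)) .no) .no) .no .no) (.br (.br .no (.br .no (.br .no .no (.br .no .no .no (.de 45)) (.de 44)) (.de 48) .no) (.sw 1 3 [34]) .no) .no .no .no) .no .no) .no) .no (.br .no (.br (.br .no (.br .no .no (.br .no (.de 48) (.de 43) .no) .no) .no .no) .no .no .no) (.de 44) .no)) .no .no .no))) .no))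 .no .no (.br (.br .no .no (.br .no (.sw 0 3 [18,19,20,27]) .no (.br .no .no (.br (.br .no (.br .no .no (.br .no (.sw 0 3 [31,32]) .no (.de 45)) .no) .no .no) .no .no (.br (.br .no (.br .no .no .no (.br (.de 46) (.de 41) .no .no)) (.br .no (.br (.br .no (.de 48) .no .no) .no .no .no) .no (.de 45)) .no) (.br .no .no (.br .no (.sw 0 3 [31,32]) .no (.de 45)) .no) .no .no)) (.br (.br .no (.br .no .no (.br .no (.sw 0 3 [31,32]) .no (.de 45)) .no) .no .no) .no .no .no))) (.br .no (.br .no .no (.br (.br .no (.br .no .no (.br .no (.br (.sw 2 3 [33]) .no (.sw 0 3 [18,19,20,27,31,32,33]) .no) .no .no) .no) .no .no) .no .no (.br (.br .no (.br .no .no (.br (.br .no .no .no (.br .no (.de 48) .no .no)) .no .no .no) .no) (.br .no (.br (.sw 2 3 [33]) .no (.br .no .no .no (.br .no (.de 48) .no .no)) .no) .no .no) .no) (.br .no .no (.br .no (.br (.sw 2 3 [33]) .no (.sw 0 3 [18,19,20,27,31,32,33]) .no) .no .no) .no) .no .no)) (.br (.br .no (.br .no .no (.br .no (.br (.sw 2 3 [33]) .no (.de 41) .no) .no .no) .no) .no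 .no) .no .no .no)) .no .no)) .no .no .no)) (.br (.br .no .no .no (.br .no .no (.br .no (.sw 0 3 [18,19,20,27]) .no (.br .no .no (.br (.br .no (.sw 2 3 [30]) (.br .no (.br (.br .no (.de 41) .no .no) .no .no .no) .no .no) .no) .no .no .no) (.br (.br .no (.sw 2 3 [30]) (.br .no (.br (.br .no (.br .no .no (.br .no (.de 48) (.br .no .no .no (.de 44)) .no) .no) .no .no) .no .no .no) .no .no) .no) .no (.br .no (.br .no .no (.br (.br .no (.br .no .no (.br .no (.de 48) .no .no) .no) .no .no) (.br (.br .no (.br .no (.br .no .no .no (.de 44)) .no .no) (.sw 1 3 [34]) .no) .no .no .no) .no .no) .no) .no .no) .no))) .no)) .no .no .no)) (.br .no .no .no (.br (.br .no .no .no (.br .no .no (.br .no (.sw 0 3 [18,19,20,27]) .no (.br .no (.br (.br .no (.br .no .no (.br (.br .no (.br .no .no (.de 48) .no) .no .no) (.br (.br .no .no (.de 48) .no) .no .no .no) .no .no) .no) (.br .no (.br (.br .no (.br .no .no (.de 48) .no) .no .no) .no .no .no) .no .no) .no) .no .no .no) .no (.br (.sw 1 2 [29]) (.br .no .no (.br .no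 (.br (.br .no (.br .no .no (.br .no .no (.br .no .no .no (.de 44)) .no) .no) .no .no) .no .no .no) .no .no) .no) .no .no))) .no)) .no .no .no)) .no) (.br .no .no (.br .no .no .no (.br (.br .no .no .no (.br .no .no (.br .no .no .no (.br (.br .no (.br .no .no (.br .no (.br (.br .no (.br .no .no (.sw 0 3 [18,19,20,27,34]) .no) .no .no) .no .no .no) .no .no) .no) .no .no) .no .no (.br (.br .no (.br .no .no (.br (.br .no (.br (.br .no (.br .no .no (.br .no .no .no (.de 45)) (.de 44)) (.br .no .no .no (.de 44)) .no) .no (.sw 0 1 [28]) .no) .no .no) (.br (.br .no .no (.sw 0 1 [28]) .no) .no .no .no) .no .no) .no) (.br .no (.br (.br .no (.br (.br .no (.br .no .no .no (.de 44)) (.br .no .no .no (.de 44)) .no) .no (.sw 0 1 [28]) .no) .no .no) .no .no .no) .no .no) .no) (.br .no .no (.br .no (.br (.br .no (.br (.br .no .no (.br .no .no .no (.de 44)) .no) .no (.sw 0 1 [28]) .no) .no .no) .no .no .no) .no .no) .no) .no .no))) .no)) .no .no .no)) .no) .no .no) .no .no .no) .no .no) .no) .no .no) .no .no .no))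 (.br .no .no (.br (.br .no (.br .no .no (.br .no (.br (.br (.br .no (.br .no .no (.br (.br .no .no .no (.br .no .no (.br .no (.sw 2 3 [21,22]) .no .no) .no)) .no .no (.br (.br .no .no (.br .no (.sw 2 3 [21,22]) .no .no) (.br .no (.sw 2 3 [21,22]) (.br .no .no (.br (.br .no (.br .no .no (.br .no (.br (.br .no (.de 48) .no (.sw 1 2 [34])) .no .no .no) .no .no) .no) .no .no) .no .no (.br (.br .no (.br .no .no (.br (.br .no (.de 48) .no (.sw 1 2 [34])) (.br .no .no .no (.de 47)) .no .no) .no) (.br .no (.br (.br .no (.de 48) .no (.sw 1 2 [34])) .no .no .no) .no .no) .no) (.br .no .no (.br .no (.br (.br .no (.de 48) .no (.sw 1 2 [34])) .no .no .no) .no .no) .no) .no .no)) (.br (.br .no (.br .no .no (.br .no (.br (.br .no (.sw 2 3 [21,22,33,34]) .no .no) .no .no .no) .no .no) .no) .no .no) .no .no .no)) .no)) .no .no .no)) (.br (.br .no .no .no (.br .no .no (.br .no (.sw 2 3 [21,22]) .no .no) .no)) .no .no .no)) .no (.br .no .no (.br (.br .no .no .no (.br .no .no (.br .no (.br .no (.br (.br .no (.sw 2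 3 [21,22,29,30]) .no (.br .no (.br (.br .no .no .no (.de 46)) .no .no .no) (.de 44) .no)) .no .no .no) (.br (.sw 1 3 [29]) (.de 42) .no .no) .no) .no .no) .no)) .no .no (.br (.br .no .no (.br .no (.br .no (.br (.br .no (.br .no .no (.br .no (.sw 0 3 [31,32]) .no (.de 45)) .no) .no .no) .no .no .no) (.br (.sw 1 3 [29]) (.de 42) .no .no) .no) .no .no) (.br .no (.br .no (.br (.br .no (.br .no .no (.br .no (.br (.sw 2 3 [33]) .no (.br .no .no .no (.br .no .no (.de 48) .no)) .no) .no .no) .no) .no .no) .no .no .no) (.br (.sw 1 3 [29]) (.de 42) .no .no) .no) (.br .no (.br (.br .no (.br .no .no (.br .no (.br (.br .no .no .no (.sw 1 2 [34])) .no .no .no) .no .no) .no) .no .no) .no .no .no) (.br (.sw 1 3 [29]) (.de 42) .no .no) .no) .no)) .no .no .no)) .no)) (.br .no .no .no (.br .no .no (.br (.br .no .no .no (.br .no .no (.de 34) .no)) .no .no (.br (.br .no .no (.de 34) (.br .no .no (.br (.br .no (.br (.br .no (.br .no .no (.br (.br .no .no .no (.br .no .no (.br .no .no .no (.br .no .no (.br .no .no .no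 (.de 46)) .no)) .no)) (.br .no .no .no (.de 47)) .no .no) .no) (.br .no (.br (.br .no .no .no (.br .no .no (.br .no .no .no (.de 44)) .no)) .no .no .no) .no .no) .no) .no .no .no) .no .no) .no (.br (.br .no (.br .no .no (.br .no (.br (.br .no .no .no (.sw 0 1 [28])) .no .no .no) .no .no) .no) .no .no) (.de 42) .no .no) .no) .no)) .no .no .no)) .no)) .no .no) .no (.sw 0 3 [18,19,20]) .no) .no .no) .no) .no .no) .no .no c1_3_2) .no))) .no .no .no)) (.br (.br .no .no .no (.br (.sy 20 180 6) .no .no .no)) .no .no .no)) .no (.br .no .no (.br (.br .no .no .no (.br c1_3_3 .no .no .no)) .no .no (.br (.br .no .no .no (.br .no .no (.br .no (.br (.br .no (.br .no .no (.br .no (.br (.br (.br .no .no (.sw 1 3 [16,22]) (.br .no .no (.br (.br .no .no .no (.br .no .no (.br .no (.sw 0 3 [18,19,20,27]) .no (.br .no (.br (.br .no (.sw 2 3 [29,30]) .no (.br .no (.br (.br .no (.br .no .no (.de 48) .no) .no .no) .no .no .no) (.de 44) .no)) .no .no .no) (.br (.sw 1 3 [16,22,29]) (.de 42) .no .no) .no)) .no)) .no .no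 (.br (.br .no .no (.br .no (.sw 0 3 [18,19,20,27]) .no (.br .no (.br (.br .no (.br .no .no (.br .no (.sw 0 3 [31,32]) .no (.de 45)) .no) .no .no) .no .no .no) (.br (.sw 1 3 [16,22,29]) (.de 42) .no .no) .no)) (.br .no (.br .no (.br (.br .no (.br .no .no (.br .no (.br (.sw 2 3 [33]) .no (.sw 0 3 [18,19,20,27,31,32,33]) .no) .no .no) .no) .no .no) .no .no .no) (.br (.sw 1 3 [16,22,29]) (.de 42) .no .no) .no) .no .no)) .no .no .no)) .no)) .no .no (.br .no .no (.br .no .no .no (.br (.br .no .no .no (.br .no .no (.br .no (.sw 0 3 [18,19,20,27]) .no .no) .no)) .no .no .no)) .no)) .no .no .no) .no .no) .no) .no .no) .no .no .no) .no .no) (.br .no (.br (.br .no (.br .no .no (.br .no (.br (.br (.br .no .no (.br .no .no .no (.br (.br .no .no .no (.br .no .no (.br .no (.sw 2 3 [21]) .no .no) .no)) .no .no .no)) (.br .no .no (.br (.br .no .no .no (.br .no .no (.br .no (.sw 2 3 [21]) .no .no) .no)) .no .no (.br (.br .no .no (.br .no (.sw 2 3 [21]) .no .no) (.br .no (.sw 2 3 [21]) (.br .no (.br (.br .no (.br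 .no .no (.br .no (.br (.br .no .no .no (.sw 1 2 [34])) .no .no .no) .no .no) .no) .no .no) .no .no .no) (.br (.br .no (.br .no .no (.br .no (.br (.br .no (.de 48) .no (.sw 1 2 [34])) .no .no .no) .no .no) .no) .no .no) (.de 42) .no .no) .no) .no)) .no .no .no)) .no)) .no (.br .no .no .no (.br .no .no (.br (.br .no .no .no (.br .no .no (.br .no (.br (.br .no (.br .no .no .no (.br .no (.br (.br .no .no .no (.de 41)) .no .no .no) (.de 44) .no)) .no .no) (.br (.br .no (.br .no .no (.br (.br .no .no .no (.de 46)) (.br (.br .no .no .no (.sw 0 2 [28])) .no .no (.br (.sw 2 3 [21,28,29,30]) .no .no .no)) .no .no) .no) .no (.br .no (.br (.br .no .no .no (.de 46)) .no .no .no) (.de 44) .no)) .no .no .no) .no .no) .no .no) .no)) .no .no (.br (.br .no .no (.br .no (.br (.br .no (.br (.br .no (.br .no .no .no (.br (.de 46) .no .no .no)) (.br .no (.br (.br .no .no .no (.br .no .no (.br .no .no .no (.de 44)) .no)) .no .no (.de 41)) .no (.de 45)) .no) .no .no .no) .no .no) (.br (.br .no (.br .no .no (.br .no (.sw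 0 3 [31,32]) .no (.de 45)) .no) .no .no) .no .no .no) .no .no) .no .no) (.br .no (.br (.br .no (.br (.br .no (.br .no .no (.br (.br .no .no .no (.br .no .no (.br .no .no .no (.br .no .no (.br .no .no .no (.de 46)) .no)) .no)) .no .no .no) .no) (.br .no (.br (.sw 2 3 [33]) .no (.br .no .no .no (.br .no .no (.br .no .no .no (.de 44)) .no)) .no) .no .no) .no) .no .no .no) .no .no) (.br (.br .no (.br .no .no (.br .no (.br (.sw 2 3 [33]) .no (.br (.sy 37 210 6) .no .no (.sw 0 2 [28])) .no) .no .no) .no) .no .no) .no .no .no) .no .no) .no .no)) .no .no .no)) .no)) .no) .no (.sw 0 3 [18,19,20]) .no) .no .no) .no) .no .no) .no .no .no) (.br (.sw 1 3 [16]) (.br (.br .no (.br .no .no (.br (.br (.br .no .no .no (.br .no .no (.br .no .no .no (.br (.br .no (.br .no .no (.br .no (.br (.br .no (.br .no .no (.br .no .no .no (.de 45)) .no) .no .no) .no .no .no) (.br (.sw 1 3 [16,23,29]) (.de 42) .no .no) .no) .no) .no (.br .no (.br .no (.br (.br .no (.br .no .no (.br .no (.br (.br .no .no (.de 48) (.br .no .no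 (.de 48) .no)) .no (.br .no .no .no (.br .no .no (.de 48) .no)) .no) .no .no) .no) .no .no) .no .no .no) (.br (.sw 1 3 [16,23,29]) (.de 42) .no .no) .no) (.sw 0 1 [14,15,27]) .no)) .no .no .no)) .no)) (.br (.br .no .no (.sw 1 3 [16,23]) (.br .no .no (.br (.br .no (.br .no .no (.br .no .no (.br .no (.de 42) .no .no) (.br .no (.br (.br .no (.sw 2 3 [30,31]) .no (.br .no .no (.de 45) .no)) .no .no .no) (.br (.sw 1 3 [16,23,30]) (.br .no .no .no (.br .no .no (.de 45) .no)) .no .no) .no)) .no) .no (.br .no .no (.sw 0 1 [14,15,27]) .no)) .no .no (.br .no (.br .no .no (.br .no .no (.br .no (.de 42) .no .no) (.br .no (.br (.br .no (.br (.br .no .no .no (.de 46)) .no (.sw 0 3 [32]) .no) .no .no) .no .no .no) (.br (.sw 1 3 [16,23,30]) (.br (.br .no .no (.br (.de 41) .no .no (.sw 0 1 [14,15,27,33])) .no) .no .no .no) .no .no) .no)) .no) .no .no)) .no)) .no .no (.br .no .no (.br .no .no .no (.br (.br .no (.br .no .no (.br (.br .no (.br (.br .no (.br .no .no (.br (.br .no .no .no (.br .no .no (.br .no .no .no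 (.br .no .no (.br .no .no .no (.de 46)) .no)) .no)) .no .no (.de 41)) (.br (.de 46) .no .no .no)) (.br .no .no .no (.de 45)) .no) .no .no .no) .no .no) .no (.br (.br .no (.br .no .no (.br .no .no .no (.de 45)) .no) .no .no) (.de 42) .no .no) .no) .no) .no (.br .no .no (.sw 0 1 [14,15,27]) .no)) .no .no .no)) .no)) .no .no) .no .no .no) .no) (.br .no (.br (.br (.br .no .no .no (.br .no .no (.br .no (.br (.br .no .no (.br .no (.br .no (.br (.br .no .no .no (.br .no .no (.de 44) .no)) .no .no .no) (.br (.sw 1 3 [16,23,29]) (.de 42) .no .no) .no) .no .no) (.br .no (.br .no (.br (.br .no .no .no (.br .no .no (.de 44) .no)) .no .no .no) (.br (.sw 1 3 [16,23,29]) (.de 42) .no .no) .no) (.br .no (.br (.br .no .no .no (.br .no .no (.de 44) .no)) .no .no .no) (.br (.sw 1 3 [16,23,29]) (.de 42) .no .no) .no) .no)) .no .no (.br .no .no (.br .no (.br .no (.br (.br .no .no .no (.br (.br .no (.br (.br .no .no (.de 48) (.br .no .no (.de 43) .no)) .no .no (.br .no .no (.de 48) .no)) .no .no) .no (.de 44) .no))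 .no .no .no) (.br (.sw 1 3 [16,23,29]) (.de 42) .no .no) .no) .no .no) .no)) .no (.sw 0 1 [23,24])) .no)) (.br (.br .no .no (.sw 1 3 [16,23]) (.br .no (.br (.br .no .no (.de 34) (.br .no .no (.br .no .no (.br .no (.de 42) .no .no) (.br .no (.br (.sw 2 3 [30]) .no (.br .no .no .no (.de 44)) .no) (.br (.br .no .no (.sw 1 3 [16,23,30,31]) (.sw 1 2 [25,26,31])) .no .no .no) .no)) .no)) .no .no (.br .no .no (.de 34) .no)) .no .no)) .no .no (.br .no .no (.br .no (.br (.br .no .no (.de 34) (.br .no .no (.br (.br .no (.br (.br .no .no (.br .no (.br (.br .no .no .no (.br .no .no (.br .no .no .no (.de 44)) .no)) .no .no .no) .no .no) (.br .no (.br (.br .no .no .no (.br .no .no (.br .no .no .no (.br .no .no (.de 45) .no)) .no)) .no .no .no) (.de 45) .no)) .no .no (.br .no .no (.de 44) .no)) .no .no) .no (.br (.br .no .no .no (.br .no .no (.de 44) .no)) (.de 42) .no .no) .no) .no)) .no .no (.br .no .no (.de 34) .no)) .no (.sw 0 1 [23,24])) .no)) .no .no) .no (.sw 0 1 [14,15]) .no) .no .no) .no) .no .no .no)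 .no .no) .no))) .no .no .no)) .no))

theorem P1_3 : R.S 12 4960836 :=
  R.piece L hL (.br .no .no (.br .no (.br (.br .no (.br .no .no .no (.br .no .no (.br (.br .no .no .no (.de 20)) .no .no (.br (.br .no .no .no (.br .no .no (.br (.br .no (.br (.br .no (.br .no .no (.br .no (.sy 25 210 6) .no .no) .no) (.br .no (.de 27) .no .no) .no) .no .no .no) .no .no) .no .no .no) c1_3_0)) .no .no .no)) .no)) .no .no) (.br c1_3_4 .no .no .no) .no .no) .no .no) .no) 12 4960836 16777216 (by norm_num) (by norm_num) (by norm_num) (by decide +kernel)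

def c1_4_0 : Cert := (.br (.br .no (.br (.br .no .no (.sw 1 3 [11,18]) (.br .no (.br .no .no (.br .no (.br .no .no (.br .no .no .no (.br .no (.br (.sw 2 3 [25]) .no (.br (.de 34) .no .no (.br (.br (.br .no (.br (.br .no .no .no (.br (.br .no (.br .no .no (.br .no .no (.br .no .no .no (.br .no .no (.de 45) .no)) .no) (.de 47)) (.br .no .no .no (.br .no .no (.br .no .no .no (.br .no .no (.de 45) .no)) .no)) .no) (.sw 0 2 [32]) .no .no)) .no (.br (.br .no (.br .no .no (.br .no .no .no (.br .no .no (.br .no .no .no (.de 44)) .no)) .no) .no .no) .no .no (.de 44)) .no) .no .no) .no .no (.br (.br .no .no (.br (.br .no (.br .no .no (.de 41) .no) .no .no) .no .no (.de 44)) .no) (.br (.br .no .no .no (.br (.br .no (.br .no .no (.br .no .no (.br .no .no .no (.br .no .no (.de 45) .no)) .no) .no) (.de 41) .no) (.sw 0 2 [32]) .no .no)) .no (.br (.br .no (.br .no .no (.de 41) .no) .no .no) .no .no (.de 44)) .no) .no .no)) .no .no .no)) .no) (.br (.br .no .no .no (.br (.br (.br .no (.br (.br .no (.sw 2 3 [25,29,30,31])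 .no (.sw 1 2 [31])) .no .no .no) .no .no) .no .no (.br (.br .no (.br .no .no .no (.br .no (.br .no .no (.de 41) .no) (.de 45) .no)) .no .no) (.br (.br .no (.br .no .no (.br .no (.br .no .no (.br .no .no (.br .no .no .no (.br .no .no (.br .no .no .no (.br (.br .no .no .no (.br .no (.sw 0 3 [35]) .no .no)) .no .no .no)) .no)) .no) .no) .no .no) .no) .no (.sw 1 2 [31])) .no .no .no) .no .no)) .no .no .no)) .no .no .no) .no)) (.br .no .no (.br .no (.br (.sw 2 3 [25]) .no (.br (.de 34) .no .no (.br (.br (.br .no (.br (.sw 2 3 [29,30]) .no .no (.br (.br .no (.br .no .no (.br .no .no .no (.br .no .no (.de 43) .no)) .no) .no .no) .no .no .no)) .no .no) .no (.br (.br .no .no .no (.br (.br .no (.br .no .no (.br .no .no .no (.br .no (.de 48) .no .no)) .no) .no .no) .no .no .no)) (.de 42) .no .no) .no) .no .no .no)) .no) .no .no) .no)) (.br .no .no .no (.br .no .no (.br .no (.br (.sw 2 3 [25]) .no (.br (.br .no (.br (.br .no (.br (.br .no .no .no (.br .no (.br .no .no (.br .no .no .no (.br .no .no (.br .no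 .no .no (.br .no .no (.de 45) .no)) .no)) (.de 41)) .no .no)) .no .no (.br (.br .no (.sw 2 3 [25,32]) .no (.br .no .no (.br .no .no .no (.br .no .no (.de 43) .no)) .no)) .no .no .no)) .no .no) (.br (.br .no .no .no (.br (.br .no (.sw 2 3 [25,32]) .no (.br .no .no (.br (.br .no .no (.de 43) .no) .no .no (.br .no .no (.de 43) .no)) .no)) .no .no .no)) .no .no .no) .no .no) .no .no) .no .no (.br (.br (.br .no (.br (.br .no .no .no (.br (.br .no (.br .no .no .no (.de 47)) (.br .no (.br .no .no (.de 48) .no) .no (.sw 1 2 [28])) .no) (.sw 0 2 [32]) .no .no)) .no .no (.br (.br .no (.br .no .no (.br .no (.br .no .no (.de 43) .no) .no (.sw 1 2 [28])) .no) .no .no) .no .no .no)) .no .no) (.br (.br .no .no .no (.br (.br .no (.br .no .no (.br .no .no .no (.br .no .no (.de 43) .no)) .no) .no .no) .no .no .no)) .no .no .no) .no .no) (.br (.br .no (.br (.br .no .no .no (.br (.br .no .no (.br .no .no .no (.sw 0 1 [34])) .no) (.sw 0 2 [32]) .no .no)) .no .no (.br (.br .no (.br (.br .no .no .no (.br .no .no (.de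 43) .no)) .no (.sw 0 3 [33]) .no) .no .no) .no .no .no)) .no .no) (.br (.br .no .no .no (.br (.br .no (.br (.br .no .no .no (.br .no .no (.de 43) .no)) .no (.sw 0 3 [33]) .no) .no .no) .no .no .no)) .no .no .no) .no .no) .no .no)) .no) .no .no) .no)) .no) .no) (.br .no (.br .no (.br .no .no (.br .no .no .no (.br .no (.br (.br .no .no .no (.br (.sw 2 3 [21]) .no (.br (.br .no (.br (.br .no .no (.br .no (.br (.br .no .no .no (.br .no .no (.br .no .no .no (.de 44)) .no)) .no .no .no) .no .no) (.br .no (.br (.br .no .no .no (.br .no .no (.br .no .no .no (.br .no .no (.de 45) .no)) .no)) .no .no .no) (.de 45) .no)) .no (.br .no .no .no (.de 44)) .no) .no .no) .no .no (.br (.br .no .no (.br .no .no .no (.de 44)) .no) (.br (.br .no .no (.br .no (.br (.de 41) .no .no .no) .no .no) (.br .no (.br (.de 41) .no .no .no) (.de 45) .no)) .no (.br .no .no .no (.de 44)) .no) .no .no)) .no)) .no .no .no) (.br (.sw 1 3 [11,18,25]) (.br (.br .no .no (.br (.br .no (.br (.br .no .no .no (.br .no .no (.de 45) .no)) .no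 .no .no) .no .no) .no .no (.br (.br .no (.br (.br .no .no (.sw 1 3 [11,18,25,32]) (.br .no (.br (.sw 2 3 [21,34]) .no .no .no) .no .no)) .no .no (.br .no .no (.de 45) .no)) .no .no) (.br (.br .no .no .no (.br .no .no (.de 45) .no)) .no .no .no) .no .no)) .no) .no .no (.br (.sw 2 3 [21]) .no (.br (.br .no (.br (.br .no .no .no (.br (.br .no (.br .no .no .no (.de 47)) .no .no) .no (.de 45) .no)) .no .no .no) .no .no) .no .no (.br (.br .no (.br (.br .no .no (.br (.de 41) (.sw 0 3 [33]) .no .no) .no) .no .no (.br (.br .no (.br (.br .no (.br .no .no (.de 44) (.br .no .no (.de 45) .no)) (.br .no .no .no (.br .no .no (.de 45) .no)) .no) .no .no .no) .no .no) .no (.de 45) .no)) .no .no) (.br (.br .no .no .no (.br (.br .no (.br (.br .no .no (.br .no .no .no (.br .no .no (.de 45) .no)) .no) .no .no .no) .no .no) .no (.de 45) .no)) .no .no .no) .no .no)) .no)) .no .no) .no)) (.br .no .no (.br .no (.br (.br .no .no .no (.br (.sw 2 3 [21]) .no (.br (.br .no (.br (.sw 2 3 [29,30]) .no .no (.br .no .no (.de 44)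 .no)) .no .no) .no (.br (.br .no .no .no (.br .no .no (.de 44) .no)) (.de 42) .no .no) .no) .no)) .no .no .no) .no .no) .no)) (.br .no .no .no (.br .no .no (.br .no (.br (.br .no .no .no (.br (.sw 1 2 [26,27]) .no .no .no)) .no .no .no) .no .no) .no)) .no) .no .no) .no)) .no .no (.br .no .no (.br .no (.br .no .no (.br .no (.br .no .no (.br (.br .no (.br (.br .no .no .no (.br (.br (.br .no (.br .no .no (.sw 0 3 [24,30]) (.br .no .no (.de 44) .no)) .no (.br .no .no (.de 43) .no)) .no .no (.br .no (.br .no .no (.sw 0 3 [24,30]) (.br .no .no (.de 44) .no)) .no .no)) .no .no .no)) .no .no (.br (.de 34) .no .no .no)) .no .no) .no .no .no) (.br (.br .no (.br (.br .no .no .no (.br (.br (.br .no (.sw 2 3 [29]) (.br .no .no .no (.de 43)) .no) .no (.br .no (.de 42) .no .no) .no) .no .no .no)) .no .no (.br (.de 34) .no .no .no)) .no .no) .no (.br (.br .no .no .no (.br (.de 34) .no .no .no)) (.sw 0 3 [24]) .no .no) .no)) (.br .no .no .no (.br (.br .no (.br (.br .no .no .no (.br (.br (.br .no (.br .no .no (.br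 .no .no .no (.de 44)) (.br .no .no (.de 44) .no)) (.br .no .no .no (.de 43)) .no) (.br .no .no (.de 42) .no) .no .no) (.br (.br .no (.br .no .no (.br .no .no .no (.de 44)) (.br .no .no (.de 44) .no)) (.br .no .no .no (.de 43)) .no) (.br .no .no (.de 42) .no) .no .no) .no .no)) .no .no (.br (.br .no (.br (.br .no (.br .no .no (.br (.br .no (.br .no .no (.br .no .no .no (.br .no .no (.br .no .no .no (.de 44)) .no)) (.de 41)) (.br .no .no .no (.de 41)) .no) .no .no .no) (.br (.br .no (.br .no .no (.br .no .no .no (.br .no .no (.de 43) .no)) (.de 41)) (.br .no .no .no (.de 41)) .no) .no (.de 44) .no)) (.br .no .no .no (.de 43)) .no) (.br .no .no (.de 42) .no) .no .no) .no .no) .no .no .no)) .no .no) .no (.br (.br .no .no .no (.br (.br .no (.br (.br .no (.br .no .no .no (.br .no (.br .no .no (.br .no .no .no (.de 41)) .no) (.de 44) .no)) .no .no) (.br (.br .no (.br .no .no (.br .no (.br .no .no (.sw 0 3 [24,31,32,33]) (.br (.br .no .no (.de 48) .no) .no .no .no)) .no .no) .no) .no (.br .no (.br .no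 .no (.br .no .no .no (.br (.br .no .no (.de 43) .no) .no .no .no)) .no) (.de 44) .no)) .no .no .no) .no .no) .no .no) .no .no .no)) (.sw 0 3 [24]) .no .no) .no)) .no) .no) .no .no) .no)) .no .no) .no (.br (.br .no .no .no (.br .no .no (.br .no (.br .no .no (.br (.br .no (.br .no .no (.br (.sw 1 3 [11,18,24]) (.br (.br .no .no .no (.br .no (.br .no .no (.br (.br .no .no .no (.br .no .no (.de 44) .no)) .no .no (.br (.br .no .no (.sw 1 3 [11,18,24,31]) (.br .no (.br (.br .no .no .no (.br .no (.de 48) .no .no)) .no (.br .no .no .no (.br .no (.de 48) .no .no)) .no) (.de 45) .no)) .no .no .no)) (.br (.br .no .no .no (.br .no .no (.de 44) .no)) .no .no .no)) .no .no)) .no .no (.br (.br .no (.br .no .no (.br (.br .no .no .no (.br (.br .no (.br .no .no (.br .no .no .no (.br .no (.de 48) .no .no)) (.de 41)) (.br .no .no .no (.de 41)) .no) .no (.de 44) .no)) .no .no (.br (.br .no .no (.br .no (.br .no .no (.sw 0 3 [32,33]) (.de 41)) .no .no) .no) .no .no .no)) (.br (.br .no .no .no (.br (.br .no (.br .no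 .no (.de 41) (.br .no .no (.br .no (.de 48) (.de 43) .no) .no)) (.br .no .no .no (.br .no .no (.sy 35 45 6) .no)) .no) .no (.de 44) .no)) .no .no .no)) .no .no) .no .no .no)) .no .no) .no) .no (.br .no (.br (.br .no .no .no (.br (.br .no (.br .no (.br (.br .no .no (.br .no (.br .no .no (.br .no .no .no (.br .no .no (.de 48) .no)) .no) .no .no) (.br .no (.br .no .no (.br .no .no .no (.br .no .no (.de 48) .no)) .no) (.de 44) .no)) .no (.de 42) .no) (.br (.br .no .no (.sw 1 3 [11,18,24,29,30]) (.br .no (.br .no .no (.br .no .no .no (.de 41)) .no) (.de 44) .no)) .no .no .no) .no) .no .no) .no .no .no)) .no .no .no) (.br (.sw 1 3 [11,18,24]) (.br (.br .no .no .no (.br .no (.br .no (.br (.br .no .no .no (.br .no .no (.de 44) .no)) .no .no .no) (.br (.sw 1 3 [29]) (.de 42) .no .no) .no) .no .no)) .no .no (.br (.br .no (.br .no (.br (.br .no .no .no (.br (.br .no (.br .no .no (.br .no .no .no (.br .no .no (.de 43) .no)) (.br .no .no (.de 48) .no)) (.br .no .no .no (.br .no .no (.de 48) .no)) .no) .no (.de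 44) .no)) .no .no .no) (.br (.sw 1 3 [29]) (.de 42) .no .no) .no) .no .no) .no .no .no)) .no .no) .no)) (.br .no .no .no (.br .no (.br (.br .no .no .no (.br (.de 34) .no .no .no)) .no .no .no) (.br (.sw 1 3 [11,18,24]) (.br (.br .no .no .no (.br (.br (.br .no (.br (.br .no .no (.sw 1 3 [11,18,24,31]) (.br .no (.br .no .no (.br .no .no .no (.br .no .no (.br .no .no .no (.br .no .no (.de 45) .no)) .no)) .no) (.de 45) .no)) .no .no (.br .no .no (.de 44) .no)) .no .no) .no (.br (.br .no .no .no (.br .no .no (.de 44) .no)) (.de 42) .no .no) .no) .no .no .no)) .no .no (.br (.de 34) .no .no .no)) .no .no) .no)) .no .no) .no) .no .no) .no)) (.br (.br .no .no (.sw 1 3 [11,18]) (.br .no (.br .no .no (.br (.br .no .no .no (.br .no .no (.br .no (.br (.sw 2 3 [25]) .no (.br (.br .no (.br .no (.br (.br .no .no .no (.br (.br .no (.sw 2 3 [25,32]) .no (.br .no .no (.br .no .no .no (.sw 0 2 [22,28])) .no)) .no .no .no)) .no .no .no) (.br (.br .no .no .no (.br (.br .no (.sw 2 3 [25,32]) .no (.br .no .no (.br .no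 .no .no (.sy 39 30 6)) .no)) .no .no .no)) (.de 42) .no .no) .no) .no .no) .no .no (.br .no (.br .no (.br (.br .no .no .no (.br (.br .no (.br (.br .no .no (.de 48) (.sw 0 2 [22,28])) .no (.sw 0 3 [33]) .no) .no .no) .no .no .no)) .no .no .no) (.br (.br .no .no .no (.br (.br .no (.br (.br .no .no .no (.br .no (.de 48) .no .no)) .no (.sw 0 3 [33]) .no) .no .no) .no .no .no)) (.de 42) .no .no) .no) .no .no)) .no) .no .no) .no)) (.br (.br .no .no (.br .no (.br (.sw 2 3 [25]) .no (.br (.de 34) .no .no (.br (.br .no .no (.br .no (.de 42) .no (.br (.br .no .no .no (.br (.br .no (.br .no .no .no (.de 47)) (.br .no .no .no (.sy 36 45 6)) .no) (.sw 0 2 [32]) .no .no)) .no .no .no)) (.br .no (.br (.br .no .no .no (.br (.br .no (.br .no .no (.br .no .no (.br .no .no .no (.br .no .no (.de 45) .no)) .no) .no) (.de 41) .no) (.sw 0 2 [32]) .no .no)) .no .no (.br (.br .no (.br .no .no (.de 41) .no) .no .no) .no .no .no)) .no .no)) .no .no .no)) .no) .no .no) (.br .no (.br (.sw 2 3 [25]) .no (.br (.de 34) .no .no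 (.br (.br .no .no (.br .no (.de 42) .no .no) (.br .no (.sw 0 2 [22,29]) (.br (.br .no .no .no (.br (.br .no (.br .no .no (.br .no (.de 48) .no .no) .no) (.de 41) .no) (.sw 0 2 [32]) .no .no)) .no .no .no) .no)) .no .no .no)) .no) (.br (.br .no .no .no (.br (.br .no .no (.br .no (.de 42) .no .no) (.br .no (.sw 0 2 [22,29]) (.br (.br .no (.br .no .no (.br .no (.br .no .no (.br .no (.de 48) .no .no) .no) .no .no) .no) .no (.sw 1 2 [31])) (.br .no .no .no (.br .no (.br .no .no (.de 41) .no) (.de 45) .no)) .no .no) .no)) .no .no .no)) .no .no .no) .no)) .no .no (.sw 0 2 [22])) .no .no) .no) (.br .no (.br (.br .no .no .no (.br .no .no (.br .no (.br (.br .no .no .no (.br .no .no (.br .no (.br (.br .no .no .no (.br .no .no (.de 44) .no)) .no .no .no) (.br (.br .no .no .no (.br .no .no (.de 44) .no)) (.de 42) .no .no) .no) .no)) .no .no .no) .no .no) .no)) (.br (.br .no .no (.br .no (.br (.br .no .no .no (.br (.sw 1 2 [26,27]) .no (.br .no .no (.br .no (.de 42) .no (.br (.br .no .no (.sw 1 3 [11,18,25,31])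 (.br .no (.br (.br .no .no .no (.br .no (.de 48) .no .no)) .no .no .no) (.de 45) .no)) .no .no .no)) (.br .no (.br (.br .no .no (.sw 1 3 [11,18,25,31]) (.br .no (.br (.de 41) .no .no .no) (.de 45) .no)) .no .no (.br .no .no (.de 44) .no)) .no .no)) .no)) .no .no .no) .no .no) (.br .no (.br (.br .no .no .no (.br (.sw 1 2 [26,27]) .no (.br .no .no (.br .no (.de 42) .no .no) (.br .no (.sw 0 2 [22,29]) (.br (.br .no .no (.br .no (.br (.de 41) .no .no .no) .no .no) (.br .no (.br (.de 41) .no .no .no) (.de 45) .no)) .no .no .no) .no)) .no)) .no .no .no) (.br (.sw 1 3 [11,18,25]) (.br (.br .no .no (.br .no .no (.br .no (.de 42) .no .no) (.br .no (.sw 0 2 [22,29]) (.br (.br .no .no .no (.br .no .no (.de 45) .no)) (.br (.br .no .no (.sw 1 3 [11,18,25,32]) (.br .no (.br (.br .no (.br .no .no .no (.sw 0 2 [22,29,36])) .no .no) .no .no .no) .no .no)) .no .no (.br .no .no (.de 45) .no)) .no .no) .no)) .no) .no .no (.br (.br .no .no (.br .no (.de 42) .no .no) (.br .no (.sw 0 2 [22,29]) (.br (.br .no .no .no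 (.br (.sw 1 2 [26,27,31,32]) .no (.de 45) .no)) (.br (.br .no .no (.br .no (.br .no .no (.br .no (.de 48) .no .no) .no) .no .no) .no) .no .no (.br (.br .no (.br .no .no (.br .no (.de 48) .no .no) .no) (.de 41) .no) .no (.de 45) .no)) .no .no) .no)) .no (.br .no .no (.br .no (.de 42) .no .no) (.br .no (.sw 0 2 [22,29]) (.br (.br .no .no .no (.br (.br .no (.br (.br .no (.br .no .no .no (.br .no .no (.de 45) .no)) .no .no) .no .no .no) .no .no) .no (.de 45) .no)) (.br (.br .no .no (.br (.de 41) (.sw 0 3 [33]) .no .no) .no) .no .no (.br (.br .no (.br (.br .no (.br .no .no .no (.sw 0 2 [22,29,36])) .no .no) .no .no .no) .no .no) .no (.de 45) .no)) .no .no) .no)) .no)) .no .no) .no)) .no .no (.sw 0 2 [22])) .no .no) .no .no) .no)) .no .no (.br .no .no (.br .no (.br .no .no (.br (.br .no .no .no (.br (.br .no (.br (.br .no .no .no (.br .no (.br .no (.br .no .no (.de 42) .no) (.br .no (.de 42) .no .no) .no) .no .no)) .no .no (.br (.br .no (.br .no (.br .no .no (.de 42) .no) (.br .no (.de 42) .no .no) .no)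 .no .no) .no .no .no)) .no .no) .no (.sw 0 1 [23]) .no)) (.br (.br .no .no (.br (.br .no .no .no (.br (.de 34) .no .no .no)) (.sw 0 3 [24]) .no .no) .no) .no .no (.sw 0 2 [22])) .no .no) .no) .no .no) .no)) .no .no) .no)

theorem P1_4 : R.S 15 114012740 :=
  R.piece L hL (.br .no (.br .no .no .no (.br .no (.br (.br .no .no .no (.de 20)) .no .no .no) (.br (.sw 1 3 [11]) (.br (.br .no .no .no (.br .no .no (.br (.br .no (.br (.br .no .no (.sw 1 3 [11,18]) (.br .no (.de 27) (.br .no (.br .no (.br .no .no (.br .no .no .no (.br .no (.br (.br .no .no .no (.br (.br (.br .no (.br (.br .no .no (.br .no (.br .no .no (.br .no .no .no (.br .no .no (.br .no .no .no (.de 44)) .no)) .no) .no .no) (.br .no (.br .no .no (.br .no .no .no (.br .no .no (.br .no .no .no (.br .no .no (.de 45) .no)) .no)) .no) (.de 45) .no)) .no (.br .no .no .no (.de 44)) .no) .no .no) .no .no (.br (.br .no .no (.br .no .no .no (.de 44)) .no) (.br (.br .no .no (.br .no (.br .no .no (.de 41) .no) .no .no) (.br .no (.br .no .no (.de 41)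 .no) (.de 45) .no)) .no (.br .no .no .no (.de 44)) .no) .no .no)) .no .no .no)) .no .no .no) (.br (.sw 1 3 [11,18,25]) (.br (.br .no .no .no (.br (.br .no (.br (.br .no .no .no (.br .no .no (.de 45) .no)) .no .no .no) .no .no) .no .no (.br (.br .no (.br (.br .no .no (.sw 1 3 [11,18,25,32]) (.br .no (.br (.br .no (.br .no .no (.br .no .no .no (.br .no .no (.br (.sw 2 3 [39,43,44,45]) .no .no .no) .no)) (.br .no .no (.de 45) .no)) (.br .no .no .no (.br .no .no (.de 45) .no)) .no) .no (.br .no (.de 48) (.br .no .no .no (.br .no .no (.de 45) .no)) .no) .no) (.br (.br .no (.br .no .no (.br .no .no .no (.br .no .no (.br (.sw 1 3 [11,18,25,32,39]) .no .no .no) .no)) (.br .no .no (.de 45) .no)) (.br .no .no .no (.br .no .no (.de 45) .no)) .no) .no .no .no) .no)) .no .no (.br .no .no (.de 45) .no)) .no .no) (.br (.br .no .no .no (.br .no .no (.de 45) .no)) .no .no .no) .no .no))) .no .no (.br (.br (.br .no (.br (.br .no .no .no (.br (.br .no (.br .no .no (.br .no .no (.br .no .no .no (.br .no .no (.de 45)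 .no)) .no) (.de 47)) (.br .no .no .no (.br .no .no (.br .no .no .no (.br .no .no (.de 45) .no)) .no)) .no) .no (.de 45) .no)) .no .no .no) .no .no) .no .no (.br (.br .no (.br (.br .no .no (.br .no (.br .no .no (.sw 0 3 [33,34]) .no) .no .no) .no) .no .no (.br (.br .no (.br .no .no (.br .no (.de 48) (.br .no .no .no (.br .no .no (.de 45) .no)) .no) .no) (.de 41) .no) .no (.de 45) .no)) .no .no) (.br (.br .no .no .no (.br (.br .no (.br .no .no (.br .no .no (.br .no .no .no (.br .no .no (.de 45) .no)) .no) .no) (.de 41) .no) .no (.de 45) .no)) .no .no .no) .no .no)) .no .no .no)) .no .no) .no)) (.br .no .no (.br .no (.br (.br .no .no .no (.br (.br (.br .no (.br (.sw 2 3 [29,30]) .no .no (.br .no .no (.de 44) .no)) .no .no) .no (.br (.br .no .no .no (.br .no .no (.de 44) .no)) (.de 42) .no .no) .no) .no .no .no)) .no .no .no) .no .no) .no)) .no (.br .no .no (.br .no .no .no (.br .no (.br (.br .no .no .no (.br (.br (.br .no (.br (.br .no .no (.br .no (.br .no .no (.br .no (.sy 41 225 6) .no .no) .no)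 .no .no) (.br .no (.br .no .no (.br .no (.br .no .no (.de 48) .no) .no .no) .no) (.de 45) .no)) .no (.br .no .no .no (.de 44)) .no) .no .no) (.br (.br .no .no (.br .no .no .no (.de 44)) .no) .no .no .no) .no .no) .no .no .no)) .no .no .no) (.br (.sw 1 3 [11,18,25]) (.br (.de 34) .no .no (.br (.br (.br .no (.br (.br .no .no .no (.br (.br .no (.br .no .no (.sw 1 3 [28]) .no) (.br .no (.br .no .no (.de 48) .no) .no .no) .no) .no (.de 45) .no)) .no .no .no) .no .no) (.br (.br .no (.br (.br .no .no (.br .no (.br .no .no (.de 48) .no) .no .no) .no) .no .no (.br (.br .no (.br .no .no (.de 48) .no) (.de 41) .no) .no (.de 45) .no)) .no .no) .no .no .no) .no .no) .no .no .no)) .no .no) .no)) .no)) .no .no) .no)) .no .no (.br .no .no (.br .no (.de 27) .no .no) .no)) .no .no) .no .no .no) c1_4_0)) .no .no (.de 20)) .no .no) .no)) .no .no) 15 114012740 1073741824 (by norm_num) (by norm_num) (by norm_num) (by decide +kernel)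

def c1_5_0 : Cert := (.br .no .no (.br .no .no .no (.br (.br .no .no .no (.br .no .no (.br .no (.br (.br (.br .no (.br .no .no (.br (.sw 1 3 [11,18,24]) (.br (.br .no .no (.br .no (.br .no .no (.br (.br .no .no .no (.br .no .no (.de 44) .no)) .no .no (.br (.br .no .no (.sw 1 3 [11,18,24,31]) (.br .no (.br (.br .no .no .no (.br .no (.de 48) .no .no)) .no .no (.de 41)) .no .no)) .no .no .no)) (.br (.br .no .no .no (.br .no .no (.de 44) .no)) .no .no .no)) .no (.br .no .no (.br (.br .no .no .no (.br .no .no (.de 44) .no)) .no .no (.br (.br .no .no (.sw 1 3 [11,18,24,31]) (.br .no (.br (.br .no (.de 48) .no .no) .no .no .no) .no .no)) .no .no .no)) (.br (.br .no .no .no (.br .no .no (.de 44) .no)) .no .no .no))) (.br .no (.br .no .no (.br (.br .no .no .no (.br .no .no (.de 44) .no)) .no .no (.br (.br .no .no (.sw 1 3 [11,18,24,31]) (.br .no (.br (.sw 2 3 [33]) .no (.br .no .no .no (.br .no (.de 48) .no .no)) .no) (.de 45) .no)) .no .no .no)) (.br (.br .no .no .no (.br .no .no (.de 44) .no)) .no .no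 .no)) .no .no)) .no .no (.br .no .no (.br .no (.br .no .no (.br (.br .no .no .no (.br (.br .no (.br (.br .no .no .no (.br .no (.de 48) .no .no)) .no .no (.de 41)) .no .no) .no (.de 44) .no)) .no .no (.br (.br .no .no (.br (.br .no .no .no (.de 41)) (.sw 0 3 [32]) .no .no) .no) .no .no .no)) (.br (.br .no .no .no (.br (.br .no (.br (.br .no .no (.br .no (.de 48) (.de 43) .no) .no) .no .no (.br .no .no (.br .no (.de 48) (.de 43) .no) .no)) .no .no) .no (.de 44) .no)) .no .no .no)) .no (.br .no .no (.br (.br .no .no .no (.br (.br .no (.br (.br .no (.de 48) .no .no) .no .no .no) .no .no) .no (.de 44) .no)) .no .no (.br (.br .no .no (.br (.br .no (.de 41) .no .no) (.sw 0 3 [32]) .no .no) .no) .no .no .no)) (.br (.br .no .no .no (.br (.br .no (.br (.br .no (.sy 38 180 6) (.sw 1 3 [34]) .no) .no .no .no) .no .no) .no (.de 44) .no)) .no .no .no))) .no)) .no .no) .no) (.br .no (.br (.br .no .no .no (.br .no .no (.br .no (.br .no (.br (.br .no .no (.sw 1 3 [11,18,24,30]) (.br .no (.br (.br .no .no .no (.de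 46)) .no .no .no) (.de 44) .no)) .no .no (.br .no .no (.de 43) .no)) .no (.br (.br .no .no (.sw 1 3 [11,18,24,30]) (.sw 1 2 [29,30])) .no .no .no)) .no (.br .no (.br (.br .no .no (.sw 1 3 [11,18,24,30]) (.br .no (.br (.br .no (.br .no .no (.de 48) .no) .no .no) .no .no .no) (.de 44) .no)) .no .no (.br .no .no (.de 43) .no)) .no (.br (.br .no .no (.sw 1 3 [11,18,24,30]) (.sw 1 2 [29,30])) .no .no .no))) .no)) .no .no .no) .no .no) .no) (.br .no .no (.br .no (.br (.br .no .no .no (.br .no .no (.br .no .no .no (.br (.br .no .no .no (.br .no .no (.de 43) .no)) .no .no (.br (.br .no .no (.sw 1 3 [11,18,24,30]) (.br .no (.br (.br .no (.br (.sy 41 120 6) .no (.sw 0 1 [28]) .no) .no .no) .no .no .no) (.de 44) .no)) .no .no .no))) .no)) .no .no .no) .no .no) .no) .no .no) .no .no .no) .no .no) .no)) .no .no .no)) (.br .no .no (.br (.br .no .no .no (.br .no .no (.br .no (.br (.br (.br .no (.br .no .no (.br (.sw 1 3 [11,18,24]) (.br (.br .no .no (.br .no (.sw 2 3 [21,22]) .no .no) (.br .no (.sw 2 3 [21,22])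 (.br .no .no (.br (.br .no .no .no (.br .no .no (.de 44) .no)) .no .no (.br (.br .no .no (.sw 1 3 [11,18,24,31]) (.br .no (.br (.br .no (.de 48) .no (.sw 1 2 [34])) .no .no .no) (.de 45) .no)) .no .no .no)) (.br (.br .no .no .no (.br .no .no (.de 44) .no)) .no .no .no)) .no)) .no .no (.br .no .no (.br .no (.sw 2 3 [21,22]) .no .no) .no)) .no .no) .no) .no (.br .no (.br (.br .no .no .no (.br .no .no (.br .no (.br .no (.br (.sw 2 3 [21,22,29]) .no (.de 42) .no) (.br (.br .no .no (.sw 1 3 [11,18,24,29,30]) (.br .no (.br (.br .no .no .no (.de 41)) .no .no .no) (.de 44) .no)) .no .no .no) .no) .no .no) .no)) .no .no .no) (.br (.sw 1 3 [11,18,24]) (.br (.br .no .no (.br .no (.br .no (.br (.br .no .no .no (.br .no .no (.de 44) .no)) .no .no .no) (.br (.sw 1 3 [29]) (.de 42) .no .no) .no) .no .no) (.br .no (.br .no (.br (.br .no .no .no (.br .no .no (.de 44) .no)) .no .no .no) (.br (.sw 1 3 [29]) (.de 42) .no .no) .no) (.br .no (.br (.br .no .no .no (.br .no .no (.de 44) .no)) .no .no .no) (.br (.sw 1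 3 [29]) (.de 42) .no .no) .no) .no)) .no .no (.br .no .no (.br .no (.br .no (.br (.br .no .no .no (.br (.br .no (.br (.br .no .no (.de 48) (.br .no .no (.de 43) .no)) .no .no (.br .no .no (.de 48) .no)) .no .no) .no (.de 44) .no)) .no .no .no) (.br (.sw 1 3 [29]) (.de 42) .no .no) .no) .no .no) .no)) .no .no) .no)) (.br .no .no .no (.br .no (.br (.br .no .no .no (.br .no .no (.de 34) .no)) .no .no .no) (.br (.sw 1 3 [11,18,24]) (.br (.br .no .no (.de 34) (.br .no .no (.br (.br .no (.br (.br .no .no (.sw 1 3 [11,18,24,31]) (.br .no (.br (.br .no .no .no (.br .no .no (.br .no .no .no (.br .no .no (.de 45) .no)) .no)) .no .no .no) (.de 45) .no)) .no .no (.br .no .no (.de 44) .no)) .no .no) .no (.br (.br .no .no .no (.br .no .no (.de 44) .no)) (.de 42) .no .no) .no) .no)) .no .no (.br .no .no (.de 34) .no)) .no .no) .no)) .no .no) .no (.br (.br .no (.br .no .no (.br (.sw 1 3 [11,18,24]) (.br (.br .no .no .no (.br .no (.sw 0 2 [27]) .no .no)) .no .no (.br (.br .no (.br .no .no (.br (.br .no .no .no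 (.br (.br .no (.br .no .no (.br .no .no .no (.br .no (.de 48) .no .no)) (.de 41)) (.br .no .no .no (.de 41)) .no) .no (.de 44) .no)) .no .no (.br (.br .no .no (.br .no (.br .no .no (.sw 0 3 [32,33]) (.de 41)) .no .no) .no) .no .no .no)) (.br (.br .no .no .no (.br (.br .no (.br .no .no (.de 41) (.sw 0 2 [27,33])) (.br .no .no .no (.br .no .no (.sy 35 45 6) .no)) .no) .no (.de 44) .no)) .no .no .no)) .no .no) .no .no .no)) .no .no) .no) .no (.br .no (.br (.br .no .no .no (.br (.br .no (.br .no (.br (.br .no .no (.br .no (.br .no .no (.br .no .no .no (.br .no .no (.de 48) .no)) .no) .no .no) (.br .no (.br .no .no (.br .no .no .no (.br .no .no (.de 48) .no)) .no) (.de 44) .no)) .no (.de 42) .no) (.br (.br .no .no (.sw 1 3 [11,18,24,29,30]) (.br .no (.br .no .no (.br .no .no .no (.de 41)) .no) (.de 44) .no)) .no .no .no) .no) .no .no) .no .no .no)) .no .no .no) (.br (.sw 1 3 [11,18,24]) (.br (.br .no .no .no (.br .no (.sw 0 2 [27]) .no .no)) .no .no (.br (.br .no (.br .no (.br (.br .no .no .no (.br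 (.br .no (.br .no .no (.br .no .no .no (.br .no .no (.de 43) .no)) (.sw 0 2 [27,33])) (.br .no .no .no (.br .no .no (.de 48) .no)) .no) .no (.de 44) .no)) .no .no .no) (.br (.sw 1 3 [29]) (.de 42) .no .no) .no) .no .no) .no .no .no)) .no .no) .no)) (.br .no .no .no (.br .no (.br (.br .no .no .no (.br (.de 34) .no .no .no)) .no .no .no) (.br (.sw 1 3 [11,18,24]) (.br (.br .no .no .no (.br (.br (.br .no (.br (.br .no .no (.sw 1 3 [11,18,24,31]) (.br .no (.br .no .no (.br .no .no .no (.br .no .no (.br .no .no .no (.br .no .no (.de 45) .no)) .no)) .no) (.de 45) .no)) .no .no (.br .no .no (.de 44) .no)) .no .no) .no (.br (.br .no .no .no (.br .no .no (.de 44) .no)) (.de 42) .no .no) .no) .no .no .no)) .no .no (.br (.de 34) .no .no .no)) .no .no) .no)) .no .no) .no) .no .no) .no)) .no .no (.br (.br .no .no (.sw 1 3 [11,18]) (.br .no (.br (.br (.br .no (.br .no .no (.br .no (.br (.sw 2 3 [25]) .no (.br .no .no .no (.br .no (.br .no .no (.br (.br .no .no .no (.br (.br .no (.br (.sw 2 3 [25,32,33]) .no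 (.br .no .no .no (.br .no (.de 48) .no .no)) .no) .no .no) .no .no .no)) .no .no (.br (.br .no .no .no (.br (.br .no .no (.br .no .no .no (.sy 36 45 6)) .no) (.sw 0 2 [32]) .no .no)) .no .no .no)) (.br (.br .no .no .no (.br (.br .no (.br (.sw 2 3 [25,32,33]) .no (.de 41) .no) .no .no) .no .no .no)) .no .no .no)) (.br .no .no (.br (.br .no .no .no (.br (.br .no (.br (.br .no (.de 48) .no (.sw 1 2 [34])) .no .no .no) .no .no) .no .no .no)) .no .no (.br (.br .no .no .no (.br (.br .no (.br .no .no .no (.de 47)) .no .no) (.sw 0 2 [32]) .no .no)) .no .no .no)) (.br (.br .no .no .no (.br (.br .no (.br (.br .no (.sy 38 180 6) .no .no) .no .no .no) .no .no) .no .no .no)) .no .no .no)) .no)) .no) .no .no) .no) .no .no) (.br (.br .no (.br .no .no (.br (.br .no .no (.de 34) (.br .no .no (.br .no .no (.br .no .no .no (.br (.br .no (.sw 2 3 [25,31]) .no (.br .no (.br (.br .no .no .no (.br .no (.de 48) .no .no)) .no .no .no) (.de 45) .no)) .no .no .no)) (.br .no .no (.br (.br .no (.sw 2 3 [25,31]) .no (.br .no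 (.br (.de 41) .no .no .no) (.de 45) .no)) .no .no (.de 43)) .no)) .no)) .no .no .no) .no) (.br .no (.br (.sw 2 3 [25]) .no (.br .no .no .no (.br .no .no (.br .no .no (.br .no (.de 42) .no (.br (.br .no .no .no (.br (.br .no (.br (.br .no (.de 48) .no .no) .no .no (.de 47)) .no .no) (.sw 0 2 [32]) .no .no)) .no .no .no)) (.br .no (.br (.br .no .no .no (.br (.br .no (.br (.br .no .no (.br .no .no .no (.br .no .no (.de 45) .no)) .no) .no .no .no) .no .no) (.sw 0 2 [32]) .no .no)) .no .no (.br (.br .no (.br (.de 41) .no .no .no) .no .no) .no .no .no)) .no .no)) .no)) .no) .no .no) .no) .no .no .no) .no .no) .no (.br (.br .no (.br .no .no (.br .no (.br (.sw 2 3 [25]) .no (.br (.br .no (.sy 29 210 6) .no .no) .no .no (.br .no (.sw 0 2 [27]) .no .no)) .no) .no .no) .no) .no .no) (.br (.br .no (.br .no .no (.br (.br .no .no .no (.br (.br .no .no (.br .no .no .no (.br (.br .no (.sw 2 3 [25,31]) .no (.br .no (.br .no .no (.br .no .no .no (.br .no (.de 48) .no .no)) .no) (.de 45) .no)) .no .no .no)) (.br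 .no .no (.br (.br .no (.sw 2 3 [25,31]) .no (.br .no (.br .no .no (.de 41) .no) (.de 45) .no)) .no .no (.de 43)) .no)) .no .no .no)) .no .no .no) .no) (.br .no (.br (.sw 2 3 [25]) .no (.br (.de 34) .no .no (.br (.br .no .no (.br .no (.de 42) .no (.br (.br .no .no .no (.br (.br .no (.br .no .no .no (.de 47)) (.br .no .no .no (.sw 0 1 [28,29,34])) .no) (.sw 0 2 [32]) .no .no)) .no .no .no)) (.br .no (.br (.br .no .no .no (.br (.br .no (.br .no .no (.br .no .no (.br .no .no .no (.br .no .no (.de 45) .no)) .no) .no) (.de 41) .no) (.sw 0 2 [32]) .no .no)) .no .no (.br (.br .no (.br .no .no (.de 41) .no) .no .no) .no .no .no)) .no .no)) .no .no .no)) .no) .no .no) .no) .no .no .no) .no .no) .no) (.br (.br (.br .no (.br .no .no (.br .no (.br (.br .no (.br .no .no (.br .no .no (.br (.br .no .no .no (.br .no .no (.de 44) .no)) .no .no (.br (.br .no .no (.sw 1 3 [11,18,25,31]) (.br .no .no (.de 45) .no)) .no .no .no)) (.br (.br .no .no .no (.br .no .no (.de 44) .no)) .no .no .no)) .no) .no (.sw 1 2 [26]))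 .no .no .no) .no .no) .no) .no .no) (.br (.br .no (.br .no .no (.br (.sw 1 3 [11,18,25]) (.br .no .no .no (.br .no .no (.br .no .no (.br .no .no .no (.br (.br .no .no .no (.br (.sw 1 2 [26,30,31,32]) .no (.de 45) .no)) .no .no .no)) (.br .no .no (.br (.br .no .no .no (.br (.br .no (.br (.br .no (.br .no .no .no (.br .no .no (.de 45) .no)) .no .no) .no .no .no) .no .no) .no (.de 45) .no)) .no .no (.de 43)) .no)) .no)) .no .no) .no) (.br .no (.br (.br .no (.br .no .no (.br .no .no (.br .no (.de 42) .no (.br (.br .no .no (.sw 1 3 [11,18,25,31]) (.sw 1 2 [30,31])) .no .no .no)) (.br .no (.br (.br .no .no (.sw 1 3 [11,18,25,31]) (.br .no .no (.de 45) .no)) .no .no (.br .no .no (.de 44) .no)) .no .no)) .no) .no (.sw 1 2 [26])) .no .no .no) .no .no) .no) .no .no .no) .no .no) .no .no .no) .no)) .no .no .no)) .no))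

def c1_5_1 : Cert := (.br (.br .no .no (.br .no (.br .no .no (.br .no .no .no (.br (.br .no .no (.sw 1 3 [11,16,17,22]) (.br .no (.br (.br .no .no .no (.br (.br .no (.br .no (.br (.sw 2 3 [29]) .no (.de 42) .no) (.br (.br .no .no (.sw 1 3 [11,16,17,22,29,30]) (.br .no (.br .no .no (.br .no .no .no (.de 41)) .no) (.de 44) .no)) .no .no .no) .no) .no .no) (.de 34) .no .no)) .no .no (.br (.br .no (.de 34) .no .no) .no .no .no)) .no .no)) .no .no (.br .no .no (.br .no (.br (.br .no .no .no (.br (.br .no (.br (.br .no .no .no (.br .no .no (.de 43) .no)) (.br (.br .no .no (.br .no (.br .no .no (.br .no .no .no (.br (.br .no .no (.de 48) .no) .no (.de 48) .no)) .no) .no .no) (.br .no (.br .no .no (.br .no .no .no (.br (.br .no .no (.de 43) .no) .no (.de 48) .no)) .no) (.de 44) .no)) .no .no (.br .no .no (.de 43) .no)) .no .no) .no .no) (.br (.br (.br .no .no .no (.br .no .no (.de 43) .no)) (.br (.br .no .no (.br .no (.br (.br .no .no (.de 41) (.de 46)) .no (.br .no .no .no (.br .no .no (.de 48) .no))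 .no) .no .no) (.br .no (.br (.br .no .no (.de 41) (.de 46)) .no (.br .no .no .no (.br .no .no (.de 48) .no)) .no) (.de 44) .no)) .no .no (.br .no .no (.de 43) .no)) .no .no) .no .no .no) .no .no)) .no .no (.br (.br .no (.br (.br (.br .no .no .no (.br (.br .no (.br .no .no (.br .no .no .no (.br .no (.de 47) (.sw 1 3 [11,16,17,22,28]) .no)) (.br .no .no (.br .no (.br .no (.br .no .no (.br .no .no .no (.br .no .no (.br (.br .no .no .no (.br .no .no (.sw 1 3 [11,16,17,22,28,41,47]) .no)) .no .no .no) .no)) .no) (.de 43) .no) .no .no) .no)) (.br .no .no .no (.de 45)) .no) .no (.de 43) .no)) (.br (.br .no .no (.br .no (.br .no .no (.sw 0 3 [31,32]) (.br .no .no (.de 41) .no)) .no .no) .no) .no .no (.br (.br .no (.br .no .no (.br .no .no .no (.br .no .no (.de 48) .no)) (.br .no .no (.de 41) .no)) (.br .no .no .no (.de 45)) .no) .no (.de 43) .no)) .no .no) .no .no .no) .no .no) .no .no .no)) .no (.br (.br .no .no .no (.br (.br .no (.br (.br .no (.br .no .no (.br .no (.br .no .no (.br .no .no .no (.br .no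 .no (.br .no .no (.br .no .no .no (.de 44)) .no) .no)) .no) .no .no) .no) .no .no) (.br (.br .no (.br .no .no (.br .no (.br .no .no (.br (.sy 37 210 6) .no .no .no) (.br (.sy 30 57 11) .no (.de 48) .no)) .no .no) .no) (.sw 1 3 [30]) .no) .no .no .no) .no .no) .no .no) (.br (.br (.br .no (.br .no .no (.br .no (.br (.br .no .no (.br .no (.br .no .no (.de 48) .no) .no .no) (.de 46)) .no (.br .no .no .no (.br .no (.de 47) (.sw 0 1 [33,34]) .no)) .no) .no .no) .no) .no .no) (.br (.br .no (.br .no .no (.br (.br .no .no (.de 41) (.de 46)) .no .no .no) .no) (.sw 1 3 [30]) .no) .no .no .no) .no .no) .no .no .no) .no .no)) .no .no .no)) .no))) .no) .no .no) (.br .no (.br .no .no (.br .no .no .no (.br (.br .no .no (.br .no (.br (.sw 2 3 [24]) .no (.br (.br .no (.de 34) .no .no) .no .no (.br (.br .no (.br .no (.br (.br .no .no .no (.br (.br .no (.br .no .no (.br .no .no .no (.br .no .no (.de 43) .no)) (.br .no .no (.de 48) .no)) (.br .no .no .no (.br .no .no (.de 48) .no)) .no) (.sw 0 2 [31]) .no .no)) .no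 .no (.br (.br .no (.br .no .no (.br .no .no .no (.br .no .no (.de 48) .no)) .no) .no .no) .no .no .no)) .no (.br (.br .no .no .no (.br (.br .no (.br .no .no (.de 41) (.br .no .no (.br .no (.de 48) (.de 43) .no) .no)) (.br .no .no .no (.br .no .no (.sy 35 45 6) .no)) .no) (.sw 0 2 [31]) .no .no)) .no .no .no)) .no .no) (.de 34) .no .no)) .no) .no .no) (.br .no (.br (.sw 2 3 [24]) .no (.br (.br .no (.de 34) .no .no) .no .no (.br (.br .no (.br .no (.br (.sw 2 3 [29]) .no (.de 42) .no) (.br (.br .no .no .no (.br (.br .no (.br .no .no (.br .no .no .no (.br .no (.de 48) .no .no)) (.de 41)) (.br .no .no .no (.de 41)) .no) (.sw 0 2 [31]) .no .no)) .no .no .no) .no) .no .no) (.de 34) .no .no)) .no) (.br (.br .no .no .no (.br (.br .no (.br .no (.br (.br .no (.sw 2 3 [24,29,30]) .no (.sw 1 2 [30])) .no .no .no) (.br (.br .no (.br .no .no (.br .no (.br .no .no (.br .no .no .no (.br .no (.de 48) .no .no)) (.de 41)) .no .no) .no) .no (.sw 1 2 [30])) (.de 42) .no .no) .no) .no .no) (.de 34) .no .no)) .no .no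 .no) .no)) .no .no (.br .no .no (.br .no (.br (.sw 2 3 [24]) .no (.br (.br .no (.br (.br (.br .no .no .no (.br (.br .no (.sw 2 3 [24,31]) .no (.br .no .no (.de 45) .no)) .no .no .no)) (.br (.br .no .no .no (.br .no (.br .no .no (.br .no .no .no (.br .no .no (.de 48) .no)) (.br .no .no (.de 41) .no)) .no .no)) .no .no (.br (.br .no (.sw 2 3 [24,31]) .no (.br .no .no (.de 45) .no)) .no .no .no)) .no .no) .no .no .no) .no .no) .no .no (.br (.br .no (.br (.br .no .no .no (.br (.br .no (.br .no .no (.br .no .no .no (.br .no .no (.br .no (.de 48) (.de 43) .no) .no)) .no) .no .no) .no .no .no)) (.br (.br .no .no .no (.br (.br .no (.br .no .no (.br (.br .no .no (.de 43) .no) .no .no .no) (.br (.br .no .no (.de 43) .no) .no (.de 48) .no)) (.br .no .no .no (.br (.br .no .no (.de 43) .no) .no (.de 48) .no)) .no) (.sw 0 2 [31]) .no .no)) .no .no (.br (.br .no (.br .no .no (.br .no .no .no (.br (.br .no .no (.de 43) .no) .no (.de 48) .no)) .no) .no .no) .no .no .no)) .no .no) .no .no) (.br (.br (.br .no .no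 .no (.br (.br .no (.br (.br .no .no (.br .no (.br .no (.br .no .no (.br .no .no .no (.br .no .no (.br .no .no .no (.de 47)) .no)) .no) (.de 43) .no) .no .no) (.de 46)) .no (.sw 0 3 [32]) .no) .no .no) .no .no .no)) (.br (.br .no .no .no (.br (.br .no .no (.br .no .no .no (.br .no .no (.de 48) .no)) .no) (.sw 0 2 [31]) .no .no)) .no .no (.br (.br .no (.br (.br .no .no (.de 41) (.de 46)) .no (.sw 0 3 [32]) .no) .no .no) .no .no .no)) .no .no) .no .no .no) .no .no)) .no) .no .no) .no))) .no) (.br .no (.br .no .no .no (.br (.br .no .no (.br .no (.br (.br .no .no .no (.br (.sw 1 2 [25,26]) .no (.br .no (.br .no (.br (.br .no .no (.sw 1 3 [11,16,17,22,24,30]) (.br .no (.br (.br .no .no .no (.de 46)) .no .no .no) (.de 44) .no)) .no .no (.br .no .no (.de 43) .no)) .no (.br (.br .no .no (.sw 1 3 [11,16,17,22,24,30]) (.br .no (.br (.br .no .no .no (.de 46)) .no .no .no) (.de 44) .no)) .no .no .no)) .no .no) .no)) .no .no .no) .no .no) (.br .no (.br (.br .no .no .no (.br (.sw 1 2 [25,26]) .no (.br .no (.br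 .no (.br (.sw 2 3 [29]) .no (.de 42) .no) (.br (.br .no .no (.sw 1 3 [11,16,17,22,24,29,30]) (.br .no (.br (.br .no .no .no (.de 41)) .no .no .no) (.de 44) .no)) .no .no .no) .no) .no .no) .no)) .no .no .no) (.br (.br .no .no .no (.br (.sw 1 2 [25,26]) .no (.br .no (.br .no (.br (.br .no (.br .no .no (.br (.br .no .no .no (.de 46)) (.br (.br .no .no (.de 48) (.br .no .no (.de 48) .no)) .no .no (.sw 0 2 [33])) .no .no) .no) .no (.sw 1 2 [30])) .no .no .no) (.br (.sw 1 3 [11,16,17,22,24,29]) (.de 42) .no .no) .no) .no .no) .no)) (.br (.br .no .no (.br .no (.br .no (.br (.br .no .no .no (.br .no .no (.de 44) .no)) .no .no .no) (.br (.br .no .no .no (.br .no .no (.de 44) .no)) (.de 42) .no .no) .no) .no .no) .no) .no .no (.br (.br .no (.br .no (.br (.br .no .no .no (.br (.sw 1 2 [25,26,30,31]) .no (.de 44) .no)) .no .no .no) (.br (.br .no .no .no (.br (.sw 1 2 [25,26,30,31]) .no (.de 44) .no)) (.de 42) .no .no) .no) .no .no) .no (.br .no (.br .no (.br (.br .no .no .no (.br (.br .no (.br (.br .no .no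 (.de 48) (.br .no .no (.de 43) .no)) .no .no (.sw 0 2 [33])) .no .no) .no (.de 44) .no)) .no .no .no) (.br (.br .no .no .no (.br (.br .no (.br (.br .no .no .no (.br .no (.de 48) .no .no)) .no .no (.de 41)) .no .no) .no (.de 44) .no)) (.de 42) .no .no) .no) .no .no) .no)) .no .no) .no)) .no .no (.br .no .no (.br .no (.br (.br .no .no .no (.br (.sw 1 2 [25,26]) .no (.br (.br (.br .no .no .no (.br .no .no (.de 43) .no)) (.br (.br .no .no (.br .no (.br (.br .no (.br .no .no (.de 48) .no) .no (.de 46)) .no .no .no) .no .no) (.br .no (.br (.br .no (.br .no .no (.de 48) .no) .no (.de 46)) .no .no .no) (.de 44) .no)) .no .no (.br .no .no (.de 43) .no)) .no .no) (.br (.br .no .no .no (.br .no .no (.de 43) .no)) (.br (.br .no .no (.br .no (.br (.br .no .no .no (.de 46)) .no .no .no) .no .no) (.br .no (.br (.br .no .no .no (.de 46)) .no .no .no) (.de 44) .no)) .no .no (.br .no .no (.de 43) .no)) .no .no) .no .no) .no)) .no .no .no) .no .no) .no))) .no .no) .no)) .no (.br .no .no .no (.br .no (.br .no .no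 (.br .no .no .no (.br (.br .no .no .no (.br (.br .no .no (.br (.br .no (.de 34) .no .no) .no .no (.br (.br .no (.br .no (.br .no .no (.de 42) .no) (.br .no (.de 42) .no .no) .no) .no .no) (.de 34) .no .no)) .no) (.sw 0 2 [23]) .no .no)) .no .no (.br (.br .no (.br (.br .no .no .no (.br (.br .no (.br .no (.br .no .no (.de 42) (.sw 0 2 [23,29])) (.br .no .no .no (.br .no .no (.de 43) .no)) .no) .no .no) (.br (.br .no (.br .no .no (.de 42) (.sw 0 2 [23,29])) (.br .no .no .no (.br .no .no (.de 43) .no)) .no) .no .no .no) .no .no)) .no (.br (.br .no (.br (.br .no (.br .no .no (.de 42) (.sw 0 2 [23,29])) (.br .no .no .no (.br (.br .no (.br .no .no (.br .no .no .no (.br .no (.de 47) .no .no)) (.br .no .no (.br .no (.de 48) .no .no) .no)) .no (.br .no .no (.de 45) .no)) .no .no .no)) .no) .no .no .no) .no .no) .no .no (.br (.br .no (.br .no (.br .no .no (.de 42) (.sw 0 2 [23,29])) (.br .no .no .no (.br (.br .no (.br .no .no (.br .no .no .no (.br (.br .no (.de 48) .no .no) .no .no .no)) .no) .no .no) .no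 .no .no)) .no) .no .no) (.br (.br .no (.br .no .no (.de 42) (.sw 0 2 [23,29])) (.br .no .no .no (.br (.br .no (.br (.br .no .no (.br .no (.de 48) .no .no) (.de 46)) .no (.sw 0 3 [32]) .no) .no .no) .no .no .no)) .no) .no .no .no) .no .no)) .no) .no .no) .no .no .no))) .no) (.br .no (.br .no .no .no (.br (.br .no .no .no (.br (.br .no (.br (.br .no .no (.br .no (.br .no (.br .no .no (.de 42) .no) (.br .no (.de 42) .no .no) .no) .no .no) .no) .no .no (.br (.br .no (.br .no (.br .no .no (.de 42) .no) (.br .no (.de 42) .no .no) .no) .no .no) .no (.br .no (.br .no (.br .no .no (.de 42) .no) (.br .no (.de 42) .no .no) .no) .no .no) .no)) .no .no) (.sw 0 2 [23]) .no .no)) .no .no (.br (.br .no (.br (.br .no .no .no (.br (.sw 1 2 [25,26]) .no (.br (.br .no (.br .no .no (.de 42) (.sw 0 2 [23,29])) (.br .no .no .no (.br .no .no (.de 43) .no)) .no) (.br .no (.br .no .no (.de 42) (.sw 0 2 [23,29])) (.br .no .no .no (.br .no .no (.de 43) .no)) .no) .no .no) .no)) .no .no .no) .no .no) .no .no .no))) .no .no)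 .no)) .no)

def c1_5_2 : Cert := (.br .no .no (.br .no (.br (.br .no .no .no (.br .no .no (.br .no (.br (.br (.br .no .no (.sw 1 3 [16,22]) (.br .no (.br (.br .no .no .no (.br .no .no (.br .no (.br .no (.br (.sw 2 3 [29]) .no (.de 42) .no) (.br (.br .no .no (.sw 1 3 [11,16,18,22,24,29,30]) (.br .no (.br (.br .no .no .no (.de 41)) .no .no .no) (.de 44) .no)) .no .no .no) .no) .no (.br .no (.br (.sw 2 3 [29]) .no (.de 42) .no) (.br (.br .no .no (.sw 1 3 [11,16,18,22,24,29,30]) (.br .no (.br (.br .no (.de 41) .no .no) .no .no .no) (.de 44) .no)) .no .no .no) .no)) .no)) .no .no .no) (.br (.sw 1 3 [11,18,24]) (.br (.br .no .no (.br .no (.br .no (.br (.br .no .no .no (.br .no .no (.de 44) .no)) .no .no .no) (.br (.sw 1 3 [16,22,29]) (.de 42) .no .no) .no) .no (.br .no (.br (.br .no .no .no (.br .no .no (.de 44) .no)) .no .no .no) (.br (.sw 1 3 [16,22,29]) (.de 42) .no .no) .no)) (.br .no (.br .no (.br (.br .no .no .no (.br .no .no (.de 44) .no)) .no .no .no) (.br (.sw 1 3 [16,22,29]) (.de 42) .no .no)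 .no) .no .no)) .no .no (.br .no .no (.br .no (.br .no (.br (.br .no .no .no (.br (.br .no (.br (.br .no .no (.de 48) (.br .no .no (.de 43) .no)) .no .no (.br .no .no (.de 48) .no)) .no .no) .no (.de 44) .no)) .no .no .no) (.br (.sw 1 3 [16,22,29]) (.de 42) .no .no) .no) .no (.br .no (.br (.br .no .no .no (.br (.br .no (.br (.br .no .no (.de 48) .no) .no .no .no) .no .no) .no (.de 44) .no)) .no .no .no) (.br (.sw 1 3 [16,22,29]) (.de 42) .no .no) .no)) .no)) .no .no) .no)) .no .no (.br .no .no (.br .no (.br (.br .no .no .no (.br .no .no (.br .no (.br (.br .no .no .no (.br .no .no (.de 43) .no)) (.br (.br .no .no (.sw 1 3 [11,18,24,30]) (.br .no (.br (.br .no .no .no (.de 46)) .no .no .no) (.de 44) .no)) .no .no (.br .no .no (.de 43) .no)) .no .no) .no .no) .no)) .no .no .no) .no .no) .no)) .no .no .no) .no .no) .no)) .no .no .no) .no .no) (.br .no (.br (.br .no .no .no (.br .no .no (.br .no (.br (.br (.br .no .no (.br .no (.br (.br .no .no .no (.br .no .no (.br .no (.sw 2 3 [21]) .no .no) .no))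 .no .no .no) .no .no) (.br .no (.br (.br .no .no .no (.br .no .no (.br .no (.sw 2 3 [21]) .no .no) .no)) .no .no .no) (.br (.sw 1 3 [11,18,24]) (.br (.br .no .no (.br .no (.sw 2 3 [21]) .no .no) (.br .no (.sw 2 3 [21]) (.br .no (.br (.br .no .no .no (.br .no .no (.de 44) .no)) .no .no .no) (.br (.br .no .no .no (.br .no .no (.de 44) .no)) (.de 42) .no .no) .no) .no)) .no .no (.br .no .no (.br .no (.sw 2 3 [21]) .no .no) .no)) .no .no) .no)) .no (.br .no .no .no (.br .no (.br (.br .no .no .no (.br .no .no (.br .no (.br (.br .no .no (.br .no .no .no (.de 43)) .no) (.br (.br .no .no (.br .no (.br (.br .no .no .no (.de 46)) .no .no .no) .no .no) (.br .no (.br (.br .no .no .no (.de 46)) .no .no .no) (.de 44) .no)) .no (.de 42) .no) .no .no) .no .no) .no)) .no .no .no) (.br (.sw 1 3 [11,18,24]) (.br (.br .no .no (.br .no (.br (.br .no (.br (.br .no .no (.sw 1 3 [11,18,24,31]) (.br .no (.br (.br .no .no .no (.br .no .no (.br .no .no .no (.br .no .no (.de 45) .no)) .no)) .no .no (.de 41)) .no .no)) .no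 .no (.br .no .no (.de 44) .no)) .no .no) (.br (.br .no .no .no (.br .no .no (.de 44) .no)) .no .no .no) .no .no) .no .no) (.br .no (.br (.br .no (.br (.br .no .no (.sw 1 3 [11,18,24,31]) (.br .no (.br (.sw 2 3 [33]) .no (.br .no .no .no (.br .no .no (.br .no .no .no (.br .no .no (.de 45) .no)) .no)) .no) (.de 45) .no)) .no .no (.br .no .no (.de 44) .no)) .no .no) (.br (.br .no .no .no (.br .no .no (.de 44) .no)) .no .no .no) .no .no) .no .no)) .no .no (.br .no .no (.br .no (.br (.br .no (.br (.br .no .no (.br (.br .no .no .no (.de 41)) (.sw 0 3 [32]) .no .no) .no) .no .no (.br (.br .no (.br (.br .no .no .no (.br .no .no (.de 43) .no)) .no .no (.de 41)) .no .no) .no (.de 44) .no)) .no .no) (.br (.br .no .no .no (.br (.br .no (.br (.br .no .no .no (.sw 0 2 [28])) .no .no (.br (.br .no .no (.de 43) .no) .no .no .no)) .no .no) .no (.de 44) .no)) .no .no .no) .no .no) .no .no) .no)) .no .no) .no)) .no) .no (.br (.br .no .no (.br .no (.br (.br .no .no .no (.br (.br .no (.br .no (.br (.br .no .no (.sw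 1 3 [11,18,24,30]) (.br .no (.br .no .no (.br .no .no .no (.br .no .no (.de 48) .no)) .no) (.de 44) .no)) .no .no (.br .no .no (.de 43) .no)) .no (.br (.br .no .no (.sw 1 3 [11,18,24,30]) (.br .no (.br .no .no (.br .no .no .no (.br .no .no (.br .no (.de 48) (.de 43) .no) .no)) .no) (.de 44) .no)) .no .no .no)) .no .no) .no .no .no)) .no .no .no) .no .no) (.br .no (.br (.br .no .no .no (.br (.br .no (.br .no (.br (.sw 2 3 [29]) .no (.de 42) .no) (.br (.br .no .no (.br .no (.br .no .no (.br .no .no .no (.de 41)) .no) .no .no) (.br .no (.br .no .no (.br .no .no .no (.de 41)) .no) (.de 44) .no)) .no .no .no) .no) .no .no) .no .no .no)) .no .no .no) (.br (.sw 1 3 [11,18,24]) (.br (.br .no .no .no (.br .no (.sw 0 2 [27]) .no .no)) .no .no (.br (.br .no (.br .no (.br (.br .no .no .no (.br (.br .no (.br .no .no (.br .no .no .no (.br .no .no (.de 43) .no)) (.sw 0 2 [27,33])) (.br .no .no .no (.br .no .no (.de 48) .no)) .no) .no (.de 44) .no)) .no .no .no) (.br (.br .no .no .no (.br (.br .no (.br .no .no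 (.br .no .no .no (.br .no (.de 48) .no .no)) (.de 41)) (.br .no .no .no (.de 41)) .no) .no (.de 44) .no)) (.de 42) .no .no) .no) .no .no) .no .no .no)) .no .no) .no)) .no (.br .no .no .no (.br .no (.br (.br .no .no .no (.br (.br .no (.br (.br .no .no (.br .no .no .no (.de 43)) .no) (.br (.br .no .no (.br .no (.br .no .no (.br .no .no .no (.br (.br .no .no (.de 48) .no) .no .no .no)) .no) .no .no) (.br .no (.br .no .no (.br .no .no .no (.br (.br .no .no (.de 43) .no) .no .no .no)) .no) (.de 44) .no)) .no (.de 42) .no) .no .no) .no .no) .no .no .no)) .no .no .no) (.sw 0 1 [14,15,22,23]) .no)) .no) .no) .no .no) .no)) .no .no .no) (.br (.sw 1 3 [16]) (.br (.br .no .no (.sw 1 3 [11,18]) (.br .no (.br (.br (.br .no .no .no (.br .no .no (.br .no (.br (.sw 2 3 [25]) .no (.br .no .no .no (.br .no (.br .no (.br (.br .no .no .no (.br (.br .no (.br (.sw 2 3 [25,32,33]) .no (.br .no .no .no (.br .no .no (.de 43) .no)) .no) .no .no) .no .no .no)) .no .no .no) (.br (.sw 1 3 [16,23,29]) (.de 42) .no .no) .no)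 (.br .no (.br (.br .no .no .no (.br (.br .no (.br (.br .no .no .no (.sw 1 2 [34])) .no .no .no) .no .no) .no .no .no)) .no .no .no) (.br (.sw 1 3 [16,23,29]) (.de 42) .no .no) .no) .no)) .no) .no .no) .no)) (.br (.br .no .no (.sw 1 3 [16,23]) (.br .no (.br (.sw 2 3 [25]) .no (.br .no .no .no (.br .no .no (.br .no .no (.br .no (.de 42) .no .no) (.br .no (.br (.sw 2 3 [30]) .no (.br (.br .no (.br (.de 41) .no .no .no) .no .no) .no .no (.de 44)) .no) (.br (.br .no .no .no (.br (.br .no (.br (.br .no (.br .no .no .no (.br .no .no (.de 45) .no)) .no .no) .no .no .no) .no .no) (.sw 0 2 [32]) .no .no)) .no .no .no) .no)) .no)) .no) (.br (.br .no .no (.de 34) (.br .no .no (.br .no .no (.br .no (.de 42) .no .no) (.br .no (.br (.br .no (.sw 2 3 [25,30,31]) .no (.sw 1 2 [31])) .no .no .no) (.br (.sw 1 3 [16,23,30]) (.br .no .no .no (.br .no (.br (.de 41) .no .no .no) (.de 45) .no)) .no .no) .no)) .no)) .no .no .no) .no)) .no .no (.br .no .no (.br .no (.br (.sw 2 3 [25]) .no (.br .no .no .no (.br .no .no (.br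 (.br .no (.br (.br .no .no .no (.br (.br .no (.br .no .no .no (.de 47)) .no .no) (.sw 0 2 [32]) .no .no)) .no .no (.br (.br .no (.br (.br .no .no .no (.br .no .no (.de 43) .no)) .no .no .no) .no .no) .no .no .no)) .no .no) .no (.br (.br .no .no .no (.br (.br .no (.br (.br .no .no .no (.sw 0 1 [28])) .no .no .no) .no .no) .no .no .no)) (.de 42) .no .no) .no) .no)) .no) .no .no) .no)) .no .no) .no (.sw 0 1 [14,15]) .no) (.br (.br (.br .no .no .no (.br .no .no (.br .no (.br (.br .no (.br .no .no (.br .no (.br (.br .no .no .no (.br .no .no (.de 44) .no)) .no .no .no) (.br (.sw 1 3 [16,23,29]) (.de 42) .no .no) .no) .no) .no (.sw 1 2 [26])) .no .no .no) .no .no) .no)) (.br (.br .no .no (.sw 1 3 [16,23]) (.br .no (.br (.br .no (.br .no .no (.br .no .no (.br .no (.de 42) .no .no) (.br .no (.br (.sw 2 3 [30]) .no (.br .no .no .no (.de 44)) .no) (.br (.br .no .no (.sw 1 3 [11,16,18,23,25,30,31]) (.br .no .no (.de 45) .no)) .no .no .no) .no)) .no) .no (.sw 1 2 [26])) .no .no .no) (.br (.sw 1 3 [11,18,25])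 (.br .no .no .no (.br .no .no (.sw 0 1 [14,15,27]) .no)) .no .no) .no)) .no .no (.br .no .no (.br .no (.br (.br .no (.br .no .no (.br (.br .no (.br (.br .no .no (.sw 1 3 [11,18,25,31]) (.br .no .no (.de 45) .no)) .no .no (.br .no .no (.de 44) .no)) .no .no) .no (.br (.br .no .no .no (.br .no .no (.de 44) .no)) (.de 42) .no .no) .no) .no) .no (.sw 1 2 [26])) .no .no .no) .no .no) .no)) .no .no) .no .no .no) .no)) .no .no (.br .no .no (.br .no (.br (.br (.br .no .no .no (.br (.br .no (.br (.br .no .no (.br .no (.br .no (.br .no .no (.de 42) .no) (.br .no (.de 42) .no .no) .no) .no .no) (.br .no (.br .no (.br .no .no (.de 42) .no) (.br .no (.de 42) .no .no) .no) (.br .no (.br .no .no (.de 42) .no) (.br .no (.de 42) .no .no) .no) .no)) .no .no (.br .no .no (.br .no (.br .no (.br .no .no (.de 42) .no) (.br .no (.de 42) .no .no) .no) .no .no) .no)) .no .no) .no (.sw 0 1 [23]) .no)) (.br (.br .no .no (.br (.sw 1 3 [11,16,18,23,24]) (.sw 0 3 [24]) .no .no) .no) .no .no (.br (.br .no (.br (.br .no .no (.de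 34) (.br .no .no (.br (.br .no (.br .no .no (.br .no .no .no (.de 44)) (.br .no .no (.de 44) .no)) (.br .no .no .no (.de 43)) .no) .no (.br .no (.de 42) .no .no) .no) .no)) .no .no (.br .no .no (.de 34) .no)) .no .no) .no (.sw 0 1 [23]) .no)) .no .no) .no (.sw 0 1 [14,15]) .no) .no .no) .no)) .no .no) .no))

def c1_5_3 : Cert := (.br .no (.br (.br .no .no .no (.br (.br .no .no (.br .no c1_5_1 .no .no) (.br .no (.br (.br .no .no (.br .no (.br .no .no (.de 27) .no) .no .no) (.br .no (.br .no .no (.de 27) .no) (.br .no (.br .no .no (.br (.br .no .no (.br .no (.br (.br .no .no .no (.br (.br .no (.sw 2 3 [21,27]) .no .no) .no .no .no)) .no .no .no) .no .no) (.br .no (.br (.br .no .no .no (.br (.br .no (.sw 2 3 [21,27]) .no .no) .no .no .no)) .no .no .no) (.br (.br .no .no .no (.br (.br .no (.sw 2 3 [21,27]) .no .no) .no .no .no)) (.br (.br .no .no .no (.br .no (.br .no (.br (.br .no .no .no (.br .no .no (.de 44) .no)) .no .no .no) (.br (.br .no .no .no (.br .no .no (.de 44) .no)) (.de 42) .no .no) .no)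 .no .no)) .no .no (.br (.br .no (.sw 2 3 [21,27]) .no .no) .no .no .no)) .no .no) .no)) .no (.br .no .no .no (.br .no (.br (.br .no .no .no (.br (.br .no (.br (.br .no .no (.br .no .no .no (.de 43)) .no) (.br (.br .no .no (.br .no (.br .no .no (.br .no .no .no (.br (.sw 2 3 [21,27,28,29]) .no .no .no)) .no) .no .no) (.br .no (.br .no .no (.br .no .no .no (.br (.sw 2 3 [21,27,28,29]) .no .no .no)) .no) (.de 44) .no)) .no (.de 42) .no) .no .no) .no .no) .no .no .no)) .no .no .no) (.br (.br .no .no .no (.br (.br .no (.br (.br .no (.br .no .no .no (.br .no (.br .no .no (.br .no .no .no (.de 41)) .no) (.de 44) .no)) .no .no) (.br (.br .no (.br .no .no (.br .no (.br .no .no (.br (.sy 37 210 6) .no .no (.sw 0 2 [28])) (.br (.br .no .no (.de 48) .no) .no .no .no)) .no .no) .no) .no (.sw 1 2 [30])) .no .no .no) .no .no) .no .no) .no .no .no)) (.br (.br .no .no .no (.br (.br (.br .no (.br (.br .no .no (.br .no (.br .no .no (.br .no (.sy 41 225 6) .no (.br .no .no (.br .no .no .no (.de 44)) .no)) .no) .no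 .no) (.br .no (.br .no .no (.br .no (.br .no .no (.de 48) .no) .no (.br .no .no (.br .no .no .no (.br .no .no (.de 45) .no)) .no)) .no) (.de 45) .no)) .no .no (.br .no .no (.de 44) .no)) .no .no) (.br (.br .no .no .no (.br .no .no (.de 44) .no)) .no .no .no) .no .no) (.br (.br .no (.br (.br .no .no (.br .no (.br (.br .no .no .no (.br .no .no (.br .no .no .no (.de 44)) .no)) .no (.br .no .no .no (.sw 0 1 [34])) .no) .no .no) (.br .no (.br (.br .no .no .no (.br .no .no (.br .no .no .no (.br .no .no (.de 45) .no)) .no)) .no (.br .no .no .no (.sw 0 1 [34])) .no) (.de 45) .no)) .no .no (.br .no .no (.de 44) .no)) .no .no) (.br (.br .no .no .no (.br .no .no (.de 44) .no)) .no .no .no) .no .no) .no .no)) .no .no (.br (.br .no (.br (.br .no (.br (.br .no .no (.br .no (.br .no .no (.sw 0 3 [32,33]) (.de 41)) .no .no) .no) .no .no (.br (.br .no (.br .no .no (.br .no .no .no (.br .no .no (.de 43) .no)) (.de 41)) (.br .no .no .no (.de 41)) .no) .no (.de 44) .no)) .no .no) (.br (.br .no .no .no (.br (.br .no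 (.br .no .no (.br (.br .no .no (.de 43) .no) .no .no (.sw 0 2 [28])) (.br (.br .no .no (.de 43) .no) .no .no .no)) (.br .no .no .no (.br (.br .no .no (.de 43) .no) .no .no .no)) .no) .no (.de 44) .no)) .no .no .no) .no .no) .no .no) .no .no .no)) .no .no) .no)) .no) .no) .no .no) .no)) .no (.br .no .no .no (.br .no (.br .no .no (.de 27) .no) (.br .no (.br .no .no (.br (.br .no .no .no (.br (.br .no (.br (.br .no .no .no (.br .no (.br .no (.br .no .no (.de 42) .no) (.br .no (.de 42) .no .no) .no) .no .no)) .no .no (.br (.br .no (.sw 2 3 [21,27]) .no .no) .no .no .no)) .no .no) (.sw 0 2 [23]) .no .no)) .no (.br (.br .no (.br (.br .no .no .no (.br (.br .no (.br .no (.br .no .no (.de 42) (.br .no .no (.de 43) .no)) .no (.br .no .no (.br .no .no .no (.de 43)) .no)) .no .no) .no .no .no)) .no .no .no) .no .no) .no .no (.br (.br .no (.br (.br .no .no .no (.br (.br (.br .no (.br .no .no (.br .no .no .no (.de 44)) (.sw 0 2 [23,30])) (.br .no .no .no (.de 43)) .no) (.br .no .no (.de 42) .no) .no .no) (.br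 (.br .no (.br .no .no (.br .no .no .no (.de 44)) (.sw 0 2 [23,30])) (.br .no .no .no (.de 43)) .no) (.br .no .no (.de 42) .no) .no .no) .no .no)) .no .no (.br (.br .no (.br (.br .no (.br .no .no (.br (.br .no (.br .no .no (.br .no .no .no (.br .no .no (.br .no .no .no (.de 44)) .no)) (.de 41)) (.br .no .no .no (.de 41)) .no) .no .no .no) (.sw 0 2 [23,30])) (.br .no .no .no (.de 43)) .no) (.br .no .no (.de 42) .no) .no .no) .no .no) .no .no .no)) .no .no) (.sw 0 2 [23]) .no .no)) .no) .no) .no .no) .no)) .no) (.br (.br .no .no (.sw 1 3 [11,16,17]) (.br .no (.br .no .no (.de 27) .no) (.br .no (.br .no .no (.br (.br .no (.br .no .no (.br (.sw 1 3 [11,16,17,24]) (.br (.br .no .no .no (.br .no (.br .no .no (.br (.br .no .no .no (.br .no .no (.de 44) .no)) .no .no (.br (.br .no .no (.sw 1 3 [11,16,17,24,31]) (.br .no (.br (.br .no .no .no (.br .no (.de 48) .no .no)) .no (.br .no .no .no (.br .no (.de 48) .no .no)) .no) (.de 45) .no)) .no .no .no)) (.br (.br .no .no .no (.br .no .no (.de 44) .no)) .no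 .no .no)) .no .no)) .no .no (.br (.br .no (.br .no .no (.br (.br .no .no .no (.br (.br .no (.br .no .no (.br .no .no .no (.br .no (.de 48) .no .no)) (.de 41)) (.br .no .no .no (.de 41)) .no) .no (.de 44) .no)) .no .no (.br (.br .no .no (.br .no (.br .no .no (.sw 0 3 [32,33]) (.de 41)) .no .no) .no) .no .no .no)) (.br (.br .no .no .no (.br (.br .no (.br .no .no (.de 41) (.br .no .no (.br .no (.de 48) (.de 43) .no) .no)) (.br .no .no .no (.br .no .no (.sy 35 45 6) .no)) .no) .no (.de 44) .no)) .no .no .no)) .no .no) .no .no .no)) .no .no) .no) .no (.sw 1 2 [22])) (.br .no .no .no (.br .no (.br (.br .no .no .no (.br (.de 34) .no .no .no)) .no .no .no) (.br (.sw 1 3 [11,16,17,24]) (.br (.br .no .no .no (.br (.br (.br .no (.br (.br .no .no (.sw 1 3 [11,16,17,24,31]) (.br .no (.br .no .no (.br .no .no .no (.sw 1 2 [22,28])) .no) (.de 45) .no)) .no .no (.br .no .no (.de 44) .no)) .no .no) .no (.br (.br .no .no .no (.br .no .no (.de 44) .no)) (.de 42) .no .no) .no) .no .no .no)) .no .no (.br (.de 34) .no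 .no .no)) .no .no) .no)) .no .no) .no) .no .no) .no)) .no .no .no) .no)) .no .no .no)) .no .no .no) (.br (.sw 1 3 [11]) (.br (.br .no .no .no c1_5_2) .no .no (.br (.br .no .no (.br .no (.br (.br .no .no .no (.br (.br .no (.br .no .no .no (.br (.br .no .no (.sw 1 3 [16,22]) (.br .no (.br .no .no (.br .no .no .no (.br (.br .no (.br .no (.br (.sw 2 3 [29]) .no (.de 42) .no) (.br (.br .no .no .no (.br (.br .no (.br .no .no (.br .no .no .no (.br .no (.de 48) .no .no)) (.de 41)) (.br .no .no .no (.de 41)) .no) (.br .no .no (.br .no .no .no (.de 41)) .no) .no .no)) .no .no .no) .no) .no .no) .no (.br .no (.br .no (.br (.sw 2 3 [29]) .no (.de 42) .no) (.br (.br .no .no .no (.br (.br .no (.br (.br .no .no .no (.br .no (.de 48) .no .no)) .no .no (.de 41)) .no .no) (.br (.br .no .no .no (.de 41)) .no .no .no) .no .no)) .no .no .no) .no) .no .no) .no)) .no) (.br .no (.br .no .no (.br (.br .no (.br .no (.br (.br .no .no .no (.br (.br .no (.br .no .no (.br .no .no .no (.br .no .no (.de 43) .no)) (.br .no .no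 (.de 48) .no)) .no (.br .no .no (.br .no .no .no (.br .no .no (.de 43) .no)) .no)) .no .no .no)) .no .no .no) (.br (.sw 1 3 [16,22,29]) (.de 42) .no .no) .no) .no .no) .no .no .no) (.br (.br .no (.br .no (.br (.br .no .no .no (.br (.sw 1 2 [30,31]) .no (.de 44) .no)) .no .no .no) (.br (.sw 1 3 [16,22,29]) (.de 42) .no .no) .no) .no .no) .no (.br .no (.br .no (.br (.br .no .no .no (.br (.sw 1 2 [30,31]) .no (.de 44) .no)) .no .no .no) (.br (.sw 1 3 [16,22,29]) (.de 42) .no .no) .no) .no .no) .no)) .no .no) .no)) .no .no (.br .no .no (.br .no (.br .no .no (.br .no .no .no (.br (.br .no (.br (.br .no .no .no (.br (.br .no (.br .no .no (.br .no .no .no (.br .no .no (.br .no (.de 48) (.de 43) .no) .no)) .no) .no .no) .no .no .no)) (.br (.br .no .no .no (.br (.br .no (.br .no .no (.br (.br .no .no (.de 43) .no) .no .no .no) (.br (.br .no .no (.de 43) .no) .no (.de 48) .no)) (.br .no .no .no (.br (.br .no .no (.de 43) .no) .no (.de 48) .no)) .no) (.br .no .no (.br .no .no .no (.br (.br .no .no (.de 43)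 .no) .no (.de 48) .no)) .no) .no .no)) .no .no (.br (.br .no (.br .no .no (.br .no .no .no (.br (.br .no .no (.de 43) .no) .no (.de 48) .no)) .no) .no .no) .no .no .no)) .no .no) .no .no) .no (.br (.br (.br .no .no .no (.br (.br .no (.br (.br .no (.br .no .no (.sw 1 3 [16,22,28]) .no) .no (.de 46)) .no .no .no) .no .no) .no .no .no)) (.br (.br .no .no .no (.br (.br .no (.br .no .no .no (.br .no .no (.de 48) .no)) .no .no) (.br (.br .no (.br .no .no (.de 48) .no) .no (.de 46)) .no .no .no) .no .no)) .no .no (.br (.br .no (.br (.br .no (.br .no .no (.de 48) .no) .no (.de 46)) .no .no .no) .no .no) .no .no .no)) .no .no) (.br (.br .no .no .no (.br (.br .no (.br (.br .no .no .no (.de 46)) .no .no .no) .no .no) .no .no .no)) (.br (.br .no .no .no (.br (.br .no (.br (.br .no .no (.de 48) .no) .no .no (.sw 0 2 [33])) .no .no) (.br (.br .no .no .no (.de 46)) .no .no .no) .no .no)) .no .no (.br (.br .no (.br (.br .no .no .no (.de 46)) .no .no .no) .no .no) .no .no .no)) .no .no) .no .no) .no)) .no) .no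 .no) .no))) (.br .no .no .no (.br (.br .no .no (.sw 1 3 [16,22]) (.br .no (.br .no .no (.br .no (.br (.br .no (.br .no (.br (.sw 2 3 [29]) .no (.de 42) .no) (.br (.br .no .no .no (.br (.br .no .no (.br .no .no .no (.de 41)) (.sw 1 2 [26,30,31,32])) .no .no .no)) .no .no .no) .no) .no .no) .no .no .no) .no (.sw 0 1 [18,25])) .no) (.br .no (.br .no .no .no (.br (.sw 1 2 [26]) (.de 34) .no .no)) .no .no) .no)) .no .no (.br .no .no (.br .no (.br .no .no (.br .no (.br (.br .no (.br (.br .no .no .no (.br (.br .no .no .no (.br .no .no (.de 45) .no)) .no .no .no)) (.br (.br .no .no .no (.br (.br .no .no (.br .no .no .no (.br (.br .no .no (.de 43) .no) .no (.de 48) .no)) (.br .no .no (.br (.br .no .no (.de 43) .no) .no .no .no) .no)) .no .no .no)) .no .no (.br (.br .no .no .no (.br .no .no (.de 45) .no)) .no .no .no)) .no .no) .no .no) .no .no .no) .no (.sw 0 1 [18,25])) .no) .no .no) .no))) .no) .no (.sw 0 1 [18]) .no)) .no .no .no) .no .no) (.br .no (.br (.br .no .no .no (.br (.br .no (.br .no .no (.br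 (.br .no .no (.br .no (.br .no .no (.br .no .no .no (.br (.br .no (.sw 2 3 [21,27]) .no .no) .no .no .no)) .no) .no .no) (.br .no (.br .no .no (.br .no .no .no (.br (.br .no (.sw 2 3 [21,27]) .no .no) .no .no .no)) .no) (.br .no (.br .no .no (.br (.br .no (.sw 2 3 [21,27]) .no .no) .no .no (.br .no (.br .no (.br (.br .no .no .no (.br (.br .no (.br (.sw 2 3 [21,27,32,33]) .no (.sw 0 3 [33]) .no) .no .no) .no .no .no)) .no .no .no) (.br (.br .no .no .no (.br (.br .no (.br (.sw 2 3 [21,27,32,33]) .no (.sw 0 3 [33]) .no) .no .no) .no .no .no)) (.de 42) .no .no) .no) .no .no)) (.br (.br .no (.sw 2 3 [21,27]) .no .no) .no .no .no)) .no .no) .no)) .no (.br .no .no .no (.br .no (.br .no .no (.br .no .no .no (.br (.br .no (.br (.br .no .no (.br (.br .no (.br .no .no (.br .no .no .no (.de 41)) .no) .no .no) .no .no (.de 43)) .no) (.br (.br .no .no .no (.br (.br .no (.br .no .no (.br (.sw 2 3 [21,27,28,29]) .no .no (.sw 0 2 [28])) (.br (.sw 2 3 [21,27,28,29]) .no .no .no)) (.br .no .no .no (.br (.sw 2 3 [21,27,28,29])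 .no .no .no)) .no) (.br .no .no (.br .no .no .no (.br (.sw 2 3 [21,27,28,29]) .no .no .no)) .no) .no .no)) .no (.de 42) .no) .no .no) .no .no) .no .no .no)) .no) (.br .no (.br .no .no (.br (.br .no (.br (.br .no (.br (.br .no .no .no (.br .no (.br .no .no (.br .no .no .no (.br .no .no (.br .no .no .no (.br .no .no (.de 45) .no)) .no)) (.de 41)) .no .no)) .no .no (.br (.br .no (.br .no .no (.br .no .no .no (.br .no .no (.de 43) .no)) (.de 41)) .no (.br .no .no (.br .no .no .no (.br .no .no (.de 43) .no)) .no)) .no .no .no)) .no .no) (.br (.br .no .no .no (.br (.br .no (.br .no .no (.br (.br .no .no (.de 43) .no) .no .no (.sw 0 2 [28])) (.br (.br .no .no (.de 43) .no) .no .no .no)) .no (.br .no .no (.br (.br .no .no (.de 43) .no) .no .no (.sw 0 2 [28])) .no)) .no .no .no)) .no .no .no) .no .no) .no .no) .no .no (.br (.br (.br .no (.br (.br .no .no .no (.br (.br .no (.br .no .no .no (.de 47)) (.br .no (.br .no .no (.de 48) .no) .no (.br .no .no (.br .no .no .no (.br .no .no (.de 45) .no)) .no)) .no)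 (.br .no .no (.br .no (.br .no .no (.de 48) .no) .no (.br .no .no (.br .no .no .no (.br .no .no (.de 45) .no)) .no)) .no) .no .no)) .no .no (.br (.br .no (.br .no .no (.br .no (.br .no .no (.de 43) .no) .no (.br .no .no (.de 43) .no)) .no) .no .no) .no .no .no)) .no .no) (.br (.br .no .no .no (.br (.br .no (.br .no .no (.br .no .no .no (.br .no .no (.de 43) .no)) .no) .no .no) .no .no .no)) .no .no .no) .no .no) (.br (.br .no (.br (.br .no .no .no (.br (.br .no .no (.br .no .no .no (.sw 0 1 [34])) .no) (.br (.br .no .no .no (.br .no .no (.br .no .no .no (.br .no .no (.de 45) .no)) .no)) .no (.sw 0 3 [33]) .no) .no .no)) .no .no (.br (.br .no (.br (.br .no .no .no (.br .no .no (.de 43) .no)) .no (.sw 0 3 [33]) .no) .no .no) .no .no .no)) .no .no) (.br (.br .no .no .no (.br (.br .no (.br (.br .no .no .no (.sw 0 2 [28])) .no (.sw 0 3 [33]) .no) .no .no) .no .no .no)) .no .no .no) .no .no) .no .no)) (.br (.br .no (.br (.br .no (.br (.br .no .no (.br .no (.br .no .no (.br .no .no .no (.br .no .no (.br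 .no .no .no (.de 44)) .no)) (.de 41)) .no .no) .no) .no .no (.br (.br .no (.sw 2 3 [32]) (.br .no .no .no (.de 41)) .no) .no (.de 44) .no)) .no .no) (.br (.br .no .no .no (.br (.sw 1 2 [30,31]) .no (.de 44) .no)) .no .no .no) .no .no) .no .no) .no .no .no)) .no .no) .no)) .no) .no) (.de 27) .no) .no (.sw 0 1 [18]) .no)) .no .no .no) (.br (.sw 1 3 [16]) (.br (.br .no .no (.br .no (.br .no .no (.sw 0 3 [19,20]) .no) .no .no) .no) .no .no (.br (.br .no (.br .no .no (.br (.br .no .no .no (.br (.br .no (.br .no .no (.br (.br .no (.br .no (.br .no .no (.de 42) .no) (.br .no (.de 42) .no .no) .no) .no .no) .no .no (.br .no (.br .no (.br .no .no (.de 42) .no) (.br .no (.de 42) .no .no) .no) .no .no)) (.br (.br .no (.br .no (.br .no .no (.de 42) .no) (.br .no (.de 42) .no .no) .no) .no .no) .no .no .no)) (.br .no .no .no (.br (.br .no (.br .no (.br .no .no (.de 42) .no) (.br .no (.de 42) .no .no) .no) .no .no) .no .no .no)) .no) .no (.sw 0 1 [23]) .no)) (.br (.br .no .no (.br .no (.br .no .no (.sw 0 3 [19,20,24,25])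 (.br (.de 34) .no .no .no)) .no .no) .no) .no .no (.br (.br .no (.br .no .no (.br (.de 34) .no .no (.br (.br (.br .no (.br .no .no (.br (.br .no (.br .no .no (.br .no .no .no (.br .no .no (.br .no .no .no (.de 44)) .no)) .no) .no .no) .no .no (.de 44)) (.br (.br .no (.br .no .no (.br .no .no .no (.br .no .no (.de 43) .no)) .no) .no .no) .no .no .no)) (.br .no .no .no (.de 43)) .no) .no (.br .no (.de 42) .no .no) .no) .no .no .no)) (.br (.de 34) .no .no .no)) (.br .no .no .no (.br (.de 34) .no .no .no)) .no) .no (.sw 0 1 [23]) .no)) .no .no) .no) (.de 27) .no) .no (.sw 0 1 [18]) .no)) .no .no) .no)) .no .no .no)) .no .no) .no)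

theorem P1_5 : R.S 15 382448196 :=
  R.piece L hL (.br (.br .no (.br .no .no (.br (.sw 1 3 [11]) (.br (.br .no .no .no c1_5_0) .no .no (.br (.br .no .no (.br .no .no .no (.br (.br .no .no .no (.br (.br .no (.br .no .no .no (.br (.br .no (.br .no .no (.br .no (.br .no .no (.br (.br .no (.sy 29 210 6) .no .no) .no .no .no) (.br (.sy 22 57 11) .no (.br .no (.br .no .no (.br (.br .no .no .no (.br (.br .no (.br (.br .no .no .no (.sy 22 57 19)) .no .no (.de 41)) .no .no) .no (.de 44) .no)) .no .no (.sy 22 57 14)) (.br (.br .no .no .no (.br (.br .no (.br (.br .no .no (.br .no (.de 48) (.de 43) .no) .no) .no .no (.sw 0 2 [33])) .no .no) .no (.de 44) .no)) .no .no .no)) .no .no) .no)) .no .no) .no) (.br .no (.br .no .no (.br .no .no .no (.br (.br .no (.br .no (.br (.br .no .no .no (.br (.br .no (.br .no .no (.br .no .no .no (.br .no .no (.de 43) .no)) (.br .no .no (.de 48) .no)) (.br .no .no .no (.br .no .no (.de 48) .no)) .no) (.br .no .no (.br .no .no .no (.br .no .no (.de 48) .no)) .no) .no .no)) .no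 .no (.br (.br .no (.br .no .no (.br .no .no .no (.br .no .no (.de 48) .no)) .no) .no .no) .no .no .no)) .no (.br (.br .no .no .no (.br (.sw 1 2 [29,30,31]) (.br .no .no (.br .no .no .no (.br .no .no (.br .no (.de 48) (.de 43) .no) .no)) .no) .no .no)) .no .no .no)) .no .no) .no (.br .no (.br .no (.br (.br .no .no .no (.br (.br .no (.br (.br .no .no (.de 48) (.br .no .no (.de 43) .no)) .no .no (.sw 0 2 [33])) .no .no) (.br (.br .no .no .no (.de 46)) .no .no .no) .no .no)) .no .no (.br (.br .no (.br (.br .no .no .no (.de 46)) .no .no .no) .no .no) .no .no .no)) .no (.br (.br .no .no .no (.br (.sw 1 2 [29,30,31]) (.br (.br .no .no .no (.de 46)) .no .no .no) .no .no)) .no .no .no)) .no .no) .no)) .no) .no .no) .no) (.br .no .no (.br .no (.br .no .no (.br .no .no .no (.br (.de 34) .no (.br (.br (.br .no .no .no (.br (.br .no (.br (.br .no (.br .no .no (.br .no (.de 48) (.de 43) .no) (.de 47)) .no (.de 46)) .no .no .no) .no .no) .no .no .no)) .no .no (.br (.br .no .no .no (.br (.br .no (.br .no .no .no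 (.br .no .no (.sw 0 1 [28,34]) .no)) .no .no) (.br (.br .no (.br .no .no (.br .no (.de 48) (.de 43) .no) .no) .no (.de 46)) .no .no .no) .no .no)) .no .no .no)) .no .no .no) .no)) .no) .no .no) .no) .no .no)) (.br .no .no .no (.sy 22 45 6)) .no) .no (.sw 0 1 [18]) .no)) .no .no .no)) (.br .no .no (.br (.br .no .no .no (.br (.br .no (.br .no .no (.br (.br .no (.br .no .no (.br .no (.br .no .no (.sw 0 3 [19,20,23,24,25]) (.br (.br .no (.sw 2 3 [21,22,27]) .no .no) .no .no .no)) .no .no) .no) .no (.br .no (.br .no .no (.br .no .no .no (.br (.br .no (.br .no (.br (.sw 2 3 [21,22,27,29]) .no (.de 42) .no) (.br (.br .no .no .no (.br (.br .no (.br .no .no (.br .no .no .no (.br .no (.de 48) .no .no)) (.de 41)) (.br .no .no .no (.de 41)) .no) (.br .no .no (.br .no .no .no (.de 41)) .no) .no .no)) .no .no .no) .no) .no .no) .no .no .no)) .no) (.br .no (.br .no .no (.br (.br .no (.br .no (.br (.br .no .no .no (.br (.br .no (.br .no .no (.br .no .no .no (.br .no .no (.de 43) .no)) (.br .no .no (.de 48) .no))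 .no (.br .no .no (.br .no .no .no (.br .no .no (.de 43) .no)) .no)) .no .no .no)) .no .no .no) (.br (.sw 1 3 [29]) (.de 42) .no .no) .no) .no .no) .no .no (.br .no (.br .no (.br (.br .no .no .no (.br (.br .no (.br (.br .no .no (.de 48) (.br .no .no (.de 43) .no)) .no (.sw 0 3 [33]) .no) .no .no) .no .no .no)) .no .no .no) (.br (.sw 1 3 [29]) (.de 42) .no .no) .no) .no .no)) (.br (.br .no (.br .no (.br (.br .no .no .no (.br (.sw 1 2 [30,31]) .no (.de 44) .no)) .no .no .no) (.br (.sw 1 3 [29]) (.de 42) .no .no) .no) .no .no) .no .no .no)) .no .no) .no)) (.br .no .no .no (.br .no (.br .no .no (.br .no .no .no (.br (.de 34) .no .no .no)) .no) (.br .no (.br .no .no (.br (.de 34) .no .no (.br (.br (.br .no (.br (.br .no .no .no (.br (.br .no (.br .no .no (.br .no .no (.br .no .no .no (.br .no .no (.de 45) .no)) .no) (.de 47)) (.br .no .no .no (.br .no .no (.br .no .no .no (.br .no .no (.de 45) .no)) .no)) .no) (.br .no .no (.br .no .no .no (.br .no .no (.br .no .no .no (.br .no .no (.de 45) .no)) .no))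 .no) .no .no)) .no .no (.br (.br .no (.br .no .no (.br .no .no .no (.br .no .no (.de 43) .no)) .no) .no .no) .no .no .no)) .no .no) .no (.br (.br .no .no .no (.br (.br .no (.br .no .no (.br .no .no .no (.sw 0 1 [28,34])) .no) .no .no) .no .no .no)) (.de 42) .no .no) .no) .no .no .no)) (.br (.de 34) .no .no .no)) .no .no) .no)) .no .no) .no) (.de 27) .no) .no (.sw 0 1 [18]) .no)) .no .no (.br (.br .no .no (.br .no (.br .no .no (.sw 0 3 [19,20]) .no) .no .no) .no) .no .no .no)) .no)) .no .no .no)) .no .no) .no) .no c1_5_3) .no .no .no) 15 382448196 1073741824 (by norm_num) (by norm_num) (by norm_num) (by decide +kernel)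

end T7
end Pool.Agent.H411R2.WSK
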