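import Pool.Agent.H411R2.WSK.T7

set_option maxRecDepth 100000
set_option linter.all false

namespace Pool.Agent.H411R2.WSK

namespace T7

def c2_0_0 : Cert := (.br .no (.br (.br .no (.br .no .no (.br (.br .no (.br .no .no (.br .no .no .no (.br .no .no (.br (.br .no (.br .no .no (.br (.br .no (.de 41) .no .no) .no .no (.de 45)) (.br (.br .no (.de 41) .no .no) .no .no .no)) .no (.br .no .no (.de 44) .no)) .no .no (.br .no (.br .no .no (.br (.br .no (.de 41) .no .no) .no .no (.de 45)) (.br (.br .no (.de 41) .no .no) .no .no .no)) .no .no)) (.br (.br .no (.br .no .no (.br (.br .no (.br .no .no (.br .no (.de 48) (.br .no .no .no (.de 44)) .no) .no) .no .no) .no .no (.de 45)) (.br (.br .no (.br .no .no (.br .no (.de 48) (.br .no .no .no (.br .no .no (.de 45) .no)) .no) .no) .no .no) .no .no .no)) .no (.br .no .no (.de 44) .no)) .no .no .no))) (.de 34)) .no (.br .no .no (.br .no .no .no (.br .no .no (.br (.br .no (.br .no .no (.br (.sw 1 3 [32]) (.br (.br .no (.de 48) .no .no) .no .no .no) .no .no)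 .no) .no (.br .no (.br (.br .no (.de 41) .no .no) .no .no .no) (.de 44) .no)) .no .no (.br .no (.br .no .no (.br (.sw 1 3 [32]) (.br (.br .no (.de 48) .no .no) .no .no .no) .no .no) .no) .no .no)) (.br (.br .no (.br .no .no (.br (.sw 1 3 [32]) (.br (.br .no (.br .no (.br .no .no (.br .no .no .no (.de 45)) (.de 44)) (.de 48) .no) (.br .no (.de 48) (.br .no .no .no (.de 44)) .no) .no) .no .no .no) .no .no) .no) .no (.br .no (.br (.br .no (.br .no .no (.br .no (.de 48) (.de 43) .no) .no) .no .no) .no .no .no) (.de 44) .no)) .no .no .no))) .no)) .no .no (.br .no (.br .no .no (.br .no .no .no (.br .no .no (.br (.br .no (.br (.br .no .no .no (.br (.de 46) (.de 41) .no .no)) .no (.sw 0 3 [31]) .no) .no .no) .no .no (.br (.br .no .no (.br (.br .no (.de 41) .no .no) .no .no (.de 45)) .no) (.br (.br .no .no .no (.br (.de 46) (.de 41) .no .no)) .no (.sw 0 3 [31]) .no) .no .no)) (.br (.br .no (.br (.br .no .no .no (.br (.de 46) (.br .no .no (.br .no (.de 48) (.br .no .no .no (.br .no .no (.de 45) .no)) .no)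 .no) .no .no)) .no (.sw 0 3 [31]) .no) .no .no) .no .no .no))) (.de 34)) .no .no)) (.br (.br .no (.br .no .no (.br .no .no .no (.br .no .no (.br (.br .no (.sw 2 3 [30]) (.br .no .no .no (.de 44)) .no) .no .no .no) (.br (.br .no (.sw 2 3 [30]) (.br .no .no .no (.de 44)) .no) .no (.br .no (.br .no .no (.br (.br .no (.br .no .no (.br .no (.de 48) .no .no) .no) .no .no) .no .no (.de 45)) (.br (.br .no (.br .no .no (.br .no (.de 48) .no .no) .no) .no .no) .no .no .no)) .no .no) .no))) (.de 34)) .no (.br .no .no (.br .no .no .no (.br .no .no (.br (.br .no (.sw 2 3 [30]) (.br .no (.br (.br .no (.de 41) .no .no) .no .no .no) .no .no) .no) .no .no .no) (.br (.br .no (.sw 2 3 [30]) (.br .no (.br (.br .no (.br .no .no (.br .no (.de 48) (.br .no .no .no (.de 44)) .no) .no) .no .no) .no .no .no) .no .no) .no) .no (.br .no (.br .no .no (.br (.sw 1 3 [32]) (.br (.br .no (.br .no (.br .no .no .no (.de 44)) .no .no) (.br .no (.de 48) .no .no) .no) .no .no .no) .no .no) .no) .no .no) .no))) .no)) .no .no .no))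 (.br .no .no .no (.br (.br .no (.br .no .no (.br .no .no .no (.br .no (.br (.br .no (.br .no .no (.br (.br .no (.br .no .no (.de 48) .no) .no .no) .no .no (.de 45)) (.br (.br .no (.br .no .no (.de 48) .no) .no .no) .no .no .no)) (.br .no .no .no (.de 44)) .no) .no .no .no) .no (.br (.sw 1 2 [29]) (.br .no .no (.br .no .no .no (.de 44)) .no) .no .no))) (.de 34)) .no (.br .no .no (.br .no .no .no (.br .no (.br (.br .no (.br .no .no (.br (.sw 1 3 [32]) (.br (.br .no .no (.de 48) .no) .no .no .no) .no .no) .no) (.br .no (.br (.br .no (.br .no .no (.de 48) .no) .no .no) .no .no .no) .no .no) .no) .no .no .no) .no (.br (.sw 1 2 [29]) (.br .no .no (.br .no (.br (.br .no (.br .no .no (.br .no .no (.br .no .no .no (.de 44)) .no) .no) .no .no) .no .no .no) .no .no) .no) .no .no))) .no)) .no .no .no)) .no) (.br .no .no (.br .no .no .no (.br (.br .no (.br .no .no (.br (.br (.br .no (.br .no .no (.br .no .no .no (.de 44)) .no) .no .no) .no .no (.br (.br .no (.br .no .no (.br (.br .no (.br .no .no (.br .no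 (.de 48) (.br .no .no .no (.de 44)) .no) .no) .no (.de 46)) .no .no (.de 45)) (.br (.br .no (.br .no .no (.br .no (.de 48) (.br .no .no .no (.br .no .no (.de 45) .no)) .no) .no) .no (.de 46)) .no .no .no)) (.br .no .no .no (.de 44)) .no) (.br .no .no (.br .no .no .no (.de 44)) .no) .no .no)) .no .no (.br (.br .no (.br .no .no (.br .no .no .no (.de 44)) .no) .no .no) .no .no (.br (.br .no (.br .no .no (.br (.br .no (.br (.br .no (.br .no .no (.br .no .no .no (.de 45)) (.de 44)) (.br .no .no .no (.de 44)) .no) .no (.sw 0 1 [28]) .no) .no .no) .no .no (.de 45)) (.br (.br .no (.br (.br .no (.br .no .no (.de 44) (.br .no .no (.de 45) .no)) (.br .no .no .no (.br .no .no (.de 45) .no)) .no) .no (.sw 0 1 [28]) .no) .no .no) .no .no .no)) (.br .no .no .no (.de 44)) .no) (.br .no .no (.br .no .no .no (.de 44)) .no) .no .no))) (.br (.br (.br .no (.br .no .no (.br .no .no .no (.de 44)) .no) .no .no) .no .no (.br (.br .no (.br .no .no (.br (.br .no (.sw 2 3 [33]) (.de 41) .no) .no .no .no) (.br (.br .no (.sw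 2 3 [33]) (.de 41) .no) .no (.de 45) .no)) (.br .no .no .no (.de 44)) .no) (.br .no .no (.br .no .no .no (.de 44)) .no) .no .no)) .no .no .no)) .no (.br .no .no (.br (.br (.br .no (.br .no .no (.br .no (.br (.br .no (.br .no .no (.br .no .no (.br .no .no .no (.de 44)) .no) (.de 47)) .no (.de 46)) .no .no .no) .no .no) .no) .no .no) .no .no (.br (.br .no (.br .no .no (.br (.sw 1 3 [32]) (.br .no .no .no (.br .no .no (.br .no (.de 48) (.br .no .no .no (.de 44)) .no) .no)) .no .no) .no) (.br .no (.br (.br .no (.br .no .no (.br .no (.de 48) (.br .no .no .no (.de 44)) .no) .no) .no (.de 46)) .no .no .no) .no .no) .no) (.br .no .no (.br .no (.br (.br .no (.br .no .no (.br .no .no (.br .no .no .no (.de 44)) .no) .no) .no (.de 46)) .no .no .no) .no .no) .no) .no .no)) .no .no (.br (.br .no (.br .no .no (.br .no (.br (.br .no (.br .no .no (.sw 0 3 [34]) .no) .no .no) .no .no .no) .no .no) .no) .no .no) .no .no (.br (.br .no (.br .no .no (.br (.sw 1 3 [32]) (.br (.br .no .no (.sw 0 1 [28]) .no) .no .no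 .no) .no .no) .no) (.br .no (.br (.br .no (.br (.br .no (.br .no .no .no (.de 44)) (.br .no .no .no (.de 44)) .no) .no (.sw 0 1 [28]) .no) .no .no) .no .no .no) .no .no) .no) (.br .no .no (.br .no (.br (.br .no (.br (.br .no .no (.br .no .no .no (.de 44)) .no) .no (.sw 0 1 [28]) .no) .no .no) .no .no .no) .no .no) .no) .no .no))) .no)) .no .no .no)) .no) .no .no) .no (.br (.br .no (.br .no .no (.br (.br .no (.br .no .no (.br .no (.br .no .no (.br (.br .no (.br .no .no (.br (.br .no .no .no (.de 41)) .no .no (.de 45)) (.br (.br .no .no .no (.de 41)) .no .no .no)) .no (.br .no .no (.de 44) .no)) .no .no (.br .no (.br .no .no (.br (.br .no .no .no (.de 41)) .no .no (.de 45)) (.br (.br .no .no .no (.de 41)) .no .no .no)) .no .no)) (.br (.br .no (.br .no .no (.br (.br .no .no .no (.de 46)) .no .no (.de 45)) (.br (.br .no .no .no (.de 46)) .no .no .no)) .no (.br .no .no (.de 44) .no)) .no .no .no)) .no .no) .no) .no (.br .no (.de 34) (.br .no (.br .no .no (.br (.br .no (.br .no .no (.br (.sw 1 3 [32])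 (.br (.br .no .no .no (.br .no (.de 48) .no .no)) .no .no (.de 41)) .no .no) .no) .no (.br .no (.br (.br .no .no .no (.de 41)) .no .no .no) (.de 44) .no)) .no .no (.br .no (.br .no .no (.br (.sw 1 3 [32]) (.br (.br .no .no .no (.br .no (.de 48) .no .no)) .no .no (.de 41)) .no .no) .no) .no .no)) (.br (.br .no (.br .no .no (.br (.sw 1 3 [32]) (.br (.br .no .no (.sw 1 3 [27,34]) .no) .no .no (.br .no .no (.br .no (.de 48) (.br .no .no .no (.de 44)) .no) .no)) .no .no) .no) .no (.br .no (.br (.br .no .no .no (.de 46)) .no .no .no) (.de 44) .no)) .no .no .no)) .no .no) .no)) .no .no (.br .no (.br .no .no (.br .no (.br .no .no (.br (.br .no (.br (.br .no .no .no (.br (.de 46) .no .no .no)) .no (.sw 0 3 [31]) .no) .no .no) .no .no (.br (.br .no .no (.br (.br .no .no .no (.de 41)) .no .no (.de 45)) .no) (.br (.br .no .no .no (.br (.de 46) .no .no .no)) .no (.sw 0 3 [31]) .no) .no .no)) (.br (.br .no (.br (.br .no .no .no (.br (.de 46) .no .no .no)) .no (.sw 0 3 [31]) .no) .no .no) .no .no .no)) .no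 .no) .no) .no .no)) (.br (.br .no (.br .no .no (.br .no (.br .no .no (.br (.br .no (.sw 2 3 [30]) (.br .no .no .no (.de 44)) .no) .no .no .no) (.br (.br .no (.sw 2 3 [30]) (.br .no .no .no (.de 44)) .no) .no (.br .no (.br .no .no (.br (.br .no .no .no (.de 46)) .no .no (.de 45)) (.br (.br .no .no .no (.de 46)) .no .no .no)) .no .no) .no)) .no .no) .no) .no (.br .no (.de 34) (.br .no (.br .no .no (.br (.br .no (.sw 2 3 [30]) (.br .no (.br (.br .no .no .no (.de 41)) .no .no .no) .no .no) .no) .no .no .no) (.br (.br .no (.sw 2 3 [30]) (.br .no (.br (.br .no .no .no (.de 46)) .no .no .no) .no .no) .no) .no (.br .no (.br .no .no (.br (.sw 1 3 [32]) (.br (.br .no .no (.sw 1 3 [27,34]) .no) .no .no (.br .no .no (.sy 36 135 6) .no)) .no .no) .no) .no .no) .no)) .no .no) .no)) .no .no .no)) (.br .no .no .no (.br (.br .no (.br .no .no (.br .no (.br .no (.br (.br .no (.br .no .no (.br (.br .no .no .no (.de 46)) .no .no (.de 45)) (.br (.br .no .no .no (.de 46)) .no .no .no)) (.br .no .no .no (.de 44)) .no)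 .no .no .no) .no (.br (.sw 1 2 [29]) (.br .no .no (.br .no .no .no (.de 44)) .no) .no .no)) .no .no) .no) .no (.br .no (.de 34) (.br .no (.br .no (.br (.br .no (.br .no .no (.br (.sw 1 3 [32]) (.br (.br .no .no (.de 48) (.br .no .no (.de 48) .no)) .no .no (.br .no .no (.de 48) .no)) .no .no) .no) (.br .no (.br (.br .no .no .no (.de 46)) .no .no .no) .no .no) .no) .no .no .no) .no (.br (.sw 1 2 [29]) (.br .no .no (.br .no (.br (.br .no .no .no (.de 46)) .no .no .no) .no .no) .no) .no .no)) .no .no) .no)) .no .no .no)) .no) (.br .no .no (.br .no .no .no (.br (.br .no (.br .no .no (.br (.sw 1 3 [27]) .no .no .no) .no) .no (.br .no (.br (.br (.br .no (.br .no .no (.br .no (.br (.br .no .no (.br .no .no .no (.br .no .no (.br .no .no .no (.de 44)) .no)) (.de 46)) .no (.br .no .no .no (.br .no .no (.br .no .no (.br .no .no .no (.de 44)) .no) .no)) .no) .no .no) .no) .no .no) .no .no (.br (.br .no (.br .no .no (.br (.br .no .no (.de 41) (.de 46)) .no .no .no) .no) (.br .no (.br (.br .no .no (.de 41)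 (.de 46)) .no (.br .no .no .no (.br .no .no (.br .no (.de 48) (.br .no .no .no (.de 44)) .no) .no)) .no) .no .no) .no) (.br .no .no (.br .no (.br (.br .no .no (.de 41) (.de 46)) .no (.br .no .no .no (.br .no .no (.sy 39 75 6) .no)) .no) .no .no) .no) .no .no)) .no .no .no) (.br (.sw 1 3 [27]) .no .no .no) .no)) .no .no .no)) .no) .no .no))

def c2_0_1 : Cert := (.br (.br .no (.br .no .no (.br c2_0_0 (.br .no .no .no (.br (.br .no (.br .no .no (.br (.br .no .no .no (.br (.br .no (.br .no .no (.br (.br .no (.br .no .no (.br .no (.br .no .no (.sy 33 228 7) (.de 41)) .no .no) .no) .no (.br .no (.br .no .no (.br .no .no .no (.de 41)) .no) (.de 44) .no)) .no .no (.br .no (.br .no .no (.br .no (.br .no .no (.sy 33 228 7) (.de 41)) .no .no) .no) .no .no)) (.br (.br .no (.br .no .no (.br .no (.br .no .no (.de 41) (.br .no .no (.br .no (.de 48) (.br .no .no .no (.de 44)) .no) .no)) .no .no) .no) .no (.br .no (.br .no .no (.br .no .no .no (.br .no .no (.br .no (.de 48) (.de 43) .no) .no)) .no) (.de 44)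 .no)) .no .no .no)) .no .no) .no (.sw 0 1 [26]) .no)) .no .no (.br (.br .no .no (.br .no (.br .no .no (.br (.br .no (.br .no .no (.br .no (.sw 0 3 [31,32]) .no (.de 45)) .no) .no .no) .no .no (.br (.br .no (.br .no .no .no (.br (.de 46) .no .no .no)) (.br .no (.br (.br .no .no .no (.br .no (.de 48) .no .no)) .no .no (.de 41)) .no (.de 45)) .no) (.br .no .no (.br .no (.sw 0 3 [31,32]) .no (.de 45)) .no) .no .no)) (.br (.br .no (.br .no .no (.br .no (.sw 0 3 [31,32]) .no (.de 45)) .no) .no .no) .no .no .no)) .no .no) .no) .no .no .no)) (.br (.br .no .no .no (.br (.br .no (.sy 33 180 6) .no .no) .no (.sw 0 1 [26]) .no)) .no .no .no)) (.br .no .no .no (.br (.br .no .no .no (.br (.br .no (.br .no (.br (.br .no (.br .no .no (.br .no (.br .no .no (.br .no .no .no (.br .no .no (.de 48) .no)) (.br .no .no (.de 48) .no)) .no .no) .no) (.br .no (.br .no .no (.br .no .no .no (.br .no .no (.de 48) .no)) .no) .no .no) .no) .no .no .no) .no (.br (.sw 1 2 [29]) (.br .no .no (.br .no (.br .no .no (.br .no .no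 .no (.br .no .no (.sw 0 1 [26,28,33,34]) .no)) .no) .no .no) .no) .no .no)) .no .no) .no (.sw 0 1 [26]) .no)) .no .no .no)) .no) (.br .no .no (.br .no .no .no (.br (.br .no .no .no (.br (.de 34) .no (.sw 0 1 [26]) .no)) .no .no .no)) .no) .no .no)) .no .no) .no) (.br .no (.br (.br .no (.br (.br .no (.br .no .no .no (.br (.br .no .no (.br .no .no .no (.de 34)) (.sw 1 2 [24,25])) .no .no .no)) (.br .no (.br (.br .no .no (.br .no .no .no (.de 34)) (.br .no .no (.br .no .no .no (.br .no (.br (.br .no .no (.br .no (.br (.br .no (.br .no .no (.de 48) .no) .no .no) .no .no .no) .no .no) (.br .no (.br (.br .no (.br .no .no (.de 48) .no) .no .no) .no .no .no) (.de 44) .no)) .no .no (.br .no .no (.de 43) .no)) .no (.br (.br .no .no (.br .no (.br (.br .no (.br .no .no (.br .no (.de 48) (.br .no .no .no (.de 44)) .no) .no) .no .no) .no .no .no) .no .no) (.sw 1 2 [24,25,29,30])) .no .no .no))) .no)) .no .no (.br .no .no (.br .no .no .no (.de 34)) .no)) .no (.br (.br .no .no (.br .no .no .no (.de 34)) (.sw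 1 2 [24,25])) .no .no .no)) .no) (.br .no .no (.br .no (.br (.br .no .no (.br .no .no .no (.br (.br (.br .no .no .no (.br .no .no (.de 43) .no)) .no .no (.br (.br .no .no (.br .no (.br (.br .no (.br .no .no (.br .no (.de 48) (.br .no .no .no (.de 44)) .no) .no) (.de 41) .no) .no .no .no) .no (.de 44)) (.br .no (.br (.br .no (.br .no .no (.br .no (.de 48) (.de 43) .no) .no) (.de 41) .no) .no .no .no) .no .no)) .no .no .no)) .no .no .no)) (.br .no .no (.br (.br (.br .no .no .no (.br .no .no (.de 43) .no)) .no .no (.br (.br .no .no (.br .no (.br (.br .no (.sw 2 3 [32,33]) .no (.de 46)) .no .no .no) .no .no) (.br .no (.br (.br .no (.sw 2 3 [32,33]) .no (.de 46)) .no .no .no) (.de 44) .no)) .no .no .no)) .no .no (.br (.br .no .no .no (.br .no .no (.de 43) .no)) .no .no (.br (.br .no .no (.br .no (.br (.br .no (.br (.br .no (.br .no .no .no (.de 44)) (.br .no .no .no (.de 44)) .no) .no (.sw 0 1 [28]) .no) .no .no) .no .no .no) .no .no) (.br .no (.br (.br .no (.br (.sy 41 120 6) .no (.sw 0 1 [28]) .no)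 .no .no) .no .no .no) (.de 44) .no)) .no .no .no))) .no)) .no .no (.br .no .no (.br .no .no .no (.br (.br (.br .no .no .no (.br (.br .no (.br (.br .no (.br .no .no (.br .no (.de 48) (.de 43) .no) (.de 47)) (.br .no .no .no (.br .no (.br .no .no (.br .no .no .no (.br .no .no (.br .no .no .no (.br .no (.br .no .no (.sw 0 2 [4,5,10,12,16,18,23,24,29,35,48]) .no) .no .no)) .no)) .no) (.de 43) .no)) .no) .no .no .no) .no .no) .no (.de 43) .no)) .no .no (.br (.br .no .no (.br (.br .no (.br .no .no (.de 41) .no) .no .no) (.sw 0 3 [31]) .no .no) .no) .no .no .no)) .no .no .no)) .no)) .no (.br (.br .no .no (.br .no .no .no (.br (.br (.br .no (.br .no .no (.br .no (.br (.br .no (.br .no .no (.br .no .no (.br .no .no .no (.de 44)) .no) (.de 47)) (.br .no .no .no (.br .no .no (.br .no .no .no (.de 44)) .no)) .no) .no .no .no) .no (.de 44)) .no) .no .no) .no .no (.br (.br .no (.br .no .no .no (.br (.sw 1 2 [24,25,32]) (.br .no .no (.de 41) .no) .no .no)) (.sw 1 3 [30]) .no) (.br .no .no (.br .no (.br (.br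 .no (.br .no .no (.br .no .no (.br .no .no .no (.de 44)) .no) .no) (.de 41) .no) .no .no .no) .no (.de 44)) .no) .no .no)) .no .no .no)) (.sw 1 2 [24,25])) .no .no .no)) .no) .no .no) .no (.br (.br .no (.br .no .no .no (.br (.br .no .no (.br .no (.de 34) .no .no) (.sw 1 2 [24,25])) .no .no .no)) (.br .no (.br (.br .no .no (.br .no (.de 34) .no .no) (.br .no (.de 34) (.br .no (.br .no (.br (.br .no .no (.br .no (.br (.br .no .no .no (.de 46)) .no .no .no) .no .no) (.br .no (.br (.br .no .no .no (.de 46)) .no .no .no) (.de 44) .no)) .no .no (.br .no .no (.de 43) .no)) .no (.br (.br .no .no (.br .no (.br (.br .no .no .no (.de 46)) .no .no .no) .no .no) (.sw 1 2 [24,25,29,30])) .no .no .no)) .no .no) .no)) .no .no (.br .no .no (.br .no (.de 34) .no .no) .no)) .no (.br (.br .no .no (.br .no (.de 34) .no .no) (.sw 1 2 [24,25])) .no .no .no)) .no) (.br .no .no (.br .no (.br (.br .no .no (.br .no (.br (.br (.br .no .no .no (.br .no .no (.de 43) .no)) .no .no (.br (.br .no .no (.br .no (.br (.br .no .no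 (.de 41) (.de 46)) .no .no (.br .no .no (.de 41) .no)) .no (.de 44)) (.br .no (.br (.br .no .no (.de 41) (.de 46)) .no .no (.br .no .no (.de 41) .no)) .no .no)) .no .no .no)) .no .no .no) .no .no) (.br .no (.br (.br (.br .no .no .no (.br .no .no (.de 43) .no)) .no .no (.br (.br .no .no (.br .no (.br (.sw 2 3 [32]) .no (.br .no .no .no (.br .no .no (.br .no (.de 48) (.br .no .no .no (.de 44)) .no) .no)) .no) .no .no) (.br .no (.br (.sw 2 3 [32]) .no (.br .no .no .no (.br .no .no (.br .no (.de 48) (.de 43) .no) .no)) .no) (.de 44) .no)) .no .no .no)) .no .no .no) (.br (.sw 1 3 [27]) .no .no .no) .no)) .no .no (.br .no .no (.br .no (.br (.br (.br .no .no .no (.br (.br .no (.br (.br .no .no (.sw 1 3 [27,33]) (.de 46)) .no .no (.br .no .no (.br .no .no .no (.br .no (.br .no .no (.br .no .no .no (.br .no .no (.br (.br .no (.sw 0 3 [39,46]) .no .no) .no .no .no) .no)) .no) (.de 43) .no)) .no)) .no .no) .no (.de 43) .no)) .no .no (.br (.br .no .no (.br (.br .no .no .no (.br .no .no (.de 41) .no)) (.sw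 0 3 [31]) .no .no) .no) .no .no .no)) .no .no .no) .no .no) .no)) .no (.br (.br .no .no (.br .no (.br (.br (.br .no (.br .no .no (.br .no (.br (.br .no .no (.sw 1 3 [27,33]) (.de 46)) .no .no (.br .no .no (.br .no .no .no (.br .no .no (.br .no .no .no (.de 44)) .no)) .no)) .no (.de 44)) .no) .no .no) .no .no (.br (.br .no (.br .no .no .no (.br (.br .no .no (.de 41) (.de 46)) .no .no .no)) (.sw 1 3 [30]) .no) (.br .no .no (.br .no (.br (.br .no .no (.de 41) (.de 46)) .no .no (.br .no .no (.de 41) .no)) .no (.de 44)) .no) .no .no)) .no .no .no) .no .no) (.sw 1 2 [24,25])) .no .no .no)) .no) .no .no)) .no .no .no) .no .no) .no) (.br .no .no (.br .no (.br (.br .no (.br (.br .no .no (.br (.br .no .no .no (.br .no .no (.br .no .no .no (.de 34)) .no)) .no .no (.sw 0 1 [23])) .no) (.br (.br .no .no .no (.br (.br .no .no (.br .no .no .no (.br (.br .no .no (.br .no (.de 42) .no .no) (.br .no (.br .no .no (.br .no (.br (.br .no (.br .no .no (.br .no .no (.br .no .no .no (.de 44)) .no) .no) (.de 41) .no)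 .no .no .no) .no (.de 44)) .no) (.br .no (.br .no .no .no (.br (.br .no (.br .no .no (.br .no (.de 48) .no .no) .no) (.de 41) .no) (.br .no .no (.de 41) .no) .no .no)) .no .no) .no)) .no .no .no)) (.br .no .no (.br (.br .no .no (.br .no (.de 42) .no .no) (.br .no (.br .no .no (.br .no (.br (.br .no (.sw 2 3 [32,33]) .no (.de 46)) .no .no .no) .no .no) .no) (.sy 29 108 7) .no)) .no .no (.br .no .no (.br .no (.de 42) .no .no) (.br .no (.br .no .no (.br .no (.br (.br .no (.br (.br .no .no (.br .no .no .no (.de 44)) .no) .no (.sw 0 3 [34]) .no) .no .no) .no .no .no) .no .no) .no) (.br .no (.br .no .no (.br (.br .no (.br (.br .no (.br .no .no .no (.de 44)) .no .no) .no (.sw 0 3 [34]) .no) .no .no) (.br (.br .no .no (.sw 0 1 [23,28,29]) .no) .no .no .no) .no .no) .no) .no .no) .no))) .no)) .no .no .no)) .no (.sw 0 3 [22]) .no) .no .no) .no (.br (.br .no .no (.br (.br .no .no .no (.br .no .no (.br .no (.de 34) .no .no) .no)) .no .no (.sw 0 1 [23])) .no) (.br (.br .no .no .no (.br (.br .no .no (.br .no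 (.br (.br .no .no (.br .no (.de 42) .no .no) (.br .no (.br .no .no (.br .no (.br (.br .no .no (.de 41) (.de 46)) .no .no (.br .no .no (.de 41) .no)) .no (.de 44)) .no) (.br .no (.br .no .no .no (.br (.br .no .no (.de 41) (.de 46)) .no .no .no)) .no .no) .no)) .no .no .no) .no .no) (.br .no (.br (.sy 29 120 6) .no .no .no) (.br (.sw 1 3 [27]) .no .no .no) .no)) .no .no .no)) .no (.sw 0 3 [22]) .no) .no .no)) .no .no .no) .no .no) .no) .no .no)

def c2_0_2 : Cert := (.br .no .no (.br (.br .no (.br .no .no (.br .no (.br (.br .no (.br .no (.br .no .no (.br (.br .no .no .no (.br .no .no (.br .no .no .no (.br (.br (.br .no (.br .no .no (.br (.br .no (.br .no .no (.br .no .no .no (.br .no .no (.br .no .no .no (.de 44)) .no)) .no) .no .no) (.br (.br .no (.br .no .no (.br .no .no (.br .no .no .no (.de 44)) .no) (.de 47)) (.br .no .no .no (.br .no .no (.br .no .no .no (.de 44)) .no)) .no) .no .no .no) .no .no) .no) .no (.br .no (.br (.br .no (.br .no .no (.br .no .no .no (.br .no (.br .no .no (.br .no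 .no .no (.br .no .no (.br (.br .no (.br .no .no (.sw 2 3 [6,7,8,9,12,16,17,19,20,24,31,32,33,40,41,48]) .no) .no .no) .no .no (.br .no (.sw 0 3 [46]) .no .no)) .no)) .no) (.de 43) .no)) .no) .no .no) .no .no .no) (.de 43) .no)) .no .no (.br .no (.br .no .no (.br (.br .no (.br .no .no (.de 41) .no) .no .no) (.br (.br .no (.br .no .no (.br .no .no (.br .no .no .no (.de 44)) .no) .no) (.de 41) .no) .no .no .no) .no .no) .no) .no .no)) .no .no .no)) .no)) .no .no (.br (.br .no .no (.br .no .no .no (.br (.br (.br .no (.br .no .no (.br .no (.sw 0 3 [30,31]) .no (.de 44)) .no) .no .no) .no .no (.br (.br .no (.br .no .no .no (.br (.br .no (.br .no .no (.br .no (.de 48) (.br .no .no .no (.br .no .no (.de 45) .no)) .no) .no) (.de 41) .no) (.br .no .no (.de 41) .no) .no .no)) (.br .no (.br (.br .no (.br .no .no (.br .no (.de 48) (.br .no .no .no (.de 44)) .no) .no) (.de 41) .no) .no .no .no) .no (.de 44)) .no) (.br .no .no (.br .no (.sw 0 3 [30,31]) .no (.de 44)) .no) .no .no)) .no .no .no)) (.br .no .no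 (.br (.br (.br .no (.br .no .no (.br .no (.br (.br .no (.sw 2 3 [32,33]) .no (.de 46)) .no .no .no) .no .no) .no) .no .no) .no .no (.br (.br .no (.br .no .no (.br (.br .no (.br .no .no (.br .no (.de 48) (.br .no .no .no (.de 44)) .no) .no) .no (.de 46)) (.br .no .no .no (.br .no .no (.br .no (.de 48) (.br .no .no .no (.de 44)) .no) .no)) .no .no) .no) (.br .no (.br (.br .no (.sw 2 3 [32,33]) .no (.de 46)) .no .no .no) .no .no) .no) (.br .no .no (.br .no (.br (.br .no (.sw 2 3 [32,33]) .no (.de 46)) .no .no .no) .no .no) .no) .no .no)) .no .no (.br (.br .no (.br .no .no (.br .no (.br (.br .no (.br .no .no (.sw 0 3 [34]) .no) .no .no) .no .no .no) .no .no) .no) .no .no) .no .no (.br (.br .no (.br .no .no (.br (.br .no (.br (.br .no (.br .no .no (.br .no .no .no (.de 45)) (.de 44)) (.br .no .no .no (.de 44)) .no) .no (.sw 0 3 [34]) .no) .no .no) (.br (.br .no .no (.br .no (.de 48) (.br .no .no .no (.de 44)) .no) .no) .no .no .no) .no .no) .no) (.br .no (.br (.br .no (.br (.br .no (.br .no .no .no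 (.de 44)) (.br .no .no .no (.de 44)) .no) .no (.sw 0 3 [34]) .no) .no .no) .no .no .no) .no .no) .no) (.br .no .no (.br .no (.br (.br .no (.br (.br .no .no (.br .no .no .no (.de 44)) .no) .no (.sw 0 3 [34]) .no) .no .no) .no .no .no) .no .no) .no) .no .no))) .no)) .no .no .no)) (.br (.br .no .no .no (.br .no .no (.br .no .no .no (.br (.br (.br .no (.sw 2 3 [29]) (.br .no (.br (.br .no (.br .no .no (.br .no .no .no (.br .no (.br .no .no .no (.br .no .no (.br .no .no .no (.br (.sw 2 3 [29,36,43,44,45]) .no .no .no)) .no)) .no .no)) .no) .no .no) .no .no .no) .no .no) .no) .no (.br .no (.de 42) .no .no) .no) .no .no .no)) .no)) .no .no .no)) .no (.br .no .no (.br (.br .no .no .no (.br .no .no (.br .no .no .no (.br (.br (.br .no (.br .no .no (.br (.br .no (.br .no .no (.br .no (.br .no .no (.de 48) .no) .no .no) .no) .no .no) (.br (.br .no (.br .no .no (.sw 1 3 [28]) .no) (.br .no (.br .no .no (.de 48) .no) .no .no) .no) .no .no .no) .no .no) .no) .no (.br .no (.br (.br .no (.br .no .no (.br .no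 (.br .no (.br .no .no (.br .no .no .no (.br .no .no (.br (.br .no .no .no (.br .no .no (.sw 1 3 [28,41,47]) .no)) .no .no (.de 47)) .no)) .no) (.de 43) .no) .no .no) .no) .no .no) .no .no .no) (.de 43) .no)) (.br .no .no .no (.br .no (.br (.br .no (.br .no .no (.de 41) .no) .no .no) .no .no .no) (.de 43) .no)) .no .no) .no .no .no)) .no)) .no .no (.br (.br .no .no (.br .no .no .no (.br (.br (.br .no (.br .no .no (.br .no (.sw 0 3 [30,31]) .no (.de 44)) .no) .no .no) (.br (.br .no (.br .no .no .no (.br (.br .no (.br .no .no (.de 48) .no) (.de 41) .no) (.br .no .no (.de 41) .no) .no .no)) (.br .no (.br (.br .no (.br .no .no (.de 48) .no) (.de 41) .no) .no .no .no) .no (.de 44)) .no) .no .no .no) .no .no) .no .no .no)) (.br .no .no (.br (.br (.br .no (.br .no .no (.br .no (.br (.br .no (.sw 2 3 [32,33]) .no (.de 46)) .no .no .no) .no .no) .no) .no .no) (.br (.br .no (.br .no .no (.br (.br .no (.br .no .no (.de 48) .no) .no (.de 46)) (.br .no .no .no (.br .no .no (.de 48) .no)) .no .no) .no) (.br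 .no (.br (.br .no (.sw 2 3 [32,33]) .no (.de 46)) .no .no .no) .no .no) .no) .no .no .no) .no .no) .no .no .no) .no)) .no .no .no)) .no)) .no (.br .no (.br .no .no (.br (.br .no .no .no (.br .no .no (.br .no (.br (.br (.br .no (.br .no .no (.br (.br .no .no .no (.br .no .no (.br .no .no .no (.br .no .no (.br .no .no .no (.de 44)) .no)) .no)) (.br (.br .no .no (.sw 1 3 [27,33]) (.de 46)) .no .no (.br .no .no (.br .no .no .no (.br .no .no (.br .no .no .no (.de 44)) .no)) .no)) .no .no) .no) .no (.br .no (.br (.br .no .no .no (.br .no .no (.br .no .no .no (.br .no (.br .no .no (.br .no .no .no (.br .no .no (.br (.sw 1 3 [27,33,39]) .no .no .no) .no)) .no) (.de 43) .no)) .no)) .no .no .no) (.de 43) .no)) .no .no (.br .no (.br .no .no (.br (.br .no .no .no (.br .no .no (.de 41) .no)) (.br (.br .no .no (.de 41) (.de 46)) .no .no (.br .no .no (.de 41) .no)) .no .no) .no) .no .no)) .no .no .no) .no .no) .no)) .no .no (.br (.br .no .no (.br .no (.br (.br (.br .no (.br .no .no (.br .no (.sw 0 3 [30,31])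 .no (.de 44)) .no) .no .no) .no .no (.br (.br .no (.br .no .no .no (.br (.br .no .no (.de 41) (.de 46)) .no .no .no)) (.br .no (.br (.br .no .no (.de 41) (.de 46)) .no .no (.br .no .no (.de 41) .no)) .no (.de 44)) .no) (.br .no .no (.br .no (.sw 0 3 [30,31]) .no (.de 44)) .no) .no .no)) .no .no .no) .no .no) (.br .no (.br (.br (.br .no (.br .no .no (.br .no (.br (.sw 2 3 [32]) .no (.br .no .no .no (.br .no .no (.br .no .no (.br .no .no .no (.de 44)) .no) .no)) .no) .no .no) .no) .no .no) .no .no (.br (.br .no (.br .no .no (.br (.br .no .no (.de 41) (.de 46)) .no .no .no) .no) (.br .no (.br (.sw 2 3 [32]) .no (.br .no .no .no (.br .no .no (.br .no (.de 48) (.br .no .no .no (.de 44)) .no) .no)) .no) .no .no) .no) (.br .no .no (.br .no (.br (.sw 2 3 [32]) .no (.br .no .no .no (.br .no .no (.sy 39 75 6) .no)) .no) .no .no) .no) .no .no)) .no .no .no) (.br (.sw 1 3 [27]) .no .no .no) .no)) .no .no .no)) (.br (.br .no .no .no (.br .no .no (.br .no (.br (.br (.br .no (.sw 2 3 [29]) (.br .no (.br (.br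 .no .no .no (.br .no .no (.br .no .no .no (.br .no (.br .no .no .no (.br .no .no (.de 45) .no)) .no .no)) .no)) .no .no .no) .no .no) .no) .no (.br .no (.de 42) .no .no) .no) .no .no .no) .no .no) .no)) .no .no .no)) .no (.br .no .no (.br (.br .no .no .no (.br .no .no (.br .no (.br (.br (.br .no (.br .no .no (.br (.br .no .no .no (.br .no .no (.br .no (.br .no .no (.de 48) .no) .no .no) .no)) (.br (.br .no .no (.sw 1 3 [27,33]) (.de 46)) .no .no (.br .no .no (.br .no (.br .no .no (.de 48) .no) .no .no) .no)) .no .no) .no) .no (.br .no (.br (.br .no .no .no (.br .no .no (.br .no (.br .no (.br .no .no (.br .no .no .no (.br .no .no (.br (.sw 1 3 [27,33,39]) .no .no .no) .no)) .no) (.de 43) .no) .no .no) .no)) .no .no .no) (.de 43) .no)) (.br .no .no .no (.br .no (.br (.br .no .no .no (.br .no .no (.de 41) .no)) .no .no .no) (.de 43) .no)) .no .no) .no .no .no) .no .no) .no)) .no .no (.br (.br .no .no (.br .no (.br (.br (.br .no (.br .no .no (.br .no (.sw 0 3 [30,31]) .no (.de 44)) .no) .no .no)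 (.br (.br .no (.br .no .no .no (.br (.br .no .no (.de 41) (.de 46)) .no .no .no)) (.br .no (.br (.br .no .no (.de 41) (.de 46)) .no .no (.br .no .no (.de 41) .no)) .no (.de 44)) .no) .no .no .no) .no .no) .no .no .no) .no .no) (.br .no (.br (.br (.br .no (.br .no .no (.br .no (.br (.sw 2 3 [32]) .no (.br .no .no .no (.br .no (.de 47) (.sw 1 3 [28]) .no)) .no) .no .no) .no) .no .no) (.br (.br .no (.br .no .no (.br (.br .no .no (.de 41) (.de 46)) .no .no .no) .no) (.br .no (.br (.sw 2 3 [32]) .no (.br .no .no .no (.br .no .no (.de 48) .no)) .no) .no .no) .no) .no .no .no) .no .no) .no .no .no) (.br (.sw 1 3 [27]) (.br (.br .no (.br .no .no (.br .no (.br (.br .no .no .no (.de 46)) .no .no .no) .no .no) .no) .no .no) (.br (.br .no (.br .no .no (.br (.br .no .no .no (.de 46)) (.br (.br .no .no (.de 48) .no) .no .no (.br (.br .no .no (.de 48) .no) .no (.de 48) .no)) .no .no) .no) (.br .no (.br (.br .no .no .no (.de 46)) .no .no .no) .no .no) .no) .no .no .no) .no .no) .no .no) .no)) .no .no .no)) .no)))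 .no .no .no) .no .no) .no) .no .no) .no .no c2_0_1) (.br (.br .no (.br .no .no (.br .no (.br (.br .no (.br .no (.br .no .no (.br (.br .no .no .no (.br .no .no (.br .no .no .no (.br (.sw 2 3 [21]) .no (.br (.br .no (.br .no .no (.br (.br .no (.br (.br .no .no .no (.br .no .no (.br .no .no .no (.de 44)) .no)) .no .no .no) .no .no) (.br (.br .no (.br .no .no .no (.de 47)) .no .no) .no .no .no) .no .no) .no) .no (.br .no (.br (.br .no (.br (.br .no .no .no (.sy 40 120 6)) .no .no .no) .no .no) .no .no .no) (.de 43) .no)) .no .no (.br .no (.br .no .no (.br (.br .no (.br (.de 41) .no .no .no) .no .no) (.br (.br .no (.br (.br .no .no (.br .no .no .no (.de 44)) .no) .no .no .no) .no .no) .no .no .no) .no .no) .no) .no .no)) .no)) .no)) .no .no (.br (.br .no .no (.br .no .no .no (.br (.sw 2 3 [21]) .no (.br (.br .no (.br .no .no (.br .no (.sw 0 3 [30,31]) .no (.de 44)) .no) .no .no) .no .no (.br (.br .no (.br .no .no .no (.br (.br .no (.br (.br .no (.br .no .no (.de 44) (.br .no .no (.de 45) .no)) (.br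 .no .no .no (.br .no .no (.de 45) .no)) .no) .no .no .no) .no .no) (.br (.de 41) .no .no .no) .no .no)) (.br .no (.br (.br .no (.br (.sw 2 3 [21,32,33,34]) .no .no .no) .no .no) .no .no .no) .no (.de 44)) .no) (.br .no .no (.br .no (.sw 0 3 [30,31]) .no (.de 44)) .no) .no .no)) .no)) (.br .no .no (.br (.sw 2 3 [21]) .no .no .no) .no)) .no .no .no)) (.br (.br .no .no .no (.br .no .no (.br .no .no .no (.br (.sw 2 3 [21]) .no (.br (.br .no (.sw 2 3 [29]) (.br .no (.br (.br .no (.br (.br .no .no .no (.br .no (.br .no .no .no (.br .no .no (.br .no .no .no (.de 46)) .no)) .no .no)) .no .no .no) .no .no) .no .no .no) .no .no) .no) .no (.br .no (.de 42) .no .no) .no) .no)) .no)) .no .no .no)) (.br .no .no .no (.br (.br .no .no .no (.br .no .no (.br .no .no .no (.br (.br (.br .no (.br .no .no (.br (.br .no (.br .no .no (.br .no (.sw 2 3 [21,28,29]) .no (.sw 1 2 [28])) .no) .no .no) (.br (.br .no (.br .no .no .no (.de 47)) (.br .no (.sw 2 3 [21,28,29]) .no (.sw 1 2 [28])) .no) .no .no .no) .no .no) .no)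 (.br .no (.br (.br .no (.br .no .no (.br .no (.br .no (.br .no .no .no (.br .no .no (.br .no .no .no (.br (.sw 2 3 [21,28,29,36,43,44,45]) .no .no .no)) .no)) .no .no) .no (.sw 1 2 [28])) .no) .no .no) .no .no .no) .no .no) .no) (.br .no .no (.de 42) .no) .no .no) .no .no .no)) .no)) .no .no .no)) .no) .no .no) .no .no .no) .no .no) .no) .no .no) .no .no .no))

theorem P2_0 : R.S 15 105837124 :=
  R.piece L hL (.br .no (.br .no .no (.br .no .no .no (.br (.br .no .no .no (.br .no .no c2_0_2 .no)) .no .no .no)) .no) .no .no) 15 105837124 1073741824 (by norm_num) (by norm_num) (by norm_num) (by decide +kernel)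

def c2_1_0 : Cert := (.br (.br .no .no .no (.br (.br .no (.br .no .no (.br (.br .no (.br .no .no (.br .no (.br .no .no (.br (.br .no (.br .no .no (.br (.br .no .no .no (.de 41)) .no .no (.de 45)) (.br (.br .no .no .no (.de 41)) .no .no .no)) .no (.br .no .no (.de 44) .no)) .no .no (.br .no (.br .no .no (.br (.br .no .no .no (.de 41)) .no .no (.de 45)) (.br (.br .no .no .no (.de 41)) .no .no .no)) .no .no)) (.br (.br .no (.br .no .no (.br (.br .no .no .no (.de 46)) .no .no (.de 45)) (.br (.br .no .no .no (.de 46)) .no .no .no)) .no (.br .no .no (.de 44) .no)) .no .no .no)) .no .no) .no) .no (.br .no (.de 34) (.br .no (.br .no .no (.br (.br .no (.br .no .no (.br (.sw 1 3 [32]) (.br (.br .no .no .no (.br .no (.de 48) .no .no)) .no .no (.de 41)) .no .no) .no) .no (.br .no (.br (.br .no .no .no (.de 41)) .no .no .no) (.de 44) .no)) .no .no (.br .no (.br .no .no (.br (.sw 1 3 [32]) (.br (.br .no .no .no (.br .no (.de 48) .no .no)) .no .no (.de 41)) .no .no) .no) .no .no)) (.br (.br .no (.br .no .no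 (.br (.sw 1 3 [32]) (.br (.br .no .no (.br .no (.de 48) (.br .no .no .no (.de 44)) .no) .no) .no .no (.br .no .no (.br .no (.de 48) (.br .no .no .no (.de 44)) .no) .no)) .no .no) .no) .no (.br .no (.br (.br .no .no .no (.de 46)) .no .no .no) (.de 44) .no)) .no .no .no)) .no .no) .no)) .no .no (.br .no (.br .no .no (.br .no (.br .no .no (.br (.br .no (.br (.br .no .no .no (.br (.de 46) .no .no .no)) .no (.sw 0 3 [31]) .no) .no .no) .no .no (.br (.br .no .no (.br (.br .no .no .no (.de 41)) .no .no (.de 45)) .no) (.br (.br .no .no .no (.br (.de 46) .no .no .no)) .no (.sw 0 3 [31]) .no) .no .no)) (.br (.br .no (.br (.br .no .no .no (.br (.de 46) .no .no .no)) .no (.sw 0 3 [31]) .no) .no .no) .no .no .no)) .no .no) .no) .no .no)) (.br (.br .no (.br .no .no (.br .no (.br .no .no (.br (.br .no (.sw 2 3 [30]) (.br .no .no .no (.de 44)) .no) .no .no .no) (.br (.br .no (.sw 2 3 [30]) (.br .no .no .no (.de 44)) .no) .no (.br .no (.br .no .no (.br (.br .no .no .no (.de 46)) .no .no (.de 45)) (.br (.br .no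 .no .no (.de 46)) .no .no .no)) .no .no) .no)) .no .no) .no) .no (.br .no (.de 34) (.br .no (.br .no .no (.br (.br .no (.sw 2 3 [30]) (.br .no (.br (.br .no .no .no (.de 41)) .no .no .no) .no .no) .no) .no .no .no) (.br (.br .no (.sw 2 3 [30]) (.br .no (.br (.br .no .no .no (.de 46)) .no .no .no) .no .no) .no) .no (.br .no (.br .no .no (.br (.sw 1 3 [32]) (.br (.br .no .no (.br .no (.de 48) .no .no) .no) .no .no (.br .no .no (.sy 36 135 6) .no)) .no .no) .no) .no .no) .no)) .no .no) .no)) .no .no .no)) (.br .no .no .no (.br (.br .no (.br .no .no (.br .no (.br .no (.br (.br .no (.br .no .no (.br (.br .no .no .no (.de 46)) .no .no (.de 45)) (.br (.br .no .no .no (.de 46)) .no .no .no)) (.br .no .no .no (.de 44)) .no) .no .no .no) .no (.br (.sw 1 2 [29]) (.br .no .no (.br .no .no .no (.de 44)) .no) .no .no)) .no .no) .no) .no (.br .no (.de 34) (.br .no (.br .no (.br (.br .no (.br .no .no (.br (.sw 1 3 [32]) (.br (.br .no .no (.de 48) (.br .no .no (.de 48) .no)) .no .no (.br .no .no (.de 48) .no))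 .no .no) .no) (.br .no (.br (.br .no .no .no (.de 46)) .no .no .no) .no .no) .no) .no .no .no) .no (.br (.sw 1 2 [29]) (.br .no .no (.br .no (.br (.br .no .no .no (.de 46)) .no .no .no) .no .no) .no) .no .no)) .no .no) .no)) .no .no .no)) .no) (.br .no .no (.br .no .no .no (.br (.br .no (.br .no .no (.br (.br (.br .no (.br .no .no (.br .no .no .no (.de 44)) .no) .no .no) .no .no (.br (.br .no (.br .no .no (.br (.br .no (.br .no .no (.br .no (.de 48) (.br .no .no .no (.de 44)) .no) .no) .no (.de 46)) .no .no (.de 45)) (.br (.br .no (.br .no .no (.br .no (.de 48) (.br .no .no .no (.br .no .no (.de 45) .no)) .no) .no) .no (.de 46)) .no .no .no)) (.br .no .no .no (.de 44)) .no) (.br .no .no (.br .no .no .no (.de 44)) .no) .no .no)) .no .no .no) .no) .no (.br .no (.br (.br (.br .no (.br .no .no (.br .no (.br (.br .no .no (.br .no .no .no (.br .no .no (.br .no .no .no (.de 44)) .no)) (.de 46)) .no (.br .no .no .no (.br .no .no (.br .no .no (.br .no .no .no (.de 44)) .no) .no)) .no) .no .no) .no) .no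 .no) .no .no (.br (.br .no (.br .no .no (.br (.br .no .no (.de 41) (.de 46)) .no .no .no) .no) (.br .no (.br (.br .no .no (.de 41) (.de 46)) .no (.br .no .no .no (.br .no .no (.br .no (.de 48) (.br .no .no .no (.de 44)) .no) .no)) .no) .no .no) .no) (.br .no .no (.br .no (.br (.br .no .no (.de 41) (.de 46)) .no (.br .no .no .no (.br .no .no (.sy 39 75 6) .no)) .no) .no .no) .no) .no .no)) .no .no .no) (.br (.br (.br .no (.br .no .no (.br .no (.br (.br .no (.br .no .no (.br .no .no (.br .no .no .no (.de 44)) .no) (.de 47)) .no (.de 46)) .no .no .no) .no .no) .no) .no .no) .no .no (.br (.br .no (.br .no .no (.br (.sw 1 3 [32]) (.br .no .no .no (.br .no .no (.sw 0 1 [28,34]) .no)) .no .no) .no) (.br .no (.br (.br .no (.br .no .no (.br .no (.de 48) (.br .no .no .no (.de 44)) .no) .no) .no (.de 46)) .no .no .no) .no .no) .no) (.br .no .no (.br .no (.br (.br .no (.br .no .no (.br .no .no (.br .no .no .no (.de 44)) .no) .no) .no (.de 46)) .no .no .no) .no .no) .no) .no .no)) .no .no .no) .no)) .no .no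 .no)) .no) .no .no)) (.br (.br (.br .no (.br .no .no (.br (.br .no .no .no (.br .no .no (.br .no (.br .no .no (.br (.br .no (.br .no .no (.br (.br .no .no .no (.de 41)) (.br (.br .no .no .no (.br .no (.de 48) .no .no)) .no .no (.de 41)) .no .no) .no) .no (.br .no (.br (.br .no .no .no (.de 41)) .no .no .no) (.de 44) .no)) .no .no (.br .no (.br .no .no (.br (.br .no .no .no (.de 41)) (.br (.br .no .no .no (.br .no (.de 48) .no .no)) .no .no (.de 41)) .no .no) .no) .no .no)) (.br (.br .no (.br .no .no (.br (.br .no .no .no (.de 46)) (.br (.br .no .no (.br .no (.de 48) (.br .no .no .no (.de 44)) .no) .no) .no .no (.br .no .no (.br .no (.de 48) (.br .no .no .no (.de 44)) .no) .no)) .no .no) .no) .no (.br .no (.br (.br .no .no .no (.de 46)) .no .no .no) (.de 44) .no)) .no .no .no)) .no (.br .no .no (.br (.br .no (.br .no .no (.br (.br .no (.de 41) .no .no) (.br (.br .no (.de 48) .no .no) .no .no .no) .no .no) .no) .no (.br .no (.br (.br .no (.de 41) .no .no) .no .no .no) (.de 44) .no)) .no .no (.br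 .no (.br .no .no (.br (.br .no (.de 41) .no .no) (.br (.br .no (.de 48) .no .no) .no .no .no) .no .no) .no) .no .no)) (.br (.br .no (.br .no .no (.br (.br .no (.br .no .no (.br .no (.de 48) (.br .no .no .no (.de 44)) .no) .no) .no .no) (.br (.br .no (.br .no (.br .no .no (.br .no .no .no (.de 45)) (.de 44)) (.de 48) .no) (.sw 1 3 [34]) .no) .no .no .no) .no .no) .no) .no (.br .no (.br (.br .no (.br .no .no (.br .no (.de 48) (.de 43) .no) .no) .no .no) .no .no .no) (.de 44) .no)) .no .no .no))) .no)) .no .no (.br (.br .no .no (.br .no (.br .no .no (.br (.br .no (.br .no .no (.br .no (.sw 0 3 [31,32]) .no (.de 45)) .no) .no .no) .no .no (.br (.br .no (.br .no .no .no (.br (.de 46) .no .no .no)) (.br .no (.br (.br .no .no .no (.br .no (.de 48) .no .no)) .no .no (.de 41)) .no (.de 45)) .no) (.br .no .no (.br .no (.sw 0 3 [31,32]) .no (.de 45)) .no) .no .no)) (.br (.br .no (.br .no .no (.br .no (.sw 0 3 [31,32]) .no (.de 45)) .no) .no .no) .no .no .no)) .no (.br .no .no (.br (.br .no (.br .no .no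 (.br .no (.sw 0 3 [31,32]) .no (.de 45)) .no) .no .no) .no .no (.br (.br .no (.br .no .no .no (.br (.de 46) (.de 41) .no .no)) (.br .no (.br (.br .no (.de 48) .no .no) .no .no .no) .no (.de 45)) .no) (.br .no .no (.br .no (.sw 0 3 [31,32]) .no (.de 45)) .no) .no .no)) (.br (.br .no (.br .no .no (.br .no (.sw 0 3 [31,32]) .no (.de 45)) .no) .no .no) .no .no .no))) (.br .no (.br .no .no (.br (.br .no (.br .no .no (.br .no (.br (.sw 2 3 [33]) .no (.br .no .no .no (.br .no (.de 48) .no .no)) .no) .no .no) .no) .no .no) .no .no (.br (.br .no (.br .no .no (.br (.br .no .no .no (.br .no (.de 48) .no .no)) .no .no .no) .no) (.br .no (.br (.sw 2 3 [33]) .no (.br .no .no .no (.br .no (.de 48) .no .no)) .no) .no .no) .no) (.br .no .no (.br .no (.br (.sw 2 3 [33]) .no (.br .no .no .no (.sy 40 75 6)) .no) .no .no) .no) .no .no)) (.br (.br .no (.br .no .no (.br .no (.br (.sw 2 3 [33]) .no (.de 41) .no) .no .no) .no) .no .no) .no .no .no)) .no .no)) .no .no .no)) (.br (.br .no .no .no (.br .no .no (.br .no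 (.br .no .no (.br (.br .no (.sw 2 3 [30]) (.br .no (.br (.br .no .no .no (.de 41)) .no .no .no) .no .no) .no) .no .no .no) (.br (.br .no (.sw 2 3 [30]) (.br .no (.br (.br .no .no .no (.de 46)) .no .no .no) .no .no) .no) .no (.br .no (.br .no .no (.br (.br .no .no .no (.de 46)) (.br (.br .no .no (.br .no (.de 48) .no .no) .no) .no .no (.br .no .no (.sy 36 135 6) .no)) .no .no) .no) .no .no) .no)) .no (.br .no .no (.br (.br .no (.sw 2 3 [30]) (.br .no (.br (.br .no (.de 41) .no .no) .no .no .no) .no .no) .no) .no .no .no) (.br (.br .no (.sw 2 3 [30]) (.br .no (.br (.br .no (.br .no .no (.br .no (.de 48) (.br .no .no .no (.de 44)) .no) .no) .no .no) .no .no .no) .no .no) .no) .no (.br .no (.br .no .no (.br (.br .no (.br .no .no (.br .no (.de 48) .no .no) .no) .no .no) (.br (.br .no (.br .no (.br .no .no .no (.de 44)) .no .no) (.sw 1 3 [34]) .no) .no .no .no) .no .no) .no) .no .no) .no))) .no)) .no .no .no)) (.br .no .no .no (.br (.br .no .no .no (.br .no .no (.br .no (.br .no (.br (.br .no (.br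 .no .no (.br (.br .no .no .no (.de 46)) (.br (.br .no .no (.de 48) (.br .no .no (.de 48) .no)) .no .no (.br .no .no (.de 48) .no)) .no .no) .no) (.br .no (.br (.br .no .no .no (.de 46)) .no .no .no) .no .no) .no) .no .no .no) .no (.br (.sw 1 2 [29]) (.br .no .no (.br .no (.br (.br .no .no .no (.de 46)) .no .no .no) .no .no) .no) .no .no)) .no (.br .no (.br (.br .no (.br .no .no (.br (.br .no (.br .no .no (.de 48) .no) .no .no) (.br (.br .no .no (.de 48) .no) .no .no .no) .no .no) .no) (.br .no (.br (.br .no (.br .no .no (.de 48) .no) .no .no) .no .no .no) .no .no) .no) .no .no .no) .no (.br (.sw 1 2 [29]) (.br .no .no (.br .no (.br (.br .no (.br .no .no (.br .no .no (.br .no .no .no (.de 44)) .no) .no) .no .no) .no .no .no) .no .no) .no) .no .no))) .no)) .no .no .no)) .no) (.br .no .no (.br .no .no .no (.br (.br .no .no .no (.br .no .no (.br .no .no .no (.br (.br .no (.br .no .no (.br .no (.br (.br .no (.br .no .no (.br .no .no (.br .no .no .no (.de 44)) .no) .no) .no .no) .no .no .no) .no .no)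 .no) .no .no) .no .no (.br (.br .no (.br .no .no (.br (.br .no (.br (.br .no (.br .no .no (.br .no .no .no (.de 45)) (.de 44)) (.br .no .no .no (.de 44)) .no) .no (.sw 0 1 [28]) .no) .no .no) (.br (.br .no .no (.sw 0 1 [28]) .no) .no .no .no) .no .no) .no) (.br .no (.br (.br .no (.br (.br .no (.br .no .no .no (.de 44)) (.br .no .no .no (.de 44)) .no) .no (.sw 0 1 [28]) .no) .no .no) .no .no .no) .no .no) .no) (.br .no .no (.br .no (.br (.br .no (.br (.br .no .no (.br .no .no .no (.de 44)) .no) .no (.sw 0 1 [28]) .no) .no .no) .no .no .no) .no .no) .no) .no .no))) .no)) .no .no .no)) .no) .no .no) .no .no (.sw 0 2 [20])) .no .no)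

def c2_1_1 : Cert := (.br .no .no (.br .no .no .no (.br (.br .no (.br .no .no c2_1_0 .no) .no (.br .no (.br (.br .no .no .no (.br (.br .no (.br .no .no (.br (.br .no .no (.br .no (.de 34) .no .no) (.br .no (.de 34) (.br .no (.br .no .no (.br (.br .no (.br .no .no (.br (.br .no .no .no (.de 41)) (.br (.br .no .no .no (.br .no (.de 48) .no .no)) .no .no (.de 41)) .no .no) .no) .no (.br .no (.br (.br .no .no .no (.de 41)) .no .no .no) (.de 44) .no)) .no .no (.br .no (.br .no .no (.br (.br .no .no .no (.de 41)) (.br (.br .no .no .no (.br .no (.de 48) .no .no)) .no .no (.de 41)) .no .no) .no) .no .no)) (.br (.br .no (.br .no .no (.br (.br .no .no .no (.de 46)) (.br (.br .no .no (.br .no (.de 48) (.br .no .no .no (.de 44)) .no) .no) .no .no (.sw 0 2 [20,26,33])) .no .no) .no) .no (.br .no (.br (.br .no .no .no (.de 46)) .no .no .no) (.de 44) .no)) .no .no .no)) .no .no) .no)) .no .no .no) .no) (.br .no (.br (.br .no .no (.br .no (.de 34) .no .no) (.br .no (.de 34) (.br .no (.br .no (.br (.br .no .no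 (.br .no (.br (.br .no .no .no (.de 46)) .no .no .no) .no .no) (.br .no (.br (.br .no .no .no (.de 46)) .no .no .no) (.de 44) .no)) .no .no (.br .no .no (.de 43) .no)) .no (.br (.br .no .no (.br .no (.br (.br .no .no .no (.de 46)) .no .no .no) .no .no) (.sw 1 2 [29,30])) .no .no .no)) .no .no) .no)) .no (.br .no .no .no (.br .no (.de 34) (.br .no (.br .no (.br (.br .no .no .no (.br (.br .no (.br (.br .no .no (.de 48) (.br .no .no (.de 43) .no)) .no .no (.sw 0 2 [20,26,33])) .no .no) (.sw 0 2 [31]) .no .no)) .no .no (.br (.br .no (.br (.br .no .no .no (.de 46)) .no .no .no) .no .no) .no .no .no)) .no (.br (.br .no .no .no (.br (.br .no (.br (.br .no .no (.br .no (.de 48) (.de 43) .no) .no) .no .no (.sw 0 2 [20,26,33])) .no .no) (.sw 0 2 [31]) .no .no)) .no .no .no)) .no .no) .no)) .no) .no .no) .no) (.br .no .no (.br .no (.br (.br .no .no (.br .no (.br (.br (.br .no .no .no (.br .no .no (.de 43) .no)) .no .no (.br (.br .no .no (.br .no (.br (.br .no .no (.de 41) (.de 46)) .no .no (.br .no .no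 (.de 41) .no)) .no (.de 44)) (.br .no (.br (.br .no .no (.de 41) (.de 46)) .no .no (.sw 0 2 [20,26,31,32])) .no .no)) .no .no .no)) .no .no .no) .no .no) (.br .no (.sw 0 2 [20,26]) (.br (.br (.br .no .no .no (.br .no .no (.de 43) .no)) .no .no (.br (.br .no .no (.br .no (.br (.br .no (.br .no .no (.br .no (.de 48) (.br .no .no .no (.de 44)) .no) .no) .no (.de 46)) .no .no .no) .no .no) (.br .no (.br (.br .no (.br .no .no (.br .no (.de 48) (.de 43) .no) .no) .no (.de 46)) .no .no .no) (.de 44) .no)) .no .no .no)) .no .no .no) .no)) .no (.br .no .no .no (.br .no (.sw 0 2 [20,26]) (.br (.br (.br .no .no .no (.br (.br .no (.br (.br .no (.br .no .no (.br .no (.de 48) (.de 43) .no) (.de 47)) .no (.de 46)) .no .no .no) .no .no) .no .no .no)) .no .no (.br (.br .no .no .no (.br (.br .no (.br .no .no .no (.br .no .no (.sw 0 1 [28,34]) .no)) .no .no) (.sw 0 2 [31]) .no .no)) .no .no .no)) .no .no .no) .no)) .no) .no .no) .no) .no .no)) .no .no .no) (.br (.br .no .no .no (.br (.br .no (.br .no .no (.br (.sw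 1 3 [24]) (.br .no .no .no (.br .no (.de 34) (.br .no (.br .no .no (.br (.br .no .no .no (.br (.br .no (.br (.br .no .no .no (.br .no (.de 48) .no .no)) .no .no (.de 41)) .no .no) .no (.de 44) .no)) .no .no (.br (.br .no .no (.br (.sw 1 3 [24,31,32]) (.br (.br .no .no .no (.br .no (.de 48) .no .no)) .no .no (.de 41)) .no .no) .no) .no .no .no)) (.br (.br .no .no .no (.br (.sw 1 2 [25,29,30,31]) .no (.de 44) .no)) .no .no .no)) .no .no) .no)) .no .no) .no) (.br .no (.br (.br .no (.br .no .no (.br .no (.br .no (.br (.br .no .no (.sw 1 3 [24,30]) (.br .no .no (.de 44) .no)) .no .no (.br .no .no (.de 43) .no)) .no (.br (.br .no .no (.sw 1 3 [24,30]) (.sw 1 2 [29,30])) .no .no .no)) .no .no) .no) .no (.sw 1 2 [25])) .no .no .no) .no .no) .no) (.br .no .no (.br .no (.br (.br .no (.br .no .no (.br (.br (.br .no .no .no (.br .no .no (.de 43) .no)) .no .no (.br (.br .no .no (.sw 1 3 [24,30]) (.br .no .no (.de 44) .no)) .no .no .no)) .no .no .no) .no) .no (.sw 1 2 [25])) .no .no .no) .no .no) .no) .no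 .no)) (.br (.br (.br .no (.br .no .no (.br (.sw 1 3 [24]) (.br (.br .no .no (.br .no (.br .no .no (.br (.br .no .no .no (.br .no .no (.de 44) .no)) .no .no (.br (.br .no .no (.sw 1 3 [24,31]) (.br .no (.br (.br .no .no .no (.br .no (.de 48) .no .no)) .no .no (.de 41)) .no .no)) .no .no .no)) (.br (.br .no .no .no (.br .no .no (.de 44) .no)) .no .no .no)) .no (.br .no .no (.br (.br .no .no .no (.br .no .no (.de 44) .no)) .no .no (.br (.br .no .no (.sw 1 3 [24,31]) (.br .no (.br (.br .no (.de 48) .no .no) .no .no .no) .no .no)) .no .no .no)) (.br (.br .no .no .no (.br .no .no (.de 44) .no)) .no .no .no))) (.br .no (.br .no .no (.br (.br .no .no .no (.br .no .no (.de 44) .no)) .no .no (.br (.br .no .no (.sw 1 3 [24,31]) (.br .no (.br (.sw 2 3 [33]) .no (.br .no .no .no (.br .no (.de 48) .no .no)) .no) (.de 45) .no)) .no .no .no)) (.br (.br .no .no .no (.br .no .no (.de 44) .no)) .no .no .no)) .no .no)) .no .no (.br .no .no (.br .no (.br .no .no (.br (.br .no .no .no (.br (.br .no (.br (.br .no .no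 .no (.br .no (.de 48) .no .no)) .no .no (.de 41)) .no .no) .no (.de 44) .no)) .no .no (.br (.br .no .no (.br (.br .no .no .no (.de 41)) (.sw 0 3 [32]) .no .no) .no) .no .no .no)) (.br (.br .no .no .no (.br (.br .no (.br (.br .no .no (.br .no (.de 48) (.de 43) .no) .no) .no .no (.br .no .no (.br .no (.de 48) (.de 43) .no) .no)) .no .no) .no (.de 44) .no)) .no .no .no)) .no (.br .no .no (.br (.br .no .no .no (.br (.br .no (.br (.br .no (.de 48) .no .no) .no .no .no) .no .no) .no (.de 44) .no)) .no .no (.br (.br .no .no (.br (.br .no (.de 41) .no .no) (.sw 0 3 [32]) .no .no) .no) .no .no .no)) (.br (.br .no .no .no (.br (.br .no (.br (.br .no (.sy 38 180 6) (.sw 1 3 [34]) .no) .no .no .no) .no .no) .no (.de 44) .no)) .no .no .no))) .no)) .no .no) .no) (.br .no (.br (.br .no .no .no (.br .no .no (.br .no (.br .no (.br (.br .no .no (.sw 1 3 [24,30]) (.br .no (.br (.br .no .no .no (.de 46)) .no .no .no) (.de 44) .no)) .no .no (.br .no .no (.de 43) .no)) .no (.br (.br .no .no (.sw 1 3 [24,30]) (.sw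 1 2 [29,30])) .no .no .no)) .no (.br .no (.br (.br .no .no (.sw 1 3 [24,30]) (.br .no (.br (.br .no (.br .no .no (.de 48) .no) .no .no) .no .no .no) (.de 44) .no)) .no .no (.br .no .no (.de 43) .no)) .no (.br (.br .no .no (.sw 1 3 [24,30]) (.sw 1 2 [29,30])) .no .no .no))) .no)) .no .no .no) .no .no) .no) (.br .no .no (.br .no (.br (.br .no .no .no (.br .no .no (.br .no .no .no (.br (.br .no .no .no (.br .no .no (.de 43) .no)) .no .no (.br (.br .no .no (.sw 1 3 [24,30]) (.br .no (.br (.br .no (.br (.sy 41 120 6) .no (.sw 0 1 [28]) .no) .no .no) .no .no .no) (.de 44) .no)) .no .no .no))) .no)) .no .no .no) .no .no) .no) .no .no) .no .no (.sw 0 2 [20])) .no .no) .no)) .no .no .no)) (.br .no .no (.br (.br .no (.br .no .no (.br (.de 27) (.br (.br (.br .no (.br .no .no (.br (.br .no .no .no (.br .no .no (.br .no (.sw 2 3 [21,22]) .no .no) .no)) .no .no (.br (.br .no .no (.br .no (.sw 2 3 [21,22]) .no .no) (.br .no (.sw 0 2 [20,27]) (.br .no .no (.br (.br .no (.br .no .no (.br .no (.br (.br .no (.de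 48) .no (.sw 1 2 [34])) .no .no .no) .no .no) .no) .no .no) .no .no (.br (.br .no (.br .no .no (.br (.br .no (.de 48) .no (.sw 1 2 [34])) (.br .no .no .no (.de 47)) .no .no) .no) (.br .no (.br (.br .no (.de 48) .no (.sw 1 2 [34])) .no .no .no) .no .no) .no) (.br .no .no (.br .no (.br (.br .no (.de 48) .no (.sw 1 2 [34])) .no .no .no) .no .no) .no) .no .no)) (.br (.br .no (.br .no .no (.br .no (.br (.br .no (.sw 2 3 [21,22,33,34]) .no .no) .no .no .no) .no .no) .no) .no .no) .no .no .no)) .no)) .no .no .no)) (.br (.br .no .no .no (.br .no .no (.br .no (.sw 2 3 [21,22]) .no .no) .no)) .no .no .no)) .no (.br .no .no (.br (.br .no .no .no (.br .no .no (.br .no (.br .no (.br (.br .no (.sw 2 3 [21,22,29,30]) .no (.br .no (.br (.br .no .no .no (.de 46)) .no .no .no) (.de 44) .no)) .no .no .no) (.br (.sw 1 3 [29]) (.de 42) .no .no) .no) .no .no) .no)) .no .no (.br (.br .no .no (.br .no (.br .no (.br (.br .no (.br .no .no (.br .no (.sw 0 3 [31,32]) .no (.de 45)) .no) .no .no) .no .no .no) (.br (.sw 1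 3 [29]) (.de 42) .no .no) .no) .no .no) (.br .no (.sw 0 2 [20,27]) (.br .no (.br (.br .no (.br .no .no (.br .no (.br (.br .no .no .no (.sw 1 2 [34])) .no .no .no) .no .no) .no) .no .no) .no .no .no) (.br (.sw 1 3 [29]) (.de 42) .no .no) .no) .no)) .no .no .no)) .no)) (.br .no .no .no (.br .no .no (.br (.br .no .no .no (.br .no .no (.de 34) .no)) .no .no (.br (.br .no .no (.de 34) (.br .no .no (.br (.br .no (.br (.br .no (.br .no .no (.br (.br .no .no .no (.br .no .no (.sy 35 228 7) .no)) (.br .no .no .no (.de 47)) .no .no) .no) (.br .no (.br (.br .no .no .no (.br .no .no (.br .no .no .no (.de 44)) .no)) .no .no .no) .no .no) .no) .no .no .no) .no .no) .no (.br (.br .no (.br .no .no (.br .no (.br (.br .no .no .no (.sw 0 1 [28])) .no .no .no) .no .no) .no) .no .no) (.de 42) .no .no) .no) .no)) .no .no .no)) .no)) .no .no) .no .no .no) .no .no) .no) .no (.br .no (.br (.de 27) .no .no .no) (.br (.de 27) (.br (.br (.br .no (.br .no .no (.br (.sw 1 3 [24]) (.br (.br .no .no (.br .no (.sw 2 3 [21,22])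 .no .no) (.br .no (.sw 0 2 [20,27]) (.br .no .no (.br (.br .no .no .no (.br .no .no (.de 44) .no)) .no .no (.br (.br .no .no (.sw 1 3 [24,31]) (.br .no (.br (.br .no (.de 48) .no (.sw 1 2 [34])) .no .no .no) (.de 45) .no)) .no .no .no)) (.br (.br .no .no .no (.br .no .no (.de 44) .no)) .no .no .no)) .no)) .no .no (.br .no .no (.br .no (.sw 2 3 [21,22]) .no .no) .no)) .no .no) .no) .no (.br .no (.br (.br .no .no .no (.br .no .no (.br .no (.br .no (.br (.sw 2 3 [21,22,29]) .no (.de 42) .no) (.br (.br .no .no (.sw 1 3 [24,29,30]) (.br .no (.br (.br .no .no .no (.de 41)) .no .no .no) (.de 44) .no)) .no .no .no) .no) .no .no) .no)) .no .no .no) (.br (.sw 1 3 [24]) (.br (.br .no .no (.br .no (.br .no (.br (.br .no .no .no (.br .no .no (.de 44) .no)) .no .no .no) (.br (.sw 1 3 [29]) (.de 42) .no .no) .no) .no .no) (.br .no (.sw 0 2 [20,27]) (.br .no (.br (.br .no .no .no (.br .no .no (.de 44) .no)) .no .no .no) (.br (.sw 1 3 [29]) (.de 42) .no .no) .no) .no)) .no .no (.br .no .no (.br .no (.br .no (.br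 (.br .no .no .no (.br (.br .no (.br (.br .no .no (.de 48) (.br .no .no (.de 43) .no)) .no .no (.sw 0 2 [20,27,33])) .no .no) .no (.de 44) .no)) .no .no .no) (.br (.sw 1 3 [29]) (.de 42) .no .no) .no) .no .no) .no)) .no .no) .no)) (.br .no .no .no (.br .no (.br (.br .no .no .no (.br .no .no (.de 34) .no)) .no .no .no) (.br (.sw 1 3 [24]) (.br (.br .no .no (.de 34) (.br .no .no (.br (.br .no (.br (.br .no .no (.sw 1 3 [24,31]) (.br .no (.br (.br .no .no .no (.br .no .no (.br .no .no .no (.br .no .no (.de 45) .no)) .no)) .no .no .no) (.de 45) .no)) .no .no (.br .no .no (.de 44) .no)) .no .no) .no (.br (.br .no .no .no (.br .no .no (.de 44) .no)) (.de 42) .no .no) .no) .no)) .no .no (.br .no .no (.de 34) .no)) .no .no) .no)) .no .no) .no .no .no) .no .no) .no)) .no .no (.br .no (.br .no .no (.br (.de 27) (.br (.br (.br .no (.br (.br .no .no .no (.br (.br .no .no (.br .no (.br .no .no (.br .no .no .no (.br .no (.br .no .no (.br .no (.br (.br .no .no .no (.br .no (.de 48) .no .no)) .no .no (.de 41))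 .no (.de 45)) .no) (.de 43) .no)) (.br .no .no (.br .no (.br .no .no (.br .no (.sw 0 3 [23,30,31,32]) .no (.de 45)) .no) .no .no) .no)) .no .no) (.br .no (.sw 0 2 [20,27]) (.br .no .no (.br .no .no .no (.br .no (.br .no .no (.br .no (.br (.br .no (.de 48) .no (.sw 1 2 [34])) .no .no .no) .no .no) .no) (.de 43) .no)) (.br .no .no (.br .no (.br .no .no (.br .no (.br (.br .no (.br .no (.br .no .no .no (.de 44)) .no .no) .no .no) .no .no .no) .no .no) .no) .no .no) .no)) .no)) .no .no .no)) .no (.sw 0 3 [23]) .no) .no .no) (.br (.br .no .no (.br (.br .no .no .no (.br .no .no (.de 34) .no)) .no .no (.br (.br .no .no (.de 34) (.br .no .no (.br .no .no (.br .no (.de 42) .no (.br (.br .no (.br .no .no (.br (.br .no .no .no (.sw 0 1 [28,29])) (.br (.br .no (.de 48) .no .no) .no .no (.de 47)) .no .no) .no) (.br .no (.br (.br .no .no .no (.sw 0 1 [28,29])) .no .no .no) .no .no) .no) (.br .no .no (.br .no (.br (.br .no .no .no (.sw 0 1 [28,29])) .no .no .no) .no .no) .no) .no .no)) (.br .no (.br (.br .no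 (.br .no .no (.br (.de 41) (.br (.br .no .no (.br .no .no .no (.br .no .no (.br .no .no .no (.br (.br .no .no .no (.br .no (.sw 0 2 [20,27,34,41]) .no .no)) .no .no .no)) .no)) .no) .no .no .no) .no .no) .no) (.br .no (.br (.de 41) .no .no .no) .no .no) .no) .no .no .no) .no .no)) .no)) .no .no .no)) .no) .no .no .no) .no .no) .no .no .no) .no .no) .no) .no .no)) .no))

def c2_1_2 : Cert := (.br (.br .no .no (.br .no .no (.br .no .no .no (.br (.br .no (.br .no .no (.br .no (.sw 0 3 [18,19]) .no (.br (.br (.br .no (.br .no .no (.br (.br .no (.br .no .no (.br .no (.sw 0 3 [18,19,26,27]) .no (.br .no .no (.br (.br .no (.br .no .no (.br (.sw 1 3 [26,32]) .no .no (.de 45)) (.br (.br .no (.de 41) .no .no) .no .no .no)) .no (.br .no .no (.de 44) .no)) .no .no (.br .no (.br .no .no (.br (.sw 1 3 [26,32]) .no .no (.de 45)) (.br (.br .no (.de 41) .no .no) .no .no .no)) .no .no)) (.br (.br .no (.br .no .no (.br (.sw 1 3 [26,32]) .no .no (.de 45)) (.br (.br .no (.br .no .no (.br .no (.de 48) (.br .no .no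 .no (.br .no .no (.de 45) .no)) .no) .no) .no .no) .no .no .no)) .no (.br .no .no (.de 44) .no)) .no .no .no))) .no) .no .no) .no .no (.br (.br .no (.br .no .no .no (.br .no .no (.br (.br .no (.br .no .no (.br .no .no .no (.de 45)) .no) .no .no) .no .no (.br (.br .no (.br .no .no (.br (.br .no (.de 48) .no .no) .no .no .no) (.br (.de 46) .no (.br .no (.de 48) .no .no) .no)) (.br .no .no .no (.de 45)) .no) (.br .no .no (.br .no .no .no (.de 45)) .no) .no .no)) (.br (.br .no (.br .no .no (.br .no .no .no (.de 45)) .no) .no .no) .no .no .no))) (.sw 1 3 [26]) .no) (.br .no .no (.br .no (.sw 0 3 [18,19,26,27]) .no (.br .no .no (.br (.br .no (.br (.br .no .no .no (.br (.de 46) (.de 41) .no .no)) .no (.sw 0 3 [31]) .no) .no .no) .no .no (.br (.br .no .no (.br (.br .no (.de 41) .no .no) .no .no (.de 45)) .no) (.br (.br .no .no .no (.br (.de 46) (.de 41) .no .no)) .no (.sw 0 3 [31]) .no) .no .no)) (.br (.br .no (.br (.br .no .no .no (.br (.de 46) (.br .no .no (.br .no (.de 48) (.br .no .no .no (.br .no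 .no (.de 45) .no)) .no) .no) .no .no)) .no (.sw 0 3 [31]) .no) .no .no) .no .no .no))) .no) .no .no)) (.br (.br .no (.br .no .no (.br .no (.sw 0 3 [18,19,26,27]) .no (.br .no .no (.br (.br .no (.sw 2 3 [30]) (.br .no .no .no (.de 44)) .no) .no .no .no) (.br (.br .no (.sw 2 3 [30]) (.br .no .no .no (.de 44)) .no) .no (.br .no (.br .no .no (.br (.sw 1 3 [26,32]) .no .no (.de 45)) (.br (.br .no (.br .no .no (.br .no (.de 48) .no .no) .no) .no .no) .no .no .no)) .no .no) .no))) .no) .no .no) .no .no .no)) (.br .no .no .no (.br (.br .no (.br .no .no (.br .no (.sw 0 3 [18,19,26,27]) .no (.br .no (.br (.br .no (.br .no .no (.br (.sw 1 3 [26,32]) .no .no (.de 45)) (.br (.br .no (.br .no .no (.de 48) .no) .no .no) .no .no .no)) (.br .no .no .no (.de 44)) .no) .no .no .no) .no (.br (.sw 1 2 [29]) (.br .no .no (.br .no .no .no (.de 44)) .no) .no .no))) .no) .no .no) .no .no .no)) .no) (.br .no .no (.br .no .no .no (.br (.br .no (.br .no .no (.br .no .no .no (.br (.br .no (.br .no .no (.br .no .no .no (.de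 44)) .no) .no .no) .no .no (.br (.br .no (.br .no .no (.br (.sw 1 3 [26,32]) .no .no (.de 45)) (.br (.br .no (.br (.br .no (.br .no .no (.de 44) (.br .no .no (.de 45) .no)) (.br .no .no .no (.br .no .no (.de 45) .no)) .no) .no (.sw 0 1 [28]) .no) .no .no) .no .no .no)) (.br .no .no .no (.de 44)) .no) (.br .no .no (.br .no .no .no (.de 44)) .no) .no .no))) .no) .no .no) .no .no .no)) .no) .no .no) .no .no .no)) .no) .no .no) .no .no .no)) (.br .no .no (.br (.br .no (.br .no .no (.br .no (.sw 0 3 [18,19]) .no (.br (.br (.br .no (.br .no .no (.br (.br .no (.br .no .no (.br .no (.sw 2 3 [21,22]) .no .no) .no) .no .no) .no .no (.br (.br .no (.br .no .no (.br .no .no (.br (.br .no (.br .no .no (.br .no .no .no (.de 45)) .no) .no .no) .no .no (.br (.br .no (.br .no .no (.br (.sw 1 3 [26,33]) .no .no (.br .no (.de 47) .no .no)) (.br (.de 46) .no .no .no)) (.br .no .no .no (.de 45)) .no) (.br .no .no (.br .no .no .no (.de 45)) .no) .no .no)) (.br (.br .no (.br .no .no (.br .no .no .no (.de 45)) .no) .no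 .no) .no .no .no)) .no) (.sw 1 3 [26]) .no) (.br .no .no (.br .no (.sw 2 3 [21,22]) .no .no) .no) .no .no)) (.br (.br .no (.br .no .no (.br .no (.sw 2 3 [21,22]) .no .no) .no) .no .no) .no .no .no)) .no (.br .no .no (.br (.br .no (.br .no .no (.br .no (.br .no (.br (.br .no (.sw 2 3 [21,22,29,30]) .no (.br .no .no (.de 44) .no)) .no .no .no) (.br (.sw 1 3 [29]) (.de 42) .no .no) .no) .no .no) .no) .no .no) .no .no (.br (.br .no (.br .no .no (.br .no (.br (.br .no (.br .no .no (.br .no .no .no (.de 45)) .no) .no .no) .no .no .no) (.br (.sw 1 3 [29]) (.de 42) .no .no) .no) .no) (.sw 1 3 [26]) .no) (.br .no .no (.br .no (.br .no (.br (.br .no (.br (.br .no .no .no (.br (.de 46) .no .no .no)) .no (.sw 0 3 [31]) .no) .no .no) .no .no .no) (.br (.sw 1 3 [29]) (.de 42) .no .no) .no) .no .no) .no) .no .no)) .no)) (.br .no .no .no (.br .no .no (.br (.br .no (.br .no .no (.de 34) .no) .no .no) .no .no (.br (.br .no (.br .no .no (.br (.br .no (.br (.br .no (.br .no .no (.br (.sw 1 3 [26,33]) .no .no (.de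 41)) (.br (.de 46) .no .no .no)) (.br .no .no .no (.de 45)) .no) .no .no .no) .no .no) .no (.br (.br .no (.br .no .no (.br .no .no .no (.de 45)) .no) .no .no) (.de 42) .no .no) .no) .no) (.de 34) .no) (.br .no .no (.de 34) .no) .no .no)) .no)) .no .no) .no .no .no)) .no) .no .no) .no .no (.br (.br .no (.br .no .no .no (.br (.br (.br .no (.br .no .no (.br .no .no .no (.br (.br .no (.sw 2 3 [7,8,9,20,26]) (.br .no (.br .no .no (.br (.br .no (.br .no .no (.br .no (.br (.sw 2 3 [7,8,9,20,26,33]) .no .no (.de 41)) .no (.de 45)) .no) .no .no) .no .no (.br (.br .no (.br .no .no .no (.br (.de 46) .no .no .no)) (.br .no (.br (.sw 2 3 [7,8,9,20,26,33]) .no .no (.de 41)) .no (.de 45)) .no) (.br .no .no (.br .no (.br (.sw 2 3 [7,8,9,20,26,33]) .no .no (.de 41)) .no (.de 45)) .no) .no .no)) (.br (.br .no (.br .no .no (.br .no (.br (.sw 2 3 [7,8,9,20,26,33]) .no .no (.br .no .no (.br .no (.de 48) (.br .no .no .no (.de 44)) .no) .no)) .no (.de 45)) .no) .no .no) .no .no .no)) .no .no) .no) .no (.br .no (.br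 .no .no (.br .no .no (.br (.br .no (.br (.br .no .no .no (.br (.de 46) .no .no .no)) .no .no .no) .no .no) .no .no (.br (.br .no (.br (.br .no .no .no (.de 46)) .no .no (.sw 0 2 [32])) .no .no) (.br (.br .no .no .no (.br (.de 46) .no .no .no)) .no .no .no) .no .no)) (.br (.br .no (.br (.br .no .no .no (.br (.de 46) .no .no .no)) .no .no .no) .no .no) .no .no .no)) .no) .no .no) .no)) .no) .no .no) (.br (.br .no (.br .no .no (.br (.br .no (.sw 2 3 [7,8,9,20,26]) (.de 34) .no) .no .no .no) (.br (.br .no (.sw 2 3 [7,8,9,20,26]) (.de 34) .no) .no (.br .no (.br .no .no (.br .no .no (.br .no .no .no (.br (.br .no (.br (.sw 2 3 [7,8,9,20,26,31,32]) .no .no (.sw 0 2 [32])) .no .no) .no (.de 43) .no)) (.br .no .no (.br (.br .no (.br (.sw 2 3 [7,8,9,20,26,31,32]) .no .no (.sw 0 2 [32])) .no .no) .no .no .no) .no)) .no) .no .no) .no)) (.br .no .no .no (.br (.br .no (.sw 2 3 [7,8,9,20,26]) (.de 34) .no) .no (.br .no (.br .no .no (.br .no .no (.br .no (.de 42) .no (.br (.sw 1 2 [30]) (.br (.br .no .no .no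 (.br (.de 46) .no .no .no)) .no .no .no) .no .no)) (.br .no (.br (.br .no (.br (.sy 32 198 7) .no .no (.sw 0 2 [32])) .no .no) .no .no .no) .no .no)) .no) .no .no) .no)) .no) .no .no .no) .no .no) .no .no .no)) (.br .no (.br (.sw 2 3 [7,8,9,20]) .no .no .no) .no (.br (.br (.br .no (.br .no .no (.br .no (.br (.br .no (.br .no .no (.br .no .no (.br (.br .no .no .no (.br .no .no (.de 44) .no)) .no .no (.br (.br .no .no (.br .no .no .no (.de 45)) (.br .no .no (.de 45) .no)) .no .no .no)) (.br (.br .no .no .no (.br .no .no (.de 44) .no)) .no .no .no)) .no) (.sw 1 3 [26]) .no) .no .no .no) .no (.br (.sw 1 2 [25]) (.br .no .no (.br .no (.br .no .no (.br (.br .no (.br (.br .no .no .no (.br (.de 46) .no .no .no)) .no (.br (.br .no .no .no (.de 41)) .no .no (.de 45)) .no) .no .no) .no .no (.br (.br .no .no (.br (.sw 1 3 [26,31,32]) .no .no (.de 45)) .no) (.br (.br .no .no .no (.br (.de 46) .no .no .no)) .no (.br (.br .no .no .no (.de 41)) .no .no (.de 45)) .no) .no .no)) (.br (.br .no (.br (.br .no .no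 .no (.br (.de 46) .no .no .no)) .no (.br (.br .no .no .no (.de 46)) .no .no (.de 45)) .no) .no .no) .no .no .no)) .no .no) .no) .no .no)) .no) .no .no) (.br (.br .no (.br .no .no .no (.br (.sw 1 2 [25]) (.br .no .no (.de 34) .no) .no .no)) (.br .no (.br (.br .no (.br .no .no (.br .no .no (.br .no (.de 42) .no (.br (.br .no .no (.br .no .no .no (.de 45)) (.sw 1 2 [25,30,31])) .no .no .no)) (.br .no (.br (.br .no .no (.br .no .no .no (.de 45)) (.br .no .no (.de 45) .no)) .no .no (.br .no .no (.de 44) .no)) .no .no)) .no) (.de 34) .no) .no .no .no) .no (.br (.sw 1 2 [25]) (.br .no .no (.de 34) .no) .no .no)) .no) .no .no .no) .no .no) .no .no .no)) .no) (.br .no .no (.br .no (.sw 0 3 [18,19]) .no (.br (.br (.br .no (.br (.br .no .no .no (.br (.br .no (.br .no .no (.br .no .no (.br .no .no .no (.br .no (.br .no .no (.br .no .no .no (.de 45)) .no) (.de 43) .no)) (.br .no .no (.br .no (.br .no .no (.br .no .no .no (.de 45)) .no) .no .no) .no)) .no) (.sw 1 3 [26]) .no) (.br .no .no (.br .no (.br .no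 .no (.br .no .no .no (.br .no (.br (.br .no .no .no (.br (.de 46) .no .no .no)) .no (.br (.br .no .no .no (.de 41)) .no .no (.de 45)) .no) (.de 43) .no)) (.br .no .no (.br .no (.br (.br .no .no .no (.br (.de 46) .no .no .no)) .no (.sw 0 3 [23,30,31]) .no) .no .no) .no)) .no .no) .no) .no .no)) .no (.sw 0 3 [23]) .no) .no .no) (.br (.br .no .no (.br (.br .no (.br .no .no (.de 34) .no) .no .no) .no .no (.sw 0 1 [24])) .no) .no .no .no) .no .no) .no .no .no)) .no) .no .no)) .no)) .no) .no .no .no)

def c2_1_3 : Cert := (.br .no (.br .no .no (.br (.br .no .no .no (.br (.br .no .no (.br .no .no .no (.br (.br .no (.br .no .no (.br .no (.br .no (.br (.br .no (.br .no .no (.br (.br .no .no .no (.de 46)) .no .no (.de 45)) (.br (.br .no .no .no (.de 46)) .no .no .no)) (.br .no .no .no (.de 44)) .no) .no .no .no) .no (.br (.br .no (.br .no .no (.br (.br .no .no .no (.de 46)) .no .no (.de 45)) (.br (.br .no .no .no (.de 46)) .no .no .no)) (.br .no .no .no (.de 44)) .no) (.br .no .no (.br .no .no .no (.de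 44)) .no) .no .no)) .no .no) .no) .no (.br .no (.de 34) (.br .no (.br .no (.br (.br .no (.br .no .no (.br (.sw 1 3 [32]) (.br (.br .no .no (.de 48) (.br .no .no (.de 48) .no)) .no .no (.br .no .no (.de 48) .no)) .no .no) .no) (.br .no (.br (.br .no .no .no (.de 46)) .no .no .no) .no .no) .no) .no .no .no) .no (.br (.br .no (.br .no .no (.br (.sw 1 3 [32]) (.br (.br .no .no (.br .no (.de 48) (.br .no .no .no (.de 44)) .no) .no) .no .no (.br .no .no (.br .no (.de 48) (.br .no .no .no (.de 44)) .no) .no)) .no .no) .no) (.br .no (.br (.br .no .no .no (.de 46)) .no .no .no) .no .no) .no) (.br .no .no (.br .no (.br (.br .no .no .no (.de 46)) .no .no .no) .no .no) .no) .no .no)) .no .no) .no)) .no .no .no)) (.br .no .no (.br (.br .no (.br .no .no (.br .no (.br .no (.br (.br .no (.sw 2 3 [29,30]) .no (.br .no .no (.de 44) .no)) .no .no .no) (.br (.br .no (.br .no .no (.br (.br .no .no .no (.de 41)) .no .no (.de 45)) (.br (.br .no .no .no (.de 41)) .no .no .no)) .no (.br .no .no (.de 44) .no)) (.de 42)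 .no .no) .no) .no .no) .no) .no (.br .no (.de 34) (.br .no (.br .no (.br (.br .no (.sw 2 3 [29,30]) .no (.br .no (.br (.br .no .no .no (.de 46)) .no .no .no) (.de 44) .no)) .no .no .no) (.br (.br .no (.br .no .no (.br (.sw 1 3 [32]) (.br (.br .no .no .no (.br .no (.de 48) .no .no)) .no .no (.de 41)) .no .no) .no) .no (.br .no (.br (.br .no .no .no (.de 41)) .no .no .no) (.de 44) .no)) (.de 42) .no .no) .no) .no .no) .no)) .no .no (.br .no (.br .no .no (.br .no (.br .no (.br (.br .no (.br (.br .no .no .no (.br (.de 46) .no .no .no)) .no (.sw 0 3 [31]) .no) .no .no) .no .no .no) (.br (.br .no (.br (.br .no .no .no (.br (.de 46) .no .no .no)) .no (.sw 0 3 [31]) .no) .no .no) (.de 42) .no .no) .no) .no .no) .no) .no .no)) .no)) .no .no (.br .no .no (.br .no .no .no (.br (.br .no (.br .no .no (.br (.br (.br .no (.br .no .no (.br .no .no .no (.de 44)) .no) .no .no) (.br (.br .no (.br .no .no (.br (.br .no (.br .no .no (.de 48) .no) .no (.de 46)) .no .no (.de 45)) (.br (.br .no (.br .no .no (.de 48)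 .no) .no (.de 46)) .no .no .no)) (.br .no .no .no (.de 44)) .no) .no .no .no) .no .no) (.br (.br .no (.br .no .no (.br .no .no .no (.de 44)) .no) .no .no) (.br (.br .no (.br .no .no (.br (.br .no .no .no (.de 46)) .no .no (.de 45)) (.br (.br .no .no .no (.de 46)) .no .no .no)) (.br .no .no .no (.de 44)) .no) .no .no .no) .no .no) .no .no) .no) .no (.br .no (.br (.br (.br .no (.br .no .no (.br .no (.br (.br .no .no (.br .no (.br .no .no (.de 48) .no) .no .no) (.de 46)) .no (.br .no .no .no (.br .no (.de 47) (.br .no .no (.br .no .no .no (.de 44)) .no) .no)) .no) .no .no) .no) .no .no) (.br (.br .no (.br .no .no (.br (.br .no .no (.de 41) (.de 46)) .no .no .no) .no) (.br .no (.br (.br .no .no (.de 41) (.de 46)) .no (.br .no .no .no (.br .no .no (.de 48) .no)) .no) .no .no) .no) .no .no .no) .no .no) .no .no .no) (.br (.br (.br .no (.br .no .no (.br .no (.br (.br .no (.br .no .no (.br .no .no (.br .no .no .no (.de 44)) .no) .no) .no (.de 46)) .no .no .no) .no .no) .no) .no .no) (.br (.br .no (.br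 .no .no (.br (.sw 1 3 [32]) (.br .no .no .no (.br .no .no (.de 48) .no)) .no .no) .no) (.br .no (.br (.br .no (.br .no .no (.de 48) .no) .no (.de 46)) .no .no .no) .no .no) .no) .no .no .no) .no .no) (.br (.br .no (.br .no .no (.br .no (.br (.br .no .no .no (.de 46)) .no .no .no) .no .no) .no) .no .no) (.br (.br .no (.br .no .no (.br (.sw 1 3 [32]) (.br (.br .no .no (.de 48) .no) .no .no (.br (.br .no .no (.de 48) .no) .no (.de 48) .no)) .no .no) .no) (.br .no (.br (.br .no .no .no (.de 46)) .no .no .no) .no .no) .no) .no .no .no) .no .no) .no .no) .no)) .no .no .no)) .no))) (.br (.br (.br .no .no (.br .no .no .no (.br (.br .no .no .no (.br .no .no (.br .no (.br .no (.br (.br .no (.br .no .no (.br (.br .no .no .no (.de 46)) (.br (.br .no .no (.de 48) (.br .no .no (.de 48) .no)) .no .no (.br .no .no (.de 48) .no)) .no .no) .no) (.br .no (.br (.br .no .no .no (.de 46)) .no .no .no) .no .no) .no) .no .no .no) .no (.br (.br .no (.br .no .no (.br (.br .no .no .no (.de 46)) (.br (.br .no .no (.br .no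 (.de 48) (.br .no .no .no (.de 44)) .no) .no) .no .no (.br .no .no (.br .no (.de 48) (.br .no .no .no (.de 44)) .no) .no)) .no .no) .no) (.br .no (.br (.br .no .no .no (.de 46)) .no .no .no) .no .no) .no) (.br .no .no (.br .no (.br (.br .no .no .no (.de 46)) .no .no .no) .no .no) .no) .no .no)) .no (.br .no (.br (.br .no (.br .no .no (.br (.br .no (.br .no .no (.de 48) .no) .no .no) (.br (.br .no .no (.de 48) .no) .no .no .no) .no .no) .no) (.br .no (.br (.br .no (.br .no .no (.de 48) .no) .no .no) .no .no .no) .no .no) .no) .no .no .no) .no (.br (.br .no (.br .no .no (.br (.br .no (.br .no .no (.br .no (.de 48) (.br .no .no .no (.de 44)) .no) .no) .no .no) (.br (.br .no (.br .no (.br .no .no (.br .no .no .no (.de 45)) (.de 44)) (.de 48) .no) (.sw 1 3 [34]) .no) .no .no .no) .no .no) .no) (.br .no (.br (.br .no (.br .no .no (.br .no (.de 48) (.br .no .no .no (.de 44)) .no) .no) .no .no) .no .no .no) .no .no) .no) (.br .no .no (.br .no (.br (.br .no (.br .no .no (.br .no .no (.br .no .no .no (.de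 44)) .no) .no) .no .no) .no .no .no) .no .no) .no) .no .no))) .no)) .no .no .no)) (.br .no .no (.br (.br .no .no .no (.br .no .no (.br .no (.br .no (.br (.br .no (.sw 2 3 [29,30]) .no (.br .no (.br (.br .no .no .no (.de 46)) .no .no .no) (.de 44) .no)) .no .no .no) (.br (.br .no (.br .no .no (.br (.br .no .no .no (.de 41)) (.br (.br .no .no .no (.br .no (.de 48) .no .no)) .no .no (.de 41)) .no .no) .no) .no (.br .no (.br (.br .no .no .no (.de 41)) .no .no .no) (.de 44) .no)) (.de 42) .no .no) .no) .no (.br .no (.br (.br .no (.sw 2 3 [29,30]) .no (.br .no (.br (.br .no (.br .no .no (.de 48) .no) .no .no) .no .no .no) (.de 44) .no)) .no .no .no) (.br (.br .no (.br .no .no (.br (.br .no (.de 41) .no .no) (.br (.br .no (.de 48) .no .no) .no .no .no) .no .no) .no) .no (.br .no (.br (.br .no (.de 41) .no .no) .no .no .no) (.de 44) .no)) (.de 42) .no .no) .no)) .no)) .no .no (.br (.br .no .no (.br .no (.br .no (.br (.br .no (.br .no .no (.br .no (.sw 0 3 [31,32]) .no (.de 45)) .no) .no .no) .no .no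 .no) (.br (.br .no (.br .no .no (.br .no (.sw 0 3 [31,32]) .no (.de 45)) .no) .no .no) (.de 42) .no .no) .no) .no (.br .no (.br (.br .no (.br .no .no (.br .no (.sw 0 3 [31,32]) .no (.de 45)) .no) .no .no) .no .no .no) (.br (.br .no (.br .no .no (.br .no (.sw 0 3 [31,32]) .no (.de 45)) .no) .no .no) (.de 42) .no .no) .no)) (.br .no (.br .no (.br (.br .no (.br .no .no (.br .no (.br (.sw 2 3 [33]) .no (.br .no .no .no (.br .no .no (.de 48) .no)) .no) .no .no) .no) .no .no) .no .no .no) (.br (.br .no (.br .no .no (.br .no (.br (.sw 2 3 [33]) .no (.br .no .no .no (.br .no (.de 48) .no .no)) .no) .no .no) .no) .no .no) (.de 42) .no .no) .no) .no .no)) .no .no .no)) .no)) .no .no (.br .no .no (.br .no .no .no (.br (.br .no .no .no (.br .no .no (.br .no (.br (.br .no (.br .no .no (.br .no (.br (.br .no .no .no (.de 46)) .no .no .no) .no .no) .no) .no .no) (.br (.br .no (.br .no .no (.br (.br .no .no .no (.de 46)) (.br (.br .no .no (.de 48) .no) .no .no (.br (.br .no .no (.de 48) .no) .no (.de 48) .no))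 .no .no) .no) (.br .no (.br (.br .no .no .no (.de 46)) .no .no .no) .no .no) .no) .no .no .no) .no .no) .no .no) .no)) .no .no .no)) .no)) .no .no (.sw 0 2 [20])) .no .no) .no) (.br .no (.br (.br .no .no .no (.br (.br .no .no (.br .no (.br (.br .no .no (.br .no (.de 34) .no .no) (.br .no (.de 34) (.br .no (.br .no (.br (.br .no .no (.br .no (.br (.br .no .no .no (.de 46)) .no .no .no) .no .no) (.br .no (.br (.br .no .no .no (.de 46)) .no .no .no) (.de 44) .no)) .no .no (.br .no .no (.de 43) .no)) .no (.br (.br .no .no (.br .no (.br (.br .no .no .no (.de 46)) .no .no .no) .no .no) (.br .no (.br (.br .no .no .no (.de 46)) .no .no .no) (.de 44) .no)) .no .no .no)) .no .no) .no)) .no .no (.br .no .no (.br .no (.de 34) .no .no) .no)) .no (.br (.br .no .no (.br .no (.de 34) .no .no) (.sw 1 2 [24,25])) .no .no .no)) (.br .no (.br (.br .no .no (.br .no (.de 34) .no .no) (.br .no (.de 34) (.br .no (.br .no (.br (.sw 2 3 [29]) .no (.de 42) .no) (.br (.br .no .no (.br .no (.br (.br .no .no .no (.de 41))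 .no .no .no) .no .no) (.sw 1 2 [24,25,30])) .no .no .no) .no) .no .no) .no)) .no .no (.br .no .no (.br .no (.de 34) .no .no) .no)) .no .no)) .no .no (.br .no .no (.br .no (.br (.br .no .no (.br .no (.br (.br (.br .no .no .no (.br .no .no (.de 43) .no)) (.br (.br .no .no (.br .no (.br (.br .no .no (.de 41) (.de 46)) .no .no (.br .no .no (.de 41) .no)) .no (.de 44)) (.br .no (.br (.br .no .no (.de 41) (.de 46)) .no .no (.br .no .no (.de 41) .no)) .no .no)) .no .no (.br .no .no (.de 43) .no)) .no .no) .no .no .no) .no .no) (.br .no (.sw 0 2 [20,26]) (.br (.br (.br .no .no .no (.br .no .no (.de 43) .no)) (.br (.br .no .no (.br .no (.br (.br .no (.br .no .no (.de 48) .no) .no (.de 46)) .no .no .no) .no .no) (.br .no (.br (.br .no (.br .no .no (.de 48) .no) .no (.de 46)) .no .no .no) (.de 44) .no)) .no .no (.br .no .no (.de 43) .no)) .no .no) (.br (.br .no .no .no (.br .no .no (.de 43) .no)) (.br (.br .no .no (.br .no (.br (.br .no .no .no (.de 46)) .no .no .no) .no .no) (.br .no (.br (.br .no .no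 .no (.de 46)) .no .no .no) (.de 44) .no)) .no .no (.br .no .no (.de 43) .no)) .no .no) .no .no) .no)) .no .no (.br .no .no (.br .no (.br (.br (.br .no .no .no (.br (.br .no (.br (.br .no .no (.br .no (.br .no (.br .no .no (.br .no .no .no (.br .no .no (.br .no .no .no (.de 47)) .no)) .no) (.de 43) .no) .no .no) (.de 46)) .no .no (.sw 0 2 [20,26,32])) .no .no) .no (.de 43) .no)) (.br (.br .no .no (.br (.br .no .no .no (.br .no .no (.de 41) .no)) (.sw 0 3 [31]) .no .no) .no) .no .no (.br (.br .no (.br (.br .no .no (.de 41) (.de 46)) .no .no (.sw 0 2 [20,26,32])) .no .no) .no (.de 43) .no)) .no .no) .no .no .no) .no .no) .no)) .no (.sw 0 1 [14,15,22,23])) .no))) .no .no .no) .no .no) .no)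

theorem P2_1 : R.S 15 374272580 :=
  R.piece L hL (.br (.br .no (.br .no .no (.br (.br .no .no .no (.br (.sw 2 3 [7,8,9]) .no c2_1_1 .no)) .no .no c2_1_2) (.br (.br .no .no .no (.br (.sw 2 3 [7,8,9]) .no (.br .no .no (.br .no .no .no (.br (.br .no (.sw 2 3 [17]) (.br .no (.br (.br .no .no .no (.br (.br .no (.br .no .no .no (.br (.br .no .no (.br .no (.de 34) .no .no) (.sw 1 2 [24,25])) .no .no .no)) (.br .no (.br (.sw 2 3 [17,24]) .no .no (.br .no .no (.br .no (.de 34) .no .no) .no)) .no (.br (.br .no .no (.br .no (.de 34) .no .no) (.sw 1 2 [24,25])) .no .no .no)) .no) (.br .no .no (.br .no (.br (.sw 2 3 [17,24]) .no .no (.br .no .no (.br .no (.br (.br (.br .no .no .no (.br (.br .no (.br (.sw 2 3 [17,24,31,32]) .no .no (.sw 0 2 [20,26,32])) .no .no) .no (.de 43) .no)) .no .no (.br (.br .no .no (.br (.br .no .no .no (.br .no .no (.de 41) .no)) (.sw 0 3 [31]) .no .no) .no) .no .no .no)) .no .no .no) .no .no) .no)) .no (.br (.br .no .no (.br .no (.br (.br (.br .no (.br .no .no (.br .no (.br (.br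 .no .no (.br .no .no .no (.br .no .no (.br .no .no .no (.de 44)) .no)) (.de 46)) .no .no (.br .no .no (.br .no .no .no (.br .no .no (.br .no .no .no (.de 44)) .no)) .no)) .no (.de 44)) .no) .no .no) .no .no (.br (.br .no (.br .no .no .no (.br (.br .no .no (.de 41) (.de 46)) .no .no .no)) (.sw 1 3 [30]) .no) (.br .no .no (.br .no (.br (.br .no .no (.de 41) (.de 46)) .no .no (.br .no .no (.de 41) .no)) .no (.de 44)) .no) .no .no)) .no .no .no) .no .no) (.sw 1 2 [24,25])) .no .no .no)) .no) .no .no)) .no .no .no) .no .no) .no) .no (.br .no (.br .no .no (.br (.br .no .no .no (.br (.br .no (.br (.br .no .no .no (.br .no (.br .no .no (.br .no (.br .no .no (.br .no .no .no (.br .no (.sw 0 2 [23,30]) (.de 43) .no)) (.br .no .no (.br .no (.br (.br .no .no .no (.br (.de 46) .no .no .no)) .no (.br (.br .no .no .no (.de 46)) .no .no (.de 45)) .no) .no .no) .no)) .no .no) .no) .no .no)) .no .no (.sw 0 2 [23])) .no .no) (.br (.br .no .no .no (.br (.br .no (.br .no .no (.br (.br .no .no (.br .no (.de 42) .no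 .no) (.br .no (.sw 0 2 [23,29]) (.br .no (.br .no .no (.br (.br .no (.br .no .no (.br .no (.de 48) .no .no) .no) .no (.de 46)) .no .no (.de 45)) (.br (.br .no (.br .no .no (.br .no (.de 48) .no .no) .no) .no (.de 46)) .no .no .no)) .no .no) .no)) .no .no .no) .no) .no (.br .no (.br (.sy 29 120 6) .no .no .no) (.br (.br .no .no (.br .no (.de 42) .no .no) (.br .no (.sw 0 2 [23,29]) (.sy 29 108 7) .no)) .no .no .no) .no)) .no .no .no)) .no .no .no) .no .no)) (.br (.br (.br .no (.br (.sy 23 198 7) .no .no (.sw 0 2 [23])) .no .no) (.br (.br .no .no .no (.br (.br .no .no .no (.br .no .no (.br .no .no .no (.br .no .no (.br .no (.de 42) .no .no) (.br .no (.sw 0 2 [23,29]) (.br .no (.br .no .no (.br (.br .no (.br (.br .no (.br .no .no .no (.de 44)) .no .no) .no (.sw 0 1 [28,29]) .no) .no .no) (.br (.br .no .no (.sw 0 1 [28,29]) .no) .no .no .no) .no .no) .no) .no .no) .no))) .no)) .no .no .no)) .no .no .no) .no .no) .no .no (.sw 0 2 [20])) .no .no) .no) .no .no) .no)) (.br .no .no (.br (.br .no (.sw 2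 3 [17]) (.br .no (.br (.de 27) .no .no .no) .no .no) .no) .no .no .no) .no)) .no)) .no .no .no)) (.br .no .no .no (.br (.br .no .no .no (.br (.br .no .no (.br .no (.br (.br .no (.sw 2 3 [7,8,9,16,17]) (.br .no (.br .no .no (.br .no .no .no (.br (.br .no .no (.br .no (.br (.sw 2 3 [7,8,9,16,17,24]) .no .no (.br (.br .no (.de 34) .no .no) .no .no .no)) .no (.br (.br .no .no .no (.br (.sw 1 2 [24,25,26]) (.de 34) .no .no)) .no .no .no)) (.br .no (.br (.sw 2 3 [7,8,9,16,17,24]) .no .no (.br (.br .no (.de 34) .no .no) .no .no .no)) .no .no)) .no .no (.br .no .no (.br .no (.br (.sw 2 3 [7,8,9,16,17,24]) .no .no (.br (.br .no (.br (.br (.br .no .no .no (.br (.br .no (.sw 2 3 [7,8,9,16,17,24,31]) (.br .no .no .no (.de 45)) .no) .no (.de 43) .no)) (.br (.br .no .no (.br .no (.br .no .no (.sw 0 3 [31,32]) (.br .no .no (.de 41) .no)) .no .no) .no) .no .no (.br (.br .no (.sw 2 3 [7,8,9,16,17,24,31]) (.br .no .no .no (.de 45)) .no) .no (.de 43) .no)) .no .no) .no .no .no) .no .no) .no .no .no)) .no (.br (.br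 .no .no .no (.br (.sw 1 2 [24,25,26]) (.br (.br (.br .no (.br .no .no (.br .no (.br (.br .no .no (.br .no (.br .no .no (.de 48) .no) .no .no) (.de 46)) .no (.br .no .no .no (.br .no (.de 47) (.sw 0 1 [33,34]) .no)) .no) .no .no) .no) .no .no) (.br (.br .no (.br .no .no (.br (.br .no .no (.de 41) (.de 46)) .no .no .no) .no) (.sw 1 3 [30]) .no) .no .no .no) .no .no) .no .no .no) .no .no)) .no .no .no)) .no))) .no) .no .no) .no) .no .no .no) .no (.br (.sw 1 2 [16]) (.br .no .no (.br .no (.br .no .no (.br .no .no .no (.sy 26 75 6)) .no) .no .no) .no) .no .no)) (.br .no (.br (.br .no (.sw 2 3 [7,8,9,16,17]) (.br .no (.br .no .no (.de 27) .no) .no .no) .no) .no .no .no) .no .no)) .no (.br .no .no (.br .no (.br c2_1_3 .no .no .no) .no (.br (.sw 1 2 [16]) (.br .no .no (.br .no (.br (.br .no .no .no (.sw 0 1 [14,15])) .no .no .no) .no .no) .no) .no .no)) (.br .no (.br (.br .no (.br .no .no (.br (.de 27) (.br (.br (.br .no .no (.br .no .no .no (.br (.br .no .no .no (.br .no .no (.br .no (.sw 2 3 [21])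 .no .no) .no)) .no .no .no)) (.sw 1 2 [16,22])) .no (.br .no .no .no (.br .no .no (.br (.br .no .no .no (.br .no .no (.br .no (.br (.br .no (.br .no .no .no (.br .no (.br (.br .no .no .no (.de 41)) .no .no .no) (.de 44) .no)) .no .no) (.br (.br .no (.br .no .no (.br (.br .no .no .no (.de 46)) (.br (.br .no .no .no (.sw 0 2 [28])) .no .no (.sw 0 2 [20,27,33])) .no .no) .no) .no (.br .no (.br (.br .no .no .no (.de 46)) .no .no .no) (.de 44) .no)) .no .no .no) .no .no) .no .no) .no)) .no .no (.br (.br .no .no (.br .no (.br (.sy 28 78 7) (.br (.br .no (.br .no .no (.br .no (.sw 0 3 [31,32]) .no (.de 45)) .no) .no .no) .no .no .no) .no .no) .no .no) (.br .no (.sw 0 2 [20,27]) .no .no)) .no .no .no)) .no)) .no) .no .no .no) .no .no) .no) (.br .no (.br (.de 27) .no .no .no) .no .no) .no) .no .no .no) .no .no)) .no)) .no .no .no)) .no) .no .no .no) 15 374272580 1073741824 (by norm_num) (by norm_num) (by norm_num) (by decide +kernel)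

def c2_2_0 : Cert := (.br (.br .no .no .no (.br .no .no (.br .no (.br (.br .no .no .no (.br .no (.br .no .no (.br (.br .no .no .no (.br .no .no (.br .no (.br (.br (.br .no (.br .no .no (.br (.br .no .no .no (.br .no .no (.br .no .no .no (.br .no .no (.br .no .no .no (.de 44)) .no)) .no)) (.br (.br .no .no (.br .no .no .no (.br .no .no (.br .no .no .no (.de 44)) .no)) (.de 46)) .no .no (.br .no .no (.br .no .no .no (.br .no .no (.br .no .no .no (.de 44)) .no)) .no)) .no .no) .no) .no (.br .no (.br (.br .no .no .no (.br .no .no (.br .no .no .no (.br .no (.br .no .no (.br .no .no .no (.br .no .no (.br (.br .no (.br .no .no (.sw 2 3 [6,7,8,9,13,16,19,23,24,29,31,32,36,39,40,41,43,44,45,48]) .no) .no .no) .no .no .no) .no)) .no) (.de 43) .no)) .no)) .no .no .no) (.de 43) .no)) .no .no (.br .no (.br .no .no (.br (.br .no .no .no (.br .no .no (.de 41) .no)) (.br (.br .no .no (.de 41) (.de 46)) .no .no (.br .no .no (.de 41) .no)) .no .no) .no) .no .no)) .no .no .no) .no .no) .no)) (.br (.br .no .no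 (.br .no (.br (.br (.br .no .no .no (.br .no .no (.de 43) .no)) .no .no (.br (.br .no .no (.br .no (.br (.br .no .no (.de 41) (.de 46)) .no .no (.br .no .no (.de 41) .no)) .no (.de 44)) (.br .no (.br (.br .no .no (.de 41) (.de 46)) .no .no (.br .no .no (.de 41) .no)) .no .no)) .no .no .no)) .no .no .no) .no .no) (.br .no (.br (.br (.br .no .no .no (.br .no .no (.de 43) .no)) .no .no (.br (.br .no .no (.br .no (.br (.sw 2 3 [32]) .no (.br .no .no .no (.br .no .no (.br .no (.de 48) (.br .no .no .no (.de 44)) .no) .no)) .no) .no .no) (.br .no (.br (.sw 2 3 [32]) .no (.br .no .no .no (.br .no .no (.br .no (.de 48) (.de 43) .no) .no)) .no) (.de 44) .no)) .no .no .no)) .no .no .no) (.br (.br (.br .no .no .no (.br .no .no (.de 43) .no)) .no .no (.br (.br .no .no (.br .no (.br (.br .no (.br .no .no (.br .no (.de 48) (.br .no .no .no (.de 44)) .no) .no) .no (.de 46)) .no .no .no) .no .no) (.br .no (.br (.br .no (.br .no .no (.br .no (.de 48) (.de 43) .no) .no) .no (.de 46)) .no .no .no) (.de 44) .no))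 .no .no .no)) .no .no .no) .no)) .no .no (.br .no .no (.br .no (.br (.br (.br .no .no .no (.br (.br .no (.br (.br .no .no (.br .no .no .no (.br .no (.br .no .no (.br .no .no .no (.br .no .no (.br .no .no .no (.br .no (.br .no .no (.sy 43 75 6) .no) .no .no)) .no)) .no) (.de 43) .no)) (.de 46)) .no .no (.br .no .no (.br .no .no .no (.br .no (.br .no .no (.br .no .no .no (.br .no .no (.sw 0 1 [30,37,38]) .no)) .no) (.de 43) .no)) .no)) .no .no) .no (.de 43) .no)) .no .no (.br (.br .no .no (.br (.br .no .no .no (.br .no .no (.de 41) .no)) (.sw 0 3 [31]) .no .no) .no) .no .no .no)) .no .no .no) .no .no) .no)) .no .no) .no) .no (.br .no (.br (.br .no .no .no (.br .no .no (.br .no (.br (.br (.br .no .no (.br .no (.br (.br .no .no .no (.br .no .no (.br .no (.br .no (.br .no .no .no (.br .no .no (.de 45) .no)) .no .no) .no .no) .no)) .no .no .no) .no .no) (.br .no (.br (.br .no .no .no (.br .no .no (.br .no (.br .no (.br .no .no (.br .no .no .no (.br .no .no (.br (.br .no .no .no (.br .no .no .lf .no))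 .no .no .no) .no)) .no) (.de 43) .no) .no .no) .no)) .no .no .no) (.de 43) .no)) .no (.br .no .no .no (.br .no (.br (.br .no .no .no (.br .no .no (.br .no (.de 48) .no .no) .no)) .no .no .no) (.de 43) .no)) .no) .no .no .no) .no .no) .no)) .no .no .no) (.br (.br .no .no .no (.br .no .no (.br .no (.br (.br (.br .no (.br .no .no (.br (.br .no .no .no (.br .no .no (.br .no (.br .no .no (.de 48) .no) .no .no) .no)) (.br (.br .no .no (.br .no (.br .no .no (.de 48) .no) .no .no) (.de 46)) .no .no (.br .no .no (.br .no (.br .no .no (.de 48) .no) .no .no) .no)) .no .no) .no) .no (.sw 1 2 [29])) (.br .no .no .no (.br .no (.br (.br .no .no .no (.br .no .no (.de 41) .no)) .no .no .no) (.de 43) .no)) .no .no) .no .no .no) .no .no) .no)) (.br (.br .no .no (.br .no (.br (.br (.br .no .no .no (.br .no .no (.de 43) .no)) (.br (.br .no .no (.br .no (.br (.br .no .no (.de 41) (.de 46)) .no .no (.br .no .no (.de 41) .no)) .no (.de 44)) (.br .no (.br (.br .no .no (.de 41) (.de 46)) .no .no (.br .no .no (.de 41)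 .no)) .no .no)) .no .no (.br .no .no (.de 43) .no)) .no .no) .no .no .no) .no .no) (.br .no (.br (.br (.br .no .no .no (.br .no .no (.de 43) .no)) (.br (.br .no .no (.br .no (.br (.sw 2 3 [32]) .no (.br .no .no .no (.br .no .no (.de 48) .no)) .no) .no .no) (.br .no (.br (.sw 2 3 [32]) .no (.br .no .no .no (.br .no .no (.de 48) .no)) .no) (.de 44) .no)) .no .no (.br .no .no (.de 43) .no)) .no .no) .no .no .no) (.br (.br (.br .no .no .no (.br .no .no (.de 43) .no)) (.br (.br .no .no (.br .no (.br (.br .no (.br .no .no (.de 48) .no) .no (.de 46)) .no .no .no) .no .no) (.br .no (.br (.br .no (.br .no .no (.de 48) .no) .no (.de 46)) .no .no .no) (.de 44) .no)) .no .no (.br .no .no (.de 43) .no)) .no .no) (.br (.br .no .no .no (.br .no .no (.de 43) .no)) (.br (.br .no .no (.br .no (.br (.br .no .no .no (.de 46)) .no .no .no) .no .no) (.br .no (.br (.br .no .no .no (.de 46)) .no .no .no) (.de 44) .no)) .no .no (.br .no .no (.de 43) .no)) .no .no) .no .no) .no)) .no .no (.br .no .no (.br .no (.br (.br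 (.br .no .no .no (.br (.br .no (.br (.br .no .no (.br .no (.br .no (.br .no .no (.br .no .no .no (.br .no .no (.br .no .no .no (.de 47)) .no)) .no) (.de 43) .no) .no .no) (.de 46)) .no .no (.br .no .no (.br .no (.br .no (.br .no .no (.br .no .no .no (.br .no .no (.sw 0 1 [30,37,38]) .no)) .no) (.de 43) .no) .no .no) .no)) .no .no) .no (.de 43) .no)) (.br (.br .no .no (.br (.br .no .no .no (.br .no .no (.de 41) .no)) (.sw 0 3 [31]) .no .no) .no) .no .no (.br (.br .no (.br (.br .no .no (.de 41) (.de 46)) .no .no (.br .no .no (.de 41) .no)) .no .no) .no (.de 43) .no)) .no .no) .no .no .no) .no .no) .no)) .no .no) .no))) .no (.br .no .no .no (.br .no (.br .no .no (.br (.br .no .no .no (.br (.br .no (.br (.br (.br .no (.br .no .no (.br .no (.br .no .no (.sy 32 228 7) (.sw 0 2 [26,32])) .no .no) .no) .no (.br .no (.br .no .no (.br .no .no .no (.de 45)) .no) (.de 43) .no)) .no .no (.br .no (.br .no .no (.br .no (.br .no .no (.sy 32 228 7) (.sw 0 2 [26,32])) .no .no) .no) .no .no)) .no .no .no) .no .no)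 .no .no .no)) (.br (.br .no .no .no (.br (.de 34) (.sw 0 2 [26]) .no .no)) .no .no (.br (.br .no (.br (.br (.br .no .no .no (.br (.br .no (.br .no .no (.br .no .no .no (.br .no .no (.br .no (.de 48) (.de 43) .no) .no)) (.sw 0 2 [26,32])) (.br .no .no .no (.de 45)) .no) .no (.de 43) .no)) .no .no (.br (.br .no .no (.br .no (.br .no .no (.sw 0 3 [31,32]) (.sw 0 2 [26,32])) .no .no) .no) .no .no .no)) .no .no .no) .no .no) .no .no .no)) .no .no) .no) .no (.br .no (.br (.br .no .no .no (.br (.br .no (.br (.br (.br .no .no (.br .no (.br .no .no (.br .no .no .no (.de 45)) .no) .no .no) (.br .no (.br .no .no (.br .no .no .no (.de 45)) .no) (.de 43) .no)) .no (.br .no .no .no (.br .no (.br .no .no (.br .no .no .no (.de 45)) .no) (.de 43) .no)) .no) .no .no .no) .no .no) .no .no .no)) .no .no .no) (.br (.br .no .no .no (.br (.br .no (.br (.br (.br .no (.br .no .no (.br .no (.br .no .no (.br .no .no .no (.br .no (.de 47) (.sw 1 3 [28]) .no)) (.sw 0 2 [26,32])) .no .no) .no) .no (.sw 1 2 [29])) (.br .no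 .no .no (.br .no (.br .no .no (.br .no .no .no (.de 45)) .no) (.de 43) .no)) .no .no) .no .no .no) .no .no) .no .no .no)) (.br (.br .no .no .no (.br (.br .no (.br (.br .no .no .no (.br .no .no (.de 43) .no)) (.br (.br .no .no (.br .no (.br .no .no (.br .no .no .no (.br (.br .no .no (.de 48) .no) .no (.de 48) .no)) .no) .no .no) (.br .no (.br .no .no (.br .no .no .no (.br (.br .no .no (.de 43) .no) .no (.de 48) .no)) .no) (.de 44) .no)) .no .no (.br .no .no (.de 43) .no)) .no .no) .no .no) (.sw 0 2 [26]) .no .no)) .no .no (.br (.br .no (.br (.br (.br .no .no .no (.br (.br .no (.br .no .no (.br .no .no .no (.br .no (.de 47) (.sw 1 3 [28]) .no)) (.sw 0 2 [26,32])) (.br .no .no .no (.de 45)) .no) .no (.de 43) .no)) (.br (.br .no .no (.br .no (.br .no .no (.sw 0 3 [31,32]) (.sw 0 2 [26,32])) .no .no) .no) .no .no (.br (.br .no (.br .no .no (.br .no .no .no (.br .no .no (.de 48) .no)) (.sw 0 2 [26,32])) (.br .no .no .no (.de 45)) .no) .no (.de 43) .no)) .no .no) .no .no .no) .no .no) .no .no .no))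 .no .no) .no))) .no) .no .no) .no)) .no .no (.br (.br .no .no (.br .no (.br (.br .no .no .no (.br (.br .no (.br .no .no .no (.br (.br .no .no (.br .no (.de 34) .no .no) (.br .no (.de 34) (.br .no (.br .no .no (.br (.br .no (.br .no .no (.br (.br .no .no .no (.de 41)) (.br (.br .no .no .no (.br .no (.de 48) .no .no)) .no .no (.de 41)) .no .no) .no) (.br .no (.br (.br .no .no .no (.de 41)) .no .no .no) .no .no) .no) .no .no .no) (.br (.br .no (.br .no .no (.br (.br .no .no .no (.de 46)) (.br (.br .no .no (.br .no (.de 48) (.br .no .no .no (.de 44)) .no) .no) .no .no (.br .no .no (.br .no (.de 48) (.br .no .no .no (.de 44)) .no) .no)) .no .no) .no) (.br .no (.br (.br .no .no .no (.de 46)) .no .no .no) .no .no) .no) .no (.br .no (.br .no .no (.br (.br .no .no .no (.de 46)) (.br (.br .no .no (.br .no (.de 48) .no .no) .no) .no .no (.br .no .no (.sy 36 135 6) .no)) .no .no) .no) .no .no) .no)) .no .no) .no)) .no .no .no)) (.br .no (.br (.br .no .no (.br .no (.de 34) .no .no) (.br .no (.de 34) (.br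 .no (.br .no (.br (.br .no .no (.br .no (.br (.br .no .no .no (.de 46)) .no .no .no) .no .no) (.br .no (.br (.br .no .no .no (.de 46)) .no .no .no) (.de 44) .no)) .no .no (.br .no .no (.de 43) .no)) .no (.br (.br .no .no (.br .no (.br (.br .no .no .no (.de 46)) .no .no .no) .no .no) (.br .no (.br (.br .no .no .no (.de 46)) .no .no .no) (.de 44) .no)) .no .no .no)) .no .no) .no)) .no .no (.br .no .no (.br .no (.de 34) .no .no) .no)) .no (.br (.br .no .no (.br .no (.de 34) .no .no) (.br .no (.de 34) (.br .no (.br .no (.br (.br .no (.br .no .no (.br (.br .no .no .no (.de 46)) (.br (.br .no .no (.de 48) (.br .no .no (.de 48) .no)) .no .no (.br .no .no (.de 48) .no)) .no .no) .no) (.sw 1 3 [30]) .no) .no .no .no) .no (.br (.sw 1 2 [29]) (.br .no .no (.br .no (.br (.br .no .no .no (.de 46)) .no .no .no) .no .no) .no) .no .no)) .no .no) .no)) .no .no .no)) .no) (.br .no .no (.br .no (.sw 0 3 [22,23]) .no (.br (.br .no .no (.br .no (.br (.br (.br .no (.br .no .no (.br .no (.sw 0 3 [22,23,30,31]) .no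 (.de 44)) .no) .no .no) .no .no (.br (.br .no (.br .no .no .no (.br (.br .no .no (.de 41) (.de 46)) .no .no .no)) (.sw 1 3 [30]) .no) (.br .no .no (.br .no (.sw 0 3 [22,23,30,31]) .no (.de 44)) .no) .no .no)) .no .no .no) .no .no) (.br .no (.br (.br (.br .no (.br .no .no (.br .no (.br (.sw 2 3 [32]) .no (.br .no .no .no (.br .no .no (.br .no .no (.br .no .no .no (.de 44)) .no) .no)) .no) .no .no) .no) .no .no) .no .no (.br (.br .no (.br .no .no (.br (.br .no .no (.de 41) (.de 46)) .no .no .no) .no) (.sw 1 3 [30]) .no) (.br .no .no (.br .no (.br (.sw 2 3 [32]) .no (.br .no .no .no (.br .no .no (.sy 39 75 6) .no)) .no) .no .no) .no) .no .no)) .no .no .no) (.br (.br (.br .no (.br .no .no (.br .no (.br (.br .no (.br .no .no (.br .no .no (.br .no .no .no (.de 44)) .no) (.de 47)) .no (.de 46)) .no .no .no) .no .no) .no) .no .no) .no .no (.br (.br .no (.br .no .no (.br (.br .no (.br .no .no (.br .no (.de 48) (.br .no .no .no (.de 44)) .no) .no) .no (.de 46)) (.br .no .no .no (.br .no .no (.sw 0 1 [28,34])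 .no)) .no .no) .no) (.sw 1 3 [30]) .no) (.br .no .no (.br .no (.br (.br .no (.br .no .no (.br .no .no (.br .no .no .no (.de 44)) .no) .no) .no (.de 46)) .no .no .no) .no .no) .no) .no .no)) .no .no .no) .no)) .no .no .no)) .no) .no .no)) .no (.br .no .no .no (.br (.br .no (.br .no .no .no (.br (.br .no .no .no (.br (.sy 26 78 7) (.de 34) .no .no)) .no .no .no)) (.br .no (.br (.br .no .no .no (.br (.sy 26 78 7) (.de 34) .no .no)) .no .no (.br (.br .no (.de 34) .no .no) .no .no .no)) .no (.br (.br .no .no .no (.br (.sy 26 78 7) (.de 34) .no .no)) .no .no .no)) .no) (.br .no .no (.br .no (.sw 0 3 [22,23]) .no (.br (.br .no .no .no (.br (.de 34) (.sw 0 2 [26]) .no .no)) .no .no .no)) .no) .no .no)) .no) .no .no) (.br .no (.br (.br .no .no .no (.br (.br .no (.br .no .no (.br (.br .no .no (.br .no (.de 34) .no .no) (.br .no (.de 34) (.br .no (.br .no .no (.br (.br .no (.sw 2 3 [24,30]) .no (.br .no (.br (.br .no .no .no (.de 41)) .no .no .no) (.de 44) .no)) .no .no (.br .no (.br .no .no (.br (.br .no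 .no .no (.de 41)) (.br (.br .no .no .no (.br .no (.de 48) .no .no)) .no .no (.de 41)) .no .no) .no) .no .no)) (.br (.br .no (.sw 2 3 [24,30]) .no (.br .no (.br (.br .no .no .no (.de 46)) .no .no .no) (.de 44) .no)) .no .no .no)) .no .no) .no)) .no .no .no) .no) (.br .no (.br (.sw 2 3 [24]) .no (.br .no .no .no (.br .no (.de 34) (.br .no (.br .no (.br (.br .no .no .no (.br (.br .no (.br (.br .no .no (.de 48) (.br .no .no (.de 43) .no)) .no .no (.br .no .no (.de 48) .no)) .no .no) (.sw 0 2 [31]) .no .no)) .no .no (.br (.br .no (.br (.br .no .no .no (.de 46)) .no .no .no) .no .no) .no .no .no)) .no (.br (.br .no .no .no (.br (.br .no (.br (.br .no .no (.br .no (.de 48) (.de 43) .no) .no) .no .no (.br .no .no (.br .no (.de 48) (.de 43) .no) .no)) .no .no) (.sw 0 2 [31]) .no .no)) .no .no .no)) .no .no) .no)) .no) .no .no) .no) (.br .no .no (.br .no (.br (.sw 2 3 [24]) .no (.br .no .no .no (.br .no (.br (.br (.br .no .no .no (.br (.br .no (.br (.sw 2 3 [24,31,32]) .no (.sy 28 147 11) .no) .no .no)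 .no .no .no)) .no .no (.sy 28 147 7)) .no .no .no) (.br (.br (.br .no .no .no (.br (.br .no (.br (.br .no (.br .no .no (.br .no (.de 48) (.de 43) .no) (.de 47)) .no (.de 46)) .no .no .no) .no .no) .no .no .no)) .no .no (.br (.br .no .no .no (.br (.br .no (.br .no .no .no (.br .no .no (.sw 0 1 [28,34]) .no)) .no .no) (.sw 0 2 [31]) .no .no)) .no .no .no)) .no .no .no) .no)) .no) .no .no) .no) .no .no)) .no (.br .no .no .no (.br (.br .no (.br .no .no (.br (.br .no .no .no (.br (.br .no (.br .no .no (.br (.br .no (.sw 2 3 [24,30]) .no (.br .no (.br .no .no (.br .no .no .no (.de 41)) .no) (.de 44) .no)) .no .no (.br .no (.br .no .no (.br .no (.br .no .no (.sy 33 228 7) (.de 41)) .no .no) .no) .no .no)) (.br (.br .no (.sw 2 3 [24,30]) .no (.br .no (.br .no .no (.br .no .no .no (.br .no .no (.br .no (.de 48) (.de 43) .no) .no)) .no) (.de 44) .no)) .no .no .no)) .no .no) (.de 34) .no .no)) .no .no .no) .no) (.br .no (.br (.sw 2 3 [24]) .no (.br (.br .no (.de 34) .no .no) .no .no (.br (.br .no (.br .no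 (.br (.br .no .no .no (.br (.br .no (.br .no .no (.br .no .no .no (.br .no .no (.de 43) .no)) (.sw 0 2 [26,33])) (.br .no .no .no (.br .no .no (.de 48) .no)) .no) (.sw 0 2 [31]) .no .no)) .no .no (.br (.br .no (.br .no .no (.br .no .no .no (.br .no .no (.de 48) .no)) .no) .no .no) .no .no .no)) .no (.br (.br .no .no .no (.br (.br .no (.br .no .no (.de 41) (.sw 0 2 [26,33])) (.br .no .no .no (.br .no .no (.sy 35 45 6) .no)) .no) (.sw 0 2 [31]) .no .no)) .no .no .no)) .no .no) (.de 34) .no .no)) .no) .no .no) .no) (.br .no .no (.br .no (.br (.sw 2 3 [24]) .no (.br (.br .no (.br (.sy 28 210 6) .no .no .no) .no .no) .no .no (.br (.de 34) (.sw 0 2 [26]) .no .no)) .no) .no .no) .no) .no .no)) .no) (.br (.br .no .no .no (.br (.br .no (.br .no .no (.br (.br .no (.br .no .no (.br .no (.br .no .no (.br (.br .no (.br .no .no (.br (.br .no .no .no (.de 41)) .no .no (.de 45)) (.br (.br .no .no .no (.de 41)) .no .no .no)) .no (.br .no .no (.de 44) .no)) .no .no (.br .no (.br .no .no (.br (.br .no .no .no (.de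 41)) .no .no (.de 45)) (.br (.br .no .no .no (.de 41)) .no .no .no)) .no .no)) (.br (.br .no (.br .no .no (.br (.br .no .no .no (.de 46)) .no .no (.de 45)) (.br (.br .no .no .no (.de 46)) .no .no .no)) .no (.br .no .no (.de 44) .no)) .no .no .no)) .no .no) .no) .no (.sw 1 2 [25])) (.br .no .no .no (.br .no (.de 34) (.br .no (.br .no .no (.br (.br .no .no .no (.br (.br .no (.br (.br .no .no .no (.br .no (.de 48) .no .no)) .no .no (.de 41)) .no .no) .no (.de 44) .no)) .no .no (.br (.br .no .no (.br (.br .no .no .no (.de 41)) (.br (.br .no .no .no (.br .no (.de 48) .no .no)) .no .no (.de 41)) .no .no) .no) .no .no .no)) (.br (.br .no .no .no (.br (.sw 1 2 [25,29,30,31]) .no (.de 44) .no)) .no .no .no)) .no .no) .no)) .no .no) .no) (.br .no (.br (.br .no (.br .no .no (.br .no (.br .no (.br (.br .no .no (.br .no .no .no (.de 44)) (.br .no .no (.de 44) .no)) .no .no (.br .no .no (.de 43) .no)) .no (.br (.br .no .no (.br .no .no .no (.de 44)) (.sw 1 2 [29,30])) .no .no .no)) .no .no) .no) .no (.sw 1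 2 [25])) .no .no .no) .no .no) .no) (.br .no .no (.br .no (.br (.br .no (.br .no .no (.br (.br (.br .no .no .no (.br .no .no (.de 43) .no)) .no .no (.br (.br .no .no (.br .no .no .no (.de 44)) (.br .no .no (.de 44) .no)) .no .no .no)) .no .no .no) .no) .no (.sw 1 2 [25])) .no .no .no) .no .no) .no) .no .no)) .no .no .no) .no)) .no .no .no))

def c2_2_1 : Cert := (.br .no .no (.br .no (.br .no .no (.br .no .no .no (.br (.br .no .no (.br .no (.br (.br .no .no .no (.br (.br .no (.br .no (.br (.br .no .no (.br .no (.br .no .no (.br .no .no .no (.br .no .no (.de 48) .no)) .no) .no .no) (.br .no (.br .no .no (.br .no .no .no (.br .no .no (.de 48) .no)) .no) (.de 44) .no)) .no .no (.br .no .no (.de 43) .no)) .no (.br (.br .no .no (.br .no (.br .no .no (.br .no .no .no (.br .no .no (.br .no (.de 48) (.br .no .no .no (.de 44)) .no) .no)) .no) .no .no) (.br .no (.br .no .no (.br .no .no .no (.br .no .no (.br .no (.de 48) (.de 43) .no) .no)) .no) (.de 44) .no)) .no .no .no)) .no .no) (.de 34) .no .no))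 .no .no (.br (.br .no (.de 34) .no .no) .no .no .no)) .no (.br (.br .no .no .no (.br (.br .no (.br .no (.br (.br .no (.br .no .no (.br .no (.br .no .no (.br .no .no .no (.br .no .no (.de 48) .no)) (.br .no .no (.de 48) .no)) .no .no) .no) (.sw 1 3 [30]) .no) .no .no .no) .no (.br (.br .no (.br .no .no (.br .no (.br .no .no (.de 41) (.br .no .no (.br .no (.de 48) (.br .no .no .no (.de 44)) .no) .no)) .no .no) .no) (.sw 1 3 [30]) .no) (.br .no .no (.br .no (.br .no .no (.br .no .no .no (.br .no .no (.sy 39 75 6) .no)) .no) .no .no) .no) .no .no)) .no .no) (.de 34) .no .no)) .no .no .no)) (.br .no (.br (.br .no .no .no (.br (.br .no (.br .no (.br (.sw 2 3 [29]) .no (.de 42) .no) (.br (.br .no .no (.br .no (.br .no .no (.br .no .no .no (.de 41)) .no) .no .no) (.br .no (.br .no .no (.br .no .no .no (.de 41)) .no) (.de 44) .no)) .no .no .no) .no) .no .no) (.de 34) .no .no)) .no .no (.br (.br .no (.de 34) .no .no) .no .no .no)) .no .no)) .no .no (.br .no .no (.br .no (.br (.br .no .no .no (.br (.br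 .no (.br (.br .no .no .no (.br .no .no (.de 43) .no)) (.br (.br .no .no (.br .no (.br .no .no (.br .no .no .no (.br (.br .no .no (.de 48) .no) .no (.de 48) .no)) .no) .no .no) (.br .no (.br .no .no (.br .no .no .no (.br (.br .no .no (.de 43) .no) .no (.de 48) .no)) .no) (.de 44) .no)) .no .no (.br .no .no (.de 43) .no)) .no .no) .no .no) (.br (.br (.br .no .no .no (.br .no .no (.de 43) .no)) (.br (.br .no .no (.br .no (.br (.br .no .no (.de 41) (.de 46)) .no (.br .no .no .no (.br .no .no (.de 48) .no)) .no) .no .no) (.br .no (.br (.br .no .no (.de 41) (.de 46)) .no (.br .no .no .no (.br .no .no (.de 48) .no)) .no) (.de 44) .no)) .no .no (.br .no .no (.de 43) .no)) .no .no) .no .no .no) .no .no)) .no .no (.br (.br .no (.br (.br (.br .no .no .no (.br (.br .no (.br .no .no (.br .no .no .no (.br .no (.de 47) (.br .no (.de 48) (.de 43) .no) .no)) (.br .no .no (.br .no (.br .no (.br .no .no (.br .no .no .no (.br .no .no (.br (.br .no .no .no (.br .no .no .lf .no)) .no .no .no) .no)) .no) (.de 43) .no)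 .no .no) .no)) (.br .no .no .no (.de 45)) .no) .no (.de 43) .no)) (.br (.br .no .no (.br .no (.br .no .no (.sw 0 3 [31,32]) (.br .no .no (.de 41) .no)) .no .no) .no) .no .no (.br (.br .no (.br .no .no (.br .no .no .no (.br .no .no (.de 48) .no)) (.br .no .no (.de 41) .no)) (.br .no .no .no (.de 45)) .no) .no (.de 43) .no)) .no .no) .no .no .no) .no .no) .no .no .no)) .no (.br (.br .no .no .no (.br (.br .no (.br (.br .no (.br .no .no (.br .no (.br .no .no (.br .no .no .no (.br .no .no (.br .no .no (.br .no .no .no (.de 44)) .no) .no)) .no) .no .no) .no) .no .no) (.br (.br .no (.sy 30 57 7) (.sw 1 3 [30]) .no) .no .no .no) .no .no) .no .no) (.br (.br (.br .no (.br .no .no (.br .no (.br (.br .no .no (.br .no (.br .no .no (.de 48) .no) .no .no) (.de 46)) .no (.br .no .no .no (.br .no (.de 47) (.sw 0 1 [33,34]) .no)) .no) .no .no) .no) .no .no) (.br (.br .no (.br .no .no (.br (.br .no .no (.de 41) (.de 46)) .no .no .no) .no) (.sw 1 3 [30]) .no) .no .no .no) .no .no) .no .no .no) .no .no)) .no .no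 .no)) .no))) .no) .no .no) (.br .no (.br .no .no (.br .no .no .no (.br (.br .no .no (.br .no (.br (.sw 2 3 [24]) .no (.br (.br .no (.de 34) .no .no) .no .no (.br (.br .no (.br .no (.br (.br .no .no .no (.br (.br .no (.br .no .no (.br .no .no .no (.br .no .no (.de 43) .no)) (.br .no .no (.de 48) .no)) (.br .no .no .no (.br .no .no (.de 48) .no)) .no) (.sw 0 2 [31]) .no .no)) .no .no (.br (.br .no (.br .no .no (.br .no .no .no (.br .no .no (.de 48) .no)) .no) .no .no) .no .no .no)) .no (.br (.br .no .no .no (.br (.br .no (.br .no .no (.de 41) (.br .no .no (.br .no (.de 48) (.de 43) .no) .no)) (.br .no .no .no (.br .no .no (.sy 35 45 6) .no)) .no) (.sw 0 2 [31]) .no .no)) .no .no .no)) .no .no) (.de 34) .no .no)) .no) .no .no) (.br .no (.br (.sw 2 3 [24]) .no (.br (.br .no (.de 34) .no .no) .no .no (.br (.br .no (.br .no (.br (.sw 2 3 [29]) .no (.de 42) .no) (.br (.br .no .no .no (.br (.br .no (.br .no .no (.br .no .no .no (.br .no (.de 48) .no .no)) (.de 41)) (.br .no .no .no (.de 41)) .no) (.sw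 0 2 [31]) .no .no)) .no .no .no) .no) .no .no) (.de 34) .no .no)) .no) (.br (.br .no .no .no (.br (.br .no (.br .no (.br (.br .no (.sw 2 3 [24,29,30]) .no (.sw 1 2 [30])) .no .no .no) (.br (.br .no (.br .no .no (.br .no (.br .no .no (.br .no .no .no (.br .no (.de 48) .no .no)) (.de 41)) .no .no) .no) .no (.sw 1 2 [30])) (.de 42) .no .no) .no) .no .no) (.de 34) .no .no)) .no .no .no) .no)) .no .no (.br .no .no (.br .no (.br (.sw 2 3 [24]) .no (.br (.br .no (.br (.br (.br .no .no .no (.br (.br .no (.sw 2 3 [24,31]) .no (.br .no .no (.de 45) .no)) .no .no .no)) (.br (.br .no .no .no (.br .no (.br .no .no (.br .no .no .no (.br .no .no (.de 48) .no)) (.br .no .no (.de 41) .no)) .no .no)) .no .no (.br (.br .no (.sw 2 3 [24,31]) .no (.br .no .no (.de 45) .no)) .no .no .no)) .no .no) .no .no .no) .no .no) .no .no (.br (.br .no (.br (.br .no .no .no (.br (.br .no (.br .no .no (.br .no .no .no (.br .no .no (.br .no (.de 48) (.de 43) .no) .no)) .no) .no .no) .no .no .no)) (.br (.br .no .no .no (.br (.br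 .no (.br .no .no (.br (.br .no .no (.de 43) .no) .no .no .no) (.br (.br .no .no (.de 43) .no) .no (.de 48) .no)) (.br .no .no .no (.br (.br .no .no (.de 43) .no) .no (.de 48) .no)) .no) (.sw 0 2 [31]) .no .no)) .no .no (.br (.br .no (.br .no .no (.br .no .no .no (.br (.br .no .no (.de 43) .no) .no (.de 48) .no)) .no) .no .no) .no .no .no)) .no .no) .no .no) (.br (.br (.br .no .no .no (.br (.br .no (.br (.br .no .no (.br .no (.br .no (.br .no .no (.br .no .no .no (.br .no .no (.br .no .no .no (.de 47)) .no)) .no) (.de 43) .no) .no .no) (.de 46)) .no (.sw 0 3 [32]) .no) .no .no) .no .no .no)) (.br (.br .no .no .no (.br (.br .no .no (.br .no .no .no (.br .no .no (.de 48) .no)) .no) (.sw 0 2 [31]) .no .no)) .no .no (.br (.br .no (.br (.br .no .no (.de 41) (.de 46)) .no (.sw 0 3 [32]) .no) .no .no) .no .no .no)) .no .no) .no .no .no) .no .no)) .no) .no .no) .no))) .no) (.br .no (.br .no .no .no (.br (.br .no .no (.br .no (.br (.br .no .no .no (.br (.sw 1 2 [25,26]) .no (.br .no (.br .no (.br (.br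 .no .no (.br .no (.br (.br .no .no .no (.de 46)) .no .no .no) .no .no) (.br .no (.br (.br .no .no .no (.de 46)) .no .no .no) (.de 44) .no)) .no .no (.br .no .no (.de 43) .no)) .no (.br (.br .no .no (.br .no (.br (.br .no .no .no (.de 46)) .no .no .no) .no .no) (.br .no (.br (.br .no .no .no (.de 46)) .no .no .no) (.de 44) .no)) .no .no .no)) .no .no) .no)) .no .no .no) .no .no) (.br .no (.br (.br .no .no .no (.br (.sw 1 2 [25,26]) .no (.br .no (.br .no (.br (.sw 2 3 [29]) .no (.de 42) .no) (.br (.br .no .no (.br .no (.br (.br .no .no .no (.de 41)) .no .no .no) .no .no) (.br .no (.br (.br .no .no .no (.de 41)) .no .no .no) (.de 44) .no)) .no .no .no) .no) .no .no) .no)) .no .no .no) (.br (.br .no .no .no (.br (.sw 1 2 [25,26]) .no (.br .no (.br .no (.br (.br .no (.br .no .no (.br (.br .no .no .no (.de 46)) (.br (.br .no .no (.de 48) (.br .no .no (.de 48) .no)) .no .no (.sw 0 2 [33])) .no .no) .no) .no (.sw 1 2 [30])) .no .no .no) (.br (.br .no (.br .no .no (.br (.br .no .no .no (.de 41)) (.br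 (.br .no .no .no (.br .no (.de 48) .no .no)) .no .no (.de 41)) .no .no) .no) .no (.sw 1 2 [30])) (.de 42) .no .no) .no) .no .no) .no)) (.br (.br .no .no (.br .no (.br .no (.br (.br .no .no .no (.br .no .no (.de 44) .no)) .no .no .no) (.br (.br .no .no .no (.br .no .no (.de 44) .no)) (.de 42) .no .no) .no) .no .no) .no) .no .no (.br (.br .no (.br .no (.br (.br .no .no .no (.br (.sw 1 2 [25,26,30,31]) .no (.de 44) .no)) .no .no .no) (.br (.br .no .no .no (.br (.sw 1 2 [25,26,30,31]) .no (.de 44) .no)) (.de 42) .no .no) .no) .no .no) .no (.br .no (.br .no (.br (.br .no .no .no (.br (.br .no (.br (.br .no .no (.de 48) (.br .no .no (.de 43) .no)) .no .no (.sw 0 2 [33])) .no .no) .no (.de 44) .no)) .no .no .no) (.br (.br .no .no .no (.br (.br .no (.br (.br .no .no .no (.br .no (.de 48) .no .no)) .no .no (.de 41)) .no .no) .no (.de 44) .no)) (.de 42) .no .no) .no) .no .no) .no)) .no .no) .no)) .no .no (.br .no .no (.br .no (.br (.br .no .no .no (.br (.sw 1 2 [25,26]) .no (.br (.br (.br .no .no .no (.br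 .no .no (.de 43) .no)) (.br (.br .no .no (.br .no (.br (.br .no (.br .no .no (.de 48) .no) .no (.de 46)) .no .no .no) .no .no) (.br .no (.br (.br .no (.br .no .no (.de 48) .no) .no (.de 46)) .no .no .no) (.de 44) .no)) .no .no (.br .no .no (.de 43) .no)) .no .no) (.br (.br .no .no .no (.br .no .no (.de 43) .no)) (.br (.br .no .no (.br .no (.br (.br .no .no .no (.de 46)) .no .no .no) .no .no) (.br .no (.br (.br .no .no .no (.de 46)) .no .no .no) (.de 44) .no)) .no .no (.br .no .no (.de 43) .no)) .no .no) .no .no) .no)) .no .no .no) .no .no) .no))) .no .no) .no))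

def c2_2_2 : Cert := (.br .no .no (.br .no (.br (.br .no .no .no (.br (.br .no (.br .no .no .no (.br (.br .no .no (.br .no (.br .no .no (.br .no .no .no (.br (.br .no (.br .no (.br (.br .no .no .no (.br (.br .no (.br .no .no (.br .no .no .no (.br .no .no (.de 43) .no)) (.br .no .no (.de 48) .no)) (.br .no .no .no (.br .no .no (.de 48) .no)) .no) (.sw 0 2 [18,25,31]) .no .no)) .no .no (.br (.br .no (.br .no .no (.br .no .no .no (.br .no .no (.de 48) .no)) .no) .no .no) .no .no .no)) .no (.br (.br .no .no .no (.br (.br .no (.br .no .no (.de 41) (.br .no .no (.br .no (.de 48) (.de 43) .no) .no)) (.br .no .no .no (.br .no .no (.sy 35 45 6) .no)) .no) (.sw 0 2 [18,25,31]) .no .no)) .no .no .no)) .no .no) .no (.br .no (.br .no (.br (.br .no .no .no (.br (.br .no (.br (.br .no .no (.de 48) (.br .no .no (.de 43) .no)) .no .no (.sw 0 2 [33])) .no .no) (.sw 0 2 [18,25,31]) .no .no)) .no .no (.br (.br .no (.br (.br .no .no .no (.de 46)) .no .no .no) .no .no) .no .no .no)) .no (.br (.br .no .no .no (.br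 (.br .no (.br (.br .no .no (.br .no (.de 48) (.de 43) .no) .no) .no .no (.sw 0 2 [33])) .no .no) (.sw 0 2 [18,25,31]) .no .no)) .no .no .no)) .no .no) .no)) .no) .no .no) (.br .no (.br .no .no (.br .no .no .no (.br (.br .no (.br .no (.br (.sw 2 3 [29]) .no (.de 42) .no) (.br (.br .no .no .no (.br (.br .no (.br .no .no (.br .no .no .no (.br .no (.de 48) .no .no)) (.de 41)) (.br .no .no .no (.de 41)) .no) (.sw 0 2 [18,25,31]) .no .no)) .no .no .no) .no) .no .no) .no (.br .no (.br .no (.br (.sw 2 3 [29]) .no (.de 42) .no) (.br (.br .no .no .no (.br (.br .no (.br (.br .no .no .no (.br .no (.de 48) .no .no)) .no .no (.de 41)) .no .no) (.sw 0 2 [18,25,31]) .no .no)) .no .no .no) .no) .no .no) .no)) .no) (.br .no (.br .no .no (.br (.br .no (.br .no (.br (.br .no .no .no (.br (.br .no (.br .no .no (.br .no .no .no (.br .no .no (.de 43) .no)) (.br .no .no (.de 48) .no)) .no (.br .no .no (.br .no .no .no (.br .no .no (.de 43) .no)) .no)) .no .no .no)) .no .no .no) (.br (.br .no .no .no (.br (.br .no (.br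 .no .no (.br .no .no .no (.br .no (.de 48) .no .no)) (.de 41)) .no (.br .no .no (.br .no .no .no (.sy 39 30 6)) .no)) .no .no .no)) (.de 42) .no .no) .no) .no .no) .no .no .no) (.sw 0 2 [18,25])) .no .no) .no)) .no .no (.br .no .no (.br .no (.br .no .no (.br .no .no .no (.br (.br .no (.br (.br .no .no .no (.br (.br .no (.br .no .no (.br .no .no .no (.br .no .no (.br .no (.de 48) (.de 43) .no) .no)) .no) .no .no) .no .no .no)) (.br (.br .no .no .no (.br (.br .no (.br .no .no (.br (.br .no .no (.de 43) .no) .no .no .no) (.br (.br .no .no (.de 43) .no) .no (.de 48) .no)) (.br .no .no .no (.br (.br .no .no (.de 43) .no) .no (.de 48) .no)) .no) (.sw 0 2 [18,25,31]) .no .no)) .no .no (.br (.br .no (.br .no .no (.br .no .no .no (.br (.br .no .no (.de 43) .no) .no (.de 48) .no)) .no) .no .no) .no .no .no)) .no .no) .no .no) .no (.br (.br (.br .no .no .no (.br (.br .no (.br (.br .no (.br .no .no (.br .no (.de 48) (.de 43) .no) .no) .no (.de 46)) .no .no .no) .no .no) .no .no .no)) (.br (.br .no .no .no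 (.br (.br .no (.br .no .no .no (.br .no .no (.de 48) .no)) .no .no) (.sw 0 2 [18,25,31]) .no .no)) .no .no (.br (.br .no (.br (.br .no (.br .no .no (.de 48) .no) .no (.de 46)) .no .no .no) .no .no) .no .no .no)) .no .no) (.br (.br .no .no .no (.br (.br .no (.br (.br .no .no .no (.de 46)) .no .no .no) .no .no) .no .no .no)) (.br (.br .no .no .no (.br (.br .no (.br (.br .no .no (.de 48) .no) .no .no (.sw 0 2 [33])) .no .no) (.sw 0 2 [18,25,31]) .no .no)) .no .no (.br (.br .no (.br (.br .no .no .no (.de 46)) .no .no .no) .no .no) .no .no .no)) .no .no) .no .no) .no)) .no) .no .no) .no))) (.br .no .no .no (.br (.br .no .no (.br .no (.br .no .no (.br .no (.br (.br .no (.sy 32 225 6) .no .no) .no .no .no) .no (.br (.sw 1 2 [26]) (.de 34) .no .no)) .no) .no .no) (.br .no (.br .no .no (.br .no (.br (.br .no (.br .no (.br (.sw 2 3 [29]) .no (.de 42) .no) (.br (.br .no .no .no (.br (.br .no .no (.br .no .no .no (.de 41)) (.sw 1 2 [26,30,31,32])) .no .no .no)) .no .no .no) .no) .no .no) .no .no .no) .no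 (.br (.sw 1 2 [26]) (.de 34) .no .no)) .no) (.br .no (.br .no .no .no (.br (.sw 1 2 [26]) (.de 34) .no .no)) .no .no) .no)) .no .no (.br .no .no (.br .no (.br .no .no (.br .no (.br (.br .no (.br (.br .no .no .no (.br (.br .no .no .no (.br .no .no (.de 45) .no)) .no .no .no)) (.br (.br .no .no .no (.br (.br .no .no (.br .no .no .no (.br (.br .no .no (.de 43) .no) .no (.de 48) .no)) (.br .no .no (.br (.br .no .no (.de 43) .no) .no .no .no) .no)) .no .no .no)) .no .no (.br (.br .no .no .no (.br .no .no (.de 45) .no)) .no .no .no)) .no .no) .no .no) .no .no .no) .no (.br (.sw 1 2 [26]) (.br (.br (.br .no .no .no (.br (.br .no (.br (.br .no .no (.br .no (.br .no (.br .no .no (.br .no .no .no (.br .no .no (.br .no .no .no (.de 47)) .no)) .no) (.de 43) .no) .no .no) (.de 46)) .no (.br .no .no .no (.br .no (.de 47) (.sw 0 1 [33,34]) .no)) .no) .no .no) .no .no .no)) (.br (.br .no .no .no (.br (.br .no .no (.br .no .no .no (.br .no .no (.de 48) .no)) .no) (.br (.br .no .no (.de 41) (.de 46)) .no (.br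 .no .no .no (.br .no .no (.de 48) .no)) .no) .no .no)) .no .no (.br (.br .no (.br (.br .no .no (.de 41) (.de 46)) .no (.br .no .no .no (.br .no .no (.de 48) .no)) .no) .no .no) .no .no .no)) .no .no) .no .no .no) .no .no)) .no) .no .no) .no))) .no) (.sw 0 2 [18]) .no .no)) .no .no (.br (.br .no (.br .no .no (.br .no .no .no (.br (.br .no .no (.br .no (.br .no .no (.sw 0 3 [23,24]) (.sw 0 2 [18,24])) .no .no) .no) .no .no (.br (.br .no (.br .no .no (.br (.br .no (.br (.br .no (.br .no .no (.de 42) (.br (.br .no (.br .no .no (.br .no .no .no (.br .no .no (.de 48) .no)) (.br .no .no (.de 41) .no)) .no (.br .no .no (.de 45) .no)) .no .no .no)) (.br .no .no .no (.br (.br .no (.br .no .no (.br .no .no .no (.br .no (.de 47) .no .no)) (.br .no .no (.br .no (.de 48) .no .no) .no)) .no (.br .no .no (.de 45) .no)) .no .no .no)) .no) .no .no .no) .no .no) .no .no (.br (.br .no (.br .no (.br .no .no (.de 42) (.br (.br .no (.br .no .no (.br .no .no .no (.br (.br .no .no (.de 43) .no) .no (.de 48) .no)) .no)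 .no .no) .no .no .no)) (.br .no .no .no (.br (.br .no (.br .no .no (.br .no .no .no (.br (.br .no (.de 48) .no .no) .no .no .no)) .no) .no .no) .no .no .no)) .no) .no .no) (.br (.br .no (.br .no .no (.de 42) (.br (.br .no (.br (.br .no .no (.de 41) (.de 46)) .no (.sw 0 3 [32]) .no) .no .no) .no .no .no)) (.br .no .no .no (.br (.br .no (.br (.br .no .no (.br .no (.de 48) .no .no) (.de 46)) .no (.sw 0 3 [32]) .no) .no .no) .no .no .no)) .no) .no .no .no) .no .no)) (.sw 0 2 [18,24])) (.br .no .no .no (.br (.br .no (.br (.br .no (.br .no .no .no (.br (.sw 1 2 [30]) (.sw 0 2 [18,24,29,30]) .no .no)) (.br .no (.de 42) .no (.sw 0 1 [14,15,20,22,29])) .no) .no .no .no) .no .no) .no .no .no)) .no) .no (.sw 0 1 [14,15,20,22]) .no))) .no) .no .no) .no .no .no)) .no (.br (.br .no .no .no (.br (.br .no (.br .no .no .no (.br (.br .no (.sy 22 57 7) (.sw 1 3 [22]) .no) (.br .no .no (.br .no (.br .no .no (.br .no .no .no (.br (.de 34) .no (.sw 0 1 [14,15,20,25,26]) .no)) .no) .no .no) .no) .no .no)) (.br .no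 .no .no (.sw 0 1 [14,15,20])) .no) (.sw 0 2 [18]) .no .no)) .no .no .no)) (.br .no (.br (.br .no .no .no (.br (.br .no (.br .no .no (.br (.br .no .no (.br .no (.br .no .no (.br .no .no .no (.br (.br .no (.sw 2 3 [21,27]) .no .no) .no .no .no)) .no) .no .no) (.br .no (.br .no .no (.br .no .no .no (.br (.br .no (.sw 2 3 [21,27]) .no .no) .no .no .no)) .no) (.br .no (.br .no .no (.br (.br .no (.sw 2 3 [21,27]) .no .no) .no .no (.br .no (.br .no (.br (.br .no .no .no (.br (.br .no (.br (.sw 2 3 [21,27,32,33]) .no (.sw 0 3 [33]) .no) .no .no) .no .no .no)) .no .no .no) (.br (.br .no .no .no (.br (.br .no (.br (.sw 2 3 [21,27,32,33]) .no (.sw 0 3 [33]) .no) .no .no) .no .no .no)) (.de 42) .no .no) .no) .no .no)) (.sw 0 2 [18,25])) .no .no) .no)) .no (.br .no .no .no (.br .no (.br .no .no (.br .no .no .no (.br (.br .no (.br (.br .no .no (.br (.br .no (.br .no .no (.br .no .no .no (.de 41)) .no) .no .no) .no .no (.de 43)) .no) (.br (.br .no .no .no (.br (.br .no (.br .no .no (.br (.sw 2 3 [21,27,28,29])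 .no .no (.sw 0 2 [28])) (.br (.sw 2 3 [21,27,28,29]) .no .no .no)) (.br .no .no .no (.br (.sw 2 3 [21,27,28,29]) .no .no .no)) .no) (.sw 0 2 [18,25,31]) .no .no)) .no (.de 42) .no) .no .no) .no .no) .no .no .no)) .no) (.br .no (.br .no .no (.br (.br .no (.br (.br .no (.br (.br .no .no .no (.br .no (.br .no .no (.br .no .no .no (.br .no .no (.br .no .no .no (.br .no .no (.de 45) .no)) .no)) (.de 41)) .no .no)) .no .no (.br (.br .no (.br .no .no (.br .no .no .no (.br .no .no (.de 43) .no)) (.de 41)) .no (.br .no .no (.br .no .no .no (.br .no .no (.de 43) .no)) .no)) .no .no .no)) .no .no) (.br (.br .no .no .no (.br (.br .no (.br .no .no (.br (.br .no .no (.de 43) .no) .no .no (.sw 0 2 [28])) (.br (.br .no .no (.de 43) .no) .no .no .no)) .no (.br .no .no (.br (.br .no .no (.de 43) .no) .no .no (.sw 0 2 [28])) .no)) .no .no .no)) .no .no .no) .no .no) .no .no) .no .no (.br (.br (.br .no (.br (.br .no .no .no (.br (.br .no (.br .no .no .no (.de 47)) (.br .no (.br .no .no (.de 48) .no) .no (.br .no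 .no (.br .no .no .no (.br .no .no (.de 45) .no)) .no)) .no) (.sw 0 2 [18,25,32]) .no .no)) .no .no (.br (.br .no (.br .no .no (.br .no (.br .no .no (.de 43) .no) .no (.br .no .no (.de 43) .no)) .no) .no .no) .no .no .no)) .no .no) (.br (.br .no .no .no (.br (.br .no (.br .no .no (.br .no .no .no (.br .no .no (.de 43) .no)) .no) .no .no) .no .no .no)) .no .no .no) .no .no) (.br (.br .no (.br (.br .no .no .no (.br (.br .no .no (.br .no .no .no (.sw 0 1 [34])) .no) (.sw 0 2 [18,25,32]) .no .no)) .no .no (.br (.br .no (.br (.br .no .no .no (.br .no .no (.de 43) .no)) .no (.sw 0 3 [33]) .no) .no .no) .no .no .no)) .no .no) (.br (.br .no .no .no (.br (.br .no (.br (.br .no .no .no (.sw 0 2 [28])) .no (.sw 0 3 [33]) .no) .no .no) .no .no .no)) .no .no .no) .no .no) .no .no)) (.sw 0 2 [18,25])) .no .no) .no)) .no) .no) (.de 27) .no) (.sw 0 2 [18]) .no .no)) .no .no (.br (.br .no (.br .no .no (.de 27) .no) .no .no) .no .no .no)) .no .no))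

def c2_2_3 : Cert := (.br (.br .no (.br .no .no (.br .no (.br (.br .no .no .no (.br .no (.br .no .no c2_2_0 (.br (.br .no .no .no (.br .no .no (.br .no (.br (.br .no .no (.br .no (.br .no .no (.br (.br .no .no .no (.br .no .no (.br .no (.br (.sw 2 3 [21,27]) .no .no .no) .no (.br (.br (.br .no (.br .no .no (.br (.br .no (.br .no .no (.br .no .no .no (.br .no .no (.br .no .no .no (.de 44)) .no)) .no) .no .no) (.br (.br .no (.br .no .no (.br .no .no (.br .no .no .no (.de 44)) .no) (.de 47)) (.sw 1 3 [33]) .no) .no .no .no) .no .no) .no) .no (.br .no (.br (.br .no (.br .no .no (.br .no .no .no (.br .no (.br .no .no (.br .no .no .no (.br .no .no (.br (.sw 1 3 [33,39]) .no .no (.br .no (.sw 0 3 [46]) .no .no)) .no)) .no) (.de 43) .no)) .no) .no .no) .no .no .no) (.de 43) .no)) .no .no (.br .no (.br .no .no (.br (.br .no (.br .no .no (.de 41) .no) .no .no) (.br (.br .no (.br .no .no (.br .no .no (.br .no .no .no (.de 44)) .no) .no) (.de 41) .no) .no .no .no) .no .no) .no) .no .no)) .no .no .no)) .no))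 (.br (.br .no .no (.br .no (.br (.sw 2 3 [21,27]) .no .no .no) .no (.br (.br (.br .no .no .no (.br .no .no (.de 43) .no)) .no .no (.br (.br .no .no (.br .no (.br (.br .no (.sw 2 3 [21,27,32,33]) (.de 41) .no) .no .no .no) .no (.de 44)) (.br .no (.br (.br .no (.sw 2 3 [21,27,32,33]) (.de 41) .no) .no .no .no) .no .no)) .no .no .no)) .no .no .no)) (.br .no (.br (.sw 2 3 [21,27]) .no .no .no) .no .no)) .no .no (.br .no .no (.br .no (.br (.sw 2 3 [21,27]) .no .no .no) .no (.br (.br (.br .no .no .no (.br (.br .no (.br (.br .no (.br .no .no (.br .no (.de 48) (.de 43) .no) (.de 47)) (.sw 1 3 [33]) .no) .no .no .no) .no .no) .no (.de 43) .no)) .no .no (.br (.br .no .no (.br (.br .no (.br .no .no (.de 41) .no) .no .no) (.sw 0 3 [31]) .no .no) .no) .no .no .no)) .no .no .no)) .no)) .no .no) .no) (.br .no (.br (.br .no .no .no (.br .no .no (.br .no (.br (.br (.br .no .no (.br .no (.br (.br .no .no .no (.br .no .no (.br .no (.sw 2 3 [21,27,28]) .no (.br .no (.br .no .no .no (.br .no .no (.de 45) .no)) .no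 .no)) .no)) .no .no .no) .no .no) (.br .no (.br (.br .no .no .no (.br .no .no (.br .no (.sw 2 3 [21,27,28]) .no (.sw 1 2 [28,29])) .no)) .no .no .no) (.de 43) .no)) .no .no (.br .no .no (.br .no (.br (.br .no .no .no (.br .no .no (.br .no (.br .no (.br .no .no .no (.br .no .no (.de 45) .no)) .no .no) .no .no) .no)) .no .no .no) .no .no) .no)) .no .no .no) .no (.br (.br (.br .no .no (.br .no (.br (.br .no (.br .no .no (.br .no (.br .no (.br .no .no .no (.br .no .no (.br .no .no .no (.br (.br .no .no .no (.br .no .no .lf .no)) .no .no .no)) .no)) .no .no) .no (.br .no (.br .no .no .no (.br .no .no (.br .no .no .no (.br (.br .no (.br .no .no (.sw 1 3 [41,47]) .no) .no .no) .no .no .no)) .no)) .no .no)) .no) .no .no) .no .no .no) .no .no) (.br .no (.br (.br .no (.br .no .no (.br .no (.br .no (.br .no .no (.br .no .no .no (.br .no .no (.br (.sw 1 3 [33,39]) .no .no (.de 47)) .no)) .no) (.de 43) .no) .no (.sw 1 2 [28,29])) .no) .no .no) .no .no .no) (.de 43) .no)) .no .no (.br .no .no (.br .no (.br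 (.br .no (.br .no .no (.br .no (.br .no (.br .no .no .no (.br .no .no (.br .no .no .no (.br (.br .no .no .no (.br .no .no (.sw 0 3 [35]) .no)) .no .no .no)) .no)) .no .no) .no .no) .no) .no .no) .no .no .no) .no .no) .no)) (.br (.br .no .no (.br .no (.br (.br .no (.br (.br .no .no .no (.br .no (.br .no .no .no (.br .no .no (.br .no .no .no (.de 46)) .no)) .no .no)) .no (.br .no .no .no (.sw 0 1 [34])) .no) .no .no) .no .no .no) .no .no) (.br .no (.br (.br .no (.br (.br .no .no .no (.sy 40 120 6)) .no (.br .no .no .no (.sw 0 1 [34])) .no) .no .no) .no .no .no) (.de 43) .no)) .no .no (.br .no .no (.br .no (.br (.br .no (.br (.de 41) .no (.br (.br .no (.br .no .no .no (.br .no .no (.br .no .no .no (.br (.br .no (.br .no .no (.sw 0 3 [35,41]) .no) .no (.br .no .no (.sw 1 3 [47]) .no)) .no .no .no)) .no)) .no .no) .no .no .no) .no) .no .no) .no .no .no) .no .no) .no)) .no .no)) .no)) .no .no .no) .no .no) .no) .no) .no (.de 27) .no) .no .no) .no)) .no .no .no)) .no .no)) .no (.br (.br .no (.sy 15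 210 6) .no .no) .no .no (.br .no (.br .no .no (.br (.br .no .no .no (.br (.br .no (.br (.br .no .no .no (.br .no (.br .no .no (.br .no (.br .no .no (.br .no .no .no (.br .no (.br (.br (.br .no .no .no (.br (.br .no (.br (.br .no .no (.br .no .no .no (.br .no (.br .no .no (.br .no .no .no (.br .no .no (.br .no .no .no (.br .no (.sy 28 147 19) .no .no)) .no)) .no) (.de 43) .no)) (.de 46)) .no (.sy 28 147 11) .no) .no .no) .no .no .no)) .no .no (.sy 28 147 7)) .no .no .no) (.br (.br (.br .no .no .no (.br (.br .no (.br (.br .no (.br .no .no (.br .no (.de 48) (.de 43) .no) (.de 47)) .no (.de 46)) .no .no .no) .no .no) .no .no .no)) .no .no (.br (.br .no .no .no (.br (.br .no (.br .no .no .no (.br .no .no (.br .no (.de 48) (.de 43) .no) .no)) .no .no) (.sw 0 2 [18,24,31]) .no .no)) .no .no .no)) .no .no .no) .no)) (.sw 0 2 [18,24])) .no .no) .no) .no (.br .no (.br .no .no (.br .no .no .no (.br .no .no (.br .no (.br (.br (.br .no .no .no (.br (.br .no (.br (.br .no .no (.br .no (.br .no (.br .no .no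 (.br .no .no .no (.br .no .no (.br .no .no .no (.de 47)) .no)) .no) (.de 43) .no) .no .no) (.de 46)) .no .no (.br .no .no (.br .no (.br .no (.br .no .no (.br .no .no .no (.br .no .no (.br (.br .no .no .no (.br .no .no .lf .no)) .no .no .no) .no)) .no) (.de 43) .no) .no .no) .no)) .no .no) (.sw 0 2 [18,24,30]) .no .no)) .no (.br (.br .no (.br (.br .no .no .no (.br .no .no (.br .no (.de 48) .no .no) .no)) .no .no .no) .no .no) .no .no (.br (.br .no (.br (.br .no .no (.br .no (.de 48) .no .no) (.de 46)) .no .no (.br .no .no (.br .no (.de 48) .no .no) .no)) .no .no) (.sw 0 2 [18,24,30]) .no .no)) .no) .no .no .no) .no .no) .no)) .no) (.br .no (.br .no .no (.br .no .no .no (.br .no (.br (.br (.br .no .no .no (.br (.br .no (.br (.br .no .no (.br .no (.br .no (.br .no .no (.br .no .no .no (.br .no .no (.br .no .no .no (.de 47)) .no)) .no) (.de 43) .no) .no .no) (.de 46)) .no (.br .no .no .no (.br .no (.de 47) (.sw 1 3 [28]) .no)) .no) .no .no) .no .no .no)) (.br (.br .no .no .no (.br (.br .no .no (.br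 .no .no .no (.br .no .no (.de 48) .no)) .no) (.sw 0 2 [18,24,31]) .no .no)) .no .no (.br (.br .no (.br (.br .no .no (.de 41) (.de 46)) .no (.br .no .no .no (.br .no .no (.de 48) .no)) .no) .no .no) .no .no .no)) .no .no) .no .no .no) (.br (.br (.br .no .no .no (.br (.br .no (.br (.br .no (.br .no .no (.sw 1 3 [28]) .no) .no (.de 46)) .no .no .no) .no .no) .no .no .no)) (.br (.br .no .no .no (.br (.br .no (.br .no .no .no (.br .no .no (.de 48) .no)) .no .no) (.sw 0 2 [18,24,31]) .no .no)) .no .no (.br (.br .no (.br (.br .no (.br .no .no (.de 48) .no) .no (.de 46)) .no .no .no) .no .no) .no .no .no)) .no .no) (.br (.br .no .no .no (.br (.br .no (.br (.br .no .no .no (.de 46)) .no .no .no) .no .no) .no .no .no)) (.br (.br .no .no .no (.br (.br .no (.br (.br .no .no (.de 48) .no) .no .no (.br (.br .no .no (.de 43) .no) .no (.de 48) .no)) .no .no) (.sw 0 2 [18,24,31]) .no .no)) .no .no (.br (.br .no (.br (.br .no .no .no (.de 46)) .no .no .no) .no .no) .no .no .no)) .no .no) .no .no) .no)) (.sw 0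 2 [18,24])) .no .no) .no))) .no (.sw 0 3 [19]) .no) .no .no) .no .no .no)) .no .no (.sy 15 147 7)) (.br (.br .no .no .no (.br (.br .no (.br (.br .no .no (.br .no (.br .no .no (.br .no (.br .no .no (.br .no .no .no (.br .no (.br (.sw 2 3 [21,27]) .no .no .no) .no .no)) (.sw 0 2 [18,24])) .no .no) .no) (.br .no (.br .no .no (.br .no .no .no (.br .no .no (.br .no (.sw 0 3 [19,26]) .no (.br (.br (.br .no .no .no (.sy 15 147 21)) .no .no (.br (.br .no (.br (.br .no (.br .no .no (.br .no (.br .no (.br .no .no (.sy 15 147 28) (.sw 0 2 [18,24,30,36])) (.de 48) .no) .no .no) .no) .no .no) .no .no .no) .no .no) .no .no .no)) (.sy 30 75 6) .no .no)) .no)) .no) .no .no) .no) .no) .no (.de 27) .no) .no .no) .no .no .no)) .no .no .no)) .no .no)) .no) .no .no) .no) .no .no) (.br (.br .no (.br .no .no (.br (.br .no .no .no (.br (.br .no .no (.br .no .no .no (.br (.br .no (.br .no .no (.br .no (.br .no .no .no (.sy 20 228 11)) .no .no) .no) .no (.br .no (.br .no .no (.br .no .no .no (.br (.br .no (.br .no .no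 (.br (.br .no .no .no (.br (.br .no (.br .no .no (.br (.br .no (.br .no .no (.br .no (.br .no .no (.sy 33 228 7) (.de 41)) .no .no) .no) .no (.br .no (.br .no .no (.br .no .no .no (.de 41)) .no) (.de 44) .no)) .no .no (.br .no (.br .no .no (.br .no (.br .no .no (.sy 33 228 7) (.de 41)) .no .no) .no) .no .no)) (.br (.br .no (.br .no .no (.br .no (.br .no .no (.de 41) (.br .no .no (.sy 33 228 11) .no)) .no .no) .no) .no (.br .no (.br .no .no (.br .no .no .no (.br .no .no (.br .no (.de 48) (.de 43) .no) .no)) .no) (.de 44) .no)) .no .no .no)) .no .no) (.de 34) .no .no)) .no .no .no) .no) (.br .no (.br (.br .no .no .no (.br (.br .no (.br .no (.br (.br .no .no (.br .no (.br .no .no (.br .no .no .no (.br .no .no (.de 48) .no)) .no) .no .no) (.br .no (.br .no .no (.br .no .no .no (.br .no .no (.de 48) .no)) .no) (.de 44) .no)) .no .no (.br .no .no (.de 43) .no)) .no (.br (.br .no .no (.br .no (.br .no .no (.br .no .no .no (.br .no .no (.br .no (.de 48) (.br .no .no .no (.de 44)) .no) .no)) .no) .no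 .no) (.sw 1 2 [29,30])) .no .no .no)) .no .no) (.de 34) .no .no)) .no (.br (.br .no (.de 34) .no .no) .no .no (.br (.br .no (.br .no (.br (.br .no .no .no (.br (.br .no (.br .no .no (.br .no .no .no (.br .no .no (.de 43) .no)) (.br .no .no (.de 48) .no)) (.br .no .no .no (.br .no .no (.de 48) .no)) .no) (.sw 0 2 [31]) .no .no)) .no .no (.br (.br .no (.br .no .no (.br .no .no .no (.br .no .no (.de 48) .no)) .no) .no .no) .no .no .no)) .no (.br (.br .no .no .no (.br (.br .no (.br .no .no (.de 41) (.br .no .no (.br .no (.de 48) (.de 43) .no) .no)) (.br .no .no .no (.br .no .no (.sy 35 45 6) .no)) .no) (.sw 0 2 [31]) .no .no)) .no .no .no)) .no .no) (.de 34) .no .no)) .no) .no .no) .no) (.br .no .no (.br .no (.br (.br .no .no .no (.br (.de 34) (.br (.sy 20 228 14) .no .no .no) .no .no)) .no (.br (.br .no (.br (.sy 28 210 6) .no .no .no) .no .no) .no .no (.br (.de 34) (.br (.sy 20 228 14) .no .no .no) .no .no)) .no) .no .no) .no) .no .no)) .no) (.br .no (.br .no .no .no (.br (.br .no (.br .no .no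 (.br (.sw 1 3 [24]) (.br (.br .no .no (.br .no (.br .no .no (.br (.br .no .no .no (.br .no .no (.de 44) .no)) .no .no (.br (.br .no .no (.sw 1 3 [24,31]) (.br .no (.br (.br .no .no .no (.br .no (.de 48) .no .no)) .no .no (.de 41)) .no .no)) .no .no .no)) (.br (.br .no .no .no (.br .no .no (.de 44) .no)) .no .no .no)) .no .no) .no) .no .no (.br (.br .no (.br .no .no (.br (.br .no .no .no (.br (.br .no (.br .no .no (.br .no .no .no (.br .no (.de 48) .no .no)) (.de 41)) (.br .no .no .no (.de 41)) .no) .no (.de 44) .no)) .no .no (.br (.br .no .no (.br .no (.br .no .no (.br .no .no .no (.br .no (.de 48) .no .no)) (.de 41)) .no .no) .no) .no .no .no)) (.br (.br .no .no .no (.br (.sw 1 2 [25,26,29,30,31]) .no (.de 44) .no)) .no .no .no)) .no .no) .no (.br .no (.br .no .no (.br (.br .no .no .no (.br (.br .no (.br (.br .no .no .no (.br .no (.de 48) .no .no)) .no .no (.de 41)) .no .no) .no (.de 44) .no)) .no .no (.br (.br .no .no (.br (.br .no .no .no (.de 41)) (.sw 0 3 [32]) .no .no) .no) .no .no .no))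 (.br (.br .no .no .no (.br (.br .no (.br (.br .no .no (.br .no (.de 48) (.de 43) .no) .no) .no .no (.sw 0 2 [33])) .no .no) .no (.de 44) .no)) .no .no .no)) .no .no) .no)) .no .no) .no) (.br .no (.br (.br .no .no .no (.br (.sw 1 2 [25,26]) .no (.br .no (.br .no (.br (.br .no .no (.sw 1 3 [24,30]) (.br .no (.br (.br .no .no .no (.de 46)) .no .no .no) (.de 44) .no)) .no .no (.br .no .no (.de 43) .no)) .no (.br (.br .no .no (.sw 1 3 [24,30]) (.sw 1 2 [29,30])) .no .no .no)) .no .no) .no)) .no .no .no) .no .no) .no) (.br .no .no (.br .no (.br (.br .no .no .no (.br (.de 34) .no (.br (.br (.br .no .no .no (.br .no .no (.de 43) .no)) .no .no (.br (.br .no .no (.sw 1 3 [24,30]) (.br .no (.br (.br .no (.br .no .no (.br .no (.de 48) (.de 43) .no) .no) .no (.de 46)) .no .no .no) (.de 44) .no)) .no .no .no)) .no .no .no) .no)) .no .no .no) .no .no) .no) .no .no)) .no .no) .no)) .no .no .no)) (.br .no .no (.br (.br .no (.br .no .no (.br .no (.br .no .no (.sy 20 228 7) .no) .no .no) .no) .no (.br .no (.br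 .no .no (.de 27) .no) (.br .no (.br .no .no (.sy 20 228 7) .no) .no .no) .no)) .no .no (.br .no (.br .no .no (.br .no (.br .no .no (.sy 27 75 6) .no) .no .no) .no) .no .no)) .no)) .no .no .no)) .no .no .no) .no) (.br .no (.br (.br .no .no .no (.br (.br .no .no (.br .no (.br c2_2_1 .no .no (.br .no .no (.br .no (.br .no .no (.br .no .no .no (.br (.br .no .no (.br (.br .no .no .no (.br (.br .no (.de 34) .no .no) .no .no .no)) (.sw 0 3 [23]) .no .no) .no) .no .no (.br (.br .no (.br (.br .no .no .no (.br (.br .no (.br .no (.br .no .no (.de 42) (.br .no .no (.de 43) .no)) (.br .no .no .no (.br .no .no (.de 43) .no)) .no) .no .no) (.br (.br .no (.br .no .no (.de 42) (.br .no .no (.de 43) .no)) (.br .no .no .no (.br .no .no (.de 43) .no)) .no) .no .no .no) .no .no)) .no .no (.br (.br .no (.br (.br .no (.br .no .no (.de 42) (.br (.br .no (.br .no .no (.br .no .no .no (.br .no .no (.de 48) .no)) (.br .no .no (.de 41) .no)) (.br .no .no .no (.de 45)) .no) .no (.de 43) .no)) (.br .no .no .no (.br (.br .no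 (.br .no .no (.br .no .no .no (.br .no (.de 47) .no .no)) (.br .no .no (.br .no (.de 48) .no .no) .no)) (.br .no .no .no (.de 45)) .no) .no (.de 43) .no)) .no) .no .no .no) .no .no) .no .no .no)) .no .no) .no (.sw 0 1 [14,15,20,22]) .no))) .no) .no .no) .no)) .no (.br (.br .no .no (.br .no (.br .no .no (.br .no .no .no (.sw 0 1 [14,15,20])) .no) .no .no) (.sw 1 2 [16,17])) .no .no .no)) (.br .no (.br (.br .no .no (.br .no (.br .no .no (.de 27) .no) .no .no) (.br .no (.br .no .no (.de 27) .no) (.br .no (.br .no .no (.br (.br .no .no (.br .no (.br (.br .no .no .no (.br (.br .no (.sw 2 3 [21,27]) .no .no) .no .no .no)) .no .no .no) .no .no) (.sw 1 2 [16,17,22])) .no (.br .no .no .no (.br .no (.br (.br .no .no .no (.br (.br .no (.br (.br .no .no (.br .no .no .no (.de 43)) .no) (.br (.br .no .no (.br .no (.br .no .no (.br .no .no .no (.br (.sw 2 3 [21,27,28,29]) .no .no .no)) .no) .no .no) (.br .no (.br .no .no (.br .no .no .no (.br (.sw 2 3 [21,27,28,29]) .no .no .no)) .no) (.de 44) .no)) .no (.de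 42) .no) .no .no) .no .no) .no .no .no)) .no .no .no) (.br (.br .no .no .no (.br (.br .no (.br (.br .no (.br .no .no .no (.br .no (.br .no .no (.br .no .no .no (.de 41)) .no) (.de 44) .no)) .no .no) (.br (.br .no (.br .no .no (.br .no (.br .no .no (.br (.sy 37 210 6) .no .no (.sw 0 2 [28])) (.br (.br .no .no (.de 48) .no) .no .no .no)) .no .no) .no) .no (.sw 1 2 [30])) .no .no .no) .no .no) .no .no) .no .no .no)) (.br (.br .no .no .no (.br (.br (.br .no (.br (.br .no .no (.br .no (.br .no .no (.br .no (.sy 41 225 6) .no (.sw 1 2 [16,17,22,28])) .no) .no .no) (.br .no (.br .no .no (.br .no (.br .no .no (.de 48) .no) .no (.sw 1 2 [16,17,22,28])) .no) (.de 45) .no)) .no .no (.br .no .no (.de 44) .no)) .no .no) (.br (.br .no .no .no (.br .no .no (.de 44) .no)) .no .no .no) .no .no) (.br (.br .no (.br (.br .no .no (.br .no (.br (.br .no .no .no (.br .no .no (.br .no .no .no (.de 44)) .no)) .no (.br .no .no .no (.sw 0 1 [34])) .no) .no .no) (.br .no (.br (.br .no .no .no (.br .no .no (.br .no .no .no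 (.br .no .no (.de 45) .no)) .no)) .no (.br .no .no .no (.sw 0 1 [34])) .no) (.de 45) .no)) .no .no (.br .no .no (.de 44) .no)) .no .no) (.br (.br .no .no .no (.br .no .no (.de 44) .no)) .no .no .no) .no .no) .no .no)) .no .no (.br (.br .no (.br (.br .no (.br (.br .no .no (.br .no (.br .no .no (.sw 0 3 [32,33]) (.de 41)) .no .no) .no) .no .no (.br (.br .no (.br .no .no (.br .no .no .no (.br .no .no (.de 43) .no)) (.de 41)) (.br .no .no .no (.de 41)) .no) .no (.de 44) .no)) .no .no) (.br (.br .no .no .no (.br (.br .no (.br .no .no (.br (.br .no .no (.de 43) .no) .no .no (.sw 0 2 [28])) (.br (.br .no .no (.de 43) .no) .no .no .no)) (.br .no .no .no (.br (.br .no .no (.de 43) .no) .no .no .no)) .no) .no (.de 44) .no)) .no .no .no) .no .no) .no .no) .no .no .no)) .no .no) .no)) .no) .no) .no .no) .no)) .no .no (.br .no .no (.br .no (.br .no .no (.de 27) .no) .no .no) .no)) .no .no)) .no .no .no)) .no (.br (.de 20) .no .no (.br c2_2_2 .no .no .no)) .no) .no .no) .no) .no .no .no) .no .no)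

theorem P2_2 : R.S 13 30339652 :=
  R.piece L hL (.br .no .no c2_2_3 .no) 13 30339652 67108864 (by norm_num) (by norm_num) (by norm_num) (by decide +kernel)

def c2_3_0 : Cert := (.br .no (.br .no .no (.br (.sw 1 3 [11]) (.br (.br .no .no (.br .no .no (.br .no .no .no (.br (.br .no .no .no (.br .no .no (.br .no (.br (.sw 2 3 [7,8,9,20]) .no .no (.br (.br .no (.br .no .no (.br (.sw 1 3 [11,18,24]) (.br (.br .no .no (.br .no (.sw 0 3 [27]) .no .no) .no) .no .no (.br (.br .no (.sw 2 3 [7,8,9,20,21,22,27]) .no .no) .no (.br .no (.sw 0 3 [27]) .no .no) .no)) .no .no) .no) (.br .no (.br (.br .no .no .no (.br (.br .no (.br .no (.br (.sw 2 3 [7,8,9,20,21,22,27,29]) .no .no (.br .no .no (.de 43) .no)) .no (.br (.br .no .no (.sw 1 3 [11,18,24,30]) (.sw 1 2 [29,30])) .no .no .no)) .no .no) .no (.br .no (.sw 0 3 [27]) .no .no) .no)) .no .no .no) .no .no) .no) (.br .no .no (.br .no (.br (.br .no .no .no (.br (.de 34) .no (.br (.br (.br .no .no .no (.br .no .no (.de 43) .no)) .no .no (.br (.br .no .no (.sw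 1 3 [11,18,24,30]) (.br .no (.br (.br .no (.br .no .no (.sw 0 3 [27,34]) .no) .no (.de 46)) .no .no .no) (.de 44) .no)) .no .no .no)) .no .no .no) .no)) .no .no .no) .no .no) .no) .no .no)) .no (.br (.br (.br .no (.br .no .no (.br (.sw 1 3 [11,18,24]) (.br (.br .no (.br .no .no .no (.br .no .no (.br (.br .no .no .no (.br .no .no (.de 44) .no)) .no .no (.br (.br .no .no (.sw 1 3 [11,18,24,31]) (.br .no .no (.de 45) .no)) .no .no .no)) (.br (.br .no .no .no (.br .no .no (.de 44) .no)) .no .no .no))) (.sw 1 3 [26]) .no) .no .no .no) .no .no) .no) (.br .no (.br (.br .no (.br .no .no (.br .no (.br .no (.br (.br .no .no (.sw 1 3 [11,18,24,30]) (.br .no .no (.de 44) .no)) .no .no (.br .no .no (.de 43) .no)) .no (.br (.br .no .no (.sw 1 3 [11,18,24,30]) (.sw 1 2 [29,30])) .no .no .no)) .no (.br .no (.br (.br .no .no (.sw 1 3 [11,18,24,30]) (.br .no .no (.de 44) .no)) .no .no (.br .no .no (.de 43) .no)) .no (.br (.br .no .no (.sw 1 3 [11,18,24,30]) (.sw 1 2 [29,30])) .no .no .no))) .no) .no .no) .no .no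 .no) .no .no) .no) (.br .no .no (.br .no (.br (.br .no (.br .no .no (.br .no .no .no (.br (.br .no .no .no (.br .no .no (.de 43) .no)) .no .no (.br (.br .no .no (.sw 1 3 [11,18,24,30]) (.br .no .no (.de 44) .no)) .no .no .no))) .no) .no .no) .no .no .no) .no .no) .no) .no .no) .no .no .no)) .no)) .no .no .no)) (.br .no .no (.br (.br .no .no .no (.br .no .no (.br .no (.br (.sw 2 3 [7,8,9,20]) .no .no .no) .no (.br (.br (.br .no (.br .no .no (.br (.sw 1 3 [11,18,24]) (.br (.br .no (.br .no .no (.br .no .no (.br (.br .no .no .no (.br .no .no (.de 44) .no)) .no .no (.br (.br .no .no (.sw 1 3 [11,18,24,31]) (.br .no .no (.de 45) .no)) .no .no .no)) (.br (.br .no .no .no (.br .no .no (.de 44) .no)) .no .no .no)) .no) (.sw 1 3 [26]) .no) .no .no .no) .no .no) .no) .no (.br .no (.br (.br .no (.br .no .no (.br .no (.br .no (.br (.sw 2 3 [21,22,29]) .no (.de 42) .no) (.br (.br .no .no (.sw 1 3 [11,18,24,29,30]) (.br .no .no (.de 44) .no)) .no .no .no) .no) .no .no) .no) .no .no) .no .no .no) (.br (.sw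 1 3 [11,18,24]) (.br (.br .no (.br .no .no (.br .no (.br (.br .no .no .no (.br .no .no (.de 44) .no)) .no .no .no) (.br (.sw 1 3 [29]) (.de 42) .no .no) .no) .no) (.sw 1 3 [26]) .no) .no .no .no) .no .no) .no)) (.br .no .no .no (.br .no (.br (.br .no (.br .no .no (.de 34) .no) .no .no) .no .no .no) (.br (.sw 1 3 [11,18,24]) (.br (.br .no (.br .no .no (.br (.br .no (.br (.br .no .no (.sw 1 3 [11,18,24,31]) (.br .no .no (.de 45) .no)) .no .no (.br .no .no (.de 44) .no)) .no .no) .no (.br (.br .no .no .no (.br .no .no (.de 44) .no)) (.de 42) .no .no) .no) .no) (.de 34) .no) .no .no .no) .no .no) .no)) .no .no) .no .no .no)) .no)) .no .no (.br (.br .no .no (.sw 1 3 [11,18]) (.br .no (.br (.sw 2 3 [7,8,9,20]) .no .no .no) .no .no)) .no .no .no)) .no)) .no) .no .no (.br (.sw 2 3 [7,8,9]) .no (.br .no .no (.br .no .no .no (.br (.br .no .no .no (.br (.br .no (.br (.br (.br .no (.br .no .no (.br .no (.br .no .no (.br .no .no .no (.br .no (.br .no .no (.br (.br .no .no .no (.br (.br .no (.br (.br .no .no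 .no (.br .no (.de 48) .no .no)) .no (.sy 29 147 11) .no) .no .no) .no .no .no)) .no .no (.sy 29 147 7)) (.br (.br .no .no .no (.br (.br .no (.br (.br .no .no (.sy 29 147 12) .no) .no (.de 41) .no) .no .no) .no .no .no)) .no .no .no)) .no .no)) (.br .no .no (.br .no (.br .no .no (.br (.br .no .no .no (.br (.br .no (.br (.sw 2 3 [32,33]) .no .no (.de 41)) .no .no) .no (.de 44) .no)) .no .no (.br (.br .no .no (.br (.br .no .no .no (.de 41)) (.br (.br .no .no .no (.br .no (.de 48) .no .no)) .no .no (.de 41)) .no .no) .no) .no .no .no)) (.br (.br .no .no .no (.br (.br .no (.br (.sw 2 3 [32,33]) .no .no (.br .no .no (.br .no (.de 48) (.de 43) .no) .no)) .no .no) .no (.de 44) .no)) .no .no .no)) .no (.br .no .no (.br (.br .no .no .no (.br (.br .no (.br (.br .no (.de 48) .no .no) .no .no .no) .no .no) .no (.de 44) .no)) .no .no (.br (.br .no .no (.br (.br .no (.de 41) .no .no) (.br (.br .no (.de 48) .no .no) .no .no .no) .no .no) .no) .no .no .no)) (.br (.br .no .no .no (.br (.br .no (.br (.br .no (.sy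 38 180 6) (.sw 1 3 [34]) .no) .no .no .no) .no .no) .no (.de 44) .no)) .no .no .no))) .no)) .no .no) .no) (.br .no (.br .no .no (.br .no .no .no (.br .no .no (.br .no (.br .no (.br (.br .no .no .no (.br (.br .no (.br (.br .no .no (.de 48) (.br .no .no (.de 43) .no)) .no .no (.br .no .no (.de 48) .no)) .no .no) (.br (.br .no .no .no (.de 46)) .no .no .no) .no .no)) .no .no (.br (.br .no (.br (.br .no .no .no (.de 46)) .no .no .no) .no .no) .no .no .no)) .no (.br (.br .no .no .no (.br (.sw 1 2 [29,30,31]) (.br (.br .no .no .no (.de 46)) .no .no .no) .no .no)) .no .no .no)) .no (.br .no (.br (.br .no .no .no (.br (.sy 31 78 7) (.br (.br .no (.br .no .no (.de 48) .no) .no .no) .no .no .no) .no .no)) .no .no (.br (.br .no (.br (.br .no (.br .no .no (.de 48) .no) .no .no) .no .no .no) .no .no) .no .no .no)) .no (.br (.br .no .no .no (.br (.sw 1 2 [29,30,31]) (.br (.br .no (.br .no .no (.sy 31 78 11) .no) .no .no) .no .no .no) .no .no)) .no .no .no))) .no)) .no) .no .no) .no) (.br .no .no (.br .no (.br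 .no .no (.br .no .no .no (.br .no .no (.br .no .no .no (.sy 31 75 6)) .no)) .no) .no .no) .no) .no .no) .no .no (.sw 0 2 [20])) .no .no) .no (.sw 0 1 [18]) .no)) .no .no .no)) (.br .no .no (.br (.br .no .no .no (.br (.br .no (.br (.br (.br .no (.br .no .no (.br .no (.br .no .no (.sw 0 3 [19,23,24,25]) (.br .no .no (.br .no (.sw 2 3 [21,22]) .no .no) .no)) .no .no) .no) .no (.br .no (.br .no .no (.br .no .no .no (.br .no .no (.br .no (.br .no (.br (.sw 2 3 [21,22,29]) .no (.de 42) .no) (.br (.br .no .no .no (.br (.br .no (.br (.br .no .no .no (.br .no (.de 48) .no .no)) .no .no (.de 41)) .no .no) (.br (.br .no .no .no (.de 41)) .no .no .no) .no .no)) .no .no .no) .no) .no .no) .no)) .no) (.br .no (.br .no .no (.br .no .no .no (.br .no (.sw 0 2 [20,27]) (.br .no (.br (.br .no .no .no (.br (.br .no (.br (.br .no .no .no (.sw 1 2 [34])) .no .no .no) .no .no) .no .no .no)) .no .no .no) (.br (.sw 1 3 [29]) (.de 42) .no .no) .no) .no)) (.br .no .no (.br .no (.br .no (.br (.br .no .no .no (.br (.sw 1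 2 [30,31]) .no (.de 44) .no)) .no .no .no) (.br (.sw 1 3 [29]) (.de 42) .no .no) .no) .no .no) .no)) .no .no) .no)) (.br .no .no .no (.br .no (.br .no .no (.br .no .no .no (.br .no .no (.de 34) .no)) .no) (.br .no (.br .no .no (.br .no .no .no (.br .no .no (.br (.br .no (.br (.br .no .no .no (.br (.br .no (.br .no .no .no (.de 47)) .no .no) (.br (.br .no .no .no (.br .no .no (.br .no .no .no (.br .no .no (.de 45) .no)) .no)) .no .no .no) .no .no)) .no .no (.br (.br .no (.br (.br .no .no .no (.br .no .no (.de 43) .no)) .no .no .no) .no .no) .no .no .no)) .no .no) .no (.br (.br .no .no .no (.br (.br .no (.br (.br .no .no .no (.sw 0 1 [28])) .no .no .no) .no .no) .no .no .no)) (.de 42) .no .no) .no) .no)) (.br .no .no (.de 34) .no)) .no .no) .no)) .no .no) .no .no .no) .no .no) .no (.sw 0 1 [18]) .no)) .no .no (.br (.br .no .no (.br (.de 27) (.sw 0 3 [19]) .no .no) .no) .no .no .no)) .no)) .no)) .no .no) .no) (.br .no (.br (.br .no .no .no (.br (.sw 1 2 [12,13]) .no (.br .no .no (.br .no (.br (.br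 .no .no (.sw 1 3 [11,17]) (.br .no (.br (.br .no .no .no (.br (.br .no .no (.br .no (.br (.sw 2 3 [24]) .no (.br .no .no .no (.br .no (.de 34) (.br .no (.br .no (.br (.br .no .no .no (.br (.br .no (.br (.br .no .no (.de 48) (.br .no .no (.de 43) .no)) .no .no (.sw 0 2 [20,26,33])) .no .no) (.sw 0 2 [31]) .no .no)) .no .no (.br (.br .no (.br (.br .no .no .no (.de 46)) .no .no .no) .no .no) .no .no .no)) .no (.br (.br .no .no .no (.br (.br .no (.br (.br .no .no (.br .no (.de 48) (.de 43) .no) .no) .no .no (.sw 0 2 [20,26,33])) .no .no) (.sw 0 2 [31]) .no .no)) .no .no .no)) .no .no) .no)) .no) .no .no) (.br .no (.br (.sw 2 3 [24]) .no (.br .no .no .no (.br .no (.de 34) (.br .no (.br .no (.br (.sw 2 3 [29]) .no (.de 42) .no) (.br (.br .no .no .no (.br (.br .no (.br (.br .no .no .no (.br .no (.de 48) .no .no)) .no .no (.de 41)) .no .no) (.sw 0 2 [31]) .no .no)) .no .no .no) .no) .no .no) .no)) .no) (.br (.br .no .no (.br .no (.de 34) .no .no) (.br .no (.de 34) (.br .no (.br .no (.br (.br .no (.sw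 2 3 [24,29,30]) .no (.sw 1 2 [30])) .no .no .no) (.br (.br .no (.br .no .no (.br (.br .no .no .no (.de 41)) (.br (.br .no .no .no (.br .no (.de 48) .no .no)) .no .no (.de 41)) .no .no) .no) .no (.sw 1 2 [30])) (.de 42) .no .no) .no) .no .no) .no)) .no .no .no) .no)) .no .no (.br .no .no (.br .no (.br (.sw 2 3 [24]) .no (.br .no .no .no (.br .no (.sw 0 2 [20,26]) (.br (.br (.br .no .no .no (.br (.br .no (.br (.br .no (.br .no .no (.br .no (.de 48) (.de 43) .no) .no) .no (.de 46)) .no .no .no) .no .no) .no .no .no)) (.br (.br .no .no .no (.br (.br .no (.br .no .no .no (.br .no .no (.de 48) .no)) .no .no) (.sw 0 2 [31]) .no .no)) .no .no (.br (.br .no (.br (.br .no (.br .no .no (.de 48) .no) .no (.de 46)) .no .no .no) .no .no) .no .no .no)) .no .no) (.br (.br .no .no .no (.br (.br .no (.br (.br .no .no .no (.de 46)) .no .no .no) .no .no) .no .no .no)) (.br (.br .no .no .no (.br (.br .no (.br (.br .no .no (.de 48) .no) .no .no (.sw 0 2 [20,26,33])) .no .no) (.sw 0 2 [31]) .no .no)) .no .no (.br (.br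 .no (.br (.br .no .no .no (.de 46)) .no .no .no) .no .no) .no .no .no)) .no .no) .no .no) .no)) .no) .no .no) .no))) .no .no .no) (.br (.br .no .no .no (.br (.br .no .no (.br .no (.br (.br .no (.br .no .no (.br .no (.br .no (.br (.br .no .no (.sw 1 3 [11,17,24,30]) (.br .no .no (.de 44) .no)) .no .no (.br .no .no (.de 43) .no)) .no (.br (.br .no .no (.sw 1 3 [11,17,24,30]) (.br .no .no (.de 44) .no)) .no .no .no)) .no .no) .no) .no (.sw 1 2 [25])) .no .no .no) .no .no) (.br .no (.br (.br .no (.br .no .no (.br .no (.br .no (.br (.sw 2 3 [29]) .no (.de 42) .no) (.br (.br .no .no (.sw 1 3 [11,17,22,24,29,30]) (.br .no .no (.de 44) .no)) .no .no .no) .no) .no .no) .no) .no (.sw 1 2 [25])) .no .no .no) (.br (.sw 1 3 [11,17,24]) (.br .no .no .no (.br .no (.de 34) (.br .no (.br .no (.br (.br .no .no .no (.br (.sw 1 2 [25,30,31]) .no (.de 44) .no)) .no .no .no) (.br (.br .no .no .no (.br (.sw 1 2 [25,30,31]) .no (.de 44) .no)) (.de 42) .no .no) .no) .no .no) .no)) .no .no) .no)) .no .no (.br .no .no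 (.br .no (.br (.br .no (.br .no .no (.br (.br (.br .no .no .no (.br .no .no (.de 43) .no)) (.br (.br .no .no (.sw 1 3 [11,17,24,30]) (.br .no .no (.de 44) .no)) .no .no (.br .no .no (.de 43) .no)) .no .no) (.br (.br .no .no .no (.br .no .no (.de 43) .no)) (.br (.br .no .no (.sw 1 3 [11,17,24,30]) (.br .no .no (.de 44) .no)) .no .no (.br .no .no (.de 43) .no)) .no .no) .no .no) .no) .no (.sw 1 2 [25])) .no .no .no) .no .no) .no))) (.br (.br (.br .no .no (.br .no (.br (.br .no .no .no (.br .no .no (.br .no (.br .no (.br (.br .no .no (.sw 1 3 [11,17,24,30]) (.br .no (.br (.br .no .no .no (.de 46)) .no .no .no) (.de 44) .no)) .no .no (.br .no .no (.de 43) .no)) .no (.br (.br .no .no (.sw 1 3 [11,17,24,30]) (.br .no (.br (.br .no .no .no (.de 46)) .no .no .no) (.de 44) .no)) .no .no .no)) .no (.br .no (.br (.br .no .no (.sw 1 3 [11,17,24,30]) (.br .no (.br (.br .no (.br .no .no (.de 48) .no) .no .no) .no .no .no) (.de 44) .no)) .no .no (.br .no .no (.de 43) .no)) .no (.br (.br .no .no (.sw 1 3 [11,17,24,30])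 (.br .no (.br (.br .no (.br .no .no (.br .no (.de 48) (.de 43) .no) .no) .no .no) .no .no .no) (.de 44) .no)) .no .no .no))) .no)) .no .no .no) .no .no) (.br .no (.br (.br .no .no .no (.br .no .no (.br .no (.br .no (.br (.sw 2 3 [29]) .no (.de 42) .no) (.br (.br .no .no (.sw 1 3 [11,17,22,24,29,30]) (.br .no (.br (.br .no .no .no (.de 41)) .no .no .no) (.de 44) .no)) .no .no .no) .no) .no (.br .no (.br (.sw 2 3 [29]) .no (.de 42) .no) (.br (.br .no .no (.sw 1 3 [11,17,22,24,29,30]) (.br .no (.br (.br .no (.de 41) .no .no) .no .no .no) (.de 44) .no)) .no .no .no) .no)) .no)) .no .no .no) (.br (.sw 1 3 [11,17,24]) (.br (.br .no .no (.br .no (.br .no (.br (.br .no .no .no (.br .no .no (.de 44) .no)) .no .no .no) (.br (.br .no .no .no (.br .no .no (.de 44) .no)) (.de 42) .no .no) .no) .no (.br .no (.br (.br .no .no .no (.br .no .no (.de 44) .no)) .no .no .no) (.br (.br .no .no .no (.br .no .no (.de 44) .no)) (.de 42) .no .no) .no)) (.br .no (.br .no (.br (.br .no .no .no (.br .no .no (.de 44) .no))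 .no .no .no) (.br (.br .no .no .no (.br .no .no (.de 44) .no)) (.de 42) .no .no) .no) .no .no)) .no .no (.br .no .no (.br .no (.br .no (.br (.br .no .no .no (.br (.br .no (.br (.br .no .no (.de 48) (.br .no .no (.de 43) .no)) .no .no (.br .no .no (.de 48) .no)) .no .no) .no (.de 44) .no)) .no .no .no) (.br (.br .no .no .no (.br (.br .no (.br (.br .no .no .no (.br .no (.de 48) .no .no)) .no .no (.de 41)) .no .no) .no (.de 44) .no)) (.de 42) .no .no) .no) .no (.br .no (.br (.br .no .no .no (.br (.br .no (.br (.br .no .no (.de 48) .no) .no .no .no) .no .no) .no (.de 44) .no)) .no .no .no) (.br (.br .no .no .no (.br (.br .no (.br (.br .no (.de 48) .no .no) .no .no .no) .no .no) .no (.de 44) .no)) (.de 42) .no .no) .no)) .no)) .no .no) .no)) .no .no (.br .no .no (.br .no (.br (.br .no .no .no (.br .no .no (.br .no (.br (.br .no .no .no (.br .no .no (.de 43) .no)) (.br (.br .no .no (.sw 1 3 [11,17,24,30]) (.br .no (.br (.br .no .no .no (.de 46)) .no .no .no) (.de 44) .no)) .no .no (.br .no .no (.de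 43) .no)) .no .no) .no .no) .no)) .no .no .no) .no .no) .no)) .no .no (.sw 0 2 [20])) .no .no) .no)) .no .no (.br .no .no (.br .no (.br (.br .no .no .no (.br (.br .no .no (.br (.sw 1 3 [11,17,22,23]) (.sw 0 3 [23]) .no .no) .no) .no .no (.br (.br .no (.br (.br .no .no (.br .no (.br (.br .no (.br .no .no (.de 42) (.br .no .no (.de 43) .no)) (.br .no .no .no (.br .no .no (.de 43) .no)) .no) .no .no .no) .no .no) (.br .no (.sw 0 2 [20,26]) (.br (.br .no (.br .no .no (.de 42) (.br .no .no (.de 43) .no)) (.br .no .no .no (.br .no .no (.de 43) .no)) .no) (.br .no (.br .no .no (.de 42) (.br .no .no (.de 43) .no)) (.br .no .no .no (.br .no .no (.de 43) .no)) .no) .no .no) .no)) .no .no (.br .no .no (.br .no (.br (.br .no (.br .no .no (.de 42) (.br (.br .no (.br (.br .no .no (.de 41) (.de 46)) .no .no (.sw 0 2 [20,26,32])) .no .no) .no (.de 43) .no)) (.br .no .no .no (.br (.br .no (.br (.br .no .no (.br .no (.de 48) .no .no) (.de 46)) .no .no (.sw 0 2 [20,26,32])) .no .no) .no (.de 43) .no)) .no) .no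 .no .no) .no .no) .no)) .no .no) .no (.sw 0 1 [14,15,22]) .no))) .no .no .no) .no .no) .no)) .no (.br (.br .no .no (.sw 1 3 [11,17]) (.sw 1 2 [16,17])) .no .no .no)) (.br .no (.br (.br .no .no (.sw 1 3 [11,17]) (.br .no (.br (.de 27) .no .no .no) (.br (.de 27) (.br (.br (.br .no .no (.br .no (.br (.br .no .no .no (.br .no .no (.br .no (.sw 2 3 [21]) .no .no) .no)) .no .no .no) .no .no) (.sw 1 2 [16,17,22])) .no (.br .no .no .no (.br .no (.br (.br .no .no .no (.br .no .no (.br .no (.br (.br .no .no (.br .no .no .no (.de 43)) .no) (.br (.br .no .no (.br .no (.br (.br .no .no .no (.de 46)) .no .no .no) .no .no) (.br .no (.br (.br .no .no .no (.de 46)) .no .no .no) (.de 44) .no)) .no (.de 42) .no) .no .no) .no .no) .no)) .no .no .no) (.br (.sw 1 3 [11,17,24]) (.br (.br .no .no (.br .no (.br (.br .no (.br (.br .no .no (.sw 1 3 [11,17,24,31]) (.br .no (.br (.br .no .no .no (.br .no .no (.br .no .no .no (.br .no .no (.de 45) .no)) .no)) .no .no (.de 41)) .no .no)) .no .no (.br .no .no (.de 44) .no))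 .no .no) (.br (.br .no .no .no (.br .no .no (.de 44) .no)) .no .no .no) .no .no) .no .no) (.br .no (.sw 0 2 [20,27]) .no .no)) .no .no (.br .no .no (.br .no (.br (.br .no (.br (.br .no .no (.br (.br .no .no .no (.de 41)) (.sw 0 3 [32]) .no .no) .no) .no .no (.br (.br .no (.br (.br .no .no .no (.br .no .no (.de 43) .no)) .no .no (.de 41)) .no .no) .no (.de 44) .no)) .no .no) (.br (.br .no .no .no (.br (.br .no (.br (.br .no .no .no (.sw 0 2 [28])) .no .no (.sw 0 2 [20,27,33])) .no .no) .no (.de 44) .no)) .no .no .no) .no .no) .no .no) .no)) .no .no) .no)) .no) .no .no .no) .no .no) .no)) .no .no (.br .no .no (.br .no (.br (.de 27) .no .no .no) .no .no) .no)) .no .no)) .no)) .no .no .no) .no .no) .no)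

theorem P2_3 : R.S 13 47116868 :=
  R.piece L hL (.br .no (.br (.br .no (.br .no .no (.br .no (.br (.br .no .no .no (.br .no .no (.br .no .no (.br (.br .no .no .no (.br .no .no (.br .no (.br (.br .no (.br .no (.br .no .no (.br (.sw 1 3 [11,17,23]) (.br (.br .no .no (.br .no .no .no (.br (.br (.br .no .no .no (.br .no .no (.de 43) .no)) .no .no (.br (.br .no .no (.sw 1 3 [11,17,23,30]) (.br .no (.br (.br .no (.br .no .no (.br .no (.de 48) (.de 43) .no) .no) (.de 41) .no) .no .no .no) .no .no)) .no .no .no)) .no .no .no)) (.br .no .no (.br (.br (.br .no .no .no (.br .no .no (.de 43) .no)) .no .no (.br (.br .no .no (.sw 1 3 [11,17,23,30]) (.br .no (.br (.br .no (.sw 2 3 [32,33]) .no (.de 46)) .no .no .no) (.de 44) .no)) .no .no .no)) .no .no (.br (.br .no .no .no (.br .no .no (.de 43) .no)) .no .no (.br (.br .no .no (.sw 1 3 [11,17,23,30]) (.br .no (.br (.br .no (.br (.sy 41 120 6) .no (.sw 0 3 [34]) .no) .no .no) .no .no .no) (.de 44) .no)) .no .no .no))) .no)) .no .no (.br .no .no (.br .no .no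 .no (.br (.br (.br .no .no .no (.br (.br .no (.br (.br .no (.br .no .no (.br .no (.de 48) (.de 43) .no) (.de 47)) (.br .no .no .no (.br .no (.br .no .no (.br .no .no .no (.br .no .no (.br .no .no .no (.sw 0 1 [30,37,38,39])) .no)) .no) (.de 43) .no)) .no) .no .no .no) .no .no) .no (.de 43) .no)) .no .no (.br (.br .no .no (.br (.br .no (.br .no .no (.de 41) .no) .no .no) (.sw 0 3 [31]) .no .no) .no) .no .no .no)) .no .no .no)) .no)) .no .no) .no) .no (.br .no (.br (.br .no .no .no (.br .no .no (.br .no .no .no (.br (.br (.br .no .no (.br .no (.br (.br .no (.br .no .no (.br .no (.br .no (.br .no .no .no (.br .no .no (.br .no .no .no (.br (.br .no .no .no (.br .no .no (.sw 1 3 [11,17,23,28,29,41,47]) .no)) .no .no .no)) .no)) .no .no) .no .no) .no) .no .no) .no .no .no) .no .no) (.br .no (.br (.br .no (.br .no .no (.br .no (.br .no (.br .no .no (.br .no .no .no (.br .no .no (.br (.sw 2 3 [36,43,44,45]) .no .no (.de 47)) .no)) .no) (.de 43) .no) .no .no) .no) .no .no) .no .no .no) (.de 43) .no))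 .no (.br .no .no .no (.br .no (.br (.br .no (.br .no .no (.br .no (.de 48) .no .no) .no) .no .no) .no .no .no) (.de 43) .no)) .no) .no .no .no)) .no)) .no .no .no) (.br (.sw 1 3 [11,17,23]) (.br (.br .no .no (.br .no .no .no (.br (.br (.br .no .no .no (.br .no .no (.de 43) .no)) (.br (.br .no .no (.sw 1 3 [11,17,23,30]) (.br .no (.br (.br .no (.br .no .no (.de 48) .no) (.de 41) .no) .no .no .no) .no .no)) .no .no (.br .no .no (.de 43) .no)) .no .no) .no .no .no)) (.br .no .no (.br (.br (.br .no .no .no (.br .no .no (.de 43) .no)) (.br (.br .no .no (.sw 1 3 [11,17,23,30]) (.br .no (.br (.br .no (.sw 2 3 [32,33]) .no (.de 46)) .no .no .no) (.de 44) .no)) .no .no (.br .no .no (.de 43) .no)) .no .no) .no .no .no) .no)) .no .no (.br .no .no (.br .no .no .no (.br (.br (.br .no .no .no (.br (.br .no (.br (.br .no (.br .no .no (.sw 1 3 [28]) .no) (.br .no (.br .no (.br .no .no (.br .no .no .no (.br .no .no (.br .no .no .no (.de 47)) .no)) .no) (.de 43) .no) .no .no) .no) .no .no .no) .no .no) .no (.de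 43) .no)) (.br (.br .no .no (.br (.br .no (.br .no .no (.de 41) .no) .no .no) (.sw 0 3 [31]) .no .no) .no) .no .no (.br (.br .no (.br (.br .no (.br .no .no (.de 48) .no) (.de 41) .no) .no .no .no) .no .no) .no (.de 43) .no)) .no .no) .no .no .no)) .no)) .no .no) .no)) .no (.sw 1 2 [12,13,20])) .no .no .no) .no .no) .no)) .no .no (.br (.br .no .no (.sw 1 3 [11,17]) (.br .no (.br (.br .no (.br (.br .no (.br .no .no (.br (.br .no .no (.br .no .no .no (.de 34)) (.br .no .no (.br .no .no .no (.br .no .no (.br (.br .no (.sw 2 3 [24,30]) .no (.br .no (.br (.br .no (.de 41) .no .no) .no .no .no) (.de 44) .no)) .no .no (.br .no (.br .no .no (.br (.br .no (.de 41) .no .no) (.br (.br .no (.de 48) .no .no) .no .no .no) .no .no) .no) .no .no)) (.br (.br .no (.sw 2 3 [24,30]) .no (.br .no (.br (.br .no (.br .no .no (.br .no (.de 48) (.de 43) .no) .no) .no .no) .no .no .no) (.de 44) .no)) .no .no .no))) .no)) .no .no .no) .no) (.br .no (.br (.sw 2 3 [24]) .no (.br .no .no .no (.br .no .no (.br .no .no .no (.br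 .no (.br (.br .no .no .no (.br (.sy 31 78 7) (.sw 0 2 [31]) .no .no)) .no .no (.br (.br .no (.br (.br .no (.br .no .no (.de 48) .no) .no .no) .no .no .no) .no .no) .no .no .no)) .no (.br (.br .no .no .no (.br (.sy 31 78 7) (.sw 0 2 [31]) .no .no)) .no .no .no))) .no)) .no) .no .no) .no) (.br .no .no (.br .no (.br (.sw 2 3 [24]) .no (.br .no .no .no (.br .no .no (.br (.br (.br .no .no .no (.br (.br .no (.br (.br .no (.sw 2 3 [24,31,32,33]) .no (.de 46)) .no .no .no) .no .no) .no .no .no)) .no .no (.br (.br .no .no .no (.br (.br .no (.br .no .no .no (.br .no .no (.br .no (.de 48) (.de 43) .no) .no)) .no .no) (.sw 0 2 [31]) .no .no)) .no .no .no)) .no .no (.sy 31 75 6)) .no)) .no) .no .no) .no) .no .no) .no (.sw 1 2 [12,13,20])) .no .no .no) (.br (.br .no (.br (.br .no (.br .no .no (.br (.sw 1 3 [11,17,24]) (.br .no .no .no (.br .no .no (.br .no .no .no (.br .no .no (.br (.br .no .no .no (.br (.br .no (.br (.br .no (.de 48) .no .no) .no .no .no) .no .no) .no (.de 44) .no)) .no .no (.br (.br .no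 .no (.br (.sw 1 3 [11,17,24,31,32]) (.br (.br .no (.de 48) .no .no) .no .no .no) .no .no) .no) .no .no .no)) (.br (.br .no .no .no (.br (.sw 1 2 [25,29,30,31]) .no (.de 44) .no)) .no .no .no))) .no)) .no .no) .no) (.br .no (.br (.br .no (.br .no .no (.br .no .no .no (.br .no (.br (.br .no .no (.sw 1 3 [11,17,24,30]) (.br .no .no (.de 44) .no)) .no .no (.br .no .no (.de 43) .no)) .no (.br (.br .no .no (.sw 1 3 [11,17,24,30]) (.sw 1 2 [29,30])) .no .no .no))) (.de 34)) .no (.sw 1 2 [25])) .no .no .no) .no .no) .no) (.br .no .no (.br .no (.br (.br .no (.br .no .no (.br (.br (.br .no .no .no (.br .no .no (.de 43) .no)) .no .no (.br (.br .no .no (.sw 1 3 [11,17,24,30]) (.br .no .no (.de 44) .no)) .no .no .no)) .no .no (.br (.br .no .no .no (.br .no .no (.de 43) .no)) .no .no (.br (.br .no .no (.sw 1 3 [11,17,24,30]) (.br .no .no (.de 44) .no)) .no .no .no))) (.br (.br (.br .no .no .no (.br .no .no (.de 43) .no)) .no .no (.br (.br .no .no (.sw 1 3 [11,17,24,30]) (.br .no .no (.de 44) .no)) .no .no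 .no)) .no .no .no)) .no (.sw 1 2 [25])) .no .no .no) .no .no) .no) .no .no) .no (.sw 1 2 [12,13,20])) (.br .no .no .no (.br (.br .no (.br .no .no (.br (.sw 1 3 [11,17,24]) (.br (.br .no .no (.br .no (.br .no .no (.br (.br .no .no .no (.br .no .no (.de 44) .no)) .no .no (.br (.br .no .no (.sw 1 3 [11,17,24,31]) (.br .no (.br (.br .no .no .no (.br .no (.de 48) .no .no)) .no .no (.de 41)) .no .no)) .no .no .no)) (.br (.br .no .no .no (.br .no .no (.de 44) .no)) .no .no .no)) .no .no) .no) .no .no (.br (.br .no (.br .no .no (.br (.br .no .no .no (.br (.br .no (.br .no .no (.br .no .no .no (.br .no (.de 48) .no .no)) (.de 41)) (.br .no .no .no (.de 41)) .no) .no (.de 44) .no)) .no .no (.br (.br .no .no (.br .no (.br .no .no (.br .no .no .no (.br .no (.de 48) .no .no)) (.de 41)) .no .no) .no) .no .no .no)) (.br (.br .no .no .no (.br (.sw 1 2 [12,13,20,25,26,29,30,31]) .no (.de 44) .no)) .no .no .no)) .no .no) .no (.sw 0 1 [26]) .no)) .no .no) .no) (.br .no (.br (.br .no .no .no (.br (.sw 1 2 [12,13,20,25,26])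 .no (.sw 0 1 [26]) .no)) .no .no .no) .no .no) .no) (.br .no .no (.br .no (.br (.br .no .no .no (.br (.de 34) .no (.sw 0 1 [26]) .no)) .no .no .no) .no .no) .no) .no .no)) .no .no) .no)) .no .no .no)) (.br (.br .no .no .no (.br .no .no (.br .no (.br (.br .no (.br .no (.br .no .no (.br (.sw 1 3 [11,17,23]) (.br (.br .no .no (.br .no .no .no (.br (.sw 2 3 [21]) .no (.br (.br .no .no .no (.br .no .no (.de 43) .no)) .no .no (.br (.br .no .no (.sw 1 3 [11,17,23,30]) (.br .no (.br (.br .no (.br (.sw 2 3 [21,32,33,34]) .no .no .no) .no .no) .no .no .no) .no .no)) .no .no .no)) .no)) (.br .no .no (.br (.sw 2 3 [21]) .no .no .no) .no)) .no .no (.br .no .no (.br .no .no .no (.br (.sw 2 3 [21]) .no (.sy 34 135 6) .no)) .no)) .no .no) .no) (.br .no (.br (.br .no .no .no (.br .no .no (.br .no .no .no (.br (.sw 1 2 [12,13,20,27]) .no .no .no)) .no)) .no .no .no) .no .no) .no) .no .no) .no .no .no) .no .no) .no)) .no .no .no)) .no)) .no .no .no) .no .no) .no) .no .no) (.br c2_3_0 .no .no .no) .no .no) .no .no)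 13 47116868 67108864 (by norm_num) (by norm_num) (by norm_num) (by decide +kernel)

def c2_4_0 : Cert := (.br (.br .no .no .no (.br (.br .no (.br .no (.br .no .no (.br .no .no .no (.br .no (.br .no .no (.br .no .no .no (.br (.sw 2 3 [21]) .no (.br (.br .no (.br (.br .no .no .no (.br (.br .no (.br .no .no .no (.sw 0 2 [34])) .no .no) (.br (.br .no .no .no (.de 47)) .no .no .no) .no .no)) .no (.br (.br .no (.br (.br .no .no .no (.de 47)) .no .no .no) .no .no) .no .no (.de 44)) .no) .no .no) .no .no (.br (.br .no .no (.br (.br .no (.br (.de 41) .no .no .no) .no .no) .no .no (.de 44)) .no) (.br (.br .no .no .no (.br (.br .no (.br (.br .no .no (.de 48) .no) .no .no .no) .no .no) (.br (.de 41) .no .no .no) .no .no)) .no (.br (.br .no (.br (.de 41) .no .no .no) .no .no) .no .no (.de 44)) .no) .no .no)) .no)) .no) (.br .no (.br .no .no (.br (.sw 2 3 [21]) .no .no .no) (.br (.sw 2 3 [21]) .no (.br (.br .no (.br (.br .no .no .no (.br (.sw 1 2 [31,32]) .no (.de 45) .no)) .no .no .no) .no .no) .no .no (.br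 (.br .no (.br (.br .no .no (.br (.de 41) (.br (.br .no (.br .no .no (.br .no .no .no (.de 45)) (.br .no .no (.br .no .no .no (.br (.sw 2 3 [21,33,34,39,43,44,45]) .no .no .no)) .no)) (.de 48) .no) .no .no .no) .no .no) .no) .no .no (.br (.br .no (.br (.sw 2 3 [21,33,34]) .no .no .no) .no .no) .no (.de 45) .no)) .no .no) (.br (.br .no .no .no (.br (.sw 1 2 [31,32]) .no (.de 45) .no)) .no .no .no) .no .no)) .no)) .no .no) .no)) (.br .no .no (.br .no (.br .no .no (.br .no .no .no (.br (.sw 2 3 [21]) .no (.br (.br .no (.br (.sw 2 3 [29,30]) .no .no (.br (.br .no (.br (.br .no .no .no (.de 47)) .no .no .no) .no .no) .no .no .no)) .no .no) .no (.br (.br .no .no .no (.br (.br .no (.br (.br .no .no .no (.de 47)) .no .no .no) .no .no) .no .no .no)) (.de 42) .no .no) .no) .no)) .no) .no .no) .no)) (.br .no .no .no (.br .no .no (.br .no (.br .no .no (.br .no .no .no (.br (.br (.br .no (.br (.br .no .no .no (.br (.br .no (.br .no .no .no (.sw 1 2 [28])) (.br .no (.sw 2 3 [21,28,29,30]) .no (.sw 1 2 [28]))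 .no) (.br .no .no (.br .no (.sw 2 3 [21,28,29,30]) .no (.sw 1 2 [28])) .no) .no .no)) .no .no (.br (.br .no (.br .no .no (.br .no (.br .no .no (.de 43) .no) .no (.sw 1 2 [28])) .no) .no .no) .no .no .no)) .no .no) (.br (.br .no .no .no (.br (.br .no (.br .no .no (.br .no .no .no (.br .no .no (.de 43) .no)) .no) .no .no) .no .no .no)) .no .no .no) .no .no) .no .no .no)) .no) .no .no) .no)) .no) (.br .no (.br .no .no (.br .no .no .no (.br .no (.br .no .no (.br .no (.br (.br (.br .no (.br (.br .no .no .no (.br (.br .no .no (.br .no .no .no (.br .no .no (.de 48) .no)) (.de 46)) .no .no .no)) .no (.br (.br .no .no .no (.br .no .no (.br .no .no .no (.br .no .no (.de 48) .no)) .no)) .no .no (.de 44)) .no) .no .no) .no .no (.br (.br .no .no (.br (.br .no .no .no (.br .no .no (.de 41) .no)) .no .no (.de 44)) .no) (.br (.br .no .no .no (.br (.br .no .no (.de 41) (.de 46)) .no .no .no)) .no (.br (.br .no .no .no (.br .no .no (.de 41) .no)) .no .no (.de 44)) .no) .no .no)) .no .no .no) .no (.br (.sw 1 2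 [27]) .no .no .no)) .no) (.br .no (.br .no .no .no (.br (.sw 1 2 [27]) .no .no .no)) .no .no) .no)) (.br .no .no (.br .no (.br .no .no (.br .no (.br (.br (.br .no (.br (.sw 2 3 [29,30]) .no .no (.br (.br .no .no .no (.br .no .no (.br .no .no .no (.br .no .no (.de 43) .no)) .no)) .no .no .no)) .no .no) .no (.br (.br .no .no .no (.br (.br .no .no .no (.br .no .no (.br .no .no .no (.sy 39 30 5)) .no)) .no .no .no)) (.de 42) .no .no) .no) .no .no .no) .no (.br (.sw 1 2 [27]) .no .no .no)) .no) .no .no) .no)) (.br .no .no .no (.br .no .no (.br .no (.br .no .no (.br .no (.br (.sy 30 198 5) .no .no .no) .no (.br (.sw 1 2 [27]) (.br (.br .no (.br (.br .no .no .no (.br (.br .no .no (.br .no .no .no (.sw 0 1 [34])) .no) (.br (.br .no .no .no (.de 47)) .no (.br .no .no .no (.sw 0 1 [34])) .no) .no .no)) .no .no (.br (.br .no (.br (.br .no .no .no (.de 47)) .no (.br .no .no .no (.sw 0 1 [34])) .no) .no .no) .no .no .no)) .no .no) (.br (.br .no .no .no (.br (.br .no (.br (.br .no .no .no (.de 47)) .no (.br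 (.br .no .no (.de 43) .no) .no .no (.sw 0 1 [34])) .no) .no .no) .no .no .no)) .no .no .no) .no .no) .no .no)) .no) .no .no) .no)) .no) .no) (.br .no .no (.br .no (.br .no .no (.br .no .no .no (.br .no (.br (.br .no .no .no (.br (.br (.br .no (.br (.br .no .no (.br .no (.br .no .no (.br .no .no .no (.br .no .no (.de 48) .no)) .no) .no .no) (.br .no (.br .no .no (.br .no .no .no (.br .no .no (.de 48) .no)) .no) (.de 45) .no)) .no (.br .no .no .no (.de 44)) .no) .no .no) .no .no (.br (.br .no .no (.br .no .no .no (.de 44)) .no) (.br (.br .no .no (.br .no (.br .no .no (.de 41) .no) .no .no) (.br .no (.br .no .no (.de 41) .no) (.de 45) .no)) .no (.br .no .no .no (.de 44)) .no) .no .no)) .no .no .no)) .no (.br (.de 34) .no .no (.sw 0 1 [26])) .no) (.br (.br .no .no .no (.br (.br (.br .no (.br (.br .no (.br .no .no (.br .no (.br .no .no (.de 48) (.br .no .no (.de 48) .no)) .no .no) .no) .no (.sw 1 2 [31])) .no .no .no) .no .no) .no .no (.br (.br .no (.br .no .no .no (.br .no (.br .no .no (.de 41) .no)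 (.de 45) .no)) .no .no) (.br (.br .no (.br .no .no (.br .no (.br .no .no (.sy 38 147 5) .no) .no .no) .no) .no (.sw 1 2 [31])) .no .no .no) .no .no)) .no .no .no)) .no .no .no) .no)) (.br .no .no (.br .no (.br (.br .no .no .no (.br (.br (.br .no (.br (.sw 2 3 [29,30]) .no .no (.br .no .no (.de 44) .no)) .no .no) .no (.br (.br .no .no .no (.br .no .no (.de 44) .no)) (.de 42) .no .no) .no) .no .no .no)) .no (.br (.de 34) .no .no (.sw 0 1 [26])) .no) .no .no) .no)) (.br .no .no .no (.br .no .no (.br .no (.br (.br .no .no .no (.br (.br (.br .no (.br (.br .no .no (.br .no (.br .no .no (.br .no (.sy 41 225 5) .no (.sw 1 2 [28])) .no) .no .no) (.br .no (.br .no .no (.br .no (.sy 41 177 5) .no (.sw 1 2 [28])) .no) (.de 45) .no)) .no .no (.br .no .no (.de 44) .no)) .no .no) (.br (.br .no .no .no (.br .no .no (.de 44) .no)) .no .no .no) .no .no) (.br (.br .no (.br (.br .no .no (.br .no (.br (.br .no .no .no (.de 47)) .no (.br .no .no .no (.sw 0 1 [34])) .no) .no .no) (.br .no (.br (.br .no .no .no (.de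 47)) .no (.br .no .no .no (.sw 0 1 [34])) .no) (.de 45) .no)) .no .no (.br .no .no (.de 44) .no)) .no .no) (.br (.br .no .no .no (.br .no .no (.de 44) .no)) .no .no .no) .no .no) .no .no)) .no (.br (.br .no (.br (.br .no (.br (.br .no .no .no (.br .no (.br .no .no (.br .no .no .no (.br .no .no (.de 48) .no)) (.de 41)) .no .no)) .no .no (.br (.br .no (.br .no .no (.br .no .no .no (.br .no .no (.de 43) .no)) (.de 41)) .no (.br .no .no (.br .no .no .no (.sw 0 1 [26,33,34])) .no)) .no .no .no)) .no .no) (.br (.br .no .no .no (.br (.br .no (.br .no .no (.br (.br .no .no (.de 43) .no) .no .no (.br .no .no (.de 43) .no)) (.br (.de 47) .no .no .no)) .no (.br .no .no (.br (.sy 36 108 5) .no .no (.sw 0 1 [26,33,34])) .no)) .no .no .no)) .no .no .no) .no .no) .no .no) .no .no (.sw 0 1 [26])) .no) .no .no) .no)) .no) .no) .no .no)) .no .no (.br (.br .no (.br .no .no (.br .no (.br .no .no (.br (.br .no (.br .no .no (.br (.de 34) .no .no (.br (.br (.br .no (.br .no .no (.sw 0 3 [24,25,30]) (.br (.br .no (.br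 .no .no (.br .no .no .no (.br .no .no (.de 43) .no)) .no) .no .no) .no .no .no)) .no (.br .no .no (.de 43) .no)) .no .no (.br .no (.br .no .no (.sw 0 3 [24,25,30]) (.br (.br .no (.br .no .no (.de 41) .no) .no .no) .no .no .no)) .no .no)) .no .no .no)) (.br (.de 34) .no .no .no)) (.br .no .no .no (.br (.de 34) .no .no .no)) .no) .no .no .no) (.br (.br .no (.br .no .no (.br (.de 34) .no .no (.br (.br (.br .no (.sw 2 3 [29]) (.br .no .no .no (.de 43)) .no) .no (.br .no (.de 42) .no .no) .no) .no .no .no)) (.br (.de 34) .no .no .no)) (.br .no .no .no (.br (.de 34) .no .no .no)) .no) .no (.br .no (.br .no .no (.sw 0 3 [24,25]) (.br (.de 34) .no .no .no)) .no .no) .no)) (.br .no .no .no (.br (.br .no (.br .no .no (.br (.br .no (.br (.br .no (.br .no .no (.br (.br .no (.br .no .no (.br .no .no .no (.br .no .no (.de 48) .no)) (.de 41)) .no (.br .no .no (.br .no .no .no (.br .no .no (.de 48) .no)) .no)) .no .no (.de 44)) (.br (.br .no (.br .no .no (.br .no .no .no (.br .no .no (.de 43) .no)) (.de 41))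 .no (.br .no .no (.br .no .no .no (.br .no .no (.de 43) .no)) .no)) .no .no .no)) (.br .no .no .no (.de 43)) .no) (.br .no .no (.de 42) .no) .no .no) .no .no) .no .no (.br (.br (.br .no (.br .no .no (.br (.br .no (.br .no .no (.br .no (.br .no .no (.de 48) .no) .no (.sw 1 2 [28])) .no) .no .no) .no .no (.de 44)) (.br (.br .no (.br .no .no (.br .no (.br .no .no (.de 43) .no) .no (.sw 1 2 [28])) .no) .no .no) .no .no .no)) (.br .no .no .no (.de 43)) .no) (.br .no .no (.de 42) .no) .no .no) (.br (.br .no (.br .no .no (.br (.br .no (.br (.br .no .no .no (.de 47)) .no (.sw 0 3 [33]) .no) .no .no) .no .no (.de 44)) (.br (.br .no (.br (.br .no .no .no (.de 47)) .no (.sw 0 3 [33]) .no) .no .no) .no .no .no)) (.br .no .no .no (.de 43)) .no) (.br .no .no (.de 42) .no) .no .no) .no .no)) (.br (.br .no (.br (.br .no (.br .no .no (.br (.br .no (.sw 2 3 [32]) (.br .no .no .no (.de 41)) .no) .no .no .no) (.br (.br .no (.sw 2 3 [32]) (.br .no .no .no (.de 41)) .no) .no (.de 44) .no)) (.br .no .no .no (.de 43))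 .no) (.br .no .no (.de 42) .no) .no .no) .no .no) .no .no .no)) (.br .no .no .no (.br (.br .no (.br (.br .no (.br .no .no .no (.br (.sw 1 2 [31]) (.br .no .no (.br .no .no .no (.de 41)) .no) .no .no)) (.br .no (.br (.br .no (.br .no .no (.br .no .no .no (.br .no (.br .no .no .no (.br .no .no (.br .no .no .no (.br (.de 47) .no .no .no)) .no)) .no .no)) (.de 41)) (.br .no .no .no (.de 41)) .no) .no .no .no) .no (.de 43)) .no) (.br .no .no (.de 42) .no) .no .no) .no .no) .no .no .no)) .no) .no (.br .no (.br .no .no (.sw 0 3 [24,25]) (.br (.br .no (.br (.br .no (.br (.br .no .no (.br .no (.br .no .no (.sw 0 3 [24,25,32,33]) (.de 41)) .no .no) .no) .no .no (.sw 0 2 [30])) .no .no) (.br (.br .no .no .no (.br (.br .no (.sw 2 3 [32]) (.br .no .no .no (.br (.de 47) .no .no .no)) .no) .no (.de 44) .no)) .no .no .no) .no .no) .no .no) .no .no .no)) .no .no) .no)) .no) .no) .no .no) .no .no .no))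

def c2_4_1 : Cert := (.br (.br .no .no .no (.br (.br .no (.br .no .no (.br (.br .no (.br .no .no (.br .no (.br .no .no (.br (.br .no (.sy 29 210 5) .no .no) .no .no (.br .no (.sy 29 147 5) .no .no)) (.br (.br .no (.br .no .no (.br (.br .no .no .no (.br (.br .no (.sw 2 3 [32]) (.br .no .no .no (.de 41)) .no) .no (.de 44) .no)) .no .no (.br (.br .no .no (.br .no (.br .no .no (.br .no .no .no (.sy 40 78 5)) (.de 41)) .no .no) .no) .no .no .no)) (.br (.br .no .no .no (.br (.br .no (.sw 2 3 [32]) (.br .no .no .no (.sy 35 45 5)) .no) .no (.de 44) .no)) .no .no .no)) .no .no) .no .no .no)) .no .no) .no) .no (.br .no (.br .no .no (.br .no .no .no (.br (.br .no (.br .no (.br (.br .no .no .no (.br (.br .no (.br .no .no (.br .no .no .no (.br .no .no (.de 43) .no)) (.br .no .no (.br .no .no (.de 43) .no) .no)) (.br .no .no .no (.br .no .no (.br .no .no (.de 43) .no) .no)) .no) (.br .no .no (.br .no .no .no (.br .no .no (.br .no .no (.de 43) .no) .no)) .no) .no .no)) .no (.de 42) .no) (.br (.br .no .no .no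 (.br (.br .no (.br .no .no (.br .no .no .no (.br .no (.br .no .no (.de 44) .no) .no .no)) (.de 41)) (.br .no .no .no (.de 41)) .no) (.br .no .no (.br .no .no .no (.de 41)) .no) .no .no)) .no .no .no) .no) .no .no) .no .no .no)) .no) (.br .no (.br .no .no (.br (.br .no (.br .no (.br (.br .no .no .no (.br (.br .no (.br .no .no (.br .no .no .no (.br .no .no (.de 43) .no)) (.br .no .no (.br .no .no (.de 43) .no) .no)) .no (.br .no .no (.br .no .no .no (.br .no .no (.de 43) .no)) .no)) .no .no .no)) .no .no .no) (.br (.sw 1 3 [29]) (.de 42) .no .no) .no) .no .no) .no .no (.br .no (.br .no (.br (.br .no .no .no (.br (.br .no (.br (.br .no .no (.br .no .no (.de 43) .no) (.de 47)) .no (.sw 0 3 [33]) .no) .no .no) .no .no .no)) .no .no .no) (.br (.sw 1 3 [29]) (.de 42) .no .no) .no) .no .no)) (.br (.br .no (.br .no (.br (.br .no .no .no (.br (.sw 1 2 [30,31]) .no (.de 44) .no)) .no .no .no) (.br (.sw 1 3 [29]) (.de 42) .no .no) .no) .no .no) .no .no .no)) .no .no) .no)) (.br .no .no .no (.br .no (.br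 .no .no (.br .no .no .no (.br (.de 34) .no .no .no)) .no) (.br .no (.br .no .no (.br (.de 34) .no .no (.br (.br (.br .no (.br (.br .no .no .no (.br (.br .no (.br .no .no (.de 48) (.br .no .no (.de 48) .no)) (.br .no .no .no (.br .no .no (.de 48) .no)) .no) (.br .no .no (.br .no .no .no (.br .no .no (.de 48) .no)) .no) .no .no)) .no .no (.br (.br .no (.br .no .no (.br .no .no .no (.br .no .no (.de 43) .no)) .no) .no .no) .no .no .no)) .no .no) .no (.br (.br .no .no .no (.br (.br .no (.br .no .no (.br .no .no .no (.sw 0 1 [28,34])) .no) .no .no) .no .no .no)) (.de 42) .no .no) .no) .no .no .no)) (.br (.de 34) .no .no .no)) .no .no) .no)) .no .no) .no) .no .no) .no .no .no)) (.br (.br .no .no .no (.br (.br .no (.br (.br .no .no .no (.br .no .no (.br .no (.br .no .no (.br .no .no .no (.br .no .no (.br .no (.br (.br .no .no .no (.br (.br .no (.br (.br .no .no .no (.de 47)) .no .no .no) .no .no) .no .no .no)) .no .no .no) (.br (.br .no .no .no (.br (.br .no (.br (.br .no (.sy 38 228 5) .no (.de 47))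 .no .no .no) .no .no) .no .no .no)) (.de 42) .no .no) .no) .no)) .no) .no .no) .no)) (.br (.br .no .no (.br .no (.br .no .no (.br .no .no .no (.br (.br .no .no (.br .no (.de 42) .no (.br (.br .no .no .no (.br (.br .no (.br .no .no .no (.sy 36 57 5)) (.br .no .no .no (.sy 36 45 5)) .no) (.br .no .no (.br .no .no .no (.br .no (.br .no .no (.de 44) .no) .no .no)) .no) .no .no)) .no .no .no)) (.br .no (.br (.br .no .no .no (.br (.br .no (.br .no .no (.br .no .no (.br .no .no .no (.br .no .no (.de 45) .no)) .no) .no) (.de 41) .no) (.br .no .no (.de 41) .no) .no .no)) .no .no (.br (.br .no (.br .no .no (.de 41) .no) .no .no) .no .no .no)) .no .no)) .no (.br .no .no (.br .no (.de 42) .no (.br (.br .no .no .no (.br (.br .no (.br (.de 48) .no .no (.sw 0 2 [34])) .no .no) (.br (.br .no .no .no (.de 47)) .no .no .no) .no .no)) .no .no .no)) (.br .no (.br (.br .no .no .no (.br (.br .no (.br (.br .no .no (.de 48) .no) .no .no .no) .no .no) (.br (.de 41) .no .no .no) .no .no)) .no .no (.br (.br .no (.br (.de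 41) .no .no .no) .no .no) .no .no .no)) .no .no)) .no)) .no) .no .no) (.br .no (.br .no .no (.br .no .no .no (.br (.br .no .no (.br .no (.de 42) .no .no) (.br .no (.sw 0 2 [22,29]) (.br (.br .no .no .no (.br (.br .no (.br .no .no (.br .no (.br .no .no .no (.br .no .no (.de 45) .no)) .no .no) .no) (.de 41) .no) (.br .no .no (.de 41) .no) .no .no)) .no .no .no) .no)) .no (.br .no .no (.br .no (.de 42) .no .no) (.br .no (.sw 0 2 [22,29]) (.br (.br .no .no .no (.br (.br .no (.br (.br .no (.br .no .no .no (.br .no .no (.de 45) .no)) .no .no) .no .no .no) .no .no) (.br (.de 41) .no .no .no) .no .no)) .no .no .no) .no)) .no)) .no) (.br .no (.br .no .no (.br (.br .no .no (.br .no (.de 42) .no .no) (.br .no (.sw 0 2 [22,29]) (.br (.br .no .no .no (.br (.br .no (.br .no .no (.br .no (.br .no .no .no (.br .no .no (.de 45) .no)) .no .no) .no) .no (.de 46)) .no .no .no)) (.br (.br .no .no .no (.br .no (.br .no .no (.br .no (.br .no .no .no (.sw 0 2 [22,29,36])) .no .no) .no) .no .no)) .no .no (.br (.br .no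 (.br .no .no (.br .no (.br .no .no .no (.sw 0 2 [22,29,36])) .no .no) .no) .no (.de 46)) .no .no .no)) .no .no) .no)) .no .no .no) (.br (.br .no .no (.br .no (.de 42) .no .no) (.br .no (.sw 0 2 [22,29]) (.br (.br .no .no .no (.br (.sw 1 2 [31,32]) .no (.de 45) .no)) (.br (.br .no .no (.br .no (.br .no .no (.br .no (.br .no .no .no (.sw 0 2 [22,29,36])) .no .no) .no) .no .no) .no) .no .no (.br (.br .no (.sw 2 3 [33]) (.de 41) .no) .no (.de 45) .no)) .no .no) .no)) .no (.br .no .no (.br .no (.de 42) .no .no) (.br .no (.sw 0 2 [22,29]) (.br (.br .no .no .no (.br (.sw 1 2 [31,32]) .no (.de 45) .no)) (.br (.br .no .no (.br (.de 41) (.br (.br .no (.br .no .no .no (.sw 0 2 [22,29,36])) .no .no) .no .no .no) .no .no) .no) .no .no (.br (.br .no (.br (.br .no (.br .no .no .no (.sw 0 2 [22,29,36])) .no .no) .no .no .no) .no .no) .no (.de 45) .no)) .no .no) .no)) .no)) .no .no) .no)) .no .no (.sw 0 2 [22])) .no .no) (.br (.br .no .no .no (.br .no .no (.br .no (.br .no .no (.br .no (.de 34) .no (.br .no (.br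 .no (.br (.br .no .no .no (.br (.br .no (.br (.br .no .no (.br .no .no (.de 43) .no) (.de 47)) .no (.br .no .no .no (.sw 0 2 [22,28])) .no) .no .no) .no .no .no)) .no .no .no) (.br (.br .no .no .no (.br (.br .no (.br (.br .no .no .no (.de 47)) .no (.br .no .no .no (.br .no (.br .no .no (.de 44) .no) .no .no)) .no) .no .no) .no .no .no)) (.de 42) .no .no) .no) .no .no)) .no) .no .no) .no)) (.br (.br .no .no (.br .no (.br .no .no (.br .no (.br (.sy 33 225 5) .no .no .no) .no (.br (.sw 1 2 [27]) .no .no .no)) .no) .no .no) (.br .no (.br .no .no (.br .no (.br (.sy 33 177 5) .no .no .no) .no (.br (.sw 1 2 [27]) .no .no .no)) .no) (.br .no (.br .no .no .no (.br (.sw 1 2 [27]) .no .no .no)) .no .no) .no)) .no .no (.sw 0 2 [22])) .no .no) .no) (.br .no .no (.br (.br .no .no .no (.br .no .no (.br .no (.br (.br .no .no .no (.br .no (.br .no (.br (.br .no .no .no (.br .no .no (.de 44) .no)) .no .no .no) (.br (.br .no .no .no (.br .no .no (.de 44) .no)) (.de 42) .no .no) .no) .no .no)) .no (.br (.br .no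 (.br .no (.br (.br .no .no .no (.br (.br .no (.br .no .no (.br .no .no .no (.sw 0 2 [22,28])) (.br .no .no (.br .no .no (.de 43) .no) .no)) .no (.br .no .no (.br .no .no .no (.sw 0 2 [22,28])) .no)) .no .no .no)) .no .no .no) (.br (.br .no .no .no (.br (.br .no (.br .no .no (.br .no .no .no (.br .no (.br .no .no (.de 44) .no) .no .no)) (.de 41)) .no (.br .no .no (.br .no .no .no (.sw 0 1 [26,28,33,34])) .no)) .no .no .no)) (.de 42) .no .no) .no) .no .no) .no .no (.sw 0 1 [26])) .no) .no .no) .no)) (.br (.br .no .no (.br .no (.br (.br .no .no .no (.br (.br .no .no (.br .no (.de 42) .no (.br (.br .no .no (.br .no (.br .no .no (.br .no .no .no (.sy 40 78 5)) .no) .no .no) (.br .no (.br .no .no (.br .no .no .no (.br .no (.br .no .no (.de 44) .no) .no .no)) .no) (.de 45) .no)) .no .no .no)) (.br .no (.br (.br .no .no (.br .no (.br .no .no (.de 41) .no) .no .no) (.br .no (.br .no .no (.de 41) .no) (.de 45) .no)) .no .no (.br .no .no (.de 44) .no)) .no .no)) .no .no .no)) .no (.br (.de 34) .no .no (.sw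 0 1 [26])) .no) .no .no) (.br .no (.br (.br .no .no .no (.br (.br .no .no (.br .no (.de 42) .no .no) (.br .no (.sw 0 2 [22,29]) (.br (.br .no .no (.br .no (.br .no .no (.de 41) .no) .no .no) (.br .no (.br .no .no (.de 41) .no) (.de 45) .no)) .no .no .no) .no)) .no .no .no)) .no (.br (.de 34) .no .no (.sw 0 1 [26])) .no) (.br (.br .no .no .no (.br (.br .no .no (.br .no (.de 42) .no .no) (.br .no (.sw 0 2 [22,29]) (.br (.br .no (.br .no .no (.br .no (.br .no .no (.br .no (.br .no .no .no (.br .no .no (.br .no .no .no (.sw 0 1 [26,32,37,38])) .no)) .no .no) .no) .no .no) .no) .no (.sw 1 2 [31])) (.br .no .no .no (.br .no (.br .no .no (.de 41) .no) (.de 45) .no)) .no .no) .no)) .no .no .no)) .no .no .no) .no)) .no .no (.sw 0 2 [22])) .no .no) .no) .no .no)) .no .no (.br (.br .no (.br .no .no (.br (.br .no .no .no (.br (.br .no (.br .no .no (.br (.br .no (.br .no (.br .no .no (.de 42) .no) (.br .no (.de 42) .no .no) .no) .no .no) .no .no (.br .no (.br .no (.br .no .no (.de 42) .no) (.br .no (.de 42)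 .no .no) .no) .no .no)) (.br (.br .no (.br .no (.br .no .no (.de 42) .no) (.br .no (.de 42) .no .no) .no) .no .no) .no .no .no)) (.br .no .no .no (.br (.br .no (.br .no (.br .no .no (.de 42) .no) (.br .no (.de 42) .no .no) .no) .no .no) .no .no .no)) .no) .no (.sw 0 1 [23]) .no)) (.br (.br .no .no (.br .no (.br .no .no (.sw 0 3 [24,25]) (.br (.de 34) .no .no .no)) .no .no) .no) .no .no (.sw 0 2 [22])) .no .no) .no) .no .no) .no .no .no)) .no .no)

theorem P2_4 : R.S 15 80459332 :=
  R.piece L hL (.br .no (.br .no .no .no (.br .no (.br .no .no (.br .no .no .no (.de 20)) .no) (.br .no (.br .no .no (.br .no .no .no (.br .no .no (.br (.br .no (.br (.br .no .no .no (.br (.br .no (.br .no (.br .no .no (.br .no .no .no (.br .no (.br .no .no (.br .no .no .no (.br (.br (.br .no (.br (.br .no .no .no (.br (.br .no (.br .no .no (.de 48) (.br .no .no (.de 48) .no)) (.br .no .no .no (.br .no .no (.de 48) .no)) .no) (.br .no .no (.br .no .no .no (.br .no .no (.de 48) .no)) .no) .no .no)) .no (.br (.br .no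 (.br .no .no (.br .no .no .no (.br .no .no (.de 48) .no)) .no) .no .no) .no .no (.de 44)) .no) .no .no) .no .no (.br (.br .no .no (.br (.br .no (.br .no .no (.de 41) .no) .no .no) .no .no (.de 44)) .no) (.br (.br .no .no .no (.br (.br .no (.br .no .no (.br .no .no (.br .no .no .no (.br .no .no (.de 45) .no)) .no) .no) (.de 41) .no) (.br .no .no (.de 41) .no) .no .no)) .no (.br (.br .no (.br .no .no (.de 41) .no) .no .no) .no .no (.de 44)) .no) .no .no)) .no .no .no)) .no) (.br .no (.br .no .no (.br (.br (.br .no (.br (.br .no .no .no (.br (.br .no (.br .no .no (.de 48) (.br .no .no (.de 48) .no)) .no (.de 46)) .no .no .no)) .no .no .no) .no .no) .no .no (.br (.br .no (.br (.br .no .no .no (.br .no (.br .no .no (.br .no (.br .no .no (.br .no .no .no (.br .no .no (.br (.br .no .no .no (.br (.sw 2 3 [6]) .no .no .no)) .no .no .no) .no)) (.br .no .no (.de 45) .no)) (.br .no .no .no (.br .no .no (.de 45) .no)) .no) .no) .no .no)) .no .no (.br (.br .no (.br .no .no (.br .no (.br .no .no (.de 44) (.br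 .no .no (.de 45) .no)) (.br .no .no .no (.br .no .no (.de 45) .no)) .no) .no) .no (.de 46)) .no .no .no)) .no .no) (.br (.br .no .no .no (.br (.br .no (.br .no .no (.br .no .no (.br .no .no .no (.br .no .no (.de 45) .no)) .no) .no) .no (.de 46)) .no .no .no)) .no .no .no) .no .no)) .no .no (.br (.br .no (.br (.br .no .no .no (.br (.br .no (.br .no .no (.de 48) .no) .no .no) .no .no .no)) .no .no .no) .no .no) .no .no (.br (.br .no (.br (.br .no .no .no (.br (.de 46) (.br (.br .no (.br .no .no (.br .no .no .no (.br .no .no (.br (.br .no .no .no (.br .no .no .lf .no)) .no .no .no) .no)) (.br .no .no (.de 45) .no)) (.de 48) .no) .no (.sw 0 3 [34]) .no) .no .no)) .no .no (.br (.br .no (.br (.br .no (.br .no .no (.de 44) (.br .no .no (.de 45) .no)) (.de 48) .no) .no (.sw 0 3 [34]) .no) .no .no) .no .no .no)) .no .no) (.br (.br .no .no .no (.br (.br .no (.br (.br .no .no (.de 48) .no) .no (.sw 0 3 [34]) .no) .no .no) .no .no .no)) .no .no .no) .no .no))) (.br (.br (.br .no (.br (.br .no .no .no (.br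 (.sw 1 2 [31,32]) .no (.de 45) .no)) .no .no .no) .no .no) .no .no (.br (.br .no (.br (.br .no .no (.br .no (.br .no .no (.br .no (.br .no .no (.br .no .no .no (.de 45)) (.br .no .no (.br .no .no .no (.br (.sw 2 3 [33,39,43,44,45]) .no .no .no)) .no)) (.br .no .no .no (.br .no .no (.br .no .no .no (.br (.br .no .no .no (.br (.sw 1 2 [42]) .no .no .no)) .no .no .no)) .no)) .no) .no) .no .no) .no) .no .no (.br (.br .no (.sw 2 3 [33]) (.de 41) .no) .no (.de 45) .no)) .no .no) (.br (.br .no .no .no (.br (.sw 1 2 [31,32]) .no (.de 45) .no)) .no .no .no) .no .no)) .no .no .no)) .no .no) .no)) (.br .no .no (.br .no (.br .no .no (.br .no .no .no (.br (.br (.br .no (.br (.sw 2 3 [29,30]) .no .no (.br (.br .no (.br .no .no (.br .no .no .no (.br .no .no (.de 43) .no)) .no) .no .no) .no .no .no)) .no .no) .no (.br (.br .no .no .no (.br (.br .no (.br .no .no (.br .no .no .no (.br .no (.br .no .no (.de 44) .no) .no .no)) .no) .no .no) .no .no .no)) (.de 42) .no .no) .no) .no .no .no)) .no) .no .no) .no)) .no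 (.br .no .no (.br .no .no .no (.br .no (.br .no .no (.br .no .no .no (.br (.br (.br .no (.br (.br .no .no .no (.br (.br .no (.br .no .no (.de 48) .no) (.br .no (.br .no .no (.de 48) .no) .no .no) .no) (.br .no .no (.br .no (.sy 41 177 5) .no .no) .no) .no .no)) .no (.br (.br .no (.br .no .no (.br .no (.br .no .no (.de 48) .no) .no .no) .no) .no .no) .no .no (.de 44)) .no) .no .no) (.br (.br .no .no (.br (.br .no (.br .no .no (.de 41) .no) .no .no) .no .no (.de 44)) .no) .no .no .no) .no .no) .no .no .no)) .no) (.br .no (.br .no .no (.br (.br (.br .no (.br (.br .no .no .no (.br (.br .no (.br .no .no (.de 48) .no) .no (.de 46)) .no .no .no)) .no .no .no) .no .no) (.br (.br .no (.br (.br .no .no .no (.br .no (.sy 35 177 5) .no .no)) .no .no (.br (.br .no (.br .no .no (.br .no .no (.br .no .no .no (.br .no .no (.de 45) .no)) .no) .no) .no (.de 46)) .no .no .no)) .no .no) .no .no .no) .no .no) .no .no .no) (.sy 28 27 5)) .no .no) .no)) .no)) .no .no) (.de 27) .no .no)) .no .no (.br (.br .no (.de 27)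 .no .no) .no .no .no)) .no .no) .no .no .no) (.br (.br .no c2_4_0 .no .no) .no c2_4_1 .no))) (.de 20)) .no .no) .no)) .no .no) 15 80459332 1073741824 (by norm_num) (by norm_num) (by norm_num) (by decide +kernel)

def c2_5_0 : Cert := (.br (.br .no .no .no (.br (.br .no (.br .no .no .no (.br (.br .no .no (.br .no (.br .no .no (.br .no .no .no (.br (.br .no (.br .no (.br (.br .no .no .no (.br (.br .no (.br .no .no (.br .no .no .no (.br .no .no (.de 43) .no)) (.br .no .no (.br .no .no (.de 43) .no) .no)) (.br .no .no .no (.br .no .no (.br .no .no (.de 43) .no) .no)) .no) (.br .no .no (.br .no .no .no (.br .no .no (.br .no .no (.de 43) .no) .no)) .no) .no .no)) .no .no (.br (.br .no (.br .no .no (.br .no .no .no (.br .no .no (.br .no .no (.de 43) .no) .no)) .no) .no .no) .no .no .no)) .no (.br (.br .no .no .no (.br (.br .no (.br .no .no (.de 41) (.sy 35 57 5)) (.br .no .no .no (.sy 35 45 5)) .no) (.br .no .no (.br .no .no .no (.br .no .no (.br .no (.br .no .no (.de 44) .no) (.de 43) .no) .no)) .no)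 .no .no)) .no .no .no)) .no .no) .no (.br .no (.br .no (.br (.br .no .no .no (.br (.br .no (.br (.br .no .no (.br .no .no (.de 43) .no) (.de 47)) .no .no (.sw 0 2 [33])) .no .no) (.br (.br .no .no .no (.de 46)) .no .no .no) .no .no)) .no .no (.br (.br .no (.br (.br .no .no .no (.de 46)) .no .no .no) .no .no) .no .no .no)) .no (.br (.br .no .no .no (.br (.br .no (.br (.br .no .no (.br .no (.br .no .no (.de 44) .no) (.de 43) .no) .no) .no .no (.sw 0 2 [33])) .no .no) (.br (.br .no .no .no (.de 46)) .no .no .no) .no .no)) .no .no .no)) .no .no) .no)) .no) .no .no) (.br .no (.br .no .no (.br .no .no .no (.br (.br .no (.br .no (.br (.sw 2 3 [29]) .no (.de 42) .no) (.br (.br .no .no .no (.br (.br .no (.br .no .no (.br .no .no .no (.br .no (.br .no .no (.de 44) .no) .no .no)) (.de 41)) (.br .no .no .no (.de 41)) .no) (.br .no .no (.br .no .no .no (.de 41)) .no) .no .no)) .no .no .no) .no) .no .no) .no (.br .no (.br .no (.br (.sw 2 3 [29]) .no (.de 42) .no) (.br (.br .no .no .no (.br (.br .no (.br (.br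 .no .no .no (.de 47)) .no .no (.de 41)) .no .no) (.br (.br .no .no .no (.de 41)) .no .no .no) .no .no)) .no .no .no) .no) .no .no) .no)) .no) (.br .no (.br .no .no (.br (.br .no (.br .no (.br (.br .no .no .no (.br (.br .no (.br .no .no (.br .no .no .no (.br .no .no (.de 43) .no)) (.br .no .no (.br .no .no (.de 43) .no) .no)) .no (.br .no .no (.br .no .no .no (.br .no .no (.de 43) .no)) .no)) .no .no .no)) .no .no .no) (.br (.br .no .no .no (.br (.br .no (.br .no .no (.br .no .no .no (.br .no (.br .no .no (.de 44) .no) .no .no)) (.de 41)) .no (.br .no .no (.br .no .no .no (.sy 39 30 5)) .no)) .no .no .no)) (.de 42) .no .no) .no) .no .no) .no .no .no) (.br (.br .no (.br .no (.br (.br .no .no .no (.br (.sw 1 2 [30,31]) .no (.de 44) .no)) .no .no .no) (.br (.br .no .no .no (.br (.sw 1 2 [30,31]) .no (.de 44) .no)) (.de 42) .no .no) .no) .no .no) .no (.br .no (.br .no (.br (.br .no .no .no (.br (.sw 1 2 [30,31]) .no (.de 44) .no)) .no .no .no) (.br (.br .no .no .no (.br (.sw 1 2 [30,31]) .no (.de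 44) .no)) (.de 42) .no .no) .no) .no .no) .no)) .no .no) .no)) .no .no (.br .no .no (.br .no (.br .no .no (.br .no .no .no (.br (.br .no (.br (.br .no .no .no (.br (.br .no (.br .no .no (.br .no .no .no (.br .no .no (.de 48) .no)) .no) .no .no) .no .no .no)) (.br (.br .no .no .no (.br (.br .no (.br .no .no (.br (.br .no .no (.de 43) .no) .no .no .no) (.br (.de 47) .no (.sw 0 3 [28]) .no)) (.br .no .no .no (.br (.de 47) .no (.sw 0 3 [28]) .no)) .no) (.br .no .no (.br .no .no .no (.br (.de 47) .no (.sw 0 3 [28]) .no)) .no) .no .no)) .no .no (.br (.br .no (.br .no .no (.br .no .no .no (.br (.de 47) .no (.sw 0 3 [28]) .no)) .no) .no .no) .no .no .no)) .no .no) .no .no) .no (.br (.br (.br .no .no .no (.br (.br .no (.br (.br .no (.br .no .no (.de 48) .no) .no (.de 46)) .no .no .no) .no .no) .no .no .no)) (.br (.br .no .no .no (.br (.br .no (.br .no .no .no (.br .no .no (.br .no .no (.de 43) .no) .no)) .no .no) (.br (.br .no (.br .no .no (.br .no .no (.de 43) .no) .no) .no (.de 46)) .no .no .no) .no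 .no)) .no .no (.br (.br .no (.br (.br .no (.br .no .no (.br .no .no (.de 43) .no) .no) .no (.de 46)) .no .no .no) .no .no) .no .no .no)) .no .no) (.br (.br .no .no .no (.br (.br .no (.br (.br .no .no .no (.de 46)) .no .no .no) .no .no) .no .no .no)) (.br (.br .no .no .no (.br (.br .no (.br (.br .no .no (.sw 0 3 [28]) .no) .no .no (.sw 0 2 [33])) .no .no) (.br (.br .no .no .no (.de 46)) .no .no .no) .no .no)) .no .no (.br (.br .no (.br (.br .no .no .no (.de 46)) .no .no .no) .no .no) .no .no .no)) .no .no) .no .no) .no)) .no) .no .no) .no))) (.br .no .no .no (.br (.br .no .no (.br .no (.br .no .no (.br .no (.br (.br .no (.sy 32 225 5) .no .no) .no .no .no) .no (.br (.sw 1 2 [26]) (.de 34) .no .no)) .no) .no .no) (.br .no (.br .no .no (.br .no (.br (.br .no (.sy 32 177 5) .no .no) .no .no .no) .no (.br (.sw 1 2 [26]) (.de 34) .no .no)) .no) (.br .no (.br .no .no .no (.br (.sw 1 2 [26]) (.de 34) .no .no)) .no .no) .no)) .no .no (.br .no .no (.br .no (.br .no .no (.br .no (.br (.br .no (.br (.br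 .no .no .no (.br (.br .no .no .no (.br .no .no (.de 45) .no)) .no .no .no)) (.br (.br .no .no .no (.br (.br .no .no (.br .no .no .no (.br (.de 47) .no (.sw 0 3 [28]) .no)) (.br .no .no (.br (.sy 36 108 5) .no .no .no) .no)) .no .no .no)) .no .no (.br (.br .no .no .no (.br .no .no (.de 45) .no)) .no .no .no)) .no .no) .no .no) .no .no .no) .no (.br (.sw 1 2 [26]) (.br (.br (.br .no .no .no (.br (.br .no (.br (.br .no .no (.br .no (.br .no (.br .no .no (.br .no .no .no (.br .no .no (.br .no .no .no (.br (.br .no .no (.sw 2 3 [6,48]) .no) .no .no .no)) .no)) .no) (.de 43) .no) .no .no) (.de 46)) .no (.br .no .no .no (.br .no (.br .no (.br .no .no (.br .no .no .no (.de 45)) .no) (.de 43) .no) (.de 48) .no)) .no) .no .no) .no .no .no)) (.br (.br .no .no .no (.br (.br .no .no (.br .no .no .no (.br .no .no (.sw 0 1 [33,34]) .no)) .no) (.br (.br .no .no (.de 41) (.de 46)) .no (.br .no .no .no (.br .no .no (.sw 0 1 [33,34]) .no)) .no) .no .no)) .no .no (.br (.br .no (.br (.br .no .no (.de 41) (.de 46))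 .no (.br .no .no .no (.br .no .no (.sw 0 1 [33,34]) .no)) .no) .no .no) .no .no .no)) .no .no) .no .no .no) .no .no)) .no) .no .no) .no))) .no) (.br .no .no (.br .no .no .no (.br (.br .no .no (.br .no (.br (.br .no .no .no (.br (.br .no (.br .no (.br (.br .no .no (.br .no (.br .no .no (.br .no .no .no (.br .no .no (.br .no .no (.br .no .no .no (.de 44)) .no) .no)) .no) .no .no) (.br .no (.br .no .no (.br .no .no .no (.br .no .no (.br .no .no (.de 43) .no) .no)) .no) (.de 44) .no)) .no .no (.br .no .no (.de 43) .no)) .no (.br (.br .no .no (.br .no (.br .no .no (.br .no .no .no (.br .no .no (.sy 39 78 5) .no)) .no) .no .no) (.br .no (.br .no .no (.br .no .no .no (.br .no .no (.br .no (.br .no .no (.de 44) .no) (.de 43) .no) .no)) .no) (.de 44) .no)) .no .no .no)) .no .no) (.de 34) .no .no)) .no (.br (.br .no (.de 34) .no .no) .no .no (.sw 0 1 [25])) .no) .no .no) (.br .no (.br (.br .no .no .no (.br (.br .no (.br .no (.br (.sw 2 3 [29]) .no (.de 42) .no) (.br (.br .no .no (.br .no (.br .no .no (.br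 .no .no .no (.de 41)) .no) .no .no) (.br .no (.br .no .no (.br .no .no .no (.de 41)) .no) (.de 44) .no)) .no .no .no) .no) .no .no) (.de 34) .no .no)) .no (.br (.br .no (.de 34) .no .no) .no .no (.sw 0 1 [25])) .no) (.br (.br .no .no .no (.br (.br .no (.br .no (.br (.br .no (.br .no .no (.br .no (.br .no .no (.br .no .no .no (.sy 37 147 5)) (.br .no .no (.br .no .no (.br .no .no .no (.de 44)) .no) .no)) .no .no) .no) .no (.sw 1 2 [30])) .no .no .no) (.br (.br .no (.br .no .no (.br .no (.br .no .no (.br .no .no .no (.br .no (.br .no .no (.br .no .no .no (.de 45)) (.de 44)) .no .no)) (.de 41)) .no .no) .no) .no (.sw 1 2 [30])) (.de 42) .no .no) .no) .no .no) (.de 34) .no .no)) .no .no .no) .no)) .no .no (.br .no .no (.br .no (.br (.br .no .no .no (.br (.br .no (.br (.br .no .no .no (.br .no .no (.de 43) .no)) (.br (.br .no .no (.br .no (.br .no .no (.br .no .no .no (.br (.de 47) .no (.sw 0 3 [28]) .no)) .no) .no .no) (.br .no (.br .no .no (.br .no .no .no (.br (.de 47) .no (.sw 0 3 [28]) .no))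 .no) (.de 44) .no)) .no .no (.br .no .no (.de 43) .no)) .no .no) .no .no) (.br (.br (.br .no .no .no (.br .no .no (.de 43) .no)) (.br (.br .no .no (.br .no (.br (.br .no .no (.de 41) (.de 46)) .no (.br .no .no .no (.br .no .no (.sw 0 1 [33,34]) .no)) .no) .no .no) (.br .no (.br (.br .no .no (.de 41) (.de 46)) .no (.br .no .no .no (.br .no .no (.sw 0 1 [33,34]) .no)) .no) (.de 44) .no)) .no .no (.br .no .no (.de 43) .no)) .no .no) .no .no .no) .no .no)) .no (.br (.br .no (.br (.br (.br .no .no .no (.br (.br .no (.br .no .no (.br .no .no .no (.br .no (.br .no (.br .no .no (.br .no .no .no (.de 45)) .no) (.de 43) .no) (.de 48) .no)) (.br .no .no (.br .no (.br .no (.br .no .no (.br .no .no .no (.br .no .no (.br (.br .no .no .no (.br .no .no .lf .no)) .no .no .no) .no)) .no) (.de 43) .no) .no .no) .no)) .no (.br .no .no (.de 45) .no)) .no .no .no)) (.br (.br .no .no .no (.br .no (.br .no .no (.br .no .no .no (.br .no .no (.br .no .no (.de 43) .no) .no)) (.br .no .no (.de 41) .no)) .no .no)) .no .no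 (.br (.br .no (.br .no .no (.br .no .no .no (.br .no .no (.br .no .no (.de 43) .no) .no)) (.br .no .no (.de 41) .no)) .no (.br .no .no (.de 45) .no)) .no .no .no)) .no .no) .no .no .no) .no .no) .no .no (.sw 0 1 [25])) .no) .no .no) .no))) .no) .no .no)) .no (.br (.br .no (.br .no .no (.br .no .no .no (.br (.br .no .no .no (.br .no (.br .no .no (.br (.br .no (.de 34) .no .no) .no .no (.br (.br .no (.br .no (.br (.br .no .no .no (.br (.br .no (.br .no .no (.br .no .no .no (.br .no .no (.de 43) .no)) (.br .no .no (.br .no .no (.de 43) .no) .no)) (.br .no .no .no (.br .no .no (.br .no .no (.de 43) .no) .no)) .no) (.br .no .no (.br .no .no .no (.br .no .no (.br .no .no (.de 43) .no) .no)) .no) .no .no)) .no (.de 42) .no) (.br (.br .no .no .no (.br (.br .no (.br .no .no (.br .no .no .no (.br .no (.br .no .no (.de 44) .no) .no .no)) (.de 41)) (.br .no .no .no (.de 41)) .no) (.br .no .no (.br .no .no .no (.de 41)) .no) .no .no)) .no .no .no) .no) .no .no) (.de 34) .no .no)) (.br (.br .no (.de 34) .no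 .no) .no .no .no)) .no .no)) .no .no (.br (.br .no (.br .no .no (.br (.br .no (.br (.br .no (.br .no .no (.de 42) (.br (.br .no (.br .no .no (.br .no .no .no (.br .no .no (.br .no .no (.de 43) .no) .no)) (.br .no .no (.de 41) .no)) .no (.br .no .no (.de 45) .no)) .no .no .no)) (.br .no .no .no (.br (.br .no (.br .no .no (.br .no .no .no (.br .no (.br .no (.br .no .no (.br .no .no .no (.de 45)) .no) .no .no) .no .no)) (.br .no .no (.br .no (.br .no (.br .no .no (.br .no .no .no (.br .no .no (.br (.br .no .no .no (.br (.sw 2 3 [6]) .no .no .no)) .no .no .no) .no)) .no) .no .no) .no .no) .no)) .no (.br .no .no (.de 45) .no)) .no .no .no)) .no) .no .no .no) .no .no) .no .no (.br (.br .no (.br .no (.br .no .no (.de 42) (.br (.br .no (.br .no .no (.br .no .no .no (.br (.de 47) .no (.br .no .no (.de 43) .no) .no)) .no) .no .no) .no .no .no)) (.br .no .no .no (.br (.br .no (.br .no .no (.br .no .no .no (.br (.de 47) .no .no .no)) .no) .no .no) .no .no .no)) .no) .no .no) (.br (.br .no (.br .no .no (.de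 42) (.br (.br .no (.br (.br .no .no (.de 41) (.de 46)) .no (.sw 0 3 [32]) .no) .no .no) .no .no .no)) (.br .no .no .no (.br (.br .no (.br (.br .no .no (.br .no (.br .no (.br .no .no (.br .no .no .no (.br .no .no (.br .no .no .no (.br (.de 48) .no .no .no)) .no)) .no) .no .no) .no .no) (.de 46)) .no (.sw 0 3 [32]) .no) .no .no) .no .no .no)) .no) .no .no .no) .no .no)) (.br (.br .no (.br (.br .no (.br .no .no (.de 42) (.br (.br .no (.sw 2 3 [31]) (.br .no .no .no (.de 45)) .no) .no (.de 43) .no)) (.br .no .no .no (.br (.br .no (.sw 2 3 [31]) (.br .no .no .no (.de 45)) .no) .no (.de 43) .no)) .no) .no .no .no) .no .no) .no .no .no)) .no (.br .no .no (.br (.br .no (.br (.sy 34 108 5) .no .no .no) .no .no) .no .no (.br (.br .no (.br .no (.br .no .no (.de 42) .no) (.br .no (.de 42) .no .no) .no) .no .no) (.br (.br .no (.br .no .no (.de 42) .no) (.br .no (.de 42) .no .no) .no) .no .no .no) .no .no)) .no)) .no .no .no))) .no) .no .no) .no .no (.br (.br .no (.br .no .no .no (.br (.br .no .no .no (.br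 (.br .no (.br .no .no (.br (.br .no (.br .no (.br .no .no (.de 42) .no) (.br .no (.de 42) .no .no) .no) .no .no) .no .no .no) (.br (.br .no (.br .no (.br .no .no (.de 42) .no) (.br .no (.de 42) .no .no) .no) .no .no) .no (.br .no (.br .no (.br .no .no (.de 42) .no) (.br .no (.de 42) .no .no) .no) .no .no) .no)) (.br .no .no .no (.br (.br .no (.br .no (.br .no .no (.de 42) .no) (.br .no (.de 42) .no .no) .no) .no .no) .no (.br .no (.br .no (.br .no .no (.de 42) .no) (.br .no (.de 42) .no .no) .no) .no .no) .no)) .no) (.sw 0 2 [23]) .no .no)) .no .no (.br (.br .no (.br .no .no (.br .no .no .no (.br (.br .no (.br .no (.br .no .no (.de 42) (.sw 0 2 [23,29])) (.br .no .no .no (.br (.br .no (.br .no .no (.br .no .no .no (.br (.de 47) .no .no .no)) .no) .no .no) .no .no .no)) .no) .no .no) .no (.br (.br .no (.br .no .no (.de 42) (.sw 0 2 [23,29])) (.br .no .no .no (.br (.br .no (.br (.br .no (.de 41) .no (.de 46)) .no .no .no) .no .no) .no .no .no)) .no) (.br .no (.br .no .no (.de 42) (.sw 0 2 [23,29]))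 (.br .no .no .no (.br (.br .no (.br (.br .no .no .no (.de 46)) .no .no .no) .no .no) .no .no .no)) .no) .no .no) .no)) .no) .no .no) .no .no .no))) (.br .no .no .no (.br (.br .no .no .no (.br (.br .no (.br .no .no .no (.br (.sw 1 2 [26]) (.de 34) .no .no)) (.br .no (.br (.br .no (.br .no (.br .no .no (.de 42) .no) (.br .no (.de 42) .no .no) .no) .no .no) .no .no .no) .no (.br (.sw 1 2 [26]) (.de 34) .no .no)) .no) (.sw 0 2 [23]) .no .no)) .no .no (.br (.br .no (.br .no .no (.br .no (.br (.br .no (.br .no (.br .no .no (.de 42) (.sw 0 2 [23,29])) (.br .no .no .no (.br (.br .no .no .no (.br .no .no (.de 45) .no)) .no .no .no)) .no) .no .no) .no .no .no) .no (.br (.sw 1 2 [26]) (.br (.br .no (.br .no .no (.de 42) (.sw 0 2 [23,29])) (.br .no .no .no (.br (.br .no (.br (.br .no .no (.br .no (.br .no (.br .no .no (.br .no .no .no (.br .no .no (.br .no .no .no (.br (.de 48) .no .no .no)) .no)) .no) .no .no) .no .no) (.de 46)) .no (.br .no .no .no (.br .no (.br .no (.br .no .no (.br .no .no .no (.de 45))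 .no) .no .no) .no .no)) .no) .no .no) .no .no .no)) .no) .no .no .no) .no .no)) .no) .no .no) .no .no .no))) .no) (.br .no .no (.br .no .no .no (.br (.br .no .no .no (.br (.br .no .no (.br (.br .no (.de 34) .no .no) .no .no (.sw 0 1 [25])) .no) (.sw 0 2 [23]) .no .no)) .no .no (.br (.br .no (.br (.br .no .no .no (.br (.br .no (.br .no (.br .no .no (.de 42) (.sw 0 2 [23,29])) (.br .no .no .no (.br .no .no (.de 43) .no)) .no) .no .no) (.br (.br .no (.br .no .no (.de 42) (.sw 0 2 [23,29])) (.br .no .no .no (.br .no .no (.de 43) .no)) .no) .no .no .no) .no .no)) .no (.sw 0 3 [24]) .no) .no .no) .no .no .no))) .no) .no .no)) .no)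

def c2_5_1 : Cert := (.br .no .no (.br .no (.br (.br .no .no .no (.br (.br .no (.br .no .no .no (.br (.br .no .no (.sw 1 3 [16,22]) (.br .no (.br .no .no (.br .no .no .no (.br (.br .no (.br .no (.br (.sw 2 3 [29]) .no (.de 42) .no) (.br (.br .no .no .no (.br (.br .no (.br .no .no (.br .no .no .no (.br .no (.br .no .no (.de 44) .no) .no .no)) (.de 41)) (.br .no .no .no (.de 41)) .no) (.br .no .no (.br .no .no .no (.de 41)) .no) .no .no)) .no .no .no) .no) .no .no) .no (.br .no (.br .no (.br (.sw 2 3 [29]) .no (.de 42) .no) (.br (.br .no .no .no (.br (.br .no (.br (.br .no .no .no (.de 47)) .no .no (.de 41)) .no .no) (.br (.br .no .no .no (.de 41)) .no .no .no) .no .no)) .no .no .no) .no) .no .no) .no)) .no) (.br .no (.br .no .no (.br (.br .no (.br .no (.br (.br .no .no .no (.br (.br .no (.br .no .no (.br .no .no .no (.br .no .no (.de 43) .no)) (.br .no .no (.br .no .no (.de 43) .no) .no)) .no (.br .no .no (.br .no .no .no (.br .no .no (.de 43) .no)) .no)) .no .no .no)) .no .no .no) (.br (.sw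 1 3 [16,22,29]) (.de 42) .no .no) .no) .no .no) .no .no .no) (.br (.br .no (.br .no (.br (.br .no .no .no (.br (.sw 1 2 [30,31]) .no (.de 44) .no)) .no .no .no) (.br (.sw 1 3 [16,22,29]) (.de 42) .no .no) .no) .no .no) .no (.br .no (.br .no (.br (.br .no .no .no (.br (.sw 1 2 [30,31]) .no (.de 44) .no)) .no .no .no) (.br (.sw 1 3 [16,22,29]) (.de 42) .no .no) .no) .no .no) .no)) .no .no) .no)) .no .no (.br .no .no (.br .no (.br .no .no (.br .no .no .no (.br (.br .no (.br (.br .no .no .no (.br (.br .no (.br .no .no (.br .no .no .no (.br .no .no (.de 48) .no)) .no) .no .no) .no .no .no)) (.br (.br .no .no .no (.br (.br .no (.br .no .no (.br (.br .no .no (.de 43) .no) .no .no .no) (.br (.de 47) .no (.sw 0 3 [28]) .no)) (.br .no .no .no (.br (.de 47) .no (.sw 0 3 [28]) .no)) .no) (.br .no .no (.br .no .no .no (.br (.de 47) .no (.sw 0 3 [28]) .no)) .no) .no .no)) .no .no (.br (.br .no (.br .no .no (.br .no .no .no (.br (.de 47) .no (.sw 0 3 [28]) .no)) .no) .no .no) .no .no .no)) .no .no) .no .no)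 .no (.br (.br (.br .no .no .no (.br (.br .no (.br (.br .no (.br .no .no (.de 48) .no) .no (.de 46)) .no .no .no) .no .no) .no .no .no)) (.br (.br .no .no .no (.br (.br .no (.br .no .no .no (.br .no .no (.br .no .no (.de 43) .no) .no)) .no .no) (.br (.br .no (.br .no .no (.br .no .no (.de 43) .no) .no) .no (.de 46)) .no .no .no) .no .no)) .no .no (.br (.br .no (.br (.br .no (.br .no .no (.br .no .no (.de 43) .no) .no) .no (.de 46)) .no .no .no) .no .no) .no .no .no)) .no .no) (.br (.br .no .no .no (.br (.br .no (.br (.br .no .no .no (.de 46)) .no .no .no) .no .no) .no .no .no)) (.br (.br .no .no .no (.br (.br .no (.br (.br .no .no (.sw 0 3 [28]) .no) .no .no (.sw 0 2 [33])) .no .no) (.br (.br .no .no .no (.de 46)) .no .no .no) .no .no)) .no .no (.br (.br .no (.br (.br .no .no .no (.de 46)) .no .no .no) .no .no) .no .no .no)) .no .no) .no .no) .no)) .no) .no .no) .no))) .no (.de 27)) .no .no .no)) .no .no .no) .no .no) (.br .no (.br (.br .no .no .no (.br (.br .no (.br .no .no (.br (.br .no .no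 (.br .no (.br .no .no (.br .no .no .no (.br (.br .no (.sw 2 3 [21,27]) .no .no) .no .no .no)) .no) .no .no) (.br .no (.br .no .no (.br .no .no .no (.br (.br .no (.sw 2 3 [21,27]) .no .no) .no .no .no)) .no) (.br .no (.br .no .no (.br (.br .no (.sw 2 3 [21,27]) .no .no) .no .no (.br .no (.br .no (.br (.br .no .no .no (.br (.br .no (.br (.sw 2 3 [21,27,32,33]) .no (.sw 0 3 [33]) .no) .no .no) .no .no .no)) .no .no .no) (.br (.br .no .no .no (.br (.br .no (.br (.sw 2 3 [21,27,32,33]) .no (.sw 0 3 [33]) .no) .no .no) .no .no .no)) (.de 42) .no .no) .no) .no .no)) (.br (.br .no (.sw 2 3 [21,27]) .no .no) .no .no .no)) .no .no) .no)) .no (.br .no .no .no (.br .no (.br .no .no (.br .no .no .no (.br (.br .no (.br (.br .no .no (.br (.br .no (.br .no .no (.br .no .no .no (.de 41)) .no) .no .no) .no .no (.de 43)) .no) (.br (.br .no .no .no (.br (.br .no (.br .no .no (.br (.sw 2 3 [21,27,28,29]) .no .no (.sw 0 2 [28])) (.br (.de 47) .no .no .no)) (.br .no .no .no (.br (.de 47) .no .no .no)) .no) (.br .no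 .no (.br .no .no .no (.br (.de 47) .no .no .no)) .no) .no .no)) .no (.de 42) .no) .no .no) .no .no) .no .no .no)) .no) (.br .no (.br .no .no (.br (.br .no (.br (.br .no (.br (.br .no .no .no (.br .no (.br .no .no (.br .no .no .no (.br .no .no (.de 48) .no)) (.de 41)) .no .no)) .no .no (.br (.br .no (.br .no .no (.br .no .no .no (.br .no .no (.de 43) .no)) (.de 41)) .no (.br .no .no (.br .no .no .no (.br .no .no (.de 43) .no)) .no)) .no .no .no)) .no .no) (.br (.br .no .no .no (.br (.br .no (.br .no .no (.br (.br .no .no (.de 43) .no) .no .no (.sw 0 2 [28])) (.br (.de 47) .no .no .no)) .no (.br .no .no (.br (.sy 36 108 5) .no .no (.sw 0 2 [28])) .no)) .no .no .no)) .no .no .no) .no .no) .no .no) .no .no (.br (.br (.br .no (.br (.br .no .no .no (.br (.br .no (.br .no .no .no (.br .no .no (.de 48) .no)) (.br .no (.br .no .no (.de 48) .no) .no (.br .no .no (.de 48) .no)) .no) (.br .no .no (.br .no (.sy 41 177 5) .no (.br .no .no (.de 48) .no)) .no) .no .no)) .no .no (.br (.br .no (.br .no .no (.br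 .no (.br .no .no (.de 43) .no) .no (.br .no .no (.de 43) .no)) .no) .no .no) .no .no .no)) .no .no) (.br (.br .no .no .no (.br (.br .no (.br .no .no (.br .no .no .no (.br .no .no (.de 43) .no)) .no) .no .no) .no .no .no)) .no .no .no) .no .no) (.br (.br .no (.br (.br .no .no .no (.br (.br .no .no (.br .no .no .no (.sw 0 1 [34])) .no) (.br (.br .no .no .no (.de 47)) .no (.sw 0 3 [33]) .no) .no .no)) .no .no (.br (.br .no (.br (.br .no .no .no (.de 47)) .no (.sw 0 3 [33]) .no) .no .no) .no .no .no)) .no .no) (.br (.br .no .no .no (.br (.br .no (.br (.br .no .no .no (.de 47)) .no (.sw 0 3 [33]) .no) .no .no) .no .no .no)) .no .no .no) .no .no) .no .no)) (.br (.br .no (.br (.br .no (.br (.br .no .no (.br .no (.br .no .no (.br .no .no .no (.br .no .no (.de 48) .no)) (.de 41)) .no .no) .no) .no .no (.br (.br .no (.sw 2 3 [32]) (.br .no .no .no (.de 41)) .no) .no (.de 44) .no)) .no .no) (.br (.br .no .no .no (.br (.sw 1 2 [30,31]) .no (.de 44) .no)) .no .no .no) .no .no) .no .no) .no .no .no)) .no .no)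 .no)) .no) .no) .no (.br .no .no (.br (.br .no .no (.br .no (.br .no .no (.br .no (.br (.br .no (.sy 32 225 5) .no .no) .no .no .no) .no .no) .no) .no .no) (.br .no (.br .no .no (.br .no (.br (.br .no (.sy 32 177 5) .no .no) .no .no .no) .no .no) .no) (.br .no (.br .no .no (.br (.sw 1 3 [26]) (.de 34) .no .no) .no) .no .no) .no)) .no (.br .no .no .no (.br .no (.br .no .no (.br .no (.br (.br .no (.br (.br .no .no (.br (.br .no .no .no (.br .no .no (.de 45) .no)) .no .no (.de 43)) .no) (.br (.br .no .no .no (.br (.br .no .no (.sw 1 3 [26,32]) (.br .no .no (.br (.sy 36 108 5) .no .no (.sw 0 2 [28])) .no)) .no .no .no)) .no (.de 42) .no) .no .no) .no .no) .no .no .no) .no .no) .no) (.br .no (.br .no .no (.br (.sw 1 3 [26]) (.br (.sy 30 198 5) .no .no .no) .no .no) .no) .no .no) .no)) .no) .no)) .no .no .no)) .no .no .no) (.br (.sw 1 3 [16]) (.br (.br .no .no .no (.br .no (.br .no .no (.br (.br .no .no .no (.br .no .no (.br .no (.br (.br .no .no .no (.br .no (.br .no (.br (.br .no .no .no (.br .no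 .no (.de 44) .no)) .no .no .no) (.br (.sw 1 3 [16,23,29]) (.de 42) .no .no) .no) .no .no)) .no (.br (.br .no (.br .no (.br (.br .no .no .no (.br (.br .no (.br .no .no (.br .no .no .no (.br .no .no (.de 43) .no)) (.br .no .no (.br .no .no (.de 43) .no) .no)) .no (.br .no .no (.br .no .no .no (.br .no .no (.de 43) .no)) .no)) .no .no .no)) .no .no .no) (.br (.sw 1 3 [16,23,29]) (.de 42) .no .no) .no) .no .no) .no .no (.br .no (.br .no (.br (.br .no .no .no (.br (.br .no (.br (.br .no .no (.br .no .no (.de 43) .no) (.de 47)) .no (.sw 0 3 [33]) .no) .no .no) .no .no .no)) .no .no .no) (.br (.sw 1 3 [16,23,29]) (.de 42) .no .no) .no) .no .no)) .no) .no .no) .no)) (.br (.br .no .no (.sw 1 3 [16,23]) (.br .no (.br (.br .no .no .no (.br (.br .no .no (.br .no (.de 42) .no .no) (.br .no (.br (.sw 2 3 [30]) .no (.br .no .no .no (.de 44)) .no) (.br (.br .no .no (.br .no (.br .no .no (.de 41) .no) .no .no) (.br .no (.br .no .no (.de 41) .no) (.de 45) .no)) .no .no .no) .no)) .no .no .no)) .no (.br (.de 34)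 .no .no (.br (.br .no .no (.br .no (.de 42) .no .no) (.br .no (.br (.sw 2 3 [30]) .no (.br (.br .no (.br .no .no (.de 41) .no) .no .no) .no .no (.de 44)) .no) (.br (.br .no .no .no (.br (.br .no (.br .no .no (.br .no (.br .no .no .no (.br .no .no (.de 45) .no)) .no .no) .no) (.de 41) .no) (.sw 0 2 [32]) .no .no)) .no .no .no) .no)) .no .no .no)) .no) (.br (.br .no .no .no (.br (.br .no .no (.br .no (.de 42) .no .no) (.br .no (.br (.br .no (.br .no .no (.br .no (.br .no .no (.sy 38 147 5) .no) .no .no) .no) .no (.sw 1 2 [31])) .no .no .no) (.br (.sw 1 3 [16,23,30]) (.br .no .no .no (.br .no (.br .no .no (.de 41) .no) (.de 45) .no)) .no .no) .no)) .no .no .no)) .no .no .no) .no)) .no .no (.br .no .no (.br .no (.br (.br .no .no .no (.br (.br (.br .no (.br (.br .no .no (.br .no (.br .no .no (.br .no .no .no (.br .no .no (.de 48) .no)) .no) .no .no) (.br .no (.br .no .no (.br .no .no .no (.br .no .no (.de 48) .no)) .no) (.de 45) .no)) .no .no (.br .no .no (.de 44) .no)) .no .no) .no (.br (.br .no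 .no .no (.br .no .no (.de 44) .no)) (.de 42) .no .no) .no) .no .no .no)) .no (.br (.de 34) .no .no (.br (.br (.br .no (.br (.br .no .no .no (.br (.br .no (.br .no .no (.de 48) (.br .no .no (.de 48) .no)) (.br .no .no .no (.br .no .no (.de 48) .no)) .no) (.sw 0 2 [32]) .no .no)) .no .no (.br (.br .no (.br .no .no (.br .no .no .no (.br .no .no (.de 43) .no)) .no) .no .no) .no .no .no)) .no .no) .no (.br (.br .no .no .no (.br (.br .no (.br .no .no (.br .no .no .no (.sw 0 1 [28,34])) .no) .no .no) .no .no .no)) (.de 42) .no .no) .no) .no .no .no)) .no) .no .no) .no)) .no .no) .no) .no .no)) .no .no (.br (.br .no (.br .no .no (.br (.br .no .no .no (.br (.br .no (.br .no .no (.br (.br .no (.br .no (.br .no .no (.de 42) .no) (.br .no (.de 42) .no .no) .no) .no .no) .no .no (.br .no (.br .no (.br .no .no (.de 42) .no) (.br .no (.de 42) .no .no) .no) .no .no)) (.br (.br .no (.br .no (.br .no .no (.de 42) .no) (.br .no (.de 42) .no .no) .no) .no .no) .no .no .no)) (.br .no .no .no (.br (.br .no (.br .no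 (.br .no .no (.de 42) .no) (.br .no (.de 42) .no .no) .no) .no .no) .no .no .no)) .no) .no (.sw 0 1 [23]) .no)) (.br (.br .no .no (.br .no (.br .no .no (.sw 0 3 [24,25]) (.br (.de 34) .no .no .no)) .no .no) .no) .no .no (.br (.br .no (.br .no .no (.br (.de 34) .no .no (.br (.br (.br .no (.br .no .no (.br (.br .no (.br .no .no (.br .no .no .no (.br .no .no (.de 48) .no)) .no) .no .no) .no .no (.de 44)) (.br (.br .no (.br .no .no (.br .no .no .no (.br .no .no (.de 43) .no)) .no) .no .no) .no .no .no)) (.br .no .no .no (.de 43)) .no) .no (.br .no (.de 42) .no .no) .no) .no .no .no)) (.br (.de 34) .no .no .no)) (.br .no .no .no (.br (.de 34) .no .no .no)) .no) .no (.sw 0 1 [23]) .no)) .no .no) .no) .no (.br .no .no (.sy 26 27 5) .no)) .no .no .no)) .no .no) .no))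

def c2_5_2 : Cert := (.br .no .no (.br c2_5_1 .no .no (.br .no .no (.br .no (.br (.br .no .no .no (.br (.br .no (.br (.br (.br .no .no (.sw 1 3 [16,22]) (.br .no (.br .no .no (.br .no .no .no (.br .no .no (.br .no (.sw 0 3 [20,27]) .no (.br .no (.br (.sw 2 3 [29]) .no (.de 42) .no) (.br (.br .no .no .no (.br (.br .no (.br (.br .no (.sy 38 228 5) .no .no) .no .no .no) .no .no) (.br (.br .no (.de 41) .no .no) .no .no .no) .no .no)) .no .no .no) .no)) .no)) .no) (.br .no (.br .no .no (.br .no .no .no (.br .no (.br .no (.br (.br .no .no .no (.br (.br .no (.br (.br .no .no (.br .no .no (.de 43) .no) (.de 47)) .no (.sw 0 3 [20,27,33]) .no) .no .no) .no .no .no)) .no .no .no) (.br (.sw 1 3 [16,22,29]) (.de 42) .no .no) .no) .no .no)) (.br .no .no (.br .no (.sw 0 3 [20,27]) .no (.br .no (.br (.br .no .no .no (.br (.sw 1 2 [30,31]) .no (.de 44) .no)) .no .no .no) (.br (.sw 1 3 [16,22,29]) (.de 42) .no .no) .no)) .no)) .no .no) .no)) .no .no (.br .no .no (.br .no (.br .no .no (.br .no .no .no (.br .no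 .no (.br .no (.sw 0 3 [20,27]) .no .no) .no)) .no) .no .no) .no)) .no .no .no) .no .no) .no .no .no)) .no .no .no) .no .no) (.br .no (.br (.br .no .no .no (.br (.br .no (.br (.br (.br .no .no (.br .no (.br .no .no (.br .no .no .no (.br .no .no (.br .no (.sw 2 3 [21]) .no .no) .no)) .no) .no .no) (.br .no (.br .no .no (.br .no .no .no (.br .no .no (.br .no (.sw 2 3 [21]) .no .no) .no)) .no) (.br .no (.br .no .no (.br .no .no .no (.br .no (.sw 2 3 [21]) (.br .no (.br (.br .no .no .no (.br (.br .no (.br (.br .no .no .no (.de 47)) .no .no .no) .no .no) .no .no .no)) .no .no .no) (.br (.br .no .no .no (.br (.br .no (.br (.br .no (.sw 2 3 [21,32,33,34]) .no (.de 47)) .no .no .no) .no .no) .no .no .no)) (.de 42) .no .no) .no) .no)) (.br .no .no (.br .no (.sw 2 3 [21]) .no .no) .no)) .no .no) .no)) .no (.br .no .no .no (.br .no (.br .no .no (.br .no .no .no (.br .no .no (.br .no (.br (.br .no .no (.br (.br .no (.br (.br .no .no .no (.de 41)) .no .no .no) .no .no) .no .no (.de 43)) .no) (.br (.br .no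 .no .no (.br (.br .no (.br (.br .no .no .no (.de 47)) .no .no (.br (.de 47) .no .no .no)) .no .no) (.br (.br .no .no .no (.de 46)) .no .no .no) .no .no)) .no (.de 42) .no) .no .no) .no .no) .no)) .no) (.br .no (.br .no .no (.br .no .no .no (.br .no (.br (.br .no (.br (.br .no .no .no (.br (.br .no .no (.br .no .no .no (.br .no .no (.de 48) .no)) .no) (.br (.br .no .no .no (.de 47)) .no (.br .no .no .no (.br .no .no (.de 48) .no)) .no) .no .no)) .no .no (.br (.br .no (.br (.br .no .no .no (.de 47)) .no (.br .no .no .no (.br .no .no (.de 43) .no)) .no) .no .no) .no .no .no)) .no .no) (.br (.br .no .no .no (.br (.br .no (.br (.br .no .no .no (.de 47)) .no (.br (.br .no .no (.de 43) .no) .no .no (.sw 0 2 [28])) .no) .no .no) .no .no .no)) .no .no .no) .no .no) .no .no)) (.br .no .no (.br .no (.br (.br .no (.br (.br .no .no (.br (.br .no .no .no (.de 41)) (.br (.br .no .no .no (.de 47)) .no .no (.de 41)) .no .no) .no) .no .no (.br (.br .no (.br (.sw 2 3 [32,33]) .no .no (.de 41)) .no .no) .no (.de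 44) .no)) .no .no) (.br (.br .no .no .no (.br (.sw 1 2 [30,31]) .no (.de 44) .no)) .no .no .no) .no .no) .no .no) .no)) .no .no) .no)) .no) .no (.sw 0 3 [20]) .no) .no .no) .no .no .no)) .no .no .no) (.br (.sw 1 3 [16]) (.br (.br .no .no .no (.br (.br .no .no (.sw 0 1 [14,15]) .no) (.br (.br (.br .no .no .no (.br .no .no (.br .no (.br (.br .no .no (.br .no (.br .no (.br (.br .no .no .no (.br .no .no (.de 44) .no)) .no .no .no) (.br (.sw 1 3 [16,23,29]) (.de 42) .no .no) .no) .no .no) (.br .no (.br .no (.br (.br .no .no .no (.br .no .no (.de 44) .no)) .no .no .no) (.br (.sw 1 3 [16,23,29]) (.de 42) .no .no) .no) (.br .no (.br (.br .no .no .no (.br .no .no (.de 44) .no)) .no .no .no) (.br (.sw 1 3 [16,23,29]) (.de 42) .no .no) .no) .no)) .no (.br .no .no .no (.br .no (.br .no (.br (.br .no .no .no (.br (.br .no (.br (.br .no .no (.br .no .no (.de 43) .no) (.de 47)) .no (.br .no .no .no (.br .no .no (.de 43) .no)) .no) .no .no) .no .no .no)) .no .no .no) (.br (.sw 1 3 [16,23,29]) (.de 42) .no .no)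 .no) (.sw 0 1 [14,15,26,27]) .no)) .no) .no .no) .no)) (.br (.br .no .no (.sw 1 3 [16,23]) (.br .no (.br (.br .no .no (.de 34) (.br .no .no (.br .no .no (.br .no (.de 42) .no .no) (.br .no (.br (.sw 2 3 [30]) .no (.br .no .no .no (.de 44)) .no) (.br (.br .no .no (.br .no (.br (.de 41) .no .no .no) .no .no) (.br .no (.br (.de 41) .no .no .no) (.de 45) .no)) .no .no .no) .no)) .no)) .no (.br .no .no .no (.br .no .no (.sw 0 1 [14,15,26,27]) .no)) .no) (.br (.br .no .no (.de 34) (.br .no .no (.br .no .no (.br .no (.de 42) .no .no) (.br .no (.br (.br .no (.br .no .no (.br (.de 41) (.br (.br .no .no (.de 48) .no) .no .no .no) .no .no) .no) .no (.sw 1 2 [31])) .no .no .no) (.br (.sw 1 3 [16,23,30]) (.br .no .no .no (.br .no (.br (.de 41) .no .no .no) (.de 45) .no)) .no .no) .no)) .no)) .no .no .no) .no)) .no .no (.br .no .no (.br .no (.br (.br .no .no (.de 34) (.br .no .no (.br (.br .no (.br (.br .no .no (.br .no (.br (.br .no .no .no (.de 47)) .no .no .no) .no .no) (.br .no (.br (.br .no .no .no (.de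 47)) .no .no .no) (.de 45) .no)) .no .no (.br .no .no (.de 44) .no)) .no .no) .no (.br (.br .no .no .no (.br .no .no (.de 44) .no)) (.de 42) .no .no) .no) .no)) .no (.br .no .no .no (.br .no .no (.sw 0 1 [14,15,26,27]) .no)) .no) .no .no) .no)) .no .no) .no (.sw 0 3 [20]) .no) .no .no)) .no .no (.br (.br .no (.br (.br (.br .no .no .no (.br (.br .no (.br .no .no (.br .no .no .no (.br .no (.br .no (.br .no .no (.de 42) .no) (.br .no (.de 42) .no .no) .no) (.br .no (.br .no .no (.de 42) .no) (.br .no (.de 42) .no .no) .no) .no)) (.br .no .no (.br .no (.br .no (.br .no .no (.de 42) .no) (.br .no (.de 42) .no .no) .no) .no .no) .no)) (.br .no .no .no (.br .no .no (.br .no (.br .no (.br .no .no (.de 42) .no) (.br .no (.de 42) .no .no) .no) .no .no) .no)) .no) .no (.sw 0 1 [23]) .no)) (.br (.br .no .no (.br .no (.br .no .no (.sw 0 3 [24,25]) (.br .no .no (.de 34) .no)) .no .no) .no) .no .no (.br (.br .no (.br .no .no (.br .no .no .no (.br .no .no (.br (.br .no (.br .no .no (.br (.br .no (.br (.br .no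 .no .no (.de 47)) .no .no .no) .no .no) .no .no (.de 44)) (.br (.br .no (.br (.br .no .no .no (.de 47)) .no .no .no) .no .no) .no .no .no)) (.br .no .no .no (.de 43)) .no) .no (.br .no (.de 42) .no .no) .no) .no)) (.br .no .no (.de 34) .no)) (.br .no .no .no (.br .no .no (.de 34) .no)) .no) .no (.sw 0 1 [23]) .no)) .no .no) .no (.sw 0 3 [20]) .no) .no .no) .no .no .no)) .no .no) .no))) (.br (.br .no .no (.br .no (.br (.br .no .no .no (.br (.sw 1 2 [17,18]) .no (.br .no (.br .no .no .no (.br (.br .no .no (.sw 1 3 [16,22]) (.br .no (.br (.br .no .no .no (.br (.sw 1 2 [17,18,25,26]) .no (.br .no (.br .no (.br (.sw 2 3 [29]) .no (.de 42) .no) (.br (.br .no .no (.br .no (.br (.br .no .no .no (.de 41)) .no .no .no) .no .no) (.br .no (.sw 0 2 [25,31]) (.de 44) .no)) .no .no .no) .no) .no .no) .no)) .no .no .no) (.br (.br .no .no .no (.br (.sw 1 2 [17,18,25,26]) .no (.br .no (.br .no (.br (.br .no (.br .no .no (.br (.br .no .no .no (.de 46)) (.br (.br .no .no (.br .no .no (.br .no .no .no (.de 44)) .no)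 (.de 47)) .no .no (.sw 0 2 [33])) .no .no) .no) .no (.sw 1 2 [30])) .no .no .no) (.br (.sw 1 3 [16,22,29]) (.de 42) .no .no) .no) .no .no) .no)) (.br (.br .no .no (.br .no (.br .no (.br (.br .no .no .no (.br .no .no (.de 44) .no)) .no .no .no) (.br (.sw 1 3 [16,22,29]) (.de 42) .no .no) .no) .no .no) .no) .no .no (.sw 0 2 [25])) .no .no) .no)) .no .no (.br .no .no (.br .no (.br (.br .no .no .no (.br (.sw 1 2 [17,18,25,26]) .no (.br (.br (.br .no .no .no (.br .no .no (.de 43) .no)) (.br (.br .no .no (.br .no (.br (.br .no (.br .no .no (.br .no .no (.br .no .no .no (.de 44)) .no) .no) .no (.de 46)) .no .no .no) .no .no) (.br .no (.sw 0 2 [25,31]) (.de 44) .no)) .no .no (.br .no .no (.de 43) .no)) .no .no) (.br (.br .no .no .no (.br .no .no (.de 43) .no)) (.br (.br .no .no (.br .no (.br (.br .no .no .no (.de 46)) .no .no .no) .no .no) (.br .no (.sw 0 2 [25,31]) (.de 44) .no)) .no .no (.br .no .no (.de 43) .no)) .no .no) .no .no) .no)) .no .no .no) .no .no) .no))) .no .no) .no)) .no .no .no) .no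 .no) (.br .no (.br (.br .no .no .no (.br (.sw 1 2 [17,18]) .no (.br .no (.br .no .no (.br (.br .no .no (.br .no (.br (.br .no .no .no (.br (.br .no (.sw 2 3 [21,27]) .no .no) .no .no .no)) .no .no .no) .no .no) (.br .no (.br (.br .no .no .no (.br (.br .no (.sw 2 3 [21,27]) .no .no) .no .no .no)) .no .no .no) (.br (.br .no .no .no (.br (.br .no (.sw 2 3 [21,27]) .no .no) .no .no .no)) (.br (.br .no .no .no (.br .no (.br .no (.br (.br .no .no .no (.br .no .no (.de 44) .no)) .no .no .no) (.br (.br .no .no .no (.br .no .no (.de 44) .no)) (.de 42) .no .no) .no) .no .no)) .no .no (.sw 0 2 [25])) .no .no) .no)) .no (.br .no .no .no (.br .no (.br (.br .no .no .no (.br (.br .no (.br (.br .no .no (.br .no .no .no (.de 43)) .no) (.br (.br .no .no (.br .no (.br .no .no (.br .no .no .no (.br (.de 47) .no .no .no)) .no) .no .no) (.br .no (.sw 0 2 [25,31]) (.de 44) .no)) .no (.de 42) .no) .no .no) .no .no) .no .no .no)) .no .no .no) (.br (.br .no .no .no (.br (.br .no (.br (.br .no (.br .no .no .no (.br .no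 (.br .no .no (.br .no .no .no (.de 41)) .no) (.de 44) .no)) .no .no) (.br (.br .no (.br .no .no (.br .no (.br .no .no (.br (.sy 37 210 5) .no .no (.sw 0 2 [28])) (.br (.de 47) .no .no .no)) .no .no) .no) .no (.sw 1 2 [30])) .no .no .no) .no .no) .no .no) .no .no .no)) (.br (.br .no .no .no (.br (.br (.br .no (.br (.br .no .no (.br .no (.br .no .no (.br .no (.sy 41 225 5) .no (.br .no .no (.de 48) .no)) .no) .no .no) (.br .no (.sw 0 2 [25,32]) (.de 45) .no)) .no .no (.br .no .no (.de 44) .no)) .no .no) (.br (.br .no .no .no (.br .no .no (.de 44) .no)) .no .no .no) .no .no) (.br (.br .no (.br (.br .no .no (.br .no (.br (.br .no .no .no (.de 47)) .no (.br .no .no .no (.sw 0 1 [34])) .no) .no .no) (.br .no (.sw 0 2 [25,32]) (.de 45) .no)) .no .no (.br .no .no (.de 44) .no)) .no .no) (.br (.br .no .no .no (.br .no .no (.de 44) .no)) .no .no .no) .no .no) .no .no)) .no .no (.sw 0 2 [25])) .no .no) .no)) .no) .no) .no .no) .no)) .no .no .no) (.br (.sw 1 3 [16]) (.br (.br .no .no (.br .no (.br .no .no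 (.br (.br .no .no .no (.br .no .no (.br .no (.br (.sw 2 3 [19,25]) .no .no (.br (.br .no (.br .no (.br (.br .no .no .no (.br (.br .no (.sw 2 3 [19,25,32]) (.br .no .no .no (.br .no .no (.br .no .no (.de 43) .no) .no)) .no) .no (.de 44) .no)) .no .no .no) (.br (.sw 1 3 [16,23,29]) (.de 42) .no .no) .no) .no .no) .no .no .no)) .no (.br (.br .no .no .no (.br .no (.br .no (.br (.br .no (.br .no .no (.br .no (.br (.br .no .no (.br .no .no (.br .no .no .no (.de 44)) .no) (.de 47)) .no (.br .no .no .no (.sy 37 147 5)) .no) .no .no) .no) .no .no) .no .no .no) (.br (.sw 1 3 [16,23,29]) (.de 42) .no .no) .no) .no .no)) .no .no .no)) .no)) (.br (.br .no .no (.sw 1 3 [16,23]) (.br .no (.br (.sw 2 3 [19,25]) .no .no (.br (.de 34) .no .no .no)) .no .no)) .no .no (.br .no .no (.br .no (.br (.sw 2 3 [19,25]) .no .no (.br (.de 34) .no .no .no)) .no (.br (.br .no .no .no (.br (.sy 31 57 5) .no .no .no)) .no .no .no)) .no)) .no .no) .no) .no .no) .no) .no .no (.br (.br .no (.sw 2 3 [19]) (.de 27) .no) .no (.br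 .no (.br .no .no (.br (.br .no .no .no (.br (.br .no (.br (.br .no .no .no (.br .no (.br .no (.br .no .no (.de 42) .no) (.br .no (.de 42) .no .no) .no) .no .no)) .no .no (.sw 0 2 [25])) .no .no) .no (.sw 0 1 [23]) .no)) (.br (.br .no .no (.br (.br .no .no .no (.br (.de 34) .no .no .no)) (.sw 0 3 [24]) .no .no) .no) .no .no (.br (.br .no (.br (.br .no .no .no (.br (.br (.br .no (.br .no .no (.br .no .no .no (.de 44)) (.br .no .no (.de 44) .no)) (.br .no .no .no (.de 43)) .no) .no (.br .no (.de 42) .no .no) .no) .no .no .no)) .no .no (.sw 0 2 [25])) .no .no) .no (.sw 0 1 [23]) .no)) .no .no) .no) .no .no) .no)) .no .no) .no)) .no .no .no))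

def c2_5_3 : Cert := (.br .no (.br .no .no (.br .no (.br .no .no (.br (.sy 16 210 5) .no .no (.sy 16 147 5)) (.br (.br .no .no (.br .no .no .no (.br (.br .no .no .no (.br (.br .no (.sw 2 3 [19]) (.br .no .no .no (.sy 22 45 5)) .no) .no (.br .no (.br .no .no .no (.br (.br .no (.br .no .no (.br (.br .no .no .no (.br (.br .no (.sy 33 228 5) .no .no) .no (.br .no (.br .no .no (.br (.br .no (.br .no .no (.br (.br .no .no .no (.de 41)) (.br (.br .no .no .no (.de 47)) .no .no (.de 41)) .no .no) .no) .no (.br .no (.br (.br .no .no .no (.de 41)) .no .no .no) (.de 44) .no)) .no .no (.br .no (.br .no .no (.br (.br .no .no .no (.de 41)) (.br (.br .no .no .no (.de 47)) .no .no (.de 41)) .no .no) .no) .no .no)) (.br (.br .no (.br .no .no (.br (.br .no .no .no (.de 46)) (.br (.br .no .no (.br .no (.br .no .no (.br .no .no .no (.de 45)) (.de 44)) (.br .no .no .no (.de 44)) .no) .no) .no .no (.sw 0 2 [33])) .no .no) .no) .no (.br .no (.br (.br .no .no .no (.de 46)) .no .no .no) (.de 44) .no)) .no .no .no)) .no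 .no) .no)) (.br (.br .no .no (.br .no (.br .no .no (.br (.br .no .no .no (.br .no .no (.de 44) .no)) .no .no (.br (.br .no .no (.br .no (.br (.br .no .no .no (.de 47)) .no .no (.de 41)) .no (.de 45)) (.br .no (.br (.br .no .no .no (.de 47)) .no .no (.de 41)) .no .no)) .no .no .no)) (.br (.br .no .no .no (.br .no .no (.de 44) .no)) .no .no .no)) .no .no) .no) .no .no (.sw 0 2 [25])) .no .no) .no) (.br .no (.br (.br .no .no .no (.br (.br .no (.br .no (.br (.br .no .no (.br .no (.br .no .no (.br .no .no .no (.br .no .no (.br .no .no (.br .no .no .no (.de 44)) .no) .no)) .no) .no .no) (.br .no (.sw 0 2 [25,31]) (.de 44) .no)) .no .no (.br .no .no (.de 43) .no)) .no (.br (.br .no .no (.br .no (.br .no .no (.br .no .no .no (.br .no .no (.sy 39 78 5) .no)) .no) .no .no) (.sw 1 2 [29,30])) .no .no .no)) .no .no) .no (.br .no (.br .no (.br (.br .no .no (.br .no (.br (.br .no .no .no (.de 46)) .no .no .no) .no .no) (.br .no (.sw 0 2 [25,31]) (.de 44) .no)) .no .no (.br .no .no (.de 43) .no)) .no (.br (.br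 .no .no (.br .no (.br (.br .no .no .no (.de 46)) .no .no .no) .no .no) (.sw 1 2 [29,30])) .no .no .no)) .no .no) .no)) .no .no .no) .no .no) .no) (.br .no .no (.br .no (.br (.br .no .no .no (.br (.de 34) .no (.br (.br (.br .no .no .no (.br .no .no (.de 43) .no)) .no .no (.br (.br .no .no (.br .no (.br (.br .no (.br .no .no (.br .no (.br .no .no .no (.de 44)) (.br .no .no .no (.de 44)) .no) .no) .no (.de 46)) .no .no .no) .no .no) (.br .no (.sw 0 2 [25,31]) (.de 44) .no)) .no .no .no)) .no .no .no) .no)) .no .no .no) .no .no) .no) .no .no)) .no .no) .no)) .no .no .no)) (.br .no .no (.br (.br .no .no .no (.br (.br .no (.sw 2 3 [19]) (.de 27) .no) .no (.br .no (.br .no .no (.br (.br .no (.br .no .no (.br (.br .no .no .no (.br (.br .no (.sw 2 3 [21,22,27]) .no .no) .no .no .no)) (.br (.br .no .no .no (.br .no (.br .no .no (.br (.br .no .no .no (.br .no .no (.de 44) .no)) .no .no (.br (.br .no .no (.br .no (.br (.sw 2 3 [21,22,27,33]) .no (.br .no .no .no (.sy 40 78 5)) .no) .no .no) (.br .no (.sw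 0 2 [25,32]) (.de 45) .no)) .no .no .no)) (.br (.br .no .no .no (.br .no .no (.de 44) .no)) .no .no .no)) .no .no)) .no .no (.sw 0 2 [25])) .no .no) .no) .no (.br .no (.br (.br .no .no .no (.br (.br .no (.br .no (.br (.sw 2 3 [21,22,27,29]) .no (.de 42) .no) (.br (.br .no .no (.br .no (.br .no .no (.br .no .no .no (.de 41)) .no) .no .no) (.br .no (.sw 0 2 [25,31]) (.de 44) .no)) .no .no .no) .no) .no .no) .no .no .no)) .no .no .no) (.br (.br .no .no .no (.br (.br .no (.br .no (.br (.br .no (.br .no .no (.br .no (.br .no .no (.br .no .no .no (.sy 37 147 5)) (.br .no .no (.br .no .no (.br .no .no .no (.de 44)) .no) .no)) .no .no) .no) .no (.sw 1 2 [30])) .no .no .no) (.br (.sw 1 3 [29]) (.de 42) .no .no) .no) .no .no) .no .no .no)) (.br (.br .no .no .no (.br .no (.br .no (.br (.br .no .no .no (.br .no .no (.de 44) .no)) .no .no .no) (.br (.sw 1 3 [29]) (.de 42) .no .no) .no) .no .no)) .no .no (.sw 0 2 [25])) .no .no) .no)) (.br .no .no .no (.br .no (.br (.br .no .no .no (.br (.de 34) .no .no .no))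 .no .no .no) (.br (.br .no .no .no (.br (.de 34) .no .no .no)) (.br (.br .no .no .no (.br (.br (.br .no (.br (.br .no .no (.br .no (.br .no .no (.br .no .no .no (.br .no .no (.de 48) .no)) .no) .no .no) (.br .no (.sw 0 2 [25,32]) (.de 45) .no)) .no .no (.br .no .no (.de 44) .no)) .no .no) .no (.br (.br .no .no .no (.br .no .no (.de 44) .no)) (.de 42) .no .no) .no) .no .no .no)) .no .no (.sw 0 2 [25])) .no .no) .no)) .no .no) .no) .no .no) .no)) .no .no (.br (.br .no .no (.br .no (.br .no .no (.sy 27 78 5) .no) .no .no) .no) .no .no .no)) .no)) .no .no .no)) .no .no) .no) .no (.br .no (.br .no .no (.br .no .no .no (.br (.br .no .no (.br .no c2_5_0 .no .no) (.br .no (.br (.br .no .no .no (.br (.br .no (.br .no .no (.br (.br .no .no (.br .no (.br .no .no (.br .no .no .no (.br (.br .no (.sw 2 3 [21,27]) .no .no) .no .no .no)) .no) .no .no) (.br .no (.br .no .no (.br .no .no .no (.br (.br .no (.sw 2 3 [21,27]) .no .no) .no .no .no)) .no) (.br .no (.br .no .no (.br (.br .no (.sw 2 3 [21,27]) .no .no)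 .no .no (.br .no (.br .no (.br (.br .no .no .no (.br (.br .no (.br (.sw 2 3 [21,27,32,33]) .no (.sw 0 3 [33]) .no) .no .no) .no .no .no)) .no .no .no) (.br (.br .no .no .no (.br (.br .no (.br (.sw 2 3 [21,27,32,33]) .no (.sw 0 3 [33]) .no) .no .no) .no .no .no)) (.de 42) .no .no) .no) .no .no)) (.br (.br .no (.sw 2 3 [21,27]) .no .no) .no .no .no)) .no .no) .no)) .no (.br .no .no .no (.br .no (.br .no .no (.br .no .no .no (.br (.br .no (.br (.br .no .no (.br (.br .no (.br .no .no (.br .no .no .no (.de 41)) .no) .no .no) .no .no (.de 43)) .no) (.br (.br .no .no .no (.br (.br .no (.br .no .no (.br (.sw 2 3 [21,27,28,29]) .no .no (.sw 0 2 [28])) (.br (.de 47) .no .no .no)) (.br .no .no .no (.br (.de 47) .no .no .no)) .no) (.br .no .no (.br .no .no .no (.br (.de 47) .no .no .no)) .no) .no .no)) .no (.de 42) .no) .no .no) .no .no) .no .no .no)) .no) (.br .no (.br .no .no (.br (.br .no (.br (.br .no (.br (.br .no .no .no (.br .no (.br .no .no (.br .no .no .no (.br .no .no (.de 48) .no)) (.de 41)) .no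 .no)) .no .no (.br (.br .no (.br .no .no (.br .no .no .no (.br .no .no (.de 43) .no)) (.de 41)) .no (.br .no .no (.br .no .no .no (.br .no .no (.de 43) .no)) .no)) .no .no .no)) .no .no) (.br (.br .no .no .no (.br (.br .no (.br .no .no (.br (.br .no .no (.de 43) .no) .no .no (.sw 0 2 [28])) (.br (.de 47) .no .no .no)) .no (.br .no .no (.br (.sy 36 108 5) .no .no (.sw 0 2 [28])) .no)) .no .no .no)) .no .no .no) .no .no) .no .no) .no .no (.br (.br (.br .no (.br (.br .no .no .no (.br (.br .no (.br .no .no .no (.br .no .no (.de 48) .no)) (.br .no (.br .no .no (.de 48) .no) .no (.br .no .no (.de 48) .no)) .no) (.br .no .no (.br .no (.sy 41 177 5) .no (.br .no .no (.de 48) .no)) .no) .no .no)) .no .no (.br (.br .no (.br .no .no (.br .no (.br .no .no (.de 43) .no) .no (.br .no .no (.de 43) .no)) .no) .no .no) .no .no .no)) .no .no) (.br (.br .no .no .no (.br (.br .no (.br .no .no (.br .no .no .no (.br .no .no (.de 43) .no)) .no) .no .no) .no .no .no)) .no .no .no) .no .no) (.br (.br .no (.br (.br .no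 .no .no (.br (.br .no .no (.br .no .no .no (.sw 0 1 [34])) .no) (.br (.br .no .no .no (.de 47)) .no (.sw 0 3 [33]) .no) .no .no)) .no .no (.br (.br .no (.br (.br .no .no .no (.de 47)) .no (.sw 0 3 [33]) .no) .no .no) .no .no .no)) .no .no) (.br (.br .no .no .no (.br (.br .no (.br (.br .no .no .no (.de 47)) .no (.sw 0 3 [33]) .no) .no .no) .no .no .no)) .no .no .no) .no .no) .no .no)) (.br (.br .no (.br (.br .no (.br (.br .no .no (.br .no (.br .no .no (.br .no .no .no (.br .no .no (.de 48) .no)) (.de 41)) .no .no) .no) .no .no (.br (.br .no (.sw 2 3 [32]) (.br .no .no .no (.de 41)) .no) .no (.de 44) .no)) .no .no) (.br (.br .no .no .no (.br (.sw 1 2 [30,31]) .no (.de 44) .no)) .no .no .no) .no .no) .no .no) .no .no .no)) .no .no) .no)) .no) .no) (.de 27) .no) (.br .no .no (.de 27) .no) .no .no)) .no (.br (.br .no (.br .no .no (.de 27) .no) .no .no) .no .no (.br (.br .no (.br .no .no (.br (.br .no .no .no (.br (.br .no (.br .no .no (.br (.br .no (.sw 2 3 [21,27]) .no .no) .no .no (.br .no (.br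 .no (.br .no .no (.de 42) .no) (.br .no (.de 42) .no .no) .no) .no .no)) (.br (.br .no (.sw 2 3 [21,27]) .no .no) .no .no .no)) (.br .no .no .no (.br (.br .no (.sw 2 3 [21,27]) .no .no) .no .no .no)) .no) (.sw 0 2 [23]) .no .no)) .no (.br (.br .no (.br .no .no (.br .no .no .no (.br (.br .no (.br .no (.br .no .no (.de 42) (.br (.br .no (.br .no .no (.br .no .no .no (.br (.de 47) .no .no .no)) .no) .no .no) .no .no .no)) .no (.br .no .no (.br (.br .no (.br .no .no (.br .no .no .no (.br (.de 47) .no .no .no)) .no) .no .no) .no .no (.de 43)) .no)) .no .no) .no .no .no)) .no) .no .no) .no .no (.br (.br .no (.br .no .no (.br (.br .no (.br (.br .no (.br .no .no (.br (.br .no (.br .no .no (.br .no .no .no (.br .no .no (.de 48) .no)) (.de 41)) .no (.br .no .no (.br .no .no .no (.br .no .no (.de 48) .no)) .no)) .no .no (.de 44)) (.sw 0 2 [23,30])) (.br .no .no .no (.de 43)) .no) (.br .no .no (.de 42) .no) .no .no) .no .no) .no .no (.br (.br (.br .no (.br .no .no (.br (.br .no (.br .no .no (.br .no (.br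 .no .no (.de 48) .no) .no (.br .no .no (.de 48) .no)) .no) .no .no) .no .no (.de 44)) (.sw 0 2 [23,30])) (.br .no .no .no (.de 43)) .no) (.br .no .no (.de 42) .no) .no .no) (.br (.br .no (.br .no .no (.br (.br .no (.br (.br .no .no .no (.de 47)) .no (.sw 0 3 [33]) .no) .no .no) .no .no (.de 44)) (.sw 0 2 [23,30])) (.br .no .no .no (.de 43)) .no) (.br .no .no (.de 42) .no) .no .no) .no .no)) (.br (.br .no (.br (.br .no (.br .no .no (.br (.br .no (.sw 2 3 [32]) (.br .no .no .no (.de 41)) .no) .no .no .no) (.sw 0 2 [23,30])) (.br .no .no .no (.de 43)) .no) (.br .no .no (.de 42) .no) .no .no) .no .no) .no .no .no)) (.br .no .no .no (.br (.br .no (.br (.br .no (.br .no .no .no (.br (.sw 1 2 [31]) (.br .no .no (.br .no .no .no (.de 41)) .no) .no .no)) (.br .no (.br (.br .no (.br .no .no (.br .no .no .no (.br .no (.br .no .no .no (.br .no .no (.br .no .no .no (.br (.de 47) .no .no .no)) .no)) .no .no)) (.de 41)) (.br .no .no .no (.de 41)) .no) .no .no .no) .no (.de 43)) .no) (.br .no .no (.de 42) .no)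 .no .no) .no .no) .no .no .no)) .no) (.sw 0 2 [23]) .no .no)) .no) .no) (.de 27) .no) (.br .no .no (.de 27) .no) .no .no)) .no) (.br (.br .no .no .no (.br (.br .no (.br .no .no (.br (.br .no (.br .no .no (.br .no (.br .no .no (.br (.br .no (.sy 29 210 5) .no .no) .no .no (.br .no (.sy 29 147 5) .no .no)) (.br (.br .no (.br .no .no (.br (.br .no .no .no (.br (.br .no (.sw 2 3 [32]) (.br .no .no .no (.de 41)) .no) .no (.de 44) .no)) .no .no (.br (.br .no .no (.br .no (.br .no .no (.br .no .no .no (.sy 40 78 5)) (.de 41)) .no .no) .no) .no .no .no)) (.br (.br .no .no .no (.br (.sw 1 2 [22,29,30,31]) .no (.de 44) .no)) .no .no .no)) .no .no) .no .no .no)) .no .no) .no) .no (.sw 1 2 [22])) (.br .no .no .no (.br .no (.br .no .no (.br .no .no .no (.br (.de 34) .no .no .no)) .no) (.br .no (.br .no .no (.br (.de 34) .no .no (.br (.br (.br .no (.br (.br .no .no .no (.br (.br .no (.br .no .no (.de 48) (.sw 1 2 [22,28])) (.br .no .no .no (.sw 1 2 [22,28])) .no) (.br .no .no (.br .no .no .no (.sw 1 2 [22,28]))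 .no) .no .no)) .no .no (.br (.br .no (.br .no .no (.br .no .no .no (.sw 1 2 [22,28])) .no) .no .no) .no .no .no)) .no .no) .no (.br (.br .no .no .no (.br (.br .no (.br .no .no (.br .no .no .no (.sw 0 1 [28,34])) .no) .no .no) .no .no .no)) (.de 42) .no .no) .no) .no .no .no)) (.br (.de 34) .no .no .no)) .no .no) .no)) .no .no) .no) (.de 27) .no) (.br .no .no (.de 27) .no) .no .no)) .no .no .no) .no)) .no .no .no)) .no) (.br .no c2_5_2 .no .no) .no))

theorem P2_5 : R.S 15 348894788 :=
  R.piece L hL (.br c2_5_3 .no .no .no) 15 348894788 1073741824 (by norm_num) (by norm_num) (by norm_num) (by decide +kernel)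

end T7
end Pool.Agent.H411R2.WSK
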