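import Pool.Agent.H411R2.WSK.T7

set_option maxRecDepth 100000
set_option linter.all false

namespace Pool.Agent.H411R2.WSK

namespace T7

def c3_0_0 : Cert := (.br (.br .no (.br (.br .no .no (.br .no (.br .no .no (.br .no (.br .no .no (.br .no .no .no (.br .no (.br (.br .no .no .no (.br (.br (.br .no (.br (.br .no .no (.br .no (.br .no .no (.br .no .no .no (.br .no .no (.de 48) .no)) .no) .no .no) (.br .no (.br .no .no (.br .no .no .no (.br .no .no (.de 48) .no)) .no) (.de 45) .no)) .no (.br .no .no .no (.de 44)) .no) .no .no) .no .no (.br (.br .no .no (.br .no .no .no (.de 44)) .no) (.br (.br .no .no (.br .no (.br .no .no (.de 41) .no) .no .no) (.br .no (.br .no .no (.de 41) .no) (.de 45) .no)) .no (.br .no .no .no (.de 44)) .no) .no .no)) .no .no .no)) .no .no (.br (.de 34) .no .no .no)) .no .no)) (.br .no .no (.br .no (.br (.br .no .no .no (.br (.br (.br .no (.br (.sw 2 3 [29,30]) .no .no (.br .no .no (.de 44) .no)) .no .no) .no (.br (.br .no .no .no (.br .no .no (.de 44) .no)) (.de 42) .no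 .no) .no) .no .no .no)) .no .no (.br (.de 34) .no .no .no)) .no (.br (.br .no .no .no (.br (.sy 31 57 5) .no .no .no)) .no .no .no)) .no)) (.br .no .no .no (.br .no .no (.br .no (.br (.br .no .no .no (.br (.br (.br .no (.br (.br .no .no (.br .no (.br .no .no (.br .no (.sy 41 225 5) .no (.sw 1 2 [28])) .no) .no .no) (.br .no (.br .no .no (.br .no (.sy 41 177 5) .no (.sw 1 2 [28])) .no) (.de 45) .no)) .no .no (.br .no .no (.de 44) .no)) .no .no) (.br (.br .no .no .no (.br .no .no (.de 44) .no)) .no .no .no) .no .no) (.br (.br .no (.br (.br .no .no (.br .no (.br (.br .no .no .no (.de 47)) .no (.br .no .no .no (.sw 0 1 [34])) .no) .no .no) (.br .no (.br (.br .no .no .no (.de 47)) .no (.br .no .no .no (.sw 0 1 [34])) .no) (.de 45) .no)) .no .no (.br .no .no (.de 44) .no)) .no .no) (.br (.br .no .no .no (.br .no .no (.de 44) .no)) .no .no .no) .no .no) .no .no)) .no .no (.br (.br .no (.br (.br .no (.br (.br .no .no (.br .no (.br .no .no (.sw 0 3 [32,33]) (.de 41)) .no .no) .no) .no .no (.br (.br .no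 (.br .no .no (.br .no .no .no (.br .no .no (.de 43) .no)) (.de 41)) (.br .no .no .no (.de 41)) .no) .no (.de 44) .no)) .no .no) (.br (.br .no .no .no (.br (.br .no (.br .no .no (.br (.br .no .no (.de 43) .no) .no .no (.br .no .no (.de 43) .no)) (.br (.de 47) .no .no .no)) (.br .no .no .no (.br (.de 47) .no .no .no)) .no) .no (.de 44) .no)) .no .no .no) .no .no) .no .no) .no .no .no)) .no (.br (.br .no .no .no (.br (.sy 31 45 5) (.br (.br .no (.br (.br .no (.br .no .no (.br (.sy 35 228 5) .no .no .no) .no) (.sw 1 3 [31]) .no) .no .no .no) .no .no) (.br (.br .no (.br .no .no (.br .no (.br (.br .no .no .no (.de 47)) .no (.br (.sy 37 210 5) .no .no (.sw 0 1 [34])) .no) .no .no) .no) .no .no) .no .no .no) .no .no) .no .no)) .no .no .no)) .no)) .no) .no) .no .no) (.br .no (.sw 0 2 [12,19]) (.br .no (.br .no (.br .no .no (.br .no .no .no (.br .no (.br (.br .no .no .no (.br (.sw 2 3 [21]) .no (.br (.br .no (.br (.br .no .no (.br .no (.br (.br .no .no .no (.de 47)) .no .no .no) .no .no) (.br .no (.sw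 0 2 [12,19,26,32]) (.de 45) .no)) .no (.br .no .no .no (.de 44)) .no) .no .no) .no .no (.br (.br .no .no (.br .no .no .no (.de 44)) .no) (.br (.br .no .no (.br .no (.br (.de 41) .no .no .no) .no .no) (.br .no (.sw 0 2 [12,19,26,32]) (.de 45) .no)) .no (.br .no .no .no (.de 44)) .no) .no .no)) .no)) .no .no .no) (.br (.br .no .no .no (.br (.sw 2 3 [21]) .no (.br (.br .no (.br (.br .no (.br .no .no (.br (.sy 35 228 5) (.br .no .no .no (.sw 0 2 [34])) .no .no) .no) .no (.sw 1 2 [31])) .no .no .no) .no .no) .no .no (.br (.br .no (.br .no .no .no (.br .no (.br (.de 41) .no .no .no) (.de 45) .no)) .no .no) (.br (.br .no (.br .no .no (.br (.de 41) (.br (.br .no .no (.de 48) .no) .no .no .no) .no .no) .no) .no (.sw 1 2 [31])) .no .no .no) .no .no)) .no)) (.br (.br .no .no (.br (.br .no (.br (.br .no .no .no (.br .no .no (.de 45) .no)) .no .no .no) .no .no) .no .no (.br (.br .no (.br (.br .no .no (.br .no (.br (.sw 2 3 [21,34]) .no .no .no) .no (.br (.de 47) .no .no .no)) (.br .no (.br (.sw 2 3 [21,34])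 .no .no .no) .no .no)) .no .no (.br .no .no (.de 45) .no)) .no .no) (.br (.br .no .no .no (.br .no .no (.de 45) .no)) .no .no .no) .no .no)) .no) .no .no (.sw 0 2 [12,19,26])) .no .no) .no)) (.br .no .no (.br .no (.br (.br .no .no .no (.br (.sw 2 3 [21]) .no (.br (.br .no (.br (.sw 2 3 [29,30]) .no .no (.br .no .no (.de 44) .no)) .no .no) .no (.br (.br .no .no .no (.br .no .no (.de 44) .no)) (.de 42) .no .no) .no) .no)) .no .no .no) .no .no) .no)) (.br .no .no .no (.br .no .no (.br .no (.br (.br .no .no .no (.br (.sw 1 2 [26,27]) .no .no .no)) .no .no .no) .no .no) .no)) .no) .no .no) .no)) .no .no (.br .no .no (.br .no (.br .no .no (.br .no (.br .no .no (.br (.br .no (.br (.br .no .no .no (.br (.br (.br .no (.br .no .no (.sw 0 3 [24,30]) (.br .no .no (.de 44) .no)) .no (.br .no .no (.de 43) .no)) .no .no (.br .no (.br .no .no (.sw 0 3 [24,30]) (.br .no .no (.de 44) .no)) .no .no)) .no .no .no)) .no .no (.sw 0 2 [12,19,25])) .no .no) .no .no .no) (.br (.br .no (.br (.br .no .no .no (.br (.br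 (.br .no (.sw 2 3 [29]) (.br .no .no .no (.de 43)) .no) .no (.br .no (.de 42) .no .no) .no) .no .no .no)) .no .no (.sw 0 2 [12,19,25])) .no .no) .no (.br (.br .no .no .no (.br (.de 34) .no .no .no)) (.sw 0 3 [24]) .no .no) .no)) (.br .no .no .no (.br (.br .no (.br (.br .no .no .no (.br (.br (.br .no (.br .no .no (.br .no .no .no (.de 44)) (.br .no .no (.de 44) .no)) (.br .no .no .no (.de 43)) .no) (.br .no .no (.de 42) .no) .no .no) (.br (.br .no (.br .no .no (.br .no .no .no (.de 44)) (.br .no .no (.de 44) .no)) (.br .no .no .no (.de 43)) .no) (.br .no .no (.de 42) .no) .no .no) .no .no)) .no .no (.sw 0 2 [12,19,25])) .no .no) .no (.br (.br .no .no .no (.br (.br .no (.br (.br .no (.br .no .no .no (.br .no (.sw 0 2 [12,19,25,30,31]) (.de 44) .no)) .no .no) (.br (.br .no (.br .no .no (.br .no (.br .no .no (.sw 0 3 [24,31,32,33]) (.br (.de 47) .no .no .no)) .no .no) .no) .no (.br .no (.br .no .no (.br .no .no .no (.br (.de 47) .no .no .no)) .no) (.de 44) .no)) .no .no .no) .no .no) .no .no) .no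 .no .no)) (.sw 0 3 [24]) .no .no) .no)) .no) .no) .no .no) .no)) .no .no) .no (.br (.br .no .no .no (.br .no .no (.br .no (.br .no .no (.br (.br .no (.br .no .no (.br (.br .no .no .no (.br (.br .no (.sy 33 228 5) .no .no) .no .no .no)) (.br (.br .no .no .no (.br .no (.br .no .no (.br (.br .no .no .no (.br .no .no (.de 44) .no)) .no .no (.br (.br .no .no (.br .no (.br (.br .no .no .no (.de 47)) .no (.br .no .no .no (.sy 40 78 5)) .no) .no .no) (.br .no (.sw 0 2 [12,19,25,32]) (.de 45) .no)) .no .no .no)) (.br (.br .no .no .no (.br .no .no (.de 44) .no)) .no .no .no)) .no .no)) .no .no (.sw 0 2 [12,19,25])) .no .no) .no) .no (.br .no (.br (.br .no .no .no (.br (.br .no (.br .no (.br (.br .no .no (.br .no (.br .no .no (.br .no .no .no (.br .no .no (.br .no .no (.br .no .no .no (.de 44)) .no) .no)) .no) .no .no) (.br .no (.sw 0 2 [12,19,25,31]) (.de 44) .no)) .no (.de 42) .no) (.br (.br .no .no (.br .no (.br .no .no (.br .no .no .no (.de 41)) .no) .no .no) (.br .no (.sw 0 2 [12,19,25,31]) (.de 44)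 .no)) .no .no .no) .no) .no .no) .no .no .no)) .no .no .no) (.br (.br .no .no .no (.br (.br .no (.br .no (.br (.br .no (.br .no .no (.br .no (.br .no .no (.br .no .no .no (.sy 37 147 5)) (.br .no .no (.br .no .no (.br .no .no .no (.de 44)) .no) .no)) .no .no) .no) .no (.sw 1 2 [30])) .no .no .no) (.br (.sw 1 3 [29]) (.de 42) .no .no) .no) .no .no) .no .no .no)) (.br (.br .no .no .no (.br .no (.br .no (.br (.br .no .no .no (.br .no .no (.de 44) .no)) .no .no .no) (.br (.sw 1 3 [29]) (.de 42) .no .no) .no) .no .no)) .no .no (.sw 0 2 [12,19,25])) .no .no) .no)) (.br .no .no .no (.br .no (.br (.br .no .no .no (.br (.de 34) .no .no .no)) .no .no .no) (.br (.br .no .no .no (.br (.de 34) .no .no .no)) (.br (.br .no .no .no (.br (.br (.br .no (.br (.br .no .no (.br .no (.br .no .no (.br .no .no .no (.br .no .no (.de 48) .no)) .no) .no .no) (.br .no (.sw 0 2 [12,19,25,32]) (.de 45) .no)) .no .no (.br .no .no (.de 44) .no)) .no .no) .no (.br (.br .no .no .no (.br .no .no (.de 44) .no)) (.de 42) .no .no)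 .no) .no .no .no)) .no .no (.sw 0 2 [12,19,25])) .no .no) .no)) .no .no) .no) .no .no) .no)) (.br (.br .no .no (.br .no (.br .no .no (.br (.br .no .no .no (.br .no .no (.br .no (.br (.br .no .no .no (.br .no (.br .no (.br (.br .no .no .no (.br .no .no (.de 44) .no)) .no .no .no) (.br (.br .no .no .no (.br .no .no (.de 44) .no)) (.de 42) .no .no) .no) .no .no)) .no .no (.br (.br .no (.br .no (.br (.br .no .no .no (.br (.br .no (.br .no .no (.br .no .no .no (.sw 0 2 [22,28])) (.br .no .no (.br .no .no (.de 43) .no) .no)) (.br .no .no .no (.br .no .no (.br .no .no (.de 43) .no) .no)) .no) .no (.de 44) .no)) .no .no .no) (.br (.br .no .no .no (.br (.br .no (.br .no .no (.br .no .no .no (.br .no (.br .no .no (.de 44) .no) .no .no)) (.de 41)) (.br .no .no .no (.de 41)) .no) .no (.de 44) .no)) (.de 42) .no .no) .no) .no .no) .no .no .no)) .no (.br (.br .no .no .no (.br .no (.br .no (.br (.br .no (.br .no .no (.br .no (.br (.br .no .no (.br .no .no (.br .no .no .no (.de 44)) .no) (.de 47)) .no (.br .no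 .no .no (.sw 0 2 [22,28])) .no) .no .no) .no) .no .no) .no .no .no) (.br (.br .no (.br .no .no (.br .no (.br (.br .no .no .no (.de 47)) .no (.br .no .no .no (.br .no (.br .no .no (.br .no .no .no (.de 45)) (.de 44)) .no .no)) .no) .no .no) .no) .no .no) (.de 42) .no .no) .no) .no .no)) .no .no .no)) .no)) (.br (.br .no .no (.br .no (.br (.br .no .no .no (.br (.br .no .no (.br .no (.de 42) .no (.br (.br .no .no (.br .no (.br .no .no (.br .no .no .no (.sy 40 78 5)) .no) .no .no) (.br .no (.br .no .no (.br .no .no .no (.br .no (.br .no .no (.de 44) .no) .no .no)) .no) (.de 45) .no)) .no .no .no)) (.br .no (.br (.br .no .no (.br .no (.br .no .no (.de 41) .no) .no .no) (.br .no (.br .no .no (.de 41) .no) (.de 45) .no)) .no .no (.br .no .no (.de 44) .no)) .no .no)) .no .no .no)) .no .no (.br (.de 34) .no .no .no)) .no (.br (.br .no .no .no (.br (.br .no .no (.br .no (.de 42) .no (.br (.br .no (.br .no .no (.br .no (.br .no .no .no (.sy 31 57 12)) .no .no) .no) (.sw 1 3 [31]) .no) (.br .no .no (.br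 .no (.br .no .no (.br .no .no .no (.sy 40 75 5)) .no) .no .no) .no) .no .no)) (.br .no (.br (.br .no (.br .no .no (.br .no (.br .no .no (.sy 38 147 5) .no) .no .no) .no) (.sw 1 3 [31]) .no) .no .no .no) .no .no)) .no .no .no)) .no .no .no)) (.br .no (.br (.br .no .no .no (.br (.br .no .no (.br .no (.de 42) .no .no) (.br .no (.sw 0 2 [22,29]) (.br (.br .no .no (.br .no (.br .no .no (.de 41) .no) .no .no) (.br .no (.br .no .no (.de 41) .no) (.de 45) .no)) .no .no .no) .no)) .no .no .no)) .no .no (.br (.de 34) .no .no .no)) .no .no)) .no .no (.sw 0 2 [22])) .no .no) .no) .no .no) (.br .no (.sw 0 2 [12,19]) (.br .no (.br (.br .no .no .no (.br .no .no (.br .no (.br (.br .no .no .no (.br .no .no (.br .no (.br (.br .no .no .no (.br .no .no (.de 44) .no)) .no .no .no) (.br (.br .no .no .no (.br .no .no (.de 44) .no)) (.de 42) .no .no) .no) .no)) .no .no .no) .no .no) .no)) (.br (.br .no .no (.br .no (.br (.br .no .no .no (.br (.sw 1 2 [26,27]) .no (.br .no .no (.br .no (.de 42) .no (.br (.br .no .no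 (.br .no (.br (.br .no .no .no (.de 47)) .no .no .no) .no .no) (.br .no (.sw 0 2 [12,19,26,32]) (.de 45) .no)) .no .no .no)) (.br .no (.br (.br .no .no (.br .no (.br (.de 41) .no .no .no) .no .no) (.br .no (.sw 0 2 [12,19,26,32]) (.de 45) .no)) .no .no (.br .no .no (.de 44) .no)) .no .no)) .no)) .no .no .no) .no .no) (.br .no (.br (.br .no .no .no (.br (.sw 1 2 [26,27]) .no (.br .no .no (.br .no (.de 42) .no .no) (.br .no (.sw 0 2 [22,29]) (.br (.br .no .no (.br .no (.br (.de 41) .no .no .no) .no .no) (.br .no (.sw 0 2 [12,19,26,32]) (.de 45) .no)) .no .no .no) .no)) .no)) .no .no .no) (.br (.br .no .no .no (.br (.sw 1 2 [26,27]) .no (.br .no .no (.br .no (.de 42) .no .no) (.br .no (.sw 0 2 [22,29]) (.br (.br .no (.br .no .no (.br (.de 41) (.br (.br .no (.br .no .no .no (.br .no .no (.br .no .no .no (.br (.br .no .no .no (.br .no .no (.sw 0 1 [5]) .no)) .no .no .no)) .no)) .no .no) .no .no .no) .no .no) .no) .no (.sw 1 2 [31])) (.br .no .no .no (.br .no (.br (.de 41) .no .no .no) (.de 45) .no))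 .no .no) .no)) .no)) (.br (.br .no .no (.br .no .no (.br .no (.de 42) .no .no) (.br .no (.sw 0 2 [22,29]) (.br (.br .no .no .no (.br .no .no (.de 45) .no)) (.br (.br .no .no (.br .no (.br (.br .no (.br .no .no .no (.sw 0 2 [22,29,36])) .no .no) .no .no .no) .no (.br (.de 47) .no .no .no)) (.br .no (.br (.br .no (.br .no .no .no (.sw 0 2 [22,29,36])) .no .no) .no .no .no) .no .no)) .no .no (.br .no .no (.de 45) .no)) .no .no) .no)) .no) .no .no (.sw 0 2 [12,19,26])) .no .no) .no)) .no .no (.sw 0 2 [22])) .no .no) .no .no) .no)) .no .no (.br .no .no (.br .no (.br .no .no (.br (.br .no .no .no (.br (.br .no (.br (.br .no .no .no (.br .no (.br .no (.br .no .no (.de 42) .no) (.br .no (.de 42) .no .no) .no) .no .no)) .no .no (.sw 0 2 [12,19,25])) .no .no) .no (.sw 0 1 [23]) .no)) (.br (.br .no .no (.br (.br .no .no .no (.br (.de 34) .no .no .no)) (.sw 0 3 [24]) .no .no) .no) .no .no (.sw 0 2 [22])) .no .no) .no) .no .no) .no)) .no .no) .no)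

def c3_0_1 : Cert := (.br .no .no (.br .no .no .no (.br (.br .no .no .no (.br .no .no (.br .no (.br (.br (.br .no (.br .no .no (.br (.br .no .no .no (.br .no .no (.br .no (.br .no .no (.br (.br .no (.br .no .no (.br (.br .no .no .no (.de 41)) (.br (.br .no .no .no (.de 47)) .no .no (.de 41)) .no .no) .no) .no (.br .no (.br (.br .no .no .no (.de 41)) .no .no .no) (.de 44) .no)) .no .no (.br .no (.br .no .no (.br (.br .no .no .no (.de 41)) (.br (.br .no .no .no (.de 47)) .no .no (.de 41)) .no .no) .no) .no .no)) (.br (.br .no (.br .no .no (.br (.br .no .no .no (.de 46)) (.br (.br .no .no (.br .no (.br .no .no (.br .no .no .no (.de 45)) (.de 44)) (.br .no .no .no (.de 44)) .no) .no) .no .no (.br .no .no (.br .no (.br .no .no (.br .no .no .no (.de 45)) (.de 44)) (.br .no .no .no (.de 44)) .no) .no)) .no .no) .no) .no (.br .no (.br (.br .no .no .no (.de 46)) .no .no .no) (.de 44) .no)) .no .no .no)) .no (.br .no .no (.br (.br .no (.br .no .no (.br (.br .no (.de 41) .no .no) (.br (.br .no (.br .no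 (.br .no .no (.br .no .no .no (.de 45)) (.de 44)) .no .no) .no .no) .no .no .no) .no .no) .no) .no (.br .no (.br (.br .no (.de 41) .no .no) .no .no .no) (.de 44) .no)) .no .no (.br .no (.br .no .no (.br (.br .no (.de 41) .no .no) (.br (.br .no (.br .no (.br .no .no (.sw 0 3 [36]) .no) .no .no) .no .no) .no .no .no) .no .no) .no) .no .no)) (.br (.br .no (.br .no .no (.br (.br .no (.br .no .no (.br .no (.br .no .no (.br .no .no .no (.de 45)) (.de 44)) (.br .no .no .no (.de 44)) .no) .no) .no .no) (.br (.br .no (.br .no (.br .no .no (.br .no .no .no (.de 45)) (.de 44)) (.br .no .no .no (.de 44)) .no) (.sw 1 3 [34]) .no) .no .no .no) .no .no) .no) .no (.br .no (.br (.br .no (.br .no .no (.br .no (.br .no .no (.de 44) .no) (.de 43) .no) .no) .no .no) .no .no .no) (.de 44) .no)) .no .no .no))) .no)) (.br (.br .no .no (.br .no (.br .no .no (.br (.br .no .no .no (.br .no .no (.de 44) .no)) .no .no (.br (.br .no .no (.br .no (.br (.br .no .no .no (.de 47)) .no .no (.de 41)) .no (.de 45)) (.br .no (.br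 (.br .no .no .no (.de 47)) .no .no (.de 41)) .no .no)) .no .no .no)) (.br (.br .no .no .no (.br .no .no (.de 44) .no)) .no .no .no)) .no (.br .no .no (.br (.br .no .no .no (.br .no .no (.de 44) .no)) .no .no (.br (.br .no .no (.br .no (.br (.br .no (.br .no (.br .no .no (.br .no .no .no (.de 45)) .no) .no .no) .no .no) .no .no .no) .no (.de 45)) (.br .no (.br (.br .no (.br .no (.br .no .no (.de 44) .no) .no .no) .no .no) .no .no .no) .no .no)) .no .no .no)) (.br (.br .no .no .no (.br .no .no (.de 44) .no)) .no .no .no))) (.br .no (.br .no .no (.br (.br .no .no .no (.br .no .no (.de 44) .no)) .no .no (.br (.br .no .no (.br .no (.br (.sw 2 3 [33]) .no (.br .no .no .no (.sy 40 78 5)) .no) .no .no) (.br .no (.sw 0 2 [12,19,25,32]) (.de 45) .no)) .no .no .no)) (.br (.br .no .no .no (.br .no .no (.de 44) .no)) .no .no .no)) .no .no)) .no .no (.sw 0 2 [12,19,25])) .no .no) .no) (.br .no (.br (.br .no .no .no (.br .no .no (.br .no (.br .no (.br (.br .no .no (.br .no (.br (.br .no .no .no (.de 46)) .no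 .no .no) .no .no) (.br .no (.sw 0 2 [12,19,25,31]) (.de 44) .no)) .no .no (.br .no .no (.de 43) .no)) .no (.br (.br .no .no (.br .no (.br (.br .no .no .no (.de 46)) .no .no .no) .no .no) (.sw 1 2 [29,30])) .no .no .no)) .no (.br .no (.br (.br .no .no (.br .no (.br (.br .no (.br .no .no (.br .no .no (.br .no .no .no (.de 44)) .no) .no) .no .no) .no .no .no) .no .no) (.br .no (.sw 0 2 [12,19,25,31]) (.de 44) .no)) .no .no (.br .no .no (.de 43) .no)) .no (.br (.br .no .no (.br .no (.br (.br .no (.br .no .no (.br .no (.br .no .no .no (.de 44)) (.br .no .no .no (.de 44)) .no) .no) .no .no) .no .no .no) .no .no) (.sw 1 2 [29,30])) .no .no .no))) .no)) .no .no .no) .no .no) .no) (.br .no .no (.br .no (.br (.br .no .no .no (.br .no .no (.br .no .no .no (.br (.br .no .no .no (.br .no .no (.de 43) .no)) .no .no (.br (.br .no .no (.br .no (.br (.br .no (.br (.br .no (.br .no .no .no (.de 44)) (.de 48) .no) .no (.sw 0 1 [28]) .no) .no .no) .no .no .no) .no .no) (.br .no (.sw 0 2 [12,19,25,31]) (.de 44) .no))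 .no .no .no))) .no)) .no .no .no) .no .no) .no) .no .no) .no .no .no) .no .no) .no)) .no .no .no)) (.br .no .no (.br (.br .no .no .no (.br .no .no (.br .no (.br (.br (.br .no (.br .no .no (.br (.br .no .no .no (.br .no .no (.br .no (.sw 2 3 [21,22]) .no .no) .no)) (.br (.br .no .no (.br .no (.sw 2 3 [21,22]) .no .no) (.br .no (.sw 2 3 [21,22]) (.br .no .no (.br (.br .no .no .no (.br .no .no (.de 44) .no)) .no .no (.br (.br .no .no (.br .no (.br (.br .no (.sw 2 3 [21,22,33,34]) .no (.de 47)) .no .no .no) .no .no) (.br .no (.sw 0 2 [12,19,25,32]) (.de 45) .no)) .no .no .no)) (.br (.br .no .no .no (.br .no .no (.de 44) .no)) .no .no .no)) .no)) .no .no (.sw 0 2 [12,19,25])) .no .no) .no) .no (.br .no (.br (.br .no .no .no (.br .no .no (.br .no (.br .no (.br (.sw 2 3 [21,22,29]) .no (.de 42) .no) (.br (.br .no .no (.br .no (.br (.br .no .no .no (.de 41)) .no .no .no) .no .no) (.br .no (.sw 0 2 [12,19,25,31]) (.de 44) .no)) .no .no .no) .no) .no .no) .no)) .no .no .no) (.br (.br .no .no .no (.br .no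 .no (.br .no (.br .no (.br (.br .no (.br .no .no (.br (.br .no .no .no (.de 46)) (.br (.br .no .no (.br .no .no (.br .no .no .no (.de 44)) .no) (.de 47)) .no .no (.br .no .no (.br .no .no (.br .no .no .no (.de 44)) .no) .no)) .no .no) .no) .no (.sw 1 2 [30])) .no .no .no) (.br (.sw 1 3 [29]) (.de 42) .no .no) .no) .no .no) .no)) (.br (.br .no .no (.br .no (.br .no (.br (.br .no .no .no (.br .no .no (.de 44) .no)) .no .no .no) (.br (.sw 1 3 [29]) (.de 42) .no .no) .no) .no .no) (.br .no (.br .no (.br (.br .no .no .no (.br .no .no (.de 44) .no)) .no .no .no) (.br (.sw 1 3 [29]) (.de 42) .no .no) .no) (.br .no (.br (.br .no .no .no (.br .no .no (.de 44) .no)) .no .no .no) (.br (.sw 1 3 [29]) (.de 42) .no .no) .no) .no)) .no .no (.sw 0 2 [12,19,25])) .no .no) .no)) (.br .no .no .no (.br .no (.br (.br .no .no .no (.br .no .no (.de 34) .no)) .no .no .no) (.br (.br .no .no .no (.br .no .no (.de 34) .no)) (.br (.br .no .no (.de 34) (.br .no .no (.br (.br .no (.br (.br .no .no (.br .no (.br (.br .no .no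 .no (.de 47)) .no .no .no) .no .no) (.br .no (.sw 0 2 [12,19,25,32]) (.de 45) .no)) .no .no (.br .no .no (.de 44) .no)) .no .no) .no (.br (.br .no .no .no (.br .no .no (.de 44) .no)) (.de 42) .no .no) .no) .no)) .no .no (.sw 0 2 [12,19,25])) .no .no) .no)) .no .no) .no (.br (.br .no (.br .no .no (.br (.br .no .no .no (.br (.br .no (.sy 33 228 5) .no .no) .no .no .no)) (.br (.br .no .no .no (.br .no (.sw 0 2 [27]) .no .no)) .no .no (.sw 0 2 [12,19,25])) .no .no) .no) .no (.br .no (.br (.br .no .no .no (.br (.br .no (.br .no (.br (.br .no .no (.br .no (.br .no .no (.br .no .no .no (.br .no .no (.br .no .no (.br .no .no .no (.de 44)) .no) .no)) .no) .no .no) (.br .no (.sw 0 2 [12,19,25,31]) (.de 44) .no)) .no (.de 42) .no) (.br (.br .no .no (.br .no (.br .no .no (.br .no .no .no (.de 41)) .no) .no .no) (.br .no (.sw 0 2 [12,19,25,31]) (.de 44) .no)) .no .no .no) .no) .no .no) .no .no .no)) .no .no .no) (.br (.br .no .no .no (.br (.br .no (.br .no (.br (.br .no (.br .no .no (.br .no (.br .no .no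 (.br .no .no .no (.sy 37 147 5)) (.sw 0 2 [27,33])) .no .no) .no) .no (.sw 1 2 [30])) .no .no .no) (.br (.sw 1 3 [29]) (.de 42) .no .no) .no) .no .no) .no .no .no)) (.br (.br .no .no .no (.br .no (.sw 0 2 [27]) .no .no)) .no .no (.sw 0 2 [12,19,25])) .no .no) .no)) (.br .no .no .no (.br .no (.br (.br .no .no .no (.br (.de 34) .no .no .no)) .no .no .no) (.br (.br .no .no .no (.br (.de 34) .no .no .no)) (.br (.br .no .no .no (.br (.br (.br .no (.br (.br .no .no (.br .no (.br .no .no (.br .no .no .no (.br .no .no (.de 48) .no)) .no) .no .no) (.br .no (.sw 0 2 [12,19,25,32]) (.de 45) .no)) .no .no (.br .no .no (.de 44) .no)) .no .no) .no (.br (.br .no .no .no (.br .no .no (.de 44) .no)) (.de 42) .no .no) .no) .no .no .no)) .no .no (.sw 0 2 [12,19,25])) .no .no) .no)) .no .no) .no) .no .no) .no)) .no .no (.br (.br .no .no (.br .no (.br (.br (.br .no (.br .no .no (.br .no (.sw 0 3 [23,24]) .no (.br (.br .no .no (.br .no (.br .no .no (.br (.br .no (.br .no .no (.br .no (.sw 0 3 [23,24,31,32]) .no (.de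 45)) .no) .no .no) .no .no (.br (.br .no (.br .no .no .no (.br (.de 46) .no .no .no)) (.sw 1 3 [31]) .no) (.br .no .no (.br .no (.sw 0 3 [23,24,31,32]) .no (.de 45)) .no) .no .no)) (.br (.br .no (.br .no .no (.br .no (.sw 0 3 [23,24,31,32]) .no (.de 45)) .no) .no .no) .no .no .no)) .no .no) (.br .no (.br .no .no (.br (.br .no (.br .no .no (.br .no (.br (.sw 2 3 [33]) .no (.br .no .no .no (.br .no (.br .no .no (.br .no .no .no (.de 45)) (.de 44)) .no .no)) .no) .no .no) .no) .no .no) .no .no (.br (.br .no (.br .no .no (.br (.br .no .no .no (.de 47)) .no .no .no) .no) (.sw 1 3 [31]) .no) (.br .no .no (.br .no (.br (.sw 2 3 [33]) .no (.br .no .no .no (.sy 40 75 5)) .no) .no .no) .no) .no .no)) (.br (.br .no (.br .no .no (.br .no (.br (.sw 2 3 [33]) .no (.de 41) .no) .no .no) .no) .no .no) .no .no .no)) (.br .no .no (.br (.br .no (.br .no .no (.br .no (.br (.br .no (.br .no (.br .no .no (.br .no .no .no (.de 45)) (.de 44)) .no .no) .no (.de 47)) .no .no .no) .no .no) .no) .no .no) .no .no (.br (.br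 .no (.br .no .no (.br (.br .no (.br .no (.br .no .no (.br .no .no .no (.de 45)) .no) .no .no) .no (.de 47)) (.br .no .no .no (.br .no (.br .no .no (.br .no .no .no (.de 45)) .no) .no .no)) .no .no) .no) (.sw 1 3 [31]) .no) (.br .no .no (.br .no (.br (.br .no (.br .no (.br .no .no (.sw 0 3 [36]) .no) .no .no) .no (.de 47)) .no .no .no) .no .no) .no) .no .no)) (.br (.br .no (.br .no .no (.br .no (.br (.br .no (.br .no (.br .no .no (.br .no .no .no (.de 45)) (.de 44)) (.br .no .no .no (.de 44)) .no) .no .no) .no .no .no) .no .no) .no) .no .no) .no .no .no)) .no)) .no .no .no)) .no) .no .no) (.br (.br .no (.br .no .no .no (.br (.br .no .no (.de 34) (.br .no .no (.br .no .no (.br .no .no .no (.br (.br .no (.br .no .no (.br (.br .no .no .no (.de 47)) (.br (.de 48) .no .no (.br .no (.br .no .no (.br .no .no .no (.de 45)) .no) .no .no)) .no .no) .no) (.br .no (.br (.br .no .no .no (.de 47)) .no .no .no) .no .no) .no) .no (.de 43) .no)) (.br .no .no (.br (.br .no (.br .no .no (.br (.de 41) (.br (.br .no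 (.br .no .no .no (.br .no .no (.br .no .no .no (.br (.br .no .no .no (.br .no .no (.sw 0 1 [5]) .no)) .no .no .no)) .no)) .no .no) .no .no .no) .no .no) .no) (.br .no (.br (.de 41) .no .no .no) .no .no) .no) .no .no .no) .no)) .no)) .no .no .no)) (.br .no (.br (.br .no .no (.de 34) (.br .no .no (.br .no .no (.br .no (.de 42) .no (.br (.br .no .no (.br .no (.br (.br .no .no .no (.de 47)) .no .no .no) .no .no) (.br .no (.br (.br .no .no .no (.de 47)) .no .no .no) (.de 45) .no)) .no .no .no)) (.br .no (.br (.br .no .no (.br .no (.br (.de 41) .no .no .no) .no .no) (.br .no (.br (.de 41) .no .no .no) (.de 45) .no)) .no .no (.br .no .no (.de 44) .no)) .no .no)) .no)) .no .no (.br .no .no (.de 34) .no)) .no (.br (.br .no .no (.de 34) (.br .no .no (.br .no .no (.br .no (.de 42) .no (.br (.sw 1 2 [30]) (.br .no .no (.br .no (.br (.br .no .no .no (.de 47)) .no .no .no) .no .no) .no) .no .no)) (.br .no (.br (.br .no (.br .no .no (.br (.de 41) (.br (.br .no .no (.de 48) .no) .no .no .no) .no .no) .no) (.sw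 1 3 [31]) .no) .no .no .no) .no .no)) .no)) .no .no .no)) .no) .no .no .no) .no .no) .no (.sy 27 78 5) .no) .no .no) (.br .no (.sw 0 2 [12,19]) (.br (.br (.br .no (.br .no .no (.br .no (.br (.br .no (.br .no .no (.br .no .no (.br (.br .no .no .no (.br .no .no (.de 44) .no)) .no .no (.br (.br .no .no (.br .no .no .no (.de 45)) (.br .no .no (.de 45) .no)) .no .no .no)) (.br (.br .no .no .no (.br .no .no (.de 44) .no)) .no .no .no)) .no) .no (.sw 1 2 [26])) .no .no .no) .no .no) .no) .no .no) (.br (.br .no (.br .no .no (.br (.br .no (.br .no .no (.br .no .no (.br .no .no .no (.br (.br .no (.br .no .no (.br (.br .no .no .no (.de 47)) .no .no (.br (.de 47) .no .no .no)) (.br (.de 46) .no .no .no)) .no (.br .no .no (.de 45) .no)) .no .no .no)) (.br .no .no (.br (.br .no (.br .no .no (.br (.de 41) .no .no (.br (.de 47) .no .no .no)) (.br (.de 41) .no .no .no)) .no (.br .no .no (.de 45) .no)) .no .no (.de 43)) .no)) .no) .no (.sw 1 2 [26])) (.br .no .no .no (.br .no .no (.br .no .no (.br .no .no .no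 (.br (.br .no .no .no (.br (.sw 1 2 [26,30,31,32]) .no (.de 45) .no)) .no .no .no)) (.br .no .no (.br (.br .no .no .no (.br (.br .no (.br (.br .no (.br .no .no .no (.br .no .no (.de 45) .no)) .no .no) .no .no .no) .no .no) .no (.de 45) .no)) .no .no (.de 43)) .no)) .no)) .no .no) .no) (.br .no (.br (.br .no (.br .no .no (.br .no .no (.br .no (.de 42) .no (.br (.br .no .no (.br .no .no .no (.de 45)) (.sw 1 2 [30,31])) .no .no .no)) (.br .no (.br (.br .no .no (.br .no .no .no (.de 45)) (.br .no .no (.de 45) .no)) .no .no (.br .no .no (.de 44) .no)) .no .no)) .no) .no (.sw 1 2 [26])) .no .no .no) .no .no) .no) .no .no .no) .no .no) .no .no .no) .no)) .no .no .no)) .no))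

def c3_0_2 : Cert := (.br .no .no (.br .no (.br (.br .no .no (.br .no (.br .no .no (.br .no .no .no (.br (.br .no .no (.br .no (.br (.br .no .no .no (.br (.br .no (.br .no (.br (.br .no .no (.br .no (.br .no .no (.br .no .no .no (.br .no .no (.br .no .no (.br .no .no .no (.de 44)) .no) .no)) .no) .no .no) (.br .no (.br .no .no (.br .no .no .no (.br .no .no (.br .no .no (.de 43) .no) .no)) .no) (.de 44) .no)) .no .no (.br .no .no (.de 43) .no)) .no (.br (.br .no .no (.br .no (.br .no .no (.br .no .no .no (.br .no .no (.sy 39 78 5) .no)) .no) .no .no) (.br .no (.br .no .no (.br .no .no .no (.br .no .no (.br .no (.br .no .no (.de 44) .no) (.de 43) .no) .no)) .no) (.de 44) .no)) .no .no .no)) .no .no) (.de 34) .no .no)) .no .no (.br (.br .no (.de 34) .no .no) .no .no .no)) .no (.br (.br .no .no .no (.br (.br .no (.br .no (.br (.br .no (.br .no .no (.br .no (.br .no .no (.br .no .no .no (.sy 37 147 5)) (.br .no .no (.br .no .no (.br .no .no .no (.de 44)) .no) .no)) .no .no) .no) (.sw 1 3 [30]) .no)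 .no .no .no) .no (.br (.br .no (.br .no .no (.br .no (.br .no .no (.de 41) (.br .no .no (.sy 30 57 12) .no)) .no .no) .no) (.sw 1 3 [30]) .no) (.br .no .no (.br .no (.br .no .no (.br .no .no .no (.br .no .no (.sy 39 75 5) .no)) .no) .no .no) .no) .no .no)) .no .no) (.de 34) .no .no)) .no .no .no)) (.br .no (.br (.br .no .no .no (.br (.br .no (.br .no (.br (.sw 2 3 [29]) .no (.de 42) .no) (.br (.br .no .no (.br .no (.br .no .no (.br .no .no .no (.de 41)) .no) .no .no) (.br .no (.sw 0 2 [12,18,23,24,31]) (.de 44) .no)) .no .no .no) .no) .no .no) (.de 34) .no .no)) .no .no (.sw 0 2 [12,18,23,24])) .no .no)) .no .no (.br .no .no (.br .no (.br (.br .no .no .no (.br (.br .no (.br (.br .no .no .no (.br .no .no (.de 43) .no)) (.br (.br .no .no (.br .no (.br .no .no (.br .no .no .no (.br (.de 47) .no (.sw 0 3 [28]) .no)) .no) .no .no) (.br .no (.br .no .no (.br .no .no .no (.br (.de 47) .no (.sw 0 3 [28]) .no)) .no) (.de 44) .no)) .no .no (.br .no .no (.de 43) .no)) .no .no) .no .no) (.br (.br (.br .no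 .no .no (.br .no .no (.de 43) .no)) (.br (.br .no .no (.br .no (.br (.br .no .no (.de 41) (.de 46)) .no (.br .no .no .no (.br .no .no (.sw 0 1 [33,34]) .no)) .no) .no .no) (.br .no (.br (.br .no .no (.de 41) (.de 46)) .no (.br .no .no .no (.br .no .no (.sw 0 1 [33,34]) .no)) .no) (.de 44) .no)) .no .no (.br .no .no (.de 43) .no)) .no .no) .no .no .no) .no .no)) .no .no (.br (.br .no (.br (.br (.br .no .no .no (.br (.br .no (.br .no .no (.br .no .no .no (.br .no (.br .no (.br .no .no (.br .no .no .no (.de 45)) .no) (.de 43) .no) (.de 48) .no)) (.br .no .no (.br .no (.br .no (.br .no .no (.br .no .no .no (.br .no .no (.br (.br .no .no .no (.br .no .no (.sw 0 1 [5]) .no)) .no .no .no) .no)) .no) (.de 43) .no) .no .no) .no)) (.br .no .no .no (.de 45)) .no) .no (.de 43) .no)) (.br (.br .no .no (.br .no (.br .no .no (.sw 0 3 [31,32]) (.br .no .no (.de 41) .no)) .no .no) .no) .no .no (.sw 0 2 [12,18,23,24,29])) .no .no) .no .no .no) .no .no) .no .no .no)) .no (.br (.br .no .no .no (.br (.br .no (.sy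 30 57 5) .no .no) (.br (.br (.br .no (.br .no .no (.br .no (.br (.br .no .no (.br .no (.br .no .no (.de 48) .no) .no .no) (.de 46)) .no (.br .no .no .no (.br .no (.sy 36 147 5) (.de 48) .no)) .no) .no .no) .no) .no .no) (.br (.br .no (.br .no .no (.br (.br .no .no (.de 41) (.de 46)) .no .no .no) .no) (.sw 1 3 [30]) .no) .no .no .no) .no .no) .no .no .no) .no .no)) .no .no .no)) .no))) .no) .no .no) (.br .no (.sw 0 2 [12,18]) (.br .no (.br .no .no .no (.br (.br .no .no (.br .no (.br (.br .no .no .no (.br (.sw 1 2 [25,26]) .no (.br .no (.br .no (.br (.br .no .no (.br .no (.br (.br .no .no .no (.de 46)) .no .no .no) .no .no) (.br .no (.sw 0 2 [12,18,25,31]) (.de 44) .no)) .no .no (.br .no .no (.de 43) .no)) .no (.br (.br .no .no (.br .no (.br (.br .no .no .no (.de 46)) .no .no .no) .no .no) (.br .no (.sw 0 2 [12,18,25,31]) (.de 44) .no)) .no .no .no)) .no .no) .no)) .no .no .no) .no .no) (.br .no (.br (.br .no .no .no (.br (.sw 1 2 [25,26]) .no (.br .no (.br .no (.br (.sw 2 3 [29]) .no (.de 42)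 .no) (.br (.br .no .no (.br .no (.br (.br .no .no .no (.de 41)) .no .no .no) .no .no) (.br .no (.sw 0 2 [12,18,25,31]) (.de 44) .no)) .no .no .no) .no) .no .no) .no)) .no .no .no) (.br (.br .no .no .no (.br (.sw 1 2 [25,26]) .no (.br .no (.br .no (.br (.br .no (.br .no .no (.br (.br .no .no .no (.de 46)) (.br (.br .no .no (.br .no .no (.br .no .no .no (.de 44)) .no) (.de 47)) .no .no (.sw 0 2 [33])) .no .no) .no) .no (.sw 1 2 [30])) .no .no .no) (.br (.br .no (.br .no .no (.br (.br .no .no .no (.de 41)) (.br (.br .no .no .no (.de 47)) .no .no (.de 41)) .no .no) .no) .no (.sw 1 2 [30])) (.de 42) .no .no) .no) .no .no) .no)) (.br (.br .no .no (.br .no (.br .no (.br (.br .no .no .no (.br .no .no (.de 44) .no)) .no .no .no) (.br (.br .no .no .no (.br .no .no (.de 44) .no)) (.de 42) .no .no) .no) .no .no) .no) .no .no (.sw 0 2 [12,18,25])) .no .no) .no)) .no .no (.br .no .no (.br .no (.br (.br .no .no .no (.br (.sw 1 2 [25,26]) .no (.br (.br (.br .no .no .no (.br .no .no (.de 43) .no)) (.br (.br .no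 .no (.br .no (.br (.br .no (.br .no .no (.br .no .no (.br .no .no .no (.de 44)) .no) .no) .no (.de 46)) .no .no .no) .no .no) (.br .no (.sw 0 2 [12,18,25,31]) (.de 44) .no)) .no .no (.br .no .no (.de 43) .no)) .no .no) (.br (.br .no .no .no (.br .no .no (.de 43) .no)) (.br (.br .no .no (.br .no (.br (.br .no .no .no (.de 46)) .no .no .no) .no .no) (.br .no (.sw 0 2 [12,18,25,31]) (.de 44) .no)) .no .no (.br .no .no (.de 43) .no)) .no .no) .no .no) .no)) .no .no .no) .no .no) .no))) .no .no) .no)) .no (.br .no .no .no (.br .no (.sw 0 2 [12,18]) (.br .no (.br .no .no .no (.br (.br .no .no .no (.br (.br .no (.br (.br .no .no (.br .no (.br .no (.br .no .no (.de 42) .no) (.br .no (.de 42) .no .no) .no) .no .no) .no) .no .no (.sw 0 2 [12,18,25])) .no .no) (.sw 0 2 [23]) .no .no)) .no .no (.br (.br .no (.br (.br .no .no .no (.br (.sw 1 2 [25,26]) .no (.br (.br .no (.br .no .no (.de 42) (.sw 0 2 [23,29])) (.br .no .no .no (.br .no .no (.de 43) .no)) .no) (.br .no (.br .no .no (.de 42) (.sw 0 2 [23,29]))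 (.br .no .no .no (.br .no .no (.de 43) .no)) .no) .no .no) .no)) .no .no .no) .no .no) .no .no .no))) .no .no) .no)) .no) .no .no) (.br .no (.br (.br .no .no (.br .no (.br .no .no (.de 27) .no) .no .no) (.br .no (.sw 0 2 [12,18]) (.br .no (.br .no .no (.br (.br .no .no (.br .no (.br (.br .no .no .no (.br (.br .no (.sw 2 3 [21,27]) .no .no) .no .no .no)) .no .no .no) .no .no) (.br .no (.br (.br .no .no .no (.br (.br .no (.sw 2 3 [21,27]) .no .no) .no .no .no)) .no .no .no) (.br (.br .no .no .no (.br (.br .no (.sw 2 3 [21,27]) .no .no) .no .no .no)) (.br (.br .no .no .no (.br .no (.br .no (.br (.br .no .no .no (.br .no .no (.de 44) .no)) .no .no .no) (.br (.br .no .no .no (.br .no .no (.de 44) .no)) (.de 42) .no .no) .no) .no .no)) .no .no (.sw 0 2 [12,18,25])) .no .no) .no)) .no (.br .no .no .no (.br .no (.br (.br .no .no .no (.br (.br .no (.br (.br .no .no (.br .no .no .no (.de 43)) .no) (.br (.br .no .no (.br .no (.br .no .no (.br .no .no .no (.br (.de 47) .no .no .no)) .no) .no .no) (.br .no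 (.sw 0 2 [12,18,25,31]) (.de 44) .no)) .no (.de 42) .no) .no .no) .no .no) .no .no .no)) .no .no .no) (.br (.br .no .no .no (.br (.br .no (.br (.br .no (.br .no .no .no (.br .no (.sw 0 2 [12,18,23,25,30,31]) (.de 44) .no)) .no .no) (.br (.br .no (.br .no .no (.br .no (.br .no .no (.br (.sy 37 210 5) .no .no (.sw 0 2 [28])) (.br (.de 47) .no .no .no)) .no .no) .no) .no (.sw 1 2 [30])) .no .no .no) .no .no) .no .no) .no .no .no)) (.br (.br .no .no .no (.br (.br (.br .no (.br (.br .no .no (.br .no (.br .no .no (.br .no (.sy 41 225 5) .no (.br .no .no (.de 48) .no)) .no) .no .no) (.br .no (.sw 0 2 [12,18,25,32]) (.de 45) .no)) .no .no (.br .no .no (.de 44) .no)) .no .no) (.br (.br .no .no .no (.br .no .no (.de 44) .no)) .no .no .no) .no .no) (.br (.br .no (.br (.br .no .no (.br .no (.br (.br .no .no .no (.de 47)) .no (.br .no .no .no (.sw 0 1 [34])) .no) .no .no) (.br .no (.sw 0 2 [12,18,25,32]) (.de 45) .no)) .no .no (.br .no .no (.de 44) .no)) .no .no) (.br (.br .no .no .no (.br .no .no (.de 44)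 .no)) .no .no .no) .no .no) .no .no)) .no .no (.sw 0 2 [12,18,25])) .no .no) .no)) .no) .no) .no .no) .no)) .no (.br .no .no .no (.br .no (.sw 0 2 [12,18]) (.br .no (.br .no .no (.br (.br .no .no .no (.br (.br .no (.br (.br .no .no .no (.br .no (.br .no (.br .no .no (.de 42) .no) (.br .no (.de 42) .no .no) .no) .no .no)) .no .no (.sw 0 2 [12,18,25])) .no .no) (.sw 0 2 [23]) .no .no)) .no (.br (.br .no (.br (.br .no .no .no (.br (.br .no (.br .no (.br .no .no (.de 42) (.br .no .no (.de 43) .no)) .no (.br .no .no (.br .no .no .no (.de 43)) .no)) .no .no) .no .no .no)) .no .no .no) .no .no) .no .no (.br (.br .no (.br (.br .no .no .no (.br (.br (.br .no (.br .no .no (.br .no .no .no (.de 44)) (.sw 0 2 [23,30])) (.br .no .no .no (.de 43)) .no) (.br .no .no (.de 42) .no) .no .no) (.br (.br .no (.br .no .no (.br .no .no .no (.de 44)) (.sw 0 2 [23,30])) (.br .no .no .no (.de 43)) .no) (.br .no .no (.de 42) .no) .no .no) .no .no)) .no .no (.sw 0 2 [12,18,25])) .no .no) (.sw 0 2 [23]) .no .no)) .no) .no)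 .no .no) .no)) .no) (.br (.br .no .no (.br .no (.br .no .no (.de 27) .no) .no .no) (.br .no (.sw 0 2 [12,18]) (.br .no (.br .no .no (.br (.br .no (.br .no .no (.br (.br .no .no .no (.br (.br .no (.sy 33 228 5) .no .no) .no .no .no)) (.br (.br .no .no .no (.br .no (.br .no .no (.br (.br .no .no .no (.br .no .no (.de 44) .no)) .no .no (.br (.br .no .no (.br .no (.br (.br .no .no .no (.de 47)) .no (.br .no .no .no (.sy 40 78 5)) .no) .no .no) (.br .no (.sw 0 2 [12,18,25,32]) (.de 45) .no)) .no .no .no)) (.br (.br .no .no .no (.br .no .no (.de 44) .no)) .no .no .no)) .no .no)) .no .no (.sw 0 2 [12,18,25])) .no .no) .no) .no (.sw 1 2 [22])) (.br .no .no .no (.br .no (.br (.br .no .no .no (.br (.de 34) .no .no .no)) .no .no .no) (.br (.br .no .no .no (.br (.de 34) .no .no .no)) (.br (.br .no .no .no (.br (.br (.br .no (.br (.br .no .no (.br .no (.br .no .no (.br .no .no .no (.sw 1 2 [22,28])) .no) .no .no) (.br .no (.sw 0 2 [12,18,25,32]) (.de 45) .no)) .no .no (.br .no .no (.de 44) .no)) .no .no)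 .no (.br (.br .no .no .no (.br .no .no (.de 44) .no)) (.de 42) .no .no) .no) .no .no .no)) .no .no (.sw 0 2 [12,18,25])) .no .no) .no)) .no .no) .no) .no .no) .no)) .no .no .no) .no))

def c3_0_3 : Cert := (.br .no .no (.br .no (.br (.br .no .no .no (.br .no .no (.br .no (.br (.br (.br .no .no (.sw 1 3 [16,22]) (.br .no (.br (.br .no .no .no (.br .no .no (.br .no (.br .no (.br (.sw 2 3 [29]) .no (.de 42) .no) (.br (.br .no .no (.br .no (.br (.br .no .no .no (.de 41)) .no .no .no) .no .no) (.br .no (.sw 0 2 [12,19,25,31]) (.de 44) .no)) .no .no .no) .no) .no (.br .no (.br (.sw 2 3 [29]) .no (.de 42) .no) (.br (.br .no .no (.br .no (.br (.br .no (.de 41) .no .no) .no .no .no) .no .no) (.br .no (.sw 0 2 [12,19,25,31]) (.de 44) .no)) .no .no .no) .no)) .no)) .no .no .no) (.br (.br .no .no .no (.br .no .no (.br .no (.br .no (.br (.br .no (.br .no .no (.br (.br .no .no .no (.de 46)) (.br (.br .no .no (.br .no .no (.br .no .no .no (.de 44)) .no) (.de 47)) .no .no (.br .no .no (.br .no .no (.br .no .no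 .no (.de 44)) .no) .no)) .no .no) .no) .no (.sw 1 2 [30])) .no .no .no) (.br (.sw 1 3 [16,22,29]) (.de 42) .no .no) .no) .no (.br .no (.br (.br .no (.br .no .no (.br (.br .no (.br .no .no (.br .no .no (.br .no .no .no (.de 44)) .no) .no) .no .no) (.br (.br .no .no (.sw 1 3 [34]) .no) .no .no .no) .no .no) .no) .no (.sw 1 2 [30])) .no .no .no) (.br (.sw 1 3 [16,22,29]) (.de 42) .no .no) .no)) .no)) (.br (.br .no .no (.br .no (.br .no (.br (.br .no .no .no (.br .no .no (.de 44) .no)) .no .no .no) (.br (.sw 1 3 [16,22,29]) (.de 42) .no .no) .no) .no (.br .no (.br (.br .no .no .no (.br .no .no (.de 44) .no)) .no .no .no) (.br (.sw 1 3 [16,22,29]) (.de 42) .no .no) .no)) (.br .no (.br .no (.br (.br .no .no .no (.br .no .no (.de 44) .no)) .no .no .no) (.br (.sw 1 3 [16,22,29]) (.de 42) .no .no) .no) .no .no)) .no .no (.sw 0 2 [12,19,25])) .no .no) .no)) .no .no (.br .no .no (.br .no (.br (.br .no .no .no (.br .no .no (.br .no (.br (.br .no .no .no (.br .no .no (.de 43) .no)) (.br (.br .no .no (.br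 .no (.br (.br .no .no .no (.de 46)) .no .no .no) .no .no) (.br .no (.sw 0 2 [12,19,25,31]) (.de 44) .no)) .no .no (.br .no .no (.de 43) .no)) .no .no) .no .no) .no)) .no .no .no) .no .no) .no)) .no .no .no) .no .no) .no)) .no .no .no) .no .no) (.br .no (.br (.br .no .no .no (.br .no .no (.br .no (.br (.br (.br .no .no (.br .no (.br (.br .no .no .no (.br .no .no (.br .no (.sw 2 3 [21]) .no .no) .no)) .no .no .no) .no .no) (.br .no (.br (.br .no .no .no (.br .no .no (.br .no (.sw 2 3 [21]) .no .no) .no)) .no .no .no) (.br (.br .no .no .no (.br .no .no (.br .no (.sw 2 3 [21]) .no .no) .no)) (.br (.br .no .no (.br .no (.sw 2 3 [21]) .no .no) (.br .no (.sw 2 3 [21]) (.br .no (.br (.br .no .no .no (.br .no .no (.de 44) .no)) .no .no .no) (.br (.br .no .no .no (.br .no .no (.de 44) .no)) (.de 42) .no .no) .no) .no)) .no .no (.sw 0 2 [12,19,25])) .no .no) .no)) .no (.br .no .no .no (.br .no (.br (.br .no .no .no (.br .no .no (.br .no (.br (.br .no .no (.br .no .no .no (.de 43)) .no) (.br (.br .no .no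 (.br .no (.br (.br .no .no .no (.de 46)) .no .no .no) .no .no) (.br .no (.sw 0 2 [12,19,25,31]) (.de 44) .no)) .no (.de 42) .no) .no .no) .no .no) .no)) .no .no .no) (.br (.br .no .no .no (.br .no .no (.br .no (.br (.br .no (.br .no .no .no (.br .no (.br (.br .no .no .no (.de 41)) .no .no .no) (.de 44) .no)) .no .no) (.br (.br .no (.br .no .no (.br (.br .no .no .no (.de 46)) (.br (.br .no .no .no (.de 47)) .no .no (.br (.de 47) .no .no .no)) .no .no) .no) .no (.sw 1 2 [30])) .no .no .no) .no .no) .no .no) .no)) (.br (.br .no .no (.br .no (.br (.br .no (.br (.br .no .no (.br .no (.br (.br .no .no .no (.de 47)) .no .no (.de 41)) .no (.de 45)) (.br .no (.br (.br .no .no .no (.de 47)) .no .no (.de 41)) .no .no)) .no .no (.br .no .no (.de 44) .no)) .no .no) (.br (.br .no .no .no (.br .no .no (.de 44) .no)) .no .no .no) .no .no) .no .no) (.br .no (.br (.br .no (.br (.br .no .no (.br .no (.br (.sw 2 3 [33]) .no (.br .no .no .no (.br .no .no (.de 48) .no)) .no) .no .no) (.br .no (.sw 0 2 [12,19,25,32])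 (.de 45) .no)) .no .no (.br .no .no (.de 44) .no)) .no .no) (.br (.br .no .no .no (.br .no .no (.de 44) .no)) .no .no .no) .no .no) .no .no)) .no .no (.sw 0 2 [12,19,25])) .no .no) .no)) .no) .no (.br (.br .no .no (.br .no (.br (.br .no .no .no (.br (.br .no (.br .no (.br (.br .no .no (.br .no (.br .no .no (.br .no .no .no (.br .no .no (.br .no .no (.br .no .no .no (.de 44)) .no) .no)) .no) .no .no) (.br .no (.sw 0 2 [12,19,25,31]) (.de 44) .no)) .no .no (.br .no .no (.de 43) .no)) .no (.br (.br .no .no (.br .no (.br .no .no (.br .no .no .no (.br .no .no (.sy 39 78 5) .no)) .no) .no .no) (.br .no (.sw 0 2 [12,19,25,31]) (.de 44) .no)) .no .no .no)) .no .no) .no .no .no)) .no .no .no) .no .no) (.br .no (.br (.br .no .no .no (.br (.br .no (.br .no (.br (.sw 2 3 [29]) .no (.de 42) .no) (.br (.br .no .no (.br .no (.br .no .no (.br .no .no .no (.de 41)) .no) .no .no) (.br .no (.sw 0 2 [12,19,25,31]) (.de 44) .no)) .no .no .no) .no) .no .no) .no .no .no)) .no .no .no) (.br (.br .no .no .no (.br (.br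 .no (.br .no (.br (.br .no (.br .no .no (.br .no (.br .no .no (.br .no .no .no (.sy 37 147 5)) (.sw 0 2 [27,33])) .no .no) .no) .no (.sw 1 2 [30])) .no .no .no) (.br (.br .no (.br .no .no (.br .no (.br .no .no (.br .no .no .no (.br .no (.br .no .no (.br .no .no .no (.de 45)) (.de 44)) .no .no)) (.de 41)) .no .no) .no) .no (.sw 1 2 [30])) (.de 42) .no .no) .no) .no .no) .no .no .no)) (.br (.br .no .no .no (.br .no (.sw 0 2 [27]) .no .no)) .no .no (.sw 0 2 [12,19,25])) .no .no) .no)) .no (.br .no .no .no (.br .no (.br (.br .no .no .no (.br (.br .no (.br (.br .no .no (.br .no .no .no (.de 43)) .no) (.br (.br .no .no (.br .no (.br .no .no (.br .no .no .no (.br (.de 47) .no .no .no)) .no) .no .no) (.br .no (.sw 0 2 [12,19,25,31]) (.de 44) .no)) .no (.de 42) .no) .no .no) .no .no) .no .no .no)) .no .no .no) (.sw 0 1 [14,15,22,23]) .no)) .no) .no) .no .no) .no)) .no .no .no) (.br (.sw 1 3 [16]) (.br (.br .no .no (.br .no (.br (.br (.br .no .no .no (.br .no .no (.br .no (.br (.br .no .no (.br .no (.br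 .no (.br (.br .no .no .no (.br .no .no (.de 44) .no)) .no .no .no) (.br (.sw 1 3 [16,23,29]) (.de 42) .no .no) .no) .no .no) (.br .no (.br .no (.br (.br .no .no .no (.br .no .no (.de 44) .no)) .no .no .no) (.br (.sw 1 3 [16,23,29]) (.de 42) .no .no) .no) (.br .no (.br (.br .no .no .no (.br .no .no (.de 44) .no)) .no .no .no) (.br (.sw 1 3 [16,23,29]) (.de 42) .no .no) .no) .no)) .no .no (.br .no .no (.br .no (.br .no (.br (.br .no .no .no (.br (.br .no (.br (.br .no .no (.br .no .no (.de 43) .no) (.de 47)) .no .no (.br .no .no (.br .no .no (.de 43) .no) .no)) .no .no) .no (.de 44) .no)) .no .no .no) (.br (.sw 1 3 [16,23,29]) (.de 42) .no .no) .no) .no .no) .no)) .no (.br (.br .no .no (.br .no (.br .no (.br (.br .no (.br .no .no (.br .no (.br (.br .no .no (.br .no .no (.br .no .no .no (.de 44)) .no) (.de 47)) .no .no (.br .no .no (.br .no .no (.br .no .no .no (.de 44)) .no) .no)) .no (.de 45)) .no) .no .no) .no .no .no) (.br (.sw 1 3 [16,23,29]) (.de 42) .no .no) .no) .no .no) (.br .no (.br .no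 (.br (.br .no (.br .no .no (.br .no (.br (.sw 2 3 [33]) .no (.br .no .no .no (.sy 37 147 5)) .no) .no .no) .no) .no .no) .no .no .no) (.br (.sw 1 3 [16,23,29]) (.de 42) .no .no) .no) (.br .no (.br (.br .no (.br .no .no (.br .no (.br (.br .no .no .no (.de 47)) .no .no .no) .no .no) .no) .no .no) .no .no .no) (.br (.sw 1 3 [16,23,29]) (.de 42) .no .no) .no) .no)) .no .no .no)) .no)) (.br (.br .no .no (.sw 1 3 [16,23]) (.br .no (.br (.br .no .no (.de 34) (.br .no .no (.br .no .no (.br .no (.de 42) .no .no) (.br .no (.br (.sw 2 3 [30]) .no (.br .no .no .no (.de 44)) .no) (.br (.br .no .no (.sw 1 3 [16,23,30,31]) (.br .no (.br (.de 41) .no .no .no) (.de 45) .no)) .no .no .no) .no)) .no)) .no .no (.br .no .no (.de 34) .no)) .no .no)) .no .no (.br .no .no (.br .no (.br (.br .no .no (.de 34) (.br .no .no (.br (.br .no (.br (.br .no .no (.br .no (.br (.br .no .no .no (.de 47)) .no .no .no) .no .no) (.br .no (.br (.br .no .no .no (.de 47)) .no .no .no) (.de 45) .no)) .no .no (.br .no .no (.de 44) .no))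 .no .no) .no (.br (.br .no .no .no (.br .no .no (.de 44) .no)) (.de 42) .no .no) .no) .no)) .no .no (.br .no .no (.de 34) .no)) .no (.br (.br .no .no (.de 34) (.br .no .no (.br (.br .no (.br (.br .no (.br .no .no (.br (.sy 35 228 5) (.br .no .no .no (.br .no .no (.de 48) .no)) .no .no) .no) (.sw 1 3 [31]) .no) .no .no .no) .no .no) .no (.br (.br .no (.br .no .no (.br .no (.br (.br .no .no .no (.de 47)) .no .no .no) .no .no) .no) .no .no) (.de 42) .no .no) .no) .no)) .no .no .no)) .no)) .no .no) .no (.sw 0 1 [14,15]) .no) .no .no) (.br .no (.sw 0 2 [12,19]) (.br (.br (.br .no .no .no (.br .no .no (.br .no (.br (.br .no (.br .no .no (.br .no (.br (.br .no .no .no (.br .no .no (.de 44) .no)) .no .no .no) (.br (.sw 1 3 [16,23,29]) (.de 42) .no .no) .no) .no) .no (.sw 1 2 [26])) .no .no .no) .no .no) .no)) (.br (.br .no .no (.sw 1 3 [16,23]) (.br .no (.br (.br .no (.br .no .no (.br .no .no (.br .no (.de 42) .no .no) (.br .no (.br (.sw 2 3 [30]) .no (.br .no .no .no (.de 44)) .no) (.br (.br .no .no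 (.br .no .no .no (.de 45)) (.br .no .no (.de 45) .no)) .no .no .no) .no)) .no) .no (.sw 1 2 [26])) .no .no .no) (.br (.br .no (.br .no .no (.br .no .no (.br .no (.de 42) .no .no) (.br .no (.br (.br .no (.br .no .no (.br (.de 41) .no .no (.br (.de 47) .no .no .no)) (.br (.de 41) .no .no .no)) .no (.sw 1 2 [31])) .no .no .no) (.br (.sw 1 3 [16,23,30]) (.br .no .no .no (.br .no .no (.de 45) .no)) .no .no) .no)) .no) .no (.sw 1 2 [26])) (.br .no .no .no (.br .no .no (.sw 0 1 [14,15,27]) .no)) .no .no) .no)) .no .no (.br .no .no (.br .no (.br (.br .no (.br .no .no (.br (.br .no (.br (.br .no .no (.br .no .no .no (.de 45)) (.br .no .no (.de 45) .no)) .no .no (.br .no .no (.de 44) .no)) .no .no) .no (.br (.br .no .no .no (.br .no .no (.de 44) .no)) (.de 42) .no .no) .no) .no) .no (.sw 1 2 [26])) .no .no .no) .no .no) .no)) .no .no) .no .no .no) .no)) .no .no (.br .no .no (.br .no (.br (.br (.br .no .no .no (.br (.br .no (.br (.br .no .no (.br .no (.br .no (.br .no .no (.de 42) .no) (.br .no (.de 42)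 .no .no) .no) .no .no) (.br .no (.br .no (.br .no .no (.de 42) .no) (.br .no (.de 42) .no .no) .no) (.br .no (.br .no .no (.de 42) .no) (.br .no (.de 42) .no .no) .no) .no)) .no .no (.sw 0 2 [12,19,25])) .no .no) .no (.sw 0 1 [23]) .no)) (.br (.br .no .no (.br (.br .no .no .no (.br .no .no (.de 34) .no)) (.sw 0 3 [24]) .no .no) .no) .no .no (.br (.br .no (.br (.br .no .no (.de 34) (.br .no .no (.br (.br .no (.br .no .no (.br .no .no .no (.de 44)) (.br .no .no (.de 44) .no)) (.br .no .no .no (.de 43)) .no) .no (.br .no (.de 42) .no .no) .no) .no)) .no .no (.sw 0 2 [12,19,25])) .no .no) .no (.sw 0 1 [23]) .no)) .no .no) .no (.sw 0 1 [14,15]) .no) .no .no) .no)) .no .no) .no))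

theorem P3_0 : R.S 13 46904900 :=
  R.piece L hL (.br .no (.br (.br .no (.br .no .no .no (.br .no (.br (.br .no .no .no (.de 20)) .no .no .no) (.br (.br .no .no .no (.de 20)) (.br (.br .no .no .no (.br .no .no (.br (.br .no (.br (.br .no .no (.br .no (.de 27) .no .no) (.br .no (.de 27) (.br .no (.br .no (.br .no .no (.br .no .no .no (.br .no (.br (.br .no .no .no (.br (.br (.br .no (.br (.br .no .no (.br .no (.br .no .no (.br .no .no .no (.br .no .no (.de 48) .no)) .no) .no .no) (.br .no (.sw 0 2 [12,19,26,32]) (.de 45) .no)) .no (.br .no .no .no (.de 44)) .no) .no .no) .no .no (.br (.br .no .no (.br .no .no .no (.de 44)) .no) (.br (.br .no .no (.br .no (.br .no .no (.de 41) .no) .no .no) (.br .no (.sw 0 2 [12,19,26,32]) (.de 45) .no)) .no (.br .no .no .no (.de 44)) .no) .no .no)) .no .no .no)) .no .no .no) (.br (.br .no .no .no (.br (.br (.br .no (.br (.br .no (.br .no .no (.br .no (.br .no .no (.de 48) (.br .no .no (.de 48) .no)) .no .no) .no) .no (.sw 1 2 [31])) .no .no .no) .no .no) .no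 .no (.br (.br .no (.br .no .no .no (.br .no (.br .no .no (.de 41) .no) (.de 45) .no)) .no .no) (.br (.br .no (.br .no .no (.br .no (.br .no .no (.sy 38 147 5) .no) .no .no) .no) .no (.sw 1 2 [31])) .no .no .no) .no .no)) .no .no .no)) (.br (.br .no .no .no (.br (.br .no (.br (.br .no .no .no (.br .no .no (.de 45) .no)) .no .no .no) .no .no) .no .no (.br (.br .no (.br (.br .no .no (.br .no (.br (.br .no (.br .no .no (.br .no .no .no (.de 45)) (.br .no .no (.br .no .no .no (.br (.br .no .no .no (.br .no .no (.sw 0 1 [5]) .no)) .no .no .no)) .no)) (.de 48) .no) .no (.br .no (.br .no .no (.br .no .no .no (.de 45)) (.br .no .no (.br .no .no .no (.br (.br .no .no .no (.br (.sw 0 2 [41,48]) .no .no .no)) .no .no .no)) .no)) (.br .no .no .no (.br .no .no (.br .no .no .no (.br (.br .no .no .no (.br (.sw 1 2 [42]) .no .no .no)) .no .no .no)) .no)) .no) .no) .no .no) (.br .no (.sw 0 2 [12,19,26,33]) (.br (.br .no (.br .no .no (.br .no .no .no (.br .no .no (.br (.br .no .no .no (.sw 1 2 [40])) .no .no .no)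 .no)) (.br .no .no (.de 45) .no)) (.de 48) .no) .no .no .no) .no)) .no .no (.br .no .no (.de 45) .no)) .no .no) (.br (.br .no .no .no (.br .no .no (.de 45) .no)) .no .no .no) .no .no))) .no .no (.sw 0 2 [12,19,26])) .no .no) .no)) (.br .no .no (.br .no (.br (.br .no .no .no (.br (.br (.br .no (.br (.sw 2 3 [29,30]) .no .no (.br .no .no (.de 44) .no)) .no .no) .no (.br (.br .no .no .no (.br .no .no (.de 44) .no)) (.de 42) .no .no) .no) .no .no .no)) .no .no .no) .no .no) .no)) .no (.br .no .no (.br .no .no .no (.br .no (.br (.br .no .no .no (.br (.br (.br .no (.br (.br .no .no (.br .no (.br .no .no (.br .no (.sy 41 225 5) .no .no) .no) .no .no) (.br .no (.sw 0 2 [12,19,26,32]) (.de 45) .no)) .no (.br .no .no .no (.de 44)) .no) .no .no) (.br (.br .no .no (.br .no .no .no (.de 44)) .no) .no .no .no) .no .no) .no .no .no)) .no .no .no) (.br (.br .no .no .no (.sy 28 30 5)) (.br (.de 34) .no .no (.sw 0 2 [12,19,26])) .no .no) .no)) .no)) .no .no) .no)) .no .no (.br .no .no (.br .no (.de 27) .no .no)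 .no)) .no .no) .no .no .no) c3_0_0)) .no .no (.de 20)) .no .no) .no)) .no .no) (.br (.br .no (.br .no .no (.br (.br .no .no .no (.br (.sy 20 228 5) .no .no .no)) (.br (.br .no .no .no c3_0_1) .no .no (.sw 0 2 [12])) .no .no) .no) .no (.br .no (.br (.br .no .no .no (.br c3_0_2 .no .no .no)) .no .no .no) (.br (.br .no .no .no (.br (.br .no .no (.br .no (.br (.br .no (.br .no .no (.br .no (.br .no .no .no (.br (.br .no .no (.sw 1 3 [16,22]) (.br .no .no (.br (.br .no .no .no (.br (.br .no (.br .no (.br (.br .no (.sw 2 3 [29,30]) .no (.sw 1 2 [17,24,25,26,30])) .no .no .no) (.br (.sw 1 3 [16,22,29]) (.de 42) .no .no) .no) .no .no) .no (.br .no (.br .no (.br (.br .no (.sw 2 3 [29,30]) .no (.br .no (.br (.br .no .no .no (.de 46)) .no .no .no) (.de 44) .no)) .no .no .no) (.br (.sw 1 3 [16,22,29]) (.de 42) .no .no) .no) .no .no) .no)) .no .no (.br (.br .no .no (.br .no (.br .no (.br (.br .no (.br .no .no (.br .no (.sw 0 3 [31,32]) .no (.de 45)) .no) .no .no) .no .no .no) (.br (.sw 1 3 [16,22,29]) (.de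 42) .no .no) .no) .no .no) .no) .no .no .no)) .no)) .no .no (.br .no .no (.br .no .no .no (.br (.br .no .no .no (.br (.sw 1 2 [17,24,25,26]) .no (.br (.br (.br .no (.br .no .no (.br .no (.br (.br .no (.br .no .no (.de 48) .no) .no (.de 46)) .no .no .no) .no .no) .no) .no .no) (.br (.br .no (.br .no .no (.br (.br .no (.br .no .no (.br .no .no (.br .no .no .no (.de 44)) .no) .no) .no (.de 46)) (.br .no .no .no (.br .no .no (.br .no .no (.br .no .no .no (.de 44)) .no) .no)) .no .no) .no) (.br .no (.br (.br .no (.br .no .no (.br .no .no (.br .no .no .no (.de 44)) .no) .no) .no (.de 46)) .no .no .no) .no .no) .no) .no .no .no) .no .no) (.br (.br .no (.br .no .no (.br .no (.br (.br .no .no .no (.de 46)) .no .no .no) .no .no) .no) .no .no) (.br (.br .no (.br .no .no (.br (.br .no .no .no (.de 46)) (.br (.br .no .no (.sw 0 3 [28]) .no) .no .no (.sw 0 2 [33])) .no .no) .no) (.br .no (.br (.br .no .no .no (.de 46)) .no .no .no) .no .no) .no) .no .no .no) .no .no) .no .no) .no)) .no .no .no)) .no))) .no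 .no) .no) .no (.sw 1 2 [17])) .no .no .no) .no .no) (.br .no (.br (.br .no (.br .no .no (.br .no (.br .no .no (.sy 24 147 5) .no) .no .no) .no) .no (.sw 1 2 [17])) .no .no .no) (.br (.sw 1 3 [16]) (.br .no .no .no (.br .no (.br .no .no (.de 27) .no) (.br .no (.br .no .no (.br (.br .no .no .no (.br (.sw 1 2 [17,22,23]) .no (.sw 0 1 [23]) .no)) (.br (.br .no .no (.br (.sw 1 3 [16,23,24]) (.br (.br .no .no .no (.br (.br .no .no (.br .no (.de 42) .no (.br (.br .no .no (.sw 1 3 [16,23,24,31]) (.br .no (.br .no .no (.br .no .no .no (.sw 0 1 [23,28,29,34])) .no) (.de 45) .no)) .no .no .no)) (.br .no (.br (.br .no .no (.sw 1 3 [16,23,24,31]) (.br .no (.br .no .no (.de 41) .no) (.de 45) .no)) .no .no (.br .no .no (.de 44) .no)) .no .no)) .no .no .no)) .no .no (.br (.de 34) .no .no .no)) .no .no) .no) .no .no (.br (.br .no (.br (.br .no .no .no (.br (.br (.br .no (.br .no .no (.br .no .no .no (.de 44)) (.br .no .no (.de 44) .no)) (.br .no .no .no (.de 43)) .no) .no (.br .no (.de 42) .no .no) .no) .no .no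 .no)) .no .no (.br (.de 34) .no .no .no)) .no .no) .no (.sw 0 1 [23]) .no)) .no .no) .no) .no .no) .no)) .no .no) .no)) .no .no .no)) (.br (.br .no .no .no c3_0_3) .no .no (.sw 0 2 [12])) .no .no) .no)) .no .no .no) .no .no) .no .no) 13 46904900 67108864 (by norm_num) (by norm_num) (by norm_num) (by decide +kernel)

def c3_1_0 : Cert := (.br .no .no (.br .no (.br (.br .no (.br (.br .no (.br .no .no .no (.br (.br .no .no (.br .no .no .no (.de 34)) (.br .no .no (.br .no .no .no (.br .no .no (.br (.br .no (.br .no .no (.br (.br .no (.de 41) .no .no) (.br (.br .no (.br .no (.br .no .no (.br .no .no .no (.de 45)) (.de 44)) .no .no) .no .no) .no .no .no) .no .no) .no) (.br .no (.br (.br .no (.de 41) .no .no) .no .no .no) .no .no) .no) .no .no .no) (.br (.br .no (.br .no .no (.br (.br .no (.br .no .no (.br .no (.br .no .no (.br .no .no .no (.de 45)) (.de 44)) (.br .no .no .no (.de 44)) .no) .no) .no .no) (.br (.br .no (.br .no (.br .no .no (.br .no .no .no (.de 45)) (.de 44)) (.br .no .no .no (.de 44))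 .no) (.br .no (.br .no .no (.br .no .no .no (.de 45)) (.de 44)) (.br .no .no .no (.de 44)) .no) .no) .no .no .no) .no .no) .no) (.br .no (.br (.br .no (.br .no .no (.br .no (.br .no .no .no (.de 44)) (.br .no .no .no (.de 44)) .no) .no) .no .no) .no .no .no) .no .no) .no) .no (.br .no (.br .no .no (.br (.br .no (.br .no .no (.br .no (.br .no .no .no (.de 44)) .no .no) .no) .no .no) (.br (.br .no (.br .no (.br .no .no .no (.de 44)) .no .no) (.sy 36 198 5) .no) .no .no .no) .no .no) .no) .no .no) .no))) .no)) .no .no .no)) (.br .no (.br (.br .no .no (.br .no .no .no (.de 34)) (.br .no .no (.br .no .no .no (.br .no (.br (.br .no .no (.br .no (.br (.br .no (.br .no .no (.sw 0 3 [22,23,28,34]) .no) .no .no) .no .no .no) .no .no) (.br .no (.br (.br .no (.br .no .no (.sw 0 3 [22,23,28,34]) .no) .no .no) .no .no .no) (.de 44) .no)) .no .no (.br .no .no (.de 43) .no)) .no (.br (.br .no .no (.br .no (.br (.br .no (.br .no .no (.br .no (.br .no .no .no (.de 44)) (.br .no .no .no (.de 44)) .no) .no) .no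 .no) .no .no .no) .no .no) (.br .no (.br (.br .no (.br .no .no (.br .no (.br .no .no (.de 44) .no) (.de 43) .no) .no) .no .no) .no .no .no) (.de 44) .no)) .no .no .no))) .no)) .no .no (.br .no .no (.br .no .no .no (.de 34)) .no)) .no (.br (.br .no .no (.br .no .no .no (.de 34)) (.br .no .no (.br .no .no .no (.br .no (.br (.br .no (.br .no .no (.br (.br .no (.br .no .no (.br .no .no (.br .no .no .no (.de 44)) .no) .no) .no .no) (.br (.br .no .no (.br .no .no (.br .no .no .no (.de 44)) .no) .no) .no .no .no) .no .no) .no) (.sw 1 3 [30]) .no) .no .no .no) .no (.br (.sw 1 2 [29]) (.br .no .no (.br .no (.br (.br .no (.br .no .no (.br .no .no (.br .no .no .no (.de 44)) .no) .no) .no .no) .no .no .no) .no .no) .no) .no .no))) .no)) .no .no .no)) .no) (.br .no .no (.br .no (.sw 0 3 [22,23]) .no (.br (.br .no .no (.br .no .no .no (.br (.br (.br .no (.br .no .no (.br .no (.sw 0 3 [22,23,30,31]) .no (.de 44)) .no) .no .no) .no .no (.br (.br .no (.br .no .no .no (.br (.br .no (.br .no .no (.br .no (.br .no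 .no (.de 44) (.br .no .no (.de 45) .no)) (.br .no .no .no (.br .no .no (.de 45) .no)) .no) .no) (.de 41) .no) (.br .no .no (.de 41) .no) .no .no)) (.sw 1 3 [30]) .no) (.br .no .no (.br .no (.sw 0 3 [22,23,30,31]) .no (.de 44)) .no) .no .no)) .no .no .no)) (.br .no .no (.br (.br (.br .no (.br .no .no (.br .no (.br (.br .no (.sw 2 3 [32,33]) .no (.de 46)) .no .no .no) .no .no) .no) .no .no) .no .no (.br (.br .no (.br .no .no (.br (.br .no (.br .no .no (.br .no (.br .no .no (.br .no .no .no (.de 45)) (.de 44)) (.br .no .no .no (.de 44)) .no) .no) .no (.de 46)) (.br .no .no .no (.br .no .no (.br .no (.br .no .no (.br .no .no .no (.de 45)) (.de 44)) (.br .no .no .no (.de 44)) .no) .no)) .no .no) .no) (.sw 1 3 [30]) .no) (.br .no .no (.br .no (.br (.br .no (.sw 2 3 [32,33]) .no (.de 46)) .no .no .no) .no .no) .no) .no .no)) .no .no (.br (.br .no (.br .no .no (.br .no (.br (.br .no (.br .no .no (.de 48) .no) .no .no) .no .no .no) .no .no) .no) .no .no) .no .no (.br (.br .no (.br .no .no (.br (.br .no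 (.br (.br .no (.br .no .no (.br .no .no .no (.de 45)) (.de 44)) (.de 48) .no) .no (.sw 0 1 [28]) .no) .no .no) (.br (.br .no .no (.sw 0 1 [28]) .no) .no .no .no) .no .no) .no) (.sw 1 3 [30]) .no) (.br .no .no (.br .no (.br (.br .no (.br (.sy 38 177 5) .no (.sw 0 1 [28]) .no) .no .no) .no .no .no) .no .no) .no) .no .no))) .no)) .no .no .no)) .no) .no .no) .no (.br (.br .no (.br .no .no .no (.br (.br .no .no (.br .no (.de 34) .no .no) (.br .no (.de 34) (.br .no (.br .no .no (.br (.br .no (.br .no .no (.br (.br .no .no .no (.de 41)) (.br (.br .no .no .no (.de 47)) .no .no (.de 41)) .no .no) .no) (.br .no (.br (.br .no .no .no (.de 41)) .no .no .no) .no .no) .no) .no .no .no) (.br (.br .no (.br .no .no (.br (.br .no .no .no (.de 46)) (.br (.br .no .no (.sw 1 3 [27,34]) .no) .no .no (.br .no .no (.br .no (.br .no .no (.br .no .no .no (.de 45)) (.de 44)) (.br .no .no .no (.de 44)) .no) .no)) .no .no) .no) (.br .no (.br (.br .no .no .no (.de 46)) .no .no .no) .no .no) .no) .no (.br .no (.br .no .no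 (.br (.br .no .no .no (.de 46)) (.br (.br .no .no (.sw 1 3 [27,34]) .no) .no .no (.br .no .no (.sy 36 135 5) .no)) .no .no) .no) .no .no) .no)) .no .no) .no)) .no .no .no)) (.br .no (.br (.br .no .no (.br .no (.de 34) .no .no) (.br .no (.de 34) (.br .no (.br .no (.br (.br .no .no (.br .no (.br (.br .no .no .no (.de 46)) .no .no .no) .no .no) (.br .no (.br (.br .no .no .no (.de 46)) .no .no .no) (.de 44) .no)) .no .no (.br .no .no (.de 43) .no)) .no (.br (.br .no .no (.br .no (.br (.br .no .no .no (.de 46)) .no .no .no) .no .no) (.br .no (.br (.br .no .no .no (.de 46)) .no .no .no) (.de 44) .no)) .no .no .no)) .no .no) .no)) .no .no (.br .no .no (.br .no (.de 34) .no .no) .no)) .no (.br (.br .no .no (.br .no (.de 34) .no .no) (.br .no (.de 34) (.br .no (.br .no (.br (.br .no (.br .no .no (.br (.br .no .no .no (.de 46)) (.br (.br .no .no (.sw 1 3 [27,34]) (.de 47)) .no .no (.br .no .no (.br .no .no (.br .no .no .no (.de 44)) .no) .no)) .no .no) .no) (.sw 1 3 [30]) .no) .no .no .no) .no (.br (.sw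 1 2 [29]) (.br .no .no (.br .no (.br (.br .no .no .no (.de 46)) .no .no .no) .no .no) .no) .no .no)) .no .no) .no)) .no .no .no)) .no) (.br .no .no (.br .no (.sw 0 3 [22,23]) .no (.br (.br .no .no (.br .no (.br (.br (.br .no (.br .no .no (.br .no (.sw 0 3 [22,23,30,31]) .no (.de 44)) .no) .no .no) .no .no (.br (.br .no (.br .no .no .no (.br (.br .no .no (.de 41) (.de 46)) .no .no .no)) (.sw 1 3 [30]) .no) (.br .no .no (.br .no (.sw 0 3 [22,23,30,31]) .no (.de 44)) .no) .no .no)) .no .no .no) .no .no) (.br .no (.br (.br (.br .no (.br .no .no (.br .no (.br (.sw 2 3 [32]) .no (.br .no .no .no (.br .no .no (.de 48) .no)) .no) .no .no) .no) .no .no) .no .no (.br (.br .no (.br .no .no (.br (.br .no .no (.de 41) (.de 46)) .no .no .no) .no) (.sw 1 3 [30]) .no) (.br .no .no (.br .no (.br (.sw 2 3 [32]) .no (.br .no .no .no (.br .no .no (.sy 39 75 5) .no)) .no) .no .no) .no) .no .no)) .no .no .no) (.br (.sw 1 3 [27]) .no .no .no) .no)) .no .no .no)) .no) .no .no)) .no .no .no) .no .no) (.br .no (.sw 0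 2 [12,18]) (.br (.br .no (.br (.br .no (.br .no .no (.br (.br .no (.br .no .no (.br .no .no .no (.br .no .no (.br (.br .no (.br .no .no (.br (.br .no (.de 41) .no .no) .no .no (.de 45)) (.br (.br .no (.de 41) .no .no) .no .no .no)) .no (.br .no .no (.de 44) .no)) .no .no (.br .no (.br .no .no (.br (.br .no (.de 41) .no .no) .no .no (.de 45)) (.br (.br .no (.de 41) .no .no) .no .no .no)) .no .no)) (.br (.br .no (.br .no .no (.br (.br .no (.br .no .no (.br .no (.br .no .no (.br .no .no .no (.de 45)) (.de 44)) (.br .no .no .no (.de 44)) .no) .no) .no .no) .no .no (.de 45)) (.br (.br .no (.br .no .no (.br .no (.br .no .no (.de 44) (.br .no .no (.de 45) .no)) (.br .no .no .no (.br .no .no (.de 45) .no)) .no) .no) .no .no) .no .no .no)) .no (.br .no .no (.de 44) .no)) .no .no .no))) (.de 34)) .no (.sw 1 2 [25])) (.br .no .no .no (.br .no .no (.br .no .no .no (.br .no .no (.br (.br .no .no .no (.br (.br .no (.br (.br .no (.sy 38 228 5) .no .no) .no .no .no) .no .no) .no (.de 44) .no)) .no .no (.br (.br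 .no .no (.br (.br .no (.de 41) .no .no) (.br (.br .no (.br .no (.br .no .no (.br .no .no .no (.de 45)) .no) .no .no) .no .no) .no .no .no) .no .no) .no) .no .no .no)) (.br (.br .no .no .no (.br (.sw 1 2 [25,29,30,31]) .no (.de 44) .no)) .no .no .no))) .no)) .no .no) .no) (.br .no (.br (.br .no (.br .no .no (.br .no .no .no (.br .no (.br (.br .no .no (.br .no .no .no (.de 44)) (.br .no .no (.de 44) .no)) .no .no (.br .no .no (.de 43) .no)) .no (.br (.br .no .no (.br .no .no .no (.de 44)) (.sw 1 2 [29,30])) .no .no .no))) (.de 34)) .no (.sw 1 2 [25])) .no .no .no) .no .no) .no) (.br .no .no (.br .no (.br (.br .no (.br .no .no (.br (.br (.br .no .no .no (.br .no .no (.de 43) .no)) .no .no (.br (.br .no .no (.br .no .no .no (.de 44)) (.br .no .no (.de 44) .no)) .no .no .no)) .no .no (.br (.br .no .no .no (.br .no .no (.de 43) .no)) .no .no (.br (.br .no .no (.br .no .no .no (.de 44)) (.br .no .no (.de 44) .no)) .no .no .no))) (.br (.br (.br .no .no .no (.br .no .no (.de 43) .no)) .no .no (.br (.br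 .no .no (.br .no .no .no (.de 44)) (.br .no .no (.de 44) .no)) .no .no .no)) .no .no .no)) .no (.sw 1 2 [25])) .no .no .no) .no .no) .no) .no .no) .no (.br (.br .no (.br .no .no (.br (.br .no (.br .no .no (.br .no (.br .no .no (.br (.br .no (.br .no .no (.br (.br .no .no .no (.de 41)) .no .no (.de 45)) (.br (.br .no .no .no (.de 41)) .no .no .no)) .no (.br .no .no (.de 44) .no)) .no .no (.br .no (.br .no .no (.br (.br .no .no .no (.de 41)) .no .no (.de 45)) (.br (.br .no .no .no (.de 41)) .no .no .no)) .no .no)) (.br (.br .no (.br .no .no (.br (.br .no .no .no (.de 46)) .no .no (.de 45)) (.br (.br .no .no .no (.de 46)) .no .no .no)) .no (.br .no .no (.de 44) .no)) .no .no .no)) .no .no) .no) .no (.sw 1 2 [25])) (.br .no .no .no (.br .no (.de 34) (.br .no (.br .no .no (.br (.br .no .no .no (.br (.br .no (.br (.br .no .no .no (.de 47)) .no .no (.de 41)) .no .no) .no (.de 44) .no)) .no .no (.br (.br .no .no (.br (.br .no .no .no (.de 41)) (.br (.br .no .no .no (.de 47)) .no .no (.de 41)) .no .no)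 .no) .no .no .no)) (.br (.br .no .no .no (.br (.sw 1 2 [25,29,30,31]) .no (.de 44) .no)) .no .no .no)) .no .no) .no)) .no .no) .no) (.br .no (.br (.br .no (.br .no .no (.br .no (.br .no (.br (.br .no .no (.br .no .no .no (.de 44)) (.br .no .no (.de 44) .no)) .no .no (.br .no .no (.de 43) .no)) .no (.br (.br .no .no (.br .no .no .no (.de 44)) (.sw 1 2 [29,30])) .no .no .no)) .no .no) .no) .no (.sw 1 2 [25])) .no .no .no) .no .no) .no) (.br .no .no (.br .no (.br (.br .no (.br .no .no (.br (.sw 1 3 [27]) .no .no .no) .no) .no (.sw 1 2 [25])) .no .no .no) .no .no) .no) .no .no)) (.br .no .no .no (.br (.br .no (.br .no .no (.br (.br .no .no .no (.br (.br .no (.sy 33 228 5) .no .no) .no (.sw 0 1 [26]) .no)) (.br (.br .no .no (.br .no (.br .no .no (.br (.br .no .no .no (.br .no .no (.de 44) .no)) .no .no (.br (.br .no .no (.br .no (.br (.br .no .no .no (.de 47)) .no .no (.de 41)) .no (.de 45)) (.br .no (.br (.br .no .no .no (.de 47)) .no .no (.de 41)) .no .no)) .no .no .no)) (.br (.br .no .no .no (.br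 .no .no (.de 44) .no)) .no .no .no)) .no .no) .no) .no .no (.sw 0 2 [12,18,25])) .no .no) .no) (.br .no (.br (.br .no .no .no (.br (.br .no (.br .no (.br (.br .no .no (.br .no (.br .no .no (.br .no .no .no (.br .no .no (.br .no .no (.br .no .no .no (.de 44)) .no) .no)) .no) .no .no) (.br .no (.sw 0 2 [12,18,25,31]) (.de 44) .no)) .no .no (.br .no .no (.de 43) .no)) .no (.br (.br .no .no (.br .no (.br .no .no (.br .no .no .no (.br .no .no (.sw 0 1 [26,28,33,34]) .no)) .no) .no .no) (.sw 1 2 [29,30])) .no .no .no)) .no .no) .no (.sw 0 1 [26]) .no)) .no .no .no) .no .no) .no) (.br .no .no (.br .no (.br (.br .no .no .no (.br (.de 34) .no (.sw 0 1 [26]) .no)) .no .no .no) .no .no) .no) .no .no)) .no .no) .no))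

theorem P3_1 : R.S 15 114226756 :=
  R.piece L hL (.br .no (.br .no .no (.br .no (.br (.br .no .no .no (.br .no .no (.br .no .no (.br (.br .no .no .no (.br .no .no (.br .no (.br (.br .no (.br .no (.br .no .no (.br (.br .no .no .no (.br .no .no (.br .no .no .no (.br (.br (.br .no (.br .no .no (.br (.br .no (.br .no .no (.br .no .no .no (.br .no .no (.de 48) .no)) .no) .no .no) (.br (.br .no (.br .no .no (.de 48) (.br .no .no (.de 48) .no)) (.br .no .no .no (.br .no .no (.de 48) .no)) .no) .no .no .no) .no .no) .no) .no (.br .no (.br (.br .no (.br .no .no (.br .no .no .no (.br .no (.br .no .no (.br .no .no .no (.br .no .no (.br (.de 47) .no .no (.br (.br .no .no (.sw 0 1 [5,47]) .no) .no .no .no)) .no)) .no) (.de 43) .no)) .no) .no .no) .no .no .no) (.de 43) .no)) .no .no (.br .no (.br .no .no (.br (.br .no (.br .no .no (.de 41) .no) .no .no) (.br (.br .no (.br .no .no (.br .no .no (.br .no .no .no (.de 44)) .no) .no) (.de 41) .no) .no .no .no) .no .no) .no) .no .no)) .no .no .no)) .no)) (.br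 (.br .no .no (.br .no .no .no (.br (.br (.br .no .no .no (.br .no .no (.de 43) .no)) .no .no (.br (.br .no .no (.br .no (.br (.br .no (.br .no .no (.br .no (.br .no .no .no (.de 44)) (.br .no .no .no (.de 44)) .no) .no) (.de 41) .no) .no .no .no) .no (.de 44)) (.br .no (.br (.br .no (.br .no .no (.br .no (.br .no .no (.de 44) .no) (.de 43) .no) .no) (.de 41) .no) .no .no .no) .no .no)) .no .no .no)) .no .no .no)) (.br .no .no (.br (.br (.br .no .no .no (.br .no .no (.de 43) .no)) .no .no (.br (.br .no .no (.br .no (.br (.br .no (.sw 2 3 [32,33]) .no (.de 46)) .no .no .no) .no .no) (.br .no (.sw 0 2 [12,18,24,31]) (.de 44) .no)) .no .no .no)) .no .no (.br (.br .no .no .no (.br .no .no (.de 43) .no)) .no .no (.br (.br .no .no (.br .no (.br (.br .no (.br (.br .no (.br .no .no .no (.de 44)) (.de 48) .no) .no (.sw 0 3 [34]) .no) .no .no) .no .no .no) .no .no) (.br .no (.sw 0 2 [12,18,24,31]) (.de 44) .no)) .no .no .no))) .no)) .no .no (.sw 0 2 [12,18,24])) .no .no) .no) .no (.br .no (.br (.br .no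 .no .no (.br .no .no (.br .no .no .no (.br (.br (.br .no .no (.br .no (.br (.br .no (.br .no .no (.br .no (.br .no (.br .no .no .no (.br .no .no (.br .no .no .no (.br (.br .no .no .no (.br .no .no (.sw 0 1 [5]) .no)) .no .no .no)) .no)) .no .no) .no .no) .no) .no .no) .no .no .no) .no .no) (.br .no (.sw 0 2 [12,18,24,30]) (.de 43) .no)) .no (.br .no .no .no (.br .no (.sw 0 2 [12,18,24,30]) (.de 43) .no)) .no) .no .no .no)) .no)) .no .no .no) (.br (.br .no .no .no (.br .no .no (.br .no .no .no (.br (.br (.br .no (.br .no .no (.br (.br .no (.br .no .no (.br .no (.br .no .no (.de 48) .no) .no .no) .no) .no .no) (.br (.br .no (.br .no .no (.de 48) .no) (.br .no (.br .no .no (.de 48) .no) .no .no) .no) .no .no .no) .no .no) .no) .no (.sw 1 2 [29])) (.br .no .no .no (.br .no (.br (.br .no (.br .no .no (.de 41) .no) .no .no) .no .no .no) (.de 43) .no)) .no .no) .no .no .no)) .no)) (.br (.br .no .no (.br .no .no .no (.br (.br (.br .no .no .no (.br .no .no (.de 43) .no)) (.br (.br .no .no (.br .no (.br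 (.br .no (.br .no .no (.br .no .no (.br .no .no .no (.de 44)) .no) .no) (.de 41) .no) .no .no .no) .no (.de 44)) (.br .no (.br (.br .no (.br .no .no (.br .no .no (.de 43) .no) .no) (.de 41) .no) .no .no .no) .no .no)) .no .no (.br .no .no (.de 43) .no)) .no .no) .no .no .no)) (.br .no .no (.br (.br (.br .no .no .no (.br .no .no (.de 43) .no)) (.br (.br .no .no (.br .no (.br (.br .no (.sw 2 3 [32,33]) .no (.de 46)) .no .no .no) .no .no) (.br .no (.sw 0 2 [12,18,24,31]) (.de 44) .no)) .no .no (.br .no .no (.de 43) .no)) .no .no) .no .no .no) .no)) .no .no (.sw 0 2 [12,18,24])) .no .no) .no)) .no (.br .no (.br .no .no (.br (.br .no .no .no (.br .no .no (.br .no (.br (.br (.br .no (.br .no .no (.br (.br .no .no .no (.br .no .no (.br .no .no .no (.br .no .no (.de 48) .no)) .no)) (.br (.br .no .no (.sw 1 3 [27,33]) (.de 46)) .no .no (.br .no .no (.br .no .no .no (.br .no .no (.de 48) .no)) .no)) .no .no) .no) .no (.br .no (.br (.br .no .no .no (.br .no .no (.br .no .no .no (.br .no (.br .no .no (.br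 .no .no .no (.br .no .no (.br (.de 47) .no .no .no) .no)) .no) (.de 43) .no)) .no)) .no .no .no) (.de 43) .no)) .no .no (.br .no (.br .no .no (.br (.br .no .no .no (.br .no .no (.de 41) .no)) (.br (.br .no .no (.de 41) (.de 46)) .no .no (.br .no .no (.de 41) .no)) .no .no) .no) .no .no)) .no .no .no) .no .no) .no)) (.br (.br .no .no (.br .no (.br (.br (.br .no .no .no (.br .no .no (.de 43) .no)) .no .no (.br (.br .no .no (.br .no (.br (.br .no .no (.de 41) (.de 46)) .no .no (.br .no .no (.de 41) .no)) .no (.de 44)) (.br .no (.br (.br .no .no (.de 41) (.de 46)) .no .no (.br .no .no (.de 41) .no)) .no .no)) .no .no .no)) .no .no .no) .no .no) (.br .no (.br (.br (.br .no .no .no (.br .no .no (.de 43) .no)) .no .no (.br (.br .no .no (.br .no (.br (.sw 2 3 [32]) .no (.br .no .no .no (.br .no .no (.sy 39 78 5) .no)) .no) .no .no) (.br .no (.sw 0 2 [12,18,24,31]) (.de 44) .no)) .no .no .no)) .no .no .no) (.br (.sw 1 3 [27]) .no .no .no) .no)) .no .no (.sw 0 2 [12,18,24])) .no .no) .no) .no (.br .no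 (.br (.br .no .no .no (.br .no .no (.br .no (.br (.br (.br .no .no (.br .no (.br (.br .no .no .no (.br .no .no (.br .no (.br .no (.br .no .no .no (.br .no .no (.de 45) .no)) .no .no) .no .no) .no)) .no .no .no) .no .no) (.br .no (.sw 0 2 [12,18,24,30]) (.de 43) .no)) .no (.br .no .no .no (.br .no (.sw 0 2 [12,18,24,30]) (.de 43) .no)) .no) .no .no .no) .no .no) .no)) .no .no .no) (.br (.br .no .no .no (.br .no .no (.br .no (.br (.br (.br .no (.br .no .no (.br (.br .no .no .no (.br .no .no (.br .no (.br .no .no (.de 48) .no) .no .no) .no)) (.br (.br .no .no (.sw 1 3 [27,33]) (.de 46)) .no .no (.br .no .no (.br .no (.br .no .no (.de 48) .no) .no .no) .no)) .no .no) .no) .no (.sw 1 2 [29])) (.br .no .no .no (.br .no (.br (.br .no .no .no (.br .no .no (.de 41) .no)) .no .no .no) (.de 43) .no)) .no .no) .no .no .no) .no .no) .no)) (.br (.br .no .no (.br .no (.br (.br (.br .no .no .no (.br .no .no (.de 43) .no)) (.br (.br .no .no (.br .no (.br (.br .no .no (.de 41) (.de 46)) .no .no (.br .no .no (.de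 41) .no)) .no (.de 44)) (.br .no (.br (.br .no .no (.de 41) (.de 46)) .no .no (.br .no .no (.de 41) .no)) .no .no)) .no .no (.br .no .no (.de 43) .no)) .no .no) .no .no .no) .no .no) (.br .no (.br (.br (.br .no .no .no (.br .no .no (.de 43) .no)) (.br (.br .no .no (.br .no (.br (.sw 2 3 [32]) .no (.br .no .no .no (.br .no .no (.br .no .no (.br .no .no .no (.de 44)) .no) .no)) .no) .no .no) (.br .no (.sw 0 2 [12,18,24,31]) (.de 44) .no)) .no .no (.br .no .no (.de 43) .no)) .no .no) .no .no .no) (.br (.sw 1 3 [27]) (.br (.br .no .no .no (.br .no .no (.de 43) .no)) (.br (.br .no .no (.br .no (.br (.br .no .no .no (.de 46)) .no .no .no) .no .no) (.br .no (.sw 0 2 [12,18,24,31]) (.de 44) .no)) .no .no (.br .no .no (.de 43) .no)) .no .no) .no .no) .no)) .no .no (.sw 0 2 [12,18,24])) .no .no) .no))) .no .no .no) .no .no) .no)) .no .no (.br c3_1_0 .no .no .no)) (.br (.br .no .no .no (.br .no .no (.br .no (.br (.br .no (.br .no (.br .no .no (.br (.br .no .no .no (.br .no .no (.br .no .no .no (.br (.sw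 2 3 [21]) .no (.br (.br .no (.br .no .no (.br (.br .no (.br (.br .no .no .no (.de 47)) .no .no .no) .no .no) (.sy 31 27 7) .no .no) .no) .no (.br .no (.br (.br .no (.br (.br .no .no .no (.de 47)) .no .no .no) .no .no) .no .no .no) (.de 43) .no)) .no .no (.br .no (.br .no .no (.br (.br .no (.br (.de 41) .no .no .no) .no .no) (.sy 31 27 7) .no .no) .no) .no .no)) .no)) .no)) (.br (.br .no .no (.br .no .no .no (.br (.sw 2 3 [21]) .no (.sy 34 198 5) .no)) (.br .no .no (.br (.sw 2 3 [21]) .no .no .no) .no)) .no .no (.sw 0 2 [12,18,24])) .no .no) .no) (.br .no (.br (.br .no .no .no (.br .no .no (.br .no .no .no (.br (.br (.br .no .no (.br .no (.br (.br .no (.br .no .no (.br .no (.sw 2 3 [21,28]) .no (.br .no (.br .no .no .no (.br .no .no (.br .no .no .no (.br (.de 47) .no .no .no)) .no)) .no .no)) .no) .no .no) .no .no .no) .no .no) (.br .no (.sw 0 2 [12,18,24,30]) (.de 43) .no)) .no .no (.br .no .no (.br .no (.br (.br .no (.br .no .no (.br .no (.br .no (.br .no .no .no (.sw 0 2 [12,18,24,30,36]))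 .no .no) .no .no) .no) .no .no) .no .no .no) .no .no) .no)) .no .no .no)) .no)) .no .no .no) .no .no) .no) .no .no) .no .no .no) .no .no) .no)) .no .no .no)) .no)) .no .no .no) .no .no) .no) .no .no) 15 114226756 1073741824 (by norm_num) (by norm_num) (by norm_num) (by decide +kernel)

def c3_2_0 : Cert := (.br (.br .no .no .no (.br (.br .no (.br .no .no (.br (.br .no (.br .no .no (.br .no (.br .no .no (.br (.br .no (.br .no .no (.br (.br .no .no .no (.de 41)) .no .no (.de 45)) (.br (.br .no .no .no (.de 41)) .no .no .no)) .no (.br .no .no (.de 44) .no)) .no .no (.br .no (.br .no .no (.br (.br .no .no .no (.de 41)) .no .no (.de 45)) (.br (.br .no .no .no (.de 41)) .no .no .no)) .no .no)) (.br (.br .no (.br .no .no (.br (.br .no .no .no (.de 46)) .no .no (.de 45)) (.br (.br .no .no .no (.de 46)) .no .no .no)) .no (.br .no .no (.de 44) .no)) .no .no .no)) .no .no) .no) .no (.br .no (.de 34) (.br .no (.br .no .no (.br (.br .no (.br .no .no (.br (.sw 1 3 [32]) (.br (.br .no .no .no (.de 47)) .no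 .no (.de 41)) .no .no) .no) .no (.br .no (.br (.br .no .no .no (.de 41)) .no .no .no) (.de 44) .no)) .no .no (.br .no (.br .no .no (.br (.sw 1 3 [32]) (.br (.br .no .no .no (.de 47)) .no .no (.de 41)) .no .no) .no) .no .no)) (.br (.br .no (.br .no .no (.br (.sw 1 3 [32]) (.br (.br .no .no (.br .no (.br .no .no (.br .no .no .no (.de 45)) (.de 44)) (.br .no .no .no (.de 44)) .no) .no) .no .no (.br .no .no (.br .no (.br .no .no (.br .no .no .no (.de 45)) (.de 44)) (.br .no .no .no (.de 44)) .no) .no)) .no .no) .no) .no (.br .no (.br (.br .no .no .no (.de 46)) .no .no .no) (.de 44) .no)) .no .no .no)) .no .no) .no)) .no .no (.br .no (.br .no .no (.br .no (.br .no .no (.br (.br .no (.br (.br .no .no .no (.br (.de 46) .no .no .no)) .no (.sw 0 3 [31]) .no) .no .no) .no .no (.br (.br .no .no (.br (.br .no .no .no (.de 41)) .no .no (.de 45)) .no) (.br (.br .no .no .no (.br (.de 46) .no .no .no)) .no (.sw 0 3 [31]) .no) .no .no)) (.br (.br .no (.br (.br .no .no .no (.br (.de 46) .no .no .no)) .no (.sw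 0 3 [31]) .no) .no .no) .no .no .no)) .no .no) .no) .no .no)) (.br (.br .no (.br .no .no (.br .no (.br .no .no (.br (.br .no (.sw 2 3 [30]) (.br .no .no .no (.de 44)) .no) .no .no .no) (.br (.br .no (.sw 2 3 [30]) (.br .no .no .no (.de 44)) .no) .no (.br .no (.br .no .no (.br (.br .no .no .no (.de 46)) .no .no (.de 45)) (.br (.br .no .no .no (.de 46)) .no .no .no)) .no .no) .no)) .no .no) .no) .no (.br .no (.de 34) (.br .no (.br .no .no (.br (.br .no (.sw 2 3 [30]) (.br .no (.br (.br .no .no .no (.de 41)) .no .no .no) .no .no) .no) .no .no .no) (.br (.br .no (.sw 2 3 [30]) (.br .no (.br (.br .no .no .no (.de 46)) .no .no .no) .no .no) .no) .no (.br .no (.br .no .no (.br (.sw 1 3 [32]) (.br (.br .no .no (.sy 36 198 5) .no) .no .no (.br .no .no (.sy 36 135 5) .no)) .no .no) .no) .no .no) .no)) .no .no) .no)) .no .no .no)) (.br .no .no .no (.br (.br .no (.br .no .no (.br .no (.br .no (.br (.br .no (.br .no .no (.br (.br .no .no .no (.de 46)) .no .no (.de 45)) (.br (.br .no .no .no (.de 46)) .no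 .no .no)) (.br .no .no .no (.de 44)) .no) .no .no .no) .no (.br (.sw 1 2 [29]) (.br .no .no (.br .no .no .no (.de 44)) .no) .no .no)) .no .no) .no) .no (.br .no (.de 34) (.br .no (.br .no (.br (.br .no (.br .no .no (.br (.sw 1 3 [32]) (.br (.br .no .no (.br .no .no (.br .no .no .no (.de 44)) .no) (.de 47)) .no .no (.br .no .no (.br .no .no (.br .no .no .no (.de 44)) .no) .no)) .no .no) .no) (.br .no (.br (.br .no .no .no (.de 46)) .no .no .no) .no .no) .no) .no .no .no) .no (.br (.sw 1 2 [29]) (.br .no .no (.br .no (.br (.br .no .no .no (.de 46)) .no .no .no) .no .no) .no) .no .no)) .no .no) .no)) .no .no .no)) .no) (.br .no .no (.br .no .no .no (.br (.br .no (.br .no .no (.br (.br (.br .no (.br .no .no (.br .no .no .no (.de 44)) .no) .no .no) .no .no (.br (.br .no (.br .no .no (.br (.br .no (.br .no .no (.br .no (.br .no .no (.br .no .no .no (.de 45)) (.de 44)) (.br .no .no .no (.de 44)) .no) .no) .no (.de 46)) .no .no (.de 45)) (.br (.br .no (.br .no .no (.br .no (.br .no .no (.de 44) (.br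 .no .no (.de 45) .no)) (.br .no .no .no (.br .no .no (.de 45) .no)) .no) .no) .no (.de 46)) .no .no .no)) (.br .no .no .no (.de 44)) .no) (.br .no .no (.br .no .no .no (.de 44)) .no) .no .no)) .no .no .no) .no) .no (.br .no (.br (.br (.br .no (.br .no .no (.br .no (.br (.br .no .no (.br .no .no .no (.br .no .no (.de 48) .no)) (.de 46)) .no (.br .no .no .no (.br .no .no (.de 48) .no)) .no) .no .no) .no) .no .no) .no .no (.br (.br .no (.br .no .no (.br (.br .no .no (.de 41) (.de 46)) .no .no .no) .no) (.br .no (.br (.br .no .no (.de 41) (.de 46)) .no (.br .no .no .no (.br .no .no (.sy 39 78 5) .no)) .no) .no .no) .no) (.br .no .no (.br .no (.br (.br .no .no (.de 41) (.de 46)) .no (.br .no .no .no (.br .no .no (.sy 39 75 5) .no)) .no) .no .no) .no) .no .no)) .no .no .no) (.br (.br (.br .no (.br .no .no (.br .no (.br (.br .no (.br .no .no (.de 48) (.br .no .no (.de 48) .no)) .no (.de 46)) .no .no .no) .no .no) .no) .no .no) .no .no (.br (.br .no (.br .no .no (.br (.sw 1 3 [32]) (.br .no .no .no (.br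 .no .no (.sw 0 1 [28,34]) .no)) .no .no) .no) (.br .no (.br (.br .no (.br .no .no (.br .no (.br .no .no .no (.de 44)) (.br .no .no .no (.de 44)) .no) .no) .no (.de 46)) .no .no .no) .no .no) .no) (.br .no .no (.br .no (.br (.br .no (.br .no .no (.br .no .no (.br .no .no .no (.de 44)) .no) .no) .no (.de 46)) .no .no .no) .no .no) .no) .no .no)) .no .no .no) .no)) .no .no .no)) .no) .no .no)) (.br (.br (.br .no (.br .no .no (.br (.br .no .no .no (.br .no .no (.br .no (.br .no .no (.br (.br .no (.br .no .no (.br (.br .no .no .no (.de 41)) (.br (.br .no .no .no (.de 47)) .no .no (.de 41)) .no .no) .no) .no (.br .no (.br (.br .no .no .no (.de 41)) .no .no .no) (.de 44) .no)) .no .no (.br .no (.br .no .no (.br (.br .no .no .no (.de 41)) (.br (.br .no .no .no (.de 47)) .no .no (.de 41)) .no .no) .no) .no .no)) (.br (.br .no (.br .no .no (.br (.br .no .no .no (.de 46)) (.br (.br .no .no (.br .no (.br .no .no (.br .no .no .no (.de 45)) (.de 44)) (.br .no .no .no (.de 44)) .no) .no) .no .no (.br .no .no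 (.br .no (.br .no .no (.br .no .no .no (.de 45)) (.de 44)) (.br .no .no .no (.de 44)) .no) .no)) .no .no) .no) .no (.br .no (.br (.br .no .no .no (.de 46)) .no .no .no) (.de 44) .no)) .no .no .no)) .no (.br .no .no (.br (.br .no (.br .no .no (.br (.br .no (.de 41) .no .no) (.br (.br .no (.br .no (.br .no .no (.br .no .no .no (.de 45)) (.de 44)) .no .no) .no .no) .no .no .no) .no .no) .no) .no (.br .no (.br (.br .no (.de 41) .no .no) .no .no .no) (.de 44) .no)) .no .no (.br .no (.br .no .no (.br (.br .no (.de 41) .no .no) (.br (.br .no (.br .no (.br .no .no (.sw 0 3 [36]) .no) .no .no) .no .no) .no .no .no) .no .no) .no) .no .no)) (.br (.br .no (.br .no .no (.br (.br .no (.br .no .no (.br .no (.br .no .no (.br .no .no .no (.de 45)) (.de 44)) (.br .no .no .no (.de 44)) .no) .no) .no .no) (.br (.br .no (.br .no (.br .no .no (.br .no .no .no (.de 45)) (.de 44)) (.br .no .no .no (.de 44)) .no) (.sw 1 3 [34]) .no) .no .no .no) .no .no) .no) .no (.br .no (.br (.br .no (.br .no .no (.br .no (.br .no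 .no (.de 44) .no) (.de 43) .no) .no) .no .no) .no .no .no) (.de 44) .no)) .no .no .no))) .no)) .no .no (.br (.br .no .no (.br .no (.br .no .no (.br (.br .no (.br .no .no (.br .no (.sw 0 3 [31,32]) .no (.de 45)) .no) .no .no) .no .no (.br (.br .no (.br .no .no .no (.br (.de 46) .no .no .no)) (.br .no (.br (.br .no .no .no (.de 47)) .no .no (.de 41)) .no (.de 45)) .no) (.br .no .no (.br .no (.sw 0 3 [31,32]) .no (.de 45)) .no) .no .no)) (.br (.br .no (.br .no .no (.br .no (.sw 0 3 [31,32]) .no (.de 45)) .no) .no .no) .no .no .no)) .no (.br .no .no (.br (.br .no (.br .no .no (.br .no (.sw 0 3 [31,32]) .no (.de 45)) .no) .no .no) .no .no (.br (.br .no (.br .no .no .no (.br (.de 46) (.de 41) .no .no)) (.br .no (.br (.br .no (.br .no (.br .no .no (.br .no .no .no (.de 45)) .no) .no .no) .no .no) .no .no .no) .no (.de 45)) .no) (.br .no .no (.br .no (.sw 0 3 [31,32]) .no (.de 45)) .no) .no .no)) (.br (.br .no (.br .no .no (.br .no (.sw 0 3 [31,32]) .no (.de 45)) .no) .no .no) .no .no .no))) (.br .no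 (.br .no .no (.br (.br .no (.br .no .no (.br .no (.br (.sw 2 3 [33]) .no (.br .no .no .no (.br .no (.br .no .no (.br .no .no .no (.de 45)) (.de 44)) .no .no)) .no) .no .no) .no) .no .no) .no .no (.br (.br .no (.br .no .no (.br (.br .no .no .no (.de 47)) .no .no .no) .no) (.br .no (.br (.sw 2 3 [33]) .no (.br .no .no .no (.sy 40 78 5)) .no) .no .no) .no) (.br .no .no (.br .no (.br (.sw 2 3 [33]) .no (.br .no .no .no (.sy 40 75 5)) .no) .no .no) .no) .no .no)) (.br (.br .no (.br .no .no (.br .no (.br (.sw 2 3 [33]) .no (.de 41) .no) .no .no) .no) .no .no) .no .no .no)) .no .no)) .no .no .no)) (.br (.br .no .no .no (.br .no .no (.br .no (.br .no .no (.br (.br .no (.sw 2 3 [30]) (.br .no (.br (.br .no .no .no (.de 41)) .no .no .no) .no .no) .no) .no .no .no) (.br (.br .no (.sw 2 3 [30]) (.br .no (.br (.br .no .no .no (.de 46)) .no .no .no) .no .no) .no) .no (.br .no (.br .no .no (.br (.br .no .no .no (.de 46)) (.br (.br .no .no (.sy 36 198 5) .no) .no .no (.br .no .no (.sy 36 135 5) .no)) .no .no)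 .no) .no .no) .no)) .no (.br .no .no (.br (.br .no (.sw 2 3 [30]) (.br .no (.br (.br .no (.de 41) .no .no) .no .no .no) .no .no) .no) .no .no .no) (.br (.br .no (.sw 2 3 [30]) (.br .no (.br (.br .no (.br .no .no (.br .no (.br .no .no .no (.de 44)) (.br .no .no .no (.de 44)) .no) .no) .no .no) .no .no .no) .no .no) .no) .no (.br .no (.br .no .no (.br (.br .no (.br .no .no (.br .no (.br .no .no .no (.de 44)) .no .no) .no) .no .no) (.br (.br .no (.br .no (.br .no .no .no (.de 44)) .no .no) (.sw 1 3 [34]) .no) .no .no .no) .no .no) .no) .no .no) .no))) .no)) .no .no .no)) (.br .no .no .no (.br (.br .no .no .no (.br .no .no (.br .no (.br .no (.br (.br .no (.br .no .no (.br (.br .no .no .no (.de 46)) (.br (.br .no .no (.br .no .no (.br .no .no .no (.de 44)) .no) (.de 47)) .no .no (.br .no .no (.br .no .no (.br .no .no .no (.de 44)) .no) .no)) .no .no) .no) (.br .no (.br (.br .no .no .no (.de 46)) .no .no .no) .no .no) .no) .no .no .no) .no (.br (.sw 1 2 [29]) (.br .no .no (.br .no (.br (.br .no .no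 .no (.de 46)) .no .no .no) .no .no) .no) .no .no)) .no (.br .no (.br (.br .no (.br .no .no (.br (.br .no (.br .no .no (.br .no .no (.br .no .no .no (.de 44)) .no) .no) .no .no) (.br (.br .no .no (.sw 1 3 [34]) .no) .no .no .no) .no .no) .no) (.br .no (.br (.br .no (.br .no .no (.br .no .no (.br .no .no .no (.de 44)) .no) .no) .no .no) .no .no .no) .no .no) .no) .no .no .no) .no (.br (.sw 1 2 [29]) (.br .no .no (.br .no (.br (.br .no (.br .no .no (.br .no .no (.br .no .no .no (.de 44)) .no) .no) .no .no) .no .no .no) .no .no) .no) .no .no))) .no)) .no .no .no)) .no) (.br .no .no (.br .no .no .no (.br (.br .no .no .no (.br .no .no (.br .no .no .no (.br (.br .no (.br .no .no (.br .no (.br (.br .no (.br .no .no (.de 48) .no) .no .no) .no .no .no) .no .no) .no) .no .no) .no .no (.br (.br .no (.br .no .no (.br (.br .no (.br (.br .no (.br .no .no (.br .no .no .no (.de 45)) (.de 44)) (.de 48) .no) .no (.sw 0 1 [28]) .no) .no .no) (.br (.br .no .no (.sw 0 1 [28]) .no) .no .no .no) .no .no) .no) (.br .no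 (.br (.br .no (.br (.br .no (.br .no .no .no (.de 44)) (.de 48) .no) .no (.sw 0 1 [28]) .no) .no .no) .no .no .no) .no .no) .no) (.br .no .no (.br .no (.br (.br .no (.br (.sy 38 177 5) .no (.sw 0 1 [28]) .no) .no .no) .no .no .no) .no .no) .no) .no .no))) .no)) .no .no .no)) .no) .no .no) .no .no (.sw 0 2 [20])) .no .no)

def c3_2_1 : Cert := (.br .no .no (.br .no .no .no (.br (.br .no (.br .no .no c3_2_0 .no) .no (.br .no (.br (.br .no .no .no (.br (.br .no (.br .no .no (.br (.br .no .no (.br .no (.de 34) .no .no) (.br .no (.de 34) (.br .no (.br .no .no (.br (.br .no (.br .no .no (.br (.br .no .no .no (.de 41)) (.br (.br .no .no .no (.de 47)) .no .no (.de 41)) .no .no) .no) .no (.br .no (.br (.br .no .no .no (.de 41)) .no .no .no) (.de 44) .no)) .no .no (.br .no (.br .no .no (.br (.br .no .no .no (.de 41)) (.br (.br .no .no .no (.de 47)) .no .no (.de 41)) .no .no) .no) .no .no)) (.br (.br .no (.br .no .no (.br (.br .no .no .no (.de 46)) (.br (.br .no .no (.br .no (.br .no .no (.br .no .no .no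 (.de 45)) (.de 44)) (.br .no .no .no (.de 44)) .no) .no) .no .no (.sw 0 2 [20,26,33])) .no .no) .no) .no (.br .no (.br (.br .no .no .no (.de 46)) .no .no .no) (.de 44) .no)) .no .no .no)) .no .no) .no)) .no .no .no) .no) (.br .no (.br (.br .no .no (.br .no (.de 34) .no .no) (.br .no (.de 34) (.br .no (.br .no (.br (.br .no .no (.br .no (.br (.br .no .no .no (.de 46)) .no .no .no) .no .no) (.br .no (.br (.br .no .no .no (.de 46)) .no .no .no) (.de 44) .no)) .no .no (.br .no .no (.de 43) .no)) .no (.br (.br .no .no (.br .no (.br (.br .no .no .no (.de 46)) .no .no .no) .no .no) (.sw 1 2 [29,30])) .no .no .no)) .no .no) .no)) .no (.br .no .no .no (.br .no (.de 34) (.br .no (.br .no (.br (.br .no .no .no (.br (.br .no (.br (.br .no .no (.br .no .no (.de 43) .no) (.de 47)) .no .no (.sw 0 2 [20,26,33])) .no .no) (.sw 0 2 [31]) .no .no)) .no .no (.br (.br .no (.br (.br .no .no .no (.de 46)) .no .no .no) .no .no) .no .no .no)) .no (.br (.br .no .no .no (.br (.br .no (.br (.br .no .no (.br .no (.sy 35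 57 7) (.de 43) .no) .no) .no .no (.sw 0 2 [20,26,33])) .no .no) (.sw 0 2 [31]) .no .no)) .no .no .no)) .no .no) .no)) .no) .no .no) .no) (.br .no .no (.br .no (.br (.br .no .no (.br .no (.br (.br (.br .no .no .no (.br .no .no (.de 43) .no)) .no .no (.br (.br .no .no (.br .no (.br (.br .no .no (.de 41) (.de 46)) .no .no (.br .no .no (.de 41) .no)) .no (.de 44)) (.br .no (.br (.br .no .no (.de 41) (.de 46)) .no .no (.sw 0 2 [20,26,31,32])) .no .no)) .no .no .no)) .no .no .no) .no .no) (.br .no (.sw 0 2 [20,26]) (.br (.br (.br .no .no .no (.br .no .no (.de 43) .no)) .no .no (.br (.br .no .no (.br .no (.br (.br .no (.br .no .no (.br .no (.br .no .no .no (.de 44)) (.br .no .no .no (.de 44)) .no) .no) .no (.de 46)) .no .no .no) .no .no) (.br .no (.br (.br .no (.br .no .no (.br .no (.br .no .no (.de 44) .no) (.de 43) .no) .no) .no (.de 46)) .no .no .no) (.de 44) .no)) .no .no .no)) .no .no .no) .no)) .no (.br .no .no .no (.br .no (.sw 0 2 [20,26]) (.br (.br (.br .no .no .no (.br (.br .no (.br (.br .no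 (.sy 28 147 12) .no (.de 46)) .no .no .no) .no .no) .no .no .no)) .no .no (.sy 28 147 7)) .no .no .no) .no)) .no) .no .no) .no) .no .no)) .no .no .no) (.br (.br .no .no .no (.br (.br .no (.br .no .no (.br (.sw 1 3 [24]) (.br .no .no .no (.br .no (.de 34) (.br .no (.br .no .no (.br (.br .no .no .no (.br (.br .no (.br (.br .no .no .no (.de 47)) .no .no (.de 41)) .no .no) .no (.de 44) .no)) .no .no (.br (.br .no .no (.br (.sw 1 3 [24,31,32]) (.br (.br .no .no .no (.de 47)) .no .no (.de 41)) .no .no) .no) .no .no .no)) (.br (.br .no .no .no (.br (.sw 1 2 [25,29,30,31]) .no (.de 44) .no)) .no .no .no)) .no .no) .no)) .no .no) .no) (.br .no (.br (.br .no (.br .no .no (.br .no (.br .no (.br (.br .no .no (.sw 1 3 [24,30]) (.br .no .no (.de 44) .no)) .no .no (.br .no .no (.de 43) .no)) .no (.br (.br .no .no (.sw 1 3 [24,30]) (.sw 1 2 [29,30])) .no .no .no)) .no .no) .no) .no (.sw 1 2 [25])) .no .no .no) .no .no) .no) (.br .no .no (.br .no (.br (.br .no (.br .no .no (.br (.br (.br .no .no .no (.br .no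 .no (.de 43) .no)) .no .no (.br (.br .no .no (.sw 1 3 [24,30]) (.br .no .no (.de 44) .no)) .no .no .no)) .no .no .no) .no) .no (.sw 1 2 [25])) .no .no .no) .no .no) .no) .no .no)) (.br (.br (.br .no (.br .no .no (.br (.sw 1 3 [24]) (.br (.br .no .no (.br .no (.br .no .no (.br (.br .no .no .no (.br .no .no (.de 44) .no)) .no .no (.br (.br .no .no (.sw 1 3 [24,31]) (.br .no (.br (.br .no .no .no (.de 47)) .no .no (.de 41)) .no .no)) .no .no .no)) (.br (.br .no .no .no (.br .no .no (.de 44) .no)) .no .no .no)) .no (.br .no .no (.br (.br .no .no .no (.br .no .no (.de 44) .no)) .no .no (.br (.br .no .no (.sw 1 3 [24,31]) (.br .no (.br (.br .no (.br .no (.br .no .no (.de 44) .no) .no .no) .no .no) .no .no .no) .no .no)) .no .no .no)) (.br (.br .no .no .no (.br .no .no (.de 44) .no)) .no .no .no))) (.br .no (.br .no .no (.br (.br .no .no .no (.br .no .no (.de 44) .no)) .no .no (.br (.br .no .no (.sw 1 3 [24,31]) (.br .no (.br (.sw 2 3 [33]) .no (.br .no .no .no (.br .no (.br .no .no (.de 44) .no) .no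 .no)) .no) (.de 45) .no)) .no .no .no)) (.br (.br .no .no .no (.br .no .no (.de 44) .no)) .no .no .no)) .no .no)) .no .no (.br .no .no (.br .no (.br .no .no (.br (.br .no .no .no (.br (.br .no (.br (.br .no .no .no (.de 47)) .no .no (.de 41)) .no .no) .no (.de 44) .no)) .no .no (.br (.br .no .no (.br (.br .no .no .no (.de 41)) (.sw 0 3 [32]) .no .no) .no) .no .no .no)) (.br (.br .no .no .no (.br (.br .no (.br (.br .no .no (.br .no (.sy 35 57 7) (.de 43) .no) .no) .no .no (.sy 35 57 5)) .no .no) .no (.de 44) .no)) .no .no .no)) .no (.br .no .no (.br (.br .no .no .no (.br (.br .no (.br (.br .no (.sy 38 228 5) .no .no) .no .no .no) .no .no) .no (.de 44) .no)) .no .no (.br (.br .no .no (.br (.br .no (.de 41) .no .no) (.sw 0 3 [32]) .no .no) .no) .no .no .no)) (.br (.br .no .no .no (.br (.br .no (.br (.br .no (.sy 38 180 5) (.sw 1 3 [34]) .no) .no .no .no) .no .no) .no (.de 44) .no)) .no .no .no))) .no)) .no .no) .no) (.br .no (.br (.br .no .no .no (.br .no .no (.br .no (.br .no (.br (.br .no .no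 (.sw 1 3 [24,30]) (.br .no (.br (.br .no .no .no (.de 46)) .no .no .no) (.de 44) .no)) .no .no (.br .no .no (.de 43) .no)) .no (.br (.br .no .no (.sw 1 3 [24,30]) (.sw 1 2 [29,30])) .no .no .no)) .no (.br .no (.br (.br .no .no (.sw 1 3 [24,30]) (.br .no (.br (.br .no (.br .no .no (.br .no .no (.de 43) .no) .no) .no .no) .no .no .no) (.de 44) .no)) .no .no (.br .no .no (.de 43) .no)) .no (.br (.br .no .no (.sw 1 3 [24,30]) (.sw 1 2 [29,30])) .no .no .no))) .no)) .no .no .no) .no .no) .no) (.br .no .no (.br .no (.br (.br .no .no .no (.br .no .no (.br .no .no .no (.br (.br .no .no .no (.br .no .no (.de 43) .no)) .no .no (.br (.br .no .no (.sw 1 3 [24,30]) (.br .no (.br (.br .no (.br (.sy 41 120 5) .no (.sw 0 1 [28]) .no) .no .no) .no .no .no) (.de 44) .no)) .no .no .no))) .no)) .no .no .no) .no .no) .no) .no .no) .no .no (.sw 0 2 [20])) .no .no) .no)) .no .no .no)) (.br .no .no (.br (.br .no (.br .no .no (.br (.de 27) (.br (.br (.br .no (.br .no .no (.br (.br .no .no .no (.br .no .no (.br .no (.sw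 2 3 [21,22]) .no .no) .no)) .no .no (.br (.br .no .no (.br .no (.sw 2 3 [21,22]) .no .no) (.br .no (.sw 0 2 [20,27]) (.br .no .no (.br (.br .no (.br .no .no (.br .no (.br (.br .no (.sw 2 3 [21,22,33,34]) .no (.de 47)) .no .no .no) .no .no) .no) .no .no) .no .no (.br (.br .no (.br .no .no (.br (.br .no (.br .no (.br .no .no (.br .no .no .no (.de 45)) .no) .no .no) .no (.de 47)) (.br .no .no .no (.br .no (.br .no .no (.br .no .no .no (.de 45)) .no) .no .no)) .no .no) .no) (.br .no (.br (.br .no (.sw 2 3 [21,22,33,34]) .no (.de 47)) .no .no .no) .no .no) .no) (.br .no .no (.br .no (.br (.br .no (.sw 2 3 [21,22,33,34]) .no (.de 47)) .no .no .no) .no .no) .no) .no .no)) (.br (.br .no (.br .no .no (.br .no (.br (.br .no (.sw 2 3 [21,22,33,34]) .no .no) .no .no .no) .no .no) .no) .no .no) .no .no .no)) .no)) .no .no .no)) (.br (.br .no .no .no (.br .no .no (.br .no (.sw 2 3 [21,22]) .no .no) .no)) .no .no .no)) .no (.br .no .no (.br (.br .no .no .no (.br .no .no (.br .no (.br .no (.br (.br .no (.sw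 2 3 [21,22,29,30]) .no (.br .no (.br (.br .no .no .no (.de 46)) .no .no .no) (.de 44) .no)) .no .no .no) (.br (.sw 1 3 [29]) (.de 42) .no .no) .no) .no .no) .no)) .no .no (.br (.br .no .no (.br .no (.br .no (.br (.br .no (.br .no .no (.br .no (.sw 0 3 [31,32]) .no (.de 45)) .no) .no .no) .no .no .no) (.br (.sw 1 3 [29]) (.de 42) .no .no) .no) .no .no) (.br .no (.sw 0 2 [20,27]) (.br .no (.br (.br .no (.br .no .no (.br .no (.br (.br .no .no .no (.de 47)) .no .no .no) .no .no) .no) .no .no) .no .no .no) (.br (.sw 1 3 [29]) (.de 42) .no .no) .no) .no)) .no .no .no)) .no)) (.br .no .no .no (.br .no .no (.br (.br .no .no .no (.br .no .no (.de 34) .no)) .no .no (.br (.br .no .no (.de 34) (.br .no .no (.br (.br .no (.br (.br .no (.br .no .no (.br (.sy 35 228 5) (.br .no .no .no (.sw 0 2 [20,27,34])) .no .no) .no) (.br .no (.br (.br .no .no .no (.de 47)) .no .no .no) .no .no) .no) .no .no .no) .no .no) .no (.br (.br .no (.br .no .no (.br .no (.br (.br .no .no .no (.de 47)) .no .no .no) .no .no) .no)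 .no .no) (.de 42) .no .no) .no) .no)) .no .no .no)) .no)) .no .no) .no .no .no) .no .no) .no) .no (.br .no (.br (.de 27) .no .no .no) (.br (.de 27) (.br (.br (.br .no (.br .no .no (.br (.sw 1 3 [24]) (.br (.br .no .no (.br .no (.sw 2 3 [21,22]) .no .no) (.br .no (.sw 0 2 [20,27]) (.br .no .no (.br (.br .no .no .no (.br .no .no (.de 44) .no)) .no .no (.br (.br .no .no (.sw 1 3 [24,31]) (.br .no (.br (.br .no (.sw 2 3 [21,22,33,34]) .no (.de 47)) .no .no .no) (.de 45) .no)) .no .no .no)) (.br (.br .no .no .no (.br .no .no (.de 44) .no)) .no .no .no)) .no)) .no .no (.br .no .no (.br .no (.sw 2 3 [21,22]) .no .no) .no)) .no .no) .no) .no (.br .no (.br (.br .no .no .no (.br .no .no (.br .no (.br .no (.br (.sw 2 3 [21,22,29]) .no (.de 42) .no) (.br (.br .no .no (.sw 1 3 [24,29,30]) (.br .no (.br (.br .no .no .no (.de 41)) .no .no .no) (.de 44) .no)) .no .no .no) .no) .no .no) .no)) .no .no .no) (.br (.sw 1 3 [24]) (.br (.br .no .no (.br .no (.br .no (.br (.br .no .no .no (.br .no .no (.de 44) .no))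 .no .no .no) (.br (.sw 1 3 [29]) (.de 42) .no .no) .no) .no .no) (.br .no (.sw 0 2 [20,27]) (.br .no (.br (.br .no .no .no (.br .no .no (.de 44) .no)) .no .no .no) (.br (.sw 1 3 [29]) (.de 42) .no .no) .no) .no)) .no .no (.br .no .no (.br .no (.br .no (.br (.br .no .no .no (.br (.br .no (.br (.br .no .no (.br .no .no (.de 43) .no) (.de 47)) .no .no (.sw 0 2 [20,27,33])) .no .no) .no (.de 44) .no)) .no .no .no) (.br (.sw 1 3 [29]) (.de 42) .no .no) .no) .no .no) .no)) .no .no) .no)) (.br .no .no .no (.br .no (.br (.br .no .no .no (.br .no .no (.de 34) .no)) .no .no .no) (.br (.sw 1 3 [24]) (.br (.br .no .no (.de 34) (.br .no .no (.br (.br .no (.br (.br .no .no (.sw 1 3 [24,31]) (.br .no (.br (.br .no .no .no (.de 47)) .no .no .no) (.de 45) .no)) .no .no (.br .no .no (.de 44) .no)) .no .no) .no (.br (.br .no .no .no (.br .no .no (.de 44) .no)) (.de 42) .no .no) .no) .no)) .no .no (.br .no .no (.de 34) .no)) .no .no) .no)) .no .no) .no .no .no) .no .no) .no)) .no .no (.br .no (.br .no .no (.br (.de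 27) (.br (.br (.br .no (.br (.br .no .no .no (.br (.br .no .no (.br .no (.br .no .no (.br .no .no .no (.br .no (.br .no .no (.br .no (.br (.br .no .no .no (.de 47)) .no .no (.de 41)) .no (.de 45)) .no) (.de 43) .no)) (.br .no .no (.br .no (.br .no .no (.br .no (.sw 0 3 [23,30,31,32]) .no (.de 45)) .no) .no .no) .no)) .no .no) (.br .no (.sw 0 2 [20,27]) (.sy 30 108 5) .no)) .no .no .no)) .no (.sw 0 3 [23]) .no) .no .no) (.br (.br .no .no (.br (.br .no .no .no (.br .no .no (.de 34) .no)) .no .no (.br (.br .no .no (.de 34) (.br .no .no (.br .no .no (.br .no (.de 42) .no (.br (.br .no (.br .no .no (.br (.br .no .no .no (.de 47)) (.br (.de 48) .no .no (.sw 0 1 [28,29])) .no .no) .no) (.br .no (.br (.br .no .no .no (.de 47)) .no .no .no) .no .no) .no) (.br .no .no (.br .no (.br (.br .no .no .no (.de 47)) .no .no .no) .no .no) .no) .no .no)) (.br .no (.br (.br .no (.br .no .no (.br (.de 41) (.br (.br .no .no (.de 48) .no) .no .no .no) .no .no) .no) (.br .no (.br (.de 41) .no .no .no) .no .no) .no) .no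 .no .no) .no .no)) .no)) .no .no .no)) .no) .no .no .no) .no .no) .no .no .no) .no .no) .no) .no .no)) .no))

def c3_2_2 : Cert := (.br .no .no (.br .no (.br (.br .no .no .no (.br (.br .no .no (.br .no (.br (.br .no .no (.br .no (.de 34) .no .no) (.br .no (.de 34) (.br .no (.br .no (.br (.br .no .no (.br .no (.br (.br .no .no .no (.de 46)) .no .no .no) .no .no) (.br .no (.br (.br .no .no .no (.de 46)) .no .no .no) (.de 44) .no)) .no .no (.br .no .no (.de 43) .no)) .no (.br (.br .no .no (.br .no (.br (.br .no .no .no (.de 46)) .no .no .no) .no .no) (.br .no (.br (.br .no .no .no (.de 46)) .no .no .no) (.de 44) .no)) .no .no .no)) .no .no) .no)) .no .no (.br .no .no (.br .no (.de 34) .no .no) .no)) .no (.br (.br .no .no (.br .no (.de 34) .no .no) (.br .no (.de 34) (.br .no (.br .no (.br (.br .no (.br .no .no (.br (.br .no .no .no (.de 46)) (.br (.br .no .no (.br .no .no (.br .no .no .no (.de 44)) .no) (.de 47)) .no .no (.sw 0 2 [20,26,33])) .no .no) .no) (.sw 1 3 [30]) .no) .no .no .no) .no (.br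 (.br .no (.br .no .no (.br (.br .no .no .no (.de 46)) (.br (.br .no .no (.br .no (.br .no .no (.br .no .no .no (.de 45)) (.de 44)) (.br .no .no .no (.de 44)) .no) .no) .no .no (.sw 0 2 [20,26,33])) .no .no) .no) (.sw 1 3 [30]) .no) (.br .no .no (.br .no (.br (.br .no .no .no (.de 46)) .no .no .no) .no .no) .no) .no .no)) .no .no) .no)) .no .no .no)) (.br .no (.br (.br .no .no (.br .no (.de 34) .no .no) (.br .no (.de 34) (.br .no (.br .no (.br (.sw 2 3 [29]) .no (.de 42) .no) (.br (.br .no .no (.br .no (.br (.br .no .no .no (.de 41)) .no .no .no) .no .no) (.br .no (.br (.br .no .no .no (.de 41)) .no .no .no) (.de 44) .no)) .no .no .no) .no) .no .no) .no)) .no .no (.br .no .no (.br .no (.de 34) .no .no) .no)) .no .no)) .no .no (.br .no .no (.br .no (.br (.br .no .no (.br .no (.br (.br (.br .no .no .no (.br .no .no (.de 43) .no)) (.br (.br .no .no (.br .no (.br (.br .no .no (.de 41) (.de 46)) .no .no (.br .no .no (.de 41) .no)) .no (.de 44)) (.br .no (.br (.br .no .no (.de 41) (.de 46)) .no .no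 (.br .no .no (.de 41) .no)) .no .no)) .no .no (.br .no .no (.de 43) .no)) .no .no) .no .no .no) .no .no) (.br .no (.sw 0 2 [20,26]) (.br (.br (.br .no .no .no (.br .no .no (.de 43) .no)) (.br (.br .no .no (.br .no (.br (.br .no (.br .no .no (.br .no .no (.br .no .no .no (.de 44)) .no) .no) .no (.de 46)) .no .no .no) .no .no) (.br .no (.br (.br .no (.br .no .no (.br .no .no (.de 43) .no) .no) .no (.de 46)) .no .no .no) (.de 44) .no)) .no .no (.br .no .no (.de 43) .no)) .no .no) (.br (.br .no .no .no (.br .no .no (.de 43) .no)) (.br (.br .no .no (.br .no (.br (.br .no .no .no (.de 46)) .no .no .no) .no .no) (.br .no (.br (.br .no .no .no (.de 46)) .no .no .no) (.de 44) .no)) .no .no (.br .no .no (.de 43) .no)) .no .no) .no .no) .no)) .no .no (.br .no .no (.br .no (.br (.br (.br .no .no .no (.br (.br .no (.br (.br .no .no (.br .no (.br .no (.br .no .no (.br .no .no .no (.br .no .no (.br .no .no .no (.br (.br .no .no (.sy 43 78 5) .no) .no .no .no)) .no)) .no) (.de 43) .no) .no .no) (.de 46)) .no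 .no (.sw 0 2 [20,26,32])) .no .no) .no (.de 43) .no)) (.br (.br .no .no (.br (.br .no .no .no (.br .no .no (.de 41) .no)) (.sw 0 3 [31]) .no .no) .no) .no .no (.br (.br .no (.br (.br .no .no (.de 41) (.de 46)) .no .no (.sw 0 2 [20,26,32])) .no .no) .no (.de 43) .no)) .no .no) .no .no .no) .no .no) .no)) .no (.br (.br .no .no (.br .no (.br (.br (.br .no (.br .no .no (.br .no (.br (.br .no .no (.br .no (.br .no .no (.de 48) .no) .no .no) (.de 46)) .no .no (.br .no .no (.br .no (.br .no .no (.de 48) .no) .no .no) .no)) .no (.de 44)) .no) .no .no) (.br (.br .no (.br .no .no .no (.br (.br .no .no (.de 41) (.de 46)) .no .no .no)) (.sw 1 3 [30]) .no) .no .no .no) .no .no) .no .no .no) .no .no) (.br .no (.sw 0 2 [20,26]) (.br (.br (.br .no (.br .no .no (.br .no (.br (.br .no (.br .no .no (.de 48) .no) .no (.de 46)) .no .no .no) .no .no) .no) .no .no) (.br (.br .no (.br .no .no (.br (.br .no (.br .no .no (.br .no .no (.br .no .no .no (.de 44)) .no) .no) .no (.de 46)) (.br .no .no .no (.br .no .no (.br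 .no .no (.br .no .no .no (.de 44)) .no) .no)) .no .no) .no) (.sw 1 3 [30]) .no) .no .no .no) .no .no) (.br (.br .no (.br .no .no (.br .no (.br (.br .no .no .no (.de 46)) .no .no .no) .no .no) .no) .no .no) (.br (.br .no (.br .no .no (.br (.br .no .no .no (.de 46)) (.br (.br .no .no (.sw 0 3 [28]) .no) .no .no (.sw 0 2 [20,26,33])) .no .no) .no) (.sw 1 3 [30]) .no) .no .no .no) .no .no) .no .no) .no)) .no .no .no)) .no))) .no .no .no) .no .no) (.br .no (.sw 0 2 [12,18]) (.br (.br .no .no .no (.br (.br .no .no (.br .no (.br (.br .no (.br .no .no (.br .no (.br .no (.br (.br .no .no (.br .no .no .no (.de 44)) (.br .no .no (.de 44) .no)) .no .no (.br .no .no (.de 43) .no)) .no (.br (.br .no .no (.br .no .no .no (.de 44)) (.br .no .no (.de 44) .no)) .no .no .no)) .no .no) .no) .no (.sw 1 2 [25])) .no .no .no) .no .no) (.br .no (.br (.br .no (.br .no .no (.br .no (.br .no (.br (.sw 2 3 [29]) .no (.de 42) .no) (.br (.br .no .no (.br .no .no .no (.de 44)) (.br .no .no (.de 44) .no)) .no .no .no) .no)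 .no .no) .no) .no (.sw 1 2 [25])) .no .no .no) (.br (.br .no (.br .no .no (.br .no (.br .no (.br (.br .no (.br .no .no (.br (.br .no .no .no (.de 46)) .no .no (.de 45)) (.br (.br .no .no .no (.de 46)) .no .no .no)) .no (.sw 1 2 [30])) .no .no .no) (.br (.br .no (.br .no .no (.br (.br .no .no .no (.de 41)) .no .no (.de 45)) (.br (.br .no .no .no (.de 41)) .no .no .no)) .no (.sw 1 2 [30])) (.de 42) .no .no) .no) .no .no) .no) .no (.sw 1 2 [25])) (.br .no .no .no (.br .no (.de 34) (.br .no (.br .no (.br (.br .no .no .no (.br (.sw 1 2 [25,30,31]) .no (.de 44) .no)) .no .no .no) (.br (.br .no .no .no (.br (.sw 1 2 [25,30,31]) .no (.de 44) .no)) (.de 42) .no .no) .no) .no .no) .no)) .no .no) .no)) .no .no (.br .no .no (.br .no (.br (.br .no (.br .no .no (.br (.br (.br .no .no .no (.br .no .no (.de 43) .no)) (.br (.br .no .no (.br .no .no .no (.de 44)) (.br .no .no (.de 44) .no)) .no .no (.br .no .no (.de 43) .no)) .no .no) (.br (.br .no .no .no (.br .no .no (.de 43) .no)) (.br (.br .no .no (.br .no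 .no .no (.de 44)) (.br .no .no (.de 44) .no)) .no .no (.br .no .no (.de 43) .no)) .no .no) .no .no) .no) .no (.sw 1 2 [25])) .no .no .no) .no .no) .no))) (.br (.br (.br .no .no (.br .no (.br (.br .no .no .no (.br .no .no (.br .no (.br .no (.br (.br .no .no (.br .no (.br (.br .no .no .no (.de 46)) .no .no .no) .no .no) (.br .no (.sw 0 2 [12,18,25,31]) (.de 44) .no)) .no .no (.br .no .no (.de 43) .no)) .no (.br (.br .no .no (.br .no (.br (.br .no .no .no (.de 46)) .no .no .no) .no .no) (.br .no (.sw 0 2 [12,18,25,31]) (.de 44) .no)) .no .no .no)) .no (.br .no (.br (.br .no .no (.br .no (.br (.br .no (.br .no .no (.br .no .no (.br .no .no .no (.de 44)) .no) .no) .no .no) .no .no .no) .no .no) (.br .no (.sw 0 2 [12,18,25,31]) (.de 44) .no)) .no .no (.br .no .no (.de 43) .no)) .no (.br (.br .no .no (.br .no (.br (.br .no (.br .no .no (.br .no (.br .no .no .no (.de 44)) (.br .no .no .no (.de 44)) .no) .no) .no .no) .no .no .no) .no .no) (.br .no (.sw 0 2 [12,18,25,31]) (.de 44) .no)) .no .no .no)))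 .no)) .no .no .no) .no .no) (.br .no (.br (.br .no .no .no (.br .no .no (.br .no (.br .no (.br (.sw 2 3 [29]) .no (.de 42) .no) (.br (.br .no .no (.br .no (.br (.br .no .no .no (.de 41)) .no .no .no) .no .no) (.br .no (.sw 0 2 [12,18,25,31]) (.de 44) .no)) .no .no .no) .no) .no (.br .no (.br (.sw 2 3 [29]) .no (.de 42) .no) (.br (.br .no .no (.br .no (.br (.br .no (.de 41) .no .no) .no .no .no) .no .no) (.br .no (.sw 0 2 [12,18,25,31]) (.de 44) .no)) .no .no .no) .no)) .no)) .no .no .no) (.br (.br .no .no .no (.br .no .no (.br .no (.br .no (.br (.br .no (.br .no .no (.br (.br .no .no .no (.de 46)) (.br (.br .no .no (.br .no .no (.br .no .no .no (.de 44)) .no) (.de 47)) .no .no (.br .no .no (.br .no .no (.br .no .no .no (.de 44)) .no) .no)) .no .no) .no) .no (.sw 1 2 [30])) .no .no .no) (.br (.br .no (.br .no .no (.br (.br .no .no .no (.de 41)) (.br (.br .no .no .no (.de 47)) .no .no (.de 41)) .no .no) .no) .no (.sw 1 2 [30])) (.de 42) .no .no) .no) .no (.br .no (.br (.br .no (.br .no .no (.br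 (.br .no (.br .no .no (.br .no .no (.br .no .no .no (.de 44)) .no) .no) .no .no) (.br (.br .no .no (.sw 1 3 [34]) .no) .no .no .no) .no .no) .no) .no (.sw 1 2 [30])) .no .no .no) (.br (.br .no (.br .no .no (.br (.br .no (.de 41) .no .no) (.br (.br .no (.br .no (.br .no .no (.br .no .no .no (.de 45)) (.de 44)) .no .no) .no .no) .no .no .no) .no .no) .no) .no (.sw 1 2 [30])) (.de 42) .no .no) .no)) .no)) (.br (.br .no .no (.br .no (.br .no (.br (.br .no .no .no (.br .no .no (.de 44) .no)) .no .no .no) (.br (.br .no .no .no (.br .no .no (.de 44) .no)) (.de 42) .no .no) .no) .no (.br .no (.br (.br .no .no .no (.br .no .no (.de 44) .no)) .no .no .no) (.br (.br .no .no .no (.br .no .no (.de 44) .no)) (.de 42) .no .no) .no)) (.br .no (.br .no (.br (.br .no .no .no (.br .no .no (.de 44) .no)) .no .no .no) (.br (.br .no .no .no (.br .no .no (.de 44) .no)) (.de 42) .no .no) .no) .no .no)) .no .no (.sw 0 2 [12,18,25])) .no .no) .no)) .no .no (.br .no .no (.br .no (.br (.br .no .no .no (.br .no .no (.br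 .no (.br (.br .no .no .no (.br .no .no (.de 43) .no)) (.br (.br .no .no (.br .no (.br (.br .no .no .no (.de 46)) .no .no .no) .no .no) (.br .no (.sw 0 2 [12,18,25,31]) (.de 44) .no)) .no .no (.br .no .no (.de 43) .no)) .no .no) .no .no) .no)) .no .no .no) .no .no) .no)) .no .no (.sw 0 2 [20])) .no .no) .no))

def c3_2_3 : Cert := (.br .no (.br .no .no (.br (.br .no .no .no (.br (.sw 2 3 [7,8,9]) .no c3_2_1 .no)) (.br (.br .no .no (.br .no .no (.br .no .no .no (.br (.br .no .no .no (.br .no .no (.br .no (.br (.sw 2 3 [7,8,9,20]) .no .no (.br (.br .no (.br .no .no (.br (.br .no .no .no (.br (.br .no (.sw 2 3 [7,8,9,20,21,22,27]) .no .no) .no (.br .no (.sw 0 3 [27]) .no .no) .no)) (.br (.br .no .no (.br .no (.sw 0 3 [27]) .no .no) .no) .no .no (.sw 0 2 [12,19,20,25])) .no .no) .no) (.br .no (.br (.br .no .no .no (.br (.br .no (.br .no (.br (.sw 2 3 [7,8,9,20,21,22,27,29]) .no .no (.br .no .no (.de 43) .no)) .no (.br (.br .no .no (.br .no (.br .no .no (.br .no .no .no (.br .no .no (.sy 39 78 5) .no))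 .no) .no .no) (.sw 1 2 [29,30])) .no .no .no)) .no .no) .no (.br .no (.sw 0 3 [27]) .no .no) .no)) .no .no .no) .no .no) .no) (.br .no .no (.br .no (.br (.br .no .no .no (.br (.de 34) .no (.br (.br (.br .no .no .no (.br .no .no (.de 43) .no)) .no .no (.br (.br .no .no (.br .no (.br (.br .no (.br .no .no (.sw 0 3 [27,34]) .no) .no (.de 46)) .no .no .no) .no .no) (.br .no (.sw 0 2 [12,19,20,25,31]) (.de 44) .no)) .no .no .no)) .no .no .no) .no)) .no .no .no) .no .no) .no) .no .no)) .no (.br (.br (.br .no (.br .no .no (.br (.br .no (.br .no .no (.br .no (.br .no .no (.br (.br .no (.br .no .no (.br (.sw 1 3 [26,32]) .no .no (.de 45)) (.br (.br .no .no .no (.de 41)) .no .no .no)) .no (.br .no .no (.de 44) .no)) .no .no (.br .no (.br .no .no (.br (.sw 1 3 [26,32]) .no .no (.de 45)) (.br (.br .no .no .no (.de 41)) .no .no .no)) .no .no)) (.br (.br .no (.br .no .no (.br (.sw 1 3 [26,32]) .no .no (.de 45)) (.br (.br .no .no .no (.de 46)) .no .no .no)) .no (.br .no .no (.de 44) .no)) .no .no .no)) .no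 (.br .no .no (.br (.br .no (.br .no .no (.br (.sw 1 3 [26,32]) .no .no (.de 45)) (.br (.br .no (.de 41) .no .no) .no .no .no)) .no (.br .no .no (.de 44) .no)) .no .no (.br .no (.br .no .no (.br (.sw 1 3 [26,32]) .no .no (.de 45)) (.br (.br .no (.de 41) .no .no) .no .no .no)) .no .no)) (.br (.br .no (.br .no .no (.br (.sw 1 3 [26,32]) .no .no (.de 45)) (.br (.br .no (.br .no .no (.br .no (.br .no .no (.de 44) (.br .no .no (.de 45) .no)) (.br .no .no .no (.br .no .no (.de 45) .no)) .no) .no) .no .no) .no .no .no)) .no (.br .no .no (.de 44) .no)) .no .no .no))) .no) .no .no) (.br (.br .no (.br .no .no .no (.br .no .no (.br (.br .no .no .no (.br .no .no (.de 44) .no)) .no .no (.br (.br .no .no (.br .no .no .no (.de 45)) (.br .no .no (.de 45) .no)) .no .no .no)) (.br (.br .no .no .no (.br .no .no (.de 44) .no)) .no .no .no))) (.sw 1 3 [26]) .no) .no .no .no) .no .no) .no) (.br .no (.br (.br .no (.br .no .no (.br .no (.br .no (.br (.br .no .no (.br .no .no .no (.de 44)) (.br .no .no (.de 44) .no))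 .no .no (.br .no .no (.de 43) .no)) .no (.br (.br .no .no (.br .no .no .no (.de 44)) (.sw 1 2 [29,30])) .no .no .no)) .no (.br .no (.br (.br .no .no (.br .no .no .no (.de 44)) (.br .no .no (.de 44) .no)) .no .no (.br .no .no (.de 43) .no)) .no (.br (.br .no .no (.br .no .no .no (.de 44)) (.sw 1 2 [29,30])) .no .no .no))) .no) .no .no) .no .no .no) .no .no) .no) (.br .no .no (.br .no (.br (.br .no (.br .no .no (.br .no .no .no (.br (.br .no .no .no (.br .no .no (.de 43) .no)) .no .no (.br (.br .no .no (.br .no .no .no (.de 44)) (.br .no .no (.de 44) .no)) .no .no .no))) .no) .no .no) .no .no .no) .no .no) .no) .no .no) .no .no .no)) .no)) .no .no .no)) (.br .no .no (.br (.br .no .no .no (.br .no .no (.br .no (.br (.sw 2 3 [7,8,9,20]) .no .no .no) .no (.br (.br (.br .no (.br .no .no (.br (.br .no (.br .no .no (.br .no (.sw 2 3 [21,22]) .no .no) .no) .no .no) (.br (.br .no (.br .no .no (.br .no .no (.br (.br .no .no .no (.br .no .no (.de 44) .no)) .no .no (.br (.br .no .no (.br .no .no .no (.de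 45)) (.br .no .no (.de 45) .no)) .no .no .no)) (.br (.br .no .no .no (.br .no .no (.de 44) .no)) .no .no .no)) .no) (.sw 1 3 [26]) .no) .no .no .no) .no .no) .no) .no (.br .no (.br (.br .no (.br .no .no (.br .no (.br .no (.br (.sw 2 3 [21,22,29]) .no (.de 42) .no) (.br (.br .no .no (.br .no .no .no (.de 44)) (.br .no .no (.de 44) .no)) .no .no .no) .no) .no .no) .no) .no .no) .no .no .no) (.br (.br .no (.br .no .no (.br .no (.br .no (.br (.br .no (.br .no .no (.br (.sw 1 3 [26,32]) .no .no (.de 45)) (.br (.br .no .no .no (.de 46)) .no .no .no)) .no (.sw 1 2 [30])) .no .no .no) (.br (.sw 1 3 [29]) (.de 42) .no .no) .no) .no .no) .no) .no .no) (.br (.br .no (.br .no .no (.br .no (.br (.br .no .no .no (.br .no .no (.de 44) .no)) .no .no .no) (.br (.sw 1 3 [29]) (.de 42) .no .no) .no) .no) (.sw 1 3 [26]) .no) .no .no .no) .no .no) .no)) (.br .no .no .no (.br .no (.br (.br .no (.br .no .no (.de 34) .no) .no .no) .no .no .no) (.br (.br .no (.br .no .no (.de 34) .no) .no .no) (.br (.br .no (.br .no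 .no (.br (.br .no (.br (.br .no .no (.br .no .no .no (.de 45)) (.br .no .no (.de 45) .no)) .no .no (.br .no .no (.de 44) .no)) .no .no) .no (.br (.br .no .no .no (.br .no .no (.de 44) .no)) (.de 42) .no .no) .no) .no) (.de 34) .no) .no .no .no) .no .no) .no)) .no .no) .no .no .no)) .no)) .no .no (.br (.br .no .no (.br .no (.br (.sw 2 3 [7,8,9,20]) .no .no .no) .no (.br (.br (.br .no (.br .no .no (.br .no (.sw 0 3 [23,24]) .no (.br (.br .no (.br .no .no (.br .no .no (.br (.br .no (.br .no .no (.br .no .no .no (.de 45)) .no) .no .no) .no .no (.br (.br .no (.br .no .no (.br (.sw 1 3 [26,33]) .no .no (.br .no (.br .no (.br .no .no (.br .no .no .no (.de 45)) .no) .no .no) .no .no)) (.br (.de 46) .no .no .no)) (.sw 1 3 [31]) .no) (.br .no .no (.br .no .no .no (.de 45)) .no) .no .no)) (.br (.br .no (.br .no .no (.br .no .no .no (.de 45)) .no) .no .no) .no .no .no)) .no) (.sw 1 3 [26]) .no) (.br .no .no (.br .no (.br .no .no (.br (.br .no (.br (.br .no .no .no (.br (.de 46) .no .no .no)) .no (.sw 0 3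 [23,24,31]) .no) .no .no) .no .no (.br (.br .no .no (.br (.sw 1 3 [26,31,32]) .no .no (.de 45)) .no) (.br (.br .no .no .no (.br (.de 46) .no .no .no)) .no (.sw 0 3 [23,24,31]) .no) .no .no)) (.br (.br .no (.br (.br .no .no .no (.br (.de 46) .no .no .no)) .no (.sw 0 3 [23,24,31]) .no) .no .no) .no .no .no)) .no .no) .no) .no .no)) .no) .no .no) (.br (.br .no (.br .no .no .no (.br (.br .no (.br .no .no (.br .no .no (.br .no .no .no (.br (.br .no (.sw 2 3 [7,8,9,20,25,26,31]) (.br .no .no .no (.de 45)) .no) .no (.de 43) .no)) (.br .no .no (.br (.br .no (.sw 2 3 [7,8,9,20,25,26,31]) (.br .no .no .no (.de 45)) .no) .no .no .no) .no)) .no) (.de 34) .no) (.br .no .no (.de 34) .no) .no .no)) (.br .no (.br (.br .no (.sw 2 3 [7,8,9,20,25,26]) (.de 34) .no) .no .no .no) .no (.br (.br .no (.br .no .no (.br .no .no (.br .no (.de 42) .no (.br (.sw 1 2 [30]) (.br .no .no (.br .no .no .no (.de 45)) .no) .no .no)) (.br .no (.br (.br .no (.br .no .no (.br (.de 41) .no .no (.br (.de 47) .no .no .no)) (.br (.de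 41) .no .no .no)) (.sw 1 3 [31]) .no) .no .no .no) .no .no)) .no) (.de 34) .no) (.br .no .no (.de 34) .no) .no .no)) .no) .no .no .no) .no .no) .no .no .no)) (.br .no (.br (.sw 2 3 [7,8,9,20]) .no .no .no) .no .no)) .no .no .no)) .no)) .no) .no .no (.sw 0 2 [12])) .no .no) .no) (.br .no (.br (.br .no .no .no (.br (.br .no .no (.br .no (.br (.sw 2 3 [7,8,9,16]) .no .no (.br .no .no (.br .no (.br .no .no (.br .no .no .no (.br (.br .no .no (.br (.br .no .no .no (.br (.br .no (.de 34) .no .no) .no .no .no)) (.sw 0 3 [23]) .no .no) .no) .no .no (.br (.br .no (.br (.sw 2 3 [7,8,9,16,23,24]) .no .no (.sw 0 2 [12,18,24])) .no .no) .no (.br (.br .no .no .no (.br (.br .no (.br (.br (.br .no (.br .no .no (.br .no (.br .no .no (.sw 0 3 [23,30,31,32]) (.br .no .no (.br .no (.br .no .no (.de 48) .no) .no .no) .no)) .no .no) .no) .no (.br .no (.br .no .no (.br .no .no .no (.de 45)) .no) (.de 43) .no)) (.br .no .no .no (.br .no (.sw 0 2 [12,18,24,29,30]) (.de 43) .no)) .no .no) .no .no .no) .no .no) .no .no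 .no)) (.sw 0 3 [23]) .no .no) .no))) .no) .no .no) .no)) .no (.br (.br .no .no (.br .no (.br .no .no (.br .no .no .no (.sy 26 78 5)) .no) .no .no) (.sw 1 2 [16,17])) .no .no .no)) (.br .no (.br (.sw 2 3 [7,8,9,16]) .no .no (.br .no .no (.br .no (.br .no .no (.de 27) .no) .no .no) .no)) .no .no)) .no (.br .no .no (.br .no (.br c3_2_2 .no .no (.br .no .no (.br .no (.br (.br .no .no .no (.br (.br .no .no (.br (.br .no .no .no (.br .no .no (.br .no (.de 34) .no .no) .no)) (.sw 0 3 [23]) .no .no) .no) .no .no (.br (.br .no (.br (.br .no .no (.br .no (.br (.br .no (.br .no .no (.de 42) (.br .no .no (.de 43) .no)) (.br .no .no .no (.br .no .no (.de 43) .no)) .no) .no .no .no) .no .no) (.br .no (.sw 0 2 [20,26]) (.br (.br .no (.br .no .no (.de 42) (.br .no .no (.de 43) .no)) (.br .no .no .no (.br .no .no (.de 43) .no)) .no) (.br .no (.br .no .no (.de 42) (.br .no .no (.de 43) .no)) (.br .no .no .no (.br .no .no (.de 43) .no)) .no) .no .no) .no)) .no .no (.sw 0 2 [12,18,24])) .no .no) .no (.sw 0 1 [14,15,22])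 .no))) .no .no .no) .no .no) .no)) .no (.br (.br .no .no (.br .no (.br (.br .no .no .no (.sw 0 1 [14,15])) .no .no .no) .no .no) (.sw 1 2 [16,17])) .no .no .no)) (.br .no (.br (.br .no .no (.br .no (.br (.de 27) .no .no .no) .no .no) (.br .no (.sw 0 2 [12,18]) (.br (.de 27) (.br (.br (.br .no .no (.br .no (.br (.br .no .no .no (.br .no .no (.br .no (.sw 2 3 [21]) .no .no) .no)) .no .no .no) .no .no) (.sw 1 2 [16,17,22])) .no (.br .no .no .no (.br .no (.br (.br .no .no .no (.br .no .no (.br .no (.br (.br .no .no (.br .no .no .no (.de 43)) .no) (.br (.br .no .no (.br .no (.br (.br .no .no .no (.de 46)) .no .no .no) .no .no) (.br .no (.sw 0 2 [12,18,25,31]) (.de 44) .no)) .no (.de 42) .no) .no .no) .no .no) .no)) .no .no .no) (.br (.br .no .no .no (.br .no .no (.br .no (.br (.br .no (.br .no .no .no (.br .no (.br (.br .no .no .no (.de 41)) .no .no .no) (.de 44) .no)) .no .no) (.br (.br .no (.br .no .no (.br (.br .no .no .no (.de 46)) (.br (.br .no .no .no (.de 47)) .no .no (.sw 0 2 [20,27,33]))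 .no .no) .no) .no (.sw 1 2 [30])) .no .no .no) .no .no) .no .no) .no)) (.br (.br .no .no (.br .no (.br (.br .no (.br (.br .no .no (.br .no (.br (.br .no .no .no (.de 47)) .no .no (.de 41)) .no (.de 45)) (.br .no (.br (.br .no .no .no (.de 47)) .no .no (.de 41)) .no .no)) .no .no (.br .no .no (.de 44) .no)) .no .no) (.br (.br .no .no .no (.br .no .no (.de 44) .no)) .no .no .no) .no .no) .no .no) (.br .no (.sw 0 2 [20,27]) .no .no)) .no .no (.sw 0 2 [12,18,25])) .no .no) .no)) .no) .no .no .no) .no .no) .no)) .no .no (.br .no .no (.br .no (.br (.de 27) .no .no .no) .no .no) .no)) .no .no)) .no)) .no .no .no) .no .no) .no)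

theorem P3_2 : R.S 15 382662212 :=
  R.piece L hL (.br c3_2_3 .no .no .no) 15 382662212 1073741824 (by norm_num) (by norm_num) (by norm_num) (by decide +kernel)

def c3_3_0 : Cert := (.br (.br .no .no (.br .no .no .no (.br (.br .no (.br (.br .no (.br .no .no .no (.br (.br .no (.br .no .no (.br .no .no .no (.br .no .no (.br (.br .no (.br .no .no (.br (.br .no (.br (.br .no (.br .no .no (.br .no .no .no (.br .no (.br .no .no (.br .no .no .no (.br .no .no (.br (.br .no (.br .lf .no .no .no) .no .no) .no .no (.br (.de 48) (.sw 0 3 [46]) .no .no)) .no)) (.br .no .no (.br .no .no .no (.br (.sw 2 3 [43,44,45]) .no .no .no)) .no)) .no (.br .no .no (.br .no .no .no (.br .no .no (.br (.br .no (.br (.sw 1 3 [42]) .no .no .no) .no .no) .no .no (.sy 42 30 4)) .no)) .no))) (.de 41)) .no (.br .no .no (.br .no .no .no (.br .no (.br .no .no (.br .no .no .no (.br .no .no (.br (.sw 1 3 [39]) .no .no .no) .no)) (.br .no .no (.de 45) .no)) .no (.br .no .no (.br .no .no .no (.br .no .no (.br (.sw 1 3 [39]) .no .no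 .no) .no)) .no))) .no)) .no .no .no) .no .no) .no .no (.br (.br .no (.br .no .no .no (.br .no .no (.br .no .no .no (.sy 39 30 4)) .no)) .no .no) (.br (.br .no (.br .no .no (.br .no .no .no (.br .no (.br .no .no (.sw 0 3 [36]) .no) .no .no)) (.de 41)) .no (.br .no .no (.br .no .no .no (.sy 39 30 4)) .no)) .no .no .no) .no .no)) (.br (.br .no (.br (.br .no (.br .no .no (.de 41) (.br .no .no (.br .no (.br .no .no (.br .no .no .no (.br .no .no (.br (.br .no (.br (.sw 2 3 [35,40,41]) .no .no .no) .no .no) .no .no .no) .no)) (.br .no .no (.br .no .no .no (.br (.sw 2 3 [43,44,45]) .no .no .no)) .no)) .no .no) .no)) .no (.br .no .no (.de 41) .no)) .no .no .no) .no .no) .no .no .no)) .no .no) .no .no .no) .no)) (.br .no .no (.br .no .no .no (.br (.br .no (.br .no .no (.br (.br .no (.br (.br .no (.sw 2 3 [30,31,32]) (.br .no .no .no (.de 41)) .no) .no .no .no) .no .no) .no .no .no) (.br (.br .no (.br (.br .no (.sw 2 3 [30,31,32]) (.br .no .no .no (.br .no .no (.br .no (.br .no .no (.br .no .no .no (.de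 45)) (.br .no .no (.br .no .no .no (.br (.sw 1 2 [39]) .no .no .no)) .no)) .no .no) .no)) .no) .no .no .no) .no .no) .no (.br (.sy 23 180 14) (.br (.br .no (.br .no .no (.de 41) (.br .no .no (.br .no (.br .no .no .no (.sw 0 2 [36])) .no .no) .no)) (.br .no .no .no (.br .no .no (.sy 39 78 4) .no)) .no) .no .no .no) .no .no) .no)) .no .no) .no (.br .no (.br .no .no (.br (.br .no (.br (.br .no (.br (.sy 36 228 4) .no .no (.de 41)) .no .no) .no .no .no) .no .no) .no .no .no) (.br (.br .no (.br (.br .no (.br (.sy 36 228 4) .no .no (.sw 0 2 [33])) .no .no) .no .no .no) .no .no) .no (.br (.br .no (.br (.br .no .no .no (.de 46)) .no .no .no) .no .no) (.br (.br .no (.br (.br .no .no (.br .no (.br .no .no .no (.sw 0 2 [36])) .no .no) .no) .no .no (.sw 0 2 [33])) .no .no) .no .no .no) .no .no) .no)) .no .no) .no)) .no)) (.br .no .no .no (.br .no .no (.br .no .no .no (.br (.br .no (.br .no (.br (.br .no (.br (.br .no (.sy 35 225 4) (.br .no .no .no (.br .no .no (.br .no .no .no (.br .no .no (.br .no .no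 .no (.de 45)) .no)) .no)) .no) .no .no .no) .no .no) .no .no .no) .no (.br (.sw 1 2 [29]) (.de 42) .no .no)) .no .no) .no (.sy 29 78 4) .no)) .no)) .no) (.br .no .no (.br .no .no .no (.br .no .no (.br .no .no .no (.br (.de 34) .no (.sy 29 78 4) .no)) .no)) .no) .no .no)) .no (.de 27)) .no .no .no) .no .no) .no .no .no)) (.br .no .no (.br (.br .no (.br (.br .no (.br .no .no (.br (.br .no (.br .no .no (.br .no .no .no (.br .no .no (.br (.br .no (.sw 2 3 [21,22,27]) .no .no) .no .no (.br .no (.br .no .no (.br (.br .no (.br (.br .no (.br (.sw 2 3 [21,22,27,30,31,32,33]) .no (.sw 0 3 [33]) .no) .no .no) .no .no .no) .no .no) .no .no (.br (.br .no (.br (.br .no .no (.br .no .no .no (.br .no (.br .no .no (.br .no .no .no (.br .no .no (.br .no .no .no (.br (.de 48) (.sw 0 3 [33,39,46]) .no .no)) .no)) .no) .no .no)) .no) .no .no .no) .no .no) (.br (.br .no (.br (.br .no .no .no (.br .no (.br .no .no (.sw 0 3 [36]) .no) .no .no)) .no (.sw 0 3 [33]) .no) .no .no) .no .no .no) .no .no)) (.br (.br .no (.br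 (.br .no (.br (.sw 2 3 [21,22,27,30,31,32,33]) .no (.de 41) .no) .no .no) .no .no .no) .no .no) .no .no .no)) .no .no)) .no)) (.br .no .no (.sy 10 228 21) .no)) .no (.br .no .no (.br .no .no .no (.br .no .no (.br (.br .no (.br .no (.br (.br .no (.br (.br .no (.sw 2 3 [21,22,27,29,30,31,32]) .no (.br .no .no (.br .no .no .no (.br .no .no .no (.br .no .no (.br .no .no .no (.br .no .no (.br (.sw 1 3 [39]) .no .no .no) .no)) .no))) .no)) .no .no .no) .no .no) .no .no .no) (.br (.sw 1 3 [29]) (.br (.br .no (.br .no .no .no (.br .no .no (.br .no .no .no (.br .no .no .no (.br .no .no (.br .no .no .no (.br .no .no (.sw 0 1 [36,37,38]) .no)) .no))) .no)) .no .no) .no .no .no) .no .no) .no) .no .no) .no .no (.sy 29 30 4)) .no)) .no)) (.br .no .no .no (.br .no .no (.br .no .no .no (.br .no .no (.br (.de 34) .no .no (.sy 29 30 4)) .no)) .no)) .no .no) .no) .no (.br .no .no (.br (.br .no (.br .no .no (.br .no .no .no (.br .no (.br (.br .no (.sy 32 225 4) .no .no) .no .no .no) (.br (.sw 1 3 [26]) (.de 34)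 .no .no) .no)) (.br .no .no (.br .no (.br (.br .no (.sy 32 225 4) .no .no) .no .no .no) .no .no) .no)) .no (.br .no .no (.br .no .no .no (.br .no (.br (.br .no (.br .no (.br (.br .no (.br (.br .no .no (.br .no .no .no (.br .no .no (.br .no .no .no (.br .no .no (.br .no .no .no (.de 45)) .no)) .no)) (.br .no .no (.br .no .no .no (.br .no .no .no (.br .no .no (.br .no .no .no (.br .no .no (.br (.br .no (.br .lf .no .no .no) .no .no) .no .no .no) .no)) .no))) .no)) .no (.br .no .no .no (.de 45)) .no) .no .no) .no .no .no) (.br (.sw 1 3 [29]) (.br (.br .no .no (.br .no .no .no (.de 45)) .no) .no .no .no) .no .no) .no) .no .no) .no .no .no) (.br (.sw 1 3 [26]) (.de 34) .no .no) .no)) .no)) (.br .no .no .no (.br .no .no (.br .no .no .no (.br .no (.br (.de 34) .no .no .no) (.br (.de 34) (.br (.br (.br .no (.br (.br .no (.br (.sy 35 228 4) .no .no (.br .no .no (.br .no .no .no (.br .no .no .no (.br .no .no (.br .no .no .no (.br .no .no (.br (.br .no (.de 48) .no .no) .no .no .no) .no)) .no))) .no)) .no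 .no) .no .no .no) .no .no) .no (.br (.br .no (.br (.br .no .no .no (.br .no .no (.br .no .no .no (.sw 0 1 [28,33,34])) .no)) .no .no .no) .no .no) (.br (.br .no (.br (.br .no .no (.sw 1 3 [26,33]) (.de 41)) .no .no (.br .no .no (.br .no .no .no (.sw 0 1 [28,33,34])) .no)) .no .no) .no .no .no) .no .no) .no) .no .no .no) .no .no) .no)) .no)) .no .no) .no)) .no .no .no) .no .no) .no .no (.br (.sy 10 228 14) (.br (.br .no (.br .no .no (.br (.br .no (.br (.br .no .no (.br .no .no .no (.br (.br .no (.sy 33 228 4) .no .no) .no .no .no)) (.br .no .no (.br (.br .no (.sy 33 228 4) .no .no) .no .no (.br .no (.br .no .no (.br .no .no .no (.br .no (.br (.br .no (.br (.br .no .no .no (.br .no (.br .no .no (.br .no .no .no (.br .no .no (.br .no .no .no (.br .no (.br .lf .no .no .no) .no .no)) .no)) .no) .no .no)) .no (.sw 0 3 [33]) .no) .no .no) .no .no .no) (.de 43) .no)) (.br .no .no (.br .no (.br (.br .no (.br (.br .no .no (.br .no (.br .no .no .no (.br .no .no (.br .no .no .no (.de 46)) .no)) .no .no)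 .no) .no (.de 41) .no) .no .no) .no .no .no) .no .no) .no)) .no .no)) .no)) .no (.sw 0 3 [23]) .no) .no .no) (.br (.br .no .no (.br .no .no .no (.br .no .no (.br (.de 34) .no .no (.br (.br .no .no (.br .no (.sw 0 3 [23,29]) .no (.br (.br .no (.br (.br .no (.br .no .no .no (.br .no (.br .no .no (.br .no .no .no (.br .no .no (.br .no .no .no (.br (.de 48) .no .no .no)) .no)) .no) .no .no)) (.br .no .no .no (.sw 0 1 [28,29,34])) .no) .no .no .no) .no .no) (.br (.br .no (.br .no .no (.br .no .no .no (.sw 0 1 [28,29,34])) .no) .no .no) .no .no .no) .no .no)) (.br .no (.de 42) .no .no)) .no .no .no)) .no)) .no) .no .no .no) .no .no) .no) .no (.br .no .no (.sy 26 30 4) .no)) .no .no .no) .no .no)) .no)) .no .no (.br .no .no (.br .no .no .no (.br (.br .no (.br (.br .no (.br (.sy 23 228 4) .no .no .no) .no .no) .no .no .no) .no .no) .no .no .no)) (.br .no .no (.br (.br .no (.br (.br .no (.br (.sy 23 228 4) .no (.sw 0 3 [20]) .no) .no .no) .no .no .no) .no .no) .no .no (.br (.br .no (.br (.br .no .no (.br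 (.br .no (.br .no .no (.br .no .no .no (.br .no .no (.br .no (.de 34) .no (.br .no (.br .no .no (.br (.br .no (.br (.br .no (.br (.sy 36 228 4) .no (.sw 0 3 [20,26,33]) .no) .no .no) .no .no .no) .no .no) .no .no (.br (.br .no (.br (.br .no .no (.br .no .no .no (.br .no (.br .no .no (.br .no .no .no (.br .no .no (.br .no .no .no (.br (.de 48) (.sw 0 3 [20,26,33,39,46]) .no .no)) .no)) .no) .no .no)) .no) .no .no .no) .no .no) (.br (.br .no (.br (.br .no .no .no (.br .no (.br .no .no (.sw 0 3 [36]) .no) .no .no)) .no (.sw 0 3 [20,26,33]) .no) .no .no) .no .no .no) .no .no)) (.br (.br .no (.br (.br .no (.br (.sy 36 228 4) .no (.de 41) .no) .no .no) .no .no .no) .no .no) .no .no .no)) .no .no)) .no)) .no) .no .no) (.br (.br .no (.br .no .no (.br .no .no .no (.br .no (.br (.sy 33 225 4) .no .no .no) .no .no)) (.br .no .no (.br .no (.sw 0 3 [20,26]) .no (.br (.br .no .no (.br .no .no .no (.br (.br .no (.br (.br .no (.br .no .no .no (.br .no (.br .no .no (.br .no .no .no (.br .no .no (.br .no .no .no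 (.br (.de 48) .no .no .no)) .no)) .no) .no .no)) (.sw 1 3 [33]) .no) .no .no .no) .no .no) .no (.de 43) .no)) (.br .no .no (.br (.br .no (.br (.br .no (.br .no .no (.br .no (.br .no .no .no (.br .no .no (.br .no .no .no (.de 46)) .no)) .no .no) .no) (.de 41) .no) .no .no .no) .no .no) .no .no .no) .no)) .no .no .no)) .no)) (.br .no .no .no (.br .no .no (.br .no (.sw 0 3 [20,26]) .no (.br (.br .no .no (.br .no (.br (.br .no (.br (.br .no (.sy 36 225 4) (.sw 1 3 [33]) .no) .no .no .no) .no .no) .no .no .no) .no (.br (.sw 1 2 [30]) (.br (.br .no (.br .no .no (.br .no .no .no (.sw 0 1 [28,29,34])) .no) .no .no) .no .no .no) .no .no)) (.br .no (.de 42) .no .no)) .no .no .no)) .no)) .no) .no .no .no) .no .no) .no) .no .no .no) .no .no) (.br (.br .no (.br (.br (.br .no (.br (.br .no .no (.br .no .no .no (.br .no .no (.br .no (.br .no .no (.br .no .no .no (.br .no (.br (.br .no (.br (.br .no .no .no (.br .no (.br .no .no (.sw 0 3 [23,30,36]) .no) .no .no)) .no .no (.de 41)) .no .no) .no .no .no) .no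 .no)) (.br .no .no (.br .no (.sw 0 3 [23,30]) .no (.de 43)) .no)) .no .no) .no)) (.br .no .no (.br .no .no .no (.br .no (.br .no .no (.br .no .no .no (.br .no (.br (.br .no (.br (.sw 2 3 [31,32,33]) .no (.br .no .no .no (.br .no (.br .no .no (.br .no .no .no (.br .no .no (.br (.br .no (.br (.sw 2 3 [31,32,33,35,36,40,41,43,44,45]) .no .no .no) .no .no) .no .no (.br (.de 48) (.sw 0 2 [40]) .no .no)) .no)) .no) .no .no)) .no) .no .no) .no .no .no) (.de 43) .no)) (.br .no .no (.br .no (.br (.br .no (.br (.sw 2 3 [31,32,33]) .no (.de 41) .no) .no .no) .no .no .no) .no .no) .no)) (.br .no .no (.br .no .no .no (.br .no (.br (.br .no (.br (.br .no (.de 47) .no (.sw 1 2 [34])) .no .no .no) .no .no) .no .no .no) (.de 43) .no)) (.br .no .no (.br .no (.br (.br .no (.br (.br .no (.de 47) .no .no) .no .no .no) .no .no) .no .no .no) .no .no) .no)) .no)) .no)) .no (.sw 0 3 [23]) .no) .no .no) (.br (.br .no .no (.br .no .no .no (.br .no .no (.br .no .no .no (.br .no .no (.sy 30 78 4) .no)) .no)) .no) .no .no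 .no) .no .no) .no (.sw 0 3 [20]) .no) .no .no) .no .no .no) .no .no)) .no)))

def c3_3_1 : Cert := (.br (.br .no (.br (.br .no (.br (.br .no (.br .no .no .no (.br .no .no (.br .no .no .no (.br .no .no (.br .no .no .no (.sy 16 30 4)) .no)) .no)) .no .no) (.br (.br .no (.br .no .no (.br .no .no .no (.br .no .no c3_3_0 .no)) (.br .no .no (.br .no .no .no (.br (.br .no .no (.br .no .no .no (.br (.br .no (.br (.br .no (.sw 2 3 [17,18,19]) (.br .no .no .no (.br (.br .no (.br .no .no (.br .no .no .no (.br .no (.br (.br .no (.sw 2 3 [17,18,19,21,22,26,27]) .no .no) .no .no .no) .no .no)) (.br .no .no (.br .no (.br (.br .no (.sw 2 3 [17,18,19,21,22,26,27]) .no .no) .no .no .no) .no (.br (.sw 1 2 [26]) (.de 34) .no .no)) .no)) (.br .no .no .no (.br .no .no (.br .no (.br (.br .no (.br .no (.br (.br .no (.br (.sw 2 3 [17,18,19,21,22,26,27,29,30,31]) .no .no (.br .no .no (.de 45) .no)) .no .no) .no .no .no) .no (.br (.sw 1 2 [29]) (.de 42) .no .no)) .no .no) .no .no .no) .no (.br (.sw 1 2 [26]) (.de 34) .no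 .no)) .no)) .no) (.br .no .no (.br .no .no .no (.br .no .no (.br .no (.br (.de 34) .no .no .no) .no (.br (.de 34) (.br (.br (.br .no (.br (.br .no (.br (.sw 2 3 [17,18,19,21,22,26,27,29,30,31,32]) .no (.br .no .no .no (.br .no .no (.br .no .no .no (.br .no .no (.br .no .no .no (.de 45)) .no)) .no)) .no) .no .no) .no .no .no) .no .no) .no .no (.br (.br .no (.br (.br .no .no (.br .no .no .no (.br .no .no (.sw 0 1 [28,33,34]) .no)) .no) .no .no .no) .no .no) (.de 42) .no .no)) .no .no .no) .no .no)) .no)) .no) .no .no)) .no) .no .no .no) .no .no) .no (.br (.br .no (.br .no .no (.br .no .no .no (.sy 26 78 4)) .no) .no .no) (.br (.br .no (.br .no .no .no (.br (.br .no (.br (.br .no .no (.br .no .no .no (.br (.br .no (.sw 2 3 [17,18,19,21,22,23,27]) .no .no) .no (.br .no (.br .no .no (.br .no .no .no (.br .no (.br (.br .no (.br (.sw 2 3 [17,18,19,21,22,23,27,31,32,33]) .no .no (.de 41)) .no .no) .no .no .no) .no .no)) (.br .no .no (.br .no (.br (.br .no (.br (.sw 2 3 [17,18,19,21,22,23,27,31,32,33])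 .no .no (.sw 0 2 [33])) .no .no) .no .no .no) .no (.de 43)) .no)) .no .no) .no)) (.br .no .no (.br (.br .no (.sw 2 3 [17,18,19,21,22,23,27]) .no .no) .no .no .no) .no)) .no .no (.sw 0 2 [23])) .no .no) (.br (.br .no .no .no (.br .no .no (.br .no .no .no (.br (.de 34) .no (.br (.br .no .no (.br .no (.br (.br .no (.br (.br .no (.sw 2 3 [17,18,19,21,22,23,27,30,31,32,33]) .no (.de 41)) .no .no .no) .no .no) .no .no .no) .no .no) (.br .no (.de 42) (.br (.br .no (.br (.br .no (.br .no .no (.br .no (.br .no .no .no (.br .no .no (.br .no .no .no (.de 46)) .no)) .no .no) .no) .no (.de 46)) .no .no .no) .no .no) (.br (.br .no (.br .no .no .no (.br .no .no (.sw 0 1 [28,29,34]) .no)) .no .no) .no .no .no) .no .no) .no)) .no .no .no) .no)) .no)) .no .no .no) .no .no)) (.br .no .no .no (.sy 26 78 4)) .no) .no .no .no) .no .no) .no)) (.br .no .no (.br (.br .no (.br (.br .no (.sw 2 3 [17,18,19]) (.de 27) .no) .no .no .no) .no .no) .no .no .no) .no)) .no .no .no)) .no)) .no (.br .no .no (.br .no .no .no (.br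 .no .no (.br (.br .no .no (.br .no (.br (.br .no (.br (.br .no (.sy 22 225 4) .no (.de 27)) .no .no .no) .no .no) .no .no .no) .no .no) (.br .no (.br (.br .no (.br (.br .no (.sy 22 225 4) .no (.br .no .no (.br (.br .no .no (.br .no .no .no (.br .no .no (.br .no (.br (.br .no (.br .no (.br (.br .no (.br (.br .no .no (.sw 1 3 [26,32]) (.br .no .no (.br .no .no .no (.br .no .no .no (.br .no .no (.br .no .no .no (.br .no .no (.br (.sw 1 3 [26,32,39]) .no .no .no) .no)) .no))) .no)) .no .no (.br .no .no (.de 45) .no)) .no .no) .no .no .no) .no (.br (.br .no (.br (.br .no .no (.sw 1 3 [26,32]) (.br .no .no (.de 41) .no)) .no .no (.br .no .no (.de 45) .no)) .no .no) (.de 42) .no .no)) .no .no) .no .no .no) .no .no) .no)) (.br .no .no (.br .no .no .no (.br .no (.br (.br .no (.br .no (.br (.br .no (.br (.sw 2 3 [29,30,31]) .no (.br .no .no .no (.de 45)) .no) .no .no) .no .no .no) (.br (.br .no (.br (.sy 22 177 16) .no (.br .no .no .no (.de 45)) .no) .no .no) (.sy 22 177 14) .no .no) .no) .no .no) .no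 .no .no) (.br (.sw 1 3 [26]) (.de 34) .no .no) .no)) .no)) .no (.br .no .no .no (.br .no .no (.br .no .no .no (.br .no (.br (.br .no (.br (.br .no (.br (.br .no .no (.br .no .no .no (.de 45)) .no) .no .no .no) .no .no) (.br (.br .no (.br (.br .no .no (.br .no .no .no (.br (.de 48) .no .no .no)) (.br .no .no (.br (.de 48) .no .no (.sw 0 2 [28])) .no)) .no (.br .no .no .no (.de 45)) .no) .no .no) .no .no .no) .no .no) .no .no) .no .no .no) (.sy 28 78 4) .no)) .no)) .no) .no)) .no .no .no) .no .no) .no .no .no) (.br (.sw 1 3 [16]) (.br (.br .no (.br .no .no .no (.br .no .no (.br (.br .no .no .no (.br .no .no (.br .no .no .no (.br (.br .no (.de 34) .no .no) .no (.sw 0 1 [23,24,25]) .no)) .no)) (.br (.br .no .no (.sw 1 3 [16,23]) (.br .no .no (.br (.br .no (.br (.sy 32 228 4) .no .no .no) .no .no) .no .no .no) .no)) .no .no (.br .no .no (.br .no .no .no (.br (.br .no (.br (.br (.br .no (.br (.br .no (.br .no .no (.br .no .no .no (.br .no .no (.br .no .no .no (.br .no .no (.br .no .no .no (.de 45))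 .no)) .no)) (.br .no .no (.br .no .no .no (.br .no .no .no (.br .no .no (.br .no .no .no (.br .no .no (.br (.sy 32 180 14) .no .no .no) .no)) .no))) .no)) (.br .no .no .no (.de 45)) .no) .no .no .no) .no .no) .no (.br (.br .no (.br .no .no (.br .no .no .no (.de 45)) .no) .no .no) (.sw 0 3 [29]) .no .no) .no) .no .no .no) .no .no) .no (.sw 0 1 [23,24,25]) .no)) .no)) .no .no) .no)) .no .no) .no .no .no) .no .no) .no)) .no .no (.sy 16 30 4)) .no)) .no)) .no .no .no) .no .no) .no (.br (.br .no (.br .no .no .no (.br .no .no (.br .no .no .no (.br .no (.de 20) (.br .no (.br .no .no (.br (.br .no (.br (.br .no (.br (.sy 22 228 4) .no .no (.de 27)) .no .no) .no .no .no) .no .no) .no .no .no) (.br (.br .no (.br (.br .no (.br (.sy 22 228 4) .no .no (.br .no .no (.br .no (.br .no .no (.br .no .no .no (.br .no .no (.br (.br .no (.br (.br (.br .no (.br (.br .no (.br .no .no (.sw 0 3 [26,32]) (.br .no .no (.br .no .no .no (.br .no .no .no (.br .no .no (.br .no .no .no (.br .no .no (.br (.br .no (.de 48) .no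 .no) .no .no .no) .no)) .no))) .no)) .no (.br .no .no (.de 45) .no)) .no .no .no) .no .no) .no .no (.br (.br .no (.sy 16 27 21) .no .no) (.de 42) .no .no)) .no .no .no) .no .no) .no .no .no) .no)) (.br .no .no (.br .no .no .no (.br (.br .no (.br (.sy 22 180 13) .no .no .no) .no .no) .no (.br (.de 34) (.sw 0 3 [26]) .no .no) .no)) .no)) (.br .no .no .no (.br .no .no (.br .no .no .no (.br (.br .no (.br (.br (.br .no (.br (.br .no (.br .no .no (.br .no .no .no (.br .no (.de 48) .no .no)) (.br .no .no (.br .no (.de 48) .no (.sw 1 2 [28])) .no)) (.br .no .no .no (.de 45)) .no) .no .no .no) .no .no) (.br (.br .no (.br .no .no (.br .no .no .no (.de 45)) .no) .no .no) .no .no .no) .no .no) .no .no .no) .no .no) .no (.sy 28 78 4) .no)) .no)) .no) .no)) .no .no) .no .no .no) .no .no) .no (.br (.br .no (.br (.br .no .no .no (.br .no .no (.br (.br .no (.br .no .no (.br .no .no .no (.br .no (.br (.br .no (.sy 32 225 4) .no .no) .no .no .no) (.br (.sw 1 3 [13,20,26]) (.de 34) .no .no) .no)) (.br .no .no (.br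 .no (.br (.br .no (.sy 32 225 4) .no .no) .no .no .no) .no .no) .no)) .no (.br .no .no (.br .no .no .no (.br .no (.br (.br .no (.br .no (.br (.br .no (.br (.br .no .no (.br .no .no .no (.br .no .no (.br .no .no .no (.br .no .no (.br .no .no .no (.de 45)) .no)) .no)) (.br .no .no (.br .no .no .no (.sy 32 177 13)) .no)) .no (.br .no .no .no (.de 45)) .no) .no .no) .no .no .no) (.br (.sw 1 3 [29]) (.br (.br .no .no (.br .no .no .no (.de 45)) .no) .no .no .no) .no .no) .no) .no .no) .no .no .no) (.br (.sw 1 3 [13,20,26]) (.de 34) .no .no) .no)) .no)) (.br .no .no .no (.br .no .no (.br .no .no .no (.br .no (.br (.de 34) .no .no .no) (.br (.de 34) (.br (.br (.br .no (.br (.br .no (.br (.sy 35 228 4) .no .no (.br .no .no (.br .no .no .no (.br .no .no .no (.br .no .no (.br .no .no .no (.br .no .no (.br (.br .no (.de 48) .no .no) .no .no .no) .no)) .no))) .no)) .no .no) .no .no .no) .no .no) .no (.br (.br .no (.br (.br .no .no .no (.br .no .no (.br .no .no .no (.sw 0 1 [28,33,34])) .no)) .no .no .no)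 .no .no) (.br (.br .no (.br (.br .no .no (.sw 1 3 [13,20,26,33]) (.de 41)) .no .no (.br .no .no (.br .no .no .no (.sw 0 1 [28,33,34])) .no)) .no .no) .no .no .no) .no .no) .no) .no .no .no) .no .no) .no)) .no)) .no .no) .no)) .no .no .no) .no .no) (.br (.br .no (.br (.br .no .no (.sw 1 3 [13,20]) .no) .no .no (.br .no .no (.sy 16 27 13) .no)) .no .no) .no .no .no) .no .no) .no)) .no .no) .no)) .no)) .no .no) (.br (.br .no (.br .no .no (.br .no .no .no (.br .no (.br (.sy 19 225 4) .no .no .no) (.br (.sw 1 3 [13]) .no .no .no) .no)) (.br .no .no (.br .no (.br (.sy 19 225 4) .no .no .no) .no .no) .no)) .no (.br .no .no (.br .no .no .no (.br .no (.br (.br .no .no (.br .no (.br (.br .no (.br (.br .no .no (.br .no .no .no (.sy 13 30 14)) (.de 27)) .no (.br .no .no .no (.de 27)) .no) .no .no) .no .no .no) .no .no) (.br .no (.br (.br .no (.br (.br .no .no (.de 27) (.br .no .no (.sy 19 177 13) .no)) .no (.br .no .no .no (.br .no .no (.br (.br .no .no (.br .no .no .no (.br (.br .no (.br (.br .no (.sy 31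 228 4) .no .no) .no .no .no) .no .no) .no .no .no)) (.br .no .no (.br (.br .no (.br (.br .no (.sy 31 228 4) .no .no) .no .no .no) .no .no) .no .no (.br (.br .no (.de 34) .no .no) (.sw 0 2 [25]) .no .no)) .no)) .no (.br .no .no .no (.br .no .no (.br (.br .no (.br (.br .no (.br (.br .no (.br .no .no .no (.br .no .no (.de 44) .no)) .no .no) (.br (.br .no (.br .no .no (.br .no .no .no (.de 45)) (.br .no .no (.de 45) .no)) .no (.br .no .no (.de 44) .no)) .no .no .no) .no .no) .no .no) .no .no .no) .no .no) .no .no (.br (.br .no (.sy 19 177 14) .no .no) (.sw 0 2 [25]) .no .no)) .no)) .no) .no)) .no) .no .no) .no .no .no) (.br (.sw 1 3 [16]) (.br (.br .no .no (.br .no .no .no (.br .no .no (.sy 25 78 4) .no)) .no) .no .no .no) .no .no) .no)) .no .no .no) (.br (.sw 1 3 [13]) .no .no .no) .no)) .no)) .no .no .no) .no .no)) .no .no .no) .no .no) .no .no (.br (.br .no (.br .no .no .no (.sy 13 30 4)) .no .no) (.br (.br .no (.br (.br .no (.br (.br .no .no (.br .no .no .no (.br .no .no (.br .no .no .no (.br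 .no .no (.br .no .no .no (.br .no (.br (.br .no (.br (.br .no (.sy 23 225 4) .no .no) .no .no .no) .no .no) .no .no .no) .no .no)) (.br .no .no (.br .no (.sw 0 3 [10,16]) .no (.br (.br .no (.br (.br .no (.br (.br .no (.br .no .no (.br .no .no .no (.br .no .no (.br .no .no .no (.br .no .no (.sy 30 78 4) .no)) .no)) .no) .no .no) (.br (.br .no (.br .no .no (.br .no .no .no (.br .no .no (.br (.br .no .no (.br .no .no .no (.br (.br .no (.br (.br .no (.br .no .no .no (.br .no (.br .no .no (.br .no .no .no (.br .no .no (.br .no .no .no (.br (.de 48) .no .no .no)) .no)) .no) .no .no)) .no (.de 41)) .no .no .no) .no .no) .no .no .no)) (.br .no .no (.br (.sw 1 3 [23,30]) .no .no (.de 43)) .no)) .no .no .no) .no)) (.br .no .no (.br .no .no .no (.br (.sy 24 180 10) .no (.br .no .no (.br .no .no .no (.br (.br .no (.br (.br .no (.br (.de 47) .no .no (.sw 0 2 [34])) .no .no) .no .no .no) .no .no) .no (.de 43) .no)) (.br .no .no (.br (.br .no (.br (.br .no (.br (.de 47) .no .no .no) .no .no) .no .no .no) .no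 .no) .no .no .no) .no)) .no)) .no)) (.sw 1 3 [23]) .no) .no .no .no) .no .no) (.sy 17 78 10) .no) .no .no .no) .no .no) (.br (.br .no (.br .no .no (.br (.br .no (.br (.br .no .no (.br .no .no .no (.br (.br .no (.sy 33 228 4) .no .no) .no .no .no)) (.br .no .no (.br (.br .no (.sy 33 228 4) .no .no) .no .no (.br .no (.br .no .no (.br .no .no .no (.br .no (.br (.br .no (.br (.br .no .no .no (.sy 34 177 10)) .no (.sw 0 3 [33]) .no) .no .no) .no .no .no) (.de 43) .no)) (.br .no .no (.br .no (.br (.br .no (.br (.br .no .no (.br .no (.br .no .no .no (.br .no .no (.br .no .no .no (.de 46)) .no)) .no .no) .no) .no (.de 41) .no) .no .no) .no .no .no) .no .no) .no)) .no .no)) .no)) .no (.sw 0 3 [10,16,23]) .no) .no .no) (.br (.br .no .no (.br .no .no .no (.br .no .no (.br (.de 34) .no .no (.sw 0 1 [24,25,26])) .no)) .no) .no .no .no) .no .no) .no) .no .no) .no .no .no) .no .no)) .no))) .no)) .no) .no .no .no) .no .no) (.br (.br .no (.br (.br .no .no (.sy 7 75 11) (.br .no .no (.br (.sy 20 228 4) .no .no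 (.br .no .no (.sy 7 75 14) (.br .no .no (.br .no .no .no (.br .no (.sy 14 177 10) (.br (.br .no (.br (.br (.br .no (.br (.br .no (.br .no .no (.br .no .no .no (.br .no (.sy 34 225 4) (.br .no .no (.br .no .no .no (.br .no .no (.de 43) .no)) (.sy 21 30 14)) .no)) (.sy 21 30 11)) .no (.sw 1 2 [24])) .no .no .no) .no .no) (.sy 14 177 14) .no .no) .no (.sw 0 3 [20]) .no) .no .no) (.sy 14 177 11) .no .no) .no)) .no))) .no)) .no (.sw 0 3 [10]) .no) .no .no) .no .no .no) .no .no) .no (.sy 13 30 4)) .no .no .no) .no .no))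

theorem P3_3 : R.S 6 3652 :=
  R.piece L hL (.br .no (.sy 6 225 4) (.br .no .no (.br .no .no .no (.br .no .no c3_3_1 .no)) (.br .no .no (.br .no .no .no (.br (.br .no (.br (.br .no (.br (.br .no (.br .no .no (.br .no .no .no (.sy 10 180 7)) .no) .no .no) (.br (.br .no (.br .no .no (.br .no .no .no (.br .no .no (.br (.sw 2 3 [7,8,9]) .no .no .no) .no)) (.sy 10 180 7)) (.br .no .no .no (.sy 10 180 7)) .no) .no .no .no) .no .no) .no .no) .no .no .no) .no .no) .no .no .no)) .no)) .no) 6 3652 4096 (by norm_num) (by norm_num) (by norm_num) (by decide +kernel)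

def c3_4_0 : Cert := (.br .no (.br .no .no .no (.br .no .no (.br (.br .no (.br (.br .no .no (.br (.br .no (.br .no .no .no (.br .no .no (.br .no .no .no (.br .no (.br .no .no .no (.br .no .no (.br (.br .no (.br (.br .no .no (.br (.br .no (.br .no (.br .no .no (.br .no .no .no (.br .no (.br .no .no .no (.sw 1 2 [3,9,15,21,27,33,39,45])) .no .no)) (.br .no .no (.br .no (.sw 2 3 [43,44]) .no (.br .no (.br .no .no (.sw 1 3 [45,46]) (.sw 1 2 [3,9,15,21,27,33,39,46])) .no .no)) .no)) .no (.br .no .no (.br .no .no .no (.br .no (.br .no .no .no (.sw 1 2 [3,9,15,21,27,33,39,45])) .no .no)) .no)) .no .no) .no .no .no) .no) .no .no .no) .no .no) .no .no .no) (.br (.br .no (.br (.br .no .no (.br (.br .no (.br .no (.br .no .no (.br .no .no .no (.br .no (.br .no .no .no (.sw 1 2 [3,9,15,21,27,33,39,45])) .no .no)) (.br .no .no (.br .no (.sw 2 3 [43,44]) .no (.br .no (.br .no .no (.sw 1 3 [45,46]) (.sw 1 2 [3,9,15,21,27,33,39,46])) .no .no)) .no)) .no .no) (.sy 38 216 3) .no) .no .no .no) .no) .no .no .no)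 .no .no) .no (.br (.br .no (.br (.br .no .no (.br .no (.br .no (.br .no .no .no (.br .no .no (.br .no .no .no (.br .no (.br .no .no .no (.br (.sw 1 2 [3,9,15,21,27,33,40,41,46]) .no .no .no)) .no .no)) .no)) .no .no) .no .no) .no) .no (.br (.br .no (.br .no (.br .no .no .no (.br .no .no (.br .no .no .no (.br .no (.br .no .no (.br .lf .no .no .no) (.sw 0 2 [39,40])) .no .no)) .no)) .no .no) (.br .no (.br .no .no .no (.br .no .no (.br .no .no .no (.br .no (.br .no .no .no (.br (.sw 1 2 [41]) .no .no .no)) .no .no)) .no)) .no .no) .no) .no .no .no) .no) .no .no) (.br (.br .no .no (.br (.br .no (.br .no (.br .no .no .no (.sw 0 2 [36])) .no .no) (.sy 38 216 3) .no) .no .no .no) .no) .no .no .no) .no .no) .no))) .no .no)) .no)) .no .no) .no (.br (.br .no (.br .no .no (.br .no .no .no (.br .no (.br (.br .no (.br .no .no (.br (.br .no (.br (.br .no .no (.br .no .no .no (.de 47)) (.de 41)) .no (.br .no .no .no (.de 41)) .no) .no .no) .no .no (.de 43)) (.de 42)) .no (.br .no .no (.br (.br .no (.br (.br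 .no .no (.br .no (.br .no (.br .no .no .no (.br .no .no (.br .no .no .no (.br .no (.br .no .no .no (.br (.sw 1 2 [3,9,15,21,27,28,33,40,41,46]) .no .no .no)) .no .no)) .no)) .no .no) .no .no) (.br .no (.br .no (.br .no .no .no (.br .no .no (.br .no .no .no (.br .no (.br .no .no (.br (.sw 2 3 [40,47]) .no .no .no) .no) .no .no)) .no)) .no .no) .no .no)) .no (.br .no .no .no (.br .no (.br .no (.br .no .no .no (.br .no .no (.br .no .no .no (.br .no (.sw 0 2 [39]) .no .no)) .no)) .no .no) .no .no)) .no) .no .no) .no .no (.de 43)) .no)) .no .no (.br .no (.br .no .no (.br (.br .no (.br (.br .no .no (.br (.br .no .no .no (.de 43)) .no .no .no) .no) .no (.br (.de 41) .no .no .no) .no) .no .no) .no .no (.de 43)) (.de 42)) .no (.br .no .no (.br (.br .no (.br (.br .no .no (.br (.de 48) (.sw 0 3 [34]) .no .no) .no) .no (.br (.br .no (.br .no (.br .no .no .no (.br .no .no (.br .no .no .no (.br .no (.br .no .no (.sw 0 3 [34,40]) (.sw 0 2 [39,40])) .no .no)) .no)) .no .no) .no .no) .no .no .no) .no) .no .no)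 .no .no (.de 43)) .no))) .no .no)) (.br .no .no (.br .no (.br (.br .no (.br .no .no (.br (.br .no (.br (.sw 2 3 [31,32]) .no .no (.de 45)) .no .no) .no .no .no) (.de 42)) .no (.br .no .no (.br (.br .no (.br (.sw 2 3 [31,32]) .no .no (.de 45)) .no .no) .no .no .no) .no)) .no .no (.br .no (.br .no .no (.br (.br .no (.br (.sw 2 3 [31,32]) .no .no (.de 45)) .no .no) .no .no .no) (.de 42)) .no (.br .no .no (.br (.br .no (.br (.sw 2 3 [31,32]) .no .no (.de 45)) .no .no) .no .no .no) .no))) .no (.br (.br .no (.br .no .no (.br (.br .no (.br (.br .no (.sy 37 228 3) (.sw 1 3 [33]) .no) .no .no .no) .no .no) .no .no .no) (.de 42)) .no (.br .no .no (.br (.br .no (.br (.br .no (.de 41) (.sw 1 3 [33]) .no) .no .no .no) .no .no) .no .no .no) .no)) .no .no .no)) .no)) .no (.br .no .no (.br .no .no .no (.br .no (.br (.br .no (.br .no .no (.br (.sw 1 3 [30]) (.br (.br .no .no (.br .no .no .no (.de 41)) .no) .no .no .no) .no .no) .no) .no (.br .no (.de 42) (.br (.sw 1 3 [30]) (.br (.br .no .no (.br .no .no .no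 (.br .no (.br .no (.br .no .no .no (.br .no .no (.br .no (.de 46) .no (.sw 0 1 [37,38])) .no)) .no .no) .no .no)) .no) .no .no .no) .no .no) .no)) .no .no (.br .no (.br .no .no (.br (.sw 1 3 [30]) (.br (.br .no .no (.br (.de 41) .no .no .no) .no) .no .no .no) .no .no) .no) .no (.br .no (.de 42) (.br (.sw 1 3 [30]) (.br (.br .no .no (.br (.br .no (.br .no (.br .no .no .no (.br .no .no (.br .no (.br .no .no .no (.br .no .no (.br .lf .no .no .no) .no)) .no (.sw 0 1 [37,38])) .no)) .no .no) .no .no) .no .no .no) .no) .no .no .no) .no .no) .no))) .no .no)) .no)) (.br .no .no .no (.br .no .no (.br .no .no .no (.br .no (.br (.br (.br .no .no (.br (.br .no (.br (.br .no .no (.br .no (.br .no (.br .no .no .no (.br .no .no (.br .no .no .no (.br .no (.br .no .no .no (.de 48)) .no .no)) .no)) .no (.de 43)) .no (.de 47)) (.br .no (.br .no (.br .no .no .no (.br .no .no (.br .no .no .no (.br .no (.br .no .no (.br .no .no .no .lf) .no) .no .no)) .no)) .no (.de 43)) .no .no)) .no (.br .no .no .no (.br .no (.br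 .no (.br .no .no .no (.br .no .no (.br .no .no .no (.br .no (.sw 0 2 [39]) .no .no)) .no)) .no (.de 43)) .no .no)) .no) .no .no) (.br (.br .no .no (.br .no .no .no (.br .no (.br .no (.br .no .no .no (.br .no .no (.br .no (.de 46) .no (.sw 0 1 [37,38])) .no)) .no (.de 43)) .no .no)) .no) .no .no .no) .no .no) .no) .no .no (.br (.br .no (.br (.br .no .no (.br .no .no .no (.br .no (.br .no (.br .no .no (.br .no .no .no (.br .no (.de 46) .no .no)) (.br .no .no (.br .no (.de 46) .no (.br .no (.br .no .no (.br .lf .no .no .no) .no) .no .no)) .no)) .no .no) .no .no)) .no) .no .no .no) .no .no) .no (.sw 0 1 [29]) .no)) .no .no (.br (.br .no .no (.br (.br .no (.br (.br .no .no (.br .no (.sw 0 3 [34]) .no .no) .no) .no (.br (.br .no (.br .no (.br .no .no .no (.br .no .no (.br .no .no .no (.br .no (.br .no .no (.sw 0 3 [34,40]) (.de 48)) .no .no)) .no)) .no (.de 43)) .no .no) .no .no .no) .no) .no .no) (.br (.br .no .no (.br (.br .no (.br .no (.br .no .no .no (.br .no .no (.br .no (.br .no .no .no (.br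 .no .no (.br .no .no .no (.sw 0 2 [28,35,36])) .no)) .no (.sw 0 1 [37,38])) .no)) .no (.de 43)) .no .no) .no .no .no) .no) .no .no .no) .no .no) .no) .no .no (.br (.br .no (.br (.br .no .no (.br (.br .no (.sw 0 2 [28]) .no .no) .no .no .no) .no) .no .no .no) .no .no) .no (.sw 0 1 [29]) .no))) .no .no)) .no)) .no .no) .no) .no) .no .no .no) .no .no) .no .no .no) .no)) .no (.br .no (.br .no .no (.br (.br .no (.br (.br .no (.sy 24 228 3) (.br (.br .no .no .no (.br .no (.br .no .no (.br .no .no .no (.br .no (.de 34) .no .no)) (.br .no .no (.br .no (.de 34) .no (.br .no (.br .no (.br (.br .no .no (.br (.br .no (.br (.br .no .no (.br .no .no .no (.de 43)) (.sw 1 2 [27,34])) .no (.br .no .no .no (.de 47)) .no) .no .no) (.br (.br .no .no (.br .no .no .no (.de 47)) .no) .no .no .no) .no .no) .no) .no (.br (.br .no (.br (.br .no .no (.br .no .no .no (.de 47)) .no) .no .no .no) .no .no) .no .no .no) .no) (.br (.br .no .no (.br (.sy 35 201 3) (.br (.br .no .no (.br .no .no .no (.de 47)) .no) .no .no .no)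 .no .no) .no) .no .no .no) .no) .no .no)) .no)) .no .no)) .no (.br (.br .no (.br .no .no (.br .no .no .no (.br .no (.br (.sw 1 3 [21,22]) .no .no .no) .no .no)) (.br .no .no (.br .no (.br (.sw 1 3 [21,22]) .no .no .no) .no (.br (.sw 1 2 [27]) (.br .no (.br .no .no (.br (.br .no (.br (.br .no .no (.br (.sw 1 3 [21,22,33,34]) .no .no (.de 47)) .no) .no .no .no) .no .no) .no .no .no) (.de 42)) .no (.br .no .no (.br (.br .no (.br (.br .no .no (.br (.de 48) .no .no .no) .no) .no .no .no) .no .no) .no .no .no) .no)) .no .no)) .no)) .no (.br .no .no (.br .no .no .no (.br .no (.br (.sw 1 3 [21,22]) .no .no .no) .no .no)) .no)) .no .no (.br .no (.br .no .no (.br .no .no .no (.br .no (.br (.br (.br .no .no (.br (.sw 1 3 [21,22,29,30]) .no .no (.de 43)) .no) (.br (.br .no .no .no (.br (.br .no .no (.br .no .no .no (.de 41)) .no) (.br (.br .no .no (.br .no .no .no (.de 47)) (.de 41)) .no (.br .no .no .no (.de 41)) .no) .no .no)) .no (.sw 0 3 [29]) .no) .no .no) .no .no .no) .no .no)) (.br .no .no (.br .no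 (.br (.br (.br .no .no (.br (.br .no (.br (.sw 2 3 [31,32]) .no .no (.de 45)) .no .no) .no .no .no) .no) (.br (.br .no .no (.br (.br .no .no .no (.br .no .no (.br .no .no .no (.de 47)) .no)) (.br (.br .no .no (.br .no .no .no (.de 47)) (.de 41)) .no .no (.de 45)) .no .no) .no) .no (.sw 0 3 [29]) .no) .no .no) .no .no .no) .no (.br (.sw 1 2 [27]) (.br (.br .no .no (.br (.br .no (.br (.br .no .no (.br .no .no .no (.de 47)) .no) .no .no .no) .no .no) .no .no .no) .no) (.br (.br .no .no (.br (.br .no (.br (.br .no .no .no (.sw 0 2 [28])) .no (.br (.br .no .no .no (.de 43)) .no .no (.de 47)) .no) .no .no) (.br (.br .no .no (.br (.br .no .no .no (.de 43)) .no .no (.de 47)) .no) .no .no .no) .no .no) .no) .no (.sw 0 3 [29]) .no) .no .no) .no .no)) .no)) .no .no)) .no) .no) .no .no .no) .no .no) .no .no .no) (.br (.br .no (.br (.br .no (.sy 24 228 3) (.br (.br .no .no (.br .no (.br .no .no (.br .no .no .no (.br .no (.de 34) .no .no)) (.br .no .no (.br .no (.de 34) .no (.br .no (.br .no (.br (.sw 2 3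 [23,29]) .no .no (.de 42)) .no (.br (.br .no .no (.br (.br .no (.br (.br .no .no (.br .no (.br .no .no .no (.de 44)) .no .no) .no) .no (.de 41) .no) .no .no) (.br (.br .no .no (.de 41) .no) .no .no .no) .no .no) .no) .no .no .no)) .no .no)) .no)) .no .no) .no) .no (.br (.br .no (.sw 2 3 [23]) (.br .no .no .no (.br .no .no (.br .no (.br (.sy 34 216 3) .no .no .no) .no (.sy 30 78 3)) .no)) .no) .no .no .no) .no) .no) .no .no .no) .no .no) .no (.br (.br .no (.br .no .no (.br (.br .no .no (.br (.br .no (.br .no .no (.br (.br .no (.br .no (.br .no .no .no (.de 42)) .no (.br .no (.de 42) .no .no)) .no .no) .no .no (.br .no (.br .no (.br .no .no .no (.de 42)) .no (.br .no (.de 42) .no .no)) .no .no)) (.br (.br .no (.br .no (.br .no .no .no (.de 42)) .no (.br .no (.de 42) .no .no)) .no .no) .no .no .no)) .no (.br .no .no (.br (.br .no (.br .no (.br .no .no .no (.de 42)) .no (.br .no (.de 42) .no .no)) .no .no) .no .no (.br .no (.br .no (.br .no .no .no (.de 42)) .no (.br .no (.de 42) .no .no)) .no .no))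 .no)) (.br .no .no .no (.br .no .no (.br (.br .no (.br .no (.br (.br .no .no (.br (.br .no (.br .no .no (.br .no .no .no (.de 47)) (.de 46)) .no (.br .no .no (.br .no .no .no (.de 47)) .no)) (.br .no .no .no (.de 45)) .no .no) .no) .no .no (.de 42)) .no (.br (.br .no .no (.br (.br .no (.br .no .no (.de 41) (.de 46)) .no (.br .no .no (.de 41) .no)) (.br .no .no .no (.de 45)) .no .no) .no) .no .no .no)) .no .no) .no .no (.br .no (.br .no (.br (.br .no .no (.br (.br .no (.br (.br .no .no (.br .no .no .no (.de 43)) (.br .no .no .no (.de 43))) .no (.sw 0 3 [33]) .no) .no .no) (.br (.br .no .no (.br .no .no .no (.de 47)) .no) .no .no .no) .no .no) .no) .no .no (.de 42)) .no (.br (.br .no .no (.br (.br .no (.br (.br .no .no (.br .no (.br .no .no .no (.de 44)) .no .no) .no) .no (.de 41) .no) .no .no) (.br (.br .no .no (.de 41) .no) .no .no .no) .no .no) .no) .no .no .no)) .no .no)) .no)) .no .no) .no) .no (.br (.br .no (.br .no .no .no (.br .no .no (.br (.br .no (.br .no (.br .no .no (.br (.br .no (.br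 .no .no .no (.de 45)) .no .no) .no .no .no) (.de 42)) .no (.br .no .no (.br (.br .no (.br .no .no .no (.de 45)) .no .no) .no .no .no) .no)) .no .no) .no .no (.br (.br .no (.br .no .no (.br (.br .no (.br (.br .no (.sy 37 228 3) (.br .no .no .no (.de 47)) .no) .no .no .no) .no .no) .no .no .no) (.de 42)) .no (.br .no .no (.br (.br .no (.br (.br .no (.de 41) (.br .no (.br .no (.br .no .no .no (.br .no .no (.br .no .no .no (.br .no (.br .no .no .no (.br (.sw 1 2 [3,9,15,22,28,40,41,46]) .no .no .no)) .no .no)) .no)) .no .no) .no .no) .no) .no .no .no) .no .no) .no .no .no) .no)) (.br .no (.br .no .no (.br (.br .no (.br (.br .no .no (.br (.br .no .no .no (.de 43)) .no .no (.de 47)) .no) .no .no .no) .no .no) .no .no .no) (.de 42)) .no (.br .no .no (.br (.br .no (.br (.br .no .no (.br (.de 48) .no .no .no) .no) .no .no .no) .no .no) .no .no .no) .no)) .no .no)) .no)) .no .no) .no .no .no) .no) .no) .no .no) (.br (.br .no (.sy 27 114 3) (.br (.br .no .no (.br (.br .no .no .no (.br .no .no (.br .no (.de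 34) .no (.sw 0 1 [25,26])) .no)) (.br (.br .no .no (.br .no (.de 34) .no (.br .no (.br .no (.br (.br .no .no (.br .no (.br (.br .no .no (.br .no .no .no (.de 47)) .no) .no .no .no) .no (.de 44)) (.br .no (.br (.br .no .no (.br .no .no .no (.de 47)) .no) .no .no .no) .no .no)) .no .no (.de 42)) .no (.br (.br .no .no (.br .no (.br (.br .no .no (.de 41) .no) .no .no .no) .no (.de 44)) (.br .no (.br (.br .no .no (.de 41) .no) .no .no .no) .no .no)) .no .no .no)) .no .no)) (.br .no (.de 34) .no .no)) .no .no (.sw 0 2 [24])) .no .no) .no) .no (.br (.br .no (.br (.br .no .no (.br .no (.br (.br .no (.br .no .no (.br .no .no .no (.de 43)) (.de 42)) .no (.br .no .no (.br .no .no .no (.de 43)) .no)) .no .no .no) .no (.br (.sw 1 2 [27]) (.br .no (.br .no .no (.br .no .no .no (.de 43)) (.de 42)) .no (.br .no .no (.br .no .no .no (.de 43)) .no)) .no .no)) (.br .no (.br (.br .no (.br .no .no (.br .no .no .no (.de 43)) (.de 42)) .no (.br .no .no (.br .no .no .no (.de 43)) .no)) .no .no .no) .no .no)) .no .no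 (.sw 0 2 [24])) .no .no) .no .no .no) .no) .no) .no .no .no) .no .no) .no)) .no .no))

theorem P3_4 : R.S 15 79144068 :=
  R.piece L hL (.br .no .no (.br (.br .no (.br .no .no .no (.br .no .no (.br .no .no .no c3_4_0) .no)) .no .no) .no .no .no) .no) 15 79144068 1073741824 (by norm_num) (by norm_num) (by norm_num) (by decide +kernel)

def c3_5_0 : Cert := (.br .no (.br .no .no .no (.br .no .no (.br (.br .no (.br .no .no .no (.br (.br .no .no (.br (.br .no (.br .no .no (.br (.br .no (.br .no (.br .no .no .no (.de 42)) .no (.br .no (.de 42) .no .no)) .no .no) .no .no .no) (.br (.br .no (.br .no (.br .no .no .no (.de 42)) .no (.br .no (.de 42) .no .no)) .no .no) .no (.br .no (.br .no (.br .no .no .no (.de 42)) .no (.br .no (.de 42) .no .no)) .no .no) .no)) .no (.br .no .no (.br (.br .no (.br .no (.br .no .no .no (.de 42)) .no (.br .no (.de 42) .no .no)) .no .no) .no .no .no) .no)) (.br .no .no .no (.br .no .no (.br (.br .no (.br .no (.br (.br .no .no (.br (.br .no (.br .no .no (.br .no .no .no (.de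 47)) (.de 46)) .no (.br .no .no (.br .no .no .no (.de 47)) .no)) (.br .no .no .no (.de 45)) .no .no) .no) .no .no (.de 42)) .no (.br (.br .no .no (.br (.br .no (.br .no .no (.de 41) (.de 46)) .no (.br .no .no (.de 41) .no)) (.br .no .no .no (.de 45)) .no .no) .no) .no .no .no)) .no .no) .no .no .no) .no)) .no .no) .no) .no .no (.br (.br .no (.br .no .no .no (.br .no .no (.br (.br .no (.br .no (.br .no .no (.br (.br .no (.br .no .no .no (.de 45)) .no .no) .no .no .no) (.de 42)) (.br .no .no .no (.br (.br .no (.br .no .no .no (.de 45)) .no .no) .no (.de 43) .no)) .no) .no .no) .no .no .no) .no)) .no .no) .no (.br (.br .no (.br .no .no (.br (.br .no (.br (.br .no (.br .no .no (.br (.br .no (.br .no .no (.de 41) (.de 46)) .no (.br .no .no (.de 41) .no)) .no .no (.de 44)) (.br (.br .no (.br .no .no (.de 41) (.de 46)) .no (.br .no .no (.de 41) .no)) .no .no .no)) .no (.br .no .no (.de 43) .no)) (.br .no .no .no (.de 42)) .no .no) .no .no) .no .no .no) (.br (.br .no (.br (.br .no (.br .no .no (.br (.br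 .no (.sw 2 3 [32]) (.br .no .no .no (.br .no .no (.de 47) .no)) .no) .no .no .no) (.br (.br .no (.sw 2 3 [32]) (.br .no .no .no (.br .no .no (.de 47) .no)) .no) .no (.de 44) .no)) .no (.br .no .no (.de 43) .no)) (.br .no .no .no (.de 42)) .no .no) .no .no) .no (.br (.br (.br .no (.br .no .no (.br (.br .no (.br .no .no .no (.de 46)) .no .no) .no .no .no) (.br (.br .no (.br .no .no .no (.de 46)) .no .no) .no (.de 44) .no)) .no (.br .no .no (.de 43) .no)) (.br .no .no .no (.de 42)) .no .no) (.br (.br .no (.br .no .no (.br (.br .no (.br (.br .no .no (.br .no .no .no (.de 43)) .no) .no .no (.de 46)) .no .no) .no .no .no) (.br (.br .no (.br (.br .no .no (.br .no .no .no (.de 48)) .no) .no .no (.de 46)) .no .no) .no (.de 44) .no)) .no (.br .no .no (.de 43) .no)) (.br .no .no .no (.de 42)) .no .no) .no .no) .no)) .no (.br .no .no (.br (.br .no (.br (.br .no (.br .no .no (.br (.sw 1 3 [31]) (.br .no .no .no (.de 45)) .no .no) .no) .no (.br .no (.br (.br .no (.br .no .no (.de 41) (.de 46)) .no (.br .no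 .no (.de 41) .no)) .no .no .no) (.de 43) .no)) (.br .no .no .no (.de 42)) .no .no) .no .no) .no .no .no) .no)) (.br .no .no .no (.br .no .no (.br (.br .no (.br (.br .no .no .no (.br (.br .no (.br .no .no .no (.de 45)) .no .no) .no (.de 43) .no)) (.br (.br .no .no (.br (.br .no (.br .no .no (.br (.br .no .no .no (.de 43)) .no .no .no) (.de 46)) .no (.br .no .no (.br (.br .no .no .no (.de 43)) .no .no .no) .no)) (.br .no .no .no (.de 45)) .no .no) .no) .no .no (.de 42)) .no .no) .no .no) .no .no .no) .no)) .no .no) .no))) .no (.de 27)) .no .no (.br .no (.br .no .no .no (.br (.br .no .no (.br (.br .no (.br (.br .no .no (.br .no (.br .no (.br .no .no .no (.de 42)) .no (.br .no (.de 42) .no .no)) .no .no) .no) .no (.sw 0 3 [25]) .no) .no .no) (.br (.br .no .no (.br (.br .no (.br .no (.br (.br .no .no (.br .no (.sw 0 3 [25,31]) .no (.de 44)) (.br .no (.br .no .no .no (.de 45)) .no .no)) .no .no (.de 42)) .no (.br (.br .no .no (.br .no (.sw 0 3 [25,31]) .no (.de 44)) (.br .no (.br .no .no .no (.de 45))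 .no .no)) .no .no .no)) .no .no) .no .no .no) .no) .no .no .no) .no .no) .no) .no .no (.br (.br .no (.br (.br .no .no (.br (.br .no (.br .no (.br .no .no (.br .no .no .no (.de 43)) (.de 42)) (.br .no .no .no (.br .no .no (.de 43) .no)) .no) .no .no) .no .no .no) .no) .no .no .no) .no .no) .no (.br (.br .no (.br (.br .no .no (.br (.br (.br .no (.br .no .no (.br .no .no .no (.de 44)) (.br .no .no (.de 44) .no)) .no (.br .no .no (.de 43) .no)) (.br .no .no .no (.de 42)) .no .no) (.br (.br .no (.br .no .no (.br .no .no .no (.de 44)) (.br .no .no (.de 44) .no)) .no (.br .no .no (.de 43) .no)) (.br .no .no .no (.de 42)) .no .no) .no .no) .no) .no (.sw 0 3 [25]) .no) .no .no) (.br (.br .no .no (.br (.br .no (.br (.br .no .no .no (.br .no .no (.de 43) .no)) (.br (.br .no .no (.br .no (.sw 0 3 [25,31]) .no (.de 44)) (.sy 23 27 14)) .no .no (.de 42)) .no .no) .no .no) .no .no .no) .no) .no .no .no) .no .no) .no))) .no .no)) .no)) .no (.br .no (.br .no .no (.br (.br .no (.br .no .no .no (.br (.br .no .no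 (.br (.sw 1 3 [22,23]) .no .no (.br .no (.br .no .no (.br (.br .no (.br .no (.br (.br .no .no (.br (.sw 1 3 [22,23,30,31]) .no .no (.de 44)) .no) .no .no .no) .no (.br (.br .no .no (.br (.sw 1 3 [22,23,30,31]) .no .no (.de 44)) .no) (.de 42) .no .no)) .no .no) .no .no .no) (.br (.br .no (.br .no (.br (.br .no .no (.br (.br .no (.sw 2 3 [32]) (.sy 36 216 3) .no) .no .no .no) .no) .no .no .no) .no (.br (.br .no .no (.br (.br .no (.sw 2 3 [32]) (.sy 36 216 3) .no) .no .no .no) .no) (.de 42) .no .no)) .no .no) .no (.br .no (.br .no (.br (.br .no .no (.br (.br .no (.br (.br .no .no (.br .no .no .no (.de 43)) (.br .no .no .no (.de 43))) .no .no (.de 46)) .no .no) .no .no .no) .no) .no .no .no) .no (.br (.br .no .no (.br (.br .no (.br (.br .no .no (.br .no (.br .no .no .no (.de 44)) .no .no) .no) .no .no (.de 46)) .no .no) .no .no .no) .no) (.de 42) .no .no)) .no .no) .no)) .no .no)) .no) (.br (.br .no .no .no (.br .no (.br .no .no (.br (.de 34) .no .no .no) (.br (.de 34) .no (.br (.br .no .no (.br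 .no (.br (.br .no .no (.br (.br .no (.br .no .no .no (.br .no .no .no (.br .no .no (.br .no .no .no (.br .no (.br .no .no .no (.br .no .no (.br .lf .no .no .no) .no)) .no .no)) .no))) .no (.de 41)) (.br .no .no .no (.de 41)) .no .no) .no) .no (.br (.br .no (.br .no .no .no (.de 41)) .no .no) .no .no .no) .no) .no .no) (.br .no (.de 42) (.br (.br .no .no (.br (.sy 36 201 3) (.br .no .no .no (.de 46)) .no .no) .no) .no .no .no) .no)) .no .no .no) .no)) .no .no)) .no (.br (.br .no (.br .no .no (.br (.de 34) .no .no .no) (.br (.de 34) .no (.br (.br (.br .no (.br .no .no (.br (.br .no (.br .no .no .no (.de 46)) .no .no) .no .no .no) (.br (.br .no (.br .no .no .no (.de 46)) .no .no) .no (.de 44) .no)) .no (.br .no .no (.de 43) .no)) .no .no (.br .no (.de 42) .no .no)) .no .no .no) .no)) .no (.br .no .no (.br (.de 34) .no .no .no) .no)) .no .no (.br .no (.br .no .no (.br (.de 34) .no .no .no) (.br (.de 34) .no (.br (.br (.br .no (.br (.br .no .no (.br (.br .no (.br .no .no (.br .no .no .no (.de 48))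 (.de 48)) .no (.br .no .no (.de 47) .no)) (.br .no .no .no (.de 46)) .no .no) .no) .no (.sw 0 3 [30]) .no) .no .no) .no .no (.br (.br .no .no (.br (.br .no (.br .no .no .no (.de 46)) .no .no) .no .no .no) .no) (.de 42) .no .no)) .no .no .no) .no)) .no .no)) .no) .no .no)) .no (.de 27)) .no .no (.br .no (.br .no .no .no (.br (.br .no .no (.br (.sw 1 3 [22,23]) .no .no (.br (.br .no .no (.br (.br .no (.br .no (.br (.br .no (.br .no .no .no (.br .no (.de 45) .no .no)) (.sw 1 3 [22,23,30]) .no) .no .no .no) .no (.br (.br .no (.br .no .no .no (.br .no (.de 45) .no .no)) (.sw 1 3 [22,23,30]) .no) (.de 42) .no .no)) .no .no) .no .no .no) .no) (.br (.br .no .no (.br .no (.br .no (.br (.br .no .no (.br .no .no .no (.de 44)) .no) .no .no .no) .no (.br (.br .no .no (.br .no .no .no (.de 44)) .no) (.de 42) .no .no)) .no .no) .no) .no (.sw 0 3 [25]) .no) .no .no)) .no) (.br (.br .no .no .no (.br (.br .no .no (.br (.de 34) .no .no .no) .no) (.br (.br .no .no (.br (.br .no .no (.br .no (.br (.br .no .no (.br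 .no (.sw 0 3 [25,32]) .no (.br .no (.de 46) .no .no)) (.br .no (.de 45) .no .no)) .no (.br .no .no .no (.de 44)) .no) .no .no) (.br .no (.de 42) (.br (.br .no .no (.br .no (.sw 0 3 [25,32]) .no (.br .no (.de 46) .no .no)) (.br .no (.de 45) .no .no)) .no .no .no) .no)) .no .no .no) .no) .no (.sw 0 3 [25]) .no) .no .no)) .no (.br (.br .no (.br (.br .no .no (.br (.br (.br .no (.br .no .no (.br .no .no .no (.de 44)) (.br .no .no (.de 44) .no)) .no (.br .no .no (.de 43) .no)) .no .no (.br .no (.de 42) .no .no)) .no .no .no) .no) .no (.sw 0 3 [25]) .no) .no .no) .no .no (.br (.br .no .no (.br (.de 34) .no .no .no) .no) (.br (.br .no .no (.br (.br (.br .no (.br (.br .no .no (.br .no (.sw 0 3 [25,32]) .no (.br .no (.de 46) .no .no)) (.br .no (.de 45) .no .no)) .no (.sw 0 3 [30]) .no) .no .no) .no .no (.br (.br .no .no (.br .no .no .no (.de 44)) .no) (.de 42) .no .no)) .no .no .no) .no) .no (.sw 0 3 [25]) .no) .no .no)) .no) .no .no)) .no .no)) (.br (.br .no (.br .no .no .no (.br (.br .no .no (.br (.br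 .no (.sw 2 3 [24]) (.sy 28 216 3) .no) .no .no .no) .no) (.br (.br .no .no (.br .no (.br .no .no (.br (.de 34) .no .no .no) (.br (.de 34) .no (.br (.br .no .no (.br .no (.br (.sw 2 3 [24,30]) .no .no (.br (.br .no (.br .no .no .no (.de 41)) .no .no) .no (.de 44) .no)) .no (.br (.br .no .no (.br (.br .no (.br .no .no .no (.br .no (.br .no .no (.br .no .no .no (.br .no (.br .no .no .no (.sw 1 2 [3,9,16,23,30,31,38,45])) .no .no)) .no) .no .no)) .no (.de 41)) (.br .no .no .no (.de 41)) .no .no) .no) .no .no .no)) (.br .no (.de 42) .no .no)) .no .no .no) .no)) .no .no) .no) .no (.br (.br .no (.sw 2 3 [24]) (.br .no .no .no (.br (.de 34) .no (.br (.br (.br .no (.br .no .no .no (.br (.sw 1 2 [31]) (.br (.br .no (.br .no .no (.br .no .no .no (.de 48)) (.de 48)) .no (.br .no .no (.de 47) .no)) .no .no .no) .no .no)) .no (.br .no (.br (.br .no (.br .no .no .no (.de 46)) .no .no) .no .no .no) .no .no)) .no .no (.br .no (.de 42) .no .no)) .no .no .no) .no)) .no) .no .no .no) .no) .no .no)) .no (.de 27))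 .no .no .no)) .no .no))

def c3_5_1 : Cert := (.br .no .no (.br .no (.br .no .no .no (.br .no .no (.br (.br .no (.br (.br (.br .no .no (.br (.br .no (.br .no .no (.br .no .no .no (.br .no (.br .no (.br .no .no .no (.de 42)) .no (.br .no (.de 42) .no .no)) .no .no)) (.br .no .no (.br .no (.sw 0 3 [20,27]) .no (.br .no (.br .no .no .no (.de 42)) .no (.br .no (.de 42) .no .no))) .no)) .no (.br .no .no (.br .no .no .no (.br .no (.br .no (.br .no .no .no (.de 42)) .no (.br .no (.de 42) .no .no)) .no .no)) .no)) (.br .no .no .no (.br .no .no (.br .no .no .no (.br .no (.br .no (.br (.br .no .no (.br (.br .no (.br (.br .no .no (.br .no .no .no (.de 43)) (.br .no .no .no (.de 43))) .no (.sw 0 3 [20,27,33]) .no) .no .no) (.br (.br .no .no (.br .no .no .no (.de 47)) .no) .no .no .no) .no .no) .no) .no .no (.de 42)) .no (.br (.br .no .no (.br (.br .no (.br (.br .no .no (.br .no (.br .no .no .no (.de 44)) .no .no) .no) .no (.de 41) .no) .no .no) (.br (.br .no .no (.de 41) .no) .no .no .no) .no .no) .no) .no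 .no .no)) .no .no)) .no)) .no .no) .no) .no .no (.br (.br .no (.br .no .no .no (.br .no .no (.br .no .no .no (.br .no (.br .no (.br .no .no (.br (.br .no (.br (.br .no .no (.br (.br .no .no .no (.de 43)) .no .no .no) .no) .no .no .no) .no .no) .no .no .no) (.de 42)) (.br .no .no .no (.br (.br .no (.br (.br .no .no (.br (.sy 39 216 3) .no .no .no) .no) .no .no .no) .no .no) .no (.de 43) .no)) .no) .no .no)) .no)) .no .no) .no (.br (.br .no (.br .no .no (.br .no .no .no (.br .no (.br (.br .no (.br .no .no (.br (.br .no (.br (.br .no .no (.br .no .no .no (.de 43)) .no) .no (.de 41) .no) .no .no) .no .no (.de 44)) (.br (.br .no (.br (.br .no .no (.br .no .no .no (.de 48)) .no) .no (.de 41) .no) .no .no) .no .no .no)) .no (.br .no .no (.de 43) .no)) (.br .no .no .no (.de 42)) .no .no) .no .no)) (.br .no .no (.br .no (.sw 0 3 [20,27]) .no .no) .no)) .no (.br .no .no (.br .no .no .no (.br .no (.br (.br .no (.br .no .no (.br (.sw 1 3 [31]) (.br (.br .no .no (.de 41) .no) .no .no .no) .no .no) .no) .no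 (.br .no (.br (.br .no (.br (.sy 37 225 3) .no (.de 41) .no) .no .no) .no .no .no) (.de 43) .no)) (.br .no .no .no (.de 42)) .no .no) .no .no)) .no)) (.br .no .no .no (.br .no .no (.br .no .no .no (.br .no (.br (.br .no .no .no (.br (.br .no (.br (.br .no .no (.de 41) .no) .no .no .no) .no .no) .no (.de 43) .no)) (.br (.br .no .no (.br (.br .no (.br (.br .no .no (.sw 0 3 [28]) .no) .no (.sw 0 3 [20,27,33]) .no) .no .no) (.br (.br .no .no (.br (.br .no .no .no (.de 43)) .no .no .no) .no) .no .no .no) .no .no) .no) .no .no (.de 42)) .no .no) .no .no)) .no)) .no .no) .no)) .no .no .no) .no .no) .no .no (.br (.de 27) (.br (.br (.br .no .no (.br (.br .no (.br (.br .no .no (.br .no (.sw 0 3 [20,27]) .no (.br .no (.br .no .no .no (.de 42)) .no (.br .no (.de 42) .no .no))) (.br .no (.br .no (.br .no .no .no (.de 42)) .no (.br .no (.de 42) .no .no)) .no .no)) .no (.sw 0 3 [25]) .no) .no .no) (.br (.br .no .no (.br .no .no .no (.br .no (.br .no (.br (.br .no .no (.br .no (.sw 0 3 [25,31]) .no (.de 44))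 (.br .no (.br (.br .no .no (.br .no .no .no (.de 47)) .no) .no .no .no) .no .no)) .no .no (.de 42)) .no (.br (.br .no .no (.br .no (.sw 0 3 [25,31]) .no (.de 44)) (.br .no (.br (.br .no .no (.de 41) .no) .no .no .no) .no .no)) .no .no .no)) .no .no)) .no) .no .no .no) .no .no) .no) .no .no (.br (.br .no (.br (.br .no .no (.br .no .no .no (.br .no (.br .no (.br .no .no (.br .no .no .no (.de 43)) (.de 42)) (.br .no .no .no (.br .no .no (.de 43) .no)) .no) .no .no)) .no) .no .no .no) .no .no) .no (.br (.br .no (.br (.br .no .no (.br .no (.sw 0 3 [20,27]) .no .no) (.br .no (.br (.br .no (.br .no .no (.br .no .no .no (.de 44)) (.br .no .no (.de 44) .no)) .no (.br .no .no (.de 43) .no)) (.br .no .no .no (.de 42)) .no .no) .no .no)) .no (.sw 0 3 [25]) .no) .no .no) (.br (.br .no .no (.br .no .no .no (.br .no (.br (.br .no .no .no (.br .no .no (.de 43) .no)) (.br (.br .no .no (.br .no (.sw 0 3 [25,31]) .no (.de 44)) (.br .no (.br (.br .no .no (.br (.br .no .no .no (.de 48)) .no .no .no) .no) .no .no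 .no) .no .no)) .no .no (.de 42)) .no .no) .no .no)) .no) .no .no .no) .no .no) .no)) .no .no .no) .no .no)) .no)) .no (.br .no (.br .no .no (.br (.br .no (.br (.br (.br .no .no (.br (.sw 1 3 [22,23]) .no .no (.br .no (.br .no .no (.br .no .no .no (.br .no (.br .no (.br (.br .no .no (.br (.sw 1 3 [22,23,30,31]) .no .no (.de 44)) .no) .no .no .no) .no (.br (.br .no .no (.br (.sw 1 3 [22,23,30,31]) .no .no (.de 44)) .no) (.de 42) .no .no)) .no .no)) (.br .no .no (.br .no (.sw 0 3 [20,27]) .no (.br .no (.br (.br .no .no (.br (.br .no (.br (.br .no .no (.sw 1 3 [34]) .no) .no .no .no) .no .no) .no .no .no) .no) .no .no .no) .no (.br (.br .no .no (.br (.br .no (.br (.br .no (.sy 38 228 3) (.sw 1 3 [34]) .no) .no .no .no) .no .no) .no .no .no) .no) (.de 42) .no .no))) .no)) .no .no)) .no) (.br (.br .no .no .no (.br .no (.br .no .no (.br .no .no .no (.de 34)) (.br .no .no (.br .no .no .no (.br .no .no (.br .no (.br (.br .no .no (.br (.br .no (.br (.br .no .no .no (.de 48)) .no .no .no) .no .no) (.br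 (.de 41) .no .no .no) .no .no) .no) .no (.br (.br .no (.br (.de 41) .no .no .no) .no .no) .no .no .no) .no) .no .no) (.br .no (.de 42) (.br (.br .no .no (.br (.sy 36 201 3) (.br (.br .no .no (.br .no (.br .no .no .no (.de 44)) .no .no) .no) .no .no .no) .no .no) .no) .no .no .no) .no))) .no)) .no .no)) .no (.br (.br .no (.br .no .no (.br .no .no .no (.de 34)) (.br .no .no (.br .no .no .no (.br (.br .no (.br .no .no (.br (.br .no (.br (.br .no .no (.sw 1 3 [22,23,28,34]) .no) .no .no .no) .no .no) .no .no .no) (.br (.br .no (.br (.br .no .no (.sw 1 3 [22,23,28,34]) .no) .no .no .no) .no .no) .no (.de 44) .no)) .no (.br .no .no (.de 43) .no)) .no .no (.br .no (.de 42) .no .no))) .no)) .no (.br .no .no (.br .no .no .no (.de 34)) .no)) .no .no (.br .no (.br .no .no (.br .no .no .no (.de 34)) (.br .no .no (.br .no .no .no (.br (.br .no (.br (.br .no .no (.br (.br .no (.br .no .no (.sw 0 3 [20,27,34]) .no) .no .no) (.br (.br .no .no (.br .no .no .no (.de 48)) .no) .no .no .no) .no .no) .no) .no (.sw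 0 3 [30]) .no) .no .no) .no .no (.br (.br .no .no (.br (.br .no (.br (.br .no .no (.sw 0 1 [28]) .no) .no .no .no) .no .no) .no .no .no) .no) (.de 42) .no .no))) .no)) .no .no)) .no) .no .no) .no .no .no) .no .no) .no .no (.br (.de 27) (.br (.br (.br .no .no (.br (.sw 1 3 [22,23]) .no .no (.br (.br .no .no (.br .no .no .no (.br .no (.br .no (.br (.br .no (.br .no .no .no (.br (.br .no .no (.br .no .no .no (.de 47)) .no) (.de 45) .no .no)) (.sw 1 3 [22,23,30]) .no) .no .no .no) .no (.br (.br .no (.br .no .no .no (.br (.br .no .no (.de 41) .no) (.de 45) .no .no)) (.sw 1 3 [22,23,30]) .no) (.de 42) .no .no)) .no .no)) .no) (.br (.br .no .no (.br .no (.sw 0 3 [20,27]) .no (.br .no (.br (.br .no .no (.br .no .no .no (.de 44)) .no) .no .no .no) .no (.br (.br .no .no (.br .no .no .no (.de 44)) .no) (.de 42) .no .no))) (.br .no (.br .no (.br (.br .no .no (.br .no .no .no (.de 44)) .no) .no .no .no) .no (.br (.br .no .no (.br .no .no .no (.de 44)) .no) (.de 42) .no .no)) .no .no)) .no (.sw 0 3 [25]) .no)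 .no .no)) .no) (.br (.br .no .no .no (.br (.br .no .no (.br .no .no .no (.de 34)) .no) (.br (.br .no .no (.br .no .no .no (.br .no .no (.br .no (.br (.br .no .no (.br .no (.sw 0 3 [25,32]) .no (.br (.de 41) (.de 46) .no .no)) (.br .no (.de 45) .no .no)) .no (.br .no .no .no (.de 44)) .no) .no .no) (.br .no (.de 42) (.br (.br .no .no (.br .no (.sw 0 3 [25,32]) .no (.br (.br .no .no (.br .no (.br .no .no .no (.de 44)) .no .no) .no) (.de 46) .no .no)) (.br .no (.de 45) .no .no)) .no .no .no) .no))) (.de 34)) .no (.sw 0 3 [25]) .no) .no .no)) .no (.br (.br .no (.br (.br .no .no (.br .no .no .no (.br (.br .no (.br .no .no (.br .no .no .no (.de 44)) (.br .no .no (.de 44) .no)) .no (.br .no .no (.de 43) .no)) .no .no (.br .no (.de 42) .no .no))) (.de 34)) .no (.sw 0 3 [25]) .no) .no .no) .no .no (.br (.br .no .no (.br .no .no .no (.de 34)) .no) (.br (.br .no .no (.br .no .no .no (.br (.br .no (.br (.br .no .no (.br .no (.sw 0 3 [25,32]) .no (.br (.br .no .no (.br .no .no .no (.de 48)) .no) (.de 46)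 .no .no)) (.br .no (.de 45) .no .no)) .no (.sw 0 3 [30]) .no) .no .no) .no .no (.br (.br .no .no (.br .no .no .no (.de 44)) .no) (.de 42) .no .no))) (.de 34)) .no (.sw 0 3 [25]) .no) .no .no)) .no) .no .no) .no .no .no) .no .no)) (.br (.br .no (.br (.br (.br .no .no (.br (.br .no (.sw 2 3 [24]) (.sy 28 216 3) .no) .no .no .no) .no) (.br (.br .no .no (.br .no (.br .no .no (.br .no .no .no (.de 34)) (.br .no .no (.br .no .no .no (.br .no .no (.br .no (.br (.sw 2 3 [24,30]) .no .no (.br (.br .no (.br (.de 41) .no .no .no) .no .no) .no (.de 44) .no)) .no (.br (.br .no .no (.br (.br .no (.br (.br .no (.br .no .no (.br .no .no .no (.br .no (.br .no .no .no (.sw 1 2 [3,9,16,23,30,31,38,45])) .no .no)) .no) .no .no) .no .no .no) .no .no) (.br (.de 41) .no .no .no) .no .no) .no) .no .no .no)) (.br .no (.de 42) .no .no))) .no)) .no .no) .no) .no (.br (.br .no (.sw 2 3 [24]) (.br .no .no .no (.br .no .no (.br .no .no .no (.sy 31 78 3)) .no)) .no) .no .no .no) .no) .no .no) .no .no .no) .no .no) .no .no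 .no)) .no .no)) (.br .no (.br .no .no .no (.br .no .no (.br (.br .no (.br (.br (.br .no .no (.br (.br .no (.br .no .no (.br .no .no .no (.br .no (.sw 2 3 [21]) (.sy 34 201 3) .no)) (.br .no .no (.br .no (.sw 2 3 [21]) .no .no) .no)) .no (.br .no .no (.br .no .no .no (.br .no (.sw 2 3 [21]) (.sy 31 30 3) .no)) .no)) (.br .no .no .no (.br .no .no (.br .no .no .no (.br .no (.sw 2 3 [21]) (.sy 31 30 3) .no)) .no)) .no .no) .no) .no (.br (.br .no (.br .no .no .no (.br .no .no (.br .no .no .no (.br .no (.br .no (.br .no .no (.br (.br .no (.br (.br .no .no (.br (.sw 2 3 [21,28]) .no .no (.de 47)) .no) .no .no .no) .no .no) .no .no .no) (.de 42)) .no (.br .no .no (.br (.br .no (.br (.br .no .no (.br (.de 48) .no .no .no) .no) .no .no .no) .no .no) .no .no .no) .no)) .no .no)) .no)) .no .no) .no .no .no) .no) .no (.sw 0 3 [20]) .no) .no .no) .no .no (.br (.br .no .no (.br (.br .no .no (.br (.br .no (.br .no .no (.br .no (.de 34) .no (.br .no (.br .no (.br .no .no .no (.de 42)) .no (.br .no (.de 42) .no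 .no)) .no .no)) .no) .no .no) (.br (.br .no (.br .no .no .no (.br .no (.br .no (.br (.br .no .no (.br .no .no .no (.de 44)) (.br .no .no (.de 44) .no)) .no .no (.de 42)) .no (.br (.br .no .no (.br .no .no .no (.de 44)) (.br .no .no (.de 44) .no)) .no .no .no)) .no .no)) (.br .no (.de 34) .no (.br .no (.br .no (.br (.br .no .no (.br .no (.br (.br .no .no (.br .no .no .no (.de 47)) .no) .no .no .no) .no (.de 44)) (.br .no (.br (.br .no .no (.br .no .no .no (.de 47)) .no) .no .no .no) .no .no)) .no .no (.de 42)) .no (.br (.br .no .no (.br .no (.br (.br .no .no (.de 41) .no) .no .no .no) .no (.de 44)) (.br .no (.br (.br .no .no (.de 41) .no) .no .no .no) .no .no)) .no .no .no)) .no .no)) .no) .no .no .no) .no .no) .no) .no (.br (.br .no (.br (.br .no (.sy 29 228 3) (.br .no (.br (.br .no (.br .no .no (.br .no .no .no (.de 43)) (.de 42)) .no (.br .no .no (.br .no .no .no (.de 43)) .no)) .no .no .no) .no (.br (.br .no (.br .no .no (.br .no .no .no (.de 43)) (.de 42)) .no (.br .no .no (.br .no .no .no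 (.de 43)) .no)) (.br .no (.br .no .no (.br .no .no .no (.de 43)) (.de 42)) .no (.br .no .no (.br .no .no .no (.de 43)) .no)) .no .no)) .no) .no .no .no) .no .no) .no .no .no) .no) .no) (.br (.br (.br .no .no (.br (.br .no (.br (.br .no .no (.br .no (.sw 2 3 [21]) .no .no) (.br .no (.sw 2 3 [21]) (.sy 34 201 3) .no)) .no (.sw 0 3 [25]) .no) .no .no) (.br (.br .no .no (.br .no .no .no (.br .no (.sw 2 3 [21]) (.br .no (.br (.br .no .no (.br .no (.sw 0 3 [25,31]) .no (.de 44)) (.br .no (.br (.br .no (.br .no .no .no (.br .no .no .no (.br .no .no (.de 44) .no))) .no .no) .no .no .no) .no .no)) .no .no (.de 42)) .no (.br (.br .no .no (.br .no (.sw 0 3 [25,31]) .no (.de 44)) (.br .no (.br (.br .no (.de 41) .no .no) .no .no .no) .no .no)) .no .no .no)) .no)) .no) .no .no .no) .no .no) .no) .no (.br (.br .no (.br (.br .no .no (.br .no .no .no (.br .no (.br .no (.br .no .no (.br .no .no .no (.de 43)) (.de 42)) .no (.br .no .no (.br .no .no .no (.de 43)) .no)) .no .no)) .no) .no .no .no) .no .no) .no .no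 .no) .no) .no (.sw 0 3 [20]) .no) .no .no)) .no)) .no .no))

def c3_5_2 : Cert := (.br .no (.br .no .no (.br (.br .no .no c3_5_0 (.br .no (.br .no .no .no (.br .no .no (.br (.br .no (.br .no .no (.br (.br .no .no (.br (.br .no (.br .no .no (.br (.br .no (.sw 2 3 [21,27]) .no .no) .no .no (.br .no (.br .no (.br .no .no .no (.de 42)) .no (.br .no (.de 42) .no .no)) .no .no)) (.br (.br .no (.sw 2 3 [21,27]) .no .no) .no .no .no)) .no (.br .no .no (.br (.br .no (.sw 2 3 [21,27]) .no .no) .no .no (.br .no (.br .no (.br .no .no .no (.de 42)) .no (.br .no (.de 42) .no .no)) .no .no)) .no)) (.br .no .no .no (.br .no .no (.br (.br .no (.sw 2 3 [21,27]) .no .no) .no .no (.br .no (.br .no (.br (.br .no .no (.br (.br .no (.br (.br .no .no (.br .no .no .no (.de 43)) (.br .no .no .no (.de 43))) .no (.sw 0 3 [33]) .no) .no .no) (.br (.br .no .no (.br .no .no .no (.de 47)) .no) .no .no .no) .no .no) .no) .no .no (.de 42)) .no (.br (.br .no .no (.br (.br .no (.br (.br .no .no (.br .no (.br .no .no .no (.de 44))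 .no .no) .no) .no (.de 41) .no) .no .no) (.br (.br .no .no (.de 41) .no) .no .no .no) .no .no) .no) .no .no .no)) .no .no)) .no)) .no .no) .no) .no (.br (.br .no (.br .no .no .no (.br .no .no (.br (.br .no (.br .no (.br .no .no (.br (.br .no (.br .no .no .no (.de 45)) .no .no) .no .no .no) (.de 42)) .no (.br .no .no (.br (.br .no (.br .no .no .no (.de 45)) .no .no) .no .no .no) .no)) .no .no) .no .no (.br (.sy 20 228 14) (.br .no (.br .no .no (.br (.br .no (.br (.br .no .no (.br (.br .no .no .no (.de 43)) .no .no (.de 47)) .no) .no .no .no) .no .no) .no .no .no) (.de 42)) .no (.br .no .no (.br (.br .no (.br (.br .no .no (.br (.de 48) .no .no .no) .no) .no .no .no) .no .no) .no .no .no) .no)) .no .no)) .no)) .no .no) .no .no .no) .no) .no) .no (.br .no .no (.br (.br .no .no (.br (.br .no (.br .no .no (.br (.sw 1 3 [26]) (.de 34) .no .no) .no) .no (.br .no (.br (.br .no (.sy 32 225 3) .no .no) .no .no .no) (.br (.sw 1 3 [26]) (.de 34) .no .no) .no)) (.br .no .no .no (.br .no (.br (.br .no (.sy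 32 225 3) .no .no) .no .no .no) (.br (.sw 1 3 [26]) (.de 34) .no .no) .no)) .no .no) .no) .no (.br (.br .no (.br .no .no .no (.br .no (.br (.br .no (.br .no (.br .no .no (.br (.br .no .no (.br .no .no .no (.br .no .no (.br (.br .no .no .no (.de 43)) .no .no (.de 47)) .no)) .no) .no .no .no) (.de 42)) .no (.br .no .no (.br (.br .no .no (.br .no .no .no (.br .no .no (.br (.de 48) .no .no .no) .no)) .no) .no .no .no) .no)) .no .no) .no .no .no) (.br (.sw 1 3 [26]) (.br (.br .no (.br .no .no (.br (.br .no (.br (.br .no .no (.sw 1 3 [26,33]) (.de 41)) .no .no (.de 45)) .no .no) .no .no .no) (.de 42)) .no (.br .no .no (.br (.br .no (.br (.br .no .no (.sw 1 3 [26,33]) (.br .no (.br .no (.br .no .no .no (.br .no .no (.br .no .no .no (.br .no (.br .no .no (.br (.sw 2 3 [40,47]) .no .no .no) .no) .no .no)) .no)) .no .no) .no .no)) .no .no (.de 45)) .no .no) .no .no .no) .no)) .no .no .no) .no .no) .no)) .no .no) .no .no .no) .no) .no)) .no .no (.br .no (.br .no .no (.br (.br .no .no (.br (.br .no (.br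 (.br .no .no .no (.br .no (.br .no (.br .no .no .no (.de 42)) .no (.br .no (.de 42) .no .no)) .no .no)) .no (.sw 0 3 [25]) .no) .no .no) (.br (.br .no .no (.br (.br .no (.sw 2 3 [21,27]) .no .no) .no .no (.br .no (.br .no (.br (.br .no .no (.br .no (.sw 0 3 [25,31]) .no (.de 44)) (.br .no (.br (.br .no .no (.br .no .no .no (.de 47)) .no) .no .no .no) .no .no)) .no .no (.de 42)) .no (.br (.br .no .no (.br .no (.sw 0 3 [25,31]) .no (.de 44)) (.br .no (.br (.br .no .no (.de 41) .no) .no .no .no) .no .no)) .no .no .no)) .no .no)) .no) .no .no .no) .no .no) .no) .no (.br (.br .no (.br (.br .no .no (.br (.br .no (.br .no (.br .no .no (.br .no .no .no (.de 43)) (.de 42)) .no (.br .no .no (.br .no .no .no (.de 43)) .no)) .no .no) .no .no (.br (.br .no (.br .no .no (.br .no .no .no (.de 43)) (.de 42)) .no (.br .no .no (.br .no .no .no (.de 43)) .no)) (.br .no (.br .no .no (.br .no .no .no (.de 43)) (.de 42)) .no (.sy 21 39 14)) .no .no)) .no) .no .no .no) .no .no) .no .no .no) .no) .no) .no .no)) .no))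 .no .no)) .no .no c3_5_1) (.br (.br .no .no (.br .no (.br .no .no .no (.br .no .no (.br (.br .no (.sw 2 3 [19]) (.br .no .no .no (.br (.br .no .no (.br (.br .no (.br .no .no .no (.br (.sw 1 2 [26]) (.de 34) .no .no)) .no (.br .no (.br (.br .no (.sw 2 3 [19,21,26,27]) .no .no) .no .no .no) .no .no)) (.br .no .no .no (.br .no (.br (.br .no (.sw 2 3 [19,21,26,27]) .no .no) .no .no .no) .no .no)) .no .no) .no) .no .no (.br (.br .no (.br .no .no .no (.br .no (.br (.br .no (.br .no (.br .no .no (.br (.br .no .no (.br .no .no .no (.br .no .no (.br (.sw 2 3 [19,21,26,27,28]) .no .no .no) .no)) .no) .no .no .no) (.de 42)) (.br .no .no .no (.br (.br .no .no (.br .no .no .no (.br .no .no (.br (.br .no (.br .no .no (.br .no .no .no (.br .no (.de 46) .no .no)) .no) .no .no) .no .no .no) .no)) .no) .no (.de 43) .no)) .no) .no .no) .no .no .no) .no .no)) .no .no) .no (.br (.br .no (.br .no .no .no (.br (.sw 1 2 [26]) (.br (.br (.br .no (.br .no .no (.br (.br .no .no (.br .no .no .no (.br .no (.br .no .no .no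 (.de 43)) (.de 47) .no)) .no) .no .no .no) (.br (.br .no .no (.br .no .no .no (.br .no (.br .no .no .no (.de 48)) (.de 47) .no)) .no) .no (.de 44) .no)) .no (.br .no .no (.de 43) .no)) (.br .no .no .no (.de 42)) .no .no) .no .no .no) .no .no)) .no (.br .no (.br (.br .no (.br (.br .no (.br .no .no (.br (.br .no .no (.sw 1 3 [31,32]) (.sw 1 2 [26,32])) .no .no .no) .no) .no (.br .no (.br (.br .no .no (.br .no .no .no (.br .no .no (.de 47) .no)) (.sw 1 2 [26,32])) .no (.br .no .no .no (.br .no .no (.de 41) .no)) .no) (.de 43) .no)) (.br .no .no .no (.de 42)) .no .no) .no .no) .no .no .no) .no .no)) (.br .no .no .no (.br .no (.br (.br .no (.br (.br .no .no .no (.br (.br .no .no (.br .no .no .no (.br .no .no (.de 41) .no)) .no) .no (.de 43) .no)) (.br (.br .no .no (.br (.br .no .no (.sy 36 216 3) (.sw 1 2 [26,32])) .no .no .no) .no) .no .no (.de 42)) .no .no) .no .no) .no .no .no) .no .no)) .no .no) .no))) .no) .no .no .no) .no)) .no (.br .no (.br .no .no (.br (.br .no (.sw 2 3 [19]) (.br .no .no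 .no (.sy 26 78 3)) .no) .no .no .no) (.br (.br .no (.sw 2 3 [19]) (.br .no .no .no (.sy 26 78 3)) .no) .no (.br .no (.br .no .no .no (.br (.br .no .no (.br (.br .no (.br (.sw 2 3 [19,24,25]) .no .no (.sw 0 2 [25])) .no .no) .no .no .no) .no) (.br (.br .no .no (.br (.br .no .no .no (.br (.de 34) .no (.br (.br .no .no (.br .no (.br .no .no .no (.br .no (.br (.br .no (.br .no .no .no (.br .no .no .no (.br .no .no (.de 44) .no))) .no (.de 41)) .no .no .no) (.de 44) .no)) .no (.br .no (.br .no .no (.br (.br .no (.br .no .no .no (.br .no (.br .no .no (.br .no .no .no (.br .no (.br .no .no .no (.br .no .no (.br .lf .no .no .no) .no)) .no .no)) .no) .no .no)) .no (.de 41)) (.br .no .no .no (.de 41)) .no .no) .no) .no .no)) (.br .no (.de 42) .no .no)) .no .no .no) .no)) (.br (.br .no .no (.br (.br .no .no (.br .no (.br (.sw 2 3 [19,24,25,30]) .no .no (.br .no .no (.de 44) .no)) .no (.br (.br .no .no (.br .no (.br .no .no .no (.de 41)) .no (.br .no (.de 46) .no .no)) (.br .no (.de 45) .no .no)) .no .no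 .no)) (.br .no (.de 42) .no .no)) .no .no .no) .no) .no .no (.sw 0 2 [25])) .no .no) .no) .no (.br (.br .no (.br (.sw 2 3 [19,24,25]) .no .no (.sw 0 2 [25])) .no .no) .no .no .no) .no) .no .no)) .no .no) .no)) .no .no)) (.br .no (.br .no .no .no (.br .no .no (.br (.br .no (.sw 2 3 [19]) (.de 27) .no) .no .no .no) .no)) .no .no)) .no .no .no)) .no (.br .no .no (.br (.br .no .no (.br .no (.br .no .no .no (.br .no (.br (.br .no (.br .no .no .no (.br (.br .no .no (.br (.br .no .no (.sw 1 3 [18,22,23,24]) (.br .no .no (.br (.br .no (.br .no (.br .no .no .no (.de 42)) .no (.br .no (.de 42) .no .no)) .no .no) .no .no .no) .no)) .no .no .no) .no) .no .no (.br (.br .no .no (.br .no .no .no (.br .no .no (.br (.br .no (.br .no (.br .no .no .no (.de 42)) (.br .no (.br (.br .no (.br .no .no .no (.de 45)) .no .no) .no .no .no) .no (.br (.br .no (.br .no .no .no (.de 45)) .no .no) (.br (.br .no (.br .no .no (.br (.br .no (.br .no .no (.br .no .no .no (.de 45)) .no) .no .no) .no .no .no) (.de 46)) .no (.br .no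 .no (.br (.br .no (.br .no .no (.br .no .no .no (.br .no (.de 46) .no .no)) .no) .no .no) .no .no .no) .no)) .no .no .no) .no .no)) .no) .no .no) .no .no .no) .no)) .no) .no (.br (.br .no .no (.br .no .no .no (.br (.br .no (.br (.br .no (.br .no .no .no (.br (.br .no (.br .no .no (.de 41) (.de 46)) (.br .no .no .no (.br .no .no (.de 47) .no)) .no) (.br .no .no (.br .no .no .no (.br .no .no (.de 47) .no)) .no) .no .no)) .no (.br .no (.br (.br .no (.br .no .no (.de 41) (.de 46)) (.br .no .no .no (.br .no .no (.de 47) .no)) .no) .no .no .no) .no .no)) (.br .no .no .no (.de 42)) .no .no) .no .no) .no (.br (.br (.br .no (.br .no .no .no (.br (.br .no (.br .no .no .no (.de 46)) .no .no) (.br (.br .no (.br .no .no (.sw 1 3 [18,22,23,24,28]) .no) .no (.br .no (.br .no .no .no (.de 48)) (.de 47) .no)) .no .no .no) .no .no)) .no (.br .no (.br (.br .no (.br .no .no .no (.de 46)) .no .no) .no .no .no) .no .no)) (.br .no .no .no (.de 42)) .no .no) (.br (.br .no (.br .no .no .no (.br (.br .no (.br (.br .no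 .no (.br .no .no .no (.de 48)) .no) .no .no (.de 46)) .no .no) (.br (.br .no .no .no (.br .no .no (.de 47) .no)) .no .no .no) .no .no)) .no (.br .no (.br (.br .no (.br (.sy 37 225 3) .no .no (.de 46)) .no .no) .no .no .no) .no .no)) (.br .no .no .no (.de 42)) .no .no) .no .no) .no)) (.br .no .no (.br (.br .no (.br (.br .no (.br .no .no (.br (.br .no (.br .no .no (.de 41) (.de 46)) .no (.br .no .no (.de 41) .no)) (.br .no .no .no (.de 45)) .no .no) .no) .no (.br .no (.br (.br .no (.sw 2 3 [31,32]) .no (.br .no .no (.de 41) .no)) .no .no .no) (.de 43) .no)) (.br .no .no .no (.de 42)) .no .no) .no .no) .no .no .no) .no)) .no .no .no) .no))) .no (.de 27)) .no .no .no) (.br (.sw 1 3 [18]) (.br .no .no .no (.de 27)) .no .no) .no)) .no (.br .no (.br .no .no (.br (.sw 1 3 [18]) (.br .no .no .no (.de 27)) .no .no) .no) .no .no)) (.br .no (.br .no .no .no (.br .no (.sy 21 54 3) (.br (.sw 1 3 [18]) (.br .no .no .no (.br .no .no (.br (.br .no .no (.br (.br .no .no .no (.br (.br .no (.de 34) .no .no) .no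 (.sw 0 1 [25]) .no)) (.br (.br .no .no (.br (.sw 1 3 [18,25,26]) (.de 34) .no .no) .no) .no .no (.br (.br .no (.de 34) .no .no) .no (.sw 0 1 [25]) .no)) .no .no) .no) .no (.br (.br .no (.br (.br .no .no (.br (.sw 1 3 [18,25,26]) (.br (.br .no (.br .no .no (.br .no .no .no (.de 43)) (.de 42)) .no (.br .no .no (.br .no .no .no (.de 43)) .no)) .no .no .no) .no .no) .no) .no .no (.br (.br .no (.br (.br .no (.br .no .no (.br (.br .no (.br .no .no (.br .no .no .no (.de 41)) (.de 45)) (.br .no .no .no (.br .no .no (.br .no .no .no (.de 47)) .no)) .no) .no .no .no) (.de 42)) .no (.br .no .no (.br (.br .no (.br .no .no (.br .no .no .no (.br .no (.br .no (.br .no .no .no (.br .no .no (.br .no .no .no (.br .no (.br .no .no (.br .lf .no .no .no) .no) .no .no)) .no)) .no .no) .no .no)) (.de 45)) (.br .no .no .no (.br .no .no (.br .no (.br .no (.br .no .no .no (.de 44)) .no .no) .no .no) .no)) .no) .no .no .no) .no)) .no .no .no) .no .no) .no (.sw 0 1 [25]) .no)) .no .no) .no .no .no) .no) .no)) .no .no) .no))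 .no .no)) .no .no (.br .no .no (.br .no (.br .no .no .no (.br .no (.br (.br .no (.br (.sy 24 225 3) .no .no .no) .no .no) .no .no .no) (.br (.sw 1 3 [18]) (.br (.de 27) .no .no .no) .no .no) .no)) .no (.br .no (.br .no .no (.br (.sw 1 3 [18]) (.br (.de 27) .no .no .no) .no .no) .no) .no .no)) (.br .no (.br .no .no .no (.br .no (.sy 21 54 3) (.br (.sw 1 3 [18]) (.br (.br .no .no (.br (.br .no .no (.br (.br .no .no .no (.br .no .no (.br .no (.de 34) .no (.sw 0 1 [25,26])) .no)) (.br (.br .no .no (.sw 1 3 [18,25]) (.br .no (.de 34) .no .no)) .no .no (.br .no .no (.br .no (.de 34) .no (.sw 0 1 [25,26])) .no)) .no .no) .no) .no (.br (.br .no (.br (.br .no .no (.sw 1 3 [18,25]) (.br .no (.br (.br .no (.br .no .no (.br .no .no .no (.de 43)) (.de 42)) .no (.br .no .no (.br .no .no .no (.de 43)) .no)) .no .no .no) .no .no)) .no .no (.br .no .no (.br .no (.sw 0 3 [20,26]) .no (.sw 0 1 [25,26])) .no)) .no .no) .no .no .no) .no) .no) .no .no .no) .no .no) .no)) .no .no))) .no))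

def c3_5_3 : Cert := (.br .no .no (.br .no (.br (.br .no .no (.br (.br .no (.br .no .no .no (.br (.br .no .no (.br .no (.br .no .no .no (.br .no .no (.br (.br .no (.br .no (.br (.br .no .no (.br (.br .no (.br .no .no (.br .no .no .no (.de 47)) (.de 46)) .no (.br .no .no (.br .no .no .no (.de 47)) .no)) (.br .no .no .no (.de 45)) .no .no) .no) .no .no (.de 42)) .no (.br (.br .no .no (.br (.br .no (.br .no .no (.de 41) (.de 46)) .no (.br .no .no (.de 41) .no)) (.br .no .no .no (.de 45)) .no .no) .no) .no .no .no)) .no .no) .no .no .no) .no)) .no (.br .no (.br .no .no (.br (.br .no (.br .no (.br (.br .no .no (.br (.sw 1 3 [30,31]) .no .no (.de 44)) .no) .no .no .no) .no (.br (.br .no .no (.br (.sw 1 3 [30,31]) .no .no (.de 44)) .no) (.de 42) .no .no)) .no .no) .no .no .no) (.br (.br .no (.br .no (.br (.br .no .no (.br (.br .no (.sw 2 3 [32]) (.sy 36 216 3) .no) .no .no .no) .no) .no .no .no) .no (.br (.br .no .no (.br (.br .no (.sw 2 3 [32]) (.sy 36 216 3) .no) .no .no .no) .no) (.de 42) .no .no))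 .no .no) .no (.br .no (.br .no (.br (.br .no .no (.br (.br .no (.br (.br .no .no (.br .no .no .no (.de 43)) (.br .no .no .no (.de 43))) .no .no (.de 46)) .no .no) .no .no .no) .no) .no .no .no) .no (.br (.br .no .no (.br (.br .no (.br (.br .no .no (.br .no (.br .no .no .no (.de 44)) .no .no) .no) .no .no (.de 46)) .no .no) .no .no .no) .no) (.de 42) .no .no)) .no .no) .no)) .no .no)) (.br .no (.br .no .no .no (.br .no .no (.br (.br .no (.br .no (.br (.sw 2 3 [29]) .no (.br (.br .no (.br .no .no .no (.de 45)) .no .no) .no .no .no) .no) (.br (.br .no .no (.br (.sy 35 201 3) (.br .no .no .no (.de 45)) .no .no) .no) .no .no .no) .no) .no .no) .no .no .no) .no)) .no .no)) .no .no (.br .no .no (.br .no (.br .no .no .no (.br .no .no (.br (.br .no (.br (.br .no .no .no (.br (.br .no (.br .no .no .no (.de 45)) .no .no) .no (.de 43) .no)) (.br (.br .no .no (.br (.br .no (.br .no .no (.br (.br .no .no .no (.de 43)) .no .no .no) (.de 46)) .no (.br .no .no (.br (.br .no .no .no (.de 43)) .no .no .no) .no))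 (.br .no .no .no (.de 45)) .no .no) .no) .no .no (.de 42)) .no .no) .no .no) .no .no .no) .no)) .no (.br .no (.br .no .no (.br (.br .no (.br (.br .no (.br (.br .no .no .no (.br .no (.de 45) .no .no)) .no (.br (.br .no (.br .no .no (.de 41) (.de 46)) .no (.br .no .no (.de 41) .no)) .no .no (.de 44)) .no) .no .no) (.br (.br .no .no (.br (.sw 1 3 [30,31]) .no .no (.de 44)) .no) .no .no .no) .no .no) .no .no) .no .no .no) (.br (.br .no (.br (.br .no (.br (.br .no .no (.br .no (.br .no .no (.de 41) (.de 46)) .no .no) .no) .no (.br (.br .no (.sw 2 3 [32]) (.br .no .no .no (.br .no .no (.de 47) .no)) .no) .no .no .no) .no) .no .no) (.br (.br .no .no (.br (.br .no (.sw 2 3 [32]) (.sy 36 216 3) .no) .no .no .no) .no) .no .no .no) .no .no) .no .no) .no (.br (.br (.br .no (.br (.br .no .no (.br (.br .no (.br .no .no (.br .no .no .no (.de 48)) .no) .no (.br .no (.sy 41 225 3) (.de 47) .no)) (.br .no .no .no (.de 46)) .no .no) .no) .no (.br (.br .no (.br .no .no .no (.de 46)) .no .no) .no .no .no) .no) .no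 .no) (.br (.br .no .no (.br (.br .no (.br .no .no .no (.de 46)) .no .no) .no .no .no) .no) .no .no .no) .no .no) (.br (.br .no (.br (.br .no .no (.br (.br .no .no .no (.br .no .no (.de 47) .no)) (.br (.br .no .no (.br .no .no .no (.de 48)) .no) .no .no (.de 46)) .no .no) .no) .no (.br (.br .no (.br (.br .no .no (.br .no .no .no (.de 43)) .no) .no .no (.de 46)) .no .no) .no .no .no) .no) .no .no) (.br (.br .no .no (.br (.br .no (.br (.br .no .no (.sw 0 3 [28]) .no) .no .no (.de 46)) .no .no) .no .no .no) .no) .no .no .no) .no .no) .no .no) .no)) .no .no)) .no))) .no (.de 27)) (.br .no .no .no (.de 27)) .no .no) .no) .no .no (.br (.br .no (.br .no .no .no (.de 27)) .no .no) .no (.sw 0 1 [17]) .no)) .no (.br (.br .no .no (.br (.br .no (.br .no .no .no (.br (.br .no (.br .no .no .no (.br .no (.br .no .no (.br (.br .no (.sy 33 228 3) .no .no) .no .no .no) (.sy 29 114 3)) .no .no)) (.sw 1 3 [22]) .no) (.br .no .no (.br .no (.br .no .no .no (.br .no .no (.br (.de 34) .no .no .no) .no)) .no (.sw 0 1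 [17,23])) .no) .no .no)) .no (.de 27)) (.br .no .no .no (.de 27)) .no .no) .no) .no .no .no)) (.br .no (.br (.br .no .no (.br (.br .no (.br .no .no (.br (.br .no .no (.br .no (.br .no .no .no (.br .no .no (.br (.br .no (.sw 2 3 [21,27]) .no .no) .no .no (.br .no (.br .no (.br (.br .no .no (.br (.br .no (.br (.br .no .no (.br .no .no .no (.de 43)) (.br .no .no .no (.de 43))) .no (.sw 0 3 [33]) .no) .no .no) (.br (.br .no .no (.br .no .no .no (.de 47)) .no) .no .no .no) .no .no) .no) .no .no (.de 42)) .no (.br (.br .no .no (.br (.br .no (.br (.br .no .no (.br .no (.br .no .no .no (.de 44)) .no .no) .no) .no (.de 41) .no) .no .no) (.br (.br .no .no (.de 41) .no) .no .no .no) .no .no) .no) .no .no .no)) .no .no)) .no)) .no (.br .no (.br .no .no (.br (.br .no (.sw 2 3 [21,27]) .no .no) .no .no (.br .no (.br .no (.br (.br .no .no (.br (.sw 1 3 [30,31]) .no .no (.de 44)) .no) .no .no .no) .no (.br (.br .no .no (.br (.sw 1 3 [30,31]) .no .no (.de 44)) .no) (.de 42) .no .no)) .no .no)) (.br (.br .no (.sw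 2 3 [21,27]) .no .no) .no .no .no)) .no .no)) (.br .no (.br .no .no .no (.br .no .no (.br (.br .no (.sw 2 3 [21,27]) .no .no) .no .no (.br .no (.br .no (.br (.sw 2 3 [29]) .no (.br (.br .no (.br (.br .no .no (.br .no .no .no (.de 47)) .no) .no .no .no) .no .no) .no .no .no) .no) (.br (.br .no .no (.br (.sy 35 201 3) (.br (.br .no .no (.br .no .no .no (.de 47)) .no) .no .no .no) .no .no) .no) .no .no .no) .no) .no .no)) .no)) .no .no)) .no (.br .no .no .no (.br .no (.br .no .no .no (.br .no .no (.br (.br .no (.br (.br .no .no (.br (.br .no (.br .no .no .no (.de 45)) .no .no) .no .no .no) .no) (.br (.br .no .no (.br (.br .no (.br .no .no (.br (.sw 2 3 [21,27,28,29]) .no .no (.de 47)) (.de 46)) .no (.br .no .no (.br (.sw 2 3 [21,27,28,29]) .no .no (.de 47)) .no)) (.br .no .no .no (.de 45)) .no .no) .no) .no (.br (.br .no (.br .no .no .no (.de 45)) .no .no) .no .no .no) .no) .no .no) .no .no) .no .no (.br (.br (.br .no .no (.br (.br .no (.br (.br .no (.sy 37 228 3) (.br .no (.br .no (.br .no .no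 .no (.br .no .no (.br .no .no .no (.br .no (.br .no .no .no (.de 48)) .no .no)) .no)) .no (.de 43)) .no (.de 47)) .no) .no .no .no) .no .no) .no .no .no) .no) (.br (.br .no .no (.br (.br .no (.br .no .no (.br .no .no .no (.de 47)) .no) .no .no) (.br (.br .no (.br .no .no .no (.br .no .no .no (.de 43))) (.br .no .no .no (.de 47)) .no) .no .no .no) .no .no) .no) .no (.br (.br .no (.br (.br .no (.sy 37 228 3) (.br .no .no .no (.de 47)) .no) .no .no .no) .no .no) .no .no .no) .no) .no .no) (.br (.br .no .no (.br (.br .no (.br (.br .no .no (.br .no .no .no (.de 47)) .no) .no .no .no) .no .no) .no .no .no) .no) (.br (.br .no .no (.br (.br .no (.br (.br .no .no .no (.sw 0 2 [28])) .no (.sw 0 3 [33]) .no) .no .no) (.br (.br .no .no (.br (.br .no .no .no (.de 43)) .no .no (.de 47)) .no) .no .no .no) .no .no) .no) .no (.br (.br .no (.br (.br .no .no (.br (.br .no .no .no (.de 43)) .no .no (.de 47)) .no) .no .no .no) .no .no) .no .no .no) .no) .no .no) .no .no)) .no)) .no .no)) .no) .no) .no (.br .no .no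 (.br (.br .no .no (.br .no (.br .no .no .no (.br .no (.br (.br .no (.sy 32 225 3) .no .no) .no .no .no) (.br (.sw 1 3 [26]) (.de 34) .no .no) .no)) .no (.br .no (.br .no .no (.br (.sw 1 3 [26]) (.de 34) .no .no) .no) .no .no)) (.br .no (.br .no .no .no (.br .no (.sy 29 54 3) (.br (.sw 1 3 [26]) (.de 34) .no .no) .no)) .no .no)) .no (.br .no .no .no (.br .no (.br .no .no .no (.br .no (.sy 29 54 3) (.br (.sw 1 3 [26]) (.br (.br (.br .no .no (.br (.br .no (.br (.br .no .no (.sw 1 3 [26,33]) (.br .no (.br .no (.br .no .no .no (.br .no .no (.br .no .no .no (.br .no (.br .no .no (.br .no .no .no .lf) .no) .no .no)) .no)) .no (.de 43)) .no .no)) .no .no (.de 45)) .no .no) .no .no .no) .no) (.br (.br .no .no (.br (.br .no .no .no (.br .no .no (.br .no .no .no (.de 47)) .no)) (.br (.br .no .no (.sw 1 3 [26,33]) (.de 41)) .no .no (.de 45)) .no .no) .no) .no (.br (.br .no (.br (.br .no .no (.sw 1 3 [26,33]) (.de 41)) .no .no (.de 45)) .no .no) .no .no .no) .no) .no .no) .no .no .no) .no .no) .no)) .no .no))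 .no) .no)) (.br .no .no .no (.br .no .no (.br (.br .no .no (.br .no (.br (.br .no .no (.br (.br .no (.br .no (.br (.br .no .no (.br .no (.br .no .no .no (.de 45)) .no (.de 44)) (.br .no (.br .no .no .no (.de 45)) .no .no)) .no .no (.de 42)) .no (.br (.br .no .no (.br .no (.br .no .no .no (.de 45)) .no (.de 44)) (.br .no (.br .no .no .no (.de 45)) .no .no)) .no .no .no)) .no .no) (.de 34) .no .no) .no) .no .no (.br (.br .no (.de 34) .no .no) .no (.sw 0 1 [25]) .no)) .no (.br (.br .no .no (.br (.br .no (.br .no (.br (.br .no (.br .no .no .no (.br .no (.de 45) .no .no)) (.sw 1 3 [30]) .no) .no .no .no) .no (.br (.br .no (.br .no .no .no (.br .no (.de 45) .no .no)) (.sw 1 3 [30]) .no) (.de 42) .no .no)) .no .no) (.de 34) .no .no) .no) .no .no .no)) (.br .no (.br (.br .no .no (.br (.br .no (.br .no (.br (.sw 2 3 [29]) .no (.br .no .no .no (.de 43)) .no) (.br (.br .no .no (.br .no (.br .no .no .no (.de 45)) .no (.de 44)) (.br .no (.br .no .no .no (.de 45)) .no .no)) .no .no .no) .no) .no .no) (.de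 34) .no .no) .no) .no .no (.br (.br .no (.de 34) .no .no) .no (.sw 0 1 [25]) .no)) .no .no)) .no (.br .no .no .no (.br .no (.br (.br .no .no (.br (.br .no (.br (.br .no .no (.br .no .no .no (.de 43)) .no) (.br (.br .no .no (.br .no (.br .no .no .no (.de 45)) .no (.de 44)) (.br .no (.br .no .no .no (.de 45)) .no .no)) .no (.br .no .no .no (.de 43)) .no) .no .no) .no .no) (.br (.br (.br .no .no (.br .no .no .no (.de 43)) .no) (.br (.br .no .no (.br .no (.br (.br .no .no (.br .no .no .no (.de 47)) (.de 41)) .no .no (.de 45)) .no (.de 44)) (.br .no (.br (.br .no .no (.br .no .no .no (.de 47)) (.de 41)) .no .no (.de 45)) .no .no)) .no (.br .no .no .no (.de 43)) .no) .no .no) .no .no .no) .no .no) .no) .no .no (.br (.br .no (.br (.br (.br .no .no (.br (.br .no (.br .no .no (.br .no .no .no (.br .no (.br .no (.br .no .no .no (.br .no .no (.br .no .no .no (.br .no (.br .no .no (.br .no .no .no .lf) .no) .no .no)) .no)) .no (.de 43)) .no .no)) (.de 45)) (.sy 35 216 3) .no) .no .no .no) .no) (.br (.br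 .no .no (.br .no (.br .no .no (.br .no .no .no (.de 41)) (.de 45)) .no .no) .no) .no (.br (.br .no (.br .no .no (.br .no .no .no (.de 41)) (.de 45)) (.br .no .no .no (.br .no .no (.br .no .no .no (.de 47)) .no)) .no) .no .no .no) .no) .no .no) .no .no .no) .no .no) .no (.sw 0 1 [25]) .no)) .no .no)) .no) .no)) .no .no) .no) .no .no (.br (.br .no (.br .no .no .no (.br .no .no (.br (.br .no .no (.br .no (.br .no .no (.br (.br .no (.de 34) .no .no) .no .no .no) (.br (.br .no (.de 34) .no .no) .no (.br (.br .no (.br .no (.br (.br .no .no (.br (.br .no (.br .no .no (.br .no .no .no (.de 47)) (.de 46)) .no (.br .no .no (.br .no .no .no (.de 47)) .no)) (.br .no .no .no (.de 45)) .no .no) .no) .no .no (.de 42)) .no (.br (.br .no .no (.br (.br .no (.br .no .no (.de 41) (.de 46)) .no (.br .no .no (.de 41) .no)) (.br .no .no .no (.de 45)) .no .no) .no) .no .no .no)) .no .no) (.de 34) .no .no) .no)) .no .no) .no) .no (.br (.br .no (.br .no .no (.br (.br .no (.br (.br .no (.br .no .no (.br (.br .no (.br .no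 .no (.br .no .no .no (.de 41)) (.de 45)) .no (.br .no .no (.br .no .no .no (.de 41)) .no)) .no .no (.de 43)) (.de 42)) .no (.br .no .no (.br (.br .no (.br .no .no (.br .no .no .no (.br .no (.br .no (.br .no .no .no (.br .no .no (.br .no .no .no (.br .no (.br .no .no (.br .lf .no .no .no) .no) .no .no)) .no)) .no .no) .no .no)) (.de 45)) .no (.br .no .no (.br .no .no .no (.br .no (.br .no (.br .no .no .no (.br .no .no (.br .no (.de 46) .no .no) .no)) .no .no) .no .no)) .no)) .no .no (.de 43)) .no)) .no .no .no) .no .no) .no .no .no) (.br (.br .no (.br (.br .no (.br .no .no (.br (.br .no (.sw 2 3 [31]) (.br .no .no .no (.br .no .no (.br .no .no .no (.de 47)) .no)) .no) .no .no .no) (.de 42)) .no (.br .no .no (.br (.br .no (.sw 2 3 [31]) (.br .no .no .no (.br .no .no (.br .no (.br .no (.br .no .no .no (.de 44)) .no .no) .no .no) .no)) .no) .no .no .no) .no)) .no .no .no) .no .no) .no (.br (.br .no (.br .no (.br .no .no (.br (.br .no (.br .no .no .no (.de 45)) .no .no) .no .no .no) (.de 42)) .no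 (.br .no .no (.br (.br .no (.br .no .no .no (.de 45)) .no .no) .no .no .no) .no)) .no .no) (.br (.br .no (.br .no .no (.br (.br .no (.br (.br .no .no (.br .no .no .no (.de 47)) (.de 41)) .no .no (.de 45)) .no .no) .no .no .no) (.de 42)) .no (.br .no .no (.br (.br .no (.br (.br .no .no (.br .no (.br .no (.br .no .no .no (.br .no .no (.br .no .no .no (.br .no (.br .no .no .no (.br .lf .no .no .no)) .no .no)) .no)) .no .no) .no .no) (.br .no (.br .no (.br .no .no .no (.br .no .no (.br .no .no .no (.br .no (.sw 0 2 [32,39]) .no .no)) .no)) .no .no) .no .no)) .no .no (.de 45)) .no .no) .no .no .no) .no)) .no .no .no) .no .no) .no)) (.br .no .no .no (.br (.br .no (.br (.sy 34 216 3) .no .no .no) .no .no) .no (.sw 0 1 [17,24,25]) .no)) .no) .no .no .no) .no) .no)) .no .no) .no (.sw 0 1 [17]) .no)) .no .no))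

theorem P3_5 : R.S 16 347579524 :=
  R.piece L hL (.br .no .no (.br c3_5_2 (.br .no .no .no (.br .no .no (.br c3_5_3 .no .no (.br .no .no (.br .no (.br (.br .no .no (.br (.br .no (.br (.br (.br .no .no (.br .no (.br .no .no .no (.br .no .no (.br .no .no .no (.br .no (.br .no (.br (.br .no .no (.br (.br .no (.br (.sy 23 216 17) .no (.sw 0 3 [20,27,33]) .no) .no .no) (.br (.br .no .no (.br .no .no .no (.de 47)) .no) .no .no .no) .no .no) .no) .no .no (.de 42)) .no (.br (.br .no .no (.br (.br .no (.br (.sy 23 216 17) .no (.de 41) .no) .no .no) (.br (.br .no .no (.de 41) .no) .no .no .no) .no .no) .no) .no .no .no)) .no .no)) .no)) .no (.br .no (.br .no .no (.br .no .no .no (.br .no (.br .no (.br (.br .no .no (.br (.sw 1 3 [30,31]) .no .no (.de 44)) .no) .no .no .no) .no (.br (.br .no .no (.br (.sw 1 3 [30,31]) .no .no (.de 44)) .no) (.de 42) .no .no)) .no .no)) (.br .no .no (.br .no (.sw 0 3 [20,27]) .no (.br .no (.br (.br .no .no (.br (.br .no (.br (.br .no .no (.sw 1 3 [34]) .no) .no .no .no)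 .no .no) .no .no .no) .no) .no .no .no) .no (.br (.br .no .no (.br (.br .no (.br (.br .no (.sy 38 228 3) (.sw 1 3 [34]) .no) .no .no .no) .no .no) .no .no .no) .no) (.de 42) .no .no))) .no)) .no .no)) (.br .no (.br .no .no .no (.br .no .no (.br .no .no .no (.br .no (.br .no (.br (.sw 2 3 [29]) .no (.br (.br .no (.br (.br .no .no (.br .no .no .no (.de 47)) .no) .no .no .no) .no .no) .no .no .no) .no) (.br (.br .no .no (.br (.sy 35 201 3) (.br (.br .no .no (.br .no .no .no (.de 47)) .no) .no .no .no) .no .no) .no) .no .no .no) .no) .no .no)) .no)) .no .no)) .no .no (.br .no .no (.br .no (.br .no .no .no (.br .no .no (.br .no .no .no (.br .no (.br (.br .no .no .no (.br (.br .no (.br (.br .no .no (.de 41) .no) .no .no .no) .no .no) .no (.de 43) .no)) (.br (.br .no .no (.br (.br .no (.br (.br .no .no (.sw 0 3 [28]) .no) .no (.sw 0 3 [20,27,33]) .no) .no .no) (.br (.br .no .no (.br (.br .no .no .no (.de 43)) .no .no .no) .no) .no .no .no) .no .no) .no) .no .no (.de 42)) .no .no) .no .no)) .no)) .no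 (.br .no (.br .no .no (.br .no .no .no (.br .no (.br (.br .no (.br (.br .no .no .no (.br (.br .no .no (.de 41) .no) (.de 45) .no .no)) .no (.br (.br .no (.br (.br .no .no (.br .no .no .no (.de 43)) .no) .no (.de 41) .no) .no .no) .no .no (.de 44)) .no) .no .no) (.br (.br .no .no (.br (.sw 1 3 [30,31]) .no .no (.de 44)) .no) .no .no .no) .no .no) .no .no)) (.br .no .no (.br .no (.sw 0 3 [20,27]) .no .no) .no)) .no .no)) .no)) .no .no .no) .no .no) (.br (.de 27) .no .no .no) .no .no) .no) .no .no (.br (.br .no (.br (.de 27) .no .no .no) .no .no) .no (.sw 0 1 [17]) .no)) .no (.br (.br .no .no (.br (.br .no (.br (.br (.br .no (.br .no .no .no (.br .no (.br .no .no (.br .no .no .no (.br .no (.br .no .no (.br (.br .no .no (.br (.sw 1 3 [22,29,30,31]) .no .no (.de 44)) .no) .no .no .no) (.br (.br .no .no (.br (.br .no (.br (.br .no .no (.br .no (.br .no .no .no (.de 44)) .no .no) .no) .no (.de 41) .no) .no .no) .no .no (.de 44)) .no) .no (.br (.br .no .no .no (.br (.br .no .no (.de 41) .no) (.de 45)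 .no .no)) .no .no .no) .no)) .no .no)) (.sy 29 114 3)) .no .no)) (.sw 1 3 [22]) .no) (.br .no .no (.br .no (.br .no .no .no (.br .no .no (.br .no .no .no (.de 34)) .no)) .no (.sw 0 1 [17,23])) .no) .no .no) .no .no .no) .no .no) (.br (.de 27) .no .no .no) .no .no) .no) .no .no .no)) (.br .no (.br (.br .no .no (.br (.br .no (.br (.br (.br .no .no (.br .no (.br .no .no .no (.br .no .no (.br .no .no .no (.br .no (.sw 2 3 [21]) (.sy 31 30 3) .no)) .no)) .no (.br .no (.br .no .no (.br .no .no .no (.br .no (.sw 2 3 [21]) (.br .no (.br (.br .no .no (.br (.sw 1 3 [30,31]) .no .no (.de 44)) .no) .no .no .no) .no (.br (.br .no .no (.br (.sw 1 3 [30,31]) .no .no (.de 44)) .no) (.de 42) .no .no)) .no)) (.br .no .no (.br .no (.sw 2 3 [21]) .no .no) .no)) .no .no)) (.br .no (.br .no .no .no (.br .no .no (.br .no .no .no (.br .no (.sw 2 3 [21]) (.sy 31 30 3) .no)) .no)) .no .no)) .no (.br .no .no .no (.br .no (.br .no .no .no (.br .no .no (.br .no .no .no (.br .no (.br (.br .no .no (.br (.br .no (.br (.br .no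 .no (.br .no .no .no (.de 47)) .no) .no .no .no) .no .no) .no .no .no) .no) (.br (.br .no .no (.br (.br .no (.br (.br .no .no .no (.sw 0 2 [28])) .no (.br (.sw 2 3 [21,28,29]) .no .no (.de 47)) .no) .no .no) (.br (.br .no .no (.br (.sw 2 3 [21,28,29]) .no .no (.de 47)) .no) .no .no .no) .no .no) .no) .no (.br (.br .no (.br (.br .no .no (.br (.br .no .no .no (.de 43)) .no .no (.de 47)) .no) .no .no .no) .no .no) .no .no .no) .no) .no .no) .no .no)) .no)) .no .no)) .no) .no (.sw 0 3 [20]) .no) .no .no) (.br (.br .no .no (.br (.br .no .no (.br .no (.br (.br .no .no (.br .no (.de 34) .no (.br .no (.br .no (.br (.br .no .no (.br .no (.br (.br .no .no (.br .no .no .no (.de 47)) .no) .no .no .no) .no (.de 44)) (.br .no (.br (.br .no .no (.br .no .no .no (.de 47)) .no) .no .no .no) .no .no)) .no .no (.de 42)) .no (.br (.br .no .no (.br .no (.br (.br .no .no (.de 41) .no) .no .no .no) .no (.de 44)) (.br .no (.br (.br .no .no (.de 41) .no) .no .no .no) .no .no)) .no .no .no)) .no .no)) (.br .no (.de 34)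 .no .no)) .no .no (.br .no .no (.br .no (.de 34) .no (.sw 0 1 [25,26])) .no)) .no (.br (.br .no .no (.br .no (.de 34) .no (.br .no (.br .no (.br (.br .no (.br .no .no .no (.br (.br .no .no (.br .no .no .no (.de 47)) .no) (.de 45) .no .no)) (.sw 1 3 [30]) .no) .no .no .no) .no (.br (.br .no (.br .no .no .no (.br (.br .no .no (.de 41) .no) (.de 45) .no .no)) (.sw 1 3 [30]) .no) (.de 42) .no .no)) .no .no)) (.br .no (.de 34) .no .no)) .no .no .no)) (.br .no (.br (.br .no .no (.br .no (.de 34) .no (.br .no (.br .no (.br (.sw 2 3 [29]) .no (.br .no .no .no (.de 43)) .no) (.br (.br .no .no (.br .no (.br (.br .no .no (.br .no .no .no (.de 47)) .no) .no .no .no) .no (.de 44)) (.br .no (.br (.br .no .no (.br .no .no .no (.de 47)) .no) .no .no .no) .no .no)) .no .no .no) .no) .no .no)) (.br .no (.de 34) .no .no)) .no .no (.br .no .no (.br .no (.de 34) .no (.sw 0 1 [25,26])) .no)) .no .no)) .no (.br .no .no .no (.br .no (.br (.br .no .no (.br .no (.sw 0 3 [20,26]) .no (.br (.br (.br .no .no (.br .no .no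 .no (.de 43)) .no) (.br (.br .no .no (.br .no (.br (.br .no (.br .no .no .no (.br .no .no .no (.de 43))) (.sw 1 3 [33]) .no) .no .no .no) .no (.de 44)) (.br .no (.br (.br .no (.br .no .no .no (.br .no .no .no (.br .no .no (.de 44) .no))) (.sw 1 3 [33]) .no) .no .no .no) .no .no)) .no (.br .no .no .no (.de 43)) .no) .no .no) (.br (.br .no .no (.br .no .no .no (.de 43)) .no) (.br (.br .no .no (.br .no (.br (.br .no .no (.br (.br .no .no .no (.de 43)) .no .no (.de 47)) .no) .no .no .no) .no (.de 44)) (.br .no (.br (.br .no .no (.br (.br .no .no .no (.de 48)) .no .no (.de 47)) .no) .no .no .no) .no .no)) .no (.br .no .no .no (.de 43)) .no) .no .no) .no .no)) (.br .no (.br (.br (.br .no .no (.br .no .no .no (.de 43)) .no) (.br (.br .no .no (.br .no (.br (.sw 2 3 [32]) .no (.sw 0 3 [20,26,31,32]) .no) .no .no) (.br .no (.br (.sw 2 3 [32]) .no (.br .no .no .no (.de 41)) .no) (.de 44) .no)) .no (.br .no .no .no (.de 43)) .no) .no .no) .no .no .no) .no .no)) .no .no (.br .no .no (.br .no (.sw 0 3 [20,26])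 .no (.sw 0 1 [25,26])) .no)) .no .no)) .no) .no) .no .no .no) .no .no) .no) .no .no (.br (.br .no (.br (.br .no .no (.br (.br .no .no (.br .no (.br .no .no (.br .no .no .no (.br .no (.de 34) .no .no)) (.br .no .no (.br .no (.de 34) .no (.br .no (.br .no (.br (.br .no .no (.br (.br .no (.br (.br .no .no (.br .no .no .no (.de 43)) (.br .no .no .no (.de 43))) .no (.sw 0 3 [20,26,33]) .no) .no .no) (.br (.br .no .no (.br .no .no .no (.de 47)) .no) .no .no .no) .no .no) .no) .no .no (.de 42)) .no (.br (.br .no .no (.br (.br .no (.br (.br .no .no (.br .no (.br .no .no .no (.de 44)) .no .no) .no) .no (.de 41) .no) .no .no) (.br (.br .no .no (.de 41) .no) .no .no .no) .no .no) .no) .no .no .no)) .no .no)) .no)) .no .no) .no) .no (.br (.br .no (.br .no .no (.br .no .no .no (.br .no (.br (.br .no (.br .no .no (.br (.br .no (.br (.br .no .no (.br .no .no .no (.de 47)) (.de 41)) .no (.sw 0 3 [20,26,32]) .no) .no .no) .no .no (.de 43)) (.de 42)) .no (.br .no .no (.br (.br .no (.br (.br .no .no (.br .no (.br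 .no (.br .no .no .no (.br .no .no (.br .no .no .no (.br .no (.br .no .no .no (.br .lf .no .no .no)) .no .no)) .no)) .no .no) .no .no) (.br .no (.br .no (.br .no .no .no (.br .no .no (.br .no .no .no (.br .no (.br .no .no (.br (.sw 2 3 [40,47]) .no .no .no) .no) .no .no)) .no)) .no .no) .no .no)) .no (.sw 0 3 [20,26,32]) .no) .no .no) .no .no (.de 43)) .no)) .no .no .no) .no .no)) (.br .no .no (.br .no (.sw 0 3 [20,26]) .no (.br (.br .no (.br .no .no (.br (.br .no (.br (.br .no (.sy 37 228 3) (.sw 1 3 [33]) .no) .no .no .no) .no .no) .no .no .no) (.de 42)) .no (.br .no .no (.br (.br .no (.br (.br .no (.de 41) (.sw 1 3 [33]) .no) .no .no .no) .no .no) .no .no .no) .no)) (.br .no (.br .no .no (.br (.br .no (.br (.br .no .no (.br (.br .no .no .no (.de 43)) .no .no (.de 47)) .no) .no .no .no) .no .no) .no .no .no) (.de 42)) .no (.br .no .no (.br (.br .no (.br (.br .no .no (.br (.de 48) .no .no .no) .no) .no .no .no) .no .no) .no .no .no) .no)) .no .no)) .no)) (.br .no .no .no (.br .no .no (.br .no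 (.sw 0 3 [20,26]) .no (.sw 0 1 [17,24,25,26])) .no)) .no) .no .no .no) .no) .no) .no .no .no) .no .no) .no (.sw 0 1 [17]) .no)) .no .no))) .no)) .no .no) .no) 16 347579524 4294967296 (by norm_num) (by norm_num) (by norm_num) (by decide +kernel)

end T7
end Pool.Agent.H411R2.WSK
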