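import Pool.Agent.H411R2.WSK.T7

set_option maxRecDepth 100000
set_option linter.all false

namespace Pool.Agent.H411R2.WSK

namespace T7

def c4_0_0 : Cert := (.br (.br .no (.br .no .no (.br .no .no (.br (.br .no (.br .no .no .no (.br .no .no (.br (.br .no (.br .no (.br .no .no (.br (.br .no (.br .no .no .no (.de 45)) .no .no) .no .no .no) (.de 42)) .no (.br .no .no (.br (.br .no (.br .no .no .no (.de 45)) .no .no) .no .no .no) .no)) .no (.br .no (.br .no .no (.br (.br .no (.br .no .no .no (.de 45)) .no .no) .no .no .no) (.de 42)) .no (.br .no .no (.br (.br .no (.br .no .no .no (.de 45)) .no .no) .no .no .no) .no))) .no .no (.br .no (.br .no (.br .no .no (.br (.br .no (.br (.br .no .no (.br (.br .no .no .no (.de 43)) .no .no (.de 47)) .no) .no .no .no) .no .no) .no .no .no) (.de 42)) .no (.br .no .no (.br (.br .no (.br (.br .no .no (.br (.de 48) .no .no .no) .no) .no .no .no) .no .no) .no .no .no) .no)) .no .no)) .no)) .no .no) .no .no .no) (.br (.br .no (.br .no .no .no (.br .no .no (.br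 (.br .no (.br .no (.br .no .no (.br (.br .no (.br .no .no .no (.de 45)) .no .no) .no .no .no) (.de 42)) (.br .no .no .no (.br (.br .no (.br .no .no .no (.de 45)) .no .no) .no (.de 43) .no)) .no) .no .no) .no .no (.br .no (.br .no (.br .no .no (.br (.br .no (.br (.br .no .no (.br (.sw 2 3 [28]) .no .no .no) .no) .no .no .no) .no .no) .no .no .no) (.de 42)) (.br .no .no .no (.br (.br .no (.br (.br .no .no (.br (.sy 39 216 3) .no .no .no) .no) .no .no .no) .no .no) .no (.de 43) .no)) .no) .no .no)) .no)) .no .no) .no (.br (.br .no (.br .no .no (.br (.br .no (.br (.br .no (.br .no .no (.br (.br .no (.br .no .no (.de 41) (.de 46)) .no (.br .no .no (.de 41) .no)) .no .no (.de 44)) (.br (.br .no (.br .no .no (.de 41) (.de 46)) .no (.br .no .no (.de 41) .no)) .no .no .no)) .no (.br .no .no (.de 43) .no)) (.br .no .no .no (.de 42)) .no .no) .no .no) .no .no (.br .no (.br (.br .no (.br .no .no (.br (.br .no (.br (.br .no .no (.br .no .no .no (.de 43)) .no) .no (.de 41) .no) .no .no) .no .no (.de 44))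 (.br (.br .no (.br (.br .no .no (.br .no .no .no (.de 48)) .no) .no (.de 41) .no) .no .no) .no .no .no)) .no (.br .no .no (.de 43) .no)) (.br .no .no .no (.de 42)) .no .no) .no .no)) (.br (.br .no (.br (.br .no (.br .no .no (.br (.br .no (.sw 2 3 [32]) (.br .no .no .no (.br .no .no (.de 47) .no)) .no) .no .no .no) (.br (.br .no (.sw 2 3 [32]) (.br .no .no .no (.br .no .no (.de 47) .no)) .no) .no (.de 44) .no)) .no (.br .no .no (.de 43) .no)) (.br .no .no .no (.de 42)) .no .no) .no .no) .no .no .no)) .no (.br .no .no (.br (.br .no (.br (.br .no (.br .no .no (.br (.sw 1 3 [31]) (.br .no .no .no (.de 45)) .no .no) .no) .no (.br .no (.br (.br .no (.br .no .no (.de 41) (.de 46)) .no (.br .no .no (.de 41) .no)) .no .no .no) (.de 43) .no)) (.br .no .no .no (.de 42)) .no .no) .no .no) .no .no (.br .no (.br (.br .no (.br .no .no (.br (.sw 1 3 [31]) (.br (.br .no .no (.de 41) .no) .no .no .no) .no .no) .no) .no (.br .no (.br (.br .no (.br (.sy 37 225 3) .no (.de 41) .no) .no .no) .no .no .no) (.de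 43) .no)) (.br .no .no .no (.de 42)) .no .no) .no .no)) .no)) (.br .no .no .no (.br .no .no (.br (.br .no (.br (.br .no .no .no (.br (.br .no (.br .no .no .no (.de 45)) .no .no) .no (.de 43) .no)) (.br (.br .no .no (.br (.br .no (.br .no .no (.br (.br .no .no .no (.de 43)) .no .no .no) (.de 46)) .no (.br .no .no (.br (.br .no .no .no (.de 43)) .no .no .no) .no)) (.br .no .no .no (.de 45)) .no .no) .no) .no .no (.de 42)) .no .no) .no .no) .no .no (.br .no (.br (.br .no .no .no (.br (.br .no (.br (.br .no .no (.de 41) .no) .no .no .no) .no .no) .no (.de 43) .no)) (.br (.br .no .no (.br (.br .no (.br (.br .no .no (.br .no .no .no (.de 43)) .no) .no (.sw 0 3 [33]) .no) .no .no) (.br (.br .no .no (.br (.br .no .no .no (.de 43)) .no .no .no) .no) .no .no .no) .no .no) .no) .no .no (.de 42)) .no .no) .no .no)) .no)) .no .no) .no)) (.br .no .no (.br (.br .no (.br .no .no .no (.br .no .no (.br (.br .no (.sw 2 3 [27]) .no .no) .no .no .no) .no)) .no .no) .no .no .no) (.br (.br .no (.br .no .no .no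 (.br .no .no (.br (.br .no (.sw 2 3 [27]) (.br .no (.br .no .no (.br (.br .no (.br .no .no .no (.de 45)) .no .no) .no .no .no) (.de 42)) (.br .no .no .no (.br (.br .no (.br .no .no .no (.de 45)) .no .no) .no (.de 43) .no)) .no) .no) .no .no .no) .no)) .no .no) .no (.br (.br .no (.br .no .no (.br (.br .no (.sw 2 3 [27]) (.br (.br .no (.br .no .no (.br (.br .no (.br .no .no .no (.de 46)) .no (.br .no (.de 41) .no .no)) .no .no (.de 44)) (.br (.br .no (.br .no .no .no (.de 46)) .no (.br .no (.de 41) .no .no)) .no .no .no)) .no (.br .no .no (.de 43) .no)) (.br .no .no .no (.de 42)) .no .no) .no) .no .no .no) (.br (.br .no (.sw 2 3 [27]) (.br (.br .no (.br .no .no (.br (.br .no (.sw 2 3 [32]) (.br .no (.de 41) .no (.br .no (.br .no .no .no (.de 43)) .no .no)) .no) .no .no .no) (.br (.br .no (.sw 2 3 [32]) (.br .no (.de 41) .no (.br .no (.br .no .no .no (.de 48)) .no .no)) .no) .no (.de 44) .no)) .no (.br .no .no (.de 43) .no)) (.br .no .no .no (.de 42)) .no .no) .no) .no (.br .no (.sw 0 2 [15,16,21])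 .no .no) .no)) .no (.br .no .no (.br (.br .no (.sw 2 3 [27]) (.br (.br .no (.br .no .no (.br (.sw 1 3 [31]) (.br .no .no .no (.de 45)) .no .no) .no) .no (.br .no (.br (.br .no (.br .no .no .no (.de 46)) .no (.br .no (.de 41) .no .no)) .no .no .no) (.de 43) .no)) (.br .no .no .no (.de 42)) .no .no) .no) .no .no .no) .no)) (.br .no .no .no (.br .no .no (.br (.br .no (.sw 2 3 [27]) (.br (.br .no .no .no (.br (.br .no (.br .no .no .no (.de 45)) .no .no) .no (.de 43) .no)) (.br (.br .no .no (.br (.br .no (.br .no .no .no (.de 46)) .no (.br .no (.de 46) .no .no)) (.br .no .no .no (.de 45)) .no .no) .no) .no .no (.de 42)) .no .no) .no) .no .no .no) .no)) .no .no) .no))) .no (.br .no .no (.br .no .no (.br (.br .no (.br .no .no .no (.br .no (.br (.br .no (.br .no (.br .no .no (.br (.br .no .no (.br .no .no .no (.br .no .no (.br (.br .no .no .no (.de 43)) .no .no (.de 47)) .no)) .no) .no .no .no) (.de 42)) .no (.br .no .no (.br (.br .no .no (.br .no .no .no (.br .no .no (.br (.de 48) .no .no .no) .no))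 .no) .no .no .no) .no)) .no (.br .no (.br .no .no (.br (.br .no .no (.br .no .no .no (.br .no (.de 46) (.br (.sw 1 3 [34]) .no .no .no) .no)) .no) .no .no .no) (.de 42)) .no (.br .no .no (.br (.br .no .no (.br .no .no .no (.br .no (.de 46) (.br (.de 48) (.br .no (.br .no .no .no (.de 44)) .no .no) .no .no) .no)) .no) .no .no .no) .no))) .no .no .no) (.br (.sw 1 3 [26]) (.br .no .no .no (.br .no (.br .no .no (.br (.br .no (.br (.br .no .no (.br (.sw 1 3 [26,33,34]) .no .no .no) .no) .no .no (.de 45)) .no .no) .no .no .no) (.de 42)) .no (.br .no .no (.br (.br .no (.br (.br .no .no (.br (.de 48) (.br .no (.br .no .no .no (.br .no .no (.br .no .no .no (.br .no (.br .no .no .no (.br .lf .no .no .no)) .no .no)) .no)) .no .no) .no .no) .no) .no .no (.de 45)) .no .no) .no .no .no) .no))) .no .no) .no)) .no .no) .no .no .no) (.br (.br .no (.br .no .no .no (.br .no (.br (.br .no (.br .no (.br .no .no (.br (.br .no .no (.br .no .no .no (.br .no .no (.br (.sw 2 3 [28]) .no .no .no) .no)) .no) .no .no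 .no) (.de 42)) (.br .no .no .no (.br (.br .no .no (.br .no .no .no (.br .no .no (.br (.br .no (.br .no .no (.br .no .no .no (.br .no (.de 46) .no .no)) .no) .no .no) .no .no .no) .no)) .no) .no (.de 43) .no)) .no) .no .no) .no .no .no) (.br (.sw 1 3 [26]) (.de 34) .no .no) .no)) .no .no) .no (.br (.br .no (.br .no .no (.br (.sw 1 3 [26]) (.de 34) .no .no) .no) .no (.br .no (.br (.br .no (.br (.br .no (.br .no .no (.br (.br .no .no (.sw 1 3 [26,31,32]) (.br .no .no (.de 41) .no)) .no .no .no) .no) .no (.br .no (.br (.br .no .no (.br .no .no .no (.br .no .no (.de 47) .no)) (.br .no .no (.de 41) .no)) .no (.br .no .no .no (.br .no .no (.de 41) .no)) .no) (.de 43) .no)) (.br .no .no .no (.de 42)) .no .no) .no .no) .no .no .no) (.br (.sw 1 3 [26]) (.de 34) .no .no) .no)) (.br .no .no .no (.br .no (.br (.br .no (.br (.br .no .no .no (.br (.br .no .no (.br .no .no .no (.br .no .no (.de 41) .no)) .no) .no (.de 43) .no)) (.br (.br .no .no (.br (.br .no .no (.sy 36 216 3) (.br .no .no (.br (.br .no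 .no .no (.de 43)) .no .no .no) .no)) .no .no .no) .no) .no .no (.de 42)) .no .no) .no .no) .no .no .no) (.br (.sw 1 3 [26]) (.de 34) .no .no) .no)) .no .no) .no)) .no)) (.br .no .no .no (.br .no .no (.br .no .no (.br (.br .no (.br (.br .no .no (.br (.br .no (.br .no (.br .no .no (.br .no .no .no (.de 43)) (.de 42)) .no (.br .no .no (.br .no .no .no (.de 43)) .no)) .no (.br .no (.br .no .no (.br .no .no .no (.de 43)) (.de 42)) .no (.br .no .no (.br .no .no .no (.de 43)) .no))) (.br .no .no .no (.br .no (.br .no .no (.br .no .no .no (.de 43)) (.de 42)) .no (.br .no .no (.br .no .no .no (.de 43)) .no))) .no .no) .no) .no .no (.sw 0 2 [24])) .no .no) .no .no .no) (.br (.br .no (.br (.br .no .no (.br (.br .no (.br .no (.br .no .no (.br .no .no .no (.de 43)) (.de 42)) (.br .no .no .no (.br .no .no (.de 43) .no)) .no) .no .no) (.de 34) .no .no) .no) .no .no (.sw 0 2 [24])) .no .no) .no (.br (.br .no .no .no (.br (.br .no (.de 34) .no .no) .no (.sw 0 1 [25]) .no)) (.br (.br .no .no (.br (.br .no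 (.br (.br .no .no .no (.br .no .no (.de 43) .no)) (.br (.br .no .no (.br .no (.br .no .no .no (.de 45)) .no (.de 44)) (.br .no (.br .no .no .no (.de 45)) .no .no)) .no .no (.de 42)) .no .no) .no .no) (.de 34) .no .no) .no) .no .no (.sw 0 2 [24])) .no .no) .no)) .no)) .no .no)

def c4_0_1 : Cert := (.br .no (.br .no .no (.br (.br .no (.br .no .no .no (.br .no .no (.br .no .no (.br (.br .no (.br .no .no (.br (.br .no (.br .no .no .no (.br .no (.br .no .no (.br (.br .no (.br .no .no (.br (.de 41) .no .no .no) (.de 45)) .no (.br .no .no (.br (.de 41) .no .no .no) .no)) .no .no (.de 43)) (.de 42)) .no (.br .no .no (.br (.br .no (.br .no .no (.br (.br .no (.br .no (.br .no .no .no (.br .no .no (.br .no .no .no (.br .no (.br .no .no (.br .lf .no .no .no) (.br (.sw 2 3 [47]) .no .no .no)) .no .no)) .no)) .no .no) .no .no) .no .no .no) (.de 45)) .no (.br .no .no (.br (.br .no (.br .no (.br .no .no .no (.br .no .no (.br .no (.br .no .no .no (.br .no .no (.sw 1 3 [38,45,46]) .no)) .no .no) .no)) .no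 .no) .no .no) .no .no .no) .no)) .no .no (.de 43)) .no))) .no .no) .no .no .no) (.br (.br .no (.br .no .no .no (.br .no (.br .no .no (.br (.br .no (.sw 2 3 [31]) (.br .no .no .no (.br (.de 41) .no (.br (.br .no .no .no (.de 43)) .no .no .no) .no)) .no) .no .no .no) (.de 42)) .no (.br .no .no (.br (.br .no (.sw 2 3 [31]) (.br .no .no .no (.br (.br .no (.br .no (.br .no .no .no (.de 44)) .no .no) .no .no) .no (.br (.de 48) (.br .no (.br .no .no .no (.de 44)) .no .no) .no .no) .no)) .no) .no .no .no) .no))) .no .no) .no (.br (.br .no (.br .no (.br .no .no (.br (.br .no (.br .no .no .no (.de 45)) .no .no) .no .no .no) (.de 42)) .no (.br .no .no (.br (.br .no (.br .no .no .no (.de 45)) .no .no) .no .no .no) .no)) .no (.br .no (.br .no .no (.br (.br .no (.br .no .no .no (.de 45)) .no .no) .no .no .no) (.de 42)) .no (.br .no .no (.br (.br .no (.br .no .no .no (.de 45)) .no .no) .no .no .no) .no))) (.br .no .no .no (.br .no (.br .no .no (.br (.br .no (.br (.br .no .no (.br (.br .no .no .no (.de 43))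 .no .no .no) .no) .no .no (.de 45)) .no .no) .no .no .no) (.de 42)) .no (.br .no .no (.br (.br .no (.br (.br .no .no (.br (.de 48) (.br .no (.br .no .no .no (.br .no .no (.br .no .no .no (.br .no (.br .no .no .no (.sw 0 2 [32,39,40])) .no .no)) .no)) .no .no) .no .no) .no) .no .no (.de 45)) .no .no) .no .no .no) .no))) .no .no) .no)) .no (.br .no .no (.br (.br .no (.br .no .no .no (.br .no (.br .no .no (.br (.sw 1 3 [30]) (.br .no .no .no (.br .no .no (.br (.de 41) .no .no .no) .no)) .no .no) .no) .no (.br .no (.de 42) (.br (.sw 1 3 [30]) (.br .no .no .no (.br .no .no (.br (.br .no (.br .no (.br .no .no .no (.br .no .no (.sw 0 1 [37]) .no)) .no .no) .no .no) .no .no .no) .no)) .no .no) .no))) .no .no) .no .no .no) .no)) .no .no (.br .no (.br .no .no (.br (.br .no (.br .no .no .no (.br (.br .no .no (.br (.br .no (.br .no .no (.br (.br .no (.br .no (.br .no .no .no (.br .no .no (.br .no .no .no (.br .no (.br .no .no (.br .no .no .no (.sw 0 3 [29,35,48])) (.de 48)) .no .no)) .no)) .no (.de 43))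 .no .no) .no .no .no) (.de 45)) .no (.br .no .no (.br (.br .no (.br .no (.br .no .no .no (.br .no .no (.br .no (.br .no .no .no (.br .no .no (.sw 1 3 [38,45,46]) .no)) .no .no) .no)) .no (.de 43)) .no .no) .no .no .no) .no)) .no .no (.de 43)) .no) (.br (.br .no .no .no (.br .no (.br .no .no (.br (.de 41) .no .no .no) (.de 45)) .no .no)) .no (.sw 0 3 [29]) .no) .no .no)) .no .no) .no .no .no) (.br (.br .no (.br .no .no .no (.br (.br .no .no (.br (.br .no (.sw 2 3 [31]) (.sy 35 216 3) .no) .no .no .no) .no) (.br (.br .no .no (.br .no (.br .no .no (.br (.de 41) .no .no .no) (.de 45)) .no .no) .no) .no (.sw 0 3 [29]) .no) .no .no)) .no .no) .no (.br (.br .no (.br (.br .no .no (.br (.br .no (.br .no .no .no (.de 45)) .no .no) .no .no .no) .no) (.br (.br .no .no (.br (.br .no (.br .no .no (.br (.br .no .no .no (.de 43)) .no .no (.de 47)) (.de 46)) .no (.br .no .no (.br (.br .no .no .no (.de 43)) .no .no (.de 47)) .no)) (.br .no .no .no (.de 45)) .no .no) .no) .no (.sw 0 3 [29]) .no) .no .no) .no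 (.br (.br .no .no (.br (.br .no (.br .no .no .no (.de 45)) .no .no) .no .no .no) .no) (.br (.br .no .no (.br (.br .no (.br .no .no (.br (.sw 1 3 [34]) .no .no .no) .no) .no (.br .no (.de 46) (.br (.sw 1 3 [34]) .no .no .no) .no)) (.br .no .no .no (.de 45)) .no .no) .no) .no (.sw 0 3 [29]) .no) .no .no)) (.br .no .no .no (.br (.br .no .no (.br (.br .no (.br (.br .no .no (.br .no (.br .no (.br .no .no .no (.br .no .no (.br .no .no .no (.br .no (.br .no .no .no (.de 48)) .no .no)) .no)) .no (.de 43)) .no .no) .no) .no .no (.de 45)) .no .no) .no .no .no) .no) (.br (.br .no .no (.br (.br .no .no .no (.br (.de 41) .no (.sw 0 1 [33]) .no)) (.br (.br .no .no (.br (.br .no .no .no (.de 43)) .no .no .no) .no) .no .no (.de 45)) .no .no) .no) .no (.sw 0 3 [29]) .no) .no .no)) .no .no) .no)) .no .no)) (.br (.br .no (.br .no .no (.br (.br .no (.de 34) .no .no) .no .no .no) (.br (.br .no (.de 34) .no .no) .no (.br (.br .no (.br .no (.br .no .no (.br (.br .no (.br .no .no .no (.de 45)) .no .no) .no .no .no)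 (.de 42)) (.br .no .no .no (.br (.br .no (.br .no .no .no (.de 45)) .no .no) .no (.de 43) .no)) .no) .no .no) (.de 34) .no .no) .no)) .no (.br .no .no (.br (.br .no (.de 34) .no .no) .no .no .no) .no)) .no .no .no)) .no)) .no .no) .no .no .no) (.br (.br .no (.br .no .no .no (.br .no .no (.br .no .no (.br (.br .no (.sw 2 3 [23]) (.br .no .no .no (.br (.br .no (.br .no .no .no (.br .no (.br .no .no .no (.de 42)) .no (.br .no (.de 42) .no .no))) .no .no) .no (.br (.br .no (.br .no (.br .no .no .no (.de 42)) .no (.br .no (.de 42) .no .no)) .no (.br .no (.br .no .no .no (.de 42)) .no (.br .no (.de 42) .no .no))) (.br .no .no .no (.br .no (.br .no .no .no (.de 42)) .no (.br .no (.de 42) .no .no))) .no .no) .no)) .no) .no .no .no) (.br (.br .no (.sw 2 3 [23]) (.br .no .no .no (.br (.br .no (.de 34) .no .no) .no (.br (.br .no (.br .no (.br .no .no .no (.de 42)) (.br .no (.br (.br .no (.br .no .no .no (.de 45)) .no .no) .no .no .no) .no (.br (.sw 1 2 [30]) (.br (.br .no (.br .no .no (.br (.br .no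 (.br .no .no (.br .no .no .no (.de 45)) .no) .no .no) .no .no .no) (.de 46)) .no (.br .no .no (.br (.br .no (.br .no .no (.br .no .no .no (.br .no (.de 46) .no .no)) .no) .no .no) .no .no .no) .no)) .no .no .no) .no .no)) .no) .no .no) (.de 34) .no .no) .no)) .no) .no (.br .no (.br .no .no (.br (.br .no (.de 34) .no .no) .no .no .no) (.br (.br .no (.de 34) .no .no) .no (.br (.br .no (.br (.br .no .no .no (.br (.br .no (.br .no .no .no (.de 45)) .no .no) .no (.de 43) .no)) (.br (.br .no .no (.br (.br .no (.br .no .no (.br (.sw 2 3 [23,28,29]) .no .no .no) (.de 46)) .no (.br .no .no (.br (.sw 2 3 [23,28,29]) .no .no .no) .no)) (.br .no .no .no (.de 45)) .no .no) .no) .no .no (.de 42)) .no .no) .no .no) (.de 34) .no .no) .no)) .no .no) .no)) .no)) .no .no) .no c4_0_0 .no)) .no (.br .no .no (.br (.br .no (.br .no .no .no (.br .no .no (.br .no (.br (.br .no (.br .no .no (.br (.br .no (.br .no .no .no (.br .no .no (.br .no .no .no (.br (.br .no (.br .no .no (.br (.de 41) .no .no .no) (.de 45))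 .no (.br .no .no (.br (.de 41) .no .no .no) .no)) .no .no .no)) (.br .no .no (.br (.br .no (.br .no .no (.br (.br .no .no (.br .no (.br .no .no .no (.br .no .no (.br .no .no .no (.br .no (.br .no .no .no (.br .lf .no .no .no)) .no .no)) .no)) .no .no) .no) .no .no .no) (.de 45)) .no (.br .no .no (.br (.br .no .no (.br .no (.br .no .no .no (.br .no .no (.br .no (.br .no .no .no (.de 47)) .no .no) .no)) .no .no) .no) .no .no .no) .no)) .no .no (.de 43)) .no))) .no .no) .no .no .no) (.br (.br .no (.br .no .no .no (.br .no .no (.br .no .no .no (.br (.br .no (.sw 2 3 [31]) (.br .no .no .no (.br (.de 41) .no (.br (.br .no (.br .no .no (.br .no .no .no (.br .no (.de 46) .no .no)) .no) .no .no) .no .no .no) .no)) .no) .no (.de 43) .no)) (.br .no .no (.br (.br .no (.sw 2 3 [31]) (.br .no .no .no (.br (.br .no .no (.br .no (.br .no .no .no (.de 44)) .no .no) .no) .no (.br (.de 48) .no .no .no) .no)) .no) .no .no .no) .no))) .no .no) .no (.br (.br .no .no .no (.br .no .no (.br .no .no .no (.br (.br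 .no (.br .no .no .no (.de 45)) .no .no) .no (.de 43) .no)) (.br .no .no (.br (.br .no (.br .no .no .no (.de 45)) .no .no) .no .no .no) .no))) (.br .no .no .no (.br .no .no (.br .no .no .no (.br (.br .no (.br (.br .no .no (.br (.sy 39 216 3) .no .no .no) .no) .no .no (.de 45)) .no .no) .no (.de 43) .no)) (.br .no .no (.br (.br .no (.br (.br .no .no (.br (.de 48) .no .no .no) .no) .no .no (.de 45)) .no .no) .no .no .no) .no))) .no .no) .no)) .no (.br .no .no (.br (.br .no (.br .no .no .no (.br .no .no (.br .no (.br (.br .no (.br .no .no (.br (.de 41) .no .no .no) (.de 45)) .no (.br .no .no (.br (.de 41) .no .no .no) .no)) .no .no .no) .no .no) (.br .no (.de 42) (.br (.sw 1 3 [30]) (.br .no .no .no (.br .no .no (.br (.br .no .no (.br .no (.br .no .no .no (.br .no .no (.sw 0 1 [37]) .no)) .no .no) .no) .no .no .no) .no)) .no .no) .no))) .no .no) .no .no .no) .no)) .no .no .no) (.br (.sw 1 3 [22]) (.br .no .no .no (.br .no .no (.br (.br .no (.br .no .no .no (.br (.br .no .no (.br (.sw 1 3 [22,29,30])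 (.br .no .no .no (.br .no .no (.br (.br .no (.br .no (.br .no .no .no (.br .no .no (.sw 0 1 [37]) .no)) .no (.de 43)) .no .no) .no .no .no) .no)) .no .no) .no) .no .no (.br (.br .no (.br .no .no .no (.br .no .no (.br (.br .no (.br .no (.br .no .no (.de 44) (.br .no .no (.br .no (.br .no .no .no (.br .no .no (.br .lf .no .no .no) .no)) .no .no) .no)) .no .no) .no .no) .no .no .no) .no)) .no .no) .no (.sw 0 1 [29]) .no))) .no .no) .no .no .no) .no)) .no .no) .no) .no)) .no .no) .no .no .no) .no))

theorem P4_0 : R.S 16 2495063172 :=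
  R.piece L hL (.br (.br .no (.br .no .no .no (.br .no .no (.br (.br c4_0_1 .no .no (.br .no (.br .no .no (.br (.br .no (.br .no .no .no (.br .no .no (.br (.br .no .no .no (.br .no (.br .no .no (.br (.br .no (.de 34) .no .no) .no .no .no) (.sw 0 2 [15,16,23,24])) .no .no)) .no (.br (.br .no (.br .no .no (.br (.br .no (.br (.br .no (.br .no .no (.br (.br .no (.br .no .no (.br .no .no .no (.de 41)) (.de 45)) .no (.br .no .no (.br .no .no .no (.de 41)) .no)) .no .no (.de 43)) (.de 42)) .no (.br .no .no (.br (.br .no (.br .no .no (.br .no .no .no (.br .no (.br .no (.br .no .no .no (.br .no .no (.br .no .no .no (.br .no (.br .no .no (.sw 0 3 [21,34,40]) .no) .no .no)) .no)) .no .no) .no .no)) (.de 45)) .no (.br .no .no (.br .no .no .no (.br .no (.br .no (.br .no .no .no (.br .no .no (.br .no (.de 46) .no .no) .no)) .no .no) .no .no)) .no)) .no .no (.de 43)) .no)) .no .no .no) .no .no) .no .no .no) (.br (.br .no (.br (.br .no (.br .no .no (.br (.br .no (.sw 2 3 [31]) (.br .no .no .no (.br .no .no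 (.br .no .no .no (.de 47)) .no)) .no) .no .no .no) (.de 42)) .no (.br .no .no (.br (.br .no (.sw 2 3 [31]) (.br .no .no .no (.br .no .no (.br .no (.sw 0 3 [21,34]) .no .no) .no)) .no) .no .no .no) .no)) .no .no .no) .no .no) .no (.br (.br .no (.sw 0 3 [21]) .no .no) (.br (.br .no (.br .no .no (.br (.br .no (.br (.br .no .no (.br .no .no .no (.de 47)) (.de 41)) .no .no (.de 45)) .no .no) .no .no .no) (.de 42)) .no (.br .no .no (.br (.br .no (.br (.br .no .no (.br .no (.sw 0 3 [21,34]) .no .no) (.br .no (.br .no (.br .no .no .no (.br .no .no (.br .no .no .no (.br .no (.sw 0 2 [32,39]) .no .no)) .no)) .no .no) .no .no)) .no .no (.de 45)) .no .no) .no .no .no) .no)) .no .no .no) .no .no) .no)) .no (.br .no .no (.br (.br .no (.br (.br .no (.br .no .no (.br (.sw 1 3 [30]) (.br .no .no .no (.br .no .no (.br .no .no .no (.de 41)) .no)) .no .no) .no) .no (.br .no (.de 42) (.br (.sw 1 3 [30]) (.br .no .no .no (.br .no .no (.br .no .no .no (.br .no (.br .no (.br .no .no .no (.br .no .no (.sw 0 1 [37])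 .no)) .no .no) .no .no)) .no)) .no .no) .no)) .no .no .no) .no .no) .no .no .no) .no)) .no .no (.br .no (.br .no .no (.br (.br .no (.br (.br (.br .no .no (.br (.br .no (.br .no .no (.br .no .no .no (.br .no (.br .no (.br .no .no .no (.br .no .no (.br .no .no .no (.br .no (.br .no .no (.sw 0 3 [21,34,40]) .no) .no .no)) .no)) .no (.de 43)) .no .no)) (.de 45)) .no (.br .no .no (.br .no .no .no (.br .no (.br .no (.br .no .no .no (.br .no .no (.br .no (.de 46) .no .no) .no)) .no (.de 43)) .no .no)) .no)) .no .no (.de 43)) .no) (.br (.br .no .no .no (.br .no (.br .no .no (.br .no .no .no (.de 41)) (.de 45)) .no .no)) .no (.sw 0 3 [29]) .no) .no .no) .no .no .no) .no .no) .no .no .no) (.sw 0 2 [15,16,23,24])) .no .no)) .no) .no)) .no .no) .no .no .no) (.sw 0 2 [15,16])) .no .no)) .no .no (.br (.br .no (.br .no .no (.br (.br .no (.br (.br .no .no (.br .no .no (.br (.br .no (.br .no .no (.br .no .no .no (.br .no (.br .no .no .no (.br .no (.br .no .no (.br (.br .no (.br (.sy 24 228 15) .no (.sw 0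 3 [20,26,32]) .no) .no .no) .no .no (.de 43)) (.de 42)) .no (.br .no .no (.br (.br .no (.br (.sy 24 228 15) .no (.sw 0 3 [20,26,32]) .no) .no .no) .no .no (.de 43)) .no))) .no .no)) (.br .no .no (.br .no (.sw 0 3 [20,26]) .no (.br .no (.br .no (.br .no .no (.br (.br .no (.br (.br .no .no (.br (.sw 1 3 [33,34]) .no .no (.de 47)) .no) .no .no .no) .no .no) .no .no .no) (.de 42)) .no (.br .no .no (.br (.br .no (.br (.br .no .no (.br (.de 48) .no .no .no) .no) .no .no .no) .no .no) .no .no .no) .no)) .no .no)) .no)) .no (.br .no .no (.br .no .no .no (.br .no (.br .no .no .no (.br .no (.br .no .no (.br (.sw 1 3 [30]) (.br (.br .no .no (.br (.de 41) .no .no .no) .no) .no .no .no) .no .no) .no) .no (.br .no (.de 42) (.br (.sw 1 3 [30]) (.br (.br .no .no (.br (.br .no (.br .no (.br .no .no .no (.br .no .no (.br .no (.sw 0 3 [20,26,32,38]) .no (.sw 0 1 [37,38])) .no)) .no .no) .no .no) .no .no .no) .no) .no .no .no) .no .no) .no))) .no .no)) .no)) .no .no (.br .no (.br .no .no (.br .no .no .no (.br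 .no (.br .no .no .no (.br (.br .no .no (.br (.br .no (.br (.br .no .no (.br .no (.br .no (.br .no .no .no (.br .no .no (.br .no .no .no (.br .no (.br .no .no .no (.de 48)) .no .no)) .no)) .no (.de 43)) .no .no) .no) .no (.sw 0 3 [20,26,32]) .no) .no .no) .no .no (.de 43)) .no) (.br (.br .no .no .no (.br (.br .no .no (.br (.de 41) .no .no .no) .no) (.br (.br .no .no (.br (.br .no .no .no (.de 48)) .no .no .no) .no) .no (.sw 0 3 [20,26,32]) .no) .no .no)) .no (.sw 0 3 [29]) .no) .no .no)) .no .no)) (.br .no .no (.br .no (.sw 0 3 [20,26]) .no (.br .no (.br (.br .no .no (.br (.br .no (.br (.br .no .no (.br .no .no .no (.de 47)) .no) .no .no .no) .no .no) .no .no .no) .no) (.br (.br .no .no (.br (.br .no (.br (.br .no .no .no (.br .no .no .no (.de 43))) .no (.sw 0 3 [20,26,33]) .no) .no .no) (.br (.br .no .no (.br (.sw 1 3 [33,34]) .no .no (.de 47)) .no) .no .no .no) .no .no) .no) .no (.sw 0 3 [29]) .no) .no .no) .no .no)) .no)) .no .no)) (.br (.br .no (.br .no .no (.br .no .no .no (.br .no (.de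 34) .no .no)) (.br .no .no (.br .no (.de 34) .no (.br .no (.br .no (.br .no .no (.br (.br .no (.br (.br .no .no (.br (.sw 2 3 [28]) .no .no .no) .no) .no .no .no) .no .no) .no .no .no) (.de 42)) (.br .no .no .no (.br (.br .no (.br (.br .no .no (.br (.sy 39 216 3) .no .no .no) .no) .no .no .no) .no .no) .no (.de 43) .no)) .no) .no .no)) .no)) .no (.br .no .no (.br .no .no .no (.br .no (.de 34) .no .no)) .no)) .no .no .no)) .no) .no .no .no) .no .no) .no .no .no) (.br (.br .no (.br (.br .no .no (.br .no .no (.br (.br .no (.sw 2 3 [23]) (.br .no .no .no (.br .no .no (.br .no (.sw 0 3 [20,26]) .no (.sy 30 78 3)) .no)) .no) .no .no .no) (.br (.br .no (.sw 2 3 [23]) (.br .no .no .no (.br .no .no (.br .no (.de 34) .no (.sy 30 78 3)) .no)) .no) .no (.br .no (.br .no .no (.br .no .no .no (.br .no (.de 34) .no .no)) (.br .no .no (.br .no (.de 34) .no (.br .no (.br (.br .no .no .no (.br (.br .no (.br (.br .no .no (.de 41) .no) .no .no .no) .no .no) .no (.de 43) .no)) (.br (.br .no .no (.br (.br .no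 (.br (.br .no .no (.br .no .no .no (.de 43)) .no) .no (.sw 0 3 [20,26,33]) .no) .no .no) (.br (.br .no .no (.br (.sw 2 3 [23,28,29]) .no .no .no) .no) .no .no .no) .no .no) .no) .no .no (.de 42)) .no .no) .no .no)) .no)) .no .no) .no)) .no) .no .no .no) .no .no) .no (.br (.br .no (.br .no .no (.sw 0 3 [20]) .no) .no .no) (.br (.br .no .no (.br .no .no (.br (.br .no (.br (.br .no .no (.br .no (.sw 0 3 [20,26]) .no (.br .no (.br .no (.br .no .no (.br .no .no .no (.de 43)) (.de 42)) .no (.br .no .no (.br .no .no .no (.de 43)) .no)) .no .no)) (.br .no (.br .no .no .no (.br .no (.br .no .no (.br .no .no .no (.de 43)) (.de 42)) .no (.br .no .no (.br .no .no .no (.de 43)) .no))) .no .no)) .no .no (.sw 0 2 [24])) .no .no) .no .no .no) (.br (.br .no (.br (.br .no .no (.br .no (.de 34) .no (.br .no (.br .no (.br .no .no (.br .no .no .no (.de 43)) (.de 42)) (.br .no .no .no (.br .no .no (.de 43) .no)) .no) .no .no)) (.br .no (.de 34) .no .no)) .no .no (.sw 0 2 [24])) .no .no) .no (.br (.br .no .no .no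 (.br .no .no (.br .no (.de 34) .no (.sw 0 1 [25,26])) .no)) (.br (.br .no .no (.br .no (.de 34) .no (.br .no (.br (.br .no .no .no (.br .no .no (.de 43) .no)) (.br (.br .no .no (.br .no (.br (.br .no .no (.br (.br .no .no .no (.de 43)) .no .no .no) .no) .no .no .no) .no (.de 44)) (.br .no (.br (.br .no .no (.br (.br .no .no .no (.de 48)) .no .no .no) .no) .no .no .no) .no .no)) .no .no (.de 42)) .no .no) .no .no)) (.br .no (.de 34) .no .no)) .no .no (.sw 0 2 [24])) .no .no) .no)) .no) .no .no .no) .no .no) .no)) .no (.br .no .no (.br (.br .no (.br (.br .no .no (.br .no (.br (.br .no (.br .no .no (.br .no .no .no (.br .no (.br .no .no .no (.sy 32 54 3)) .no .no)) (.br .no .no (.br .no (.sw 0 3 [20,26]) .no (.de 34)) .no)) .no (.br .no .no (.br .no .no .no (.br .no (.br .no .no .no (.sy 32 54 3)) .no .no)) .no)) .no .no .no) (.br (.sw 1 3 [22]) (.br .no .no .no (.br .no .no (.br .no .no .no (.br .no (.br .no .no .no (.sw 0 1 [14,21])) .no .no)) .no)) .no .no) .no) .no) .no .no .no) .no .no)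 .no .no .no) .no)) .no .no (.br .no (.br .no .no (.br (.br .no (.br (.br .no .no (.sw 0 1 [14]) .no) .no .no .no) .no .no) .no .no .no) (.sw 0 2 [15,16])) .no .no))) .no)) .no .no) .no .no .no) 16 2495063172 4294967296 (by norm_num) (by norm_num) (by norm_num) (by decide +kernel)

def c4_1_0 : Cert := (.br .no (.br .no .no .no (.br .no .no (.br (.br .no (.br (.br .no .no (.sw 1 3 [13,20]) (.br (.br .no (.br .no .no .no (.br .no .no (.br .no .no .no (.br .no (.br .no .no (.br .no .no (.br (.br .no (.br (.br .no .no (.br (.br .no (.sw 2 3 [27,34]) .no (.br .no (.br .no .no (.br .no .no .no (.br .no (.br .no .no .no (.sw 1 2 [3,9,15,21,33,34,39,45])) .no .no)) (.br .no .no (.br .no (.sw 2 3 [43,44]) .no (.br .no (.br .no .no (.sw 1 3 [45,46]) .no) .no .no)) .no)) .no (.br .no .no (.br .no .no .no (.br .no (.br .no .no .no (.sw 1 2 [3,9,15,21,33,34,39,45])) .no .no)) .no))) .no .no (.br .no (.br .no (.br .no .no (.br .no .no .no (.br .no (.de 46) .no .no)) (.br .no .no (.br .no (.de 46) .no (.br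 .no (.br .no .no (.sw 0 3 [40]) .no) .no .no)) .no)) .no (.br .no .no (.br .no .no .no (.br .no (.de 46) .no .no)) .no)) .no .no)) .no) .no .no .no) .no .no) .no .no .no) (.br (.br .no (.br (.br .no .no (.br (.br .no (.sw 2 3 [27,34]) .no .no) .no .no (.br .no (.br .no (.br .no .no (.br .no .no .no (.br .no (.de 46) .no .no)) (.br .no .no (.br .no (.de 46) .no (.br .no (.br .no .no (.sw 0 3 [40]) .no) .no .no)) .no)) .no .no) .no .no)) .no) .no .no .no) .no .no) .no (.br (.br .no (.br (.br .no .no .no (.br .no (.br .no (.br .no .no .no (.br .no .no (.br .no .no .no (.br .no (.br .no .no (.br (.sw 2 3 [27,34,40,47]) .no .no .no) .no) .no .no)) .no)) .no .no) .no .no)) .no (.br (.br .no (.sw 2 3 [27,34]) .no .no) .no .no (.br .no (.br .no (.br .no .no .no (.br .no .no (.br .no .no .no (.br .no (.sw 0 2 [39]) .no .no)) .no)) .no .no) .no .no)) .no) .no .no) (.br (.br .no .no (.br (.br .no (.sw 2 3 [27,34]) .no .no) .no .no (.br .no (.br .no (.br .no .no .no (.sw 0 2 [36])) .no .no) .no .no))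 .no) .no .no .no) .no .no) .no)) .no) (.de 34) .no)) .no)) .no .no) .no (.br (.br .no (.br .no .no (.br .no .no .no (.br .no (.br (.sw 2 3 [27]) .no .no .no) (.br (.sw 1 3 [13,20,21,22,27]) .no .no .no) .no)) (.br .no .no (.br .no (.br (.sw 2 3 [27]) .no .no .no) .no .no) .no)) .no (.br .no .no (.br .no .no .no (.br .no (.br (.sw 2 3 [27]) .no .no .no) (.sy 30 30 3) .no)) .no)) (.br .no .no .no (.br .no .no (.br .no .no .no (.br .no (.br (.sw 2 3 [27]) .no .no .no) (.sy 30 30 3) .no)) .no)) .no .no) .no)) .no .no (.br .no .no (.br (.br .no (.br .no .no .no (.br .no .no (.br (.br .no (.br .no .no .no (.br .no .no (.br (.br .no (.br .no .no .no (.br .no .no (.br (.br .no (.br .no (.br .no .no (.de 44) (.br .no .no (.br .no (.sw 0 3 [26,32,38]) .no .no) .no)) .no (.br .no .no (.de 44) .no)) .no .no) .no .no .no) .no)) .no .no) .no .no .no) (.br (.br .no (.br .no .no .no (.br .no .no (.br (.br .no (.br .no (.br .no .no (.de 44) (.br .no .no (.br .no (.sw 0 3 [26,32,38]) .no .no) .no)) .no .no)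 (.br .no (.br .no .no (.de 44) (.br .no .no (.br .no (.sw 0 3 [26,32,38]) .no .no) .no)) .no .no) .no) .no .no .no) .no)) .no .no) .no (.br (.br .no (.br .no .no (.sw 0 3 [26,32]) (.de 45)) .no (.br .no .no (.br (.br .no (.br .no (.br .no .no .no (.br .no .no (.br .no (.br .no .no .no (.br .no .no (.sw 1 3 [38,45,46]) .no)) .no .no) .no)) .no .no) (.br .no (.br .no .no .no (.br .no .no (.br .no (.br .no .no .no (.de 47)) .no .no) .no)) .no .no) .no) .no .no .no) .no)) (.br .no .no .no (.br .no .no (.br (.br .no (.br .no (.br .no .no .no (.sw 0 2 [36])) .no .no) (.br .no (.br .no .no .no (.sw 0 2 [36])) .no .no) .no) .no .no .no) .no)) .no .no) .no))) .no .no) .no .no .no) .no)) .no .no) .no (.br (.br .no (.br .no .no (.br (.br .no (.br (.br .no (.br .no .no (.br (.br .no (.br .no .no (.sw 0 3 [26,32]) (.de 45)) .no (.br .no .no (.br .no .no .no (.de 41)) .no)) .no .no (.de 43)) (.de 42)) .no (.br .no .no (.br (.br .no (.br .no .no (.sw 0 3 [26,32]) (.de 45)) .no (.br .no .no (.br .no .no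 .no (.br .no (.br .no (.br .no .no .no (.br .no .no (.br .no (.de 46) .no .no) .no)) .no .no) .no .no)) .no)) .no .no (.de 43)) .no)) .no .no (.br .no (.br .no .no (.br (.br .no (.br .no .no (.sw 0 3 [26,32]) (.de 45)) .no (.br .no .no (.br (.de 41) .no .no .no) .no)) .no .no (.de 43)) (.de 42)) .no (.br .no .no (.br (.br .no (.br .no .no (.sw 0 3 [26,32]) (.de 45)) .no (.br .no .no (.br (.br .no (.br .no (.br .no .no .no (.br .no .no (.br .no (.br .no .no .no (.br .no .no (.sw 1 3 [38,45,46]) .no)) .no .no) .no)) .no .no) .no .no) .no .no .no) .no)) .no .no (.de 43)) .no))) .no .no) .no .no .no) (.br (.br .no (.br (.br .no (.br .no .no (.br (.br .no (.sw 2 3 [31]) (.br .no .no .no (.br .no .no (.br .no .no .no (.de 47)) .no)) .no) .no .no .no) (.de 42)) .no (.br .no .no (.br (.br .no (.sw 2 3 [31]) (.br .no .no .no (.br .no .no (.br .no (.br .no (.br .no .no .no (.de 44)) .no .no) .no .no) .no)) .no) .no .no .no) .no)) .no .no (.br .no (.br .no .no (.br (.br .no (.sw 2 3 [31]) (.br .no .no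 .no (.br (.de 41) .no (.br (.br .no .no .no (.de 43)) .no .no .no) .no)) .no) .no .no .no) (.de 42)) .no (.br .no .no (.br (.br .no (.sw 2 3 [31]) (.br .no .no .no (.br (.br .no (.br .no (.br .no .no .no (.de 44)) .no .no) .no .no) .no (.br (.de 48) (.sw 0 3 [34]) .no .no) .no)) .no) .no .no .no) .no))) .no .no) .no (.br (.br .no .no .no (.br .no (.br .no .no (.br (.br .no (.br .no .no .no (.de 45)) .no .no) .no .no .no) (.de 42)) .no (.br .no .no (.br (.br .no (.br .no .no .no (.de 45)) .no .no) .no .no .no) .no))) (.sw 0 3 [26]) .no .no) .no)) .no (.br .no .no (.br (.br .no (.br (.br .no (.br .no .no (.br (.sw 1 3 [30]) (.br .no .no .no (.br .no .no (.br .no .no .no (.de 41)) .no)) .no .no) .no) .no (.br .no (.de 42) (.br (.sw 1 3 [30]) (.br .no .no .no (.br .no .no (.br .no .no .no (.br .no (.br .no (.br .no .no .no (.br .no .no (.sw 0 1 [37]) .no)) .no .no) .no .no)) .no)) .no .no) .no)) .no .no (.br .no (.br .no .no (.br (.sw 1 3 [30]) (.br .no .no .no (.br .no .no (.br (.de 41) .no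 .no .no) .no)) .no .no) .no) .no (.br .no (.de 42) (.br (.sw 1 3 [30]) (.br .no .no .no (.br .no .no (.br (.br .no (.br .no (.br .no .no .no (.br .no .no (.sw 0 1 [37]) .no)) .no .no) .no .no) .no .no .no) .no)) .no .no) .no))) .no .no) .no .no .no) .no)) (.br .no .no .no (.br .no .no (.br (.br .no (.br (.br (.br .no .no (.br (.br .no (.br .no .no (.sw 0 3 [26,32]) (.de 45)) .no (.br .no .no (.br .no .no .no (.br .no (.br .no (.br .no .no .no (.br .no .no (.br .no (.de 46) .no .no) .no)) .no (.de 43)) .no .no)) .no)) (.br .no .no .no (.br .no .no (.br .no .no .no (.br .no (.br .no (.br .no .no .no (.br .no .no (.sw 0 1 [37]) .no)) .no (.de 43)) .no .no)) .no)) .no .no) .no) .no .no (.br (.br .no (.br .no .no .no (.br .no .no (.br .no .no .no (.br .no (.br .no (.br .no .no (.de 44) (.br .no .no (.br .no (.de 46) .no .no) .no)) .no .no) .no .no)) .no)) .no .no) .no (.sw 0 1 [29]) .no)) .no .no (.br (.br .no .no (.br (.br .no (.br .no .no (.sw 0 3 [26,32]) (.de 45)) .no (.br .no .no (.br (.br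 .no (.br .no (.br .no .no .no (.br .no .no (.br .no (.br .no .no .no (.br .no .no (.sw 1 3 [38,45,46]) .no)) .no .no) .no)) .no (.de 43)) .no .no) .no .no .no) .no)) (.br .no .no .no (.br .no .no (.br (.br .no (.br .no (.br .no .no .no (.br .no .no (.sw 0 1 [37]) .no)) .no (.de 43)) .no .no) .no .no .no) .no)) .no .no) .no) .no .no (.br (.br .no (.br .no .no .no (.br .no .no (.br (.br .no (.sw 0 2 [28]) .no .no) .no .no .no) .no)) .no .no) .no (.sw 0 1 [29]) .no))) .no .no) .no .no .no) .no)) .no .no) .no) .no)) .no .no) .no .no .no) .no)) .no (.br .no (.br .no .no (.br (.br .no (.br (.br .no .no (.sw 1 3 [13,20]) .no) .no .no (.br .no .no (.br (.br .no .no .no (.br .no (.br .no .no (.br (.br .no (.de 34) .no .no) .no .no .no) (.br (.br .no (.de 34) .no .no) .no (.br (.br .no (.br .no (.br (.br .no .no (.br (.br .no (.br .no .no (.sw 0 3 [26,33]) (.de 46)) .no (.br .no .no (.br .no .no .no (.de 47)) .no)) (.br .no .no .no (.de 45)) .no .no) .no) .no (.br (.br .no (.br .no .no .no (.de 45))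 .no .no) .no .no .no) .no) (.br (.br .no .no (.br (.sy 35 201 3) (.br .no .no .no (.de 45)) .no .no) .no) .no .no .no) .no) .no .no) (.de 34) .no .no) .no)) .no .no)) .no (.br (.br .no (.br .no .no (.br (.br .no (.br (.sw 1 3 [21,22]) .no .no .no) .no .no) .no .no .no) (.br (.br .no (.br (.sw 1 3 [21,22]) .no .no .no) .no .no) .no (.br (.br .no (.br .no (.br .no .no (.br (.br .no (.br .no .no .no (.de 45)) .no .no) .no .no .no) (.de 42)) .no (.br .no .no (.br (.br .no (.br .no .no .no (.de 45)) .no .no) .no .no .no) .no)) .no .no) (.sw 0 3 [26]) .no .no) .no)) .no (.br .no .no (.br (.br .no (.br (.sw 1 3 [21,22]) .no .no .no) .no .no) .no .no .no) .no)) .no .no (.br .no (.br .no .no (.br (.br .no (.br (.br (.br .no .no (.br (.sw 1 3 [21,22,29,30]) .no .no (.de 43)) .no) (.br (.br .no .no .no (.br .no (.br .no .no (.sw 0 3 [26,32]) (.de 45)) .no .no)) .no (.sw 0 3 [29]) .no) .no .no) .no .no .no) .no .no) .no .no .no) (.br (.br .no (.br (.br (.br .no .no (.br (.br .no (.sw 2 3 [31]) (.sy 35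 216 3) .no) .no .no .no) .no) (.br (.br .no .no (.br .no (.br .no .no (.br .no .no .no (.de 41)) (.de 45)) .no .no) .no) .no (.sw 0 3 [29]) .no) .no .no) .no .no .no) .no .no) .no (.br (.br .no (.br (.br .no .no (.br (.br .no (.br .no .no .no (.de 45)) .no .no) .no .no .no) .no) (.br (.br .no .no (.br (.br .no (.br .no .no (.sw 0 3 [26,33]) (.de 46)) .no (.br .no .no (.br (.br .no .no .no (.de 43)) .no .no (.de 47)) .no)) (.br .no .no .no (.de 45)) .no .no) .no) .no (.sw 0 3 [29]) .no) .no .no) .no .no) (.sw 0 3 [26]) .no .no) .no)) .no .no)) .no) .no)) .no .no) .no .no .no) (.br (.br .no (.br (.br .no .no (.sw 1 3 [13,20]) .no) .no .no (.br .no .no (.br (.br .no .no (.br .no (.br .no .no (.br (.br .no (.de 34) .no .no) .no .no .no) (.br (.br .no (.de 34) .no .no) .no (.br (.br .no (.br .no (.br (.sw 2 3 [23,29]) .no .no (.de 42)) .no (.br (.br .no .no (.br (.br .no (.br .no .no (.de 41) (.de 46)) .no (.br .no .no (.de 41) .no)) (.br .no .no .no (.de 45)) .no .no) .no) .no .no .no)) .no .no)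 (.de 34) .no .no) .no)) .no .no) .no) .no (.br (.br .no (.sw 2 3 [23]) (.br .no .no .no (.br (.br .no (.br (.sy 34 216 3) .no .no .no) .no .no) .no (.br (.br .no (.br .no (.br .no .no .no (.de 42)) .no (.br .no (.de 42) .no .no)) .no .no) (.sw 0 3 [26]) .no .no) .no)) .no) .no .no .no) .no) .no)) .no .no) .no (.br (.br .no .no .no (.br .no .no (.br (.br .no .no (.br (.br .no (.br .no .no (.br (.sw 1 3 [13,20,26]) (.de 34) .no .no) .no) .no (.br .no (.br (.br .no (.sy 32 225 3) .no .no) .no .no .no) (.br (.sw 1 3 [13,20,26]) (.de 34) .no .no) .no)) (.br .no .no .no (.br .no (.br (.br .no (.sy 32 225 3) .no .no) .no .no .no) (.br (.sw 1 3 [13,20,26]) (.de 34) .no .no) .no)) .no .no) .no) .no (.br (.br .no (.br .no .no .no (.br .no (.br (.br .no (.br .no (.br .no .no (.br (.br .no .no (.br .no .no .no (.br .no .no (.br (.br .no .no .no (.de 43)) .no .no (.de 47)) .no)) .no) .no .no .no) (.de 42)) .no (.br .no .no (.br (.br .no .no (.br .no .no .no (.br .no .no (.br (.de 48) .no .no .no) .no))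 .no) .no .no .no) .no)) .no .no) .no .no .no) (.br (.sw 1 3 [13,20,26]) (.br (.br .no (.br .no .no (.br (.br .no (.br (.br .no .no (.sw 1 3 [13,20,26,33]) (.de 41)) .no .no (.de 45)) .no .no) .no .no .no) (.de 42)) .no (.br .no .no (.br (.br .no (.br (.br .no .no (.sw 1 3 [13,20,26,33]) (.br .no (.br .no (.br .no .no .no (.br .no .no (.br .no .no .no (.br .no (.br .no .no (.br (.sw 2 3 [40,47]) .no .no .no) .no) .no .no)) .no)) .no .no) .no .no)) .no .no (.de 45)) .no .no) .no .no .no) .no)) .no .no .no) .no .no) .no)) .no .no) .no .no .no) .no) .no)) (.br (.br .no .no (.sw 1 3 [13,20]) .no) .no .no (.br .no .no (.br (.br .no .no (.br (.br .no .no .no (.br (.br .no (.de 34) .no .no) .no (.sw 0 1 [25]) .no)) (.br (.br .no .no (.br (.br .no (.br .no (.br (.br .no .no (.br .no (.br .no .no .no (.de 45)) .no (.de 44)) (.br .no (.br .no .no .no (.de 45)) .no .no)) .no .no (.de 42)) .no (.br (.br .no .no (.br .no (.br .no .no .no (.de 45)) .no (.de 44)) (.br .no (.br .no .no .no (.de 45)) .no .no))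 .no .no .no)) .no .no) (.de 34) .no .no) .no) .no .no (.sw 0 2 [24])) .no .no) .no) .no (.br (.br .no (.br (.br .no .no (.br (.br .no (.br .no (.br .no .no (.br .no .no .no (.de 43)) (.de 42)) .no (.br .no .no (.br .no .no .no (.de 43)) .no)) .no .no) (.sw 0 3 [26]) .no .no) .no) .no .no (.sw 0 2 [24])) .no .no) .no .no .no) .no) .no)) .no .no) .no)) .no .no))

def c4_1_1 : Cert := (.br .no .no (.br (.br .no .no (.br .no .no .no (.br .no .no (.br .no .no (.br (.br .no (.br .no .no .no (.br (.br .no (.br .no .no .no (.br .no (.br .no .no (.br (.br .no (.br .no .no (.br (.de 41) .no .no .no) (.de 45)) (.br .no .no .no (.br (.de 41) .no (.br (.br .no .no .no (.de 43)) .no .no .no) .no)) .no) .no .no .no) (.de 42)) .no (.br .no .no (.br (.br .no (.br .no .no (.br (.br .no (.br .no (.br .no .no .no (.br .no .no (.br .no .no .no (.br .no (.br .no .no (.br .lf .no .no .no) (.br (.sw 2 3 [47]) .no .no .no)) .no .no)) .no)) .no .no) .no .no) .no .no .no) (.de 45)) (.br .no .no .no (.br (.br .no (.br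 .no (.br .no .no .no (.de 44)) .no .no) .no .no) .no (.br (.de 48) (.br .no (.br .no .no .no (.de 44)) .no .no) .no .no) .no)) .no) .no .no .no) .no))) .no .no) (.br (.br .no (.br .no (.br .no .no (.br (.br .no .no (.br .no .no .no (.br .no .no (.br (.br .no .no .no (.de 43)) .no .no (.de 47)) .no)) .no) .no .no .no) (.de 42)) .no (.br .no .no (.br (.br .no .no (.br .no .no .no (.br .no .no (.br (.de 48) .no .no .no) .no)) .no) .no .no .no) .no)) .no (.br .no (.br .no .no (.br (.br .no .no (.br .no .no .no (.br .no (.de 46) (.sw 0 1 [32,33]) .no)) .no) .no .no .no) (.de 42)) .no (.br .no .no (.br (.br .no .no (.br .no .no .no (.br .no (.de 46) (.sw 0 1 [32,33]) .no)) .no) .no .no .no) .no))) .no .no .no) .no .no)) .no (.br .no (.br (.br .no (.br .no .no .no (.br .no (.br .no .no (.br (.br .no .no (.sw 1 3 [30,31]) (.br .no .no (.br (.de 41) .no .no .no) .no)) .no .no .no) .no) .no (.br .no (.de 42) (.br (.br .no .no (.sw 1 3 [30,31]) (.br .no .no (.br (.br .no (.br .no (.br .no .no .no (.br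 .no .no (.br .no (.br .no .no .no (.br .no .no (.sw 1 3 [30,31,38,45,46]) .no)) .no .no) .no)) .no .no) .no .no) .no .no .no) .no)) .no .no .no) .no))) .no .no) .no .no .no) .no .no)) .no .no (.br .no (.br .no .no .no (.br (.br .no (.br .no .no .no (.br (.br .no .no (.br (.br .no (.br .no .no (.br (.br .no (.br .no (.br .no .no .no (.br .no .no (.br .no .no .no (.br .no (.br .no .no (.br .no .no .no (.sw 0 3 [29,35,48])) (.de 48)) .no .no)) .no)) .no (.de 43)) .no .no) .no .no .no) (.de 45)) (.sy 35 216 3) .no) .no .no .no) .no) (.br (.br .no .no (.br .no (.br .no .no (.br (.de 41) .no .no .no) (.de 45)) .no .no) .no) .no (.sw 0 3 [29]) .no) .no .no)) .no .no) (.sy 29 54 3) .no .no)) .no .no)) (.br (.br .no (.br .no .no .no (.br (.br .no (.de 34) .no .no) (.br (.br .no (.br .no (.br .no .no (.br (.br .no .no (.br .no .no .no (.br .no .no (.br (.sw 2 3 [28]) .no .no .no) .no)) .no) .no .no .no) (.de 42)) (.br .no .no .no (.br (.br .no .no (.br .no .no .no (.br .no .no (.br (.br .no (.br .no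 .no (.br .no .no .no (.br .no (.de 46) .no .no)) .no) .no .no) .no .no .no) .no)) .no) .no (.de 43) .no)) .no) .no .no) .no .no .no) .no .no)) .no (.br .no (.br (.br .no (.de 34) .no .no) .no .no .no) .no .no)) .no .no .no)) .no)) .no) .no .no .no) (.br (.br .no .no (.br .no .no .no (.br .no .no (.br .no .no (.br (.br .no (.sw 2 3 [23]) (.br .no (.br (.br .no (.br .no .no .no (.br .no (.br .no .no .no (.de 42)) .no (.br .no (.de 42) .no .no))) .no .no) .no .no .no) .no (.br (.br .no (.br .no .no .no (.br .no (.br .no .no .no (.de 42)) .no (.br .no (.de 42) .no .no))) .no .no) (.br (.br .no (.br .no (.br .no .no .no (.de 42)) .no (.br .no (.de 42) .no .no)) .no (.br .no (.br .no .no .no (.de 42)) .no (.br .no (.de 42) .no .no))) .no .no .no) .no .no)) .no) .no .no .no) (.br (.br .no (.sw 2 3 [23]) (.br .no (.br (.br .no (.de 34) .no .no) .no .no .no) .no (.br (.br .no (.de 34) .no .no) (.br (.br .no (.br .no (.br .no .no .no (.de 42)) (.br .no (.br (.br .no .no (.br .no .no .no (.br .no .no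 (.br (.br .no .no .no (.de 48)) .no .no .no) .no)) .no) .no .no .no) .no (.br (.sw 1 2 [30]) (.br (.br .no .no (.br .no .no .no (.br (.br .no (.br .no .no (.br .no .no .no (.br .no (.de 46) .no .no)) .no) .no .no) .no .no .no)) (.br .no .no (.br (.br .no (.br .no .no (.br .no .no .no (.br .no (.de 46) .no .no)) .no) .no .no) .no .no .no) .no)) .no (.br .no .no .no (.br .no .no (.br (.br .no (.br .no .no (.br .no .no .no (.sw 0 1 [37])) .no) .no .no) .no .no .no) .no)) .no) .no .no)) .no) .no .no) .no .no .no) .no .no)) .no) .no (.br .no (.br .no .no .no (.br (.br .no (.de 34) .no .no) (.br (.br .no (.br (.br .no .no .no (.br (.br .no .no (.br .no .no .no (.br .no .no (.de 41) .no)) .no) .no (.de 43) .no)) (.br (.br .no .no (.br (.br .no .no (.sy 36 216 3) (.br .no .no (.br (.sw 2 3 [23,28,29]) .no .no .no) .no)) .no .no .no) .no) .no .no (.de 42)) .no .no) .no .no) .no .no .no) .no .no)) .no .no) .no)) .no)) .no) .no (.br (.br .no .no (.br .no .no .no (.br .no .no (.br (.br .no (.br .no .no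 .no (.br .no (.br (.br .no (.br .no (.br .no .no (.br (.br .no .no (.br .no .no .no (.br .no .no (.br (.br .no .no .no (.de 43)) .no .no (.de 47)) .no)) .no) .no .no .no) (.de 42)) .no (.br .no .no (.br (.br .no .no (.br .no .no .no (.br .no .no (.br (.de 48) .no .no .no) .no)) .no) .no .no .no) .no)) .no .no) .no .no .no) .no .no)) .no .no) .no .no .no) (.br (.br .no (.br .no .no .no (.br .no (.br (.br .no (.sw 0 2 [15,16,21]) (.br .no (.br .no .no (.br (.br .no .no (.br .no .no .no (.br .no (.de 46) .no .no)) .no) .no .no .no) (.de 42)) (.br .no .no .no (.br (.br .no .no (.br .no .no .no (.br .no (.de 46) .no .no)) .no) .no (.de 43) .no)) .no) .no) .no .no .no) .no .no)) .no .no) .no (.br (.br .no (.br .no .no .no (.br (.br .no (.sw 0 2 [15,16,21]) (.br (.br .no (.br .no .no (.br (.br .no (.br .no .no .no (.de 46)) (.br .no (.de 41) .no (.br .no (.br .no .no .no (.de 43)) .no .no)) .no) .no .no .no) (.br (.br .no (.br .no .no .no (.de 46)) (.br .no (.de 41) .no (.br .no (.br .no .no .no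 (.de 48)) .no .no)) .no) .no (.de 44) .no)) .no (.br .no .no (.de 43) .no)) (.br .no .no .no (.de 42)) .no .no) .no) (.br .no .no (.br (.br .no (.br .no .no (.br (.br .no .no (.br (.sy 37 201 3) .no .no (.sw 0 1 [33])) .no) .no .no .no) (.br (.br .no .no (.br (.br .no (.sy 40 228 3) .no .no) .no .no (.sw 0 1 [33])) .no) .no (.de 44) .no)) .no (.br .no .no (.de 43) .no)) (.br .no .no .no (.de 42)) .no .no) .no) .no .no)) .no (.br .no (.br (.br .no (.sw 0 2 [15,16,21]) (.br (.br .no (.br .no .no (.br (.br .no .no (.sw 1 3 [31,32]) (.br .no (.de 41) .no .no)) .no .no .no) .no) .no (.br .no (.br (.br .no .no (.br .no (.de 41) .no (.br .no (.br .no (.br .no .no (.br .no .no .no (.br .no (.de 46) .no .no)) .no) .no .no) .no .no)) (.br .no (.de 41) .no .no)) .no (.br .no .no .no (.br .no (.de 41) .no .no)) .no) (.de 43) .no)) (.br .no .no .no (.de 42)) .no .no) .no) .no .no .no) .no .no)) (.br .no .no .no (.br .no (.br (.br .no (.sw 0 2 [15,16,21]) (.br (.br .no .no .no (.br (.br .no .no (.br .no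 .no .no (.br .no (.de 41) .no .no)) .no) .no (.de 43) .no)) (.br (.br .no .no (.br (.br .no .no (.sy 36 216 3) (.br .no (.de 46) .no .no)) .no .no .no) .no) .no .no (.de 42)) .no .no) .no) .no .no .no) .no .no)) .no .no) .no))) (.br .no .no (.br .no .no (.br (.br .no (.br .no .no .no (.br .no (.sw 0 2 [24,25]) (.br (.br .no (.br .no (.br .no .no (.br (.br .no (.br .no .no .no (.de 45)) .no .no) .no .no .no) (.de 42)) .no (.br .no .no (.br (.br .no (.br .no .no .no (.de 45)) .no .no) .no .no .no) .no)) .no (.br .no (.br .no .no (.br (.br .no (.br .no .no .no (.de 45)) .no .no) .no .no .no) (.de 42)) .no (.br .no .no (.br (.br .no (.br .no .no .no (.de 45)) .no .no) .no .no .no) .no))) (.br .no .no .no (.br .no (.br .no .no (.br (.br .no (.br (.br .no .no (.br (.br .no .no .no (.de 43)) .no .no .no) .no) .no .no (.de 45)) .no .no) .no .no .no) (.de 42)) .no (.br .no .no (.br (.br .no (.br (.br .no .no (.br (.de 48) (.br .no (.br .no .no .no (.br .no .no (.br .no .no .no (.br .no (.br .no .no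 .no (.sw 0 2 [24,25,32,39,40])) .no .no)) .no)) .no .no) .no .no) .no) .no .no (.de 45)) .no .no) .no .no .no) .no))) .no .no) .no)) .no .no) .no .no .no) (.br (.br .no (.br .no .no .no (.br .no (.sw 0 2 [24,25]) (.br (.br .no (.br .no (.br .no .no (.br (.br .no (.br .no .no .no (.de 45)) .no .no) .no .no .no) (.de 42)) (.br .no .no .no (.br (.br .no (.br .no .no .no (.de 45)) .no .no) .no (.de 43) .no)) .no) .no .no) (.de 34) .no .no) .no)) .no .no) .no (.br (.br .no (.br .no .no (.br (.br .no (.br (.br .no (.br .no .no (.br (.br .no (.sw 2 3 [26,27,32]) .no (.br .no .no (.de 41) .no)) .no .no (.de 44)) (.br (.br .no (.sw 2 3 [26,27,32]) .no (.br .no .no (.de 41) .no)) .no .no .no)) .no (.br .no .no (.de 43) .no)) (.br .no .no .no (.de 42)) .no .no) .no .no) (.de 34) .no .no) .no) .no (.br .no (.br (.br .no (.sw 2 3 [26,27]) .no .no) .no .no .no) (.br (.br .no (.br (.br .no (.br .no .no (.br (.sw 1 3 [31]) (.br .no .no .no (.de 45)) .no .no) .no) .no (.br .no (.br (.br .no (.br .no .no (.de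 41) (.de 46)) .no (.sw 1 2 [32])) .no .no .no) (.de 43) .no)) (.br .no .no .no (.de 42)) .no .no) .no .no) (.de 34) .no .no) .no)) (.br .no .no .no (.br .no (.sw 0 2 [24,25]) (.br (.br .no (.br (.br .no .no .no (.br (.br .no (.br .no .no .no (.de 45)) .no .no) .no (.de 43) .no)) (.br (.br .no .no (.br (.br .no (.br .no .no (.br (.br .no .no .no (.de 43)) .no .no .no) (.de 46)) .no (.sw 1 2 [32])) (.br .no .no .no (.de 45)) .no .no) .no) .no .no (.de 42)) .no .no) .no .no) (.de 34) .no .no) .no)) .no .no) .no)) .no)) .no .no .no) .no))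

theorem P4_1 : R.S 14 213361796 :=
  R.piece L hL (.br (.br .no .no (.br (.br .no (.br .no .no .no (.br .no (.de 20) (.br .no c4_1_0 .no .no) .no)) .no .no) .no .no .no) .no) (.br (.br .no .no (.br (.br .no (.br .no .no (.br (.sw 1 3 [13]) .no .no .no) .no) .no (.br .no (.br (.sy 19 225 3) .no .no .no) (.br (.sw 1 3 [13]) .no .no .no) .no)) (.br .no .no .no (.br .no (.br (.sy 19 225 3) .no .no .no) (.br (.sw 1 3 [13]) .no .no .no) .no)) .no .no) .no) .no (.br (.br .no (.br .no .no .no (.br .no (.br (.br (.br .no c4_1_1 .no (.br .no .no (.br (.br .no .no (.br .no .no .no (.br .no .no (.br .no (.br (.br .no (.br .no .no .no (.br (.br .no (.br .no .no .no (.br .no .no (.br .no .no .no (.br (.br .no (.br .no .no (.br (.de 41) .no .no .no) (.de 45)) (.br .no .no .no (.br (.de 41) .no (.br (.br .no (.br .no .no (.br .no .no .no (.br .no (.de 46) .no .no)) .no) .no .no) .no .no .no) .no)) .no) .no (.de 43) .no)) (.br .no .no (.br (.br .no (.br .no .no (.br (.br .no .no (.br .no (.br .no .no .no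 (.br .no .no (.br .no .no .no (.br .no (.br .no .no .no (.br .lf .no .no .no)) .no .no)) .no)) .no .no) .no) .no .no .no) (.de 45)) (.br .no .no .no (.br (.br .no .no (.br .no (.br .no .no .no (.de 44)) .no .no) .no) .no (.br (.de 48) .no .no .no) .no)) .no) .no .no .no) .no))) .no .no) (.br (.br .no .no .no (.br .no .no (.br .no .no .no (.br (.br .no .no (.br .no .no .no (.br .no (.de 46) (.sw 0 1 [32,33]) .no)) .no) .no (.de 43) .no)) (.br .no .no (.br (.br .no .no (.br .no .no .no (.br .no (.de 46) (.sw 0 1 [32,33]) .no)) .no) .no .no .no) .no))) .no .no .no) .no .no)) .no (.br .no (.br (.br .no (.br .no .no .no (.br .no .no (.br .no (.br (.br .no .no (.br .no .no .no (.br (.de 41) .no (.br (.br .no .no .no (.de 48)) .no .no .no) .no)) (.br .no .no (.br (.de 41) .no .no .no) .no)) .no (.br .no .no .no (.de 44)) .no) .no .no) (.br .no (.de 42) (.br (.br .no .no (.sw 1 3 [30,31]) (.br .no .no (.br (.br .no .no (.br .no (.br .no .no .no (.br .no .no (.br .no (.br .no .no .no (.de 47)) .no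 .no) .no)) .no .no) .no) .no .no .no) .no)) .no .no .no) .no))) .no .no) .no .no .no) .no .no)) .no .no .no) (.br (.sw 1 3 [22]) (.br .no .no .no (.br .no (.br (.br .no (.br .no .no .no (.br (.br .no .no (.br (.br .no .no (.sw 1 3 [22,29,30,31]) (.br .no .no (.br (.br .no (.br .no (.br .no .no .no (.br .no .no (.br .no (.br .no .no .no (.br .no .no (.sw 1 3 [22,29,30,31,38,45,46]) .no)) .no .no) .no)) .no (.de 43)) .no .no) .no .no .no) .no)) .no .no .no) .no) .no .no (.br (.br .no .no (.sy 23 141 14) .no) .no (.sw 0 1 [29]) .no))) .no .no) .no .no .no) .no .no)) .no .no) .no) .no)) .no) .no .no .no) .no)) .no .no (.br .no (.br .no .no (.br (.br .no .no (.br .no .no .no (.br .no .no (.sy 25 78 3) .no)) .no) .no .no .no) (.sw 0 2 [15,16])) .no .no)) .no .no .no) (.br (.sw 1 3 [13]) .no .no .no) .no)) .no .no) .no .no .no) .no) .no .no) 14 213361796 268435456 (by norm_num) (by norm_num) (by norm_num) (by decide +kernel)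

def c4_2_0 : Cert := (.br .no (.br .no .no .no (.br .no .no (.br .no .no .no (.br .no (.br (.br (.br .no .no (.br (.br .no (.br (.br .no .no (.br .no (.br .no (.br .no .no .no (.de 42)) .no (.br .no (.de 42) .no .no)) .no (.br .no (.br .no .no .no (.de 42)) .no (.br .no (.de 42) .no .no))) (.br .no (.br .no (.br .no .no .no (.de 42)) .no (.br .no (.de 42) .no .no)) .no .no)) .no (.br .no .no .no (.br .no (.br .no (.br .no .no .no (.de 42)) .no (.br .no (.de 42) .no .no)) .no .no)) .no) .no .no) (.br (.br .no .no (.br .no .no .no (.br .no (.br .no (.br (.br .no .no (.br .no (.br (.br .no .no (.br .no .no .no (.de 47)) .no) .no .no .no) .no (.de 44)) (.br .no (.br (.br .no .no (.br .no .no .no (.de 47)) .no) .no .no .no) .no .no)) .no .no (.de 42)) .no (.br (.br .no .no (.br .no (.br (.br .no .no (.de 41) .no) .no .no .no) .no (.de 44)) (.br .no (.br (.br .no .no (.de 41) .no) .no .no .no) .no .no)) .no .no .no)) .no .no)) .no) .no .no .no) .no .no) .no) .no .no (.br (.br .no (.br (.br .no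 .no (.br .no .no .no (.br .no (.br .no (.br .no .no (.br .no .no .no (.de 43)) (.de 42)) (.br .no .no .no (.br .no .no (.de 43) .no)) .no) .no .no)) .no) .no .no .no) .no .no) .no (.br (.br .no (.br (.br .no .no (.br .no (.br (.br .no (.br .no .no (.br .no .no .no (.de 44)) (.br .no .no (.de 44) .no)) .no (.br .no .no (.de 43) .no)) (.br .no .no .no (.de 42)) .no .no) .no .no) (.br .no (.br (.br .no (.br .no .no (.br .no .no .no (.de 44)) (.br .no .no (.de 44) .no)) .no (.br .no .no (.de 43) .no)) (.br .no .no .no (.de 42)) .no .no) .no .no)) .no (.br .no .no .no (.br .no (.br (.br .no (.br .no .no (.br (.br .no (.br (.br .no .no (.br .no .no .no (.de 43)) .no) .no (.de 41) .no) .no .no) .no .no (.de 44)) (.br (.br .no (.br (.br .no .no (.br .no .no .no (.de 48)) .no) .no (.de 41) .no) .no .no) .no .no .no)) .no (.br .no .no (.de 43) .no)) (.br .no .no .no (.de 42)) .no .no) .no .no)) .no) .no .no) (.br (.br .no .no (.br .no .no .no (.br .no (.br (.br .no .no .no (.br .no .no (.de 43) .no))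 (.br (.br .no .no (.br .no (.br (.br .no .no (.br (.br .no .no .no (.de 43)) .no .no .no) .no) .no .no .no) .no (.de 44)) (.br .no (.br (.br .no .no (.br (.br .no .no .no (.de 48)) .no .no .no) .no) .no .no .no) .no .no)) .no .no (.de 42)) .no .no) .no .no)) .no) .no .no .no) .no .no) .no)) .no .no .no) (.sy 23 30 3) .no)) .no)) .no (.br .no (.br .no .no (.br .no .no .no (.br .no (.br (.br (.br .no .no (.br (.sw 1 3 [22,23]) .no .no (.br (.br .no .no (.br .no .no .no (.br .no (.br .no (.br (.br .no (.br .no .no .no (.br (.br .no .no (.br .no .no .no (.de 47)) .no) (.de 45) .no .no)) (.sw 1 3 [22,23,30]) .no) .no .no .no) .no (.br (.br .no (.br .no .no .no (.br (.br .no .no (.de 41) .no) (.de 45) .no .no)) (.sw 1 3 [22,23,30]) .no) (.de 42) .no .no)) .no .no)) .no) (.br (.br .no .no (.br .no (.br .no (.br (.br .no .no (.br .no .no .no (.de 44)) .no) .no .no .no) .no (.br (.br .no .no (.br .no .no .no (.de 44)) .no) (.de 42) .no .no)) .no (.br .no (.br (.br .no .no (.br .no .no .no (.de 44))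 .no) .no .no .no) .no (.br (.br .no .no (.br .no .no .no (.de 44)) .no) (.de 42) .no .no))) (.br .no (.br .no (.br (.br .no .no (.br .no .no .no (.de 44)) .no) .no .no .no) .no (.br (.br .no .no (.br .no .no .no (.de 44)) .no) (.de 42) .no .no)) .no .no)) .no (.br .no .no .no (.br .no (.br .no (.br (.br .no .no (.br (.br .no (.br (.br .no .no (.br .no .no .no (.de 43)) (.br .no .no .no (.de 43))) .no (.sw 0 3 [12,19,20,25,27,33]) .no) .no .no) .no .no (.de 44)) .no) .no .no .no) .no (.br (.br .no .no (.br (.br .no (.br (.br .no .no (.br .no (.br .no .no .no (.de 44)) .no .no) .no) .no (.de 41) .no) .no .no) .no .no (.de 44)) .no) (.de 42) .no .no)) .no .no)) .no) .no .no)) .no) (.br (.br .no .no .no (.br (.br .no .no (.br .no .no .no (.de 34)) .no) (.br (.br .no .no (.br .no .no .no (.br .no .no (.br .no (.br (.br .no .no (.br .no (.br (.de 41) .no .no .no) .no (.br (.de 41) (.de 46) .no .no)) (.br .no (.de 45) .no .no)) .no (.br .no .no .no (.de 44)) .no) .no .no) (.br .no (.de 42) (.br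 (.br .no .no (.br .no (.br (.br .no .no (.br .no (.br .no .no .no (.de 44)) .no .no) .no) .no .no .no) .no (.br (.br .no .no (.br .no (.br .no .no .no (.de 44)) .no .no) .no) (.de 46) .no .no)) (.br .no (.de 45) .no .no)) .no .no .no) .no))) (.de 34)) .no (.br .no .no .no (.de 34)) .no) .no .no)) .no (.br (.br .no (.br (.br .no .no (.br .no .no .no (.br (.br .no (.br .no .no (.br .no .no .no (.de 44)) (.br .no .no (.de 44) .no)) .no (.br .no .no (.de 43) .no)) .no .no (.br .no (.de 42) .no .no))) (.de 34)) .no (.br .no .no .no (.de 34)) .no) .no .no) .no .no (.br (.br .no .no (.br .no .no .no (.de 34)) .no) (.br (.br .no .no (.br .no .no .no (.br (.br .no (.br (.br .no .no (.br .no (.br (.br .no .no (.br .no .no .no (.de 48)) .no) .no .no .no) .no (.br (.br .no .no (.br .no .no .no (.de 48)) .no) (.de 46) .no .no)) (.br .no (.de 45) .no .no)) .no (.sw 0 3 [30]) .no) .no .no) .no .no (.br (.br .no .no (.br .no .no .no (.de 44)) .no) (.de 42) .no .no))) (.de 34)) .no (.br .no .no .no (.de 34))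 .no) .no .no)) .no) .no .no) .no .no .no) (.br (.br (.br .no .no (.br (.sw 1 3 [22,23]) .no .no (.br (.br .no (.br .no .no .no (.br .no (.br .no (.br (.br .no (.br .no .no (.br (.br .no .no (.br .no .no .no (.de 47)) .no) .no .no .no) (.br (.sw 1 2 [26,32]) .no (.br (.br .no .no (.br .no .no .no (.br .no .no (.de 44) .no)) (.br .no .no .no (.br .no .no (.de 44) .no))) .no .no .no) .no)) (.sw 1 3 [22,23,30]) .no) .no .no .no) .no (.br (.br .no (.br .no .no (.br (.br .no .no (.de 41) .no) .no .no .no) (.br (.sw 1 2 [26,32]) .no (.br (.br .no .no (.br .no (.br .no .no (.de 44) (.br .no .no (.br .no (.br .no .no .no (.de 47)) .no .no) .no)) .no .no) .no) .no .no .no) .no)) (.sw 1 3 [22,23,30]) .no) (.de 42) .no .no)) .no .no)) .no .no) (.br (.br .no (.br .no .no .no (.br .no (.br (.br .no .no (.br .no .no .no (.de 44)) .no) .no .no .no) .no (.br (.br .no .no (.br .no .no .no (.de 44)) .no) (.de 42) .no .no))) .no (.sw 1 2 [26])) .no .no .no) .no .no)) .no) (.br (.br .no .no .no (.br (.br .no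 (.br .no .no .no (.de 34)) .no .no) (.br (.br .no (.br .no .no .no (.br .no .no (.br .no (.br (.br .no .no (.br .no .no .no (.br (.de 41) .no (.br (.br .no .no .no (.de 48)) .no .no .no) .no)) (.br .no .no (.br (.de 41) .no .no .no) .no)) .no (.br .no .no .no (.de 44)) .no) .no .no) (.br .no (.de 42) (.br (.br .no .no (.br .no .no .no (.br (.sw 1 2 [26,33]) .no (.br (.de 48) .no .no .no) .no)) (.br .no .no (.br (.br .no .no (.br .no (.br .no .no .no (.br .no .no (.br .no (.sy 31 177 14) .no .no) .no)) .no .no) .no) .no .no .no) .no)) .no .no .no) .no))) .no (.de 34)) .no .no .no) .no .no)) .no (.br (.br .no (.br (.br .no (.sy 30 228 3) .no (.de 34)) .no .no .no) .no .no) .no .no (.br (.br .no (.br .no .no .no (.de 34)) .no .no) (.br (.br .no (.br .no .no .no (.br (.br .no (.br (.br .no .no (.br .no .no .no (.br (.sw 1 2 [26,33]) .no (.de 41) .no)) (.br .no .no (.br (.br .no .no (.sy 39 201 3) .no) .no .no .no) .no)) .no (.sw 0 3 [30]) .no) .no .no) .no .no (.br (.br .no .no (.br .no .no .no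 (.de 44)) .no) (.de 42) .no .no))) .no (.de 34)) .no .no .no) .no .no)) .no) .no .no) .no .no .no) .no)) (.br .no .no (.br .no (.br (.br (.br .no .no (.br (.br .no (.br (.sw 2 3 [24,25]) .no .no (.br .no .no (.br .no (.sw 0 3 [12,19,20,27]) .no (.br .no (.br .no .no .no (.de 42)) .no (.br .no (.de 42) .no .no))) .no)) .no .no) .no .no .no) .no) (.br (.br .no .no (.br (.br .no .no .no (.br .no .no (.br .no .no .no (.br .no .no (.br .no (.br .no .no .no (.br .no (.br (.br .no (.br (.sy 38 225 3) .no .no .no) .no .no) .no .no .no) (.de 44) .no)) .no (.br .no (.br .no .no (.br (.br .no (.br (.br .no (.br .no .no (.br .no .no .no (.br .no (.br .no .no .no (.br .no .no (.br .no .no .no (.sw 0 3 [12,19,20,27,34,41,48])) .no)) .no .no)) .no) .no .no) .no .no .no) .no .no) (.br (.de 41) .no .no .no) .no .no) .no) .no .no)) (.br .no (.de 42) .no .no))) .no)) (.br (.br .no .no (.br .no .no .no (.br .no .no (.br .no (.br (.sw 2 3 [24,25,30]) .no .no (.br .no .no (.de 44) .no)) .no (.br (.br .no .no (.br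 .no (.br (.de 41) .no .no .no) .no (.br (.de 41) (.de 46) .no .no)) (.br .no (.de 45) .no .no)) .no .no .no)) (.br .no (.de 42) .no .no))) (.de 34)) .no .no (.br .no .no (.br .no .no .no (.br .no .no (.br .no (.br (.br .no .no (.br (.br .no (.br (.br .no .no .no (.de 48)) .no .no .no) .no .no) (.sw 0 3 [32]) .no .no) .no) .no .no (.br (.br .no (.br (.de 41) .no .no .no) .no .no) .no (.de 44) .no)) .no (.br (.br .no .no (.br (.br .no (.br (.br .no (.br .no .no (.br .no .no .no (.sw 0 1 [31,37])) .no) .no .no) .no .no .no) .no .no) (.sw 0 3 [32]) .no .no) .no) .no .no .no)) (.br .no (.de 42) .no .no))) .no)) .no .no) .no) .no (.br (.br .no (.br (.sw 2 3 [24,25]) .no .no (.br .no .no (.br .no .no .no (.br (.br .no (.br .no .no (.br (.br .no (.br (.br .no .no (.br .no .no .no (.de 43)) .no) .no .no .no) .no .no) .no .no .no) (.br (.br .no (.br (.br .no .no (.br .no .no .no (.de 48)) .no) .no .no .no) .no .no) .no (.de 44) .no)) .no (.br .no .no (.de 43) .no)) .no .no (.br .no (.de 42) .no .no)))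 .no)) .no .no) .no .no .no) .no) .no .no) .no .no .no) .no .no) .no)) .no .no))

def c4_2_1 : Cert := (.br .no .no (.br .no (.br (.br .no .no (.br .no (.sw 0 3 [12,18]) .no (.br (.de 27) (.br (.br (.br .no .no (.br .no (.br (.br .no .no (.br .no .no .no (.br .no (.br .no (.br (.br .no .no (.br .no (.sw 0 3 [12,18,25,31]) .no (.de 44)) (.br .no (.br (.br .no .no (.br .no .no .no (.de 47)) .no) .no .no .no) .no .no)) .no .no (.de 42)) .no (.br (.br .no .no (.br .no (.sw 0 3 [12,18,25,31]) .no (.de 44)) (.br .no (.br (.br .no .no (.de 41) .no) .no .no .no) .no .no)) .no .no .no)) .no .no)) .no) .no .no .no) .no (.br (.br .no .no (.br .no .no .no (.br .no (.br .no (.br (.br .no (.br .no .no .no (.br (.br .no .no (.br .no .no .no (.de 47)) .no) (.de 45) .no .no)) (.sw 1 3 [30]) .no) .no .no .no) .no (.br (.br .no (.br .no .no .no (.br (.br .no .no (.de 41) .no) (.de 45) .no .no)) (.sw 1 3 [30]) .no) (.de 42) .no .no)) .no .no)) .no) (.br (.br .no .no (.br .no (.sw 0 3 [20,27]) .no (.br .no (.br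 (.br .no .no (.br .no .no .no (.de 44)) .no) .no .no .no) .no (.br (.br .no .no (.br .no .no .no (.de 44)) .no) (.de 42) .no .no))) (.br .no (.br .no (.br (.br .no .no (.br .no .no .no (.de 44)) .no) .no .no .no) .no (.br (.br .no .no (.br .no .no .no (.de 44)) .no) (.de 42) .no .no)) .no .no)) .no (.sw 0 3 [12,18,25]) .no) .no .no)) (.br .no (.br (.br .no .no (.br .no .no .no (.br .no (.br .no (.br (.sw 2 3 [29]) .no (.br .no .no .no (.de 43)) .no) (.br (.br .no .no (.br .no (.sw 0 3 [12,18,25,31]) .no (.de 44)) (.br .no (.br (.br .no .no (.br .no .no .no (.de 47)) .no) .no .no .no) .no .no)) .no .no .no) .no) .no .no)) .no) .no .no .no) .no .no)) .no .no (.br .no .no (.br .no (.br (.br .no .no (.br .no .no .no (.br .no (.br (.br .no .no .no (.br .no .no (.de 43) .no)) (.br (.br .no .no (.br .no (.sw 0 3 [12,18,25,31]) .no (.de 44)) (.br .no (.br (.br .no .no (.br (.br .no .no .no (.de 48)) .no .no .no) .no) .no .no .no) .no .no)) .no .no (.de 42)) .no .no) .no .no)) .no) .no .no .no) .no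 (.br (.br .no .no (.br .no .no .no (.br .no (.br (.br .no (.br .no .no (.br .no (.sw 0 3 [12,18,23,25,30,31]) .no (.de 44)) .no) .no .no) (.br (.br .no (.br .no .no .no (.br (.br .no .no (.br (.sy 41 228 3) .no .no .no) .no) (.de 45) .no .no)) (.sw 1 3 [30]) .no) .no .no .no) .no .no) .no .no)) .no) (.br (.br .no .no (.br .no (.sw 0 3 [20,27]) .no .no) (.br .no (.br (.br .no (.br (.br .no .no (.br .no (.br (.sw 2 3 [33]) .no (.de 41) .no) .no .no) (.br .no (.de 45) (.br (.br .no .no (.sy 39 201 3) .no) .no .no .no) .no)) .no (.br .no .no .no (.de 44)) .no) .no .no) (.br (.br .no .no (.br .no .no .no (.de 44)) .no) .no .no .no) .no .no) .no .no)) .no (.sw 0 3 [12,18,25]) .no) .no .no)) .no)) .no .no .no) .no .no)) (.br .no (.br (.de 27) .no .no .no) .no .no)) .no .no (.br .no .no (.br .no (.sw 0 3 [12,18]) .no (.sw 0 1 [17,18])) .no)) .no (.br (.br .no .no (.br .no (.sw 0 3 [12,18]) .no (.br (.de 27) (.br (.br (.br .no (.br .no .no .no (.br (.br .no .no (.br .no .no .no (.br .no (.br .no .no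 (.br (.br .no (.br .no .no .no (.br (.br .no .no (.br .no .no .no (.de 47)) .no) (.de 45) .no .no)) (.sw 1 3 [22,29,30]) .no) .no .no .no) (.br (.br .no (.br .no .no .no (.br (.br .no .no (.de 41) .no) (.de 45) .no .no)) (.br .no (.br (.br .no .no (.de 41) .no) .no .no .no) .no (.de 44)) .no) .no (.br .no (.br .no .no .no (.br (.br .no .no (.de 41) .no) (.de 45) .no .no)) .no .no) .no)) .no .no)) .no) (.br (.br .no .no (.br .no (.sw 0 3 [20,27]) .no (.br .no .no (.br (.br .no .no (.br .no .no .no (.de 44)) .no) .no .no .no) (.br (.br .no .no (.br .no .no .no (.de 44)) .no) .no (.br (.br .no .no (.br .no (.sw 0 3 [12,18,25,32]) .no (.br (.br .no (.br .no (.br .no .no .no (.de 44)) .no .no) (.sw 1 3 [34]) .no) (.de 46) .no .no)) (.br .no (.de 45) .no .no)) .no .no .no) .no))) (.br .no (.br .no .no (.br (.br .no .no (.br .no .no .no (.de 44)) .no) .no .no .no) (.br (.br .no .no (.br .no .no .no (.de 44)) .no) .no (.br (.br .no .no (.br .no (.br (.sw 2 3 [33]) .no (.de 41) .no) .no .no) (.br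 .no (.de 45) (.br (.br .no .no (.br .no (.br .no .no .no (.br .no .no (.br .no (.br .no .no .no (.de 47)) .no .no) .no)) .no .no) .no) .no .no .no) .no)) .no .no .no) .no)) .no .no)) .no (.sw 0 3 [12,18,25]) .no) .no .no)) (.sw 1 3 [22]) .no) (.br .no .no (.br .no (.br (.br .no .no (.br .no .no .no (.de 34)) .no) .no .no .no) .no (.sw 0 1 [17,18,23])) .no) .no .no) .no .no .no) .no .no)) (.br .no (.br (.de 27) .no .no .no) .no .no)) .no .no .no)) (.br .no (.br (.br .no .no (.br .no (.sw 0 3 [12,18]) .no (.br (.br .no .no (.br (.br .no .no (.br .no (.br (.br .no (.br .no .no .no (.br .no (.br .no (.br (.br .no .no (.br .no .no .no (.de 44)) (.br .no .no (.de 44) .no)) .no .no (.de 42)) .no (.br (.br .no .no (.br .no .no .no (.de 44)) (.br .no .no (.de 44) .no)) .no .no .no)) .no .no)) (.sw 1 3 [25]) .no) .no .no .no) .no (.br (.br .no (.br .no .no .no (.br .no (.br .no (.br (.br .no (.br .no .no (.br (.br .no .no (.br .no .no .no (.de 47)) .no) .no .no .no) (.br (.br .no .no (.br .no .no .no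 (.de 47)) .no) .no (.br (.br .no .no (.br .no .no .no (.br .no .no (.de 44) .no)) (.br .no .no .no (.br .no .no (.de 44) .no))) .no .no .no) .no)) (.sw 1 3 [30]) .no) .no .no .no) .no (.br (.br .no (.br .no .no (.br (.br .no .no (.de 41) .no) .no .no .no) (.br (.br .no .no (.de 41) .no) .no (.br (.br .no .no (.br .no (.br .no .no (.de 44) (.br .no .no (.br .no (.br .no .no .no (.de 47)) .no .no) .no)) .no .no) .no) .no .no .no) .no)) (.sw 1 3 [30]) .no) (.de 42) .no .no)) .no .no)) (.sw 1 3 [25]) .no) (.br .no .no (.br .no (.de 34) .no (.br .no (.br .no (.br (.br .no .no (.br (.sw 1 3 [25,30,31]) .no .no (.de 44)) .no) .no .no .no) .no (.br (.br .no .no (.br (.sw 1 3 [25,30,31]) .no .no (.de 44)) .no) (.de 42) .no .no)) .no .no)) .no) .no .no)) (.br .no (.br (.br .no (.br .no .no .no (.br .no (.br .no (.br (.sw 2 3 [29]) .no (.br .no .no .no (.de 43)) .no) (.br (.br .no .no (.br .no .no .no (.de 44)) (.br .no .no (.de 44) .no)) .no .no .no) .no) .no .no)) (.sw 1 3 [25]) .no) .no .no .no)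 .no .no)) .no (.br .no .no .no (.br .no (.br (.br .no (.br .no .no .no (.br (.br (.br .no .no (.br .no .no .no (.de 43)) .no) (.br (.br .no .no (.br .no .no .no (.de 44)) (.br .no .no (.de 44) .no)) .no (.br .no .no .no (.de 43)) .no) .no .no) (.br (.br .no .no (.br .no .no .no (.de 43)) .no) (.br (.br .no .no (.br .no .no .no (.de 44)) (.br .no .no (.de 44) .no)) .no (.br .no .no .no (.de 43)) .no) .no .no) .no .no)) (.sw 1 3 [25]) .no) .no .no .no) .no .no)) .no) .no) (.br (.br (.br .no .no (.br .no (.br (.br .no .no (.br .no .no .no (.br .no (.sw 2 3 [21]) (.br .no (.br (.br .no .no (.br .no (.sw 0 3 [12,18,25,31]) .no (.de 44)) (.br .no (.br (.br .no (.br .no .no .no (.br .no .no .no (.br .no .no (.de 44) .no))) .no .no) .no .no .no) .no .no)) .no .no (.de 42)) .no (.br (.br .no .no (.br .no (.sw 0 3 [12,18,25,31]) .no (.de 44)) (.br .no (.br (.br .no (.de 41) .no .no) .no .no .no) .no .no)) .no .no .no)) .no)) .no) .no .no .no) .no (.br (.br .no .no (.br .no .no .no (.br .no (.sw 2 3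 [21]) (.br .no (.br (.br .no (.br .no .no .no (.br (.br .no (.br .no .no .no (.br .no .no .no (.br .no .no (.de 44) .no))) .no .no) (.de 45) .no .no)) (.sw 1 3 [30]) .no) .no .no .no) .no (.br (.br .no (.br .no .no .no (.br (.br .no (.de 41) .no .no) (.de 45) .no .no)) (.sw 1 3 [30]) .no) (.de 42) .no .no)) .no)) .no) (.br (.br .no .no (.br .no (.sw 2 3 [21]) .no .no) (.br .no (.sw 2 3 [21]) (.br .no (.br (.br .no .no (.br .no .no .no (.de 44)) .no) .no .no .no) .no (.br (.br .no .no (.br .no .no .no (.de 44)) .no) (.de 42) .no .no)) .no)) .no (.sw 0 3 [12,18,25]) .no) .no .no)) (.br .no (.br (.br .no .no (.br .no .no .no (.br .no (.sw 2 3 [21]) (.br .no (.br (.sw 2 3 [29]) .no (.br .no .no .no (.de 43)) .no) (.br (.br .no .no (.br .no (.sw 0 3 [12,18,25,31]) .no (.de 44)) (.br .no (.br (.br .no (.br .no .no .no (.br .no (.br .no .no (.de 44) .no) .no (.br .no .no (.de 44) .no))) .no .no) .no .no .no) .no .no)) .no .no .no) .no) .no)) .no) .no .no .no) .no .no)) .no (.br .no .no .no (.br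 .no (.br (.br .no .no (.br .no .no .no (.br .no (.br (.br .no .no (.br .no .no .no (.de 43)) .no) (.br (.br .no .no (.br .no (.sw 0 3 [12,18,25,31]) .no (.de 44)) (.br .no (.br (.br .no .no (.br (.sw 2 3 [21,28,29]) .no .no (.de 47)) .no) .no .no .no) .no .no)) .no (.br .no .no .no (.de 43)) .no) .no .no) .no .no)) .no) .no .no .no) .no .no)) .no) .no (.sw 0 3 [20]) .no) .no .no)) (.br .no (.br (.br .no .no (.br (.br .no .no (.br .no (.br (.sw 2 3 [24]) .no (.sw 0 3 [12,18,23,24]) .no) .no .no) (.br .no (.br (.sw 2 3 [24]) .no (.br .no .no .no (.br .no (.de 34) .no .no)) .no) (.br (.br .no .no (.br .no (.de 34) .no (.br .no (.br .no (.br (.br .no (.sw 2 3 [24,29,30]) .no (.sw 1 2 [30])) .no .no .no) (.br (.br .no (.br .no .no .no (.br (.br .no .no (.br .no .no .no (.de 47)) .no) (.de 45) .no .no)) .no (.sw 1 2 [30])) (.br .no .no .no (.br .no (.br (.br .no .no (.br .no .no .no (.de 47)) .no) .no .no .no) .no .no)) .no .no) .no) .no .no)) (.br .no (.de 34) .no .no)) .no .no .no) .no)) .no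 (.br .no .no .no (.br .no (.br (.sw 2 3 [24]) .no (.br .no .no .no (.br .no (.br (.br (.br .no .no (.br (.br .no (.br (.sw 2 3 [24,31,32]) .no (.sw 0 3 [20,26,32]) .no) .no .no) .no .no (.de 43)) .no) (.br (.br .no .no .no (.br (.br .no .no (.br .no .no .no (.de 41)) .no) (.sw 0 2 [31]) .no .no)) .no (.sw 0 3 [12,18,23,24,29]) .no) .no .no) .no .no .no) .no .no)) .no) (.br (.br .no .no (.br .no (.sw 0 3 [20,26]) .no (.br (.br (.br .no (.br .no .no .no (.br .no (.br (.br .no (.br .no .no .no (.de 48)) (.sw 1 3 [33]) .no) .no .no .no) .no .no)) .no .no) (.br (.br .no (.br .no .no .no (.br (.br .no (.br .no .no .no (.br .no .no .no (.br .no .no (.de 44) .no))) (.sw 1 3 [33]) .no) (.de 45) .no .no)) .no (.sw 1 2 [30])) .no .no .no) .no .no) (.br (.br .no (.br .no .no .no (.br .no (.br (.br .no .no (.br .no .no .no (.de 47)) .no) .no .no .no) .no .no)) .no .no) (.br (.br .no (.br .no .no .no (.br (.br .no .no (.br (.sy 41 228 3) .no .no (.de 47)) .no) (.de 45) .no .no)) .no (.sw 1 2 [30])) .no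 .no .no) .no .no) .no .no)) (.br .no (.br (.br (.br .no (.br .no .no .no (.br .no (.br (.sw 2 3 [32]) .no (.br .no .no .no (.br .no (.br .no .no .no (.de 48)) .no .no)) .no) (.de 44) .no)) .no .no) (.br (.br .no (.br .no .no (.br (.br .no .no (.br .no .no .no (.de 47)) (.de 41)) .no .no .no) .no) .no (.sw 1 2 [30])) .no .no .no) .no .no) .no .no .no) .no .no)) .no .no .no) .no)) .no) .no) .no .no .no) .no .no)) .no .no (.br .no .no (.br .no (.sw 0 3 [12,18]) .no (.sw 0 1 [17,18])) .no)) .no .no))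

theorem P4_2 : R.S 13 62366852 :=
  R.piece L hL (.br .no (.br (.br .no .no (.br (.br .no (.br (.br .no .no (.br .no .no .no (.sy 8 39 12)) .no) .no .no .no) .no .no) .no .no .no) .no) (.br (.br .no .no (.br (.br .no (.br (.br .no .no .no (.br .no .no c4_2_0 (.br .no (.br .no .no .no (.br .no .no (.br .no .no .no (.br .no (.br (.br (.br .no .no (.br (.br .no (.br (.br .no .no (.br .no (.sw 2 3 [21]) .no .no) (.br .no (.sw 2 3 [21]) (.sy 34 201 3) .no)) .no (.br .no .no .no (.br .no (.sw 2 3 [21]) (.sy 34 201 3) .no)) .no) .no .no) (.br (.br .no .no (.br .no .no .no (.br .no (.sw 2 3 [21]) (.br .no (.br (.br .no .no (.br .no (.br (.br .no (.br .no .no .no (.br .no .no .no (.de 43))) .no .no) .no .no .no) .no (.de 44)) (.br .no (.br (.br .no (.br .no .no .no (.br .no .no .no (.br .no .no (.de 44) .no))) .no .no) .no .no .no) .no .no)) .no .no (.de 42)) .no (.br (.br .no .no (.br .no (.br (.br .no (.de 41) .no .no) .no .no .no) .no (.de 44)) (.br .no (.br (.br .no (.de 41) .no .no) .no .no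 .no) .no .no)) .no .no .no)) .no)) .no) .no .no .no) .no .no) .no) .no (.br (.br .no (.br (.br .no .no (.br .no .no .no (.br .no (.br .no (.br .no .no (.br .no .no .no (.de 43)) (.de 42)) .no (.br .no .no (.br .no .no .no (.de 43)) .no)) .no .no)) .no) .no .no .no) .no .no) .no .no .no) .no) .no (.br (.br .no .no (.br (.br .no (.br (.br .no .no .no (.br .no (.sw 0 2 [27]) .no .no)) .no (.sw 0 3 [12,19,20,25]) .no) .no .no) (.br (.br .no .no (.br (.br .no (.br .no (.br (.br .no .no (.br .no (.sw 0 3 [12,19,20,25,31]) .no (.de 44)) (.br .no (.br .no .no .no (.de 45)) .no .no)) .no .no (.de 42)) .no (.br (.br .no .no (.br .no (.sw 0 3 [12,19,20,25,31]) .no (.de 44)) (.br .no (.br .no .no .no (.de 45)) .no .no)) .no .no .no)) .no .no) .no .no (.br .no (.sw 0 2 [27]) .no .no)) .no) .no .no .no) .no .no) .no) .no (.br (.br .no (.br (.br .no .no (.br (.br .no (.br .no (.br .no .no (.br .no .no .no (.de 43)) (.de 42)) .no (.sy 21 39 14)) .no .no) .no .no (.sy 21 39 12)) .no) .no .no .no) .no .no)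 .no .no .no) .no) .no) (.sy 23 30 3) .no)) .no)) .no .no))) .no (.sw 0 3 [12]) .no) .no .no) (.br (.br .no .no (.br (.br .no .no (.br .no (.br (.br .no .no (.br .no (.sw 0 3 [12,18]) .no (.br .no (.br .no .no .no (.br (.br .no .no (.br .no (.br (.br .no .no (.br (.br .no (.br .no (.br (.br .no .no (.br .no (.sw 0 3 [12,18,25,31]) .no (.de 44)) (.br .no (.br .no .no .no (.de 45)) .no .no)) .no .no (.de 42)) .no (.br (.br .no .no (.br .no (.sw 0 3 [12,18,25,31]) .no (.de 44)) (.br .no (.br .no .no .no (.de 45)) .no .no)) .no .no .no)) .no .no) .no .no .no) .no) .no .no .no) .no (.br (.br .no .no (.br (.br .no (.br .no (.br (.br .no (.br .no .no .no (.br .no (.de 45) .no .no)) (.sw 1 3 [30]) .no) .no .no .no) .no (.br (.br .no (.br .no .no .no (.br .no (.de 45) .no .no)) (.sw 1 3 [30]) .no) (.de 42) .no .no)) .no .no) .no .no .no) .no) (.br (.br .no .no (.br .no (.br .no (.br (.br .no .no (.br .no .no .no (.de 44)) .no) .no .no .no) .no (.br (.br .no .no (.br .no .no .no (.de 44)) .no) (.de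 42) .no .no)) .no .no) .no) .no (.sw 0 3 [12,18,25]) .no) .no .no)) (.br .no (.br (.br .no .no (.br (.br .no (.br .no (.br (.sw 2 3 [29]) .no (.br .no .no .no (.de 43)) .no) (.br (.br .no .no (.br .no (.sw 0 3 [12,18,25,31]) .no (.de 44)) (.br .no (.br .no .no .no (.de 45)) .no .no)) .no .no .no) .no) .no .no) .no .no .no) .no) .no .no .no) .no .no)) .no .no (.br .no .no (.br .no (.br (.br .no .no (.br (.br .no (.br (.br .no .no .no (.br .no .no (.de 43) .no)) (.br (.br .no .no (.br .no (.sw 0 3 [12,18,25,31]) .no (.de 44)) (.br .no (.br .no .no .no (.de 45)) .no .no)) .no .no (.de 42)) .no .no) .no .no) .no .no .no) .no) .no .no .no) .no (.br (.br .no .no (.br (.br .no (.br (.br .no (.br .no .no (.br .no (.sw 0 3 [12,18,23,25,30,31]) .no (.de 44)) .no) .no .no) (.br (.br .no (.br .no .no .no (.br .no (.de 45) .no .no)) (.sw 1 3 [30]) .no) .no .no .no) .no .no) .no .no) .no .no .no) .no) (.br (.br .no .no (.br (.br (.br .no (.br (.br .no .no (.br .no (.sw 0 3 [12,18,25,32]) .no (.br .no (.de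 46) .no .no)) (.br .no (.de 45) .no .no)) .no (.br .no .no .no (.de 44)) .no) .no .no) (.br (.br .no .no (.br .no .no .no (.de 44)) .no) .no .no .no) .no .no) (.br (.br .no (.br (.br .no .no (.br .no (.sw 0 3 [12,18,25,32]) .no (.br (.br .no .no (.br .no .no .no (.de 48)) .no) .no .no .no)) (.br .no (.de 45) .no .no)) .no (.br .no .no .no (.de 44)) .no) .no .no) (.br (.br .no .no (.br .no .no .no (.de 44)) .no) .no .no .no) .no .no) .no .no) .no) .no (.sw 0 3 [12,18,25]) .no) .no .no)) .no))) .no .no)) (.br .no (.br .no .no .no (.de 27)) .no .no)) .no .no (.br .no .no (.br .no (.sw 0 3 [12,18]) .no (.sw 0 1 [17,18])) .no)) .no (.br (.br .no .no (.br .no (.sw 0 3 [12,18]) .no (.br .no (.br .no .no .no (.br (.br .no (.br .no .no .no (.br (.br .no .no (.br (.br .no (.sy 33 228 3) .no .no) .no .no .no) .no) (.br (.br .no .no (.br .no (.br .no .no (.br (.br .no .no (.br .no .no .no (.de 44)) .no) .no .no .no) (.br (.br .no .no (.br .no .no .no (.de 44)) .no) .no (.br (.br .no .no (.br .no (.sw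 0 3 [12,18,25,32]) .no (.br (.br .no .no (.br .no (.br .no .no .no (.de 44)) .no .no) .no) .no .no .no)) (.br .no (.de 45) .no .no)) .no .no .no) .no)) .no .no) .no) .no (.sw 0 3 [12,18,25]) .no) .no .no)) (.sw 1 3 [22]) .no) (.br .no .no (.br .no (.br (.br .no .no (.br (.de 34) .no .no .no) .no) .no .no .no) .no (.sw 0 1 [17,18,23])) .no) .no .no)) .no .no)) (.br .no (.br .no .no .no (.de 27)) .no .no)) .no .no .no)) (.br .no (.br (.br .no .no (.br .no (.sw 0 3 [12,18]) .no (.br .no (.br .no .no (.br (.br .no .no (.br .no (.br (.br .no .no (.br (.sw 1 3 [25,26]) .no .no (.br .no (.br .no (.br (.br .no .no (.br .no (.sw 0 3 [12,18,25,31]) .no (.de 44)) (.br .no (.br (.br .no .no (.br .no .no .no (.de 47)) .no) .no .no .no) .no .no)) .no .no (.de 42)) .no (.br (.br .no .no (.br .no (.sw 0 3 [12,18,25,31]) .no (.de 44)) (.br .no (.br (.br .no .no (.de 41) .no) .no .no .no) .no .no)) .no .no .no)) .no .no)) .no) .no .no .no) .no (.br (.br .no .no (.br (.sw 1 3 [25,26]) .no .no (.br .no (.br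 .no (.br (.br .no (.br .no .no .no (.br (.br .no .no (.br .no .no .no (.de 47)) .no) (.de 45) .no .no)) (.sw 1 3 [30]) .no) .no .no .no) .no (.br (.br .no (.br .no .no .no (.br (.br .no .no (.de 41) .no) (.de 45) .no .no)) (.sw 1 3 [30]) .no) (.de 42) .no .no)) .no .no)) .no) (.br (.br .no .no .no (.br .no (.br .no (.br (.br .no .no (.br .no .no .no (.de 44)) .no) .no .no .no) .no (.br (.br .no .no (.br .no .no .no (.de 44)) .no) (.de 42) .no .no)) .no .no)) .no (.sw 0 3 [12,18,25]) .no) .no .no)) (.br .no (.br (.br .no .no (.br (.sw 1 3 [25,26]) .no .no (.br .no (.br .no (.br (.sw 2 3 [29]) .no (.br .no .no .no (.de 43)) .no) (.br (.br .no .no (.br .no (.sw 0 3 [12,18,25,31]) .no (.de 44)) (.br .no (.br (.br .no .no (.br .no .no .no (.de 47)) .no) .no .no .no) .no .no)) .no .no .no) .no) .no .no)) .no) .no .no .no) .no .no)) .no (.br .no .no .no (.br .no (.br (.br .no .no (.br (.sw 1 3 [25,26]) .no .no (.br (.br (.br .no .no (.br .no .no .no (.de 43)) .no) (.br (.br .no .no (.br .no (.sw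 0 3 [12,18,25,31]) .no (.de 44)) (.br .no (.br (.br .no (.br .no .no .no (.br .no .no .no (.br .no .no (.de 44) .no))) (.sw 1 3 [25,26,33]) .no) .no .no .no) .no .no)) .no (.br .no .no .no (.de 43)) .no) .no .no) (.br (.br .no .no (.br .no .no .no (.de 43)) .no) (.br (.br .no .no (.br .no (.sw 0 3 [12,18,25,31]) .no (.de 44)) (.br .no (.br (.br .no .no (.br (.br .no .no .no (.de 48)) .no .no (.de 47)) .no) .no .no .no) .no .no)) .no (.br .no .no .no (.de 43)) .no) .no .no) .no .no)) .no) .no .no .no) .no .no)) .no) .no) .no .no)) (.br .no (.br .no .no .no (.br .no .no (.sy 18 216 12) .no)) .no .no)) .no .no (.br .no .no (.br .no (.sw 0 3 [12,18]) .no (.sw 0 1 [17,18])) .no)) .no .no)) .no .no c4_2_1) .no) .no .no .no) .no .no) .no) .no (.br (.br .no (.br (.br .no .no (.br (.br (.br .no (.br .no .no (.br .no .no .no (.br .no (.br .no .no .no (.br .no .no (.sy 16 228 12) .no)) .no .no)) (.sy 8 39 15)) .no (.sy 8 39 14)) .no .no (.br .no (.br .no .no (.br .no .no .no (.br .no (.br .no .no .no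 (.br .no .no (.br (.br .no .no .no (.sy 8 39 21)) .no (.br (.br .no (.br (.sy 16 228 15) .no (.sw 0 3 [12,18,24]) .no) .no .no) .no .no (.sy 8 39 21)) .no) .no)) .no .no)) (.sw 0 2 [15,16])) .no .no)) .no .no (.sy 8 39 12)) .no) .no .no .no) .no .no) .no .no .no) .no) .no .no) .no .no) 13 62366852 67108864 (by norm_num) (by norm_num) (by norm_num) (by decide +kernel)

def c4_3_0 : Cert := (.br .no (.br .no .no (.br (.br .no (.br .no .no .no (.br .no .no (.br .no .no .no (.br (.br .no (.br .no .no (.br (.de 34) .no .no .no) (.br (.de 34) .no (.br (.br (.br .no (.br .no .no (.br (.br .no (.br .no .no .no (.de 46)) .no .no) .no .no .no) (.br (.br .no (.br .no .no .no (.de 46)) .no .no) .no (.de 44) .no)) (.br .no .no .no (.de 43)) .no) (.br .no .no (.br .no .no .no (.de 43)) .no) .no .no) .no .no .no) .no)) .no (.br .no .no (.br (.de 34) .no .no .no) .no)) .no .no .no)) (.br .no .no (.br (.br .no (.br .no .no (.br (.br .no .no (.br (.br .no (.br .no .no (.br (.br .no (.br .no .no .no (.de 46))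 .no (.br .no (.de 41) .no .no)) .no .no (.de 44)) (.br (.br .no (.br .no .no .no (.de 46)) .no (.br .no (.de 41) .no .no)) .no .no .no)) .no (.br .no .no (.de 43) .no)) (.br .no .no .no (.de 42)) .no .no) .no) .no .no .no) (.br (.br .no .no (.br (.br .no (.br .no .no (.br (.br .no (.sw 2 3 [32]) (.br .no (.de 41) .no (.br .no (.br .no .no .no (.de 43)) .no .no)) .no) .no .no .no) (.br (.br .no (.sw 2 3 [32]) (.br .no (.de 41) .no (.br .no (.br .no .no .no (.de 48)) .no .no)) .no) .no (.de 44) .no)) .no (.br .no .no (.de 43) .no)) (.br .no .no .no (.de 42)) .no .no) .no) .no (.br (.br (.br .no (.br .no .no (.br (.br .no (.br .no .no .no (.de 46)) .no .no) .no .no .no) (.br (.br .no (.br .no .no .no (.de 46)) .no .no) .no (.de 44) .no)) .no (.br .no .no (.de 43) .no)) (.br .no .no .no (.de 42)) .no .no) .no .no .no) .no)) .no (.br .no .no (.br (.br .no .no (.br (.br .no (.br .no .no (.br (.sw 1 3 [31]) (.br .no .no .no (.de 45)) .no .no) .no) .no (.br .no (.br (.br .no (.br .no .no .no (.de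 46)) .no (.sy 32 141 7)) .no .no .no) (.de 43) .no)) (.br .no .no .no (.de 42)) .no .no) .no) .no .no .no) .no)) .no .no (.br .no (.br .no .no (.br (.br .no .no (.sy 34 78 3) .no) .no .no .no) (.br (.br .no .no (.sy 34 78 3) .no) .no (.br (.br (.br .no (.br (.br .no .no (.br (.br .no (.br .no .no (.br .no .no .no (.de 48)) .no) .no (.br .no (.sy 41 225 3) (.de 47) .no)) (.br .no .no .no (.de 46)) .no .no) .no) .no (.sw 0 3 [30]) .no) .no .no) (.br (.br .no .no (.br (.br .no (.br .no .no .no (.de 46)) .no .no) .no .no .no) .no) .no .no .no) .no .no) .no .no .no) .no)) .no .no)) .no))) .no .no) .no .no .no) (.br (.br .no (.br .no .no .no (.br .no .no (.br .no .no .no (.br (.br .no (.sw 2 3 [24]) (.br .no .no .no (.br (.de 34) .no (.br (.br (.br .no (.br .no .no .no (.br (.sw 1 2 [31]) (.br (.br .no (.br .no .no .no (.de 48)) .no (.br .no (.br .no .no .no (.de 48)) .no .no)) .no .no .no) .no .no)) (.br .no (.br (.sy 31 78 7) .no .no .no) .no (.de 43)) .no) (.br .no .no (.br .no (.br (.sy 31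 78 7) .no .no .no) .no (.de 43)) .no) .no .no) .no .no .no) .no)) .no) .no (.br .no (.br .no .no (.br (.de 34) .no .no .no) (.br (.de 34) .no (.br (.br (.br .no (.br (.br .no .no (.br (.br .no (.br .no .no .no (.de 48)) .no (.br .no (.sw 2 3 [24,28,29,30]) .no .no)) (.br .no .no .no (.de 46)) .no .no) .no) .no .no (.sw 0 2 [30])) .no .no) (.br (.br .no .no .no (.br (.br .no (.br .no .no .no (.de 41)) .no .no) .no (.de 44) .no)) .no .no .no) .no .no) .no .no .no) .no)) .no .no) .no)) (.br .no .no (.br (.br .no (.sw 2 3 [24]) (.br .no .no .no (.br (.sy 26 114 7) .no (.br (.br (.br .no (.br .no .no .no (.br (.sw 1 2 [31]) (.br (.br .no (.br .no .no (.br .no .no .no (.de 48)) .no) .no (.br .no (.sw 2 3 [28,29]) (.de 47) .no)) .no .no .no) .no .no)) .no (.sy 29 141 7)) (.br .no .no .no (.de 42)) .no .no) .no .no .no) .no)) .no) .no .no .no) .no))) .no .no) .no (.br (.br .no .no .no (.br .no .no (.br .no .no .no (.br (.br .no (.br .no .no .no (.br .no (.br (.br (.br .no (.br .no .no (.br (.br .no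 .no (.br .no .no .no (.br .no (.br .no .no .no (.de 43)) .no .no)) .no) .no .no .no) (.br (.br .no .no (.br .no .no .no (.br .no (.br .no .no .no (.de 48)) .no .no)) .no) .no (.de 44) .no)) (.br .no .no .no (.de 43)) .no) (.br .no .no (.br .no .no .no (.de 43)) .no) .no .no) .no .no .no) (.br (.br (.br .no (.br .no .no (.br (.br .no (.br .no .no .no (.de 46)) .no .no) .no .no .no) (.br (.br .no (.br .no .no .no (.de 46)) .no .no) .no (.de 44) .no)) (.br .no .no .no (.de 43)) .no) (.br .no .no (.br .no .no .no (.de 43)) .no) .no .no) .no .no .no) .no)) .no .no) .no (.br (.br .no (.br .no .no (.br (.br (.br .no (.br .no .no .no (.br .no .no (.de 44) .no)) .no .no) (.br (.br .no (.br .no .no (.br (.br .no (.br .no .no .no (.br .no .no .no (.br .no .no (.br .no .no .no (.br .no (.br .no .no .no (.br .no .no (.br .lf .no .no .no) .no)) .no .no)) .no))) .no (.de 41)) .no .no (.br .no (.de 46) .no .no)) (.br (.br .no (.br .no .no .no (.br .no .no .no (.br .no .no (.de 44) .no))) .no (.de 41)) .no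 .no .no)) .no (.br .no .no (.de 44) .no)) .no .no .no) .no .no) .no .no .no) .no) .no (.br .no (.br (.br (.br .no (.br .no .no .no (.br .no (.br (.br .no .no (.br .no (.br .no .no .no (.de 48)) .no (.de 47)) (.br .no (.br .no .no .no (.de 48)) .no .no)) .no (.br .no .no .no (.br .no (.br .no .no .no (.de 48)) .no .no)) .no) (.de 44) .no)) .no .no) (.br (.br .no (.br .no .no (.br (.br .no .no (.br .no .no .no (.de 47)) (.de 41)) .no .no .no) .no) .no (.br .no (.br (.br .no .no (.br .no .no .no (.de 47)) (.de 41)) .no (.br .no .no .no (.de 41)) .no) (.de 44) .no)) .no .no .no) .no .no) .no .no .no) (.br (.br (.br .no (.br .no .no .no (.br .no (.br (.br .no (.br .no .no .no (.de 48)) .no (.sw 1 2 [33])) .no .no .no) (.de 44) .no)) .no .no) (.br (.br .no (.br .no .no (.br (.sw 1 3 [32]) (.br .no .no .no (.de 41)) .no .no) .no) .no (.br .no (.br (.br .no (.br .no .no .no (.br .no .no .no (.br .no .no (.de 44) .no))) .no (.de 41)) .no .no .no) (.de 44) .no)) .no .no .no) .no .no) .no .no .no) .no))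 (.br .no .no .no (.br .no (.br (.br (.br .no (.br (.br .no .no (.br (.br .no .no (.sy 37 216 3) (.br .no (.sy 41 225 3) .no .no)) .no .no .no) .no) .no .no (.sw 0 2 [30])) .no .no) (.br (.br .no .no .no (.br (.br .no .no (.br .no .no .no (.de 41)) .no) .no (.de 44) .no)) .no .no .no) .no .no) .no .no .no) (.br (.br (.br .no (.br (.br .no .no (.br (.br .no (.br .no .no .no (.de 48)) .no (.sw 1 2 [33])) (.br .no .no .no (.de 46)) .no .no) .no) .no .no (.sw 0 2 [30])) .no .no) (.br (.br .no .no .no (.br (.br .no (.br .no .no .no (.de 41)) .no .no) .no (.de 44) .no)) .no .no .no) .no .no) .no .no .no) .no)) .no .no) .no)) (.br .no .no (.br (.br .no (.br .no .no .no (.br .no (.br (.br (.br .no (.br .no .no (.br (.br .no .no (.br .no .no .no (.br .no (.sw 2 3 [28,29]) (.de 47) .no)) .no) .no .no .no) (.br (.br .no .no (.br .no .no .no (.br .no (.sw 2 3 [28,29]) (.de 47) .no)) .no) .no (.de 44) .no)) .no (.br .no .no (.de 43) .no)) (.br .no .no .no (.de 42)) .no .no) .no (.br (.br .no (.br .no .no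 (.br (.br .no .no (.br (.sy 37 201 3) .no .no (.br .no (.sw 0 2 [34]) .no .no)) .no) .no .no .no) (.br (.br .no .no (.br (.br .no (.sy 40 228 3) .no .no) .no .no (.br .no (.sw 0 2 [34]) .no .no)) .no) .no (.de 44) .no)) .no (.br .no .no (.de 43) .no)) (.br .no .no .no (.de 42)) .no .no) .no) (.br (.br (.br .no (.br .no .no (.br (.br .no (.br .no .no .no (.de 46)) .no .no) .no .no .no) (.br (.br .no (.br .no .no .no (.de 46)) .no .no) .no (.de 44) .no)) .no (.br .no .no (.de 43) .no)) (.br .no .no .no (.de 42)) .no .no) .no .no .no) .no)) .no .no) .no .no .no) .no))) (.br .no .no .no (.br .no .no (.br .no .no .no (.br (.br .no (.br (.br .no .no (.br (.sy 32 216 3) .no .no .no) .no) .no .no (.sw 0 2 [25])) .no .no) .no (.br (.br .no .no .no (.br (.de 34) .no (.sw 0 1 [26]) .no)) (.br (.br .no .no (.br (.sy 32 216 3) .no .no .no) .no) .no .no (.sw 0 2 [25])) .no .no) .no)) (.br .no .no (.br (.br .no (.br (.br .no .no (.br (.br (.br .no (.br .no .no (.br .no .no .no (.de 44)) (.br .no .no (.de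 44) .no)) .no (.br .no .no (.de 43) .no)) (.br .no .no .no (.de 42)) .no .no) .no .no .no) .no) .no .no (.sw 0 2 [25])) .no .no) .no .no .no) .no))) .no .no) .no)) .no (.br .no .no (.br (.br .no (.br .no .no .no (.br .no .no (.br .no (.br (.br .no (.br .no .no (.br (.de 34) .no .no .no) (.br (.de 34) .no (.br (.br (.br .no .no (.sw 1 3 [23,29]) (.br .no .no (.de 43) .no)) .no .no (.br .no .no (.br .no .no .no (.de 43)) .no)) .no .no .no) .no)) .no (.br .no .no (.br (.de 34) .no .no .no) .no)) .no .no .no) .no .no) (.br .no (.br (.br .no (.br .no .no (.br (.br .no .no (.br (.br .no .no (.br .no .no .no (.de 43)) (.br .no .no (.de 43) .no)) .no (.br .no .no .no (.br .no .no (.de 43) .no)) .no) .no) .no .no .no) (.br (.br .no .no (.br (.br .no .no (.br .no .no .no (.de 43)) (.br .no .no (.de 43) .no)) .no (.br .no .no .no (.br .no .no (.de 43) .no)) .no) .no) .no (.br (.br (.br .no .no (.br .no .no .no (.de 43)) (.br .no .no (.de 43) .no)) .no (.br .no .no .no (.br .no .no (.de 43) .no)) .no)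 .no .no .no) .no)) .no (.br .no .no (.br (.br .no .no (.br (.br .no .no (.br .no (.br (.br .no (.br .no .no .no (.de 46)) .no (.br .no (.de 41) .no .no)) .no .no .no) .no .no) (.br .no (.br (.br .no (.br .no .no .no (.de 46)) .no (.br .no (.de 41) .no .no)) .no .no .no) (.de 43) .no)) .no (.br .no .no .no (.br .no (.br (.br .no (.br .no .no .no (.de 46)) .no (.br .no (.de 46) .no .no)) .no .no .no) (.de 43) .no)) .no) .no) .no .no .no) .no)) .no .no .no) (.br (.sw 1 3 [23]) (.br .no .no .no (.br .no .no (.br (.br .no .no (.br (.br .no .no .no (.br (.br .no (.br .no .no .no (.de 45)) .no .no) .no (.de 43) .no)) (.br (.br .no .no (.br (.sw 1 3 [23,30,31]) (.br .no .no .no (.de 45)) .no .no) .no) .no .no (.de 42)) .no .no) .no) .no .no .no) .no)) .no .no) .no))) .no .no) .no .no .no) .no))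

def c4_3_1 : Cert := (.br (.br .no (.br .no (.br .no .no (.br (.br .no (.br .no .no .no (.br .no .no (.br (.br (.br .no (.br .no .no (.br (.br .no (.br .no .no .no (.de 46)) .no .no) .no .no .no) (.br (.br .no (.br .no .no .no (.de 46)) .no .no) .no (.de 44) .no)) .no (.br .no .no (.de 43) .no)) .no .no (.br .no (.de 42) .no .no)) .no .no (.br (.br .no (.br .no .no (.br (.br .no (.br (.br .no .no (.br .no .no .no (.de 43)) .no) .no .no .no) .no .no) .no .no .no) (.br (.br .no (.br (.br .no .no (.br .no .no .no (.de 48)) .no) .no .no .no) .no .no) .no (.de 44) .no)) .no (.br .no .no (.de 43) .no)) .no .no (.br .no (.de 42) .no .no))) .no)) .no .no) .no .no .no) (.br (.br .no (.br .no .no .no (.br .no .no (.br (.br (.br .no (.sw 2 3 [29]) (.br .no .no .no (.de 43)) .no) .no (.br .no (.br .no .no (.br (.br .no (.br .no .no .no (.de 41)) .no .no) .no .no .no) (.br (.br .no (.br .no .no .no (.de 41)) .no .no) .no (.de 44) .no)) .no .no) .no) .no .no (.br (.br .no (.sw 2 3 [29]) (.br .no .no .no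 (.de 43)) .no) .no (.br .no (.br .no .no (.br (.br .no (.br (.de 41) .no .no .no) .no .no) .no .no .no) (.br (.br .no (.br (.de 41) .no .no .no) .no .no) .no (.de 44) .no)) .no .no) .no)) .no)) .no .no) .no (.br (.br .no (.br .no .no (.br (.br (.br .no (.br .no .no .no (.br .no .no (.de 44) .no)) .no .no) .no (.br (.br .no (.br .no .no (.br (.br .no (.br .no .no .no (.br .no (.br .no .no (.br .no .no .no (.br .no (.br .no .no .no (.br .no .no (.br .lf .no .no .no) .no)) .no .no)) (.de 44)) .no (.br .no .no (.br .no .no .no (.br .no (.br .no .no .no (.br .no .no (.br (.sw 1 3 [42]) .no .no .no) .no)) .no .no)) .no))) .no (.de 41)) .no .no (.br .no (.de 46) .no .no)) (.br (.br .no (.br .no .no .no (.br .no (.br .no .no (.de 44) (.br .no .no (.br .no (.sw 2 3 [38,43,44]) .no .no) .no)) .no (.br .no .no (.de 44) .no))) .no (.de 41)) .no .no .no)) .no (.br .no .no (.de 44) .no)) (.br .no .no .no (.br .no .no (.de 44) .no)) .no .no) .no) .no .no (.br (.br .no (.br .no .no .no (.br .no .no (.de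 44) .no)) .no .no) .no (.br (.br .no (.br .no .no (.br (.br .no (.br (.br .no (.br .no .no (.br .no .no .no (.br .no (.br .no .no .no (.br .no .no (.br .no .no .no (.sw 0 3 [34,41,48])) .no)) .no .no)) (.de 44)) .no (.de 48)) .no .no .no) .no .no) .no .no (.br (.de 41) (.de 46) .no .no)) (.br (.br .no (.br (.br .no (.br .no .no (.de 44) (.br .no .no (.br .no (.sw 2 3 [38,43,44]) .no .no) .no)) .no (.de 48)) .no .no .no) .no .no) .no .no .no)) .no (.br .no .no (.de 44) .no)) (.br .no .no .no (.br .no .no (.de 44) .no)) .no .no) .no)) (.br (.br (.br .no (.br .no .no .no (.br .no .no (.de 44) .no)) .no .no) .no (.br (.br .no (.br .no .no (.br (.br .no (.sw 2 3 [33]) (.br .no .no .no (.de 47)) .no) .no .no .no) (.br (.br .no (.sw 2 3 [33]) (.br .no .no .no (.de 47)) .no) .no (.br .no (.br .no .no .no (.br .no (.br .no .no (.de 44) (.br .no .no (.br .no (.br .no .no .no (.sw 0 2 [39])) .no .no) .no)) .no (.br .no .no (.de 44) .no))) .no .no) .no)) .no (.br .no .no (.de 44) .no)) (.br .no .no .no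 (.br .no .no (.de 44) .no)) .no .no) .no) .no .no .no)) .no (.br .no .no (.br (.br (.br .no (.br .no .no .no (.br .no (.br (.br .no (.br .no .no (.br .no .no .no (.de 48)) (.de 48)) .no (.br .no .no (.de 47) .no)) .no .no .no) (.de 44) .no)) .no .no) .no (.br (.br .no (.br .no .no (.br (.sw 1 3 [32]) (.br .no .no .no (.de 41)) .no .no) .no) .no (.br .no (.br (.br .no (.br .no .no .no (.br .no (.br .no .no (.de 44) .no) .no (.br .no .no (.de 44) .no))) .no (.de 41)) .no .no .no) (.de 44) .no)) (.br .no .no .no (.br .no (.br (.br .no (.br .no .no .no (.br .no .no .no (.br .no .no (.de 44) .no))) .no (.de 41)) .no .no .no) (.de 44) .no)) .no .no) .no) .no .no (.br (.br .no (.br .no .no .no (.br .no (.br (.br .no (.br .no .no (.sw 0 3 [34]) .no) .no .no) .no .no .no) (.de 44) .no)) .no .no) .no (.br (.br .no (.br .no .no (.br (.sw 1 3 [32]) (.br (.de 41) .no .no .no) .no .no) .no) .no (.br .no (.br (.br .no (.br (.sy 38 225 3) .no .no .no) .no .no) .no .no .no) (.de 44) .no)) (.br .no .no .no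 (.br .no (.br (.br .no (.br (.sy 38 225 3) .no .no .no) .no .no) .no .no .no) (.de 44) .no)) .no .no) .no)) .no)) (.br .no .no .no (.br .no .no (.br (.br (.br .no (.br (.br .no .no (.br (.br .no (.br .no .no (.br .no .no .no (.de 48)) (.de 48)) .no (.br .no .no (.de 47) .no)) (.br .no .no .no (.de 46)) .no .no) .no) .no .no (.sw 0 2 [30])) .no .no) .no (.br (.br .no .no .no (.br (.br .no (.br .no .no .no (.de 41)) .no .no) .no (.de 44) .no)) (.br (.br .no .no (.br (.br .no (.br .no .no .no (.br .no .no .no (.br .no .no (.br .no .no .no (.sw 0 1 [31,36,37])) .no))) .no (.de 41)) (.br .no .no .no (.de 41)) .no .no) .no) .no .no (.sw 0 2 [30])) .no .no) .no) .no .no (.br (.br .no (.br (.br .no .no (.br (.br .no (.br .no .no (.sw 0 3 [34]) .no) .no .no) (.sy 32 27 7) .no .no) .no) .no .no (.sw 0 2 [30])) .no .no) .no (.br (.br .no .no .no (.br (.br .no (.sy 32 27 7) .no .no) .no (.de 44) .no)) (.br (.br .no .no (.br (.br .no (.br (.br .no .no .no (.de 48)) .no .no .no) .no .no) (.sy 32 27 7)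 .no .no) .no) .no .no (.sw 0 2 [30])) .no .no) .no)) .no)) .no .no) .no)) .no (.br .no .no (.br (.br .no (.br .no .no .no (.br .no .no (.br (.br (.br .no (.br .no .no (.br (.br .no (.br .no .no .no (.de 46)) .no .no) .no .no .no) (.br (.br .no (.br .no .no .no (.de 46)) .no .no) .no (.de 44) .no)) .no (.br .no .no (.de 43) .no)) (.br .no .no .no (.de 42)) .no .no) .no .no .no) .no)) .no .no) .no .no .no) .no)) .no (.br .no (.br .no .no (.br (.br .no (.br .no .no .no (.br .no (.br (.br (.br .no (.br .no .no (.br (.br .no .no (.br .no .no .no (.br .no .no (.de 47) .no)) .no) .no .no .no) (.br (.br .no .no (.br .no .no .no (.br .no .no (.de 47) .no)) .no) .no (.de 44) .no)) .no (.br .no .no (.de 43) .no)) .no .no (.br .no (.de 42) .no .no)) .no .no .no) (.br (.sw 1 3 [27]) .no .no .no) .no)) .no .no) .no .no .no) (.br (.br .no (.br .no .no .no (.br .no (.br (.br (.br .no (.sw 2 3 [29]) (.br .no .no .no (.de 43)) .no) .no (.br .no (.br .no .no (.br (.sy 31 114 7) .no .no .no) (.br (.sy 31 114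 7) .no (.de 44) .no)) .no .no) .no) .no .no .no) (.br (.sw 1 3 [27]) .no .no .no) .no)) .no .no) .no (.br (.br .no (.br .no .no (.br (.sw 1 3 [27]) .no .no .no) .no) .no (.br .no (.br (.br (.br .no (.br .no .no .no (.br .no (.br (.br .no .no (.br .no .no .no (.de 47)) (.br .no .no (.de 47) .no)) .no (.br .no .no .no (.br .no .no (.de 47) .no)) .no) (.de 44) .no)) .no .no) .no (.br (.br .no (.br .no .no (.br (.br .no .no (.sw 1 3 [27,32,33]) (.de 41)) .no .no .no) .no) .no (.br .no (.br (.br .no .no (.br .no .no .no (.de 47)) (.de 41)) .no (.br .no .no .no (.de 41)) .no) (.de 44) .no)) (.br .no .no .no (.br .no (.br (.br .no .no (.br .no .no .no (.de 47)) (.de 41)) .no (.br .no .no .no (.de 41)) .no) (.de 44) .no)) .no .no) .no) .no .no .no) (.br (.sw 1 3 [27]) .no .no .no) .no)) (.br .no .no .no (.br .no (.br (.br (.br .no (.br (.br .no .no (.br (.br .no .no (.sy 37 216 3) (.br .no .no (.de 47) .no)) .no .no .no) .no) .no .no (.sw 0 2 [30])) .no .no) .no (.br (.br .no .no .no (.br (.br .no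 .no (.br .no .no .no (.de 41)) .no) .no (.de 44) .no)) (.br (.br .no .no (.br (.br .no .no (.sy 37 216 3) (.de 41)) .no .no .no) .no) .no .no (.sw 0 2 [30])) .no .no) .no) .no .no .no) (.br (.sw 1 3 [27]) .no .no .no) .no)) .no .no) .no)) .no (.br .no .no (.br (.br .no (.br .no .no .no (.br .no (.br (.sw 1 2 [21]) .no .no .no) (.br (.sw 1 2 [21]) (.br (.br .no (.br .no .no (.br (.br .no (.br (.br .no .no (.sw 1 3 [27,28,34]) .no) .no .no (.de 46)) .no .no) .no .no .no) (.br (.br .no (.br (.br .no .no (.sw 1 3 [27,28,34]) .no) .no .no (.de 46)) .no .no) .no (.de 44) .no)) .no (.br .no .no (.de 43) .no)) (.br .no .no .no (.de 42)) .no .no) .no .no) .no)) .no .no) .no .no .no) .no))) (.br .no .no .no (.br .no (.br .no .no (.br (.br .no (.br (.br .no .no (.br (.br (.br .no (.br .no .no (.sy 30 228 7) (.br .no .no (.de 44) .no)) .no (.br .no .no (.de 43) .no)) .no .no (.br .no (.de 42) .no .no)) .no .no .no) .no) .no .no (.sw 0 2 [25])) .no .no) .no .no .no) (.br (.br .no (.br (.br .no .no (.br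 (.br (.br .no (.sw 2 3 [29]) (.br .no .no .no (.de 43)) .no) .no (.br .no (.br .no .no (.br .no .no .no (.de 44)) (.br .no .no (.de 44) .no)) .no .no) .no) .no .no .no) .no) .no .no (.sw 0 2 [25])) .no .no) .no (.br (.br .no .no .no (.br (.de 34) .no (.sw 0 1 [26]) .no)) (.br (.br .no .no (.br (.br (.br .no (.br (.br .no .no (.br .no (.br .no .no .no (.de 46)) .no (.br .no (.de 46) .no .no)) (.br .no (.de 45) .no .no)) .no .no (.sw 0 2 [30])) .no .no) .no (.br (.br .no .no .no (.br .no .no (.de 44) .no)) (.br (.br .no .no (.br .no (.br .no .no .no (.de 41)) .no (.br .no (.de 46) .no .no)) (.br .no (.de 45) .no .no)) .no .no (.sw 0 2 [30])) .no .no) .no) .no .no .no) .no) .no .no (.sw 0 2 [25])) .no .no) .no)) .no (.br .no .no (.br (.br .no (.br (.br .no .no (.br (.sw 1 2 [21]) (.br (.br .no (.br .no .no (.br .no .no .no (.de 44)) (.br .no .no (.de 44) .no)) .no (.br .no .no (.de 43) .no)) (.br .no .no .no (.de 42)) .no .no) .no .no) .no) .no .no (.sw 0 2 [25])) .no .no) .no .no .no) .no)))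 .no .no)

def c4_3_2 : Cert := (.br (.br .no (.br .no .no .no (.br .no .no (.de 20) .no)) .no .no) .no (.br (.br .no (.br .no .no (.de 20) (.br .no .no (.br .no (.br c4_3_0 .no .no .no) (.br (.br .no (.br .no .no (.br (.br .no (.br .no .no .no (.br .no (.br .no .no (.br (.br .no (.br .no .no (.br (.de 34) .no .no .no) (.br (.de 34) .no (.br (.br (.br .no (.br .no .no (.br (.br .no (.br .no .no .no (.de 46)) .no .no) .no .no .no) (.br (.br .no (.br .no .no .no (.de 46)) .no .no) .no (.de 44) .no)) .no (.br .no .no (.de 43) .no)) .no .no (.br .no (.de 42) .no .no)) .no .no .no) .no)) .no (.br .no .no (.br (.de 34) .no .no .no) .no)) .no .no (.br .no (.br .no .no (.br (.de 34) .no .no .no) (.br (.de 34) .no (.br (.br (.br .no (.br (.br .no .no (.br (.br .no (.br .no .no (.br .no .no .no (.de 48)) (.de 48)) .no (.br .no .no (.de 47) .no)) (.br .no .no .no (.de 46)) .no .no) .no) .no (.sw 0 3 [30]) .no) .no .no) .no .no (.br (.br .no .no (.br (.br .no (.br .no .no .no (.de 46)) .no .no) .no .no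 .no) .no) (.de 42) .no .no)) .no .no .no) .no)) .no .no)) (.br (.br .no (.br .no .no (.br (.de 34) .no .no .no) (.br (.de 34) .no (.br (.br (.br .no (.sw 2 3 [29]) (.br .no .no .no (.de 43)) .no) .no (.br .no (.br .no .no (.br (.br .no (.br .no .no .no (.de 41)) .no .no) .no .no .no) (.br (.br .no (.br .no .no .no (.de 41)) .no .no) .no (.de 44) .no)) .no .no) .no) .no .no .no) .no)) .no (.br .no .no (.br (.de 34) .no .no .no) .no)) .no .no .no)) .no (.br .no .no (.br (.br .no (.br .no .no (.br (.br .no (.br (.br .no (.br .no .no (.br (.br .no (.br .no .no (.de 41) (.de 46)) .no (.br .no .no (.de 41) .no)) .no .no (.de 44)) (.br (.br .no (.br .no .no (.de 41) (.de 46)) .no (.br .no .no (.de 41) .no)) .no .no .no)) .no (.br .no .no (.de 43) .no)) (.br .no .no .no (.de 42)) .no .no) .no .no) .no .no .no) (.br (.br .no (.br (.br .no (.br .no .no (.br (.br .no (.sw 2 3 [32]) (.br .no .no .no (.br .no .no (.de 47) .no)) .no) .no .no .no) (.br (.br .no (.sw 2 3 [32]) (.br .no .no .no (.br .no .no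 (.de 47) .no)) .no) .no (.de 44) .no)) .no (.br .no .no (.de 43) .no)) (.br .no .no .no (.de 42)) .no .no) .no .no) .no (.br (.sw 1 2 [21]) (.br (.br .no (.br .no .no (.br (.br .no (.br (.br .no .no (.br .no .no .no (.de 43)) .no) .no .no (.de 46)) .no .no) .no .no .no) (.br (.br .no (.br (.br .no .no (.br .no .no .no (.de 48)) .no) .no .no (.de 46)) .no .no) .no (.de 44) .no)) .no (.br .no .no (.de 43) .no)) (.br .no .no .no (.de 42)) .no .no) .no .no) .no)) .no (.br .no .no (.br (.br .no (.br (.br .no (.br .no .no (.br (.sw 1 3 [31]) (.br .no .no .no (.de 45)) .no .no) .no) .no (.br .no (.br (.br .no (.br .no .no (.de 41) (.de 46)) .no (.br .no .no (.de 41) .no)) .no .no .no) (.de 43) .no)) (.br .no .no .no (.de 42)) .no .no) .no .no) .no .no .no) .no)) .no .no (.br .no (.br .no .no (.br (.br .no (.br (.br .no (.br (.br .no .no .no (.br .no (.de 45) .no .no)) .no (.sw 0 3 [30]) .no) .no .no) (.br (.br .no .no (.br (.br .no (.br .no .no (.br (.br .no .no .no (.de 43)) .no .no .no) (.de 46))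 .no (.br .no .no (.br (.br .no .no .no (.de 43)) .no .no .no) .no)) .no .no (.de 44)) .no) .no .no .no) .no .no) .no .no) .no .no .no) (.br (.br .no (.br (.br .no (.br (.br .no .no (.br .no (.br .no .no (.de 41) (.de 46)) .no .no) .no) .no (.sw 0 3 [30]) .no) .no .no) (.br (.br .no .no (.br (.br .no (.sw 2 3 [32]) (.sy 36 216 3) .no) .no .no .no) .no) .no .no .no) .no .no) .no .no) .no (.br (.sw 1 2 [21]) (.br (.br .no (.br (.br .no .no (.br (.br .no .no .no (.br .no .no (.de 47) .no)) (.br (.br .no .no (.br .no .no .no (.de 48)) .no) .no .no (.de 46)) .no .no) .no) .no (.sw 0 3 [30]) .no) .no .no) (.sy 28 27 7) .no .no) .no .no) .no)) .no .no)) .no))) .no .no) .no .no .no) (.br (.br .no (.br .no .no .no (.br .no (.br .no .no (.br (.br .no (.sw 2 3 [24]) (.br .no .no .no (.br (.de 34) .no (.br (.br (.br .no (.br .no .no .no (.br (.sw 1 2 [31]) (.br (.br .no (.br .no .no (.br .no .no .no (.de 48)) (.de 48)) .no (.br .no .no (.de 47) .no)) .no .no .no) .no .no)) .no (.br .no (.br (.br .no (.br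 .no .no .no (.de 46)) .no .no) .no .no .no) .no .no)) .no .no (.br .no (.de 42) .no .no)) .no .no .no) .no)) .no) .no .no .no) (.br (.br .no (.sw 2 3 [24]) (.br .no .no .no (.br (.de 34) .no (.br (.br (.br .no (.sw 2 3 [29]) (.br .no (.br (.br .no (.br .no .no .no (.de 46)) .no .no) .no .no .no) .no (.de 43)) .no) .no (.br .no (.br .no .no .no (.br (.sw 1 2 [31]) (.br (.br .no (.br .no .no .no (.br .no .no .no (.br .no .no (.de 44) .no))) .no (.de 41)) .no .no .no) .no .no)) .no .no) .no) .no .no .no) .no)) .no) .no (.br .no (.br .no .no (.br (.de 34) .no .no .no) (.br (.de 34) .no (.br (.br (.br .no (.br (.sw 2 3 [24,29,30]) .no .no (.sw 0 2 [30])) .no .no) .no (.br (.br .no .no .no (.br (.br .no (.br .no .no .no (.de 41)) .no .no) .no (.de 44) .no)) (.br (.br .no .no (.br (.br .no (.br .no .no .no (.br .no .no .no (.br .no .no (.br .no .no .no (.br .no (.br .no .no .no (.br .no .no (.br .lf .no .no .no) .no)) .no .no)) .no))) .no (.de 41)) (.br .no .no .no (.de 41)) .no .no) .no) .no .no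 (.sw 0 2 [30])) .no .no) .no) .no .no .no) .no)) .no .no) .no)) .no (.br .no .no (.br (.br .no (.sw 2 3 [24]) (.br .no .no .no (.br (.br .no (.br (.br .no (.br .no .no .no (.br (.sw 1 2 [31]) (.br .no .no (.br .no .no .no (.br .no .no (.de 47) .no)) .no) .no .no)) .no (.br .no (.br (.br .no (.sw 2 3 [24,31,32]) (.br .no .no .no (.br .no .no (.de 47) .no)) .no) .no .no .no) .no .no)) (.br .no .no .no (.de 42)) .no .no) .no .no) .no (.br (.sw 1 2 [21]) (.br (.br .no (.br .no .no .no (.br (.sw 1 2 [31]) (.br (.br .no .no .no (.br .no .no (.de 47) .no)) .no .no .no) .no .no)) .no (.br .no (.br (.br .no (.br (.sy 37 225 3) .no .no (.de 46)) .no .no) .no .no .no) .no .no)) (.br .no .no .no (.de 42)) .no .no) .no .no) .no)) .no) .no .no .no) .no))) .no .no) .no c4_3_1 .no)) .no (.br .no .no (.br (.br .no (.br .no .no .no (.br .no (.br .no .no (.br (.sw 1 3 [23]) (.br .no .no .no (.br .no .no (.br (.de 34) .no .no .no) .no)) .no .no) .no) .no (.br .no (.br (.br .no (.br .no .no (.br (.br .no (.br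 (.br .no .no (.br .no .no .no (.de 43)) (.br .no .no (.de 43) .no)) .no (.br .no .no .no (.br .no .no (.de 43) .no)) .no) .no .no) .no .no .no) (.br (.br .no (.br (.br .no .no (.br .no .no .no (.de 43)) (.br .no .no (.de 43) .no)) .no (.br .no .no .no (.br .no .no (.de 43) .no)) .no) .no .no) .no (.br (.sw 1 2 [21]) (.br (.br .no .no (.br .no .no .no (.de 43)) (.br .no .no (.de 43) .no)) .no (.br .no .no .no (.br .no .no (.de 43) .no)) .no) .no .no) .no)) .no (.br .no .no (.br (.br .no (.br (.br .no .no (.br .no (.br (.br .no (.br .no .no (.de 41) (.de 46)) .no (.br .no .no (.de 41) .no)) .no .no .no) .no .no) (.br .no (.br (.br .no (.br .no .no (.de 41) (.de 46)) .no (.br .no .no (.de 41) .no)) .no .no .no) (.de 43) .no)) .no (.br .no .no .no (.br .no (.br (.br .no (.br .no .no (.br (.br .no (.br .no .no (.br .no .no .no (.de 45)) .no) .no .no) .no .no .no) (.de 46)) .no (.br .no .no (.br (.br .no (.br .no .no (.br .no .no .no (.br .no (.de 46) .no .no)) .no) .no .no) .no .no .no) .no))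 .no .no .no) (.de 43) .no)) .no) .no .no) .no .no .no) .no)) .no .no .no) (.br (.sw 1 3 [23]) (.br .no .no .no (.br .no .no (.br (.br .no (.br (.br .no .no .no (.br (.br .no (.br .no .no .no (.de 45)) .no .no) .no (.de 43) .no)) (.br (.br .no .no (.br (.sw 1 3 [23,30,31]) (.br .no .no .no (.de 45)) .no .no) .no) .no .no (.de 42)) .no .no) .no .no) .no .no .no) .no)) .no .no) .no))) .no .no) .no .no .no) .no)) (.br .no .no .no (.br .no .no (.br (.br .no (.br .no .no .no (.br (.br .no .no (.br (.br .no (.br .no .no (.br (.br .no (.br .no (.br .no .no .no (.de 42)) .no (.br .no (.de 42) .no .no)) .no .no) .no .no .no) (.br (.br .no (.br .no (.br .no .no .no (.de 42)) .no (.br .no (.de 42) .no .no)) .no .no) .no (.br .no (.br .no (.br .no .no .no (.de 42)) .no (.br .no (.de 42) .no .no)) .no .no) .no)) .no (.br .no .no (.br (.br .no (.br .no (.br .no .no .no (.de 42)) .no (.br .no (.de 42) .no .no)) .no .no) .no .no .no) .no)) (.br .no .no .no (.br .no .no (.br (.br .no (.br .no (.br (.br .no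 .no (.br (.br .no (.br .no .no (.br .no .no .no (.de 47)) (.de 46)) .no (.br .no .no (.br .no .no .no (.de 47)) .no)) (.br .no .no .no (.de 45)) .no .no) .no) .no .no (.de 42)) .no (.br (.br .no .no (.br (.br .no (.br .no .no (.de 41) (.de 46)) .no (.br .no .no (.de 41) .no)) (.br .no .no .no (.de 45)) .no .no) .no) .no .no .no)) .no .no) .no .no .no) .no)) .no .no) .no) .no .no (.br (.br .no (.br .no .no .no (.br .no .no (.br (.br .no (.br .no (.br .no .no (.br (.br .no (.br .no .no .no (.de 45)) .no .no) .no .no .no) (.de 42)) (.br .no .no .no (.br (.br .no (.br .no .no .no (.de 45)) .no .no) .no (.de 43) .no)) .no) .no .no) .no .no .no) .no)) .no .no) .no (.sw 0 1 [22]) .no))) .no .no) .no .no .no) .no)) .no .no) .no) .no)) .no (.br .no .no (.de 20) .no)) (.br .no .no .no (.br .no .no (.de 20) .no)) .no .no) .no)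

theorem P4_3 : R.S 15 79094916 :=
  R.piece L hL (.br .no .no .no c4_3_2) 15 79094916 1073741824 (by norm_num) (by norm_num) (by norm_num) (by decide +kernel)

def c4_4_0 : Cert := (.br (.br .no (.br .no .no (.br .no .no (.br (.br .no (.br .no .no .no (.br .no .no (.br (.br .no (.sw 0 3 [15,21]) .no (.br .no (.br .no .no (.br (.br .no (.br .no .no .no (.de 45)) .no .no) .no .no .no) (.de 42)) .no (.br .no .no (.br (.br .no (.br .no .no .no (.de 45)) .no .no) .no .no .no) .no))) .no .no (.br .no (.sw 0 3 [15,21]) .no .no)) .no)) .no .no) .no .no .no) (.br (.br .no (.br .no .no .no (.br .no .no (.br (.br .no (.br .no (.br .no .no (.br (.br .no (.br .no .no .no (.de 45)) .no .no) .no .no .no) (.de 42)) (.br .no .no .no (.br (.br .no (.br .no .no .no (.de 45)) .no .no) .no (.de 43) .no)) .no) .no .no) .no .no (.br .no (.br .no (.br .no .no (.br (.br .no (.br (.br .no .no (.br (.sw 2 3 [28]) .no .no .no) .no) .no .no .no) .no .no) .no .no .no) (.de 42)) (.br .no .no .no (.br (.br .no (.br (.br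 .no .no (.br (.sy 39 216 3) .no .no .no) .no) .no .no .no) .no .no) .no (.de 43) .no)) .no) .no .no)) .no)) .no .no) .no (.br (.br .no (.br .no .no (.br (.br .no (.br (.br .no (.br .no .no (.br (.br .no (.br .no .no (.de 41) (.de 46)) .no (.br .no .no (.de 41) .no)) .no .no (.de 44)) (.br (.br .no (.br .no .no (.de 41) (.de 46)) .no (.br .no .no (.de 41) .no)) .no .no .no)) .no (.br .no .no (.de 43) .no)) (.br .no .no .no (.de 42)) .no .no) .no .no) .no .no (.br .no (.br (.br .no (.br .no .no (.br (.br .no (.br (.br .no .no (.br .no .no .no (.de 43)) .no) .no (.de 41) .no) .no .no) .no .no (.de 44)) (.br (.br .no (.br (.br .no .no (.br .no .no .no (.de 48)) .no) .no (.de 41) .no) .no .no) .no .no .no)) .no (.br .no .no (.de 43) .no)) (.br .no .no .no (.de 42)) .no .no) .no .no)) (.br (.br .no (.br (.br .no (.br .no .no (.br (.br .no (.sw 2 3 [32]) (.br .no .no .no (.br .no .no (.de 47) .no)) .no) .no .no .no) (.br (.br .no (.sw 2 3 [32]) (.br .no .no .no (.br .no .no (.de 47) .no)) .no) .no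 (.de 44) .no)) .no (.br .no .no (.de 43) .no)) (.br .no .no .no (.de 42)) .no .no) .no .no) .no .no .no)) .no (.br .no .no (.br (.br .no (.br (.br .no (.br .no .no (.br (.sw 1 3 [31]) (.br .no .no .no (.de 45)) .no .no) .no) .no (.br .no (.br (.br .no (.br .no .no (.de 41) (.de 46)) .no (.br .no .no (.de 41) .no)) .no .no .no) (.de 43) .no)) (.br .no .no .no (.de 42)) .no .no) .no .no) .no .no (.br .no (.br (.br .no (.br .no .no (.br (.sw 1 3 [31]) (.br (.br .no .no (.de 41) .no) .no .no .no) .no .no) .no) .no (.br .no (.br (.br .no (.br (.sy 37 225 3) .no (.de 41) .no) .no .no) .no .no .no) (.de 43) .no)) (.br .no .no .no (.de 42)) .no .no) .no .no)) .no)) (.br .no .no .no (.br .no .no (.br (.br .no (.br (.br .no .no .no (.br (.br .no (.br .no .no .no (.de 45)) .no .no) .no (.de 43) .no)) (.br (.br .no .no (.br (.br .no (.br .no .no (.br (.br .no .no .no (.de 43)) .no .no .no) (.de 46)) .no (.br .no .no (.br (.br .no .no .no (.de 43)) .no .no .no) .no)) (.br .no .no .no (.de 45)) .no .no)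 .no) .no .no (.de 42)) .no .no) .no .no) .no .no (.br .no (.br (.br .no .no .no (.br (.br .no (.sy 31 27 7) .no .no) .no (.de 43) .no)) (.br (.br .no .no (.br (.br .no (.br (.br .no .no (.sw 0 3 [15,21,28]) .no) .no (.sw 0 3 [33]) .no) .no .no) (.sy 31 27 7) .no .no) .no) .no .no (.de 42)) .no .no) .no .no)) .no)) .no .no) .no)) (.br .no .no (.br (.br .no (.br .no .no .no (.br .no .no (.br (.br .no (.sw 2 3 [27]) .no .no) .no .no .no) .no)) .no .no) .no .no .no) (.br (.br .no (.br .no .no .no (.br .no .no (.br (.br .no (.sw 2 3 [27]) (.br .no (.br .no .no (.br (.br .no (.br .no .no .no (.de 45)) .no .no) .no .no .no) (.de 42)) (.br .no .no .no (.br (.br .no (.br .no .no .no (.de 45)) .no .no) .no (.de 43) .no)) .no) .no) .no .no .no) .no)) .no .no) .no (.br (.br .no (.br .no .no (.br (.br .no (.sw 2 3 [27]) (.br (.br .no (.br .no .no (.br (.br .no (.br .no .no .no (.de 46)) .no (.br .no (.de 41) .no .no)) .no .no (.de 44)) (.br (.br .no (.br .no .no .no (.de 46)) .no (.br .no (.de 41) .no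 .no)) .no .no .no)) .no (.br .no .no (.de 43) .no)) (.br .no .no .no (.de 42)) .no .no) .no) .no .no .no) (.br (.br .no (.sw 2 3 [27]) (.br (.br .no (.br .no .no (.br (.br .no (.sw 2 3 [32]) (.br .no (.de 41) .no (.br .no (.br .no .no .no (.de 43)) .no .no)) .no) .no .no .no) (.br (.br .no (.sw 2 3 [32]) (.br .no (.de 41) .no (.br .no (.br .no .no .no (.de 48)) .no .no)) .no) .no (.de 44) .no)) .no (.br .no .no (.de 43) .no)) (.br .no .no .no (.de 42)) .no .no) .no) .no (.br .no (.br (.br .no (.br .no .no (.br (.br .no (.br (.sw 2 3 [27,32,33]) .no .no (.de 46)) .no .no) .no .no .no) (.br (.br .no (.br (.sw 2 3 [27,32,33]) .no .no (.de 46)) .no .no) .no (.de 44) .no)) .no (.br .no .no (.de 43) .no)) (.br .no .no .no (.de 42)) .no .no) .no .no) .no)) .no (.br .no .no (.br (.br .no (.sw 2 3 [27]) (.br (.br .no (.br .no .no (.br (.sw 1 3 [31]) (.br .no .no .no (.de 45)) .no .no) .no) .no (.br .no (.br (.br .no (.br .no .no .no (.de 46)) .no (.sy 32 141 7)) .no .no .no) (.de 43) .no)) (.br .no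 .no .no (.de 42)) .no .no) .no) .no .no .no) .no)) (.br .no .no .no (.br .no .no (.br (.br .no (.sw 2 3 [27]) (.br (.br .no .no .no (.br (.br .no (.br .no .no .no (.de 45)) .no .no) .no (.de 43) .no)) (.br (.br .no .no (.br (.br .no (.br .no .no .no (.de 46)) .no (.br .no (.de 46) .no .no)) (.br .no .no .no (.de 45)) .no .no) .no) .no .no (.de 42)) .no .no) .no) .no .no .no) .no)) .no .no) .no))) .no (.br .no .no (.br .no .no (.br (.br .no (.br .no .no .no (.br .no (.br (.br .no (.sw 0 3 [15,21]) .no (.br .no (.br .no .no (.br (.br .no .no (.br .no .no .no (.br .no (.de 46) (.br (.sw 1 3 [34]) .no .no .no) .no)) .no) .no .no .no) (.de 42)) .no (.br .no .no (.br (.br .no .no (.br .no .no .no (.br .no (.de 46) (.br (.de 48) (.br .no (.br .no .no .no (.de 44)) .no .no) .no .no) .no)) .no) .no .no .no) .no))) .no .no .no) (.br (.sw 1 3 [26]) (.br .no .no .no (.br .no (.br .no .no (.br (.br .no (.br (.br .no .no (.br (.sw 1 3 [26,33,34]) .no .no .no) .no) .no .no (.de 45)) .no .no) .no .no .no)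 (.de 42)) .no (.br .no .no (.br (.br .no (.br (.br .no .no (.br (.de 48) (.sw 0 3 [15,21,34]) .no .no) .no) .no .no (.de 45)) .no .no) .no .no .no) .no))) .no .no) .no)) .no .no) .no .no .no) (.br (.br .no (.br .no .no .no (.br .no (.br (.br .no (.br .no (.br .no .no (.br (.sy 30 114 7) .no .no .no) (.de 42)) (.br .no .no .no (.br (.sy 30 114 7) .no (.de 43) .no)) .no) .no .no) .no .no .no) (.br (.sw 1 3 [26]) (.de 34) .no .no) .no)) .no .no) .no (.br (.br .no (.br .no .no (.br (.sw 1 3 [26]) (.de 34) .no .no) .no) .no (.br .no (.br (.br .no (.br (.br .no (.br .no .no (.br (.br .no .no (.sw 1 3 [26,31,32]) (.br .no .no (.de 41) .no)) .no .no .no) .no) .no (.br .no (.br (.br .no .no (.br .no .no .no (.br .no .no (.de 47) .no)) (.br .no .no (.de 41) .no)) .no (.br .no .no .no (.br .no .no (.de 41) .no)) .no) (.de 43) .no)) (.br .no .no .no (.de 42)) .no .no) .no .no) .no .no .no) (.br (.sw 1 3 [26]) (.de 34) .no .no) .no)) (.br .no .no .no (.br .no (.br (.br .no (.br (.br .no .no .no (.br (.br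 .no .no (.br .no .no .no (.br .no .no (.de 41) .no)) .no) .no (.de 43) .no)) (.br (.br .no .no (.br (.br .no .no (.sy 36 216 3) (.br .no .no (.br (.br .no .no .no (.de 43)) .no .no .no) .no)) .no .no .no) .no) .no .no (.de 42)) .no .no) .no .no) .no .no .no) (.br (.sw 1 3 [26]) (.de 34) .no .no) .no)) .no .no) .no)) .no)) .no .no (.br .no (.br .no .no (.br .no .no (.br (.br .no (.br (.br .no .no (.br (.br .no (.sw 0 3 [15,21]) .no (.br .no (.br .no .no (.br .no .no .no (.de 43)) (.de 42)) .no (.br .no .no (.br .no .no .no (.de 43)) .no))) .no .no (.br .no (.sw 0 3 [15,21]) .no .no)) .no) .no .no .no) .no .no) .no .no .no) (.br (.br .no (.br (.br .no .no (.br (.br .no (.br .no (.br .no .no (.br .no .no .no (.de 43)) (.de 42)) (.br .no .no .no (.br .no .no (.de 43) .no)) .no) .no .no) .no .no (.br .no (.br .no (.br .no .no (.br .no .no .no (.de 43)) (.de 42)) (.br .no .no .no (.br .no .no (.de 43) .no)) .no) .no .no)) .no) .no .no .no) .no .no) .no (.br (.br .no (.br (.br .no .no .no (.br .no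 (.br (.br .no (.br .no .no (.br .no .no .no (.de 44)) (.br .no .no (.de 44) .no)) .no (.br .no .no (.de 43) .no)) (.br .no .no .no (.de 42)) .no .no) .no .no)) .no (.sw 0 3 [25]) .no) .no .no) (.br (.br .no .no (.br (.br .no (.br (.br .no .no .no (.br .no .no (.de 43) .no)) (.br (.br .no .no (.br .no (.sw 0 3 [25,31]) .no (.de 44)) (.br .no (.br .no .no .no (.de 45)) .no .no)) .no .no (.de 42)) .no .no) .no .no) .no .no (.br .no (.br (.br .no .no .no (.br .no .no (.de 43) .no)) (.br (.br .no .no (.br .no (.sw 0 3 [25,31]) .no (.de 44)) (.br .no (.br (.br .no .no (.br (.br .no .no .no (.de 48)) .no .no .no) .no) .no .no .no) .no .no)) .no .no (.de 42)) .no .no) .no .no)) .no) .no .no .no) .no .no) .no)) (.br .no .no (.br (.br .no (.br (.br .no .no (.br (.br .no (.sw 2 3 [27]) .no .no) .no .no .no) .no) .no .no .no) .no .no) .no .no .no) (.br (.br .no (.br (.br .no .no (.br (.br .no (.sw 2 3 [27]) (.sy 31 216 3) .no) .no .no .no) .no) .no .no .no) .no .no) .no (.br (.br .no (.br (.br .no .no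 (.br .no (.br (.br .no (.br .no .no (.br .no .no .no (.de 44)) (.br .no .no (.de 44) .no)) .no (.br .no .no (.de 43) .no)) (.br .no .no .no (.de 42)) .no .no) .no .no) .no) .no (.sw 0 3 [25]) .no) .no .no) (.br (.br .no .no (.br (.br .no (.sw 2 3 [27]) (.sy 31 216 3) .no) .no .no .no) .no) .no .no .no) .no .no) .no))) .no .no))

def c4_4_1 : Cert := (.br (.br (.br .no (.br .no .no .no (.br .no .no (.br (.br .no (.sw 2 3 [19]) (.br .no .no .no (.br .no .no (.br (.br .no (.br .no .no .no (.br .no (.br (.br .no (.sw 2 3 [19,26,27]) .no .no) .no .no .no) .no .no)) .no .no) .no .no .no) (.br (.br .no (.br .no .no .no (.br .no (.br (.br .no (.sw 2 3 [19,26,27]) (.br .no (.br .no .no (.br (.br .no .no (.br .no .no .no (.br .no (.de 46) .no .no)) .no) .no .no .no) (.de 42)) (.br .no .no .no (.br (.br .no .no (.br .no .no .no (.br .no (.de 46) .no .no)) .no) .no (.de 43) .no)) .no) .no) .no .no .no) .no .no)) .no .no) .no (.br (.br .no (.br .no .no .no (.br (.sw 1 2 [26]) (.br .no .no (.br (.br .no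 (.br .no .no (.br (.br .no .no (.br (.sy 37 201 3) .no .no (.sw 0 1 [33])) .no) .no .no .no) (.br (.br .no .no (.br (.br .no (.sy 40 228 3) .no .no) .no .no (.sw 0 1 [33])) .no) .no (.de 44) .no)) .no (.br .no .no (.de 43) .no)) (.br .no .no .no (.de 42)) .no .no) .no) .no .no)) .no (.br .no (.br (.br .no (.sw 2 3 [19,26,27]) (.br (.br .no (.br .no .no (.br (.br .no .no (.sw 1 3 [31,32]) (.sw 1 2 [26,32])) .no .no .no) .no) .no (.br .no (.br (.br .no .no (.br .no (.de 41) .no (.br .no (.br .no (.br .no .no (.br .no .no .no (.br .no (.de 46) .no .no)) .no) .no .no) .no .no)) (.sw 1 2 [26,32])) .no (.br .no .no .no (.br .no (.de 41) .no .no)) .no) (.de 43) .no)) (.br .no .no .no (.de 42)) .no .no) .no) .no .no .no) .no .no)) (.br .no .no .no (.br .no (.br (.br .no (.sw 2 3 [19,26,27]) (.br (.br .no .no .no (.br (.br .no .no (.br .no .no .no (.br .no (.de 41) .no .no)) .no) .no (.de 43) .no)) (.br (.br .no .no (.br (.br .no .no (.sy 36 216 3) (.sw 1 2 [26,32])) .no .no .no) .no) .no .no (.de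 42)) .no .no) .no) .no .no .no) .no .no)) .no .no) .no))) .no) .no .no .no) .no)) .no .no) .no (.br (.br .no (.br .no .no (.br (.br .no (.sw 2 3 [19]) (.br .no .no .no (.br .no (.br .no .no (.sw 0 3 [15,22]) (.br (.br .no (.br .no .no .no (.br (.de 34) (.br (.br (.br .no (.sw 2 3 [29]) (.br .no .no .no (.de 43)) .no) .no (.br .no (.br .no .no (.sw 0 3 [15,22,29,30]) (.br (.sy 31 114 7) .no (.de 44) .no)) .no .no) .no) .no .no .no) .no .no)) .no (.br .no (.br (.de 34) .no .no .no) .no .no)) .no .no .no)) .no (.br .no .no (.br (.br .no (.br .no .no .no (.br (.sw 1 2 [26]) (.br (.br (.br .no (.br .no .no (.br (.br .no .no (.br .no .no .no (.br .no (.br .no .no .no (.de 43)) (.de 47) .no)) .no) .no .no .no) (.br (.br .no .no (.br .no .no .no (.br .no (.br .no .no .no (.de 48)) (.de 47) .no)) .no) .no (.de 44) .no)) .no (.br .no .no (.de 43) .no)) (.br .no .no .no (.de 42)) .no .no) .no .no .no) .no .no)) .no (.br .no (.br (.br .no (.br (.br .no (.br .no .no (.br (.br .no .no (.sw 1 3 [31,32])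 (.sw 1 2 [26,32])) .no .no .no) .no) .no (.br .no (.br (.br .no .no (.br .no .no .no (.br .no .no (.de 47) .no)) (.sw 1 2 [26,32])) .no (.br .no .no .no (.br .no .no (.de 41) .no)) .no) (.de 43) .no)) (.br .no .no .no (.de 42)) .no .no) .no .no) .no .no .no) .no .no)) .no .no (.br .no (.br .no .no .no (.br (.sw 1 2 [26]) (.sy 30 54 3) .no .no)) .no .no)) .no))) .no) .no .no .no) (.br (.br .no (.sw 2 3 [19]) (.br .no .no .no (.br .no (.br .no .no (.sw 0 3 [15,22]) (.br (.br .no (.sw 2 3 [24]) (.br .no (.br (.de 34) .no .no .no) .no (.br (.de 34) (.br (.br (.br .no (.sw 2 3 [29]) (.br .no (.br (.br .no .no (.br .no .no .no (.br .no .no (.de 47) .no)) .no) .no .no .no) .no (.de 43)) .no) .no (.br .no (.br .no .no .no (.br (.sw 1 2 [31]) (.br (.br .no .no (.br .no .no .no (.de 47)) (.de 41)) .no (.br .no .no .no (.de 41)) .no) .no .no)) .no .no) .no) .no .no .no) .no .no)) .no) .no (.br .no (.br .no .no .no (.br (.de 34) (.br (.br (.br .no (.br (.sw 2 3 [24,29,30]) .no .no (.sw 0 2 [30])) .no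 .no) .no (.br (.br .no .no .no (.br (.br .no .no (.br .no .no .no (.de 41)) .no) .no (.de 44) .no)) (.sw 0 3 [15,22,29]) .no .no) .no) .no .no .no) .no .no)) .no .no) .no)) .no (.br .no .no (.br (.br .no (.sw 2 3 [24]) (.br .no (.br (.br .no (.br (.br .no (.br .no .no .no (.br (.br .no .no (.br .no .no .no (.br .no .no (.de 47) .no)) (.sw 1 2 [26,31,32])) .no .no .no)) .no (.br .no (.br (.sw 2 3 [24,31]) .no .no (.br .no .no (.br .no .no .no (.br .no .no (.de 47) .no)) .no)) .no .no)) (.br .no .no .no (.de 42)) .no .no) .no .no) .no .no .no) .no (.br (.sw 1 2 [26]) (.br (.br (.br .no (.br .no .no .no (.br (.sw 1 2 [31]) (.br (.br .no .no (.br .no (.br .no .no .no (.de 48)) .no .no) (.sw 1 2 [26,33])) .no (.br .no .no .no (.br .no (.br .no .no .no (.de 48)) (.de 47) .no)) .no) .no .no)) .no (.br .no (.br (.br .no .no (.br .no .no .no (.br .no (.br .no (.br .no .no (.br .no .no .no (.br .no (.de 46) .no .no)) .no) .no .no) (.de 47) .no)) .no) .no .no .no) .no .no)) (.br .no .no .no (.de 42))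 .no .no) .no .no .no) .no .no)) .no) .no .no .no) .no))) .no) .no (.br .no (.br .no .no .no (.br .no (.br .no .no (.sw 0 3 [15,22]) (.br (.br .no (.br (.sw 2 3 [19,24,25]) .no .no (.sw 0 2 [25])) .no .no) .no (.br (.br .no .no .no (.br (.de 34) .no (.br (.br (.br .no (.br .no .no .no (.br .no (.sw 0 2 [25,30,31]) (.de 44) .no)) .no .no) .no (.br (.br .no (.br .no .no (.br (.br .no (.br .no .no .no (.br .no (.br .no .no (.sw 0 3 [15,22,29,36]) (.de 44)) .no (.br .no .no (.br .no .no .no (.br .no (.br .no .no .no (.br .no .no (.br (.sw 1 3 [42]) .no .no .no) .no)) .no .no)) .no))) .no (.de 41)) (.br .no .no .no (.de 41)) .no .no) .no) .no (.br .no (.br (.br .no (.br .no .no .no (.br .no (.br .no .no (.de 44) .no) .no (.br .no .no (.de 44) .no))) .no (.de 41)) .no .no .no) (.de 44) .no)) (.sw 0 3 [15,22,29]) .no .no) .no) .no .no .no) .no)) (.br (.br .no .no (.br (.br (.br .no (.br (.sw 2 3 [19,24,25,29,30]) .no .no (.sw 0 2 [30])) .no .no) .no (.br (.br .no .no .no (.br .no .no (.de 44) .no))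 (.sw 0 3 [15,22,29]) .no .no) .no) .no .no .no) .no) .no .no (.sw 0 2 [25])) .no .no) .no)) .no (.br .no .no (.br (.br .no (.br (.sw 2 3 [19,24,25]) .no .no (.sw 0 2 [25])) .no .no) .no .no .no) .no))) .no .no) .no)) .no (.br .no .no (.br (.br .no (.sw 2 3 [19]) (.br .no .no .no (.br .no (.br .no .no (.br (.sw 1 3 [23]) (.br .no .no .no (.sy 24 141 7)) .no .no) .no) .no (.br .no (.br (.br .no (.br .no .no .no (.br (.sw 1 2 [26]) (.br (.br (.br .no .no (.br .no .no .no (.de 43)) (.sy 29 177 7)) .no (.br .no .no .no (.sy 29 177 7)) .no) .no .no .no) .no .no)) .no (.sy 24 141 7)) .no .no .no) (.br (.sw 1 3 [23]) (.br .no .no .no (.sy 24 141 7)) .no .no) .no))) .no) .no .no .no) .no)) (.sw 0 3 [15]) .no .no) .no) .no (.br (.br .no (.br .no .no .no (.br .no .no (.br (.br .no (.br .no .no .no (.sw 0 2 [20])) .no .no) .no .no .no) .no)) .no .no) .no (.br (.br .no (.br .no .no (.br (.br .no (.br (.br .no (.br .no .no (.sw 0 3 [15,22]) (.br (.br .no (.br .no .no (.sy 25 228 7) (.br .no .no (.br .no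 .no .no (.br (.br .no (.sw 2 3 [29]) (.br .no .no .no (.de 43)) .no) .no (.br .no (.br .no .no (.sw 0 3 [15,22,29,30]) (.br (.br .no (.br (.de 41) .no .no .no) .no .no) .no (.de 44) .no)) .no .no) .no)) .no)) .no (.br .no .no (.sy 25 228 7) .no)) .no .no .no)) .no (.br .no .no (.br (.br .no (.br .no .no (.sy 25 228 7) (.br .no .no (.br .no (.br (.br .no (.br .no .no (.br (.br .no (.br (.sw 2 3 [32,33]) .no .no (.de 46)) .no .no) .no .no .no) (.br (.br .no (.br (.sw 2 3 [32,33]) .no .no (.de 46)) .no .no) .no (.de 44) .no)) .no (.br .no .no (.de 43) .no)) (.br .no .no .no (.de 42)) .no .no) .no .no) .no)) .no (.br .no .no (.sy 25 228 7) .no)) .no .no (.br .no (.br .no .no (.sy 25 228 7) (.br .no .no (.br .no (.br (.br .no (.br (.br .no .no (.br (.br .no .no .no (.br .no .no (.de 47) .no)) (.br (.br .no .no (.sw 1 3 [28,34]) .no) .no .no (.de 46)) .no .no) .no) .no (.sw 0 3 [30]) .no) .no .no) (.sy 28 27 7) .no .no) .no .no) .no)) .no .no)) .no)) .no .no (.sw 0 1 [14])) .no .no) .no .no .no)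 (.br (.br .no (.br (.br .no (.br .no .no (.sw 0 3 [15,22]) (.br (.br .no (.sw 2 3 [24]) (.br .no .no .no (.br .no .no (.br .no .no .no (.sy 31 78 3)) .no)) .no) .no (.br .no (.br .no .no (.br .no .no .no (.de 34)) (.br .no .no (.br .no .no .no (.br (.br .no (.br (.sw 2 3 [24,29,30]) .no .no (.sw 0 2 [30])) .no .no) .no (.br (.br .no .no .no (.br (.br .no (.sy 32 27 7) .no .no) .no (.de 44) .no)) (.sw 0 3 [15,22,29]) .no .no) .no)) .no)) .no .no) .no)) .no (.br .no .no (.br (.br .no (.sw 2 3 [24]) (.br .no .no .no (.br .no .no (.br .no (.br (.br .no (.br .no .no .no (.br (.sw 1 2 [31]) (.br (.br .no .no .no (.br .no .no (.de 47) .no)) .no .no .no) .no .no)) .no (.br .no (.br (.br .no (.br (.sw 2 3 [24,31,32,33]) .no .no (.de 46)) .no .no) .no .no .no) .no .no)) (.br .no .no .no (.de 42)) .no .no) .no .no) .no)) .no) .no .no .no) .no)) .no .no (.sw 0 1 [14])) .no .no) .no (.br (.br .no .no .no (.sw 0 1 [14])) (.br (.br .no (.br .no .no (.sw 0 3 [15,22]) (.br (.br .no (.br (.br .no .no (.br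 .no .no .no (.br (.br .no (.sw 2 3 [29]) (.br .no .no .no (.de 43)) .no) .no (.br .no (.br .no .no (.br .no .no .no (.de 44)) (.br .no .no (.de 44) .no)) .no .no) .no)) (.de 34)) .no .no (.sw 0 2 [25])) .no .no) .no (.br (.br .no .no .no (.br .no .no (.br .no .no .no (.sw 0 1 [14,26,27])) .no)) (.br (.br .no .no (.br .no .no .no (.br (.br .no (.br (.br .no .no (.br .no (.br (.br .no .no (.br .no .no .no (.de 48)) .no) .no .no .no) .no (.br (.br .no .no (.br .no .no .no (.de 48)) .no) (.de 46) .no .no)) (.br .no (.de 45) .no .no)) .no .no (.sw 0 2 [30])) .no .no) .no (.br (.br .no .no .no (.br .no .no (.de 44) .no)) (.sw 0 3 [15,22,29]) .no .no) .no)) (.de 34)) .no .no (.sw 0 2 [25])) .no .no) .no)) .no (.br .no .no (.br (.br .no (.br (.br .no .no (.br .no (.br (.br .no (.br .no .no (.br .no .no .no (.de 44)) (.br .no .no (.de 44) .no)) .no (.br .no .no (.de 43) .no)) (.br .no .no .no (.de 42)) .no .no) .no .no) (.br .no (.br (.br .no (.br .no .no (.br .no .no .no (.de 44)) (.br .no .no (.de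 44) .no)) .no (.br .no .no (.de 43) .no)) (.br .no .no .no (.de 42)) .no .no) .no .no)) .no .no (.sw 0 2 [25])) .no .no) .no .no .no) .no)) .no .no (.sw 0 1 [14])) .no .no) .no)) .no (.br .no .no (.br (.br .no (.br (.br .no (.br .no .no (.br (.sw 1 3 [23]) (.br .no .no .no (.br .no .no (.br .no .no .no (.de 34)) .no)) .no .no) .no) .no (.br .no (.br (.br .no (.br .no .no (.br .no .no .no (.br .no (.sy 33 54 3) .no .no)) (.br .no .no (.br .no (.br (.br .no .no (.br .no .no .no (.de 43)) (.br .no .no (.de 43) .no)) .no (.br .no .no .no (.br .no .no (.de 43) .no)) .no) .no .no) .no)) .no (.br .no .no (.br .no .no .no (.br .no (.sy 33 54 3) .no .no)) .no)) .no .no .no) (.br (.sw 1 3 [23]) (.br .no .no .no (.br .no .no (.br .no .no .no (.br .no (.br (.br .no .no .no (.br (.br .no (.sy 31 27 7) .no .no) .no (.de 43) .no)) (.br (.br .no .no (.br (.sw 1 3 [23,30,31]) (.sy 31 27 7) .no .no) .no) .no .no (.de 42)) .no .no) .no .no)) .no)) .no .no) .no)) .no .no (.sw 0 1 [14])) .no .no) .no .no .no)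 .no)) (.sw 0 3 [15]) .no .no) .no) .no)

def c4_4_2 : Cert := (.br .no .no (.br (.br (.br .no (.br .no .no .no (.br .no .no c4_4_0 .no)) .no .no) .no (.br (.br .no (.br .no .no (.br (.br .no (.br .no .no .no (.br .no (.br .no .no (.sw 0 3 [15,22]) (.br (.br .no (.br .no .no (.br (.de 34) .no .no .no) (.br (.de 34) .no (.br (.br (.br .no (.sw 2 3 [29]) (.br .no .no .no (.de 43)) .no) .no (.br .no (.br .no .no (.sw 0 3 [15,22,29,30]) (.br (.br .no (.br .no .no .no (.de 41)) .no .no) .no (.de 44) .no)) .no .no) .no) .no .no .no) .no)) .no (.br .no .no (.br (.de 34) .no .no .no) .no)) .no .no .no)) .no (.br .no .no (.br (.br .no (.br .no .no (.br (.br .no (.br (.br .no (.br .no .no (.br (.br .no (.br .no .no (.de 41) (.de 46)) .no (.br .no .no (.de 41) .no)) .no .no (.de 44)) (.br (.br .no (.br .no .no (.de 41) (.de 46)) .no (.br .no .no (.de 41) .no)) .no .no .no)) .no (.br .no .no (.de 43) .no)) (.br .no .no .no (.de 42)) .no .no) .no .no) .no .no .no) (.br (.br .no (.br (.br .no (.br .no .no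 (.br (.br .no (.sw 2 3 [32]) (.br .no .no .no (.br .no .no (.de 47) .no)) .no) .no .no .no) (.br (.br .no (.sw 2 3 [32]) (.br .no .no .no (.br .no .no (.de 47) .no)) .no) .no (.de 44) .no)) .no (.br .no .no (.de 43) .no)) (.br .no .no .no (.de 42)) .no .no) .no .no) .no (.br (.br (.br .no (.br .no .no (.br (.br .no (.br .no .no .no (.de 46)) .no .no) .no .no .no) (.br (.br .no (.br .no .no .no (.de 46)) .no .no) .no (.de 44) .no)) .no (.br .no .no (.de 43) .no)) (.br .no .no .no (.de 42)) .no .no) (.br (.br .no (.br .no .no (.br (.br .no (.br (.br .no .no (.br .no .no .no (.de 43)) .no) .no .no (.de 46)) .no .no) .no .no .no) (.br (.br .no (.br (.br .no .no (.br .no .no .no (.de 48)) .no) .no .no (.de 46)) .no .no) .no (.de 44) .no)) .no (.br .no .no (.de 43) .no)) (.br .no .no .no (.de 42)) .no .no) .no .no) .no)) .no (.br .no .no (.br (.br .no (.br (.br .no (.br .no .no (.br (.sw 1 3 [31]) (.br .no .no .no (.de 45)) .no .no) .no) .no (.br .no (.br (.br .no (.br .no .no (.de 41) (.de 46))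 .no (.br .no .no (.de 41) .no)) .no .no .no) (.de 43) .no)) (.br .no .no .no (.de 42)) .no .no) .no .no) .no .no .no) .no)) .no .no (.br .no (.br .no .no (.br (.br .no (.br (.br .no (.br (.br .no .no .no (.br .no (.de 45) .no .no)) .no (.sw 0 3 [30]) .no) .no .no) (.br (.br .no .no (.br (.br .no (.br .no .no (.br (.br .no .no .no (.de 43)) .no .no .no) (.de 46)) .no (.br .no .no (.br (.br .no .no .no (.de 43)) .no .no .no) .no)) .no .no (.de 44)) .no) .no .no .no) .no .no) .no .no) .no .no .no) (.br (.br .no (.br (.br .no (.br (.br .no .no (.br .no (.br .no .no (.de 41) (.de 46)) .no .no) .no) .no (.sw 0 3 [30]) .no) .no .no) (.br (.br .no .no (.br (.br .no (.sw 2 3 [32]) (.sy 36 216 3) .no) .no .no .no) .no) .no .no .no) .no .no) .no .no) .no (.br (.br (.br .no (.br (.br .no .no (.br (.br .no (.br .no .no (.sw 1 3 [28]) .no) .no (.br .no (.sy 41 225 3) (.de 47) .no)) (.br .no .no .no (.de 46)) .no .no) .no) .no (.sw 0 3 [30]) .no) .no .no) (.br (.br .no .no (.br (.br .no (.br .no .no .no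 (.de 46)) .no .no) .no .no .no) .no) .no .no .no) .no .no) (.br (.br .no (.br (.br .no .no (.br (.br .no .no .no (.br .no .no (.de 47) .no)) (.br (.br .no .no (.br .no .no .no (.de 48)) .no) .no .no (.de 46)) .no .no) .no) .no (.sw 0 3 [30]) .no) .no .no) (.sy 28 27 7) .no .no) .no .no) .no)) .no .no)) .no))) .no (.de 27)) .no .no (.br .no (.br .no .no .no (.br .no (.br .no .no (.sw 0 3 [15,22]) (.br (.br .no (.br (.br .no .no (.br (.br (.br .no (.sw 2 3 [29]) (.br .no .no .no (.de 43)) .no) .no (.br .no (.br .no .no (.sw 0 3 [15,22,29,30]) (.br .no .no (.de 44) .no)) .no .no) .no) .no .no .no) .no) .no (.sw 0 3 [25]) .no) .no .no) .no .no .no)) .no (.br .no .no (.br (.br .no (.br (.br .no .no (.br (.br (.br .no (.br .no .no (.br .no .no .no (.de 44)) (.br .no .no (.de 44) .no)) .no (.br .no .no (.de 43) .no)) (.br .no .no .no (.de 42)) .no .no) (.br (.br .no (.br .no .no (.br .no .no .no (.de 44)) (.br .no .no (.de 44) .no)) .no (.br .no .no (.de 43) .no)) (.br .no .no .no (.de 42)) .no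 .no) .no .no) .no) .no (.sw 0 3 [25]) .no) .no .no) .no .no (.br (.br .no .no (.br (.br .no (.br (.br .no (.br .no .no (.br .no (.sw 0 3 [25,30,31]) .no (.de 44)) .no) .no .no) (.br (.br .no (.br .no .no .no (.br .no (.de 45) .no .no)) (.br .no (.br .no .no .no (.de 45)) .no (.de 44)) .no) .no .no .no) .no .no) .no .no) .no .no .no) .no) (.br (.br .no .no (.br (.br (.br .no (.br (.br .no .no (.br .no (.sw 0 3 [25,32]) .no (.br .no (.de 46) .no .no)) (.br .no (.de 45) .no .no)) .no (.sw 0 3 [30]) .no) .no .no) (.br (.br .no .no (.br .no .no .no (.de 44)) .no) .no .no .no) .no .no) (.br (.br .no (.br (.br .no .no (.br .no (.sw 0 3 [25,32]) .no (.br (.br .no .no (.br .no .no .no (.de 48)) .no) .no .no .no)) (.br .no (.de 45) .no .no)) .no (.sw 0 3 [30]) .no) .no .no) (.br (.br .no .no (.br .no .no .no (.de 44)) .no) .no .no .no) .no .no) .no .no) .no) .no (.sw 0 3 [25]) .no) .no .no)) .no))) .no .no)) (.br (.br .no (.br .no .no .no (.br .no (.br .no .no (.sw 0 3 [15,22]) (.br (.br .no (.sw 2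 3 [24]) (.br .no .no .no (.br (.de 34) .no (.br (.br (.br .no (.sw 2 3 [29]) (.br .no (.br (.br .no (.br .no .no .no (.de 46)) .no .no) .no .no .no) .no (.de 43)) .no) .no (.br .no (.br .no .no .no (.br (.sw 1 2 [31]) (.br (.br .no (.br .no .no .no (.br .no .no .no (.br .no .no (.de 44) .no))) .no (.de 41)) .no .no .no) .no .no)) .no .no) .no) .no .no .no) .no)) .no) .no (.br .no (.br .no .no (.br (.de 34) .no .no .no) (.br (.de 34) .no (.br (.br (.br .no (.br (.sw 2 3 [24,29,30]) .no .no (.sw 0 2 [30])) .no .no) .no (.br (.br .no .no .no (.br (.br .no (.br .no .no .no (.de 41)) .no .no) .no (.de 44) .no)) (.sw 0 3 [15,22,29]) .no .no) .no) .no .no .no) .no)) .no .no) .no)) .no (.br .no .no (.br (.br .no (.sw 2 3 [24]) (.br .no .no .no (.br (.br .no (.br (.br .no (.br .no .no .no (.br (.sw 1 2 [31]) (.br .no .no (.br .no .no .no (.br .no .no (.de 47) .no)) .no) .no .no)) .no (.br .no (.br (.br .no (.sw 2 3 [24,31,32]) (.br .no .no .no (.br .no .no (.de 47) .no)) .no) .no .no .no) .no .no))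 (.br .no .no .no (.de 42)) .no .no) .no .no) .no (.br (.br (.br .no (.br .no .no .no (.br (.sw 1 2 [31]) (.br (.br .no (.br .no .no (.sw 1 3 [28]) .no) .no (.br .no (.br .no .no .no (.de 48)) (.de 47) .no)) .no .no .no) .no .no)) .no (.sy 29 141 7)) (.br .no .no .no (.de 42)) .no .no) (.br (.br .no (.br .no .no .no (.br (.sw 1 2 [31]) (.br (.br .no .no .no (.br .no .no (.de 47) .no)) .no .no .no) .no .no)) .no (.br .no (.br (.br .no (.br (.sy 37 225 3) .no .no (.de 46)) .no .no) .no .no .no) .no .no)) (.br .no .no .no (.de 42)) .no .no) .no .no) .no)) .no) .no .no .no) .no))) .no (.de 27)) .no .no .no)) .no (.br .no .no (.br (.br .no (.br .no .no .no (.br .no (.br .no .no (.br (.sw 1 3 [23]) (.br .no .no .no (.br .no .no (.br (.de 34) .no .no .no) .no)) .no .no) .no) .no (.br .no (.br (.br .no (.br .no .no (.br (.br .no (.br (.br .no .no (.br .no .no .no (.de 43)) (.br .no .no (.de 43) .no)) .no (.br .no .no .no (.br .no .no (.de 43) .no)) .no) .no .no) .no .no .no) (.br (.br .no (.br (.br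 .no .no (.br .no .no .no (.de 43)) (.br .no .no (.de 43) .no)) .no (.br .no .no .no (.br .no .no (.de 43) .no)) .no) .no .no) .no (.br (.br (.br .no .no (.br .no .no .no (.de 43)) (.br .no .no (.de 43) .no)) .no (.br .no .no .no (.br .no .no (.de 43) .no)) .no) (.br (.br .no .no (.br .no .no .no (.de 43)) (.br .no .no (.de 43) .no)) .no (.br .no .no .no (.br .no .no (.de 43) .no)) .no) .no .no) .no)) .no (.br .no .no (.br (.br .no (.br (.br .no .no (.br .no (.br (.br .no (.br .no .no (.de 41) (.de 46)) .no (.br .no .no (.de 41) .no)) .no .no .no) .no .no) (.br .no (.br (.br .no (.br .no .no (.de 41) (.de 46)) .no (.br .no .no (.de 41) .no)) .no .no .no) (.de 43) .no)) .no (.br .no .no .no (.br .no (.br (.br .no (.br .no .no (.br (.br .no (.br .no .no (.br .no .no .no (.de 45)) .no) .no .no) .no .no .no) (.de 46)) .no (.br .no .no (.br (.br .no (.br .no .no (.br .no .no .no (.br .no (.de 46) .no .no)) .no) .no .no) .no .no .no) .no)) .no .no .no) (.de 43) .no)) .no) .no .no) .no .no .no) .no))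 .no .no .no) (.br (.sw 1 3 [23]) (.br .no .no .no (.br .no .no (.br (.br .no (.br (.br .no .no .no (.br (.br .no (.br .no .no .no (.de 45)) .no .no) .no (.de 43) .no)) (.br (.br .no .no (.br (.sw 1 3 [23,30,31]) (.br .no .no .no (.de 45)) .no .no) .no) .no .no (.de 42)) .no .no) .no .no) .no .no .no) .no)) .no .no) .no))) .no (.de 27)) .no .no (.br .no (.br .no .no .no (.br .no (.br .no .no (.br (.sw 1 3 [23]) (.br (.br .no .no (.br (.de 34) .no .no .no) .no) .no .no .no) .no .no) .no) .no (.br .no (.br (.br .no (.br (.sy 29 225 3) .no (.sw 0 3 [25]) .no) .no .no) .no .no .no) (.br (.sw 1 3 [23]) (.br (.br .no .no (.br (.br .no (.br (.br .no .no .no (.br .no .no (.de 43) .no)) (.br (.br .no .no (.sw 1 3 [23,30]) (.br .no (.br .no .no .no (.de 45)) .no .no)) .no .no (.de 42)) .no .no) .no .no) .no .no .no) .no) .no .no .no) .no .no) .no))) .no .no)) .no)) (.sw 0 3 [15]) .no .no) .no) .no .no .no) c4_4_1)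

def c4_4_3 : Cert := (.br (.br .no (.br .no .no .no (.br .no (.br (.br .no (.br .no .no (.br .no .no (.br (.br .no .no (.br .no .no .no (.br .no .no (.br (.br .no (.sw 0 3 [15,21]) .no (.br .no (.br .no .no .no (.de 42)) .no (.sy 28 141 7))) .no .no (.sy 30 78 3)) .no)) .no) .no .no .no) (.br (.br .no .no (.br .no .no .no (.br .no .no (.br (.br .no (.br .no (.br .no .no .no (.de 42)) (.br .no (.br (.br .no (.br .no .no .no (.de 45)) .no .no) .no .no .no) .no (.br (.br .no (.br .no .no .no (.de 45)) .no .no) (.br (.br .no (.br .no .no (.br (.br .no (.br .no .no (.br .no .no .no (.de 45)) .no) .no .no) .no .no .no) (.de 46)) .no (.br .no .no (.br (.br .no (.br .no .no (.br .no .no .no (.br .no (.de 46) .no .no)) .no) .no .no) .no .no .no) .no)) .no .no .no) .no .no)) .no) .no .no) .no .no (.sy 30 78 3)) .no)) .no) .no (.br (.br .no .no (.br .no .no .no (.br (.br .no (.br (.br .no (.br .no .no .no (.br (.br .no (.br .no .no (.de 41) (.de 46)) (.br .no .no .no (.br .no .no (.de 47) .no)) .no)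 (.br .no .no (.br .no .no .no (.br .no .no (.de 47) .no)) .no) .no .no)) .no (.br .no (.br (.br .no (.br .no .no (.de 41) (.de 46)) (.br .no .no .no (.br .no .no (.de 47) .no)) .no) .no .no .no) .no .no)) (.br .no .no .no (.de 42)) .no .no) .no .no) .no .no .no)) (.br .no .no (.br (.br .no (.br (.br .no (.br .no .no (.br (.br .no (.br .no .no (.de 41) (.de 46)) .no (.br .no .no (.de 41) .no)) (.br .no .no .no (.de 45)) .no .no) .no) .no (.br .no (.br (.br .no (.sw 2 3 [31,32]) .no (.br .no .no (.de 41) .no)) .no .no .no) (.de 43) .no)) (.br .no .no .no (.de 42)) .no .no) .no .no) .no .no (.br .no (.br (.br .no (.br .no .no (.br (.br .no (.br (.br .no .no (.br .no .no .no (.de 43)) .no) .no (.de 41) .no) .no .no) (.br (.br .no .no (.de 41) .no) .no .no .no) .no .no) .no) .no (.br .no (.br (.br .no (.br (.sy 37 225 3) .no (.de 41) .no) .no .no) .no .no .no) (.de 43) .no)) (.br .no .no .no (.de 42)) .no .no) .no .no)) .no)) .no .no .no) .no)) (.br .no .no (.br (.sy 22 114 7) .no .no .no) (.br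 (.sy 22 114 7) .no (.br (.br .no .no (.br .no .no .no (.br (.br .no (.sw 2 3 [27]) (.br (.br .no (.br .no .no .no (.br (.br .no (.br .no .no .no (.de 46)) (.br .no (.de 41) .no (.br .no (.br .no .no .no (.de 48)) .no .no)) .no) (.br .no .no (.br .no (.de 41) .no (.br .no (.br .no .no .no (.de 48)) .no .no)) .no) .no .no)) .no (.br .no (.br (.br .no (.br .no .no .no (.de 46)) (.br .no (.de 41) .no (.br .no (.br .no (.br .no .no (.br .no .no .no (.br .no (.de 46) .no .no)) .no) .no .no) .no .no)) .no) .no .no .no) .no .no)) (.br .no .no .no (.de 42)) .no .no) .no) .no (.br .no (.br (.br .no (.br .no .no .no (.br (.br .no (.br (.br .no .no (.br .no .no .no (.de 48)) .no) .no .no (.de 46)) .no .no) (.br (.br .no .no .no (.br .no .no (.de 47) .no)) .no .no .no) .no .no)) .no (.br .no (.br (.br .no (.br (.sw 2 3 [27,31,32,33]) .no .no (.de 46)) .no .no) .no .no .no) .no .no)) (.br .no .no .no (.de 42)) .no .no) .no .no) .no)) (.br .no .no (.br (.br .no (.sw 2 3 [27]) (.br (.br .no (.br .no .no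 (.br (.br .no (.br .no .no .no (.de 46)) .no (.sy 32 141 7)) (.br .no .no .no (.de 45)) .no .no) .no) .no (.br .no (.br (.br .no (.sw 2 3 [31,32]) .no (.sy 32 141 7)) .no .no .no) (.de 43) .no)) (.br .no .no .no (.de 42)) .no .no) .no) .no .no .no) .no)) .no .no .no) .no))) .no (.br .no .no (.br .no .no (.br (.br .no .no (.br .no .no .no (.br .no (.br (.br .no (.sw 0 3 [15,21]) .no (.br .no (.br .no .no .no (.de 42)) .no (.br .no (.de 42) .no .no))) .no .no .no) (.br (.sw 1 3 [26]) (.br .no .no .no (.br .no (.br .no .no .no (.de 42)) .no (.br .no (.de 42) .no .no))) .no .no) .no)) .no) .no .no .no) (.br (.br .no .no (.br .no .no .no (.br .no (.br (.br .no (.br .no (.br .no .no .no (.de 42)) (.br .no (.br (.br .no .no (.br .no .no .no (.br .no .no (.br (.br .no .no .no (.de 48)) .no .no .no) .no)) .no) .no .no .no) .no (.br (.br .no .no (.br .no .no .no (.br .no .no (.br (.br .no (.br .no .no (.br .no .no .no (.br .no (.de 46) .no .no)) .no) .no .no) .no .no .no) .no)) .no) (.br (.br .no .no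 (.br .no .no .no (.br (.br .no (.br .no .no (.br .no .no .no (.br .no (.de 46) .no .no)) .no) .no .no) .no .no .no)) (.br .no .no (.br (.br .no (.br .no .no (.br .no .no .no (.br .no (.de 46) .no .no)) .no) .no .no) .no .no .no) .no)) .no (.br .no .no .no (.br .no .no (.br (.br .no (.br .no .no (.br .no .no .no (.sw 0 1 [37])) .no) .no .no) .no .no .no) .no)) .no) .no .no)) .no) .no .no) .no .no .no) (.br (.sw 1 3 [26]) (.de 34) .no .no) .no)) .no) .no (.br (.br .no .no (.br .no (.br (.br .no (.br (.br .no (.br .no .no .no (.br (.br .no .no (.sw 1 3 [26,32]) (.br .no .no (.de 41) .no)) .no .no .no)) .no (.br .no (.br (.br .no .no (.sw 1 3 [26,32]) (.br .no .no (.de 41) .no)) .no .no (.br .no .no (.br .no .no .no (.br .no .no (.de 47) .no)) .no)) .no .no)) (.br .no .no .no (.de 42)) .no .no) .no .no) .no .no .no) .no .no) (.br .no (.br (.br .no (.br (.br .no (.br .no .no (.br (.br .no .no (.br .no .no .no (.br .no .no (.de 47) .no)) (.br .no .no (.de 41) .no)) .no .no .no) .no) .no (.br .no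 (.br (.sw 2 3 [31]) .no (.br .no .no .no (.br .no .no (.de 41) .no)) .no) (.de 43) .no)) (.br .no .no .no (.de 42)) .no .no) .no .no) .no .no .no) (.br (.sw 1 3 [26]) (.de 34) .no .no) .no)) .no .no .no) .no)) .no)) .no .no .no) (.br (.sw 1 3 [18]) (.br .no .no .no (.br .no .no (.br .no .no (.br (.br .no (.br (.br .no .no (.br (.sw 1 3 [18,25,26]) (.br .no .no .no (.br .no (.br .no .no (.br .no .no .no (.de 43)) (.de 42)) .no (.br .no .no (.br .no .no .no (.de 43)) .no))) .no .no) .no) .no .no (.br (.br .no (.br .no .no .no (.br .no (.br .no .no (.br (.br .no (.br .no .no (.br (.de 41) .no .no .no) (.de 45)) (.br .no .no .no (.br (.de 41) .no (.sw 0 1 [25,32,33]) .no)) .no) .no .no .no) (.de 42)) .no (.br .no .no (.br (.br .no (.br .no .no (.br (.br .no (.br .no (.br .no .no .no (.br .no .no (.br .no .no .no (.br .no (.br .no .no (.sw 0 3 [15,21,34,40]) (.br (.sw 2 3 [47]) .no .no .no)) .no .no)) .no)) .no .no) .no .no) .no .no .no) (.de 45)) (.br .no .no .no (.br (.br .no (.br .no (.br .no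 .no .no (.de 44)) .no .no) .no .no) .no (.sw 0 1 [25,32,33]) .no)) .no) .no .no .no) .no))) .no .no) .no (.sw 0 1 [25]) .no)) .no .no) .no .no .no) (.br (.br .no (.br (.br .no .no (.br (.sw 1 3 [18,25,26]) (.de 34) .no .no) .no) .no .no (.br (.br .no (.de 34) .no .no) .no (.sw 0 1 [25]) .no)) .no .no) .no (.br (.br .no .no .no (.br (.br .no (.de 34) .no .no) .no (.sw 0 1 [25]) .no)) (.br (.br .no .no (.br (.sw 1 3 [18,25,26]) (.de 34) .no .no) .no) .no .no (.br (.br .no (.de 34) .no .no) .no (.sw 0 1 [25]) .no)) .no .no) .no)) .no)) .no .no) .no)) .no .no) .no (.br (.br .no (.br .no .no (.br (.sw 1 3 [18]) (.br .no .no .no (.de 27)) .no .no) .no) .no (.br .no (.br (.br .no (.br .no .no .no (.br .no (.br .no .no (.br (.br .no .no (.sw 1 3 [18,23,24]) (.br .no .no (.br (.de 34) .no .no .no) .no)) .no .no .no) .no) .no (.br .no (.br (.br .no .no (.br .no .no .no (.br (.br .no (.br (.br .no .no (.br .no (.br (.br .no (.br .no .no (.de 41) (.de 46)) (.br .no .no .no (.br .no .no (.de 47) .no))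 .no) .no .no .no) .no (.de 43)) (.br .no (.br (.br .no (.br .no .no (.de 41) (.de 46)) (.br .no .no .no (.br .no .no (.de 47) .no)) .no) .no .no .no) .no .no)) .no (.br .no .no .no (.br .no (.br (.br .no (.br .no .no (.br (.br .no (.br .no .no (.br .no .no .no (.de 45)) .no) .no .no) .no .no .no) (.de 46)) (.br .no .no .no (.br (.br .no (.br .no .no (.br .no .no .no (.br .no (.de 46) .no .no)) .no) .no .no) .no .no .no)) .no) .no .no .no) .no .no)) .no) .no .no) .no (.br (.br (.br .no .no (.br .no (.br (.br .no (.br .no .no .no (.de 46)) .no .no) .no .no .no) .no (.de 43)) (.br .no (.br (.br .no (.br .no .no .no (.de 46)) .no .no) .no .no .no) .no .no)) .no (.br .no .no .no (.br .no (.br (.br .no (.br .no .no .no (.de 46)) .no .no) .no .no .no) .no .no)) .no) (.br (.br .no .no (.br .no (.br (.br .no (.br (.sy 37 225 3) .no .no (.de 46)) .no .no) .no .no .no) .no (.de 43)) (.br .no (.br (.br .no (.br (.sy 37 225 3) .no .no (.de 46)) .no .no) .no .no .no) .no .no)) .no (.br .no .no .no (.br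 .no (.br (.br .no (.br (.de 41) .no .no (.de 46)) .no .no) .no .no .no) .no .no)) .no) .no .no) .no)) (.br .no .no (.br (.br .no (.br (.br .no .no (.br .no (.br (.br .no (.sw 2 3 [31,32]) .no (.br .no .no (.de 41) .no)) .no .no .no) .no .no) (.br .no (.br (.br .no (.sw 2 3 [31,32]) .no (.br .no .no (.de 41) .no)) .no .no .no) (.de 43) .no)) .no (.br .no .no .no (.br .no (.br (.br .no (.sw 2 3 [31,32]) .no (.br .no .no (.br (.br .no (.br .no .no (.br .no .no .no (.br .no (.de 46) .no .no)) .no) .no .no) .no .no .no) .no)) .no .no .no) (.de 43) .no)) .no) .no .no) .no .no .no) .no)) .no (.br .no .no .no (.br .no .no (.br (.br .no (.br (.br .no .no .no (.br (.br .no (.br .no .no .no (.de 45)) .no .no) (.sw 0 2 [30]) .no .no)) .no (.br (.br .no (.br (.br .no (.sy 36 228 3) .no (.br .no .no (.br (.sy 40 201 3) .no .no .no) .no)) .no .no .no) .no .no) .no .no (.br (.br .no (.br .no .no .no (.de 45)) .no .no) (.sw 0 2 [30]) .no .no)) .no) .no .no) .no .no .no) .no)) .no) (.br (.br .no .no (.sw 1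 3 [18,23,24]) (.br .no .no (.br (.br .no (.br (.br .no (.br .no .no (.br (.sw 1 3 [18,23,24,31]) (.br .no .no .no (.de 45)) .no .no) .no) .no (.sw 1 2 [29])) (.br .no .no .no (.de 42)) .no .no) .no .no) .no .no .no) .no)) .no .no .no) .no))) .no (.de 27)) .no .no .no) (.br (.sw 1 3 [18]) (.br .no .no .no (.de 27)) .no .no) .no)) (.sw 0 3 [15]) .no .no) .no)

def c4_4_4 : Cert := (.br (.br .no (.br .no .no .no (.br .no .no (.br (.br (.br .no (.sw 2 3 [7,8,15]) (.br .no .no .no (.br (.br .no (.br .no .no .no (.br .no .no (.br .no (.br (.br .no (.sw 2 3 [7,8,15,22,23]) (.br .no .no .no (.br (.br .no (.br .no .no .no (.br .no .no (.br .no (.br (.br .no (.sw 2 3 [7,8,15,22,23,30,31]) (.br .no .no .no (.br (.de 41) .no (.br (.br .no .no .no (.de 48)) .no .no .no) .no)) .no) .no .no .no) .no (.br (.sw 1 2 [30]) (.br .no .no (.br .no .no .no (.br (.de 41) .no (.br (.br .no (.br .no .no (.br .no .no .no (.sw 0 1 [37])) .no) .no .no) .no .no .no) .no)) .no) .no .no)) (.br .no (.de 42) .no .no))) .no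 .no) .no (.br (.br .no .no .no (.br .no .no (.br .no (.br (.br .no (.br .no .no .no (.de 45)) .no .no) .no .no .no) .no (.br (.sw 1 2 [30]) (.br (.br .no (.br .no .no (.br (.br .no (.br .no .no (.br .no .no .no (.de 45)) .no) .no .no) .no .no .no) .no) .no (.br .no (.de 46) (.br (.br .no (.br .no .no (.br .no .no .no (.br .no (.de 46) .no .no)) .no) .no .no) .no .no .no) .no)) .no .no .no) .no .no)) (.br .no (.de 42) .no .no))) (.br .no .no .no (.br .no .no (.br .no (.br (.br .no (.br (.sy 36 225 3) .no .no (.de 45)) .no .no) .no .no .no) .no (.br (.sw 1 2 [30]) (.br (.br .no .no .no (.br (.de 41) .no (.sw 0 1 [33]) .no)) .no .no .no) .no .no)) (.br .no (.de 42) .no .no))) .no .no) .no)) .no) .no .no .no) .no (.br (.sw 1 2 [22]) (.br .no .no (.br .no .no .no (.br (.br .no (.de 34) .no .no) .no (.br (.br .no (.br (.br .no .no .no (.br (.sw 1 2 [22,29,30]) (.br (.br .no (.br .no .no (.de 41) (.de 46)) .no (.br .no .no (.de 41) .no)) .no .no .no) .no .no)) .no (.br (.br .no (.br (.br .no (.sy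 36 228 3) .no (.br .no .no (.br (.sy 40 201 3) .no .no .no) .no)) .no .no .no) .no .no) .no .no (.sw 0 1 [29])) .no) .no .no) (.de 34) .no .no) .no)) .no) .no .no)) .no)) .no .no) .no (.br (.br .no (.br .no .no (.br .no (.br (.br .no (.br .no .no .no (.br .no .no (.br (.br .no .no .no (.br .no .no (.br .no .no .no (.br (.br .no (.br .no .no .no (.de 45)) .no .no) .no (.de 43) .no)) (.br .no .no (.br (.br .no (.br .no .no .no (.de 45)) .no .no) .no .no .no) .no))) .no .no (.de 34)) .no)) .no .no) .no .no .no) .no (.br (.sw 1 2 [22]) (.br (.br .no (.br .no .no (.br (.br .no (.br (.br .no .no (.br .no .no .no (.de 43)) (.sw 1 2 [22,29])) .no (.br .no .no .no (.br .no .no (.de 43) .no)) .no) .no .no) .no .no (.br .no (.sy 33 54 3) .no .no)) (.br (.br .no (.br (.br .no .no (.br .no .no .no (.de 43)) (.sw 1 2 [22,29])) .no (.br .no .no .no (.br .no .no (.de 43) .no)) .no) .no .no) .no .no .no)) .no (.br .no .no (.br (.br .no (.br (.br .no .no (.br .no (.br (.br .no (.br .no .no (.de 41) (.de 46))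 .no (.br .no .no (.de 41) .no)) .no .no .no) .no .no) (.sw 1 2 [22,29])) .no (.br .no .no .no (.br .no (.br (.br .no (.br .no .no (.br (.br .no (.br .no .no (.br .no .no .no (.de 45)) .no) .no .no) .no .no .no) (.de 46)) .no (.br .no .no (.br (.br .no (.br .no .no (.br .no .no .no (.br .no (.de 46) .no .no)) .no) .no .no) .no .no .no) .no)) .no .no .no) (.de 43) .no)) .no) .no .no) .no .no (.br .no (.sy 33 54 3) .no .no)) .no)) .no .no .no) .no .no)) (.br .no (.br (.br .no (.br .no .no .no (.br .no .no (.br (.br .no .no (.br .no .no (.br .no .no .no (.br (.br .no (.br .no .no .no (.de 45)) .no .no) .no (.de 43) .no)) (.br .no .no (.br (.br .no (.br .no .no .no (.de 45)) .no .no) .no .no .no) .no)) .no) .no .no .no) .no)) .no .no) .no .no .no) .no (.br (.sw 1 2 [22]) (.br (.br .no (.br .no .no (.br (.br .no (.sw 2 3 [27]) (.br (.br .no .no (.br .no .no .no (.de 43)) (.sw 1 2 [22,29])) .no (.br .no .no .no (.br .no .no (.de 43) .no)) .no) .no) .no .no .no) (.br (.br .no (.sw 2 3 [27]) (.br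 (.br .no .no (.br .no .no .no (.de 43)) (.sw 1 2 [22,29])) .no (.br .no .no .no (.br .no .no (.de 43) .no)) .no) .no) .no (.br .no (.br (.br .no .no (.br .no .no .no (.de 43)) (.sw 1 2 [22,29])) .no (.br .no .no .no (.br .no .no (.de 43) .no)) .no) .no .no) .no)) .no (.br .no .no (.br (.br .no (.sw 2 3 [27]) (.br (.br .no .no (.br .no (.br (.br .no (.br .no .no .no (.de 46)) .no (.br .no (.de 41) .no .no)) .no .no .no) .no .no) (.sw 1 2 [22,29])) .no (.br .no .no .no (.br .no (.br (.br .no (.br .no .no .no (.de 46)) .no (.br .no (.de 46) .no .no)) .no .no .no) (.de 43) .no)) .no) .no) .no .no .no) .no)) .no .no .no) .no .no))) .no (.br .no .no (.br .no (.br (.br .no (.br .no .no .no (.br .no (.br (.br .no .no .no (.sy 27 141 7)) .no .no .no) (.br (.sw 1 3 [26]) (.br .no .no .no (.sy 27 141 7)) .no .no) .no)) .no .no) .no .no .no) .no (.br (.sw 1 2 [22]) (.br (.br .no (.br .no .no (.br (.sw 1 3 [26]) (.de 34) .no .no) .no) .no (.br .no (.br (.br .no (.br (.br .no .no (.br .no (.br (.br .no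 .no (.br .no .no .no (.br .no .no (.de 47) .no)) (.sy 32 177 7)) .no (.br .no .no .no (.sy 32 177 7)) .no) .no .no) (.sw 1 2 [22,29])) .no (.br .no .no .no (.br .no (.br (.br .no .no (.br .no .no .no (.br (.br .no (.br .no .no (.br .no .no .no (.br .no (.de 46) .no .no)) .no) .no .no) .no .no .no)) (.sy 32 177 7)) .no (.br .no .no .no (.sy 32 177 7)) .no) (.de 43) .no)) .no) .no .no) .no .no .no) (.br (.sw 1 3 [26]) (.de 34) .no .no) .no)) .no .no .no) .no .no)) .no)) (.br .no .no .no (.br .no .no (.br .no (.br (.br .no (.br (.sy 28 225 3) .no .no (.sw 0 2 [24])) .no .no) .no .no .no) .no (.br (.sw 1 2 [22]) (.br (.br .no .no .no (.br (.br .no (.de 34) .no .no) .no (.sw 0 1 [25]) .no)) .no .no .no) .no .no)) .no)) .no .no) .no)) .no) .no (.br .no (.br .no .no (.br (.br .no (.br .no .no .no (.de 27)) .no .no) .no .no .no) (.br (.br .no (.br .no .no .no (.de 27)) .no .no) .no (.br (.br .no (.br .no .no .no (.br (.br .no .no (.br (.br .no (.br .no .no (.br (.br .no (.sw 2 3 [7,8,15,21,27]) .no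 .no) .no .no .no) (.br (.br .no (.sw 2 3 [7,8,15,21,27]) .no .no) .no (.br .no (.br .no (.br .no .no .no (.de 42)) .no (.br .no (.de 42) .no .no)) .no .no) .no)) .no (.br .no .no (.br (.br .no (.sw 2 3 [7,8,15,21,27]) .no .no) .no .no .no) .no)) (.br .no .no .no (.br .no .no (.br (.br .no (.sw 2 3 [7,8,15,21,27]) .no .no) .no .no .no) .no)) .no .no) .no) .no .no (.br (.br .no (.br .no .no .no (.br .no .no (.br (.br .no (.sw 0 2 [21]) .no .no) .no .no .no) .no)) .no .no) .no (.br (.br .no (.br .no .no (.br (.br .no (.sw 0 2 [21]) .no .no) .no .no .no) (.br (.br .no (.sw 0 2 [21]) .no .no) .no (.br (.br (.br .no (.br .no .no (.br (.br .no (.br .no .no .no (.de 46)) .no .no) .no .no .no) (.br (.br .no (.br .no .no .no (.de 46)) .no .no) .no (.de 44) .no)) .no (.br .no .no (.de 43) .no)) (.br .no .no .no (.de 42)) .no .no) (.sw 0 2 [21]) .no .no) .no)) .no (.br .no .no (.br (.br .no (.sw 0 2 [21]) .no .no) .no .no .no) .no)) (.br .no .no .no (.br .no .no (.br (.br .no (.sw 0 2 [21]) .no .no)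 .no .no .no) .no)) .no .no) .no))) .no (.de 27)) (.br .no .no .no (.de 27)) .no .no) .no)) .no .no) .no) .no .no .no) .no)) .no .no) .no (.br (.br .no c4_4_2 .no (.br .no .no (.br c4_4_3 .no .no .no) .no)) (.br .no .no .no (.br .no .no (.br (.br (.br .no (.br (.br .no .no (.br (.br .no (.br .no .no (.br .no .no (.sy 21 228 7) (.br .no .no (.br .no (.br .no .no .no (.br .no .no (.br (.br .no (.br (.sy 21 228 14) (.br (.sy 21 228 15) .no .no (.de 42)) .no .no) .no .no) .no .no (.br .no (.br (.br .no .no .no (.br (.br .no (.sy 31 27 7) .no .no) .no (.de 43) .no)) (.br (.br .no .no (.br (.br .no (.br (.br .no .no (.sw 0 3 [15,21,28]) .no) .no (.sw 0 3 [33]) .no) .no .no) (.sy 31 27 7) .no .no) .no) .no .no (.de 42)) .no .no) .no .no)) .no)) .no (.br .no (.br .no .no (.br (.br .no (.br (.br .no (.br (.br .no .no .no (.br .no (.de 45) .no .no)) .no (.br (.br .no (.br .no .no (.de 41) (.de 46)) .no (.br .no .no (.de 41) .no)) .no .no (.de 44)) .no) .no .no) (.br (.br .no .no (.br (.sw 1 3 [30,31])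 .no .no (.de 44)) .no) .no .no .no) .no .no) .no .no) .no .no (.br .no (.br (.br .no (.br (.br .no .no .no (.br (.br .no .no (.de 41) .no) (.de 45) .no .no)) .no (.br (.br .no (.br (.br .no .no (.br .no .no .no (.de 43)) .no) .no (.de 41) .no) .no .no) .no .no (.de 44)) .no) .no .no) (.br (.br .no .no (.br (.sw 1 3 [30,31]) .no .no (.de 44)) .no) .no .no .no) .no .no) .no .no)) (.br (.br .no (.br (.br .no (.br (.br .no .no (.br .no (.br .no .no (.de 41) (.de 46)) .no .no) .no) .no (.br (.br .no (.sw 2 3 [32]) (.br .no .no .no (.br .no .no (.de 47) .no)) .no) .no .no .no) .no) .no .no) (.br (.br .no .no (.br (.br .no (.sw 2 3 [32]) (.sy 36 216 3) .no) .no .no .no) .no) .no .no .no) .no .no) .no .no) .no .no .no)) .no .no)) .no)) (.br .no .no (.br .no .no .no (.br .no (.br .no .no .no (.br .no .no (.br (.br .no (.sw 2 3 [27]) .no .no) .no .no .no) .no)) .no .no)) (.br .no .no (.br .no (.br .no .no .no (.br .no .no (.br (.br .no (.sw 2 3 [27]) (.br (.br .no .no .no (.br (.br .no (.br .no .no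 .no (.de 45)) .no .no) .no (.de 43) .no)) (.br (.br .no .no (.br (.br .no (.br .no .no .no (.de 46)) .no (.br .no (.de 46) .no .no)) (.br .no .no .no (.de 45)) .no .no) .no) .no .no (.de 42)) .no .no) .no) .no .no .no) .no)) .no (.br .no (.br .no .no (.br (.br .no (.sw 2 3 [27]) (.sy 34 78 3) .no) .no .no .no) (.br (.br .no (.sw 2 3 [27]) (.sy 34 78 3) .no) .no (.br .no (.br (.br .no (.br (.br .no .no (.br (.br .no .no .no (.br .no .no (.de 47) .no)) (.br (.br .no .no (.br .no .no .no (.de 48)) .no) .no .no (.de 46)) .no .no) .no) .no (.br (.br .no (.br (.sw 2 3 [27,32,33]) .no .no (.de 46)) .no .no) .no .no .no) .no) .no .no) (.sy 28 27 7) .no .no) .no .no) .no)) .no .no)) .no))) .no (.br .no .no (.br .no .no (.br .no .no .no (.br .no (.br .no .no .no (.br .no (.sy 29 54 3) (.br (.sw 1 3 [26]) (.br .no .no .no (.br (.br .no .no (.br (.br .no (.br (.br .no .no (.br .no (.sw 0 3 [15,21,34]) .no .no) .no) .no .no (.de 45)) .no .no) .no .no .no) .no) (.br (.br .no .no (.br (.br .no .no .no (.br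 (.de 41) .no (.sw 0 1 [33]) .no)) (.br (.br .no .no (.br (.sw 1 3 [26,33,34]) .no .no .no) .no) .no .no (.de 45)) .no .no) .no) .no (.br (.br .no (.br (.br .no .no (.br (.sw 1 3 [26,33,34]) .no .no .no) .no) .no .no (.de 45)) .no .no) .no .no .no) .no) .no .no)) .no .no) .no)) .no .no)) (.br .no .no (.br .no (.br .no .no .no (.br .no (.br (.br .no (.br (.br .no .no .no (.br (.br .no .no (.br .no .no .no (.br .no .no (.de 41) .no)) .no) .no (.de 43) .no)) (.br (.br .no .no (.br (.br .no .no (.sw 1 3 [26,30,31,32]) (.br .no .no (.br (.sw 2 3 [28,29]) .no .no .no) .no)) .no .no .no) .no) .no .no (.de 42)) .no .no) .no .no) .no .no .no) (.br (.sw 1 3 [26]) (.de 34) .no .no) .no)) .no (.br .no (.br .no .no (.br (.sw 1 3 [26]) (.de 34) .no .no) .no) .no .no)) .no)) .no)) (.br .no .no .no (.br .no .no (.br .no .no (.br .no .no .no (.br .no (.br (.br .no .no (.br (.br .no (.sw 0 3 [15,21]) .no (.br (.br .no .no (.br .no .no .no (.de 43)) .no) (.br (.br .no .no (.br .no (.br .no .no .no (.de 45))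 .no (.de 44)) (.br .no (.br .no .no .no (.de 45)) .no .no)) .no (.br .no .no .no (.de 43)) .no) .no .no)) (.br .no .no .no (.br (.br .no .no (.br .no .no .no (.de 43)) .no) (.br (.br .no .no (.br .no (.br (.br .no .no (.br (.br .no .no .no (.de 43)) .no .no .no) .no) .no .no (.de 45)) .no (.de 44)) (.br .no (.br (.br .no .no (.br (.br .no .no .no (.de 48)) .no .no .no) .no) .no .no (.de 45)) .no .no)) .no (.br .no .no .no (.de 43)) .no) .no .no)) .no .no) .no) .no .no (.sw 0 2 [16,23,24])) .no .no)) (.br .no .no (.br .no (.br (.br .no .no (.br (.br .no (.br (.br .no .no .no (.br .no .no (.de 43) .no)) (.br (.br .no .no (.br .no (.br .no .no .no (.de 45)) .no (.de 44)) (.br .no (.br .no .no .no (.de 45)) .no .no)) .no .no (.de 42)) .no .no) .no .no) (.de 34) .no .no) .no) .no .no (.br (.br .no (.de 34) .no .no) .no (.sw 0 1 [25]) .no)) .no (.br (.br .no .no (.br (.br .no (.br (.br .no (.br .no .no (.br .no (.br .no .no .no (.de 45)) .no (.de 44)) .no) .no .no) (.br (.br .no (.br .no .no .no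 (.br .no (.de 45) .no .no)) (.sw 1 3 [30]) .no) .no .no .no) .no .no) .no .no) (.de 34) .no .no) .no) .no .no .no)) .no)) .no)) .no .no) .no) .no .no (.sw 0 2 [16])) .no .no) .no (.br (.br .no .no .no (.br (.br .no (.br .no .no .no (.de 27)) .no .no) .no (.sw 0 1 [17]) .no)) (.sw 0 3 [15]) .no .no) .no) .no .no .no) .no)) .no .no) .no)

theorem P4_4 : R.S 15 347530372 :=
  R.piece L hL (.br (.br .no .no (.br (.br .no (.br .no .no (.br (.sw 2 3 [7,8]) .no .no .no) (.br (.sw 2 3 [7,8]) .no (.br .no .no (.br .no (.br .no .no .no (.br .no .no (.br (.br .no (.br (.sw 2 3 [7,8,19,20]) .no .no (.sw 0 2 [20])) .no .no) .no .no .no) .no)) .no (.br .no (.br .no .no (.br (.br .no (.br (.sw 2 3 [7,8,19,20]) .no .no (.sw 0 2 [20])) .no .no) .no .no .no) (.br (.br .no (.br (.sw 2 3 [7,8,19,20]) .no .no (.sw 0 2 [20])) .no .no) .no (.br (.br .no .no .no (.br (.br .no .no (.br (.br .no (.br .no .no .no (.br .no (.de 34) (.br .no (.br .no (.br .no .no .no (.de 42)) .no (.br .no (.de 42) .no .no)) .no .no)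 .no)) .no .no) .no .no .no) .no) (.br (.br .no .no (.br (.br .no (.br .no .no (.br (.br .no .no (.br .no (.br .no .no .no (.br .no .no (.de 44) .no)) .no (.br .no (.br .no .no (.br (.br .no (.br .no .no .no (.br .no (.br .no .no (.br .no .no .no (.br .no (.br .no .no .no (.br .no .no (.br .lf .no .no .no) .no)) .no .no)) .no) .no .no)) .no (.de 41)) .no .no (.br .no (.de 46) .no .no)) (.br (.br .no (.br .no .no .no (.br .no (.br .no .no (.de 44) .no) .no .no)) .no (.de 41)) .no .no .no)) .no .no)) (.br .no (.de 42) .no .no)) .no .no .no) .no) .no (.br .no (.br (.sy 33 225 3) .no .no .no) (.br (.br .no .no (.br .no (.br .no .no .no (.br .no (.br (.br .no (.br .no .no .no (.br .no .no .no (.br .no .no (.de 44) .no))) .no (.de 41)) .no .no .no) (.de 44) .no)) .no (.br .no (.br .no .no (.br (.sw 1 3 [32]) (.br .no .no .no (.de 41)) .no .no) .no) .no .no)) (.br .no (.de 42) .no .no)) .no .no .no) .no)) (.br .no .no .no (.br .no (.sw 0 2 [20,25,26]) (.br (.br .no .no (.br .no (.br (.br .no .no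 (.br (.br .no (.br .no .no .no (.br .no .no .no (.br .no .no (.br .no .no .no (.br .no (.br .no .no .no (.br .no .no (.br .lf .no .no .no) .no)) .no .no)) .no))) .no (.de 41)) (.br .no .no .no (.de 41)) .no .no) .no) .no .no (.br (.br .no (.br .no .no .no (.de 41)) .no .no) .no (.de 44) .no)) .no (.br (.br .no .no (.br (.br .no (.br .no .no .no (.br .no (.br .no .no (.br .no .no .no (.sw 0 1 [31,37])) .no) .no .no)) .no (.de 41)) (.br .no .no .no (.de 41)) .no .no) .no) .no .no .no)) (.br .no (.de 42) .no .no)) .no .no .no) .no)) .no .no) .no) .no (.br (.br .no (.br .no .no .no (.br .no (.sw 0 2 [20,25,26]) (.br (.br (.br .no (.br .no .no (.br (.br .no (.br .no .no .no (.de 46)) .no .no) .no .no .no) (.br (.br .no (.br .no .no .no (.de 46)) .no .no) .no (.de 44) .no)) .no (.br .no .no (.de 43) .no)) .no .no (.br .no (.de 42) .no .no)) .no .no .no) .no)) .no .no) .no .no .no) .no) .no .no)) (.br (.br (.br .no .no (.br (.br .no (.br (.sw 2 3 [7,8,19,20,24,25]) .no .no (.sw 0 2 [25])) .no .no)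 .no .no .no) .no) (.br (.br .no .no (.br (.br .no .no .no (.br .no .no (.br .no .no .no (.br .no .no (.br .no (.br .no .no .no (.br .no (.br (.br .no (.br (.sy 38 225 3) .no .no .no) .no .no) .no .no .no) (.de 44) .no)) .no (.br .no (.br .no .no (.br (.br .no (.br (.br .no (.br .no .no (.br .no .no .no (.br .no (.br .no .no .no (.br .no .no (.br .no .no .no .lf) .no)) .no .no)) .no) .no .no) .no .no .no) .no .no) (.br (.de 41) .no .no .no) .no .no) .no) .no .no)) (.br .no (.de 42) .no .no))) .no)) (.br (.br .no .no (.br .no .no .no (.br .no .no (.br .no (.br (.sw 2 3 [7,8,19,20,24,25,30]) .no .no (.br .no .no (.de 44) .no)) .no (.br (.br .no .no (.br .no (.br (.de 41) .no .no .no) .no (.br (.de 41) (.de 46) .no .no)) (.br .no (.de 45) .no .no)) .no .no .no)) (.br .no (.de 42) .no .no))) (.de 34)) .no .no (.sw 0 2 [25])) .no .no) .no) .no (.br (.br .no (.br (.sw 2 3 [7,8,19,20,24,25]) .no .no (.sw 0 2 [25])) .no .no) .no .no .no) .no) .no .no) .no .no (.sw 0 2 [20])) .no .no) .no)) .no .no))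 (.br .no (.br .no .no .no (.br .no .no (.br (.br .no (.br (.sw 2 3 [7,8,19,20]) .no .no .no) .no .no) .no .no .no) .no)) .no .no)) .no)) .no (.br .no .no (.br (.sw 2 3 [7,8]) .no .no .no) .no)) (.br .no .no .no (.br .no .no (.br (.sw 2 3 [7,8]) .no .no .no) .no)) .no .no) .no) .no .no c4_4_4) 15 347530372 1073741824 (by norm_num) (by norm_num) (by norm_num) (by decide +kernel)

def c4_5_0 : Cert := (.br (.br .no .no .no (.br (.br .no (.sy 10 27 7) .no .no) .no (.br (.br .no (.br (.br .no .no (.br .no (.br (.br .no (.br .no .no (.br .no .no .no (.br .no (.br .no .no .no (.sy 25 54 3)) .no .no)) (.br .no .no (.br .no (.sw 0 3 [12,19]) .no (.de 27)) .no)) .no (.br .no .no (.br .no .no .no (.br .no (.br .no .no .no (.sy 25 54 3)) .no .no)) .no)) .no .no .no) (.br (.br .no (.br .no .no (.br .no .no .no (.br .no (.br .no .no .no (.br .no (.br .no .no (.br (.br .no (.br (.br .no .no (.br (.br (.br .no (.br .no .no (.sy 30 228 7) (.br .no .no (.de 44) .no)) .no (.br .no .no (.de 43) .no)) .no .no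 (.br .no (.de 42) .no .no)) .no .no .no) .no) .no (.sw 0 3 [12,19,25]) .no) .no .no) .no .no (.br (.br .no .no (.br (.de 34) .no .no .no) .no) (.br (.br .no .no (.br (.br (.br .no (.br (.br .no .no (.br .no (.sw 0 3 [12,19,25,32]) .no (.br .no (.de 46) .no .no)) (.br .no (.de 45) .no .no)) .no (.sw 0 3 [30]) .no) .no .no) .no .no (.br (.br .no .no (.br .no .no .no (.de 44)) .no) (.de 42) .no .no)) .no .no .no) .no) .no (.sw 0 3 [12,19,25]) .no) .no .no)) (.br (.br .no (.br (.br .no .no (.br (.br (.br .no (.sw 2 3 [29]) (.br .no .no .no (.de 43)) .no) .no (.br .no (.br .no .no (.br .no .no .no (.de 44)) (.br .no .no (.de 44) .no)) .no .no) .no) .no .no .no) .no) .no (.sw 0 3 [12,19,25]) .no) .no .no) .no .no .no)) .no (.br .no .no (.br (.br .no (.br (.br .no .no (.br (.sw 1 2 [21]) (.br (.br .no (.br .no .no (.br .no .no .no (.de 44)) (.br .no .no (.de 44) .no)) .no (.br .no .no (.de 43) .no)) (.br .no .no .no (.de 42)) .no .no) .no .no) .no) .no (.sw 0 3 [12,19,25]) .no) .no .no) .no .no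 (.br (.br .no .no (.br (.br .no (.br (.br .no (.br .no .no (.br .no (.sw 0 3 [12,19,25,30,31]) .no (.de 44)) .no) .no .no) (.br (.br .no (.br .no .no .no (.br .no (.de 45) .no .no)) (.br .no (.br .no .no .no (.de 45)) .no (.de 44)) .no) .no .no .no) .no .no) .no .no) .no .no .no) .no) (.br (.br .no .no (.br (.sw 1 2 [21]) (.br (.br .no (.br (.br .no .no (.br .no (.sw 0 3 [12,19,25,32]) .no (.br (.br .no .no (.br .no .no .no (.de 48)) .no) .no .no .no)) (.br .no (.de 45) .no .no)) .no (.sw 0 3 [30]) .no) .no .no) (.br (.br .no .no (.br .no .no .no (.de 44)) .no) .no .no .no) .no .no) .no .no) .no) .no (.sw 0 3 [12,19,25]) .no) .no .no)) .no))) .no .no)) (.br .no .no (.br .no (.sw 0 3 [12,19]) .no (.br .no (.br .no (.br .no .no (.br (.br .no (.br (.br .no .no (.br (.sw 1 3 [26,27]) .no .no (.br (.br .no (.br .no .no (.br .no .no .no (.de 44)) (.br .no .no (.de 44) .no)) .no (.br .no .no (.de 43) .no)) .no .no (.br .no (.de 42) .no .no))) .no) .no .no .no) .no .no) .no .no .no) (.br (.br .no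 (.br (.br .no .no (.br (.sw 1 3 [26,27]) .no .no (.br (.br .no (.sw 2 3 [29]) (.br .no .no .no (.de 43)) .no) .no (.br .no (.br .no .no (.br .no .no .no (.de 44)) (.br .no .no (.de 44) .no)) .no .no) .no)) .no) .no .no .no) .no .no) .no (.br (.br .no (.br (.br .no .no .no (.br (.br .no (.br .no .no .no (.br .no .no (.de 44) .no)) .no .no) .no (.br (.br .no (.br .no .no (.br .no .no .no (.br .no (.de 46) (.br (.sy 40 201 3) .no .no .no) .no)) (.br .no .no (.br .no (.br (.br .no (.br .no .no (.de 44) (.br .no .no (.br .no (.br .no .no .no (.br .no .no (.br .no .no .no (.sw 0 3 [12,19,26,33,34,41,48])) .no)) .no .no) .no)) .no (.de 48)) .no .no .no) .no .no) .no)) .no (.br .no .no (.de 44) .no)) (.br .no .no .no (.br .no .no (.de 44) .no)) .no .no) .no)) .no (.sw 0 3 [12,19,26]) .no) .no .no) (.br (.br .no .no (.br (.sw 1 3 [26,27]) .no .no (.br (.br .no (.br (.br .no .no (.br .no (.sw 0 3 [12,19,26,32]) .no (.br (.br .no .no (.br .no .no .no (.de 48)) .no) (.de 46) .no .no)) (.br .no (.de 45)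 .no .no)) .no .no (.sw 0 2 [30])) .no .no) .no (.br (.br .no .no .no (.br .no .no (.de 44) .no)) (.br (.br .no .no (.br .no (.sw 0 3 [12,19,26,32]) .no (.br (.de 41) (.de 46) .no .no)) (.br .no (.de 45) .no .no)) .no .no (.sw 0 2 [30])) .no .no) .no)) .no) .no .no .no) .no .no) .no)) .no (.br .no .no (.br (.br .no (.br (.br .no .no (.br (.sw 1 3 [26,27]) .no .no .no) .no) .no .no .no) .no .no) .no .no .no) .no)) .no .no)) .no)) .no (.br .no .no (.br .no .no .no (.br .no (.br .no .no .no (.br .no (.br .no .no (.br (.sw 1 3 [23]) (.br (.br .no .no (.br (.de 34) .no .no .no) .no) .no .no .no) .no .no) .no) .no (.br .no (.br (.br .no (.br (.sy 29 225 3) .no (.sw 0 3 [12,19,25]) .no) .no .no) .no .no .no) (.br (.sw 1 3 [23]) (.br (.br .no .no (.br (.br .no (.br (.br .no .no .no (.br .no .no (.de 43) .no)) (.br (.br .no .no (.sw 1 3 [23,30]) (.br .no (.br .no .no .no (.de 45)) .no .no)) .no .no (.de 42)) .no .no) .no .no) .no .no .no) .no) .no .no .no) .no .no) .no))) .no .no)) .no)) (.br .no .no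 .no (.br .no .no (.br .no .no .no (.br .no (.br .no .no .no (.br (.br .no .no (.br (.br .no (.br (.br .no .no (.br .no (.br .no (.sy 28 216 7) .no (.br .no (.de 42) .no .no)) .no .no) .no) .no (.sw 0 3 [12,19,25]) .no) .no .no) (.sy 23 27 7) .no .no) .no) .no .no (.br (.br .no (.sy 23 27 7) .no .no) .no (.sw 0 1 [22]) .no))) .no .no)) .no)) .no .no) .no) .no) .no (.de 20) .no) .no .no) (.sy 10 27 7) .no .no) .no)) (.br (.br .no .no (.br (.br .no (.br (.br .no .no (.br .no .no (.br .no (.sy 15 216 7) .no (.br .no (.br .no .no (.br .no .no .no (.br .no (.br (.sw 2 3 [7,8,20]) .no .no (.br (.br .no .no (.br (.sw 1 3 [22,23]) .no .no (.br (.br .no .no (.sy 25 39 7) .no) (.br (.br .no .no (.br .no (.sw 0 3 [27]) .no .no) .no) .no (.sw 0 3 [12,19,25]) .no) .no .no)) .no) (.br (.sy 15 216 14) .no (.br (.br .no (.br (.br .no .no (.br (.br (.br .no (.br .no .no (.sy 30 228 7) (.br .no .no (.de 44) .no)) .no (.br .no .no (.de 43) .no)) .no .no (.br .no (.de 42) .no .no)) .no .no .no) .no) .no (.sw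 0 3 [12,19,25]) .no) .no .no) .no .no (.br (.br .no .no (.sy 25 39 7) .no) (.br (.br .no .no (.br (.br (.br .no (.br (.br .no .no (.br .no (.sw 0 3 [12,19,25,32]) .no (.br .no (.de 46) .no .no)) (.br .no (.de 45) .no .no)) .no (.sw 0 3 [30]) .no) .no .no) .no .no (.br (.br .no .no (.br .no .no .no (.de 44)) .no) (.de 42) .no .no)) .no .no .no) .no) .no (.sw 0 3 [12,19,25]) .no) .no .no)) .no) .no .no)) .no .no)) (.br .no .no (.br .no (.sw 0 3 [12,19]) .no (.br (.br (.br .no .no (.br (.br .no (.br (.br .no (.sw 2 3 [7,8,20,24,25,26]) (.sw 1 3 [26]) .no) .no .no .no) .no .no) .no .no .no) .no) (.br (.br .no .no (.br (.br .no (.br .no .no (.br .no .no .no (.br .no .no (.br .no (.br .no .no .no (.br .no .no (.de 44) .no)) .no (.br .no (.br .no .no (.br (.sw 1 3 [26,32]) .no .no (.br (.de 41) (.de 46) .no .no)) (.br (.br .no (.br (.br .no (.br .no .no (.de 44) .no) .no .no) .no .no .no) .no .no) .no .no .no)) .no .no)) (.br .no (.de 42) .no .no))) .no) .no .no) (.br (.br .no (.br .no .no .no (.br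 .no .no (.br .no (.br (.sw 2 3 [7,8,20,24,25,26,30]) .no .no (.br .no .no (.de 44) .no)) .no (.br (.br .no .no (.br .no .no .no (.br (.de 41) .no (.br (.br .no (.br .no .no (.br .no .no .no (.br .no (.de 46) .no .no)) .no) .no .no) .no .no .no) .no)) (.br .no .no (.br (.de 41) .no .no .no) .no)) .no .no .no)) (.br .no (.de 42) .no .no))) (.sw 1 3 [26]) .no) .no .no .no) .no .no) .no) .no (.br (.br .no (.br (.br .no (.sw 2 3 [7,8,20,24,25,26]) (.sw 1 3 [26]) .no) .no .no .no) .no .no) .no .no .no) .no) .no .no) .no .no .no)) .no)) .no .no)) (.br .no (.sy 15 216 7) .no .no)) .no) .no (.sw 0 3 [12]) .no) .no .no) (.sy 10 27 7) .no .no) .no) .no .no (.br (.br .no (.sy 10 27 7) .no .no) .no (.br (.br .no (.br (.br .no .no (.br (.br .no (.br .no .no .no (.br .no .no (.br .no .no .no (.br .no (.br .no .no .no (.br .no .no (.br (.br .no (.br (.br .no .no (.br (.br .no (.br .no (.br .no .no (.sy 29 228 7) (.de 42)) .no (.br .no .no (.sy 29 228 7) .no)) .no .no) .no .no .no) .no) .no .no .no) .no .no)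 .no .no .no) (.br (.br .no (.br (.br .no .no (.br (.br .no (.br .no (.br .no .no (.br .no .no .no (.de 43)) (.de 42)) (.br .no .no .no (.br .no .no (.de 43) .no)) .no) (.sy 31 216 3) .no) .no .no .no) .no) .no .no .no) .no .no) .no (.br (.br .no (.br (.br .no .no (.br .no (.br (.br .no (.br .no .no (.br .no .no .no (.de 44)) (.br .no .no (.de 44) .no)) .no (.br .no .no (.de 43) .no)) (.br .no .no .no (.de 42)) .no .no) .no .no) .no) .no (.sw 0 3 [12,19,25]) .no) .no .no) (.br (.br .no .no (.br (.br .no (.br (.br .no .no .no (.br .no .no (.de 43) .no)) (.br (.br .no .no (.br .no (.sw 0 3 [12,19,25,31]) .no (.de 44)) (.br .no (.br .no .no .no (.de 45)) .no .no)) .no .no (.de 42)) .no .no) (.sw 0 1 [14,21,22]) .no) .no .no .no) .no) .no .no .no) .no .no) .no))) .no .no)) .no)) .no .no) .no (.br (.br .no (.br .no .no (.br .no .no .no (.br .no (.br (.br .no (.br .no .no (.sw 0 3 [15,22]) (.br (.br .no (.br (.br .no .no (.br .no .no .no (.br (.br .no (.sw 2 3 [29]) (.br .no .no .no (.de 43)) .no)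 .no (.br .no (.br .no .no (.sw 0 3 [15,22,29,30]) (.br .no .no (.de 44) .no)) .no .no) .no)) (.de 34)) .no (.sw 0 3 [12,19,25]) .no) .no .no) .no .no .no)) .no (.br .no .no (.br (.br .no (.br (.br .no .no (.br .no (.br (.br .no (.br .no .no (.br .no .no .no (.de 44)) (.br .no .no (.de 44) .no)) .no (.br .no .no (.de 43) .no)) (.br .no .no .no (.de 42)) .no .no) .no .no) (.br .no (.br (.br .no (.br .no .no (.br .no .no .no (.de 44)) (.br .no .no (.de 44) .no)) .no (.br .no .no (.de 43) .no)) (.br .no .no .no (.de 42)) .no .no) .no .no)) .no (.sw 0 3 [12,19,25]) .no) .no .no) .no .no (.br (.br .no .no (.br .no .no .no (.br .no (.br (.br .no (.br .no .no (.br .no (.sw 0 3 [12,19,25,30,31]) .no (.de 44)) .no) .no .no) (.br (.br .no (.br .no .no .no (.br (.br .no .no (.br (.sy 41 228 3) .no .no .no) .no) (.de 45) .no .no)) (.br .no (.br (.br .no .no (.br (.br .no .no .no (.de 43)) .no .no .no) .no) .no .no .no) .no (.de 44)) .no) .no .no .no) .no .no) .no .no)) .no) (.br (.br .no .no (.br .no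 (.br (.br .no (.br (.br .no .no (.br .no (.sw 0 3 [12,19,25,32]) .no (.br (.br .no .no (.sw 1 3 [28,34]) .no) .no .no .no)) (.br .no (.de 45) .no .no)) .no (.sw 0 3 [30]) .no) .no .no) (.br (.br .no .no (.br .no .no .no (.de 44)) .no) .no .no .no) .no .no) .no .no) (.br .no (.br (.br .no (.br (.br .no .no (.br .no (.br (.sw 2 3 [33]) .no (.de 41) .no) .no .no) (.br .no (.de 45) (.br (.br .no .no (.sy 39 201 3) .no) .no .no .no) .no)) .no (.sw 0 3 [30]) .no) .no .no) (.br (.br .no .no (.br .no .no .no (.de 44)) .no) .no .no .no) .no .no) .no .no)) .no (.sw 0 3 [12,19,25]) .no) .no .no)) .no)) .no .no (.sw 0 1 [14])) .no .no)) (.br .no .no (.br .no (.sw 0 3 [12,19]) .no (.br (.br .no (.br .no .no (.sw 0 3 [15,22]) (.br (.br .no (.br (.br .no (.sy 30 228 3) (.sw 1 3 [26]) .no) .no .no .no) .no .no) .no (.br (.br .no (.br .no .no (.br .no .no .no (.sw 0 1 [14,27])) .no) .no .no) (.br (.br .no (.br .no .no .no (.sy 33 114 3)) (.sw 1 3 [26]) .no) .no .no .no) .no .no) .no)) .no (.br .no .no (.br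 (.br .no (.br (.br .no (.de 34) (.sw 1 3 [26]) .no) .no .no .no) .no .no) .no .no .no) .no)) .no .no .no)) .no)) .no (.br .no .no (.br .no .no .no (.br .no (.br (.br .no (.br .no .no (.br (.sw 1 3 [23]) (.br (.br .no .no (.br .no .no .no (.de 34)) .no) .no .no .no) .no .no) .no) .no (.br .no (.br (.br .no (.br (.sy 29 225 3) .no (.sw 0 3 [12,19,25]) .no) .no .no) .no .no .no) (.br (.sw 1 3 [23]) (.br (.br .no .no (.br .no .no .no (.br .no (.br (.br .no .no .no (.br .no .no (.de 43) .no)) (.br (.br .no .no (.sw 1 3 [23,30]) (.br .no (.br (.br .no .no (.br (.br .no .no .no (.de 48)) .no .no .no) .no) .no .no .no) .no .no)) .no .no (.de 42)) .no .no) .no .no)) .no) .no .no .no) .no .no) .no)) .no .no (.sw 0 1 [14])) .no .no)) .no)) (.sw 0 3 [15]) .no .no) .no) .no) .no (.sw 0 3 [12]) .no) .no .no) (.sy 10 27 7) .no .no) .no)) .no .no)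

theorem P4_5 : R.S 13 62317700 :=
  R.piece L hL (.br .no c4_5_0 .no .no) 13 62317700 67108864 (by norm_num) (by norm_num) (by norm_num) (by decide +kernel)

def c4_6_0 : Cert := (.br .no (.br (.br .no .no (.br (.br .no (.br (.br .no .no (.br .no .no .no (.br .no (.br .no .no .no (.br .no .no (.br .no .no .no (.br .no (.br (.br .no .no (.br (.br .no (.br (.br .no .no (.br .no .no .no (.de 43)) .no) .no .no .no) .no .no) .no .no .no) .no) .no .no .no) .no (.br (.br .no .no (.br (.br .no (.br (.br .no (.sy 38 228 3) (.br .no (.br .no .no .no (.de 44)) .no .no) .no) .no .no .no) .no .no) .no .no .no) .no) (.de 42) .no .no))) .no)) .no .no)) .no) (.br (.br .no .no (.br .no (.br .no .no .no (.br .no .no (.br (.br .no .no (.br .no (.br (.br .no .no (.br (.br .no (.br .no .no .no (.br .no .no .no (.br .no .no (.br .no .no .no (.br .no (.br .no .no .no (.br .no .no (.br .lf .no .no .no) .no)) .no .no)) .no))) .no (.de 41)) (.br .no .no .no (.de 41)) .no .no) .no) .no .no (.br (.br .no (.br .no .no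 .no (.de 41)) .no .no) .no (.de 44) .no)) .no (.br (.br .no .no (.br (.br .no (.br .no .no .no (.br .no (.br .no .no (.br .no .no .no (.br .no (.br .no .no .no (.br .no .no (.br (.sw 1 3 [36,42]) .no .no .no) .no)) .no .no)) .no) .no .no)) .no (.de 41)) (.br .no .no .no (.de 41)) .no .no) .no) .no .no .no)) (.br .no (.de 42) .no .no)) .no .no (.br .no .no (.br .no (.br (.br .no .no (.br (.br .no (.br (.br .no .no .no (.de 48)) .no .no .no) .no .no) (.br (.de 41) .no .no .no) .no .no) .no) .no .no (.br (.br .no (.br (.de 41) .no .no .no) .no .no) .no (.de 44) .no)) .no (.br (.br .no .no (.br (.br .no (.br (.br .no (.br .no .no (.br .no .no .no (.br .no (.br .no .no .no (.br .no .no (.br .no .no .no (.sw 0 3 [34,41,48])) .no)) .no .no)) .no) .no .no) .no .no .no) .no .no) (.br (.de 41) .no .no .no) .no .no) .no) .no .no .no)) (.br .no (.de 42) .no .no))) .no)) .no (.br .no (.br .no .no (.br (.br .no .no (.br .no (.br (.br .no .no (.br (.sw 1 3 [31,32]) .no .no (.br .no (.de 46) .no .no)) .no)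 .no .no .no) .no (.br (.br .no .no (.br (.sw 1 3 [31,32]) .no .no (.br .no (.de 46) .no .no)) .no) (.br (.br .no .no .no (.br .no (.de 46) .no .no)) .no (.br (.br .no (.br .no .no .no (.br .no (.br .no .no (.br .no .no .no (.sw 0 1 [37])) .no) .no .no)) .no (.de 41)) .no .no (.br .no (.de 46) .no .no)) .no) .no .no)) (.br .no (.de 42) .no .no)) .no .no (.br .no .no (.br .no (.br (.br .no .no (.br (.sw 1 3 [31,32]) .no .no (.br (.de 41) (.de 46) .no .no)) .no) .no .no .no) .no (.br (.br .no .no (.br (.sw 1 3 [31,32]) .no .no (.br (.de 41) (.de 46) .no .no)) .no) (.br (.br .no .no .no (.br (.de 41) (.de 46) .no .no)) .no (.br (.br .no (.br (.br .no (.br .no .no (.br .no .no .no (.sw 0 1 [37])) .no) .no .no) .no .no .no) .no .no) .no .no (.br (.de 41) (.de 46) .no .no)) .no) .no .no)) (.br .no (.de 42) .no .no))) (.br (.br .no .no (.br .no (.br (.br .no .no (.br (.br .no (.sw 2 3 [33]) (.sy 37 216 3) .no) .no .no .no) .no) .no .no .no) .no (.br (.br .no .no (.br (.br .no (.sw 2 3 [33]) (.sy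 37 216 3) .no) .no .no .no) .no) (.br (.br .no .no (.br .no (.br .no .no .no (.br .no (.br .no .no (.br .no .no .no (.br .no (.br .no .no .no (.br .no .no (.br .lf .no .no .no) .no)) .no .no)) .no) .no .no)) .no .no) .no) .no (.br (.br .no (.sw 2 3 [33]) (.br .no .no .no (.de 47)) .no) .no .no .no) .no) .no .no)) (.br .no (.de 42) .no .no)) .no .no .no)) .no .no)) (.br .no (.br .no .no .no (.br .no .no (.br (.br .no .no (.br .no (.br (.sw 2 3 [30]) .no (.br (.br .no (.br .no .no .no (.de 41)) .no .no) .no .no .no) .no) .no .no) (.br .no (.de 42) (.br (.br .no .no (.br (.sy 36 201 3) (.br .no .no .no (.de 46)) .no .no) .no) .no .no .no) .no)) .no .no (.br .no .no (.br .no (.br (.sw 2 3 [30]) .no (.br (.br .no (.br (.de 41) .no .no .no) .no .no) .no .no .no) .no) .no .no) (.br .no (.de 42) (.br (.br .no .no (.br (.sy 36 201 3) (.br (.br .no .no (.br .no (.br .no .no .no (.de 44)) .no .no) .no) .no .no .no) .no .no) .no) .no .no .no) .no))) .no)) .no .no)) .no (.br .no .no .no (.br .no (.br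 .no .no .no (.br .no .no (.br (.br (.br .no (.br (.br .no .no (.br (.br .no (.br .no .no (.br .no .no .no (.de 48)) (.de 48)) .no (.br .no .no (.de 47) .no)) (.br .no .no .no (.de 46)) .no .no) .no) .no (.br (.br .no (.br .no .no .no (.de 46)) .no .no) .no .no .no) .no) .no .no) .no .no (.br (.br .no .no (.br (.br .no (.br .no .no .no (.de 46)) .no .no) .no .no .no) .no) (.de 42) .no .no)) .no .no (.br (.br .no (.br (.br .no .no (.br (.br .no (.br .no .no (.sw 0 3 [34]) .no) .no .no) (.sy 30 39 9) .no .no) .no) .no (.sy 30 39 7) .no) .no .no) .no .no (.br (.br .no .no (.sy 30 39 7) .no) (.de 42) .no .no))) .no)) .no .no)) .no) .no .no) .no (.br (.br .no .no (.br .no .no .no (.br .no (.br .no .no .no (.br .no (.de 34) (.br .no (.br .no (.br (.br .no .no (.br (.br .no (.br (.br .no .no (.sw 1 3 [27,34]) (.br .no .no .no (.de 43))) .no .no (.de 46)) .no .no) .no .no .no) .no) .no .no .no) .no (.br (.br .no .no (.br (.br .no (.br (.br .no .no (.sw 1 3 [27,34]) .no) .no .no (.de 46)) .no .no)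 .no .no .no) .no) (.de 42) .no .no)) .no .no) .no)) .no .no)) .no) (.br (.br .no .no (.br .no (.br .no .no .no (.br .no (.br (.sy 33 225 3) .no .no .no) (.br (.sw 1 3 [27]) .no .no .no) .no)) .no (.br .no (.br .no .no (.br (.sw 1 3 [27]) .no .no .no) .no) .no .no)) (.br .no (.br .no .no .no (.br .no (.sy 30 54 3) (.br (.sw 1 3 [27]) .no .no .no) .no)) .no .no)) .no (.br .no .no .no (.br .no (.br .no .no .no (.br .no (.sy 30 54 3) (.br (.sw 1 3 [27]) .no .no .no) .no)) .no .no)) .no) .no .no)) (.br .no .no .no (.br (.br .no .no (.br .no .no .no (.br .no (.br (.br .no .no (.br .no (.br .no (.br (.br .no .no (.br .no .no .no (.de 44)) .no) .no .no .no) .no (.br (.br .no .no (.br .no .no .no (.de 44)) .no) (.de 42) .no .no)) .no .no) .no) .no .no (.br (.br .no (.br .no (.br (.br .no .no (.br (.br .no (.br .no .no (.br .no .no .no (.de 47)) (.de 46)) (.sy 36 216 3) .no) .no .no .no) .no) .no .no .no) .no (.br (.br .no .no (.br (.br .no (.br .no .no (.de 41) (.de 46)) (.sy 36 216 3) .no) .no .no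 .no) .no) (.de 42) .no .no)) .no .no) .no (.sw 0 1 [26]) .no)) .no .no)) .no) (.br (.br .no .no (.br .no (.br (.br .no .no (.br (.br .no .no (.br .no (.br (.br .no .no (.br .no (.sy 32 216 7) .no (.br .no (.de 46) .no .no)) (.br .no (.de 45) .no .no)) .no .no (.br .no .no (.de 44) .no)) .no (.br (.br .no .no (.br .no (.sy 32 216 7) .no (.br .no (.de 46) .no .no)) (.br .no (.de 45) .no .no)) .no .no .no)) (.br .no (.de 42) .no .no)) .no .no .no) .no) .no .no (.br (.de 34) .no (.sw 0 1 [26]) .no)) .no (.br (.br .no .no (.br (.br .no .no (.br .no (.br (.br .no (.br .no .no .no (.de 45)) (.sw 1 3 [31]) .no) .no .no .no) .no (.br (.br .no (.br .no .no .no (.de 45)) (.sw 1 3 [31]) .no) (.br .no .no (.br .no (.br .no .no .no (.de 41)) .no (.sw 0 1 [26,32])) .no) .no .no)) (.br .no (.de 42) .no .no)) .no .no .no) .no) .no .no .no)) (.br .no (.br (.br .no .no (.br (.br .no .no (.br .no (.br (.sw 2 3 [30]) .no (.br .no .no .no (.de 44)) .no) .no .no) (.br .no (.de 42) (.br (.br .no .no (.br .no (.br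 .no .no .no (.de 46)) .no (.br .no (.de 46) .no .no)) (.br .no (.de 45) .no .no)) .no .no .no) .no)) .no .no .no) .no) .no .no (.br (.de 34) .no (.sw 0 1 [26]) .no)) .no .no)) .no (.br .no .no .no (.br .no (.br (.br .no .no (.br (.br (.br .no (.br (.br .no .no (.br .no (.br .no .no .no (.de 46)) .no (.br .no (.de 46) .no .no)) (.br .no (.de 45) .no .no)) .no (.br .no .no .no (.de 44)) .no) .no .no) .no .no (.br (.br .no .no (.br .no .no .no (.de 44)) .no) (.de 42) .no .no)) .no .no .no) .no) .no .no (.br (.de 34) .no (.sw 0 1 [26]) .no)) .no .no)) .no) .no .no)) .no .no) .no) .no (.br (.br .no (.br .no .no .no (.br (.br .no .no (.br (.br .no (.br .no .no (.br (.br .no (.br .no (.br .no .no .no (.de 42)) .no (.br .no (.de 42) .no .no)) .no .no) .no .no .no) (.br (.br .no (.br .no (.br .no .no .no (.de 42)) .no (.br .no (.de 42) .no .no)) .no .no) .no (.br .no (.br .no (.br .no .no .no (.de 42)) .no (.br .no (.de 42) .no .no)) .no .no) .no)) .no (.br .no .no (.br (.br .no (.br .no (.br .no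 .no .no (.de 42)) .no (.br .no (.de 42) .no .no)) .no .no) .no .no .no) .no)) .no .no (.br .no (.br .no .no (.br (.br .no (.br .no (.br (.br .no .no (.br (.br .no (.br .no .no (.br .no .no .no (.de 47)) (.de 46)) .no (.br .no .no (.br .no .no .no (.de 47)) .no)) .no .no (.de 44)) .no) .no .no .no) .no (.br (.br .no .no (.br (.br .no (.br .no .no (.de 41) (.de 46)) .no (.br .no .no (.de 41) .no)) .no .no (.de 44)) .no) (.de 42) .no .no)) .no .no) .no .no .no) (.sw 0 2 [24,25])) .no .no)) .no) (.br (.br .no .no .no (.br .no (.br .no .no (.br (.de 34) .no .no .no) (.sw 0 2 [24,25])) .no .no)) .no (.br (.br .no (.br .no .no (.br (.de 34) .no .no .no) (.br (.de 34) .no (.br (.br (.br .no (.br .no .no (.br (.br .no (.br .no .no .no (.de 46)) .no .no) .no .no .no) (.br (.br .no (.br .no .no .no (.de 46)) .no .no) .no (.de 44) .no)) .no (.br .no .no (.de 43) .no)) .no .no (.br .no (.de 42) .no .no)) .no .no .no) .no)) .no (.br .no .no (.br (.de 34) .no .no .no) .no)) .no .no (.br .no (.br .no .no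 (.br (.de 34) .no .no .no) (.sw 0 2 [24,25])) .no .no)) .no) .no .no)) .no .no) .no .no .no) .no) (.br (.br .no .no (.br (.sy 23 201 3) (.br .no .no .no (.sy 27 30 3)) .no .no) .no) .no .no .no) .no)

def c4_6_1 : Cert := (.br (.br .no (.br .no .no (.de 20) (.br .no .no (.br .no .no (.br (.sw 1 3 [9,10,15]) .no .no (.br .no (.br .no .no (.br (.br .no (.br .no .no .no (.br (.br .no .no (.br (.sw 1 3 [9,10,15,22,23]) .no .no (.br .no (.br .no .no (.br (.br .no (.br .no (.br (.br .no .no (.br (.sw 1 3 [9,10,15,22,23,30,31]) .no .no (.de 44)) .no) .no .no .no) .no (.br (.br .no .no (.br (.sw 1 3 [9,10,15,22,23,30,31]) .no .no (.de 44)) .no) (.de 42) .no .no)) .no .no) .no .no .no) (.br (.br .no (.br .no (.br (.br .no .no (.br (.br .no (.sw 2 3 [32]) (.sy 36 216 3) .no) .no .no .no) .no) .no .no .no) .no (.br (.br .no .no (.br (.br .no (.sw 2 3 [32]) (.sy 36 216 3) .no) .no .no .no) .no) (.de 42) .no .no)) .no .no) .no (.br .no (.br .no (.br (.br .no .no (.br (.br .no (.br (.br .no .no (.sw 0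 3 [22,28]) (.br .no .no .no (.de 43))) .no .no (.de 46)) .no .no) .no .no .no) .no) .no .no .no) .no (.br (.br .no .no (.br (.br .no (.br (.br .no .no (.br .no (.br .no .no .no (.de 44)) .no .no) .no) .no .no (.de 46)) .no .no) .no .no .no) .no) (.de 42) .no .no)) .no .no) .no)) .no .no)) .no) (.br (.br .no .no .no (.br .no (.br .no .no (.br (.de 34) .no .no .no) (.br (.de 34) .no (.br (.br .no .no (.br .no (.br (.br .no .no (.br (.br .no (.br .no .no .no (.br .no .no .no (.br .no .no (.br .no .no .no (.br .no (.br .no .no .no (.br .no .no (.br .lf .no .no .no) .no)) .no .no)) .no))) .no (.de 41)) (.br .no .no .no (.de 41)) .no .no) .no) .no (.sw 0 3 [22,29,30]) .no) .no .no) (.br .no (.de 42) (.br (.br .no .no (.br (.sy 36 201 3) (.br .no .no .no (.de 46)) .no .no) .no) .no .no .no) .no)) .no .no .no) .no)) .no .no)) .no (.sw 0 3 [22]) .no) .no .no)) .no .no) .no .no .no) (.br (.br .no (.br .no .no .no (.br (.br .no .no (.br (.br .no (.sw 2 3 [24]) (.sy 28 216 3) .no) .no .no .no) .no) (.br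 (.br .no .no (.br .no (.br .no .no (.br (.de 34) .no .no .no) (.br (.de 34) .no (.br (.br .no .no (.br .no (.sw 0 3 [22,29]) .no (.br (.br .no .no (.br (.br .no (.br .no .no .no (.br .no (.br .no .no (.br .no .no .no (.br .no (.br .no .no .no (.br .no .no (.br (.sw 1 3 [36,42]) .no .no .no) .no)) .no .no)) .no) .no .no)) .no (.de 41)) (.br .no .no .no (.de 41)) .no .no) .no) .no .no .no)) (.br .no (.de 42) .no .no)) .no .no .no) .no)) .no .no) .no) .no (.sw 0 3 [22]) .no) .no .no)) .no .no) .no (.br (.br .no (.br (.br .no .no (.br (.br .no (.br .no .no .no (.br .no .no (.br .no .no .no (.br .no (.br .no .no .no (.de 42)) .no (.br .no (.de 42) .no .no))) .no)) .no .no) .no .no .no) .no) (.br (.br .no .no (.br (.br .no (.br .no .no (.br (.br .no .no (.br .no (.sw 0 3 [22,29]) .no (.br .no (.br .no .no (.br (.br .no (.br .no .no .no (.br .no (.br .no .no (.sw 0 3 [22,29,36]) .no) .no .no)) .no (.de 41)) .no .no (.br .no (.de 46) .no .no)) (.br (.br .no (.br .no .no .no (.br .no (.br .no .no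 (.de 44) .no) .no .no)) .no (.de 41)) .no .no .no)) .no .no)) (.br .no (.de 42) .no .no)) .no .no (.br .no .no (.br .no (.sw 0 3 [22,29]) .no (.br .no (.br .no .no (.br (.br .no (.br (.br .no (.br .no .no (.sw 0 3 [22,29,36]) .no) .no .no) .no .no .no) .no .no) .no .no (.br (.de 41) (.de 46) .no .no)) (.br (.br .no (.br (.br .no (.br .no .no (.de 44) .no) .no .no) .no .no .no) .no .no) .no .no .no)) .no .no)) (.br .no (.de 42) .no .no))) (.br (.br .no .no (.br .no (.sw 0 3 [22,29]) .no (.br .no (.br .no .no (.br (.br .no (.sw 2 3 [33]) (.br .no .no .no (.de 47)) .no) .no .no .no) (.br (.br .no (.sw 2 3 [33]) (.br .no .no .no (.de 47)) .no) .no (.br .no (.br .no .no .no (.br .no (.br .no .no (.de 44) .no) .no .no)) .no .no) .no)) .no .no)) (.br .no (.de 42) .no .no)) .no .no .no)) .no (.br .no .no (.br (.br .no .no (.br .no (.sw 0 3 [22,29]) .no (.br .no (.br .no .no (.br (.sw 1 3 [32]) (.br .no .no .no (.de 41)) .no .no) .no) .no .no)) (.br .no (.de 42) .no .no)) .no .no (.br .no .no (.br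 .no (.sw 0 3 [22,29]) .no (.br .no (.br .no .no (.br (.sw 1 3 [32]) (.br (.de 41) .no .no .no) .no .no) .no) .no .no)) (.br .no (.de 42) .no .no))) .no)) (.br .no .no .no (.br .no .no (.br (.br .no .no (.br .no (.sw 0 3 [22,29]) .no (.br (.br .no .no (.br (.br .no (.br .no .no .no (.br .no (.br .no .no (.br .no .no .no (.sw 0 1 [31,37])) .no) .no .no)) .no (.de 41)) (.br .no .no .no (.de 41)) .no .no) .no) .no .no .no)) (.br .no (.de 42) .no .no)) .no .no (.br .no .no (.br .no (.sw 0 3 [22,29]) .no (.br (.br .no .no (.br (.br .no (.br (.br .no (.br .no .no (.br .no .no .no (.sw 0 1 [31,37])) .no) .no .no) .no .no .no) .no .no) (.br (.de 41) .no .no .no) .no .no) .no) .no .no .no)) (.br .no (.de 42) .no .no))) .no)) .no .no) .no) .no (.sw 0 3 [22]) .no) .no .no) .no (.br (.br .no .no (.br (.br .no (.br .no .no .no (.br .no (.de 34) (.br .no (.br .no (.br .no .no .no (.de 42)) .no (.br .no (.de 42) .no .no)) .no .no) .no)) .no .no) .no .no .no) .no) (.br (.br .no .no (.br (.br .no (.br .no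 .no (.br (.sw 1 3 [27]) .no .no .no) .no) .no (.br .no (.br (.sy 33 225 3) .no .no .no) (.br (.sw 1 3 [27]) .no .no .no) .no)) (.br .no .no .no (.br .no (.br (.sy 33 225 3) .no .no .no) (.br (.sw 1 3 [27]) .no .no .no) .no)) .no .no) .no) .no (.sw 0 3 [22]) .no) .no .no)) (.br .no .no .no (.br (.br .no .no (.br (.br .no (.br (.br .no .no (.br .no (.sy 27 27 7) .no .no) .no) .no .no (.sw 0 2 [25])) .no .no) .no .no .no) .no) (.br (.br .no .no (.br (.br .no .no .no (.br (.de 34) .no (.sw 0 1 [26]) .no)) (.br (.br .no .no (.br (.br .no .no (.br .no (.sw 0 3 [22,29]) .no (.br (.br .no .no (.br .no (.sy 32 216 7) .no (.br .no (.de 46) .no .no)) (.br .no (.de 45) .no .no)) .no .no .no)) (.br .no (.de 42) .no .no)) .no .no .no) .no) .no .no (.sw 0 2 [25])) .no .no) .no) .no (.sw 0 3 [22]) .no) .no .no)) .no .no) .no)) .no .no)) (.br (.br .no (.br .no .no (.br (.br .no (.de 27) .no .no) .no .no .no) (.br (.br .no (.de 27) .no .no) .no (.br (.br .no (.br .no (.br .no .no (.br (.br .no (.br .no .no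 .no (.br .no .no (.br (.sw 2 3 [21]) .no .no .no) .no)) .no .no) .no .no .no) (.br (.br .no (.br .no .no .no (.br .no .no (.br (.sw 2 3 [21]) .no .no .no) .no)) .no .no) .no (.br (.br .no (.br .no .no (.br (.sw 2 3 [21]) .no .no .no) (.br (.sw 2 3 [21]) .no (.br (.br .no (.br .no .no .no (.br .no .no (.de 44) .no)) .no .no) .no (.br (.br .no (.br .no .no (.br (.br .no (.br (.sw 2 3 [21,33,34]) .no .no (.sw 0 2 [34])) .no .no) .no .no .no) (.br (.br .no (.br (.sw 2 3 [21,33,34]) .no .no (.sw 0 2 [34])) .no .no) .no (.br (.br .no .no .no (.br .no (.br .no .no (.de 44) (.br .no .no (.br .no (.br .no .no .no (.br .no .no (.br .lf .no .no .no) .no)) .no .no) .no)) .no (.br .no .no (.de 44) .no))) (.br (.br .no (.br .no .no (.de 44) (.br .no .no (.br .no (.br .no .no .no (.sw 0 2 [39])) .no .no) .no)) .no (.de 48)) .no .no (.sw 0 2 [34])) .no .no) .no)) .no (.br .no .no (.de 44) .no)) (.br .no .no .no (.br .no .no (.de 44) .no)) .no .no) .no) .no)) .no (.br .no .no (.br (.sw 2 3 [21]) .no .no .no)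 .no)) (.br .no .no .no (.br .no .no (.br (.sw 2 3 [21]) .no .no .no) .no)) .no .no) .no)) (.br .no .no .no (.br (.br .no (.br .no .no .no (.br .no .no (.br (.sw 1 3 [9,10,15,21,27]) .no .no .no) .no)) .no .no) .no (.br (.br .no (.br .no .no (.br (.sw 1 3 [9,10,15,21,27]) .no .no .no) (.br (.br (.br .no (.br .no .no .no (.br .no .no (.de 44) .no)) .no .no) (.br (.br .no (.br .no .no (.br (.br .no (.sw 2 3 [33]) (.sw 1 3 [9,10,15,21,27,32,33]) .no) .no .no .no) (.br (.br .no (.sw 2 3 [33]) (.br .no .no .no (.de 47)) .no) .no (.br .no (.br .no .no .no (.br .no .no .no (.br .no .no (.de 44) .no))) .no .no) .no)) .no (.br .no .no (.de 44) .no)) .no .no .no) .no .no) .no .no .no)) .no (.br .no .no (.br (.sw 1 3 [9,10,15,21,27]) .no .no .no) .no)) (.br .no .no .no (.br .no .no (.br (.sw 1 3 [9,10,15,21,27]) .no .no .no) .no)) .no .no) .no)) .no) .no .no) (.de 27) .no .no) .no)) .no (.br .no .no (.br (.br .no (.de 27) .no .no) .no .no .no) .no)) .no .no .no)) .no)) .no (.br .no .no (.de 20) .no))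 .no .no (.br .no (.br .no .no (.de 20) (.br .no .no (.br .no .no (.br (.br .no (.br (.br .no .no (.br (.br .no (.br .no (.br .no .no (.sy 22 228 7) (.br .no .no (.br .no (.sw 0 3 [17,24]) .no (.br .no (.br .no .no (.br (.br (.br .no (.br (.br .no .no (.br (.sw 1 3 [31,32]) .no .no (.br .no (.de 46) .no .no)) .no) .no .no .no) .no .no) .no (.br (.br .no (.br (.sy 22 228 16) .no (.sw 0 3 [17,24,31]) .no) .no .no) (.br (.br .no .no (.br (.sw 1 3 [31,32]) .no .no (.br .no (.de 46) .no .no)) .no) .no .no .no) .no .no) .no) .no .no (.br (.br .no (.br (.br .no .no (.br (.sw 1 3 [31,32]) .no .no (.br (.br .no .no (.sy 34 39 7) .no) (.de 46) .no .no)) .no) .no .no .no) .no .no) .no (.br (.br .no (.br (.br .no .no .no (.br (.de 41) (.de 46) .no .no)) .no (.sw 0 3 [17,24,31]) .no) .no .no) (.br (.br .no .no (.br (.sw 1 3 [31,32]) .no .no (.br (.de 41) (.de 46) .no .no)) .no) .no .no .no) .no .no) .no)) (.br (.br (.br .no (.br (.br .no .no (.br (.br .no (.sw 2 3 [33]) (.sy 37 216 3) .no) .no .no .no)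 .no) .no .no .no) .no .no) .no (.br (.br .no (.br (.br .no .no (.br .no (.br .no .no .no (.br .no (.br .no .no (.br .no .no .no (.br .no (.br .no .no .no (.br .no .no (.br .lf .no .no .no) .no)) .no .no)) (.br .no .no (.br .no (.sw 2 3 [43,44]) .no (.de 46)) .no)) .no (.br .no .no (.br .no .no .no (.br .no (.br .no .no .no (.br .no .no (.br (.sw 1 3 [42]) .no .no .no) .no)) .no .no)) .no))) .no .no) .no) .no (.sw 0 3 [17,24,31]) .no) .no .no) (.br (.br .no .no (.br (.br .no (.sw 2 3 [33]) (.sy 37 216 3) .no) .no .no .no) .no) .no .no .no) .no .no) .no) .no .no .no)) .no .no)) .no)) .no (.br .no .no (.sy 22 228 7) .no)) .no (.br .no (.br .no .no (.br .no .no .no (.br .no (.br .no .no .no (.br .no (.sy 30 54 3) (.br (.sw 1 3 [27]) .no .no .no) .no)) .no .no)) (.br .no .no (.br .no (.sw 0 3 [17,24]) .no (.br .no (.br .no .no (.br (.sw 1 3 [27]) .no .no .no) .no) .no .no)) .no)) .no (.br .no .no (.br .no .no .no (.br .no (.br .no .no .no (.br .no (.sy 30 54 3) (.br (.sw 1 3 [27]) (.br (.br .no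 (.br (.br .no .no (.br (.br .no .no .no (.br .no .no (.de 47) .no)) (.br (.br .no .no (.sw 1 3 [27,28,34]) .no) .no .no (.de 46)) .no .no) .no) .no (.sw 0 3 [17,24,30]) .no) .no .no) (.sy 28 27 7) .no .no) .no .no) .no)) .no .no)) .no))) (.br .no .no .no (.br .no (.br .no .no (.br .no .no .no (.br .no (.br (.br .no .no (.br (.br (.br .no (.br (.br .no .no (.br .no (.br .no .no .no (.de 46)) .no (.br .no (.de 46) .no .no)) (.br .no (.de 45) .no .no)) .no (.sw 0 3 [17,24,30]) .no) .no .no) .no .no (.br (.br .no .no (.br .no .no .no (.de 44)) .no) (.de 42) .no .no)) .no .no .no) .no) .no .no (.br (.de 34) .no (.sw 0 1 [26]) .no)) .no .no)) (.br .no .no (.br .no (.sw 0 3 [17,24]) .no (.br (.br .no .no (.br (.br (.br .no (.br (.br .no (.sy 35 228 3) (.sw 1 3 [31]) .no) .no .no .no) .no .no) .no (.br (.br .no (.br .no .no (.br .no (.sw 0 3 [17,24,31,32]) .no (.sw 0 1 [26,32])) .no) .no .no) (.br (.br .no (.br .no .no .no (.de 45)) (.sw 1 3 [31]) .no) .no .no .no) .no .no) .no) .no .no .no) .no)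 .no .no .no)) .no)) .no (.br .no .no (.br .no .no .no (.br .no (.br (.br .no .no (.br (.br (.br .no (.br (.br .no .no (.br .no (.br .no .no .no (.de 46)) .no (.br .no (.de 46) .no .no)) (.br .no (.de 45) .no .no)) .no (.sw 0 3 [17,24,30]) .no) .no .no) (.br (.br .no .no (.br .no .no .no (.de 44)) .no) .no .no .no) .no .no) (.br (.br .no (.br (.br .no .no (.br .no (.br (.br .no .no (.br .no .no .no (.de 48)) .no) .no .no (.de 46)) .no (.br (.br .no .no (.br .no .no .no (.de 48)) .no) .no .no .no)) (.br .no (.de 45) .no .no)) .no (.sw 0 3 [17,24,30]) .no) .no .no) (.br (.br .no .no (.br .no .no .no (.de 44)) .no) .no .no .no) .no .no) .no .no) .no) .no .no (.br (.br .no (.br (.br .no (.br (.br .no .no (.br .no (.br .no .no (.de 41) (.de 46)) .no .no) .no) .no (.sw 0 3 [17,24,30]) .no) .no .no) (.br (.br .no .no (.br (.br .no (.br .no .no (.br (.br .no .no .no (.de 43)) .no .no .no) (.de 46)) (.sy 36 216 3) .no) .no .no .no) .no) .no .no .no) .no .no) .no .no) .no (.sw 0 1 [26]) .no)) .no .no))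 .no))) .no .no) .no) .no (.sw 0 3 [17]) .no) .no .no) .no .no (.br (.br .no .no (.br (.br .no (.br .no .no .no (.br (.br .no (.br .no .no .no (.br .no (.br .no .no (.br (.br .no (.sy 33 228 3) .no .no) .no .no .no) (.sw 0 2 [16,23,24,25])) .no .no)) (.br .no (.br .no .no .no (.br .no .no (.br (.br .no (.br .no (.br (.br .no .no (.br (.br .no (.br .no .no (.br .no .no .no (.de 47)) (.de 46)) .no (.br .no .no (.br .no .no .no (.de 47)) .no)) (.br .no .no .no (.de 45)) .no .no) .no) .no .no (.de 42)) .no (.br (.br .no .no (.br (.br .no (.br .no .no (.de 41) (.de 46)) .no (.br .no .no (.de 41) .no)) (.br .no .no .no (.de 45)) .no .no) .no) .no .no .no)) .no .no) .no .no .no) .no)) .no (.br .no (.br .no .no (.br (.br .no (.br .no (.br (.br .no .no (.br (.sw 1 3 [30,31]) .no .no (.de 44)) .no) .no .no .no) .no (.br (.sw 1 2 [29]) (.de 42) .no .no)) .no .no) .no .no .no) (.br (.br .no (.br .no (.br (.br .no .no (.br (.br .no (.sw 2 3 [32]) (.sy 36 216 3) .no) .no .no .no) .no) .no .no .no) .no (.br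 (.sw 1 2 [29]) (.de 42) .no .no)) .no .no) .no (.br .no (.br .no (.br (.br .no .no (.br (.br .no (.br (.br .no .no (.br .no .no .no (.de 43)) (.br .no .no .no (.de 43))) .no .no (.de 46)) .no .no) .no .no .no) .no) .no .no .no) .no (.br (.sw 1 2 [29]) (.de 42) .no .no)) .no .no) .no)) .no .no)) .no) (.br .no .no (.br .no (.sw 0 3 [17,22,23]) .no (.br .no (.br .no .no (.br (.de 34) .no .no .no) (.br (.de 34) .no (.br (.br (.br .no (.br (.br .no .no (.br (.br .no (.br .no .no (.br .no .no .no (.de 48)) (.de 48)) .no (.br .no .no (.de 47) .no)) (.br .no .no .no (.de 46)) .no .no) .no) .no (.sw 0 3 [17,22,23,30]) .no) .no .no) .no .no (.br (.br .no .no (.br (.br .no (.br .no .no .no (.de 46)) .no .no) .no .no .no) .no) (.de 42) .no .no)) .no .no .no) .no)) .no .no)) .no) .no .no)) .no .no) .no .no .no) .no) (.sw 0 2 [16]) .no .no)) (.br (.br .no (.br (.br .no .no (.br (.br .no (.br .no (.br .no .no (.br .no .no .no (.br .no (.br .no .no .no (.br .no .no (.br (.sw 2 3 [21]) .no .no .no) .no))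 .no .no)) (.sw 0 2 [16,22])) (.br .no .no .no (.br .no .no (.br .no (.sw 0 3 [17,24]) .no (.sy 28 78 3)) .no)) .no) .no .no) (.de 27) .no .no) .no) .no (.sw 0 3 [17]) .no) .no .no) .no .no .no)) .no)) .no .no))

def c4_6_2 : Cert := (.br .no .no (.br (.br .no .no (.br .no (.br (.br .no .no (.br (.sw 1 3 [9,10,17,18]) .no .no (.br .no (.br .no .no .no (.br (.br .no .no (.br .no (.sw 0 3 [17,23]) .no (.br (.br .no .no (.br (.br .no (.br .no (.br (.br .no (.br .no .no .no (.br .no (.de 45) .no .no)) (.sw 1 3 [30]) .no) .no .no .no) .no (.br (.br .no (.br .no .no .no (.br .no (.de 45) .no .no)) (.sw 1 3 [30]) .no) (.de 42) .no .no)) .no .no) .no .no .no) .no) (.br (.br .no .no (.br .no (.br .no (.br (.br .no .no (.br .no .no .no (.de 44)) .no) .no .no .no) .no (.br (.br .no .no (.br .no .no .no (.de 44)) .no) (.de 42) .no .no)) .no .no) .no) .no (.sw 0 3 [25]) .no) .no .no)) (.br .no (.br (.br .no .no (.br (.br .no (.br .no (.br (.sw 2 3 [29]) .no (.br .no .no .no (.de 43)) .no) (.br (.br .no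 .no (.br .no (.sw 0 3 [25,31]) .no (.de 44)) (.br .no (.br .no .no .no (.de 45)) .no .no)) .no .no .no) .no) .no .no) .no .no .no) .no) .no .no .no) .no .no)) .no .no (.br .no .no (.br .no (.sw 0 3 [17,23]) .no (.br (.br .no .no (.br (.br .no (.br (.br .no (.br .no .no (.br .no (.sw 0 3 [17,23,25,30,31]) .no (.de 44)) .no) .no .no) (.br (.br .no (.br .no .no .no (.br .no (.de 45) .no .no)) (.sw 1 3 [30]) .no) .no .no .no) .no .no) .no .no) .no .no .no) .no) (.br (.br .no .no (.br (.br (.br .no (.br (.br .no .no (.br .no (.sw 0 3 [25,32]) .no (.br .no (.de 46) .no .no)) (.br .no (.de 45) .no .no)) .no (.sw 0 3 [17,23,30]) .no) .no .no) (.br (.br .no .no (.br .no .no .no (.de 44)) .no) .no .no .no) .no .no) (.br (.br .no (.br (.br .no .no (.br .no (.sw 0 3 [25,32]) .no (.br (.br .no .no (.br .no .no .no (.de 48)) .no) .no .no .no)) (.br .no (.de 45) .no .no)) .no (.sw 0 3 [17,23,30]) .no) .no .no) (.br (.br .no .no (.br .no .no .no (.de 44)) .no) .no .no .no) .no .no) .no .no) .no) .no (.sw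 0 3 [25]) .no) .no .no)) .no))) .no .no)) .no) .no .no .no) .no (.br (.br .no .no (.br (.sw 1 3 [9,10,17,18]) .no .no (.br .no (.br .no .no .no (.br (.br .no (.br .no .no .no (.br (.br .no .no (.br (.br .no (.sy 33 228 3) .no .no) .no .no .no) .no) (.br (.br .no .no (.br .no (.br .no .no (.br (.br .no .no (.br .no .no .no (.de 44)) .no) .no .no .no) (.br (.br .no .no (.br .no .no .no (.de 44)) .no) .no (.br (.br .no .no (.br .no (.sw 0 3 [25,32]) .no (.br (.br .no .no (.br .no (.br .no .no .no (.de 44)) .no .no) .no) .no .no .no)) (.br .no (.de 45) .no .no)) .no .no .no) .no)) .no .no) .no) .no (.sw 0 3 [25]) .no) .no .no)) (.sw 1 3 [22]) .no) (.br .no .no (.br .no (.br (.br .no .no (.br (.de 34) .no .no .no) .no) .no .no .no) .no (.br (.br .no .no (.br (.de 34) .no .no .no) .no) (.br (.br .no .no (.br (.br (.br .no (.br (.br .no .no (.br .no (.sw 0 3 [25,32]) .no (.br .no (.de 46) .no .no)) (.br .no (.de 45) .no .no)) .no (.br .no .no .no (.de 44)) .no) .no .no) .no .no (.br (.br .no .no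 (.br .no .no .no (.de 44)) .no) (.de 42) .no .no)) .no .no .no) .no) .no (.sw 0 3 [25]) .no) .no .no)) .no) .no .no)) .no .no)) .no) (.br (.br .no .no .no (.br .no (.br .no .no .no (.br (.br .no .no (.br .no .no .no (.br .no (.br (.br .no .no (.br .no (.br .no (.br (.br .no .no (.br .no .no .no (.de 44)) .no) .no .no .no) .no (.br (.br .no .no (.br .no .no .no (.de 44)) .no) (.de 42) .no .no)) .no .no) .no) .no (.br (.br .no (.br .no (.br (.br .no .no (.br (.br .no (.br .no .no (.br .no .no .no (.de 47)) (.de 46)) .no (.br .no .no (.br .no .no .no (.de 47)) .no)) .no .no (.de 44)) .no) .no .no .no) .no (.br (.br .no .no (.br (.br .no (.br .no .no (.de 41) (.de 46)) .no (.br .no .no (.de 41) .no)) .no .no (.de 44)) .no) (.de 42) .no .no)) .no .no) .no .no .no) .no) (.br (.br .no .no (.br .no (.br .no (.br (.br .no (.br .no .no .no (.br .no (.de 45) .no .no)) .no .no) .no .no .no) .no (.br (.br .no (.br .no .no .no (.br .no (.de 45) .no .no)) .no .no) (.de 42) .no .no)) .no .no) .no) .no .no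 .no) .no)) .no) (.br (.br .no .no (.br .no (.br (.br .no .no (.br (.br .no .no (.br .no (.br (.br .no .no (.br .no (.sw 0 3 [17,24,25,32]) .no (.br .no (.de 46) .no .no)) (.br .no (.de 45) .no .no)) .no .no (.br .no .no (.de 44) .no)) .no (.br (.br .no .no (.br .no (.sw 0 3 [17,24,25,32]) .no (.br .no (.de 46) .no .no)) (.br .no (.de 45) .no .no)) .no .no .no)) (.br .no (.de 42) .no .no)) .no .no .no) .no) .no (.sw 0 3 [17,24,25]) .no) .no .no) (.br .no (.br (.br .no .no (.br (.br .no .no (.br .no (.br (.sw 2 3 [30]) .no (.br .no .no .no (.de 44)) .no) .no .no) (.br .no (.de 42) (.br (.br .no .no (.br .no (.br .no .no .no (.de 46)) .no (.br .no (.de 46) .no .no)) (.br .no (.de 45) .no .no)) .no .no .no) .no)) .no .no .no) .no) .no (.br (.de 34) .no .no .no) .no) (.br (.br .no .no (.br (.sy 31 201 3) .no .no .no) .no) .no .no .no) .no)) .no (.br .no .no .no (.br .no (.br (.br .no .no (.br (.br (.br .no (.br (.br .no .no (.br .no (.br .no .no .no (.de 46)) .no (.br .no (.de 46) .no .no)) (.br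 .no (.de 45) .no .no)) .no (.br .no .no .no (.de 44)) .no) .no .no) .no .no (.br (.br .no .no (.br .no .no .no (.de 44)) .no) (.de 42) .no .no)) .no .no .no) .no) .no (.br (.de 34) .no .no .no) .no) (.br (.br .no .no (.br (.sy 31 201 3) .no .no .no) .no) .no .no .no) .no)) .no) .no .no)) .no .no)) .no (.sw 0 3 [17]) .no) .no .no)) (.br .no (.br (.br .no .no (.br (.sw 1 3 [9,10,17,18]) .no .no (.br .no (.br .no .no (.br (.br .no .no (.br .no (.sw 0 3 [17,23]) .no (.br (.br .no .no (.br (.sw 1 3 [9,10,17,18,25,26]) .no .no (.br .no (.br .no (.br (.br .no (.br .no .no .no (.br (.br .no .no (.br .no .no .no (.de 47)) .no) (.de 45) .no .no)) (.sw 1 3 [30]) .no) .no .no .no) .no (.br (.br .no (.br .no .no .no (.br (.br .no .no (.de 41) .no) (.de 45) .no .no)) (.sw 1 3 [30]) .no) (.de 42) .no .no)) .no .no)) .no) (.br (.br .no .no .no (.br .no (.br .no (.br (.br .no .no (.br .no .no .no (.de 44)) .no) .no .no .no) .no (.br (.br .no .no (.br .no .no .no (.de 44)) .no) (.de 42) .no .no)) .no .no))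 .no (.sw 0 3 [25]) .no) .no .no)) (.br .no (.br (.br .no .no (.br (.sw 1 3 [9,10,17,18,25,26]) .no .no (.br .no (.br .no (.br (.sw 2 3 [29]) .no (.br .no .no .no (.de 43)) .no) (.br (.br .no .no (.br .no (.sw 0 3 [25,31]) .no (.de 44)) (.br .no (.br (.br .no .no (.br .no .no .no (.de 47)) .no) .no .no .no) .no .no)) .no .no .no) .no) .no .no)) .no) .no .no .no) .no .no)) .no (.br .no .no .no (.br .no (.br (.br .no .no (.br (.sw 1 3 [9,10,17,18,25,26]) .no .no (.br (.br (.br .no .no (.br .no .no .no (.de 43)) .no) (.br (.br .no .no (.br .no (.sw 0 3 [25,31]) .no (.de 44)) (.br .no (.br (.br .no (.br .no .no .no (.br .no .no .no (.br .no .no (.de 44) .no))) (.sw 1 3 [9,10,17,18,25,26,33]) .no) .no .no .no) .no .no)) .no (.sw 0 3 [17,23,29]) .no) .no .no) (.br (.br .no .no (.br .no .no .no (.de 43)) .no) (.br (.br .no .no (.br .no (.sw 0 3 [25,31]) .no (.de 44)) (.br .no (.br (.br .no .no (.br (.br .no .no .no (.de 48)) .no .no (.de 47)) .no) .no .no .no) .no .no)) .no (.sw 0 3 [17,23,29]) .no)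 .no .no) .no .no)) .no) .no .no .no) .no .no)) .no) .no) .no .no)) .no) .no .no .no) .no .no)) .no .no .no) (.br (.br .no .no (.br .no (.br (.br .no .no (.br (.br .no (.sw 2 3 [19]) (.sy 23 216 3) .no) .no .no .no) .no) .no .no .no) .no (.br (.br .no .no (.br (.br .no (.sw 2 3 [19]) (.sy 23 216 3) .no) .no .no .no) .no) (.br (.br .no .no (.br .no (.br .no .no .no (.br (.br .no .no (.br .no .no .no (.br .no (.br (.sw 2 3 [19,25]) .no .no (.br (.br .no (.br .no (.br (.br .no .no (.br (.br .no (.sw 2 3 [19,25,32]) (.sy 36 216 3) .no) .no .no .no) .no) .no .no .no) .no (.br (.br .no .no (.br (.br .no (.sw 2 3 [19,25,32]) (.sy 36 216 3) .no) .no .no .no) .no) (.de 42) .no .no)) .no .no) .no (.br .no (.br .no (.br (.br .no .no (.br (.br .no (.br (.br .no .no (.br .no .no .no (.de 43)) (.br .no .no .no (.de 43))) .no .no (.de 46)) .no .no) .no .no .no) .no) .no .no .no) .no (.br (.br .no .no (.br (.br .no (.br (.br .no .no (.br .no (.br .no .no .no (.de 44)) .no .no) .no) .no .no (.de 46)) .no .no)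 .no .no .no) .no) (.de 42) .no .no)) .no .no) .no)) .no .no)) .no) (.br (.br .no .no (.br .no (.sw 0 3 [17,24]) .no (.br (.br .no .no (.br (.br .no .no (.br .no (.br (.br .no (.sw 2 3 [19,25,30,31]) (.sw 1 3 [31]) .no) .no .no .no) .no (.br (.br .no (.br .no .no .no (.de 45)) (.sw 1 3 [31]) .no) (.br .no .no (.br .no (.sw 0 3 [17,24,31,32]) .no (.br .no (.de 46) .no .no)) .no) .no .no)) (.br .no (.de 42) .no .no)) .no .no .no) .no) .no .no .no)) (.br .no (.br (.sw 2 3 [19,25]) .no .no (.br (.de 34) .no (.br (.br .no .no (.br .no (.br (.sw 2 3 [30]) .no (.br (.br .no (.br .no .no .no (.de 41)) .no .no) .no .no .no) .no) .no .no) (.br .no (.de 42) (.br (.br .no .no (.br (.sy 36 201 3) (.sw 0 3 [32]) .no .no) .no) .no .no .no) .no)) .no .no .no) .no)) .no .no)) .no (.br .no .no .no (.br .no (.br (.sw 2 3 [19,25]) .no .no (.br (.de 34) .no (.br (.br (.br .no (.br (.br .no .no (.br (.br .no (.br .no .no (.br .no .no .no (.de 48)) (.de 48)) .no (.br .no .no (.de 47) .no)) (.sw 0 3 [32]) .no .no)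 .no) .no (.sw 0 3 [17,24,30]) .no) .no .no) .no .no (.br (.br .no .no (.br (.br .no (.br .no .no .no (.de 46)) .no .no) .no .no .no) .no) (.de 42) .no .no)) .no .no .no) .no)) .no .no)) .no) .no .no)) .no .no) .no) .no (.sw 0 3 [17]) .no) .no .no)) (.br .no (.br (.br .no .no (.br (.br .no (.sw 2 3 [19]) (.de 27) .no) .no .no .no) .no) .no .no .no) .no .no)) .no (.br .no .no (.br .no (.br (.br .no .no (.br (.br .no (.br (.br (.br .no .no (.br .no (.sw 0 3 [17,23]) .no (.br .no (.br .no .no (.sy 23 216 9) (.br .no .no (.br .no (.br .no (.br (.br .no .no (.br (.br .no (.br (.sw 2 3 [32,33]) .no .no (.de 46)) .no .no) .no .no .no) .no) .no .no .no) .no (.br (.br .no .no (.br (.br .no (.br (.sw 2 3 [32,33]) .no .no (.de 46)) .no .no) .no .no .no) .no) (.de 42) .no .no)) .no (.br .no (.br (.br .no .no (.br (.br .no (.br (.br .no .no (.sw 1 3 [34]) .no) .no .no .no) .no .no) .no .no .no) .no) .no .no .no) .no (.br (.br .no .no (.br (.br .no (.br (.br .no (.sy 38 228 3) (.sw 1 3 [34]) .no) .no .no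 .no) .no .no) .no .no .no) .no) (.de 42) .no .no))) .no)) .no .no)) (.br .no (.sy 23 216 7) .no .no)) .no .no (.br .no .no (.br .no (.sw 0 3 [17,23]) .no (.br .no (.br .no .no (.sy 23 216 9) (.br .no .no (.br .no (.br (.br .no (.br (.br .no .no (.br (.br .no .no .no (.br .no .no (.de 47) .no)) (.br (.br .no .no (.br .no .no .no (.de 48)) .no) .no .no (.de 46)) .no .no) .no) .no (.sw 0 3 [17,23,30]) .no) .no .no) (.sy 28 27 7) .no .no) .no .no) .no)) .no .no)) .no)) .no .no (.sw 0 2 [20])) .no .no) .no .no .no) .no) .no .no .no) .no (.br (.br .no .no (.br (.br .no (.br (.br (.br .no (.br .no .no .no (.br .no (.br .no .no (.br .no .no .no (.br .no (.br .no .no (.br (.br .no .no (.br (.sw 1 3 [22,29,30,31]) .no .no (.de 44)) .no) .no .no .no) (.br (.br .no .no (.br (.br .no (.br (.br .no .no (.br .no (.br .no .no .no (.de 44)) .no .no) .no) .no (.de 41) .no) .no .no) .no .no (.de 44)) .no) .no (.br (.br .no .no .no (.br (.br .no .no (.de 41) .no) (.de 45) .no .no)) .no .no .no) .no)) .no .no))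 (.sy 29 114 3)) .no .no)) (.sw 1 3 [22]) .no) (.br .no .no (.br .no (.br .no .no .no (.br .no .no (.br .no .no .no (.de 34)) .no)) .no (.br .no (.br .no .no (.br .no .no .no (.de 34)) (.br .no .no (.br .no .no .no (.br (.br .no (.br (.br .no .no (.br (.br .no (.br .no .no (.br .no .no .no (.de 48)) .no) .no .no) (.sy 30 39 9) .no .no) .no) .no (.sy 30 39 7) .no) .no .no) .no .no (.br (.br .no .no (.sy 30 39 7) .no) (.de 42) .no .no))) .no)) .no .no)) .no) .no .no) .no .no (.sw 0 2 [20])) .no .no) .no .no .no) .no) (.br (.br .no .no (.br (.br .no .no .no (.sw 0 1 [14,15])) (.br (.br (.br .no .no (.br .no .no .no (.br .no (.br (.br .no .no (.br .no (.br .no (.br (.br .no .no (.br .no .no .no (.de 44)) .no) .no .no .no) .no (.br (.br .no .no (.br .no .no .no (.de 44)) .no) (.de 42) .no .no)) .no (.br .no (.br (.br .no .no (.br .no .no .no (.de 44)) .no) .no .no .no) .no (.br (.br .no .no (.br .no .no .no (.de 44)) .no) (.de 42) .no .no))) (.br .no (.br .no (.br (.br .no .no (.br .no .no .no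 (.de 44)) .no) .no .no .no) .no (.br (.br .no .no (.br .no .no .no (.de 44)) .no) (.de 42) .no .no)) .no .no)) .no .no (.br .no .no (.br .no (.br .no (.br (.br .no .no (.br (.br .no (.br (.br .no .no (.br .no .no .no (.de 43)) (.br .no .no .no (.de 43))) .no .no (.de 46)) .no .no) .no .no .no) .no) .no .no .no) .no (.br (.br .no .no (.br (.br .no (.br (.br .no .no (.br .no (.br .no .no .no (.de 44)) .no .no) .no) .no .no (.de 46)) .no .no) .no .no .no) .no) (.de 42) .no .no)) .no (.sw 0 1 [14,15,26,27])) .no)) .no .no)) .no) (.br (.br .no .no (.br .no (.sw 0 3 [17,24]) .no (.br (.br .no .no (.br .no .no .no (.br .no .no (.br .no (.br (.br .no (.br .no .no .no (.de 45)) (.sw 1 3 [31]) .no) .no .no .no) .no (.br (.br .no (.br .no .no .no (.de 45)) (.sw 1 3 [31]) .no) (.br .no .no (.br .no (.sw 0 3 [17,24,31,32]) .no (.sw 0 1 [14,15,26,27,32])) .no) .no .no)) (.br .no (.de 42) .no .no))) (.de 34)) .no .no .no)) (.br .no (.br (.br .no .no (.br .no .no .no (.br .no .no (.br .no (.br (.sw 2 3 [30])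 .no (.br .no .no .no (.de 44)) .no) .no .no) (.br .no (.de 42) (.br (.br .no .no (.br .no (.br (.br .no .no (.br .no (.br .no .no .no (.de 44)) .no .no) .no) .no .no .no) .no (.br (.br .no .no (.br .no (.br .no .no .no (.de 44)) .no .no) .no) (.de 46) .no .no)) (.br .no (.de 45) .no .no)) .no .no .no) .no))) (.de 34)) .no .no (.br .no .no (.br .no .no .no (.sw 0 1 [14,15,26,27])) .no)) .no .no)) .no (.br .no .no .no (.br .no (.br (.br .no .no (.br .no .no .no (.br (.br .no (.br (.br .no .no (.br .no (.br (.br .no .no (.br .no .no .no (.de 48)) .no) .no .no .no) .no (.br (.br .no .no (.br .no .no .no (.de 48)) .no) (.de 46) .no .no)) (.br .no (.de 45) .no .no)) .no (.sw 0 3 [17,24,30]) .no) .no .no) .no .no (.br (.br .no .no (.br .no .no .no (.de 44)) .no) (.de 42) .no .no))) (.de 34)) .no .no (.br .no .no (.br .no .no .no (.sw 0 1 [14,15,26,27])) .no)) .no .no)) .no) .no .no) .no .no (.sw 0 2 [20])) .no .no) .no) .no (.sw 0 3 [17]) .no) .no .no)) (.br .no (.br (.br .no .no (.br (.br .no (.br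 (.br (.br .no .no (.br .no (.sw 0 3 [17,23]) .no (.br .no (.br .no .no (.br .no .no .no (.br .no (.sw 2 3 [21]) (.br .no (.br (.br .no .no (.br (.sw 1 3 [30,31]) .no .no (.de 44)) .no) .no .no .no) .no (.br (.br .no .no (.br (.sw 1 3 [30,31]) .no .no (.de 44)) .no) (.de 42) .no .no)) .no)) (.br .no .no (.br .no (.sw 2 3 [21]) .no .no) .no)) .no .no)) (.br .no (.br .no .no .no (.br .no .no (.br .no .no .no (.br .no (.sw 2 3 [21]) (.sy 31 30 3) .no)) .no)) .no .no)) .no (.br .no .no .no (.br .no (.br .no .no .no (.br .no .no (.br .no .no .no (.br .no (.sw 0 2 [20,27]) .no .no)) .no)) .no .no)) .no) .no .no .no) .no .no) .no .no .no) .no) .no .no .no) .no .no)) .no))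

def c4_6_3 : Cert := (.br (.br .no .no .no (.br (.br .no .no (.de 20) .no) (.br (.br .no .no (.br .no .no (.br .no .no .no (.br .no (.br (.br .no .no (.br .no (.sw 0 3 [12,19]) .no (.br .no (.br (.br .no .no (.br .no .no .no (.br .no (.br (.br .no .no (.br .no .no .no (.br .no (.br (.br .no .no (.br .no .no .no (.de 44)) .no) .no .no .no) .no (.br (.br .no .no (.br .no .no .no (.de 44)) .no) (.de 42) .no .no))) .no) .no .no .no) .no .no)) .no) (.br (.br .no .no (.br .no (.br (.br .no .no (.br (.sw 1 3 [26,27]) .no .no (.br .no .no (.br .no (.br (.br .no .no (.br .no (.sw 0 3 [12,19,26,32]) .no (.br (.de 41) (.de 46) .no .no)) (.br .no (.de 45) .no .no)) .no .no (.br .no .no (.de 44) .no)) .no (.br (.br .no .no (.br .no (.sw 0 3 [12,19,26,32]) .no (.br (.de 41) (.de 46) .no .no)) (.br .no (.de 45) .no .no)) .no .no .no)) (.br .no (.de 42) .no .no))) .no) .no .no .no) .no (.br (.br .no .no (.br (.sw 1 3 [26,27]) .no .no (.br .no .no (.br .no (.br (.br .no (.br .no .no .no (.de 45)) (.sw 1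 3 [31]) .no) .no .no .no) .no (.br (.br .no (.br .no .no .no (.de 45)) (.sw 1 3 [31]) .no) (.br .no .no (.br .no (.br (.de 41) .no .no .no) .no (.br (.de 41) (.de 46) .no .no)) .no) .no .no)) (.br .no (.de 42) .no .no))) .no) (.br (.br .no .no .no (.br .no .no (.br .no (.br (.br .no .no (.br .no .no .no (.br .no (.de 46) (.br (.br .no .no .no (.de 48)) .no .no .no) .no)) .no) .no .no .no) .no (.br (.br .no .no (.br .no .no .no (.br .no (.de 46) (.br (.br .no (.br .no .no (.br .no .no .no (.br .no (.de 46) .no .no)) .no) .no .no) .no .no .no) .no)) .no) (.br (.br .no .no (.br .no (.br (.br .no (.br .no .no (.br .no .no .no (.br .no (.br .no .no .no (.br .no .no (.br .no .no .no (.sw 0 3 [12,19,26,33,34,41,48])) .no)) .no .no)) .no) .no .no) .no .no .no) .no .no) (.br .no (.de 46) (.br (.br .no (.br .no .no (.br .no .no .no (.br .no (.de 46) .no .no)) .no) .no .no) .no .no .no) .no)) .no (.br .no .no .no (.br .no (.de 46) (.br (.br .no (.br .no .no (.br .no .no .no (.sw 0 1 [37])) .no) .no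 .no) .no .no .no) .no)) .no) .no .no)) (.br .no (.de 42) .no .no))) .no (.sw 0 3 [12,19,26]) .no) .no .no)) (.br .no (.br (.br .no .no (.br (.sw 1 3 [26,27]) .no .no (.br .no .no (.br .no (.br (.sw 2 3 [30]) .no (.br .no .no .no (.de 44)) .no) .no .no) (.br .no (.de 42) (.br (.br .no .no (.br .no (.sw 0 3 [12,19,26,32]) .no (.br (.br .no .no (.br .no (.br .no .no .no (.de 44)) .no .no) .no) (.de 46) .no .no)) (.br .no (.de 45) .no .no)) .no .no .no) .no))) .no) .no .no .no) .no .no)) .no (.br .no .no .no (.br .no (.br (.br .no .no (.br (.sw 1 3 [26,27]) .no .no (.br (.br .no (.br (.br .no .no (.br .no (.sw 0 3 [12,19,26,32]) .no (.br (.br .no .no (.br .no .no .no (.de 48)) .no) (.de 46) .no .no)) (.br .no (.de 45) .no .no)) .no (.br .no .no .no (.de 44)) .no) .no .no) .no .no (.br (.br .no .no (.br .no .no .no (.de 44)) .no) (.de 42) .no .no))) .no) .no .no .no) .no .no)) .no) .no .no) .no .no)) (.br .no (.br .no .no .no (.br (.br .no .no (.br .no .no .no (.br .no (.br (.sw 2 3 [25]) .no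 (.br (.br .no (.br .no (.br (.br .no .no (.br (.br .no (.sw 2 3 [25,32]) .no (.br .no .no (.br .no .no .no (.de 47)) .no)) .no .no (.de 44)) .no) .no .no .no) .no (.br (.br .no .no (.br (.br .no (.sw 2 3 [25,32]) .no (.br .no .no (.de 41) .no)) .no .no (.de 44)) .no) (.de 42) .no .no)) .no .no) .no .no .no) .no) (.br (.br .no .no (.br .no (.br .no (.br (.br .no (.br .no .no .no (.br .no (.de 45) .no .no)) .no .no) .no .no .no) .no (.br (.br .no (.br .no .no .no (.br .no (.de 45) .no .no)) .no .no) (.de 42) .no .no)) .no .no) .no) .no .no .no) .no)) .no) (.br (.br .no .no (.br .no (.br (.sw 2 3 [25]) .no (.br (.de 34) .no .no .no) .no) .no .no) (.br .no (.br (.sw 2 3 [25]) .no (.br (.de 34) .no .no .no) .no) (.br (.br .no .no (.br (.sy 31 201 3) .no .no .no) .no) .no .no .no) .no)) .no (.br .no .no .no (.br .no (.br (.sw 2 3 [25]) .no (.br (.de 34) .no .no .no) .no) (.br (.br .no .no (.br (.sy 31 201 3) .no .no .no) .no) .no .no .no) .no)) .no) .no .no)) .no .no)) .no (.br .no .no .no (.br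 .no (.br .no .no .no (.br (.br .no .no (.br (.br .no (.br (.br .no .no (.br .no (.sy 25 39 9) .no .no) .no) .no (.sw 0 3 [12,19,25]) .no) .no .no) .no .no (.br (.br .no .no (.sy 25 39 7) .no) (.sw 0 2 [24]) .no .no)) .no) (.br (.br .no .no .no (.br (.br .no .no (.sy 25 39 7) .no) (.sw 0 2 [24]) .no .no)) .no (.br (.br .no (.br (.br .no .no (.br (.br (.br .no (.br .no .no (.sy 30 228 7) (.br .no .no (.de 44) .no)) .no (.br .no .no (.de 43) .no)) .no .no (.br .no (.de 42) .no .no)) .no .no .no) .no) .no (.sw 0 3 [12,19,25]) .no) .no .no) .no .no (.br (.br .no .no (.sy 25 39 7) .no) (.sw 0 2 [24]) .no .no)) .no) .no .no)) .no .no)) .no) (.br (.br .no .no (.br .no (.sw 0 3 [12,19]) .no (.br .no (.br (.br .no (.br .no .no .no (.br .no (.br (.br .no .no (.br .no .no .no (.br .no .no (.br (.br .no .no (.br .no .no .no (.de 44)) .no) .no .no .no) (.br (.sw 1 2 [23,29]) .no (.br (.br .no .no (.br .no (.sw 0 3 [12,19,26,32]) .no (.br (.br .no (.br .no (.br .no .no .no (.de 44)) .no .no) (.sw 1 3 [26,27,34])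 .no) (.de 46) .no .no)) (.br .no (.de 45) .no .no)) .no .no .no) .no))) .no) .no .no .no) .no .no)) .no .no) (.br (.br .no (.br .no .no .no (.br (.br .no .no (.br (.sw 1 3 [26,27]) .no .no (.br .no .no (.br .no .no .no (.br (.sw 1 2 [23,30]) .no (.de 43) .no)) (.br .no .no (.br (.br .no (.br .no .no .no (.de 45)) (.br .no (.br (.br .no .no (.br .no (.br .no .no .no (.de 44)) .no .no) .no) .no .no .no) .no (.br (.br .no .no (.br .no (.br .no .no .no (.de 44)) .no .no) .no) (.de 46) .no .no)) .no) .no .no .no) .no))) .no) (.br (.br .no .no .no (.br .no .no (.br .no .no .no (.br (.sw 1 2 [23,30]) .no (.de 43) .no)) (.sy 28 177 7))) .no (.sw 0 3 [12,19,26]) .no) .no .no)) .no (.sw 1 2 [23])) .no .no .no) .no .no) .no .no)) (.br .no (.br .no .no .no (.sy 27 30 3)) .no .no)) .no .no .no) .no)) (.br .no .no (.br .no (.br (.br .no .no (.br .no (.de 27) .no (.br .no (.br (.br .no .no .no (.br .no .no (.br .no (.br (.br .no .no (.de 34) .no) .no .no .no) .no (.br (.br .no .no (.de 34) .no) (.br (.br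 .no .no (.br .no (.br (.br .no (.br (.sy 35 225 3) .no (.br .no .no .no (.br .no (.de 46) .no .no)) .no) .no .no) .no .no .no) (.br (.br .no (.br (.br .no .no (.br .no (.sw 0 3 [12,19,26,33]) .no (.br .no (.br .no (.br .no .no (.br .no .no .no (.br .no (.de 46) .no .no)) (.br .no .no (.br .no (.de 46) .no (.br .no (.br .no .no (.sw 0 3 [12,19,26,33,40]) .no) .no .no)) .no)) .no (.br .no .no (.br .no .no .no (.br .no (.de 46) .no .no)) .no)) .no .no)) (.br .no (.de 46) .no .no)) .no (.br .no .no .no (.br .no (.de 46) .no .no)) .no) .no .no) (.br (.br .no .no (.br .no .no .no (.br .no (.de 46) .no .no)) .no) .no .no .no) .no .no) .no) .no) .no (.de 34) .no) .no .no)) .no)) (.br (.br .no .no (.br .no (.br (.br .no .no (.br (.sw 2 3 [21,22]) .no .no .no) .no) .no .no .no) .no (.br (.br .no .no (.br (.sw 2 3 [21,22]) .no .no .no) .no) (.br (.br .no .no (.br .no .no (.br .no (.br (.br .no .no (.br .no .no .no (.br .no (.de 46) .no .no)) .no) .no .no .no) .no (.br (.br .no .no (.br .no .no .no (.br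 .no (.de 46) .no .no)) .no) (.br (.br .no .no (.br .no (.sw 0 3 [12,19,26,33]) .no (.br (.br .no (.br .no .no (.br .no .no .no (.br .no (.de 46) .no .no)) .no) .no .no) .no .no .no)) (.br .no (.de 46) .no .no)) .no (.br .no .no .no (.br .no (.de 46) .no .no)) .no) .no .no)) (.br .no (.de 42) .no .no)) .no) .no (.sw 0 3 [12,19,26]) .no) .no .no)) (.br .no (.br (.br .no .no (.br (.sw 2 3 [21,22]) .no .no .no) .no) .no .no .no) .no .no)) .no .no (.br .no .no (.br .no (.br (.br .no .no (.br (.br (.br .no (.br (.sw 2 3 [21,22,29,30]) .no .no (.br .no .no (.de 44) .no)) .no .no) .no (.br (.br .no .no .no (.br .no .no (.de 44) .no)) (.sw 0 3 [29]) .no .no) .no) .no .no .no) .no) .no .no .no) .no (.br (.br .no .no (.br (.br (.br .no (.br (.br .no (.sy 35 228 3) (.sw 1 3 [31]) .no) .no .no .no) .no .no) .no (.br (.br .no (.br .no .no (.br .no (.br .no .no .no (.de 41)) .no (.br .no (.de 46) .no .no)) .no) .no .no) (.sw 0 3 [29]) .no .no) .no) .no .no .no) .no) (.br (.br .no .no (.br (.br .no (.br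 (.br .no .no (.br .no .no .no (.br .no (.de 46) .no .no)) .no) .no .no .no) .no .no) .no (.br (.br .no (.br (.br .no .no (.br .no (.sw 0 3 [12,19,26,33]) .no (.br (.br .no (.br .no .no (.sw 0 3 [29,36]) (.br .no .no (.br .no (.de 46) .no (.br .no (.br .no .no (.sw 1 3 [40,45,46]) .no) .no .no)) .no)) .no (.de 48)) .no .no .no)) (.br .no (.de 46) .no .no)) .no (.br .no .no .no (.br .no (.de 46) .no .no)) .no) .no .no) (.sw 0 3 [29]) .no .no) .no) .no) .no (.sw 0 3 [12,19,26]) .no) .no .no)) .no)) .no .no) .no .no)) (.br .no (.de 27) .no .no)) .no (.br .no .no .no (.br .no (.de 27) .no .no)) .no) .no .no) .no)) .no) .no (.de 20) .no) .no .no)) .no (.br (.br .no (.br (.br .no .no (.br .no .no (.br (.sw 1 3 [9,10,15]) .no .no (.br .no (.br .no .no (.sy 17 228 7) (.br .no .no (.br .no (.sw 0 3 [12,19]) .no (.br .no (.br (.br .no .no (.sy 22 39 7) .no) (.br (.br .no .no (.br (.br .no (.br (.sy 17 228 16) .no (.sw 0 3 [12,19,26]) .no) .no .no) (.sy 22 39 9) .no .no) .no) .no (.sw 0 3 [22]) .no)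 .no .no) .no .no)) .no)) .no .no)) (.br (.br .no (.br .no .no (.sy 17 228 7) (.br .no .no (.br .no (.de 27) .no (.br .no (.sy 12 39 16) .no .no)) .no)) .no (.br .no .no (.sy 17 228 7) .no)) .no .no .no)) .no) .no (.de 20) .no) .no .no) .no .no (.br (.br .no .no (.de 20) .no) (.br (.br .no .no (.sy 12 39 12) .no) .no (.de 20) .no) .no .no)) .no)

theorem P4_6 : R.S 12 10413188 :=
  R.piece L hL (.br (.br .no (.br (.br .no (.br (.br .no .no .no (.br .no (.br .no .no (.de 20) (.br .no .no (.br .no .no (.br .no .no .no c4_6_0) (.br .no .no (.br .no (.br (.br .no .no (.br (.br .no (.br (.br .no .no .no (.br .no .no (.br .no (.br .no .no .no (.br .no .no (.de 34) .no)) .no (.br .no (.br .no .no (.de 34) (.br .no .no (.br .no (.br (.br .no (.br (.sy 35 225 3) .no (.br (.br .no (.br .no .no .no (.br .no .no .no (.br .no .no (.br .no .no .no (.br .no (.br .no .no .no (.sw 0 2 [38,39])) .no .no)) .no))) .no .no) .no .no .no) .no) .no .no) .no .no .no) (.br (.br .no (.br (.br .no .no (.br (.br .no (.br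 .no (.br .no .no (.sy 36 228 7) (.br .no .no (.br .no (.sw 2 3 [43,44]) .no (.br .no (.br .no .no (.sw 1 3 [45,46]) (.br (.sw 2 3 [47]) .no .no .no)) .no .no)) .no)) .no (.br .no .no (.sy 36 228 7) .no)) .no (.br .no (.br .no .no (.br .no .no .no (.br .no (.br .no .no .no (.br .no .no (.br (.sw 1 3 [41]) .no .no .no) .no)) .no .no)) (.br .no .no (.br .no (.sw 2 3 [43,44]) .no (.br .no (.br .no .no (.sw 1 3 [45,46]) .no) .no .no)) .no)) .no (.br .no .no (.br .no .no .no (.br .no (.br .no .no .no (.br .no .no (.br (.sw 1 2 [35]) .no .no .no) .no)) .no .no)) .no))) (.br .no .no .no (.br .no (.br .no .no (.br .no .no .no (.br .no (.br .no .no .no (.br .no .no (.sw 0 1 [40]) .no)) .no .no)) (.br .no .no (.br .no (.sw 2 3 [43,44]) .no (.de 46)) .no)) .no (.br .no .no (.br .no .no .no (.br .no (.br .no .no .no (.br .no .no (.sw 0 1 [40]) .no)) .no .no)) .no))) .no .no) .no) .no (.br (.br .no (.br .no .no .no (.br .no (.br .no .no (.br .no .no .no (.br .no (.br .no .no .no (.sw 0 2 [38,39])) .no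 .no)) (.de 44)) .no (.br .no .no (.br .no .no .no (.br .no (.br .no .no .no (.sw 0 2 [38,39])) .no .no)) .no))) .no .no) .no .no .no) .no) .no .no) (.br (.br .no .no (.br (.br .no (.br .no .no .no (.br .no .no .no (.br .no .no (.br .no .no .no (.sw 0 1 [36,37])) .no))) .no .no) .no .no .no) .no) .no .no .no) .no .no) .no) .no)) .no .no)) .no)) (.br (.br .no .no (.br .no (.br .no .no .no (.br .no .no (.br (.sw 2 3 [21,22]) .no .no .no) .no)) .no (.br .no (.br .no .no (.br (.sw 2 3 [21,22]) .no .no .no) (.br (.sw 2 3 [21,22]) .no (.br .no .no (.br .no (.br (.br .no .no (.br (.br .no (.br (.sw 2 3 [21,22,33,34]) .no .no (.sw 0 2 [34])) .no .no) .no .no .no) .no) .no .no .no) .no (.br (.br .no .no (.br (.br .no (.br (.sw 2 3 [21,22,33,34]) .no .no (.sw 0 2 [34])) .no .no) .no .no .no) .no) (.br (.br .no .no (.br (.br .no .no .no (.br .no (.br .no .no (.br .no .no .no (.br .no (.br .no .no .no (.br .no .no (.br .lf .no .no .no) .no)) .no .no)) .no) .no .no)) (.br (.br .no (.br .no .no (.br .no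 .no .no (.br .no (.br .no .no .no (.br .no .no (.br .no .no .no .lf) .no)) .no .no)) .no) .no .no) .no .no (.sw 0 2 [34])) .no .no) .no) .no (.br (.br .no (.br (.sw 2 3 [21,22,33,34]) .no .no (.sw 0 2 [34])) .no .no) .no .no .no) .no) .no .no)) (.br .no (.de 42) .no .no)) .no)) .no .no)) (.br .no (.br .no .no .no (.br .no .no (.br (.sw 2 3 [21,22]) .no .no .no) .no)) .no .no)) .no .no (.br .no .no (.br .no (.br .no .no .no (.br .no .no (.br (.br (.br .no (.br (.sw 2 3 [21,22,29,30]) .no .no (.br (.br .no (.br .no .no .no (.de 46)) .no .no) .no (.de 44) .no)) .no .no) .no (.br (.br .no .no .no (.br (.br .no (.br .no .no .no (.de 41)) .no .no) .no (.de 44) .no)) (.sw 0 3 [29]) .no .no) .no) .no .no .no) .no)) .no (.br .no (.br .no .no (.br (.br (.br .no (.br (.br .no .no (.br (.sw 1 3 [31,32]) .no .no (.br .no (.de 46) .no .no)) .no) .no .no .no) .no .no) .no (.br (.br .no (.br (.br .no .no .no (.br .no (.de 46) .no .no)) .no (.br (.br .no (.br .no .no .no (.br .no (.br .no .no (.sw 0 3 [29,36])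 (.de 44)) .no (.br .no .no (.br .no .no .no (.br .no (.br .no .no .no (.br .no .no (.br (.sw 1 3 [42]) .no .no .no) .no)) .no .no)) .no))) .no (.de 41)) .no .no (.br .no (.de 46) .no .no)) .no) .no .no) (.sw 0 3 [29]) .no .no) .no) .no .no .no) (.br (.br (.br .no (.br (.br .no .no (.br (.br .no (.sw 2 3 [33]) (.sy 37 216 3) .no) .no .no .no) .no) .no .no .no) .no .no) .no (.br (.br .no (.br (.br .no .no (.br .no (.br .no .no .no (.br .no (.br .no .no (.sw 0 3 [29,36]) (.br .no .no (.br .no (.sw 2 3 [43,44]) .no (.de 46)) .no)) .no (.br .no .no (.br .no .no .no (.br .no (.br .no .no .no (.br .no .no (.br (.sw 1 3 [42]) .no .no .no) .no)) .no .no)) .no))) .no .no) .no) .no (.br (.br .no (.sw 2 3 [33]) (.br .no .no .no (.de 47)) .no) .no .no .no) .no) .no .no) (.sw 0 3 [29]) .no .no) .no) .no (.br (.br .no (.sy 29 27 7) .no .no) .no (.br (.br .no (.br (.br .no .no (.br (.br .no .no .no (.sw 0 1 [28])) (.br (.br .no (.br .no .no (.sw 0 3 [29,36]) (.br .no .no (.br .no (.sw 2 3 [43,44]) .no (.de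 46)) .no)) .no (.de 48)) .no .no (.sw 0 1 [28])) .no .no) .no) .no (.sy 29 27 9) .no) .no .no) (.sw 0 3 [29]) .no .no) .no) .no)) .no .no)) .no)) .no .no) .no .no) (.de 27) .no .no) .no) .no (.br (.br .no (.de 27) .no .no) .no .no .no) .no) .no .no) .no)) .no)) .no .no)) .no c4_6_1 .no) .no .no) (.br (.br .no .no (.br (.sw 1 3 [9,10]) .no .no (.br .no c4_6_2 .no .no)) .no) .no .no .no) .no .no) .no .no) .no .no (.br .no (.br (.br .no c4_6_3 .no .no) (.br (.br .no .no (.br (.sw 1 3 [9,10]) .no .no (.br (.br .no .no (.sy 12 39 7) .no) (.br (.br .no .no (.sy 12 39 9) .no) .no (.sw 0 3 [12]) .no) .no .no)) .no) .no .no .no) .no .no) .no .no)) 12 10413188 16777216 (by norm_num) (by norm_num) (by norm_num) (by decide +kernel)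

end T7
end Pool.Agent.H411R2.WSK
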