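import Pool.Agent.H411R2.WSK.T7

set_option maxRecDepth 100000
set_option linter.all false

namespace Pool.Agent.H411R2.WSK

namespace T7

def c5_0_0 : Cert := (.br .no .no (.br .no .no .no (.br .no (.br (.sw 2 3 [11,17]) .no .no (.br (.br .no (.br .no .no .no (.br (.br .no .no (.br (.br .no (.sw 2 3 [11,17,24]) (.sy 28 216 3) .no) .no .no .no) .no) (.br (.br .no .no (.br .no (.br .no .no (.br (.de 34) .no .no .no) (.br (.de 34) .no (.br (.br .no .no (.br .no (.br (.sw 2 3 [11,17,24,30]) .no .no (.br (.br .no (.br .no .no .no (.de 41)) .no .no) .no (.de 44) .no)) .no (.br (.br .no .no (.br (.br .no (.br .no .no .no (.br .no (.br .no .no (.br .no .no .no (.br .no (.br .no .no .no (.sw 1 2 [3,10,17,18,23,30,31,38,45])) .no .no)) .no) .no .no)) .no (.de 41)) (.br .no .no .no (.de 41)) .no .no) .no) .no .no .no)) (.br .no (.de 42) .no .no)) .no .no .no) .no)) .no .no) .no) .no (.br (.br .no (.sw 2 3 [11,17,24]) (.br .no .no .no (.br (.de 34) .no (.br (.br (.br .no (.br .no .no .no (.br (.sw 1 2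 [31]) (.br (.br .no (.br .no .no (.br .no .no .no (.de 48)) (.de 48)) .no (.br .no .no (.de 47) .no)) .no .no .no) .no .no)) .no (.br .no (.br (.br .no (.br .no .no .no (.de 46)) .no .no) .no .no .no) .no .no)) .no .no (.br .no (.de 42) .no .no)) .no .no .no) .no)) .no) .no .no .no) .no) .no .no)) .no .no) .no (.br (.br .no (.br (.br .no .no (.br (.br .no (.br .no .no .no (.br .no .no (.br .no .no .no (.br .no (.br .no .no .no (.de 42)) .no (.br .no (.de 42) .no .no))) .no)) .no .no) .no .no .no) .no) (.br (.br .no .no (.br (.br .no (.br .no .no (.br (.br .no .no (.br .no (.br .no .no .no (.br .no .no (.de 44) .no)) .no (.br .no (.br .no .no (.sw 0 3 [24,31]) (.br (.br .no (.br .no .no .no (.br .no (.br .no .no (.de 44) .no) .no .no)) .no (.de 41)) .no .no .no)) .no .no)) (.br .no (.de 42) .no .no)) .no .no (.br .no .no (.br .no (.br .no .no .no (.br .no .no (.de 44) .no)) .no (.br .no (.br .no .no (.sw 0 3 [24,31]) (.br (.br .no (.br (.br .no (.br .no .no (.de 44) .no) .no .no) .no .no .no)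 .no .no) .no .no .no)) .no .no)) (.br .no (.de 42) .no .no))) (.br (.br .no .no (.br .no (.br .no .no .no (.br .no .no (.de 44) .no)) .no (.br .no (.br .no .no (.sw 0 3 [24,31]) (.br (.br .no (.sw 2 3 [33]) (.br .no .no .no (.de 47)) .no) .no (.br .no (.br .no .no .no (.br .no (.br .no .no (.de 44) .no) .no .no)) .no .no) .no)) .no .no)) (.br .no (.de 42) .no .no)) .no .no .no)) .no (.br .no .no (.br (.br .no .no (.br .no (.br .no .no .no (.br .no (.br (.br .no (.br .no .no .no (.br .no .no .no (.br .no .no (.de 44) .no))) .no (.de 41)) .no .no .no) (.de 44) .no)) .no (.br .no (.br .no .no (.br (.sw 1 3 [32]) (.br .no .no .no (.de 41)) .no .no) .no) .no .no)) (.br .no (.de 42) .no .no)) .no .no (.br .no .no (.br .no (.br .no .no .no (.br .no (.br (.br .no (.br (.sy 38 225 3) .no .no .no) .no .no) .no .no .no) (.de 44) .no)) .no (.br .no (.br .no .no (.br (.sw 1 3 [32]) (.br (.de 41) .no .no .no) .no .no) .no) .no .no)) (.br .no (.de 42) .no .no))) .no)) (.sw 0 3 [24]) .no .no) .no) .no (.br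 (.br .no (.br .no .no .no (.br .no .no (.br (.br (.br .no (.br .no .no (.sw 0 3 [24,30]) (.br (.br .no (.br .no .no .no (.de 46)) .no .no) .no (.de 44) .no)) .no (.br .no .no (.de 43) .no)) .no .no (.br .no (.de 42) .no .no)) .no .no (.br (.br .no (.br .no .no (.sw 0 3 [24,30]) (.br (.br .no (.br (.br .no .no (.br .no .no .no (.de 48)) .no) .no .no .no) .no .no) .no (.de 44) .no)) .no (.br .no .no (.de 43) .no)) .no .no (.br .no (.de 42) .no .no))) .no)) .no .no) .no .no .no) .no) .no .no) .no (.br (.br .no .no (.br (.br .no (.br .no .no .no (.br .no (.de 34) (.br .no (.br .no (.br .no .no .no (.de 42)) .no (.br .no (.de 42) .no .no)) .no .no) .no)) .no .no) .no .no .no) .no) (.br (.br .no .no (.br (.br .no (.br .no .no (.br (.sw 1 3 [27]) .no .no .no) .no) .no (.br .no (.br (.sy 33 225 3) .no .no .no) (.br (.sw 1 3 [27]) .no .no .no) .no)) (.sw 0 3 [24]) .no .no) .no) .no (.br (.br .no (.br .no .no .no (.br .no (.br (.br (.br .no (.br .no .no (.sw 0 3 [24,30]) (.br (.br .no .no (.br .no .no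 .no (.br .no .no (.de 47) .no)) .no) .no (.de 44) .no)) .no (.br .no .no (.de 43) .no)) .no .no (.br .no (.de 42) .no .no)) .no .no .no) (.br (.sw 1 3 [27]) .no .no .no) .no)) .no .no) .no .no .no) .no) .no .no)) (.br .no .no .no (.br (.br .no .no (.br (.br .no (.br (.br .no .no (.br .no (.sy 27 27 7) .no .no) .no) .no .no (.sw 0 2 [25])) .no .no) .no .no .no) .no) (.br (.br .no .no (.br (.br .no .no .no (.br (.de 34) .no (.sw 0 1 [26]) .no)) (.sw 0 3 [24]) .no .no) .no) .no (.br (.br .no (.br (.br .no .no (.br (.sy 27 27 9) .no .no .no) .no) .no .no (.sw 0 2 [25])) .no .no) .no .no .no) .no) .no .no)) .no .no) .no)) .no .no)) (.br .no .no (.br .no (.br (.sw 2 3 [11,17]) .no .no (.br (.br .no (.de 27) .no .no) .no (.br (.br .no (.br (.br .no .no .no (.br (.br .no (.br .no .no .no (.br .no .no (.de 34) .no)) .no .no) .no (.br (.br .no (.br .no .no (.de 34) (.br .no .no (.br .no (.br (.br .no (.br .no .no (.sw 0 3 [24,31]) (.br (.br .no (.br .no .no .no (.br .no .no .no (.br .no .no (.de 44)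 .no))) .no .no) .no (.br (.br .no .no .no (.br .no .no .no (.br .no .no (.de 44) .no))) (.br .no .no .no (.br .no .no .no (.br .no .no (.de 44) .no))) .no .no) .no)) .no (.br .no .no (.de 44) .no)) .no .no .no) (.br (.br .no (.br .no .no (.sw 0 3 [24,31]) (.br (.br .no (.br .no .no .no (.br .no (.br .no .no (.de 44) (.br .no .no (.br .no (.sw 2 3 [38,43,44]) .no .no) .no)) .no (.br .no .no (.de 44) .no))) .no .no) .no (.br (.br .no (.br .no (.br .no .no (.de 44) (.br .no .no (.br .no (.sw 0 3 [24,31,38]) .no .no) .no)) .no (.br .no .no (.de 44) .no)) .no (.br .no (.br .no .no (.de 44) (.br .no .no (.br .no (.sw 0 3 [24,31,38]) .no .no) .no)) .no (.br .no .no (.de 44) .no))) (.br .no .no .no (.br .no (.br .no .no (.de 44) (.br .no .no (.br .no (.sw 0 3 [24,31,38]) .no .no) .no)) .no (.br .no .no (.de 44) .no))) .no .no) .no)) .no (.br .no .no (.de 44) .no)) (.br .no .no .no (.br .no .no (.de 44) .no)) .no .no) .no) .no)) .no (.br .no .no (.de 34) .no)) (.sw 0 3 [24]) .no .no) .no)) (.br (.br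 .no .no (.br (.br .no (.br .no .no (.br (.sw 2 3 [21,22]) .no .no .no) (.br (.sw 2 3 [21,22]) .no (.br .no .no (.br .no (.br .no .no .no (.br .no .no (.de 44) .no)) .no (.br .no (.br .no .no (.sw 0 3 [24,31]) (.br (.br .no (.br (.sw 2 3 [21,22,33,34]) .no .no (.sw 0 2 [34])) .no .no) .no (.br (.br .no .no .no (.br .no (.br .no .no (.de 44) .no) .no .no)) (.br (.br .no (.br .no .no (.de 44) .no) .no .no) .no .no (.sw 0 2 [34])) .no .no) .no)) .no .no)) (.br .no (.de 42) .no .no)) .no)) .no (.br .no .no (.br (.sw 2 3 [21,22]) .no .no .no) .no)) (.sw 0 3 [24]) .no .no) .no) .no .no (.br (.br .no (.br .no .no .no (.br .no .no (.br (.br (.br .no (.sw 2 3 [21,22,29]) (.br .no .no .no (.de 43)) .no) .no (.br .no (.br .no .no (.sw 0 3 [24,29,30]) (.br (.br .no (.br .no .no .no (.de 41)) .no .no) .no (.de 44) .no)) .no .no) .no) .no .no .no) .no)) .no .no) .no (.br (.br .no (.br .no .no (.br (.br (.br .no (.br .no .no .no (.br .no .no (.de 44) .no)) .no .no) .no (.br (.br .no (.br .no .no (.sw 0 3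 [24,31]) (.br (.br .no (.br .no .no .no (.br .no (.br .no .no (.de 44) (.br .no .no (.br .no (.sw 2 3 [38,43,44]) .no .no) .no)) .no (.br .no .no (.de 44) .no))) .no (.de 41)) .no .no .no)) .no (.br .no .no (.de 44) .no)) (.sw 0 3 [29]) .no .no) .no) .no .no .no) (.br (.br (.br .no (.br .no .no .no (.br .no .no (.de 44) .no)) .no .no) .no (.br (.br .no (.br .no .no (.sw 0 3 [24,31]) (.br (.br .no (.sw 2 3 [33]) (.br .no .no .no (.de 47)) .no) .no (.br .no (.br .no .no .no (.br .no (.br .no .no (.de 44) (.br .no .no (.br .no (.sw 0 3 [24,31,38]) .no .no) .no)) .no (.br .no .no (.de 44) .no))) .no .no) .no)) .no (.br .no .no (.de 44) .no)) (.sw 0 3 [29]) .no .no) .no) .no (.br (.br .no (.br .no .no .no (.br .no .no (.de 44) .no)) .no .no) .no (.br (.br .no (.br .no .no (.sw 0 3 [24,31]) (.br (.br .no (.br (.br .no (.br .no .no (.de 44) (.br .no .no (.br .no (.sw 2 3 [38,43,44]) .no .no) .no)) .no (.de 48)) .no .no (.sw 0 1 [28])) .no .no) .no (.br (.br .no .no .no (.sw 0 1 [28])) (.br (.br .no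 (.br .no .no (.de 44) (.br .no .no (.br .no (.sw 0 3 [24,31,38]) .no .no) .no)) .no (.de 48)) .no .no (.sw 0 1 [28])) .no .no) .no)) .no (.br .no .no (.de 44) .no)) (.sw 0 3 [29]) .no .no) .no) .no)) .no (.br .no .no (.br (.br (.br .no (.br .no .no .no (.br .no (.br (.br .no (.br .no .no (.br .no .no .no (.de 48)) (.de 48)) .no (.br .no .no (.de 47) .no)) .no .no .no) (.de 44) .no)) .no .no) .no (.br (.br .no (.br .no .no (.br (.sw 1 3 [32]) (.br .no .no .no (.de 41)) .no .no) .no) .no (.br .no (.br (.br .no (.br .no .no .no (.br .no (.br .no .no (.de 44) .no) .no (.br .no .no (.de 44) .no))) .no (.de 41)) .no .no .no) (.de 44) .no)) (.sw 0 3 [29]) .no .no) .no) .no .no .no) .no)) (.sw 0 3 [24]) .no .no) .no)) .no .no) .no .no) (.de 27) .no .no) .no)) .no (.br (.br .no .no (.br (.br .no (.br (.br .no (.br .no .no (.br .no (.br .no .no .no (.br .no .no (.de 34) .no)) .no (.br .no (.br .no .no (.de 34) (.br .no .no (.br .no .no (.br (.sw 1 3 [23,29]) .no .no (.br (.br .no .no (.br (.br .no (.br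 .no .no .no (.br .no (.br .no .no (.br .no .no .no (.br .no (.br .no .no .no (.sw 1 2 [3,10,17,18,25,32,38,45])) .no .no)) .no) .no .no)) .no .no) .no .no .no) .no) (.br (.br .no .no (.br (.br .no (.br .no (.br .no .no (.sw 0 3 [36]) .no) .no .no) .no (.br .no (.br .no .no (.sw 0 3 [36]) .no) .no .no)) (.br .no .no .no (.br .no (.br .no .no (.sw 0 3 [36]) .no) .no .no)) .no .no) .no) .no (.br (.br .no (.br .no .no .no (.br .no (.br .no .no (.sw 0 3 [36]) .no) .no .no)) .no .no) .no .no .no) .no) .no .no)) (.br (.br .no (.br (.br .no .no (.br (.br .no (.br .no (.br .no .no (.br .no .no .no (.br .no (.br .no .no .no (.sw 1 2 [3,10,17,18,25,32,39,45])) .no .no)) (.br .no .no (.br .no (.sw 2 3 [43,44]) .no (.br .no (.br .no .no (.sw 1 3 [45,46]) (.sw 1 2 [3,10,17,18,25,32,39,46])) .no .no)) .no)) .no .no) .no .no) (.de 41) .no .no) .no) .no (.br (.br .no (.de 41) .no .no) .no .no .no) .no) .no .no) .no .no .no)) .no)) .no .no)) .no) .no .no) (.br (.br .no (.br .no .no .no (.br .no (.br .no .no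 (.br (.sw 2 3 [11,17,21,22,23]) .no .no .no) (.sy 30 114 3)) .no .no)) (.sw 1 3 [23]) .no) .no .no .no) .no .no) .no .no) (.de 27) .no .no) .no) .no .no .no)) .no))

theorem P5_0 : R.S 12 14607492 :=
  R.piece L hL (.br (.br .no (.br (.br .no (.br (.br .no .no (.br .no (.br .no .no (.de 20) (.br .no .no c5_0_0 .no)) .no .no) .no) .no (.br (.br .no (.sw 2 3 [11]) (.br .no .no .no (.br .no .no (.br .no .no (.br (.br .no (.br .no .no .no (.br (.sw 1 2 [18]) (.br (.br .no (.br .no (.br .no .no (.br (.br .no .no (.br .no .no .no (.br .no .no (.br (.br (.br .no (.br .no .no .no (.br (.sw 1 2 [18,25,31]) (.br (.br .no (.br .no .no (.br .no .no .no (.de 48)) (.de 48)) .no (.br .no .no (.de 47) .no)) .no .no .no) .no .no)) .no (.br .no (.br (.br .no (.br .no .no .no (.de 46)) .no .no) .no .no .no) .no .no)) .no .no (.br .no (.de 42) .no .no)) .no .no (.sy 31 78 3)) .no)) .no) .no .no .no) (.br (.br .no .no (.br .no .no .no (.br .no .no (.br (.br (.br .no (.sw 2 3 [29]) (.br .no (.br (.br .no (.br .no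 .no .no (.de 46)) .no .no) .no .no .no) .no (.de 43)) .no) .no (.br .no (.br .no .no .no (.br (.sw 1 2 [18,25,31]) (.br (.br .no (.br .no .no .no (.br .no .no .no (.br .no .no (.de 44) .no))) .no (.de 41)) .no .no .no) .no .no)) .no .no) .no) .no .no (.sy 31 78 3)) .no)) .no) .no (.br (.br .no .no (.br .no .no .no (.br (.br (.br .no (.br .no .no .no (.br .no (.br (.br .no (.br .no .no (.br .no .no .no (.de 48)) (.de 48)) (.br .no .no .no (.de 47)) .no) .no .no .no) .no .no)) .no .no) .no (.br (.br .no (.br .no .no .no (.br (.sw 1 2 [18,25,32]) (.de 45) .no .no)) .no (.br .no (.br (.br .no (.br .no .no .no (.br .no (.br .no .no (.de 44) .no) .no (.br .no .no (.de 44) .no))) (.br .no .no .no (.de 47)) .no) .no .no .no) .no .no)) (.br .no .no .no (.br .no (.br (.br .no (.br .no .no .no (.br .no .no .no (.br .no .no (.de 44) .no))) (.br .no .no .no (.de 47)) .no) .no .no .no) .no .no)) .no .no) .no) .no .no .no)) (.sw 1 2 [18,25])) .no .no .no) .no)) .no (.br .no .no (.br (.br .no .no (.br .no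 .no .no (.br .no .no (.br (.br (.br .no (.br .no .no .no (.br (.sw 1 2 [18,25,31]) (.br (.br .no (.br .no .no (.sw 1 3 [28]) .no) .no (.sy 29 141 11)) .no .no .no) .no .no)) .no (.sy 29 141 7)) (.br .no .no .no (.de 42)) .no .no) .no .no .no) .no)) .no) .no .no .no) .no)) .no (.br .no (.br .no .no (.br (.br .no .no (.br .no .no .no (.br .no (.br (.br (.br .no (.br .no .no .no (.br (.sw 1 2 [18,25,31]) (.br (.br .no .no (.br .no .no .no (.de 47)) (.br .no .no (.de 47) .no)) .no (.br .no .no .no (.br .no .no (.de 47) .no)) .no) .no .no)) .no (.br .no (.br (.br .no .no (.br .no .no .no (.br .no .no (.de 47) .no)) .no) .no .no .no) .no .no)) .no .no (.br .no (.de 42) .no .no)) .no .no .no) (.sw 0 1 [25,26]) .no)) .no) .no .no .no) (.br (.br .no .no (.br .no .no .no (.br .no (.br (.br (.br .no (.sw 2 3 [29]) (.br .no (.br (.br .no .no (.br .no .no .no (.br .no .no (.de 47) .no)) .no) .no .no .no) .no (.de 43)) .no) .no (.br .no (.br .no .no .no (.br (.sw 1 2 [18,25,31]) (.br (.br .no .no (.br .no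 .no .no (.de 47)) (.de 41)) .no (.br .no .no .no (.de 41)) .no) .no .no)) .no .no) .no) .no .no .no) (.sw 0 1 [25,26]) .no)) .no) .no (.br (.br .no .no (.br .no (.br (.br (.br .no (.br .no .no .no (.br .no (.br (.br .no .no (.sw 1 3 [27,33]) (.br .no .no (.de 47) .no)) .no .no (.de 45)) .no .no)) .no .no) .no (.br (.br .no (.br .no .no .no (.br (.br .no .no (.sw 1 3 [27,33]) (.de 41)) .no .no .no)) .no (.br .no (.br (.br .no .no (.sw 1 3 [27,33]) (.de 41)) .no .no (.de 45)) .no .no)) (.br .no .no .no (.br .no (.br (.br .no .no (.sw 1 3 [27,33]) (.de 41)) .no .no (.de 45)) .no .no)) .no .no) .no) .no .no .no) .no .no) (.sw 1 2 [18,25])) .no .no .no) .no)) .no (.br .no .no (.br (.br .no .no (.br .no .no .no (.br .no (.br (.br (.br .no (.br .no .no .no (.br (.sw 1 2 [18,25,31]) (.br (.br .no .no (.br .no (.br .no .no .no (.de 48)) .no .no) (.br .no (.br .no .no .no (.de 48)) (.de 47) .no)) .no (.br .no .no .no (.br .no (.br .no .no .no (.de 48)) (.de 47) .no)) .no) .no .no)) .no (.br .no (.br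 (.br .no .no (.br .no .no .no (.br .no (.br .no (.br .no .no (.br .no .no .no (.br .no (.de 46) .no .no)) .no) .no .no) (.de 47) .no)) .no) .no .no .no) .no .no)) (.br .no .no .no (.de 42)) .no .no) .no .no .no) (.sw 0 1 [25,26]) .no)) .no) .no .no .no) .no))) .no .no .no) .no .no)) .no (.br .no (.br (.br .no (.br .no .no .no (.br .no (.br .no .no (.br (.br .no .no (.sw 1 3 [23,24]) (.sw 1 2 [18,24])) .no .no .no) .no) .no (.br .no (.br (.br .no .no (.br .no .no .no (.br (.br .no (.br (.br .no .no (.br .no (.br (.br .no (.br .no .no (.de 41) (.de 46)) (.br .no .no .no (.br .no .no (.de 47) .no)) .no) .no .no .no) .no (.de 43)) (.br .no (.br (.br .no (.br .no .no (.de 41) (.de 46)) (.br .no .no .no (.br .no .no (.de 47) .no)) .no) .no .no .no) .no .no)) .no (.br .no .no .no (.br .no (.br (.br .no (.br .no .no (.br (.br .no (.br .no .no (.br .no .no .no (.de 45)) .no) .no .no) .no .no .no) (.de 46)) (.br .no .no .no (.br (.br .no (.br .no .no (.br .no .no .no (.br .no (.de 46) .no .no)) .no)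 .no .no) .no .no .no)) .no) .no .no .no) .no .no)) .no) .no .no) .no (.br (.br (.br .no .no (.br .no (.br (.br .no (.br .no .no .no (.de 46)) .no .no) .no .no .no) .no (.de 43)) (.br .no (.br (.br .no (.br .no .no .no (.de 46)) .no .no) .no .no .no) .no .no)) .no (.br .no .no .no (.br .no (.br (.br .no (.br .no .no .no (.de 46)) .no .no) .no .no .no) .no .no)) .no) (.br (.br .no .no (.br .no (.br (.br .no (.br (.sy 37 225 3) .no .no (.de 46)) .no .no) .no .no .no) .no (.de 43)) (.br .no (.br (.br .no (.br (.sy 37 225 3) .no .no (.de 46)) .no .no) .no .no .no) .no .no)) .no (.br .no .no .no (.br .no (.br (.br .no (.br (.de 41) .no .no (.de 46)) .no .no) .no .no .no) .no .no)) .no) .no .no) .no)) (.sw 1 2 [18,24])) .no (.br .no .no .no (.br .no .no (.br (.br .no (.br (.br .no .no .no (.br (.sw 1 2 [18,24,29,30]) (.sw 0 2 [30]) .no .no)) .no (.br (.br .no (.br (.br .no (.sy 36 228 3) .no (.br .no .no (.br (.sy 40 201 3) .no .no .no) .no)) .no .no .no) .no .no) .no .no (.br (.br .no (.br .no .no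 .no (.de 45)) .no .no) (.sw 0 2 [30]) .no .no)) .no) .no .no) .no .no .no) .no)) .no) (.br (.br .no .no (.sw 1 3 [23,24]) (.sw 1 2 [18,24])) .no .no .no) .no))) .no .no) .no .no .no) .no .no)) .no .no (.br .no (.br .no .no .no (.br (.sw 1 2 [18]) (.sy 22 54 3) .no .no)) .no .no)) (.br (.br .no (.br .no .no .no (.br (.sw 1 2 [18]) (.br (.br .no (.br .no (.br .no .no (.br (.sy 23 114 7) .no .no .no) (.br (.sy 23 114 7) .no (.br (.br .no .no (.br .no .no .no (.br (.sw 2 3 [21]) .no (.br (.br .no (.br .no .no .no (.br .no (.br (.br .no (.br .no .no .no (.de 48)) .no .no) .no .no .no) .no .no)) .no .no) .no (.br (.br .no (.br .no .no .no (.br (.sw 1 2 [18,25,32]) (.de 45) .no .no)) .no (.br .no (.br (.br .no (.br (.sw 2 3 [21,32,33,34]) .no .no (.sw 0 2 [34])) .no .no) .no .no .no) .no .no)) (.br .no .no .no (.br .no (.br (.br .no (.br (.sw 2 3 [21,32,33,34]) .no .no (.sw 0 2 [34])) .no .no) .no .no .no) .no .no)) .no .no) .no) .no)) (.sw 1 2 [18,25])) .no .no .no) .no)) (.br .no .no .no (.br (.sy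 23 114 7) .no (.br (.br .no .no (.br .no .no .no (.br (.sy 23 114 11) .no .no .no)) (.sw 1 2 [18,25])) .no .no .no) .no)) .no) .no .no) .no .no .no) .no .no)) .no (.br .no (.br (.br .no (.de 27) .no .no) .no .no .no) .no .no)) .no .no .no)) .no)) .no) .no .no .no) .no) .no .no) (.br (.br .no .no (.br (.br .no (.sw 2 3 [11]) (.sy 15 216 3) .no) .no .no .no) .no) .no .no .no) .no .no) .no .no) .no .no .no) 12 14607492 16777216 (by norm_num) (by norm_num) (by norm_num) (by decide +kernel)

def c5_1_0 : Cert := (.br .no (.br .no .no .no (.br .no .no (.br (.br .no (.br (.br .no .no (.br (.br .no (.br .no .no .no (.br .no .no (.br .no .no .no (.br .no (.br .no .no .no (.br .no .no (.br (.br .no (.br (.br .no .no (.br (.br .no (.sy 36 228 6) .no .no) .no .no .no) .no) .no .no .no) .no .no) .no .no .no) (.br (.br .no (.br (.br .no .no (.br (.br .no (.br .no (.br .no .no (.br .no .no .no (.br .no (.br .no .no .no (.sw 1 2 [3,9,15,21,27,33,39,45])) .no .no)) (.br .no .no (.br .no (.sw 2 3 [43,44]) .no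 (.br .no (.br .no .no (.sw 1 3 [45,46]) (.sw 1 2 [3,9,15,21,27,33,39,46])) .no .no)) .no)) (.br .no .no .no (.br .no .no (.br .no (.br .no .no .no (.br .no .no (.br (.sw 1 2 [42]) .no .no .no) .no)) .no (.sy 42 78 3)) .no)) .no) (.sy 38 216 3) .no) .no .no .no) .no) .no .no .no) .no .no) .no (.br (.br .no (.br (.br .no .no (.br .no (.br .no (.br .no .no .no (.br .no .no (.br .no .no .no (.br .no (.br .no .no .no (.br (.sw 2 3 [6]) .no (.sw 0 2 [48]) .no)) .no .no)) .no)) .no .no) .no .no) .no) .no (.br (.br .no (.br .no (.br .no .no .no (.br .no .no (.br .no .no .no (.br .no (.br .no .no (.br (.sw 2 3 [6]) .no .no .no) (.sw 0 2 [39,40])) .no .no)) .no)) .no .no) (.br .no (.br .no .no .no (.br .no .no (.br .no .no .no (.br .no (.br .no .no .no (.br (.sw 1 2 [41]) .no .no .no)) .no .no)) .no)) .no .no) .no) .no .no .no) .no) .no .no) (.br (.br .no .no (.br (.br .no (.br .no (.br .no .no .no (.sw 0 2 [36])) .no .no) (.sy 38 216 3) .no) .no .no .no) .no) .no .no .no) .no .no) .no))) .no .no))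 .no)) .no .no) .no (.br (.br .no (.br .no .no (.br .no .no .no (.br .no (.br (.br .no (.br .no .no (.de 42) (.br (.br .no (.br (.br .no .no (.br .no .no .no (.de 47)) (.de 41)) .no (.br .no .no .no (.de 41)) .no) .no .no) .no .no .no)) .no (.br .no .no (.br (.br .no (.br (.br .no .no (.br .no (.br .no (.br .no .no .no (.br .no .no (.br .no .no .no (.br .no (.br .no .no .no (.br (.sw 2 3 [6]) .no (.sw 0 2 [48]) .no)) .no .no)) .no)) .no .no) .no .no) (.br .no (.br .no (.br .no .no .no (.br .no .no (.br .no .no .no (.br .no (.br .no .no (.br (.sw 2 3 [6]) .no .no .no) .no) .no .no)) .no)) .no .no) .no .no)) .no (.br .no .no .no (.br .no (.br .no (.br .no .no .no (.br .no .no (.br .no .no .no (.br .no (.sw 0 2 [39]) .no .no)) .no)) .no .no) .no .no)) .no) .no .no) .no .no (.de 43)) .no)) .no .no (.br .no (.br .no .no (.de 42) (.br (.br .no (.br (.br .no .no (.br (.br .no .no (.de 43) .no) .no .no .no) .no) .no (.br (.de 41) .no .no .no) .no) .no .no) .no .no .no)) .no (.br .no .no (.br (.br .no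 (.br (.br .no .no (.br (.br .no (.br .no .no .no (.br .no .no (.br .no .no .no (.br .no (.br .no .no .no (.sw 1 2 [3,9,15,21,27,28,33,40,46])) .no .no)) .no)) .no .no) (.sw 0 3 [34]) .no .no) .no) .no (.br (.br .no (.br .no (.br .no .no .no (.br .no .no (.br .no .no .no (.br .no (.br .no .no (.sw 0 3 [34,40]) (.sw 0 2 [39,40])) .no .no)) .no)) .no .no) .no .no) .no .no .no) .no) .no .no) .no .no (.de 43)) .no))) .no .no)) (.br .no .no (.br .no (.br (.br .no (.br .no .no (.de 42) (.br (.br .no (.br (.sw 2 3 [31,32]) .no .no (.de 45)) .no .no) .no (.de 43) .no)) .no (.br .no .no (.br (.br .no (.br (.sw 2 3 [31,32]) .no .no (.de 45)) .no .no) .no .no .no) .no)) .no .no (.br .no (.br .no .no (.de 42) (.br (.br .no (.br (.sw 2 3 [31,32]) .no .no (.de 45)) .no .no) .no (.de 43) .no)) .no (.br .no .no (.br (.br .no (.br (.sw 2 3 [31,32]) .no .no (.de 45)) .no .no) .no .no .no) .no))) .no (.br (.br .no (.br .no .no (.de 42) (.br (.br .no (.br (.br .no (.sy 37 228 3) (.sw 1 3 [33]) .no) .no .no .no)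 .no .no) .no (.de 43) .no)) .no (.br .no .no (.br (.br .no (.br (.br .no (.de 41) (.sw 1 3 [33]) .no) .no .no .no) .no .no) .no .no .no) .no)) .no .no .no)) .no)) .no (.br .no .no (.br .no .no .no (.br .no (.br (.br .no (.br .no .no (.de 42) .no) .no (.br .no (.br (.br .no (.br (.sy 36 225 3) .no (.br .no .no .no (.br .no (.sy 40 54 3) .no .no)) .no) .no .no) .no .no .no) (.br (.sw 1 3 [30]) (.br (.br .no .no (.br .no .no .no (.br .no (.br .no (.br .no .no .no (.br .no .no (.br .no (.de 46) .no (.sw 0 1 [37,38])) .no)) .no .no) .no .no)) .no) .no .no .no) .no .no) .no)) .no .no (.br .no (.br .no .no (.de 42) .no) .no (.br .no (.br (.br .no (.br (.sy 36 225 3) .no (.br (.br .no (.br .no .no (.br .no .no .no (.br .no .no (.br .no .no .no (.sy 42 78 3)) .no)) .no) .no .no) .no .no .no) .no) .no .no) .no .no .no) (.br (.sw 1 3 [30]) (.br (.br .no .no (.br (.br .no (.br .no (.br .no .no .no (.br .no .no (.br .no (.br .no .no .no (.br .no .no (.br (.sw 2 3 [6]) .no .no .no) .no)) .no (.sw 0 1 [37,38]))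 .no)) .no .no) .no .no) .no .no .no) .no) .no .no .no) .no .no) .no))) .no .no)) .no)) (.br .no .no .no (.br .no .no (.br .no .no .no (.br .no (.br (.br (.br .no .no (.br (.br .no (.br (.br .no .no (.br .no (.sy 35 216 6) .no (.de 47)) (.br .no (.br .no (.br .no .no .no (.br .no .no (.br .no .no .no (.br .no (.br .no .no (.de 48) .no) .no .no)) .no)) .no .no) .no .no)) .no (.br .no .no .no (.br .no (.br .no (.br .no .no .no (.br .no .no (.br .no .no .no (.br .no (.sw 0 2 [39]) .no .no)) .no)) .no .no) .no .no)) .no) .no .no) (.br (.br .no .no (.br .no .no .no (.br .no (.br .no (.br .no .no .no (.br .no .no (.br .no (.de 46) .no (.sw 0 1 [37,38])) .no)) .no .no) .no .no)) .no) .no .no .no) .no .no) .no) .no .no (.br (.br .no (.br (.br .no .no (.br .no .no .no (.br .no (.br .no (.br .no .no (.br .no .no .no (.br .no (.de 46) .no .no)) (.br .no .no (.br .no (.de 46) .no (.br .no (.br .no .no (.br (.sw 2 3 [6]) .no .no .no) .no) .no .no)) .no)) (.br .no .no .no (.br .no .no (.br .no (.de 46) .no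 (.sw 0 1 [29,36,37,38])) .no)) .no) .no .no)) .no) .no .no .no) .no .no) .no (.sw 0 1 [29]) .no)) .no .no (.sy 30 27 6)) .no .no)) .no)) .no .no) .no) .no) .no .no .no) .no .no) .no .no .no) .no)) .no (.br .no (.br .no .no (.br (.br .no (.br (.br .no (.sy 24 228 3) (.br (.br .no .no .no (.br .no (.br .no .no (.br .no .no .no (.br .no (.de 34) .no .no)) (.br .no .no (.br .no (.de 34) .no (.br .no (.br .no (.br (.br .no .no (.br (.br .no (.br (.br .no .no (.sy 36 216 6) (.sw 1 2 [27,34])) .no (.br .no .no .no (.de 47)) .no) .no .no) (.br (.br .no .no (.br .no .no .no (.de 47)) .no) .no .no .no) .no .no) .no) .no (.de 42) .no) (.br (.br .no .no (.br (.sy 35 201 3) (.br (.br .no .no (.br .no .no .no (.de 47)) .no) .no .no .no) .no .no) .no) .no .no .no) .no) .no .no)) .no)) .no .no)) .no (.br (.br .no (.br .no .no (.br .no .no .no (.br .no (.br (.sw 1 3 [21,22]) .no .no .no) .no .no)) (.br .no .no (.br .no (.br (.sw 1 3 [21,22]) .no .no .no) .no (.br (.sw 1 2 [27]) (.br .no (.br .no .no (.de 42)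 (.br (.br .no (.br (.br .no .no (.br (.sw 1 3 [21,22,33,34]) .no .no (.de 47)) .no) .no .no .no) .no .no) .no (.de 43) .no)) .no (.br .no .no (.br (.br .no (.br (.br .no .no (.br (.sw 1 3 [21,22,33,34]) .no .no .no) .no) .no .no .no) .no .no) .no .no .no) .no)) .no .no)) .no)) .no (.br .no .no (.br .no .no .no (.br .no (.br (.sw 1 3 [21,22]) .no .no .no) .no .no)) .no)) .no .no (.br .no (.br .no .no (.br .no .no .no (.br .no (.br (.br (.br .no .no (.br (.sw 1 3 [21,22,29,30]) .no .no (.de 43)) .no) (.br (.br .no .no .no (.br (.br .no .no (.br .no .no .no (.de 41)) .no) (.br (.br .no .no (.br .no .no .no (.de 47)) (.de 41)) .no (.br .no .no .no (.de 41)) .no) .no .no)) .no (.de 42) .no) .no .no) .no .no .no) .no .no)) (.br .no .no (.br .no (.br (.br (.br .no .no (.br (.br .no (.br (.sw 2 3 [31,32]) .no .no (.de 45)) .no .no) .no .no .no) .no) (.br (.br .no .no (.br (.br .no .no .no (.br .no .no (.br .no .no .no (.de 47)) .no)) (.br (.br .no .no (.br .no .no .no (.de 47)) (.de 41)) .no .no (.de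 45)) .no .no) .no) .no (.de 42) .no) .no .no) .no .no .no) .no (.br (.sw 1 2 [27]) (.sy 29 39 6) .no .no)) .no)) .no .no)) .no) .no) .no .no .no) .no .no) .no .no .no) (.br (.br .no (.br (.br .no (.sy 24 228 3) (.br (.br .no .no (.br .no (.br .no .no (.br .no .no .no (.br .no (.de 34) .no .no)) (.br .no .no (.br .no (.de 34) .no (.br .no (.br .no (.br (.sw 2 3 [23,29]) .no .no (.br (.br .no (.br (.br .no .no (.br .no .no .no (.de 47)) .no) .no .no .no) .no .no) .no (.de 43) .no)) .no (.br (.br .no .no (.br (.br .no (.br (.br .no .no (.br .no (.br .no .no .no (.de 44)) (.br .no .no .no (.de 44)) .no) .no) .no (.de 41) .no) .no .no) (.br (.br .no .no (.de 41) .no) .no .no .no) .no .no) .no) .no .no .no)) .no .no)) .no)) .no .no) .no) .no (.br (.br .no (.sw 2 3 [23]) (.br .no .no .no (.br .no .no (.br .no (.br (.sy 34 216 3) .no .no .no) .no (.sy 30 78 3)) .no)) .no) .no .no .no) .no) .no) .no .no .no) .no .no) .no (.br (.br .no (.br .no .no (.br (.br .no .no (.br (.br .no (.br .no .no (.br (.br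 .no (.sy 33 228 6) .no .no) .no .no (.br .no (.br .no (.br .no .no .no (.br .no .no (.de 43) .no)) .no (.br .no (.br .no .no (.br (.br .no (.br (.br .no .no (.br .no .no (.br .no .no .no (.de 44)) .no) .no) .no (.de 41) .no) .no .no) .no .no (.de 44)) (.br (.br .no (.br (.br .no .no (.br .no .no (.de 43) .no) .no) .no (.de 41) .no) .no .no) .no .no .no)) .no .no)) .no .no)) (.br (.br .no (.br .no (.br .no .no .no (.br .no .no (.de 43) .no)) .no (.br .no (.br .no .no (.br (.br .no (.sw 2 3 [32]) (.br .no .no .no (.br .no .no (.de 47) .no)) .no) .no .no .no) (.br (.br .no (.sw 2 3 [32]) (.br .no .no .no (.br .no .no (.de 47) .no)) .no) .no (.de 44) .no)) .no .no)) .no .no) .no .no .no)) .no (.br .no .no (.br (.br .no (.br .no (.br .no .no .no (.br .no (.br (.br .no (.br .no .no (.br .no .no .no (.de 47)) (.de 46)) .no (.br .no .no (.br .no .no .no (.de 47)) .no)) .no .no .no) (.de 43) .no)) .no (.br .no (.br .no .no (.br (.sw 1 3 [31]) (.br .no .no .no (.de 45)) .no .no) .no) .no .no)) .no .no)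 .no .no (.br .no (.br .no (.br .no .no .no (.br .no (.br (.br .no (.br (.sy 37 225 3) .no (.sw 0 3 [33]) .no) .no .no) .no .no .no) (.de 43) .no)) .no (.br .no (.br .no .no (.br (.sw 1 3 [31]) (.br (.br .no .no (.de 41) .no) .no .no .no) .no .no) .no) .no .no)) .no .no)) .no)) (.br .no .no .no (.br .no .no (.br (.br .no (.br .no (.br (.br .no .no (.br (.br .no (.br .no .no (.br .no .no .no (.de 47)) (.de 46)) .no (.br .no .no (.br .no .no .no (.de 47)) .no)) (.br .no .no .no (.de 45)) .no .no) .no) .no .no (.br (.br .no (.br .no .no .no (.de 45)) .no .no) .no (.de 43) .no)) .no (.br (.br .no .no (.br (.br .no (.br .no .no (.de 41) (.de 46)) .no (.br .no .no (.de 41) .no)) (.br .no .no .no (.de 45)) .no .no) .no) .no .no .no)) .no .no) .no .no (.br .no (.br .no (.br (.br .no .no (.br (.br .no (.br (.br .no .no (.sy 36 216 6) (.br .no .no (.br .no .no .no (.de 44)) .no)) .no (.sw 0 3 [33]) .no) .no .no) (.br (.br .no .no (.br .no .no .no (.de 47)) .no) .no .no .no) .no .no) .no) .no .no (.br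 (.br .no (.br (.br .no .no (.br .no .no .no (.de 47)) .no) .no .no .no) .no .no) .no (.de 43) .no)) .no (.br (.br .no .no (.br (.br .no (.br (.br .no .no (.br .no (.br .no .no .no (.de 44)) (.br .no .no .no (.de 44)) .no) .no) .no (.de 41) .no) .no .no) (.br (.br .no .no (.de 41) .no) .no .no .no) .no .no) .no) .no .no .no)) .no .no)) .no)) .no .no) .no) .no (.br (.br .no (.br .no .no .no (.br .no .no (.br (.br .no (.br .no (.br .no .no (.de 42) (.br (.br .no (.br .no .no .no (.de 45)) .no .no) .no (.de 43) .no)) .no (.br .no .no (.br (.br .no (.br .no .no .no (.de 45)) .no .no) .no .no .no) .no)) .no .no) .no .no (.br (.br .no (.br .no .no (.de 42) (.br (.br .no (.br (.br .no (.sy 37 228 3) (.br .no .no .no (.de 47)) .no) .no .no .no) .no .no) .no (.de 43) .no)) .no (.br .no .no (.br (.br .no (.br (.br .no (.de 41) (.br .no (.br .no (.br .no .no .no (.br .no .no (.br .no .no .no (.br .no (.br .no .no .no (.br (.sw 2 3 [6]) .no (.sw 0 2 [48]) .no)) .no .no)) .no)) .no .no) .no .no) .no) .no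 .no .no) .no .no) .no .no .no) .no)) (.br .no (.br .no .no (.de 42) (.br (.br .no (.br (.br .no .no (.br (.br .no .no (.de 43) .no) .no .no (.de 47)) .no) .no .no .no) .no .no) .no (.de 43) .no)) .no (.br .no .no (.br (.br .no (.br (.br .no .no (.br (.br .no (.br .no .no .no (.br .no .no (.br .no .no .no (.br .no (.br .no .no .no (.br .no .no (.sw 0 1 [34,41]) .no)) .no .no)) .no)) .no .no) .no .no .no) .no) .no .no .no) .no .no) .no .no .no) .no)) .no .no)) .no)) .no .no) .no .no .no) .no) .no) .no .no) (.br (.br .no (.sy 27 114 3) (.br (.br .no .no (.br (.br .no .no .no (.br .no .no (.br .no (.de 34) .no (.sw 0 1 [25,26])) .no)) (.br (.br .no .no (.br .no (.de 34) .no (.br .no (.br .no (.br (.br .no .no (.br .no (.br (.br .no .no (.br .no .no .no (.de 47)) .no) .no .no .no) .no (.de 44)) (.br .no (.br (.br .no .no (.br .no .no .no (.de 47)) .no) .no .no .no) .no .no)) .no .no (.br .no .no (.de 43) .no)) .no (.br (.br .no .no (.br .no (.br (.br .no .no (.de 41) .no) .no .no .no) .no (.de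 44)) (.br .no (.br (.br .no .no (.de 41) .no) .no .no .no) .no .no)) .no .no .no)) .no .no)) (.br .no (.de 34) .no .no)) .no .no (.sw 0 2 [24])) .no .no) .no) .no (.br (.br .no (.br (.br .no .no (.br .no (.br (.sy 34 216 6) .no .no .no) .no (.br (.sw 1 2 [27]) (.br .no (.br .no .no (.de 42) (.br .no .no (.de 43) .no)) .no (.br .no .no (.br .no .no .no (.de 43)) .no)) .no .no)) (.br .no (.br (.br .no (.br .no .no (.de 42) (.br .no .no (.de 43) .no)) .no (.br .no .no (.br .no .no .no (.de 43)) .no)) .no .no .no) .no .no)) .no .no (.sw 0 2 [24])) .no .no) .no .no .no) .no) .no) .no .no .no) .no .no) .no)) .no .no))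

theorem P5_1 : R.S 15 79148164 :=
  R.piece L hL (.br .no .no (.br (.br .no (.br .no .no .no (.br .no .no (.br .no .no .no c5_1_0) .no)) .no .no) .no .no .no) .no) 15 79148164 1073741824 (by norm_num) (by norm_num) (by norm_num) (by decide +kernel)

def c5_2_0 : Cert := (.br .no (.br .no .no .no (.br .no .no (.br (.br .no (.br (.br (.br .no .no (.br (.br .no (.br .no .no (.br .no .no .no (.br .no (.br .no (.br .no .no .no (.br .no .no (.de 43) .no)) .no (.br .no (.br .no .no (.br (.br .no (.br (.br .no .no (.br .no .no (.br .no .no .no (.de 44)) .no) .no) .no (.de 41) .no) .no .no) .no .no (.de 44)) (.br (.br .no (.br (.br .no .no (.br .no .no (.de 43) .no) .no) .no (.de 41) .no) .no .no) .no .no .no)) .no .no)) .no .no)) (.br .no .no (.br .no (.sw 0 3 [20,27]) .no (.br .no (.br .no .no .no (.br .no .no (.de 43) .no)) .no (.br .no (.br .no .no (.br (.br .no (.br (.br .no (.sy 38 228 3) (.sw 1 3 [34]) .no) .no .no .no) .no .no) .no .no .no) (.br (.br .no (.br (.br .no (.sy 38 228 3) (.sw 1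 3 [34]) .no) .no .no .no) .no .no) .no (.de 44) .no)) .no .no))) .no)) .no (.br .no .no (.br .no .no .no (.br .no (.br .no (.br .no .no .no (.br .no (.br (.br .no (.br (.sy 37 225 3) .no (.sw 0 3 [20,27,33]) .no) .no .no) .no .no .no) (.de 43) .no)) .no (.br .no (.br .no .no (.br (.sw 1 3 [31]) (.br (.br .no .no (.de 41) .no) .no .no .no) .no .no) .no) .no .no)) .no .no)) .no)) (.br .no .no .no (.br .no .no (.br .no .no .no (.br .no (.br .no (.br (.br .no .no (.br (.br .no (.br (.br .no .no (.sy 36 216 6) (.br .no .no (.br .no .no .no (.de 44)) .no)) .no (.sw 0 3 [20,27,33]) .no) .no .no) (.br (.br .no .no (.br .no .no .no (.de 47)) .no) .no .no .no) .no .no) .no) .no .no (.br (.br .no (.br (.br .no .no (.br .no .no .no (.de 47)) .no) .no .no .no) .no .no) .no (.de 43) .no)) .no (.br (.br .no .no (.br (.br .no (.br (.br .no .no (.br .no (.br .no .no .no (.de 44)) (.br .no .no .no (.de 44)) .no) .no) .no (.de 41) .no) .no .no) (.br (.br .no .no (.de 41) .no) .no .no .no) .no .no) .no) .no .no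 .no)) .no .no)) .no)) .no .no) .no) .no .no (.br (.br .no (.br .no .no .no (.br .no .no (.br .no .no .no (.br .no (.br .no (.br .no .no (.de 42) (.br (.br .no (.br (.br .no .no (.br (.br .no .no (.de 43) .no) .no .no .no) .no) .no .no .no) .no .no) .no (.de 43) .no)) (.br .no .no .no (.br (.br .no (.br (.br .no .no (.br (.de 48) .no .no .no) .no) .no .no .no) .no .no) .no (.de 43) .no)) .no) .no .no)) .no)) .no .no) .no (.br (.br .no (.br .no .no (.br .no .no .no (.br .no (.br (.br .no (.br .no .no (.br (.br .no (.br (.br .no .no (.de 48) .no) .no (.de 41) .no) .no .no) .no .no (.de 44)) (.br (.br .no (.br (.br .no .no (.de 48) .no) .no (.de 41) .no) .no .no) .no .no .no)) .no (.br .no .no (.de 43) .no)) (.br .no .no .no (.br .no .no (.de 43) .no)) .no .no) .no .no)) (.br .no .no (.br .no (.sw 0 3 [20,27]) .no .no) .no)) .no (.br .no .no (.br .no .no .no (.br .no (.br (.br .no (.br .no .no (.br (.sw 1 3 [31]) (.br (.br .no .no (.de 41) .no) .no .no .no) .no .no) .no) .no (.br .no (.br (.br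 .no (.br (.sy 37 225 3) .no (.de 41) .no) .no .no) .no .no .no) (.de 43) .no)) (.br .no .no .no (.br .no (.br (.br .no (.br (.sy 37 225 3) .no (.sw 0 3 [20,27,33]) .no) .no .no) .no .no .no) (.de 43) .no)) .no .no) .no .no)) .no)) (.br .no .no .no (.br .no .no (.br .no .no .no (.br .no (.sy 31 27 6) .no .no)) .no)) .no .no) .no)) .no .no .no) .no .no) .no .no (.br (.de 27) (.br (.br (.br .no .no (.br (.br .no (.br (.br .no .no (.br .no (.sw 0 3 [20,27]) .no (.br .no (.br .no .no .no (.br .no .no (.de 43) .no)) .no (.br .no (.br .no .no (.br .no .no .no (.de 44)) (.br .no .no (.de 44) .no)) .no .no))) (.br .no (.br .no (.br .no .no .no (.br .no .no (.de 43) .no)) .no (.br .no (.br .no .no (.br .no .no .no (.de 44)) (.br .no .no (.de 44) .no)) .no .no)) .no .no)) .no (.sw 0 3 [25]) .no) .no .no) (.br (.br .no .no (.br .no .no .no (.br .no (.br .no (.br (.br .no .no (.br .no (.sw 0 3 [25,31]) .no (.de 44)) (.br .no (.br (.br .no .no (.br .no .no .no (.de 47)) .no) .no .no .no) .no .no)) .no .no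 (.br .no .no (.de 43) .no)) .no (.br (.br .no .no (.br .no (.sw 0 3 [25,31]) .no (.de 44)) (.br .no (.br (.br .no .no (.de 41) .no) .no .no .no) .no .no)) .no .no .no)) .no .no)) .no) .no .no .no) .no .no) .no) .no .no (.br (.br .no (.br (.br .no .no (.br .no .no .no (.br .no (.br .no (.br .no .no (.de 42) (.br .no .no (.de 43) .no)) (.br .no .no .no (.br .no .no (.de 43) .no)) .no) .no .no)) .no) .no .no .no) .no .no) .no (.br (.br .no (.br (.br .no .no (.br .no (.sw 0 3 [20,27]) .no .no) (.br .no (.br (.br .no (.br .no .no (.br .no .no .no (.de 44)) (.br .no .no (.de 44) .no)) .no (.br .no .no (.de 43) .no)) (.br .no .no .no (.br .no .no (.de 43) .no)) .no .no) .no .no)) .no (.sw 0 3 [25]) .no) .no .no) (.br (.br .no .no (.br .no .no .no (.br .no (.br (.br .no .no .no (.br .no .no (.de 43) .no)) (.br (.br .no .no (.br .no (.sw 0 3 [25,31]) .no (.de 44)) (.br .no (.br (.br .no .no (.br (.br .no .no (.de 43) .no) .no .no .no) .no) .no .no .no) .no .no)) .no .no (.sw 0 2 [29])) .no .no) .no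 .no)) .no) .no .no .no) .no .no) .no)) .no .no .no) .no .no)) .no)) .no (.br .no (.br .no .no (.br (.br .no (.br (.br (.br .no .no (.br (.sw 1 3 [22,23]) .no .no (.br .no (.br .no .no (.br .no .no .no (.br .no (.br .no (.br (.br .no .no (.br (.sw 1 3 [22,23,30,31]) .no .no (.de 44)) .no) .no .no .no) .no (.br (.br .no .no (.br (.sw 1 3 [22,23,30,31]) .no .no (.de 44)) .no) (.br (.br .no .no .no (.br (.br .no .no (.de 41) .no) (.de 45) .no .no)) .no (.sw 0 3 [30]) .no) .no .no)) .no .no)) (.br .no .no (.br .no (.sw 0 3 [20,27]) .no (.br .no (.br (.br .no .no (.br (.br .no (.br (.br .no .no (.sw 1 3 [34]) .no) .no .no .no) .no .no) .no .no .no) .no) .no .no .no) .no (.br (.br .no .no (.br (.br .no (.br (.br .no (.sy 38 228 3) (.sw 1 3 [34]) .no) .no .no .no) .no .no) .no .no .no) .no) (.br (.br .no .no (.br (.br .no (.br .no .no (.br .no .no (.br .no .no .no (.de 44)) .no) .no) .no .no) (.br (.br .no (.br .no .no (.br .no .no .no (.de 44)) .no) (.sw 1 3 [34]) .no) .no .no .no) .no .no) .no)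 .no (.sw 0 3 [30]) .no) .no .no))) .no)) .no .no)) .no) (.br (.br .no .no .no (.br .no (.br .no .no (.br .no .no .no (.de 34)) (.br .no .no (.br .no .no .no (.br .no .no (.br .no (.de 42) .no .no) (.br .no (.br (.br .no .no (.br (.br .no (.br (.br .no .no (.de 48) .no) .no (.sw 0 3 [20,27,34]) .no) .no .no) (.br (.br .no .no (.br .no .no (.br .no .no .no (.de 44)) .no) .no) .no .no .no) .no .no) .no) .no (.br (.br .no (.br (.br .no .no (.br .no .no (.br .no .no .no (.de 44)) .no) .no) .no .no .no) .no .no) .no .no .no) .no) (.br (.br .no .no (.br (.sy 36 201 3) (.br (.br .no .no (.br .no (.br .no .no .no (.de 44)) .no .no) .no) .no .no .no) .no .no) .no) .no .no .no) .no))) .no)) .no .no)) .no (.br (.br .no (.br .no .no (.br .no .no .no (.de 34)) (.br .no .no (.br .no .no .no (.br (.br .no (.br .no .no (.br (.br .no (.br (.br .no .no (.de 48) .no) .no .no .no) .no .no) .no .no .no) (.br (.br .no (.br (.br .no .no (.de 48) .no) .no .no .no) .no .no) .no (.de 44) .no)) .no (.br .no .no (.de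 43) .no)) .no .no (.br .no (.br .no .no (.br (.br .no (.br (.br .no .no (.sw 0 1 [28]) .no) .no .no .no) .no .no) .no .no .no) (.br (.br .no (.br (.br .no .no (.sw 0 1 [28]) .no) .no .no .no) .no .no) .no (.de 44) .no)) .no .no))) .no)) .no (.br .no .no (.br .no .no .no (.de 34)) .no)) .no .no (.br .no (.br .no .no (.br .no .no .no (.de 34)) (.br .no .no (.br .no .no .no (.sy 30 39 6)) .no)) .no .no)) .no) .no .no) .no .no .no) .no .no) .no .no (.br (.de 27) (.br (.br (.br .no .no (.br (.sw 1 3 [22,23]) .no .no (.br (.br .no .no (.br .no .no .no (.br .no (.br .no (.br (.br .no (.br .no .no .no (.br (.br .no .no (.br .no .no .no (.de 47)) .no) (.de 45) .no .no)) (.sw 1 3 [22,23,30]) .no) .no .no .no) .no (.br (.br .no (.br .no .no .no (.br (.br .no .no (.de 41) .no) (.de 45) .no .no)) (.sw 1 3 [22,23,30]) .no) (.br .no .no (.br .no (.sw 0 3 [25,30,31]) .no (.de 44)) .no) .no .no)) .no .no)) .no) (.br (.br .no .no (.br .no (.sw 0 3 [20,27]) .no (.br .no (.br (.br .no .no (.br .no .no .no (.de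 44)) .no) .no .no .no) .no (.br (.br .no .no (.br .no .no .no (.de 44)) .no) (.br (.br .no .no (.br .no (.sw 0 3 [25,32]) .no (.br (.br .no (.br .no .no (.br .no .no .no (.de 44)) .no) (.sw 1 3 [34]) .no) (.de 46) .no .no)) (.br .no (.de 45) .no .no)) .no (.sw 0 3 [30]) .no) .no .no))) (.br .no (.br .no (.br (.br .no .no (.br .no .no .no (.de 44)) .no) .no .no .no) .no (.br (.br .no .no (.br .no .no .no (.de 44)) .no) (.br (.br .no .no (.br .no (.br (.sw 2 3 [33]) .no (.de 41) .no) .no .no) (.br .no (.de 45) (.br (.br .no .no (.br .no .no (.br .no .no .no (.br .no .no (.br .no (.br .no .no .no (.de 47)) .no .no) .no)) .no) .no) .no .no .no) .no)) .no (.sw 0 3 [30]) .no) .no .no)) .no .no)) .no (.sw 0 3 [25]) .no) .no .no)) .no) (.br (.br .no .no .no (.br (.br .no .no (.br .no .no .no (.de 34)) .no) (.br (.br .no .no (.br .no .no .no (.br .no .no (.br .no (.de 42) .no .no) (.br .no (.br (.br .no .no (.br .no (.sw 0 3 [25,32]) .no (.br (.br .no .no (.br .no .no (.br .no .no .no (.de 44)) .no)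 .no) (.de 46) .no .no)) (.br .no (.de 45) .no .no)) .no (.br .no .no .no (.de 44)) .no) (.br (.br .no .no (.br .no (.sw 0 3 [25,32]) .no (.br (.br .no .no (.sy 41 78 6) .no) (.de 46) .no .no)) (.br .no (.de 45) .no .no)) .no .no .no) .no))) (.de 34)) .no (.sw 0 3 [25]) .no) .no .no)) .no (.br (.br .no (.br (.br .no .no (.br .no .no .no (.br (.br .no (.br .no .no (.br .no .no .no (.de 44)) (.br .no .no (.de 44) .no)) .no (.br .no .no (.de 43) .no)) .no .no (.br .no (.br .no .no (.br .no .no .no (.de 44)) (.br .no .no (.de 44) .no)) .no .no))) (.de 34)) .no (.sw 0 3 [25]) .no) .no .no) .no .no (.br (.br .no .no (.br .no .no .no (.de 34)) .no) (.br (.br .no .no (.br .no .no .no (.br (.br .no (.br (.br .no .no (.br .no (.sw 0 3 [25,32]) .no (.br (.br .no .no (.de 48) .no) (.de 46) .no .no)) (.br .no (.de 45) .no .no)) .no (.sw 0 3 [30]) .no) .no .no) .no .no (.br (.br .no .no (.br .no .no .no (.de 44)) .no) (.sw 0 2 [29]) .no .no))) (.de 34)) .no (.sw 0 3 [25]) .no) .no .no)) .no) .no .no) .no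 .no .no) .no .no)) (.br (.br .no (.br (.br (.br .no .no (.br (.br .no (.sw 2 3 [24]) (.sy 28 216 3) .no) .no .no .no) .no) (.br (.br .no .no (.br .no (.br .no .no (.br .no .no .no (.de 34)) (.br .no .no (.br .no .no .no (.br .no .no (.br .no (.de 42) .no (.br (.br .no .no (.br (.br .no (.br (.de 48) .no .no .no) .no .no) (.br (.de 41) .no .no .no) .no .no) .no) .no .no .no)) (.br .no (.br (.sw 2 3 [24,30]) .no .no (.br (.br .no (.br (.br .no .no (.br .no .no (.de 43) .no) .no) .no .no .no) .no .no) .no (.de 44) .no)) .no .no))) .no)) .no .no) .no) .no (.br (.br .no (.sw 2 3 [24]) (.br .no .no .no (.br .no .no (.br .no .no .no (.sy 31 78 3)) .no)) .no) .no .no .no) .no) .no .no) .no .no .no) .no .no) .no .no .no)) .no .no))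

def c5_2_1 : Cert := (.br .no (.br .no .no (.br (.sy 20 228 6) .no .no (.br .no .no c5_2_0 (.br .no (.br .no .no .no (.br .no .no (.br (.br .no (.br (.br (.br .no .no (.br (.br .no (.br .no .no (.br .no .no .no (.br .no (.sw 2 3 [21]) (.sy 34 201 3) .no)) (.br .no .no (.br .no (.sw 2 3 [21]) .no .no) .no)) .no (.br .no .no (.br .no .no .no (.br .no (.sw 2 3 [21]) (.sy 31 30 3) .no)) .no)) (.br .no .no .no (.br .no .no (.br .no .no .no (.br .no (.sw 2 3 [21]) (.sy 31 30 3) .no)) .no)) .no .no) .no) .no (.br (.br .no (.br .no .no .no (.br .no .no (.br .no .no .no (.br .no (.br .no (.br .no .no (.de 42) (.br (.br .no (.br (.br .no .no (.br (.sw 2 3 [21,28]) .no .no (.de 47)) .no) .no .no .no) .no .no) .no (.de 43) .no)) .no (.br .no .no (.br (.br .no (.br (.br .no .no (.br (.br .no (.br .no .no .no (.br .no .no (.br .no .no .no (.br .no (.br .no .no .no (.sw 1 2 [3,9,16,22,28,34,40,46])) .no .no)) .no)) .no .no) .no .no .no) .no) .no .no .no) .no .no) .no .no .no) .no)) .no .no)) .no)) .no .no)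 .no .no .no) .no) .no (.sw 0 3 [20]) .no) .no .no) .no .no (.br (.br .no .no (.br (.br .no .no (.br (.br .no (.br .no .no (.br .no (.de 34) .no (.br .no (.br .no (.br .no .no .no (.br .no .no (.de 43) .no)) .no (.br .no (.br .no .no (.br (.br .no (.br (.br .no .no (.br .no .no (.br .no .no .no (.de 44)) .no) .no) .no (.de 41) .no) .no .no) .no .no (.de 44)) (.br (.br .no (.br (.br .no .no (.br .no .no (.de 43) .no) .no) .no (.de 41) .no) .no .no) .no .no .no)) .no .no)) .no .no)) .no) .no .no) (.br (.br .no (.br .no .no .no (.br .no (.br .no (.br (.br .no .no (.br .no .no .no (.de 44)) (.br .no .no (.de 44) .no)) .no .no (.br .no .no (.de 43) .no)) .no (.br (.br .no .no (.br .no .no .no (.de 44)) (.br .no .no (.de 44) .no)) .no .no .no)) .no .no)) (.br .no (.de 34) .no (.br .no (.br .no (.br (.br .no .no (.br .no (.br (.br .no .no (.br .no .no .no (.de 47)) .no) .no .no .no) .no (.de 44)) (.br .no (.br (.br .no .no (.br .no .no .no (.de 47)) .no) .no .no .no) .no .no)) .no .no (.br .no .no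 (.de 43) .no)) .no (.br (.br .no .no (.br .no (.br (.br .no .no (.de 41) .no) .no .no .no) .no (.de 44)) (.br .no (.br (.br .no .no (.de 41) .no) .no .no .no) .no .no)) .no .no .no)) .no .no)) .no) .no .no .no) .no .no) .no) .no (.br (.br .no (.br (.br .no (.sy 29 228 3) (.br .no (.br (.sy 34 216 6) .no .no .no) .no (.br (.br .no (.br .no .no (.de 42) (.br .no .no (.de 43) .no)) .no (.br .no .no (.br .no .no .no (.de 43)) .no)) (.br .no (.br .no .no (.de 42) (.br .no .no (.de 43) .no)) .no (.br .no .no (.br .no .no .no (.de 43)) .no)) .no .no)) .no) .no .no .no) .no .no) .no .no .no) .no) .no) (.br (.br (.br .no .no (.br (.br .no (.br (.br .no .no (.br .no (.sw 2 3 [21]) .no .no) (.br .no (.sw 2 3 [21]) (.sy 34 201 3) .no)) .no (.sw 0 3 [25]) .no) .no .no) (.br (.br .no .no (.br .no .no .no (.br .no (.sw 2 3 [21]) (.br .no (.br (.br .no .no (.br .no (.sw 0 3 [25,31]) .no (.de 44)) (.br .no (.br (.br .no (.br .no .no .no (.sy 38 177 6)) .no .no) .no .no .no) .no .no)) .no .no (.br .no .no (.de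 43) .no)) .no (.br (.br .no .no (.br .no (.sw 0 3 [25,31]) .no (.de 44)) (.br .no (.br (.br .no (.de 41) .no .no) .no .no .no) .no .no)) .no .no .no)) .no)) .no) .no .no .no) .no .no) .no) .no (.br (.br .no (.br (.br .no .no (.br .no .no .no (.br .no (.br .no (.br .no .no (.de 42) (.br .no .no (.de 43) .no)) .no (.sy 21 39 14)) .no .no)) .no) .no .no .no) .no .no) .no .no .no) .no) .no (.sw 0 3 [20]) .no) .no .no)) .no)) .no .no))) (.br (.br .no .no (.br .no (.br .no .no .no (.br .no .no (.br (.br .no (.sw 2 3 [19]) (.br .no .no .no (.br (.br .no .no (.br (.br .no (.br .no .no .no (.br (.sw 1 2 [26]) (.de 34) .no .no)) .no (.br .no (.br (.br .no (.sw 2 3 [19,21,26,27]) .no .no) .no .no .no) .no .no)) (.br .no .no .no (.br .no (.br (.br .no (.sw 2 3 [19,21,26,27]) .no .no) .no .no .no) .no .no)) .no .no) .no) .no .no (.br (.br .no (.br .no .no .no (.br .no (.br (.br .no (.sy 30 114 6) .no .no) .no .no .no) .no .no)) .no .no) .no (.br (.br .no (.br .no .no .no (.br (.sw 1 2 [26]) (.br (.br (.br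 .no (.br .no .no (.br (.br .no .no (.br .no .no .no (.br .no (.br .no .no (.de 48) .no) (.de 47) .no)) .no) .no .no .no) (.br (.br .no .no (.br .no .no .no (.br .no (.br .no .no (.de 43) .no) (.de 47) .no)) .no) .no (.de 44) .no)) .no (.br .no .no (.de 43) .no)) (.br .no .no .no (.br .no .no (.de 43) .no)) .no .no) .no .no .no) .no .no)) .no (.br .no (.br (.br .no (.br (.br .no (.br .no .no (.br (.br .no .no (.sw 1 3 [31,32]) (.sw 1 2 [26,32])) .no .no .no) .no) .no (.br .no (.br (.br .no .no (.br .no .no .no (.br .no .no (.de 47) .no)) (.sw 1 2 [26,32])) .no (.br .no .no .no (.br .no .no (.de 41) .no)) .no) (.de 43) .no)) (.br .no .no .no (.br .no (.br (.br .no .no (.br .no .no .no (.br (.br .no .no (.de 43) .no) .no (.de 47) .no)) (.sw 1 2 [26,32])) .no (.br .no .no .no (.br .no .no (.br (.br .no .no (.de 43) .no) .no .no .no) .no)) .no) (.de 43) .no)) .no .no) .no .no) .no .no .no) .no .no)) (.br .no .no .no (.br .no (.br (.br .no (.br (.br .no .no .no (.br (.br .no .no (.br .no .no .no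 (.br .no .no (.de 41) .no)) .no) .no (.de 43) .no)) (.br (.br .no .no (.br (.br .no .no (.sy 36 216 3) (.sw 1 2 [26,32])) .no .no .no) .no) .no .no (.sw 0 2 [29])) .no .no) .no .no) .no .no .no) .no .no)) .no .no) .no))) .no) .no .no .no) .no)) .no (.br .no (.br .no .no (.br (.br .no (.sw 2 3 [19]) (.br .no .no .no (.sy 26 78 3)) .no) .no .no .no) (.br (.br .no (.sw 2 3 [19]) (.br .no .no .no (.sy 26 78 3)) .no) .no (.br .no (.br .no .no .no (.sy 27 27 6)) .no .no) .no)) .no .no)) (.br .no (.br .no .no .no (.br .no .no (.br (.br .no (.sw 2 3 [19]) (.de 27) .no) .no .no .no) .no)) .no .no)) .no .no .no)) .no (.br .no .no (.br (.br .no .no (.br .no (.br .no .no .no (.br .no (.br (.br .no (.br .no .no .no (.br (.br .no .no (.br (.br .no .no (.sw 1 3 [18,22,23,24]) (.br .no .no (.br (.br .no (.br .no (.br .no .no .no (.br .no (.br (.br .no (.sw 2 3 [31,32]) .no (.br .no .no (.br .no .no .no (.de 47)) .no)) .no .no .no) (.de 43) .no)) .no (.br .no (.br .no .no (.br (.sw 1 3 [18,22,23,24,31]) (.br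 .no .no .no (.de 45)) .no .no) .no) .no .no)) .no .no) .no .no .no) .no)) .no .no .no) .no) .no .no (.br (.br .no .no (.br .no .no .no (.br .no .no (.br (.br .no (.br .no (.br .no .no .no (.br (.br .no (.br .no .no .no (.de 45)) .no .no) (.br (.br .no (.br .no .no (.br (.br .no .no (.de 43) .no) .no .no .no) (.de 46)) .no (.br .no .no (.br (.br .no .no (.de 43) .no) .no .no .no) .no)) .no .no .no) .no .no)) (.br .no (.de 42) .no (.br (.br .no (.br .no .no .no (.de 45)) .no .no) (.br (.br .no (.br .no .no (.br (.de 48) .no .no .no) (.de 46)) .no (.br .no .no (.br (.de 48) .no .no .no) .no)) .no .no .no) .no .no)) .no) .no .no) .no .no .no) .no)) .no) .no (.br (.br .no .no (.br .no .no .no (.br (.br .no (.br (.br .no (.br .no .no .no (.br (.br .no (.br .no .no (.de 41) (.de 46)) (.br .no .no .no (.br .no .no (.de 47) .no)) .no) (.br .no .no (.br .no .no .no (.br .no .no (.de 47) .no)) .no) .no .no)) .no (.br .no (.br (.br .no (.br .no .no (.de 41) (.de 46)) (.br .no .no .no (.br .no .no (.de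 47) .no)) .no) .no .no .no) .no .no)) (.br .no .no .no (.br .no (.br (.br .no (.br .no .no (.br (.br .no .no (.de 43) .no) .no .no .no) (.de 46)) (.br .no .no .no (.br (.br .no .no (.de 43) .no) .no (.de 47) .no)) .no) .no .no .no) .no .no)) .no .no) .no .no) .no (.br (.sy 29 141 6) (.br (.br .no (.br .no .no .no (.br (.br .no (.br (.br .no .no (.de 48) .no) .no .no (.de 46)) .no .no) (.br (.br .no .no .no (.br .no .no (.de 47) .no)) .no .no .no) .no .no)) .no (.br .no (.br (.br .no (.br (.sy 37 225 3) .no .no (.de 46)) .no .no) .no .no .no) .no .no)) (.br .no .no .no (.br .no (.br (.br .no (.br (.sy 37 225 3) .no .no (.de 46)) .no .no) .no .no .no) .no .no)) .no .no) .no .no) .no)) (.br .no .no (.br (.br .no (.br (.br .no (.br .no .no (.br (.br .no (.br .no .no (.de 41) (.de 46)) .no (.br .no .no (.de 41) .no)) (.br .no .no .no (.de 45)) .no .no) .no) .no (.br .no (.br (.br .no (.sw 2 3 [31,32]) .no (.br .no .no (.de 41) .no)) .no .no .no) (.de 43) .no)) (.br .no .no .no (.br .no (.sw 0 2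 [29,30]) (.de 43) .no)) .no .no) .no .no) .no .no .no) .no)) .no .no .no) .no))) .no (.de 27)) .no .no .no) (.br (.sw 1 3 [18]) (.br .no .no .no (.de 27)) .no .no) .no)) .no (.br .no (.br .no .no (.br (.sw 1 3 [18]) (.br .no .no .no (.de 27)) .no .no) .no) .no .no)) (.br .no (.br .no .no .no (.br .no (.sy 21 54 3) (.br (.sw 1 3 [18]) (.br .no .no .no (.br .no .no (.sy 26 27 6) .no)) .no .no) .no)) .no .no)) .no .no (.br .no .no (.br .no (.br .no .no .no (.br .no (.br (.br .no (.br (.sy 24 225 3) .no .no .no) .no .no) .no .no .no) (.br (.sw 1 3 [18]) (.br (.de 27) .no .no .no) .no .no) .no)) .no (.br .no (.br .no .no (.br (.sw 1 3 [18]) (.br (.de 27) .no .no .no) .no .no) .no) .no .no)) (.br .no (.br .no .no .no (.br .no (.sy 21 54 3) (.br (.sw 1 3 [18]) (.br (.br .no .no (.br (.br .no .no (.br (.br .no .no .no (.br .no .no (.br .no (.de 34) .no (.sw 0 1 [25,26])) .no)) (.br (.br .no .no (.sw 1 3 [18,25]) (.br .no (.de 34) .no .no)) .no .no (.br .no .no (.br .no (.de 34) .no (.sw 0 1 [25,26]))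 .no)) .no .no) .no) .no (.br (.br .no (.br (.br .no .no (.sw 1 3 [18,25]) (.br .no (.br (.br .no (.br .no .no (.de 42) (.br .no .no (.de 43) .no)) .no (.br .no .no (.br .no .no .no (.de 43)) .no)) .no .no .no) .no .no)) .no .no (.br .no .no (.br .no (.sw 0 3 [20,26]) .no (.sw 0 1 [25,26])) .no)) .no .no) .no .no .no) .no) .no) .no .no .no) .no .no) .no)) .no .no))) .no))

def c5_2_2 : Cert := (.br .no .no (.br .no (.br (.br .no .no (.br (.br .no (.br .no .no .no (.br (.br .no .no (.br .no (.br .no .no .no (.br .no .no (.br (.br .no (.br .no (.br (.br .no .no (.br (.br .no (.br .no .no (.br .no .no .no (.de 47)) (.de 46)) .no (.br .no .no (.br .no .no .no (.de 47)) .no)) (.br .no .no .no (.de 45)) .no .no) .no) .no .no (.br (.br .no (.br .no .no .no (.de 45)) .no .no) .no (.de 43) .no)) .no (.br (.br .no .no (.br (.br .no (.br .no .no (.de 41) (.de 46)) .no (.br .no .no (.de 41) .no)) (.br .no .no .no (.de 45)) .no .no) .no) .no .no .no)) .no .no) .no .no .no) .no)) .no (.br .no (.br .no .no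 (.br (.br .no (.br .no (.br (.br .no .no (.br (.sw 1 3 [30,31]) .no .no (.de 44)) .no) .no .no .no) .no (.br (.br .no .no (.br (.sw 1 3 [30,31]) .no .no (.de 44)) .no) (.br (.br .no .no .no (.br .no (.de 45) .no .no)) .no (.br (.br .no (.br .no .no (.de 41) (.de 46)) .no (.br .no .no (.de 41) .no)) .no .no (.de 44)) .no) .no .no)) .no .no) .no .no .no) (.br (.br .no (.br .no (.br (.br .no .no (.br (.br .no (.sw 2 3 [32]) (.sy 36 216 3) .no) .no .no .no) .no) .no .no .no) .no (.br (.br .no .no (.br (.br .no (.sw 2 3 [32]) (.sy 36 216 3) .no) .no .no .no) .no) (.br (.br .no .no (.br .no (.br .no .no (.de 41) (.de 46)) .no .no) .no) .no (.br (.br .no (.sw 2 3 [32]) (.br .no .no .no (.br .no .no (.de 47) .no)) .no) .no .no .no) .no) .no .no)) .no .no) .no (.br .no (.br .no (.br (.br .no .no (.br (.br .no (.br (.br .no .no (.sy 36 216 6) (.br .no .no (.br .no .no .no (.de 44)) .no)) .no .no (.de 46)) .no .no) .no .no .no) .no) .no .no .no) .no (.br (.br .no .no (.br (.br .no (.br (.br .no .no (.br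 .no (.br .no .no .no (.de 44)) (.br .no .no .no (.de 44)) .no) .no) .no .no (.de 46)) .no .no) .no .no .no) .no) (.br (.br .no .no (.br (.br .no .no .no (.br .no .no (.de 47) .no)) (.br (.br .no .no (.br .no .no (.br .no .no .no (.de 44)) .no) .no) .no .no (.de 46)) .no .no) .no) .no (.br (.br .no (.br (.br .no .no (.br .no .no (.br .no .no .no (.de 44)) .no) .no) .no .no (.de 46)) .no .no) .no .no .no) .no) .no .no)) .no .no) .no)) .no .no)) (.br .no (.br .no .no .no (.br .no .no (.br (.br .no (.br .no (.br (.sw 2 3 [29]) .no (.de 42) .no) (.br (.br .no .no (.br (.sy 35 201 3) (.br .no .no .no (.de 45)) .no .no) .no) .no .no .no) .no) .no .no) .no .no .no) .no)) .no .no)) .no .no (.br .no .no (.br .no (.br .no .no .no (.br .no .no (.br (.br .no (.br (.br .no .no .no (.br (.br .no (.br .no .no .no (.de 45)) .no .no) .no (.de 43) .no)) (.br (.br .no .no (.br (.br .no (.br .no .no (.br (.sy 41 228 6) .no .no .no) (.de 46)) .no (.br .no .no (.br (.br .no .no (.de 48) .no) .no .no .no) .no)) (.br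 .no .no .no (.de 45)) .no .no) .no) .no .no (.br (.br .no (.br .no .no .no (.de 45)) .no .no) .no (.de 43) .no)) .no .no) .no .no) .no .no .no) .no)) .no (.br .no (.br .no .no (.br (.br .no (.br (.br .no (.br (.br .no .no .no (.br .no (.de 45) .no .no)) .no (.br (.br .no (.br .no .no (.de 41) (.de 46)) .no (.br .no .no (.de 41) .no)) .no .no (.de 44)) .no) .no .no) (.br (.br .no .no (.br (.sw 1 3 [30,31]) .no .no (.de 44)) .no) .no .no .no) .no .no) .no .no) .no .no .no) (.br (.br .no (.br (.br .no (.br (.br .no .no (.br .no (.br .no .no (.de 41) (.de 46)) .no .no) .no) .no (.br (.br .no (.sw 2 3 [32]) (.br .no .no .no (.br .no .no (.de 47) .no)) .no) .no .no .no) .no) .no .no) (.br (.br .no .no (.br (.br .no (.sw 2 3 [32]) (.sy 36 216 3) .no) .no .no .no) .no) .no .no .no) .no .no) .no .no) .no (.br (.br (.br .no (.br (.br .no .no (.br (.br .no (.br .no .no (.de 48) .no) .no (.br .no (.sy 41 225 3) (.de 47) .no)) (.br .no .no .no (.de 46)) .no .no) .no) .no (.br (.br .no (.br .no .no .no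 (.de 46)) .no .no) .no .no .no) .no) .no .no) (.br (.br .no .no (.br (.br .no (.br .no .no .no (.de 46)) .no .no) .no .no .no) .no) .no .no .no) .no .no) (.sy 28 27 6) .no .no) .no)) .no .no)) .no))) .no (.de 27)) (.br .no .no .no (.de 27)) .no .no) .no) .no .no (.br (.br .no (.br .no .no .no (.de 27)) .no .no) .no (.sw 0 1 [17]) .no)) .no (.br (.br .no .no (.br (.br .no (.br .no .no .no (.br (.br .no (.br .no .no .no (.br .no (.br .no .no (.br (.br .no (.sy 33 228 3) .no .no) .no .no .no) (.sy 29 114 3)) .no .no)) (.sw 1 3 [22]) .no) (.br .no .no (.br .no (.br .no .no .no (.br .no .no (.br (.de 34) .no .no .no) .no)) .no (.sw 0 1 [17,23])) .no) .no .no)) .no (.de 27)) (.br .no .no .no (.de 27)) .no .no) .no) .no .no .no)) (.br .no (.br (.br .no .no (.br (.br .no (.br .no .no (.br (.br .no .no (.br .no (.br .no .no .no (.br .no .no (.br (.br .no (.sw 2 3 [21,27]) .no .no) .no .no (.br .no (.br .no (.br (.br .no .no (.br (.br .no (.br (.br .no .no (.sy 36 216 6) (.br .no .no (.br .no .no .no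 (.de 44)) .no)) .no (.sw 0 3 [33]) .no) .no .no) (.br (.br .no .no (.br .no .no .no (.de 47)) .no) .no .no .no) .no .no) .no) .no .no (.br (.br .no (.br (.br .no .no (.br .no .no .no (.de 47)) .no) .no .no .no) .no .no) .no (.de 43) .no)) .no (.br (.br .no .no (.br (.br .no (.br (.br .no .no (.br .no (.br .no .no .no (.de 44)) (.br .no .no .no (.de 44)) .no) .no) .no (.de 41) .no) .no .no) (.br (.br .no .no (.de 41) .no) .no .no .no) .no .no) .no) .no .no .no)) .no .no)) .no)) .no (.br .no (.br .no .no (.br (.br .no (.sw 2 3 [21,27]) .no .no) .no .no (.br .no (.br .no (.br (.br .no .no (.br (.sw 1 3 [30,31]) .no .no (.de 44)) .no) .no .no .no) .no (.br (.br .no .no (.br (.sw 1 3 [30,31]) .no .no (.de 44)) .no) (.br (.br .no .no .no (.br (.br .no .no (.de 41) .no) (.de 45) .no .no)) .no (.br (.br .no (.br (.sw 2 3 [21,27,32,33]) .no (.de 41) .no) .no .no) .no .no (.de 44)) .no) .no .no)) .no .no)) (.br (.br .no (.sw 2 3 [21,27]) .no .no) .no .no .no)) .no .no)) (.br .no (.br .no .no .no (.br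 .no .no (.br (.br .no (.sw 2 3 [21,27]) .no .no) .no .no (.br .no (.br .no (.br (.sw 2 3 [29]) .no (.de 42) .no) (.br (.br .no .no (.br (.sy 35 201 3) (.br (.br .no .no (.br .no .no .no (.de 47)) .no) .no .no .no) .no .no) .no) .no .no .no) .no) .no .no)) .no)) .no .no)) .no (.br .no .no .no (.br .no (.br .no .no .no (.br .no .no (.br (.br .no (.br (.br .no .no (.br (.br .no (.br .no .no .no (.de 45)) .no .no) .no .no .no) .no) (.br (.br .no .no (.br (.br .no (.br .no .no (.br (.sw 2 3 [21,27,28,29]) .no .no (.de 47)) (.de 46)) .no (.br .no .no (.br (.sw 2 3 [21,27,28,29]) .no .no (.de 47)) .no)) (.br .no .no .no (.de 45)) .no .no) .no) .no (.de 42) .no) .no .no) .no .no) .no .no (.br (.br (.br .no .no (.br (.br .no (.br (.br .no (.sy 37 228 3) (.br .no (.sy 35 216 6) .no (.de 47)) .no) .no .no .no) .no .no) .no .no .no) .no) (.br (.br .no .no (.br (.br .no (.br .no .no (.br .no .no .no (.de 47)) .no) .no .no) (.br (.br .no (.br .no .no .no (.br .no .no (.br .no .no .no (.de 44)) .no)) (.br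 .no .no .no (.de 47)) .no) .no .no .no) .no .no) .no) .no (.de 42) .no) .no .no) (.sy 29 39 6) .no .no)) .no)) .no .no)) .no) .no) .no (.br .no .no (.br (.br .no .no (.br .no (.br .no .no .no (.br .no (.br (.br .no (.sy 32 225 3) .no .no) .no .no .no) (.br (.sw 1 3 [26]) (.de 34) .no .no) .no)) .no (.br .no (.br .no .no (.br (.sw 1 3 [26]) (.de 34) .no .no) .no) .no .no)) (.br .no (.br .no .no .no (.br .no (.sy 29 54 3) (.br (.sw 1 3 [26]) (.de 34) .no .no) .no)) .no .no)) .no (.br .no .no .no (.br .no (.br .no .no .no (.br .no (.sy 29 54 3) (.br (.sw 1 3 [26]) (.br (.br (.br .no .no (.br (.br .no (.br (.br .no .no (.sw 1 3 [26,33]) (.br .no (.br .no (.br .no .no .no (.br .no .no (.br .no .no .no (.br .no (.br .no .no (.de 48) .no) .no .no)) .no)) .no .no) .no .no)) .no .no (.de 45)) .no .no) .no .no .no) .no) (.br (.br .no .no (.br (.br .no .no .no (.br .no .no (.br .no .no .no (.de 47)) .no)) (.br (.br .no .no (.sw 1 3 [26,33]) (.de 41)) .no .no (.de 45)) .no .no) .no) .no (.de 42) .no)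 .no .no) .no .no .no) .no .no) .no)) .no .no)) .no) .no)) (.br .no .no .no (.br .no .no (.br (.br .no .no (.br .no (.br (.br .no .no (.br (.br .no (.sy 31 216 6) .no .no) (.de 34) .no .no) .no) .no .no (.br (.br .no (.de 34) .no .no) .no (.sw 0 1 [25]) .no)) .no (.br (.br .no .no (.br (.br .no (.br .no (.br (.br .no (.br .no .no .no (.br .no (.de 45) .no .no)) (.sw 1 3 [30]) .no) .no .no .no) .no (.br (.br .no (.br .no .no .no (.br .no (.de 45) .no .no)) (.sw 1 3 [30]) .no) (.br .no .no (.br .no (.br .no .no .no (.de 45)) .no (.de 44)) .no) .no .no)) .no .no) (.de 34) .no .no) .no) .no .no .no)) (.br .no (.br (.br .no .no (.br (.br .no (.br .no (.br (.sw 2 3 [29]) .no (.de 42) .no) (.br (.br .no .no (.br .no (.br .no .no .no (.de 45)) .no (.de 44)) (.br .no (.br .no .no .no (.de 45)) .no .no)) .no .no .no) .no) .no .no) (.de 34) .no .no) .no) .no .no (.br (.br .no (.de 34) .no .no) .no (.sw 0 1 [25]) .no)) .no .no)) .no (.br .no .no .no (.br .no (.br (.br .no .no (.br (.br .no (.br (.br .no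 .no (.br .no .no .no (.de 43)) .no) (.br (.br .no .no (.br .no (.br .no .no .no (.de 45)) .no (.de 44)) (.br .no (.br .no .no .no (.de 45)) .no .no)) .no (.de 42) .no) .no .no) .no .no) (.br (.br (.br .no .no (.br .no .no .no (.de 43)) .no) (.br (.br .no .no (.br .no (.br (.br .no .no (.br .no .no .no (.de 47)) (.de 41)) .no .no (.de 45)) .no (.de 44)) (.br .no (.br (.br .no .no (.br .no .no .no (.de 47)) (.de 41)) .no .no (.de 45)) .no .no)) .no (.de 42) .no) .no .no) .no .no .no) .no .no) .no) .no .no (.br (.br .no (.br (.br (.br .no .no (.br (.br .no (.br .no .no (.br .no .no .no (.br .no (.br .no (.br .no .no .no (.br .no .no (.br .no .no .no (.br .no (.br .no .no (.de 48) .no) .no .no)) .no)) .no .no) .no .no)) (.de 45)) (.sy 35 216 3) .no) .no .no .no) .no) (.br (.br .no .no (.br .no (.br .no .no (.br .no .no .no (.de 41)) (.de 45)) .no .no) .no) .no (.de 42) .no) .no .no) .no .no .no) .no .no) .no (.sw 0 1 [25]) .no)) .no .no)) .no) .no)) .no .no) .no) .no .no (.br (.br .no (.br .no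 .no .no (.br .no .no (.br (.br .no .no (.br .no (.br .no .no (.br (.br .no (.de 34) .no .no) .no .no .no) (.br (.br .no (.de 34) .no .no) .no (.br (.br .no (.br .no (.br (.br .no .no (.br (.br .no (.br .no .no (.br .no .no .no (.de 47)) (.de 46)) .no (.br .no .no (.br .no .no .no (.de 47)) .no)) (.br .no .no .no (.de 45)) .no .no) .no) .no .no (.br (.br .no (.br .no .no .no (.de 45)) .no .no) .no (.de 43) .no)) .no (.br (.br .no .no (.br (.br .no (.br .no .no (.de 41) (.de 46)) .no (.br .no .no (.de 41) .no)) (.br .no .no .no (.de 45)) .no .no) .no) .no .no .no)) .no .no) (.de 34) .no .no) .no)) .no .no) .no) .no (.br (.br .no (.br .no .no (.br (.br .no (.br (.sy 32 228 6) .no .no .no) .no .no) .no .no .no) (.br (.br .no (.br (.br .no (.br .no .no (.de 42) (.br (.br .no (.sw 2 3 [31]) (.br .no .no .no (.br .no .no (.br .no .no .no (.de 47)) .no)) .no) .no (.de 43) .no)) .no (.br .no .no (.br (.br .no (.sw 2 3 [31]) (.br .no .no .no (.br .no .no (.br .no (.br .no (.br .no .no .no (.de 44))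 .no .no) .no .no) .no)) .no) .no .no .no) .no)) .no .no .no) .no .no) .no (.br (.br .no (.br .no (.br .no .no (.de 42) (.br (.br .no (.br .no .no .no (.de 45)) .no .no) .no (.de 43) .no)) .no (.br .no .no (.br (.br .no (.br .no .no .no (.de 45)) .no .no) .no .no .no) .no)) .no .no) (.br (.br .no (.br .no .no (.de 42) (.br (.br .no (.br (.br .no .no (.br .no .no .no (.de 47)) (.de 41)) .no .no (.de 45)) .no .no) .no (.de 43) .no)) .no (.br .no .no (.br (.br .no (.br (.br .no .no (.br .no (.br .no (.br .no .no .no (.br .no .no (.br .no .no .no (.br .no (.br .no .no .no (.br (.sw 2 3 [6]) .no (.sw 0 2 [48]) .no)) .no .no)) .no)) .no .no) .no .no) (.br .no (.br .no (.br .no .no .no (.br .no .no (.br .no .no .no (.br .no (.sw 0 2 [32,39]) .no .no)) .no)) .no .no) .no .no)) .no .no (.de 45)) .no .no) .no .no .no) .no)) .no .no .no) .no .no) .no)) (.br .no .no .no (.br (.br .no (.br (.sy 34 216 3) .no .no .no) .no .no) .no (.sw 0 1 [17,24,25]) .no)) .no) .no .no .no) .no) .no)) .no .no) .no (.sw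 0 1 [17]) .no)) .no .no))

theorem P5_2 : R.S 16 347583620 :=
  R.piece L hL (.br .no .no (.br c5_2_1 (.br .no .no .no (.br .no .no (.br c5_2_2 .no .no (.br .no .no (.br .no (.br (.br .no .no (.br (.br .no (.br (.sy 23 216 6) .no .no .no) .no .no) (.br (.de 27) .no .no .no) .no .no) .no) .no .no (.br (.br .no (.br (.de 27) .no .no .no) .no .no) .no (.sw 0 1 [17]) .no)) .no (.br (.br .no .no (.br (.br .no (.br (.br (.br .no (.br .no .no .no (.br .no (.br .no .no (.br .no .no .no (.br .no (.br .no .no (.br (.br .no .no (.br (.sw 1 3 [22,29,30,31]) .no .no (.de 44)) .no) .no .no .no) (.br (.br .no .no (.br (.br .no (.br (.br .no .no (.br .no (.br .no .no .no (.de 44)) (.br .no .no .no (.de 44)) .no) .no) .no (.de 41) .no) .no .no) .no .no (.de 44)) .no) .no (.br (.br .no .no .no (.br (.br .no .no (.de 41) .no) (.de 45) .no .no)) .no .no .no) .no)) .no .no)) (.sy 29 114 3)) .no .no)) (.sw 1 3 [22]) .no) (.br .no .no (.br .no (.br .no .no .no (.br .no .no (.br .no .no .no (.de 34)) .no)) .no (.sw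 0 1 [17,23])) .no) .no .no) .no .no .no) .no .no) (.br (.de 27) .no .no .no) .no .no) .no) .no .no .no)) (.br .no (.br (.br .no .no (.br (.br .no (.br (.br (.br .no .no (.br .no (.br .no .no .no (.br .no .no (.br .no .no .no (.br .no (.sw 2 3 [21]) (.sy 31 30 3) .no)) .no)) .no (.br .no (.br .no .no (.br .no .no .no (.br .no (.sw 2 3 [21]) (.br .no (.br (.br .no .no (.br (.sw 1 3 [30,31]) .no .no (.de 44)) .no) .no .no .no) .no (.br (.br .no .no (.br (.sw 1 3 [30,31]) .no .no (.de 44)) .no) (.br (.br .no .no .no (.br (.br .no (.de 41) .no .no) (.de 45) .no .no)) .no (.br (.br .no (.br (.br .no (.sw 2 3 [21,32,33,34]) .no .no) .no .no .no) .no .no) .no .no (.de 44)) .no) .no .no)) .no)) (.br .no .no (.br .no (.sw 2 3 [21]) .no .no) .no)) .no .no)) (.br .no (.br .no .no .no (.br .no .no (.br .no .no .no (.br .no (.sw 2 3 [21]) (.sy 31 30 3) .no)) .no)) .no .no)) .no (.br .no .no .no (.br .no (.br .no .no .no (.br .no .no (.br .no .no .no (.br .no (.sy 29 39 6) .no .no)) .no)) .no .no)) .no)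 .no (.sw 0 3 [20]) .no) .no .no) (.br (.br .no .no (.br (.br .no .no (.br .no (.br (.br .no .no (.br .no (.de 34) .no (.br .no (.br .no (.br (.br .no .no (.br .no (.br (.br .no .no (.br .no .no .no (.de 47)) .no) .no .no .no) .no (.de 44)) (.br .no (.br (.br .no .no (.br .no .no .no (.de 47)) .no) .no .no .no) .no .no)) .no .no (.br .no .no (.de 43) .no)) .no (.br (.br .no .no (.br .no (.br (.br .no .no (.de 41) .no) .no .no .no) .no (.de 44)) (.br .no (.br (.br .no .no (.de 41) .no) .no .no .no) .no .no)) .no .no .no)) .no .no)) (.br .no (.de 34) .no .no)) .no .no (.br .no .no (.br .no (.de 34) .no (.sw 0 1 [25,26])) .no)) .no (.br (.br .no .no (.br .no (.de 34) .no (.br .no (.br .no (.br (.br .no (.br .no .no .no (.br (.br .no .no (.br .no .no .no (.de 47)) .no) (.de 45) .no .no)) (.sw 1 3 [30]) .no) .no .no .no) .no (.br (.br .no (.br .no .no .no (.br (.br .no .no (.de 41) .no) (.de 45) .no .no)) (.sw 1 3 [30]) .no) (.br .no .no (.br .no (.br (.br .no .no (.de 41) .no) .no .no .no) .no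 (.de 44)) .no) .no .no)) .no .no)) (.br .no (.de 34) .no .no)) .no .no .no)) (.br .no (.br (.br .no .no (.br .no (.de 34) .no (.br .no (.br .no (.br (.sw 2 3 [29]) .no (.de 42) .no) (.br (.br .no .no (.br .no (.br (.br .no .no (.br .no .no .no (.de 47)) .no) .no .no .no) .no (.de 44)) (.br .no (.br (.br .no .no (.br .no .no .no (.de 47)) .no) .no .no .no) .no .no)) .no .no .no) .no) .no .no)) (.br .no (.de 34) .no .no)) .no .no (.br .no .no (.br .no (.de 34) .no (.sw 0 1 [25,26])) .no)) .no .no)) .no (.br .no .no .no (.br .no (.br (.br .no .no (.br .no (.sw 0 3 [20,26]) .no (.br (.br (.br .no .no (.br .no .no .no (.de 43)) .no) (.br (.br .no .no (.br .no (.br (.br .no (.br .no .no .no (.br .no .no (.br .no .no .no (.de 44)) .no)) (.sw 1 3 [33]) .no) .no .no .no) .no (.de 44)) (.br .no (.br (.br .no (.br .no .no .no (.sy 38 177 6)) (.sw 1 3 [33]) .no) .no .no .no) .no .no)) .no (.de 42) .no) .no .no) (.br (.br .no .no (.br .no .no .no (.de 43)) .no) (.br (.br .no .no (.br .no (.br (.br .no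 .no (.br (.sy 39 216 6) .no .no (.de 47)) .no) .no .no .no) .no (.de 44)) (.br .no (.br (.br .no .no (.br (.br .no .no (.de 43) .no) .no .no (.de 47)) .no) .no .no .no) .no .no)) .no (.de 42) .no) .no .no) .no .no)) (.br .no (.br (.br (.br .no .no (.br .no .no .no (.de 43)) .no) (.br (.br .no .no (.br .no (.br (.sw 2 3 [32]) .no (.sw 0 3 [20,26,31,32]) .no) .no .no) (.br .no (.br (.sw 2 3 [32]) .no (.br .no .no .no (.de 41)) .no) (.de 44) .no)) .no (.de 42) .no) .no .no) .no .no .no) .no .no)) .no .no (.br .no .no (.br .no (.sw 0 3 [20,26]) .no (.sw 0 1 [25,26])) .no)) .no .no)) .no) .no) .no .no .no) .no .no) .no) .no .no (.br (.br .no (.br (.br .no .no (.br (.br .no .no (.br .no (.br .no .no (.br .no .no .no (.br .no (.de 34) .no .no)) (.br .no .no (.br .no (.de 34) .no (.br .no (.br .no (.br (.br .no .no (.br (.br .no (.br (.br .no .no (.sy 36 216 6) (.br .no .no (.br .no .no .no (.de 44)) .no)) .no (.sw 0 3 [20,26,33]) .no) .no .no) (.br (.br .no .no (.br .no .no .no (.de 47)) .no) .no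 .no .no) .no .no) .no) .no .no (.br (.br .no (.br (.br .no .no (.br .no .no .no (.de 47)) .no) .no .no .no) .no .no) .no (.de 43) .no)) .no (.br (.br .no .no (.br (.br .no (.br (.br .no .no (.br .no (.br .no .no .no (.de 44)) (.br .no .no .no (.de 44)) .no) .no) .no (.de 41) .no) .no .no) (.br (.br .no .no (.de 41) .no) .no .no .no) .no .no) .no) .no .no .no)) .no .no)) .no)) .no .no) .no) .no (.br (.br .no (.br .no .no (.br .no .no .no (.br .no (.br (.br .no (.br .no .no (.de 42) (.br (.br .no (.br (.br .no .no (.br .no .no .no (.de 47)) (.de 41)) .no (.sw 0 3 [20,26,32]) .no) .no .no) .no .no .no)) .no (.br .no .no (.br (.br .no (.br (.br .no .no (.br .no (.br .no (.br .no .no .no (.br .no .no (.br .no .no .no (.br .no (.br .no .no .no (.br (.sw 2 3 [6]) .no (.sw 0 2 [48]) .no)) .no .no)) .no)) .no .no) .no .no) (.br .no (.br .no (.br .no .no .no (.br .no .no (.br .no .no .no (.br .no (.br .no .no (.br (.sw 2 3 [6]) .no .no .no) .no) .no .no)) .no)) .no .no) .no .no)) .no (.sw 0 3 [20,26,32])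 .no) .no .no) .no .no (.de 43)) .no)) .no .no .no) .no .no)) (.br .no .no (.br .no (.sw 0 3 [20,26]) .no (.br (.br .no (.br .no .no (.de 42) (.br (.br .no (.br (.br .no (.sy 37 228 3) (.sw 1 3 [33]) .no) .no .no .no) .no .no) .no (.de 43) .no)) .no (.br .no .no (.br (.br .no (.br (.br .no (.de 41) (.sw 1 3 [33]) .no) .no .no .no) .no .no) .no .no .no) .no)) (.br .no (.br .no .no (.de 42) (.br (.br .no (.br (.br .no .no (.br (.br .no .no (.de 43) .no) .no .no (.de 47)) .no) .no .no .no) .no .no) .no (.de 43) .no)) .no (.br .no .no (.br (.br .no (.br (.br .no .no (.br (.br .no (.br .no .no .no (.br .no .no (.br .no .no .no (.br .no (.br .no .no .no (.br .no .no (.sw 0 1 [34,41]) .no)) .no .no)) .no)) .no .no) .no .no .no) .no) .no .no .no) .no .no) .no .no .no) .no)) .no .no)) .no)) (.br .no .no .no (.br .no .no (.br .no (.sw 0 3 [20,26]) .no (.sw 0 1 [17,24,25,26])) .no)) .no) .no .no .no) .no) .no) .no .no .no) .no .no) .no (.sw 0 1 [17]) .no)) .no .no))) .no)) .no .no) .no) 16 347583620 4294967296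 (by norm_num) (by norm_num) (by norm_num) (by decide +kernel)

def c5_3_0 : Cert := (.br (.br .no (.br .no .no (.br .no .no (.br (.br .no (.br .no .no .no (.br .no .no (.br (.br .no (.br .no (.br .no .no (.de 42) (.br (.br .no (.br .no .no .no (.de 45)) .no .no) .no (.de 43) .no)) .no (.br .no .no (.br (.br .no (.br .no .no .no (.de 45)) .no .no) .no .no .no) .no)) .no (.br .no (.br .no .no (.de 42) (.br (.br .no (.br .no .no .no (.de 45)) .no .no) .no (.de 43) .no)) .no (.br .no .no (.br (.br .no (.br .no .no .no (.de 45)) .no .no) .no .no .no) .no))) .no .no (.br .no (.br .no (.br .no .no (.de 42) (.br (.br .no (.br (.br .no .no (.br (.br .no .no (.de 43) .no) .no .no (.de 47)) .no) .no .no .no) .no .no) .no (.de 43) .no)) .no (.br .no .no (.br (.br .no (.br (.br .no .no (.br (.br .no (.br .no .no .no (.br .no .no (.br .no .no .no (.br .no (.br .no .no .no (.br .no .no (.sy 43 27 6) .no)) .no .no)) .no)) .no .no) .no .no .no) .no) .no .no .no) .no .no) .no .no .no) .no)) .no .no)) .no))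 .no .no) .no .no .no) (.br (.br .no (.br .no .no .no (.br .no .no (.br (.br .no (.br .no (.br .no .no (.de 42) (.br (.br .no (.br .no .no .no (.de 45)) .no .no) .no (.de 43) .no)) (.br .no .no .no (.br (.br .no (.br .no .no .no (.de 45)) .no .no) .no (.de 43) .no)) .no) .no .no) .no .no (.br .no (.br .no (.br .no .no (.de 42) (.br (.br .no (.br (.br .no .no (.br (.sw 2 3 [28]) .no .no .no) .no) .no .no .no) .no .no) .no (.de 43) .no)) (.br .no .no .no (.br (.br .no (.br (.br .no .no (.br (.de 48) .no .no .no) .no) .no .no .no) .no .no) .no (.de 43) .no)) .no) .no .no)) .no)) .no .no) .no (.br (.br .no (.br .no .no (.br (.br .no (.br (.br .no (.br .no .no (.br (.br .no (.br .no .no (.de 41) (.de 46)) .no (.br .no .no (.de 41) .no)) .no .no (.de 44)) (.br (.br .no (.br .no .no (.de 41) (.de 46)) .no (.br .no .no (.de 41) .no)) .no .no .no)) .no (.br .no .no (.de 43) .no)) (.br .no .no .no (.br .no .no (.de 43) .no)) .no .no) .no .no) .no .no (.br .no (.br (.br .no (.br .no .no (.br (.br .no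 (.br (.br .no .no (.de 48) .no) .no (.de 41) .no) .no .no) .no .no (.de 44)) (.br (.br .no (.br (.br .no .no (.de 48) .no) .no (.de 41) .no) .no .no) .no .no .no)) .no (.br .no .no (.de 43) .no)) (.br .no .no .no (.br .no .no (.de 43) .no)) .no .no) .no .no)) (.br (.br .no (.br (.br .no (.br .no .no (.br (.br .no (.sw 2 3 [32]) (.br .no .no .no (.br .no .no (.de 47) .no)) .no) .no .no .no) (.br (.br .no (.sw 2 3 [32]) (.br .no .no .no (.br .no .no (.de 47) .no)) .no) .no (.de 44) .no)) .no (.br .no .no (.de 43) .no)) (.br .no .no .no (.br .no .no (.de 43) .no)) .no .no) .no .no) .no .no .no)) .no (.br .no .no (.br (.br .no (.br (.br .no (.br .no .no (.br (.sw 1 3 [31]) (.br .no .no .no (.de 45)) .no .no) .no) .no (.br .no (.br (.br .no (.br .no .no (.de 41) (.de 46)) .no (.br .no .no (.de 41) .no)) .no .no .no) (.de 43) .no)) (.br .no .no .no (.br .no (.br (.br .no (.br .no .no (.br (.br .no .no (.de 43) .no) .no .no .no) (.de 46)) .no (.br .no .no (.br (.br .no .no (.de 43) .no) .no .no .no)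 .no)) .no .no .no) (.de 43) .no)) .no .no) .no .no) .no .no (.br .no (.br (.br .no (.br .no .no (.br (.sw 1 3 [31]) (.br (.br .no .no (.de 41) .no) .no .no .no) .no .no) .no) .no (.br .no (.br (.br .no (.br (.sy 37 225 3) .no (.de 41) .no) .no .no) .no .no .no) (.de 43) .no)) (.br .no .no .no (.br .no (.br (.br .no (.br (.sy 37 225 3) .no (.sw 0 3 [33]) .no) .no .no) .no .no .no) (.de 43) .no)) .no .no) .no .no)) .no)) (.br .no .no .no (.br .no .no (.br (.br .no (.br (.br .no .no .no (.br (.br .no (.br .no .no .no (.de 45)) .no .no) .no (.de 43) .no)) (.br (.br .no .no (.br (.br .no (.br .no .no (.br (.sy 41 228 6) .no .no .no) (.de 46)) .no (.br .no .no (.br (.br .no .no (.de 48) .no) .no .no .no) .no)) (.br .no .no .no (.de 45)) .no .no) .no) .no .no (.sw 0 2 [29])) .no .no) .no .no) .no .no (.br .no (.sy 31 27 6) .no .no)) .no)) .no .no) .no)) (.br .no .no (.br (.br .no (.br .no .no .no (.br .no .no (.br (.br .no (.sw 2 3 [27]) .no .no) .no .no .no) .no)) .no .no) .no .no .no) (.br (.br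 .no (.br .no .no .no (.br .no .no (.br (.br .no (.sw 2 3 [27]) (.br .no (.br .no .no (.de 42) (.br (.br .no (.br .no .no .no (.de 45)) .no .no) .no (.de 43) .no)) (.br .no .no .no (.br (.br .no (.br .no .no .no (.de 45)) .no .no) .no (.de 43) .no)) .no) .no) .no .no .no) .no)) .no .no) .no (.br (.br .no (.br .no .no (.br (.br .no (.sw 2 3 [27]) (.br (.br .no (.br .no .no (.br (.br .no (.br .no .no .no (.de 46)) .no (.br .no (.de 41) .no .no)) .no .no (.de 44)) (.br (.br .no (.br .no .no .no (.de 46)) .no (.br .no (.de 41) .no .no)) .no .no .no)) .no (.br .no .no (.de 43) .no)) (.br .no .no .no (.br .no .no (.de 43) .no)) .no .no) .no) .no .no .no) (.br (.br .no (.sw 2 3 [27]) (.br (.br .no (.br .no .no (.br (.br .no (.sw 2 3 [32]) (.br .no (.de 41) .no (.br .no (.br .no .no (.de 48) .no) .no .no)) .no) .no .no .no) (.br (.br .no (.sw 2 3 [32]) (.br .no (.de 41) .no (.br .no (.br .no .no (.de 43) .no) .no .no)) .no) .no (.de 44) .no)) .no (.br .no .no (.de 43) .no)) (.br .no .no .no (.br .no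 .no (.de 43) .no)) .no .no) .no) .no (.br .no (.sw 0 2 [15,16,21]) .no .no) .no)) .no (.br .no .no (.br (.br .no (.sw 2 3 [27]) (.sy 32 141 6) .no) .no .no .no) .no)) (.br .no .no .no (.br .no .no (.br (.br .no (.sw 2 3 [27]) (.br (.br .no .no .no (.br (.br .no (.br .no .no .no (.de 45)) .no .no) .no (.de 43) .no)) (.br (.br .no .no (.br (.br .no (.br .no .no .no (.de 46)) .no (.br .no (.de 46) .no .no)) (.br .no .no .no (.de 45)) .no .no) .no) .no .no (.sw 0 2 [29])) .no .no) .no) .no .no .no) .no)) .no .no) .no))) .no (.br .no .no (.br .no .no (.br (.br .no (.br .no .no .no (.br .no (.br (.br .no (.br .no (.br .no .no (.de 42) (.br (.br .no .no (.br .no .no .no (.br .no .no (.br (.br .no .no (.de 43) .no) .no .no (.de 47)) .no)) .no) .no (.de 43) .no)) .no (.br .no .no (.br (.br .no .no (.br .no .no .no (.br .no .no (.br (.sy 36 141 6) .no .no .no) .no)) .no) .no .no .no) .no)) .no (.br .no (.br .no .no (.de 42) (.br (.br .no .no (.br .no .no .no (.br .no (.de 46) (.br (.sw 1 3 [34]) .no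 .no .no) .no)) .no) .no (.de 43) .no)) .no (.br .no .no (.br (.br .no .no (.br .no .no .no (.br .no (.de 46) (.br (.sw 1 3 [34]) (.br .no (.br .no .no .no (.de 44)) .no .no) .no .no) .no)) .no) .no .no .no) .no))) .no .no .no) (.br (.sw 1 3 [26]) (.br .no .no .no (.br .no (.br .no .no (.de 42) (.br (.br .no (.br (.br .no .no (.br (.sw 1 3 [26,33,34]) .no .no .no) .no) .no .no (.de 45)) .no .no) .no (.de 43) .no)) .no (.br .no .no (.br (.br .no (.br (.br .no .no (.br (.sw 1 3 [26,33,34]) (.br .no (.br .no .no .no (.br .no .no (.br .no .no .no (.br .no (.br .no .no .no (.br (.sw 2 3 [6]) .no (.sw 0 1 [41]) .no)) .no .no)) .no)) .no .no) .no .no) .no) .no .no (.de 45)) .no .no) .no .no .no) .no))) .no .no) .no)) .no .no) .no .no .no) (.br (.br .no (.br .no .no .no (.br .no (.br (.br .no (.sy 30 114 6) .no .no) .no .no .no) (.br (.sw 1 3 [26]) (.de 34) .no .no) .no)) .no .no) .no (.br (.br .no (.br .no .no (.br (.sw 1 3 [26]) (.de 34) .no .no) .no) .no (.br .no (.br (.br .no (.br (.br .no (.br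 .no .no (.br (.br .no .no (.sw 1 3 [26,31,32]) (.br .no .no (.de 41) .no)) .no .no .no) .no) .no (.br .no (.br (.br .no .no (.br .no .no .no (.br .no .no (.de 47) .no)) (.br .no .no (.de 41) .no)) .no (.br .no .no .no (.br .no .no (.de 41) .no)) .no) (.de 43) .no)) (.br .no .no .no (.br .no (.br (.br .no .no (.br .no .no .no (.br (.br .no .no (.de 43) .no) .no (.de 47) .no)) (.br .no .no (.br (.br .no .no (.de 43) .no) .no .no .no) .no)) .no (.br .no .no .no (.br .no .no (.br (.br .no .no (.de 43) .no) .no .no .no) .no)) .no) (.de 43) .no)) .no .no) .no .no) .no .no .no) (.br (.sw 1 3 [26]) (.de 34) .no .no) .no)) (.br .no .no .no (.br .no (.br (.br .no (.br (.br .no .no .no (.br (.br .no .no (.br .no .no .no (.br .no .no (.de 41) .no)) .no) .no (.de 43) .no)) (.br (.br .no .no (.br (.br .no .no (.sy 36 216 3) (.br .no .no (.br (.br .no .no (.de 48) .no) .no .no .no) .no)) .no .no .no) .no) .no .no (.sw 0 2 [29])) .no .no) .no .no) .no .no .no) (.br (.sw 1 3 [26]) (.de 34) .no .no) .no)) .no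 .no) .no)) .no)) (.br .no .no .no (.br .no .no (.br .no .no (.br (.br .no (.br (.br .no .no (.br (.br .no (.sy 29 228 6) .no (.br .no (.br .no .no (.de 42) (.br .no .no (.de 43) .no)) .no (.br .no .no (.br .no .no .no (.de 43)) .no))) (.br .no .no .no (.br .no (.br .no .no (.de 42) (.br .no .no (.de 43) .no)) .no (.br .no .no (.br .no .no .no (.de 43)) .no))) .no .no) .no) .no .no (.sw 0 2 [24])) .no .no) .no .no .no) (.br (.br .no (.br (.br .no .no (.br (.br .no (.br .no (.br .no .no (.de 42) (.br .no .no (.de 43) .no)) (.br .no .no .no (.br .no .no (.de 43) .no)) .no) .no .no) (.de 34) .no .no) .no) .no .no (.sw 0 2 [24])) .no .no) .no (.br (.br .no .no .no (.br (.br .no (.de 34) .no .no) .no (.sw 0 1 [25]) .no)) (.br (.br .no .no (.br (.br .no (.br (.br .no .no .no (.br .no .no (.de 43) .no)) (.br (.br .no .no (.br .no (.br .no .no .no (.de 45)) .no (.de 44)) (.br .no (.br .no .no .no (.de 45)) .no .no)) .no .no (.sw 0 2 [29])) .no .no) .no .no) (.de 34) .no .no) .no) .no .no (.sw 0 2 [24]))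 .no .no) .no)) .no)) .no .no)

def c5_3_1 : Cert := (.br .no (.br .no .no (.br (.br .no (.br .no .no .no (.br .no .no (.br .no .no (.br (.br .no (.br .no .no (.br (.br .no (.br .no .no .no (.br .no (.br .no .no (.de 42) (.br (.br .no (.br .no .no (.br (.de 41) .no .no .no) (.de 45)) .no (.br .no .no (.br (.de 41) .no .no .no) .no)) .no .no .no)) .no (.br .no .no (.br (.br .no (.br .no .no (.br (.br .no (.br .no (.br .no .no .no (.br .no .no (.br .no .no .no (.br .no (.br .no .no (.br (.sw 2 3 [6]) .no .no .no) (.br (.sw 2 3 [6]) .no (.sw 0 2 [48]) .no)) .no .no)) .no)) .no .no) .no .no) .no .no .no) (.de 45)) .no (.br .no .no (.br (.br .no (.br .no (.br .no .no .no (.br .no .no (.br .no (.br .no .no .no (.br .no .no (.sw 1 3 [38,45,46]) .no)) .no .no) .no)) .no .no) .no .no) .no .no .no) .no)) .no .no (.de 43)) .no))) .no .no) .no .no .no) (.br (.br .no (.br .no .no .no (.br .no (.br .no .no (.de 42) (.br (.br .no (.sw 2 3 [31]) (.br .no .no .no (.br (.de 41) .no (.br (.br .no .no (.de 43)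 .no) .no .no .no) .no)) .no) .no (.de 43) .no)) .no (.br .no .no (.br (.br .no (.sw 2 3 [31]) (.br .no .no .no (.br (.br .no (.br .no (.br .no .no .no (.de 44)) .no .no) .no .no) .no (.br (.sy 36 141 6) (.br .no (.br .no .no .no (.de 44)) .no .no) .no .no) .no)) .no) .no .no .no) .no))) .no .no) .no (.br (.br .no (.br .no (.br .no .no (.de 42) (.br (.br .no (.br .no .no .no (.de 45)) .no .no) .no (.de 43) .no)) .no (.br .no .no (.br (.br .no (.br .no .no .no (.de 45)) .no .no) .no .no .no) .no)) .no (.br .no (.br .no .no (.de 42) (.br (.br .no (.br .no .no .no (.de 45)) .no .no) .no (.de 43) .no)) .no (.br .no .no (.br (.br .no (.br .no .no .no (.de 45)) .no .no) .no .no .no) .no))) (.br .no .no .no (.br .no (.br .no .no (.de 42) (.br (.br .no (.br (.br .no .no (.br (.br .no .no (.de 43) .no) .no .no .no) .no) .no .no (.de 45)) .no .no) .no (.de 43) .no)) .no (.br .no .no (.br (.br .no (.br (.br .no .no (.br (.br .no (.br .no .no .no (.br .no .no (.br .no .no .no (.br .no (.br .no .no .no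 (.br .no .no (.sy 43 27 6) .no)) .no .no)) .no)) .no .no) (.br .no (.br .no .no .no (.br .no .no (.br .no .no .no (.br .no (.br .no .no .no (.sw 0 2 [32,39,40])) .no .no)) .no)) .no .no) .no .no) .no) .no .no (.de 45)) .no .no) .no .no .no) .no))) .no .no) .no)) .no (.br .no .no (.br (.br .no (.br .no .no .no (.br .no (.br .no .no (.de 42) .no) .no (.br .no (.br (.br .no (.br .no .no (.br (.br .no (.br .no .no (.br .no .no .no (.br .no .no (.br .no .no .no (.sy 42 78 3)) .no)) .no) .no .no) .no .no .no) (.de 45)) .no (.br .no .no (.br (.br .no (.br .no .no (.br .no .no .no (.br .no .no (.br .no (.br .no .no .no (.br .no .no (.sw 1 3 [38,45,46]) .no)) .no .no) .no)) .no) .no .no) .no .no .no) .no)) .no .no .no) (.br (.sw 1 3 [30]) (.br .no .no .no (.br .no .no (.br (.br .no (.br .no (.br .no .no .no (.br .no .no (.sw 0 1 [37]) .no)) .no .no) .no .no) .no .no .no) .no)) .no .no) .no))) .no .no) .no .no .no) .no)) .no .no (.br .no (.br .no .no (.br (.br .no (.br .no .no .no (.br (.br .no .no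 (.br (.br .no (.br .no .no (.br (.br .no (.sy 40 228 6) .no .no) .no .no .no) (.de 45)) .no (.br .no .no (.br (.br .no (.br .no (.br .no .no .no (.br .no .no (.br .no (.br .no .no .no (.br .no .no (.de 48) .no)) .no .no) .no)) .no .no) .no .no) .no .no .no) .no)) .no .no (.de 43)) .no) (.br (.br .no .no .no (.br .no (.br .no .no (.br (.de 41) .no .no .no) (.de 45)) .no .no)) .no (.de 42) .no) .no .no)) .no .no) .no .no .no) (.br (.br .no (.br .no .no .no (.br (.br .no .no (.br (.br .no (.sw 2 3 [31]) (.sy 35 216 3) .no) .no .no .no) .no) (.br (.br .no .no (.br .no (.br .no .no (.br (.de 41) .no .no .no) (.de 45)) .no .no) .no) .no (.de 42) .no) .no .no)) .no .no) .no (.br (.br .no (.br (.br .no .no (.br (.br .no (.br .no .no .no (.de 45)) .no .no) .no .no .no) .no) (.br (.br .no .no (.br (.br .no (.br .no .no (.br (.sy 41 228 6) .no .no (.de 47)) (.de 46)) .no (.br .no .no (.br (.br .no .no (.de 48) .no) .no .no (.de 47)) .no)) (.br .no .no .no (.de 45)) .no .no) .no) .no (.de 42) .no) .no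 .no) .no (.br (.br .no .no (.br (.br .no (.br .no .no .no (.de 45)) .no .no) .no .no .no) .no) (.br (.br .no .no (.br (.br .no (.br .no .no (.br (.sw 1 3 [34]) .no .no .no) .no) .no (.br .no (.de 46) (.br (.sw 1 3 [34]) .no .no .no) .no)) (.br .no .no .no (.de 45)) .no .no) .no) .no (.de 42) .no) .no .no)) (.br .no .no .no (.sy 34 27 6)) .no .no) .no)) .no .no)) (.br (.br .no (.br .no .no (.br (.br .no (.de 34) .no .no) .no .no .no) (.br (.br .no (.de 34) .no .no) .no (.br (.br .no (.br .no (.br .no .no (.de 42) (.br (.br .no (.br .no .no .no (.de 45)) .no .no) .no (.de 43) .no)) (.br .no .no .no (.br (.br .no (.br .no .no .no (.de 45)) .no .no) .no (.de 43) .no)) .no) .no .no) (.de 34) .no .no) .no)) .no (.br .no .no (.br (.br .no (.de 34) .no .no) .no .no .no) .no)) .no .no .no)) .no)) .no .no) .no .no .no) (.br (.br .no (.br .no .no .no (.br .no .no (.br .no .no (.br (.br .no (.sw 2 3 [23]) (.br .no .no .no (.br (.br .no (.br .no .no .no (.br .no (.br .no .no .no (.br (.sw 1 2 [30]) (.br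 .no .no (.br .no .no .no (.br (.de 41) .no (.br (.br .no .no (.de 43) .no) .no .no .no) .no)) .no) .no .no)) .no (.br .no (.br (.br .no (.sw 2 3 [23,30,31]) (.br .no .no .no (.br (.br .no (.br .no .no (.br .no .no .no (.de 44)) .no) .no .no) .no (.br (.br .no .no (.de 48) .no) (.br .no .no (.br .no .no .no (.de 44)) .no) .no .no) .no)) .no) .no .no .no) .no .no))) .no .no) .no (.br (.br .no (.br .no (.br .no .no .no (.br (.sw 1 2 [30]) (.br (.br .no (.br .no .no (.br (.br .no .no (.de 43) .no) .no .no (.de 47)) (.de 46)) .no (.br .no .no (.br (.br .no .no (.de 43) .no) .no .no (.de 47)) .no)) .no .no .no) .no .no)) .no (.br .no (.br (.br .no (.br .no .no .no (.de 45)) .no .no) .no .no .no) .no .no)) .no (.sy 28 141 6)) (.br .no .no .no (.br .no (.br .no .no .no (.br (.sw 1 2 [30]) (.br (.br .no .no .no (.br (.de 41) .no (.sw 0 1 [33]) .no)) .no .no .no) .no .no)) .no (.br .no (.br (.br .no (.br (.sy 36 225 3) .no .no (.de 45)) .no .no) .no .no .no) .no .no))) .no .no) .no)) .no) .no .no .no)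 (.br (.br .no (.sw 2 3 [23]) (.br .no .no .no (.br (.br .no (.de 34) .no .no) .no (.br (.br .no (.br .no (.br .no .no .no (.br (.sw 1 2 [30]) (.br (.br .no (.br .no .no (.br (.sw 2 3 [28]) .no .no .no) (.de 46)) .no (.br .no .no (.br (.sw 2 3 [28]) .no .no .no) .no)) .no .no .no) .no .no)) (.br .no (.de 42) .no (.br (.sw 1 2 [30]) (.br (.br .no (.br .no .no (.br (.de 48) .no .no .no) (.de 46)) .no (.br .no .no (.br (.de 48) .no .no .no) .no)) .no .no .no) .no .no)) .no) .no .no) (.de 34) .no .no) .no)) .no) .no (.br .no (.br .no .no (.br (.br .no (.de 34) .no .no) .no .no .no) (.br (.br .no (.de 34) .no .no) .no (.br (.br .no (.br (.br .no .no .no (.br (.br .no (.br .no .no .no (.de 45)) .no .no) .no (.de 43) .no)) (.br (.br .no .no (.br (.br .no (.br .no .no (.br (.sw 2 3 [23,28,29]) .no .no .no) (.de 46)) .no (.br .no .no (.br (.sw 2 3 [23,28,29]) .no .no .no) .no)) (.br .no .no .no (.de 45)) .no .no) .no) .no .no (.sw 0 2 [29])) .no .no) .no .no) (.de 34) .no .no) .no)) .no .no) .no)) .no))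 .no .no) .no c5_3_0 .no)) .no (.br .no .no (.br (.br .no (.br .no .no .no (.br .no .no (.br .no (.br (.br .no (.br .no .no (.br (.br .no (.br .no .no .no (.br .no .no (.br .no .no .no (.br (.br .no (.br .no .no (.br (.de 41) .no .no .no) (.de 45)) .no (.br .no .no (.br (.de 41) .no .no .no) .no)) .no .no .no)) (.br .no .no (.br (.br .no (.br .no .no (.br (.br .no .no (.br .no (.br .no .no .no (.br .no .no (.br .no .no .no (.br .no (.br .no .no .no (.br (.sw 2 3 [6]) .no .no .no)) .no .no)) .no)) .no .no) .no) .no .no .no) (.de 45)) .no (.br .no .no (.br (.br .no .no (.sy 39 141 6) .no) .no .no .no) .no)) .no .no (.de 43)) .no))) .no .no) .no .no .no) (.br (.br .no (.br .no .no .no (.sy 33 114 6)) .no .no) .no (.br (.br .no .no .no (.br .no .no (.br .no .no .no (.br (.br .no (.br .no .no .no (.de 45)) .no .no) .no (.de 43) .no)) (.br .no .no (.br (.br .no (.br .no .no .no (.de 45)) .no .no) .no .no .no) .no))) (.br .no .no .no (.br .no .no (.br .no .no .no (.br (.br .no (.br (.br .no .no (.br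 (.de 48) .no .no .no) .no) .no .no (.de 45)) .no .no) .no (.de 43) .no)) (.br .no .no (.br (.br .no (.br (.br .no .no (.br (.br .no (.br .no .no .no (.br .no .no (.br .no .no .no (.br .no (.br .no .no .no (.br .no .no (.sw 0 2 [32,39,40,41,48]) .no)) .no .no)) .no)) .no .no) .no .no .no) .no) .no .no (.de 45)) .no .no) .no .no .no) .no))) .no .no) .no)) .no (.br .no .no (.br (.br .no (.br .no .no .no (.br .no .no (.br .no (.de 42) .no .no) (.br .no (.br (.br .no (.br .no .no (.br (.br .no .no (.br .no .no (.br .no .no .no (.br .no .no (.br .no .no .no (.sy 42 78 3)) .no)) .no) .no) .no .no .no) (.de 45)) .no (.br .no .no (.br (.br .no .no (.br .no .no (.br .no .no .no (.br .no .no (.br .no (.br .no .no .no (.de 47)) .no .no) .no)) .no) .no) .no .no .no) .no)) .no .no .no) (.br (.sw 1 3 [30]) (.br .no .no .no (.br .no .no (.br (.br .no .no (.br .no (.br .no .no .no (.br .no .no (.sw 0 1 [37]) .no)) .no .no) .no) .no .no .no) .no)) .no .no) .no))) .no .no) .no .no .no) .no)) .no .no .no) (.br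 (.sw 1 3 [22]) (.br .no .no .no (.br .no .no (.br (.br .no (.br .no .no .no (.br (.br .no .no (.br (.sw 1 3 [22,29,30]) (.br .no .no .no (.br .no .no (.br (.br .no (.br .no (.br .no .no .no (.br .no .no (.sw 0 1 [37]) .no)) .no .no) .no .no) .no .no .no) .no)) .no .no) .no) .no .no (.br (.br .no (.br .no .no .no (.br .no .no (.br (.br .no (.br .no (.br .no .no (.de 44) (.br .no .no (.br .no (.br .no .no .no (.br .no .no (.br (.sw 2 3 [6]) .no .no .no) .no)) .no .no) .no)) (.br .no .no .no (.br .no .no (.sw 0 1 [29,36,37]) .no)) .no) .no .no) .no .no .no) .no)) .no .no) .no (.sw 0 1 [29]) .no))) .no .no) .no .no .no) .no)) .no .no) .no) .no)) .no .no) .no .no .no) .no))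

theorem P5_3 : R.S 16 2495067268 :=
  R.piece L hL (.br (.br .no (.br .no .no .no (.br .no .no (.br (.br c5_3_1 .no .no (.br .no (.br .no .no (.br (.br .no (.br .no .no .no (.br .no .no (.br (.br .no .no .no (.br .no (.br .no .no (.br (.br .no (.de 34) .no .no) .no .no .no) (.sw 0 2 [15,16,23,24])) .no .no)) .no (.br (.br .no (.br .no .no (.br (.br .no (.br (.sy 32 228 6) .no .no .no) .no .no) .no .no .no) (.br (.br .no (.br (.br .no (.br .no .no (.de 42) (.br (.br .no (.sw 2 3 [31]) (.br .no .no .no (.br .no .no (.br .no .no .no (.de 47)) .no)) .no) .no (.de 43) .no)) .no (.br .no .no (.br (.br .no (.sw 2 3 [31]) (.br .no .no .no (.br .no .no (.br .no (.sw 0 3 [21,34]) .no .no) .no)) .no) .no .no .no) .no)) .no .no .no) .no .no) .no (.br (.br .no (.sw 0 3 [21]) .no .no) (.br (.br .no (.br .no .no (.de 42) (.br (.br .no (.br (.br .no .no (.br .no .no .no (.de 47)) (.de 41)) .no .no (.de 45)) .no .no) .no (.de 43) .no)) .no (.br .no .no (.br (.br .no (.br (.br .no .no (.br .no (.sw 0 3 [21,34])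 .no .no) (.br .no (.br .no (.br .no .no .no (.br .no .no (.br .no .no .no (.br .no (.sw 0 2 [32,39]) .no .no)) .no)) .no .no) .no .no)) .no .no (.de 45)) .no .no) .no .no .no) .no)) .no .no .no) .no .no) .no)) .no (.br .no .no (.br (.br .no (.br (.br .no (.br .no .no (.de 42) .no) .no (.br .no (.br (.br .no (.br .no .no (.br .no .no .no (.br .no (.sy 40 54 3) .no .no)) (.de 45)) .no (.br .no .no (.br .no .no .no (.br .no (.sy 40 54 3) .no .no)) .no)) .no .no .no) (.br (.sw 1 3 [30]) (.br .no .no .no (.br .no .no (.br .no .no .no (.br .no (.sy 38 27 6) .no .no)) .no)) .no .no) .no)) .no .no .no) .no .no) .no .no .no) .no)) .no .no (.br .no (.br .no .no (.br (.br .no (.br (.br (.br .no .no (.br (.br .no (.br .no .no (.br .no .no .no (.br .no (.br .no (.br .no .no .no (.br .no .no (.br .no .no .no (.br .no (.br .no .no (.de 48) .no) .no .no)) .no)) .no .no) .no .no)) (.de 45)) .no (.br .no .no (.br .no .no .no (.br .no (.br .no (.br .no .no .no (.br .no .no (.br .no (.de 46) .no .no) .no)) .no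 .no) .no .no)) .no)) .no .no (.de 43)) .no) (.br (.br .no .no .no (.br .no (.br .no .no (.br .no .no .no (.de 41)) (.de 45)) .no .no)) .no (.de 42) .no) .no .no) .no .no .no) .no .no) .no .no .no) (.sw 0 2 [15,16,23,24])) .no .no)) .no) .no)) .no .no) .no .no .no) (.sw 0 2 [15,16])) .no .no)) .no .no (.br (.br .no (.br .no .no (.br (.br .no (.br (.br .no .no (.sy 24 228 6) .no) .no .no .no) .no .no) .no .no .no) (.br (.br .no (.br (.br .no .no (.br .no .no (.br (.br .no (.sw 2 3 [23]) (.br .no .no .no (.br .no .no (.br .no (.sw 0 3 [20,26]) .no (.sy 30 78 3)) .no)) .no) .no .no .no) (.br (.br .no (.sw 2 3 [23]) (.br .no .no .no (.br .no .no (.br .no (.de 34) .no (.sy 30 78 3)) .no)) .no) .no (.br .no (.br .no .no (.br .no .no .no (.br .no (.de 34) .no .no)) (.br .no .no (.br .no (.de 34) .no (.br .no (.sy 31 27 6) .no .no)) .no)) .no .no) .no)) .no) .no .no .no) .no .no) .no (.br (.br .no (.br .no .no (.sw 0 3 [20]) .no) .no .no) (.br (.br .no .no (.br .no .no (.br (.br .no (.br (.br .no .no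 (.br .no (.sw 0 3 [20,26]) .no (.br .no (.br .no (.br .no .no (.de 42) (.br .no .no (.de 43) .no)) .no (.br .no .no (.br .no .no .no (.de 43)) .no)) .no .no)) (.br .no (.br .no .no .no (.br .no (.br .no .no (.de 42) (.br .no .no (.de 43) .no)) .no (.br .no .no (.br .no .no .no (.de 43)) .no))) .no .no)) .no .no (.sw 0 2 [24])) .no .no) .no .no .no) (.br (.br .no (.br (.br .no .no (.br .no (.de 34) .no (.br .no (.br .no (.br .no .no (.de 42) (.br .no .no (.de 43) .no)) (.br .no .no .no (.br .no .no (.de 43) .no)) .no) .no .no)) (.br .no (.de 34) .no .no)) .no .no (.sw 0 2 [24])) .no .no) .no (.br (.br .no .no .no (.br .no .no (.br .no (.de 34) .no (.sw 0 1 [25,26])) .no)) (.br (.br .no .no (.br .no (.de 34) .no (.br .no (.br (.br .no .no .no (.br .no .no (.de 43) .no)) (.br (.br .no .no (.br .no (.br (.br .no .no (.br (.sy 39 216 6) .no .no .no) .no) .no .no .no) .no (.de 44)) (.br .no (.br (.br .no .no (.br (.br .no .no (.de 43) .no) .no .no .no) .no) .no .no .no) .no .no)) .no .no (.sw 0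 2 [29])) .no .no) .no .no)) (.br .no (.de 34) .no .no)) .no .no (.sw 0 2 [24])) .no .no) .no)) .no) .no .no .no) .no .no) .no)) .no (.br .no .no (.br (.br .no (.br (.br .no .no (.br .no (.br (.br .no (.br .no .no (.br .no .no .no (.br .no (.br .no .no .no (.sy 32 54 3)) .no .no)) (.br .no .no (.br .no (.sw 0 3 [20,26]) .no (.de 34)) .no)) .no (.br .no .no (.br .no .no .no (.br .no (.br .no .no .no (.sy 32 54 3)) .no .no)) .no)) .no .no .no) (.br (.sw 1 3 [22]) (.br .no .no .no (.br .no .no (.br .no .no .no (.br .no (.br .no .no .no (.sw 0 1 [14,21])) .no .no)) .no)) .no .no) .no) .no) .no .no .no) .no .no) .no .no .no) .no)) .no .no (.br .no (.br .no .no (.br (.br .no (.br (.br .no .no (.sw 0 1 [14]) .no) .no .no .no) .no .no) .no .no .no) (.sw 0 2 [15,16])) .no .no))) .no)) .no .no) .no .no .no) 16 2495067268 4294967296 (by norm_num) (by norm_num) (by norm_num) (by decide +kernel)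

def c5_4_0 : Cert := (.br (.br .no (.br .no .no .no (.br .no (.br .no .no (.br (.br .no (.sw 2 3 [24]) (.br .no .no .no (.br (.de 34) .no (.br (.br (.br .no (.br .no .no .no (.br (.sw 1 2 [31]) (.br (.br .no (.br .no .no (.de 48) (.sy 36 114 6)) .no (.br .no .no (.de 47) .no)) .no .no .no) .no .no)) .no (.sy 29 141 7)) .no .no (.br .no (.br .no .no .no (.br (.sw 1 2 [31]) (.sy 35 54 3) .no .no)) .no .no)) .no .no .no) .no)) .no) .no .no .no) (.br (.br .no (.sw 2 3 [24]) (.br .no .no .no (.br (.de 34) .no (.br (.br (.br .no (.sw 2 3 [29]) (.br .no (.br (.br .no (.br .no .no .no (.de 46)) .no .no) .no .no .no) .no (.de 43)) .no) .no (.br .no (.de 42) .no .no) .no) .no .no .no) .no)) .no) .no (.br .no (.br .no .no (.br (.de 34) .no .no .no) (.br (.de 34) .no (.br (.br (.br .no (.br (.sw 2 3 [24,29,30]) .no .no (.sw 0 2 [30])) .no .no) .no (.br (.br .no .no .no (.br (.br .no (.br .no .no .no (.de 41)) .no .no) .no (.de 44) .no)) (.de 42) .no .no) .no) .no .no .no) .no)) .no .no) .no)) .no (.br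 .no .no (.br (.br .no (.sw 2 3 [24]) (.br .no .no .no (.br (.br .no (.br (.br .no (.br .no .no .no (.br (.sw 1 2 [31]) (.br .no .no (.br .no .no .no (.br .no .no (.de 47) .no)) .no) .no .no)) .no (.br .no (.br (.br .no (.sw 2 3 [24,31,32]) (.br .no .no .no (.br .no .no (.de 47) .no)) .no) .no .no .no) .no .no)) (.br .no .no .no (.br .no (.br (.br .no (.sw 2 3 [24,31,32]) (.br .no .no .no (.br (.sw 1 2 [21,34]) .no (.de 47) .no)) .no) .no .no .no) .no .no)) .no .no) .no .no) .no (.br (.sw 1 2 [21]) (.br (.br .no (.br .no .no .no (.br (.sw 1 2 [31]) (.br (.br .no .no .no (.br .no .no (.de 47) .no)) .no .no .no) .no .no)) .no (.br .no (.br (.br .no (.br (.sy 37 225 3) .no .no (.de 46)) .no .no) .no .no .no) .no .no)) (.br .no .no .no (.br .no (.br (.br .no (.br (.sy 37 225 3) .no .no (.de 46)) .no .no) .no .no .no) .no .no)) .no .no) .no .no) .no)) .no) .no .no .no) .no))) .no .no) .no (.br (.br .no (.br .no (.br .no .no (.br (.br .no (.br .no .no .no (.br .no .no (.br (.br (.br .no (.br .no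 .no (.br (.br .no (.br .no .no .no (.de 46)) .no .no) .no .no .no) (.br (.br .no (.br .no .no .no (.de 46)) .no .no) .no (.de 44) .no)) .no (.br .no .no (.de 43) .no)) .no .no (.br .no (.br .no .no (.br (.br .no (.br .no .no .no (.de 46)) .no .no) .no .no .no) (.br (.br .no (.br .no .no .no (.de 46)) .no .no) .no (.de 44) .no)) .no .no)) .no .no (.br (.br .no (.br .no .no (.br (.br .no (.br (.br .no .no (.de 48) .no) .no .no .no) .no .no) .no .no .no) (.br (.br .no (.br (.br .no .no (.de 48) .no) .no .no .no) .no .no) .no (.de 44) .no)) .no (.br .no .no (.de 43) .no)) .no .no (.br .no (.br .no .no (.br (.br .no (.br (.br .no .no (.br .no .no (.br .no .no .no (.de 44)) .no) .no) .no .no .no) .no .no) .no .no .no) (.br (.br .no (.br (.br .no .no (.br .no .no (.de 43) .no) .no) .no .no .no) .no .no) .no (.de 44) .no)) .no .no))) .no)) .no .no) .no .no .no) (.br (.br .no (.br .no .no .no (.br .no .no (.br (.br (.br .no (.sw 2 3 [29]) (.br .no .no .no (.de 43)) .no) .no (.br .no (.de 42) .no .no)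 .no) .no .no (.br (.br .no (.sw 2 3 [29]) (.br .no .no .no (.de 43)) .no) .no (.br .no (.de 42) .no .no) .no)) .no)) .no .no) .no (.br (.br .no (.br .no .no (.br (.br (.br .no (.br .no .no .no (.br .no .no (.de 44) .no)) .no .no) .no (.br (.br .no (.br .no .no (.br (.br .no (.br .no .no .no (.br .no (.br .no .no (.br .no .no .no (.br .no (.br .no .no .no (.br .no .no (.br (.sw 2 3 [6]) .no .no .no) .no)) .no .no)) (.de 44)) .no .no)) .no (.de 41)) .no .no (.br .no (.de 46) .no .no)) (.br (.br .no (.br .no .no .no (.br .no (.br .no .no (.de 44) (.br .no .no (.br .no (.sw 2 3 [38,43,44]) .no .no) .no)) .no .no)) .no (.de 41)) .no .no .no)) .no (.br .no .no (.de 44) .no)) (.de 42) .no .no) .no) .no .no (.br (.br .no (.br .no .no .no (.br .no .no (.de 44) .no)) .no .no) .no (.br (.br .no (.br .no .no (.br (.br .no (.br (.de 48) .no .no .no) .no .no) .no .no (.br (.de 41) (.de 46) .no .no)) (.br (.br .no (.br (.de 48) .no .no .no) .no .no) .no .no .no)) .no (.br .no .no (.de 44) .no)) (.de 42)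 .no .no) .no)) (.br (.br (.br .no (.br .no .no .no (.br .no .no (.de 44) .no)) .no .no) .no (.br (.br .no (.br .no .no (.br (.br .no (.sw 2 3 [33]) (.br .no .no .no (.de 47)) .no) .no .no .no) (.br (.br .no (.sw 2 3 [33]) (.br .no .no .no (.de 47)) .no) .no (.br .no (.br .no .no .no (.br .no (.br .no .no (.de 44) (.br .no .no (.br .no (.br .no .no .no (.sw 0 2 [39])) .no .no) .no)) .no .no)) .no .no) .no)) .no (.br .no .no (.de 44) .no)) (.de 42) .no .no) .no) .no .no .no)) .no (.br .no .no (.br (.br (.br .no (.br .no .no .no (.br .no (.br (.br .no (.br .no .no (.de 48) (.sy 36 114 6)) .no (.br .no .no (.de 47) .no)) .no .no .no) (.de 44) .no)) .no .no) .no (.br (.br .no (.br .no .no (.br (.sw 1 3 [32]) (.br .no .no .no (.de 41)) .no .no) .no) .no (.br .no (.br (.br .no (.br .no .no .no (.br .no (.br .no .no (.de 44) .no) .no .no)) .no (.de 41)) .no .no .no) (.de 44) .no)) (.de 42) .no .no) .no) .no .no (.br (.br .no (.br .no .no .no (.br .no (.br (.br .no (.br .no .no (.de 48) .no) .no .no)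 .no .no .no) (.de 44) .no)) .no .no) .no (.br (.br .no (.br .no .no (.br (.sw 1 3 [32]) (.sy 32 27 7) .no .no) .no) .no (.br .no (.br (.br .no (.br (.de 48) .no .no .no) .no .no) .no .no .no) (.de 44) .no)) (.de 42) .no .no) .no)) .no)) (.br .no .no .no (.br .no .no (.br (.br (.br .no (.br (.br .no .no (.br (.br .no (.br .no .no (.de 48) (.br .no .no (.de 48) .no)) .no (.br .no .no (.de 47) .no)) (.br .no .no .no (.de 46)) .no .no) .no) .no .no (.sw 0 2 [30])) .no .no) .no (.br (.br .no .no .no (.br (.br .no (.br .no .no .no (.de 41)) .no .no) .no (.de 44) .no)) (.de 42) .no .no) .no) .no .no (.sy 32 27 6)) .no)) .no .no) .no)) .no (.br .no .no (.br (.br .no (.br .no .no .no (.br .no .no (.br (.br (.br .no (.br .no .no (.br (.br .no (.br .no .no .no (.de 46)) .no .no) .no .no .no) (.br (.br .no (.br .no .no .no (.de 46)) .no .no) .no (.de 44) .no)) .no (.br .no .no (.de 43) .no)) (.br .no .no .no (.br .no .no (.de 43) .no)) .no .no) .no .no .no) .no)) .no .no) .no .no .no) .no)) .no (.br .no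 (.br .no .no (.br (.br .no (.br .no .no .no (.br .no (.br (.br (.br .no (.br .no .no (.br (.br .no .no (.br .no .no .no (.br .no .no (.de 47) .no)) .no) .no .no .no) (.br (.br .no .no (.br .no .no .no (.br .no .no (.de 47) .no)) .no) .no (.de 44) .no)) .no (.br .no .no (.de 43) .no)) .no .no (.br .no (.br .no .no (.br (.br .no .no (.br .no .no .no (.br .no .no (.de 47) .no)) .no) .no .no .no) (.br (.br .no .no (.br .no .no .no (.br .no .no (.de 47) .no)) .no) .no (.de 44) .no)) .no .no)) .no .no .no) (.br (.sw 1 3 [27]) .no .no .no) .no)) .no .no) .no .no .no) (.br (.br .no (.br .no .no .no (.br .no (.br (.sy 31 114 6) .no .no .no) (.br (.sw 1 3 [27]) .no .no .no) .no)) .no .no) .no (.br (.br .no (.br .no .no (.br (.sw 1 3 [27]) .no .no .no) .no) .no (.br .no (.br (.br (.br .no (.br .no .no .no (.br .no (.br (.br .no .no (.br .no .no .no (.de 47)) (.br .no .no (.de 47) .no)) .no (.br .no .no .no (.br .no .no (.de 47) .no)) .no) (.de 44) .no)) .no .no) .no (.br (.br .no (.br .no .no (.br (.br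 .no .no (.sw 1 3 [27,32,33]) (.de 41)) .no .no .no) .no) .no (.br .no (.br (.br .no .no (.br .no .no .no (.de 47)) (.de 41)) .no (.br .no .no .no (.de 41)) .no) (.de 44) .no)) (.de 42) .no .no) .no) .no .no .no) (.br (.sw 1 3 [27]) .no .no .no) .no)) (.br .no .no .no (.br .no (.br (.br (.br .no (.br (.br .no .no (.br (.br .no .no (.sy 37 216 3) (.br .no .no (.de 47) .no)) .no .no .no) .no) .no .no (.sw 0 2 [30])) .no .no) .no (.br (.br .no .no .no (.br (.sy 31 114 7) .no (.de 44) .no)) (.de 42) .no .no) .no) .no .no .no) (.br (.sw 1 3 [27]) .no .no .no) .no)) .no .no) .no)) .no (.br .no .no (.br (.br .no (.br .no .no .no (.br .no (.br (.sw 1 2 [21]) .no .no .no) (.br (.sw 1 2 [21]) (.br (.br .no (.br .no .no (.br (.br .no (.br (.br .no .no (.de 48) .no) .no .no (.de 46)) .no .no) .no .no .no) (.br (.br .no (.br (.br .no .no (.de 48) .no) .no .no (.de 46)) .no .no) .no (.de 44) .no)) .no (.br .no .no (.de 43) .no)) (.br .no .no .no (.br .no .no (.de 43) .no)) .no .no) .no .no) .no)) .no .no)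 .no .no .no) .no))) (.br .no .no .no (.br .no (.br .no .no (.br (.br .no (.br (.br .no .no (.br (.sy 30 228 6) .no .no .no) .no) .no .no (.sw 0 2 [25])) .no .no) .no .no .no) (.br (.br .no (.br (.br .no .no (.br (.br (.br .no (.sw 2 3 [29]) (.br .no .no .no (.de 43)) .no) .no (.br .no (.de 42) .no .no) .no) .no .no .no) .no) .no .no (.sw 0 2 [25])) .no .no) .no (.br (.br .no .no .no (.br (.de 34) .no (.sw 0 1 [26]) .no)) (.br (.br .no .no (.br (.br (.br .no (.br (.br .no .no (.br .no (.br .no .no .no (.de 46)) .no (.br .no (.de 46) .no .no)) (.br .no (.de 45) .no .no)) .no .no (.sw 0 2 [30])) .no .no) .no (.br (.br .no .no .no (.br .no .no (.de 44) .no)) (.de 42) .no .no) .no) .no .no .no) .no) .no .no (.sw 0 2 [25])) .no .no) .no)) .no (.br .no .no (.br (.br .no (.br (.br .no .no (.br (.sw 1 2 [21]) (.br (.br .no (.br .no .no (.br .no .no .no (.de 44)) (.br .no .no (.de 44) .no)) .no (.br .no .no (.de 43) .no)) (.br .no .no .no (.br .no .no (.de 43) .no)) .no .no) .no .no) .no) .no .no (.sw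 0 2 [25])) .no .no) .no .no .no) .no))) .no .no) .no)

def c5_4_1 : Cert := (.br .no (.br (.br .no (.br .no .no (.br (.br .no (.br .no .no .no (.br .no .no (.br .no .no .no (.br (.br .no (.br .no .no (.br (.de 34) .no .no .no) (.br (.de 34) .no (.br (.br (.br .no (.br .no .no (.br (.br .no (.br .no .no .no (.de 46)) .no .no) .no .no .no) (.br (.br .no (.br .no .no .no (.de 46)) .no .no) .no (.de 44) .no)) (.br .no .no .no (.de 43)) .no) (.br .no .no (.de 42) .no) .no .no) .no .no .no) .no)) .no (.br .no .no (.br (.de 34) .no .no .no) .no)) .no .no .no)) (.br .no .no (.br (.br .no (.br .no .no (.br (.br .no .no (.br (.br .no (.br .no .no (.br (.br .no (.br .no .no .no (.de 46)) .no (.sy 32 141 7)) .no .no (.de 44)) (.br (.br .no (.br .no .no .no (.de 46)) .no (.sy 32 141 7)) .no .no .no)) .no (.br .no .no (.de 43) .no)) (.br .no .no .no (.br .no .no (.de 43) .no)) .no .no) .no) .no .no .no) (.br (.br .no .no (.br (.br .no (.br .no .no (.br (.br .no (.sw 2 3 [32]) (.br .no (.de 41) .no (.br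 .no (.br .no .no (.de 48) .no) .no .no)) .no) .no .no .no) (.br (.br .no (.sw 2 3 [32]) (.br .no (.de 41) .no (.br .no (.br .no .no (.de 43) .no) .no .no)) .no) .no (.de 44) .no)) .no (.br .no .no (.de 43) .no)) (.br .no .no .no (.br .no .no (.de 43) .no)) .no .no) .no) .no (.br (.br (.br .no (.br .no .no (.br (.br .no (.br .no .no .no (.de 46)) .no .no) .no .no .no) (.br (.br .no (.br .no .no .no (.de 46)) .no .no) .no (.de 44) .no)) .no (.br .no .no (.de 43) .no)) (.br .no .no .no (.br .no .no (.de 43) .no)) .no .no) .no .no .no) .no)) .no (.br .no .no (.br (.br .no .no (.sy 32 141 6) .no) .no .no .no) .no)) .no .no (.br .no (.br .no .no (.br (.br .no .no (.sy 34 78 3) .no) .no .no .no) (.br (.br .no .no (.sy 34 78 3) .no) .no (.br (.br (.br .no (.br (.br .no .no (.br (.br .no (.br .no .no (.de 48) .no) .no (.br .no (.sy 41 225 3) (.de 47) .no)) (.br .no .no .no (.de 46)) .no .no) .no) .no (.sw 0 3 [30]) .no) .no .no) (.sy 28 27 7) .no .no) .no .no .no) .no)) .no .no)) .no))) .no .no) .no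 .no .no) (.br (.br .no (.br .no .no .no (.sy 26 114 6)) .no .no) .no (.br (.br .no .no .no (.br .no .no (.br .no .no .no (.br (.br .no (.br .no .no .no (.br .no (.br (.br (.br .no (.br .no .no (.br (.br .no .no (.br .no .no .no (.br .no (.br .no .no (.de 48) .no) .no .no)) .no) .no .no .no) (.br (.br .no .no (.br .no .no .no (.br .no (.br .no .no (.de 43) .no) .no .no)) .no) .no (.de 44) .no)) (.br .no .no .no (.de 43)) .no) (.br .no .no (.de 42) .no) .no .no) .no .no .no) (.br (.br (.br .no (.br .no .no (.br (.br .no (.br .no .no .no (.de 46)) .no .no) .no .no .no) (.br (.br .no (.br .no .no .no (.de 46)) .no .no) .no (.de 44) .no)) (.br .no .no .no (.de 43)) .no) (.br .no .no (.de 42) .no) .no .no) .no .no .no) .no)) .no .no) .no (.br (.br .no (.br .no .no (.br (.br (.br .no (.br .no .no .no (.br .no .no (.de 44) .no)) .no .no) (.br (.br .no (.br .no .no (.br (.br .no (.br .no .no .no (.br .no .no (.br .no .no .no (.de 44)) .no)) .no (.de 41)) .no .no (.br .no (.de 46) .no .no)) (.br (.br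 .no (.br .no .no .no (.sy 40 114 6)) .no (.de 41)) .no .no .no)) .no (.br .no .no (.de 44) .no)) .no .no .no) .no .no) .no .no .no) .no) .no (.br .no (.br (.br (.br .no (.br .no .no .no (.br .no (.br (.br .no .no (.br .no (.br .no .no (.de 43) .no) .no (.de 47)) (.br .no (.sy 41 177 6) .no .no)) .no (.br .no .no .no (.br .no (.br .no .no (.de 43) .no) .no .no)) .no) (.de 44) .no)) .no .no) (.br (.br .no (.br .no .no (.br (.br .no .no (.br .no .no .no (.de 47)) (.de 41)) .no .no .no) .no) .no (.br .no (.br (.br .no .no (.br .no .no .no (.de 47)) (.de 41)) .no (.br .no .no .no (.de 41)) .no) (.de 44) .no)) .no .no .no) .no .no) .no .no .no) (.br (.sy 33 141 6) .no .no .no) .no)) (.br .no .no .no (.br .no (.br (.br (.br .no (.br (.br .no .no (.br (.br .no .no (.sy 37 216 3) (.br .no (.sy 41 225 3) .no .no)) .no .no .no) .no) .no .no (.sw 0 2 [30])) .no .no) (.br (.br .no .no .no (.br (.br .no .no (.br .no .no .no (.de 41)) .no) .no (.de 44) .no)) .no .no .no) .no .no) .no .no .no) (.br (.br (.br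 .no (.br (.br .no .no (.br (.br .no (.br .no .no .no (.br .no .no (.de 48) .no)) .no (.sw 1 2 [33])) (.br .no .no .no (.de 46)) .no .no) .no) .no .no (.sw 0 2 [30])) .no .no) (.br (.br .no .no .no (.br (.br .no (.br .no .no .no (.de 41)) .no .no) .no (.de 44) .no)) .no .no .no) .no .no) .no .no .no) .no)) .no .no) .no)) (.br .no .no (.br (.br .no (.br .no .no .no (.br .no (.br (.br (.br .no (.br .no .no (.br (.br .no .no (.br .no .no .no (.br .no (.sw 2 3 [28,29]) (.de 47) .no)) .no) .no .no .no) (.br (.br .no .no (.br .no .no .no (.br .no (.sw 2 3 [28,29]) (.de 47) .no)) .no) .no (.de 44) .no)) .no (.br .no .no (.de 43) .no)) (.br .no .no .no (.br .no .no (.de 43) .no)) .no .no) .no (.br (.br .no (.br .no .no (.br (.br .no .no (.br (.sy 37 201 3) .no .no (.br .no (.sw 0 2 [34]) .no .no)) .no) .no .no .no) (.br (.br .no .no (.br (.br .no (.sy 40 228 3) .no .no) .no .no (.br .no (.sw 0 2 [34]) .no .no)) .no) .no (.de 44) .no)) .no (.br .no .no (.de 43) .no)) (.br .no .no .no (.br .no .no (.de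 43) .no)) .no .no) .no) (.br (.br (.br .no (.br .no .no (.br (.br .no (.br .no .no .no (.de 46)) .no .no) .no .no .no) (.br (.br .no (.br .no .no .no (.de 46)) .no .no) .no (.de 44) .no)) .no (.br .no .no (.de 43) .no)) (.br .no .no .no (.br .no .no (.de 43) .no)) .no .no) .no .no .no) .no)) .no .no) .no .no .no) .no))) (.br .no .no .no (.br .no .no (.br .no .no .no (.br (.br .no (.br (.br .no .no (.br (.sy 32 216 3) .no .no .no) .no) .no .no (.sw 0 2 [25])) .no .no) .no (.br (.br .no .no .no (.br (.de 34) .no (.sw 0 1 [26]) .no)) (.br (.br .no .no (.br (.sy 32 216 3) .no .no .no) .no) .no .no (.sw 0 2 [25])) .no .no) .no)) (.br .no .no (.br (.br .no (.br (.br .no .no (.br (.br (.br .no (.br .no .no (.br .no .no .no (.de 44)) (.br .no .no (.de 44) .no)) .no (.br .no .no (.de 43) .no)) (.br .no .no .no (.br .no .no (.de 43) .no)) .no .no) .no .no .no) .no) .no .no (.sw 0 2 [25])) .no .no) .no .no .no) .no))) .no .no) .no)) .no (.br .no .no (.br (.br .no (.br .no .no .no (.br .no .no (.br .no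 (.br (.br .no (.br .no .no (.br (.de 34) .no .no .no) (.br (.de 34) .no (.br (.br (.br .no .no (.sw 1 3 [23,29]) (.br .no .no (.de 43) .no)) .no .no (.br .no .no (.br .no .no .no (.de 43)) .no)) .no .no .no) .no)) .no (.br .no .no (.br (.de 34) .no .no .no) .no)) .no .no .no) .no .no) (.br .no (.br (.br .no (.br .no .no (.br (.br .no .no (.br (.br .no .no (.br .no .no .no (.de 43)) (.br .no .no (.de 43) .no)) .no (.br .no .no .no (.br .no .no (.de 43) .no)) .no) .no) .no .no .no) (.br (.br .no .no (.br (.br .no .no (.br .no .no .no (.de 43)) (.br .no .no (.de 43) .no)) .no (.br .no .no .no (.br .no .no (.de 43) .no)) .no) .no) .no (.br (.br (.br .no .no (.br .no .no .no (.de 43)) (.br .no .no (.de 43) .no)) .no (.br .no .no .no (.br .no .no (.de 43) .no)) .no) .no .no .no) .no)) .no (.br .no .no (.br (.br .no .no (.br (.br .no .no (.br .no (.br (.br .no (.br .no .no .no (.de 46)) .no (.br .no (.de 41) .no .no)) .no .no .no) .no .no) (.br .no (.br (.br .no (.br .no .no .no (.de 46)) .no (.br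 .no (.de 41) .no .no)) .no .no .no) (.de 43) .no)) .no (.br .no .no .no (.br .no (.br (.br .no (.br .no .no .no (.de 46)) .no (.br .no (.de 46) .no .no)) .no .no .no) (.de 43) .no)) .no) .no) .no .no .no) .no)) .no .no .no) (.br (.sw 1 3 [23]) (.br .no .no .no (.br .no .no (.br (.br .no .no (.br (.br .no .no .no (.br (.br .no (.br .no .no .no (.de 45)) .no .no) .no (.de 43) .no)) (.br (.br .no .no (.br (.sw 1 3 [23,30,31]) (.br .no .no .no (.de 45)) .no .no) .no) .no .no (.br (.br .no (.br .no .no .no (.de 45)) .no .no) .no (.de 43) .no)) .no .no) .no) .no .no .no) .no)) .no .no) .no))) .no .no) .no .no .no) .no)) .no .no .no) (.br (.br .no (.br .no .no (.br (.br .no (.br .no .no .no (.br .no (.br .no .no (.br (.br .no (.br .no .no (.br (.de 34) .no .no .no) (.br (.de 34) .no (.br (.br (.br .no (.br .no .no (.br (.br .no (.br .no .no .no (.de 46)) .no .no) .no .no .no) (.br (.br .no (.br .no .no .no (.de 46)) .no .no) .no (.de 44) .no)) .no (.br .no .no (.de 43) .no)) .no .no (.br .no (.br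 .no .no (.br (.br .no (.br .no .no .no (.de 46)) .no .no) .no .no .no) (.br (.br .no (.br .no .no .no (.de 46)) .no .no) .no (.de 44) .no)) .no .no)) .no .no .no) .no)) .no (.br .no .no (.br (.de 34) .no .no .no) .no)) .no .no (.br .no (.br .no .no (.br (.de 34) .no .no .no) (.br (.de 34) .no (.br (.br (.br .no (.br (.br .no .no (.br (.br .no (.br .no .no (.de 48) (.br .no .no (.de 48) .no)) .no (.br .no .no (.de 47) .no)) (.br .no .no .no (.de 46)) .no .no) .no) .no (.sw 0 3 [30]) .no) .no .no) .no .no (.br (.br .no .no (.br (.br .no (.br .no .no .no (.de 46)) .no .no) .no .no .no) .no) (.br (.br .no .no (.br (.br .no (.br .no .no (.br .no .no (.br .no .no .no (.de 44)) .no) .no) .no (.br .no .no (.de 47) .no)) (.br .no .no .no (.de 46)) .no .no) .no) .no (.sw 0 3 [30]) .no) .no .no)) .no .no .no) .no)) .no .no)) (.br (.br .no (.br .no .no (.br (.de 34) .no .no .no) (.br (.de 34) .no (.br (.br (.br .no (.sw 2 3 [29]) (.br .no .no .no (.de 43)) .no) .no (.br .no (.de 42) .no .no) .no) .no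 .no .no) .no)) .no (.br .no .no (.br (.de 34) .no .no .no) .no)) .no .no .no)) .no (.br .no .no (.br (.br .no (.br .no .no (.br (.br .no (.br (.br .no (.br .no .no (.br (.br .no (.br .no .no (.de 41) (.de 46)) .no (.br .no .no (.de 41) .no)) .no .no (.de 44)) (.br (.br .no (.br .no .no (.de 41) (.de 46)) .no (.br .no .no (.de 41) .no)) .no .no .no)) .no (.br .no .no (.de 43) .no)) (.br .no .no .no (.br .no .no (.de 43) .no)) .no .no) .no .no) .no .no .no) (.br (.br .no (.br (.br .no (.br .no .no (.br (.br .no (.sw 2 3 [32]) (.br .no .no .no (.br .no .no (.de 47) .no)) .no) .no .no .no) (.br (.br .no (.sw 2 3 [32]) (.br .no .no .no (.br .no .no (.de 47) .no)) .no) .no (.de 44) .no)) .no (.br .no .no (.de 43) .no)) (.br .no .no .no (.br .no .no (.de 43) .no)) .no .no) .no .no) .no (.br (.sw 1 2 [21]) (.br (.br .no (.br .no .no (.br (.br .no (.br (.br .no .no (.de 48) .no) .no .no (.de 46)) .no .no) .no .no .no) (.br (.br .no (.br (.br .no .no (.de 48) .no) .no .no (.de 46)) .no .no) .no (.de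 44) .no)) .no (.br .no .no (.de 43) .no)) (.br .no .no .no (.br .no .no (.de 43) .no)) .no .no) .no .no) .no)) .no (.br .no .no (.br (.br .no (.br (.br .no (.br .no .no (.br (.sw 1 3 [31]) (.br .no .no .no (.de 45)) .no .no) .no) .no (.br .no (.br (.br .no (.br .no .no (.de 41) (.de 46)) .no (.br .no .no (.de 41) .no)) .no .no .no) (.de 43) .no)) (.br .no .no .no (.br .no (.br (.br .no (.br .no .no (.br (.br .no .no (.de 43) .no) .no .no .no) (.de 46)) .no (.br .no .no (.br (.br .no .no (.de 43) .no) .no .no .no) .no)) .no .no .no) (.de 43) .no)) .no .no) .no .no) .no .no .no) .no)) .no .no (.br .no (.br .no .no (.br (.br .no (.br (.br .no (.br (.br .no .no .no (.br .no (.de 45) .no .no)) .no (.sw 0 3 [30]) .no) .no .no) (.br (.br .no .no (.br (.br .no (.br .no .no (.br (.sy 41 228 6) .no .no .no) (.de 46)) .no (.br .no .no (.br (.br .no .no (.de 48) .no) .no .no .no) .no)) .no .no (.de 44)) .no) .no .no .no) .no .no) .no .no) .no .no .no) (.br (.br .no (.br (.br .no (.br (.br .no .no (.br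 .no (.br .no .no (.de 41) (.de 46)) .no .no) .no) .no (.sw 0 3 [30]) .no) .no .no) (.br (.br .no .no (.br (.br .no (.sw 2 3 [32]) (.sy 36 216 3) .no) .no .no .no) .no) .no .no .no) .no .no) .no .no) .no (.br (.sw 1 2 [21]) (.sy 28 27 6) .no .no) .no)) .no .no)) .no))) .no .no) .no .no .no) c5_4_0) .no (.br .no .no (.br (.br .no (.br .no .no .no (.br .no (.br .no .no (.br (.sw 1 3 [23]) (.br .no .no .no (.br .no .no (.br (.de 34) .no .no .no) .no)) .no .no) .no) .no (.br .no (.br (.br .no (.br .no .no (.br (.br .no (.br (.br .no .no (.br .no .no .no (.de 43)) (.br .no .no (.de 43) .no)) .no (.br .no .no .no (.br .no .no (.de 43) .no)) .no) .no .no) .no .no .no) (.br (.br .no (.sy 34 114 6) .no .no) .no (.br (.sw 1 2 [21]) (.br (.br .no .no (.br .no .no .no (.de 43)) (.br .no .no (.de 43) .no)) .no (.br .no .no .no (.br .no .no (.de 43) .no)) .no) .no .no) .no)) .no (.br .no .no (.br (.br .no (.br (.br .no .no (.br .no (.br (.br .no (.br .no .no (.de 41) (.de 46)) .no (.br .no .no (.de 41) .no))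 .no .no .no) .no .no) (.br .no (.br (.br .no (.br .no .no (.de 41) (.de 46)) .no (.br .no .no (.de 41) .no)) .no .no .no) (.de 43) .no)) .no (.br .no .no .no (.br .no (.br (.br .no (.br .no .no (.br (.de 48) .no .no .no) (.de 46)) .no (.br .no .no (.br (.de 48) .no .no .no) .no)) .no .no .no) (.de 43) .no)) .no) .no .no) .no .no .no) .no)) .no .no .no) (.br (.sw 1 3 [23]) (.br .no .no .no (.br .no .no (.br (.br .no (.br (.br .no .no .no (.br (.br .no (.br .no .no .no (.de 45)) .no .no) .no (.de 43) .no)) (.br (.br .no .no (.br (.sw 1 3 [23,30,31]) (.br .no .no .no (.de 45)) .no .no) .no) .no .no (.br (.br .no (.br .no .no .no (.de 45)) .no .no) .no (.de 43) .no)) .no .no) .no .no) .no .no .no) .no)) .no .no) .no))) .no .no) .no .no .no) .no)) (.br .no .no .no (.br .no .no (.br (.br .no (.br .no .no .no (.br (.br .no .no (.br (.br .no (.br .no .no (.br (.br .no (.sy 33 228 6) .no .no) .no .no .no) (.br (.br .no (.br .no (.br .no .no .no (.br .no .no (.de 43) .no)) .no (.br .no (.br .no .no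 (.br (.br .no (.sw 2 3 [32]) (.br .no .no .no (.br .no .no (.de 47) .no)) .no) .no .no .no) (.br (.br .no (.sw 2 3 [32]) (.br .no .no .no (.br .no .no (.de 47) .no)) .no) .no (.de 44) .no)) .no .no)) .no .no) .no (.br .no (.br .no (.br .no .no .no (.br .no .no (.de 43) .no)) .no (.br .no (.br .no .no (.br (.br .no (.br (.br .no .no (.br .no .no (.br .no .no .no (.de 44)) .no) .no) .no .no (.de 46)) .no .no) .no .no .no) (.br (.br .no (.br (.br .no .no (.br .no .no (.de 43) .no) .no) .no .no (.de 46)) .no .no) .no (.de 44) .no)) .no .no)) .no .no) .no)) .no (.br .no .no (.br (.br .no (.br .no (.br .no .no .no (.br .no (.br (.br .no (.br .no .no (.br .no .no .no (.de 47)) (.de 46)) .no (.br .no .no (.br .no .no .no (.de 47)) .no)) .no .no .no) (.de 43) .no)) .no (.br .no (.br .no .no (.br (.sw 1 3 [31]) (.br .no .no .no (.de 45)) .no .no) .no) .no .no)) .no .no) .no .no .no) .no)) (.br .no .no .no (.br .no .no (.br (.br .no (.br .no (.br (.br .no .no (.br (.br .no (.br .no .no (.br .no .no .no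 (.de 47)) (.de 46)) .no (.br .no .no (.br .no .no .no (.de 47)) .no)) (.br .no .no .no (.de 45)) .no .no) .no) .no .no (.br (.br .no (.br .no .no .no (.de 45)) .no .no) .no (.de 43) .no)) .no (.br (.br .no .no (.br (.br .no (.br .no .no (.de 41) (.de 46)) .no (.br .no .no (.de 41) .no)) (.br .no .no .no (.de 45)) .no .no) .no) .no .no .no)) .no .no) .no .no .no) .no)) .no .no) .no) .no .no (.br (.br .no (.br .no .no .no (.br .no .no (.br (.br .no (.br .no (.br .no .no (.de 42) (.br (.br .no (.br .no .no .no (.de 45)) .no .no) .no (.de 43) .no)) (.br .no .no .no (.br (.br .no (.br .no .no .no (.de 45)) .no .no) .no (.de 43) .no)) .no) .no .no) .no .no .no) .no)) .no .no) .no (.sw 0 1 [22]) .no))) .no .no) .no .no .no) .no)) .no .no) .no)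

theorem P5_4 : R.S 15 79099012 :=
  R.piece L hL (.br .no .no .no (.br (.br .no (.br .no .no .no (.br .no .no (.de 20) .no)) .no .no) .no (.br (.br .no (.br .no .no (.de 20) (.br .no .no c5_4_1 .no)) .no (.br .no .no (.de 20) .no)) (.br .no .no .no (.br .no .no (.de 20) .no)) .no .no) .no)) 15 79099012 1073741824 (by norm_num) (by norm_num) (by norm_num) (by decide +kernel)

def c5_5_0 : Cert := (.br (.br .no (.br .no .no (.br .no .no (.br (.br .no (.br .no .no .no (.br .no .no (.br (.br .no (.sw 0 3 [15,21]) .no (.br .no (.br .no .no (.de 42) (.br (.br .no (.br .no .no .no (.de 45)) .no .no) .no (.de 43) .no)) .no (.br .no .no (.br (.br .no (.br .no .no .no (.de 45)) .no .no) .no .no .no) .no))) .no .no (.br .no (.sw 0 3 [15,21]) .no .no)) .no)) .no .no) .no .no .no) (.br (.br .no (.br .no .no .no (.br .no .no (.br (.br .no (.br .no (.br .no .no (.de 42) (.br (.br .no (.br .no .no .no (.de 45)) .no .no) .no (.de 43) .no)) (.br .no .no .no (.br (.br .no (.br .no .no .no (.de 45)) .no .no)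 .no (.de 43) .no)) .no) .no .no) .no .no (.br .no (.br .no (.br .no .no (.de 42) (.br (.br .no (.br (.br .no .no (.br (.sw 2 3 [28]) .no .no .no) .no) .no .no .no) .no .no) .no (.de 43) .no)) (.br .no .no .no (.br (.br .no (.br (.br .no .no (.br (.de 48) .no .no .no) .no) .no .no .no) .no .no) .no (.de 43) .no)) .no) .no .no)) .no)) .no .no) .no (.br (.br .no (.br .no .no (.br (.br .no (.br (.br .no (.br .no .no (.br (.br .no (.br .no .no (.de 41) (.de 46)) .no (.br .no .no (.de 41) .no)) .no .no (.de 44)) (.br (.br .no (.br .no .no (.de 41) (.de 46)) .no (.br .no .no (.de 41) .no)) .no .no .no)) .no (.br .no .no (.de 43) .no)) (.br .no .no .no (.br .no .no (.de 43) .no)) .no .no) .no .no) .no .no (.br .no (.br (.br .no (.br .no .no (.br (.br .no (.br (.br .no .no (.de 48) .no) .no (.de 41) .no) .no .no) .no .no (.de 44)) (.br (.br .no (.br (.br .no .no (.de 48) .no) .no (.de 41) .no) .no .no) .no .no .no)) .no (.br .no .no (.de 43) .no)) (.br .no .no .no (.br .no .no (.de 43) .no)) .no .no)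 .no .no)) (.br (.br .no (.br (.br .no (.br .no .no (.br (.br .no (.sw 2 3 [32]) (.br .no .no .no (.br .no .no (.de 47) .no)) .no) .no .no .no) (.br (.br .no (.sw 2 3 [32]) (.br .no .no .no (.br .no .no (.de 47) .no)) .no) .no (.de 44) .no)) .no (.br .no .no (.de 43) .no)) (.br .no .no .no (.br .no .no (.de 43) .no)) .no .no) .no .no) .no .no .no)) .no (.br .no .no (.br (.br .no (.br (.br .no (.br .no .no (.br (.sw 1 3 [31]) (.br .no .no .no (.de 45)) .no .no) .no) .no (.br .no (.br (.br .no (.br .no .no (.de 41) (.de 46)) .no (.br .no .no (.de 41) .no)) .no .no .no) (.de 43) .no)) (.br .no .no .no (.br .no (.br (.br .no (.br .no .no (.br (.br .no .no (.de 43) .no) .no .no .no) (.de 46)) .no (.br .no .no (.br (.br .no .no (.de 43) .no) .no .no .no) .no)) .no .no .no) (.de 43) .no)) .no .no) .no .no) .no .no (.br .no (.br (.br .no (.br .no .no (.br (.sw 1 3 [31]) (.sy 31 27 7) .no .no) .no) .no (.br .no (.br (.br .no (.br (.sy 37 225 3) .no (.de 41) .no) .no .no) .no .no .no) (.de 43) .no))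 (.br .no .no .no (.br .no (.br (.br .no (.br (.sy 37 225 3) .no (.sw 0 3 [33]) .no) .no .no) .no .no .no) (.de 43) .no)) .no .no) .no .no)) .no)) (.br .no .no .no (.br .no .no (.br (.br .no (.br (.br .no .no .no (.br (.br .no (.br .no .no .no (.de 45)) .no .no) .no (.de 43) .no)) (.br (.br .no .no (.br (.br .no (.br .no .no (.br (.sy 41 228 6) .no .no .no) (.de 46)) .no (.br .no .no (.br (.br .no .no (.de 48) .no) .no .no .no) .no)) (.br .no .no .no (.de 45)) .no .no) .no) .no .no (.sw 0 2 [29])) .no .no) .no .no) .no .no (.br .no (.sy 31 27 6) .no .no)) .no)) .no .no) .no)) (.br .no .no (.br (.br .no (.br .no .no .no (.br .no .no (.br (.br .no (.sw 2 3 [27]) .no .no) .no .no .no) .no)) .no .no) .no .no .no) (.br (.br .no (.br .no .no .no (.br .no .no (.br (.br .no (.sw 2 3 [27]) (.br .no (.br .no .no (.de 42) (.br (.br .no (.br .no .no .no (.de 45)) .no .no) .no (.de 43) .no)) (.br .no .no .no (.br (.br .no (.br .no .no .no (.de 45)) .no .no) .no (.de 43) .no)) .no) .no) .no .no .no) .no))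 .no .no) .no (.br (.br .no (.br .no .no (.br (.br .no (.sw 2 3 [27]) (.br (.br .no (.br .no .no (.br (.br .no (.br .no .no .no (.de 46)) .no (.sy 32 141 7)) .no .no (.de 44)) (.br (.br .no (.br .no .no .no (.de 46)) .no (.sy 32 141 7)) .no .no .no)) .no (.br .no .no (.de 43) .no)) (.br .no .no .no (.br .no .no (.de 43) .no)) .no .no) .no) .no .no .no) (.br (.br .no (.sw 2 3 [27]) (.br (.br .no (.br .no .no (.br (.br .no (.sw 2 3 [32]) (.br .no (.de 41) .no (.br .no (.br .no .no (.de 48) .no) .no .no)) .no) .no .no .no) (.br (.br .no (.sw 2 3 [32]) (.br .no (.de 41) .no (.br .no (.br .no .no (.de 43) .no) .no .no)) .no) .no (.de 44) .no)) .no (.br .no .no (.de 43) .no)) (.br .no .no .no (.br .no .no (.de 43) .no)) .no .no) .no) .no (.br .no (.br (.br .no (.br .no .no (.br (.br .no (.br (.sw 2 3 [27,32,33]) .no .no (.de 46)) .no .no) .no .no .no) (.br (.br .no (.br (.sw 2 3 [27,32,33]) .no .no (.de 46)) .no .no) .no (.de 44) .no)) .no (.br .no .no (.de 43) .no)) (.br .no .no .no (.br .no .no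 (.de 43) .no)) .no .no) .no .no) .no)) .no (.br .no .no (.br (.br .no (.sw 2 3 [27]) (.sy 32 141 6) .no) .no .no .no) .no)) (.br .no .no .no (.br .no .no (.br (.br .no (.sw 2 3 [27]) (.br (.br .no .no .no (.br (.br .no (.br .no .no .no (.de 45)) .no .no) .no (.de 43) .no)) (.br (.br .no .no (.br (.br .no (.br .no .no .no (.de 46)) .no (.br .no (.de 46) .no .no)) (.br .no .no .no (.de 45)) .no .no) .no) .no .no (.sw 0 2 [29])) .no .no) .no) .no .no .no) .no)) .no .no) .no))) .no (.br .no .no (.br .no .no (.br (.br .no (.br .no .no .no (.br .no (.br (.br .no (.sw 0 3 [15,21]) .no (.br .no (.br .no .no (.de 42) (.br (.br .no .no (.br .no .no .no (.br .no (.de 46) (.br (.sw 1 3 [34]) .no .no .no) .no)) .no) .no (.de 43) .no)) .no (.br .no .no (.br (.br .no .no (.br .no .no .no (.br .no (.de 46) (.br (.sw 1 3 [34]) (.br .no (.br .no .no .no (.de 44)) .no .no) .no .no) .no)) .no) .no .no .no) .no))) .no .no .no) (.br (.sw 1 3 [26]) (.br .no .no .no (.br .no (.br .no .no (.de 42) (.br (.br .no (.br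 (.br .no .no (.br (.sw 1 3 [26,33,34]) .no .no .no) .no) .no .no (.de 45)) .no .no) .no (.de 43) .no)) .no (.br .no .no (.br (.br .no (.br (.br .no .no (.br (.sw 1 3 [26,33,34]) (.sw 0 3 [15,21,34]) .no .no) .no) .no .no (.de 45)) .no .no) .no .no .no) .no))) .no .no) .no)) .no .no) .no .no .no) (.br (.br .no (.br .no .no .no (.br .no (.br (.br .no (.sy 30 114 6) .no .no) .no .no .no) (.br (.sw 1 3 [26]) (.de 34) .no .no) .no)) .no .no) .no (.br (.br .no (.br .no .no (.br (.sw 1 3 [26]) (.de 34) .no .no) .no) .no (.br .no (.br (.br .no (.br (.br .no (.br .no .no (.br (.br .no .no (.sw 1 3 [26,31,32]) (.br .no .no (.de 41) .no)) .no .no .no) .no) .no (.br .no (.br (.br .no .no (.br .no .no .no (.br .no .no (.de 47) .no)) (.br .no .no (.de 41) .no)) .no (.br .no .no .no (.br .no .no (.de 41) .no)) .no) (.de 43) .no)) (.br .no .no .no (.br .no (.br (.br .no .no (.br .no .no .no (.br (.br .no .no (.de 43) .no) .no (.de 47) .no)) (.br .no .no (.br (.br .no .no (.de 43) .no) .no .no .no) .no)) .no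 (.br .no .no .no (.br .no .no (.br (.br .no .no (.de 43) .no) .no .no .no) .no)) .no) (.de 43) .no)) .no .no) .no .no) .no .no .no) (.br (.sw 1 3 [26]) (.de 34) .no .no) .no)) (.br .no .no .no (.br .no (.br (.br .no (.br (.br .no .no .no (.br (.sy 30 114 7) .no (.de 43) .no)) (.br (.br .no .no (.br (.br .no .no (.sy 36 216 3) (.br .no .no (.br (.br .no .no (.de 48) .no) .no .no .no) .no)) .no .no .no) .no) .no .no (.sw 0 2 [29])) .no .no) .no .no) .no .no .no) (.br (.sw 1 3 [26]) (.de 34) .no .no) .no)) .no .no) .no)) .no)) .no .no (.br .no (.br .no .no (.br .no .no (.br (.br .no (.br (.br .no .no (.br (.br .no (.sw 0 3 [15,21]) .no (.br .no (.br .no .no (.de 42) (.br .no .no (.de 43) .no)) .no (.br .no .no (.br .no .no .no (.de 43)) .no))) .no .no (.br .no (.sw 0 3 [15,21]) .no .no)) .no) .no .no .no) .no .no) .no .no .no) (.br (.br .no (.br (.br .no .no (.br (.br .no (.br .no (.br .no .no (.de 42) (.br .no .no (.de 43) .no)) (.br .no .no .no (.br .no .no (.de 43) .no)) .no) .no .no) .no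 .no (.br .no (.br .no (.br .no .no (.de 42) (.br .no .no (.de 43) .no)) (.br .no .no .no (.br .no .no (.de 43) .no)) .no) .no .no)) .no) .no .no .no) .no .no) .no (.br (.br .no (.br (.br .no .no .no (.br .no (.br (.br .no (.br .no .no (.br .no .no .no (.de 44)) (.br .no .no (.de 44) .no)) .no (.br .no .no (.de 43) .no)) (.br .no .no .no (.br .no .no (.de 43) .no)) .no .no) .no .no)) .no (.sw 0 3 [25]) .no) .no .no) (.br (.br .no .no (.br (.br .no (.br (.br .no .no .no (.br .no .no (.de 43) .no)) (.br (.br .no .no (.br .no (.sw 0 3 [25,31]) .no (.de 44)) (.br .no (.br .no .no .no (.de 45)) .no .no)) .no .no (.sw 0 2 [29])) .no .no) .no .no) .no .no (.br .no (.br (.br .no .no .no (.br .no .no (.de 43) .no)) (.br (.br .no .no (.br .no (.sw 0 3 [25,31]) .no (.de 44)) (.br .no (.br (.br .no .no (.br (.br .no .no (.de 43) .no) .no .no .no) .no) .no .no .no) .no .no)) .no .no (.sw 0 2 [29])) .no .no) .no .no)) .no) .no .no .no) .no .no) .no)) (.br .no .no (.br (.br .no (.br (.br .no .no (.br (.br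 .no (.sw 2 3 [27]) .no .no) .no .no .no) .no) .no .no .no) .no .no) .no .no .no) (.br (.br .no (.br (.br .no .no (.br (.br .no (.sw 2 3 [27]) (.sy 31 216 3) .no) .no .no .no) .no) .no .no .no) .no .no) .no (.br (.br .no (.br (.br .no .no (.br .no (.br (.br .no (.br .no .no (.br .no .no .no (.de 44)) (.br .no .no (.de 44) .no)) .no (.br .no .no (.de 43) .no)) (.br .no .no .no (.br .no .no (.de 43) .no)) .no .no) .no .no) .no) .no (.sw 0 3 [25]) .no) .no .no) (.br (.br .no .no (.br (.br .no (.sw 2 3 [27]) (.sy 31 216 3) .no) .no .no .no) .no) .no .no .no) .no .no) .no))) .no .no))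

def c5_5_1 : Cert := (.br .no .no (.br (.br (.br .no (.br .no .no .no (.br .no .no c5_5_0 .no)) .no .no) .no (.br (.br .no (.br .no .no (.br (.br .no (.br .no .no .no (.br .no (.br .no .no (.sw 0 3 [15,22]) (.br (.br .no (.br .no .no (.br (.de 34) .no .no .no) (.br (.de 34) .no (.br (.br (.br .no (.sw 2 3 [29]) (.br .no .no .no (.de 43)) .no) .no (.br .no (.de 42) .no .no) .no) .no .no .no) .no)) .no (.br .no .no (.br (.de 34) .no .no .no) .no)) .no .no .no)) .no (.br .no .no (.br (.br .no (.br .no .no (.br (.br .no (.br (.br .no (.br .no .no (.br (.br .no (.br .no .no (.de 41) (.de 46)) .no (.br .no .no (.de 41) .no)) .no .no (.de 44)) (.br (.br .no (.br .no .no (.de 41) (.de 46)) .no (.br .no .no (.de 41) .no)) .no .no .no)) .no (.br .no .no (.de 43) .no)) (.br .no .no .no (.br .no .no (.de 43) .no)) .no .no) .no .no) .no .no .no) (.br (.br .no (.br (.br .no (.br .no .no (.br (.br .no (.sw 2 3 [32]) (.br .no .no .no (.br .no .no (.de 47) .no)) .no) .no .no .no) (.br (.br .no (.sw 2 3 [32])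 (.br .no .no .no (.br .no .no (.de 47) .no)) .no) .no (.de 44) .no)) .no (.br .no .no (.de 43) .no)) (.br .no .no .no (.br .no .no (.de 43) .no)) .no .no) .no .no) .no (.br (.br (.br .no (.br .no .no (.br (.br .no (.br .no .no .no (.de 46)) .no .no) .no .no .no) (.br (.br .no (.br .no .no .no (.de 46)) .no .no) .no (.de 44) .no)) .no (.br .no .no (.de 43) .no)) (.br .no .no .no (.br .no .no (.de 43) .no)) .no .no) (.br (.br .no (.br .no .no (.br (.br .no (.br (.br .no .no (.de 48) .no) .no .no (.de 46)) .no .no) .no .no .no) (.br (.br .no (.br (.br .no .no (.de 48) .no) .no .no (.de 46)) .no .no) .no (.de 44) .no)) .no (.br .no .no (.de 43) .no)) (.br .no .no .no (.br .no .no (.de 43) .no)) .no .no) .no .no) .no)) .no (.br .no .no (.br (.br .no (.br (.br .no (.br .no .no (.br (.sw 1 3 [31]) (.br .no .no .no (.de 45)) .no .no) .no) .no (.br .no (.br (.br .no (.br .no .no (.de 41) (.de 46)) .no (.br .no .no (.de 41) .no)) .no .no .no) (.de 43) .no)) (.br .no .no .no (.br .no (.br (.br .no (.br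 .no .no (.br (.br .no .no (.de 43) .no) .no .no .no) (.de 46)) .no (.br .no .no (.br (.br .no .no (.de 43) .no) .no .no .no) .no)) .no .no .no) (.de 43) .no)) .no .no) .no .no) .no .no .no) .no)) .no .no (.br .no (.br .no .no (.br (.br .no (.br (.br .no (.br (.br .no .no .no (.br .no (.de 45) .no .no)) .no (.sw 0 3 [30]) .no) .no .no) (.br (.br .no .no (.br (.br .no (.br .no .no (.br (.sy 41 228 6) .no .no .no) (.de 46)) .no (.br .no .no (.br (.br .no .no (.de 48) .no) .no .no .no) .no)) .no .no (.de 44)) .no) .no .no .no) .no .no) .no .no) .no .no .no) (.br (.br .no (.br (.br .no (.br (.br .no .no (.br .no (.br .no .no (.de 41) (.de 46)) .no .no) .no) .no (.sw 0 3 [30]) .no) .no .no) (.br (.br .no .no (.br (.br .no (.sw 2 3 [32]) (.sy 36 216 3) .no) .no .no .no) .no) .no .no .no) .no .no) .no .no) .no (.br (.br (.br .no (.br (.br .no .no (.br (.br .no (.br .no .no (.de 48) .no) .no (.br .no (.sy 41 225 3) (.de 47) .no)) (.br .no .no .no (.de 46)) .no .no) .no) .no (.sw 0 3 [30]) .no) .no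 .no) (.sy 28 27 7) .no .no) (.sy 28 27 6) .no .no) .no)) .no .no)) .no))) .no (.de 27)) .no .no (.br .no (.br .no .no .no (.br .no (.br .no .no (.sw 0 3 [15,22]) (.br (.br .no (.br (.br .no .no (.br (.br (.br .no (.sw 2 3 [29]) (.br .no .no .no (.de 43)) .no) .no (.br .no (.de 42) .no .no) .no) .no .no .no) .no) .no (.sw 0 3 [25]) .no) .no .no) .no .no .no)) .no (.br .no .no (.br (.br .no (.br (.br .no .no (.br (.br (.br .no (.br .no .no (.br .no .no .no (.de 44)) (.br .no .no (.de 44) .no)) .no (.br .no .no (.de 43) .no)) (.br .no .no .no (.br .no .no (.de 43) .no)) .no .no) (.br (.br .no (.br .no .no (.br .no .no .no (.de 44)) (.br .no .no (.de 44) .no)) .no (.br .no .no (.de 43) .no)) (.br .no .no .no (.br .no .no (.de 43) .no)) .no .no) .no .no) .no) .no (.sw 0 3 [25]) .no) .no .no) .no .no (.br (.br .no .no (.br (.br .no (.br (.br .no (.br .no .no (.br .no (.sw 0 3 [25,30,31]) .no (.de 44)) .no) .no .no) (.br (.br .no (.br .no .no .no (.br .no (.de 45) .no .no)) (.br .no (.br .no .no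 .no (.de 45)) .no (.de 44)) .no) .no .no .no) .no .no) .no .no) .no .no .no) .no) (.br (.br .no .no (.br (.br (.br .no (.br (.br .no .no (.br .no (.sw 0 3 [25,32]) .no (.br .no (.de 46) .no .no)) (.br .no (.de 45) .no .no)) .no (.sw 0 3 [30]) .no) .no .no) (.br (.br .no .no (.br .no .no .no (.de 44)) .no) .no .no .no) .no .no) (.br (.br .no (.br (.br .no .no (.br .no (.sw 0 3 [25,32]) .no (.br (.br .no .no (.de 48) .no) .no .no .no)) (.br .no (.de 45) .no .no)) .no (.sw 0 3 [30]) .no) .no .no) (.br (.br .no .no (.br .no .no .no (.de 44)) .no) .no .no .no) .no .no) .no .no) .no) .no (.sw 0 3 [25]) .no) .no .no)) .no))) .no .no)) (.br (.br .no (.br .no .no .no (.br .no (.br .no .no (.sw 0 3 [15,22]) (.br (.br .no (.sw 2 3 [24]) (.br .no .no .no (.br (.de 34) .no (.br (.br (.br .no (.sw 2 3 [29]) (.br .no (.br (.br .no (.br .no .no .no (.de 46)) .no .no) .no .no .no) .no (.de 43)) .no) .no (.br .no (.de 42) .no .no) .no) .no .no .no) .no)) .no) .no (.br .no (.br .no .no (.br (.de 34) .no .no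 .no) (.br (.de 34) .no (.br (.br (.br .no (.br (.sw 2 3 [24,29,30]) .no .no (.sw 0 2 [30])) .no .no) .no (.br (.br .no .no .no (.br (.br .no (.br .no .no .no (.de 41)) .no .no) .no (.de 44) .no)) (.de 42) .no .no) .no) .no .no .no) .no)) .no .no) .no)) .no (.br .no .no (.br (.br .no (.sw 2 3 [24]) (.br .no .no .no (.br (.br .no (.br (.br .no (.br .no .no .no (.br (.sw 1 2 [31]) (.br .no .no (.br .no .no .no (.br .no .no (.de 47) .no)) .no) .no .no)) .no (.br .no (.br (.br .no (.sw 2 3 [24,31,32]) (.br .no .no .no (.br .no .no (.de 47) .no)) .no) .no .no .no) .no .no)) (.br .no .no .no (.br .no (.br (.br .no (.sw 2 3 [24,31,32]) (.br .no .no .no (.br (.br .no .no (.de 43) .no) .no (.de 47) .no)) .no) .no .no .no) .no .no)) .no .no) .no .no) .no (.br (.sy 29 141 6) (.br (.br .no (.br .no .no .no (.br (.sw 1 2 [31]) (.br (.br .no .no .no (.br .no .no (.de 47) .no)) .no .no .no) .no .no)) .no (.br .no (.br (.br .no (.br (.sy 37 225 3) .no .no (.de 46)) .no .no) .no .no .no) .no .no)) (.br .no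 .no .no (.br .no (.br (.br .no (.br (.sy 37 225 3) .no .no (.de 46)) .no .no) .no .no .no) .no .no)) .no .no) .no .no) .no)) .no) .no .no .no) .no))) .no (.de 27)) .no .no .no)) .no (.br .no .no (.br (.br .no (.br .no .no .no (.br .no (.br .no .no (.br (.sw 1 3 [23]) (.br .no .no .no (.br .no .no (.br (.de 34) .no .no .no) .no)) .no .no) .no) .no (.br .no (.br (.br .no (.br .no .no (.br (.br .no (.br (.br .no .no (.br .no .no .no (.de 43)) (.br .no .no (.de 43) .no)) .no (.br .no .no .no (.br .no .no (.de 43) .no)) .no) .no .no) .no .no .no) (.br (.br .no (.sy 34 114 6) .no .no) .no (.br (.br (.br .no .no (.br .no .no .no (.de 43)) (.br .no .no (.de 43) .no)) .no (.br .no .no .no (.br .no .no (.de 43) .no)) .no) (.br (.br .no .no (.br .no .no .no (.de 43)) (.br .no .no (.de 43) .no)) .no (.br .no .no .no (.br .no .no (.de 43) .no)) .no) .no .no) .no)) .no (.br .no .no (.br (.br .no (.br (.br .no .no (.br .no (.br (.br .no (.br .no .no (.de 41) (.de 46)) .no (.br .no .no (.de 41) .no)) .no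 .no .no) .no .no) (.br .no (.br (.br .no (.br .no .no (.de 41) (.de 46)) .no (.br .no .no (.de 41) .no)) .no .no .no) (.de 43) .no)) .no (.br .no .no .no (.br .no (.br (.br .no (.br .no .no (.br (.de 48) .no .no .no) (.de 46)) .no (.br .no .no (.br (.de 48) .no .no .no) .no)) .no .no .no) (.de 43) .no)) .no) .no .no) .no .no .no) .no)) .no .no .no) (.br (.sw 1 3 [23]) (.br .no .no .no (.br .no .no (.br (.br .no (.br (.br .no .no .no (.br (.br .no (.br .no .no .no (.de 45)) .no .no) .no (.de 43) .no)) (.br (.br .no .no (.br (.sw 1 3 [23,30,31]) (.br .no .no .no (.de 45)) .no .no) .no) .no .no (.br (.br .no (.br .no .no .no (.de 45)) .no .no) .no (.de 43) .no)) .no .no) .no .no) .no .no .no) .no)) .no .no) .no))) .no (.de 27)) .no .no (.br .no (.br .no .no .no (.br .no (.br .no .no (.br (.sw 1 3 [23]) (.sy 23 27 7) .no .no) .no) .no (.br .no (.br (.br .no (.br (.sy 29 225 3) .no (.sw 0 3 [25]) .no) .no .no) .no .no .no) (.br (.sw 1 3 [23]) (.sy 23 27 7) .no .no) .no))) .no .no)) .no)) (.sw 0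 3 [15]) .no .no) .no) .no .no .no) (.br (.br (.br .no (.br .no .no .no (.br .no .no (.br (.br .no (.sw 2 3 [19]) (.br .no .no .no (.br .no .no (.br (.br .no (.br .no .no .no (.br .no (.br (.br .no (.sw 2 3 [19,26,27]) .no .no) .no .no .no) .no .no)) .no .no) .no .no .no) (.br (.br .no (.br .no .no .no (.br .no (.br (.br .no (.sw 2 3 [19,26,27]) (.br .no (.br .no .no (.de 42) (.br (.br .no .no (.br .no .no .no (.br .no (.de 46) .no .no)) .no) .no (.de 43) .no)) (.br .no .no .no (.br (.br .no .no (.br .no .no .no (.br .no (.de 46) .no .no)) .no) .no (.de 43) .no)) .no) .no) .no .no .no) .no .no)) .no .no) .no (.br (.br .no (.br .no .no .no (.br (.sw 1 2 [26]) (.br .no .no (.br (.br .no (.br .no .no (.br (.br .no .no (.br (.sy 37 201 3) .no .no (.sw 0 1 [33])) .no) .no .no .no) (.br (.br .no .no (.br (.br .no (.sy 40 228 3) .no .no) .no .no (.sw 0 1 [33])) .no) .no (.de 44) .no)) .no (.br .no .no (.de 43) .no)) (.br .no .no .no (.br .no .no (.de 43) .no)) .no .no) .no) .no .no)) .no (.br .no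 (.br (.br .no (.sw 2 3 [19,26,27]) (.br (.br .no (.br .no .no (.br (.br .no .no (.sw 1 3 [31,32]) (.sw 1 2 [26,32])) .no .no .no) .no) .no (.br .no (.br (.br .no .no (.br .no (.de 41) .no (.br .no (.br .no (.br .no .no (.br .no .no .no (.br .no (.de 46) .no .no)) .no) (.de 43) .no) .no .no)) (.sw 1 2 [26,32])) .no (.br .no .no .no (.br .no (.de 41) .no .no)) .no) (.de 43) .no)) (.br .no .no .no (.br .no (.br (.br .no .no (.br .no (.br (.br .no .no (.de 43) .no) .no .no .no) .no (.br (.sw 1 2 [34]) .no .no .no)) (.sw 1 2 [26,32])) .no (.br .no .no .no (.br .no (.de 46) .no .no)) .no) (.de 43) .no)) .no .no) .no) .no .no .no) .no .no)) (.br .no .no .no (.br .no (.br (.br .no (.sw 2 3 [19,26,27]) (.br (.br .no .no .no (.br (.br .no .no (.br .no .no .no (.br .no (.de 41) .no .no)) .no) .no (.de 43) .no)) (.br (.br .no .no (.br (.br .no .no (.sy 36 216 3) (.sw 1 2 [26,32])) .no .no .no) .no) .no .no (.sw 0 2 [29])) .no .no) .no) .no .no .no) .no .no)) .no .no) .no))) .no) .no .no .no) .no)) .no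 .no) .no (.br (.br .no (.br .no .no (.br (.br .no (.sw 2 3 [19]) (.br .no .no .no (.br .no (.br .no .no (.sw 0 3 [15,22]) (.br (.br .no (.br .no .no .no (.br (.de 34) (.br (.sy 31 114 6) .no .no .no) .no .no)) .no (.sy 24 141 7)) .no .no .no)) .no (.br .no .no (.br (.br .no (.br .no .no .no (.br (.sw 1 2 [26]) (.br (.br (.br .no (.br .no .no (.br (.br .no .no (.br .no .no .no (.br .no (.br .no .no (.de 48) .no) (.de 47) .no)) .no) .no .no .no) (.br (.br .no .no (.br .no .no .no (.br .no (.br .no .no (.de 43) .no) (.de 47) .no)) .no) .no (.de 44) .no)) .no (.br .no .no (.de 43) .no)) (.br .no .no .no (.br .no .no (.de 43) .no)) .no .no) .no .no .no) .no .no)) .no (.sy 24 141 7)) .no .no (.br .no (.br .no .no .no (.br (.sw 1 2 [26]) (.sy 30 54 3) .no .no)) .no .no)) .no))) .no) .no .no .no) (.br (.br .no (.sw 2 3 [19]) (.br .no .no .no (.br .no (.br .no .no (.sw 0 3 [15,22]) (.br (.br .no (.sw 2 3 [24]) (.br .no (.br (.de 34) .no .no .no) .no (.br (.de 34) (.br (.br (.br .no (.sw 2 3 [29]) (.br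 .no (.br (.br .no .no (.br .no .no .no (.br .no .no (.de 47) .no)) .no) .no .no .no) .no (.de 43)) .no) .no (.br .no (.de 42) .no .no) .no) .no .no .no) .no .no)) .no) .no (.br .no (.br .no .no .no (.br (.de 34) (.br (.br (.br .no (.br (.sw 2 3 [24,29,30]) .no .no (.sw 0 2 [30])) .no .no) .no (.br (.br .no .no .no (.br (.sy 31 114 7) .no (.de 44) .no)) (.de 42) .no .no) .no) .no .no .no) .no .no)) .no .no) .no)) .no (.br .no .no (.br (.br .no (.sw 2 3 [24]) (.br .no (.br (.br .no (.br (.br .no (.br .no .no .no (.br (.br .no .no (.br .no .no .no (.br .no .no (.de 47) .no)) (.sw 1 2 [26,31,32])) .no .no .no)) .no (.br .no (.br (.sw 2 3 [24,31]) .no .no (.br .no .no (.br .no .no .no (.br .no .no (.de 47) .no)) .no)) .no .no)) (.br .no .no .no (.br .no (.br (.sw 2 3 [24,31]) .no .no (.sy 35 114 3)) .no .no)) .no .no) .no .no) .no .no .no) .no (.br (.sw 1 2 [26]) (.br (.br (.br .no (.br .no .no .no (.br (.sw 1 2 [31]) (.br (.br .no .no (.br .no (.br .no .no (.de 43) .no) .no .no) (.sw 1 2 [26,33]))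 .no (.br .no .no .no (.br .no (.br .no .no (.de 43) .no) (.de 47) .no)) .no) .no .no)) .no (.br .no (.br (.br .no .no (.br .no .no .no (.br .no (.br .no (.br .no .no (.br .no .no .no (.br .no (.de 46) .no .no)) .no) (.de 43) .no) (.de 47) .no)) .no) .no .no .no) .no .no)) (.br .no .no .no (.br .no (.br (.br .no .no (.br .no .no .no (.br .no .no (.de 47) .no)) .no) .no .no .no) .no .no)) .no .no) .no .no .no) .no .no)) .no) .no .no .no) .no))) .no) .no (.br .no (.br .no .no .no (.br .no (.br .no .no (.sw 0 3 [15,22]) (.br (.br .no (.br (.sw 2 3 [19,24,25]) .no .no (.sw 0 2 [25])) .no .no) .no (.br (.br .no .no .no (.br (.de 34) .no (.br (.br (.br .no (.br .no .no .no (.br .no (.sw 0 2 [25,30,31]) (.de 44) .no)) .no .no) .no (.br (.br .no (.br .no .no (.br (.br .no (.br .no .no .no (.br .no (.br .no .no (.sw 0 3 [15,22,29,36]) (.de 44)) .no .no)) .no (.de 41)) (.br .no .no .no (.de 41)) .no .no) .no) .no (.br .no (.br (.br .no (.br .no .no .no (.br .no (.br .no .no (.de 44) .no) .no .no)) .no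 (.de 41)) .no .no .no) (.de 44) .no)) (.de 42) .no .no) .no) .no .no .no) .no)) (.br (.br .no .no (.br (.br (.br .no (.br (.sw 2 3 [19,24,25,29,30]) .no .no (.sw 0 2 [30])) .no .no) .no (.br (.br .no .no .no (.br .no .no (.de 44) .no)) (.de 42) .no .no) .no) .no .no .no) .no) .no .no (.sw 0 2 [25])) .no .no) .no)) .no (.br .no .no (.br (.br .no (.br (.sw 2 3 [19,24,25]) .no .no (.sw 0 2 [25])) .no .no) .no .no .no) .no))) .no .no) .no)) .no (.br .no .no (.br (.br .no (.sw 2 3 [19]) (.br .no .no .no (.sy 24 141 6)) .no) .no .no .no) .no)) (.sw 0 3 [15]) .no .no) .no) .no (.br (.br .no (.br .no .no .no (.br .no .no (.br (.br .no (.br .no .no .no (.sw 0 2 [20])) .no .no) .no .no .no) .no)) .no .no) .no (.br (.br .no (.br .no .no (.br (.br .no (.br (.sy 25 228 6) .no .no (.sw 0 1 [14])) .no .no) .no .no .no) (.br (.br .no (.br (.br .no (.br .no .no (.sw 0 3 [15,22]) (.br (.br .no (.sw 2 3 [24]) (.br .no .no .no (.br .no .no (.br .no .no .no (.sy 31 78 3)) .no)) .no) .no (.br .no (.br .no .no (.sy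 25 228 7) (.br .no .no (.br .no .no .no (.sy 32 27 6)) .no)) .no .no) .no)) .no (.br .no .no (.br (.br .no (.sw 2 3 [24]) (.br .no .no .no (.br .no .no (.br .no (.br (.br .no (.br .no .no .no (.br (.sw 1 2 [31]) (.br (.br .no .no .no (.br .no .no (.de 47) .no)) .no .no .no) .no .no)) .no (.br .no (.br (.br .no (.br (.sw 2 3 [24,31,32,33]) .no .no (.de 46)) .no .no) .no .no .no) .no .no)) (.br .no .no .no (.br .no (.br (.br .no (.br (.sw 2 3 [24,31,32,33]) .no .no (.de 46)) .no .no) .no .no .no) .no .no)) .no .no) .no .no) .no)) .no) .no .no .no) .no)) .no .no (.sw 0 1 [14])) .no .no) .no (.br (.br .no .no .no (.sw 0 1 [14])) (.br (.br .no (.br .no .no (.sw 0 3 [15,22]) (.br (.br .no (.br (.br .no .no (.br .no .no .no (.br (.br .no (.sw 2 3 [29]) (.br .no .no .no (.de 43)) .no) .no (.br .no (.de 42) .no .no) .no)) (.de 34)) .no .no (.sw 0 2 [25])) .no .no) .no (.br (.br .no .no .no (.br .no .no (.br .no .no .no (.sw 0 1 [14,26,27])) .no)) (.br (.br .no .no (.br .no .no .no (.br (.br .no (.br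 (.br .no .no (.br .no (.br (.br .no .no (.de 48) .no) .no .no .no) .no (.br (.br .no .no (.de 48) .no) (.de 46) .no .no)) (.br .no (.de 45) .no .no)) .no .no (.sw 0 2 [30])) .no .no) .no (.br (.br .no .no .no (.br .no .no (.de 44) .no)) (.de 42) .no .no) .no)) (.de 34)) .no .no (.sw 0 2 [25])) .no .no) .no)) .no (.br .no .no (.br (.br .no (.br (.br .no .no (.br .no (.br (.br .no (.br .no .no (.br .no .no .no (.de 44)) (.br .no .no (.de 44) .no)) .no (.br .no .no (.de 43) .no)) (.br .no .no .no (.br .no .no (.de 43) .no)) .no .no) .no .no) (.br .no (.br (.br .no (.br .no .no (.br .no .no .no (.de 44)) (.br .no .no (.de 44) .no)) .no (.br .no .no (.de 43) .no)) (.br .no .no .no (.br .no .no (.de 43) .no)) .no .no) .no .no)) .no .no (.sw 0 2 [25])) .no .no) .no .no .no) .no)) .no .no (.sw 0 1 [14])) .no .no) .no)) .no (.br .no .no (.br (.br .no (.br (.br .no (.br .no .no (.br (.sw 1 3 [23]) (.br .no .no .no (.br .no .no (.br .no .no .no (.de 34)) .no)) .no .no) .no) .no (.br .no (.br (.br .no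 (.br .no .no (.br .no .no .no (.br .no (.sy 33 54 3) .no .no)) (.br .no .no (.br .no (.br (.br .no .no (.br .no .no .no (.de 43)) (.br .no .no (.de 43) .no)) .no (.br .no .no .no (.br .no .no (.de 43) .no)) .no) .no .no) .no)) .no (.br .no .no (.br .no .no .no (.br .no (.sy 33 54 3) .no .no)) .no)) .no .no .no) (.br (.sw 1 3 [23]) (.br .no .no .no (.br .no .no (.br .no .no .no (.br .no (.sy 31 27 6) .no .no)) .no)) .no .no) .no)) .no .no (.sw 0 1 [14])) .no .no) .no .no .no) .no)) (.sw 0 3 [15]) .no .no) .no) .no))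

def c5_5_2 : Cert := (.br (.br .no c5_5_1 .no (.br .no .no (.br (.br (.br .no (.br .no .no .no (.br .no (.br (.br .no (.br .no .no (.br .no .no (.br (.br .no .no (.br .no .no .no (.br .no .no (.br (.br .no (.sw 0 3 [15,21]) .no (.sy 28 141 6)) .no .no (.sy 30 78 3)) .no)) .no) .no .no .no) (.br (.br .no .no (.br .no .no .no (.br .no .no (.br (.br .no (.br .no (.br .no .no .no (.br (.br .no (.br .no .no .no (.de 45)) .no .no) (.br (.br .no (.br .no .no (.br (.sw 2 3 [28]) .no .no .no) (.de 46)) .no (.br .no .no (.br (.sw 2 3 [28]) .no .no .no) .no)) .no .no .no) .no .no)) (.br .no (.de 42) .no (.br (.br .no (.br .no .no .no (.de 45)) .no .no) (.br (.br .no (.br .no .no (.br (.de 48) .no .no .no) (.de 46)) .no (.br .no .no (.br (.de 48) .no .no .no) .no)) .no .no .no) .no .no)) .no) .no .no) .no .no (.sy 30 78 3)) .no)) .no) .no (.br (.br .no .no (.br .no .no .no (.br (.br .no (.br (.br .no (.br .no .no .no (.br (.br .no (.br .no .no (.de 41) (.de 46)) (.br .no .no .no (.br .no .no (.de 47)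 .no)) .no) (.br .no .no (.br .no .no .no (.br .no .no (.de 47) .no)) .no) .no .no)) .no (.br .no (.br (.br .no (.br .no .no (.de 41) (.de 46)) (.br .no .no .no (.br .no .no (.de 47) .no)) .no) .no .no .no) .no .no)) (.br .no .no .no (.br .no (.br (.br .no (.br .no .no (.br (.br .no .no (.de 43) .no) .no .no .no) (.de 46)) (.br .no .no .no (.br (.br .no .no (.de 43) .no) .no (.de 47) .no)) .no) .no .no .no) .no .no)) .no .no) .no .no) .no .no .no)) (.br .no .no (.br (.br .no (.br (.br .no (.br .no .no (.br (.br .no (.br .no .no (.de 41) (.de 46)) .no (.br .no .no (.de 41) .no)) (.br .no .no .no (.de 45)) .no .no) .no) .no (.br .no (.br (.br .no (.sw 2 3 [31,32]) .no (.br .no .no (.de 41) .no)) .no .no .no) (.de 43) .no)) (.br .no .no .no (.br .no (.sw 0 2 [29,30]) (.de 43) .no)) .no .no) .no .no) .no .no (.br .no (.br (.br .no (.br .no .no (.br (.br .no (.br (.br .no .no (.de 48) .no) .no (.de 41) .no) .no .no) (.sy 31 27 7) .no .no) .no) .no (.br .no (.br (.br .no (.br (.sy 37 225 3) .no (.de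 41) .no) .no .no) .no .no .no) (.de 43) .no)) (.br .no .no .no (.br .no (.sw 0 2 [29,30]) (.de 43) .no)) .no .no) .no .no)) .no)) .no .no .no) .no)) (.sy 22 114 6)) .no (.br .no .no (.br .no .no (.br (.br .no .no (.br .no .no .no (.br .no (.br (.br .no (.sw 0 3 [15,21]) .no (.br .no (.br .no .no .no (.br (.br .no .no (.br .no .no .no (.br .no (.de 46) (.br (.sw 1 3 [34]) .no .no .no) .no)) .no) (.br (.br .no .no (.br .no (.br (.br .no .no (.de 43) .no) .no .no .no) .no .no) (.br .no (.de 46) (.br (.sw 1 3 [34]) .no .no .no) .no)) .no (.br .no .no .no (.br .no (.de 46) (.br (.sw 1 3 [34]) .no .no .no) .no)) .no) .no .no)) .no (.br .no (.br (.br .no .no (.br .no .no .no (.br .no (.de 46) (.br (.sw 1 3 [34]) (.br .no .no (.br .no .no .no (.de 44)) .no) .no .no) .no)) .no) .no .no .no) .no .no))) .no .no .no) (.br (.sw 1 3 [26]) (.br .no .no .no (.br .no (.br .no .no .no (.br (.br .no (.br (.br .no .no (.br (.sw 1 3 [26,33,34]) .no .no .no) .no) .no .no (.de 45)) .no .no) (.br (.br .no .no .no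 (.br (.de 41) .no (.sw 0 1 [33]) .no)) .no .no .no) .no .no)) .no (.br .no (.br (.br .no (.br (.sy 36 225 3) .no .no (.de 45)) .no .no) .no .no .no) .no .no))) .no .no) .no)) .no) .no .no .no) (.br (.br .no .no (.br .no .no .no (.br .no (.br (.br .no (.br .no (.br .no .no .no (.br (.br .no .no (.br .no .no .no (.br .no .no (.br (.sw 2 3 [28]) .no .no .no) .no)) .no) (.br (.br .no .no (.br .no .no .no (.br (.sw 2 3 [28]) .no (.de 47) .no)) (.br .no .no (.br (.sw 2 3 [28]) .no .no .no) .no)) .no (.br .no .no .no (.br .no .no (.br (.sw 2 3 [28]) .no .no .no) .no)) .no) .no .no)) (.br .no (.de 42) .no (.br (.br .no .no (.br .no .no .no (.br .no .no (.br (.de 48) .no .no .no) .no)) .no) (.br (.br .no .no (.br .no .no .no (.br (.de 48) .no .no .no)) (.br .no .no (.br (.de 48) .no .no .no) .no)) .no (.br .no .no .no (.br .no .no (.br (.de 48) .no .no .no) .no)) .no) .no .no)) .no) .no .no) .no .no .no) (.br (.sw 1 3 [26]) (.de 34) .no .no) .no)) .no) .no (.br (.br .no .no (.br .no (.br (.br .no (.br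 (.br .no (.br .no .no .no (.br (.br .no .no (.sw 1 3 [26,32]) (.br .no .no (.de 41) .no)) .no .no .no)) .no (.br .no (.br (.br .no .no (.sw 1 3 [26,32]) (.br .no .no (.de 41) .no)) .no .no (.br .no .no (.br .no .no .no (.br .no .no (.de 47) .no)) .no)) .no .no)) (.br .no .no .no (.br .no (.br (.br .no .no (.sw 1 3 [26,32]) (.br .no .no (.br (.br .no .no (.de 43) .no) .no .no .no) .no)) .no .no (.sy 35 114 3)) .no .no)) .no .no) .no .no) .no .no .no) .no .no) (.br .no (.br (.br .no (.br (.br .no (.br .no .no (.br (.br .no .no (.br .no .no .no (.br .no .no (.de 47) .no)) (.br .no .no (.de 41) .no)) .no .no .no) .no) .no (.br .no (.br (.sw 2 3 [31]) .no (.br .no .no .no (.br .no .no (.de 41) .no)) .no) (.de 43) .no)) (.br .no .no .no (.br .no (.sw 0 2 [29,30]) (.de 43) .no)) .no .no) .no .no) .no .no .no) (.br (.sw 1 3 [26]) (.de 34) .no .no) .no)) .no .no .no) .no)) .no)) .no .no .no) (.br (.sw 1 3 [18]) (.br .no .no .no (.br .no .no (.br .no .no (.br (.br .no (.br (.br .no .no (.br (.sw 1 3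 [18,25,26]) (.br .no .no .no (.br .no (.br .no .no (.de 42) (.br .no .no (.de 43) .no)) .no (.br .no .no (.br .no .no .no (.de 43)) .no))) .no .no) .no) .no .no (.br (.br .no (.br .no .no .no (.br .no (.br .no .no (.de 42) (.br (.br .no (.br .no .no (.br (.de 41) .no .no .no) (.de 45)) (.br .no .no .no (.br (.de 41) .no (.sw 0 1 [25,32,33]) .no)) .no) .no (.de 43) .no)) .no (.br .no .no (.br (.br .no (.br .no .no (.br (.br .no (.br .no (.br .no .no .no (.br .no .no (.br .no .no .no (.br .no (.br .no .no (.sw 0 3 [15,21,34,40]) (.br (.sw 2 3 [6]) .no (.sw 0 2 [48]) .no)) .no .no)) .no)) .no .no) .no .no) .no .no .no) (.de 45)) (.br .no .no .no (.br (.br .no (.br .no (.br .no .no .no (.de 44)) .no .no) .no .no) .no (.sw 0 1 [25,32,33]) .no)) .no) .no .no .no) .no))) .no .no) .no (.sw 0 1 [25]) .no)) .no .no) .no .no .no) (.br (.br .no (.br (.br .no .no (.br (.sw 1 3 [18,25,26]) (.de 34) .no .no) .no) .no .no (.br (.br .no (.de 34) .no .no) .no (.sw 0 1 [25]) .no)) .no .no) .no (.br (.br .no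 .no .no (.br (.br .no (.de 34) .no .no) .no (.sw 0 1 [25]) .no)) (.br (.br .no .no (.br (.sw 1 3 [18,25,26]) (.de 34) .no .no) .no) .no .no (.br (.br .no (.de 34) .no .no) .no (.sw 0 1 [25]) .no)) .no .no) .no)) .no)) .no .no) .no)) .no .no) .no (.br (.br .no (.br .no .no (.br (.sw 1 3 [18]) (.br .no .no .no (.de 27)) .no .no) .no) .no (.br .no (.br (.br .no (.br .no .no .no (.br .no (.br .no .no (.br (.br .no .no (.sw 1 3 [18,23,24]) (.br .no .no (.br (.de 34) .no .no .no) .no)) .no .no .no) .no) .no (.br .no (.br (.br .no .no (.br .no .no .no (.br (.br .no (.br (.br .no .no (.br .no (.br (.br .no (.br .no .no (.de 41) (.de 46)) (.br .no .no .no (.br .no .no (.de 47) .no)) .no) .no .no .no) .no (.de 43)) (.br .no (.br (.br .no (.br .no .no (.de 41) (.de 46)) (.br .no .no .no (.br .no .no (.de 47) .no)) .no) .no .no .no) .no .no)) .no (.br .no .no .no (.br .no (.br (.br .no (.br .no .no (.br (.de 48) .no .no .no) (.de 46)) (.br .no .no .no (.br (.de 48) .no .no .no)) .no) .no .no .no) .no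 .no)) .no) .no .no) .no (.br (.br (.br .no .no (.br .no (.br (.br .no (.br .no .no .no (.de 46)) .no .no) .no .no .no) .no (.de 43)) (.br .no (.br (.br .no (.br .no .no .no (.de 46)) .no .no) .no .no .no) .no .no)) .no (.br .no .no .no (.br .no (.br (.br .no (.br .no .no .no (.de 46)) .no .no) .no .no .no) .no .no)) .no) (.br (.br .no .no (.br .no (.br (.br .no (.br (.sy 37 225 3) .no .no (.de 46)) .no .no) .no .no .no) .no (.de 43)) (.br .no (.br (.br .no (.br (.sy 37 225 3) .no .no (.de 46)) .no .no) .no .no .no) .no .no)) .no (.br .no .no .no (.br .no (.br (.br .no (.br (.de 41) .no .no (.de 46)) .no .no) .no .no .no) .no .no)) .no) .no .no) .no)) (.br .no .no (.br (.br .no (.br (.br .no .no (.br .no (.br (.br .no (.sw 2 3 [31,32]) .no (.br .no .no (.de 41) .no)) .no .no .no) .no .no) (.br .no (.br (.br .no (.sw 2 3 [31,32]) .no (.br .no .no (.de 41) .no)) .no .no .no) (.de 43) .no)) .no (.br .no .no .no (.br .no (.br (.br .no (.sw 2 3 [31,32]) .no (.br .no .no (.br (.de 48) .no .no .no)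 .no)) .no .no .no) (.de 43) .no)) .no) .no .no) .no .no .no) .no)) .no (.br .no .no .no (.br .no .no (.br (.br .no (.br (.br .no .no .no (.br (.br .no (.br .no .no .no (.de 45)) .no .no) (.sw 0 2 [30]) .no .no)) .no (.br (.br .no (.br (.br .no (.sy 36 228 3) .no (.br .no .no (.br (.de 48) .no .no .no) .no)) .no .no .no) .no .no) .no .no (.br (.br .no (.br .no .no .no (.de 45)) .no .no) (.sw 0 2 [30]) .no .no)) .no) .no .no) .no .no .no) .no)) .no) (.br (.br .no .no (.sw 1 3 [18,23,24]) (.br .no .no (.br (.br .no (.br (.br .no (.br .no .no (.br (.sw 1 3 [18,23,24,31]) (.br .no .no .no (.de 45)) .no .no) .no) .no (.sw 1 2 [29])) (.br .no .no .no (.br .no (.br (.br .no (.sw 2 3 [31,32]) .no (.br .no .no (.br (.br .no .no (.de 43) .no) .no .no .no) .no)) .no .no .no) (.de 43) .no)) .no .no) .no .no) .no .no .no) .no)) .no .no .no) .no))) .no (.de 27)) .no .no .no) (.br (.sw 1 3 [18]) (.br .no .no .no (.de 27)) .no .no) .no)) (.sw 0 3 [15]) .no .no) .no) .no .no .no) .no)) (.br .no .no .no (.br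 .no .no (.br (.br (.br .no (.br (.br .no .no (.br (.br .no (.br .no .no (.sy 21 228 6) (.br .no .no (.sy 21 228 7) (.br .no .no (.br .no (.br .no .no .no (.br .no .no (.br (.br .no (.sw 2 3 [27]) (.br (.br .no .no .no (.br (.br .no (.br .no .no .no (.de 45)) .no .no) .no (.de 43) .no)) (.br (.br .no .no (.br (.br .no (.br .no .no .no (.de 46)) .no (.br .no (.de 46) .no .no)) (.br .no .no .no (.de 45)) .no .no) .no) .no .no (.br (.br .no (.br .no .no .no (.de 45)) .no .no) .no (.de 43) .no)) .no .no) .no) .no .no .no) .no)) .no (.br .no (.br .no .no (.br (.br .no (.sw 2 3 [27]) (.sy 34 78 3) .no) .no .no .no) (.br (.br .no (.sw 2 3 [27]) (.sy 34 78 3) .no) .no (.br .no (.sy 28 27 6) .no .no) .no)) .no .no)) .no))) .no (.br .no .no (.br .no .no (.br .no .no .no (.br .no (.br .no .no .no (.br .no (.sy 29 54 3) (.br (.sw 1 3 [26]) (.br .no .no .no (.sy 34 27 6)) .no .no) .no)) .no .no)) (.br .no .no (.br .no (.br .no .no .no (.br .no (.br (.br .no (.br (.br .no .no .no (.br (.sy 30 114 7) .no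 (.de 43) .no)) (.br (.br .no .no (.br (.br .no .no (.sw 1 3 [26,30,31,32]) (.br .no .no (.br (.sw 2 3 [28,29]) .no .no .no) .no)) .no .no .no) .no) .no .no (.br (.sy 30 114 7) .no (.de 43) .no)) .no .no) .no .no) .no .no .no) (.br (.sw 1 3 [26]) (.de 34) .no .no) .no)) .no (.br .no (.br .no .no (.br (.sw 1 3 [26]) (.de 34) .no .no) .no) .no .no)) .no)) .no)) (.br .no .no .no (.br .no .no (.br .no .no (.br .no .no .no (.br .no (.br (.br .no .no (.br (.br .no (.sw 0 3 [15,21]) .no (.br (.br .no .no (.br .no .no .no (.de 43)) .no) (.br (.br .no .no (.br .no (.br .no .no .no (.de 45)) .no (.de 44)) (.br .no (.br .no .no .no (.de 45)) .no .no)) .no (.de 42) .no) .no .no)) (.br .no .no .no (.br (.br .no .no (.br .no .no .no (.de 43)) .no) (.br (.br .no .no (.br .no (.br (.br .no .no (.br (.sy 39 216 6) .no .no .no) .no) .no .no (.de 45)) .no (.de 44)) (.br .no (.br (.br .no .no (.br (.br .no .no (.de 43) .no) .no .no .no) .no) .no .no (.de 45)) .no .no)) .no (.de 42) .no) .no .no)) .no .no) .no)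 .no .no (.sw 0 2 [16,23,24])) .no .no)) (.br .no .no (.br .no (.br (.br .no .no (.br (.br .no (.br (.br .no .no .no (.br .no .no (.de 43) .no)) (.br (.br .no .no (.br .no (.br .no .no .no (.de 45)) .no (.de 44)) (.br .no (.br .no .no .no (.de 45)) .no .no)) .no .no (.br .no .no (.de 43) .no)) .no .no) .no .no) (.de 34) .no .no) .no) .no .no (.br (.br .no (.de 34) .no .no) .no (.sw 0 1 [25]) .no)) .no (.br (.br .no .no (.br (.br .no (.br (.br .no (.br .no .no (.br .no (.br .no .no .no (.de 45)) .no (.de 44)) .no) .no .no) (.br (.br .no (.br .no .no .no (.br .no (.de 45) .no .no)) (.sw 1 3 [30]) .no) .no .no .no) .no .no) .no .no) (.de 34) .no .no) .no) .no .no .no)) .no)) .no)) .no .no) .no) .no .no (.sw 0 2 [16])) .no .no) .no (.br (.br .no .no .no (.br (.br .no (.br .no .no .no (.de 27)) .no .no) .no (.sw 0 1 [17]) .no)) (.sw 0 3 [15]) .no .no) .no) .no .no .no) .no)) .no .no)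

theorem P5_5 : R.S 15 347534468 :=
  R.piece L hL (.br (.br .no .no (.br (.br .no (.br .no .no (.br (.sw 2 3 [7,8]) .no .no .no) (.br (.sw 2 3 [7,8]) .no (.br .no .no (.br .no (.br .no .no .no (.br .no .no (.br (.br .no (.br (.sw 2 3 [7,8,19,20]) .no .no (.sw 0 2 [20])) .no .no) .no .no .no) .no)) .no (.br .no (.br .no .no (.br (.br .no (.br (.sw 2 3 [7,8,19,20]) .no .no (.sw 0 2 [20])) .no .no) .no .no .no) (.br (.br .no (.br (.sw 2 3 [7,8,19,20]) .no .no (.sw 0 2 [20])) .no .no) .no (.br (.br .no .no .no (.br (.br .no .no (.br (.br .no (.br .no .no .no (.br .no (.de 34) (.br .no (.sy 27 27 7) .no .no) .no)) .no .no) .no .no .no) .no) (.br (.br .no .no (.br (.br .no (.br .no .no (.br (.sy 34 228 6) .no .no .no) .no) .no (.br .no (.br (.sy 33 225 3) .no .no .no) (.br (.br .no .no (.br .no (.de 42) .no (.br .no (.br .no .no (.br (.sw 1 3 [32]) (.br .no .no .no (.de 41)) .no .no) .no) .no .no)) (.br .no (.br .no .no .no (.br .no (.sy 35 54 3) (.de 44) .no)) .no .no)) .no .no .no) .no)) (.br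 .no .no .no (.br .no (.sw 0 2 [20,25,26]) (.br (.br .no .no (.br .no (.de 42) .no (.br (.br .no .no (.br (.br .no (.br .no .no .no (.br .no (.br .no .no (.br .no .no .no (.sw 0 1 [31,37])) .no) .no .no)) .no (.de 41)) (.br .no .no .no (.de 41)) .no .no) .no) .no .no .no)) (.br .no (.br (.br .no .no (.br (.br .no (.br .no .no (.br .no .no (.br .no .no .no (.de 44)) .no) .no) .no (.sw 1 2 [33])) (.br .no .no .no (.de 46)) .no .no) .no) .no .no (.br (.br .no (.br .no .no .no (.de 46)) .no .no) .no (.de 44) .no)) .no .no)) .no .no .no) .no)) .no .no) .no) .no (.br (.br .no (.br .no .no .no (.br .no (.sw 0 2 [20,25,26]) (.br (.br (.br .no (.br .no .no (.br (.br .no (.br .no .no .no (.de 46)) .no .no) .no .no .no) (.br (.br .no (.br .no .no .no (.de 46)) .no .no) .no (.de 44) .no)) .no (.br .no .no (.de 43) .no)) .no .no (.br .no (.br .no .no (.br (.br .no (.br .no .no .no (.de 46)) .no .no) .no .no .no) (.sw 0 2 [29,30])) .no .no)) .no .no .no) .no)) .no .no) .no .no .no) .no) .no .no)) (.br (.br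 (.br .no .no (.br (.br .no (.br (.sw 2 3 [7,8,19,20,24,25]) .no .no (.sw 0 2 [25])) .no .no) .no .no .no) .no) (.br (.br .no .no (.br (.br .no .no .no (.br .no .no (.br .no .no .no (.br .no .no (.br .no (.de 42) .no (.br .no (.br .no .no (.br (.br .no (.br (.de 48) .no .no .no) .no .no) (.br (.de 41) .no .no .no) .no .no) .no) .no .no)) (.br .no (.br .no .no .no (.br .no (.sw 0 2 [25,29,30,31]) (.de 44) .no)) .no .no))) .no)) (.br (.br .no .no (.br .no .no .no (.br .no .no (.br .no (.de 42) .no (.br (.br .no .no (.br .no (.br (.de 41) .no .no .no) .no (.br (.de 41) (.de 46) .no .no)) (.br .no (.de 45) .no .no)) .no .no .no)) (.br .no (.br (.sw 2 3 [7,8,19,20,24,25,30]) .no .no (.br .no .no (.de 44) .no)) .no .no))) (.de 34)) .no .no (.sw 0 2 [25])) .no .no) .no) .no (.br (.br .no (.br (.sw 2 3 [7,8,19,20,24,25]) .no .no (.sw 0 2 [25])) .no .no) .no .no .no) .no) .no .no) .no .no (.sw 0 2 [20])) .no .no) .no)) .no .no)) (.br .no (.br .no .no .no (.br .no .no (.br (.br .no (.br (.sw 2 3 [7,8,19,20])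 .no .no .no) .no .no) .no .no .no) .no)) .no .no)) .no)) .no (.br .no .no (.br (.sw 2 3 [7,8]) .no .no .no) .no)) (.br .no .no .no (.br .no .no (.br (.sw 2 3 [7,8]) .no .no .no) .no)) .no .no) .no) .no .no (.br (.br .no (.br .no .no .no (.br .no .no (.br (.br (.br .no (.sw 2 3 [7,8,15]) (.br .no .no .no (.br (.br .no (.br .no .no .no (.br .no .no (.br .no (.br (.br .no (.sw 2 3 [7,8,15,22,23]) (.br .no .no .no (.br (.br .no (.br .no .no .no (.br .no .no (.br .no (.de 42) .no (.br (.sw 1 2 [30]) (.br .no .no (.br .no .no .no (.br (.de 41) .no (.br (.de 48) .no .no .no) .no)) .no) .no .no)) (.br .no (.br (.br .no (.sw 2 3 [7,8,15,22,23,30,31]) (.br .no .no .no (.br (.br .no .no (.br .no .no (.br .no .no .no (.de 44)) .no) .no) .no (.br (.sw 1 2 [22,28]) .no .no .no) .no)) .no) .no .no .no) .no .no))) .no .no) .no (.br (.br .no .no .no (.br .no .no (.br .no (.de 42) .no (.br (.sw 1 2 [30]) (.br (.br .no (.br .no .no (.br (.de 48) .no .no .no) .no) .no (.br .no (.de 46) (.br (.de 48) .no .no .no)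 .no)) .no .no .no) .no .no)) (.br .no (.br (.br .no (.br .no .no .no (.de 45)) .no .no) .no .no .no) .no .no))) (.br .no .no .no (.br .no .no (.br .no (.de 42) .no (.br (.sw 1 2 [30]) (.br (.br .no .no .no (.br (.de 41) .no (.sw 0 1 [33]) .no)) .no .no .no) .no .no)) (.br .no (.br (.br .no (.br (.sy 36 225 3) .no .no (.de 45)) .no .no) .no .no .no) .no .no))) .no .no) .no)) .no) .no .no .no) .no (.br (.sw 1 2 [22]) (.br .no .no (.br .no .no .no (.br (.br .no (.de 34) .no .no) .no (.br (.br .no (.br (.br .no .no .no (.br (.sw 1 2 [22,29,30]) (.br (.br .no (.br .no .no (.de 41) (.de 46)) .no (.br .no .no (.de 41) .no)) .no .no .no) .no .no)) .no (.br (.br .no (.br (.br .no (.sy 36 228 3) .no (.br .no .no (.br (.de 48) .no .no .no) .no)) .no .no .no) .no .no) .no .no (.sw 0 1 [29])) .no) .no .no) (.de 34) .no .no) .no)) .no) .no .no)) .no)) .no .no) .no (.br (.br .no (.br .no .no (.br .no (.br (.br .no (.br .no .no .no (.br .no .no (.br (.br .no .no .no (.sy 27 141 7)) .no .no (.de 34)) .no))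 .no .no) .no .no .no) .no (.br (.sw 1 2 [22]) (.br (.br .no (.br .no .no (.br (.br .no (.br (.br .no .no (.br .no .no .no (.de 43)) (.sw 1 2 [22,29])) .no (.br .no .no .no (.br .no .no (.de 43) .no)) .no) .no .no) .no .no (.br .no (.sy 33 54 3) .no .no)) (.br (.br .no (.sy 34 114 6) .no .no) .no .no .no)) .no (.br .no .no (.br (.br .no (.br (.br .no .no (.br .no (.br (.br .no (.br .no .no (.de 41) (.de 46)) .no (.br .no .no (.de 41) .no)) .no .no .no) .no .no) (.sw 1 2 [22,29])) .no (.br .no .no .no (.br .no (.br (.br .no (.br .no .no (.br (.de 48) .no .no .no) (.de 46)) .no (.br .no .no (.br (.de 48) .no .no .no) .no)) .no .no .no) (.de 43) .no)) .no) .no .no) .no .no (.br .no (.sy 33 54 3) .no .no)) .no)) .no .no .no) .no .no)) (.br .no (.br (.br .no (.br .no .no .no (.br .no .no (.br (.br .no .no (.br .no .no (.br .no .no .no (.br (.br .no (.br .no .no .no (.de 45)) .no .no) .no (.de 43) .no)) (.br .no .no (.br (.br .no (.br .no .no .no (.de 45)) .no .no) .no .no .no) .no)) .no) .no .no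 .no) .no)) .no .no) .no .no .no) .no (.br (.sw 1 2 [22]) (.br (.br .no (.br .no .no (.br (.br .no (.sw 2 3 [27]) (.br (.br .no .no (.br .no .no .no (.de 43)) (.sw 1 2 [22,29])) .no (.br .no .no .no (.br .no .no (.de 43) .no)) .no) .no) .no .no .no) (.br (.br .no (.sw 2 3 [27]) (.br (.br .no .no (.br .no .no .no (.de 43)) (.sw 1 2 [22,29])) .no (.br .no .no .no (.br .no .no (.de 43) .no)) .no) .no) .no (.br .no (.br (.br .no .no (.br .no .no .no (.de 43)) (.sw 1 2 [22,29])) .no (.br .no .no .no (.br .no .no (.de 43) .no)) .no) .no .no) .no)) .no (.br .no .no (.br (.br .no (.sw 2 3 [27]) (.br (.br .no .no (.br .no (.br (.br .no (.br .no .no .no (.de 46)) .no (.br .no (.de 41) .no .no)) .no .no .no) .no .no) (.sw 1 2 [22,29])) .no (.br .no .no .no (.br .no (.br (.br .no (.br .no .no .no (.de 46)) .no (.br .no (.de 46) .no .no)) .no .no .no) (.de 43) .no)) .no) .no) .no .no .no) .no)) .no .no .no) .no .no))) .no (.br .no .no (.sy 27 141 6) .no)) (.br .no .no .no (.br .no .no (.br .no (.br (.br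 .no (.br (.sy 28 225 3) .no .no (.sw 0 2 [24])) .no .no) .no .no .no) .no (.br (.sw 1 2 [22]) (.br (.br .no .no .no (.br (.br .no (.de 34) .no .no) .no (.sw 0 1 [25]) .no)) .no .no .no) .no .no)) .no)) .no .no) .no)) .no) .no (.br .no (.br .no .no (.br (.br .no (.br .no .no .no (.de 27)) .no .no) .no .no .no) (.br (.br .no (.br .no .no .no (.de 27)) .no .no) .no (.br (.br .no (.br .no .no .no (.br (.br .no .no (.br (.br .no (.br .no .no (.br (.br .no (.sw 2 3 [7,8,15,21,27]) .no .no) .no .no .no) (.br (.br .no (.sw 2 3 [7,8,15,21,27]) .no .no) .no (.br .no (.br .no (.br .no .no .no (.br .no .no (.de 43) .no)) .no (.br .no (.br .no .no (.br (.br .no (.br (.sw 2 3 [7,8,15,21,27,32,33]) .no .no (.de 46)) .no .no) .no .no .no) (.br (.br .no (.br (.sw 2 3 [7,8,15,21,27,32,33]) .no .no (.de 46)) .no .no) .no (.de 44) .no)) .no .no)) .no .no) .no)) .no (.br .no .no (.br (.br .no (.sw 2 3 [7,8,15,21,27]) .no .no) .no .no .no) .no)) (.br .no .no .no (.br .no .no (.br (.br .no (.sw 2 3 [7,8,15,21,27])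 .no .no) .no .no .no) .no)) .no .no) .no) .no .no (.br (.br .no (.br .no .no .no (.br .no .no (.br (.br .no (.sw 0 2 [21]) .no .no) .no .no .no) .no)) .no .no) .no (.br (.br .no (.br .no .no (.br (.br .no (.sw 0 2 [21]) .no .no) .no .no .no) (.br (.br .no (.sw 0 2 [21]) .no .no) .no (.br (.br (.br .no (.br .no .no (.br (.br .no (.br .no .no .no (.de 46)) .no .no) .no .no .no) (.br (.br .no (.br .no .no .no (.de 46)) .no .no) .no (.de 44) .no)) .no (.br .no .no (.de 43) .no)) (.br .no .no .no (.br .no .no (.de 43) .no)) .no .no) (.sw 0 2 [21]) .no .no) .no)) .no (.br .no .no (.br (.br .no (.sw 0 2 [21]) .no .no) .no .no .no) .no)) (.br .no .no .no (.br .no .no (.br (.br .no (.sw 0 2 [21]) .no .no) .no .no .no) .no)) .no .no) .no))) .no (.de 27)) (.br .no .no .no (.de 27)) .no .no) .no)) .no .no) .no) .no .no .no) .no)) .no .no) .no c5_5_2 .no)) 15 347534468 1073741824 (by norm_num) (by norm_num) (by norm_num) (by decide +kernel)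

def c5_6_0 : Cert := (.br .no (.br (.br .no (.br .no .no (.br (.br .no .no (.br .no .no .no (.br .no .no (.br .no .no .no (.br (.br .no (.br .no .no .no (.br (.de 34) (.br (.br (.br .no (.br .no .no (.br (.br .no .no (.br .no .no .no (.br .no (.br .no .no (.de 48) .no) .no .no)) .no) .no .no .no) (.br (.br .no .no (.br .no .no .no (.br .no (.br .no .no (.de 43) .no) .no .no)) .no) .no (.de 44) .no)) (.br .no .no .no (.de 43)) .no) (.br .no .no (.de 42) .no) .no .no) .no .no .no) .no .no)) .no (.br .no (.br (.de 34) .no .no .no) .no .no)) .no .no .no)) (.br .no .no (.br (.br .no (.br .no .no .no (.br (.sw 1 2 [13,20,26]) (.br (.br (.br .no (.br .no .no (.br (.br .no .no (.br .no .no .no (.br .no (.sw 2 3 [28,29]) (.de 47) .no)) .no) .no .no .no) (.br (.br .no .no (.br .no .no .no (.br .no (.sw 2 3 [28,29]) (.de 47) .no)) .no) .no (.de 44) .no)) .no (.br .no .no (.de 43) .no)) (.br .no .no .no (.br .no .no (.de 43) .no)) .no .no) .no (.br (.br .no (.br .no .no (.br (.br .no .no (.br (.sy 37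 201 3) .no .no (.sw 0 1 [33])) .no) .no .no .no) (.br (.br .no .no (.br (.br .no (.sy 40 228 3) .no .no) .no .no (.sw 0 1 [33])) .no) .no (.de 44) .no)) .no (.br .no .no (.de 43) .no)) (.br .no .no .no (.br .no .no (.de 43) .no)) .no .no) .no) .no .no)) .no (.br .no (.br (.br .no .no (.br (.br .no (.br .no .no (.br (.br .no .no (.sw 1 3 [31,32]) (.sw 1 2 [13,20,26,32])) .no .no .no) .no) .no (.br .no (.br (.br .no .no (.br .no (.de 41) .no (.br .no (.br .no (.br .no .no (.br .no .no .no (.br .no (.de 46) .no .no)) .no) (.de 43) .no) .no .no)) (.sw 1 2 [13,20,26,32])) .no (.br .no .no .no (.br .no (.de 41) .no .no)) .no) (.de 43) .no)) (.br .no .no .no (.br .no (.br (.br .no .no (.br .no (.br (.br .no .no (.de 43) .no) .no .no .no) .no (.br (.br .no .no (.de 43) .no) .no .no .no)) (.sw 1 2 [13,20,26,32])) .no (.br .no .no .no (.br .no (.de 46) .no .no)) .no) (.de 43) .no)) .no .no) .no) .no .no .no) .no .no)) .no .no (.br .no (.br .no .no .no (.br (.sw 1 2 [13,20,26]) (.sy 30 54 3) .no .no))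 .no .no)) .no))) .no) .no .no .no) (.br (.br .no .no (.br .no .no .no (.br .no .no (.br .no .no .no (.br (.br .no (.sw 2 3 [24]) (.br .no (.br (.de 34) .no .no .no) .no (.br (.de 34) (.br (.br (.br .no (.br .no .no .no (.br (.sw 1 2 [31]) (.br (.br .no .no (.br .no (.br .no .no (.de 43) .no) .no (.de 47)) (.sw 1 2 [13,20,26,33])) .no (.br .no .no .no (.br .no (.br .no .no (.de 43) .no) .no .no)) .no) .no .no)) (.br .no (.br (.br .no .no (.br .no .no .no (.br .no (.br .no (.br .no .no .no (.br .no .no (.br .no (.de 46) .no (.br .no (.br .no .no (.de 48) .no) .no .no)) .no)) .no .no) .no .no)) .no) .no .no .no) .no (.de 43)) .no) (.br .no .no (.de 42) .no) .no .no) .no .no .no) .no .no)) .no) .no (.br .no (.br .no .no .no (.br (.de 34) (.br (.br (.br .no (.br (.br .no .no (.br (.br .no .no (.sy 37 216 3) (.sw 1 2 [13,20,26,33])) .no .no .no) .no) .no .no (.sw 0 2 [30])) .no .no) (.br (.br .no .no .no (.br (.br .no .no (.br .no .no .no (.de 41)) .no) .no (.de 44) .no)) .no .no .no) .no .no) .no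 .no .no) .no .no)) .no .no) .no)) (.br .no .no (.br (.br .no (.sw 2 3 [24]) (.br .no (.br (.br .no .no (.br (.br .no (.br .no .no .no (.br (.br .no .no (.br .no (.de 41) .no (.br .no (.br .no .no (.de 43) .no) .no .no)) (.sw 1 2 [13,20,26,31,32])) .no .no .no)) .no (.br .no (.br (.sw 2 3 [24,31]) .no .no (.br .no .no (.br .no (.de 41) .no (.br .no (.br .no (.br .no .no (.de 44) .no) (.de 43) .no) .no .no)) .no)) .no .no)) (.br .no .no .no (.br .no (.br (.sw 2 3 [24,31]) .no .no (.sy 35 114 3)) .no .no)) .no .no) .no) .no .no .no) .no (.br (.sw 1 2 [13,20,26]) (.br (.br (.br .no (.br .no .no .no (.br (.sw 1 2 [31]) (.br (.br .no .no (.br .no (.sw 2 3 [28,29]) .no .no) (.sw 1 2 [13,20,26,33])) .no (.br .no .no .no (.br .no (.sw 2 3 [28,29]) (.de 47) .no)) .no) .no .no)) .no (.br .no (.br (.br .no .no (.br .no .no .no (.br .no (.br .no (.br .no .no (.br .no .no .no (.br .no (.de 46) .no .no)) .no) (.de 43) .no) (.de 47) .no)) .no) .no .no .no) .no .no)) (.br .no .no .no (.br .no (.br (.br .no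 .no (.br .no .no .no (.br .no .no (.de 47) .no)) .no) .no .no .no) .no .no)) .no .no) .no (.br (.br .no (.br .no .no .no (.br (.sw 1 2 [31]) (.br (.br .no .no .no (.br .no (.sw 0 2 [34]) .no .no)) .no (.br (.br .no (.sy 40 228 3) .no .no) .no .no (.sw 0 1 [33])) .no) .no .no)) .no (.br .no (.br (.br .no .no (.br (.br .no (.br .no (.br .no .no (.br .no .no .no (.br .no (.br .no .no .no (.br .no .no (.de 48) .no)) .no .no)) .no) (.de 43) .no) .no .no) .no .no (.sw 0 1 [33])) .no) .no .no .no) .no .no)) (.br .no .no .no (.br .no (.br (.br .no .no (.br (.de 41) .no .no (.sw 0 1 [33])) .no) .no .no .no) .no .no)) .no .no) .no) .no .no)) .no) .no .no .no) .no))) .no) .no (.br (.br .no .no (.br .no .no (.br .no .no .no (.br (.br .no (.br .no .no .no (.br .no (.br (.br (.br .no (.br .no .no (.br (.br .no .no (.br .no .no .no (.br .no (.br .no .no (.de 48) .no) .no .no)) .no) .no .no .no) (.br (.br .no .no (.br .no .no .no (.br .no (.br .no .no (.de 43) .no) .no .no)) .no) .no (.de 44) .no)) (.br .no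 .no .no (.de 43)) .no) (.br .no .no (.de 42) .no) .no .no) .no .no (.sy 31 114 3)) .no .no)) .no .no) .no (.br (.br .no (.br .no .no .no (.br (.br (.br .no (.br .no .no .no (.br .no .no (.de 44) .no)) .no .no) (.br (.br .no (.br .no .no (.br (.br .no (.br .no .no .no (.br .no .no (.br .no .no .no (.de 44)) .no)) (.br .no .no .no (.de 47)) .no) .no .no .no) (.br (.br .no (.br .no .no .no (.sy 40 114 6)) (.br .no .no .no (.de 47)) .no) .no (.br .no (.br .no .no .no (.br .no .no (.br .no .no .no (.br .no .no (.br .no (.br .no .no .no (.sw 0 2 [39])) .no .no) .no)) .no)) .no .no) .no)) .no (.br .no .no (.de 44) .no)) .no .no .no) .no .no) .no .no .no)) .no (.br .no (.br (.br (.br .no (.br .no .no .no (.br .no (.br (.br .no .no (.br .no (.br .no .no (.de 43) .no) .no (.de 47)) (.br .no (.sy 41 177 6) .no .no)) .no (.br .no .no .no (.br .no (.br .no .no (.de 43) .no) .no .no)) .no) (.de 44) .no)) .no .no) (.br (.br .no (.br .no .no (.br (.br .no .no (.sw 1 3 [32,33]) (.de 41)) .no .no .no) .no)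 .no (.br .no (.br (.br .no .no (.br .no .no .no (.de 47)) (.de 41)) .no (.br .no .no .no (.de 41)) .no) (.de 44) .no)) .no .no .no) .no .no) .no .no (.sy 34 30 3)) .no .no)) (.br .no .no .no (.br .no (.br (.br (.br .no (.br (.br .no .no (.br (.br .no .no (.sy 37 216 3) (.br .no (.sy 41 225 3) .no .no)) .no .no .no) .no) .no .no (.sw 0 2 [30])) .no .no) (.br (.br .no .no .no (.br (.br .no .no (.br .no .no .no (.de 41)) .no) .no (.de 44) .no)) .no .no .no) .no .no) .no .no (.sy 31 114 3)) .no .no)) .no .no) .no)) (.br .no .no (.br (.br .no (.br .no .no .no (.br .no (.br (.br (.br .no (.br .no .no (.br (.br .no .no (.br .no .no .no (.br .no (.sw 2 3 [28,29]) (.de 47) .no)) .no) .no .no .no) (.br (.br .no .no (.br .no .no .no (.br .no (.sw 2 3 [28,29]) (.de 47) .no)) .no) .no (.de 44) .no)) .no (.br .no .no (.de 43) .no)) (.br .no .no .no (.br .no .no (.de 43) .no)) .no .no) .no .no .no) .no .no)) .no .no) .no .no .no) .no)) (.sw 1 2 [13,20])) .no .no .no) .no)) .no (.br .no .no (.br (.br .no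 .no (.br .no .no .no (.br .no .no (.br .no (.br (.br .no (.br .no .no .no (.br (.de 34) (.br (.br (.br .no .no (.sw 1 3 [23,29]) (.sy 29 177 7)) .no .no (.br .no .no (.br .no .no .no (.de 43)) .no)) .no .no .no) .no .no)) .no (.br .no (.br (.de 34) .no .no .no) .no .no)) .no .no .no) .no .no) (.br .no (.br (.br .no (.br .no .no .no (.br (.sw 1 2 [13,20,26]) (.br (.sy 29 177 6) .no (.br (.br .no .no (.br .no .no .no (.de 43)) (.br .no .no (.de 43) .no)) .no (.br .no .no .no (.br .no .no (.de 43) .no)) .no) .no) .no .no)) .no (.br .no (.br (.br .no .no (.br (.br .no .no (.br .no (.br (.br .no .no (.br .no (.de 41) .no (.br .no (.br .no (.br .no .no .no (.br .no .no (.br .no (.de 46) .no (.br .no (.br .no .no (.de 48) .no) .no .no)) .no)) .no .no) .no .no)) (.sw 1 2 [13,20,26,32])) .no (.br .no .no .no (.br .no (.de 41) .no .no)) .no) .no .no) (.br .no (.br (.br .no .no (.br .no (.de 41) .no (.br .no (.br .no (.br .no .no (.br .no .no .no (.br .no (.de 46) .no .no)) .no) (.de 43) .no) .no .no))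 (.sw 1 2 [13,20,26,32])) .no (.br .no .no .no (.br .no (.de 41) .no .no)) .no) (.de 43) .no)) .no (.br .no .no .no (.br .no (.br (.br .no .no (.br .no (.br (.de 48) .no .no .no) .no (.br (.de 48) (.br .no (.br .no .no (.br .no .no .no (.br .no (.de 46) .no .no)) .no) .no .no) .no .no)) (.sw 1 2 [13,20,26,32])) .no (.br .no .no .no (.br .no (.de 46) .no .no)) .no) (.de 43) .no)) .no) .no) .no .no .no) .no .no)) .no .no .no) (.br (.sw 1 3 [23]) (.br .no .no .no (.br .no (.br (.br .no .no (.br (.br .no .no .no (.br (.br .no .no (.br .no .no .no (.br .no (.de 41) .no .no)) .no) .no (.de 43) .no)) (.br (.br .no .no (.br (.br .no .no (.sw 1 3 [23,30,31,32]) (.sw 1 2 [13,20,26,32])) .no .no .no) .no) .no .no (.br (.br .no .no (.br .no .no .no (.br .no (.de 46) .no .no)) .no) .no (.de 43) .no)) .no .no) .no) .no .no .no) .no .no)) .no .no) .no))) .no) .no .no .no) .no)) .no .no .no) (.br (.br .no (.br .no .no (.br (.br .no .no (.br .no .no .no (.br .no (.br .no .no (.br (.br .no (.br .no .no .no (.br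 (.de 34) (.br (.br (.br .no (.br .no .no (.br (.br .no .no (.br .no .no .no (.br .no .no (.de 47) .no)) .no) .no .no .no) (.br (.br .no .no (.br .no .no .no (.br .no .no (.de 47) .no)) .no) .no (.de 44) .no)) .no (.br .no .no (.de 43) .no)) .no .no (.br .no (.br .no .no (.br (.br .no .no (.br .no .no .no (.br .no .no (.de 47) .no)) .no) .no .no .no) (.br (.br .no .no (.br .no .no .no (.br .no .no (.de 47) .no)) .no) .no (.de 44) .no)) .no .no)) .no .no .no) .no .no)) .no (.sy 24 141 7)) .no .no (.br .no (.br .no .no .no (.br (.de 34) (.sy 30 54 3) .no .no)) .no .no)) (.br (.br .no (.br .no .no .no (.br (.de 34) (.br (.sy 31 114 6) .no .no .no) .no .no)) .no (.sy 24 141 7)) .no .no .no)) .no (.br .no .no (.br (.br .no (.br .no .no .no (.br (.sw 1 2 [13,20,26]) (.br (.sw 1 2 [21]) .no .no .no) .no .no)) .no (.sy 24 141 7)) .no .no (.br .no (.br .no .no .no (.br (.sw 1 2 [13,20,26]) (.sy 30 54 3) .no .no)) .no .no)) .no))) .no) .no .no .no) (.br (.br .no .no (.br .no .no .no (.br .no (.br .no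 .no (.br (.br .no (.sw 2 3 [24]) (.br .no (.br (.de 34) .no .no .no) .no (.br (.de 34) (.br (.br (.br .no (.br .no .no .no (.br (.sw 1 2 [31]) (.br (.br .no .no (.br .no .no .no (.de 47)) (.sw 1 2 [13,20,26,33])) .no (.br .no .no .no (.br .no .no (.de 47) .no)) .no) .no .no)) .no (.br .no (.br (.br .no .no (.br .no .no .no (.br .no .no (.de 47) .no)) .no) .no .no .no) .no .no)) .no .no (.br .no (.br .no .no .no (.br (.sw 1 2 [31]) (.sy 35 54 3) .no .no)) .no .no)) .no .no .no) .no .no)) .no) .no .no .no) (.br (.br .no (.sw 2 3 [24]) (.br .no (.br (.de 34) .no .no .no) .no (.br (.de 34) (.br (.br (.br .no (.sw 2 3 [29]) (.br .no (.br (.br .no .no (.br .no .no .no (.br .no .no (.de 47) .no)) .no) .no .no .no) .no (.de 43)) .no) .no (.br .no (.de 42) .no .no) .no) .no .no .no) .no .no)) .no) .no (.br .no (.br .no .no .no (.br (.de 34) (.br (.br (.br .no (.br (.sw 2 3 [24,29,30]) .no .no (.sw 0 2 [30])) .no .no) .no (.br (.br .no .no .no (.br (.sy 31 114 7) .no (.de 44) .no)) (.de 42) .no .no)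 .no) .no .no .no) .no .no)) .no .no) .no)) .no (.br .no .no (.br (.br .no (.sw 2 3 [24]) (.br .no (.br (.br .no (.br (.br .no (.br .no .no .no (.br (.br .no .no (.br .no .no .no (.br .no .no (.de 47) .no)) (.sw 1 2 [13,20,26,31,32])) .no .no .no)) .no (.br .no (.br (.sw 2 3 [24,31]) .no .no (.br .no .no (.br .no .no .no (.br .no .no (.de 47) .no)) .no)) .no .no)) (.br .no .no .no (.br .no (.br (.sw 2 3 [24,31]) .no .no (.sy 35 114 3)) .no .no)) .no .no) .no .no) .no .no .no) .no (.br (.sw 1 2 [13,20,26]) (.br (.sw 1 2 [21]) .no .no .no) .no .no)) .no) .no .no .no) .no))) .no) .no (.br (.br .no .no .no (.sw 1 2 [13,20])) .no .no .no) .no)) .no (.br .no .no (.br (.br .no .no (.br .no .no .no (.sy 24 141 6)) .no) .no .no .no) .no)) (.br .no .no .no (.br .no .no (.br (.br .no .no (.br .no .no .no (.br (.br .no .no (.br (.br .no (.br .no .no .no (.br (.sw 1 2 [13,20,26]) (.de 34) .no .no)) .no (.br .no (.br (.br .no (.sy 32 225 3) .no .no) .no .no .no) .no .no)) (.br .no .no .no (.br .no (.br (.br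 .no (.sy 32 225 3) .no .no) .no .no .no) .no .no)) .no .no) .no) .no .no (.br (.br .no (.br .no .no .no (.br .no (.br (.br .no (.sy 30 114 6) .no .no) .no .no .no) .no .no)) .no .no) .no (.sw 0 1 [22]) .no))) .no) .no .no .no) .no)) .no .no) .no)

def c5_6_1 : Cert := (.br (.br .no .no .no (.br (.br .no (.br .no .no .no (.br .no (.de 20) .no .no)) .no .no) .no (.br (.br .no (.br .no .no .no (.br .no c5_6_0 .no .no)) .no (.br .no (.de 20) .no .no)) (.br .no .no .no (.br .no (.de 20) .no .no)) .no .no) .no)) (.br (.br .no .no (.br (.br .no (.br .no .no .no (.br (.sw 1 2 [13]) .no .no .no)) .no (.br .no (.br (.sy 19 225 3) .no .no .no) .no .no)) (.br .no .no .no (.br .no (.br (.sy 19 225 3) .no .no .no) .no .no)) .no .no) .no) .no .no (.br (.br .no (.br .no .no .no (.br .no (.br (.sy 17 114 6) .no .no .no) .no .no)) .no .no) .no (.br (.br .no (.br .no .no .no (.br (.sw 1 2 [13]) .no .no .no)) .no (.br .no (.br (.br (.br .no (.br .no .no .no (.br .no (.br (.br .no .no (.br .no .no .no (.br .no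 .no (.br (.br .no .no (.br .no .no .no (.br .no (.br (.br .no (.br .no (.br .no .no .no (.br (.br .no .no (.br .no .no .no (.br .no .no (.br (.br .no .no (.de 43) .no) .no .no (.de 47)) .no)) .no) (.br (.br .no .no (.br .no .no .no (.br (.br .no .no (.de 43) .no) .no .no .no)) (.sw 1 2 [13,19,26,32])) .no (.br .no .no .no (.br .no .no (.br (.br .no .no (.de 43) .no) .no .no (.de 47)) .no)) .no) .no .no)) .no (.br .no (.br (.br .no .no (.br .no .no .no (.br .no .no (.br (.br .no .no (.de 48) .no) .no .no .no) .no)) .no) .no .no .no) .no .no)) .no .no) .no .no .no) .no .no)) .no) .no .no .no) (.br (.br .no .no (.br .no .no .no (.br .no (.br (.br .no (.br .no (.br .no .no .no (.br (.br .no .no (.br .no .no .no (.br .no .no (.br (.sw 2 3 [28]) .no .no .no) .no)) .no) (.br (.br .no .no (.br .no .no .no (.br (.sw 2 3 [28]) .no (.de 47) .no)) (.sw 1 2 [13,19,26,32])) .no (.br .no .no .no (.br .no .no (.br (.sw 2 3 [28]) .no .no .no) .no)) .no) .no .no)) (.br .no (.de 42) .no (.br (.br .no .no (.br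 .no .no .no (.br .no .no (.br (.de 48) .no .no .no) .no)) .no) (.br (.br .no .no (.br .no .no .no (.br (.de 48) .no .no .no)) (.sw 1 2 [13,19,26,32])) .no (.br .no .no .no (.br .no .no (.br (.de 48) .no .no .no) .no)) .no) .no .no)) .no) (.br .no (.br .no .no .no (.br (.br .no .no (.br .no .no .no (.br .no (.de 46) .no .no)) .no) (.br (.br .no .no (.br .no (.br (.br .no .no (.de 43) .no) .no .no .no) .no (.br (.sw 1 2 [34]) .no .no .no)) (.sw 1 2 [13,19,26,32])) .no (.br .no .no .no (.br .no (.de 46) .no .no)) .no) .no .no)) (.br .no (.de 42) .no (.br (.br .no .no (.br .no .no .no (.br .no (.de 46) .no .no)) .no) (.br (.br .no .no (.br .no (.br (.de 48) .no .no .no) .no (.br (.de 48) (.br .no (.br .no .no (.br .no .no .no (.br .no (.de 46) .no .no)) .no) .no .no) .no .no)) (.sw 1 2 [13,19,26,32])) .no (.br .no .no .no (.br .no (.de 46) .no .no)) .no) .no .no)) .no) .no) .no .no .no) .no .no)) .no) .no (.br (.br .no .no (.br .no (.br (.br .no (.br (.br .no (.br .no .no .no (.br (.br .no .no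 (.br .no .no .no (.br .no .no (.de 47) .no)) (.sw 1 2 [13,19,24,26,31,32])) .no .no .no)) .no (.br .no (.br (.br .no .no (.br .no .no .no (.br .no .no (.de 47) .no)) (.br .no .no (.de 41) .no)) .no .no (.br .no .no (.br .no .no .no (.br .no .no (.de 47) .no)) .no)) .no .no)) (.br .no .no .no (.br .no (.br (.br .no .no (.br .no .no .no (.br (.br .no .no (.de 43) .no) .no (.de 47) .no)) (.br .no .no (.br (.br .no .no (.de 43) .no) .no .no .no) .no)) .no .no (.sy 35 114 3)) .no .no)) .no .no) (.br (.br .no (.br .no .no .no (.br (.br .no .no (.br .no (.de 41) .no (.br .no (.br .no .no (.de 43) .no) .no .no)) (.sw 1 2 [13,19,24,26,31,32])) .no .no .no)) .no (.br .no (.br (.br .no .no (.br .no (.de 41) .no (.br .no (.br .no (.br .no .no (.br .no .no .no (.br .no (.de 46) .no .no)) .no) (.de 43) .no) .no .no)) (.br .no (.de 41) .no .no)) .no .no (.br .no .no (.br .no (.de 41) .no (.br .no (.br .no (.br .no .no (.de 44) .no) (.de 43) .no) .no .no)) .no)) .no .no)) (.br .no .no .no (.br .no (.br (.br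 .no .no (.br .no (.br (.br .no .no (.de 43) .no) .no .no .no) .no (.br (.sw 1 2 [34]) .no .no .no)) (.br .no (.de 46) .no .no)) .no .no (.sy 35 114 3)) .no .no)) .no .no) .no) .no .no .no) .no (.br (.sw 1 2 [13,19,26]) (.br .no .no (.br (.br .no (.br .no .no .no (.br (.br .no .no (.br (.br .no (.sy 40 228 3) .no .no) .no .no (.sw 0 1 [33])) .no) (.br (.br .no .no .no (.br .no (.sy 41 177 6) .no .no)) .no (.br (.br .no (.sy 40 228 3) .no .no) .no .no (.sw 0 1 [33])) .no) .no .no)) .no (.br .no (.br (.br .no .no (.br (.br .no (.br .no (.br .no .no (.br .no .no .no (.br .no (.br .no .no .no (.br .no .no (.de 48) .no)) .no .no)) .no) (.de 43) .no) .no .no) .no .no (.sw 0 1 [33])) .no) .no .no .no) .no .no)) (.br .no .no .no (.br .no (.br (.br .no .no (.br (.de 41) .no .no (.sw 0 1 [33])) .no) .no .no .no) .no .no)) .no .no) .no) .no .no)) (.br .no (.br (.br .no (.br (.br .no (.br .no .no (.br (.br .no .no (.br .no .no .no (.br .no .no (.de 47) .no)) (.sw 1 2 [13,19,26,32])) .no .no .no) .no) .no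 (.br .no (.br (.sw 2 3 [31]) .no (.br .no .no .no (.br .no .no (.de 41) .no)) .no) (.de 43) .no)) (.br .no .no .no (.br .no (.sw 0 2 [29,30]) (.de 43) .no)) .no .no) (.br (.br .no (.br .no .no (.br (.br .no .no (.br .no (.de 41) .no (.br .no (.br .no .no (.de 48) .no) .no .no)) (.sw 1 2 [13,19,26,32])) .no .no .no) .no) .no (.br .no (.br (.sw 2 3 [31]) .no (.br .no .no .no (.br .no (.de 41) .no .no)) .no) (.de 43) .no)) (.br .no .no .no (.br .no (.sw 0 2 [29,30]) (.de 43) .no)) .no .no) .no) .no .no .no) .no .no)) .no .no .no) .no))) (.sw 1 2 [13,19])) .no (.br .no .no .no (.br .no .no (.br .no .no (.br (.br .no .no (.br (.sy 28 201 3) .no .no (.br (.br .no (.br .no .no .no (.br .no (.br .no .no .no (.br (.sw 1 2 [13,19,24,25,30]) (.br .no .no (.br .no .no .no (.br (.de 41) .no (.br (.br .no .no (.de 43) .no) .no .no .no) .no)) .no) .no .no)) .no (.br .no (.br (.br .no (.br .no .no (.br (.br .no (.br .no .no (.br .no .no .no (.br .no .no (.br .no .no .no (.sy 42 78 3)) .no)) .no) .no .no)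 .no .no .no) (.de 45)) (.br .no .no .no (.br (.br .no (.br .no .no (.br .no .no .no (.de 44)) .no) .no .no) .no (.br (.br .no .no (.de 48) .no) (.sw 0 3 [15,21,34]) .no .no) .no)) .no) .no .no .no) .no .no))) .no .no) (.sw 0 2 [25]) .no .no)) .no) .no .no .no) (.br (.br .no .no (.br (.br .no (.br (.br .no (.sy 31 228 3) .no .no) .no .no .no) .no .no) .no .no (.br (.br .no (.de 34) .no .no) (.sw 0 2 [25]) .no .no)) .no) .no (.br (.br .no .no .no (.br (.sw 1 2 [13,19,24,25]) (.sw 0 2 [25]) .no .no)) .no .no .no) .no)) .no)) .no) (.br (.br .no .no (.sw 1 3 [18,19]) (.sw 1 2 [13,19])) .no .no .no) .no)) .no .no) .no (.br (.br .no (.br .no .no (.br (.br .no .no (.sw 1 3 [18,19]) (.de 27)) .no .no .no) .no) .no (.br .no (.br (.br .no .no (.br .no .no .no (.br .no (.br .no .no (.br (.br .no .no (.sw 1 3 [18,19,23,24]) (.br .no (.br (.de 34) .no .no .no) .no .no)) .no .no .no) .no) .no (.br .no (.br (.br .no .no (.br .no (.br (.br .no (.br (.br .no .no (.br .no (.br (.br .no .no (.br .no .no .no (.br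 .no .no (.de 47) .no)) (.sy 32 177 7)) .no .no (.br .no .no (.br .no .no .no (.br .no .no (.de 47) .no)) .no)) .no (.de 43)) (.br .no (.br (.br .no .no (.br .no .no .no (.br .no .no (.de 47) .no)) (.sy 32 177 7)) .no .no (.br .no .no (.br .no .no .no (.br .no .no (.de 47) .no)) .no)) .no .no)) .no (.br .no .no .no (.br .no (.br (.br .no .no (.br .no .no .no (.br (.de 48) .no .no .no)) (.sy 32 177 7)) .no .no (.br .no .no (.br .no .no .no (.br (.de 48) .no .no .no)) .no)) .no .no)) .no) .no .no) .no .no .no) .no (.br (.sw 1 2 [13,19,26]) (.br (.br (.br .no .no (.br .no (.br (.br .no .no (.br .no .no .no (.br .no (.br .no (.br .no .no .no (.br .no .no (.br .no (.de 46) .no (.br .no (.br .no .no (.de 48) .no) .no .no)) .no)) .no .no) (.de 47) .no)) .no) .no .no .no) .no (.de 43)) (.br .no (.br (.br .no .no (.br .no .no .no (.br .no (.br .no (.br .no .no (.br .no .no .no (.br .no (.de 46) .no .no)) .no) (.de 43) .no) (.de 47) .no)) .no) .no .no .no) .no .no)) .no (.br .no .no .no (.br .no (.br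 (.br .no .no (.br .no .no .no (.br .no (.br .no (.br .no .no (.br .no .no .no (.br .no (.de 46) .no .no)) .no) .no .no) .no .no)) .no) .no .no .no) .no .no)) .no) .no .no .no) .no .no)) (.br .no (.br (.br .no (.sy 32 177 6) .no .no) .no .no .no) .no .no)) .no (.br .no .no .no (.br .no (.br (.br .no (.br (.br .no .no .no (.br (.br .no .no (.br .no .no .no (.br .no .no (.de 41) .no)) .no) (.sw 0 2 [30]) .no .no)) .no (.br (.br .no (.br (.br .no .no (.br .no .no .no (.br (.de 48) .no .no .no)) (.sw 1 2 [13,19,26,32])) .no (.br .no .no .no (.br .no .no (.br (.de 48) .no .no .no) .no)) .no) .no .no) .no .no (.br (.br .no .no (.br .no .no .no (.br .no .no (.br (.de 48) .no .no .no) .no)) .no) (.sw 0 2 [30]) .no .no)) .no) .no .no) .no .no .no) .no .no)) .no) (.br (.br .no .no (.sw 1 3 [18,19,23,24]) (.br .no (.br (.br .no (.br (.br .no (.br .no .no (.br (.br .no .no (.sw 1 3 [18,19,23,24,31,32]) (.sw 1 2 [13,19,26,32])) .no .no .no) .no) .no (.sw 1 2 [29])) (.br .no .no .no (.br .no (.br (.sw 2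 3 [31]) .no (.br .no .no .no (.br .no .no (.br (.br .no .no (.de 43) .no) .no .no .no) .no)) .no) (.de 43) .no)) .no .no) .no .no) .no .no .no) .no .no)) .no .no .no) .no))) (.de 27)) .no (.br .no .no .no (.de 27)) .no) (.br (.br .no .no (.sw 1 3 [18,19]) (.de 27)) .no .no .no) .no)) (.sw 0 3 [15]) .no .no) .no) .no .no .no) .no .no)) (.br .no .no .no (.br .no (.br (.br (.br .no (.br (.br .no .no (.br (.br .no .no (.sy 23 216 3) (.sw 1 2 [13,19])) .no .no .no) .no) .no .no (.sw 0 2 [16])) .no .no) .no (.br (.br .no .no .no (.br (.sy 17 114 7) .no (.sw 0 1 [17]) .no)) (.sw 0 3 [15]) .no .no) .no) .no .no .no) .no .no)) .no .no) .no)) .no .no)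

theorem P5_6 : R.S 14 146207876 :=
  R.piece L hL c5_6_1 14 146207876 268435456 (by norm_num) (by norm_num) (by norm_num) (by decide +kernel)

end T7
end Pool.Agent.H411R2.WSK
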