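import Pool.Agent.H411R2.WSK.T7

set_option maxRecDepth 100000
set_option linter.all false

namespace Pool.Agent.H411R2.WSK

namespace T7

def c6_0_0 : Cert := (.br (.br .no .no (.br (.br .no (.br (.br .no .no (.br .no .no .no (.br .no (.br .no .no .no (.br .no .no (.br .no .no .no (.br .no (.br (.br .no .no (.br (.br .no (.br (.br .no .no (.sy 36 216 6) .no) .no .no .no) .no .no) .no .no .no) .no) .no .no .no) .no (.br (.br .no .no (.br (.br .no (.br (.br .no (.sy 38 228 3) (.br .no (.br .no .no .no (.de 44)) (.br .no .no .no (.de 44)) .no) .no) .no .no .no) .no .no) .no .no .no) .no) (.br (.br .no .no (.br (.br .no (.br .no .no (.br .no .no (.br .no .no .no (.de 44)) .no) .no) .no .no) (.br (.br .no (.br .no .no (.br .no .no .no (.de 44)) .no) (.br .no .no (.br .no .no .no (.de 44)) .no) .no) .no .no .no) .no .no) .no) .no (.br (.br .no (.br (.br .no (.sy 38 228 3) (.br .no .no (.br .no .no .no (.de 44)) .no) .no) .no .no .no) .no .no) .no .no .no) .no) .no .no))) .no)) .no .no)) .no)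 (.br (.br .no .no (.br .no (.br .no .no .no (.br .no .no (.br (.br .no .no (.br .no (.de 42) .no (.br (.br .no .no (.br (.br .no (.br .no .no .no (.br .no (.br .no .no (.br .no .no .no (.br .no (.br .no .no .no (.br .no .no (.br (.sw 2 3 [6]) .no .no .no) .no)) .no .no)) .no) .no .no)) .no (.de 41)) (.br .no .no .no (.de 41)) .no .no) .no) .no .no .no)) (.br .no (.br (.br .no .no (.br (.br .no (.br .no .no (.br .no .no (.br .no .no .no (.de 44)) .no) .no) .no (.br .no .no (.de 47) .no)) (.br .no .no .no (.de 46)) .no .no) .no) .no .no (.br (.br .no (.br .no .no .no (.de 46)) .no .no) .no (.de 44) .no)) .no .no)) .no .no (.br .no .no (.br .no (.de 42) .no (.br (.br .no .no (.br (.br .no (.br (.de 48) .no .no .no) .no .no) (.br (.de 41) .no .no .no) .no .no) .no) .no .no .no)) (.br .no (.br (.br .no .no (.br (.br .no (.br (.br .no .no (.de 48) .no) .no (.sw 0 3 [34]) .no) .no .no) (.br (.br .no .no (.br .no .no (.br .no .no .no (.de 44)) .no) .no) .no .no .no) .no .no) .no) .no .no (.br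 (.br .no (.br (.br .no .no (.br .no .no (.de 43) .no) .no) .no .no .no) .no .no) .no (.de 44) .no)) .no .no))) .no)) .no (.br .no (.br .no .no (.br (.br .no .no (.br .no (.de 42) .no (.br (.br .no .no (.br (.sw 1 3 [31,32]) .no .no (.br .no (.de 46) .no .no)) .no) (.br (.br .no .no .no (.br .no (.de 46) .no .no)) .no (.br (.br .no (.br .no .no .no (.br .no (.br .no .no (.br .no .no .no (.sw 0 1 [37])) .no) .no .no)) .no (.de 41)) .no .no (.br .no (.de 46) .no .no)) .no) .no .no)) (.br .no (.br (.br .no .no (.br (.sw 1 3 [31,32]) .no .no (.br .no (.de 46) .no .no)) .no) .no .no .no) .no .no)) .no .no (.br .no .no (.br .no (.de 42) .no (.br (.br .no .no (.br (.sw 1 3 [31,32]) .no .no (.br (.de 41) (.de 46) .no .no)) .no) (.br (.br .no .no .no (.br (.de 41) (.de 46) .no .no)) .no (.br (.br .no (.br (.de 48) .no .no .no) .no .no) .no .no (.br (.de 41) (.de 46) .no .no)) .no) .no .no)) (.br .no (.br (.br .no .no (.br (.sw 1 3 [31,32]) .no .no (.br (.br .no .no (.br .no .no (.br .no .no .no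 (.de 44)) .no) .no) (.de 46) .no .no)) .no) .no .no .no) .no .no))) (.br (.br .no .no (.br .no (.de 42) .no (.br (.br .no .no (.br (.br .no (.sw 2 3 [33]) (.sy 37 216 3) .no) .no .no .no) .no) (.br (.br .no .no (.br .no (.br .no .no .no (.br .no (.br .no .no (.br .no .no .no (.br .no (.br .no .no .no (.br .no .no (.br (.sw 2 3 [6]) .no .no .no) .no)) .no .no)) .no) .no .no)) .no .no) .no) .no (.br (.br .no (.sw 2 3 [33]) (.br .no .no .no (.de 47)) .no) .no .no .no) .no) .no .no)) (.br .no (.br (.br .no .no (.br (.br .no (.sw 2 3 [33]) (.de 41) .no) .no .no .no) .no) .no .no .no) .no .no)) .no .no .no)) .no .no)) (.br .no (.br .no .no .no (.br .no .no (.br (.br .no .no (.br .no (.de 42) .no .no) (.br .no (.br (.sw 2 3 [30]) .no (.br (.br .no (.br .no .no .no (.de 46)) .no .no) .no .no .no) .no) (.br (.br .no .no (.br (.sy 36 201 3) (.br .no .no .no (.de 46)) .no .no) .no) .no .no .no) .no)) .no .no (.br .no .no (.br .no (.de 42) .no .no) (.br .no (.br (.sw 2 3 [30]) .no (.sy 30 39 7) .no)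 (.br (.br .no .no (.br (.sy 36 201 3) (.sy 30 39 9) .no .no) .no) .no .no .no) .no))) .no)) .no .no)) .no (.br .no .no .no (.br .no (.br .no .no .no (.br .no .no (.br (.br (.br .no (.br (.br .no .no (.br (.br .no (.br .no .no (.de 48) (.br .no .no (.de 48) .no)) .no (.br .no .no (.de 47) .no)) (.br .no .no .no (.de 46)) .no .no) .no) .no (.br (.br .no (.br .no .no .no (.de 46)) .no .no) .no .no .no) .no) .no .no) .no .no (.br (.br .no .no (.br (.br .no (.br .no .no .no (.de 46)) .no .no) .no .no .no) .no) (.sw 0 2 [29]) .no .no)) .no .no (.sy 30 39 6)) .no)) .no .no)) .no) .no .no) .no (.br (.br .no .no (.br .no .no .no (.br .no (.br .no .no .no (.br .no (.de 34) (.br .no (.br .no (.br (.br .no .no (.br (.br .no (.br (.br .no .no (.sw 1 3 [27,34]) (.br .no .no (.br .no .no .no (.de 44)) .no)) .no .no (.de 46)) .no .no) .no .no .no) .no) .no .no .no) .no (.br (.br .no .no (.br (.br .no (.br (.br .no .no (.sw 1 3 [27,34]) .no) .no .no (.de 46)) .no .no) .no .no .no) .no) (.br (.br .no .no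 (.br (.br .no .no .no (.br .no .no (.de 47) .no)) (.br (.br .no .no (.sw 1 3 [27,34]) .no) .no .no (.de 46)) .no .no) .no) .no (.br (.br .no (.br (.br .no .no (.sw 1 3 [27,34]) .no) .no .no (.de 46)) .no .no) .no .no .no) .no) .no .no)) .no .no) .no)) .no .no)) .no) (.br (.br .no .no (.br .no (.br .no .no .no (.br .no (.br (.sy 33 225 3) .no .no .no) (.br (.sw 1 3 [27]) .no .no .no) .no)) .no (.br .no (.br .no .no (.br (.sw 1 3 [27]) .no .no .no) .no) .no .no)) (.br .no (.br .no .no .no (.br .no (.sy 30 54 3) (.br (.sw 1 3 [27]) .no .no .no) .no)) .no .no)) .no (.br .no .no .no (.br .no (.br .no .no .no (.br .no (.sy 30 54 3) (.br (.sw 1 3 [27]) .no .no .no) .no)) .no .no)) .no) .no .no)) (.br .no .no .no (.br (.br .no .no (.br .no .no .no (.br .no (.br (.br .no .no (.br .no (.br .no (.br (.br .no .no (.br .no .no .no (.de 44)) .no) .no .no .no) .no (.br (.br .no .no (.br .no .no .no (.de 44)) .no) (.br (.br .no .no (.br .no (.br (.br .no .no (.br .no .no (.br .no .no .no (.de 44)) .no)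 .no) .no .no (.de 46)) .no (.br (.br .no .no (.br .no .no (.br .no .no .no (.de 44)) .no) .no) .no .no .no)) (.br .no (.de 45) .no .no)) .no (.br .no .no .no (.de 44)) .no) .no .no)) .no .no) .no) .no .no (.br (.br .no (.br .no (.br (.br .no .no (.br (.br .no (.br .no .no (.br .no .no .no (.de 47)) (.de 46)) (.sy 36 216 3) .no) .no .no .no) .no) .no .no .no) .no (.br (.br .no .no (.br (.br .no (.br .no .no (.de 41) (.de 46)) (.sy 36 216 3) .no) .no .no .no) .no) (.br (.br .no .no (.br .no (.br .no .no (.de 41) (.de 46)) .no .no) .no) .no (.br (.br .no (.br .no .no (.de 41) (.de 46)) (.br .no .no .no (.br .no .no (.de 47) .no)) .no) .no .no .no) .no) .no .no)) .no .no) .no (.sw 0 1 [26]) .no)) .no .no)) .no) (.br (.br .no .no (.br .no (.br (.br .no .no (.br (.sy 32 216 6) .no .no .no) .no) .no .no (.br (.de 34) .no (.sw 0 1 [26]) .no)) .no (.br (.br .no .no (.br (.br .no .no (.br .no (.de 42) .no (.br (.br .no (.br .no .no .no (.de 45)) (.sw 1 3 [31]) .no) (.br .no .no (.br .no (.sy 32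 216 7) .no (.sw 0 1 [26,32])) .no) .no .no)) (.br .no (.br (.br .no (.br .no .no .no (.de 45)) (.sw 1 3 [31]) .no) .no .no .no) .no .no)) .no .no .no) .no) .no .no .no)) (.br .no (.br (.br .no .no (.br (.br .no .no (.br .no (.de 42) .no .no) (.br .no (.br (.sw 2 3 [30]) .no (.br .no .no .no (.de 44)) .no) (.br (.br .no .no (.br .no (.br .no .no .no (.de 46)) .no (.br .no (.de 46) .no .no)) (.br .no (.de 45) .no .no)) .no .no .no) .no)) .no .no .no) .no) .no .no (.br (.de 34) .no (.sw 0 1 [26]) .no)) .no .no)) .no (.br .no .no .no (.br .no (.br (.br .no .no (.br (.br (.br .no (.br (.br .no .no (.br .no (.br .no .no .no (.de 46)) .no (.br .no (.de 46) .no .no)) (.br .no (.de 45) .no .no)) .no (.br .no .no .no (.de 44)) .no) .no .no) .no .no (.br (.br .no .no (.br .no .no .no (.de 44)) .no) (.sw 0 2 [29]) .no .no)) .no .no .no) .no) .no .no (.br (.de 34) .no (.sw 0 1 [26]) .no)) .no .no)) .no) .no .no)) .no .no) .no) .no (.br (.br .no (.br .no .no .no (.br (.br .no .no (.br (.br .no (.br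 .no .no (.br (.br .no (.sy 33 228 6) .no .no) .no .no .no) (.br (.br .no (.br .no (.br .no .no .no (.br .no .no (.de 43) .no)) .no (.br .no (.br .no .no (.br (.br .no (.sw 2 3 [32]) (.br .no .no .no (.br .no .no (.de 47) .no)) .no) .no .no .no) (.br (.br .no (.sw 2 3 [32]) (.br .no .no .no (.br .no .no (.de 47) .no)) .no) .no (.de 44) .no)) .no .no)) .no .no) .no (.br .no (.br .no (.br .no .no .no (.br .no .no (.de 43) .no)) .no (.br .no (.br .no .no (.br (.br .no (.br (.br .no .no (.br .no .no (.br .no .no .no (.de 44)) .no) .no) .no .no (.de 46)) .no .no) .no .no .no) (.br (.br .no (.br (.br .no .no (.br .no .no (.de 43) .no) .no) .no .no (.de 46)) .no .no) .no (.de 44) .no)) .no .no)) .no .no) .no)) .no (.br .no .no (.br (.br .no (.br .no (.br .no .no .no (.br .no (.br (.br .no (.br .no .no (.br .no .no .no (.de 47)) (.de 46)) .no (.br .no .no (.br .no .no .no (.de 47)) .no)) .no .no .no) (.de 43) .no)) .no (.br .no (.br .no .no (.br (.sw 1 3 [31]) (.br .no .no .no (.de 45)) .no .no)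 .no) .no .no)) .no .no) .no .no .no) .no)) .no .no (.br .no (.br .no .no (.br (.br .no (.br .no (.br (.br .no .no (.br (.br .no (.br .no .no (.br .no .no .no (.de 47)) (.de 46)) .no (.br .no .no (.br .no .no .no (.de 47)) .no)) .no .no (.de 44)) .no) .no .no .no) .no (.br (.br .no .no (.br (.br .no (.br .no .no (.de 41) (.de 46)) .no (.br .no .no (.de 41) .no)) .no .no (.de 44)) .no) (.br (.br .no .no .no (.br .no (.de 45) .no .no)) .no (.sw 0 3 [30]) .no) .no .no)) .no .no) .no .no .no) (.sw 0 2 [24,25])) .no .no)) .no) (.br (.br .no .no .no (.br .no (.br .no .no (.br (.de 34) .no .no .no) (.sw 0 2 [24,25])) .no .no)) .no (.br (.br .no (.br .no .no (.br (.de 34) .no .no .no) (.br (.de 34) .no (.br (.br (.br .no (.br .no .no (.br (.br .no (.br .no .no .no (.de 46)) .no .no) .no .no .no) (.br (.br .no (.br .no .no .no (.de 46)) .no .no) .no (.de 44) .no)) .no (.br .no .no (.de 43) .no)) .no .no (.br .no (.br .no .no (.br (.br .no (.br .no .no .no (.de 46)) .no .no) .no .no .no) (.sw 0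 2 [24,25,29,30])) .no .no)) .no .no .no) .no)) .no (.br .no .no (.br (.de 34) .no .no .no) .no)) .no .no (.br .no (.br .no .no (.br (.de 34) .no .no .no) (.sw 0 2 [24,25])) .no .no)) .no) .no .no)) .no .no) .no .no .no) .no)

def c6_0_1 : Cert := (.br (.br .no (.br .no .no (.de 20) (.br .no .no (.br .no .no (.br (.sw 1 3 [9,10,15]) .no .no (.br .no (.br .no .no (.br (.br .no (.br .no .no .no (.br (.br .no .no (.br (.sw 1 3 [9,10,15,22,23]) .no .no (.br .no (.br .no .no (.br (.br .no (.br .no (.br (.br .no .no (.br (.sw 1 3 [9,10,15,22,23,30,31]) .no .no (.de 44)) .no) .no .no .no) .no (.br (.br .no .no (.br (.sw 1 3 [9,10,15,22,23,30,31]) .no .no (.de 44)) .no) (.br (.br .no .no .no (.br .no (.de 45) .no .no)) .no (.sw 0 3 [30]) .no) .no .no)) .no .no) .no .no .no) (.br (.br .no (.br .no (.br (.br .no .no (.br (.br .no (.sw 2 3 [32]) (.sy 36 216 3) .no) .no .no .no) .no) .no .no .no) .no (.br (.br .no .no (.br (.br .no (.sw 2 3 [32]) (.sy 36 216 3) .no) .no .no .no) .no) (.br (.br .no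 .no (.br .no (.br .no .no (.de 41) (.de 46)) .no .no) .no) .no (.sw 0 3 [30]) .no) .no .no)) .no .no) .no (.br .no (.br .no (.br (.br .no .no (.br (.br .no (.br (.br .no .no (.sw 0 3 [22,28]) (.br .no .no (.br .no .no .no (.de 44)) .no)) .no .no (.de 46)) .no .no) .no .no .no) .no) .no .no .no) .no (.br (.br .no .no (.br (.br .no (.br (.br .no .no (.br .no (.br .no .no .no (.de 44)) (.br .no .no .no (.de 44)) .no) .no) .no .no (.de 46)) .no .no) .no .no .no) .no) (.br (.br .no .no (.br (.br .no .no .no (.br .no .no (.de 47) .no)) (.br (.br .no .no (.br .no .no (.br .no .no .no (.de 44)) .no) .no) .no .no (.de 46)) .no .no) .no) .no (.sw 0 3 [30]) .no) .no .no)) .no .no) .no)) .no .no)) .no) (.br (.br .no .no .no (.br .no (.br .no .no (.br (.de 34) .no .no .no) (.br (.de 34) .no (.br (.br .no .no (.br .no (.de 42) .no .no) (.br .no (.br (.br .no .no (.br (.br .no (.br .no .no (.br .no .no (.br .no .no .no (.de 44)) .no) .no) .no (.br .no .no (.de 47) .no)) (.br .no .no .no (.de 46)) .no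 .no) .no) .no (.br (.br .no (.br .no .no .no (.de 46)) .no .no) .no .no .no) .no) (.br (.br .no .no (.br (.sy 36 201 3) (.br .no .no .no (.de 46)) .no .no) .no) .no .no .no) .no)) .no .no .no) .no)) .no .no)) .no (.sw 0 3 [22]) .no) .no .no)) .no .no) .no .no .no) (.br (.br .no (.br .no .no .no (.br (.br .no .no (.br (.br .no (.sw 2 3 [24]) (.sy 28 216 3) .no) .no .no .no) .no) (.br (.br .no .no (.br .no (.br .no .no (.br (.de 34) .no .no .no) (.br (.de 34) .no (.br (.br .no .no (.br .no (.de 42) .no (.br (.br .no .no (.br (.br .no (.br .no .no .no (.br .no (.br .no .no (.br .no .no .no (.br .no (.br .no .no .no (.br .no .no (.br (.sw 2 3 [6]) .no .no .no) .no)) .no .no)) .no) .no .no)) .no (.de 41)) (.br .no .no .no (.de 41)) .no .no) .no) .no .no .no)) (.br .no (.br (.sw 2 3 [24,30]) .no .no (.br (.br .no (.br .no .no .no (.de 46)) .no .no) .no (.de 44) .no)) .no .no)) .no .no .no) .no)) .no .no) .no) .no (.sw 0 3 [22]) .no) .no .no)) .no .no) .no (.br (.br .no (.br (.br .no .no (.br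 (.br .no (.br .no .no .no (.br .no .no (.br .no .no .no (.br .no (.br .no .no .no (.br .no .no (.de 43) .no)) .no (.br .no (.br .no .no (.br (.br .no (.br (.br .no (.sy 38 228 3) (.br .no .no (.br .no .no .no (.de 44)) .no) .no) .no .no .no) .no .no) .no .no .no) (.br (.br .no (.br (.br .no (.sy 38 228 3) (.br .no .no (.de 43) .no) .no) .no .no .no) .no .no) .no (.de 44) .no)) .no .no))) .no)) .no .no) .no .no .no) .no) (.br (.br .no .no (.br (.br .no (.br .no .no (.br (.sy 34 228 6) .no .no (.br .no .no (.br .no (.de 42) .no (.br .no (.br .no .no (.br (.br .no (.br (.de 48) .no .no .no) .no .no) .no .no (.br (.de 41) (.de 46) .no .no)) (.br (.br .no (.br (.de 48) .no .no .no) .no .no) .no .no .no)) .no .no)) (.br .no (.br .no .no .no (.br .no .no (.de 44) .no)) .no .no))) (.br (.br .no .no (.br .no (.de 42) .no (.br .no (.br .no .no (.br (.br .no (.sw 2 3 [33]) (.br .no .no .no (.de 47)) .no) .no .no .no) (.br (.br .no (.sw 2 3 [33]) (.br .no .no .no (.de 47)) .no) .no (.br .no (.br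 .no .no .no (.sy 41 27 6)) .no .no) .no)) .no .no)) (.br .no (.br .no .no .no (.br .no .no (.de 44) .no)) .no .no)) .no .no .no)) .no (.br .no .no (.br (.br .no .no (.br .no (.de 42) .no (.br .no (.br .no .no (.br (.sw 1 3 [32]) (.br .no .no .no (.de 41)) .no .no) .no) .no .no)) (.br .no (.br .no .no .no (.br .no (.sy 35 54 3) (.de 44) .no)) .no .no)) .no .no (.br .no .no (.br .no (.de 42) .no (.br .no (.br .no .no (.br (.sw 1 3 [32]) (.br (.de 41) .no .no .no) .no .no) .no) .no .no)) (.br .no (.br .no .no .no (.br .no (.sy 35 54 3) (.de 44) .no)) .no .no))) .no)) (.br .no .no .no (.br .no .no (.br (.br .no .no (.br .no (.de 42) .no (.br (.br .no .no (.br (.br .no (.br .no .no .no (.br .no (.br .no .no (.br .no .no .no (.sw 0 1 [31,37])) .no) .no .no)) .no (.de 41)) (.br .no .no .no (.de 41)) .no .no) .no) .no .no .no)) (.br .no (.br (.br .no .no (.br (.br .no (.br .no .no (.br .no .no (.br .no .no .no (.de 44)) .no) .no) .no (.br .no .no (.de 47) .no)) (.br .no .no .no (.de 46)) .no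 .no) .no) .no .no (.br (.br .no (.br .no .no .no (.de 46)) .no .no) .no (.de 44) .no)) .no .no)) .no .no (.br .no .no (.br .no (.de 42) .no (.br (.br .no .no (.br (.br .no (.br (.de 48) .no .no .no) .no .no) (.br (.de 41) .no .no .no) .no .no) .no) .no .no .no)) (.br .no (.br (.br .no .no (.br (.br .no (.br (.br .no .no (.de 48) .no) .no (.sw 0 3 [34]) .no) .no .no) (.br (.br .no .no (.br .no .no (.br .no .no .no (.de 44)) .no) .no) .no .no .no) .no .no) .no) .no .no (.br (.br .no (.br (.br .no .no (.br .no .no (.de 43) .no) .no) .no .no .no) .no .no) .no (.de 44) .no)) .no .no))) .no)) .no .no) .no) .no (.sw 0 3 [22]) .no) .no .no) .no (.br (.br .no .no (.br (.br .no (.br .no .no .no (.br .no (.de 34) (.br .no (.sy 27 27 7) .no .no) .no)) .no .no) .no .no .no) .no) (.br (.br .no .no (.br (.br .no (.br .no .no (.br (.sw 1 3 [27]) .no .no .no) .no) .no (.br .no (.br (.sy 33 225 3) .no .no .no) (.br (.sw 1 3 [27]) .no .no .no) .no)) (.br .no .no .no (.br .no (.br (.sy 33 225 3) .no .no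 .no) (.br (.sw 1 3 [27]) .no .no .no) .no)) .no .no) .no) .no (.sw 0 3 [22]) .no) .no .no)) (.br .no .no .no (.sy 27 27 6)) .no .no) .no)) .no .no)) (.br (.br .no (.br .no .no (.br (.br .no (.de 27) .no .no) .no .no .no) (.br (.br .no (.de 27) .no .no) .no (.br (.br .no (.br .no (.br .no .no (.br (.br .no (.br .no .no .no (.br .no .no (.br (.sw 2 3 [21]) .no .no .no) .no)) .no .no) .no .no .no) (.br (.br .no (.br .no .no .no (.br .no .no (.br (.sw 2 3 [21]) .no .no .no) .no)) .no .no) .no (.br (.br .no (.br .no .no (.br (.sw 2 3 [21]) .no .no .no) (.br (.sw 2 3 [21]) .no (.br (.br .no (.br .no .no .no (.br .no .no (.de 44) .no)) .no .no) .no (.br (.br .no (.br .no .no (.br (.br .no (.br (.de 48) .no .no (.sw 0 2 [34])) .no .no) .no .no .no) (.br (.br .no (.br (.de 48) .no .no (.sw 0 2 [34])) .no .no) .no (.br (.br .no .no .no (.br .no (.br .no .no (.de 44) (.br .no .no (.br .no (.br .no .no .no (.br .no .no (.br (.sw 2 3 [6]) .no .no .no) .no)) .no .no) .no)) .no .no)) (.br (.de 48) .no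 .no (.sw 0 2 [34])) .no .no) .no)) .no (.br .no .no (.de 44) .no)) (.de 42) .no .no) .no) .no)) .no (.br .no .no (.br (.sw 2 3 [21]) .no .no .no) .no)) (.br .no .no .no (.br .no .no (.br (.sw 2 3 [21]) .no .no .no) .no)) .no .no) .no)) (.br .no .no .no (.br (.br .no (.br .no .no .no (.br .no .no (.br (.sw 1 3 [9,10,15,21,27]) .no .no .no) .no)) .no .no) .no (.br (.br .no (.br .no .no (.br (.sw 1 3 [9,10,15,21,27]) .no .no .no) (.br (.br (.br .no (.br .no .no .no (.br .no .no (.de 44) .no)) .no .no) (.br (.br .no (.br .no .no (.br (.br .no (.sw 2 3 [33]) (.sw 1 3 [9,10,15,21,27,32,33]) .no) .no .no .no) (.br (.br .no (.sw 2 3 [33]) (.br .no .no .no (.de 47)) .no) .no (.br .no (.br .no .no .no (.br .no .no (.br .no .no .no (.br .no .no (.br .no (.br .no .no .no (.sw 0 2 [39])) .no .no) .no)) .no)) .no .no) .no)) .no (.br .no .no (.de 44) .no)) .no .no .no) .no .no) .no .no .no)) .no (.br .no .no (.br (.sw 1 3 [9,10,15,21,27]) .no .no .no) .no)) (.br .no .no .no (.br .no .no (.br (.sw 1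 3 [9,10,15,21,27]) .no .no .no) .no)) .no .no) .no)) .no) .no .no) (.de 27) .no .no) .no)) .no (.br .no .no (.br (.br .no (.de 27) .no .no) .no .no .no) .no)) .no .no .no)) .no)) .no (.br .no .no (.de 20) .no)) .no .no (.br .no (.br .no .no (.de 20) (.br .no .no (.br .no .no (.br (.br .no (.br (.br .no .no (.br (.br .no (.sy 22 228 6) .no (.br .no (.br .no .no (.br .no .no .no (.br .no (.br .no .no .no (.br .no (.sy 30 54 3) (.br (.sw 1 3 [27]) .no .no .no) .no)) .no .no)) (.br .no .no (.br .no (.sw 0 3 [17,24]) .no (.br .no (.br .no .no (.br (.sw 1 3 [27]) .no .no .no) .no) .no .no)) .no)) .no (.br .no .no (.br .no .no .no (.br .no (.br .no .no .no (.br .no (.sy 30 54 3) (.br (.sw 1 3 [27]) (.sy 28 27 6) .no .no) .no)) .no .no)) .no))) (.br .no .no .no (.br .no (.br .no .no (.br .no .no .no (.br .no (.br (.br .no .no (.br (.br (.br .no (.br (.br .no .no (.br .no (.br .no .no .no (.de 46)) .no (.br .no (.de 46) .no .no)) (.br .no (.de 45) .no .no)) .no (.sw 0 3 [17,24,30]) .no) .no .no)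 .no .no (.br (.br .no .no (.br .no .no .no (.de 44)) .no) (.br (.br .no .no (.br .no (.br .no .no .no (.de 46)) .no (.br .no (.de 46) .no .no)) (.br .no (.de 45) .no .no)) .no (.sw 0 3 [17,24,30]) .no) .no .no)) .no .no .no) .no) .no .no (.br (.de 34) .no (.sw 0 1 [26]) .no)) .no .no)) (.br .no .no (.br .no (.sw 0 3 [17,24]) .no (.br (.br .no .no (.br (.br (.br .no (.br (.br .no (.sy 35 228 3) (.sw 1 3 [31]) .no) .no .no .no) .no .no) .no (.br (.br .no (.br .no .no (.br .no (.sw 0 3 [17,24,31,32]) .no (.sw 0 1 [26,32])) .no) .no .no) (.de 42) .no .no) .no) .no .no .no) .no) .no .no .no)) .no)) .no (.br .no .no (.br .no .no .no (.br .no (.br (.br .no .no (.br (.br (.br .no (.br (.br .no .no (.br .no (.br .no .no .no (.de 46)) .no (.br .no (.de 46) .no .no)) (.br .no (.de 45) .no .no)) .no (.sw 0 3 [17,24,30]) .no) .no .no) (.br (.br .no .no (.br .no .no .no (.de 44)) .no) .no .no .no) .no .no) (.br (.br .no (.br (.br .no .no (.br .no (.br (.br .no .no (.de 48) .no) .no .no (.de 46)) .no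 (.br (.br .no .no (.de 48) .no) .no .no .no)) (.br .no (.de 45) .no .no)) .no (.sw 0 3 [17,24,30]) .no) .no .no) (.br (.br .no .no (.br .no .no .no (.de 44)) .no) .no .no .no) .no .no) .no .no) .no) .no .no (.br (.br .no (.br (.br .no (.br (.br .no .no (.br .no (.br .no .no (.de 41) (.de 46)) .no .no) .no) .no (.sw 0 3 [17,24,30]) .no) .no .no) (.br (.br .no .no (.br (.br .no (.br .no .no (.br (.sy 41 228 6) .no .no .no) (.de 46)) (.sy 36 216 3) .no) .no .no .no) .no) .no .no .no) .no .no) .no .no) .no (.sw 0 1 [26]) .no)) .no .no)) .no))) .no .no) .no) .no (.sw 0 3 [17]) .no) .no .no) .no .no (.br (.br .no .no (.br (.br .no (.br .no .no .no (.br (.br .no (.br .no .no .no (.br .no (.br .no .no (.br (.br .no (.sy 33 228 3) .no .no) .no .no .no) (.sw 0 2 [16,23,24,25])) .no .no)) (.br .no (.br .no .no .no (.br .no .no (.br (.br .no (.br .no (.br (.br .no .no (.br (.br .no (.br .no .no (.br .no .no .no (.de 47)) (.de 46)) .no (.br .no .no (.br .no .no .no (.de 47)) .no)) (.br .no .no .no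 (.de 45)) .no .no) .no) .no .no (.br (.br .no (.br .no .no .no (.de 45)) .no .no) .no (.de 43) .no)) .no (.br (.br .no .no (.br (.br .no (.br .no .no (.de 41) (.de 46)) .no (.br .no .no (.de 41) .no)) (.br .no .no .no (.de 45)) .no .no) .no) .no .no .no)) .no .no) .no .no .no) .no)) .no (.br .no (.br .no .no (.br (.br .no (.br .no (.br (.br .no .no (.br (.sw 1 3 [30,31]) .no .no (.de 44)) .no) .no .no .no) .no (.br (.sw 1 2 [29]) (.br (.br .no .no .no (.br .no (.de 45) .no .no)) .no (.br (.br .no (.br .no .no (.de 41) (.de 46)) .no (.br .no .no (.de 41) .no)) .no .no (.de 44)) .no) .no .no)) .no .no) .no .no .no) (.br (.br .no (.br .no (.br (.br .no .no (.br (.br .no (.sw 2 3 [32]) (.sy 36 216 3) .no) .no .no .no) .no) .no .no .no) .no (.br (.sw 1 2 [29]) (.br (.br .no .no (.br .no (.br .no .no (.de 41) (.de 46)) .no .no) .no) .no (.br (.br .no (.sw 2 3 [32]) (.br .no .no .no (.br .no .no (.de 47) .no)) .no) .no .no .no) .no) .no .no)) .no .no) .no (.br .no (.br .no (.br (.br .no .no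 (.br (.br .no (.br (.br .no .no (.sy 36 216 6) (.br .no .no (.br .no .no .no (.de 44)) .no)) .no .no (.de 46)) .no .no) .no .no .no) .no) .no .no .no) .no (.br (.sw 1 2 [29]) (.br (.br .no .no (.br (.br .no .no .no (.br .no .no (.de 47) .no)) (.br (.br .no .no (.br .no .no (.br .no .no .no (.de 44)) .no) .no) .no .no (.de 46)) .no .no) .no) .no (.br (.br .no (.br (.br .no .no (.br .no .no (.br .no .no .no (.de 44)) .no) .no) .no .no (.de 46)) .no .no) .no .no .no) .no) .no .no)) .no .no) .no)) .no .no)) .no) (.br .no .no (.br .no (.sw 0 3 [17,22,23]) .no (.br .no (.br .no .no (.br (.de 34) .no .no .no) (.br (.de 34) .no (.br (.br (.br .no (.br (.br .no .no (.br (.br .no (.br .no .no (.de 48) (.br .no .no (.de 48) .no)) .no (.br .no .no (.de 47) .no)) (.br .no .no .no (.de 46)) .no .no) .no) .no (.sw 0 3 [17,22,23,30]) .no) .no .no) .no .no (.br (.br .no .no (.br (.br .no (.br .no .no .no (.de 46)) .no .no) .no .no .no) .no) (.sw 0 2 [16,23,24,25,29]) .no .no)) .no .no .no) .no)) .no .no))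 .no) .no .no)) .no .no) .no .no .no) .no) (.sw 0 2 [16]) .no .no)) (.br (.br .no (.br (.br .no .no (.br (.br .no (.br .no (.br .no .no (.sy 22 228 7) (.sw 0 2 [16,22])) (.br .no .no .no (.br .no .no (.br .no (.sw 0 3 [17,24]) .no (.sy 28 78 3)) .no)) .no) .no .no) (.de 27) .no .no) .no) .no (.sw 0 3 [17]) .no) .no .no) .no .no .no)) .no)) .no .no))

def c6_0_2 : Cert := (.br .no .no (.br (.br .no .no (.br .no (.br (.br .no .no (.br (.sw 1 3 [9,10,17,18]) .no .no (.br .no (.br .no .no .no (.br (.br .no .no (.br .no (.sw 0 3 [17,23]) .no (.br (.br .no .no (.br (.br .no (.br .no (.br (.br .no (.br .no .no .no (.br .no (.de 45) .no .no)) (.sw 1 3 [30]) .no) .no .no .no) .no (.br (.br .no (.br .no .no .no (.br .no (.de 45) .no .no)) (.sw 1 3 [30]) .no) (.br .no .no (.br .no (.sw 0 3 [17,23,25,30,31]) .no (.de 44)) .no) .no .no)) .no .no) .no .no .no) .no) (.br (.br .no .no (.br .no (.br .no (.br (.br .no .no (.br .no .no .no (.de 44)) .no) .no .no .no) .no (.br (.br .no .no (.br .no .no .no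 (.de 44)) .no) (.br (.br .no .no (.br .no (.sw 0 3 [25,32]) .no (.br (.br .no .no (.br .no .no (.br .no .no .no (.de 44)) .no) .no) .no .no .no)) (.br .no (.de 45) .no .no)) .no (.sw 0 3 [17,23,30]) .no) .no .no)) .no .no) .no) .no (.sw 0 3 [25]) .no) .no .no)) (.br .no (.br (.br .no .no (.br (.br .no (.br .no (.br (.sw 2 3 [29]) .no (.de 42) .no) (.br (.br .no .no (.br .no (.sw 0 3 [25,31]) .no (.de 44)) (.br .no (.br .no .no .no (.de 45)) .no .no)) .no .no .no) .no) .no .no) .no .no .no) .no) .no .no .no) .no .no)) .no .no (.br .no .no (.br .no (.sw 0 3 [17,23]) .no (.br (.br .no .no (.br (.br .no (.br (.br .no (.br .no .no (.br .no (.sw 0 3 [17,23,25,30,31]) .no (.de 44)) .no) .no .no) (.br (.br .no (.br .no .no .no (.br .no (.de 45) .no .no)) (.sw 1 3 [30]) .no) .no .no .no) .no .no) .no .no) .no .no .no) .no) (.br (.br .no .no (.br (.br (.br .no (.br (.br .no .no (.br .no (.sw 0 3 [25,32]) .no (.br .no (.de 46) .no .no)) (.br .no (.de 45) .no .no)) .no (.sw 0 3 [17,23,30]) .no) .no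 .no) (.br (.br .no .no (.br .no .no .no (.de 44)) .no) .no .no .no) .no .no) (.br (.br .no (.br (.br .no .no (.br .no (.sw 0 3 [25,32]) .no (.br (.br .no .no (.de 48) .no) .no .no .no)) (.br .no (.de 45) .no .no)) .no (.sw 0 3 [17,23,30]) .no) .no .no) (.br (.br .no .no (.br .no .no .no (.de 44)) .no) .no .no .no) .no .no) .no .no) .no) .no (.sw 0 3 [25]) .no) .no .no)) .no))) .no .no)) .no) .no .no .no) .no (.br (.br .no .no (.br (.sw 1 3 [9,10,17,18]) .no .no (.br .no (.br .no .no .no (.br (.br .no (.br .no .no .no (.br (.br .no .no (.br (.br .no (.sy 33 228 3) .no .no) .no .no .no) .no) (.br (.br .no .no (.br .no (.br .no .no (.br (.br .no .no (.br .no .no .no (.de 44)) .no) .no .no .no) (.br (.br .no .no (.br .no .no .no (.de 44)) .no) .no (.br (.br .no .no (.br .no (.sw 0 3 [25,32]) .no (.br (.br .no .no (.sy 41 78 6) .no) .no .no .no)) (.br .no (.de 45) .no .no)) .no .no .no) .no)) .no .no) .no) .no (.sw 0 3 [25]) .no) .no .no)) (.sw 1 3 [22]) .no) (.br .no .no (.br .no (.br (.br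 .no .no (.br (.de 34) .no .no .no) .no) .no .no .no) .no (.br (.br .no .no (.br (.de 34) .no .no .no) .no) (.br (.br .no .no (.br (.br (.br .no (.br (.br .no .no (.br .no (.sw 0 3 [25,32]) .no (.br .no (.de 46) .no .no)) (.br .no (.de 45) .no .no)) .no (.br .no .no .no (.de 44)) .no) .no .no) .no .no (.br (.br .no .no (.br .no .no .no (.de 44)) .no) (.br (.br .no .no (.br .no (.sw 0 3 [25,32]) .no (.br .no (.de 46) .no .no)) (.br .no (.de 45) .no .no)) .no (.br .no .no .no (.de 44)) .no) .no .no)) .no .no .no) .no) .no (.sw 0 3 [25]) .no) .no .no)) .no) .no .no)) .no .no)) .no) (.br (.br .no .no .no (.br .no (.br .no .no .no (.br (.br .no .no (.br .no .no .no (.br .no (.br (.br .no .no (.br .no (.sy 25 39 9) .no .no) .no) .no (.sy 25 39 7) .no) (.br (.br .no .no (.br .no (.sy 25 39 9) .no .no) .no) .no .no .no) .no)) .no) (.br (.br .no .no (.br .no (.br (.br .no .no (.br (.sy 32 216 6) .no .no .no) .no) .no (.sw 0 3 [17,24,25]) .no) .no .no) (.br .no (.br (.br .no .no (.br (.br .no .no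 (.br .no (.de 42) .no .no) (.br .no (.br (.sw 2 3 [30]) .no (.br .no .no .no (.de 44)) .no) (.br (.br .no .no (.br .no (.br .no .no .no (.de 46)) .no (.br .no (.de 46) .no .no)) (.br .no (.de 45) .no .no)) .no .no .no) .no)) .no .no .no) .no) .no (.sy 25 39 7) .no) (.br (.br .no .no (.br (.sy 31 201 3) .no .no .no) .no) .no .no .no) .no)) .no (.br .no .no .no (.br .no (.br (.br .no .no (.br (.br (.br .no (.br (.br .no .no (.br .no (.br .no .no .no (.de 46)) .no (.sy 25 39 14)) (.br .no (.de 45) .no .no)) .no (.br .no .no .no (.de 44)) .no) .no .no) .no .no (.br (.br .no .no (.br .no .no .no (.de 44)) .no) (.sw 0 2 [29]) .no .no)) .no .no .no) .no) .no (.sy 25 39 7) .no) (.br (.br .no .no (.br (.sy 31 201 3) .no .no .no) .no) .no .no .no) .no)) .no) .no .no)) .no .no)) .no (.sw 0 3 [17]) .no) .no .no)) (.br .no (.br (.br .no .no (.br (.sw 1 3 [9,10,17,18]) .no .no (.br .no (.br .no .no (.br (.br .no .no (.br .no (.sw 0 3 [17,23]) .no (.br (.br .no .no (.br (.sw 1 3 [9,10,17,18,25,26])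 .no .no (.br .no (.br .no (.br (.br .no (.br .no .no .no (.br (.br .no .no (.br .no .no .no (.de 47)) .no) (.de 45) .no .no)) (.sw 1 3 [30]) .no) .no .no .no) .no (.br (.br .no (.br .no .no .no (.br (.br .no .no (.de 41) .no) (.de 45) .no .no)) (.sw 1 3 [30]) .no) (.br .no .no (.br .no (.sw 0 3 [17,23,25,30,31]) .no (.de 44)) .no) .no .no)) .no .no)) .no) (.br (.br .no .no .no (.br .no (.br .no (.br (.br .no .no (.br .no .no .no (.de 44)) .no) .no .no .no) .no (.br (.br .no .no (.br .no .no .no (.de 44)) .no) (.br (.br .no .no (.br .no (.br (.sw 2 3 [21,27,33]) .no (.de 41) .no) .no .no) (.br .no (.de 45) (.br (.br .no .no (.br .no .no (.br .no .no .no (.br .no .no (.br .no (.br .no .no .no (.de 47)) .no .no) .no)) .no) .no) .no .no .no) .no)) .no (.sw 0 3 [17,23,30]) .no) .no .no)) .no .no)) .no (.sw 0 3 [25]) .no) .no .no)) (.br .no (.br (.br .no .no (.br (.sw 1 3 [9,10,17,18,25,26]) .no .no (.br .no (.br .no (.br (.sw 2 3 [29]) .no (.de 42) .no) (.br (.br .no .no (.br .no (.sw 0 3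 [25,31]) .no (.de 44)) (.br .no (.br (.br .no .no (.br .no .no .no (.de 47)) .no) .no .no .no) .no .no)) .no .no .no) .no) .no .no)) .no) .no .no .no) .no .no)) .no (.br .no .no .no (.br .no (.br (.br .no .no (.br (.sw 1 3 [9,10,17,18,25,26]) .no .no (.br (.br (.br .no .no (.br .no .no .no (.de 43)) .no) (.br (.br .no .no (.br .no (.sw 0 3 [25,31]) .no (.de 44)) (.br .no (.br (.br .no (.br .no .no .no (.sy 38 177 6)) (.sw 1 3 [9,10,17,18,25,26,33]) .no) .no .no .no) .no .no)) .no (.de 42) .no) .no .no) (.br (.br .no .no (.br .no .no .no (.de 43)) .no) (.br (.br .no .no (.br .no (.sw 0 3 [25,31]) .no (.de 44)) (.br .no (.br (.br .no .no (.br (.br .no .no (.de 43) .no) .no .no (.de 47)) .no) .no .no .no) .no .no)) .no (.de 42) .no) .no .no) .no .no)) .no) .no .no .no) .no .no)) .no) .no) .no .no)) .no) .no .no .no) .no .no)) .no .no .no) (.br (.br .no .no (.br .no (.br (.br .no .no (.br (.br .no (.sw 2 3 [19]) (.sy 23 216 3) .no) .no .no .no) .no) .no .no .no) .no (.br (.br .no .no (.br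 (.br .no (.sw 2 3 [19]) (.sy 23 216 3) .no) .no .no .no) .no) (.br (.br .no .no (.br .no (.br .no .no .no (.br (.br .no .no (.br .no .no .no (.br .no (.br (.sw 2 3 [19,25]) .no .no (.br (.br .no (.br .no (.br (.br .no .no (.br (.br .no (.sw 2 3 [19,25,32]) (.sy 36 216 3) .no) .no .no .no) .no) .no .no .no) .no (.br (.br .no .no (.br (.br .no (.sw 2 3 [19,25,32]) (.sy 36 216 3) .no) .no .no .no) .no) (.br (.br .no .no (.br .no (.br .no .no (.de 41) (.de 46)) .no .no) .no) .no (.sw 0 3 [17,24,30]) .no) .no .no)) .no .no) .no (.br .no (.br .no (.br (.br .no .no (.br (.br .no (.br (.br .no .no (.sy 36 216 6) (.br .no .no (.br .no .no .no (.de 44)) .no)) .no .no (.de 46)) .no .no) .no .no .no) .no) .no .no .no) .no (.br (.br .no .no (.br (.br .no (.br (.br .no .no (.br .no (.br .no .no .no (.de 44)) (.br .no .no .no (.de 44)) .no) .no) .no .no (.de 46)) .no .no) .no .no .no) .no) (.br (.br .no .no (.br (.br .no .no .no (.br .no .no (.de 47) .no)) (.sw 0 3 [32]) .no .no) .no) .no (.sw 0 3 [17,24,30])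 .no) .no .no)) .no .no) .no)) .no .no)) .no) (.br (.br .no .no (.br .no (.sw 0 3 [17,24]) .no (.br (.br .no .no (.br (.br .no .no (.br .no (.de 42) .no (.br (.br .no (.br .no .no .no (.de 45)) (.sw 1 3 [31]) .no) (.br .no .no (.br .no (.sw 0 3 [17,24,31,32]) .no (.br .no (.de 46) .no .no)) .no) .no .no)) (.br .no (.br (.br .no (.sw 2 3 [19,25,30,31]) (.sw 1 3 [31]) .no) .no .no .no) .no .no)) .no .no .no) .no) .no .no .no)) (.br .no (.br (.sw 2 3 [19,25]) .no .no (.br (.de 34) .no (.br (.br .no .no (.br .no (.de 42) .no .no) (.br .no (.br (.sw 2 3 [30]) .no (.br (.br .no (.br .no .no .no (.de 46)) .no .no) .no .no .no) .no) (.br (.br .no .no (.br (.sy 36 201 3) (.sw 0 3 [32]) .no .no) .no) .no .no .no) .no)) .no .no .no) .no)) .no .no)) .no (.br .no .no .no (.br .no (.br (.sw 2 3 [19,25]) .no .no (.br (.de 34) .no (.br (.br (.br .no (.br (.br .no .no (.br (.br .no (.br .no .no (.de 48) (.br .no .no (.de 48) .no)) .no (.br .no .no (.de 47) .no)) (.sw 0 3 [32]) .no .no) .no) .no (.sw 0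 3 [17,24,30]) .no) .no .no) .no .no (.br (.br .no .no (.br (.br .no (.br .no .no .no (.de 46)) .no .no) .no .no .no) .no) (.sw 0 2 [29]) .no .no)) .no .no .no) .no)) .no .no)) .no) .no .no)) .no .no) .no) .no (.sw 0 3 [17]) .no) .no .no)) (.br .no (.br (.br .no .no (.br (.br .no (.sw 2 3 [19]) (.de 27) .no) .no .no .no) .no) .no .no .no) .no .no)) .no (.br .no .no (.br .no (.br (.br .no .no (.br (.br .no (.br (.sy 23 216 6) .no .no (.sw 0 2 [20])) .no .no) .no .no .no) .no) .no .no .no) .no (.br (.br .no .no (.br (.br .no (.br (.br (.br .no (.br .no .no .no (.br .no (.br .no .no (.sy 23 216 9) (.sy 29 114 3)) .no .no)) (.sw 1 3 [22]) .no) (.br .no .no (.br .no (.sy 23 216 7) .no (.br .no (.br .no .no (.sy 23 216 9) (.br .no .no (.br .no .no .no (.sy 30 39 6)) .no)) .no .no)) .no) .no .no) .no .no (.sw 0 2 [20])) .no .no) .no .no .no) .no) (.br (.br .no .no (.br (.br .no .no .no (.sw 0 1 [14,15])) (.br (.br (.br .no .no (.br .no .no .no (.br .no (.br (.br .no .no (.br .no (.br .no (.br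 (.br .no .no (.br .no .no .no (.de 44)) .no) .no .no .no) .no (.br (.br .no .no (.br .no .no .no (.de 44)) .no) (.br (.br .no .no (.br .no (.br (.br .no .no (.br .no .no (.br .no .no .no (.de 44)) .no) .no) .no .no (.de 46)) .no (.br (.br .no .no (.br .no .no (.br .no .no .no (.de 44)) .no) .no) .no .no .no)) (.br .no (.de 45) .no .no)) .no (.sw 0 3 [17,24,30]) .no) .no .no)) .no (.br .no (.br (.br .no .no (.br .no .no .no (.de 44)) .no) .no .no .no) .no (.br (.br .no .no (.br .no .no .no (.de 44)) .no) (.br (.br .no .no (.br .no (.br (.br .no (.br .no .no (.br .no .no .no (.de 44)) .no) (.sw 1 3 [34]) .no) .no .no .no) .no (.br (.br .no (.br .no .no (.br .no .no .no (.de 44)) .no) (.sw 1 3 [34]) .no) (.de 46) .no .no)) (.br .no (.de 45) .no .no)) .no (.sw 0 3 [17,24,30]) .no) .no .no))) (.br .no (.br .no (.br (.br .no .no (.br .no .no .no (.de 44)) .no) .no .no .no) .no (.br (.br .no .no (.br .no .no .no (.de 44)) .no) (.br (.br .no .no (.br .no (.br (.sw 2 3 [33]) .no (.de 41) .no)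 .no .no) (.br .no (.de 45) (.br (.br .no .no (.br .no .no (.br .no .no .no (.br .no .no (.br .no (.br .no .no .no (.de 47)) .no .no) .no)) .no) .no) .no .no .no) .no)) .no (.sw 0 3 [17,24,30]) .no) .no .no)) .no .no)) .no .no (.br .no .no (.br .no (.br .no (.br (.br .no .no (.br (.br .no (.br (.br .no .no (.sy 36 216 6) (.br .no .no (.br .no .no .no (.de 44)) .no)) .no .no (.de 46)) .no .no) .no .no .no) .no) .no .no .no) .no (.br (.br .no .no (.br (.br .no (.br (.br .no .no (.br .no (.br .no .no .no (.de 44)) (.br .no .no .no (.de 44)) .no) .no) .no .no (.de 46)) .no .no) .no .no .no) .no) (.br (.br .no .no (.br (.br .no .no .no (.br .no .no (.de 47) .no)) (.sw 0 3 [32]) .no .no) .no) .no (.sw 0 3 [17,24,30]) .no) .no .no)) .no (.sw 0 1 [14,15,26,27])) .no)) .no .no)) .no) (.br (.br .no .no (.br .no (.sw 0 3 [17,24]) .no (.br (.br .no .no (.br .no .no .no (.br .no .no (.br .no (.de 42) .no (.br (.br .no (.br .no .no .no (.de 45)) (.sw 1 3 [31]) .no) (.br .no .no (.br .no (.sw 0 3 [17,24,31,32])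 .no (.sw 0 1 [14,15,26,27,32])) .no) .no .no)) (.br .no (.br (.br .no (.br .no .no .no (.de 45)) (.sw 1 3 [31]) .no) .no .no .no) .no .no))) (.de 34)) .no .no .no)) (.br .no (.br (.br .no .no (.br .no .no .no (.br .no .no (.br .no (.de 42) .no .no) (.br .no (.br (.sw 2 3 [30]) .no (.br .no .no .no (.de 44)) .no) (.br (.br .no .no (.br .no (.br (.br .no .no (.br .no (.br .no .no .no (.de 44)) .no .no) .no) .no .no .no) .no (.br (.br .no .no (.sy 41 78 6) .no) (.de 46) .no .no)) (.br .no (.de 45) .no .no)) .no .no .no) .no))) (.de 34)) .no .no (.br .no .no (.br .no .no .no (.sw 0 1 [14,15,26,27])) .no)) .no .no)) .no (.br .no .no .no (.br .no (.br (.br .no .no (.br .no .no .no (.br (.br .no (.br (.br .no .no (.br .no (.br (.br .no .no (.de 48) .no) .no .no .no) .no (.br (.br .no .no (.de 48) .no) (.de 46) .no .no)) (.br .no (.de 45) .no .no)) .no (.sw 0 3 [17,24,30]) .no) .no .no) .no .no (.br (.br .no .no (.br .no .no .no (.de 44)) .no) (.sw 0 2 [29]) .no .no))) (.de 34)) .no .no (.br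 .no .no (.br .no .no .no (.sw 0 1 [14,15,26,27])) .no)) .no .no)) .no) .no .no) .no .no (.sw 0 2 [20])) .no .no) .no) .no (.sw 0 3 [17]) .no) .no .no)) (.br .no (.br (.br .no .no (.br (.br .no (.br (.br (.br .no .no (.br .no (.sw 0 3 [17,23]) .no (.br .no (.br .no .no (.br .no .no .no (.br .no (.sw 2 3 [21]) (.br .no (.br (.br .no .no (.br (.sw 1 3 [30,31]) .no .no (.de 44)) .no) .no .no .no) .no (.br (.br .no .no (.br (.sw 1 3 [30,31]) .no .no (.de 44)) .no) (.br (.br .no .no .no (.br (.sy 32 78 7) (.de 45) .no .no)) .no (.sw 0 3 [17,23,30]) .no) .no .no)) .no)) (.br .no .no (.br .no (.sw 2 3 [21]) .no .no) .no)) .no .no)) (.br .no (.br .no .no .no (.br .no .no (.br .no .no .no (.br .no (.sw 2 3 [21]) (.sy 31 30 3) .no)) .no)) .no .no)) .no (.br .no .no .no (.br .no (.br .no .no .no (.br .no .no (.br .no .no .no (.br .no (.sw 0 2 [20,27]) .no .no)) .no)) .no .no)) .no) .no .no .no) .no .no) .no .no .no) .no) .no .no .no) .no .no)) .no))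

def c6_0_3 : Cert := (.br (.br .no .no (.br .no (.br .no .no (.de 20) (.br .no .no (.br .no .no (.br .no .no .no (.br .no (.br (.sw 2 3 [11,17]) .no .no (.br (.br .no (.br .no .no .no (.br (.br .no .no (.br (.br .no (.sw 2 3 [11,17,24]) (.sy 28 216 3) .no) .no .no .no) .no) (.br (.br .no .no (.br .no (.br .no .no (.br (.de 34) .no .no .no) (.br (.de 34) .no (.br (.br .no .no (.br .no (.de 42) .no (.br (.br .no .no (.br (.br .no (.br .no .no .no (.br .no (.br .no .no (.br .no .no .no (.br .no (.br .no .no .no (.sw 1 2 [3,10,17,18,23,30,31,38,45])) .no .no)) .no) .no .no)) .no (.de 41)) (.br .no .no .no (.de 41)) .no .no) .no) .no .no .no)) (.br .no (.br (.sw 2 3 [11,17,24,30]) .no .no (.br (.br .no (.br .no .no .no (.de 46)) .no .no) .no (.de 44) .no)) .no .no)) .no .no .no) .no)) .no .no) .no) .no (.br (.br .no (.sw 2 3 [11,17,24]) (.br .no .no .no (.br (.de 34) .no (.br (.br (.br .no (.br .no .no .no (.br (.sw 1 2 [31]) (.br (.br .no (.br .no .no (.de 48) (.sy 36 114 6)) .no (.sy 29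 141 11)) .no .no .no) .no .no)) .no (.sy 29 141 7)) .no .no (.br .no (.br .no .no .no (.br (.sw 1 2 [31]) (.sy 35 54 3) .no .no)) .no .no)) .no .no .no) .no)) .no) .no .no .no) .no) .no .no)) .no .no) .no (.br (.br .no (.br (.br .no .no (.br (.br .no (.br .no .no .no (.br .no .no (.br .no .no .no (.br .no (.br .no .no .no (.br .no .no (.de 43) .no)) .no (.br .no (.br .no .no (.sw 0 3 [24,30]) (.br (.br .no (.br (.br .no (.sy 38 228 3) (.br .no .no (.de 43) .no) .no) .no .no .no) .no .no) .no (.de 44) .no)) .no .no))) .no)) .no .no) .no .no .no) .no) (.br (.br .no .no (.br (.br .no (.br .no .no (.br (.sy 34 228 6) .no .no (.br .no .no (.br .no (.de 42) .no (.br .no (.br .no .no (.sw 0 3 [24,31]) (.br (.br .no (.br (.de 48) .no .no .no) .no .no) .no .no .no)) .no .no)) (.br .no (.br .no .no .no (.br .no .no (.de 44) .no)) .no .no))) (.br (.br .no .no (.br .no (.de 42) .no (.br .no (.br .no .no (.sw 0 3 [24,31]) (.br (.br .no (.sw 2 3 [33]) (.br .no .no .no (.de 47)) .no) .no (.br .no (.br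 .no .no .no (.sy 41 27 6)) .no .no) .no)) .no .no)) (.br .no (.br .no .no .no (.br .no .no (.de 44) .no)) .no .no)) .no .no .no)) .no (.br .no .no (.br (.br .no .no (.br .no (.de 42) .no (.br .no (.br .no .no (.br (.sw 1 3 [32]) (.br .no .no .no (.de 41)) .no .no) .no) .no .no)) (.br .no (.br .no .no .no (.br .no (.sy 35 54 3) (.de 44) .no)) .no .no)) .no .no (.br .no .no (.br .no (.de 42) .no (.br .no (.br .no .no (.br (.sw 1 3 [32]) (.br (.de 41) .no .no .no) .no .no) .no) .no .no)) (.br .no (.br .no .no .no (.br .no (.sy 35 54 3) (.de 44) .no)) .no .no))) .no)) (.sw 0 3 [24]) .no .no) .no) .no (.br (.br .no (.br .no .no .no (.br .no .no (.br (.br (.br .no (.br .no .no (.sw 0 3 [24,30]) (.br (.br .no (.br .no .no .no (.de 46)) .no .no) .no (.de 44) .no)) .no (.br .no .no (.de 43) .no)) .no .no (.br .no (.br .no .no (.sw 0 3 [24,30]) (.sw 0 2 [29,30])) .no .no)) .no .no (.br (.br .no (.br .no .no (.sw 0 3 [24,30]) (.br (.br .no (.br (.br .no .no (.de 48) .no) .no .no .no) .no .no) .no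 (.de 44) .no)) .no (.br .no .no (.de 43) .no)) .no .no (.br .no (.br .no .no (.sw 0 3 [24,30]) (.sw 0 2 [29,30])) .no .no))) .no)) .no .no) .no .no .no) .no) .no .no) .no (.br (.br .no .no (.br (.br .no (.br .no .no .no (.br .no (.de 34) (.br .no (.sy 27 27 7) .no .no) .no)) .no .no) .no .no .no) .no) (.br (.br .no .no (.br (.br .no (.br .no .no (.br (.sw 1 3 [27]) .no .no .no) .no) .no (.br .no (.br (.sy 33 225 3) .no .no .no) (.br (.sw 1 3 [27]) .no .no .no) .no)) (.sw 0 3 [24]) .no .no) .no) .no (.br (.br .no (.br .no .no .no (.br .no (.br (.sy 27 27 9) .no .no .no) (.br (.sw 1 3 [27]) .no .no .no) .no)) .no .no) .no .no .no) .no) .no .no)) (.br .no .no .no (.sy 27 27 6)) .no .no) .no)) .no .no)) (.br .no .no (.br .no (.br (.sw 2 3 [11,17]) .no .no (.br (.br .no (.de 27) .no .no) .no (.br (.br .no (.br (.br .no .no .no (.br (.br .no (.br .no .no .no (.br .no .no (.de 34) .no)) .no .no) .no (.br (.br .no (.br .no .no (.de 34) (.br .no .no (.br .no (.br (.br .no (.br .no .no (.sw 0 3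 [24,31]) (.br (.br .no (.br .no .no .no (.sy 40 114 6)) .no .no) .no (.br (.br .no .no .no (.br .no .no (.br .no .no .no (.br .no .no (.br .no (.sw 0 3 [24,31,38]) .no .no) .no)) .no)) (.br .no .no .no (.br .no .no (.br .no .no .no (.br .no .no (.br .no (.sw 0 3 [24,31,38]) .no .no) .no)) .no)) .no .no) .no)) .no (.br .no .no (.de 44) .no)) .no .no .no) (.br (.br .no (.br .no .no (.sw 0 3 [24,31]) (.br (.br .no (.br .no .no .no (.br .no (.br .no .no (.de 44) (.br .no .no (.br .no (.sw 2 3 [38,43,44]) .no .no) .no)) .no .no)) .no .no) .no (.br (.br .no (.br .no (.br .no .no (.de 44) (.br .no .no (.br .no (.sw 0 3 [24,31,38]) .no .no) .no)) .no .no) .no (.br .no (.br .no .no (.de 44) (.br .no .no (.br .no (.sw 0 3 [24,31,38]) .no .no) .no)) .no .no)) (.br .no .no .no (.br .no (.br .no .no (.de 44) (.br .no .no (.br .no (.sw 0 3 [24,31,38]) .no .no) .no)) .no .no)) .no .no) .no)) .no (.br .no .no (.de 44) .no)) (.de 42) .no .no) .no) .no)) .no (.br .no .no (.de 34) .no)) (.sw 0 3 [24]) .no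 .no) .no)) (.br (.br .no .no (.br (.br .no (.br .no .no (.br (.sw 2 3 [21,22]) .no .no .no) (.br (.sw 2 3 [21,22]) .no (.br .no .no (.br .no (.de 42) .no (.br .no (.br .no .no (.sw 0 3 [24,31]) (.br (.br .no (.br (.de 48) .no .no (.sw 0 2 [34])) .no .no) .no (.br (.br .no .no .no (.br .no (.br .no .no (.de 44) .no) .no .no)) (.br (.de 48) .no .no (.sw 0 2 [34])) .no .no) .no)) .no .no)) (.br .no (.br .no .no .no (.br .no .no (.de 44) .no)) .no .no)) .no)) .no (.br .no .no (.br (.sw 2 3 [21,22]) .no .no .no) .no)) (.sw 0 3 [24]) .no .no) .no) .no .no (.br (.br .no (.br .no .no .no (.br .no .no (.br (.br (.br .no (.sw 2 3 [21,22,29]) (.br .no .no .no (.de 43)) .no) .no (.br .no (.de 42) .no .no) .no) .no .no .no) .no)) .no .no) .no (.br (.br .no (.br .no .no (.br (.br (.br .no (.br .no .no .no (.br .no .no (.de 44) .no)) .no .no) .no (.br (.br .no (.br .no .no (.sw 0 3 [24,31]) (.br (.br .no (.br .no .no .no (.br .no (.br .no .no (.de 44) (.br .no .no (.br .no (.sw 2 3 [38,43,44]) .no .no)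 .no)) .no .no)) .no (.de 41)) .no .no .no)) .no (.br .no .no (.de 44) .no)) (.de 42) .no .no) .no) .no .no .no) (.br (.br (.br .no (.br .no .no .no (.br .no .no (.de 44) .no)) .no .no) .no (.br (.br .no (.br .no .no (.sw 0 3 [24,31]) (.br (.br .no (.sw 2 3 [33]) (.br .no .no .no (.de 47)) .no) .no (.br .no (.br .no .no .no (.br .no (.br .no .no (.de 44) (.br .no .no (.br .no (.sw 0 3 [24,31,38]) .no .no) .no)) .no .no)) .no .no) .no)) .no (.br .no .no (.de 44) .no)) (.de 42) .no .no) .no) .no (.br (.br .no (.br .no .no .no (.br .no .no (.de 44) .no)) .no .no) .no (.br (.br .no (.br .no .no (.sw 0 3 [24,31]) (.br (.br .no (.br (.de 48) .no .no (.sw 0 1 [28])) .no .no) .no (.br (.br .no .no .no (.sw 0 1 [28])) (.br (.de 48) .no .no (.sw 0 1 [28])) .no .no) .no)) .no (.br .no .no (.de 44) .no)) (.de 42) .no .no) .no) .no)) .no (.br .no .no (.br (.br (.br .no (.br .no .no .no (.br .no (.br (.br .no (.br .no .no (.de 48) (.sy 36 114 6)) .no (.br .no .no (.de 47) .no)) .no .no .no) (.de 44)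 .no)) .no .no) .no (.br (.br .no (.br .no .no (.br (.sw 1 3 [32]) (.br .no .no .no (.de 41)) .no .no) .no) .no (.br .no (.br (.br .no (.br .no .no .no (.br .no (.br .no .no (.de 44) .no) .no .no)) .no (.de 41)) .no .no .no) (.de 44) .no)) (.de 42) .no .no) .no) .no .no .no) .no)) (.sw 0 3 [24]) .no .no) .no)) .no .no) .no .no) (.de 27) .no .no) .no)) .no (.br (.br .no .no (.br (.br .no (.br (.br .no (.br .no .no (.br .no (.br .no .no .no (.br .no .no (.de 34) .no)) .no (.br .no (.br .no .no (.de 34) (.br .no .no (.br .no .no (.br (.sw 1 3 [23,29]) .no .no (.br (.br .no .no (.br (.br .no (.br .no .no .no (.br .no (.br .no .no (.br .no .no .no (.br .no (.br .no .no .no (.sw 1 2 [3,10,17,18,25,32,38,45])) .no .no)) .no) .no .no)) .no .no) .no .no .no) .no) (.br (.br .no .no (.br (.br .no (.br .no (.br .no .no (.sw 0 3 [36]) .no) .no .no) .no (.br .no (.br .no .no (.sw 0 3 [36]) .no) .no .no)) (.br .no .no .no (.br .no (.br .no .no (.sw 0 3 [36]) .no) .no .no)) .no .no) .no) .no (.br (.br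 .no (.br .no .no .no (.br .no (.br .no .no (.sw 0 3 [36]) .no) .no .no)) .no .no) .no .no .no) .no) .no .no)) (.br (.br .no (.br (.br .no .no (.br (.br .no (.br .no (.br .no .no (.sy 36 228 7) (.br .no .no (.br .no (.sw 2 3 [43,44]) .no (.br .no (.br .no .no (.sw 1 3 [45,46]) (.sw 1 2 [3,10,17,18,25,32,39,46])) .no .no)) .no)) (.br .no .no .no (.br .no .no (.br .no (.sy 36 228 9) .no (.sy 42 78 3)) .no)) .no) .no .no) (.de 41) .no .no) .no) .no (.br (.br .no (.de 41) .no .no) .no .no .no) .no) .no .no) .no .no .no)) .no)) .no .no)) .no) .no .no) (.br (.br .no (.br .no .no .no (.br .no (.br .no .no (.br (.sw 2 3 [11,17,21,22,23]) .no .no .no) (.sy 30 114 3)) .no .no)) (.sw 1 3 [23]) .no) .no .no .no) .no .no) .no .no) (.de 27) .no .no) .no) .no .no .no)) .no)) .no)) .no .no) .no) .no (.br (.br .no (.sw 2 3 [11]) (.br .no .no .no (.br .no .no (.br .no .no (.br (.br .no (.br .no .no .no (.br (.sw 1 2 [18]) (.br (.br .no (.br .no (.br .no .no (.br (.br .no .no (.br .no .no .no (.br .no .no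 (.br (.br (.br .no (.br .no .no .no (.br (.sw 1 2 [18,25,31]) (.br (.br .no (.br .no .no (.de 48) (.sy 36 114 6)) .no (.sy 29 141 11)) .no .no .no) .no .no)) .no (.sy 29 141 7)) .no .no (.br .no (.br .no .no .no (.br (.sw 1 2 [18,25,31]) (.sy 35 54 3) .no .no)) .no .no)) .no .no (.sy 31 78 3)) .no)) .no) .no .no .no) (.br (.br .no .no (.br .no .no .no (.br .no .no (.br (.br (.br .no (.sw 2 3 [29]) (.br .no (.br (.br .no (.br .no .no .no (.de 46)) .no .no) .no .no .no) .no (.de 43)) .no) .no (.br .no (.de 42) .no .no) .no) .no .no (.sy 31 78 3)) .no)) .no) .no (.br (.br .no .no (.sy 16 141 16) (.sw 1 2 [18,25])) .no .no .no) .no)) .no (.br .no .no (.br (.br .no .no (.br .no .no .no (.br .no .no (.br (.sy 29 141 6) .no .no .no) .no)) .no) .no .no .no) .no)) .no (.sy 16 141 11)) .no .no .no) .no .no)) .no (.sy 16 141 7)) .no .no (.br .no (.br .no .no .no (.br (.sw 1 2 [18]) (.sy 22 54 3) .no .no)) .no .no)) (.br (.br .no (.br .no .no .no (.br (.sw 1 2 [18]) (.br (.br .no (.sy 23 114 6) .no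 .no) .no .no .no) .no .no)) .no (.sy 16 141 7)) .no .no .no)) .no)) .no) .no .no .no) .no)

theorem P6_0 : R.S 10 980100 :=
  R.piece L hL (.br .no (.br .no .no (.br (.br .no (.br (.br .no (.br (.br .no .no .no (.br .no (.br .no .no (.de 20) (.br .no .no (.br .no .no (.br .no .no .no (.br .no c6_0_0 (.br (.br .no .no (.br (.sy 23 201 3) (.br .no .no .no (.sy 27 30 3)) .no .no) .no) .no .no .no) .no)) (.br .no .no (.br .no (.br (.br .no .no (.br (.br .no (.br (.br .no .no .no (.br .no .no (.br .no (.br .no .no .no (.br .no .no (.de 34) .no)) .no (.br .no (.br .no .no (.de 34) (.br .no .no (.br .no (.br (.br .no (.br (.sy 35 225 3) .no (.sy 29 27 9) .no) .no .no) .no .no .no) (.br (.br .no (.br (.br .no .no (.br (.br .no (.sy 36 228 6) .no (.br .no (.br .no .no (.br .no .no .no (.br .no (.br .no .no .no (.br .no .no (.br (.sw 1 3 [41]) .no .no .no) .no)) .no .no)) (.br .no .no (.br .no (.sw 2 3 [43,44]) .no (.br .no (.br .no .no (.sw 1 3 [45,46]) .no) .no .no)) .no)) .no .no)) (.br .no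 .no .no (.br .no (.br .no .no (.br .no .no .no (.br .no (.br .no .no .no (.br .no .no (.sw 0 1 [40]) .no)) .no .no)) (.br .no .no (.br .no (.sw 2 3 [43,44]) .no (.de 46)) .no)) .no .no)) .no .no) .no) .no (.sy 29 27 9) .no) .no .no) (.de 42) .no .no) .no) .no)) .no .no)) .no)) (.br (.br .no .no (.br .no (.br .no .no .no (.br .no .no (.br (.sw 2 3 [21,22]) .no .no .no) .no)) .no (.br .no (.br .no .no (.br (.sw 2 3 [21,22]) .no .no .no) (.br (.sw 2 3 [21,22]) .no (.br .no .no (.br .no (.de 42) .no (.br (.br .no .no (.br (.br .no (.br (.de 48) .no .no (.sw 0 2 [34])) .no .no) .no .no .no) .no) (.br (.br .no .no (.br (.br .no .no .no (.br .no (.br .no .no (.br .no .no .no (.br .no (.br .no .no .no (.br .no .no (.br (.sw 2 3 [6]) .no .no .no) .no)) .no .no)) .no) .no .no)) (.br (.de 48) .no .no (.sw 0 2 [34])) .no .no) .no) .no (.br (.br .no (.br (.de 48) .no .no (.sw 0 2 [34])) .no .no) .no .no .no) .no) .no .no)) (.br .no (.br (.br .no .no (.br (.br .no (.br (.sw 2 3 [21,22,33,34]) .no .no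 .no) .no .no) .no .no .no) .no) .no .no .no) .no .no)) .no)) .no .no)) (.br .no (.br .no .no .no (.br .no .no (.br (.sw 2 3 [21,22]) .no .no .no) .no)) .no .no)) .no .no (.br .no .no (.br .no (.br .no .no .no (.br .no .no (.br (.br (.br .no (.br (.sw 2 3 [21,22,29,30]) .no .no (.br (.br .no (.br .no .no .no (.de 46)) .no .no) .no (.de 44) .no)) .no .no) .no (.br (.br .no .no .no (.br (.br .no (.br .no .no .no (.de 41)) .no .no) .no (.de 44) .no)) (.de 42) .no .no) .no) .no .no .no) .no)) .no (.br .no (.br .no .no (.br (.br (.br .no (.br (.br .no .no (.br (.sw 1 3 [31,32]) .no .no (.br .no (.de 46) .no .no)) .no) .no .no .no) .no .no) .no (.br (.br .no (.br (.br .no .no .no (.br .no (.de 46) .no .no)) .no (.br (.br .no (.br .no .no .no (.br .no (.br .no .no (.sw 0 3 [29,36]) (.de 44)) .no .no)) .no (.de 41)) .no .no (.br .no (.de 46) .no .no)) .no) .no .no) (.de 42) .no .no) .no) .no .no .no) (.br (.br (.br .no (.br (.br .no .no (.br (.br .no (.sw 2 3 [33]) (.sy 37 216 3) .no) .no .no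 .no) .no) .no .no .no) .no .no) .no (.br (.br .no (.br (.br .no .no (.br .no (.br .no .no .no (.br .no (.br .no .no (.sw 0 3 [29,36]) (.br .no .no (.br .no (.sw 2 3 [43,44]) .no (.de 46)) .no)) .no .no)) .no .no) .no) .no (.br (.br .no (.sw 2 3 [33]) (.br .no .no .no (.de 47)) .no) .no .no .no) .no) .no .no) (.de 42) .no .no) .no) .no (.sy 29 27 6) .no)) .no .no)) .no)) .no .no) .no .no) (.de 27) .no .no) .no) .no (.br (.br .no (.de 27) .no .no) .no .no .no) .no) .no .no) .no)) .no)) .no .no)) .no c6_0_1 .no) .no .no) (.br (.br .no .no (.br (.sw 1 3 [9,10]) .no .no (.br .no c6_0_2 .no .no)) .no) .no .no .no) .no .no) (.sy 13 78 3) .no) .no .no .no) (.br (.br .no (.br (.br .no c6_0_3 .no .no) (.br (.br .no .no (.br (.br .no (.sw 2 3 [11]) (.sy 15 216 3) .no) .no .no .no) .no) .no .no .no) .no .no) (.sy 13 78 3) .no) .no (.br .no (.sy 7 27 6) .no .no) .no)) .no .no) 10 980100 1048576 (by norm_num) (by norm_num) (by norm_num) (by decide +kernel)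

def c6_1_0 : Cert := (.br .no .no (.br .no (.br .no .no .no (.br .no .no (.br (.br .no (.br (.br (.br .no .no (.br (.br .no (.br .no .no (.br .no .no .no (.br .no (.br .no (.br .no .no .no (.de 42)) .no (.br .no (.de 42) .no .no)) .no .no)) (.br .no .no (.br .no (.sw 0 3 [20,27]) .no (.br .no (.br .no .no .no (.de 42)) .no (.br .no (.de 42) .no .no))) .no)) .no (.br .no .no (.br .no .no .no (.br .no (.br .no (.br .no .no .no (.de 42)) .no (.br .no (.de 42) .no .no)) .no .no)) .no)) (.br .no .no .no (.br .no .no (.br .no .no .no (.br .no (.br .no (.br (.br .no .no (.br (.br .no (.br (.br .no .no (.sy 36 216 5) (.br .no .no .no (.de 43))) .no (.sw 0 3 [20,27,33]) .no) .no .no) (.br (.br .no .no (.br .no .no .no (.br .no .no .no (.de 43))) .no) .no .no .no) .no .no) .no) .no .no (.de 42)) .no (.br (.br .no .no (.br (.br .no (.br (.br .no .no (.sy 36 216 5) .no) .no (.de 41) .no) .no .no) (.br (.br .no .no (.de 41) .no) .no .no .no) .no .no) .no) .no .no .no)) .no .no)) .no)) .no .no) .no)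 .no .no (.br (.br .no (.br .no .no .no (.br .no .no (.br .no .no .no (.br .no (.br .no (.br .no .no (.br (.br .no (.br (.br .no .no (.br (.de 48) .no .no .no) .no) .no .no .no) .no .no) .no .no .no) (.de 42)) (.br .no .no .no (.br (.br .no (.br (.br .no .no (.br (.sy 39 216 3) .no .no .no) .no) .no .no .no) .no .no) .no (.de 43) .no)) .no) .no .no)) .no)) .no .no) .no (.br (.br .no (.br .no .no (.br .no .no .no (.br .no (.br (.br .no (.br .no .no (.br (.br .no (.br (.br .no .no (.sy 38 228 5) .no) .no (.de 41) .no) .no .no) .no .no (.de 44)) (.br (.br .no (.br (.br .no .no (.sy 38 228 5) .no) .no (.de 41) .no) .no .no) .no .no .no)) .no (.br .no .no (.de 43) .no)) (.br .no .no .no (.de 42)) .no .no) .no .no)) (.br .no .no (.br .no (.sw 0 3 [20,27]) .no .no) .no)) .no (.br .no .no (.br .no .no .no (.br .no (.sy 31 27 5) .no .no)) .no)) (.br .no .no .no (.br .no .no (.br .no .no .no (.br .no (.sy 31 27 5) .no .no)) .no)) .no .no) .no)) .no .no .no) .no .no) .no .no (.br (.de 27) (.br (.br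 (.br .no .no (.br (.br .no (.br (.br .no .no (.sy 28 216 5) (.br .no (.br .no (.br .no .no .no (.de 42)) .no (.br .no (.de 42) .no .no)) .no .no)) .no (.sw 0 3 [25]) .no) .no .no) (.br (.br .no .no (.br .no .no .no (.br .no (.br .no (.br (.br .no .no (.br .no (.sw 0 3 [25,31]) .no (.de 44)) (.br .no (.br (.br .no .no (.br .no .no .no (.br .no .no .no (.br .no .no (.de 44) .no))) .no) .no .no .no) .no .no)) .no .no (.de 42)) .no (.br (.br .no .no (.br .no (.sw 0 3 [25,31]) .no (.de 44)) (.br .no (.br (.br .no .no (.de 41) .no) .no .no .no) .no .no)) .no .no .no)) .no .no)) .no) .no .no .no) .no .no) .no) .no .no (.br (.br .no (.br (.br .no .no (.br .no .no .no (.br .no (.br .no (.br .no .no (.br .no .no .no (.de 43)) (.de 42)) (.br .no .no .no (.br .no .no (.de 43) .no)) .no) .no .no)) .no) .no .no .no) .no .no) .no (.br (.br .no (.br (.br .no .no (.br .no (.sw 0 3 [20,27]) .no .no) (.br .no (.br (.br .no (.br .no .no (.br .no .no .no (.de 44)) (.br .no .no (.de 44) .no)) .no (.br .no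 .no (.de 43) .no)) (.br .no .no .no (.de 42)) .no .no) .no .no)) .no (.sw 0 3 [25]) .no) .no .no) (.br (.br .no .no (.br .no .no .no (.br .no (.br (.br .no .no .no (.br .no .no (.de 43) .no)) (.br (.br .no .no (.br .no (.sw 0 3 [25,31]) .no (.de 44)) (.br .no (.br (.br .no .no (.br (.de 48) .no .no .no) .no) .no .no .no) .no .no)) .no .no (.de 42)) .no .no) .no .no)) .no) .no .no .no) .no .no) .no)) .no .no .no) .no .no)) .no)) .no (.br .no (.br .no .no (.br (.br .no (.br (.br (.br .no .no (.br (.sw 1 3 [22,23]) .no .no (.br .no (.br .no .no (.br .no .no .no (.br .no (.br .no (.br (.br .no .no (.br (.sw 1 3 [22,23,30,31]) .no .no (.de 44)) .no) .no .no .no) .no (.br (.br .no .no (.br (.sw 1 3 [22,23,30,31]) .no .no (.de 44)) .no) (.de 42) .no .no)) .no .no)) (.br .no .no (.br .no (.sw 0 3 [20,27]) .no (.br .no (.br (.br .no .no (.br (.br .no (.br (.br .no .no (.sw 1 3 [34]) .no) .no .no .no) .no .no) .no .no .no) .no) .no .no .no) .no (.br (.br .no .no (.br (.br .no (.br (.br .no (.sy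 38 228 3) (.sw 1 3 [34]) .no) .no .no .no) .no .no) .no .no .no) .no) (.de 42) .no .no))) .no)) .no .no)) .no) (.br (.br .no .no .no (.br .no (.br .no .no (.br .no .no .no (.de 34)) (.br .no .no (.br .no .no .no (.sy 30 39 5)) .no)) .no .no)) .no (.br (.br .no (.br .no .no (.br .no .no .no (.de 34)) (.br .no .no (.br .no .no .no (.br (.br .no (.br .no .no (.br (.br .no (.br (.br .no .no (.sw 1 3 [22,23,28,34]) .no) .no .no .no) .no .no) .no .no .no) (.br (.br .no (.br (.br .no .no (.sw 1 3 [22,23,28,34]) .no) .no .no .no) .no .no) .no (.de 44) .no)) .no (.br .no .no (.de 43) .no)) .no .no (.br .no (.de 42) .no .no))) .no)) .no (.br .no .no (.br .no .no .no (.de 34)) .no)) .no .no (.br .no (.br .no .no (.br .no .no .no (.de 34)) (.br .no .no (.br .no .no .no (.sy 30 39 5)) .no)) .no .no)) .no) .no .no) .no .no .no) .no .no) .no .no (.br (.de 27) (.br (.br (.br .no .no (.br (.sw 1 3 [22,23]) .no .no (.br (.br .no .no (.br .no .no .no (.br .no (.br .no (.br (.br .no (.br .no .no .no (.br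 (.br .no .no (.br .no .no .no (.br .no .no .no (.br .no .no (.de 44) .no))) .no) (.de 45) .no .no)) (.sw 1 3 [22,23,30]) .no) .no .no .no) .no (.br (.br .no (.br .no .no .no (.br (.br .no .no (.de 41) .no) (.de 45) .no .no)) (.sw 1 3 [22,23,30]) .no) (.de 42) .no .no)) .no .no)) .no) (.br (.br .no .no (.br .no (.sw 0 3 [20,27]) .no (.br .no (.br (.br .no .no (.br .no .no .no (.de 44)) .no) .no .no .no) .no (.br (.br .no .no (.br .no .no .no (.de 44)) .no) (.de 42) .no .no))) (.br .no (.br .no (.br (.br .no .no (.br .no .no .no (.de 44)) .no) .no .no .no) .no (.br (.br .no .no (.br .no .no .no (.de 44)) .no) (.de 42) .no .no)) .no .no)) .no (.sw 0 3 [25]) .no) .no .no)) .no) (.br (.br .no .no .no (.br (.br .no .no (.br .no .no .no (.de 34)) .no) (.br (.br .no .no (.br .no .no .no (.br .no .no (.br .no (.br (.br .no .no (.br .no (.sw 0 3 [25,32]) .no (.br (.de 41) (.de 46) .no .no)) (.br .no (.de 45) .no .no)) .no (.br .no .no .no (.de 44)) .no) .no .no) (.br .no (.de 42) (.br (.br .no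 .no (.br .no (.sw 0 3 [25,32]) .no (.br (.br .no .no (.sy 41 78 5) .no) (.de 46) .no .no)) (.br .no (.de 45) .no .no)) .no .no .no) .no))) (.de 34)) .no (.sw 0 3 [25]) .no) .no .no)) .no (.br (.br .no (.br (.br .no .no (.br .no .no .no (.br (.br .no (.br .no .no (.br .no .no .no (.de 44)) (.br .no .no (.de 44) .no)) .no (.br .no .no (.de 43) .no)) .no .no (.br .no (.de 42) .no .no))) (.de 34)) .no (.sw 0 3 [25]) .no) .no .no) .no .no (.br (.br .no .no (.br .no .no .no (.de 34)) .no) (.br (.br .no .no (.br .no .no .no (.br (.br .no (.br (.br .no .no (.br .no (.sw 0 3 [25,32]) .no (.br (.br .no .no (.sy 40 216 5) .no) (.de 46) .no .no)) (.br .no (.de 45) .no .no)) .no (.sw 0 3 [30]) .no) .no .no) .no .no (.br (.br .no .no (.br .no .no .no (.de 44)) .no) (.de 42) .no .no))) (.de 34)) .no (.sw 0 3 [25]) .no) .no .no)) .no) .no .no) .no .no .no) .no .no)) (.br (.br .no (.br (.br (.br .no .no (.br (.br .no (.sw 2 3 [24]) (.sy 28 216 3) .no) .no .no .no) .no) (.br (.br .no .no (.br .no (.br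 .no .no (.br .no .no .no (.de 34)) (.br .no .no (.br .no .no .no (.br .no .no (.br .no (.br (.sw 2 3 [24,30]) .no .no (.br (.br .no (.br (.de 41) .no .no .no) .no .no) .no (.de 44) .no)) .no (.br (.br .no .no (.br (.br .no (.br (.sy 37 216 5) .no .no .no) .no .no) (.br (.de 41) .no .no .no) .no .no) .no) .no .no .no)) (.br .no (.de 42) .no .no))) .no)) .no .no) .no) .no (.br (.br .no (.sw 2 3 [24]) (.br .no .no .no (.br .no .no (.br .no .no .no (.sy 31 78 3)) .no)) .no) .no .no .no) .no) .no .no) .no .no .no) .no .no) .no .no .no)) .no .no)) (.br .no (.br .no .no .no (.br .no .no (.br (.br .no (.br (.br (.br .no .no (.br (.br .no (.br .no .no (.br .no .no .no (.br .no (.sw 2 3 [21]) (.sy 34 201 3) .no)) (.br .no .no (.br .no (.sw 2 3 [21]) .no .no) .no)) .no (.br .no .no (.br .no .no .no (.br .no (.sw 2 3 [21]) (.sy 31 30 3) .no)) .no)) (.br .no .no .no (.br .no .no (.br .no .no .no (.br .no (.sw 2 3 [21]) (.sy 31 30 3) .no)) .no)) .no .no) .no) .no (.br (.br .no (.br .no .no .no (.br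 .no .no (.br .no .no .no (.br .no (.br .no (.br .no .no (.br (.br .no (.br (.br .no .no (.br (.de 48) .no .no (.br .no .no .no (.de 43))) .no) .no .no .no) .no .no) .no .no .no) (.de 42)) .no (.br .no .no (.br (.br .no (.br (.br .no .no (.br (.br .no (.de 48) .no .no) .no .no .no) .no) .no .no .no) .no .no) .no .no .no) .no)) .no .no)) .no)) .no .no) .no .no .no) .no) .no (.sw 0 3 [20]) .no) .no .no) .no .no (.br (.br .no .no (.br (.br .no .no (.br (.br .no (.br .no .no (.br .no (.de 34) .no (.br .no (.br .no (.br .no .no .no (.de 42)) .no (.br .no (.de 42) .no .no)) .no .no)) .no) .no .no) (.br (.br .no (.br .no .no .no (.br .no (.sy 30 177 5) .no .no)) (.br .no (.de 34) .no (.br .no (.br .no (.br (.br .no .no (.br .no (.br (.br .no .no (.br .no .no .no (.br .no .no .no (.de 43))) .no) .no .no .no) .no (.de 44)) (.br .no (.br (.br .no .no (.br .no .no .no (.br .no .no .no (.br .no .no (.de 44) .no))) .no) .no .no .no) .no .no)) .no .no (.de 42)) .no (.br (.br .no .no (.br .no (.br (.br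 .no .no (.de 41) .no) .no .no .no) .no (.de 44)) (.br .no (.br (.br .no .no (.de 41) .no) .no .no .no) .no .no)) .no .no .no)) .no .no)) .no) .no .no .no) .no .no) .no) .no (.br (.br .no (.br (.br .no (.sy 29 228 3) (.br .no (.br (.sy 34 216 5) .no .no .no) .no (.br (.sy 34 216 5) (.br .no (.br .no .no (.br .no .no .no (.de 43)) (.de 42)) .no (.sy 21 39 14)) .no .no)) .no) .no .no .no) .no .no) .no .no .no) .no) .no) (.sy 21 39 5) .no .no)) .no)) .no .no))

def c6_1_1 : Cert := (.br .no .no (.br .no (.br (.br .no .no (.br (.br .no (.br .no .no .no (.br (.br .no .no (.br .no (.br .no .no .no (.br .no .no (.br (.br .no (.br .no (.br (.br .no .no (.br (.br .no (.br .no .no (.br .no .no .no (.br .no .no .no (.de 43))) (.de 46)) .no (.br .no .no (.br .no .no .no (.br .no .no .no (.de 43))) .no)) (.br .no .no .no (.de 45)) .no .no) .no) .no .no (.de 42)) .no (.br (.br .no .no (.br (.br .no (.br .no .no (.de 41) (.de 46)) .no (.br .no .no (.de 41) .no)) (.br .no .no .no (.de 45)) .no .no) .no)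 .no .no .no)) .no .no) .no .no .no) .no)) .no (.br .no (.br .no .no (.br (.br .no (.br .no (.br (.br .no .no (.br (.sw 1 3 [30,31]) .no .no (.de 44)) .no) .no .no .no) .no (.br (.br .no .no (.br (.sw 1 3 [30,31]) .no .no (.de 44)) .no) (.de 42) .no .no)) .no .no) .no .no .no) (.br (.br .no (.br .no (.br (.br .no .no (.br (.br .no (.sw 2 3 [32]) (.sy 36 216 3) .no) .no .no .no) .no) .no .no .no) .no (.br (.br .no .no (.br (.br .no (.sw 2 3 [32]) (.sy 36 216 3) .no) .no .no .no) .no) (.de 42) .no .no)) .no .no) .no (.br .no (.br .no (.br (.br .no .no (.br (.br .no (.br (.br .no .no (.sy 36 216 5) (.br .no .no .no (.de 43))) .no .no (.de 46)) .no .no) .no .no .no) .no) .no .no .no) .no (.br (.br .no .no (.br (.br .no (.br (.br .no .no (.sy 36 216 5) .no) .no .no (.de 46)) .no .no) .no .no .no) .no) (.de 42) .no .no)) .no .no) .no)) .no .no)) (.br .no (.br .no .no .no (.br .no .no (.br (.br .no (.br .no (.br (.sw 2 3 [29]) .no (.br (.br .no (.br .no .no .no (.de 45)) .no .no) .no .no .no)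 .no) (.br (.br .no .no (.br (.sy 35 201 3) (.br .no .no .no (.de 45)) .no .no) .no) .no .no .no) .no) .no .no) .no .no .no) .no)) .no .no)) .no .no (.br .no .no (.br .no (.br .no .no .no (.br .no .no (.br (.br .no (.br (.br .no .no .no (.br (.br .no (.br .no .no .no (.de 45)) .no .no) .no (.de 43) .no)) (.br (.br .no .no (.br (.br .no (.br .no .no (.br (.de 48) .no .no .no) (.de 46)) .no (.br .no .no (.br (.de 48) .no .no .no) .no)) (.br .no .no .no (.de 45)) .no .no) .no) .no .no (.de 42)) .no .no) .no .no) .no .no .no) .no)) .no (.br .no (.br .no .no (.br (.br .no (.br (.br .no (.br (.br .no .no .no (.br .no (.de 45) .no .no)) .no (.br (.br .no (.br .no .no (.de 41) (.de 46)) .no (.br .no .no (.de 41) .no)) .no .no (.de 44)) .no) .no .no) (.br (.br .no .no (.br (.sw 1 3 [30,31]) .no .no (.de 44)) .no) .no .no .no) .no .no) .no .no) .no .no .no) (.br (.br .no (.br (.br .no (.br (.br .no .no (.br .no (.br .no .no (.de 41) (.de 46)) .no .no) .no) .no (.br (.br .no (.sw 2 3 [32]) (.br .no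 .no .no (.br .no .no (.sy 37 141 5) .no)) .no) .no .no .no) .no) .no .no) (.br (.br .no .no (.br (.br .no (.sw 2 3 [32]) (.sy 36 216 3) .no) .no .no .no) .no) .no .no .no) .no .no) .no .no) .no (.sy 28 27 5) .no)) .no .no)) .no))) .no (.de 27)) (.br .no .no .no (.de 27)) .no .no) .no) .no .no (.br (.br .no (.br .no .no .no (.de 27)) .no .no) .no (.sw 0 1 [17]) .no)) .no (.br (.br .no .no (.br (.br .no (.br .no .no .no (.br (.br .no (.br .no .no .no (.br .no (.br .no .no (.br (.br .no (.sy 33 228 3) .no .no) .no .no .no) (.sy 29 114 3)) .no .no)) (.sw 1 3 [22]) .no) (.br .no .no (.br .no (.br .no .no .no (.br .no .no (.br (.de 34) .no .no .no) .no)) .no (.sw 0 1 [17,23])) .no) .no .no)) .no (.de 27)) (.br .no .no .no (.de 27)) .no .no) .no) .no .no .no)) (.br .no (.br (.br .no .no (.br (.br .no (.br .no .no (.br (.br .no .no (.br .no (.br .no .no .no (.br .no .no (.br (.br .no (.sw 2 3 [21,27]) .no .no) .no .no (.br .no (.br .no (.br (.br .no .no (.br (.br .no (.br (.br .no .no (.sy 36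 216 5) (.br .no .no .no (.de 43))) .no (.sw 0 3 [33]) .no) .no .no) (.br (.br .no .no (.br .no .no .no (.br .no .no .no (.de 43))) .no) .no .no .no) .no .no) .no) .no .no (.de 42)) .no (.br (.br .no .no (.br (.br .no (.br (.br .no .no (.sy 36 216 5) .no) .no (.de 41) .no) .no .no) (.br (.br .no .no (.de 41) .no) .no .no .no) .no .no) .no) .no .no .no)) .no .no)) .no)) .no (.br .no (.br .no .no (.br (.br .no (.sw 2 3 [21,27]) .no .no) .no .no (.br .no (.br .no (.br (.br .no .no (.br (.sw 1 3 [30,31]) .no .no (.de 44)) .no) .no .no .no) .no (.br (.br .no .no (.br (.sw 1 3 [30,31]) .no .no (.de 44)) .no) (.de 42) .no .no)) .no .no)) (.br (.br .no (.sw 2 3 [21,27]) .no .no) .no .no .no)) .no .no)) (.br .no (.br .no .no .no (.br .no .no (.br (.br .no (.sw 2 3 [21,27]) .no .no) .no .no (.br .no (.sy 29 39 5) .no .no)) .no)) .no .no)) .no (.br .no .no .no (.br .no (.br .no .no .no (.br .no .no (.br (.br .no (.br (.br .no .no (.br (.br .no (.br .no .no .no (.de 45)) .no .no) .no .no .no) .no)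 (.br (.br .no .no (.br (.br .no (.br .no .no (.br (.de 48) .no .no (.sw 0 2 [28])) (.de 46)) .no (.br .no .no (.br (.de 48) .no .no (.sw 0 2 [28])) .no)) (.br .no .no .no (.de 45)) .no .no) .no) .no (.br (.br .no (.br .no .no .no (.de 45)) .no .no) .no .no .no) .no) .no .no) .no .no) .no .no (.br (.br (.br .no .no (.br (.br .no (.br (.br .no (.sy 37 228 3) (.sy 35 216 5) .no) .no .no .no) .no .no) .no .no .no) .no) (.br (.br .no .no (.br (.br .no (.br .no .no (.br .no .no .no (.br .no .no .no (.de 43))) .no) .no .no) (.br (.br .no (.br .no .no .no (.sy 38 177 5)) (.br .no .no .no (.br .no .no .no (.de 43))) .no) .no .no .no) .no .no) .no) .no (.br (.br .no (.br (.br .no (.sy 37 228 3) (.br .no .no .no (.br .no .no .no (.de 43))) .no) .no .no .no) .no .no) .no .no .no) .no) .no .no) (.sy 29 39 5) .no .no)) .no)) .no .no)) .no) .no) .no (.br .no .no (.br (.br .no .no (.br .no (.br .no .no .no (.br .no (.br (.br .no (.sy 32 225 3) .no .no) .no .no .no) (.br (.sw 1 3 [26]) (.de 34) .no .no)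 .no)) .no (.br .no (.br .no .no (.br (.sw 1 3 [26]) (.de 34) .no .no) .no) .no .no)) (.br .no (.br .no .no .no (.br .no (.sy 29 54 3) (.br (.sw 1 3 [26]) (.de 34) .no .no) .no)) .no .no)) .no (.br .no .no .no (.br .no (.br .no .no .no (.br .no (.sy 29 54 3) (.br (.sw 1 3 [26]) (.br (.br (.br .no .no (.br (.br .no (.br (.br .no .no (.sw 1 3 [26,33]) (.br .no (.de 48) .no .no)) .no .no (.de 45)) .no .no) .no .no .no) .no) (.br (.br .no .no (.br (.br .no .no .no (.br .no .no (.br .no .no .no (.sw 0 1 [33,34])) .no)) (.br (.br .no .no (.sw 1 3 [26,33]) (.de 41)) .no .no (.de 45)) .no .no) .no) .no (.br (.br .no (.br (.br .no .no (.sw 1 3 [26,33]) (.de 41)) .no .no (.de 45)) .no .no) .no .no .no) .no) .no .no) .no .no .no) .no .no) .no)) .no .no)) .no) .no)) (.br .no .no .no (.br .no .no (.br (.br .no .no (.br .no (.br (.br .no .no (.br (.br .no (.sy 31 216 5) .no .no) (.de 34) .no .no) .no) .no .no (.br (.br .no (.de 34) .no .no) .no (.sw 0 1 [25]) .no)) .no (.br (.br .no .no (.br (.br .no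 (.sy 31 216 5) .no .no) (.de 34) .no .no) .no) .no .no .no)) (.br .no (.br (.br .no .no (.br (.br .no (.br .no (.br (.sw 2 3 [29]) .no (.br .no .no .no (.de 43)) .no) (.br (.br .no .no (.br .no (.br .no .no .no (.de 45)) .no (.de 44)) (.br .no (.br .no .no .no (.de 45)) .no .no)) .no .no .no) .no) .no .no) (.de 34) .no .no) .no) .no .no (.br (.br .no (.de 34) .no .no) .no (.sw 0 1 [25]) .no)) .no .no)) .no (.br .no .no .no (.br .no (.br (.br .no .no (.br (.br .no (.br (.br .no .no (.br .no .no .no (.de 43)) .no) (.br (.br .no .no (.br .no (.br .no .no .no (.de 45)) .no (.de 44)) (.br .no (.br .no .no .no (.de 45)) .no .no)) .no (.br .no .no .no (.de 43)) .no) .no .no) .no .no) (.br (.br (.br .no .no (.br .no .no .no (.de 43)) .no) (.br (.br .no .no (.br .no (.br (.br .no .no (.br .no .no .no (.br .no .no .no (.de 43))) (.de 41)) .no .no (.de 45)) .no (.de 44)) (.br .no (.br (.br .no .no (.br .no .no .no (.br .no .no .no (.br .no .no (.de 44) .no))) (.de 41)) .no .no (.de 45)) .no .no))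 .no (.br .no .no .no (.de 43)) .no) .no .no) .no .no .no) .no .no) .no) .no .no (.br (.br .no (.br (.br (.br .no .no (.br (.br .no (.br .no .no (.br .no .no .no (.br .no (.de 48) .no .no)) (.de 45)) (.sy 35 216 3) .no) .no .no .no) .no) (.br (.br .no .no (.br .no (.br .no .no (.br .no .no .no (.de 41)) (.de 45)) .no .no) .no) .no (.br (.br .no (.br .no .no (.br .no .no .no (.de 41)) (.de 45)) (.br .no .no .no (.br .no .no (.br .no .no .no (.sw 0 1 [25,32,33,34])) .no)) .no) .no .no .no) .no) .no .no) .no .no .no) .no .no) .no (.sw 0 1 [25]) .no)) .no .no)) .no) .no)) .no .no) .no) .no .no (.br (.br .no (.br .no .no .no (.br .no .no (.br (.br .no .no (.br .no (.br .no .no (.br (.br .no (.de 34) .no .no) .no .no .no) (.br (.br .no (.de 34) .no .no) .no (.br (.br .no (.br .no (.br (.br .no .no (.br (.br .no (.br .no .no (.br .no .no .no (.br .no .no .no (.de 43))) (.de 46)) .no (.br .no .no (.br .no .no .no (.br .no .no .no (.de 43))) .no)) (.br .no .no .no (.de 45)) .no .no) .no) .no .no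 (.de 42)) .no (.br (.br .no .no (.br (.br .no (.br .no .no (.de 41) (.de 46)) .no (.br .no .no (.de 41) .no)) (.br .no .no .no (.de 45)) .no .no) .no) .no .no .no)) .no .no) (.de 34) .no .no) .no)) .no .no) .no) .no (.br (.br .no (.br .no .no (.br (.br .no (.br (.sy 32 228 5) .no .no .no) .no .no) .no .no .no) (.br (.br .no (.br (.sy 32 228 5) .no .no .no) .no .no) .no (.br (.br .no (.br .no (.br .no .no (.br (.br .no (.br .no .no .no (.de 45)) .no .no) .no .no .no) (.de 42)) .no (.br .no .no (.br (.br .no (.br .no .no .no (.de 45)) .no .no) .no .no .no) .no)) .no .no) (.br (.br .no (.br .no .no (.br (.br .no (.br (.br .no .no (.br .no .no .no (.br .no .no .no (.de 43))) (.de 41)) .no .no (.de 45)) .no .no) .no .no .no) (.de 42)) .no (.br .no .no (.br (.br .no (.br (.br .no .no (.br .no (.de 47) .no .no) (.sy 26 27 14)) .no .no (.de 45)) .no .no) .no .no .no) .no)) .no .no .no) .no .no) .no)) (.br .no .no .no (.br (.br .no (.br (.sy 34 216 3) .no .no .no) .no .no) .no (.sw 0 1 [17,24,25])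 .no)) .no) .no .no .no) .no) .no)) .no .no) .no (.sw 0 1 [17]) .no)) .no .no))

def c6_1_2 : Cert := (.br .no .no (.br (.br .no (.br .no .no .no (.br .no .no (.br .no .no (.br (.br .no (.br .no .no (.br (.br .no (.br .no .no .no (.br .no (.br .no .no (.br (.br .no (.br .no .no (.br (.de 41) .no .no .no) (.de 45)) .no (.br .no .no (.br (.de 41) .no .no .no) .no)) .no .no (.de 43)) (.de 42)) .no (.br .no .no (.br (.br .no (.br .no .no (.br (.br .no (.br .no (.br .no .no .no (.br .no .no (.br .no .no .no (.br .no (.br .no .no (.br (.sw 1 3 [5]) .no .no .no) .no) .no .no)) .no)) .no .no) .no .no) .no .no .no) (.de 45)) .no (.br .no .no (.br (.br .no (.br .no (.br .no .no .no (.br .no .no (.br .no (.br .no .no .no (.br .no .no (.sw 1 3 [38,45,46]) .no)) .no .no) .no)) .no .no) .no .no) .no .no .no) .no)) .no .no (.de 43)) .no))) .no .no) .no .no .no) (.br (.br .no (.br .no .no .no (.br .no (.br .no .no (.br (.br .no (.sw 2 3 [31]) (.br .no .no .no (.br (.de 41) .no (.br (.de 48) .no .no .no)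 .no)) .no) .no .no .no) (.de 42)) .no (.br .no .no (.br (.br .no (.sw 2 3 [31]) (.br .no .no .no (.br (.br .no (.br .no (.br .no .no .no (.de 44)) .no .no) .no .no) .no (.br (.sy 36 141 5) (.de 47) .no .no) .no)) .no) .no .no .no) .no))) .no .no) .no (.br (.br .no (.br .no (.br .no .no (.br (.br .no (.br .no .no .no (.de 45)) .no .no) .no .no .no) (.de 42)) .no (.br .no .no (.br (.br .no (.br .no .no .no (.de 45)) .no .no) .no .no .no) .no)) .no (.br .no (.br .no .no (.br (.br .no (.br .no .no .no (.de 45)) .no .no) .no .no .no) (.de 42)) .no (.br .no .no (.br (.br .no (.br .no .no .no (.de 45)) .no .no) .no .no .no) .no))) (.br .no .no .no (.br .no (.br .no .no (.br (.br .no (.br (.br .no .no (.br (.de 48) .no .no .no) .no) .no .no (.de 45)) .no .no) .no .no .no) (.de 42)) .no (.br .no .no (.br (.br .no (.br (.br .no .no (.br (.br .no (.de 48) .no .no) (.de 47) .no .no) .no) .no .no (.de 45)) .no .no) .no .no .no) .no))) .no .no) .no)) .no (.br .no .no (.br (.br .no (.br .no .no .no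 (.br .no (.br .no .no (.br (.sw 1 3 [30]) (.br .no .no .no (.br .no .no (.br (.de 41) .no .no .no) .no)) .no .no) .no) .no (.br .no (.de 42) (.br (.sw 1 3 [30]) (.br .no .no .no (.br .no .no (.br (.br .no (.br .no (.br .no .no .no (.br .no .no (.sw 0 1 [37]) .no)) .no .no) .no .no) .no .no .no) .no)) .no .no) .no))) .no .no) .no .no .no) .no)) .no .no (.br .no (.br .no .no (.br (.br .no (.br .no .no .no (.br (.br .no .no (.br (.br .no (.br .no .no (.br (.br .no (.de 48) .no .no) .no .no .no) (.de 45)) .no (.br .no .no (.br (.br .no (.de 48) .no .no) .no .no .no) .no)) .no .no (.de 43)) .no) (.br (.br .no .no .no (.br .no (.br .no .no (.br (.de 41) .no .no .no) (.de 45)) .no .no)) .no (.sw 0 3 [29]) .no) .no .no)) .no .no) .no .no .no) (.br (.br .no (.br .no .no .no (.br (.br .no .no (.br (.br .no (.sw 2 3 [31]) (.sy 35 216 3) .no) .no .no .no) .no) (.br (.br .no .no (.br .no (.br .no .no (.br (.de 41) .no .no .no) (.de 45)) .no .no) .no) .no (.sw 0 3 [29]) .no) .no .no)) .no .no) .no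 (.br (.br .no (.br (.br .no .no (.br (.br .no (.br .no .no .no (.de 45)) .no .no) .no .no .no) .no) (.br (.br .no .no (.br (.br .no (.br .no .no (.br (.de 48) .no .no (.br .no .no .no (.de 43))) (.de 46)) .no (.br .no .no (.br (.de 48) .no .no (.br .no .no .no (.de 43))) .no)) (.br .no .no .no (.de 45)) .no .no) .no) .no (.sw 0 3 [29]) .no) .no .no) .no (.sy 34 27 5)) (.br .no .no .no (.sy 34 27 5)) .no .no) .no)) .no .no)) (.br (.br .no (.br .no .no (.br (.br .no (.de 34) .no .no) .no .no .no) (.br (.br .no (.de 34) .no .no) .no (.br (.br .no (.br .no (.br .no .no (.br (.br .no (.br .no .no .no (.de 45)) .no .no) .no .no .no) (.de 42)) (.br .no .no .no (.br (.br .no (.br .no .no .no (.de 45)) .no .no) .no (.de 43) .no)) .no) .no .no) (.de 34) .no .no) .no)) .no (.br .no .no (.br (.br .no (.de 34) .no .no) .no .no .no) .no)) .no .no .no)) .no)) .no .no) .no .no .no) (.br (.sw 1 2 [11,17]) .no (.br (.br .no (.br .no .no (.br .no .no (.br (.br .no (.br .no .no .no (.br .no .no (.br (.br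 .no (.br .no (.br .no .no (.br (.br .no (.br .no .no .no (.de 45)) .no .no) .no .no .no) (.de 42)) .no (.br .no .no (.br (.br .no (.br .no .no .no (.de 45)) .no .no) .no .no .no) .no)) .no (.br .no (.br .no .no (.br (.br .no (.br .no .no .no (.de 45)) .no .no) .no .no .no) (.de 42)) .no (.br .no .no (.br (.br .no (.br .no .no .no (.de 45)) .no .no) .no .no .no) .no))) .no .no (.br .no (.br .no (.br .no .no (.br (.br .no (.br (.br .no .no (.br (.de 48) .no .no (.br .no .no .no (.de 43))) .no) .no .no .no) .no .no) .no .no .no) (.de 42)) .no (.br .no .no (.br (.br .no (.br (.br .no .no (.br (.br .no (.de 48) .no .no) .no .no .no) .no) .no .no .no) .no .no) .no .no .no) .no)) .no .no)) .no)) .no .no) .no .no .no) (.br (.br .no (.br .no .no .no (.br .no .no (.br (.br .no (.br .no (.br .no .no (.br (.br .no (.br .no .no .no (.de 45)) .no .no) .no .no .no) (.de 42)) (.br .no .no .no (.br (.sw 1 2 [11,17,24,30]) .no (.de 43) .no)) .no) .no .no) .no .no (.br .no (.br .no (.br .no .no (.br (.br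 .no (.br (.br .no .no (.br (.de 48) .no .no .no) .no) .no .no .no) .no .no) .no .no .no) (.de 42)) (.br .no .no .no (.br (.sw 1 2 [11,17,24,30]) .no (.de 43) .no)) .no) .no .no)) .no)) .no .no) .no (.br (.br .no (.br .no .no (.br (.br .no (.br (.br .no (.br .no .no (.br (.br .no (.br .no .no (.de 41) (.de 46)) .no (.br .no .no (.de 41) .no)) .no .no (.de 44)) (.br (.br .no (.br .no .no (.de 41) (.de 46)) .no (.br .no .no (.de 41) .no)) .no .no .no)) .no (.br .no .no (.de 43) .no)) (.br .no .no .no (.de 42)) .no .no) .no .no) .no .no (.br .no (.br (.br .no (.br .no .no (.br (.br .no (.br (.br .no .no (.sy 38 228 5) .no) .no (.de 41) .no) .no .no) .no .no (.de 44)) (.br (.br .no (.br (.br .no .no (.sy 38 228 5) .no) .no (.de 41) .no) .no .no) .no .no .no)) .no (.br .no .no (.de 43) .no)) (.br .no .no .no (.de 42)) .no .no) .no .no)) (.br (.br .no (.br (.br .no (.br .no .no (.br (.br .no (.sw 2 3 [32]) (.br .no .no .no (.br .no .no (.sy 37 141 5) .no)) .no) .no .no .no) (.br (.sw 1 2 [11,17,24,31])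 .no (.de 44) .no)) .no (.br .no .no (.de 43) .no)) (.br .no .no .no (.de 42)) .no .no) .no .no) .no .no .no)) .no (.sw 1 2 [11,17,24])) (.br .no .no .no (.br .no .no (.br (.br .no (.br (.br .no .no .no (.br (.br .no (.br .no .no .no (.de 45)) .no .no) .no (.de 43) .no)) (.br (.br .no .no (.br (.br .no (.br .no .no (.br (.de 48) .no .no .no) (.de 46)) .no (.br .no .no (.br (.de 48) .no .no .no) .no)) (.br .no .no .no (.de 45)) .no .no) .no) .no .no (.de 42)) .no .no) .no .no) .no .no (.br .no (.sy 31 27 5) .no .no)) .no)) .no .no) .no)) (.br .no .no (.br (.br .no (.br .no .no .no (.br .no .no (.br (.br .no (.sw 2 3 [27]) .no .no) .no .no .no) .no)) .no .no) .no .no .no) (.br (.br .no (.br .no .no .no (.br .no .no (.br (.br .no (.sw 2 3 [27]) (.br .no (.br .no .no (.br (.br .no (.br .no .no .no (.de 45)) .no .no) .no .no .no) (.de 42)) (.br .no .no .no (.br (.sw 1 2 [11,17,24,30]) .no (.de 43) .no)) .no) .no) .no .no .no) .no)) .no .no) .no (.br (.br .no (.br .no .no (.br (.br .no (.sw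 2 3 [27]) (.sy 32 141 5) .no) .no .no .no) (.br (.br .no (.sw 2 3 [27]) (.br (.br .no (.br .no .no (.br (.br .no (.sw 2 3 [32]) (.br .no (.de 41) .no (.br .no (.de 48) .no .no)) .no) .no .no .no) (.br (.sw 1 2 [11,17,24,31]) .no (.de 44) .no)) .no (.br .no .no (.de 43) .no)) (.br .no .no .no (.de 42)) .no .no) .no) .no (.br .no (.sw 0 2 [15,16,21]) .no .no) .no)) .no (.sw 1 2 [11,17,24])) (.br .no .no .no (.br .no .no (.br (.br .no (.sw 2 3 [27]) (.br (.br .no .no .no (.br (.br .no (.br .no .no .no (.de 45)) .no .no) .no (.de 43) .no)) (.br (.br .no .no (.br (.br .no (.br .no .no .no (.de 46)) .no (.br .no (.de 46) .no .no)) (.br .no .no .no (.de 45)) .no .no) .no) .no .no (.de 42)) .no .no) .no) .no .no .no) .no)) .no .no) .no))) .no (.br .no .no (.br .no .no (.br (.br .no (.br .no .no .no (.br .no (.br (.br .no (.br .no (.br .no .no (.br (.br .no .no (.br .no .no .no (.br .no .no (.br (.de 48) .no .no (.sy 38 78 3)) .no)) .no) .no .no .no) (.de 42)) .no (.br .no .no (.br (.br .no .no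 (.br .no .no .no (.br .no .no (.br (.sy 36 141 5) .no .no .no) .no)) .no) .no .no .no) .no)) .no (.br .no (.br .no .no (.br (.br .no .no (.br .no .no .no (.br .no (.de 46) (.br (.de 48) .no .no .no) .no)) .no) .no .no .no) (.de 42)) .no (.br .no .no (.br (.br .no .no (.br .no .no .no (.br .no (.de 46) (.br (.sw 1 3 [34]) (.de 47) .no .no) .no)) .no) .no .no .no) .no))) .no .no .no) (.br (.sw 1 3 [26]) (.br .no .no .no (.br .no (.br .no .no (.br (.br .no (.br (.br .no .no (.br (.de 48) .no .no .no) .no) .no .no (.de 45)) .no .no) .no .no .no) (.de 42)) .no (.br .no .no (.br (.br .no (.br (.br .no .no (.br (.sw 1 3 [26,33,34]) (.de 47) .no .no) .no) .no .no (.de 45)) .no .no) .no .no .no) .no))) .no .no) .no)) .no .no) .no .no .no) (.br (.br .no (.br .no .no .no (.br .no (.br (.br .no (.sy 30 114 5) .no .no) .no .no .no) (.br (.sw 1 3 [26]) (.de 34) .no .no) .no)) .no .no) .no (.br (.br .no (.br .no .no (.br (.sw 1 3 [26]) (.de 34) .no .no) .no) .no (.sw 1 2 [11,17,24])) (.br .no .no .no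 (.br .no (.br (.br .no (.sy 30 114 5) .no .no) .no .no .no) (.br (.sw 1 3 [26]) (.de 34) .no .no) .no)) .no .no) .no)) .no)) (.br .no .no .no (.br .no .no (.br .no .no (.br (.br .no (.br (.br .no .no (.br (.br .no (.sy 29 228 5) .no (.br .no (.br .no .no (.br .no .no .no (.de 43)) (.de 42)) .no (.br .no .no (.br .no .no .no (.de 43)) .no))) (.br .no .no .no (.br .no (.br .no .no (.br .no .no .no (.de 43)) (.de 42)) .no (.br .no .no (.br .no .no .no (.de 43)) .no))) .no .no) .no) .no .no (.sw 0 2 [24])) .no .no) .no .no .no) (.br (.br .no (.br (.br .no .no (.br (.br .no (.sy 29 228 5) .no .no) (.de 34) .no .no) .no) .no .no (.sw 0 2 [24])) .no .no) .no (.br (.br .no .no .no (.br (.br .no (.de 34) .no .no) .no (.sw 0 1 [25]) .no)) (.br (.br .no .no (.br (.br .no (.br (.br .no .no .no (.br .no .no (.de 43) .no)) (.br (.br .no .no (.br .no (.br .no .no .no (.de 45)) .no (.de 44)) (.br .no (.br .no .no .no (.de 45)) .no .no)) .no .no (.de 42)) .no .no) .no .no) (.de 34) .no .no) .no) .no .no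 (.sw 0 2 [24])) .no .no) .no)) .no)) .no .no) .no))

def c6_1_3 : Cert := (.br (.br .no .no (.br (.br .no (.br .no .no (.br (.sy 20 228 5) .no .no c6_1_0) (.br (.sy 20 228 5) .no .no .no)) .no (.sw 1 2 [11])) (.br .no .no .no (.br .no .no (.br c6_1_1 .no .no (.br .no .no (.br .no (.br (.br .no .no (.br (.br .no (.br (.sy 23 216 5) .no .no .no) .no .no) (.br (.de 27) .no .no .no) .no .no) .no) .no .no (.br (.br .no (.br (.de 27) .no .no .no) .no .no) .no (.sw 0 1 [17]) .no)) .no (.br (.br .no .no (.br (.br .no (.br (.sy 23 216 5) .no .no .no) .no .no) (.br (.de 27) .no .no .no) .no .no) .no) .no .no .no)) (.br .no (.br (.br .no .no (.br (.br .no (.br (.br (.br .no .no (.br .no (.br .no .no .no (.br .no .no (.br .no .no .no (.br .no (.sw 2 3 [21]) (.sy 31 30 3) .no)) .no)) .no (.br .no (.br .no .no (.br .no .no .no (.br .no (.sw 2 3 [21]) (.sy 32 78 5) .no)) (.br .no .no (.br .no (.sw 2 3 [21]) .no .no) .no)) .no .no)) (.br .no (.br .no .no .no (.br .no .no (.br .no .no .no (.br .no (.sw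 2 3 [21]) (.sy 31 30 3) .no)) .no)) .no .no)) .no (.br .no .no .no (.br .no (.br .no .no .no (.br .no .no (.br .no .no .no (.br .no (.sy 29 39 5) .no .no)) .no)) .no .no)) .no) .no (.sw 0 3 [20]) .no) .no .no) (.br (.br .no .no (.br (.br .no .no (.br .no (.br (.br .no .no (.br .no (.de 34) .no (.br .no (.br .no (.br (.br .no .no (.br .no (.br (.br .no .no (.br .no .no .no (.br .no .no .no (.de 43))) .no) .no .no .no) .no (.de 44)) (.br .no (.br (.br .no .no (.br .no .no .no (.br .no .no .no (.br .no .no (.de 44) .no))) .no) .no .no .no) .no .no)) .no .no (.de 42)) .no (.br (.br .no .no (.br .no (.br (.br .no .no (.de 41) .no) .no .no .no) .no (.de 44)) (.br .no (.br (.br .no .no (.de 41) .no) .no .no .no) .no .no)) .no .no .no)) .no .no)) (.br .no (.de 34) .no .no)) .no .no (.br .no .no (.br .no (.de 34) .no (.sw 0 1 [25,26])) .no)) .no (.br (.br .no .no (.br .no (.de 34) .no (.br .no (.br .no (.br (.br .no (.br .no .no .no (.br (.br .no .no (.br .no .no .no (.br .no .no .no (.br .no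 .no (.de 44) .no))) .no) (.de 45) .no .no)) (.sw 1 3 [30]) .no) .no .no .no) .no (.br (.br .no (.br .no .no .no (.br (.br .no .no (.de 41) .no) (.de 45) .no .no)) (.sw 1 3 [30]) .no) (.de 42) .no .no)) .no .no)) (.br .no (.de 34) .no .no)) .no .no .no)) (.br .no (.br (.br .no .no (.br .no (.de 34) .no (.br .no (.br .no (.br (.sw 2 3 [29]) .no (.br .no .no .no (.de 43)) .no) (.br (.br .no .no (.br .no (.br (.br .no .no (.br .no .no .no (.br .no (.br .no .no .no (.de 44)) .no (.de 43))) .no) .no .no .no) .no (.de 44)) (.br .no (.br (.br .no .no (.br .no .no .no (.br .no (.br .no .no (.de 44) .no) .no (.br .no .no (.de 44) .no))) .no) .no .no .no) .no .no)) .no .no .no) .no) .no .no)) (.br .no (.de 34) .no .no)) .no .no (.br .no .no (.br .no (.de 34) .no (.sw 0 1 [25,26])) .no)) .no .no)) .no (.br .no .no .no (.br .no (.br (.br .no .no (.br .no (.sw 0 3 [20,26]) .no (.br (.br (.br .no .no (.br .no .no .no (.de 43)) .no) (.br (.br .no .no (.br .no (.br (.br .no (.br .no .no .no (.sy 38 177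 5)) (.sw 1 3 [33]) .no) .no .no .no) .no (.de 44)) (.br .no (.br (.br .no (.br .no .no .no (.sy 38 177 5)) (.sw 1 3 [33]) .no) .no .no .no) .no .no)) .no (.br .no .no .no (.de 43)) .no) .no .no) (.br (.br .no .no (.br .no .no .no (.de 43)) .no) (.br (.br .no .no (.br .no (.br (.br .no .no (.br (.de 48) .no .no (.sw 0 1 [34])) .no) .no .no .no) .no (.de 44)) (.br .no (.br (.br .no .no (.br (.de 48) .no .no (.sw 0 1 [34])) .no) .no .no .no) .no .no)) .no (.br .no .no .no (.de 43)) .no) .no .no) .no .no)) (.br .no (.br (.br (.br .no .no (.br .no .no .no (.de 43)) .no) (.br (.br .no .no (.br .no (.br (.sw 2 3 [32]) .no (.sw 0 3 [20,26,31,32]) .no) .no .no) (.br .no (.br (.sw 2 3 [32]) .no (.br .no .no .no (.de 41)) .no) (.de 44) .no)) .no (.br .no .no .no (.de 43)) .no) .no .no) .no .no .no) .no .no)) .no .no (.br .no .no (.br .no (.sw 0 3 [20,26]) .no (.sw 0 1 [25,26])) .no)) .no .no)) .no) .no) .no .no .no) .no .no) .no) .no .no (.br (.br .no (.br (.br .no .no (.br (.br .no .no (.br .no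 (.br .no .no (.br .no .no .no (.br .no (.de 34) .no .no)) (.br .no .no (.br .no (.de 34) .no (.br .no (.br .no (.br (.br .no .no (.br (.br .no (.br (.br .no .no (.sy 36 216 5) (.br .no .no .no (.de 43))) .no (.sw 0 3 [20,26,33]) .no) .no .no) (.br (.br .no .no (.br .no .no .no (.br .no .no .no (.de 43))) .no) .no .no .no) .no .no) .no) .no .no (.de 42)) .no (.br (.br .no .no (.br (.br .no (.br (.br .no .no (.sy 36 216 5) .no) .no (.de 41) .no) .no .no) (.br (.br .no .no (.de 41) .no) .no .no .no) .no .no) .no) .no .no .no)) .no .no)) .no)) .no .no) .no) .no (.br (.br .no (.br .no .no (.br .no .no .no (.br .no (.br (.br .no (.br .no .no (.br (.br .no (.br (.br .no .no (.br .no .no .no (.br .no .no .no (.de 43))) (.de 41)) .no (.sw 0 3 [20,26,32]) .no) .no .no) .no .no (.de 43)) (.de 42)) .no (.br .no .no (.br (.br .no (.br (.br .no .no (.br .no (.de 47) .no .no) (.br .no (.br .no (.br .no .no .no (.br .no .no (.br .no .no .no (.br .no (.br .no .no (.br (.sw 1 3 [5]) .no .no .no) .no) .no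 .no)) .no)) .no .no) .no .no)) .no (.sw 0 3 [20,26,32]) .no) .no .no) .no .no (.de 43)) .no)) .no .no .no) .no .no)) (.br .no .no (.br .no (.sw 0 3 [20,26]) .no (.br (.br .no (.br .no .no (.br (.br .no (.br (.br .no (.sy 37 228 3) (.sw 1 3 [33]) .no) .no .no .no) .no .no) .no .no .no) (.de 42)) .no (.br .no .no (.br (.br .no (.br (.br .no (.de 41) (.sw 1 3 [33]) .no) .no .no .no) .no .no) .no .no .no) .no)) (.br .no (.br .no .no (.br (.br .no (.br (.br .no .no (.br (.de 48) .no .no (.sw 0 1 [34])) .no) .no .no .no) .no .no) .no .no .no) (.de 42)) .no (.br .no .no (.br (.br .no (.br (.br .no .no (.br (.br .no (.de 48) .no .no) .no .no .no) .no) .no .no .no) .no .no) .no .no .no) .no)) .no .no)) .no)) (.br .no .no .no (.br .no .no (.br .no (.sw 0 3 [20,26]) .no (.sw 0 1 [17,24,25,26])) .no)) .no) .no .no .no) .no) .no) .no .no .no) .no .no) .no (.sw 0 1 [17]) .no)) .no .no))) .no)) .no .no) .no) .no (.br (.br .no (.br .no .no .no (.br .no .no (.br (.br (.br .no c6_1_2 .no (.br .no .no (.br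 (.br .no (.br .no .no .no (.br .no .no (.br .no (.br (.br .no (.br .no .no (.br (.br .no (.br .no .no .no (.br .no .no (.br .no .no .no (.br (.br .no (.br .no .no (.br (.de 41) .no .no .no) (.de 45)) .no (.br .no .no (.br (.de 41) .no .no .no) .no)) .no .no .no)) (.br .no .no (.br (.br .no (.br .no .no (.br (.br .no .no (.sy 39 141 5) .no) .no .no .no) (.de 45)) .no (.br .no .no (.br (.br .no .no (.sy 39 141 5) .no) .no .no .no) .no)) .no .no (.de 43)) .no))) .no .no) .no .no .no) (.br (.br .no (.br .no .no .no (.sy 33 114 5)) .no .no) .no (.br (.br .no .no .no (.br .no .no (.br .no .no .no (.br (.sw 1 2 [11,17,23,30]) .no (.de 43) .no)) (.br .no .no (.br (.br .no (.br .no .no .no (.de 45)) .no .no) .no .no .no) .no))) (.br .no .no .no (.sy 33 114 5)) .no .no) .no)) .no (.sw 1 2 [11,17,23])) .no .no .no) (.br (.sw 1 3 [22]) (.br .no .no .no (.br .no .no (.br (.br .no (.br .no .no .no (.br (.br .no .no (.br (.sw 1 3 [22,29,30]) (.br .no .no .no (.br .no .no (.br (.br .no (.de 48) .no .no)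 .no .no .no) .no)) .no .no) .no) .no .no (.br (.br .no (.br .no .no .no (.br .no .no (.br (.br .no (.br .no (.br .no .no (.de 44) (.br .no .no (.br .no (.br .no .no .no (.br .no .no (.br (.sw 1 3 [5]) .no .no .no) .no)) .no .no) .no)) .no .no) .no .no) .no .no .no) .no)) .no .no) .no (.sw 0 1 [29]) .no))) .no .no) .no .no .no) .no)) .no .no) .no) .no)) .no .no) .no .no .no) .no)) .no .no (.br .no (.br .no .no (.br (.br .no (.br .no .no .no (.br .no .no (.br (.br .no .no .no (.br .no (.br .no .no (.br (.br .no (.de 34) .no .no) .no .no .no) (.sw 0 2 [15,16,23,24])) .no .no)) .no (.br (.br .no (.br .no .no (.br (.br .no (.br (.sy 32 228 5) .no .no .no) .no .no) .no .no .no) (.br (.br .no (.br (.sy 32 228 5) .no .no .no) .no .no) .no (.br (.br .no (.sw 0 3 [21]) .no .no) (.br (.br .no (.br .no .no (.br (.br .no (.br (.br .no .no (.br .no .no .no (.br .no .no .no (.de 43))) (.de 41)) .no .no (.de 45)) .no .no) .no .no .no) (.de 42)) .no (.br .no .no (.br (.br .no (.br (.br .no .no (.br .no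 (.de 47) .no .no) (.br .no (.br .no (.br .no .no .no (.br .no .no (.br .no .no .no (.br .no (.sw 0 2 [32,39]) .no .no)) .no)) .no .no) .no .no)) .no .no (.de 45)) .no .no) .no .no .no) .no)) .no .no .no) .no .no) .no)) .no (.br .no .no (.br (.br .no (.br (.br .no (.br .no .no (.br (.sw 1 3 [30]) (.br .no .no .no (.br .no .no (.br .no .no .no (.de 41)) .no)) .no .no) .no) .no (.br .no (.de 42) (.br (.sw 1 3 [30]) (.br .no .no .no (.br .no .no (.br .no .no .no (.br .no (.sy 38 27 5) .no .no)) .no)) .no .no) .no)) .no .no .no) .no .no) .no .no .no) .no)) .no .no (.br .no (.br .no .no (.br (.br .no (.br (.br (.br .no .no (.br (.br .no (.br .no .no (.br .no .no .no (.br .no (.de 48) .no .no)) (.de 45)) .no (.br .no .no (.br .no .no .no (.br .no (.de 48) .no .no)) .no)) .no .no (.de 43)) .no) (.br (.br .no .no .no (.br .no (.br .no .no (.br .no .no .no (.de 41)) (.de 45)) .no .no)) .no (.sw 0 3 [29]) .no) .no .no) .no .no .no) .no .no) .no .no .no) (.sw 0 2 [15,16,23,24])) .no .no)) .no) .no))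 .no .no) .no .no .no) (.sw 0 2 [15,16])) .no .no)) .no .no (.br (.br .no (.br .no .no (.br (.br .no (.br (.br .no .no (.sy 24 228 5) .no) .no .no .no) .no .no) .no .no .no) (.br (.sw 1 2 [11,17]) .no (.br (.br .no (.br .no .no (.sw 0 3 [20]) .no) .no .no) (.br (.br .no .no (.br .no .no (.br (.br .no (.br (.br .no .no (.br .no (.sw 0 3 [20,26]) .no (.br .no (.br .no (.br .no .no (.br .no .no .no (.de 43)) (.de 42)) .no (.br .no .no (.br .no .no .no (.de 43)) .no)) .no .no)) (.br .no (.br .no .no .no (.br .no (.br .no .no (.br .no .no .no (.de 43)) (.de 42)) .no (.br .no .no (.br .no .no .no (.de 43)) .no))) .no .no)) .no .no (.sw 0 2 [24])) .no .no) .no .no .no) (.br (.br .no (.br (.br .no .no (.br .no (.de 34) .no (.br .no (.br .no (.br .no .no (.br .no .no .no (.de 43)) (.de 42)) (.br .no .no .no (.br .no .no (.de 43) .no)) .no) .no .no)) (.br .no (.de 34) .no .no)) .no .no (.sw 0 2 [24])) .no .no) .no (.br (.br .no .no .no (.br .no .no (.br .no (.de 34) .no (.sw 0 1 [25,26])) .no))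 (.br (.br .no .no (.br .no (.de 34) .no (.br .no (.br (.br .no .no .no (.br .no .no (.de 43) .no)) (.br (.br .no .no (.br .no (.br (.br .no .no (.br (.de 48) .no .no .no) .no) .no .no .no) .no (.de 44)) (.br .no (.br (.br .no .no (.br (.de 48) .no .no .no) .no) .no .no .no) .no .no)) .no .no (.de 42)) .no .no) .no .no)) (.br .no (.de 34) .no .no)) .no .no (.sw 0 2 [24])) .no .no) .no)) .no) .no .no .no) .no .no) .no)) .no (.br .no .no (.br (.br .no (.br (.br .no .no (.br .no (.br (.br .no (.br .no .no (.br .no .no .no (.br .no (.br .no .no .no (.sy 32 54 3)) .no .no)) (.br .no .no (.br .no (.sw 0 3 [20,26]) .no (.de 34)) .no)) .no (.sw 1 2 [11,17,23])) .no .no .no) (.br (.sw 1 3 [22]) (.br .no .no .no (.br .no .no (.br .no .no .no (.br .no (.br .no .no .no (.sw 0 1 [14,21])) .no .no)) .no)) .no .no) .no) .no) .no .no .no) .no .no) .no .no .no) .no)) .no .no (.br .no (.br .no .no (.br (.br .no (.br (.br .no .no (.sw 0 1 [14]) .no) .no .no .no) .no .no) .no .no .no) (.sw 0 2 [15,16])) .no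 .no))) .no)) .no .no) .no .no .no) .no)

theorem P6_1 : R.S 8 44164 :=
  R.piece L hL (.br .no .no .no (.br .no (.br .no .no .no (.br .no (.sy 8 54 3) (.br (.br .no (.br (.br .no .no (.br (.br .no (.br .no .no .no (.br .no .no (.br .no .no .no (.br .no (.br .no .no .no (.br .no .no (.br (.br .no (.br (.br .no .no (.br (.br .no (.br .no .no .no (.br .no .no (.br .no .no .no (.br .no (.br .no .no .no (.br .no .no (.br (.br .no (.br (.br .no .no (.br (.br .no (.sy 36 228 5) .no .no) .no .no .no) .no) .no .no .no) .no .no) .no .no .no) (.br (.sw 1 2 [11,17,23,29]) .no (.br (.br .no (.br (.br .no .no (.br .no (.de 47) .no .no) .no) .no (.br (.br .no (.br .no (.br .no .no .no (.br .no .no (.br .no .no .no (.br .no (.br .no .no (.br (.sw 1 3 [5]) .no .no .no) .no) .no .no)) .no)) .no .no) (.sy 39 141 5) .no) .no .no .no) .no) .no .no) (.br (.br .no .no (.br (.br .no (.br .no (.br .no .no .no (.sw 0 2 [36])) .no .no) (.sy 38 216 3) .no) .no .no .no) .no) .no .no .no) .no .no) .no))) .no .no))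 .no)) .no .no) .no (.br (.br .no (.br .no .no (.br .no .no .no (.br .no (.br (.br .no (.br .no .no (.br (.br .no (.br (.br .no .no (.br .no .no .no (.br .no .no .no (.de 43))) (.de 41)) .no (.br .no .no .no (.de 41)) .no) .no .no) .no .no (.de 43)) (.de 42)) .no (.br .no .no (.br (.br .no (.br (.br .no .no (.br .no (.de 47) .no .no) (.br .no (.br .no (.br .no .no .no (.br .no .no (.br .no .no .no (.br .no (.br .no .no (.br (.sw 1 3 [5]) .no .no .no) .no) .no .no)) .no)) .no .no) .no .no)) .no (.br .no .no .no (.br .no (.br .no (.br .no .no .no (.br .no .no (.br .no .no .no (.br .no (.sw 0 2 [39]) .no .no)) .no)) .no .no) .no .no)) .no) .no .no) .no .no (.de 43)) .no)) .no .no (.br .no (.br .no .no (.br (.br .no (.br (.br .no .no (.br (.de 48) .no .no .no) .no) .no (.br (.de 41) .no .no .no) .no) .no .no) .no .no (.de 43)) (.de 42)) .no (.br .no .no (.br (.br .no (.br (.br .no .no (.br (.br .no (.de 48) .no .no) (.de 47) .no .no) .no) .no (.br (.br .no (.br .no (.br .no .no .no (.br .no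 .no (.br .no .no .no (.br .no (.br .no .no (.sw 0 3 [34,40]) .no) .no .no)) .no)) .no .no) .no .no) .no .no .no) .no) .no .no) .no .no (.de 43)) .no))) .no .no)) (.br .no .no (.br .no (.br (.br .no (.br .no .no (.br (.br .no (.br (.sw 2 3 [31,32]) .no .no (.de 45)) .no .no) .no .no .no) (.de 42)) .no (.br .no .no (.br (.br .no (.br (.sw 2 3 [31,32]) .no .no (.de 45)) .no .no) .no .no .no) .no)) .no .no (.br .no (.br .no .no (.br (.br .no (.br (.sw 2 3 [31,32]) .no .no (.de 45)) .no .no) .no .no .no) (.de 42)) .no (.br .no .no (.br (.br .no (.br (.sw 2 3 [31,32]) .no .no (.de 45)) .no .no) .no .no .no) .no))) .no (.br (.br .no (.br .no .no (.br (.br .no (.br (.br .no (.sy 37 228 3) (.sw 1 3 [33]) .no) .no .no .no) .no .no) .no .no .no) (.de 42)) .no (.br .no .no (.br (.br .no (.br (.br .no (.de 41) (.sw 1 3 [33]) .no) .no .no .no) .no .no) .no .no .no) .no)) .no .no .no)) .no)) .no (.sw 1 2 [11,17,23])) (.br .no .no .no (.br .no .no (.br .no .no .no (.br .no (.br (.br (.br .no .no (.br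 (.br .no (.br (.br .no .no (.sy 35 216 5) (.br .no (.de 48) .no .no)) .no (.br .no .no .no (.br .no (.de 48) .no .no)) .no) .no .no) (.br (.br .no .no (.br .no .no .no (.br .no (.de 48) .no .no)) .no) .no .no .no) .no .no) .no) .no .no (.br (.br .no (.br (.br .no .no (.br .no .no .no (.br .no (.br .no (.br .no .no (.br .no .no .no (.br .no (.de 46) .no .no)) (.br .no .no (.br .no (.de 46) .no (.br .no (.br .no .no (.br (.sw 1 3 [5]) .no .no .no) .no) .no .no)) .no)) .no .no) .no .no)) .no) .no .no .no) .no .no) .no (.sw 0 1 [29]) .no)) .no .no (.sy 30 27 5)) .no .no)) .no)) .no .no) .no) .no) .no .no .no) .no .no) .no .no .no) .no)) .no (.br .no (.br .no .no (.br (.br .no (.br (.br .no (.sy 24 228 3) (.br (.br .no .no .no (.br .no (.br .no .no (.br .no .no .no (.br .no (.de 34) .no .no)) (.br .no .no (.br .no (.de 34) .no (.br .no (.sy 29 39 5) .no .no)) .no)) .no .no)) .no (.br (.br .no (.br .no .no (.br .no .no .no (.br .no (.br (.sw 1 3 [21,22]) .no .no .no) .no .no)) (.br .no .no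 (.br .no (.br (.sw 1 3 [21,22]) .no .no .no) .no (.br (.sw 1 2 [27]) (.br .no (.br .no .no (.br (.br .no (.br (.br .no .no (.br (.de 48) .no .no (.sw 0 1 [34])) .no) .no .no .no) .no .no) .no .no .no) (.de 42)) .no (.br .no .no (.br (.br .no (.br (.br .no .no (.br (.sw 1 3 [21,22,33,34]) .no .no .no) .no) .no .no .no) .no .no) .no .no .no) .no)) .no .no)) .no)) .no (.br .no .no (.br .no .no .no (.br .no (.br (.sw 1 3 [21,22]) .no .no .no) .no .no)) .no)) .no .no (.br .no (.br .no .no (.br .no .no .no (.br .no (.br (.br (.br .no .no (.br (.sw 1 3 [21,22,29,30]) .no .no (.de 43)) .no) (.br (.br .no .no .no (.br (.br .no .no (.br .no .no .no (.de 41)) .no) (.br (.br .no .no (.br .no .no .no (.br .no .no .no (.br .no .no (.de 44) .no))) (.de 41)) .no (.br .no .no .no (.de 41)) .no) .no .no)) .no (.sw 0 3 [29]) .no) .no .no) .no .no .no) .no .no)) (.br .no .no (.br .no (.br (.br (.br .no .no (.br (.br .no (.br (.sw 2 3 [31,32]) .no .no (.de 45)) .no .no) .no .no .no) .no) (.br (.br .no .no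 (.br (.br .no .no .no (.br .no .no (.br .no .no .no (.br .no .no .no (.de 43))) .no)) (.br (.br .no .no (.br .no .no .no (.br .no .no .no (.de 43))) (.de 41)) .no .no (.de 45)) .no .no) .no) .no (.sw 0 3 [29]) .no) .no .no) .no .no .no) .no (.br (.sw 1 2 [27]) (.sy 29 39 5) .no .no)) .no)) .no .no)) .no) .no) .no .no .no) .no .no) .no .no .no) (.br (.sw 1 2 [11,17]) .no (.br (.br .no (.br .no .no (.br (.br .no .no (.br (.br .no (.br .no .no (.br (.br .no (.sy 33 228 5) .no .no) .no .no (.br .no (.br .no (.br .no .no .no (.de 42)) .no (.br .no (.de 42) .no .no)) .no .no)) (.br (.br .no (.sy 33 228 5) .no .no) .no .no .no)) .no (.sw 1 2 [11,17,24])) (.br .no .no .no (.br .no .no (.br (.br .no (.br .no (.br (.br .no .no (.br (.br .no (.br .no .no (.br .no .no .no (.br .no .no .no (.de 43))) (.de 46)) .no (.br .no .no (.br .no .no .no (.br .no .no .no (.de 43))) .no)) (.br .no .no .no (.de 45)) .no .no) .no) .no .no (.de 42)) .no (.br (.br .no .no (.br (.br .no (.br .no .no (.de 41) (.de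 46)) .no (.br .no .no (.de 41) .no)) (.br .no .no .no (.de 45)) .no .no) .no) .no .no .no)) .no .no) .no .no (.br .no (.br .no (.br (.br .no .no (.br (.br .no (.br (.br .no .no (.sy 36 216 5) (.br .no .no .no (.de 43))) .no (.sw 0 3 [33]) .no) .no .no) (.br (.br .no .no (.br .no .no .no (.br .no .no .no (.de 43))) .no) .no .no .no) .no .no) .no) .no .no (.de 42)) .no (.br (.br .no .no (.br (.br .no (.br (.br .no .no (.sy 36 216 5) .no) .no (.de 41) .no) .no .no) (.br (.br .no .no (.de 41) .no) .no .no .no) .no .no) .no) .no .no .no)) .no .no)) .no)) .no .no) .no) .no (.br (.br .no (.br .no .no .no (.br .no .no (.br (.br .no (.br .no (.br .no .no (.br (.br .no (.br .no .no .no (.de 45)) .no .no) .no .no .no) (.de 42)) .no (.br .no .no (.br (.br .no (.br .no .no .no (.de 45)) .no .no) .no .no .no) .no)) .no .no) .no .no (.br (.br .no (.br .no .no (.br (.br .no (.br (.br .no (.sy 37 228 3) (.br .no .no .no (.br .no .no .no (.de 43))) .no) .no .no .no) .no .no) .no .no .no) (.de 42)) .no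 (.br .no .no (.br (.br .no (.br (.br .no (.de 41) (.br .no (.de 47) .no .no) .no) .no .no .no) .no .no) .no .no .no) .no)) (.br .no (.br .no .no (.br (.br .no (.br (.br .no .no (.br (.de 48) .no .no (.sw 0 1 [34])) .no) .no .no .no) .no .no) .no .no .no) (.de 42)) .no (.br .no .no (.br (.br .no (.br (.br .no .no (.br (.br .no (.de 48) .no .no) .no .no .no) .no) .no .no .no) .no .no) .no .no .no) .no)) .no .no)) .no)) .no .no) .no .no .no) .no) .no) .no .no) (.br (.br .no (.sy 27 114 3) (.br (.br .no .no (.br (.br .no .no .no (.br .no .no (.br .no (.de 34) .no (.sw 0 1 [25,26])) .no)) (.br (.br .no .no (.br .no (.de 34) .no (.br .no (.br .no (.br (.br .no .no (.br .no (.br (.br .no .no (.br .no .no .no (.br .no .no .no (.de 43))) .no) .no .no .no) .no (.de 44)) (.br .no (.br (.br .no .no (.br .no .no .no (.br .no .no .no (.br .no .no (.de 44) .no))) .no) .no .no .no) .no .no)) .no .no (.de 42)) .no (.br (.br .no .no (.br .no (.br (.br .no .no (.de 41) .no) .no .no .no) .no (.de 44)) (.br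 .no (.br (.br .no .no (.de 41) .no) .no .no .no) .no .no)) .no .no .no)) .no .no)) (.br .no (.de 34) .no .no)) .no .no (.sw 0 2 [24])) .no .no) .no) .no (.br (.br .no (.br (.br .no .no (.br .no (.br (.sy 34 216 5) .no .no .no) .no (.br (.sw 1 2 [27]) (.br .no (.br .no .no (.br .no .no .no (.de 43)) (.de 42)) .no (.br .no .no (.br .no .no .no (.de 43)) .no)) .no .no)) (.br .no (.br (.br .no (.br .no .no (.br .no .no .no (.de 43)) (.de 42)) .no (.br .no .no (.br .no .no .no (.de 43)) .no)) .no .no .no) .no .no)) .no .no (.sw 0 2 [24])) .no .no) .no .no .no) .no) .no) .no .no .no) .no .no) .no)) .no .no))) .no)) .no .no) .no .no .no) .no) c6_1_3 .no .no) .no (.sy 13 27 5)) (.br .no .no .no (.sy 13 27 5)) .no .no) .no)) .no .no)) 8 44164 65536 (by norm_num) (by norm_num) (by norm_num) (by decide +kernel)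

def c6_2_0 : Cert := (.br .no (.br .no .no (.br (.br .no (.br .no .no .no (.br .no (.br .no .no (.br (.br .no (.br .no .no (.br (.de 34) .no .no .no) (.br (.de 34) .no (.br (.br (.br .no (.br .no .no (.br (.br .no (.br .no .no .no (.de 46)) .no .no) .no .no .no) (.br (.br .no (.br .no .no .no (.de 46)) .no .no) .no (.de 44) .no)) .no (.br .no .no (.de 43) .no)) .no .no (.br .no (.de 42) .no .no)) .no .no .no) .no)) .no (.br .no .no (.br (.de 34) .no .no .no) .no)) .no .no (.br .no (.br .no .no (.br (.de 34) .no .no .no) (.br (.de 34) .no (.br (.br (.br .no (.br (.br .no .no (.br (.br .no (.sy 35 228 5) .no (.br .no .no (.br .no .no .no (.br .no .no (.br .no .no .no (.br .no (.de 46) .no .no)) .no)) .no)) (.br .no .no .no (.de 46)) .no .no) .no) .no (.sw 0 3 [30]) .no) .no .no) .no .no (.br (.br .no .no (.br (.br .no (.br .no .no .no (.de 46)) .no .no) .no .no .no) .no) (.de 42) .no .no)) .no .no .no) .no)) .no .no)) (.br (.br .no (.br .no .no (.br (.de 34) .no .no .no) (.br (.de 34)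 .no (.br (.br (.br .no (.sw 2 3 [29]) (.br .no .no .no (.de 43)) .no) .no (.br .no (.br .no .no (.br (.br .no (.br .no .no .no (.de 41)) .no .no) .no .no .no) (.br (.br .no (.br .no .no .no (.de 41)) .no .no) .no (.de 44) .no)) .no .no) .no) .no .no .no) .no)) .no (.br .no .no (.br (.de 34) .no .no .no) .no)) .no .no .no)) .no (.br .no .no (.br (.br .no (.br .no .no (.br (.br .no (.br (.br .no (.br .no .no (.br (.br .no (.br .no .no (.de 41) (.de 46)) .no (.br .no .no (.de 41) .no)) .no .no (.de 44)) (.br (.br .no (.br .no .no (.de 41) (.de 46)) .no (.br .no .no (.de 41) .no)) .no .no .no)) .no (.br .no .no (.de 43) .no)) (.br .no .no .no (.de 42)) .no .no) .no .no) .no .no .no) (.br (.br .no (.br (.br .no (.br .no .no (.br (.br .no (.sw 2 3 [32]) (.br .no .no .no (.br .no .no (.sy 37 141 5) .no)) .no) .no .no .no) (.br (.br .no (.sw 2 3 [32]) (.br .no .no .no (.br .no .no (.br .no .no .no (.br .no .no (.de 44) .no)) .no)) .no) .no (.de 44) .no)) .no (.br .no .no (.de 43) .no)) (.br .no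 .no .no (.de 42)) .no .no) .no .no) .no (.br (.sw 1 2 [21]) (.br (.br .no (.br .no .no (.br (.br .no (.br (.br .no .no (.sy 38 228 5) .no) .no .no (.de 46)) .no .no) .no .no .no) (.br (.br .no (.br (.br .no .no (.sy 38 228 5) .no) .no .no (.de 46)) .no .no) .no (.de 44) .no)) .no (.br .no .no (.de 43) .no)) (.br .no .no .no (.de 42)) .no .no) .no .no) .no)) .no (.br .no .no (.br (.br .no (.br (.br .no (.br .no .no (.br (.sw 1 3 [31]) (.br .no .no .no (.de 45)) .no .no) .no) .no (.br .no (.br (.br .no (.br .no .no (.de 41) (.de 46)) .no (.br .no .no (.de 41) .no)) .no .no .no) (.de 43) .no)) (.br .no .no .no (.de 42)) .no .no) .no .no) .no .no .no) .no)) .no .no (.br .no (.br .no .no (.br (.br .no (.br (.br .no (.br (.br .no .no .no (.br .no (.de 45) .no .no)) .no (.sw 0 3 [30]) .no) .no .no) (.br (.br .no .no (.br (.br .no (.br .no .no (.br (.de 48) .no .no .no) (.de 46)) .no (.br .no .no (.br (.de 48) .no .no .no) .no)) .no .no (.de 44)) .no) .no .no .no) .no .no) .no .no) .no .no .no)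 (.br (.br .no (.br (.br .no (.br (.br .no .no (.br .no (.br .no .no (.de 41) (.de 46)) .no .no) .no) .no (.sw 0 3 [30]) .no) .no .no) (.sy 28 27 7) .no .no) .no .no) .no (.sy 28 27 5) .no)) .no .no)) .no))) .no .no) .no .no .no) (.br (.sw 1 2 [11,18]) .no (.br (.br .no (.br .no (.br .no .no (.br (.br .no (.br .no .no .no (.br .no .no (.br (.br (.br .no (.br .no .no (.br (.br .no (.br .no .no .no (.de 46)) .no .no) .no .no .no) (.br (.sw 1 2 [11,18,25,31]) .no (.de 44) .no)) .no (.br .no .no (.de 43) .no)) .no .no (.br .no (.de 42) .no .no)) .no .no (.br (.br .no (.br .no .no (.br (.br .no (.br (.br .no .no (.sy 38 228 5) .no) .no .no .no) .no .no) .no .no .no) (.br (.sw 1 2 [11,18,25,31]) .no (.de 44) .no)) .no (.br .no .no (.de 43) .no)) .no .no (.br .no (.de 42) .no .no))) .no)) .no .no) .no .no .no) (.br (.br .no (.br .no .no .no (.br .no .no (.br (.br (.br .no (.sw 2 3 [29]) (.br .no .no .no (.de 43)) .no) .no (.br .no (.br .no .no (.br (.br .no (.br .no .no .no (.de 41)) .no .no)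 .no .no .no) (.br (.sw 1 2 [11,18,25,31]) .no (.de 44) .no)) .no .no) .no) .no .no (.br (.br .no (.sw 2 3 [29]) (.br .no .no .no (.de 43)) .no) .no (.br .no (.br .no .no (.br (.br .no (.sy 32 27 7) .no .no) .no .no .no) (.br (.sw 1 2 [11,18,25,31]) .no (.de 44) .no)) .no .no) .no)) .no)) .no .no) .no (.br (.br .no (.br .no .no (.br (.br (.br .no (.br .no .no .no (.br .no .no (.de 44) .no)) .no .no) .no (.br (.br .no (.br .no .no (.br (.br .no (.br .no .no .no (.br .no (.br .no .no (.br .no .no .no (.br .no (.br .no .no .no (.br .no .no (.br (.sw 1 3 [5]) .no .no .no) .no)) .no .no)) (.de 44)) .no (.br .no .no (.br .no .no .no (.br .no (.br .no .no .no (.br .no .no (.sy 42 27 5) .no)) .no .no)) .no))) .no (.de 41)) .no .no (.br .no (.de 46) .no .no)) (.br (.br .no (.br .no .no .no (.br .no (.br .no .no (.de 44) (.br .no .no (.br .no (.sw 2 3 [38,43,44]) .no .no) .no)) .no (.br .no .no (.de 44) .no))) .no (.de 41)) .no .no .no)) .no (.br .no .no (.de 44) .no)) (.br .no .no .no (.br .no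 .no (.de 44) .no)) .no .no) .no) .no .no (.br (.br .no (.br .no .no .no (.br .no .no (.de 44) .no)) .no .no) .no (.br (.br .no (.br .no .no (.br (.br .no (.br (.sy 39 228 5) .no .no .no) .no .no) .no .no (.br (.de 41) (.de 46) .no .no)) (.br (.br .no (.br (.sy 39 228 5) .no .no .no) .no .no) .no .no .no)) .no (.br .no .no (.de 44) .no)) (.br .no .no .no (.br .no .no (.de 44) .no)) .no .no) .no)) (.br (.br (.br .no (.br .no .no .no (.br .no .no (.de 44) .no)) .no .no) .no (.br (.br .no (.br .no .no (.br (.br .no (.sw 2 3 [33]) (.br .no .no .no (.sy 38 141 5)) .no) .no .no .no) (.br (.sw 1 2 [11,18,25,32]) .no (.br .no (.br .no .no .no (.br .no (.br .no .no (.de 44) (.br .no .no (.br .no (.br .no .no .no (.sw 0 2 [39])) .no .no) .no)) .no (.br .no .no (.de 44) .no))) .no .no) .no)) .no (.br .no .no (.de 44) .no)) (.br .no .no .no (.br .no .no (.de 44) .no)) .no .no) .no) .no .no .no)) .no (.sw 1 2 [11,18,25])) (.br .no .no .no (.br .no .no (.br (.br (.br .no (.br (.br .no .no (.br (.br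 .no (.sy 35 228 5) .no (.br .no .no (.br .no .no .no (.br .no .no (.br .no .no .no (.br .no (.de 46) .no .no)) .no)) .no)) (.br .no .no .no (.de 46)) .no .no) .no) .no .no (.sw 0 2 [30])) .no .no) .no (.br (.br .no .no .no (.br (.br .no (.br .no .no .no (.de 41)) .no .no) .no (.de 44) .no)) (.br (.br .no .no (.br (.br .no (.br .no .no .no (.br .no .no .no (.br .no .no (.br .no .no .no (.sw 0 1 [31,36,37])) .no))) .no (.de 41)) (.br .no .no .no (.de 41)) .no .no) .no) .no .no (.sw 0 2 [30])) .no .no) .no) .no .no (.sy 32 27 5)) .no)) .no .no) .no)) .no (.br .no .no (.br (.br .no (.br .no .no .no (.br .no .no (.br (.br (.br .no (.br .no .no (.br (.br .no (.br .no .no .no (.de 46)) .no .no) .no .no .no) (.br (.sw 1 2 [11,18,25,31]) .no (.de 44) .no)) .no (.br .no .no (.de 43) .no)) (.br .no .no .no (.de 42)) .no .no) .no .no .no) .no)) .no .no) .no .no .no) .no)) .no (.br .no (.br .no .no (.br (.br .no (.br .no .no .no (.br .no (.br (.br (.br .no (.br .no .no (.br (.sy 31 114 7) .no .no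 .no) (.br (.sw 1 2 [11,18,25,31]) .no (.de 44) .no)) .no (.br .no .no (.de 43) .no)) .no .no (.br .no (.de 42) .no .no)) .no .no .no) (.br (.sw 1 3 [27]) .no .no .no) .no)) .no .no) .no .no .no) (.br (.br .no (.br .no .no .no (.br .no (.br (.sy 31 114 5) .no .no .no) (.br (.sw 1 3 [27]) .no .no .no) .no)) .no .no) .no (.br (.br .no (.br .no .no (.br (.sw 1 3 [27]) .no .no .no) .no) .no (.sw 1 2 [11,18,25])) (.br .no .no .no (.br .no (.br (.sy 31 114 5) .no .no .no) (.br (.sw 1 3 [27]) .no .no .no) .no)) .no .no) .no)) .no (.br .no .no (.br (.br .no (.br .no .no .no (.br .no (.br (.sw 1 2 [21]) .no .no .no) (.br (.sw 1 2 [21]) (.br (.br .no (.br .no .no (.br (.br .no (.br (.br .no .no (.sw 1 3 [27,28,34]) .no) .no .no (.de 46)) .no .no) .no .no .no) (.br (.sw 1 2 [11,18,25,31]) .no (.de 44) .no)) .no (.br .no .no (.de 43) .no)) (.br .no .no .no (.de 42)) .no .no) .no .no) .no)) .no .no) .no .no .no) .no))) (.br .no .no .no (.br .no (.br .no .no (.br (.br .no (.br (.br .no .no (.br (.sy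 30 228 5) .no .no .no) .no) .no .no (.sw 0 2 [25])) .no .no) .no .no .no) (.br (.br .no (.br (.br .no .no (.br (.sy 30 228 5) .no .no .no) .no) .no .no (.sw 0 2 [25])) .no .no) .no (.br (.br .no .no .no (.br (.de 34) .no (.sw 0 1 [26]) .no)) (.br (.br .no .no (.br (.br (.br .no (.br (.br .no .no (.br .no (.br .no .no .no (.de 46)) .no (.br .no (.de 46) .no .no)) (.br .no (.de 45) .no .no)) .no .no (.sw 0 2 [30])) .no .no) .no (.br (.br .no .no .no (.br .no .no (.de 44) .no)) (.br (.br .no .no (.br .no (.br .no .no .no (.de 41)) .no (.br .no (.de 46) .no .no)) (.br .no (.de 45) .no .no)) .no .no (.sw 0 2 [30])) .no .no) .no) .no .no .no) .no) .no .no (.sw 0 2 [25])) .no .no) .no)) .no (.br .no .no (.br (.br .no (.br (.br .no .no (.br (.sw 1 2 [21]) (.br (.br .no (.br .no .no (.br .no .no .no (.de 44)) (.br .no .no (.de 44) .no)) .no (.br .no .no (.de 43) .no)) (.br .no .no .no (.de 42)) .no .no) .no .no) .no) .no .no (.sw 0 2 [25])) .no .no) .no .no .no) .no))) .no .no) .no)) .no (.br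 .no .no (.br (.br .no (.br .no .no .no (.br .no (.br .no .no (.br (.sw 1 3 [23]) (.br .no .no .no (.br .no .no (.br (.de 34) .no .no .no) .no)) .no .no) .no) .no (.br .no (.br (.br .no (.br .no .no (.br (.br .no (.br (.br .no .no (.br .no .no .no (.de 43)) (.br .no .no (.de 43) .no)) .no (.br .no .no .no (.br .no .no (.de 43) .no)) .no) .no .no) .no .no .no) (.br (.br .no (.sy 34 114 5) .no .no) .no (.br (.sw 1 2 [21]) (.sy 34 114 5) .no .no) .no)) .no (.sw 1 2 [11,18,24])) .no .no .no) (.br (.sw 1 3 [23]) (.br .no .no .no (.br .no .no (.br (.br .no (.br (.br .no .no .no (.br (.sw 1 2 [11,18,24,29,30]) .no (.de 43) .no)) (.br (.br .no .no (.br (.sw 1 3 [23,30,31]) (.br .no .no .no (.de 45)) .no .no) .no) .no .no (.de 42)) .no .no) .no .no) .no .no .no) .no)) .no .no) .no))) .no .no) .no .no .no) .no))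

def c6_2_1 : Cert := (.br (.br .no (.br .no .no .no (.br .no .no (.br (.br .no (.br .no .no (.br .no .no (.br (.br .no (.br .no .no .no (.br .no .no (.br (.br .no (.sw 0 3 [15,21]) .no (.br .no (.br .no .no (.br (.br .no (.br .no .no .no (.de 45)) .no .no) .no .no .no) (.de 42)) .no (.br .no .no (.br (.br .no (.br .no .no .no (.de 45)) .no .no) .no .no .no) .no))) .no .no (.br .no (.sw 0 3 [15,21]) .no .no)) .no)) .no .no) .no .no .no) (.br (.br .no (.br .no .no .no (.br .no .no (.br (.br .no (.br .no (.br .no .no (.br (.br .no (.br .no .no .no (.de 45)) .no .no) .no .no .no) (.de 42)) (.br .no .no .no (.br (.br .no (.br .no .no .no (.de 45)) .no .no) .no (.de 43) .no)) .no) .no .no) .no .no (.br .no (.br .no (.br .no .no (.br (.br .no (.sy 31 27 7) .no .no) .no .no .no) (.de 42)) (.br .no .no .no (.br (.br .no (.sy 31 27 7) .no .no) .no (.de 43) .no)) .no) .no .no)) .no)) .no .no) .no (.br (.br .no (.br .no .no (.br (.br .no (.br (.br .no (.br .no .no (.br (.br .no (.br .no .no (.de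 41) (.de 46)) .no (.br .no .no (.de 41) .no)) .no .no (.de 44)) (.br (.br .no (.br .no .no (.de 41) (.de 46)) .no (.br .no .no (.de 41) .no)) .no .no .no)) .no (.br .no .no (.de 43) .no)) (.br .no .no .no (.de 42)) .no .no) .no .no) .no .no (.br .no (.br (.br .no (.br .no .no (.br (.br .no (.br (.br .no .no (.sy 38 228 5) .no) .no (.de 41) .no) .no .no) .no .no (.de 44)) (.br (.br .no (.br (.br .no .no (.sy 38 228 5) .no) .no (.de 41) .no) .no .no) .no .no .no)) .no (.br .no .no (.de 43) .no)) (.br .no .no .no (.de 42)) .no .no) .no .no)) (.br (.br .no (.br (.br .no (.br .no .no (.br (.br .no (.sw 2 3 [32]) (.br .no .no .no (.br .no .no (.sy 37 141 5) .no)) .no) .no .no .no) (.br (.br .no (.sw 2 3 [32]) (.br .no .no .no (.br .no .no (.br .no .no .no (.br .no .no (.de 44) .no)) .no)) .no) .no (.de 44) .no)) .no (.br .no .no (.de 43) .no)) (.br .no .no .no (.de 42)) .no .no) .no .no) .no .no .no)) .no (.br .no .no (.br (.br .no (.br (.br .no (.br .no .no (.br (.sw 1 3 [31]) (.br .no .no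 .no (.de 45)) .no .no) .no) .no (.br .no (.br (.br .no (.br .no .no (.de 41) (.de 46)) .no (.br .no .no (.de 41) .no)) .no .no .no) (.de 43) .no)) (.br .no .no .no (.de 42)) .no .no) .no .no) .no .no (.br .no (.sy 31 27 5) .no .no)) .no)) (.br .no .no .no (.br .no .no (.br (.br .no (.br (.br .no .no .no (.br (.br .no (.br .no .no .no (.de 45)) .no .no) .no (.de 43) .no)) (.br (.br .no .no (.br (.br .no (.br .no .no (.br (.de 48) .no .no .no) (.de 46)) .no (.br .no .no (.br (.de 48) .no .no .no) .no)) (.br .no .no .no (.de 45)) .no .no) .no) .no .no (.de 42)) .no .no) .no .no) .no .no (.br .no (.sy 31 27 5) .no .no)) .no)) .no .no) .no)) (.br .no .no (.br (.br .no (.br .no .no .no (.br .no .no (.br (.br .no (.sw 2 3 [27]) .no .no) .no .no .no) .no)) .no .no) .no .no .no) (.br (.br .no (.br .no .no .no (.br .no .no (.br (.br .no (.sw 2 3 [27]) (.br .no (.br .no .no (.br (.br .no (.br .no .no .no (.de 45)) .no .no) .no .no .no) (.de 42)) (.br .no .no .no (.br (.br .no (.br .no .no .no (.de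 45)) .no .no) .no (.de 43) .no)) .no) .no) .no .no .no) .no)) .no .no) .no (.br (.br .no (.br .no .no (.br (.br .no (.sw 2 3 [27]) (.sy 32 141 5) .no) .no .no .no) (.br (.br .no (.sw 2 3 [27]) (.br (.br .no (.br .no .no (.br (.br .no (.sw 2 3 [32]) (.br .no (.de 41) .no (.br .no (.de 48) .no .no)) .no) .no .no .no) (.br (.br .no (.sw 2 3 [32]) (.br .no (.de 41) .no (.br .no (.de 48) .no .no)) .no) .no (.de 44) .no)) .no (.br .no .no (.de 43) .no)) (.br .no .no .no (.de 42)) .no .no) .no) .no (.br .no (.br (.br .no (.br .no .no (.br (.br .no (.br (.sw 2 3 [27,32,33]) .no .no (.de 46)) .no .no) .no .no .no) (.br (.br .no (.br (.sw 2 3 [27,32,33]) .no .no (.de 46)) .no .no) .no (.de 44) .no)) .no (.br .no .no (.de 43) .no)) (.br .no .no .no (.de 42)) .no .no) .no .no) .no)) .no (.br .no .no (.br (.br .no (.sw 2 3 [27]) (.sy 32 141 5) .no) .no .no .no) .no)) (.br .no .no .no (.br .no .no (.br (.br .no (.sw 2 3 [27]) (.br (.br .no .no .no (.br (.br .no (.br .no .no .no (.de 45)) .no .no) .no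 (.de 43) .no)) (.br (.br .no .no (.br (.br .no (.br .no .no .no (.de 46)) .no (.sy 32 141 7)) (.br .no .no .no (.de 45)) .no .no) .no) .no .no (.de 42)) .no .no) .no) .no .no .no) .no)) .no .no) .no))) .no (.br .no .no (.br .no .no (.br (.br .no (.br .no .no .no (.br .no (.br (.br .no (.sw 0 3 [15,21]) .no (.br .no (.br .no .no (.br (.br .no .no (.br .no .no .no (.br .no (.de 46) (.br (.de 48) .no .no .no) .no)) .no) .no .no .no) (.de 42)) .no (.br .no .no (.br (.br .no .no (.br .no .no .no (.br .no (.de 46) (.br (.sw 1 3 [34]) (.de 47) .no .no) .no)) .no) .no .no .no) .no))) .no .no .no) (.br (.sw 1 3 [26]) (.br .no .no .no (.br .no (.br .no .no (.br (.br .no (.br (.br .no .no (.br (.de 48) .no .no .no) .no) .no .no (.de 45)) .no .no) .no .no .no) (.de 42)) .no (.br .no .no (.br (.br .no (.br (.br .no .no (.br (.sw 1 3 [26,33,34]) (.de 47) .no .no) .no) .no .no (.de 45)) .no .no) .no .no .no) .no))) .no .no) .no)) .no .no) .no .no .no) (.br (.br .no (.br .no .no .no (.br .no (.br (.br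 .no (.sy 30 114 5) .no .no) .no .no .no) (.br (.sw 1 3 [26]) (.de 34) .no .no) .no)) .no .no) .no (.br (.br .no (.br .no .no (.br (.sw 1 3 [26]) (.de 34) .no .no) .no) .no (.br .no (.br (.br .no (.br (.br .no (.br .no .no (.br (.br .no .no (.sw 1 3 [26,31,32]) (.br .no .no (.de 41) .no)) .no .no .no) .no) .no (.br .no (.br (.br .no .no (.br .no .no .no (.br .no .no (.br .no (.de 48) .no .no) .no)) (.br .no .no (.de 41) .no)) .no (.br .no .no .no (.br .no .no (.de 41) .no)) .no) (.de 43) .no)) (.br .no .no .no (.de 42)) .no .no) .no .no) .no .no .no) (.br (.sw 1 3 [26]) (.de 34) .no .no) .no)) (.br .no .no .no (.br .no (.br (.br .no (.sy 30 114 5) .no .no) .no .no .no) (.br (.sw 1 3 [26]) (.de 34) .no .no) .no)) .no .no) .no)) .no)) .no .no (.br .no (.br .no .no (.br .no .no (.br (.br .no (.br (.br .no .no (.br (.br .no (.sw 0 3 [15,21]) .no (.br .no (.br .no .no (.sy 29 228 7) (.de 42)) .no (.br .no .no (.sy 29 228 7) .no))) .no .no (.br .no (.sw 0 3 [15,21]) .no .no)) .no) .no .no .no)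 .no .no) .no .no .no) (.br (.br .no (.br (.br .no .no (.br (.br .no (.sy 29 228 5) .no .no) .no .no (.br .no (.br .no (.br .no .no (.br .no .no .no (.de 43)) (.de 42)) (.br .no .no .no (.br .no .no (.de 43) .no)) .no) .no .no)) .no) .no .no .no) .no .no) .no (.br (.br .no (.br (.br .no .no .no (.br .no (.br (.br .no (.br .no .no (.br .no .no .no (.de 44)) (.br .no .no (.de 44) .no)) .no (.br .no .no (.de 43) .no)) (.br .no .no .no (.de 42)) .no .no) .no .no)) .no (.sw 0 3 [25]) .no) .no .no) (.br (.br .no .no (.br (.br .no (.br (.br .no .no .no (.br .no .no (.de 43) .no)) (.br (.br .no .no (.br .no (.sw 0 3 [25,31]) .no (.de 44)) (.br .no (.br .no .no .no (.de 45)) .no .no)) .no .no (.de 42)) .no .no) .no .no) .no .no (.br .no (.br (.br .no .no .no (.br .no .no (.de 43) .no)) (.br (.br .no .no (.br .no (.sw 0 3 [25,31]) .no (.de 44)) (.br .no (.br (.br .no .no (.br (.de 48) .no .no .no) .no) .no .no .no) .no .no)) .no .no (.de 42)) .no .no) .no .no)) .no) .no .no .no) .no .no) .no)) (.br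 .no .no (.br (.br .no (.sy 23 27 7) .no .no) .no .no .no) (.br (.br .no (.sy 23 27 7) .no .no) .no (.br (.br .no (.br (.br .no .no (.br .no (.br (.br .no (.br .no .no (.br .no .no .no (.de 44)) (.br .no .no (.de 44) .no)) .no (.br .no .no (.de 43) .no)) (.br .no .no .no (.de 42)) .no .no) .no .no) .no) .no (.sw 0 3 [25]) .no) .no .no) (.sy 23 27 7) .no .no) .no))) .no .no)) .no)) .no .no) .no (.br (.br .no (.br .no .no (.br (.br .no (.br .no .no .no (.br .no (.br .no .no (.sw 0 3 [15,22]) (.br (.br .no (.br .no .no (.br (.de 34) .no .no .no) (.br (.de 34) .no (.br (.br (.br .no (.sw 2 3 [29]) (.br .no .no .no (.de 43)) .no) .no (.br .no (.br .no .no (.sw 0 3 [15,22,29,30]) (.br (.br .no (.br .no .no .no (.de 41)) .no .no) .no (.de 44) .no)) .no .no) .no) .no .no .no) .no)) .no (.br .no .no (.br (.de 34) .no .no .no) .no)) .no .no .no)) .no (.br .no .no (.br (.br .no (.br .no .no (.br (.br .no (.br (.br .no (.br .no .no (.br (.br .no (.br .no .no (.de 41) (.de 46)) .no (.br .no .no (.de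 41) .no)) .no .no (.de 44)) (.br (.br .no (.br .no .no (.de 41) (.de 46)) .no (.br .no .no (.de 41) .no)) .no .no .no)) .no (.br .no .no (.de 43) .no)) (.br .no .no .no (.de 42)) .no .no) .no .no) .no .no .no) (.br (.br .no (.br (.br .no (.br .no .no (.br (.br .no (.sw 2 3 [32]) (.br .no .no .no (.br .no .no (.sy 37 141 5) .no)) .no) .no .no .no) (.br (.br .no (.sw 2 3 [32]) (.br .no .no .no (.br .no .no (.br .no .no .no (.br .no .no (.de 44) .no)) .no)) .no) .no (.de 44) .no)) .no (.br .no .no (.de 43) .no)) (.br .no .no .no (.de 42)) .no .no) .no .no) .no (.br (.br (.br .no (.br .no .no (.br (.br .no (.br .no .no .no (.de 46)) .no .no) .no .no .no) (.br (.br .no (.br .no .no .no (.de 46)) .no .no) .no (.de 44) .no)) .no (.br .no .no (.de 43) .no)) (.br .no .no .no (.de 42)) .no .no) (.br (.br .no (.br .no .no (.br (.br .no (.br (.br .no .no (.sy 38 228 5) .no) .no .no (.de 46)) .no .no) .no .no .no) (.br (.br .no (.br (.br .no .no (.sy 38 228 5) .no) .no .no (.de 46)) .no .no) .no (.de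 44) .no)) .no (.br .no .no (.de 43) .no)) (.br .no .no .no (.de 42)) .no .no) .no .no) .no)) .no (.br .no .no (.br (.br .no (.br (.br .no (.br .no .no (.br (.sw 1 3 [31]) (.br .no .no .no (.de 45)) .no .no) .no) .no (.br .no (.br (.br .no (.br .no .no (.de 41) (.de 46)) .no (.br .no .no (.de 41) .no)) .no .no .no) (.de 43) .no)) (.br .no .no .no (.de 42)) .no .no) .no .no) .no .no .no) .no)) .no .no (.br .no (.br .no .no (.br (.br .no (.br (.br .no (.br (.br .no .no .no (.br .no (.de 45) .no .no)) .no (.sw 0 3 [30]) .no) .no .no) (.br (.br .no .no (.br (.br .no (.br .no .no (.br (.de 48) .no .no .no) (.de 46)) .no (.br .no .no (.br (.de 48) .no .no .no) .no)) .no .no (.de 44)) .no) .no .no .no) .no .no) .no .no) .no .no .no) (.br (.br .no (.br (.br .no (.br (.br .no .no (.br .no (.br .no .no (.de 41) (.de 46)) .no .no) .no) .no (.sw 0 3 [30]) .no) .no .no) (.sy 28 27 7) .no .no) .no .no) .no (.sy 28 27 5) .no)) .no .no)) .no))) .no (.de 27)) .no .no (.br .no (.br .no .no .no (.br .no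 (.br .no .no (.sw 0 3 [15,22]) (.br (.br .no (.br (.br .no .no (.br (.sy 30 228 5) .no .no .no) .no) .no (.sw 0 3 [25]) .no) .no .no) .no .no .no)) .no (.br .no .no (.br (.br .no (.br (.br .no .no (.br (.br (.br .no (.br .no .no (.sy 30 228 7) (.br .no .no (.de 44) .no)) .no (.br .no .no (.de 43) .no)) (.br .no .no .no (.de 42)) .no .no) (.br (.br .no (.br .no .no (.br .no .no .no (.de 44)) (.br .no .no (.de 44) .no)) .no (.br .no .no (.de 43) .no)) (.br .no .no .no (.de 42)) .no .no) .no .no) .no) .no (.sw 0 3 [25]) .no) .no .no) .no .no (.br (.br .no .no (.br (.br .no (.br (.br .no (.br .no .no (.br .no (.sw 0 3 [25,30,31]) .no (.de 44)) .no) .no .no) (.br (.br .no (.br .no .no .no (.br .no (.de 45) .no .no)) (.br .no (.br .no .no .no (.de 45)) .no (.de 44)) .no) .no .no .no) .no .no) .no .no) .no .no .no) .no) (.br (.br .no .no (.br (.br (.br .no (.br (.br .no .no (.br .no (.sw 0 3 [25,32]) .no (.br .no (.de 46) .no .no)) (.br .no (.de 45) .no .no)) .no (.sw 0 3 [30]) .no) .no .no)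 (.br (.br .no .no (.br .no .no .no (.de 44)) .no) .no .no .no) .no .no) (.br (.br .no (.br (.br .no .no (.br .no (.sw 0 3 [25,32]) .no (.br (.br .no .no (.sy 40 216 5) .no) .no .no .no)) (.br .no (.de 45) .no .no)) .no (.sw 0 3 [30]) .no) .no .no) (.br (.br .no .no (.br .no .no .no (.de 44)) .no) .no .no .no) .no .no) .no .no) .no) .no (.sw 0 3 [25]) .no) .no .no)) .no))) .no .no)) (.br (.br .no (.br .no .no .no (.br .no (.br .no .no (.sw 0 3 [15,22]) (.br (.br .no (.sw 2 3 [24]) (.br .no .no .no (.br (.de 34) .no (.br (.br (.br .no (.sw 2 3 [29]) (.br .no (.br (.br .no (.br .no .no .no (.de 46)) .no .no) .no .no .no) .no (.de 43)) .no) .no (.br .no (.br .no .no .no (.br (.sw 1 2 [31]) (.br (.br .no (.br .no .no .no (.sy 36 114 5)) .no (.de 41)) .no .no .no) .no .no)) .no .no) .no) .no .no .no) .no)) .no) .no (.br .no (.br .no .no (.br (.de 34) .no .no .no) (.br (.de 34) .no (.br (.br (.br .no (.br (.sw 2 3 [24,29,30]) .no .no (.sw 0 2 [30])) .no .no) .no (.br (.br .no .no .no (.br (.br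 .no (.br .no .no .no (.de 41)) .no .no) .no (.de 44) .no)) (.sw 0 3 [15,22,29]) .no .no) .no) .no .no .no) .no)) .no .no) .no)) .no (.br .no .no (.br (.br .no (.sw 2 3 [24]) (.br .no .no .no (.br (.br .no (.br (.br .no (.br .no .no .no (.br (.sw 1 2 [31]) (.br .no .no (.br .no .no .no (.br .no .no (.br .no .no .no (.br .no .no (.de 44) .no)) .no)) .no) .no .no)) .no (.br .no (.br (.br .no (.sw 2 3 [24,31,32]) (.br .no .no .no (.br .no .no (.br .no (.de 48) .no .no) .no)) .no) .no .no .no) .no .no)) (.br .no .no .no (.de 42)) .no .no) .no .no) .no (.br (.sy 29 141 5) (.br (.br .no (.br .no .no .no (.br (.sw 1 2 [31]) (.br (.br .no .no .no (.br .no .no (.sw 0 1 [34]) .no)) .no .no .no) .no .no)) .no (.sy 29 141 7)) (.br .no .no .no (.de 42)) .no .no) .no .no) .no)) .no) .no .no .no) .no))) .no (.de 27)) .no .no .no)) .no (.br .no .no (.br (.br .no (.br .no .no .no (.br .no (.br .no .no (.br (.sw 1 3 [23]) (.br .no .no .no (.br .no .no (.br (.de 34) .no .no .no) .no)) .no .no) .no) .no (.br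 .no (.br (.br .no (.br .no .no (.br (.br .no (.br (.br .no .no (.br .no .no .no (.de 43)) (.br .no .no (.de 43) .no)) .no (.br .no .no .no (.br .no .no (.de 43) .no)) .no) .no .no) .no .no .no) (.br (.br .no (.sy 34 114 5) .no .no) .no (.br (.br (.br .no .no (.br .no .no .no (.de 43)) (.br .no .no (.de 43) .no)) .no (.br .no .no .no (.br .no .no (.de 43) .no)) .no) (.sy 34 114 5) .no .no) .no)) .no (.br .no .no (.br (.br .no (.br (.br .no .no (.br .no (.br (.br .no (.br .no .no (.de 41) (.de 46)) .no (.br .no .no (.de 41) .no)) .no .no .no) .no .no) (.br .no (.br (.br .no (.br .no .no (.de 41) (.de 46)) .no (.br .no .no (.de 41) .no)) .no .no .no) (.de 43) .no)) .no (.br .no .no .no (.br .no (.br (.br .no (.br .no .no (.br (.br .no (.de 48) .no .no) .no .no .no) (.de 46)) .no (.br .no .no (.br (.br .no (.de 48) .no .no) .no .no .no) .no)) .no .no .no) (.de 43) .no)) .no) .no .no) .no .no .no) .no)) .no .no .no) (.br (.sw 1 3 [23]) (.br .no .no .no (.br .no .no (.br (.br .no (.br (.br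 .no .no .no (.br (.br .no (.br .no .no .no (.de 45)) .no .no) .no (.de 43) .no)) (.br (.br .no .no (.br (.sw 1 3 [23,30,31]) (.br .no .no .no (.de 45)) .no .no) .no) .no .no (.de 42)) .no .no) .no .no) .no .no .no) .no)) .no .no) .no))) .no (.de 27)) .no .no (.br .no (.br .no .no .no (.sy 23 27 5)) .no .no)) .no)) (.sw 0 3 [15]) .no .no) .no)

def c6_2_2 : Cert := (.br (.br .no .no (.br (.br .no (.br .no .no (.br (.sw 2 3 [7,8]) .no .no .no) (.br (.sw 2 3 [7,8]) .no (.br .no .no (.br .no (.br .no .no .no (.br .no .no (.br (.br .no (.br (.sw 2 3 [7,8,19,20]) .no .no (.sw 0 2 [20])) .no .no) .no .no .no) .no)) .no (.br .no (.br .no .no (.br (.br .no (.br (.sw 2 3 [7,8,19,20]) .no .no (.sw 0 2 [20])) .no .no) .no .no .no) (.br (.sw 1 2 [11,18]) .no (.br (.br .no .no .no (.sy 27 27 5)) (.br (.br (.br .no .no (.br (.br .no (.br (.sw 2 3 [7,8,19,20,24,25]) .no .no (.sw 0 2 [25])) .no .no) .no .no .no) .no) (.br (.br .no .no (.br (.br .no .no .no (.br .no .no (.br .no .no .no (.br .no .no (.br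 .no (.br .no .no .no (.br .no (.br (.br .no (.br (.sy 38 225 3) .no .no .no) .no .no) .no .no .no) (.de 44) .no)) .no (.br .no (.br .no .no (.br (.br .no (.br (.br .no (.de 48) .no .no) .no .no .no) .no .no) (.br (.de 41) .no .no .no) .no .no) .no) .no .no)) (.br .no (.de 42) .no .no))) .no)) (.br (.br .no .no (.br .no .no .no (.br .no .no (.br .no (.br (.sw 2 3 [7,8,19,20,24,25,30]) .no .no (.br .no .no (.de 44) .no)) .no (.br (.br .no .no (.br .no (.br (.de 41) .no .no .no) .no (.br (.de 41) (.de 46) .no .no)) (.br .no (.de 45) .no .no)) .no .no .no)) (.br .no (.de 42) .no .no))) (.de 34)) .no .no (.sw 0 2 [25])) .no .no) .no) .no (.br (.br .no (.br (.sw 2 3 [7,8,19,20,24,25]) .no .no (.sw 0 2 [25])) .no .no) .no .no .no) .no) .no .no) .no .no (.sw 0 2 [20])) .no .no) .no)) .no .no)) (.br .no (.br .no .no .no (.br .no .no (.br (.br .no (.br (.sw 2 3 [7,8,19,20]) .no .no .no) .no .no) .no .no .no) .no)) .no .no)) .no)) .no (.sw 1 2 [11])) (.br .no .no .no (.br .no .no (.br (.sw 2 3 [7,8])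 .no .no .no) .no)) .no .no) .no) .no .no (.br (.br .no (.br .no .no .no (.br .no .no (.br (.br (.br .no (.sw 2 3 [7,8,15]) (.br .no .no .no (.br (.sw 1 2 [11,17]) .no (.br (.br .no (.br .no .no (.sy 27 141 5) (.br .no (.br (.br .no (.br .no .no .no (.br .no .no (.br (.br .no .no (.br .no .no (.br .no .no .no (.br (.sw 1 2 [11,17,24,30]) .no (.de 43) .no)) (.br .no .no (.br (.br .no (.br .no .no .no (.de 45)) .no .no) .no .no .no) .no)) .no) .no .no .no) .no)) .no .no) .no .no .no) .no (.br (.sw 1 2 [22]) (.br (.br .no (.br .no .no (.br (.br .no (.sw 2 3 [27]) (.br (.br .no .no (.br .no .no .no (.de 43)) (.sw 1 2 [22,29])) .no (.br .no .no .no (.br .no .no (.de 43) .no)) .no) .no) .no .no .no) (.br (.br .no (.sw 2 3 [27]) (.br (.br .no .no (.br .no .no .no (.de 43)) (.sw 1 2 [22,29])) .no (.br .no .no .no (.br .no .no (.de 43) .no)) .no) .no) .no (.br .no (.sy 34 114 5) .no .no) .no)) .no (.sw 1 2 [11,17,24])) .no .no .no) .no .no))) .no (.br .no .no (.sy 27 141 5) .no)) (.br .no .no .no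 (.br .no .no (.br .no (.br (.br .no (.br (.sy 28 225 3) .no .no (.sw 0 2 [24])) .no .no) .no .no .no) .no (.br (.sw 1 2 [22]) (.br (.br .no .no .no (.br (.br .no (.de 34) .no .no) .no (.sw 0 1 [25]) .no)) .no .no .no) .no .no)) .no)) .no .no) .no)) .no) .no (.br .no (.br .no .no (.br (.br .no (.br .no .no .no (.de 27)) .no .no) .no .no .no) (.br (.sw 1 2 [11,17]) .no (.br (.br .no (.br .no .no .no (.br (.br .no .no (.br (.br .no (.br .no .no (.br (.br .no (.sw 2 3 [7,8,15,21,27]) .no .no) .no .no .no) (.br (.br .no (.sw 2 3 [7,8,15,21,27]) .no .no) .no (.br .no (.br .no (.br .no .no .no (.de 42)) .no (.br .no (.de 42) .no .no)) .no .no) .no)) .no (.sw 1 2 [11,17,24])) (.br .no .no .no (.br .no .no (.br (.br .no (.sw 2 3 [7,8,15,21,27]) .no .no) .no .no .no) .no)) .no .no) .no) .no .no (.br (.br .no (.br .no .no .no (.br .no .no (.br (.br .no (.sw 0 2 [21]) .no .no) .no .no .no) .no)) .no .no) .no (.br (.br .no (.br .no .no (.br (.br .no (.sw 0 2 [21]) .no .no) .no .no .no) (.br (.br .no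 (.sw 0 2 [21]) .no .no) .no (.br (.br (.br .no (.br .no .no (.br (.br .no (.br .no .no .no (.de 46)) .no .no) .no .no .no) (.br (.sw 1 2 [11,17,24,31]) .no (.de 44) .no)) .no (.br .no .no (.de 43) .no)) (.br .no .no .no (.de 42)) .no .no) (.sw 0 2 [21]) .no .no) .no)) .no (.sw 1 2 [11,17,24])) (.br .no .no .no (.br .no .no (.br (.br .no (.sw 0 2 [21]) .no .no) .no .no .no) .no)) .no .no) .no))) .no (.de 27)) (.br .no .no .no (.de 27)) .no .no) .no)) .no .no) .no) .no .no .no) .no)) .no .no) .no (.br (.br .no (.br .no .no (.br c6_2_1 .no .no .no) (.br (.br (.br .no (.br .no .no .no (.br .no .no (.br (.br .no (.sw 2 3 [19]) (.br .no .no .no (.br .no .no (.br (.br .no (.br .no .no .no (.br .no (.br (.br .no (.sw 2 3 [19,26,27]) .no .no) .no .no .no) .no .no)) .no .no) .no .no .no) (.br (.br .no (.br .no .no .no (.br .no (.br (.br .no (.sw 2 3 [19,26,27]) (.br .no (.br .no .no (.br (.br .no .no (.br .no .no .no (.br .no (.de 46) .no .no)) .no) .no .no .no) (.de 42)) (.br .no .no .no (.br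 (.sw 1 2 [11,18,24,30]) .no (.de 43) .no)) .no) .no) .no .no .no) .no .no)) .no .no) .no (.br (.br .no (.br .no .no .no (.br (.sw 1 2 [26]) (.br .no .no (.br (.br .no (.br .no .no (.br (.br .no .no (.br (.sy 37 201 3) .no .no (.sw 0 1 [33])) .no) .no .no .no) (.br (.sw 1 2 [11,18,24,31]) .no (.de 44) .no)) .no (.br .no .no (.de 43) .no)) (.br .no .no .no (.de 42)) .no .no) .no) .no .no)) .no (.sw 1 2 [11,18,24])) (.br .no .no .no (.br .no (.br (.br .no (.sw 2 3 [19,26,27]) (.br (.br .no .no .no (.br (.br .no .no (.br .no .no .no (.br .no (.de 41) .no .no)) .no) .no (.de 43) .no)) (.br (.br .no .no (.br (.br .no .no (.sy 36 216 3) (.sw 1 2 [26,32])) .no .no .no) .no) .no .no (.de 42)) .no .no) .no) .no .no .no) .no .no)) .no .no) .no))) .no) .no .no .no) .no)) .no .no) .no (.br (.br .no (.br .no .no (.br (.br .no (.sw 2 3 [19]) (.br .no .no .no (.sy 24 141 5)) .no) .no .no .no) (.br (.sw 1 2 [11,18]) .no (.br .no (.br .no .no .no (.br .no (.br .no .no (.sw 0 3 [15,22]) (.br (.br .no (.br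 (.sw 2 3 [19,24,25]) .no .no (.sw 0 2 [25])) .no .no) .no (.br (.br .no .no .no (.br (.de 34) .no (.br (.br (.br .no (.br .no .no .no (.br .no (.sw 0 2 [25,30,31]) (.de 44) .no)) .no .no) .no (.br (.br .no (.br .no .no (.br (.br .no (.br .no .no .no (.br .no (.br .no .no (.sw 0 3 [15,22,29,36]) (.de 44)) .no (.br .no .no (.br .no .no .no (.br .no (.br .no .no .no (.br .no .no (.sy 42 27 5) .no)) .no .no)) .no))) .no (.de 41)) (.br .no .no .no (.de 41)) .no .no) .no) .no (.br .no (.br (.br .no (.br .no .no .no (.br .no (.br .no .no (.de 44) .no) .no (.br .no .no (.de 44) .no))) .no (.de 41)) .no .no .no) (.de 44) .no)) (.sw 0 3 [15,22,29]) .no .no) .no) .no .no .no) .no)) (.br (.br .no .no (.br (.br (.br .no (.br (.sw 2 3 [19,24,25,29,30]) .no .no (.sw 0 2 [30])) .no .no) .no (.br (.br .no .no .no (.br .no .no (.de 44) .no)) (.sw 0 3 [15,22,29]) .no .no) .no) .no .no .no) .no) .no .no (.sw 0 2 [25])) .no .no) .no)) .no (.br .no .no (.br (.br .no (.br (.sw 2 3 [19,24,25]) .no .no (.sw 0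 2 [25])) .no .no) .no .no .no) .no))) .no .no) .no)) .no (.br .no .no (.br (.br .no (.sw 2 3 [19]) (.br .no .no .no (.sy 24 141 5)) .no) .no .no .no) .no)) (.sw 0 3 [15]) .no .no) .no) .no (.br (.br .no (.br .no .no .no (.br .no .no (.br (.br .no (.br .no .no .no (.sw 0 2 [20])) .no .no) .no .no .no) .no)) .no .no) .no (.br (.br .no (.br .no .no (.br (.br .no (.br (.sy 25 228 5) .no .no (.sw 0 1 [14])) .no .no) .no .no .no) (.br (.sw 1 2 [11,18]) .no (.br (.br .no .no .no (.sw 0 1 [14])) (.br (.br .no (.br .no .no (.sw 0 3 [15,22]) (.br (.br .no (.br (.br .no .no (.br .no .no .no (.br (.br .no (.sw 2 3 [29]) (.br .no .no .no (.de 43)) .no) .no (.br .no (.br .no .no (.br .no .no .no (.de 44)) (.br .no .no (.de 44) .no)) .no .no) .no)) (.de 34)) .no .no (.sw 0 2 [25])) .no .no) .no (.br (.br .no .no .no (.br .no .no (.br .no .no .no (.sw 0 1 [14,26,27])) .no)) (.br (.br .no .no (.br .no .no .no (.br (.br .no (.br (.br .no .no (.br .no (.br (.br .no .no (.sy 40 216 5) .no) .no .no .no) .no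 (.br (.br .no .no (.sy 40 216 5) .no) (.de 46) .no .no)) (.br .no (.de 45) .no .no)) .no .no (.sw 0 2 [30])) .no .no) .no (.br (.br .no .no .no (.br .no .no (.de 44) .no)) (.sw 0 3 [15,22,29]) .no .no) .no)) (.de 34)) .no .no (.sw 0 2 [25])) .no .no) .no)) .no (.br .no .no (.br (.br .no (.br (.br .no .no (.br .no (.br (.br .no (.br .no .no (.br .no .no .no (.de 44)) (.br .no .no (.de 44) .no)) .no (.br .no .no (.de 43) .no)) (.br .no .no .no (.de 42)) .no .no) .no .no) (.br .no (.br (.br .no (.br .no .no (.br .no .no .no (.de 44)) (.br .no .no (.de 44) .no)) .no (.br .no .no (.de 43) .no)) (.br .no .no .no (.de 42)) .no .no) .no .no)) .no .no (.sw 0 2 [25])) .no .no) .no .no .no) .no)) .no .no (.sw 0 1 [14])) .no .no) .no)) .no (.br .no .no (.br (.br .no (.br (.br .no (.br .no .no (.br (.sw 1 3 [23]) (.br .no .no .no (.br .no .no (.sy 25 228 7) .no)) .no .no) .no) .no (.br .no (.br (.br .no (.br .no .no (.sy 25 228 7) (.br .no .no (.br .no (.sy 34 114 5) .no .no) .no)) .no (.sw 1 2 [11,18,24]))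 .no .no .no) (.br (.sw 1 3 [23]) (.br .no .no .no (.br .no .no (.sy 25 228 7) .no)) .no .no) .no)) .no .no (.sw 0 1 [14])) .no .no) .no .no .no) .no)) (.sw 0 3 [15]) .no .no) .no) .no)) .no (.sw 1 2 [11])) (.br .no .no .no (.br .no .no (.br (.br (.br .no (.br (.br .no .no (.br (.br .no (.sy 21 228 5) .no (.br .no .no (.br .no .no (.sy 21 228 7) (.br .no .no (.br .no (.br .no .no .no (.br .no (.sy 21 228 11) (.br (.sw 1 3 [26]) (.de 34) .no .no) .no)) .no (.br .no (.br .no .no (.br (.sw 1 3 [26]) (.de 34) .no .no) .no) .no .no)) .no)) .no)) (.br .no .no .no (.br .no .no (.br .no .no (.br .no .no .no (.br .no (.br (.br .no .no (.br (.br .no (.sw 0 3 [15,21]) .no (.br (.br .no .no (.br .no .no .no (.de 43)) .no) (.br (.br .no .no (.br .no (.br .no .no .no (.de 45)) .no (.de 44)) (.br .no (.br .no .no .no (.de 45)) .no .no)) .no (.br .no .no .no (.de 43)) .no) .no .no)) (.br .no .no .no (.br (.br .no .no (.br .no .no .no (.de 43)) .no) (.br (.br .no .no (.br .no (.br (.br .no .no (.br (.de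 48) .no .no .no) .no) .no .no (.de 45)) .no (.de 44)) (.br .no (.br (.br .no .no (.br (.de 48) .no .no .no) .no) .no .no (.de 45)) .no .no)) .no (.br .no .no .no (.de 43)) .no) .no .no)) .no .no) .no) .no .no (.sw 0 2 [16,23,24])) .no .no)) (.br .no .no (.br .no (.br (.br .no .no (.br (.br .no (.br (.br .no .no .no (.br .no .no (.de 43) .no)) (.br (.br .no .no (.br .no (.br .no .no .no (.de 45)) .no (.de 44)) (.br .no (.br .no .no .no (.de 45)) .no .no)) .no .no (.de 42)) .no .no) .no .no) (.de 34) .no .no) .no) .no .no (.br (.br .no (.de 34) .no .no) .no (.sw 0 1 [25]) .no)) .no (.br (.br .no .no (.br (.br .no (.br (.br .no (.br .no .no (.br .no (.br .no .no .no (.de 45)) .no (.de 44)) .no) .no .no) (.br (.br .no (.br .no .no .no (.br .no (.de 45) .no .no)) (.sw 1 3 [30]) .no) .no .no .no) .no .no) .no .no) (.de 34) .no .no) .no) .no .no .no)) .no)) .no)) .no .no) .no) .no .no (.sw 0 2 [16])) .no .no) .no (.br (.br .no .no .no (.br (.br .no (.br .no .no .no (.de 27)) .no .no) .no (.sw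 0 1 [17]) .no)) (.sw 0 3 [15]) .no .no) .no) .no .no .no) .no)) .no .no) .no))

theorem P6_2 : R.S 10 453764 :=
  R.piece L hL (.br .no .no .no (.br .no (.br (.br .no (.sy 9 114 5) .no .no) .no .no .no) (.br (.br .no (.br (.br .no .no .no (.br (.br .no (.br .no .no .no (.br .no .no (.de 20) .no)) .no .no) .no (.br (.br .no (.br .no .no (.de 20) (.br .no .no (.br .no (.br (.br .no (.br .no .no (.br (.br .no (.br .no .no .no (.br .no .no (.br .no .no .no (.br (.br .no (.br .no .no (.br (.de 34) .no .no .no) (.br (.de 34) .no (.br (.br (.br .no (.br .no .no (.br (.br .no (.br .no .no .no (.de 46)) .no .no) .no .no .no) (.br (.br .no (.br .no .no .no (.de 46)) .no .no) .no (.de 44) .no)) (.br .no .no .no (.de 43)) .no) (.br .no .no (.br .no .no .no (.de 43)) .no) .no .no) .no .no .no) .no)) .no (.br .no .no (.br (.de 34) .no .no .no) .no)) .no .no .no)) (.br .no .no (.br (.br .no (.br .no .no (.br (.sy 26 114 7) .no .no .no) (.br (.sy 26 114 7) .no (.br (.br (.br .no (.br .no .no (.br (.br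 .no (.br .no .no .no (.de 46)) .no .no) .no .no .no) (.br (.br .no (.br .no .no .no (.de 46)) .no .no) .no (.de 44) .no)) .no (.br .no .no (.de 43) .no)) (.br .no .no .no (.de 42)) .no .no) .no .no .no) .no)) .no (.br .no .no (.br (.sy 26 114 7) .no .no .no) .no)) .no .no (.br .no (.br .no .no (.br (.sy 26 114 7) .no .no .no) (.br (.sy 26 114 7) .no (.sy 28 27 5) .no)) .no .no)) .no))) .no .no) .no .no .no) (.br (.sw 1 2 [11,18]) .no (.br (.br .no .no .no (.br .no .no (.br .no .no .no (.br (.br .no (.br .no .no .no (.br .no (.br (.br (.br .no (.br .no .no (.br (.br .no .no (.br .no .no .no (.br .no (.de 48) .no .no)) .no) .no .no .no) (.br (.sw 1 2 [11,18,25,31]) .no (.de 44) .no)) (.br .no .no .no (.de 43)) .no) (.br .no .no (.br .no .no .no (.de 43)) .no) .no .no) .no .no .no) (.br (.br (.br .no (.br .no .no (.br (.br .no (.br .no .no .no (.de 46)) .no .no) .no .no .no) (.br (.sw 1 2 [11,18,25,31]) .no (.de 44) .no)) (.br .no .no .no (.de 43)) .no) (.br .no .no (.br .no .no .no (.de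 43)) .no) .no .no) .no .no .no) .no)) .no .no) .no (.br (.br .no (.br .no .no (.br (.sy 33 141 5) .no .no .no) .no) .no (.sw 1 2 [11,18,25])) (.br .no .no .no (.br .no (.br (.br (.br .no (.br (.br .no .no (.br (.br .no .no (.sy 37 216 3) (.br .no (.de 48) .no .no)) .no .no .no) .no) .no .no (.sw 0 2 [30])) .no .no) (.br (.br .no .no .no (.br (.br .no .no (.br .no .no .no (.de 41)) .no) .no (.de 44) .no)) .no .no .no) .no .no) .no .no .no) (.br (.br (.br .no (.br (.br .no .no (.br (.br .no (.sy 35 228 5) .no (.sw 1 2 [33])) (.br .no .no .no (.de 46)) .no .no) .no) .no .no (.sw 0 2 [30])) .no .no) (.br (.br .no .no .no (.br (.br .no (.br .no .no .no (.de 41)) .no .no) .no (.de 44) .no)) .no .no .no) .no .no) .no .no .no) .no)) .no .no) .no)) (.br .no .no (.br (.br .no (.br .no .no .no (.br .no (.br (.br (.br .no (.br .no .no (.br (.br .no .no (.br .no .no .no (.br .no (.de 48) (.sy 37 141 5) .no)) .no) .no .no .no) (.br (.sw 1 2 [11,18,25,31]) .no (.de 44) .no)) .no (.br .no .no (.de 43)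 .no)) (.br .no .no .no (.de 42)) .no .no) .no (.br (.br .no (.br .no .no (.br (.br .no .no (.br (.sy 37 201 3) .no .no (.br .no (.de 48) .no .no)) .no) .no .no .no) (.br (.sw 1 2 [11,18,25,31]) .no (.de 44) .no)) .no (.br .no .no (.de 43) .no)) (.br .no .no .no (.de 42)) .no .no) .no) (.br (.br (.br .no (.br .no .no (.br (.br .no (.br .no .no .no (.de 46)) .no .no) .no .no .no) (.br (.sw 1 2 [11,18,25,31]) .no (.de 44) .no)) .no (.br .no .no (.de 43) .no)) (.br .no .no .no (.de 42)) .no .no) .no .no .no) .no)) .no .no) .no .no .no) .no))) (.br .no .no .no (.sy 26 114 5)) .no .no) .no)) .no (.br .no .no (.br (.br .no (.br .no .no .no (.br .no .no (.br .no (.br (.br .no (.br .no .no (.br (.de 34) .no .no .no) (.br (.de 34) .no (.br (.br (.br .no .no (.sw 1 3 [23,29]) (.br .no .no (.de 43) .no)) .no .no (.br .no .no (.br .no .no .no (.de 43)) .no)) .no .no .no) .no)) .no (.sw 1 2 [11,18,24])) .no .no .no) .no .no) (.br .no (.br (.br .no (.br .no .no (.br (.br .no .no (.br (.br .no .no (.br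 .no .no .no (.de 43)) (.br .no .no (.de 43) .no)) .no (.br .no .no .no (.br .no .no (.de 43) .no)) .no) .no) .no .no .no) (.br (.br .no .no (.br (.br .no .no (.br .no .no .no (.de 43)) (.br .no .no (.de 43) .no)) .no (.br .no .no .no (.br .no .no (.de 43) .no)) .no) .no) .no (.br (.br (.br .no .no (.br .no .no .no (.de 43)) (.br .no .no (.de 43) .no)) .no (.br .no .no .no (.br .no .no (.de 43) .no)) .no) .no .no .no) .no)) .no (.sw 1 2 [11,18,24])) .no .no .no) (.br (.sw 1 3 [23]) (.br .no .no .no (.br .no .no (.br (.br .no .no (.br (.br .no .no .no (.br (.sw 1 2 [11,18,24,29,30]) .no (.de 43) .no)) (.br (.br .no .no (.br (.sw 1 3 [23,30,31]) (.br .no .no .no (.de 45)) .no .no) .no) .no .no (.de 42)) .no .no) .no) .no .no .no) .no)) .no .no) .no))) .no .no) .no .no .no) .no)) .no .no .no) (.br c6_2_0 (.br .no .no .no (.br .no .no (.br (.br .no (.br .no .no .no (.br (.br .no .no (.br (.br .no (.br .no .no (.br (.br .no (.sy 33 228 5) .no .no) .no .no .no) (.br (.br .no (.sy 33 228 5) .no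 .no) .no (.br .no (.br .no (.br .no .no .no (.de 42)) .no (.br .no (.de 42) .no .no)) .no .no) .no)) .no (.sw 1 2 [11,18,24])) (.br .no .no .no (.br .no .no (.br (.br .no (.br .no (.br (.br .no .no (.br (.br .no (.br .no .no (.br .no .no .no (.br .no .no .no (.de 43))) (.de 46)) .no (.br .no .no (.br .no .no .no (.br .no .no .no (.de 43))) .no)) (.br .no .no .no (.de 45)) .no .no) .no) .no .no (.de 42)) .no (.br (.br .no .no (.br (.br .no (.br .no .no (.de 41) (.de 46)) .no (.br .no .no (.de 41) .no)) (.br .no .no .no (.de 45)) .no .no) .no) .no .no .no)) .no .no) .no .no .no) .no)) .no .no) .no) .no .no (.br (.br .no (.br .no .no .no (.br .no .no (.br (.br .no (.br .no (.br .no .no (.br (.br .no (.br .no .no .no (.de 45)) .no .no) .no .no .no) (.de 42)) (.br .no .no .no (.br (.sw 1 2 [11,18,24,30]) .no (.de 43) .no)) .no) .no .no) .no .no .no) .no)) .no .no) .no (.sw 0 1 [22]) .no))) .no .no) .no .no .no) .no)) .no .no) .no) .no)) .no (.sw 1 2 [11])) (.br .no .no .no (.br .no .no (.de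 20) .no)) .no .no) .no)) c6_2_2 .no .no) .no .no) (.de 13) .no .no) .no)) 10 453764 1048576 (by norm_num) (by norm_num) (by norm_num) (by decide +kernel)

def c6_3_0 : Cert := (.br .no .no (.br .no .no .no (.br .no (.br (.br .no .no (.br (.br .no (.br (.br .no .no (.br .no .no .no (.br .no (.br .no .no .no (.br .no .no (.br .no .no .no (.br .no (.br (.br .no .no (.sy 30 39 7) .no) .no .no .no) .no (.br (.br .no .no (.sy 30 39 7) .no) (.de 42) .no .no))) .no)) .no .no)) .no) (.br (.br .no .no (.br .no (.br .no .no .no (.br .no .no (.br (.br .no .no (.br .no (.br (.br .no .no (.br (.br .no (.br .no .no .no (.br .no .no .no (.br .no .no (.br .no .no .no (.br .no (.br .no .no .no (.br .no .no (.sy 42 27 5) .no)) .no .no)) .no))) .no (.de 41)) (.br .no .no .no (.de 41)) .no .no) .no) .no .no (.br (.br .no (.br .no .no .no (.de 41)) .no .no) .no (.de 44) .no)) .no (.br (.br .no .no (.br (.br .no (.br .no .no .no (.br .no (.br .no .no (.br .no .no .no (.br .no (.br .no .no .no (.sw 1 2 [3,10,11,18,23,25,30,31,38,45]))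 .no .no)) .no) .no .no)) .no (.de 41)) (.br .no .no .no (.de 41)) .no .no) .no) .no .no .no)) (.br .no (.de 42) .no .no)) .no .no (.br .no .no (.br .no (.br (.br .no .no (.br (.br .no (.br (.sy 37 216 5) .no .no .no) .no .no) (.br (.de 41) .no .no .no) .no .no) .no) .no .no (.br (.br .no (.br (.de 41) .no .no .no) .no .no) .no (.de 44) .no)) .no (.br (.br .no .no (.br (.br .no (.br (.sy 37 216 5) .no .no .no) .no .no) (.br (.de 41) .no .no .no) .no .no) .no) .no .no .no)) (.br .no (.de 42) .no .no))) .no)) .no (.br .no (.br .no .no (.br (.br .no .no (.br .no (.br (.br .no .no (.br (.sw 1 3 [31,32]) .no .no (.br .no (.de 46) .no .no)) .no) .no .no .no) .no (.br (.br .no .no (.br (.sw 1 3 [31,32]) .no .no (.br .no (.de 46) .no .no)) .no) (.br (.br .no .no .no (.br .no (.de 46) .no .no)) .no (.br (.br .no (.br .no .no .no (.br .no (.br .no .no (.br .no .no .no (.sw 0 1 [37])) .no) .no .no)) .no (.de 41)) .no .no (.br .no (.de 46) .no .no)) .no) .no .no)) (.br .no (.de 42) .no .no)) .no .no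 (.br .no .no (.br .no (.br (.br .no .no (.br (.sw 1 3 [31,32]) .no .no (.br (.de 41) (.de 46) .no .no)) .no) .no .no .no) .no (.br (.br .no .no (.br (.sw 1 3 [31,32]) .no .no (.br (.de 41) (.de 46) .no .no)) .no) (.br (.br .no .no .no (.br (.de 41) (.de 46) .no .no)) .no (.br (.br .no (.br (.br .no (.de 48) .no .no) .no .no .no) .no .no) .no .no (.br (.de 41) (.de 46) .no .no)) .no) .no .no)) (.br .no (.de 42) .no .no))) (.br (.br .no .no (.br .no (.br (.br .no .no (.br (.br .no (.sw 2 3 [33]) (.sy 37 216 3) .no) .no .no .no) .no) .no .no .no) .no (.br (.br .no .no (.br (.br .no (.sw 2 3 [33]) (.sy 37 216 3) .no) .no .no .no) .no) (.br (.br .no .no (.br .no (.br .no .no .no (.br .no (.br .no .no (.br .no .no .no (.br .no (.br .no .no .no (.br .no .no (.br (.sw 1 3 [5]) .no .no .no) .no)) .no .no)) .no) .no .no)) .no .no) .no) .no (.br (.br .no (.sw 2 3 [33]) (.br .no .no .no (.sy 40 78 3)) .no) .no .no .no) .no) .no .no)) (.br .no (.de 42) .no .no)) .no .no .no)) .no .no)) (.br .no (.br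 .no .no .no (.br .no .no (.br (.br .no .no (.br .no (.br (.sw 2 3 [30]) .no (.br (.br .no (.br .no .no .no (.de 41)) .no .no) .no .no .no) .no) .no .no) (.br .no (.de 42) (.br (.br .no .no (.br (.sy 36 201 3) (.br .no .no .no (.de 46)) .no .no) .no) .no .no .no) .no)) .no .no (.sy 30 39 5)) .no)) .no .no)) .no (.br .no .no .no (.br .no (.br .no .no .no (.br .no .no (.br (.br (.br .no (.br (.br .no .no (.br (.br .no (.sy 35 228 5) .no (.br .no .no (.br .no .no .no (.br .no .no (.br .no .no .no (.br .no (.de 46) .no .no)) .no)) .no)) (.br .no .no .no (.de 46)) .no .no) .no) .no (.br (.br .no (.br .no .no .no (.de 46)) .no .no) .no .no .no) .no) .no .no) .no .no (.br (.br .no .no (.br (.br .no (.br .no .no .no (.de 46)) .no .no) .no .no .no) .no) (.de 42) .no .no)) .no .no (.sy 30 39 5)) .no)) .no .no)) .no) .no .no) .no (.br (.br .no .no (.br .no .no .no (.br .no (.br .no .no .no (.br .no (.de 34) (.br .no (.br .no (.br (.br .no .no (.br (.br .no (.br (.br .no .no (.sw 1 3 [27,34]) (.br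 .no .no .no (.de 43))) .no .no (.de 46)) .no .no) .no .no .no) .no) .no .no .no) .no (.br (.br .no .no (.br (.br .no (.br (.br .no .no (.sw 1 3 [27,34]) .no) .no .no (.de 46)) .no .no) .no .no .no) .no) (.de 42) .no .no)) .no .no) .no)) .no .no)) .no) (.br (.br .no .no (.br .no (.br .no .no .no (.br .no (.br (.sy 33 225 3) .no .no .no) (.br (.sw 1 3 [27]) .no .no .no) .no)) .no (.br .no (.br .no .no (.br (.sw 1 3 [27]) .no .no .no) .no) .no .no)) (.br .no (.br .no .no .no (.br .no (.sy 30 54 3) (.br (.sw 1 3 [27]) .no .no .no) .no)) .no .no)) .no (.br .no .no .no (.br .no (.br .no .no .no (.br .no (.sy 30 54 3) (.br (.sw 1 3 [27]) .no .no .no) .no)) .no .no)) .no) .no .no)) (.br .no .no .no (.br (.br .no .no (.br .no .no .no (.br .no (.br (.br .no .no (.br .no (.br .no (.br (.br .no .no (.br .no .no .no (.de 44)) .no) .no .no .no) .no (.br (.br .no .no (.br .no .no .no (.de 44)) .no) (.de 42) .no .no)) .no .no) .no) .no .no (.br (.br .no (.br .no (.br (.br .no .no (.br (.br .no (.br .no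 .no (.br .no .no .no (.br .no .no .no (.de 43))) (.de 46)) (.sy 36 216 3) .no) .no .no .no) .no) .no .no .no) .no (.br (.br .no .no (.br (.br .no (.br .no .no (.de 41) (.de 46)) (.sy 36 216 3) .no) .no .no .no) .no) (.de 42) .no .no)) .no .no) .no (.sw 0 1 [26]) .no)) .no .no)) .no) (.br (.br .no .no (.br .no (.br (.br .no .no (.br (.sy 32 216 5) .no .no .no) .no) .no .no (.br (.de 34) .no (.sw 0 1 [26]) .no)) .no (.br (.br .no .no (.br (.sy 32 216 5) .no .no .no) .no) .no .no .no)) (.br .no (.br (.br .no .no (.br (.br .no .no (.br .no (.br (.sw 2 3 [30]) .no (.br .no .no .no (.de 44)) .no) .no .no) (.br .no (.de 42) (.br (.br .no .no (.br .no (.sy 32 216 7) .no (.br .no (.de 46) .no .no)) (.br .no (.de 45) .no .no)) .no .no .no) .no)) .no .no .no) .no) .no .no (.br (.de 34) .no (.sw 0 1 [26]) .no)) .no .no)) .no (.br .no .no .no (.br .no (.br (.br .no .no (.br (.br (.br .no (.br (.br .no .no (.br .no (.br .no .no .no (.de 46)) .no (.br .no (.de 46) .no .no)) (.br .no (.de 45) .no .no))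 .no (.br .no .no .no (.de 44)) .no) .no .no) .no .no (.br (.br .no .no (.br .no .no .no (.de 44)) .no) (.de 42) .no .no)) .no .no .no) .no) .no .no (.br (.de 34) .no (.sw 0 1 [26]) .no)) .no .no)) .no) .no .no)) .no .no) .no) .no (.br (.br .no (.br .no .no .no (.br (.br .no .no (.br (.br .no (.br .no .no (.br (.br .no (.sy 33 228 5) .no .no) .no .no .no) (.br (.br .no (.sy 33 228 5) .no .no) .no (.br .no (.br .no (.br .no .no .no (.de 42)) .no (.br .no (.de 42) .no .no)) .no .no) .no)) .no (.br .no .no (.br (.br .no (.br .no (.br .no .no .no (.de 42)) .no (.br .no (.de 42) .no .no)) .no .no) .no .no .no) .no)) .no .no (.br .no (.br .no .no (.br (.br .no (.br .no (.br (.br .no .no (.br (.br .no (.br .no .no (.br .no .no .no (.br .no .no .no (.de 43))) (.de 46)) .no (.br .no .no (.br .no .no .no (.br .no .no .no (.de 43))) .no)) .no .no (.de 44)) .no) .no .no .no) .no (.br (.br .no .no (.br (.br .no (.br .no .no (.de 41) (.de 46)) .no (.br .no .no (.de 41) .no)) .no .no (.de 44)) .no) (.de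 42) .no .no)) .no .no) .no .no .no) (.sw 0 2 [24,25])) .no .no)) .no) (.br (.br .no .no .no (.br .no (.br .no .no (.br (.de 34) .no .no .no) (.sw 0 2 [24,25])) .no .no)) .no (.br (.br .no (.br .no .no (.br (.de 34) .no .no .no) (.br (.de 34) .no (.br (.br (.br .no (.br .no .no (.br (.br .no (.br .no .no .no (.de 46)) .no .no) .no .no .no) (.br (.br .no (.br .no .no .no (.de 46)) .no .no) .no (.de 44) .no)) .no (.br .no .no (.de 43) .no)) .no .no (.br .no (.de 42) .no .no)) .no .no .no) .no)) .no (.br .no .no (.br (.de 34) .no .no .no) .no)) .no .no (.br .no (.br .no .no (.br (.de 34) .no .no .no) (.sw 0 2 [24,25])) .no .no)) .no) .no .no)) .no .no) .no .no .no) .no) (.br (.br .no .no (.br (.sy 23 201 3) (.br .no .no .no (.sy 27 30 3)) .no .no) .no) .no .no .no) .no)) (.br .no .no (.br .no (.br (.br .no .no (.br (.br .no (.br (.br .no .no .no (.br .no .no (.br .no (.br .no .no .no (.br .no .no (.de 34) .no)) .no (.br .no (.br .no .no (.de 34) (.br .no .no (.sy 29 27 5) .no)) .no .no))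 .no)) (.br (.br .no .no (.br .no (.br .no .no .no (.br .no .no (.br (.sw 2 3 [21,22]) .no .no .no) .no)) .no (.br .no (.br .no .no (.br (.sw 2 3 [21,22]) .no .no .no) (.br (.sw 2 3 [21,22]) .no (.br .no .no (.br .no (.br (.br .no .no (.br (.br .no (.br (.sw 2 3 [21,22,33,34]) .no .no (.sw 0 2 [34])) .no .no) .no .no .no) .no) .no .no .no) .no (.br (.br .no .no (.br (.br .no (.br (.sw 2 3 [21,22,33,34]) .no .no (.sw 0 2 [34])) .no .no) .no .no .no) .no) (.br (.br .no .no (.br (.br .no .no .no (.br .no (.br .no .no (.br .no .no .no (.br .no (.br .no .no .no (.sw 1 2 [3,10,11,18,25,32,39,45])) .no .no)) .no) .no .no)) (.br (.br .no (.de 48) .no .no) .no .no (.sw 0 2 [34])) .no .no) .no) .no (.br (.br .no (.br (.sw 2 3 [21,22,33,34]) .no .no (.sw 0 2 [34])) .no .no) .no .no .no) .no) .no .no)) (.br .no (.de 42) .no .no)) .no)) .no .no)) (.br .no (.br .no .no .no (.br .no .no (.br (.sw 2 3 [21,22]) .no .no .no) .no)) .no .no)) .no .no (.br .no .no (.br .no (.br .no .no .no (.br .no .no (.br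 (.br (.br .no (.br (.sw 2 3 [21,22,29,30]) .no .no (.br (.br .no (.br .no .no .no (.de 46)) .no .no) .no (.de 44) .no)) .no .no) .no (.br (.br .no .no .no (.br (.br .no (.br .no .no .no (.de 41)) .no .no) .no (.de 44) .no)) (.sw 0 3 [29]) .no .no) .no) .no .no .no) .no)) .no (.br .no (.br .no .no (.br (.br (.br .no (.br (.br .no .no (.br (.sw 1 3 [31,32]) .no .no (.br .no (.de 46) .no .no)) .no) .no .no .no) .no .no) .no (.br (.br .no (.br (.br .no .no .no (.br .no (.de 46) .no .no)) .no (.br (.br .no (.br .no .no .no (.br .no (.br .no .no (.sw 0 3 [29,36]) (.de 44)) .no (.br .no .no (.br .no .no .no (.br .no (.br .no .no .no (.br .no .no (.sy 42 27 5) .no)) .no .no)) .no))) .no (.de 41)) .no .no (.br .no (.de 46) .no .no)) .no) .no .no) (.sw 0 3 [29]) .no .no) .no) .no .no .no) (.br (.br (.br .no (.sy 29 27 7) .no .no) .no (.br (.br .no (.br (.br .no .no (.br .no (.br .no .no .no (.br .no (.br .no .no (.sw 0 3 [29,36]) (.br .no .no (.br .no (.sw 2 3 [43,44]) .no (.de 46)) .no)) .no (.br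 .no .no (.br .no .no .no (.br .no (.br .no .no .no (.br .no .no (.sy 42 27 5) .no)) .no .no)) .no))) .no .no) .no) .no (.sy 29 27 9) .no) .no .no) (.sw 0 3 [29]) .no .no) .no) .no (.sy 29 27 5) .no)) .no .no)) .no)) .no .no) .no .no) (.de 27) .no .no) .no) .no (.br (.br .no (.de 27) .no .no) .no .no .no) .no) .no .no) .no))

def c6_3_1 : Cert := (.br (.br .no (.br .no .no (.de 20) (.br .no .no (.br .no .no (.br (.sw 1 3 [9,10,15]) .no .no (.br .no (.br .no .no (.br (.br .no (.br .no .no .no (.br (.br .no .no (.br (.sw 1 3 [9,10,15,22,23]) .no .no (.br .no (.br .no .no (.br (.br .no (.br .no (.br (.br .no .no (.br (.sw 1 3 [9,10,15,22,23,30,31]) .no .no (.de 44)) .no) .no .no .no) .no (.br (.br .no .no (.br (.sw 1 3 [9,10,15,22,23,30,31]) .no .no (.de 44)) .no) (.de 42) .no .no)) .no .no) .no .no .no) (.br (.br .no (.br .no (.br (.br .no .no (.br (.br .no (.sw 2 3 [32]) (.sy 36 216 3) .no) .no .no .no) .no) .no .no .no) .no (.br (.br .no .no (.br (.br .no (.sw 2 3 [32]) (.sy 36 216 3)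 .no) .no .no .no) .no) (.de 42) .no .no)) .no .no) .no (.br .no (.br .no (.br (.br .no .no (.br (.br .no (.br (.br .no .no (.sw 0 3 [22,28]) (.br .no .no .no (.de 43))) .no .no (.de 46)) .no .no) .no .no .no) .no) .no .no .no) .no (.br (.br .no .no (.br (.br .no (.br (.br .no .no (.sy 36 216 5) .no) .no .no (.de 46)) .no .no) .no .no .no) .no) (.de 42) .no .no)) .no .no) .no)) .no .no)) .no) (.br (.br .no .no .no (.br .no (.br .no .no (.br (.de 34) .no .no .no) (.br (.de 34) .no (.br (.br .no .no (.br .no (.br (.br .no .no (.br (.br .no (.br .no .no .no (.br .no .no .no (.br .no .no (.br .no .no .no (.br .no (.br .no .no .no (.br .no .no (.sy 42 27 5) .no)) .no .no)) .no))) .no (.de 41)) (.br .no .no .no (.de 41)) .no .no) .no) .no (.sw 0 3 [22,29,30]) .no) .no .no) (.br .no (.de 42) (.br (.br .no .no (.br (.sy 36 201 3) (.br .no .no .no (.de 46)) .no .no) .no) .no .no .no) .no)) .no .no .no) .no)) .no .no)) .no (.sw 0 3 [22]) .no) .no .no)) .no .no) .no .no .no) (.br (.br .no (.br .no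 .no .no (.br (.br .no .no (.br (.br .no (.sw 2 3 [24]) (.sy 28 216 3) .no) .no .no .no) .no) (.br (.br .no .no (.br .no (.br .no .no (.br (.de 34) .no .no .no) (.br (.de 34) .no (.br (.br .no .no (.br .no (.sw 0 3 [22,29]) .no (.br (.br .no .no (.br (.br .no (.br .no .no .no (.sy 27 27 16)) .no (.de 41)) (.br .no .no .no (.de 41)) .no .no) .no) .no .no .no)) (.br .no (.de 42) .no .no)) .no .no .no) .no)) .no .no) .no) .no (.sw 0 3 [22]) .no) .no .no)) .no .no) .no (.br (.br .no (.br (.br .no .no (.br (.br .no (.br .no .no .no (.br .no .no (.br .no .no .no (.br .no (.br .no .no .no (.de 42)) .no (.br .no (.de 42) .no .no))) .no)) .no .no) .no .no .no) .no) (.br (.br .no .no (.br (.br .no (.br .no .no (.br (.sy 34 228 5) .no .no (.br .no .no (.br .no (.sw 0 3 [22,29]) .no (.br .no (.br .no .no (.br (.br .no (.br (.br .no (.de 48) .no .no) .no .no .no) .no .no) .no .no (.br (.de 41) (.de 46) .no .no)) (.br (.br .no (.br (.br .no (.de 48) .no .no) .no .no .no) .no .no) .no .no .no)) .no .no))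 (.br .no (.de 42) .no .no))) (.br (.sy 34 228 5) .no .no .no)) .no (.br .no .no (.br (.br .no .no (.br .no (.sw 0 3 [22,29]) .no (.br .no (.br .no .no (.br (.sw 1 3 [32]) (.br .no .no .no (.de 41)) .no .no) .no) .no .no)) (.br .no (.de 42) .no .no)) .no .no (.br .no .no (.br .no (.sw 0 3 [22,29]) .no (.br .no (.br .no .no (.br (.sw 1 3 [32]) (.br (.de 41) .no .no .no) .no .no) .no) .no .no)) (.br .no (.de 42) .no .no))) .no)) (.br .no .no .no (.br .no .no (.br (.br .no .no (.br .no (.sw 0 3 [22,29]) .no (.br (.br .no .no (.br (.br .no (.br .no .no .no (.br .no (.br .no .no (.br .no .no .no (.sw 0 1 [31,37])) .no) .no .no)) .no (.de 41)) (.br .no .no .no (.de 41)) .no .no) .no) .no .no .no)) (.br .no (.de 42) .no .no)) .no .no (.br .no .no (.br .no (.sw 0 3 [22,29]) .no (.br (.br .no .no (.br (.br .no (.br (.sy 37 216 5) .no .no .no) .no .no) (.br (.de 41) .no .no .no) .no .no) .no) .no .no .no)) (.br .no (.de 42) .no .no))) .no)) .no .no) .no) .no (.sw 0 3 [22]) .no) .no .no) .no (.sy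 27 27 5)) (.br .no .no .no (.sy 27 27 5)) .no .no) .no)) .no .no)) (.br (.br .no (.br .no .no (.br (.br .no (.de 27) .no .no) .no .no .no) (.br (.br .no (.de 27) .no .no) .no (.br (.br .no (.br .no (.br .no .no (.br (.br .no (.br .no .no .no (.br .no .no (.br (.sw 2 3 [21]) .no .no .no) .no)) .no .no) .no .no .no) (.br (.br .no (.br .no .no .no (.br .no .no (.br (.sw 2 3 [21]) .no .no .no) .no)) .no .no) .no (.br (.br .no (.br .no .no (.br (.sw 2 3 [21]) .no .no .no) (.br (.sw 2 3 [21]) .no (.br (.br .no (.br .no .no .no (.br .no .no (.de 44) .no)) .no .no) .no (.br (.br .no (.br .no .no (.br (.br .no (.br (.sw 2 3 [21,33,34]) .no .no (.sw 0 2 [34])) .no .no) .no .no .no) (.br (.br .no (.br (.sw 2 3 [21,33,34]) .no .no (.sw 0 2 [34])) .no .no) .no (.br (.br .no .no .no (.br .no (.br .no .no (.de 44) (.br .no .no (.br .no (.br .no .no .no (.br .no (.sw 0 2 [34,39,40]) (.br (.sw 1 2 [47]) .no .no .no) .no)) .no .no) .no)) .no (.br .no .no (.de 44) .no))) (.br (.br .no (.de 48) .no (.br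 .no .no (.de 44) .no)) .no .no (.sw 0 2 [34])) .no .no) .no)) .no (.br .no .no (.de 44) .no)) (.br .no .no .no (.br .no .no (.de 44) .no)) .no .no) .no) .no)) .no (.br .no .no (.br (.sw 2 3 [21]) .no .no .no) .no)) (.br .no .no .no (.br .no .no (.br (.sw 2 3 [21]) .no .no .no) .no)) .no .no) .no)) (.br .no .no .no (.br (.br .no (.br .no .no .no (.br .no .no (.br (.sw 1 3 [9,10,15,21,27]) .no .no .no) .no)) .no .no) .no (.br (.br .no (.br .no .no (.br (.sw 1 3 [9,10,15,21,27]) .no .no .no) (.br (.br (.br .no (.br .no .no .no (.br .no .no (.de 44) .no)) .no .no) (.br (.br .no (.br .no .no (.br (.br .no (.sw 2 3 [33]) (.sw 1 3 [9,10,15,21,27,32,33]) .no) .no .no .no) (.br (.br .no (.sw 2 3 [33]) (.br .no .no .no (.br .no .no .no (.br .no .no (.de 44) .no))) .no) .no (.br .no (.br .no .no .no (.sy 40 114 5)) .no .no) .no)) .no (.br .no .no (.de 44) .no)) .no .no .no) .no .no) .no .no .no)) .no (.br .no .no (.br (.sw 1 3 [9,10,15,21,27]) .no .no .no) .no)) (.br .no .no .no (.br .no .no (.br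 (.sw 1 3 [9,10,15,21,27]) .no .no .no) .no)) .no .no) .no)) .no) .no .no) (.de 27) .no .no) .no)) .no (.br .no .no (.br (.br .no (.de 27) .no .no) .no .no .no) .no)) .no .no .no)) .no)) .no (.br .no .no (.de 20) .no)) .no .no (.br .no (.br .no .no (.de 20) (.br .no .no (.br .no .no (.br (.br .no (.br (.br .no .no (.br (.br .no (.sy 22 228 5) .no (.br .no (.br .no .no (.sy 22 228 7) (.br .no .no (.br .no (.sw 0 3 [17,24]) .no (.br .no (.br .no .no (.br (.sw 1 3 [27]) .no .no .no) .no) .no .no)) .no)) .no (.br .no .no (.sy 22 228 7) .no))) (.br .no .no .no (.br .no (.br .no .no (.br .no .no .no (.br .no (.br (.br .no .no (.br (.br (.br .no (.br (.br .no .no (.br .no (.br .no .no .no (.de 46)) .no (.br .no (.de 46) .no .no)) (.br .no (.de 45) .no .no)) .no (.sw 0 3 [17,24,30]) .no) .no .no) .no .no (.br (.br .no .no (.br .no .no .no (.de 44)) .no) (.de 42) .no .no)) .no .no .no) .no) .no .no (.br (.de 34) .no (.sw 0 1 [26]) .no)) .no .no)) (.br .no .no (.br .no (.sw 0 3 [17,24]) .no (.br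 (.br .no .no (.br (.br (.br .no (.br (.br .no (.sy 35 228 3) (.sw 1 3 [31]) .no) .no .no .no) .no .no) .no (.br (.br .no (.br .no .no (.br .no (.sw 0 3 [17,24,31,32]) .no (.sw 0 1 [26,32])) .no) .no .no) (.br (.br .no (.br .no .no .no (.de 45)) (.sw 1 3 [31]) .no) .no .no .no) .no .no) .no) .no .no .no) .no) .no .no .no)) .no)) .no (.br .no .no (.br .no .no .no (.br .no (.br (.br .no .no (.br (.br (.br .no (.br (.br .no .no (.br .no (.br .no .no .no (.de 46)) .no (.br .no (.de 46) .no .no)) (.br .no (.de 45) .no .no)) .no (.sw 0 3 [17,24,30]) .no) .no .no) (.br (.br .no .no (.br .no .no .no (.de 44)) .no) .no .no .no) .no .no) (.br (.br .no (.br (.br .no .no (.br .no (.br (.br .no .no (.sy 40 216 5) .no) .no .no (.de 46)) .no (.br (.br .no .no (.sy 40 216 5) .no) .no .no .no)) (.br .no (.de 45) .no .no)) .no (.sw 0 3 [17,24,30]) .no) .no .no) (.br (.br .no .no (.br .no .no .no (.de 44)) .no) .no .no .no) .no .no) .no .no) .no) .no .no (.br (.br .no (.br (.br .no (.br (.br .no .no (.br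 .no (.br .no .no (.de 41) (.de 46)) .no .no) .no) .no (.sw 0 3 [17,24,30]) .no) .no .no) (.sy 28 27 7) .no .no) .no .no) .no (.sw 0 1 [26]) .no)) .no .no)) .no))) .no .no) .no) .no (.sw 0 3 [17]) .no) .no .no) .no .no (.br (.br .no .no (.br (.br .no (.br .no .no .no (.br (.br .no (.br .no .no .no (.br .no (.br .no .no (.br (.br .no (.sy 33 228 3) .no .no) .no .no .no) (.sw 0 2 [16,23,24,25])) .no .no)) (.br .no (.br .no .no .no (.br .no .no (.br (.br .no (.br .no (.br (.br .no .no (.br (.br .no (.br .no .no (.br .no .no .no (.br .no .no .no (.de 43))) (.de 46)) .no (.br .no .no (.br .no .no .no (.br .no .no .no (.de 43))) .no)) (.br .no .no .no (.de 45)) .no .no) .no) .no .no (.de 42)) .no (.br (.br .no .no (.br (.br .no (.br .no .no (.de 41) (.de 46)) .no (.br .no .no (.de 41) .no)) (.br .no .no .no (.de 45)) .no .no) .no) .no .no .no)) .no .no) .no .no .no) .no)) .no (.br .no (.br .no .no (.br (.br .no (.br .no (.br (.br .no .no (.br (.sw 1 3 [30,31]) .no .no (.de 44)) .no) .no .no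 .no) .no (.br (.sw 1 2 [29]) (.de 42) .no .no)) .no .no) .no .no .no) (.br (.br .no (.br .no (.br (.br .no .no (.br (.br .no (.sw 2 3 [32]) (.sy 36 216 3) .no) .no .no .no) .no) .no .no .no) .no (.br (.sw 1 2 [29]) (.de 42) .no .no)) .no .no) .no (.br .no (.br .no (.br (.br .no .no (.br (.br .no (.br (.br .no .no (.sy 36 216 5) (.br .no .no .no (.de 43))) .no .no (.de 46)) .no .no) .no .no .no) .no) .no .no .no) .no (.br (.sw 1 2 [29]) (.de 42) .no .no)) .no .no) .no)) .no .no)) .no) (.br .no .no (.br .no (.sw 0 3 [17,22,23]) .no (.br .no (.br .no .no (.br (.de 34) .no .no .no) (.br (.de 34) .no (.br (.br (.br .no (.br (.br .no .no (.br (.br .no (.sy 35 228 5) .no (.br .no .no (.br .no .no .no (.br .no .no (.br .no .no .no (.br .no (.de 46) .no .no)) .no)) .no)) (.br .no .no .no (.de 46)) .no .no) .no) .no (.sw 0 3 [17,22,23,30]) .no) .no .no) .no .no (.br (.br .no .no (.br (.br .no (.br .no .no .no (.de 46)) .no .no) .no .no .no) .no) (.de 42) .no .no)) .no .no .no) .no)) .no .no)) .no)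 .no .no)) .no .no) .no .no .no) .no) (.sw 0 2 [16]) .no .no)) (.br (.br .no (.br (.br .no .no (.br (.br .no (.sy 22 228 5) .no .no) (.de 27) .no .no) .no) .no (.sw 0 3 [17]) .no) .no .no) .no .no .no)) .no)) .no .no))

def c6_3_2 : Cert := (.br (.br .no (.br (.br .no .no .no (.br .no (.br .no .no (.de 20) (.br .no .no c6_3_0 .no)) .no .no)) .no c6_3_1 .no) .no .no) (.br (.br .no .no (.br (.sw 1 3 [9,10]) .no .no (.br .no (.br .no .no (.br (.br .no .no (.br .no (.br (.br .no .no (.br (.sw 1 3 [9,10,17,18]) .no .no (.br .no (.br .no .no .no (.br (.br .no .no (.br .no (.sw 0 3 [17,23]) .no (.br (.br .no .no (.br (.br .no (.sy 31 216 5) .no .no) .no .no .no) .no) (.br (.br .no .no (.br .no (.br .no (.br (.br .no .no (.br .no .no .no (.de 44)) .no) .no .no .no) .no (.br (.br .no .no (.br .no .no .no (.de 44)) .no) (.de 42) .no .no)) .no .no) .no) .no (.sw 0 3 [25]) .no) .no .no)) (.br .no (.br (.br .no .no (.br (.br .no (.br .no (.br (.sw 2 3 [29]) .no (.br .no .no .no (.de 43)) .no) (.br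 (.br .no .no (.br .no (.sw 0 3 [25,31]) .no (.de 44)) (.br .no (.sy 31 216 7) .no .no)) .no .no .no) .no) .no .no) .no .no .no) .no) .no .no .no) .no .no)) .no .no (.br .no .no (.br .no (.sw 0 3 [17,23]) .no (.br (.br .no .no (.br (.br .no (.br (.br .no (.br .no .no (.br .no (.sw 0 3 [17,23,25,30,31]) .no (.de 44)) .no) .no .no) (.br (.br .no (.br .no .no .no (.br .no (.de 45) .no .no)) (.sw 1 3 [30]) .no) .no .no .no) .no .no) .no .no) .no .no .no) .no) (.br (.br .no .no (.br (.br (.br .no (.br (.br .no .no (.br .no (.sw 0 3 [25,32]) .no (.br .no (.de 46) .no .no)) (.br .no (.de 45) .no .no)) .no (.sw 0 3 [17,23,30]) .no) .no .no) (.br (.br .no .no (.br .no .no .no (.de 44)) .no) .no .no .no) .no .no) (.br (.br .no (.br (.br .no .no (.br .no (.sw 0 3 [25,32]) .no (.br (.br .no .no (.sy 40 216 5) .no) .no .no .no)) (.br .no (.de 45) .no .no)) .no (.sw 0 3 [17,23,30]) .no) .no .no) (.br (.br .no .no (.br .no .no .no (.de 44)) .no) .no .no .no) .no .no) .no .no) .no) .no (.sw 0 3 [25])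 .no) .no .no)) .no))) .no .no)) .no) .no .no .no) .no (.br (.br .no .no (.br (.sw 1 3 [9,10,17,18]) .no .no (.br .no (.br .no .no .no (.br (.br .no (.br .no .no .no (.br (.br .no .no (.sy 25 39 7) .no) (.br (.br .no .no (.br .no (.sy 34 177 5) .no .no) .no) .no (.sw 0 3 [25]) .no) .no .no)) (.sw 1 3 [22]) .no) (.br .no .no (.br .no (.br (.br .no .no (.sy 25 39 7) .no) .no .no .no) .no (.br (.br .no .no (.sy 25 39 7) .no) (.br (.br .no .no (.br (.br (.br .no (.br (.br .no .no (.br .no (.sw 0 3 [25,32]) .no (.sy 25 39 14)) (.br .no (.de 45) .no .no)) .no (.br .no .no .no (.de 44)) .no) .no .no) .no .no (.br (.br .no .no (.br .no .no .no (.de 44)) .no) (.de 42) .no .no)) .no .no .no) .no) .no (.sw 0 3 [25]) .no) .no .no)) .no) .no .no)) .no .no)) .no) (.br (.br .no .no .no (.br .no (.br .no .no .no (.sy 25 39 5)) .no .no)) .no (.sw 0 3 [17]) .no) .no .no)) (.br .no (.br (.br .no .no (.br (.sw 1 3 [9,10,17,18]) .no .no (.br .no (.br .no .no (.br (.br .no .no (.br .no (.sw 0 3 [17,23]) .no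 (.br (.br .no .no (.br (.sw 1 3 [9,10,17,18,25,26]) .no .no (.br .no (.br .no (.br (.br .no (.br .no .no .no (.br (.br .no .no (.br .no .no .no (.br .no .no .no (.br .no .no (.de 44) .no))) .no) (.de 45) .no .no)) (.sw 1 3 [30]) .no) .no .no .no) .no (.br (.br .no (.br .no .no .no (.br (.br .no .no (.de 41) .no) (.de 45) .no .no)) (.sw 1 3 [30]) .no) (.de 42) .no .no)) .no .no)) .no) (.br (.br .no .no .no (.br .no (.br .no (.br (.br .no .no (.br .no .no .no (.de 44)) .no) .no .no .no) .no (.br (.br .no .no (.br .no .no .no (.de 44)) .no) (.de 42) .no .no)) .no .no)) .no (.sw 0 3 [25]) .no) .no .no)) (.br .no (.br (.br .no .no (.br (.sw 1 3 [9,10,17,18,25,26]) .no .no (.br .no (.br .no (.br (.sw 2 3 [29]) .no (.br .no .no .no (.de 43)) .no) (.br (.br .no .no (.br .no (.sw 0 3 [25,31]) .no (.de 44)) (.br .no (.br (.br .no .no (.br .no .no .no (.br .no (.br .no .no (.de 44) .no) .no (.br .no .no (.de 44) .no))) .no) .no .no .no) .no .no)) .no .no .no) .no) .no .no)) .no) .no .no .no) .no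 .no)) .no (.br .no .no .no (.br .no (.br (.br .no .no (.br (.sw 1 3 [9,10,17,18,25,26]) .no .no (.br (.br (.br .no .no (.br .no .no .no (.de 43)) .no) (.br (.br .no .no (.br .no (.sw 0 3 [25,31]) .no (.de 44)) (.br .no (.br (.br .no (.br .no .no .no (.sy 38 177 5)) (.sw 1 3 [9,10,17,18,25,26,33]) .no) .no .no .no) .no .no)) .no (.sw 0 3 [17,23,29]) .no) .no .no) (.br (.br .no .no (.br .no .no .no (.de 43)) .no) (.br (.br .no .no (.br .no (.sw 0 3 [25,31]) .no (.de 44)) (.br .no (.br (.br .no .no (.br (.de 48) .no .no (.sw 0 1 [34])) .no) .no .no .no) .no .no)) .no (.sw 0 3 [17,23,29]) .no) .no .no) .no .no)) .no) .no .no .no) .no .no)) .no) .no) .no .no)) .no) .no .no .no) .no .no)) .no .no .no) (.br (.br .no .no (.br .no (.br (.br .no .no (.br (.br .no (.sw 2 3 [19]) (.sy 23 216 3) .no) .no .no .no) .no) .no .no .no) .no (.br (.br .no .no (.br (.br .no (.sw 2 3 [19]) (.sy 23 216 3) .no) .no .no .no) .no) (.br (.br .no .no (.br .no (.br .no .no .no (.br (.br .no .no (.br .no .no .no (.br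 .no (.br (.sw 2 3 [19,25]) .no .no (.br (.br .no (.br .no (.br (.br .no .no (.br (.br .no (.sw 2 3 [19,25,32]) (.sy 36 216 3) .no) .no .no .no) .no) .no .no .no) .no (.br (.br .no .no (.br (.br .no (.sw 2 3 [19,25,32]) (.sy 36 216 3) .no) .no .no .no) .no) (.de 42) .no .no)) .no .no) .no (.br .no (.br .no (.br (.br .no .no (.br (.br .no (.br (.br .no .no (.sy 36 216 5) (.br .no .no .no (.de 43))) .no .no (.de 46)) .no .no) .no .no .no) .no) .no .no .no) .no (.br (.br .no .no (.br (.br .no (.br (.br .no .no (.sy 36 216 5) .no) .no .no (.de 46)) .no .no) .no .no .no) .no) (.de 42) .no .no)) .no .no) .no)) .no .no)) .no) (.br (.br .no .no (.br .no (.sw 0 3 [17,24]) .no (.br (.br .no .no (.br (.sy 32 216 5) .no .no .no) .no) .no .no .no)) (.br .no (.br (.sw 2 3 [19,25]) .no .no (.br (.de 34) .no (.br (.br .no .no (.br .no (.br (.sw 2 3 [30]) .no (.br (.br .no (.br .no .no .no (.de 41)) .no .no) .no .no .no) .no) .no .no) (.br .no (.de 42) (.br (.br .no .no (.br (.sy 36 201 3) (.sw 0 3 [32])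 .no .no) .no) .no .no .no) .no)) .no .no .no) .no)) .no .no)) .no (.br .no .no .no (.br .no (.br (.sw 2 3 [19,25]) .no .no (.br (.de 34) .no (.br (.br (.br .no (.br (.br .no .no (.br (.br .no (.sy 35 228 5) .no (.br .no .no (.br .no .no .no (.br .no .no (.br .no .no .no (.br .no (.de 46) .no .no)) .no)) .no)) (.sw 0 3 [32]) .no .no) .no) .no (.sw 0 3 [17,24,30]) .no) .no .no) .no .no (.br (.br .no .no (.br (.br .no (.br .no .no .no (.de 46)) .no .no) .no .no .no) .no) (.de 42) .no .no)) .no .no .no) .no)) .no .no)) .no) .no .no)) .no .no) .no) .no (.sw 0 3 [17]) .no) .no .no)) (.br .no (.br (.br .no .no (.br (.br .no (.sw 2 3 [19]) (.de 27) .no) .no .no .no) .no) .no .no .no) .no .no)) .no (.br .no .no (.br .no (.br (.br .no .no (.br (.br .no (.br (.sy 23 216 5) .no .no (.sw 0 2 [20])) .no .no) .no .no .no) .no) .no .no .no) .no (.br (.br .no .no (.br (.br .no (.br (.sy 23 216 5) .no .no (.sw 0 2 [20])) .no .no) .no .no .no) .no) (.br (.br .no .no (.br (.br .no .no .no (.sw 0 1 [14,15]))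 (.br (.br (.br .no .no (.br .no .no .no (.br .no (.br (.br .no .no (.br .no (.br .no (.br (.br .no .no (.br .no .no .no (.de 44)) .no) .no .no .no) .no (.br (.br .no .no (.br .no .no .no (.de 44)) .no) (.de 42) .no .no)) .no (.br .no (.br (.br .no .no (.br .no .no .no (.de 44)) .no) .no .no .no) .no (.br (.br .no .no (.br .no .no .no (.de 44)) .no) (.de 42) .no .no))) (.br .no (.br .no (.br (.br .no .no (.br .no .no .no (.de 44)) .no) .no .no .no) .no (.br (.br .no .no (.br .no .no .no (.de 44)) .no) (.de 42) .no .no)) .no .no)) .no .no (.br .no .no (.br .no (.br .no (.br (.br .no .no (.br (.br .no (.br (.br .no .no (.sy 36 216 5) (.br .no .no .no (.de 43))) .no .no (.de 46)) .no .no) .no .no .no) .no) .no .no .no) .no (.br (.br .no .no (.br (.br .no (.br (.br .no .no (.sy 36 216 5) .no) .no .no (.de 46)) .no .no) .no .no .no) .no) (.de 42) .no .no)) .no (.sw 0 1 [14,15,26,27])) .no)) .no .no)) .no) (.br (.br .no .no (.br .no (.sw 0 3 [17,24]) .no (.br (.br .no .no (.br .no .no .no (.br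 .no .no (.br .no (.br (.br .no (.br .no .no .no (.de 45)) (.sw 1 3 [31]) .no) .no .no .no) .no (.br (.br .no (.br .no .no .no (.de 45)) (.sw 1 3 [31]) .no) (.br .no .no (.br .no (.sw 0 3 [17,24,31,32]) .no (.sw 0 1 [14,15,26,27,32])) .no) .no .no)) (.br .no (.de 42) .no .no))) (.de 34)) .no .no .no)) (.br .no (.br (.br .no .no (.br .no .no .no (.br .no .no (.br .no (.br (.sw 2 3 [30]) .no (.br .no .no .no (.de 44)) .no) .no .no) (.br .no (.de 42) (.br (.br .no .no (.br .no (.br (.br .no .no (.br .no (.br .no .no .no (.de 44)) .no .no) .no) .no .no .no) .no (.br (.br .no .no (.sy 41 78 5) .no) (.de 46) .no .no)) (.br .no (.de 45) .no .no)) .no .no .no) .no))) (.de 34)) .no .no (.br .no .no (.br .no .no .no (.sw 0 1 [14,15,26,27])) .no)) .no .no)) .no (.br .no .no .no (.br .no (.br (.br .no .no (.br .no .no .no (.br (.br .no (.br (.br .no .no (.br .no (.br (.br .no .no (.sy 40 216 5) .no) .no .no .no) .no (.br (.br .no .no (.sy 40 216 5) .no) (.de 46) .no .no)) (.br .no (.de 45) .no .no))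 .no (.sw 0 3 [17,24,30]) .no) .no .no) .no .no (.br (.br .no .no (.br .no .no .no (.de 44)) .no) (.de 42) .no .no))) (.de 34)) .no .no (.br .no .no (.br .no .no .no (.sw 0 1 [14,15,26,27])) .no)) .no .no)) .no) .no .no) .no .no (.sw 0 2 [20])) .no .no) .no) .no (.sw 0 3 [17]) .no) .no .no)) (.br .no (.br (.br .no .no (.br (.br .no (.br (.br (.br .no .no (.br .no (.sw 0 3 [17,23]) .no (.br .no (.br .no .no (.sy 23 216 9) (.br .no .no (.br .no (.sw 2 3 [21]) .no .no) .no)) .no .no)) (.br .no (.sy 23 216 7) .no .no)) .no (.br .no .no .no (.br .no (.sy 23 216 7) .no .no)) .no) .no .no .no) .no .no) .no .no .no) .no) .no .no .no) .no .no)) .no)) .no .no)) .no) .no .no .no) .no .no)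

theorem P6_3 : R.S 10 978052 :=
  R.piece L hL (.br .no (.br .no .no (.br (.br .no c6_3_2 .no .no) (.de 13) .no .no) .no) .no .no) 10 978052 1048576 (by norm_num) (by norm_num) (by norm_num) (by decide +kernel)

def c6_4_0 : Cert := (.br (.br .no .no (.br .no (.br (.br .no .no .no (.br (.br .no (.br .no .no .no (.br (.br .no .no (.br .no (.br .no .no (.br .no .no .no (.br (.br .no (.br .no (.br (.br .no .no .no (.br (.br .no (.br .no .no (.br .no .no .no (.br .no .no (.de 43) .no)) (.br .no .no (.br .no .no (.de 43) .no) .no)) (.br .no .no .no (.br .no .no (.br .no .no (.de 43) .no) .no)) .no) (.br .no .no (.br .no .no .no (.br .no .no (.br .no .no (.de 43) .no) .no)) .no) .no .no)) .no .no (.br (.br .no (.br .no .no (.br .no .no .no (.br .no .no (.br .no .no (.de 43) .no) .no)) .no) .no .no) .no .no .no)) .no (.br (.br .no .no .no (.br (.sy 35 57 3) (.br .no .no (.br .no .no .no (.br .no .no (.sy 39 78 3) .no)) .no) .no .no)) .no .no .no)) .no .no) .no (.sy 29 135 4) .no)) .no) .no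 .no) (.br .no (.br .no .no (.br .no .no .no (.br (.br .no (.br .no (.br (.sw 2 3 [29]) .no (.de 42) .no) (.br (.br .no .no .no (.br (.br .no (.br .no .no (.br .no .no .no (.br .no (.br .no .no (.de 44) .no) .no .no)) (.de 41)) (.br .no .no .no (.de 41)) .no) (.br .no .no (.br .no .no .no (.de 41)) .no) .no .no)) .no .no .no) .no) .no .no) .no (.br .no (.br .no (.br (.sw 2 3 [29]) .no (.de 42) .no) (.br (.br .no .no .no (.br (.br .no (.br (.sy 36 120 4) .no .no (.de 41)) .no .no) (.br (.br .no .no .no (.de 41)) .no .no .no) .no .no)) .no .no .no) .no) .no .no) .no)) .no) (.br .no (.br .no .no (.br (.br .no (.br .no (.br (.br .no .no .no (.br (.br .no (.br .no .no (.br .no .no .no (.br .no .no (.de 43) .no)) (.br .no .no (.br .no .no (.de 43) .no) .no)) .no (.sy 36 120 3)) .no .no .no)) .no .no .no) (.br (.br .no .no .no (.br (.br .no (.br .no .no (.br .no .no .no (.br .no (.br .no .no (.de 44) .no) .no .no)) (.de 41)) .no (.sy 36 120 3)) .no .no .no)) (.de 42) .no .no) .no) .no .no) .no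 .no .no) (.br (.br .no (.br .no (.br (.br .no .no .no (.br (.sw 1 2 [30,31]) .no (.de 44) .no)) .no .no .no) (.br (.br .no .no .no (.br (.sw 1 2 [30,31]) .no (.de 44) .no)) (.de 42) .no .no) .no) .no .no) .no (.br .no (.br .no (.br (.br .no .no .no (.br (.sw 1 2 [30,31]) .no (.de 44) .no)) .no .no .no) (.br (.br .no .no .no (.br (.sw 1 2 [30,31]) .no (.de 44) .no)) (.de 42) .no .no) .no) .no .no) .no)) .no .no) .no)) .no .no (.br .no .no (.br .no (.br .no .no (.br .no .no .no (.br (.br .no (.br (.br .no .no .no (.br (.br .no (.br .no .no (.br .no .no .no (.br .no .no (.br .no (.de 48) (.de 43) .no) .no)) .no) .no .no) .no .no .no)) (.br (.br .no .no .no (.br (.br .no (.br .no .no (.br (.de 48) .no .no .no) (.br (.de 47) .no (.sw 0 3 [28]) .no)) (.br .no .no .no (.br (.de 47) .no (.sw 0 3 [28]) .no)) .no) (.br .no .no (.br .no .no .no (.br (.de 47) .no (.sw 0 3 [28]) .no)) .no) .no .no)) .no .no (.br (.br .no (.br .no .no (.br .no .no .no (.br (.de 47) .no (.sw 0 3 [28]) .no)) .no) .no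 .no) .no .no .no)) .no .no) .no .no) .no (.sy 29 135 4) .no)) .no) .no .no) .no))) .no (.de 27)) .no .no .no)) .no .no .no) .no .no) (.br .no (.br (.br .no .no .no (.br (.br .no (.br .no .no (.br (.br .no .no (.br .no (.br .no .no (.br .no .no .no (.br (.br .no (.sw 2 3 [21,27]) .no .no) .no .no .no)) .no) .no .no) (.br .no (.br .no .no (.br .no .no .no (.br (.br .no (.sw 2 3 [21,27]) .no .no) .no .no .no)) .no) (.br .no (.br .no .no (.br (.br .no (.sw 2 3 [21,27]) .no .no) .no .no (.br .no (.br .no (.br (.br .no .no .no (.br (.br .no (.br (.sw 2 3 [21,27,32,33]) .no (.sw 0 3 [33]) .no) .no .no) .no .no .no)) .no .no .no) (.br (.br .no .no .no (.br (.br .no (.br (.sw 2 3 [21,27,32,33]) .no (.sw 0 3 [33]) .no) .no .no) .no .no .no)) (.de 42) .no .no) .no) .no .no)) (.br (.br .no (.sw 2 3 [21,27]) .no .no) .no .no .no)) .no .no) .no)) .no (.br .no .no .no (.br .no (.br .no .no (.br .no .no .no (.br (.br .no (.br (.br .no .no (.br (.br .no (.br .no .no (.br .no .no .no (.de 41)) .no) .no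 .no) .no .no (.de 43)) .no) (.br (.br .no .no .no (.br (.br .no (.br .no .no (.br (.de 48) .no .no (.sw 0 2 [28])) (.br (.de 47) .no .no .no)) (.br .no .no .no (.br (.de 47) .no .no .no)) .no) (.br .no .no (.br .no .no .no (.br (.de 47) .no .no .no)) .no) .no .no)) .no (.de 42) .no) .no .no) .no .no) .no .no .no)) .no) (.br .no (.br .no .no (.sy 28 75 4) (.br (.br .no (.br (.br .no (.br (.br .no .no (.br .no (.br .no .no (.br .no .no .no (.br .no .no (.br .no .no .no (.de 44)) .no)) (.de 41)) .no .no) .no) .no .no (.br (.br .no (.sw 2 3 [32]) (.br .no .no .no (.de 41)) .no) .no (.de 44) .no)) .no .no) (.br (.br .no .no .no (.br (.sw 1 2 [30,31]) .no (.de 44) .no)) .no .no .no) .no .no) .no .no) .no .no .no)) .no .no) .no)) .no) .no) .no (.sy 23 120 3)) .no .no .no)) .no .no .no) (.br (.br .no .no .no (.br (.br .no (.br .no .no (.br (.br .no (.br .no .no (.br .no (.br .no .no (.sy 29 210 3) (.br (.br .no (.sy 33 228 3) .no .no) .no .no .no)) .no .no) .no) .no (.sw 1 2 [22])) (.br .no .no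 .no (.br .no (.br .no .no (.br .no .no .no (.br (.de 34) .no .no .no)) .no) (.br .no (.br .no .no (.br (.de 34) .no .no (.br (.br (.br .no (.br (.br .no .no .no (.br (.sy 35 180 4) (.de 45) .no .no)) .no .no (.br (.br .no (.br .no .no (.br .no .no .no (.sw 1 2 [22,28])) .no) .no .no) .no .no .no)) .no .no) .no (.br (.br .no .no .no (.br (.br .no (.br .no .no (.br .no .no .no (.sw 0 1 [28,34])) .no) .no .no) .no .no .no)) (.de 42) .no .no) .no) .no .no .no)) (.br (.de 34) .no .no .no)) .no .no) .no)) .no .no) .no) .no (.sy 23 120 3)) .no .no .no)) (.br (.br .no .no .no (.br .no (.br .no .no (.br (.br .no .no .no (.br .no .no (.br .no (.br (.br .no .no .no (.br .no (.br .no (.br (.br .no .no .no (.br .no .no (.de 44) .no)) .no .no .no) (.br (.br .no .no .no (.br .no .no (.de 44) .no)) (.de 42) .no .no) .no) .no .no)) .no (.br (.sy 17 198 16) .no .no (.br .no (.sy 17 198 17) .no .no)) .no) .no .no) .no)) (.br (.br .no .no (.br .no (.br (.br .no .no .no (.br (.sy 32 120 4) .no .no .no)) .no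 (.br (.de 34) .no .no (.br (.br .no .no (.br .no (.de 42) .no (.br (.br .no .no .no (.br (.sy 36 57 3) (.de 45) .no .no)) .no .no .no)) (.br .no (.br (.br .no .no .no (.br (.br .no (.br .no .no (.br .no .no (.br .no .no .no (.br .no .no (.br .no (.br .no .no .no (.sw 0 2 [32,39])) .no .no) .no)) .no) .no) (.de 41) .no) (.de 45) .no .no)) .no .no (.br (.sy 17 198 21) .no .no .no)) .no .no)) .no .no .no)) .no) .no .no) (.br .no (.br (.br .no .no .no (.br (.sy 32 120 4) .no .no .no)) .no (.br (.de 34) .no .no (.br (.br .no .no (.br .no (.de 42) .no .no) (.br .no (.br (.sw 2 3 [30]) .no (.br (.br .no (.br .no .no (.de 41) .no) .no .no) .no .no (.de 44)) .no) (.br (.br .no .no .no (.br (.br .no (.br .no .no (.br .no (.br .no .no .no (.br .no .no (.br .no (.br .no .no .no (.sw 0 2 [32,39])) .no .no) .no)) .no .no) .no) (.de 41) .no) (.de 45) .no .no)) .no .no .no) .no)) .no .no .no)) .no) (.sy 17 198 14) .no)) .no .no (.br .no .no (.br .no (.br (.br .no .no .no (.br (.br (.br .no (.br (.br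 .no .no (.br .no (.br .no .no (.br .no .no .no (.br .no .no (.br .no .no .no (.de 44)) .no)) .no) .no .no) (.br .no (.de 45) (.br .no (.br .no .no (.br .no .no (.br .no .no .no (.br .no .no (.br .no (.br (.br .no .no .no (.br .no (.sw 0 3 [29,35]) .no .no)) .no .no (.br (.br .no (.sw 0 3 [29,35]) .no .no) .no .no .no)) .no .no) .no)) .no) (.br .no .no (.br .no .no .no (.br .no .no (.br .no (.br (.de 47) .no .no (.br (.br .no (.sw 2 3 [41]) .no .no) .no .no .no)) .no .no) .no)) .no)) .no .no) .no)) .no .no (.br .no .no (.de 44) .no)) .no .no) .no (.br (.br .no .no .no (.br .no .no (.de 44) .no)) (.de 42) .no .no) .no) .no .no .no)) .no (.br (.de 34) .no .no (.br (.br (.br .no (.br (.br .no .no .no (.br (.sy 35 180 4) (.de 45) .no .no)) .no .no (.br (.br .no (.br .no .no (.br .no .no .no (.br .no .no (.de 43) .no)) .no) .no .no) .no .no .no)) .no .no) .no (.br (.br .no .no .no (.br (.br .no (.br .no .no (.br .no .no .no (.sw 0 1 [28,34])) .no) .no .no) .no .no .no)) (.de 42) .no .no) .no)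 .no .no .no)) .no) .no .no) .no)) .no .no) .no) .no .no)) .no .no (.br (.br .no (.br .no .no (.br (.br .no .no .no (.br (.br .no (.br .no .no (.br (.br .no (.sy 33 180 4) .no .no) .no .no (.br .no (.br .no (.br .no .no (.de 42) .no) (.br .no (.de 42) .no .no) .no) .no .no)) (.br (.sy 28 120 5) .no .no .no)) (.br .no .no .no (.br (.sy 28 108 5) .no .no .no)) .no) .no (.sw 0 1 [23]) .no)) (.br (.br .no .no (.br .no (.br .no .no (.sw 0 3 [24,25]) (.br (.de 34) .no .no .no)) .no .no) .no) .no .no (.br (.br .no (.br .no .no (.br (.de 34) .no .no (.br (.br (.br .no (.br .no .no (.br (.br .no (.br .no .no (.br .no .no .no (.br .no .no (.br .no .no .no (.de 44)) .no)) .no) .no .no) .no .no (.de 44)) (.br (.br .no (.br .no .no (.br .no .no .no (.br .no .no (.de 43) .no)) .no) .no .no) .no .no .no)) (.br .no .no .no (.de 43)) .no) .no (.br .no (.de 42) .no .no) .no) .no .no .no)) (.br (.de 34) .no .no .no)) (.br .no .no .no (.br (.de 34) .no .no .no)) .no) .no (.sw 0 1 [23]) .no)) .no .no) .no)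 .no (.br .no .no (.sy 26 30 3) .no)) .no .no .no)) .no .no) .no)) .no .no (.br .no .no (.br .no (.br (.br .no .no .no (.br (.br .no (.br (.sy 23 120 4) .no .no .no) .no .no) .no .no .no)) .no .no .no) .no .no) (.br .no (.br (.br .no .no .no (.br (.br .no (.br (.sy 23 120 4) .no (.sw 0 3 [20]) .no) .no .no) .no .no .no)) .no .no .no) (.br (.br .no .no .no (.br (.br .no (.br (.sy 23 120 4) .no (.sw 0 3 [20]) .no) .no .no) .no .no .no)) (.br (.br .no .no .no (.br (.br .no .no (.br (.br .no .no .no (.br .no .no (.br .no (.br .no .no (.br .no (.de 34) .no (.br .no (.br .no (.br (.br .no .no .no (.br (.br .no (.br (.sy 36 120 4) .no (.sw 0 3 [20,24,25,26,33]) .no) .no .no) .no .no .no)) .no .no .no) (.br (.br .no .no .no (.br (.br .no (.br (.sy 36 120 4) .no (.sw 0 3 [20,24,25,26,33]) .no) .no .no) .no .no .no)) (.de 42) .no .no) .no) .no .no)) .no) .no .no) .no)) (.br (.br .no .no (.br .no (.br .no .no (.br .no (.sw 0 3 [20,24,25,26]) .no (.br (.br .no .no (.br .no (.de 42) .no (.br (.br .no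 .no .no (.br (.sy 36 57 3) (.de 45) .no .no)) .no .no .no)) (.br .no (.br (.br .no .no .no (.br (.br .no (.br .no .no (.br .no .no (.br .no .no .no (.br .no .no (.br .no (.br .no .no .no (.br (.br .no (.sw 0 2 [5,12,19,26,27,32,34,39,41,47]) .no .no) .no .no .no)) .no .no) .no)) .no) .no) (.de 41) .no) (.de 45) .no .no)) .no .no (.br (.br .no (.br .no .no (.de 41) .no) .no .no) .no .no .no)) .no .no)) .no .no .no)) .no) .no .no) (.br .no (.br .no .no (.br .no (.br (.sy 33 225 3) .no .no .no) .no (.br (.br .no .no (.br .no (.de 42) .no .no) (.br .no (.br (.sw 2 3 [30]) .no (.br (.br .no (.br .no .no (.de 41) .no) .no .no) .no .no (.de 44)) .no) (.br (.br .no .no .no (.br (.br .no (.br .no .no (.br .no (.br .no .no .no (.br .no .no (.br .no (.br .no .no .no (.br (.de 48) .no .no .no)) .no .no) .no)) .no .no) .no) (.de 41) .no) (.de 45) .no .no)) .no .no .no) .no)) .no .no .no)) .no) (.br .no (.br .no .no .no (.br (.br .no .no (.br .no (.de 42) .no .no) (.br .no (.br (.br .no .no .no (.br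 (.sw 1 2 [31,32]) .no (.br .no (.br .no .no (.br .no .no (.br .no .no .no (.br .no .no (.br .no (.br (.br .no .no .no (.br .lf (.sw 0 1 [48]) .no .no)) .no .no (.sw 0 2 [39])) .no .no) .no)) .no) .no) .no .no) .no)) .no .no .no) (.br (.br .no .no .no (.br (.sw 1 2 [31,32]) .no (.br .no (.br .no .no (.sy 39 135 4) .no) .no .no) .no)) (.br (.sy 24 108 14) .no .no (.br (.br .no (.br .no .no (.br .no (.br .no .no .no (.br .no .no (.sw 0 1 [37]) .no)) .no .no) .no) (.de 41) .no) .no (.br .no (.br .no .no (.sy 39 135 4) .no) .no .no) .no)) .no .no) .no)) .no .no .no)) .no .no) .no)) .no .no (.br .no .no (.br .no (.br .no .no (.br .no (.sw 0 3 [20,24,25,26]) .no (.br (.br (.br .no (.br (.br .no .no .no (.br (.sy 35 180 4) (.de 45) .no .no)) .no .no (.br (.br .no (.br .no .no (.br .no .no .no (.br .no .no (.de 43) .no)) .no) .no .no) .no .no .no)) .no .no) .no (.br (.br .no .no .no (.br (.br .no (.br .no .no (.br .no .no .no (.sw 0 1 [28,34])) .no) .no .no) .no .no .no)) (.de 42) .no .no) .no)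 .no .no .no)) .no) .no .no) .no)) .no .no) .no) (.br (.br (.br .no .no .no (.br .no .no (.br .no (.br (.br .no .no (.br .no (.br .no (.br (.br .no .no .no (.br .no .no (.de 44) .no)) .no .no .no) (.br (.br .no .no .no (.br .no .no (.de 44) .no)) (.de 42) .no .no) .no) .no .no) (.br .no (.br .no (.br (.br .no .no .no (.br .no .no (.de 44) .no)) .no .no .no) (.br (.br .no .no .no (.br .no .no (.de 44) .no)) (.de 42) .no .no) .no) (.br .no (.br (.br .no .no .no (.br .no .no (.de 44) .no)) .no .no .no) (.br (.br .no .no .no (.br .no .no (.de 44) .no)) (.de 42) .no .no) .no) .no)) .no (.br .no .no .no (.br .no (.br .no (.br (.br .no .no .no (.br (.br .no (.br (.sy 36 120 4) .no (.br .no .no .no (.br .no .no (.de 43) .no)) .no) .no .no) .no .no .no)) .no .no .no) (.br (.br .no .no .no (.br (.br .no (.br (.sy 36 120 4) .no (.br .no .no .no (.br .no (.br .no .no (.de 44) .no) .no .no)) .no) .no .no) .no .no .no)) (.de 42) .no .no) .no) (.sy 30 135 4) .no)) .no) .no .no) .no)) (.br (.br .no .no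 (.br .no (.br (.br .no .no (.de 34) (.br .no .no (.br .no .no (.br .no (.de 42) .no (.br (.br .no .no (.br .no (.br (.br .no .no .no (.de 47)) .no .no .no) .no .no) (.br .no (.de 45) (.br (.br .no .no .no (.de 47)) (.br (.br .no (.de 48) .no .no) .no .no (.sy 41 30 4)) .no .no) .no)) .no .no .no)) (.br .no (.br (.br .no .no (.br .no (.br (.de 41) .no .no .no) .no .no) (.br .no (.de 45) (.br (.de 41) (.br (.br .no .no (.br .no .no .no (.br .no .no (.br .no (.br (.br .no .no .no (.br .no (.sw 0 2 [5,12,19]) .no .no)) .no .no (.de 47)) .no .no) .no)) .no) .no .no .no) .no .no) .no)) .no .no (.br .no .no (.de 44) .no)) .no .no)) .no)) .no (.br .no .no .no (.br .no .no (.sy 30 135 4) .no)) .no) .no .no) (.br .no (.br (.br .no .no (.de 34) (.br .no .no (.br .no .no (.br .no (.de 42) .no .no) (.br .no (.br (.sw 2 3 [30]) .no (.br .no .no .no (.de 44)) .no) (.br (.br .no .no (.br .no (.br (.de 41) .no .no .no) .no .no) (.br .no (.de 45) (.br (.de 41) (.br (.br .no (.de 48) .no .no) .no .no .no)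 .no .no) .no)) .no .no .no) .no)) .no)) .no (.br .no .no .no (.br .no .no (.br .no .no (.br .no (.de 42) .no .no) (.br .no (.br (.sw 2 3 [30]) .no (.br (.br .no (.br (.de 41) .no .no .no) .no .no) .no .no (.de 44)) .no) (.br (.br .no .no .no (.br (.br .no (.br (.sy 37 120 4) .no .no .no) .no .no) (.de 45) .no .no)) .no .no .no) .no)) .no)) .no) (.br (.br .no .no (.de 34) (.br .no .no (.br .no .no (.br .no (.de 42) .no .no) (.br .no (.br (.br .no (.br .no .no (.br (.de 41) (.sy 36 225 4) .no .no) .no) .no (.sw 1 2 [31])) .no .no .no) (.br (.br .no (.br .no .no (.br (.de 41) (.br (.br .no (.de 48) .no .no) .no .no .no) .no .no) .no) .no (.sw 1 2 [31])) (.br .no .no .no (.br .no (.de 45) (.br (.de 41) (.br (.br .no (.de 48) .no .no) .no .no .no) .no .no) .no)) .no .no) .no)) .no)) .no .no .no) .no)) .no .no (.br .no .no (.br .no (.br (.br .no .no (.de 34) (.br .no .no (.br (.br .no (.br (.br .no .no (.br .no (.br (.sy 35 228 5) .no .no .no) .no .no) (.br .no (.de 45) (.br (.br .no .no .no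 (.de 47)) (.br .no .no .no (.br .no .no (.br .no .no .no (.br .no .no (.br .no (.br (.de 47) .no .no (.br (.br .no (.sw 0 2 [5,12,19,47]) .no .no) .no .no .no)) .no .no) .no)) .no)) .no .no) .no)) .no .no (.br .no .no (.de 44) .no)) .no .no) .no (.br (.br .no .no .no (.br .no .no (.de 44) .no)) (.de 42) .no .no) .no) .no)) .no (.br .no .no .no (.br .no .no (.sy 30 135 4) .no)) .no) .no .no) .no)) .no .no) .no (.sw 0 3 [20]) .no) .no .no)) .no .no (.br (.br .no (.br (.br (.br .no .no .no (.br (.br .no (.br .no .no (.br .no .no .no (.br .no (.br .no (.br .no .no (.de 42) .no) (.br .no (.de 42) .no .no) .no) (.br .no (.br .no .no (.de 42) .no) (.br .no (.de 42) .no .no) .no) .no)) (.br .no .no (.br .no (.br .no (.br .no .no (.de 42) .no) (.br .no (.de 42) .no .no) .no) .no .no) .no)) (.br .no .no .no (.br .no .no (.br .no (.br .no (.br .no .no (.de 42) .no) (.br .no (.de 42) .no .no) .no) .no .no) .no)) .no) .no (.sw 0 1 [23]) .no)) (.br (.br .no .no (.br .no (.br .no .no (.sw 0 3 [24,25])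 (.br .no .no (.de 34) .no)) .no .no) .no) .no .no (.br (.br .no (.br .no .no (.br .no .no .no (.br .no .no (.br (.br .no (.br .no .no (.br (.br .no (.br (.br .no .no .no (.de 47)) .no .no .no) .no .no) .no .no (.de 44)) (.br (.br .no (.br (.br .no .no .no (.de 47)) .no .no .no) .no .no) .no .no .no)) (.br .no .no .no (.de 43)) .no) .no (.br .no (.de 42) .no .no) .no) .no)) (.br .no .no (.de 34) .no)) (.br .no .no .no (.br .no .no (.de 34) .no)) .no) .no (.sw 0 1 [23]) .no)) .no .no) .no (.sw 0 3 [20]) .no) .no .no) .no .no .no)) .no .no) .no)))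

def c6_4_1 : Cert := (.br .no .no (.br .no (.br .no .no (.br .no .no .no (.br (.br .no .no (.br .no (.br (.br .no .no .no (.br (.br .no (.br .no .no .no (.br (.br .no .no (.br .no (.br .no .no (.br .no .no .no (.br (.br .no (.br .no (.br (.br .no .no .no (.br (.br .no (.br .no .no (.br .no .no .no (.br .no .no (.de 43) .no)) (.br .no .no (.br .no .no (.de 43) .no) .no)) (.br .no .no .no (.br .no .no (.br .no .no (.de 43) .no) .no)) .no) (.br .no .no (.br .no .no .no (.br .no .no (.br .no .no (.de 43) .no) .no)) .no) .no .no)) .no .no (.br (.br .no (.br .no .no (.br .no .no .no (.br .no .no (.br .no .no (.de 43) .no) .no)) .no) .no .no) .no .no .no)) .no (.br (.br .no .no .no (.br (.sy 35 57 3) (.br .no .no (.br .no .no .no (.br .no .no (.sy 39 78 3) .no)) .no) .no .no)) .no .no .no)) .no .no) .no (.sy 29 135 4) .no)) .no) .no .no) (.br .no (.br .no .no (.br .no .no .no (.br (.br .no (.br .no (.br (.sw 2 3 [29]) .no (.de 42) .no) (.br (.br .no .no .no (.br (.br .no (.br .no .no (.br .no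 .no .no (.br .no (.br .no .no (.de 44) .no) .no .no)) (.de 41)) (.br .no .no .no (.de 41)) .no) (.br .no .no (.br .no .no .no (.de 41)) .no) .no .no)) .no .no .no) .no) .no .no) .no (.br .no (.br .no (.br (.sw 2 3 [29]) .no (.de 42) .no) (.br (.br .no .no .no (.br (.br .no (.br (.sy 36 120 4) .no .no (.de 41)) .no .no) (.br (.br .no .no .no (.de 41)) .no .no .no) .no .no)) .no .no .no) .no) .no .no) .no)) .no) (.br .no (.br .no .no (.br (.br .no (.br .no (.br (.br .no .no .no (.br (.br .no (.br .no .no (.br .no .no .no (.br .no .no (.de 43) .no)) (.br .no .no (.br .no .no (.de 43) .no) .no)) .no (.sy 36 120 3)) .no .no .no)) .no .no .no) (.br (.br .no .no .no (.br (.br .no (.br .no .no (.br .no .no .no (.br .no (.br .no .no (.de 44) .no) .no .no)) (.de 41)) .no (.sy 36 120 3)) .no .no .no)) (.de 42) .no .no) .no) .no .no) .no .no .no) (.br (.br .no (.br .no (.br (.br .no .no .no (.br (.sw 1 2 [30,31]) .no (.de 44) .no)) .no .no .no) (.br (.br .no .no .no (.br (.sw 1 2 [30,31]) .no (.de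 44) .no)) (.de 42) .no .no) .no) .no .no) .no (.br .no (.br .no (.br (.br .no .no .no (.br (.sw 1 2 [30,31]) .no (.de 44) .no)) .no .no .no) (.br (.br .no .no .no (.br (.sw 1 2 [30,31]) .no (.de 44) .no)) (.de 42) .no .no) .no) .no .no) .no)) .no .no) .no)) .no .no (.br .no .no (.br .no (.br .no .no (.br .no .no .no (.br (.br .no (.br (.br .no .no .no (.br (.br .no (.br .no .no (.br .no .no .no (.br .no .no (.br .no (.de 48) (.de 43) .no) .no)) .no) .no .no) .no .no .no)) (.br (.br .no .no .no (.br (.br .no (.br .no .no (.br (.de 48) .no .no .no) (.br (.de 47) .no (.sw 0 3 [28]) .no)) (.br .no .no .no (.br (.de 47) .no (.sw 0 3 [28]) .no)) .no) (.br .no .no (.br .no .no .no (.br (.de 47) .no (.sw 0 3 [28]) .no)) .no) .no .no)) .no .no (.br (.br .no (.br .no .no (.br .no .no .no (.br (.de 47) .no (.sw 0 3 [28]) .no)) .no) .no .no) .no .no .no)) .no .no) .no .no) .no (.sy 29 135 4) .no)) .no) .no .no) .no))) (.br .no .no .no (.br (.br .no .no (.br .no (.br .no .no (.br .no (.sy 29 198 3)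 .no (.br (.sw 1 2 [26]) (.de 34) .no .no)) .no) .no .no) (.br .no (.br .no .no (.br .no (.br (.br .no (.sy 32 225 3) .no .no) .no .no .no) .no (.br (.sw 1 2 [26]) (.de 34) .no .no)) .no) (.br .no (.br .no .no .no (.br (.sw 1 2 [26]) (.de 34) .no .no)) .no .no) .no)) .no .no (.br .no .no (.br .no (.br .no .no (.br .no (.sy 29 198 3) .no (.br (.sw 1 2 [26]) (.br (.br (.br .no .no .no (.br (.br .no (.br (.sy 35 120 4) .no (.br .no .no .no (.br .no (.de 48) (.sw 0 1 [33,34]) .no)) .no) .no .no) .no .no .no)) (.br (.br .no .no .no (.br (.br .no .no (.br .no .no .no (.br .no .no (.sw 0 1 [33,34]) .no)) .no) (.br (.br .no .no (.de 41) (.de 46)) .no (.br .no .no .no (.br .no .no (.sw 0 1 [33,34]) .no)) .no) .no .no)) .no .no (.br (.br .no (.br (.br .no .no (.de 41) (.de 46)) .no (.br .no .no .no (.br .no .no (.sw 0 1 [33,34]) .no)) .no) .no .no) .no .no .no)) .no .no) .no .no .no) .no .no)) .no) .no .no) .no))) .no) (.br .no .no (.br .no .no .no (.br (.br .no .no (.br .no (.br (.br .no .no .no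 (.br (.br .no (.sy 31 120 4) .no .no) (.de 34) .no .no)) .no (.br (.br .no (.de 34) .no .no) .no .no (.sw 0 1 [25])) .no) .no .no) (.br .no (.br (.br .no .no .no (.br (.br .no (.sy 31 120 4) .no .no) (.de 34) .no .no)) .no (.br (.br .no (.de 34) .no .no) .no .no (.sw 0 1 [25])) .no) (.br (.br .no .no .no (.br (.br .no (.sy 31 120 4) .no .no) (.de 34) .no .no)) .no .no .no) .no)) .no .no (.br .no .no (.br .no (.br (.br .no .no .no (.br (.br .no (.br (.br .no .no .no (.br .no .no (.de 43) .no)) (.br (.br .no .no (.br .no (.br .no .no (.br .no .no .no (.br (.de 47) .no (.sw 0 3 [28]) .no)) .no) .no .no) (.br .no (.br .no .no (.br .no .no .no (.br (.de 47) .no (.sw 0 3 [28]) .no)) .no) (.de 44) .no)) .no .no (.br .no .no (.de 43) .no)) .no .no) .no .no) (.br (.br (.br .no .no .no (.br .no .no (.de 43) .no)) (.br (.br .no .no (.br .no (.br (.br .no .no (.de 41) (.de 46)) .no (.br .no .no .no (.br .no .no (.sw 0 1 [33,34]) .no)) .no) .no .no) (.br .no (.br (.br .no .no (.de 41) (.de 46)) .no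 (.br .no .no .no (.br .no .no (.sw 0 1 [33,34]) .no)) .no) (.de 44) .no)) .no .no (.br .no .no (.de 43) .no)) .no .no) .no .no .no) .no .no)) .no (.br (.br .no (.br (.br (.br .no .no .no (.br (.br .no (.br .no .no (.br .no .no .no (.br .no (.de 48) (.br .no (.de 48) (.de 43) .no) .no)) (.de 45)) .no (.sy 35 120 3)) .no .no .no)) (.br (.br .no .no .no (.br .no (.br .no .no (.br .no .no .no (.br .no .no (.br .no .no (.de 43) .no) .no)) (.de 45)) .no .no)) .no .no (.br (.br .no (.br .no .no (.br .no .no .no (.br .no .no (.br .no .no (.de 43) .no) .no)) (.de 45)) .no (.br .no .no (.br .no .no .no (.sy 36 45 4)) .no)) .no .no .no)) .no .no) .no .no .no) .no .no) .no .no (.sw 0 1 [25])) .no) .no .no) .no))) .no) .no .no)) .no .no (.br (.br .no (.br .no .no (.br .no .no .no (.br (.br .no .no (.br .no (.br .no .no (.sw 0 3 [23,24]) (.br (.br .no (.de 34) .no .no) .no .no .no)) .no .no) .no) .no .no (.br (.br .no (.br .no .no (.br (.br .no (.br (.sy 32 180 4) .no .no .no) .no .no) .no .no (.br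 (.br .no (.br .no (.br .no .no (.de 42) (.br (.br .no (.br .no .no (.br .no .no .no (.br (.de 47) .no (.br .no .no (.de 43) .no) .no)) .no) .no .no) .no .no .no)) (.br .no .no .no (.br (.br .no (.br .no .no (.br .no .no .no (.br (.de 47) .no .no .no)) .no) .no .no) .no .no .no)) .no) .no .no) (.br (.br .no (.br .no .no (.de 42) (.br (.br .no (.br (.br .no .no (.de 41) (.de 46)) .no (.sw 0 3 [32]) .no) .no .no) .no .no .no)) (.br .no .no .no (.br (.br .no (.br (.br .no .no (.br .no (.br .no (.br .no .no (.br .no .no .no (.de 45)) .no) .no .no) .no .no) (.de 46)) .no (.sw 0 3 [32]) .no) .no .no) .no .no .no)) .no) .no .no .no) .no .no)) (.br (.br .no (.br (.sy 32 180 4) .no .no .no) .no .no) .no .no .no)) (.br .no .no .no (.br (.br .no (.br (.sy 32 180 4) .no .no .no) .no .no) .no .no .no)) .no) .no (.br .no (.br .no .no (.sw 0 3 [23,24]) (.br (.br .no (.br (.br (.br .no .no .no (.br (.br .no (.sw 2 3 [31]) (.br .no .no .no (.br .no .no (.br .no (.de 48) .no .no) .no)) .no) .no (.de 43)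 .no)) (.br (.br .no .no (.br .no (.br .no .no (.sw 0 3 [23,24,31,32]) (.de 45)) .no .no) .no) .no .no (.sw 0 2 [29])) .no .no) .no .no .no) .no .no) .no .no .no)) .no .no) .no))) .no) .no .no) .no .no .no)) .no (.br (.br .no .no .no (.br (.sy 22 57 3) (.br .no .no (.br .no .no .no (.sy 26 78 3)) .no) .no .no)) .no .no .no)) (.br .no (.br (.br .no .no .no (.br (.br .no (.br .no .no (.br (.br .no .no (.br .no (.br .no .no (.br .no .no .no (.br (.br .no (.sw 2 3 [21,27]) .no .no) .no .no .no)) .no) .no .no) (.br .no (.br .no .no (.br .no .no .no (.br (.br .no (.sw 2 3 [21,27]) .no .no) .no .no .no)) .no) (.br .no (.br .no .no (.br (.br .no (.sw 2 3 [21,27]) .no .no) .no .no (.br .no (.br .no (.br (.br .no .no .no (.br (.br .no (.br (.sw 2 3 [21,27,32,33]) .no (.sw 0 3 [33]) .no) .no .no) .no .no .no)) .no .no .no) (.br (.br .no .no .no (.br (.br .no (.br (.sw 2 3 [21,27,32,33]) .no (.sw 0 3 [33]) .no) .no .no) .no .no .no)) (.de 42) .no .no) .no) .no .no)) (.br (.br .no (.sw 2 3 [21,27])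 .no .no) .no .no .no)) .no .no) .no)) .no (.br .no .no .no (.br .no (.br .no .no (.br .no .no .no (.br (.br .no (.br (.br .no .no (.br (.br .no (.br .no .no (.br .no .no .no (.de 41)) .no) .no .no) .no .no (.de 43)) .no) (.br (.br .no .no .no (.br (.br .no (.br .no .no (.br (.de 48) .no .no (.sw 0 2 [28])) (.br (.de 47) .no .no .no)) (.br .no .no .no (.br (.de 47) .no .no .no)) .no) (.br .no .no (.br .no .no .no (.br (.de 47) .no .no .no)) .no) .no .no)) .no (.de 42) .no) .no .no) .no .no) .no .no .no)) .no) (.br .no (.br .no .no (.sy 28 75 4) (.br (.br .no (.br (.br .no (.br (.br .no .no (.br .no (.br .no .no (.br .no .no .no (.br .no .no (.br .no .no .no (.de 44)) .no)) (.de 41)) .no .no) .no) .no .no (.br (.br .no (.sw 2 3 [32]) (.br .no .no .no (.de 41)) .no) .no (.de 44) .no)) .no .no) (.br (.br .no .no .no (.br (.sw 1 2 [30,31]) .no (.de 44) .no)) .no .no .no) .no .no) .no .no) .no .no .no)) .no .no) .no)) .no) .no) (.de 27) .no) (.br .no .no (.de 27) .no) .no .no)) .no .no (.br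 (.br .no (.br .no .no (.de 27) .no) .no .no) .no .no .no)) .no .no)) .no .no .no)) .no) .no .no) (.br .no (.br .no .no (.br .no .no .no (.br (.br .no .no (.br .no (.br (.sw 2 3 [16]) .no (.br (.br .no (.br .no .no (.sy 21 198 5) .no) .no .no) .no .no (.br (.br .no (.br .no .no .no (.br (.br .no .no .no (.br (.br .no (.br .no .no (.br (.br .no (.sy 33 180 4) .no .no) .no .no .no) (.br (.sy 28 120 5) .no (.br .no (.br .no (.br .no .no (.de 42) .no) (.br .no (.de 42) .no .no) .no) .no .no) .no)) (.br .no .no .no (.br (.sy 28 108 5) .no (.br .no (.br .no (.br .no .no (.de 42) .no) (.br .no (.de 42) .no .no) .no) .no .no) .no)) .no) (.sw 0 2 [23]) .no .no)) .no .no (.br (.br .no (.br .no .no (.br .no .no .no (.br (.br .no (.br .no (.br .no .no (.de 42) (.sw 0 2 [23,29])) (.br .no .no .no (.br (.br .no (.br .no .no (.br .no .no .no (.br (.de 47) .no .no .no)) .no) .no .no) .no .no .no)) .no) .no .no) .no (.br (.br .no (.br .no .no (.de 42) (.sw 0 2 [23,29])) (.br .no .no .no (.br (.br .no (.br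 (.br .no (.de 41) .no (.de 46)) .no .no .no) .no .no) .no .no .no)) .no) (.br .no (.br .no .no (.de 42) (.sw 0 2 [23,29])) (.br .no .no .no (.br (.br .no (.br (.br .no .no .no (.de 46)) .no .no .no) .no .no) .no .no .no)) .no) .no .no) .no)) .no) .no .no) .no .no .no))) (.br .no .no .no (.sy 26 75 4)) .no) (.br .no .no (.sy 21 135 5) .no) .no .no)) .no) .no .no) (.br .no (.br (.sw 2 3 [16]) .no (.br (.br .no (.br .no .no (.de 27) .no) .no .no) .no .no (.br (.br .no (.br .no .no (.br (.br .no .no .no (.br (.br .no (.br .no .no (.br (.br .no (.sw 2 3 [21,27]) .no .no) .no .no (.br .no (.br .no (.br .no .no (.de 42) .no) (.br .no (.de 42) .no .no) .no) .no .no)) (.br (.sy 28 120 5) .no .no .no)) (.br .no .no .no (.br (.sy 28 108 5) .no .no .no)) .no) (.sw 0 2 [23]) .no .no)) .no (.br (.br .no (.br .no .no (.br .no .no .no (.br (.br .no (.br .no (.br .no .no (.de 42) (.br (.br .no (.br .no .no (.br .no .no .no (.br (.de 47) .no .no .no)) .no) .no .no) .no .no .no)) .no (.br .no .no (.br (.br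 .no (.br .no .no (.br .no .no .no (.br (.de 47) .no .no .no)) .no) .no .no) .no .no (.de 43)) .no)) .no .no) .no .no .no)) .no) .no .no) .no .no (.br (.br .no (.br .no .no (.br (.br .no (.br (.br .no (.br .no .no (.br (.br .no (.br .no .no (.br .no .no .no (.br .no .no (.br .no .no .no (.de 44)) .no)) (.de 41)) .no (.br .no .no (.br .no .no .no (.br .no .no (.br .no .no .no (.de 44)) .no)) .no)) .no .no (.de 44)) (.sw 0 2 [23,30])) (.br .no .no .no (.de 43)) .no) (.br .no .no (.de 42) .no) .no .no) .no .no) .no .no (.br (.br (.br .no (.br .no .no (.br (.br .no (.br .no .no (.br .no (.de 48) .no (.br .no .no (.br .no .no .no (.de 44)) .no)) .no) .no .no) .no .no (.de 44)) (.sw 0 2 [23,30])) (.br .no .no .no (.de 43)) .no) (.br .no .no (.de 42) .no) .no .no) (.br (.br .no (.br .no .no (.br (.br .no (.br (.br .no .no .no (.de 47)) .no (.sw 0 3 [33]) .no) .no .no) .no .no (.de 44)) (.sw 0 2 [23,30])) (.br .no .no .no (.de 43)) .no) (.br .no .no (.de 42) .no) .no .no) .no .no)) (.br (.br .no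 (.br (.br .no (.br .no .no (.br (.br .no (.sw 2 3 [32]) (.br .no .no .no (.de 41)) .no) .no .no .no) (.sw 0 2 [23,30])) (.br .no .no .no (.de 43)) .no) (.br .no .no (.de 42) .no) .no .no) .no .no) .no .no .no)) (.br .no .no .no (.br (.br .no (.br (.br .no (.br .no .no .no (.br (.sw 1 2 [31]) (.br .no .no (.br .no .no .no (.de 41)) .no) .no .no)) (.br .no (.br (.br .no (.br .no .no (.br .no .no .no (.br .no (.de 48) .no .no)) (.de 41)) (.br .no .no .no (.de 41)) .no) .no .no .no) .no (.de 43)) .no) (.br .no .no (.de 42) .no) .no .no) .no .no) .no .no .no)) .no) (.sw 0 2 [23]) .no .no)) .no) .no) (.de 27) .no) (.br .no .no (.de 27) .no) .no .no)) .no) (.br (.br .no .no .no (.br (.br .no (.br .no .no (.br (.br .no (.br .no .no (.br .no (.br .no .no (.sy 29 210 3) (.br (.br .no (.sw 2 3 [16,21,22,27]) .no .no) .no .no .no)) .no .no) .no) .no (.sw 1 2 [22])) (.br .no .no .no (.br .no (.br .no .no (.br .no .no .no (.br (.de 34) .no .no .no)) .no) (.br .no (.br .no .no (.br (.de 34) .no .no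 (.br (.br (.br .no (.br (.br .no .no .no (.br (.sy 35 180 4) (.de 45) .no .no)) .no .no (.br (.br .no (.br .no .no (.br .no .no .no (.sw 1 2 [22,28])) .no) .no .no) .no .no .no)) .no .no) .no (.br (.br .no .no .no (.br (.br .no (.br .no .no (.br .no .no .no (.sw 0 1 [28,34])) .no) .no .no) .no .no .no)) (.de 42) .no .no) .no) .no .no .no)) (.br (.de 34) .no .no .no)) .no .no) .no)) .no .no) .no) (.de 27) .no) (.br .no .no (.de 27) .no) .no .no)) .no .no .no) .no)) .no .no .no)) .no) (.br .no (.br .no .no c6_4_0 (.br (.br .no .no (.br .no (.br (.br .no .no .no (.br (.sw 1 2 [17,18]) .no (.br .no (.br .no .no .no (.br (.br .no .no (.br .no (.br (.br .no .no .no (.br (.sw 1 2 [17,18,25,26]) .no (.br .no (.br .no (.br (.br .no .no (.br .no (.br (.br .no .no .no (.de 46)) .no .no .no) .no .no) (.br .no (.sw 0 2 [25,31]) (.de 44) .no)) .no .no (.br .no .no (.de 43) .no)) .no (.br (.br .no .no (.br .no (.br (.br .no .no .no (.de 46)) .no .no .no) .no .no) (.br .no (.sw 0 2 [25,31]) (.de 44)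 .no)) .no .no .no)) .no .no) .no)) .no .no .no) .no .no) (.br .no (.br (.br .no .no .no (.br (.sw 1 2 [17,18,25,26]) .no (.br .no (.br .no (.br (.sw 2 3 [29]) .no (.de 42) .no) (.br (.br .no .no (.br .no (.br (.br .no .no .no (.de 41)) .no .no .no) .no .no) (.br .no (.sw 0 2 [25,31]) (.de 44) .no)) .no .no .no) .no) .no .no) .no)) .no .no .no) (.br (.br .no .no .no (.br (.sw 1 2 [17,18,25,26]) .no (.br .no (.br .no (.br (.br .no (.br .no .no (.br (.br .no .no .no (.de 46)) (.sy 35 225 4) .no .no) .no) .no (.sw 1 2 [30])) .no .no .no) (.br (.br .no (.br .no .no (.br (.br .no .no .no (.de 41)) (.br (.br .no .no .no (.de 47)) .no .no (.de 41)) .no .no) .no) .no (.sw 1 2 [30])) (.de 42) .no .no) .no) .no .no) .no)) (.br (.br .no .no (.br .no (.br .no (.br (.br .no .no .no (.br .no .no (.de 44) .no)) .no .no .no) (.br (.br .no .no .no (.br .no .no (.de 44) .no)) (.de 42) .no .no) .no) .no .no) .no) .no .no (.sw 0 2 [25])) .no .no) .no)) .no .no (.br .no .no (.br .no (.br (.br .no .no .no (.br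 (.sw 1 2 [17,18,25,26]) .no (.br (.br (.br .no .no .no (.br .no .no (.de 43) .no)) (.br (.br .no .no (.br .no (.br (.br .no (.br .no .no (.sy 38 225 4) .no) .no (.de 46)) .no .no .no) .no .no) (.br .no (.sw 0 2 [25,31]) (.de 44) .no)) .no .no (.br .no .no (.de 43) .no)) .no .no) (.br (.br .no .no .no (.br .no .no (.de 43) .no)) (.br (.br .no .no (.br .no (.br (.br .no .no .no (.de 46)) .no .no .no) .no .no) (.br .no (.sw 0 2 [25,31]) (.de 44) .no)) .no .no (.br .no .no (.de 43) .no)) .no .no) .no .no) .no)) .no .no .no) .no .no) .no))) .no .no) .no)) .no .no .no) .no .no) (.br .no (.br (.br .no .no .no (.br (.sw 1 2 [17,18]) .no (.br .no (.br .no .no (.br (.br .no .no (.br .no (.br (.br .no .no .no (.br (.br .no (.sw 2 3 [21,27]) .no .no) .no .no .no)) .no .no .no) .no .no) (.br .no (.br (.br .no .no .no (.br (.br .no (.sw 2 3 [21,27]) .no .no) .no .no .no)) .no .no .no) (.br (.br .no .no .no (.br (.br .no (.sw 2 3 [21,27]) .no .no) .no .no .no)) (.br (.br .no .no .no (.br .no (.br .no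 (.br (.br .no .no .no (.br .no .no (.de 44) .no)) .no .no .no) (.br (.br .no .no .no (.br .no .no (.de 44) .no)) (.de 42) .no .no) .no) .no .no)) .no .no (.sw 0 2 [25])) .no .no) .no)) .no (.br .no .no .no (.br .no (.br (.br .no .no .no (.br (.br .no (.br (.br .no .no (.br .no .no .no (.de 43)) .no) (.br (.br .no .no (.br .no (.br .no .no (.br .no .no .no (.br (.de 47) .no .no .no)) .no) .no .no) (.br .no (.sw 0 2 [25,31]) (.de 44) .no)) .no (.de 42) .no) .no .no) .no .no) .no .no .no)) .no .no .no) (.br (.br .no .no .no (.br (.br .no (.br (.br .no (.br .no .no .no (.br .no (.br .no .no (.br .no .no .no (.de 41)) .no) (.de 44) .no)) .no .no) (.br (.br .no (.br .no .no (.br .no (.sy 35 225 4) .no .no) .no) .no (.sw 1 2 [30])) .no .no .no) .no .no) .no .no) .no .no .no)) (.br (.br .no .no .no (.br (.br (.br .no (.br (.br .no .no (.br .no (.br .no .no (.br .no (.de 48) .no (.br .no .no (.br .no .no .no (.de 44)) .no)) .no) .no .no) (.br .no (.de 45) (.br .no (.br .no .no .no (.br .no .no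 (.br .no .no .no (.br .no .no (.br .no (.br (.de 47) .no .no (.sw 0 2 [25,32,39])) .no .no) .no)) .no)) .no .no) .no)) .no .no (.br .no .no (.de 44) .no)) .no .no) (.br (.br .no .no .no (.br .no .no (.de 44) .no)) .no .no .no) .no .no) (.br (.br .no (.br (.br .no .no (.br .no (.br (.sy 35 228 5) .no (.br .no .no .no (.sw 0 1 [34])) .no) .no .no) (.br .no (.de 45) (.br (.br .no .no .no (.de 47)) .no .no .no) .no)) .no .no (.br .no .no (.de 44) .no)) .no .no) (.br (.br .no .no .no (.br .no .no (.de 44) .no)) .no .no .no) .no .no) .no .no)) .no .no (.sw 0 2 [25])) .no .no) .no)) .no) .no) .no .no) .no)) .no .no .no) (.br (.br .no .no .no (.br (.sw 1 2 [17,18]) .no (.br .no (.br .no .no (.sy 25 135 4) .no) .no .no) .no)) (.br (.br .no .no (.br .no (.br .no .no (.sy 25 135 4) .no) .no .no) .no) .no .no (.br (.br .no (.sw 2 3 [19]) (.de 27) .no) .no (.br .no (.br .no .no (.sy 25 135 4) .no) .no .no) .no)) .no .no) .no)) .no .no .no)) .no .no) .no))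

def c6_4_2 : Cert := (.br (.br .no .no .no (.br (.sy 21 180 4) (.br .no .no (.br .no .no .no (.br .no .no (.br .no .no .no (.br .no (.br (.br .no .no .no (.br (.br .no (.br (.br .no .no (.br .no .no .no (.de 43)) .no) (.br (.br .no .no (.br .no (.br .no .no (.br .no .no .no (.br (.de 47) .no .no .no)) .no) .no .no) (.br .no (.br .no .no (.br .no .no .no (.br (.de 47) .no .no .no)) .no) (.de 44) .no)) .no (.de 42) .no) .no .no) .no .no) (.de 34) .no .no)) .no (.br (.br .no (.de 34) .no .no) .no .no (.sw 0 1 [25])) .no) (.br (.br .no .no .no (.br (.br .no (.br (.br .no (.br .no .no .no (.br .no (.br .no .no (.br .no .no .no (.de 41)) .no) (.de 44) .no)) .no .no) (.br (.br .no (.br .no .no (.br .no (.sy 35 225 4) .no .no) .no) .no (.sw 1 2 [30])) .no .no .no) .no .no) .no .no) (.de 34) .no .no)) .no .no .no) .no)) (.br .no .no (.br .no (.br (.br .no .no .no (.br (.br .no (.sw 0 2 [15,21]) (.br (.br .no .no .no (.br .no .no (.de 43) .no)) (.br (.br .no .no (.br .no (.br .no .no (.br .no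 (.sy 37 198 3) .no (.br (.de 47) .no .no .no)) .no) .no .no) (.br .no (.br .no .no (.br .no (.br (.de 48) .no .no .no) .no (.br (.de 47) .no .no .no)) .no) (.de 44) .no)) .no .no (.br .no .no (.de 43) .no)) .no .no) .no) (.br .no .no (.br (.br .no .no .no (.br .no .no (.de 43) .no)) (.br (.br .no .no (.br .no (.br (.br .no .no .no (.de 46)) .no (.br (.de 41) .no .no (.sw 0 1 [33])) .no) .no .no) (.br .no (.br (.br .no .no .no (.de 46)) .no (.br (.de 41) .no .no (.sw 0 1 [33])) .no) (.de 44) .no)) .no .no (.br .no .no (.de 43) .no)) .no .no) .no) .no .no)) .no (.br (.br .no (.br .no .no (.sy 34 75 4) .no) .no .no) .no .no (.sw 0 1 [25])) .no) .no .no) .no))) .no) .no .no)) .no (.br (.br .no (.br .no .no (.br .no .no .no (.br .no .no (.br (.br .no (.br .no .no (.br (.br .no (.de 34) .no .no) .no .no (.br (.br .no (.br .no (.br .no .no (.de 42) (.br (.br .no (.br .no .no (.br .no .no .no (.br (.de 47) .no .no .no)) .no) .no .no) .no .no .no)) .no (.br .no .no (.br (.br .no (.br .no .no (.br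 .no .no .no (.br (.de 47) .no .no .no)) .no) .no .no) .no .no (.de 43)) .no)) .no .no) (.de 34) .no .no)) (.br (.br .no (.de 34) .no .no) .no .no .no)) .no (.br .no .no (.br (.br .no (.de 34) .no .no) .no .no (.br (.br .no (.br .no (.br .no .no (.de 42) .no) .no (.br .no (.br (.br .no (.br .no .no (.br .no .no .no (.br (.de 47) .no .no .no)) .no) .no .no) .no .no .no) (.br (.sw 1 3 [30]) (.br (.br .no (.br .no .no (.br (.br .no (.de 48) .no .no) .no .no .no) (.br (.de 47) .no .no .no)) (.br .no .no .no (.br (.de 47) .no .no .no)) .no) .no .no .no) .no .no) .no)) .no .no) (.de 34) .no .no)) .no)) .no .no (.br .no (.br .no .no (.br (.br .no (.de 34) .no .no) .no .no (.br (.br .no (.br (.br .no .no (.br (.br .no (.br .no .no (.br .no .no .no (.de 41)) .no) .no .no) .no .no (.de 43)) .no) (.br (.br .no .no .no (.br (.br .no (.br .no .no (.br (.de 48) .no .no (.sw 0 2 [15,21,28])) (.br (.de 47) .no .no .no)) (.br .no .no .no (.br (.de 47) .no .no .no)) .no) (.br .no .no (.br .no .no .no (.br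 (.de 47) .no .no .no)) .no) .no .no)) .no (.de 42) .no) .no .no) .no .no) (.de 34) .no .no)) (.br (.br .no (.de 34) .no .no) .no .no .no)) .no .no)) (.br (.br .no (.br .no .no (.br (.br .no (.br .no .no (.br .no (.br .no .no (.de 42) (.br (.br .no (.br .no .no (.br (.de 41) .no .no (.br (.de 47) .no .no .no)) (.de 45)) .no (.br .no .no (.br (.de 41) .no .no (.sy 36 45 4)) .no)) .no .no .no)) (.br .no .no .no (.br (.br .no (.br .no .no (.br (.br .no (.br .no (.br .no .no (.br .no .no .no (.de 45)) .no) .no .no) .no .no) .no .no (.br (.de 47) (.sw 0 2 [15,21,34]) .no .no)) (.de 45)) .no (.br .no .no (.br (.br .no (.br .no (.br .no .no (.de 44) .no) .no .no) .no .no) .no .no (.sy 36 45 4)) .no)) .no .no .no)) .no) .no) .no .no) .no .no (.br (.br .no (.sw 0 2 [15,21]) (.br .no (.br .no .no (.de 42) (.br (.br .no (.br .no .no (.br .no (.br (.de 48) .no .no .no) .no (.br (.de 47) .no .no .no)) .no) .no .no) .no .no .no)) (.br .no .no .no (.br (.br .no (.br .no .no (.br .no (.br (.br .no (.de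 48) .no .no) .no .no .no) .no (.br (.de 47) (.br .no (.br .no .no (.br .no .no .no (.de 45)) .no) .no .no) .no .no)) .no) .no .no) .no .no .no)) .no) .no) (.br .no .no (.br .no (.br .no .no (.de 42) (.br (.br .no (.br (.br .no .no .no (.de 46)) .no (.sw 0 3 [32]) .no) .no .no) .no .no .no)) (.br .no .no .no (.br (.br .no (.br (.br .no .no .no (.de 46)) .no (.sw 0 3 [32]) .no) .no .no) .no .no .no)) .no) .no) .no .no)) (.br (.br .no (.br .no .no (.br .no (.br .no .no (.de 42) (.br (.br .no (.sw 2 3 [31]) (.br .no .no .no (.br (.de 41) .no .no .no)) .no) .no (.de 43) .no)) (.br .no .no .no (.br (.br .no (.sw 2 3 [31]) (.br .no .no .no (.br (.de 46) .no .no .no)) .no) .no (.de 43) .no)) .no) .no) .no .no) .no .no .no)) .no (.br .no .no (.br (.br .no (.br .no .no (.br .no (.br .no .no (.de 42) .no) (.br .no (.de 42) .no .no) .no) .no) .no .no) .no .no (.sy 28 45 4)) .no)) .no .no .no))) .no) .no .no) .no .no (.br (.br .no (.br .no .no (.br .no .no (.br (.br .no (.br .no .no (.br .no .no .no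 (.br (.br .no (.br .no (.br .no .no (.de 42) (.br (.br .no (.br .no .no (.br .no .no .no (.br (.de 47) .no .no .no)) .no) .no .no) .no .no .no)) .no (.br .no .no (.br (.br .no (.br .no .no (.br .no .no .no (.br (.de 47) .no .no .no)) .no) .no .no) .no .no (.de 43)) .no)) .no (.br .no (.br .no .no (.de 42) (.br (.br .no (.br .no .no (.br .no (.br (.de 48) .no .no .no) .no .no) .no) .no .no) .no .no .no)) .no (.br .no .no (.br (.br .no (.br .no .no (.br .no (.br (.br .no (.de 48) .no .no) .no .no .no) .no .no) .no) .no .no) .no .no (.de 43)) .no))) .no .no .no)) .no) .no .no) .no .no (.br (.br .no (.br .no .no (.br (.br .no (.br (.br .no (.br .no .no (.br (.br .no (.br .no .no (.br .no .no .no (.br .no .no (.br .no .no .no (.de 44)) .no)) (.de 41)) .no (.br .no .no (.br .no .no .no (.br .no .no (.br .no .no .no (.de 44)) .no)) .no)) .no .no (.de 44)) (.sw 0 2 [23,30])) (.br .no .no .no (.de 43)) .no) (.br .no .no (.de 42) .no) .no .no) .no (.br (.br .no (.br .no .no (.br (.br .no (.br .no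 .no (.br .no (.de 48) .no .no) .no) .no (.br .no (.de 41) (.br .no (.de 48) .no .no) .no)) .no .no (.de 44)) (.sw 0 2 [23,30])) (.br .no .no .no (.de 43)) .no) (.br .no .no (.de 42) .no) .no .no)) .no .no (.br .no (.br (.br .no (.br .no .no (.br (.br .no (.br (.br .no .no .no (.de 47)) .no (.sw 0 3 [33]) .no) .no .no) .no .no (.de 44)) (.sw 0 2 [23,30])) (.br .no .no .no (.de 43)) .no) (.br .no .no (.de 42) .no) .no .no) .no .no)) (.br (.br .no (.br (.br .no (.br .no .no (.br (.br .no (.sw 2 3 [32]) (.br .no .no .no (.de 41)) .no) .no .no .no) (.sw 0 2 [23,30])) (.br .no .no .no (.de 43)) .no) (.br .no .no (.de 42) .no) .no .no) .no (.sy 32 45 4)) .no .no .no)) (.br .no .no .no (.br (.br .no (.br (.br .no (.br .no .no .no (.br (.sw 1 2 [31]) (.br .no .no (.br .no .no .no (.de 41)) .no) .no .no)) (.br .no (.br (.br .no (.br .no .no (.br .no .no .no (.br .no (.de 48) .no .no)) (.de 41)) (.br .no .no .no (.de 41)) .no) .no .no .no) .no (.de 43)) .no) (.br .no .no (.de 42) .no) .no .no) .no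 (.sy 32 45 4)) .no .no .no)) .no) (.sw 0 2 [23]) .no .no)) (.br (.br .no (.br .no .no (.br .no .no .no (.br (.br .no (.br .no (.br .no .no (.de 42) (.sw 0 2 [23,29])) (.br .no .no .no (.br (.br .no (.br .no .no (.br .no .no .no (.br (.de 47) .no .no .no)) .no) .no .no) .no .no .no)) .no) .no .no) .no .no .no)) .no) .no .no) .no .no .no)) (.br .no .no (.br (.br .no (.br .no .no (.br .no .no .no (.br (.br .no (.sw 2 3 [27]) .no .no) .no (.br .no (.sy 31 75 4) .no .no) .no)) .no) .no .no) .no .no (.br (.br .no (.br .no .no (.br (.br .no (.sw 2 3 [27]) .no .no) .no .no .no) (.br (.br .no (.sw 2 3 [27]) .no .no) .no (.br .no (.br (.br .no (.br .no .no (.br (.br .no (.br (.sw 2 3 [27,32,33]) .no .no (.de 41)) .no .no) .no .no .no) (.sw 0 2 [23,30])) (.br .no .no .no (.de 43)) .no) (.br .no .no (.de 42) .no) .no .no) .no .no) .no)) (.br .no .no .no (.br (.br .no (.sw 2 3 [27]) .no .no) .no (.br .no (.sy 31 75 4) .no .no) .no)) .no) (.sw 0 2 [23]) .no .no)) (.br (.br .no (.br .no .no (.br .no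 .no .no (.br (.br .no (.sw 2 3 [27]) (.br .no (.br .no .no (.de 42) (.sw 0 2 [23,29])) (.br .no .no .no (.br (.br .no (.br .no .no (.br .no (.br (.br .no (.de 48) .no .no) .no .no .no) .no (.br (.de 47) (.br .no (.br .no .no (.br .no .no .no (.de 45)) .no) .no .no) .no .no)) .no) .no .no) .no .no .no)) .no) .no) .no (.br .no (.sw 0 2 [15,21]) .no .no) .no)) .no) .no .no) .no .no .no))) (.br .no .no .no (.br .no .no (.br (.br .no (.br .no .no (.br .no (.br (.br .no (.sy 30 210 4) .no .no) .no .no .no) .no (.br (.sw 1 2 [26]) (.de 34) .no .no)) .no) .no .no) .no .no (.br (.br .no (.br .no .no .no (.br (.sw 1 2 [26]) (.de 34) .no .no)) (.br .no (.br (.br .no (.br (.br .no (.br .no .no .no (.br (.br .no .no (.br .no .no .no (.de 41)) (.sw 1 2 [26,31,32])) .no .no .no)) (.br .no (.br (.br .no .no (.br .no .no .no (.de 41)) (.br .no .no (.br .no .no .no (.br .no (.de 48) .no .no)) .no)) .no .no (.br .no .no (.br .no .no .no (.de 41)) .no)) .no (.de 43)) .no) (.br .no .no (.de 42) .no) .no .no)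 .no .no) .no .no .no) .no (.br (.sw 1 2 [26]) (.de 34) .no .no)) .no) (.sw 0 2 [23]) .no .no)) (.br (.br .no (.br .no .no (.br .no (.br (.br .no (.sw 0 2 [15,21]) (.br .no (.br .no .no (.de 42) (.sw 0 2 [23,29])) (.br .no .no .no (.br (.br .no .no .no (.br .no .no (.br .no (.br (.br .no (.de 48) .no .no) .no .no .no) .no (.sy 36 45 4)) .no)) .no .no .no)) .no) .no) .no .no .no) .no (.br (.sw 1 2 [26]) (.br .no .no (.br .no (.br .no .no (.de 42) (.sw 0 2 [23,29])) (.br .no .no .no (.br (.br .no (.br (.br .no .no .no (.de 46)) .no (.br (.br .no (.br .no (.br .no .no (.br .no .no .no (.de 45)) .no) .no .no) .no .no) .no .no (.sw 0 1 [33])) .no) .no .no) .no .no .no)) .no) .no) .no .no)) .no) .no .no) .no .no .no))) .no) (.br .no .no (.br .no .no .no (.br .no .no (.br (.br .no (.br (.br .no .no .no (.br (.sy 29 180 4) (.de 34) .no .no)) .no (.sw 0 3 [24]) .no) .no .no) .no .no (.br (.br .no .no (.br (.br .no (.de 34) .no .no) .no .no (.sw 0 1 [25])) .no) (.sw 0 2 [23]) .no .no)) (.br (.br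 .no (.br (.br .no .no .no (.br (.sy 29 180 4) (.br .no .no (.br .no (.br .no .no (.de 42) (.sw 0 2 [23,29])) (.br .no .no .no (.br .no .no (.de 43) .no)) .no) .no) .no .no)) .no (.sw 0 3 [24]) .no) .no .no) .no .no .no))) .no) .no .no)) .no)

theorem P6_4 : R.S 8 47492 :=
  R.piece L hL (.br .no .no .no (.br .no (.br (.br .no .no .no (.br (.br .no (.br (.br .no .no (.br .no .no .no (.br .no (.br .no .no (.br .no .no .no (.de 20)) .no) (.br .no (.br .no .no (.sy 15 75 4) (.de 20)) .no .no) .no)) .no) (.br c6_4_1 .no (.br .no .no .no (.br .no (.br .no .no (.br .no .no .no (.br (.br (.br .no c6_4_2 .no .no) .no .no (.br (.br .no .no (.br (.br .no (.br .no .no (.de 27) .no) .no .no) .no .no (.br (.br .no (.br .no .no (.br .no (.br .no .no .no (.br (.br .no (.br .no .no (.br (.de 34) .no .no (.br (.br (.br .no (.br .no .no (.br (.br .no (.br .no .no (.br .no .no .no (.br .no .no (.br .no .no .no (.de 44)) .no)) .no) .no .no) .no .no (.de 44)) (.sw 0 2 [15,22,23,30])) (.br .no .no .no (.de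 43)) .no) .no (.br .no (.de 42) .no .no) .no) .no .no .no)) (.br (.de 34) .no .no .no)) (.br .no .no .no (.br (.de 34) .no .no .no)) .no) (.sw 0 2 [15,22,23]) .no .no)) (.br .no (.br (.br .no (.br .no .no (.br (.br .no (.sy 34 210 4) .no .no) .no .no (.br (.br (.br .no .no (.br .no .no .no (.de 43)) (.br .no .no (.de 43) .no)) .no .no (.br .no .no (.br .no .no .no (.de 43)) .no)) (.sy 34 210 4) .no .no)) (.br (.br .no (.sy 34 210 4) .no .no) .no .no .no)) (.br .no .no .no (.br (.br .no (.br (.br .no .no (.br .no (.br (.br .no (.br .no .no (.br .no .no .no (.br .no (.de 48) .no .no)) (.de 41)) (.br .no .no .no (.de 41)) .no) .no .no .no) .no (.de 43)) (.br .no (.br (.br .no (.br .no .no (.br .no .no .no (.br .no (.de 48) (.de 43) .no)) (.de 41)) (.br .no .no .no (.de 41)) .no) .no .no .no) .no .no)) .no .no (.br .no .no (.br .no (.br (.br .no (.br .no .no (.br (.br .no (.de 48) .no .no) .no .no .no) (.br (.de 47) .no .no .no)) (.br .no .no .no (.br (.de 47) .no .no .no)) .no) .no .no .no)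 .no (.de 43)) .no)) .no .no) .no .no .no)) .no) .no .no .no) .no (.br (.br .no (.br .no .no (.br (.br .no (.br (.br .no (.br .no .no (.br (.br .no (.br .no .no (.br .no .no .no (.br .no .no (.br .no .no .no (.de 44)) .no)) (.de 41)) .no (.br .no .no (.br .no .no .no (.br .no .no (.br .no .no .no (.de 44)) .no)) .no)) .no .no (.de 44)) (.br (.br .no (.br .no .no (.br .no .no .no (.br .no .no (.de 43) .no)) (.de 41)) .no (.br .no .no (.br .no .no .no (.sy 37 45 4)) .no)) .no .no .no)) (.sw 1 3 [29]) .no) (.br .no .no (.de 42) .no) .no .no) .no .no) .no .no (.br (.br (.br .no (.br .no .no (.br (.br .no (.br .no .no (.br .no (.de 48) .no (.sw 1 2 [28])) .no) .no .no) .no .no (.de 44)) (.br (.br .no (.br .no .no (.br .no (.de 48) .no (.sw 1 2 [28])) .no) .no .no) .no .no .no)) (.sw 1 3 [29]) .no) (.br .no .no (.de 42) .no) .no .no) (.br (.br .no (.br .no .no (.br (.br .no (.br (.br .no .no .no (.de 47)) .no (.sw 0 3 [33]) .no) .no .no) .no .no (.de 44)) (.br (.br .no (.br (.br .no .no .no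 (.de 47)) .no (.sw 0 3 [33]) .no) .no .no) .no .no .no)) (.sw 1 3 [29]) .no) (.br .no .no (.de 42) .no) .no .no) .no .no)) (.br (.br .no (.br (.br .no (.br .no .no (.br (.br .no (.sw 2 3 [32]) (.br .no .no .no (.de 41)) .no) .no .no .no) (.br (.br .no (.sw 2 3 [32]) (.br .no .no .no (.de 41)) .no) .no (.de 44) .no)) (.sw 1 3 [29]) .no) (.br .no .no (.de 42) .no) .no .no) .no .no) .no .no .no)) (.br .no .no .no (.br (.br .no (.br (.br .no (.br .no .no .no (.br (.sw 1 2 [31]) (.br .no .no (.br .no .no .no (.de 41)) .no) .no .no)) (.sw 1 3 [29]) .no) (.br .no .no (.de 42) .no) .no .no) .no .no) .no .no .no)) .no) (.br .no .no (.br .no .no .no (.br (.br .no (.br (.br .no .no (.br (.br .no (.br .no .no (.br .no .no .no (.de 41)) .no) .no .no) .no .no (.de 43)) .no) (.br (.br .no .no .no (.br (.br .no (.br .no .no (.br (.de 48) .no .no (.sw 0 2 [15,22,23,28])) (.br (.de 47) .no .no .no)) (.br .no .no .no (.br (.de 47) .no .no .no)) .no) (.br .no .no (.br .no .no .no (.br (.de 47) .no .no .no))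 .no) .no .no)) .no (.de 42) .no) .no .no) .no .no) .no .no .no)) .no) .no .no)) .no) .no) (.de 27) .no) (.br .no .no (.de 27) .no) .no .no)) .no) (.sw 0 2 [15]) .no .no)) .no .no .no)) .no) (.br .no (.br .no .no (.sy 15 75 4) (.br (.br (.br .no (.br (.br .no .no .no (.br (.sw 1 2 [17,18]) .no (.br .no (.br .no .no (.br .no .no (.br .no .no .no (.br .no (.br (.br .no .no .no (.br (.br .no (.br (.br .no .no (.br .no .no .no (.de 43)) .no) (.br (.br .no .no (.br .no (.br .no .no (.br .no .no .no (.br (.de 47) .no .no .no)) .no) .no .no) (.br .no (.sw 0 2 [25,31]) (.de 44) .no)) .no (.de 42) .no) .no .no) .no (.sy 31 120 3)) .no .no .no)) .no .no .no) (.br (.br .no .no .no (.br (.br .no (.br (.br .no (.br .no .no .no (.br .no (.br .no .no (.br .no .no .no (.de 41)) .no) (.de 44) .no)) .no .no) (.br (.br .no (.br .no .no (.br .no (.sy 35 225 4) .no .no) .no) .no (.sw 1 2 [30])) .no .no .no) .no .no) .no (.sy 31 120 3)) .no .no .no)) (.br (.br .no .no .no (.br .no (.br (.br .no (.br (.br .no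 .no (.br .no (.br (.sy 35 228 5) .no (.sy 25 198 15) .no) .no .no) (.br .no (.de 45) (.sy 25 198 14) .no)) .no .no (.br .no .no (.de 44) .no)) .no .no) (.br (.br .no .no .no (.br .no .no (.de 44) .no)) .no .no .no) .no .no) .no .no)) .no .no (.sw 0 2 [25])) .no .no) .no)) (.br .no .no (.br .no (.br (.br .no .no .no (.br (.br .no (.br (.br .no .no .no (.br .no .no (.de 43) .no)) (.br (.br .no .no (.br .no (.br .no .no (.br .no .no .no (.br (.de 47) .no (.sy 37 135 4) .no)) .no) .no .no) (.br .no (.sw 0 2 [25,31]) (.de 44) .no)) .no .no (.br .no .no (.de 43) .no)) .no .no) .no .no) .no .no .no)) .no .no .no) .no .no) .no)) (.br .no .no (.br .no .no .no (.br .no (.br (.br .no .no .no (.br (.sw 1 2 [17,18,25,26]) .no (.br .no (.br (.br .no .no (.br .no .no .no (.de 43)) .no) (.br (.br .no .no (.br .no (.br (.br .no .no .no (.de 46)) .no .no .no) .no .no) (.br .no (.sw 0 2 [25,31]) (.de 44) .no)) .no (.de 42) .no) .no .no) .no .no) .no)) .no .no .no) (.br (.br .no .no .no (.br (.sw 1 2 [17,18,25,26])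 .no (.sy 28 78 5) .no)) (.br (.br .no .no (.br .no (.sy 33 135 4) .no .no) .no) .no .no (.sw 0 2 [25])) .no .no) .no)) (.br .no .no (.br .no (.br (.br .no .no .no (.br (.sw 1 2 [17,18,25,26]) .no (.br .no (.sw 0 2 [15,21]) .no .no) .no)) .no .no .no) .no .no) .no))) .no .no) .no)) .no .no .no) .no .no) .no .no (.br (.br .no (.br (.br .no .no (.br .no (.br .no .no (.br .no (.br .no .no (.br .no .no .no (.br .no (.br (.sw 2 3 [19,25]) .no .no (.br (.de 34) .no .no .no)) .no .no)) (.sw 0 2 [15,22])) (.br .no .no .no (.br .no .no (.br .no (.br (.sw 2 3 [19,25]) .no .no (.br (.br .no (.br (.br .no (.br (.br .no .no (.br .no (.br .no .no (.sw 0 3 [32,33]) (.de 41)) .no .no) .no) .no .no (.br (.br .no (.sw 2 3 [19,25,32]) (.br .no .no .no (.de 41)) .no) .no (.de 44) .no)) .no .no) (.br (.br .no .no .no (.br (.br .no (.sw 2 3 [19,25,32]) (.br .no .no .no (.br (.de 47) .no .no .no)) .no) .no (.de 44) .no)) .no .no .no) .no .no) .no .no) .no .no .no)) .no (.sy 28 78 3)) .no)) .no) .no) .no .no)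 .no) .no .no (.br (.br .no (.sw 2 3 [19]) (.de 27) .no) .no (.br .no (.br .no .no (.br .no (.br .no .no (.br (.br .no (.br (.br .no .no .no (.br (.sy 30 180 4) .no .no .no)) .no .no (.sw 0 2 [25])) .no .no) .no .no .no) (.sw 0 2 [15,22])) (.br .no .no .no (.br (.br .no (.br (.br .no .no .no (.br (.sy 30 180 4) (.br (.br .no (.br .no .no (.br .no .no .no (.de 44)) (.br .no .no (.de 44) .no)) (.br .no .no .no (.de 43)) .no) (.br .no .no (.de 42) .no) .no .no) .no .no)) .no .no (.sw 0 2 [25])) .no .no) .no (.br (.br .no .no .no (.br (.br .no (.br (.br .no (.br .no .no .no (.br .no (.sw 0 2 [25,30,31]) (.de 44) .no)) .no .no) (.br (.br .no (.br .no .no (.br .no (.sy 35 225 4) .no .no) .no) .no (.br .no (.br .no .no (.br .no .no .no (.br (.de 47) .no .no .no)) .no) (.de 44) .no)) .no .no .no) .no .no) .no .no) .no .no .no)) (.sw 0 3 [24]) .no .no) .no)) .no) .no) .no .no) .no)) .no .no) (.sw 0 2 [15]) .no .no)) .no .no .no)) .no .no) .no)) .no) .no .no) .no .no) (.de 13) .no .no)) .no .no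 (.br (.br .no (.de 13) .no .no) .no .no .no)) .no .no)) 8 47492 65536 (by norm_num) (by norm_num) (by norm_num) (by decide +kernel)

end T7
end Pool.Agent.H411R2.WSK
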