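import Pool.Agent.H411R2.WSK.T7

set_option maxRecDepth 100000
set_option linter.all false

namespace Pool.Agent.H411R2.WSK

namespace T7

def c7_0_0 : Cert := (.br .no .no (.br (.sw 2 3 [7,8]) .no .no .no) (.br (.sw 2 3 [7,8]) .no (.br .no .no (.br .no (.br (.br .no .no .no (.br (.sw 1 2 [17,18]) .no (.br (.br .no .no .no (.br (.br .no .no (.br .no (.br (.br .no (.br .no .no (.br .no (.sy 30 225 4) .no .no) .no) .no (.sw 1 2 [17,18,25])) .no .no .no) .no .no) (.br .no (.br (.br .no (.br .no .no (.br .no (.sy 30 225 4) .no .no) .no) .no (.sw 1 2 [17,18,25])) .no .no .no) (.br (.br .no (.br .no .no (.br .no (.br .no (.br (.br .no (.br .no .no (.br (.br .no .no .no (.de 46)) .no .no (.br (.de 46) .no .no .no)) (.br (.br .no .no .no (.de 46)) .no .no .no)) .no (.sw 1 2 [30])) .no .no .no) (.br (.br .no (.br .no .no (.br (.br .no .no .no (.de 41)) .no .no (.br (.de 46) .no .no .no)) (.br (.br .no .no .no (.de 41)) .no .no .no)) .no (.sw 1 2 [30])) (.de 42) .no .no) .no) .no .no) .no)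 .no (.sw 1 2 [17,18,25])) (.br .no .no .no (.br .no (.de 34) (.br .no (.br .no (.br (.br .no .no .no (.br (.sw 1 2 [17,18,25,30,31]) .no (.de 44) .no)) .no .no .no) (.br (.br .no .no .no (.br (.sw 1 2 [17,18,25,30,31]) .no (.de 44) .no)) (.de 42) .no .no) .no) .no .no) .no)) .no .no) .no)) .no .no (.br .no .no (.br .no (.br (.br .no (.br .no .no (.br (.br (.br .no .no .no (.br .no .no (.de 43) .no)) (.br (.br .no .no (.br .no .no .no (.de 44)) (.br .no .no (.de 44) .no)) .no .no (.br .no .no (.de 43) .no)) .no .no) (.sy 30 225 4) .no .no) .no) .no (.sw 1 2 [17,18,25])) .no .no .no) .no .no) .no))) (.br (.br (.br .no .no (.br .no (.br (.br .no .no .no (.br .no .no (.br .no (.br .no (.br (.br .no .no (.br .no (.br (.br .no .no .no (.de 46)) .no .no .no) .no .no) (.br .no (.sw 0 2 [25,31]) (.de 44) .no)) .no .no (.br .no .no (.de 43) .no)) .no (.br (.br .no .no (.br .no (.br (.br .no .no .no (.de 46)) .no .no .no) .no .no) (.br .no (.sw 0 2 [25,31]) (.de 44) .no)) .no .no .no)) .no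 (.br .no (.br (.br .no .no (.br .no (.br (.br .no (.br .no .no (.sy 38 225 4) .no) .no .no) .no .no .no) .no .no) (.br .no (.sw 0 2 [25,31]) (.de 44) .no)) .no .no (.br .no .no (.de 43) .no)) .no (.br (.br .no .no (.br .no (.br (.br .no (.br .no .no (.br .no (.br .no .no .no (.de 44)) (.br .no .no .no (.de 44)) .no) .no) .no .no) .no .no .no) .no .no) (.br .no (.sw 0 2 [25,31]) (.de 44) .no)) .no .no .no))) .no)) .no .no .no) .no .no) (.br .no (.br (.br .no .no .no (.br .no .no (.br .no (.br .no (.br (.sw 2 3 [29]) .no (.de 42) .no) (.br (.br .no .no (.br .no (.br (.br .no .no .no (.de 41)) .no .no .no) .no .no) (.br .no (.sw 0 2 [25,31]) (.de 44) .no)) .no .no .no) .no) .no (.sy 32 30 4)) .no)) .no .no .no) (.br (.br .no .no .no (.br .no .no (.br .no (.br .no (.br (.br .no (.br .no .no (.br (.br .no .no .no (.de 46)) (.sy 35 225 4) .no .no) .no) .no (.sw 1 2 [30])) .no .no .no) (.br (.br .no (.br .no .no (.br (.br .no .no .no (.de 41)) (.br (.br .no .no .no (.de 47)) .no .no (.de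 41)) .no .no) .no) .no (.sw 1 2 [30])) (.de 42) .no .no) .no) .no (.sy 32 30 4)) .no)) (.br (.br .no .no (.br .no (.br .no (.br (.br .no .no .no (.br .no .no (.de 44) .no)) .no .no .no) (.br (.br .no .no .no (.br .no .no (.de 44) .no)) (.de 42) .no .no) .no) .no (.br .no (.br (.br .no .no .no (.br .no .no (.de 44) .no)) .no .no .no) (.br (.br .no .no .no (.br .no .no (.de 44) .no)) (.de 42) .no .no) .no)) (.br .no (.br .no (.br (.br .no .no .no (.br .no .no (.de 44) .no)) .no .no .no) (.br (.br .no .no .no (.br .no .no (.de 44) .no)) (.de 42) .no .no) .no) .no .no)) .no .no (.sw 0 2 [25])) .no .no) .no)) .no .no (.br .no .no (.br .no (.br (.br .no .no .no (.br .no .no (.br .no (.br (.br .no .no .no (.br .no .no (.de 43) .no)) (.br (.br .no .no (.br .no (.br (.br .no .no .no (.de 46)) .no .no .no) .no .no) (.br .no (.sw 0 2 [25,31]) (.de 44) .no)) .no .no (.br .no .no (.de 43) .no)) .no .no) .no .no) .no)) .no .no .no) .no .no) .no)) .no .no (.sw 0 2 [20])) .no .no) .no)) .no .no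 .no) .no .no) (.br .no (.br (.br .no .no .no (.br (.sw 1 2 [17,18]) .no (.br (.de 27) (.br (.br (.br .no .no (.br .no (.br (.br .no .no .no (.br .no .no (.br .no (.sw 2 3 [21]) .no .no) .no)) .no .no .no) .no .no) (.br .no (.br (.br .no .no .no (.br .no .no (.br .no (.sw 2 3 [21]) .no .no) .no)) .no .no .no) (.br (.br .no .no .no (.br .no .no (.br .no (.sw 2 3 [21]) .no .no) .no)) (.br (.br .no .no (.br .no (.sw 2 3 [21]) .no .no) (.br .no (.sw 2 3 [21]) (.br .no (.br (.br .no .no .no (.br .no .no (.de 44) .no)) .no .no .no) (.br (.br .no .no .no (.br .no .no (.de 44) .no)) (.de 42) .no .no) .no) .no)) .no .no (.sw 0 2 [25])) .no .no) .no)) .no (.br .no .no .no (.br .no (.br (.br .no .no .no (.br .no .no (.br .no (.br (.br .no .no (.br .no .no .no (.de 43)) .no) (.br (.br .no .no (.br .no (.br (.br .no .no .no (.de 46)) .no .no .no) .no .no) (.br .no (.sw 0 2 [25,31]) (.de 44) .no)) .no (.de 42) .no) .no .no) .no .no) .no)) .no .no .no) (.br (.br .no .no .no (.br .no .no (.sy 28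 78 5) .no)) (.br (.br .no .no (.br .no (.sy 33 135 4) .no .no) (.br .no (.sw 0 2 [20,27]) .no .no)) .no .no (.sw 0 2 [25])) .no .no) .no)) .no) .no .no .no) .no .no) .no)) .no .no .no) (.br (.br .no .no .no (.br (.sw 1 2 [17,18]) .no (.br (.de 27) (.br (.br (.br .no (.br .no .no (.br (.br .no .no .no (.br .no .no (.br .no (.br .no .no (.br (.br .no (.br .no .no (.br (.br .no .no .no (.de 41)) (.br (.br .no .no .no (.de 47)) .no .no (.de 41)) .no .no) .no) .no (.br .no (.br (.br .no .no .no (.de 41)) .no .no .no) (.de 44) .no)) .no .no (.br .no (.br .no .no (.br (.br .no .no .no (.de 41)) (.br (.br .no .no .no (.de 47)) .no .no (.de 41)) .no .no) .no) .no .no)) (.br (.br .no (.br .no .no (.br (.br .no .no .no (.de 46)) (.br (.br .no .no (.br .no (.br .no .no (.br .no .no .no (.de 45)) (.de 44)) (.br .no .no .no (.de 44)) .no) .no) .no .no (.sw 0 2 [20,27,33])) .no .no) .no) .no (.sw 1 2 [22,29,30])) .no .no .no)) .no .no) .no)) (.br (.br .no .no (.br .no (.sy 34 225 4) .no .no) (.br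 .no (.sw 0 2 [20,27]) (.br .no .no (.br (.br .no .no .no (.br .no .no (.de 44) .no)) .no .no (.br (.br .no .no (.br .no (.br (.br .no (.br .no (.br .no .no (.br .no .no .no (.de 45)) .no) .no .no) .no (.de 47)) .no .no .no) .no .no) (.br .no (.de 45) (.br (.br .no (.br .no (.br .no .no (.de 44) .no) .no .no) .no (.de 47)) (.br .no .no .no (.sy 41 30 4)) .no .no) .no)) .no .no .no)) (.br (.br .no .no .no (.br .no .no (.de 44) .no)) .no .no .no)) .no)) .no .no (.sw 0 2 [25])) .no .no) .no) .no (.sw 1 2 [22])) (.br .no .no .no (.br .no (.br (.br .no .no .no (.br .no .no (.de 34) .no)) .no .no .no) (.br (.br .no .no .no (.br .no .no (.de 34) .no)) (.br (.br .no .no (.de 34) (.br .no .no (.br (.br .no (.br (.br .no .no (.br .no (.br (.sy 35 228 5) .no .no .no) .no .no) (.br .no (.de 45) (.br (.br .no .no .no (.de 47)) (.br .no .no .no (.sw 0 2 [20,27,34])) .no .no) .no)) .no .no (.br .no .no (.de 44) .no)) .no .no) .no (.br (.br .no .no .no (.br .no .no (.de 44) .no)) (.de 42) .no .no)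 .no) .no)) .no .no (.sw 0 2 [25])) .no .no) .no)) .no .no) .no .no .no) .no .no) .no)) (.br (.br .no .no (.br (.de 27) (.br (.br (.br .no .no .no (.br .no .no (.br .no (.br (.sw 2 3 [7,8,19,20,25]) .no .no (.br .no .no (.br .no (.br .no (.br (.br .no .no .no (.br (.br .no (.br (.sw 2 3 [7,8,19,20,25,32,33]) .no .no (.sw 0 2 [20,27,33])) .no .no) .no (.de 44) .no)) .no .no .no) (.br (.br .no .no .no (.br (.br .no (.br (.sw 2 3 [7,8,19,20,25,32,33]) .no .no (.de 41)) .no .no) .no (.de 44) .no)) (.de 42) .no .no) .no) .no .no) .no)) .no (.br (.br .no .no (.br .no (.br .no (.br (.br .no (.br .no .no (.br .no (.sy 35 225 4) .no (.br (.de 46) .no .no .no)) .no) .no .no) .no .no .no) (.br (.br .no (.br .no .no (.br .no (.br (.br .no .no .no (.de 47)) .no .no (.de 41)) .no (.br (.de 46) .no .no .no)) .no) .no .no) (.de 42) .no .no) .no) .no .no) (.sy 29 30 4)) .no .no .no)) .no)) (.br (.br .no .no (.br .no (.br (.sw 2 3 [7,8,19,20,25]) .no .no (.br .no .no (.de 34) .no)) .no (.br (.br .no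 .no (.de 34) (.br .no .no (.br .no .no (.br .no (.de 42) .no (.br (.br .no (.br .no .no (.br (.br .no .no .no (.de 47)) (.br (.br .no (.de 48) .no .no) .no .no (.sw 0 2 [20,27,34])) .no .no) .no) (.sw 1 3 [31]) .no) (.br .no .no (.br .no (.br (.br .no .no .no (.de 47)) .no .no .no) .no .no) .no) .no .no)) (.br .no (.br (.br .no (.sw 2 3 [7,8,19,20,25,30,31]) (.sw 1 3 [31]) .no) .no .no .no) .no .no)) .no)) .no .no .no)) (.br .no (.br (.sw 2 3 [7,8,19,20,25]) .no .no (.br .no .no (.de 34) .no)) .no .no)) .no .no (.br .no .no (.br .no (.br (.sw 2 3 [7,8,19,20,25]) .no .no (.br .no .no (.de 34) .no)) .no (.br (.br .no .no (.de 34) (.sy 29 30 4)) .no .no .no)) .no)) .no .no) .no .no .no) .no .no) .no) .no .no (.br (.br .no (.br (.sw 2 3 [7,8,19,20]) .no .no .no) .no .no) .no (.br (.de 27) (.br (.br (.br .no .no .no (.br (.br .no (.br (.sy 28 120 4) .no .no (.sw 0 2 [25])) .no .no) .no (.sw 0 1 [23]) .no)) (.br (.br .no .no (.br (.br .no .no .no (.br .no .no (.de 34) .no)) (.sw 0 3 [24])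 .no .no) .no) .no .no (.br (.br .no (.br (.br .no .no (.de 34) (.br .no .no (.br (.br .no (.br .no .no (.br .no .no .no (.de 44)) (.br .no .no (.de 44) .no)) (.br .no .no .no (.de 43)) .no) .no (.br .no (.de 42) .no .no) .no) .no)) .no .no (.sw 0 2 [25])) .no .no) .no (.sw 0 1 [23]) .no)) .no .no) .no .no .no) .no .no) .no)) .no .no) .no)) .no))

def c7_0_1 : Cert := (.br .no (.br (.br .no .no .no (.br .no .no (.br .no (.br .no .no (.br .no .no .no (.br .no .no (.sy 16 135 4) .no)) .no) .no .no) .no)) (.br (.br .no .no (.br .no (.br .no .no (.br .no .no .no (.br (.sw 2 3 [7,8]) .no (.sy 16 135 4) .no)) .no) .no .no) (.br .no (.br .no .no (.br .no .no .no (.br (.sw 2 3 [7,8]) .no (.br .no .no (.br .no (.br (.sw 2 3 [16]) .no (.br (.br .no (.br (.br .no .no .no (.br (.sy 21 198 7) .no .no (.br (.br .no (.sw 2 3 [16,23]) .no (.br .no .no (.br .no .no .no (.sy 28 45 4)) .no)) .no .no .no))) .no .no .no) .no .no) .no .no (.br (.br .no (.br (.br (.br .no .no .no (.br (.br .no (.br .no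 .no (.sy 25 228 7) (.br .no .no (.br .no (.br .no (.br .no .no (.de 42) .no) (.br .no (.de 42) .no .no) .no) .no (.sy 34 57 3)) .no)) (.br .no .no .no (.br .no .no (.br .no (.br .no (.br .no .no (.de 42) .no) (.sy 28 108 7) .no) .no (.sy 31 78 3)) .no)) .no) (.sw 0 2 [23]) .no .no)) .no .no (.br (.br .no (.br .no .no (.br .no .no .no (.br .no .no (.br .no (.br .no (.br .no .no (.de 42) (.sw 0 2 [23,29])) (.br .no .no .no (.br (.br .no (.br (.br .no .no .no (.de 46)) .no .no .no) .no .no) .no .no .no)) .no) .no .no) .no)) .no) .no .no) .no .no .no)) .no .no (.sw 0 2 [20])) .no .no) (.br (.br .no .no .no (.br (.br .no .no .no (.br (.br .no .no (.br .no .no .no (.br .no (.de 34) (.sw 0 1 [25,26]) .no)) .no) (.sw 0 2 [23]) .no .no)) .no .no (.br (.br .no (.br (.br .no .no (.br .no (.br (.sy 34 120 4) .no .no .no) .no .no) (.br .no (.sw 0 2 [20,26]) (.br (.sy 34 120 4) (.br .no (.br .no .no (.de 42) (.sw 0 2 [23,29])) (.br .no .no .no (.br .no .no (.de 43) .no)) .no) .no .no) .no)) .no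 (.sw 0 3 [24]) .no) .no .no) .no .no .no))) .no .no .no) .no .no)) .no) .no .no) (.br .no (.br (.sw 2 3 [16]) .no (.br (.br .no (.br (.de 27) .no .no .no) .no .no) .no .no (.br (.br .no (.br (.br (.br .no .no .no (.br (.br .no (.br .no .no (.br .no .no .no (.br .no (.sw 2 3 [21]) (.br .no (.br .no .no (.de 42) .no) (.br .no (.de 42) .no .no) .no) .no)) (.br .no .no (.br .no (.sw 2 3 [21]) .no .no) .no)) (.br .no .no .no (.br .no .no (.br .no (.sw 2 3 [21]) .no .no) .no)) .no) (.sw 0 2 [23]) .no .no)) .no (.br (.br .no (.br .no .no (.br .no .no .no (.br .no .no (.br .no (.sy 31 75 4) .no .no) .no)) .no) .no .no) .no .no (.br (.br .no (.br .no .no (.br .no .no .no (.br .no (.sw 0 2 [20,27]) .no .no)) (.br .no .no (.br .no (.br (.br .no (.br .no .no (.br (.br .no (.br (.sw 2 3 [32,33]) .no .no (.de 41)) .no .no) .no .no .no) (.sw 0 2 [23,30])) (.br .no .no .no (.de 43)) .no) (.br .no .no (.de 42) .no) .no .no) .no .no) .no)) (.br .no .no .no (.br .no .no (.br .no (.sy 31 75 4) .no .no)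 .no)) .no) (.sw 0 2 [23]) .no .no)) .no) .no .no .no) .no .no) (.br (.de 27) .no .no .no) .no .no)) .no) (.br (.br .no .no .no (.br (.br .no (.br (.sy 23 120 4) .no .no .no) .no .no) (.br (.de 27) .no .no .no) .no .no)) .no .no .no) .no)) .no)) .no) (.br .no c7_0_0 .no .no) .no)) .no .no (.br .no .no (.br .no (.br .no .no (.br .no .no .no (.br (.br (.br .no (.br (.sw 2 3 [7,8,15,16]) .no .no (.br (.br .no (.br .no .no (.br .no .no .no (.br .no .no (.br (.br .no (.sw 2 3 [7,8,15,16,23]) (.br .no .no .no (.br (.br .no (.de 34) .no .no) .no .no .no)) .no) .no .no .no) (.br (.br .no (.sw 2 3 [7,8,15,16,23]) (.br .no .no .no (.br (.br .no (.br .no .no (.br .no (.br .no .no .no (.br (.sw 1 2 [30]) (.br .no .no (.br .no .no .no (.br (.de 41) .no .no .no)) .no) .no .no)) (.br .no (.de 42) .no (.br (.sw 1 2 [30]) (.br .no .no (.br .no .no .no (.br (.de 46) .no .no .no)) .no) .no .no)) .no) .no) .no .no) .no .no .no)) .no) .no (.br .no (.br .no .no (.sw 0 3 [23,24]) (.br (.br .no (.br .no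 .no (.br (.br .no .no .no (.br (.br .no (.sw 2 3 [31]) (.br .no .no .no (.br (.de 46) .no .no .no)) .no) .no (.de 43) .no)) (.br (.br .no .no (.br .no (.br .no .no (.sw 0 3 [23,24,31,32]) (.de 45)) .no .no) .no) .no .no (.sw 0 2 [29])) .no .no) .no) .no .no) .no .no .no)) .no .no) .no))) .no) .no .no) .no .no .no)) .no .no) .no (.br (.br .no .no .no (.br (.br .no (.br .no .no (.br .no .no .no (.br .no (.br .no .no (.br .no (.br .no .no (.sw 0 3 [15,22,23,24]) (.br (.br .no (.br (.sy 32 228 3) .no .no .no) .no .no) .no .no .no)) .no .no) .no) .no (.br .no (.br .no .no (.br .no .no .no (.br (.br .no (.br (.br (.br .no .no .no (.br (.br .no (.br .no .no (.br .no .no .no (.br .no (.de 48) (.br .no (.de 48) (.de 43) .no) .no)) (.de 45)) (.br .no .no .no (.br .no .no (.br .no (.de 48) .no .no) .no)) .no) (.br .no .no (.br .no .no .no (.br .no .no (.br .no (.de 48) .no .no) .no)) .no) .no .no)) .no (.br (.br .no (.br .no .no (.br .no .no .no (.br .no .no (.br .no (.sy 38 75 4) .no .no)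 .no)) .no) .no .no) .no .no (.br (.br .no (.br .no .no (.br .no .no .no (.br .no (.br .no (.br .no .no (.br .no .no .no (.de 45)) .no) .no .no) .no .no)) (.de 45)) (.br .no .no .no (.br .no .no (.br .no (.sy 38 75 4) .no .no) .no)) .no) (.br .no .no (.br .no .no .no (.br .no .no (.br .no (.sy 38 75 4) .no .no) .no)) .no) .no .no)) .no) .no .no .no) .no .no) .no .no .no)) .no) (.br .no (.br .no .no (.br (.br .no (.br (.br (.br .no .no .no (.br (.br .no (.br .no .no (.br .no .no .no (.br .no (.de 48) (.sw 1 3 [28]) .no)) (.de 45)) .no (.sy 35 120 3)) .no .no .no)) (.br (.sy 29 198 7) .no .no (.br (.br .no (.br .no .no (.br .no .no .no (.br .no .no (.br .no .no (.de 43) .no) .no)) (.de 45)) .no (.br .no .no (.br .no .no .no (.sy 36 45 4)) .no)) .no .no .no)) .no .no) .no .no .no) .no .no) .no .no (.br (.sy 26 78 7) (.br (.br (.br .no .no .no (.br (.br .no (.br (.sy 35 120 4) .no (.sw 0 3 [32]) .no) .no .no) .no .no .no)) (.br (.br .no .no .no (.br (.br .no .no (.br .no .no .no (.br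 .no .no (.sw 0 1 [33,34]) .no)) .no) (.br (.br .no .no (.de 41) (.de 46)) .no (.sw 0 3 [32]) .no) .no .no)) .no .no (.br (.br .no (.br (.br .no .no (.de 41) (.de 46)) .no (.sw 0 3 [32]) .no) .no .no) .no .no .no)) .no .no) .no .no .no) .no .no)) (.br (.br .no (.br (.br (.br .no .no .no (.br (.sw 1 2 [29,30]) .no (.de 43) .no)) (.br (.br .no .no (.br .no (.br .no .no (.br .no .no .no (.br .no .no (.sy 37 135 4) .no)) (.de 45)) .no .no) .no) .no .no (.br (.br .no (.sw 2 3 [31]) (.br .no .no .no (.br .no .no (.de 41) .no)) .no) .no (.de 43) .no)) .no .no) .no .no .no) .no .no) .no .no .no)) .no .no) .no))) .no) .no .no) .no .no .no)) (.sw 0 3 [15]) .no .no) .no) .no (.sy 16 135 4) .no)) .no) .no .no) .no)) .no .no) (.br (.br .no .no .no (.br .no .no (.br .no (.br .no .no (.br .no (.de 20) .no (.br .no (.br .no (.br (.br .no .no .no (.br (.br .no (.br (.sy 22 120 4) .no (.br .no .no .no (.br .no .no (.br .no (.br .no .no (.br .no .no .no (.br (.br .no (.br (.br (.br .no .no .no (.br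 (.br .no (.br .no .no (.sy 32 228 7) (.de 45)) (.br .no .no .no (.br .no .no (.br .no (.de 48) .no (.sy 38 78 3)) .no)) .no) (.br .no .no (.br .no .no .no (.br .no .no (.br .no (.de 48) .no (.sy 38 78 3)) .no)) .no) .no .no)) .no .no (.br (.br .no (.br .no .no (.br .no .no .no (.br .no .no (.br .no (.br .no (.br .no .no (.br .no .no .no (.br .no (.sw 0 2 [26,32,38]) .no .no)) (.de 44)) (.br .no .no .no (.de 44)) .no) .no .no) .no)) .no) .no .no) .no .no .no)) .no .no .no) .no .no) .no .no .no)) .no) .no .no) (.br .no (.br .no .no (.br .no .no .no (.br (.br .no (.br (.br (.br .no .no .no (.br (.br .no (.br .no .no (.br .no .no .no (.br .no (.de 48) (.br .no (.de 48) (.de 43) .no) .no)) (.de 45)) (.br .no .no .no (.br .no .no (.br .no (.de 48) .no .no) .no)) .no) (.br .no .no (.br .no .no .no (.br .no .no (.br .no (.de 48) .no .no) .no)) .no) .no .no)) .no (.br (.br .no (.br .no .no (.br .no .no .no (.br .no .no (.br .no (.sy 38 75 4) .no .no) .no)) .no) .no .no) .no .no (.br (.br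 .no (.br .no .no (.br .no .no .no (.br .no (.br .no (.br .no .no (.br .no .no .no (.de 45)) .no) .no .no) .no .no)) (.de 45)) (.br .no .no .no (.br .no .no (.br .no (.sy 38 75 4) .no .no) .no)) .no) (.br .no .no (.br .no .no .no (.br .no .no (.br .no (.sy 38 75 4) .no .no) .no)) .no) .no .no)) .no) .no (.br (.br .no .no .no (.br (.br .no (.br .no .no (.br (.br .no (.de 48) .no .no) .no .no (.br .no (.de 48) .no .no)) (.de 45)) (.br .no .no .no (.br (.de 46) .no .no .no)) .no) (.br .no .no (.br .no .no .no (.br (.de 46) .no .no .no)) .no) .no .no)) .no (.br (.br .no (.br .no .no (.br .no .no .no (.br (.de 46) .no .no .no)) .no) .no .no) .no .no (.br (.br .no (.br .no .no (.br (.br .no (.br .no (.br .no .no (.br .no .no .no (.de 45)) .no) .no .no) .no .no) .no .no (.br (.de 47) (.sw 0 2 [34]) .no .no)) (.de 45)) (.br .no .no .no (.br (.de 46) .no .no .no)) .no) (.br .no .no (.br .no .no .no (.br (.de 46) .no .no .no)) .no) .no .no)) .no) .no) .no .no) .no .no .no)) .no) (.br .no (.br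 .no .no (.br (.br .no (.br (.br (.br .no .no .no (.br (.br .no (.br .no .no (.br .no .no .no (.br .no (.de 48) (.br .no (.de 48) (.de 43) .no) .no)) (.de 45)) .no (.sy 35 120 3)) .no .no .no)) (.br (.sy 29 198 7) .no .no (.br (.br .no (.br .no .no (.br .no .no .no (.br .no .no (.sy 29 198 13) .no)) (.de 45)) .no (.br .no .no (.br .no .no .no (.sy 36 45 4)) .no)) .no .no .no)) .no .no) .no (.sy 34 75 4) .no) .no .no) .no .no (.br (.br .no .no (.sy 34 75 4) .no) (.sw 0 2 [26]) .no .no)) (.br (.br .no (.br (.br (.br .no .no .no (.br (.sw 1 2 [29,30]) .no (.de 43) .no)) (.br (.br .no .no (.br .no (.br .no .no (.br .no .no .no (.br .no .no (.sy 37 135 4) .no)) (.de 45)) .no .no) .no) .no .no (.br (.br .no (.sw 2 3 [31]) (.br .no .no .no (.br .no .no (.de 41) .no)) .no) .no (.de 43) .no)) .no .no) .no (.br (.br .no .no .no (.br (.sw 1 2 [29,30]) .no (.de 43) .no)) (.br (.br .no .no (.br .no (.br .no .no (.br (.de 41) .no .no (.br (.de 47) .no .no .no)) (.de 45)) .no .no) .no) .no .no (.br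 (.br .no (.sw 2 3 [31]) (.br .no .no .no (.br (.de 41) .no .no .no)) .no) .no (.de 43) .no)) .no .no) .no) .no .no) .no .no .no)) .no .no) .no))) .no) .no .no) .no .no .no)) .no .no .no) (.br (.br .no .no .no (.br (.br .no (.br (.sy 22 120 4) .no (.br .no .no .no (.br .no (.br .no .no (.br .no (.br .no .no (.sy 28 210 3) (.br (.br .no (.br (.sy 32 228 3) .no .no .no) .no .no) .no .no .no)) .no .no) .no) .no (.br .no (.br .no .no (.br .no .no .no (.br (.br .no (.br (.sw 1 2 [21]) .no .no .no) .no .no) .no .no .no)) .no) (.br .no (.br .no .no (.br (.br .no (.br (.sw 1 2 [21]) .no .no .no) .no .no) .no .no (.br (.sy 26 78 7) (.sw 0 2 [26]) .no .no)) (.br (.br .no (.br (.sw 1 2 [21]) .no .no .no) .no .no) .no .no .no)) .no .no) .no))) .no) .no .no) .no .no .no)) (.br (.br .no .no .no (.br (.br .no .no (.br .no .no .no (.br (.br .no .no (.br .no (.br .no .no (.br .no (.sy 29 198 3) .no (.br (.sw 1 2 [13,20,26]) (.de 34) .no .no)) .no) .no .no) (.br .no (.br .no .no (.br .no (.br (.br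 .no (.sy 32 225 3) .no .no) .no .no .no) .no (.br (.sw 1 2 [13,20,26]) (.de 34) .no .no)) .no) (.sy 23 108 7) .no)) .no .no (.br .no .no (.br .no (.br .no .no (.br .no (.sy 29 198 3) .no (.br (.sw 1 2 [13,20,26]) (.br (.br (.br .no .no .no (.br (.br .no (.br (.sy 35 120 4) .no (.br .no .no .no (.br .no (.de 48) (.sw 0 1 [33,34]) .no)) .no) .no .no) .no .no .no)) (.br (.br .no .no .no (.br (.br .no .no (.br .no .no .no (.br .no .no (.sw 0 1 [33,34]) .no)) .no) (.br (.br .no .no (.de 41) (.de 46)) .no (.br .no .no .no (.br .no .no (.sw 0 1 [33,34]) .no)) .no) .no .no)) .no .no (.br (.br .no (.br (.br .no .no (.de 41) (.de 46)) .no (.br .no .no .no (.br .no .no (.sw 0 1 [33,34]) .no)) .no) .no .no) .no .no .no)) .no .no) .no .no .no) .no .no)) .no) .no .no) .no))) .no) (.br (.br .no .no .no (.sw 1 2 [13,20])) .no (.br .no .no .no (.br (.br .no .no (.br .no (.br (.br .no .no .no (.br (.br .no (.sy 31 120 4) .no .no) (.de 34) .no .no)) .no (.br (.br .no (.de 34) .no .no) .no .no (.sw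 0 1 [25])) .no) .no .no) (.br .no (.br (.br .no .no .no (.br (.br .no (.sy 31 120 4) .no .no) (.de 34) .no .no)) .no (.br (.br .no (.de 34) .no .no) .no .no (.sw 0 1 [25])) .no) (.br (.br .no .no .no (.br (.br .no (.sy 31 120 4) .no .no) (.de 34) .no .no)) .no .no .no) .no)) .no .no (.br .no .no (.br .no (.br (.br .no .no .no (.br (.br .no (.br (.br .no .no .no (.br .no .no (.de 43) .no)) (.br (.br .no .no (.br .no (.br .no .no (.br .no .no .no (.br (.de 47) .no (.sw 0 3 [28]) .no)) .no) .no .no) (.br .no (.br .no .no (.br .no .no .no (.br (.de 47) .no (.sw 0 3 [28]) .no)) .no) (.de 44) .no)) .no .no (.br .no .no (.de 43) .no)) .no .no) .no .no) (.sw 0 2 [26]) .no .no)) .no (.br (.br .no (.br (.br (.br .no .no .no (.br (.br .no (.br .no .no (.br .no .no .no (.br .no (.de 48) (.br .no (.de 48) (.de 43) .no) .no)) (.de 45)) .no (.sy 35 120 3)) .no .no .no)) (.br (.sy 29 198 7) .no .no (.br (.br .no (.br .no .no (.br .no .no .no (.br .no .no (.sy 29 198 13) .no)) (.de 45)) .no (.br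 .no .no (.br .no .no .no (.sy 36 45 4)) .no)) .no .no .no)) .no .no) .no .no .no) .no .no) .no .no (.sw 0 1 [25])) .no) .no .no) .no))) .no) .no .no)) .no .no (.br (.br .no (.br (.br .no .no .no (.sw 1 2 [13,20])) .no (.br .no .no .no (.br (.br .no .no (.br .no (.br .no .no (.sw 0 3 [23,24]) (.br (.br .no (.de 34) .no .no) .no .no .no)) .no .no) .no) .no .no (.br (.br .no (.br .no .no (.br (.br .no (.br (.sy 32 180 4) .no .no .no) .no .no) .no .no (.br (.br .no (.br .no (.br .no .no (.de 42) (.br (.br .no (.br .no .no (.br .no .no .no (.br (.de 47) .no (.br .no .no (.de 43) .no) .no)) .no) .no .no) .no .no .no)) (.br .no .no .no (.br (.br .no (.br .no .no (.br .no .no .no (.br (.de 47) .no .no .no)) .no) .no .no) .no .no .no)) .no) .no .no) (.sw 0 2 [26]) .no .no)) (.br (.br .no (.br (.sy 32 180 4) .no .no .no) .no .no) .no .no .no)) (.br .no .no .no (.br (.br .no (.br (.sy 32 180 4) .no .no .no) .no .no) .no .no .no)) .no) .no (.sw 0 1 [22]) .no))) .no) .no .no) .no .no .no)) .no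 .no) .no) .no .no)) .no) .no .no) .no)) (.br (.br .no .no (.br .no (.br .no .no (.br .no (.sy 16 198 3) .no (.br (.sw 1 2 [13]) .no .no .no)) .no) .no .no) (.br .no (.br .no .no (.br .no (.br (.sy 19 225 3) .no .no .no) .no (.br (.sw 1 2 [13]) .no .no .no)) .no) (.sy 10 108 7) .no)) .no .no (.br .no .no (.br .no (.br .no .no (.br .no (.sy 16 198 3) .no (.br (.sw 1 2 [13]) .no .no .no)) .no) .no .no) .no)) .no .no) .no)

def c7_0_2 : Cert := (.br (.br .no .no (.br .no (.br (.br .no .no .no (.br (.br .no .no (.br .no (.br (.br .no .no (.br .no (.de 34) .no .no) (.br .no (.de 34) (.br .no (.br .no (.br (.br .no .no (.br .no (.br (.br .no .no .no (.de 46)) .no .no .no) .no .no) (.br .no (.br (.br .no .no .no (.de 46)) .no .no .no) (.de 44) .no)) .no .no (.br .no .no (.de 43) .no)) .no (.br (.br .no .no (.br .no (.br (.br .no .no .no (.de 46)) .no .no .no) .no .no) (.br .no (.br (.br .no .no .no (.de 46)) .no .no .no) (.de 44) .no)) .no .no .no)) .no .no) .no)) .no .no (.br .no .no (.br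 .no (.de 34) .no .no) .no)) .no (.br (.br .no .no (.br .no (.de 34) .no .no) (.br .no (.de 34) (.br .no (.br .no (.br (.br .no (.br .no .no (.br (.br .no .no .no (.de 46)) (.sy 35 225 4) .no .no) .no) (.sw 1 3 [30]) .no) .no .no .no) .no (.br (.br .no (.br .no .no (.br (.br .no .no .no (.de 46)) (.br (.br .no .no (.br .no (.br .no .no (.br .no .no .no (.de 45)) (.de 44)) (.br .no .no .no (.de 44)) .no) .no) .no .no (.br .no .no (.br .no (.br .no .no (.br .no .no .no (.de 45)) (.de 44)) (.br .no .no .no (.de 44)) .no) .no)) .no .no) .no) (.sw 1 3 [30]) .no) (.br .no .no (.br .no (.br (.br .no .no .no (.de 46)) .no .no .no) .no .no) .no) .no .no)) .no .no) .no)) .no .no .no)) (.br .no (.br (.br .no .no (.br .no (.de 34) .no .no) (.br .no (.de 34) (.br .no (.br .no (.br (.sw 2 3 [29]) .no (.de 42) .no) (.br (.br .no .no (.br .no (.br (.br .no .no .no (.de 41)) .no .no .no) .no .no) (.br .no (.br (.br .no .no .no (.de 41)) .no .no .no) (.de 44) .no)) .no .no .no) .no) .no .no) .no))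 .no .no (.br .no .no (.br .no (.de 34) .no .no) .no)) .no .no)) .no .no (.br .no .no (.br .no (.br (.br .no .no (.br .no (.br (.br (.br .no .no .no (.br .no .no (.de 43) .no)) (.br (.br .no .no (.br .no (.br (.br .no .no (.de 41) (.de 46)) .no .no (.de 45)) .no (.de 44)) (.br .no (.br (.br .no .no (.de 41) (.de 46)) .no .no (.de 45)) .no .no)) .no .no (.br .no .no (.de 43) .no)) .no .no) .no .no .no) .no .no) (.br .no (.br (.br (.br .no .no .no (.br .no .no (.de 43) .no)) (.br (.br .no .no (.br .no (.br (.sw 2 3 [32]) .no (.br .no .no .no (.br .no .no (.sy 37 135 4) .no)) .no) .no .no) (.br .no (.br (.sw 2 3 [32]) .no (.br .no .no .no (.br .no .no (.br .no .no (.de 43) .no) .no)) .no) (.de 44) .no)) .no .no (.br .no .no (.de 43) .no)) .no .no) .no .no .no) (.br (.br (.br .no .no .no (.br .no .no (.de 43) .no)) (.br (.br .no .no (.br .no (.br (.br .no (.br .no .no (.sy 38 225 4) .no) .no (.de 46)) .no .no .no) .no .no) (.br .no (.br (.br .no (.br .no .no (.sy 38 225 4) .no) .no (.de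 46)) .no .no .no) (.de 44) .no)) .no .no (.br .no .no (.de 43) .no)) .no .no) (.br (.br .no .no .no (.br .no .no (.de 43) .no)) (.br (.br .no .no (.br .no (.br (.br .no .no .no (.de 46)) .no .no .no) .no .no) (.br .no (.br (.br .no .no .no (.de 46)) .no .no .no) (.de 44) .no)) .no .no (.br .no .no (.de 43) .no)) .no .no) .no .no) .no)) .no .no (.br .no .no (.br .no (.br (.br (.br .no .no .no (.br (.br .no (.br (.sy 35 120 4) .no .no (.de 45)) .no .no) .no (.de 43) .no)) (.br (.br .no .no (.br (.br .no .no .no (.br .no .no (.de 41) .no)) (.sw 0 3 [31]) .no .no) .no) .no .no (.br (.br .no (.br (.br .no .no (.de 41) (.de 46)) .no .no (.de 45)) .no .no) .no (.de 43) .no)) .no .no) .no .no .no) .no .no) .no)) .no (.br (.br .no .no (.br .no (.br (.br (.br .no (.br .no .no (.br .no (.br (.br .no .no (.br .no (.de 48) .no .no) (.de 46)) .no .no (.de 45)) .no (.de 44)) .no) .no .no) (.br (.br .no (.br .no .no .no (.br (.br .no .no (.de 41) (.de 46)) .no .no .no)) (.sw 1 3 [30]) .no) .no .no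 .no) .no .no) .no .no .no) .no .no) (.sy 28 30 4)) .no .no .no)) .no))) .no (.br .no .no .no (.sy 24 135 4)) .no) .no .no) (.br .no (.br (.br .no .no .no (.br (.br .no .no (.br .no (.br (.sw 2 3 [24]) .no (.br .no .no .no (.br .no (.de 34) (.sy 29 135 4) .no)) .no) .no .no) (.br .no (.br (.sw 2 3 [24]) .no (.br .no .no .no (.br .no (.de 34) (.br .no (.br .no (.br (.sw 2 3 [29]) .no (.de 42) .no) (.br (.br .no .no .no (.br (.br .no (.br (.sy 36 120 4) .no .no (.de 41)) .no .no) (.sw 0 2 [31]) .no .no)) .no .no .no) .no) .no .no) .no)) .no) (.br (.br .no .no (.br .no (.de 34) .no .no) (.br .no (.de 34) (.br .no (.br .no (.br (.br .no (.sw 2 3 [24,29,30]) .no (.sw 1 2 [30])) .no .no .no) (.br (.br .no (.br .no .no (.br (.br .no .no .no (.de 41)) (.br (.br .no .no .no (.de 47)) .no .no (.de 41)) .no .no) .no) .no (.sw 1 2 [30])) (.de 42) .no .no) .no) .no .no) .no)) .no .no .no) .no)) .no .no (.br .no .no (.br .no (.br (.sw 2 3 [24]) .no (.br .no .no .no (.br .no (.br (.br (.br .no .no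 .no (.br (.br .no (.br (.sw 2 3 [24,31,32]) .no (.br .no .no .no (.br .no (.de 48) (.br .no (.de 48) (.de 43) .no) .no)) .no) .no .no) .no .no .no)) (.br (.br .no .no .no (.br (.br .no .no (.br .no .no .no (.br .no .no (.br .no .no (.de 43) .no) .no)) .no) (.sw 0 2 [31]) .no .no)) .no .no (.br (.br .no (.br (.sw 2 3 [24,31,32]) .no (.br .no .no .no (.br .no .no (.br .no .no (.de 43) .no) .no)) .no) .no .no) .no .no .no)) .no .no) .no .no .no) (.sy 29 135 4) .no)) .no) .no .no) .no))) .no (.br .no .no .no (.br (.br .no .no (.br .no (.br (.sw 2 3 [24]) .no (.br (.br .no (.de 34) .no .no) .no .no (.br (.br .no (.br .no (.br (.br .no .no .no (.br (.br .no (.br .no .no (.sy 33 228 7) (.sw 0 2 [26,33])) (.br .no .no .no (.br .no .no (.sy 33 228 12) .no)) .no) (.sw 0 2 [31]) .no .no)) .no .no (.br (.br .no (.br .no .no (.br .no .no .no (.br .no .no (.br .no .no (.de 43) .no) .no)) .no) .no .no) .no .no .no)) .no (.br (.br .no .no .no (.br (.sy 35 57 3) (.sw 0 2 [31]) .no .no)) .no .no .no))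 .no .no) (.de 34) .no .no)) .no) .no .no) (.br .no (.br (.sw 2 3 [24]) .no (.br (.br .no (.de 34) .no .no) .no .no (.br (.br .no (.br .no (.br (.sw 2 3 [29]) .no (.de 42) .no) (.br (.br .no .no .no (.br (.br .no (.br .no .no (.br .no .no .no (.br .no (.br .no .no (.de 44) .no) .no .no)) (.de 41)) (.br .no .no .no (.de 41)) .no) (.sw 0 2 [31]) .no .no)) .no .no .no) .no) .no .no) (.de 34) .no .no)) .no) (.br (.br .no .no .no (.br (.br .no (.sy 31 120 4) .no .no) (.de 34) .no .no)) .no .no .no) .no)) .no .no (.br .no .no (.br .no (.br (.sw 2 3 [24]) .no (.br (.br .no (.br (.br (.br .no .no .no (.br (.br .no (.sw 2 3 [24,31]) .no (.sy 35 120 3)) .no .no .no)) (.br (.sy 29 198 7) .no .no (.br (.br .no (.sw 2 3 [24,31]) .no (.br .no .no (.br .no .no .no (.sy 36 45 4)) .no)) .no .no .no)) .no .no) .no .no .no) .no .no) .no .no (.br (.br .no (.br (.br .no .no .no (.br (.br .no (.br .no .no (.br .no .no .no (.br .no .no (.br .no (.de 48) (.de 43) .no) .no)) .no) .no .no) .no .no .no)) (.br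 (.br .no .no .no (.br (.br .no (.br .no .no (.br (.de 48) .no .no .no) (.sw 0 2 [26,33])) (.br .no .no .no (.br (.de 47) .no (.sw 0 3 [28]) .no)) .no) (.sw 0 2 [31]) .no .no)) .no .no (.br (.br .no (.br .no .no (.br .no .no .no (.br (.de 47) .no (.sw 0 3 [28]) .no)) .no) .no .no) .no .no .no)) .no .no) .no .no) (.sw 0 2 [26]) .no .no)) .no) .no .no) .no))) .no) (.br (.br .no .no .no (.br (.br .no .no (.br .no (.br (.br .no (.br .no .no (.br .no (.sy 30 225 4) .no .no) .no) .no (.sw 1 2 [25])) .no .no .no) .no .no) (.br .no (.br (.br .no (.br .no .no (.br .no (.sy 30 225 4) .no .no) .no) .no (.sw 1 2 [25])) .no .no .no) (.br (.br .no (.br .no .no (.br .no (.br .no (.br (.br .no (.br .no .no (.br (.br .no .no .no (.de 46)) .no .no (.br (.de 46) .no .no .no)) (.br (.br .no .no .no (.de 46)) .no .no .no)) .no (.sw 1 2 [30])) .no .no .no) (.br (.br .no (.br .no .no (.br (.br .no .no .no (.de 41)) .no .no (.br (.de 46) .no .no .no)) (.br (.br .no .no .no (.de 41)) .no .no .no)) .no (.sw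 1 2 [30])) (.de 42) .no .no) .no) .no .no) .no) .no (.sw 1 2 [25])) (.br .no .no .no (.br .no (.de 34) (.br .no (.br .no (.br (.br .no .no .no (.br (.sw 1 2 [25,30,31]) .no (.de 44) .no)) .no .no .no) (.br (.br .no .no .no (.br (.sw 1 2 [25,30,31]) .no (.de 44) .no)) (.de 42) .no .no) .no) .no .no) .no)) .no .no) .no)) .no .no (.br .no .no (.br .no (.br (.br .no (.br .no .no (.br (.br (.br .no .no .no (.br .no .no (.de 43) .no)) (.br (.br .no .no (.br .no .no .no (.de 44)) (.br .no .no (.de 44) .no)) .no .no (.br .no .no (.de 43) .no)) .no .no) (.sy 30 225 4) .no .no) .no) .no (.sw 1 2 [25])) .no .no .no) .no .no) .no))) .no .no .no) .no)) .no .no (.br .no .no (.br .no (.br (.br .no .no .no (.br (.br .no .no (.br (.br .no .no .no (.br .no .no (.br .no (.de 34) .no .no) .no)) (.sw 0 3 [23]) .no .no) .no) .no .no (.br (.br .no (.br (.br .no .no (.br .no (.br (.sy 34 120 4) .no .no .no) .no .no) (.br .no (.br (.sy 34 120 4) .no .no .no) (.br (.sy 34 120 4) (.br .no (.br .no .no (.de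 42) (.br .no .no (.de 43) .no)) (.br .no .no .no (.br .no .no (.de 43) .no)) .no) .no .no) .no)) .no .no (.br .no .no (.br .no (.br (.br .no (.br .no .no (.de 42) (.br (.br .no (.br (.br .no .no (.de 41) (.de 46)) .no .no (.de 45)) .no .no) .no (.de 43) .no)) (.br .no .no .no (.br (.br .no (.br (.br .no .no (.br .no (.br .no (.br .no .no (.br .no .no .no (.de 45)) .no) .no .no) .no .no) (.de 46)) .no .no (.de 45)) .no .no) .no (.de 43) .no)) .no) .no .no .no) .no .no) .no)) .no .no) .no (.sw 0 1 [22]) .no))) .no (.br .no .no .no (.sy 24 135 4)) .no) .no .no) .no))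

def c7_0_3 : Cert := (.br .no (.br (.br .no .no .no (.br .no .no (.br .no (.br (.br .no .no (.br .no .no (.br .no (.br (.br .no .no .no (.br .no .no (.br .no (.br (.br (.br .no .no (.br .no (.br (.br .no .no .no (.br .no .no (.br .no (.de 48) .no (.br .no (.de 48) .no .no)) .no)) .no .no .no) .no .no) (.br .no (.br (.br .no .no .no (.br .no .no (.br .no (.de 48) .no (.sy 39 30 4)) .no)) .no .no .no) (.de 43) .no)) .no .no (.br .no .no (.br .no (.br (.br .no .no .no (.br .no .no (.br .no (.br .no (.br .no .no .no (.br .no .no (.br .no (.br (.br .no .no .no (.br (.sw 0 2 [5,48]) .no .no .no)) .no .no .no) .no .no) .no)) .no .no) .no .no) .no)) .no .no .no) .no .no) .no)) .no .no (.br (.br .no .no (.br .no (.br (.br .no .no .no (.br (.de 46) .no (.br .no (.de 48) .no .no) .no)) .no .no .no) .no .no) (.br .no (.br (.br .no .no .no (.br (.de 46) .no (.br .no (.de 48) .no .no) .no)) .no .no .no) (.de 43) .no)) .no .no (.br .no .no (.br .no (.br (.br .no .no .no (.br (.de 46) .no (.br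 (.br .no (.de 48) .no .no) (.sw 0 3 [34]) .no .no) .no)) .no .no .no) .no .no) .no))) .no (.br (.br (.br .no .no (.br .no (.br (.br .no (.br .no .no (.br .no (.de 48) .no (.br .no (.de 48) .no .no)) .no) .no .no) .no .no .no) .no .no) (.br .no (.br (.br .no (.br .no .no (.br .no (.de 48) .no (.br .no (.de 48) (.de 43) .no)) .no) .no .no) .no .no .no) (.de 43) .no)) .no .no (.br .no .no (.br .no (.br (.br .no (.br .no .no (.br .no (.sy 37 225 4) .no .no) .no) .no .no) .no .no .no) .no .no) .no)) .no .no .no)) .no)) .no .no .no) .no .no) (.br .no (.br (.br .no .no .no (.br .no .no (.br .no (.br (.br (.br .no .no (.br .no (.br (.br .no .no .no (.br .no .no (.br .no (.de 48) .no .no) .no)) .no .no .no) .no .no) (.br .no (.br (.br .no .no .no (.br .no .no (.br .no (.de 48) .no .no) .no)) .no .no .no) (.de 43) .no)) .no (.br .no .no .no (.br .no (.br (.br .no .no .no (.br .no .no (.br .no (.br .no (.br .no .no (.br .no .no .no (.br .no (.br (.br .no .no .no (.br (.sw 0 2 [5,35,48]) .no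 .no .no)) .no .no .no) .no .no)) .no) .no .no) .no .no) .no)) .no .no .no) (.de 43) .no)) .no) .no .no .no) .no (.br (.sy 31 30 4) .no .no .no)) .no)) .no .no .no) (.br (.br .no .no .no (.br .no .no (.br .no (.br (.br (.br .no (.br .no .no (.br (.br .no .no .no (.br .no .no (.br .no (.de 48) .no .no) .no)) (.br (.br .no .no (.br .no (.de 48) .no .no) (.de 46)) .no .no (.de 45)) .no .no) .no) .no (.sw 1 2 [29])) (.br .no .no .no (.br .no (.br (.br .no .no .no (.br .no .no (.de 41) .no)) .no .no .no) (.de 43) .no)) .no .no) .no .no .no) .no (.br (.sy 31 30 4) .no .no .no)) .no)) (.br (.br .no .no (.br .no (.br (.br (.br .no .no .no (.br .no .no (.de 43) .no)) (.br (.br .no .no (.br .no (.br (.br .no .no (.de 41) (.de 46)) .no .no (.de 45)) .no (.de 44)) (.br .no (.br (.br .no .no (.de 41) (.de 46)) .no .no (.de 45)) .no .no)) .no .no (.br .no .no (.de 43) .no)) .no .no) .no .no .no) .no (.br (.br (.br .no .no .no (.br .no .no (.de 43) .no)) (.br (.br .no .no (.br .no (.br (.br .no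 (.br .no .no (.sy 38 225 4) .no) (.de 41) .no) .no .no .no) .no (.de 44)) (.br .no (.br (.br .no (.br .no .no (.sy 38 225 4) .no) (.de 41) .no) .no .no .no) .no .no)) .no .no (.br .no .no (.de 43) .no)) .no .no) .no .no .no)) (.br .no (.br (.br (.br .no .no .no (.br .no .no (.de 43) .no)) (.br (.br .no .no (.br .no (.br (.sw 2 3 [32]) .no (.br .no .no .no (.br .no .no (.sy 37 135 4) .no)) .no) .no .no) (.br .no (.br (.sw 2 3 [32]) .no (.br .no .no .no (.br .no .no (.br .no .no (.de 43) .no) .no)) .no) (.de 44) .no)) .no .no (.br .no .no (.de 43) .no)) .no .no) .no .no .no) .no .no)) .no .no (.br .no .no (.br .no (.br (.br (.br .no .no .no (.br (.br .no (.br (.sy 35 120 4) .no .no (.de 45)) .no .no) .no (.de 43) .no)) (.br (.br .no .no (.br (.br .no .no .no (.br .no .no (.de 41) .no)) (.sw 0 3 [31]) .no .no) .no) .no .no (.br (.br .no (.br (.br .no .no (.de 41) (.de 46)) .no .no (.de 45)) .no .no) .no (.de 43) .no)) .no .no) .no .no .no) .no (.br (.sy 31 30 4) .no .no .no)) .no))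 .no .no) .no)) (.br .no .no (.br .no (.br (.br .no .no .no (.br .no .no (.br .no (.br (.sw 2 3 [27]) .no .no .no) .no .no) .no)) .no .no .no) .no .no) (.br .no (.br (.br .no .no .no (.br .no .no (.br .no (.br (.sw 2 3 [27]) .no (.br (.br .no .no (.br .no (.br (.br .no .no .no (.br (.de 46) .no .no .no)) .no .no .no) .no .no) (.br .no (.br (.br .no .no .no (.br (.de 46) .no .no .no)) .no .no .no) (.de 43) .no)) .no (.br .no .no .no (.br .no (.br (.br .no .no .no (.br (.de 46) .no .no .no)) .no .no .no) (.de 43) .no)) .no) .no) .no .no) .no)) .no .no .no) (.br (.br .no .no .no (.br .no .no (.br .no (.br (.sw 2 3 [27]) .no (.sy 32 135 4) .no) .no .no) .no)) (.br (.br .no .no (.br .no (.br (.sw 2 3 [27]) .no (.sy 32 135 4) .no) .no .no) (.br .no (.br (.sw 2 3 [27]) .no (.br (.br .no .no .no (.br .no .no (.de 43) .no)) (.br (.br .no .no (.br .no (.br (.sw 2 3 [32]) .no (.br (.de 41) .no .no (.br (.de 47) .no .no .no)) .no) .no .no) (.br .no (.br (.sw 2 3 [32]) .no (.br (.de 41) .no .no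 (.br (.de 47) .no .no .no)) .no) (.de 44) .no)) .no .no (.br .no .no (.de 43) .no)) .no .no) .no) (.br (.br (.br .no .no .no (.br .no .no (.de 43) .no)) (.br (.br .no .no (.br .no (.br (.br .no (.sw 2 3 [27,32,33]) .no (.de 46)) .no .no .no) .no .no) (.br .no (.br (.br .no (.sw 2 3 [27,32,33]) .no (.de 46)) .no .no .no) (.de 44) .no)) .no .no (.br .no .no (.de 43) .no)) .no .no) .no .no .no) .no)) .no .no (.br .no .no (.br .no (.br (.sw 2 3 [27]) .no (.sy 32 135 4) .no) .no .no) .no)) .no .no) .no))) .no (.br .no .no .no (.br .no .no (.br .no (.br (.br .no .no .no (.br (.br .no (.br (.sy 30 120 4) .no .no .no) .no .no) .no .no .no)) .no .no .no) .no .no) (.br .no (.br (.br .no .no .no (.br (.br .no (.br (.sy 30 120 4) .no (.br (.br .no .no (.br .no (.br .no .no (.br .no .no .no (.br (.de 46) .no .no .no)) .no) .no .no) (.br .no (.br .no .no (.br .no .no .no (.br (.de 46) .no .no .no)) .no) (.de 43) .no)) .no (.br .no .no .no (.br .no (.br .no .no (.br .no .no .no (.br (.de 46) .no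 .no .no)) .no) (.de 43) .no)) .no) .no) .no .no) .no .no .no)) .no .no .no) (.br (.br .no .no .no (.br (.br .no (.br (.sy 30 120 4) .no (.br (.br .no (.br .no .no (.br .no (.br .no .no (.sy 36 210 3) (.de 45)) .no .no) .no) .no (.sw 1 2 [29])) (.br .no .no .no (.br .no (.br .no .no (.br .no .no .no (.br (.de 41) .no .no .no)) .no) (.de 43) .no)) .no .no) .no) .no .no) .no .no .no)) (.br (.br .no .no .no (.br (.br .no .no (.br (.br .no .no .no (.br .no .no (.de 43) .no)) (.br (.br .no .no (.br .no (.br .no .no (.br .no (.sy 37 198 3) .no (.br (.de 47) .no .no .no)) .no) .no .no) (.br .no (.br .no .no (.br .no (.br (.de 48) .no .no .no) .no (.br (.de 47) .no .no .no)) .no) (.de 44) .no)) .no .no (.br .no .no (.de 43) .no)) .no .no) .no) (.sw 0 2 [26]) .no .no)) .no .no (.br (.br .no (.br (.br (.br .no .no .no (.br (.br .no (.br .no .no (.br .no .no .no (.br .no (.de 48) (.br .no (.de 48) (.de 43) .no) .no)) (.de 45)) (.br .no .no .no (.br .no .no (.br .no (.de 48) .no .no) .no)) .no)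 .no (.de 43) .no)) (.br (.br .no .no (.br .no (.br .no .no (.sw 0 3 [31,32]) (.de 45)) .no .no) .no) .no .no (.br (.br .no (.br .no .no (.br .no .no .no (.br .no .no (.br .no .no (.de 43) .no) .no)) (.de 45)) (.br .no .no .no (.br .no .no (.de 41) .no)) .no) .no (.de 43) .no)) .no .no) .no (.br (.br .no .no .no (.br (.br .no (.br .no .no (.br (.br .no (.de 48) .no .no) .no .no (.br .no (.de 48) .no .no)) (.de 45)) (.br .no .no .no (.br (.de 46) .no .no .no)) .no) .no (.de 43) .no)) (.br (.br .no .no (.br .no (.br .no .no (.sw 0 3 [31,32]) (.de 45)) .no .no) .no) .no .no (.br (.br .no (.br .no .no (.br (.de 41) .no .no (.br (.de 47) .no .no .no)) (.de 45)) (.br .no .no .no (.br (.de 41) .no .no .no)) .no) .no (.de 43) .no)) .no .no) .no) .no .no) .no .no .no)) .no .no) .no))) .no) .no .no) .no)) .no .no .no) (.br (.br .no .no .no (.br .no .no (.br .no (.br (.br .no .no .no (.br .no (.br .no .no (.br (.br .no .no .no (.br .no .no (.br .no (.br (.br (.br .no (.br .no .no (.br (.br .no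 .no .no (.br .no .no (.br .no .no .no (.br .no .no (.br .no .no .no (.de 44)) .no)) .no)) (.br (.br .no .no (.br .no .no .no (.br .no .no (.br .no .no .no (.de 44)) .no)) (.de 46)) .no .no (.de 45)) .no .no) .no) .no (.br .no (.br (.br .no .no .no (.br .no .no (.br .no .no .no (.sw 1 2 [21,28,29])) .no)) .no .no .no) (.de 43) .no)) .no .no (.br .no (.br .no .no (.br (.br .no .no .no (.br .no .no (.de 41) .no)) (.br (.br .no .no (.de 41) (.de 46)) .no .no (.de 45)) .no .no) .no) .no .no)) .no .no .no) .no .no) .no)) (.br (.br .no .no (.br .no (.sy 28 210 5) .no .no) (.br .no (.br (.sy 33 225 4) .no .no .no) (.br (.br (.br .no .no .no (.br .no .no (.de 43) .no)) .no .no (.br (.br .no .no (.br .no (.br (.br .no (.br .no .no (.br .no (.br .no .no .no (.de 44)) (.br .no .no .no (.de 44)) .no) .no) .no (.de 46)) .no .no .no) .no .no) (.br .no (.br (.br .no (.br .no .no (.br .no (.sy 35 57 7) (.de 43) .no) .no) .no (.de 46)) .no .no .no) (.de 44) .no)) .no .no .no)) .no .no .no) .no)) .no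 .no (.br .no .no (.br .no (.sy 28 147 5) .no .no) .no)) .no .no) .no) .no (.br .no (.br (.br .no .no .no (.br .no .no (.br .no (.br (.sw 1 2 [21]) .no .no .no) .no .no) .no)) .no .no .no) (.br (.br .no .no .no (.br .no .no (.br .no (.br (.sw 1 2 [21]) .no .no .no) .no .no) .no)) (.br (.br .no .no (.br .no (.br (.sw 1 2 [21]) .no .no .no) .no .no) (.br .no (.br (.sw 1 2 [21]) .no .no .no) (.br (.sw 1 2 [21]) (.br (.br .no .no .no (.br .no .no (.de 43) .no)) (.br (.br .no .no (.br .no (.br (.br .no .no .no (.de 46)) .no .no .no) .no .no) (.br .no (.br (.br .no .no .no (.de 46)) .no .no .no) (.de 44) .no)) .no .no (.br .no .no (.de 43) .no)) .no .no) .no .no) .no)) .no .no (.br .no .no (.br .no (.br (.sw 1 2 [21]) .no .no .no) .no .no) .no)) .no .no) .no))) .no (.br .no .no .no (.sy 24 135 4)) .no) .no .no) .no)) c7_0_2 .no .no) .no)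

def c7_0_4 : Cert := (.br (.br .no .no .no (.br .no .no (.br .no (.br (.br .no .no .no (.br .no c7_0_3 .no .no)) .no (.br (.br .no (.br .no (.br (.br .no .no .no (.br (.br .no (.br .no .no (.br .no .no .no (.br .no .no (.br .no (.br .no .no (.br .no .no .no (.br (.br .no (.br (.br (.br .no .no .no (.br (.br .no (.br .no .no (.sy 32 228 7) (.de 45)) (.br .no .no .no (.br .no .no (.br .no (.de 48) .no (.sy 38 78 3)) .no)) .no) (.br .no .no (.br .no .no .no (.br .no .no (.br .no (.de 48) .no (.sy 38 78 3)) .no)) .no) .no .no)) .no .no (.br (.br .no (.br .no .no (.br .no .no .no (.br .no .no (.br .no (.br .no (.br .no .no (.br .no .no .no (.br .no (.br (.br .no .no .no (.br (.sw 0 2 [5,48]) .no .no .no)) .no .no .no) .no .no)) (.de 44)) (.br .no .no .no (.de 44)) .no) .no .no) .no)) .no) .no .no) .no .no .no)) .no .no .no) .no .no) .no .no .no)) .no) .no .no) (.br .no (.br .no .no (.br .no .no .no (.br (.br .no (.br (.br (.br .no .no .no (.br (.br .no (.br .no .no (.br .no .no .no (.br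 .no (.de 48) (.br .no (.de 48) (.de 43) .no) .no)) (.de 45)) (.br .no .no .no (.br .no .no (.br .no (.de 48) .no .no) .no)) .no) (.br .no .no (.br .no .no .no (.br .no .no (.br .no (.de 48) .no .no) .no)) .no) .no .no)) .no (.br (.br .no (.br .no .no (.br .no .no .no (.br .no .no (.br .no (.sy 38 75 4) .no .no) .no)) .no) .no .no) .no .no (.br (.br .no (.br .no .no (.br .no .no .no (.br .no (.br .no (.br .no .no (.br .no .no .no (.de 45)) .no) .no .no) .no .no)) (.de 45)) (.br .no .no .no (.br .no .no (.br .no (.sy 38 75 4) .no .no) .no)) .no) (.br .no .no (.br .no .no .no (.br .no .no (.br .no (.sy 38 75 4) .no .no) .no)) .no) .no .no)) .no) .no (.sy 16 198 18) .no) .no .no) .no .no .no)) .no) (.br .no (.br .no .no (.br (.br .no (.br (.br (.br .no .no .no (.br (.br .no (.br .no .no (.br .no .no .no (.br .no (.de 48) (.sy 29 198 12) .no)) (.de 45)) .no (.sy 35 120 3)) .no .no .no)) (.br (.sy 29 198 7) .no .no (.br (.br .no (.br .no .no (.br .no .no .no (.br .no .no (.sy 29 198 12)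 .no)) (.de 45)) .no (.br .no .no (.br .no .no .no (.sy 36 45 4)) .no)) .no .no .no)) .no .no) .no (.sy 34 75 4) .no) .no .no) .no .no (.br (.br .no .no (.sy 34 75 4) .no) (.br (.br (.br .no .no .no (.br (.br .no (.br (.sy 35 120 4) .no (.sw 0 3 [32]) .no) .no .no) .no .no .no)) (.br (.br .no .no .no (.br (.br .no .no (.br .no .no .no (.br .no .no (.br .no .no (.de 43) .no) .no)) .no) (.br (.br .no .no (.de 41) (.de 46)) .no (.sw 0 3 [32]) .no) .no .no)) .no .no (.br (.br .no (.br (.br .no .no (.de 41) (.de 46)) .no (.sw 0 3 [32]) .no) .no .no) .no .no .no)) .no .no) .no (.sy 34 75 4) .no) .no .no)) (.br (.br .no (.br (.br (.br .no .no .no (.br (.sw 1 2 [29,30]) .no (.de 43) .no)) (.br (.br .no .no (.br .no (.br .no .no (.br .no .no .no (.br .no .no (.sy 37 135 4) .no)) (.de 45)) .no .no) .no) .no .no (.br (.br .no (.sw 2 3 [31]) (.br .no .no .no (.br .no .no (.de 41) .no)) .no) .no (.de 43) .no)) .no .no) .no (.br (.br .no .no .no (.br (.sw 1 2 [29,30]) .no (.de 43) .no)) (.br (.br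 .no .no (.br .no (.br .no .no (.br (.de 41) .no .no (.br (.de 47) .no .no .no)) (.de 45)) .no .no) .no) .no .no (.br (.br .no (.sw 2 3 [31]) (.br .no .no .no (.br (.de 41) .no .no .no)) .no) .no (.de 43) .no)) .no .no) .no) .no .no) .no .no .no)) .no .no) .no))) (.br .no .no (.br .no .no (.br .no (.br .no .no (.br .no .no .no (.br (.br .no (.br (.sw 2 3 [26,27]) .no .no (.br (.br .no .no .no (.br (.br .no (.br .no .no (.br (.br .no (.de 48) .no .no) .no .no .no) (.de 45)) (.br .no .no .no (.br (.de 46) .no (.br .no (.de 48) .no .no) .no)) .no) (.br .no .no (.br .no .no .no (.br (.de 46) .no (.br .no (.de 48) .no .no) .no)) .no) .no .no)) .no .no (.br (.br .no (.br .no .no (.br .no .no .no (.br (.de 46) .no (.br (.br .no (.de 48) (.br .no .no .no (.de 44)) .no) (.sw 0 3 [34]) .no .no) .no)) .no) .no .no) .no .no .no))) .no .no) .no (.sy 28 135 4) .no)) .no) .no .no) (.br .no (.br .no .no (.br .no .no .no (.br (.br .no (.br (.sw 2 3 [26,27]) .no .no .no) .no .no) .no (.br (.de 34)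 (.br (.br (.br .no .no .no (.br (.br .no (.br (.sy 35 120 4) .no .no (.de 45)) .no .no) (.br (.br .no .no .no (.br .no .no (.br .no (.de 48) .no .no) .no)) .no .no .no) .no .no)) .no (.br (.br .no (.br (.br .no .no .no (.br .no .no (.br .no (.br .no (.br .no .no (.br .no .no .no (.br .no (.sw 0 2 [32,38]) .no .no)) (.br .no .no (.br .no (.sw 2 3 [43,44]) .no .no) .no)) .no .no) .no .no) .no)) .no .no .no) .no .no) .no .no (.br (.br .no (.br (.br .no .no (.br .no (.br .no (.br .no .no (.br .no .no .no (.de 45)) .no) .no .no) .no .no) (.de 46)) .no .no (.de 45)) .no .no) (.br (.br .no .no .no (.br .no .no (.br .no (.br .no (.br .no .no (.sw 0 3 [36]) .no) .no .no) .no .no) .no)) .no .no .no) .no .no)) .no) .no .no .no) .no .no) .no)) .no) (.br .no (.br .no .no (.br (.br .no (.br (.sw 2 3 [26,27]) .no .no .no) .no .no) .no .no .no) (.br (.br .no (.br (.sw 2 3 [26,27]) .no .no .no) .no .no) .no (.br (.de 34) (.br (.br (.br .no .no .no (.br (.sw 1 2 [29,30]) .no (.de 43) .no)) (.br (.br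 .no .no (.br (.br .no .no .no (.br .no .no (.de 41) .no)) (.br (.br .no .no (.de 41) (.de 46)) .no .no (.de 45)) .no .no) .no) .no .no (.br (.br .no (.br (.sw 2 3 [26,27,31,32]) .no .no (.de 45)) .no .no) .no (.de 43) .no)) .no .no) .no .no .no) .no .no) .no)) .no .no) .no)) .no)) .no (.sy 22 120 3)) .no .no .no)) .no .no .no) (.br (.br .no .no .no (.br (.br .no (.br .no .no (.br .no .no .no (.sy 16 198 12)) (.de 27)) .no (.sy 22 120 3)) .no .no .no)) (.br (.sy 16 198 7) .no .no (.br (.br .no (.br .no .no (.br .no .no .no (.sy 16 198 12)) (.de 27)) .no (.br .no .no (.br .no .no .no (.sw 0 1 [12,14,19,20])) .no)) .no .no .no)) .no .no) .no) .no .no) .no .no (.sw 0 1 [12])) .no) .no .no) .no)) (.br (.br .no .no (.br .no (.br (.br .no .no .no (.br (.sy 18 120 4) .no .no .no)) .no (.br (.de 20) .no .no (.sw 0 1 [12])) .no) .no .no) (.br .no (.br (.br .no .no .no (.br (.sy 18 120 4) .no .no .no)) .no (.br (.de 20) .no .no (.sw 0 1 [12])) .no) (.br (.br .no .no .no (.br (.sy 18 120 4)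 .no .no .no)) .no .no .no) .no)) .no .no (.br .no .no (.br .no (.br (.br .no .no .no (.br (.br (.br .no (.br (.br .no .no (.br .no (.br .no .no (.br .no .no .no (.br .no .no (.sy 21 228 7) (.br .no .no (.br .no (.br (.br .no .no .no (.br (.sy 21 228 12) (.br .no .no (.br (.sy 21 228 14) (.br (.sy 21 228 15) .no .no (.br .no .no (.de 43) .no)) .no .no) .no) .no .no)) .no .no (.br (.br .no (.br .no .no (.br (.br .no .no .no (.br (.br .no (.br .no .no (.br (.br .no (.de 48) .no .no) .no .no (.br .no (.de 48) .no .no)) (.de 45)) (.br .no .no .no (.br (.de 46) .no .no .no)) .no) .no (.de 43) .no)) (.br (.br .no .no (.br .no (.br .no .no (.sw 0 3 [31,32]) (.de 45)) .no .no) .no) .no .no (.br (.br .no (.br .no .no (.br (.de 41) .no .no (.br (.de 47) .no .no .no)) (.de 45)) (.br .no .no .no (.br (.de 41) .no .no .no)) .no) .no (.de 43) .no)) .no .no) .no) .no .no) .no .no .no)) .no (.br (.br .no .no .no (.sy 28 30 4)) .no .no .no)) .no))) .no) .no .no) (.br .no (.br .no .no (.br .no .no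 .no (.br .no .no (.br .no .no .no (.br .no (.br (.sw 2 3 [24]) .no (.br (.br .no (.de 34) .no .no) .no .no (.br (.br .no (.br (.br .no .no (.br (.br .no (.br .no .no (.br .no .no .no (.de 41)) .no) .no .no) .no .no (.de 43)) .no) (.br (.br .no .no .no (.br (.br .no (.br .no .no (.br (.de 48) .no .no (.br .no .no (.de 43) .no)) (.br (.de 47) .no .no .no)) (.br .no .no .no (.br (.de 47) .no .no .no)) .no) (.sw 0 2 [31]) .no .no)) .no (.de 42) .no) .no .no) .no .no) (.de 34) .no .no)) .no) (.br (.br .no .no .no (.br (.br .no (.br (.sy 28 78 7) (.br (.br .no (.br .no .no (.br .no (.sy 35 225 4) .no .no) .no) .no (.sw 1 2 [30])) .no .no .no) .no .no) .no .no) (.de 34) .no .no)) .no .no .no) .no)) (.br .no .no (.br .no (.br (.sw 2 3 [24]) .no (.br (.br .no (.br .no .no (.sy 34 75 4) .no) .no .no) .no .no (.br (.br .no (.br (.br .no .no .no (.br (.br .no (.br .no .no (.br .no .no .no (.br .no .no (.br .no (.de 48) (.de 43) .no) .no)) .no) .no .no) .no .no .no)) (.br (.br .no .no .no (.br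 (.br .no (.br .no .no (.br (.de 48) .no .no .no) (.br (.de 47) .no (.br .no .no (.de 43) .no) .no)) (.br .no .no .no (.br (.de 47) .no (.br .no .no (.de 43) .no) .no)) .no) (.sw 0 2 [31]) .no .no)) .no .no (.br (.br .no (.br .no .no (.br .no .no .no (.br (.de 47) .no (.br .no .no (.de 43) .no) .no)) .no) .no .no) .no .no .no)) .no .no) (.sy 34 75 4) .no) (.br .no .no (.sy 34 75 4) .no) .no .no)) .no) .no .no) .no))) .no) (.br .no (.br .no .no (.br .no .no (.br .no .no .no (.br .no (.br (.br .no .no .no (.br (.br .no (.sw 0 3 [15,21]) .no (.sy 31 120 3)) .no .no .no)) .no .no .no) (.br (.br .no .no .no (.br (.br .no (.sw 0 3 [15,21]) .no (.sy 31 120 3)) .no .no .no)) (.br (.sy 25 198 7) .no .no (.br (.br .no (.sw 0 3 [15,21]) .no (.sy 34 30 3)) .no .no .no)) .no .no) .no)) (.br .no .no (.br .no (.br (.br .no .no .no (.br (.br .no (.br (.br .no .no .no (.br .no .no (.de 43) .no)) (.br (.br .no .no (.br .no (.br .no .no (.br .no .no .no (.br (.de 47) .no (.sw 0 3 [15,21,28]) .no)) .no)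 .no .no) (.br .no (.br .no .no (.br .no .no .no (.br (.de 47) .no (.sw 0 3 [15,21,28]) .no)) .no) (.de 44) .no)) .no .no (.br .no .no (.de 43) .no)) .no .no) .no .no) .no .no .no)) .no .no .no) .no .no) .no)) (.br .no .no (.br .no .no .no (.br .no (.br (.br .no .no .no (.br (.sw 1 2 [25,26]) .no (.br .no (.br (.br .no .no (.br .no .no .no (.de 43)) .no) (.br (.br .no .no (.br .no (.br (.br .no .no .no (.de 46)) .no .no .no) .no .no) (.br .no (.br (.br .no .no .no (.de 46)) .no .no .no) (.de 44) .no)) .no (.de 42) .no) .no .no) .no .no) .no)) .no .no .no) (.br (.br .no .no .no (.br (.sw 1 2 [25,26]) .no (.sy 28 78 5) .no)) (.br (.br .no .no (.br .no (.sy 33 135 4) .no .no) .no) .no .no (.br (.br .no (.sw 2 3 [27]) .no .no) .no (.sy 28 75 5) .no)) .no .no) .no)) (.br .no .no (.br .no (.br (.br .no .no .no (.br (.sw 1 2 [25,26]) .no (.br .no (.br (.br .no .no .no (.br .no .no (.de 43) .no)) (.br (.br .no .no (.br .no (.br (.br .no .no .no (.de 46)) .no .no .no) .no .no) (.br .no (.br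 (.br .no .no .no (.de 46)) .no .no .no) (.de 44) .no)) .no .no (.br .no .no (.de 43) .no)) .no .no) .no .no) .no)) .no .no .no) .no .no) .no))) .no .no) .no)) .no .no (.br .no .no (.br .no (.br .no .no (.br .no .no .no (.br .no .no (.br (.br .no (.br (.br .no .no .no (.br (.sy 29 180 4) (.de 34) .no .no)) .no .no (.br (.br .no (.de 34) .no .no) .no .no .no)) .no .no) .no .no .no) (.br (.br .no (.br (.br .no .no .no (.br (.sy 29 180 4) (.br .no .no (.br .no (.br .no .no (.de 42) (.br .no .no (.de 43) .no)) (.br .no .no .no (.br .no .no (.de 43) .no)) .no) .no) .no .no)) .no .no (.br (.br .no (.br .no .no (.br .no (.br .no .no (.de 42) (.br (.br .no (.br .no .no (.br (.de 41) .no .no (.br (.de 47) .no .no .no)) (.de 45)) (.br .no .no .no (.br (.de 41) .no .no .no)) .no) .no (.de 43) .no)) (.br .no .no .no (.br (.br .no (.br .no .no (.br (.br .no (.br .no (.br .no .no (.br .no .no .no (.de 45)) .no) .no .no) .no .no) .no .no (.br (.de 47) (.br .no (.br .no .no (.br .no .no .no (.de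 45)) .no) .no .no) .no .no)) (.de 45)) (.br .no .no .no (.br (.de 46) .no .no .no)) .no) .no (.de 43) .no)) .no) .no) .no .no) .no .no .no)) .no .no) .no (.br (.br .no .no .no (.br (.br .no (.br .no .no (.sw 0 1 [14,20,21,22]) .no) .no .no) .no .no .no)) (.sw 0 3 [23]) .no .no) .no))) .no) .no .no) .no)) .no .no) .no (.br (.br .no .no .no (.br .no .no (.br .no (.br .no .no (.br .no .no .no (.sw 0 1 [14,20])) .no) .no .no) .no)) (.sw 0 3 [15]) .no .no) .no) .no .no .no)) .no (.br (.de 20) .no .no (.sw 0 1 [12])) .no) .no .no) .no)) .no .no)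

theorem P7_0 : R.S 11 457092 :=
  R.piece L hL (.br .no .no .no (.br c7_0_1 (.br .no .no c7_0_4 .no) .no .no)) 11 457092 4194304 (by norm_num) (by norm_num) (by norm_num) (by decide +kernel)

def c7_1_0 : Cert := (.br (.br .no (.br .no .no (.br .no .no .no (.br .no .no (.br (.br .no (.br .no .no (.br (.br .no (.de 34) .no .no) .no .no (.br (.br .no (.br .no (.br .no .no (.de 42) (.br (.br .no (.br .no .no (.br .no .no .no (.br (.de 47) .no .no .no)) .no) .no .no) .no .no .no)) .no (.br .no .no (.br (.br .no (.br .no .no (.br .no .no .no (.br (.de 47) .no .no .no)) .no) .no .no) .no .no (.de 43)) .no)) .no .no) (.de 34) .no .no)) (.br (.br .no (.de 34) .no .no) .no .no .no)) .no (.br .no .no (.br (.br .no (.de 34) .no .no) .no .no (.br (.br .no (.br .no (.br .no .no (.de 42) .no) .no (.br .no (.br (.br .no (.br .no .no (.br .no .no .no (.br (.de 47) .no .no .no)) .no) .no .no) .no .no .no) (.br (.sw 1 3 [30]) (.br (.br .no (.br .no .no (.br (.br .no (.de 48) .no .no) .no .no .no)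 (.br (.de 47) .no .no .no)) (.br .no .no .no (.br (.de 47) .no .no .no)) .no) .no .no .no) .no .no) .no)) .no .no) (.de 34) .no .no)) .no)) .no .no (.br .no (.br .no .no (.br (.br .no (.de 34) .no .no) .no .no (.br (.br .no (.br (.br .no .no (.br (.br .no (.br .no .no (.br .no .no .no (.de 41)) .no) .no .no) .no .no (.de 43)) .no) (.br (.br .no .no .no (.br (.br .no (.br .no .no (.br (.de 48) .no .no (.br .no .no (.de 43) .no)) (.br (.de 47) .no .no .no)) (.br .no .no .no (.br (.de 47) .no .no .no)) .no) (.br .no .no (.br .no .no .no (.br (.de 47) .no .no .no)) .no) .no .no)) .no (.de 42) .no) .no .no) .no .no) (.de 34) .no .no)) (.br (.br .no (.de 34) .no .no) .no .no .no)) .no .no)) (.br (.br .no (.br .no .no (.br (.br .no (.br .no .no (.br .no (.br .no .no (.de 42) (.br (.br .no (.br .no .no (.br (.de 41) .no .no (.br (.de 47) .no .no .no)) (.de 45)) .no (.br .no .no (.br (.de 41) .no .no (.sy 36 45 4)) .no)) .no .no .no)) (.br .no .no .no (.br (.br .no (.br .no .no (.br (.br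 .no (.br .no (.br .no .no (.br .no .no .no (.de 45)) .no) .no .no) .no .no) .no .no (.br (.de 47) (.br .no (.br .no .no (.br .no .no .no (.de 45)) .no) .no .no) .no .no)) (.de 45)) .no (.br .no .no (.br (.br .no (.br .no (.br .no .no (.de 44) .no) .no .no) .no .no) .no .no (.sy 36 45 4)) .no)) .no .no .no)) .no) .no) .no .no) .no .no (.br (.br .no (.br .no (.br .no .no (.de 42) (.br (.br .no (.br .no .no (.br .no .no .no (.br (.de 47) .no (.br .no .no (.de 43) .no) .no)) .no) .no .no) .no .no .no)) (.br .no .no .no (.br (.br .no (.br .no .no (.br .no .no .no (.br (.de 47) .no .no .no)) .no) .no .no) .no .no .no)) .no) (.br .no (.br .no .no (.de 42) (.br (.br .no (.br .no .no (.br .no (.br (.de 48) .no .no .no) .no (.br (.de 47) .no .no .no)) .no) .no .no) .no .no .no)) (.br .no .no .no (.br (.br .no (.br .no .no (.br .no (.br (.br .no (.de 48) .no .no) .no .no .no) .no (.br (.de 47) (.br .no (.br .no .no (.br .no .no .no (.de 45)) .no) .no .no) .no .no)) .no) .no .no) .no .no .no))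 .no) .no) (.br .no .no (.br .no (.br .no .no (.de 42) (.br (.br .no (.br (.br .no .no .no (.de 46)) .no (.sw 0 3 [32]) .no) .no .no) .no .no .no)) (.br .no .no .no (.br (.br .no (.br (.br .no .no .no (.de 46)) .no (.sw 0 3 [32]) .no) .no .no) .no .no .no)) .no) .no) .no .no)) (.br (.br .no (.br .no .no (.br .no (.br .no .no (.de 42) (.br (.br .no (.sw 2 3 [31]) (.br .no .no .no (.br (.de 41) .no .no .no)) .no) .no (.de 43) .no)) (.br .no .no .no (.br (.br .no (.sw 2 3 [31]) (.br .no .no .no (.br (.de 46) .no .no .no)) .no) .no (.de 43) .no)) .no) .no) .no .no) .no .no .no)) .no (.br .no .no (.br (.br .no (.br .no .no (.br .no (.br .no .no (.de 42) .no) (.br .no (.de 42) .no .no) .no) .no) .no .no) .no .no (.sy 28 45 4)) .no)) .no .no .no))) .no) .no .no) .no .no (.br (.br .no (.br .no .no (.br .no .no (.br (.br .no (.br .no .no (.br .no .no .no (.br (.br .no (.sw 0 3 [10,11,15,16,21]) .no (.br .no (.br .no .no (.de 42) (.br (.br .no (.br .no .no (.br .no (.br (.de 48) .no .no .no)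 .no .no) .no) .no .no) .no .no .no)) .no (.br .no .no (.br (.br .no (.br .no .no (.br .no (.br (.br .no (.de 48) .no .no) .no .no .no) .no .no) .no) .no .no) .no .no (.de 43)) .no))) .no .no .no)) .no) .no .no) .no .no (.br (.br .no (.br .no .no (.br (.br .no (.sw 0 3 [10,11,15,16,21]) .no (.br (.br .no (.br .no .no (.br (.br .no (.br .no .no (.br .no (.de 48) .no .no) .no) .no (.br .no (.de 41) (.br .no (.de 48) .no .no) .no)) .no .no (.de 44)) (.br (.br .no (.br .no .no (.br .no (.de 48) .no .no) .no) .no (.br .no (.de 41) (.br .no (.de 48) .no .no) .no)) .no .no .no)) (.br .no .no .no (.de 43)) .no) (.br .no .no (.de 42) .no) .no .no)) .no .no (.br .no (.sw 0 3 [10,11,15,16,21]) .no .no)) (.br (.br .no (.sw 0 3 [10,11,15,16,21]) .no (.sy 32 45 4)) .no .no .no)) (.br .no .no .no (.br (.br .no (.sw 0 3 [10,11,15,16,21]) .no (.sy 32 45 4)) .no .no .no)) .no) (.br .no .no (.br .no .no .no (.br (.br .no (.sw 0 3 [10,11,15,16,21]) .no (.sy 32 45 4)) .no .no .no)) .no) .no .no)) (.br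 (.br .no (.br .no .no (.br .no .no .no (.br (.br .no (.br .no (.br .no .no (.de 42) (.br (.br .no (.br .no .no (.br .no .no .no (.br (.de 47) .no (.br .no .no (.de 43) .no) .no)) .no) .no .no) .no .no .no)) (.br .no .no .no (.br (.br .no (.br .no .no (.br .no .no .no (.br (.de 47) .no .no .no)) .no) .no .no) .no .no .no)) .no) .no .no) .no .no .no)) .no) .no .no) .no .no .no)) (.br .no .no (.br (.br .no (.br .no .no (.br .no .no .no (.br (.br .no (.sw 2 3 [27]) .no .no) .no (.br .no (.sy 31 75 4) .no .no) .no)) .no) .no .no) .no .no (.br (.br .no (.br .no .no (.br (.br .no (.sw 2 3 [27]) .no .no) .no .no .no) (.br (.br .no (.sw 2 3 [27]) .no .no) .no (.br .no (.br (.br .no (.br .no .no (.br (.br .no (.br (.sw 2 3 [27,32,33]) .no .no (.de 41)) .no .no) .no .no .no) (.br (.br .no (.br (.sw 2 3 [27,32,33]) .no .no (.de 41)) .no .no) .no (.de 44) .no)) (.br .no .no .no (.de 43)) .no) (.br .no .no (.de 42) .no) .no .no) .no .no) .no)) (.br .no .no .no (.br (.br .no (.sw 2 3 [27]) .no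 .no) .no (.br .no (.sy 31 75 4) .no .no) .no)) .no) (.br .no .no (.br .no .no .no (.br (.br .no (.sw 2 3 [27]) .no .no) .no (.br .no (.sy 31 75 4) .no .no) .no)) .no) .no .no)) (.br (.br .no (.br .no .no (.br .no .no .no (.br (.br .no (.sw 2 3 [27]) (.br .no (.br .no .no (.de 42) (.br (.br .no (.br .no .no (.br .no (.br (.de 48) .no .no .no) .no (.br (.de 47) .no .no .no)) .no) .no .no) .no .no .no)) (.br .no .no .no (.br (.br .no (.br .no .no (.br .no (.br (.br .no (.de 48) .no .no) .no .no .no) .no (.br (.de 47) (.br .no (.br .no .no (.br .no .no .no (.de 45)) .no) .no .no) .no .no)) .no) .no .no) .no .no .no)) .no) .no) .no (.br .no (.br .no (.br .no .no (.de 42) (.br (.br .no (.br (.br .no .no .no (.de 46)) .no .no .no) .no .no) .no .no .no)) (.br .no .no .no (.br (.br .no (.br (.br .no .no .no (.de 46)) .no .no .no) .no .no) .no .no .no)) .no) .no .no) .no)) .no) .no .no) .no .no .no))) (.br .no .no .no (.br .no .no (.br (.br .no (.br .no .no (.br .no (.br (.br .no (.sy 30 210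 4) .no .no) .no .no .no) .no (.br (.sw 1 2 [26]) (.de 34) .no .no)) .no) .no .no) .no .no (.br (.br .no (.br .no .no .no (.br (.sw 1 2 [26]) (.de 34) .no .no)) (.br .no (.br (.br .no (.br (.br .no (.br .no .no .no (.br (.br .no .no (.br .no .no .no (.de 41)) (.sw 1 2 [26,31,32])) .no .no .no)) (.br .no (.br (.br .no .no (.br .no .no .no (.de 41)) (.br .no .no (.br .no .no .no (.br .no (.de 48) .no .no)) .no)) .no .no (.br .no .no (.br .no .no .no (.de 41)) .no)) .no (.de 43)) .no) (.br .no .no (.de 42) .no) .no .no) .no .no) .no .no .no) .no (.br (.sw 1 2 [26]) (.de 34) .no .no)) .no) (.br .no .no (.br .no (.br (.br .no (.sy 30 210 4) .no .no) .no .no .no) .no (.br (.sw 1 2 [26]) (.de 34) .no .no)) .no) .no .no)) (.br (.br .no (.br .no .no (.br .no (.br (.br .no (.sy 30 210 4) (.br .no (.br .no .no (.de 42) (.br (.br .no .no .no (.br .no .no (.br .no (.br (.de 48) .no .no .no) .no (.sy 36 45 4)) .no)) .no .no .no)) (.br .no .no .no (.br (.br .no .no .no (.br .no .no (.br .no (.br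 (.br .no (.de 48) .no .no) .no .no .no) .no (.sy 36 45 4)) .no)) .no .no .no)) .no) .no) .no .no .no) .no (.br (.sw 1 2 [26]) (.br .no .no (.br .no (.br .no .no (.de 42) (.br (.br .no (.br (.br .no .no .no (.de 46)) .no (.br (.de 41) .no .no (.sw 0 1 [33])) .no) .no .no) .no .no .no)) (.br .no .no .no (.br (.br .no (.br (.br .no .no .no (.de 46)) .no (.br (.br .no (.br .no (.br .no .no (.br .no .no .no (.de 45)) .no) .no .no) .no .no) .no .no (.sw 0 1 [33])) .no) .no .no) .no .no .no)) .no) .no) .no .no)) .no) .no .no) .no .no .no))) .no) (.br .no .no (.br .no .no .no (.br .no .no (.br (.br .no (.br (.br .no .no .no (.br (.sy 29 180 4) (.de 34) .no .no)) .no (.sw 0 3 [24]) .no) .no .no) .no .no (.br (.br .no .no (.br (.br .no (.de 34) .no .no) .no .no (.sw 0 1 [25])) .no) (.br (.br .no .no .no (.br (.br .no (.br (.br .no .no (.br .no .no .no (.de 43)) .no) (.br (.br .no .no (.br .no (.br .no .no (.br .no .no .no (.br (.de 47) .no .no .no)) .no) .no .no) (.br .no (.br .no .no (.br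 .no .no .no (.br (.de 47) .no .no .no)) .no) (.de 44) .no)) .no (.de 42) .no) .no .no) .no .no) (.de 34) .no .no)) .no (.sw 0 3 [24]) .no) .no .no)) (.br (.br .no (.br (.br .no .no .no (.br (.sy 29 180 4) (.br .no .no (.br .no (.br .no .no (.de 42) (.br .no .no (.de 43) .no)) (.br .no .no .no (.br .no .no (.de 43) .no)) .no) .no) .no .no)) .no (.sw 0 3 [24]) .no) .no .no) .no .no .no))) .no) .no .no))

def c7_1_1 : Cert := (.br (.br .no .no .no (.br (.br .no (.br .no .no (.br (.br .no (.sy 19 180 4) .no .no) .no .no (.br .no (.br .no (.br .no .no (.br .no .no .no (.br (.br .no (.br (.br .no .no (.br (.br .no (.br .no .no (.br .no .no .no (.br .no .no (.br .no (.sw 0 3 [19,26]) .no (.de 34)) .no)) .no) .no .no) .no .no (.br (.br .no (.br .no .no (.sy 24 228 7) (.br .no .no (.br .no (.sw 0 3 [19,26]) .no (.br (.sy 33 57 3) .no .no .no)) .no)) (.br .no .no .no (.br .no .no (.br .no (.sw 0 3 [19,26]) .no (.sy 30 78 3)) .no)) .no) (.br .no .no (.br .no .no .no (.br .no .no (.br .no (.sw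 0 3 [19,26]) .no (.sy 30 78 3)) .no)) .no) .no .no)) (.br (.br .no (.br .no .no (.br .no .no .no (.br .no .no (.br .no (.br .no .no (.sy 30 75 4) .no) .no .no) .no)) .no) .no .no) .no .no (.br (.br .no (.br .no .no (.br .no .no .no (.br .no (.br (.sw 2 3 [27]) .no (.br .no (.br .no .no (.de 42) (.br (.br .no (.br (.br .no .no .no (.de 46)) .no (.br (.de 41) .no .no (.br (.de 47) .no .no .no)) .no) .no .no) .no .no .no)) (.br .no .no .no (.br (.br .no (.br (.br .no .no .no (.de 46)) .no (.br (.br .no (.br .no (.br .no .no (.br .no .no .no (.de 45)) .no) .no .no) .no .no) .no .no (.br (.de 47) (.sw 0 2 [34]) .no .no)) .no) .no .no) .no .no .no)) .no) .no) (.br (.br .no (.br .no .no (.de 42) (.br (.br .no (.br (.br .no (.sw 2 3 [27,31,32,33]) .no (.de 46)) .no .no .no) .no .no) .no .no .no)) (.br .no .no .no (.br (.br .no (.br (.br .no (.de 41) .no (.de 46)) .no .no .no) .no .no) .no .no .no)) .no) .no .no .no) .no)) (.br .no .no (.br .no (.br (.sw 2 3 [27]) .no (.br .no (.br .no .no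 (.de 42) (.br (.br .no (.br (.sw 2 3 [31,32]) .no .no (.de 45)) .no .no) .no (.de 43) .no)) (.br .no .no .no (.br (.br .no (.br (.sw 2 3 [31,32]) .no .no (.de 45)) .no .no) .no (.de 43) .no)) .no) .no) .no .no) .no)) (.br .no .no .no (.br .no .no (.br .no (.br (.sw 2 3 [27]) .no (.sy 30 75 4) .no) .no .no) .no)) .no) (.br .no .no (.br .no .no .no (.br .no .no (.br .no (.br (.sw 2 3 [27]) .no (.sy 30 75 4) .no) .no .no) .no)) .no) .no .no))) .no (.sw 0 3 [19]) .no) .no .no) .no .no .no)) .no) (.br .no (.br .no .no (.br (.br .no (.br (.br .no .no .no (.br (.sy 21 198 7) .no .no (.br (.br .no (.br .no .no (.sy 21 198 10) (.br .no .no (.br .no (.br (.br .no (.br .no .no (.de 42) (.br (.br .no (.br (.sw 2 3 [31,32]) .no .no (.de 45)) .no .no) .no (.de 43) .no)) (.br .no .no .no (.br (.br .no (.br (.sw 2 3 [31,32]) .no .no (.de 45)) .no .no) .no (.de 43) .no)) .no) .no .no .no) .no .no) .no)) .no (.br .no .no (.br .no .no .no (.sy 28 45 4)) .no)) .no .no .no))) .no (.sw 0 3 [19]) .no)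 .no .no) .no .no (.br (.br .no .no (.br .no .no .no (.sy 26 75 4)) .no) (.br (.br .no .no .no (.br (.br .no .no .no (.br (.br .no .no (.br .no .no .no (.br .no (.de 34) (.br .no (.br .no (.br .no .no (.de 42) .no) (.sy 28 108 7) .no) .no .no) .no)) .no) (.br (.br .no .no (.br .no (.de 34) .no .no) (.br .no (.de 34) (.br .no (.br .no (.br (.br .no .no (.br .no (.br (.br .no .no .no (.de 46)) .no .no .no) .no .no) (.br .no (.br (.br .no .no .no (.de 46)) .no .no .no) (.de 44) .no)) .no (.de 42) .no) (.br (.br .no .no (.br .no (.br (.br .no .no .no (.de 41)) .no .no .no) .no .no) (.br .no (.br (.br .no .no .no (.de 41)) .no .no .no) (.de 44) .no)) .no .no .no) .no) .no .no) .no)) .no (.sw 0 3 [24]) .no) .no .no)) .no .no (.br (.br .no (.br (.br .no .no (.br .no (.br (.sy 34 120 4) .no .no .no) .no .no) (.br .no (.br (.sy 34 120 4) .no .no .no) (.br (.sy 34 120 4) (.br .no (.br .no .no (.de 42) (.br .no .no (.de 43) .no)) (.br .no .no .no (.br .no .no (.de 43) .no)) .no) .no .no) .no))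 .no (.sw 0 3 [24]) .no) .no .no) .no .no .no))) .no (.sw 0 3 [19]) .no) .no .no)) (.br (.br .no (.br (.br .no .no .no (.br (.br .no .no (.br .no (.br .no .no (.br .no .no .no (.br .no (.de 34) (.sy 29 135 4) .no)) (.br .no .no (.br .no (.de 34) .no .no) .no)) .no .no) .no) .no .no (.br (.br .no (.sw 2 3 [23]) (.br .no .no .no (.br .no .no (.br .no (.br (.sw 1 2 [21,22]) .no .no .no) .no .no) .no)) .no) .no (.br .no (.br .no .no (.br .no .no .no (.br .no (.br (.br (.br .no .no .no (.br (.br .no (.br (.sy 35 120 4) .no (.br .no .no .no (.br .no (.de 48) (.br .no (.de 48) (.de 43) .no) .no)) .no) .no .no) .no .no .no)) (.br (.br .no .no .no (.br (.br .no .no (.br .no .no .no (.br .no .no (.br .no .no (.de 43) .no) .no)) .no) (.br (.br .no .no (.de 41) (.de 46)) .no (.br .no .no .no (.br .no .no (.br .no .no (.de 43) .no) .no)) .no) .no .no)) .no .no (.sw 0 2 [29])) .no .no) .no .no .no) (.sy 29 135 4) .no)) (.br .no .no (.br .no (.br (.br (.br .no .no .no (.br (.sw 1 2 [21,22,29,30])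 .no (.de 43) .no)) (.br (.br .no .no (.br (.br .no .no .no (.br .no .no (.de 41) .no)) (.br (.br .no .no (.de 41) (.de 46)) .no .no (.de 45)) .no .no) .no) .no .no (.sw 0 2 [29])) .no .no) .no .no .no) .no .no) .no)) .no .no) .no))) .no (.sw 0 3 [19]) .no) .no .no) .no .no .no)) .no .no) .no) .no .no)) (.br (.sy 14 120 5) .no .no .no)) (.br .no .no .no (.br (.sy 14 108 5) .no .no .no)) .no) .no (.br .no (.br .no .no (.sw 0 3 [10,11]) (.br (.br .no (.br .no (.br (.br .no .no .no (.br (.br .no (.sw 2 3 [18]) (.br .no .no .no (.br .no .no (.br .no .no (.br .no (.br .no .no (.br .no (.sy 28 198 3) .no (.br (.sw 1 2 [25]) (.br (.br .no .no .no (.br (.br .no .no .no (.br (.br .no .no (.br .no .no .no (.br .no (.de 41) (.sw 0 1 [32,33]) .no)) .no) (.br (.br .no .no (.br .no (.de 41) .no .no) (.sw 1 2 [25,32])) .no (.br .no .no .no (.br .no (.de 41) (.sw 0 1 [32,33]) .no)) .no) .no .no)) .no .no (.br (.br .no (.br (.sy 22 108 16) .no (.br .no .no .no (.br .no (.br (.br .no (.de 48) (.br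 .no .no .no (.de 44)) .no) .no .no .no) (.sw 0 1 [32,33]) .no)) .no) .no .no) .no .no .no))) .no .no .no) .no .no)) .no) .no .no) (.br .no (.sw 0 2 [16,22]) (.sy 22 108 7) .no)) .no)) .no) .no (.br .no (.br .no .no (.sw 0 3 [10,11,18,19]) (.br .no .no (.br .no .no (.br .no (.br (.br .no .no .no (.br (.br .no (.br (.sw 2 3 [26,27]) .no .no (.br (.br .no .no (.br .no (.br .no .no (.br .no .no .no (.br (.de 46) .no (.sy 36 135 4) .no)) .no) .no .no) (.br .no (.sw 0 2 [24,30]) (.de 43) .no)) .no .no (.br .no .no (.br .no (.br .no .no (.br .no .no .no (.br (.de 46) .no (.sy 36 135 4) .no)) .no) .no .no) .no))) .no .no) .no (.br (.br .no .no .no (.br (.br .no .no (.br .no (.br (.br .no (.br .no .no (.br .no (.de 48) .no .no) .no) .no (.br .no (.de 41) (.br .no (.de 48) .no .no) .no)) .no .no .no) .no .no) (.br .no (.sw 0 2 [24,30]) (.de 43) .no)) .no .no (.br .no .no (.br .no (.br (.br .no (.br .no .no (.br (.br .no (.de 48) .no .no) (.sw 0 2 [16,22,28]) .no .no) .no) .no (.br .no (.br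 (.br .no (.de 48) .no .no) .no .no .no) (.br (.br .no (.de 48) .no .no) (.sw 0 2 [16,22,28]) .no .no) .no)) .no .no .no) .no .no) .no))) (.sw 0 3 [10,11,18,19,26]) .no .no) .no)) .no .no .no) .no .no) (.br .no (.sw 0 2 [16,22]) (.br (.br .no .no .no (.br (.br .no (.br (.sw 2 3 [26,27]) .no .no .no) .no .no) .no (.br (.de 34) (.sw 0 3 [10,11,18,19,26]) .no .no) .no)) (.br (.br .no .no (.br (.de 34) (.sw 0 3 [10,11,18,19,26]) .no .no) .no) .no .no (.sw 0 2 [24])) .no .no) .no)) .no)) .no .no) .no)) .no .no .no) (.br (.br .no .no .no (.br (.br .no (.sw 2 3 [18]) (.br .no .no .no (.de 27)) .no) .no (.br .no (.br .no .no (.sw 0 3 [10,11,18,19]) (.de 27)) .no .no) .no)) (.br (.br .no .no (.br .no (.br .no .no (.sw 0 3 [10,11,18,19]) (.de 27)) .no .no) .no) .no .no (.sw 0 2 [16])) .no .no) .no) .no .no) .no .no .no)) .no .no) .no)) (.br (.br .no .no (.br .no (.br .no .no (.sw 0 3 [10,11]) (.br (.de 20) .no .no .no)) .no .no) .no) .no .no (.br (.br .no (.br .no .no (.br (.de 20) .no .no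 (.br (.br (.br .no (.br .no .no c7_1_0 (.br (.br .no (.br .no .no (.br .no .no .no (.br .no .no (.br (.br .no (.sw 2 3 [23]) (.br .no .no .no (.br (.br .no (.de 34) .no .no) .no .no .no)) .no) .no .no .no) (.br (.br .no (.sw 2 3 [23]) (.br .no .no .no (.br (.br .no (.br .no .no (.br .no (.br .no .no .no (.br (.sw 1 2 [30]) (.br .no .no (.br .no .no .no (.br (.de 41) .no .no .no)) .no) .no .no)) (.br .no (.de 42) .no (.br (.sw 1 2 [30]) (.br .no .no (.br .no .no .no (.br (.de 46) .no .no .no)) .no) .no .no)) .no) .no) .no .no) .no .no .no)) .no) .no (.br .no (.br .no .no (.br (.br .no (.br .no .no (.sy 34 75 4) .no) .no .no) .no .no (.br (.br .no (.br (.br .no .no .no (.br (.br .no (.br .no .no (.br .no .no .no (.br .no .no (.br .no (.de 48) (.de 43) .no) .no)) .no) .no .no) .no .no .no)) (.br (.br .no .no .no (.br (.br .no (.br .no .no (.br (.de 48) .no .no .no) (.br (.de 47) .no (.br .no .no (.de 43) .no) .no)) (.br .no .no .no (.br (.de 47) .no (.br .no .no (.de 43) .no) .no))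 .no) (.br .no .no (.br .no .no .no (.br (.de 47) .no (.br .no .no (.de 43) .no) .no)) .no) .no .no)) .no .no (.sw 0 2 [29])) .no .no) (.sy 34 75 4) .no) (.br .no .no (.sy 34 75 4) .no) .no .no)) (.br (.br .no (.br .no .no (.br (.br .no .no .no (.br (.br .no (.sw 2 3 [31]) (.br .no .no .no (.br (.de 46) .no .no .no)) .no) .no (.de 43) .no)) (.br (.br .no .no (.br .no (.br .no .no (.br (.de 41) .no .no (.br (.de 47) .no .no .no)) (.de 45)) .no .no) .no) .no .no (.sw 0 2 [29])) .no .no) .no) .no .no) .no .no .no)) .no .no) .no))) .no) .no .no) .no .no .no)) (.br .no .no .no (.br (.br .no (.br .no .no (.br .no .no .no (.br .no (.br (.br .no (.br .no .no (.br (.br .no (.sy 28 225 5) .no .no) .no .no (.br (.br .no .no (.br .no .no (.br .no .no .no (.br (.br .no (.br .no .no (.br .no (.br (.br .no (.de 48) .no .no) .no .no (.br .no (.br .no .no (.br .no .no .no (.de 45)) .no) .no .no)) .no (.br (.de 47) .no .no .no)) .no) .no .no) .no .no .no)) (.br .no .no (.br (.br .no (.br .no .no (.br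 .no (.br (.br .no (.de 48) .no .no) .no .no .no) .no (.br (.de 47) .no .no .no)) .no) .no .no) .no .no (.de 43)) .no)) .no) (.br .no .no (.sy 33 210 4) .no) .no .no)) (.br (.br .no (.sy 28 177 5) .no .no) .no .no .no)) (.br .no .no .no (.br (.br .no (.br .no .no (.br .no .no (.br .no (.de 42) .no (.br (.sw 1 2 [30]) (.br .no .no (.br .no .no .no (.br (.de 46) .no .no .no)) .no) .no .no)) (.br .no (.br (.br .no (.br .no .no (.br (.de 41) .no .no (.br (.de 47) .no .no .no)) (.de 45)) (.br .no .no .no (.br (.de 41) .no .no .no)) .no) .no .no .no) .no .no)) .no) .no .no) .no .no .no)) .no) .no .no .no) .no (.br (.sw 1 2 [22]) (.br .no .no (.br .no .no .no (.br (.br .no (.br .no .no (.sw 0 1 [14,20,21]) .no) .no .no) .no .no .no)) .no) .no .no))) .no) .no .no) .no .no .no)) .no) .no (.br .no (.br .no .no (.sw 0 3 [10,11,15,16]) (.br (.br .no (.br .no .no (.br .no .no .no (.sw 0 1 [14,20])) .no) .no .no) .no .no .no)) .no .no) .no) .no .no .no)) (.br (.de 20) .no .no .no)) (.br .no .no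 .no (.br (.de 20) .no .no .no)) .no) .no (.br .no (.br .no .no (.sw 0 3 [10,11]) (.br (.de 20) .no .no .no)) .no .no) .no)) .no .no)

theorem P7_1 : R.S 11 3602820 :=
  R.piece L hL (.br (.br .no (.br .no .no c7_1_1 .no) .no .no) .no .no .no) 11 3602820 4194304 (by norm_num) (by norm_num) (by norm_num) (by decide +kernel)

def c7_2_0 : Cert := (.br (.br .no .no (.br .no (.br (.br .no .no (.br (.br .no (.br .no .no .no (.br (.br .no .no (.br .no (.br .no .no .no (.br .no .no (.br (.br .no (.br .no (.br (.br .no .no (.br (.br .no (.br .no .no (.br .no .no .no (.br .no .no .no (.de 43))) (.br .no .no (.br .no .no .no (.de 43)) .no)) .no (.br .no .no (.br .no .no .no (.sy 36 156 5)) .no)) (.br .no .no .no (.de 45)) .no .no) .no) .no .no (.de 42)) .no (.br (.br .no .no (.br (.br .no (.br .no .no (.de 41) (.br .no .no (.sy 40 30 5) .no)) .no (.br .no .no (.de 41) .no)) (.br .no .no .no (.de 45)) .no .no) .no) .no .no .no)) .no .no) .no .no .no) .no)) .no (.br .no (.br .no .no (.br (.br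 .no (.br .no (.br (.br .no .no (.br (.sw 1 3 [30,31]) .no .no (.de 44)) .no) .no .no .no) .no (.br (.br .no .no (.br (.sw 1 3 [30,31]) .no .no (.de 44)) .no) (.de 42) .no .no)) .no .no) .no .no .no) (.br (.br .no (.sy 30 54 5) .no .no) .no (.br .no (.br .no (.br (.br .no .no (.br (.br .no (.br (.sy 36 216 4) .no .no (.sw 0 2 [33])) .no .no) .no .no .no) .no) .no .no .no) .no (.br (.br .no .no (.br (.br .no (.br (.sy 36 216 4) .no .no (.sw 0 2 [33])) .no .no) .no .no .no) .no) (.de 42) .no .no)) .no .no) .no)) .no .no)) (.br .no (.br .no .no .no (.br .no .no (.br (.br .no (.sy 33 180 5) .no .no) .no .no .no) .no)) .no .no)) .no .no (.br .no .no (.br .no (.br .no .no .no (.br .no .no (.br (.br .no (.br (.br .no .no .no (.br (.br .no (.br .no .no .no (.de 45)) .no .no) .no (.de 43) .no)) (.br (.br .no .no (.br (.br .no (.br .no .no (.br (.de 47) .no .no .no) (.br (.de 48) .no (.sw 0 3 [28]) .no)) .no (.br .no .no (.br (.de 47) .no .no .no) .no)) (.br .no .no .no (.de 45)) .no .no) .no)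 .no .no (.de 42)) .no .no) .no .no) .no .no .no) .no)) .no (.br .no (.br .no .no (.br (.br .no (.br (.br .no (.br (.br .no .no .no (.br .no (.de 45) .no .no)) .no (.br (.br .no (.br .no .no (.de 41) (.br .no .no (.br .no .no .no (.de 43)) .no)) .no (.br .no .no (.de 41) .no)) .no .no (.de 44)) .no) .no .no) (.br (.br .no .no (.br (.sw 1 3 [30,31]) .no .no (.de 44)) .no) .no .no .no) .no .no) .no .no) .no .no .no) (.sy 28 27 4)) .no .no)) .no))) .no (.de 27)) (.br .no .no .no (.de 27)) .no .no) .no) .no .no (.br (.sy 10 216 14) .no (.br (.br .no (.br .no .no .no (.br (.br .no .no (.br (.br .no (.br .no .no (.br (.sy 28 216 5) .no .no .no) (.br (.br .no (.sy 33 228 4) .no .no) .no (.br .no (.br .no (.br .no .no .no (.de 42)) .no (.br .no (.de 42) .no .no)) .no .no) .no)) .no (.br .no .no (.br (.sy 28 156 5) .no .no .no) .no)) (.sw 0 3 [23]) .no .no) .no) .no .no (.br (.br .no (.br .no .no .no (.br .no .no (.br (.br .no (.br .no (.br .no .no (.br (.br .no (.br .no .no .no (.de 45))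 .no .no) .no .no .no) (.de 42)) (.br .no .no .no (.br (.br .no (.br .no .no .no (.de 45)) .no .no) .no (.de 43) .no)) .no) .no .no) .no .no .no) .no)) .no .no) .no (.br (.br .no (.br .no .no (.br (.br .no (.br (.br .no (.br .no .no (.sw 0 3 [23,30]) (.br (.br .no (.br .no .no (.de 41) (.br .no .no (.br .no .no .no (.br .no .no (.de 44) .no)) .no)) .no (.br .no .no (.de 41) .no)) .no .no .no)) .no (.br .no .no (.de 43) .no)) (.br .no .no .no (.de 42)) .no .no) .no .no) .no .no .no) (.br (.br .no (.br (.br .no (.br .no .no (.sw 0 3 [23,30]) (.br (.br .no (.sw 2 3 [32]) (.br .no .no .no (.br .no .no (.br .no .no .no (.br .no .no (.de 44) .no)) .no)) .no) .no (.de 44) .no)) .no (.br .no .no (.de 43) .no)) (.br .no .no .no (.de 42)) .no .no) .no .no) .no (.br (.br (.br .no (.br .no .no (.sw 0 3 [23,30]) (.br (.br .no (.br .no .no .no (.br .no (.de 48) (.br .no .no .no (.br .no .no (.de 44) .no)) .no)) .no .no) .no (.de 44) .no)) .no (.br .no .no (.de 43) .no)) (.br .no .no .no (.de 42))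 .no .no) (.br (.br .no (.br .no .no (.sw 0 3 [23,30]) (.br (.br .no (.br (.br .no .no (.de 47) .no) .no .no (.sw 0 2 [33])) .no .no) .no (.de 44) .no)) .no (.br .no .no (.de 43) .no)) (.br .no .no .no (.de 42)) .no .no) .no .no) .no)) .no (.br .no .no (.br (.br .no (.br (.br .no (.br .no .no (.br (.sw 1 3 [31]) (.br .no .no .no (.de 45)) .no .no) .no) .no (.br .no (.br (.br .no (.br .no .no (.de 41) (.br .no .no (.br .no (.de 48) .no .no) .no)) .no (.br .no .no (.de 41) .no)) .no .no .no) (.de 43) .no)) (.br .no .no .no (.de 42)) .no .no) .no .no) .no .no .no) .no)) (.sw 0 3 [23]) .no .no) .no))) .no (.de 27)) (.br .no .no .no (.de 27)) .no .no) .no)) .no (.br (.br .no .no (.br (.br .no (.br .no .no .no (.sy 27 30 5)) .no (.de 27)) (.br .no .no .no (.de 27)) .no .no) .no) .no .no .no)) (.br .no (.br (.br .no .no (.br (.br .no (.br .no .no (.br (.br .no .no (.br .no (.br .no .no .no (.br .no .no (.br (.br .no (.sw 2 3 [21,27]) .no .no) .no .no (.br .no (.br .no (.br (.br .no .no (.br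 (.br .no (.br (.sy 36 216 4) .no (.sw 0 3 [33]) .no) .no .no) (.br (.br .no .no (.br .no .no .no (.br .no .no .no (.de 43))) .no) .no .no .no) .no .no) .no) .no .no (.de 42)) .no (.br (.br .no .no (.br (.br .no (.br (.sy 36 216 4) .no (.de 41) .no) .no .no) (.br (.br .no .no (.de 41) .no) .no .no .no) .no .no) .no) .no .no .no)) .no .no)) .no)) .no (.br .no (.sy 10 216 21) .no .no)) (.br .no (.br .no .no .no (.br .no .no (.br (.br .no (.sw 2 3 [21,27]) .no .no) .no .no (.sy 29 39 4)) .no)) .no .no)) .no (.br .no .no .no (.br .no (.br .no .no .no (.br .no .no (.br (.br .no (.br (.br .no .no (.br (.br .no (.br .no .no .no (.de 45)) .no .no) .no .no .no) .no) (.br (.br .no .no (.br (.br .no (.br .no .no (.br (.de 47) .no .no (.sw 0 2 [28])) (.br (.de 48) .no .no .no)) .no (.br .no .no (.br (.de 47) .no .no (.sw 0 2 [28])) .no)) (.br .no .no .no (.de 45)) .no .no) .no) .no (.br (.br .no (.br .no .no .no (.de 45)) .no .no) .no .no .no) .no) .no .no) .no .no) .no .no (.sy 29 39 4)) .no))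 .no .no)) .no) .no) .no (.br .no .no (.sy 23 156 5) .no)) (.br .no .no .no (.br .no .no (.br (.br .no .no (.br .no (.br (.br .no .no (.br (.br .no (.sy 31 216 4) .no .no) (.de 34) .no .no) .no) .no .no (.br (.br .no (.de 34) .no .no) .no (.sw 0 1 [25]) .no)) .no (.br (.br .no .no (.br (.br .no (.sy 31 216 4) .no .no) (.de 34) .no .no) .no) .no .no .no)) (.br .no (.br (.br .no .no (.br (.br .no (.sy 31 216 4) .no .no) (.de 34) .no .no) .no) .no .no (.br (.br .no (.de 34) .no .no) .no (.sw 0 1 [25]) .no)) .no .no)) .no (.br .no .no .no (.br .no (.br (.br .no .no (.br (.br .no (.br (.br .no .no (.br .no .no .no (.de 43)) .no) (.br (.br .no .no (.br .no (.br .no .no .no (.de 45)) .no (.de 44)) (.br .no (.br .no .no .no (.de 45)) .no .no)) .no (.br .no .no .no (.de 43)) .no) .no .no) .no .no) (.br (.br (.br .no .no (.br .no .no .no (.de 43)) .no) (.br (.br .no .no (.br .no (.br (.br .no .no (.br .no .no .no (.br .no .no .no (.de 43))) (.de 41)) .no .no (.de 45)) .no (.de 44)) (.br .no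 (.br (.br .no .no (.br .no .no .no (.br .no .no .no (.br .no .no (.de 44) .no))) (.de 41)) .no .no (.de 45)) .no .no)) .no (.br .no .no .no (.de 43)) .no) .no .no) .no .no .no) .no .no) .no) .no .no (.br (.br .no (.br (.sy 29 54 5) .no .no .no) .no .no) .no (.sw 0 1 [25]) .no)) .no .no)) .no) .no)) .no .no) .no) .no .no (.br (.sy 10 216 14) .no (.br (.br .no (.br .no .no (.br (.br .no .no (.br (.br .no (.br .no .no (.br (.sy 28 216 5) .no .no (.br .no (.br .no (.br .no .no .no (.de 42)) .no (.br .no (.de 42) .no .no)) .no .no)) (.br (.br .no (.sw 2 3 [21,27]) .no .no) .no .no .no)) .no (.br .no .no (.br (.sy 28 156 5) .no .no (.sy 28 156 5)) .no)) (.sw 0 3 [23]) .no .no) .no) .no (.br (.br .no (.br .no .no .no (.br .no .no (.br (.br .no (.br .no (.br .no .no (.sw 0 3 [23,29]) (.de 42)) .no (.br .no .no (.br (.br .no (.br .no .no .no (.de 45)) .no .no) .no .no .no) .no)) .no .no) .no .no (.br (.sy 31 30 5) (.br .no (.br .no .no (.sw 0 3 [23,29]) (.de 42)) .no (.br .no .no (.br (.br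 .no (.br (.br .no .no (.br (.de 47) .no .no .no) .no) .no .no .no) .no .no) .no .no .no) .no)) .no .no)) .no)) .no .no) .no .no .no) .no) .no) .no (.br .no .no (.sy 26 27 4) .no)) (.br .no .no .no (.sy 21 39 5)) .no .no) .no)) .no .no)) .no .no (.br .no .no (.br .no (.br (.br .no .no (.br (.br .no (.br (.sy 23 216 4) .no .no .no) .no .no) (.br (.de 27) .no .no .no) .no .no) .no) .no .no (.br (.br .no (.br (.de 27) .no .no .no) .no .no) .no (.br (.br .no (.br (.br (.br .no .no (.br (.br .no (.br .no .no (.br .no .no .no (.br .no (.br .no (.br .no .no .no (.de 42)) .no (.br .no (.de 42) .no .no)) .no .no)) (.br .no .no (.br .no (.sw 0 3 [20,27]) .no (.sy 32 30 5)) .no)) .no (.br .no .no (.br .no .no .no (.sy 28 156 5)) .no)) (.sw 0 3 [23]) .no .no) .no) .no .no (.br (.br .no (.br .no .no .no (.br .no .no (.br .no .no .no (.br .no (.sy 31 27 4) .no .no)) .no)) .no .no) .no (.br (.br .no (.br .no .no (.br .no .no .no (.br .no (.br (.br .no (.br .no .no (.sw 0 3 [23,30]) (.br (.br .no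 (.br (.br .no .no (.de 47) .no) .no (.de 41) .no) .no .no) .no .no .no)) .no (.br .no .no (.de 43) .no)) (.br .no .no .no (.de 42)) .no .no) .no .no)) (.br .no .no (.br .no (.sw 0 3 [20,27]) .no .no) .no)) .no (.br .no .no (.br .no .no .no (.br .no (.sy 31 27 4) .no .no)) .no)) (.sw 0 3 [23]) .no .no) .no)) .no .no .no) .no .no) (.br (.de 27) .no .no .no) .no .no) .no)) .no (.br (.br .no .no (.br (.br .no (.br (.sy 23 216 4) .no .no .no) .no .no) (.br (.de 27) .no .no .no) .no .no) .no) .no .no .no)) (.br .no (.br (.br .no .no (.br (.br .no (.br (.sy 23 216 4) .no (.sw 0 3 [20]) .no) .no .no) (.br (.br .no .no (.br (.br .no .no (.br .no (.br (.br .no .no (.br .no (.de 34) .no (.br .no (.br .no (.br (.br .no .no (.br .no (.br (.br .no .no (.br .no .no .no (.br .no .no .no (.de 43))) .no) .no .no .no) .no (.de 44)) (.br .no (.br (.br .no .no (.br .no .no .no (.br .no .no .no (.br .no .no (.de 44) .no))) .no) .no .no .no) .no .no)) .no .no (.de 42)) .no (.br (.br .no .no (.br .no (.br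 (.br .no .no (.de 41) .no) .no .no .no) .no (.de 44)) (.br .no (.br (.br .no .no (.de 41) .no) .no .no .no) .no .no)) .no .no .no)) .no .no)) (.br .no (.de 34) .no .no)) .no .no (.br .no .no (.br .no (.de 34) .no (.sw 0 1 [25,26])) .no)) .no (.br (.br .no .no (.br .no (.de 34) .no (.br .no (.br .no (.br (.br .no (.br .no .no .no (.br (.br .no .no (.br .no .no .no (.br .no .no .no (.br .no .no (.de 44) .no))) .no) (.de 45) .no .no)) (.sw 1 3 [30]) .no) .no .no .no) .no (.br (.br .no (.br .no .no .no (.br (.br .no .no (.de 41) .no) (.de 45) .no .no)) (.sw 1 3 [30]) .no) (.de 42) .no .no)) .no .no)) (.br .no (.de 34) .no .no)) .no .no .no)) (.br .no (.br (.br .no .no (.br .no (.de 34) .no (.br .no (.br .no (.br (.sw 2 3 [29]) .no (.br .no .no .no (.de 43)) .no) (.br (.br .no .no (.br .no (.br (.br .no .no (.sy 35 201 5) .no) .no .no .no) .no (.de 44)) (.br .no (.br (.br .no .no (.br .no .no .no (.br .no (.br .no .no (.de 44) .no) .no (.br .no .no (.de 44) .no))) .no) .no .no .no) .no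 .no)) .no .no .no) .no) .no .no)) (.br .no (.de 34) .no .no)) .no .no (.br .no .no (.br .no (.de 34) .no (.sw 0 1 [25,26])) .no)) .no .no)) .no (.br .no .no .no (.br .no (.br (.br .no .no (.br .no (.sw 0 3 [20,26]) .no (.br (.br (.br .no .no (.br .no .no .no (.de 43)) .no) (.br (.br .no .no (.br .no (.br (.br .no (.br .no .no .no (.sy 38 177 4)) (.sw 1 3 [33]) .no) .no .no .no) .no (.de 44)) (.br .no (.br (.br .no (.br .no .no .no (.sy 38 177 4)) (.sw 1 3 [33]) .no) .no .no .no) .no .no)) .no (.br .no .no .no (.de 43)) .no) .no .no) (.br (.br .no .no (.br .no .no .no (.de 43)) .no) (.br (.br .no .no (.br .no (.br (.br .no .no (.br (.de 47) .no .no (.sw 0 1 [34])) .no) .no .no .no) .no (.de 44)) (.br .no (.br (.br .no .no (.br (.de 47) .no .no (.sw 0 1 [34])) .no) .no .no .no) .no .no)) .no (.br .no .no .no (.de 43)) .no) .no .no) .no .no)) (.br .no (.br (.br (.br .no .no (.br .no .no .no (.de 43)) .no) (.br (.br .no .no (.br .no (.br (.sw 2 3 [32]) .no (.sw 0 3 [20,26,31,32]) .no)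 .no .no) (.br .no (.br (.sw 2 3 [32]) .no (.br .no .no .no (.de 41)) .no) (.de 44) .no)) .no (.br .no .no .no (.de 43)) .no) .no .no) .no .no .no) .no .no)) .no .no (.br .no .no (.br .no (.sw 0 3 [20,26]) .no (.sw 0 1 [25,26])) .no)) .no .no)) .no) .no) .no .no .no) .no .no) .no) .no .no (.br (.br .no (.br (.sy 21 54 5) .no .no .no) .no .no) .no (.br (.br .no (.br (.sy 25 180 5) .no (.sw 0 3 [20]) .no) .no .no) (.br (.br .no .no (.br (.br .no .no (.br (.br .no .no .no (.br .no .no (.br .no (.de 34) .no (.sw 0 1 [25,26])) .no)) (.sw 0 3 [23]) .no .no) .no) .no (.br (.br .no (.br (.br .no .no (.br .no (.sw 0 3 [20,26]) .no (.br (.sy 34 216 4) (.br .no (.br .no .no (.sw 0 3 [23,29]) (.de 42)) .no (.br .no .no (.br .no .no .no (.de 43)) .no)) .no .no)) (.br .no (.br (.sy 34 216 4) .no .no .no) .no .no)) .no .no (.sw 0 2 [24])) .no .no) .no .no .no) .no) .no) .no .no .no) .no .no) .no)) .no .no)))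

def c7_2_1 : Cert := (.br .no .no (.br .no (.br (.br .no .no (.br (.sw 1 3 [17,18]) .no .no (.br (.de 27) (.br (.br (.br .no .no (.br .no (.br (.br .no .no (.br .no .no .no (.br .no (.br .no (.br (.br .no .no (.br .no (.sw 0 3 [25,31]) .no (.de 44)) (.br .no (.br (.br .no .no (.br .no .no .no (.br .no .no .no (.br .no .no (.de 44) .no))) .no) .no .no .no) .no .no)) .no .no (.de 42)) .no (.br (.br .no .no (.br .no (.sw 0 3 [25,31]) .no (.de 44)) (.br .no (.br (.br .no .no (.de 41) .no) .no .no .no) .no .no)) .no .no .no)) .no .no)) .no) .no .no .no) .no (.br (.br .no .no (.br .no .no .no (.br .no (.br .no (.br (.br .no (.br .no .no .no (.br (.br .no .no (.br .no .no .no (.br .no .no .no (.br .no .no (.de 44) .no))) .no) (.de 45) .no .no)) (.sw 1 3 [30]) .no) .no .no .no) .no (.br (.br .no (.br .no .no .no (.br (.br .no .no (.de 41) .no) (.de 45) .no .no)) (.sw 1 3 [30]) .no) (.de 42) .no .no)) .no .no)) .no) (.br (.br .no .no (.br .no (.sw 0 3 [20,27]) .no (.br .no (.br (.br .no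 .no (.br .no .no .no (.de 44)) .no) .no .no .no) .no (.br (.br .no .no (.br .no .no .no (.de 44)) .no) (.de 42) .no .no))) (.br .no (.br .no (.br (.br .no .no (.br .no .no .no (.de 44)) .no) .no .no .no) .no (.br (.br .no .no (.br .no .no .no (.de 44)) .no) (.de 42) .no .no)) .no .no)) .no (.sw 0 3 [25]) .no) .no .no)) (.br .no (.br (.br .no .no (.br .no .no .no (.br .no (.br .no (.br (.sw 2 3 [29]) .no (.br .no .no .no (.de 43)) .no) (.br (.br .no .no (.br .no (.sw 0 3 [25,31]) .no (.de 44)) (.br .no (.br (.br .no .no (.br .no .no .no (.br .no (.br .no .no (.de 44) .no) .no (.br .no .no (.de 44) .no))) .no) .no .no .no) .no .no)) .no .no .no) .no) .no .no)) .no) .no .no .no) .no .no)) .no .no (.br .no .no (.br .no (.br (.br .no .no (.br .no .no .no (.br .no (.br (.br .no .no .no (.br .no .no (.de 43) .no)) (.br (.br .no .no (.br .no (.sw 0 3 [25,31]) .no (.de 44)) (.br .no (.br (.br .no .no (.br (.de 47) .no .no .no) .no) .no .no .no) .no .no)) .no .no (.de 42)) .no .no) .no .no))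 .no) .no .no .no) .no (.br (.br .no .no (.br .no .no .no (.sy 28 30 5)) .no) (.br (.br .no .no (.br .no (.sw 0 3 [20,27]) .no .no) (.br .no (.sy 33 39 4) .no .no)) .no (.sw 0 3 [25]) .no) .no .no)) .no)) .no .no .no) .no .no)) .no) .no .no .no) .no (.br (.br .no .no (.br (.sw 1 3 [17,18]) .no .no (.br (.de 27) (.br (.br (.br .no (.br .no .no .no (.br (.br .no .no (.br .no .no .no (.br .no (.br .no .no (.br (.br .no (.br .no .no .no (.br (.br .no .no (.br .no .no .no (.br .no (.br .no .no (.de 44) (.br .no .no (.br .no (.br .no .no .no (.br (.de 48) .no .no .no)) .no .no) .no)) .no (.br .no .no (.de 44) .no))) .no) (.de 45) .no .no)) (.sw 1 3 [22,29,30]) .no) .no .no .no) (.br (.br .no (.br .no .no .no (.br (.br .no .no (.de 41) .no) (.de 45) .no .no)) (.br .no (.br (.br .no .no (.de 41) .no) .no .no .no) .no (.de 44)) .no) .no (.br .no (.br .no .no .no (.br (.br .no .no (.de 41) .no) (.de 45) .no .no)) .no .no) .no)) .no .no)) .no) (.br (.br .no .no (.br .no (.sw 0 3 [20,27]) .no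 (.br .no .no (.br (.br .no .no (.br .no .no .no (.de 44)) .no) .no .no .no) (.br (.br .no .no (.br .no .no .no (.de 44)) .no) .no (.br (.br .no .no (.br .no (.sw 0 3 [25,32]) .no (.br (.de 46) (.br .no .no (.sy 41 78 4) .no) .no .no)) (.br .no (.de 45) .no .no)) .no .no .no) .no))) (.br .no (.sy 34 177 4) .no .no)) .no (.sw 0 3 [25]) .no) .no .no)) (.sw 1 3 [22]) .no) (.br .no .no (.br .no (.br (.br .no .no (.br .no .no .no (.de 34)) .no) .no .no .no) .no (.br (.br .no .no (.br .no .no .no (.de 34)) .no) (.br (.br .no .no (.br .no .no .no (.br (.br .no (.br (.br .no .no (.br .no (.sw 0 3 [25,32]) .no (.br (.de 46) (.br .no .no (.sw 0 3 [20,27,34]) .no) .no .no)) (.br .no (.de 45) .no .no)) .no (.br .no .no .no (.de 44)) .no) .no .no) .no .no (.br (.br .no .no (.br .no .no .no (.de 44)) .no) (.de 42) .no .no))) (.de 34)) .no (.sw 0 3 [25]) .no) .no .no)) .no) .no .no) .no .no .no) .no .no)) .no) (.br (.br .no .no .no (.br (.de 27) (.br (.br (.br .no .no (.br .no .no .no (.br .no (.br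 (.br .no .no (.br .no (.sw 0 3 [20,27]) .no (.br .no (.br (.br .no .no (.br .no .no .no (.de 44)) .no) .no .no .no) .no (.br (.br .no .no (.br .no .no .no (.de 44)) .no) (.de 42) .no .no))) (.br .no (.br .no (.br (.br .no .no (.br .no .no .no (.de 44)) .no) .no .no .no) .no (.br (.br .no .no (.br .no .no .no (.de 44)) .no) (.de 42) .no .no)) .no .no)) .no (.br .no .no .no (.br .no (.br .no (.br (.br .no .no (.br (.br .no (.br (.sy 36 216 4) .no (.sw 0 3 [20,27,33]) .no) .no .no) .no .no (.de 44)) .no) .no .no .no) .no (.br (.br .no .no (.br (.br .no (.br (.sy 36 216 4) .no (.de 41) .no) .no .no) .no .no (.de 44)) .no) (.de 42) .no .no)) .no .no)) .no) (.br (.br .no .no (.sy 29 78 4) (.br .no (.br .no (.br (.br .no (.br .no .no .no (.br .no (.de 45) (.br (.br .no .no (.de 47) (.br .no .no .no (.br .no .no (.de 44) .no))) .no .no .no) .no)) .no .no) .no .no .no) .no (.br (.br .no (.br .no .no .no (.br .no (.de 45) (.br (.br .no .no (.de 47) .no) .no .no .no) .no)) .no .no) (.de 42)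 .no .no)) .no .no)) .no .no .no) .no)) .no) (.br (.br .no .no (.br .no (.br (.br .no .no (.br .no .no .no (.br .no .no (.br .no (.br (.br .no .no (.br .no (.br (.de 41) .no .no .no) .no (.br (.de 41) (.br (.br .no .no .no (.br .no .no (.br .no .no .no (.br .no (.br (.br .no .no (.br .no (.sw 0 3 [5,12]) .no .no) .no) .no .no .no) .no .no)) .no)) .no .no .no) .no .no)) (.br .no (.de 45) .no .no)) .no .no (.br .no .no (.de 44) .no)) .no (.br (.br .no .no (.br .no (.br (.de 41) .no .no .no) .no (.br (.de 41) (.br (.br .no (.de 48) .no .no) .no .no .no) .no .no)) (.br .no (.de 45) .no .no)) .no .no .no)) (.br .no (.de 42) .no .no))) (.de 34)) .no (.br .no .no .no (.de 34)) .no) .no .no) (.br .no (.br (.br .no .no (.br .no .no .no (.br .no .no (.br .no (.br (.sw 2 3 [30]) .no (.br .no .no .no (.de 44)) .no) .no .no) (.br .no (.de 42) (.br (.br .no .no (.br .no (.br (.br .no .no (.de 47) .no) .no .no .no) .no (.br (.de 46) (.br (.br .no (.de 48) .no .no) .no (.sw 0 3 [20,27,34]) .no) .no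 .no)) (.br .no (.de 45) .no .no)) .no .no .no) .no))) (.de 34)) .no (.br .no .no .no (.de 34)) .no) (.br (.br .no .no (.br .no .no .no (.br .no .no (.br .no (.br (.br .no (.br .no .no .no (.de 45)) .no (.sw 1 2 [31])) .no .no .no) .no .no) (.br .no (.de 42) (.br (.br .no (.br .no .no .no (.de 45)) .no (.sw 1 2 [31])) (.br .no .no .no (.br .no (.de 45) .no .no)) .no .no) .no))) (.de 34)) .no .no .no) .no)) .no (.br .no .no .no (.br .no (.br (.br .no .no (.br .no .no .no (.br (.br .no (.br (.br .no .no (.br .no (.br (.sy 35 228 5) .no .no .no) .no (.br (.de 46) (.br .no .no (.sw 0 3 [20,27,34]) .no) .no .no)) (.br .no (.de 45) .no .no)) .no (.br .no .no .no (.de 44)) .no) .no .no) .no .no (.br (.br .no .no (.br .no .no .no (.de 44)) .no) (.de 42) .no .no))) (.de 34)) .no (.br .no .no .no (.de 34)) .no) (.br (.br .no .no (.sy 29 78 4) (.de 34)) .no .no .no) .no)) .no) .no .no) .no .no .no) .no .no)) .no (.br (.br .no (.br (.br (.br .no .no (.br (.sw 1 3 [17,18,22,23]) .no .no (.sw 0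 1 [23])) .no) (.br (.br .no .no .no (.br .no (.br .no .no (.br .no .no .no (.de 34)) (.br .no .no (.br .no .no .no (.sy 30 39 4)) .no)) .no .no)) .no (.br (.br .no (.br .no .no (.br .no .no .no (.de 34)) (.br .no .no (.br .no .no .no (.br (.br .no (.br .no .no (.br (.br .no (.br (.br .no .no (.de 47) .no) .no .no .no) .no .no) .no .no .no) (.br (.br .no (.br (.br .no .no (.de 47) .no) .no .no .no) .no .no) .no (.de 44) .no)) .no (.br .no .no (.de 43) .no)) .no .no (.br .no (.de 42) .no .no))) .no)) .no (.br .no .no (.br .no .no .no (.de 34)) .no)) .no .no (.sw 0 1 [23])) .no) .no .no) .no .no .no) .no .no) .no .no (.br (.de 27) (.br (.br (.br .no .no (.br (.br .no (.br (.sy 28 216 4) .no (.sw 0 3 [25]) .no) .no .no) .no .no (.sw 0 1 [23])) .no) (.br (.br .no .no .no (.br (.br .no .no (.br .no .no .no (.de 34)) .no) (.sw 0 2 [24]) .no .no)) .no (.br (.br .no (.br (.br .no .no (.br .no .no .no (.br (.br .no (.br .no .no (.br .no .no .no (.de 44)) (.br .no .no (.de 44) .no)) .no (.br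 .no .no (.de 43) .no)) .no .no (.br .no (.de 42) .no .no))) (.de 34)) .no (.sw 0 3 [25]) .no) .no .no) .no .no (.sw 0 1 [23])) .no) .no .no) .no .no .no) .no .no)) .no) .no .no)) (.br .no (.br (.br .no .no (.br (.sw 1 3 [17,18]) .no .no (.br (.br .no .no (.br (.br .no .no (.br .no (.br (.br .no (.br .no .no .no (.br .no (.sy 30 177 4) .no .no)) (.sw 1 3 [17,18,25]) .no) .no .no .no) .no (.br (.br .no (.br .no .no .no (.br .no (.br .no (.br (.br .no (.br .no .no (.br (.br .no .no (.sy 35 225 5) .no) .no .no .no) (.br (.br .no .no (.br .no .no .no (.br .no .no .no (.br .no .no (.de 44) .no))) .no) .no (.br (.br .no .no (.de 47) (.br .no .no .no (.br .no .no (.de 44) .no))) .no .no .no) .no)) (.sw 1 3 [30]) .no) .no .no .no) .no (.br (.br .no (.br .no .no (.br (.br .no .no (.de 41) .no) .no .no .no) (.br (.br .no .no (.de 41) .no) .no (.br (.br .no .no (.de 47) .no) .no .no .no) .no)) (.sw 1 3 [30]) .no) (.de 42) .no .no)) .no .no)) (.sw 1 3 [17,18,25]) .no) (.br .no .no (.br .no (.de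 34) .no (.br .no (.br .no (.br (.br .no .no (.br (.sw 1 3 [17,18,25,30,31]) .no .no (.de 44)) .no) .no .no .no) .no (.br (.br .no .no (.br (.sw 1 3 [17,18,25,30,31]) .no .no (.de 44)) .no) (.de 42) .no .no)) .no .no)) .no) .no .no)) (.br .no (.br (.br .no (.br .no .no .no (.br .no (.sy 30 177 4) .no .no)) (.sw 1 3 [17,18,25]) .no) .no .no .no) .no .no)) .no (.br .no .no .no (.br .no (.br (.br .no (.br .no .no .no (.br (.br (.br .no .no (.br .no .no .no (.de 43)) .no) (.br (.br .no .no (.br .no .no .no (.de 44)) (.br .no .no (.de 44) .no)) .no (.br .no .no .no (.de 43)) .no) .no .no) (.sy 30 177 4) .no .no)) (.sw 1 3 [17,18,25]) .no) .no .no .no) .no .no)) .no) .no) (.br (.br (.br .no .no (.br .no (.br (.br .no .no (.br .no .no .no (.br .no (.sw 2 3 [21]) (.sy 32 78 4) .no)) .no) .no .no .no) .no (.br (.br .no .no (.br .no .no .no (.br .no (.sw 2 3 [21]) (.sy 32 78 4) .no)) .no) (.br (.br .no .no (.br .no (.sw 2 3 [21]) .no .no) (.br .no (.sw 2 3 [21]) (.br .no (.br (.br .no .no (.br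 .no .no .no (.de 44)) .no) .no .no .no) .no (.br (.br .no .no (.br .no .no .no (.de 44)) .no) (.de 42) .no .no)) .no)) .no (.sw 0 3 [25]) .no) .no .no)) (.br .no (.br (.br .no .no (.br .no .no .no (.br .no (.sw 2 3 [21]) (.br .no (.br (.sw 2 3 [29]) .no (.br .no .no .no (.de 43)) .no) (.br (.br .no .no (.br .no (.sw 0 3 [25,31]) .no (.de 44)) (.br .no (.br (.br .no (.br .no .no .no (.br .no (.br .no .no (.de 44) .no) .no (.br .no .no (.de 44) .no))) .no .no) .no .no .no) .no .no)) .no .no .no) .no) .no)) .no) .no .no .no) .no .no)) .no (.br .no .no .no (.br .no (.br (.br .no .no (.br .no .no .no (.br .no (.br (.br .no .no (.br .no .no .no (.de 43)) .no) (.br (.br .no .no (.br .no (.sw 0 3 [25,31]) .no (.de 44)) (.br .no (.br (.br .no .no (.br (.de 47) .no .no (.sw 0 2 [28])) .no) .no .no .no) .no .no)) .no (.br .no .no .no (.de 43)) .no) .no .no) .no .no)) .no) .no .no .no) .no .no)) .no) .no (.sw 0 3 [20]) .no) .no .no)) .no) .no .no .no) .no .no))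

def c7_2_2 : Cert := (.br (.br .no .no (.br .no (.br .no .no .no (.br .no .no c7_2_0 .no)) .no (.br .no (.br .no .no (.br (.br .no .no (.br .no (.br (.br .no .no (.br (.sw 1 3 [17,18]) .no .no (.br .no (.br .no .no .no (.br (.br .no .no (.br .no (.br (.br .no .no (.br (.br .no (.sy 31 216 4) .no .no) .no .no .no) .no) .no .no .no) .no (.br (.br .no .no (.br (.br .no (.sy 31 216 4) .no .no) .no .no .no) .no) (.br (.br .no .no (.br .no (.br .no (.br (.br .no .no (.br .no .no .no (.de 44)) .no) .no .no .no) .no (.br (.br .no .no (.br .no .no .no (.de 44)) .no) (.de 42) .no .no)) .no .no) .no) .no (.sw 0 3 [25]) .no) .no .no)) (.br .no (.br (.br .no .no (.br (.br .no (.sy 31 216 4) .no .no) .no .no .no) .no) .no .no .no) .no .no)) .no .no (.br .no .no (.br .no (.br (.br .no .no (.br (.br .no (.br (.br .no .no .no (.br .no .no (.de 43) .no)) (.br (.br .no .no (.br .no (.sw 0 3 [25,31]) .no (.de 44)) (.br .no (.br .no .no .no (.de 45)) .no .no)) .no .no (.de 42)) .no .no) .no .no) .no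 .no .no) .no) .no .no .no) .no (.br (.br .no .no (.br (.sy 28 30 5) .no .no .no) .no) (.br (.br .no .no (.br (.sy 32 156 5) (.br (.br .no (.br (.br .no .no (.br .no (.sw 0 3 [25,32]) .no (.br (.de 46) .no .no .no)) (.br .no (.de 45) .no .no)) .no (.br .no .no .no (.de 44)) .no) .no .no) (.br (.br .no .no (.br .no .no .no (.de 44)) .no) .no .no .no) .no .no) .no .no) .no) .no (.sw 0 3 [25]) .no) .no .no)) .no))) .no .no)) .no) .no .no .no) .no (.br (.br .no .no (.br (.sw 1 3 [17,18]) .no .no (.br .no (.br .no .no .no (.sy 25 39 4)) .no .no)) .no) (.br (.br .no .no .no (.br .no (.br .no .no .no (.sy 25 39 4)) .no .no)) .no (.br (.br .no (.br .no .no .no (.br (.br .no .no (.br (.sw 1 3 [17,18,22,23]) .no .no (.sw 0 1 [23])) .no) (.br (.br .no .no .no (.br .no (.br .no .no (.br (.de 34) .no .no .no) (.br (.de 34) .no (.br (.sy 34 180 5) .no .no .no) .no)) .no .no)) .no (.br (.br .no (.br .no .no (.br (.de 34) .no .no .no) (.br (.de 34) .no (.br (.br (.br .no (.br .no .no (.br (.br .no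 (.br .no .no .no (.br .no .no (.sw 1 3 [17,18,22,23,28]) .no)) .no .no) .no .no .no) (.br (.br .no (.br .no .no .no (.br .no .no (.sw 1 3 [17,18,22,23,28]) .no)) .no .no) .no (.de 44) .no)) .no (.br .no .no (.de 43) .no)) .no .no (.br .no (.de 42) .no .no)) .no .no .no) .no)) .no (.br .no .no (.br (.de 34) .no .no .no) .no)) .no .no (.sw 0 1 [23])) .no) .no .no)) .no (.de 27)) .no .no (.br .no (.br .no .no .no (.sy 25 39 4)) .no .no)) .no) .no .no)) (.br .no (.br (.br .no .no (.br (.sw 1 3 [17,18]) .no .no (.br .no (.br .no .no (.br (.br .no .no (.br .no (.br (.br .no .no (.br (.sw 1 3 [17,18,25,26]) .no .no (.br .no (.br .no (.br (.br .no .no (.br .no (.sw 0 3 [25,31]) .no (.de 44)) (.br .no (.br (.br .no .no (.br .no .no .no (.br .no .no .no (.br .no .no (.de 44) .no))) .no) .no .no .no) .no .no)) .no .no (.de 42)) .no (.br (.br .no .no (.br .no (.sw 0 3 [25,31]) .no (.de 44)) (.br .no (.br (.br .no .no (.de 41) .no) .no .no .no) .no .no)) .no .no .no)) .no .no)) .no) .no .no .no)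 .no (.br (.br .no .no (.br (.sw 1 3 [17,18,25,26]) .no .no (.br .no (.br .no (.br (.br .no (.br .no .no .no (.br (.br .no .no (.br .no .no .no (.br .no .no .no (.br .no .no (.de 44) .no))) .no) (.de 45) .no .no)) (.sw 1 3 [30]) .no) .no .no .no) .no (.br (.br .no (.br .no .no .no (.br (.br .no .no (.de 41) .no) (.de 45) .no .no)) (.sw 1 3 [30]) .no) (.de 42) .no .no)) .no .no)) .no) (.br (.br .no .no .no (.br .no (.br .no (.br (.br .no .no (.br .no .no .no (.de 44)) .no) .no .no .no) .no (.br (.br .no .no (.br .no .no .no (.de 44)) .no) (.de 42) .no .no)) .no .no)) .no (.sw 0 3 [25]) .no) .no .no)) (.br .no (.br (.br .no .no (.br (.sw 1 3 [17,18,25,26]) .no .no (.br .no (.br .no (.br (.sw 2 3 [29]) .no (.br .no .no .no (.de 43)) .no) (.br (.br .no .no (.br .no (.sw 0 3 [25,31]) .no (.de 44)) (.br .no (.br (.br .no .no (.br .no .no .no (.br .no (.br .no .no (.de 44) .no) .no (.br .no .no (.de 44) .no))) .no) .no .no .no) .no .no)) .no .no .no) .no) .no .no)) .no) .no .no .no) .no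 .no)) .no (.br .no .no .no (.br .no (.br (.br .no .no (.br (.sw 1 3 [17,18,25,26]) .no .no (.br (.br (.br .no .no (.br .no .no .no (.de 43)) .no) (.br (.br .no .no (.br .no (.sw 0 3 [25,31]) .no (.de 44)) (.br .no (.br (.br .no (.br .no .no .no (.sy 38 177 4)) (.sw 1 3 [17,18,25,26,33]) .no) .no .no .no) .no .no)) .no (.br .no .no .no (.de 43)) .no) .no .no) (.br (.br .no .no (.br .no .no .no (.de 43)) .no) (.br (.br .no .no (.br .no (.sw 0 3 [25,31]) .no (.de 44)) (.br .no (.br (.br .no .no (.br (.de 47) .no .no (.sw 0 1 [34])) .no) .no .no .no) .no .no)) .no (.br .no .no .no (.de 43)) .no) .no .no) .no .no)) .no) .no .no .no) .no .no)) .no) .no) .no .no)) .no) .no .no .no) .no .no)) .no .no c7_2_1) (.br (.sy 17 54 5) .no .no .no)) .no .no)) (.br .no (.br .no .no .no (.br .no .no (.br (.sy 20 180 5) .no .no (.sy 16 39 4)) .no)) .no .no)) .no (.br .no .no .no (.br .no (.br .no .no .no (.br .no .no (.br (.br (.br .no (.br (.br .no .no (.br (.sy 21 228 4) (.br .no .no .no (.br .no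 .no (.br .no .no (.br .no .no .no (.br .no (.br (.br .no .no (.br (.br .no (.br (.sy 21 228 14) (.br (.sy 21 228 15) .no (.br .no .no .no (.de 43)) .no) .no .no) .no (.sy 31 156 5)) (.br .no .no .no (.br (.br .no .no (.br .no .no .no (.de 43)) .no) (.br (.br .no .no (.br .no (.br (.br .no .no (.br (.de 47) .no .no .no) .no) .no .no (.de 45)) .no (.de 44)) (.br .no (.br (.br .no .no (.br (.de 47) .no .no .no) .no) .no .no (.de 45)) .no .no)) .no (.br .no .no .no (.de 43)) .no) .no .no)) .no .no) .no) .no .no (.br (.br .no (.br .no .no .no (.sy 34 27 4)) .no .no) .no (.sw 0 1 [25]) .no)) .no .no)) (.br .no .no (.br .no (.br (.br .no .no (.br (.br .no (.br (.br .no .no .no (.br .no .no (.de 43) .no)) (.br (.br .no .no (.br .no (.br .no .no .no (.de 45)) .no (.de 44)) (.br .no (.br .no .no .no (.de 45)) .no .no)) .no .no (.de 42)) .no .no) .no .no) (.de 34) .no .no) .no) .no .no (.br (.br .no (.de 34) .no .no) .no (.sw 0 1 [25]) .no)) .no (.br (.br .no .no (.br (.sy 28 30 5) (.de 34)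 .no .no) .no) .no .no .no)) .no)) .no)) .no .no) .no) .no (.br (.br .no (.br .no .no .no (.br .no .no (.br .no .no (.br (.br .no (.br .no .no (.br (.br .no (.br .no .no .no (.br .no (.br .no .no (.br (.br .no (.br .no .no (.br (.de 41) .no .no .no) (.de 45)) .no (.br .no .no (.br (.de 41) .no .no .no) .no)) .no .no (.de 43)) (.de 42)) .no (.br .no .no (.br (.br .no (.br .no .no (.br (.br .no (.br .no (.br .no .no .no (.br .no .no (.br .no .no .no (.de 46)) .no)) .no .no) .no .no) .no .no .no) (.de 45)) .no (.br .no .no (.br (.br .no (.br .no (.br .no .no .no (.br .no .no (.br .no (.br .no .no .no (.br .no .no (.br (.sw 0 3 [5,12,18,24,29,35,48]) .no .no .no) .no)) .no .no) .no)) .no .no) .no .no) .no .no .no) .no)) .no .no (.de 43)) .no))) .no .no) .no .no .no) (.br (.br .no (.br .no .no .no (.br .no (.br .no .no (.br (.br .no (.sw 2 3 [31]) (.br .no .no .no (.br (.de 41) .no (.sy 36 141 4) .no)) .no) .no .no .no) (.de 42)) .no (.br .no .no (.br (.br .no (.sw 2 3 [31]) (.br .no .no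 .no (.br (.de 46) .no (.sy 36 141 4) .no)) .no) .no .no .no) .no))) .no .no) .no (.br (.br .no (.br .no (.br .no .no (.br (.br .no (.br .no .no .no (.de 45)) .no .no) .no .no .no) (.de 42)) .no (.br .no .no (.br (.br .no (.br .no .no .no (.de 45)) .no .no) .no .no .no) .no)) .no (.br .no (.br .no .no (.br (.br .no (.br .no .no .no (.de 45)) .no .no) .no .no .no) (.de 42)) .no (.br .no .no (.br (.br .no (.br .no .no .no (.de 45)) .no .no) .no .no .no) .no))) (.br .no .no .no (.br .no (.br .no .no (.br (.br .no (.br (.br .no .no (.br (.de 47) .no .no .no) .no) .no .no (.de 45)) .no .no) .no .no .no) (.de 42)) .no (.br .no .no (.br (.br .no (.br (.br .no .no (.br (.de 47) (.br .no (.br .no .no .no (.br .no .no (.br .no .no .no (.de 46)) .no)) .no .no) .no .no) .no) .no .no (.de 45)) .no .no) .no .no .no) .no))) .no .no) .no)) .no (.br .no .no (.br (.br .no (.br .no .no .no (.br .no (.br .no .no (.br (.sw 1 3 [30]) (.br .no .no .no (.br .no .no (.br (.de 41) .no .no .no) .no)) .no .no)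 .no) .no (.br .no (.de 42) (.br (.sw 1 3 [30]) (.br .no .no .no (.br .no .no (.br (.br .no (.br .no (.br .no .no .no (.br .no .no (.sw 0 1 [37]) .no)) .no .no) .no .no) .no .no .no) .no)) .no .no) .no))) .no .no) .no .no .no) .no)) .no .no (.br .no (.br .no .no (.br (.br .no (.br .no .no .no (.br (.br .no .no (.br (.br .no (.br .no .no (.br (.sy 35 216 5) .no .no .no) (.de 45)) .no (.br .no .no (.br (.sy 35 156 5) .no .no .no) .no)) .no .no (.de 43)) .no) (.br (.br .no .no .no (.br .no (.br .no .no (.br (.de 41) .no .no .no) (.de 45)) .no .no)) .no (.sw 0 3 [29]) .no) .no .no)) .no .no) .no .no .no) (.sw 0 2 [23,24])) .no .no)) (.br (.br .no (.br .no .no (.br (.br .no (.de 34) .no .no) .no .no .no) (.br (.br .no (.de 34) .no .no) .no (.br (.br .no (.br .no (.br .no .no (.br (.br .no (.br .no .no .no (.de 45)) .no .no) .no .no .no) (.de 42)) (.br .no .no .no (.br (.br .no (.br .no .no .no (.de 45)) .no .no) .no (.de 43) .no)) .no) .no .no) (.de 34) .no .no) .no)) .no (.br .no .no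 (.br (.br .no (.de 34) .no .no) .no .no .no) .no)) .no .no .no)) .no)) .no .no) .no .no .no) .no) .no .no) .no .no (.br (.br .no .no (.br (.br .no (.br .no .no .no (.br .no .no (.sy 26 30 5) .no)) .no .no) .no .no .no) .no) (.sw 0 2 [15]) .no .no)) .no .no (.sy 16 39 4)) .no)) .no .no)) .no)

def c7_2_3 : Cert := (.br (.br .no .no (.br .no (.br (.br .no .no (.br (.br .no .no (.br .no (.br (.br .no .no (.br .no (.de 34) .no (.br .no (.br .no (.br (.br .no .no (.br .no (.br (.br .no .no (.br .no .no .no (.br .no .no .no (.de 43))) .no) .no .no .no) .no (.de 44)) (.br .no (.br (.br .no .no (.br .no .no .no (.br .no .no .no (.br .no .no (.de 44) .no))) .no) .no .no .no) .no .no)) .no .no (.de 42)) .no (.br (.br .no .no (.br .no (.br (.br .no .no (.de 41) .no) .no .no .no) .no (.de 44)) (.br .no (.br (.br .no .no (.de 41) .no) .no .no .no) .no .no)) .no .no .no)) .no .no)) (.br .no (.de 34) .no .no)) .no .no (.br .no .no (.br .no (.de 34) .no (.br .no (.br .no (.br (.br .no .no (.br (.br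 .no (.br (.sy 36 216 4) .no (.br .no .no .no (.br .no .no .no (.de 43))) .no) .no .no) (.sw 0 3 [31]) .no .no) .no) .no .no (.de 42)) .no (.br (.br .no .no (.br (.br .no (.br (.sy 36 216 4) .no (.de 41) .no) .no .no) (.sw 0 3 [31]) .no .no) .no) .no .no .no)) .no .no)) .no)) .no (.br (.br .no .no (.br .no (.de 34) .no (.br .no (.br .no (.br (.br .no (.br .no .no .no (.br (.br .no .no (.br .no .no .no (.br .no .no .no (.br .no .no (.de 44) .no))) .no) (.de 45) .no .no)) (.sw 1 3 [30]) .no) .no .no .no) .no (.br (.br .no (.br .no .no .no (.br (.br .no .no (.de 41) .no) (.de 45) .no .no)) (.sw 1 3 [30]) .no) (.de 42) .no .no)) .no .no)) (.br .no (.de 34) .no .no)) .no .no .no)) (.br .no (.br (.br .no .no (.br .no (.de 34) .no (.br .no (.br .no (.br (.sw 2 3 [29]) .no (.br .no .no .no (.de 43)) .no) (.br (.br .no .no (.br .no (.br (.br .no .no (.sy 35 201 5) .no) .no .no .no) .no (.de 44)) (.br .no (.br (.br .no .no (.br .no .no .no (.br .no (.br .no .no (.de 44) .no) .no (.br .no .no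 (.de 44) .no))) .no) .no .no .no) .no .no)) .no .no .no) .no) .no .no)) (.br .no (.de 34) .no .no)) .no .no (.br .no .no (.br .no (.de 34) .no (.sy 29 39 4)) .no)) .no .no)) .no (.br .no .no .no (.br .no (.br (.br .no .no (.br .no (.br (.br (.br .no .no (.br .no .no .no (.de 43)) .no) (.br (.br .no .no (.br .no (.br (.br .no .no (.br .no .no .no (.br .no .no .no (.de 43))) (.de 41)) .no .no (.de 45)) .no (.de 44)) (.br .no (.br (.br .no .no (.br .no .no .no (.br .no .no .no (.br .no .no (.de 44) .no))) (.de 41)) .no .no (.de 45)) .no .no)) .no (.br .no .no .no (.de 43)) .no) .no .no) .no .no .no) .no (.br (.br (.br .no .no (.br .no .no .no (.de 43)) .no) (.br (.br .no .no (.br .no (.br (.br .no (.br .no .no .no (.sy 38 177 4)) (.sw 1 3 [33]) .no) .no .no .no) .no (.de 44)) (.br .no (.br (.br .no (.br .no .no .no (.sy 38 177 4)) (.sw 1 3 [33]) .no) .no .no .no) .no .no)) .no (.br .no .no .no (.de 43)) .no) .no .no) (.br (.br .no .no (.br .no .no .no (.de 43)) .no) (.br (.br .no .no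 (.br .no (.br (.br .no .no (.br (.de 47) .no .no (.sw 0 1 [34])) .no) .no .no .no) .no (.de 44)) (.br .no (.br (.br .no .no (.br (.de 47) .no .no (.sw 0 1 [34])) .no) .no .no .no) .no .no)) .no (.br .no .no .no (.de 43)) .no) .no .no) .no .no)) (.br .no (.br (.br (.br .no .no (.br .no .no .no (.de 43)) .no) (.br (.br .no .no (.br .no (.br (.sw 2 3 [32]) .no (.br .no .no .no (.de 41)) .no) .no .no) (.br .no (.br (.sw 2 3 [32]) .no (.br .no .no .no (.de 41)) .no) (.de 44) .no)) .no (.br .no .no .no (.de 43)) .no) .no .no) .no .no .no) .no .no)) .no .no (.br .no .no (.br .no (.br (.br (.br .no .no (.br (.br .no (.br (.sy 35 216 4) .no .no (.de 45)) .no .no) .no .no .no) .no) (.br (.br .no .no (.br (.br .no .no .no (.br .no .no (.br .no .no .no (.sy 36 156 5)) .no)) (.sw 0 3 [31]) .no .no) .no) .no (.br (.br .no (.br (.br .no .no (.br .no .no .no (.br .no .no .no (.de 43))) (.de 41)) .no .no (.de 45)) .no .no) .no .no .no) .no) .no .no) .no .no .no) .no (.sy 29 39 4)) .no)) .no .no))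 .no) .no) .no .no (.br .no .no (.br (.br .no .no (.br .no (.br (.br .no .no (.br (.br .no (.sy 31 216 4) .no .no) (.de 34) .no .no) .no) .no .no (.br (.br .no (.de 34) .no .no) .no (.br (.br .no (.br .no (.br (.br .no .no (.br (.br .no (.br .no .no (.sw 0 3 [26,33]) (.br .no .no (.br .no .no .no (.de 43)) .no)) .no (.br .no .no (.br .no .no .no (.sy 36 156 5)) .no)) (.sw 0 3 [31]) .no .no) .no) .no .no (.de 42)) .no (.br (.br .no .no (.br (.br .no (.br .no .no (.de 41) (.br .no .no (.sy 40 30 5) .no)) .no (.br .no .no (.de 41) .no)) (.sw 0 3 [31]) .no .no) .no) .no .no .no)) .no .no) (.de 34) .no .no) .no)) .no (.br (.br .no .no (.br (.br .no (.sy 31 216 4) .no .no) (.de 34) .no .no) .no) .no .no .no)) (.br .no (.br (.br .no .no (.br (.br .no (.sy 31 216 4) .no .no) (.de 34) .no .no) .no) .no .no (.br (.br .no (.de 34) .no .no) .no (.br (.br .no (.sy 33 180 5) .no .no) (.de 34) .no .no) .no)) .no .no)) .no (.br .no .no .no (.br .no (.br (.br .no .no (.br (.br .no (.br (.br .no .no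 (.br .no .no .no (.de 43)) .no) (.br (.br .no .no (.br .no (.br .no .no .no (.de 45)) .no (.de 44)) (.br .no (.br .no .no .no (.de 45)) .no .no)) .no (.br .no .no .no (.de 43)) .no) .no .no) .no .no) (.sw 0 3 [26]) .no .no) .no) .no .no (.br (.br .no (.br (.sy 29 54 5) .no .no .no) .no .no) .no (.br (.br .no (.br (.br .no .no (.br (.br .no (.br .no .no .no (.de 45)) .no .no) .no .no .no) .no) (.br (.br .no .no (.br (.br .no (.br .no .no (.sw 0 3 [26,33]) (.br (.de 48) .no .no .no)) .no (.br .no .no (.br (.de 47) .no .no (.sw 0 2 [28])) .no)) (.sw 0 3 [31]) .no .no) .no) .no (.br (.br .no (.br .no .no .no (.de 45)) .no .no) .no .no .no) .no) .no .no) .no .no) (.sw 0 3 [26]) .no .no) .no)) .no .no)) .no) .no)) .no (.br (.br .no .no (.br (.br .no .no (.br .no (.br (.br .no (.br .no .no .no (.br .no (.sy 30 177 4) .no .no)) (.sw 1 3 [25]) .no) .no .no .no) .no (.br (.br .no (.br .no .no .no (.br .no (.br .no (.br (.br .no (.br .no .no (.br (.br .no .no (.sy 35 225 5) .no) .no .no .no)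 (.br (.br .no .no (.br .no .no .no (.br .no .no .no (.br .no .no (.de 44) .no))) .no) .no (.br (.br .no .no (.de 47) (.br .no .no .no (.br .no .no (.de 44) .no))) .no .no .no) .no)) (.sw 1 3 [30]) .no) .no .no .no) .no (.br (.br .no (.br .no .no (.br (.br .no .no (.de 41) .no) .no .no .no) (.br (.br .no .no (.de 41) .no) .no (.br (.br .no .no (.de 47) .no) .no .no .no) .no)) (.sw 1 3 [30]) .no) (.de 42) .no .no)) .no .no)) (.sw 1 3 [25]) .no) (.br .no .no (.br .no (.de 34) .no (.br .no (.br .no (.br (.br .no .no (.br (.sw 1 3 [25,30,31]) .no .no (.de 44)) .no) .no .no .no) .no (.br (.br .no .no (.br (.sw 1 3 [25,30,31]) .no .no (.de 44)) .no) (.de 42) .no .no)) .no .no)) .no) .no .no)) (.br .no (.br (.br .no (.br .no .no .no (.br .no (.sy 30 177 4) .no .no)) (.sw 1 3 [25]) .no) .no .no .no) .no .no)) .no (.br .no .no .no (.br .no (.br (.br .no (.br .no .no .no (.br (.br (.br .no .no (.br .no .no .no (.de 43)) .no) (.br (.br .no .no (.br .no .no .no (.de 44)) (.br .no .no (.de 44)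 .no)) .no (.br .no .no .no (.de 43)) .no) .no .no) (.sy 30 177 4) .no .no)) (.sw 1 3 [25]) .no) .no .no .no) .no .no)) .no) .no) .no .no .no)) (.br .no (.br (.br .no .no (.br (.br .no .no (.br .no (.br (.sw 2 3 [24]) .no (.br .no .no .no (.br .no (.de 34) .no .no)) .no) .no .no) (.br .no (.br (.sw 2 3 [24]) .no (.br .no .no .no (.br .no (.de 34) .no .no)) .no) (.br (.br .no .no (.br .no (.de 34) .no (.br .no (.br .no (.br (.br .no (.sw 2 3 [24,29,30]) .no (.sw 1 2 [30])) .no .no .no) (.br (.br .no (.br .no .no .no (.br (.br .no .no (.br .no .no .no (.br .no (.br .no .no (.de 44) (.br .no .no (.br .no (.br .no .no .no (.br (.de 48) .no .no .no)) .no .no) .no)) .no (.br .no .no (.de 44) .no))) .no) (.de 45) .no .no)) .no (.sw 1 2 [30])) (.br .no .no .no (.br .no (.br (.br .no .no (.br .no .no .no (.sy 40 75 5)) .no) .no .no .no) .no .no)) .no .no) .no) .no .no)) (.br .no (.de 34) .no .no)) .no .no .no) .no)) .no (.br .no .no .no (.br .no (.br (.sw 2 3 [24]) .no (.br .no .no .no (.br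 .no (.br (.br (.br .no .no (.br (.br .no (.br (.sw 2 3 [24,31,32]) .no (.br .no .no .no (.br .no (.de 48) .no .no)) .no) .no .no) .no .no (.de 43)) .no) (.br (.br .no .no .no (.br (.br .no .no (.br .no .no .no (.de 41)) .no) (.sw 0 2 [31]) .no .no)) .no (.br (.br .no (.br (.sw 2 3 [24,31,32]) .no (.br .no .no .no (.de 41)) .no) .no .no) .no .no (.de 43)) .no) .no .no) .no .no .no) .no .no)) .no) (.br (.br .no .no (.sy 28 78 4) (.br .no (.br (.br (.br .no (.br .no .no .no (.br .no (.br (.sw 2 3 [32]) .no (.br .no .no .no (.br .no (.de 48) .no .no)) .no) (.de 44) .no)) .no .no) (.br (.br .no (.br .no .no (.br (.br .no .no (.sy 35 225 5) (.de 41)) .no .no .no) .no) .no (.sw 1 2 [30])) .no .no .no) .no .no) .no .no .no) .no .no)) .no .no .no) .no)) .no) .no) .no .no (.br .no .no (.sy 24 39 4) .no)) .no .no)) .no (.br .no .no .no (.br .no (.br (.br .no .no (.br (.br .no .no .no (.br (.br .no .no (.br .no .no .no (.br .no (.de 34) .no .no)) .no) (.sw 0 2 [23]) .no .no)) .no (.br (.br .no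 (.br (.br .no .no (.br .no (.br (.sy 34 216 4) .no .no .no) .no (.br (.sy 34 216 4) (.br .no (.br .no .no (.br .no .no .no (.de 43)) (.de 42)) .no (.br .no .no (.br .no .no .no (.de 43)) .no)) .no .no)) (.br .no (.br (.sy 34 216 4) .no .no .no) .no .no)) .no (.br .no .no .no (.br .no (.br (.br .no (.br .no .no (.br (.br .no (.br (.br .no .no (.br .no .no .no (.br .no .no .no (.de 43))) (.de 41)) .no (.br .no .no .no (.de 41)) .no) .no .no) .no .no (.de 43)) (.de 42)) .no (.br .no .no (.br (.br .no (.br (.br .no .no (.br .no (.sy 34 216 12) .no .no) (.de 46)) .no (.br .no .no .no (.br .no (.br .no (.br .no .no .no (.br .no .no (.br .no .no .no (.sw 0 1 [22,29,30,37,38])) .no)) .no .no) .no .no)) .no) .no .no) .no .no (.de 43)) .no)) .no .no .no) .no .no)) .no) .no .no) .no .no (.sw 0 1 [22])) .no) .no) .no .no (.br .no .no (.sy 24 39 4) .no)) .no .no)) .no)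

def c7_2_4 : Cert := (.br .no (.br (.br .no .no (.br .no .no .no (.br .no (.br (.br .no .no (.br .no .no (.br .no (.br (.br .no .no (.br .no .no .no (.br .no (.br (.br (.br .no .no (.br .no (.br (.br .no .no (.br .no .no .no (.br .no (.de 48) .no .no)) .no) .no .no .no) .no (.de 43)) (.br .no (.br (.br .no .no (.br .no .no .no (.br .no (.de 48) .no .no)) .no) .no .no .no) .no .no)) .no .no (.br .no .no (.br .no (.br (.br .no .no (.br .no .no .no (.br .no (.br .no (.br .no .no .no (.br .no .no (.br .no (.br (.br .no .no (.br (.sw 0 3 [5,35,48]) .no .no .no) .no) .no .no .no) .no (.br (.sw 1 3 [45]) .no .no .no)) .no)) .no .no) .no .no)) .no) .no .no .no) .no (.de 43)) .no)) .no .no (.br (.br .no .no (.br .no (.br (.br .no .no (.br (.br .no (.de 48) .no .no) .no .no .no) .no) .no .no .no) .no (.de 43)) (.br .no (.br (.br .no .no (.br (.br .no (.de 48) .no .no) .no .no .no) .no) .no .no .no) .no .no)) .no .no (.br .no .no (.br .no (.br (.br .no .no (.br (.br .no (.br .no (.br .no .no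 .no (.br .no .no (.br .no (.br .no .no .no (.br .no .no (.sw 0 3 [34,40,46]) .no)) .no (.de 46)) .no)) .no .no) .no .no) .no .no .no) .no) .no .no .no) .no (.de 43)) .no))) .no .no)) .no) .no .no .no) .no (.br (.br .no .no (.br .no .no .no (.br .no (.br (.br (.br .no (.br .no .no .no (.br (.br .no .no (.br .no .no .no (.br .no (.de 48) .no .no)) .no) (.br (.br .no .no (.br .no (.de 48) .no (.br .no .no .no (.br .no .no (.de 44) .no))) (.de 46)) .no (.br .no .no .no (.br .no (.de 48) .no .no)) .no) .no .no)) (.sw 1 3 [29]) .no) (.br .no .no (.br .no (.br (.br .no .no (.br .no .no .no (.de 41)) .no) .no .no .no) .no (.de 43)) .no) .no .no) .no .no (.sy 32 39 4)) .no .no)) .no) (.br (.br .no .no (.br .no (.br (.br (.br .no .no (.br .no .no .no (.de 43)) .no) (.br (.br .no .no (.br .no (.br (.br .no .no (.br .no .no .no (.br .no .no .no (.de 43))) (.de 41)) .no .no (.de 45)) .no (.de 44)) (.br .no (.br (.br .no .no (.br .no .no .no (.br .no .no .no (.br .no .no (.de 44) .no))) (.de 41))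 .no .no (.de 45)) .no .no)) .no (.br .no .no .no (.de 43)) .no) .no .no) .no .no (.br (.br .no .no (.br .no .no .no (.de 43)) .no) (.br (.br .no .no (.br .no (.br (.br .no .no (.br (.de 47) .no .no .no) .no) .no .no (.de 45)) .no (.de 44)) (.br .no (.br (.br .no .no (.br (.de 47) .no .no .no) .no) .no .no (.de 45)) .no .no)) .no (.br .no .no .no (.de 43)) .no) .no .no)) .no (.br (.br (.br .no .no (.br .no .no .no (.de 43)) .no) (.br (.br .no .no (.br .no (.br (.br .no (.br .no .no .no (.sy 38 177 4)) (.sw 1 3 [33]) .no) .no .no .no) .no (.de 44)) (.br .no (.br (.br .no (.br .no .no .no (.sy 38 177 4)) (.sw 1 3 [33]) .no) .no .no .no) .no .no)) .no (.br .no .no .no (.de 43)) .no) .no .no) .no .no .no)) (.br .no (.br (.br (.br .no .no (.br .no .no .no (.de 43)) .no) (.br (.br .no .no (.br .no (.br (.sw 2 3 [32]) .no (.br .no .no .no (.de 41)) .no) .no .no) (.br .no (.br (.sw 2 3 [32]) .no (.br .no .no .no (.de 41)) .no) (.de 44) .no)) .no (.br .no .no .no (.de 43)) .no) .no .no) .no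 .no (.sy 32 39 4)) .no .no)) .no (.br .no .no .no (.br .no (.br (.br (.br .no .no (.br (.br .no (.br (.sy 35 216 4) .no (.br .no .no .no (.br .no (.de 48) .no .no)) .no) .no .no) .no .no (.de 43)) .no) (.br (.br .no .no .no (.br (.br .no .no (.br .no .no .no (.de 41)) .no) (.sw 0 2 [31]) .no .no)) .no (.br (.br .no (.br (.br .no .no (.br .no .no .no (.br .no .no .no (.de 43))) (.de 41)) .no (.br .no .no .no (.de 41)) .no) .no .no) .no .no (.de 43)) .no) .no .no) .no .no (.sy 32 39 4)) .no .no)) .no) .no .no)) (.br .no (.br (.br .no .no (.br .no .no .no (.br .no (.br (.br (.br .no .no (.br .no (.br (.br .no .no (.br .no .no .no (.br .no (.de 48) (.sy 39 78 4) .no)) .no) .no .no .no) .no (.de 43)) (.br .no (.br (.br .no .no (.br .no .no .no (.br .no (.de 48) (.br .no (.de 48) .no .no) .no)) .no) .no .no .no) .no .no)) .no (.br .no .no .no (.br .no (.br (.br .no .no (.br .no .no .no (.br .no (.br .no (.br .no .no (.br .no .no .no (.br .no (.br (.br .no .no (.br (.sw 0 3 [5,48]) .no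 .no .no) .no) .no .no .no) .no .no)) .no) .no .no) .no .no)) .no) .no .no .no) .no .no)) .no) .no .no .no) .no .no)) .no) .no .no .no) .no .no)) (.br .no .no (.br .no (.br (.br .no .no (.br .no .no .no (.br .no (.br (.sw 2 3 [27]) .no .no .no) (.br (.sy 31 78 4) .no .no .no) .no)) .no) .no .no .no) .no (.br (.br .no .no (.br .no .no .no (.br .no (.br (.sw 2 3 [27]) .no .no .no) (.br (.sy 31 78 4) .no .no .no) .no)) .no) (.br (.br .no .no (.br .no (.br (.sw 2 3 [27]) .no .no .no) .no .no) (.br .no (.br (.sw 2 3 [27]) .no .no .no) (.br (.br (.br .no .no (.br .no .no .no (.de 43)) .no) (.br (.br .no .no (.br .no (.br (.br .no (.sw 2 3 [27,32,33]) .no (.de 41)) .no .no .no) .no .no) (.br .no (.br (.br .no (.sw 2 3 [27,32,33]) .no (.de 41)) .no .no .no) (.de 44) .no)) .no (.br .no .no .no (.de 43)) .no) .no .no) .no .no .no) .no)) .no (.br .no .no .no (.br .no (.br (.sw 2 3 [27]) .no .no .no) (.br (.sy 31 78 4) .no .no .no) .no)) .no) .no .no)) (.br .no (.br (.br .no .no (.br .no .no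 .no (.br .no (.br (.sw 2 3 [27]) .no (.br (.br .no .no (.br .no (.br (.br .no .no (.br (.br .no (.de 48) .no .no) .no .no (.br .no (.de 48) .no .no)) .no) .no .no .no) .no (.de 43)) (.br .no (.br (.br .no .no (.br (.br .no (.de 48) .no .no) .no .no (.br .no (.de 48) .no .no)) .no) .no .no .no) .no .no)) .no (.br .no .no .no (.br .no (.br (.br .no .no (.br (.br .no (.br .no (.br .no .no (.br .no .no .no (.br .no (.br .no .no .no (.br .no .no (.br (.sw 0 3 [5,48]) .no .no .no) .no)) .no .no)) .no) .no .no) .no .no) .no .no (.br (.br .no (.de 48) .no .no) (.sw 0 2 [34]) .no .no)) .no) .no .no .no) .no .no)) .no) .no) (.br (.br (.br .no .no (.br .no (.br (.br .no (.br .no .no .no (.br .no (.de 48) (.sy 41 201 5) .no)) .no .no) .no .no .no) .no (.de 43)) (.br .no (.br (.br .no (.br .no .no .no (.br .no (.de 48) (.br .no (.de 48) .no .no) .no)) .no .no) .no .no .no) .no .no)) .no (.br .no .no .no (.br .no (.br (.br .no (.br .no .no .no (.br .no (.sy 37 177 4) .no .no)) .no .no) .no .no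 .no) .no .no)) .no) .no .no .no) .no)) .no) .no .no .no) .no .no))) .no .no (.br .no .no (.br .no .no (.br .no (.br (.br .no .no (.br (.br .no (.br (.sy 30 216 4) .no .no (.br (.br .no .no (.br .no (.br .no .no .no (.br .no .no (.br (.br .no (.de 48) .no .no) .no .no .no) .no)) .no (.de 43)) (.br .no (.br .no .no .no (.br .no .no (.br (.br .no (.de 48) .no .no) .no .no .no) .no)) .no .no)) .no .no (.br .no .no (.br .no (.br .no .no .no (.br .no .no (.br (.br .no (.br .no (.br .no .no .no (.br .no .no (.br .no (.sw 0 3 [26,32,38]) .no .no) .no)) .no .no) .no .no) .no .no .no) .no)) .no (.de 43)) .no))) .no .no) .no .no .no) .no) .no .no .no) .no (.br (.br .no .no (.br (.br .no (.br (.sy 30 216 4) .no .no (.sy 34 30 5)) .no .no) .no .no .no) .no) (.br (.br .no .no (.br (.br .no .no .no (.sy 31 156 5)) (.sw 0 3 [26]) .no .no) .no) .no (.br (.br .no (.br (.br (.br .no .no (.br (.br .no (.br .no .no (.sw 0 3 [26,32]) (.de 45)) .no (.br .no .no (.br .no .no .no (.sy 35 156 5)) .no)) .no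 .no (.de 43)) .no) (.br (.br .no .no .no (.br .no (.br .no .no (.sw 0 3 [26,32]) (.de 45)) .no .no)) .no (.br (.br .no (.br .no .no (.sw 0 3 [26,32]) (.de 45)) .no (.br .no .no (.br .no .no .no (.de 41)) .no)) .no .no (.de 43)) .no) .no .no) .no .no (.sy 24 39 12)) .no .no) .no .no .no) .no) .no .no)) (.br .no (.br (.br .no .no (.br (.br .no (.br (.sy 30 216 4) .no .no .no) .no .no) .no .no .no) .no) .no .no .no) .no .no)) .no)) .no .no)) .no) .no .no .no) .no (.br (.br .no .no (.br .no .no .no (.br .no (.br (.br .no .no (.br .no (.br .no .no .no (.br (.br .no .no (.br .no .no .no (.br .no (.br (.br (.br .no (.br .no .no .no (.br (.br .no .no (.br .no .no .no (.br .no .no (.br .no .no .no (.br .no .no (.de 44) .no)) .no)) .no) (.br (.br .no .no (.br .no .no .no (.br .no .no .no (.br .no .no (.de 44) .no))) (.de 46)) .no (.br .no .no .no (.br .no .no (.sy 36 99 5) .no)) .no) .no .no)) (.br .no (.br (.br .no .no (.br .no .no .no (.br .no .no (.sw 1 3 [21,28,29]) .no)) .no) .no .no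 .no) .no (.de 43)) .no) .no (.br .no (.br .no .no .no (.br (.br .no .no (.br .no .no .no (.de 41)) .no) (.br (.br .no .no (.br .no .no .no (.sy 40 75 5)) (.de 41)) .no (.br .no .no .no (.de 41)) .no) .no .no)) .no .no) .no) .no .no .no) .no .no)) .no) (.br (.br .no .no (.br .no (.br (.sy 33 177 4) .no .no .no) .no (.br (.br (.br .no .no (.br .no .no .no (.de 43)) .no) .no (.br (.br .no .no (.br .no (.br (.br .no (.sy 35 201 5) (.sw 1 3 [33]) .no) .no .no .no) .no (.de 44)) (.br .no (.br (.br .no (.br .no .no .no (.br .no (.br .no .no (.de 44) .no) .no (.br .no .no (.de 44) .no))) (.sw 1 3 [33]) .no) .no .no .no) .no .no)) .no .no .no) .no) .no .no .no)) (.br .no (.sy 28 114 5) .no .no)) .no (.br .no .no .no (.br .no (.sy 28 99 5) .no .no)) .no) .no .no)) (.br .no (.br (.br .no .no (.br .no .no .no (.br .no (.br (.sw 1 3 [21]) .no .no .no) .no .no)) .no) .no .no .no) .no (.br (.br .no .no (.br .no .no .no (.br .no (.br (.sw 1 3 [21]) .no .no .no) .no .no)) .no) (.br (.br .no .no (.br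 .no (.br (.sw 1 3 [21]) .no .no .no) .no (.br (.sw 1 3 [21]) (.br (.br .no .no (.br .no .no .no (.de 43)) .no) (.br (.br .no .no (.br .no (.br (.br .no .no (.br (.de 47) .no .no (.sw 0 1 [34])) .no) .no .no .no) .no (.de 44)) (.br .no (.br (.br .no .no (.br (.de 47) .no .no (.sw 0 1 [34])) .no) .no .no .no) .no .no)) .no (.br .no .no .no (.de 43)) .no) .no .no) .no .no)) (.br .no (.br (.sw 1 3 [21]) .no .no .no) .no .no)) .no (.br .no .no .no (.br .no (.br (.sw 1 3 [21]) .no .no .no) .no .no)) .no) .no .no)) .no) .no) .no .no (.br .no .no (.sy 24 39 4) .no)) .no .no)) .no) c7_2_3 .no .no))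

theorem P7_2 : R.S 11 503172 :=
  R.piece L hL (.br .no .no (.br (.br .no (.br (.br .no .no (.br .no .no .no (.br .no (.br .no .no .no (.br .no .no (.br .no .no .no (.sy 16 39 4)) .no)) .no .no)) .no) c7_2_2 .no .no) .no (.sy 10 156 5)) (.br .no .no .no (.br (.br .no .no (.br .no .no .no (.br .no (.br (.br .no .no (.br .no c7_2_4 .no .no) .no) .no .no (.br (.br .no (.sy 16 54 5) .no .no) .no (.sw 0 1 [12]) .no)) .no .no)) .no) (.br (.br .no .no (.br .no (.br (.br .no .no (.br (.sy 18 216 4) .no .no .no) .no) .no .no (.br (.de 20) .no (.sw 0 1 [12]) .no)) .no (.br (.br .no .no (.br (.sy 18 216 4) .no .no .no) .no) .no .no .no)) (.br .no (.br (.br .no .no (.br (.sy 18 216 4) .no .no .no) .no) .no .no (.br (.de 20) .no (.sw 0 1 [12]) .no)) .no .no)) .no (.br .no .no .no (.br .no (.br (.br .no .no (.br (.br (.br .no (.br (.br .no .no (.br .no (.br .no .no .no (.br .no .no (.sy 18 216 12) .no)) .no (.br .no (.br .no .no (.br .no .no (.br .no .no .no (.br .no (.br (.br .no .no (.br (.sw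 1 3 [25,26]) .no .no (.br .no (.br (.br .no .no (.br .no .no .no (.de 43)) .no) (.br (.br .no .no (.br .no (.br (.br .no .no (.br (.de 47) .no .no (.br .no .no .no (.de 43))) .no) .no .no .no) .no (.de 44)) (.br .no (.br (.br .no .no (.br (.de 47) .no .no (.br .no .no .no (.br .no .no (.de 44) .no))) .no) .no .no .no) .no .no)) .no (.br .no .no .no (.de 43)) .no) .no .no) .no .no)) .no) .no .no .no) .no .no)) (.br .no .no (.br .no (.br (.br .no .no (.br (.sw 1 3 [25,26]) .no .no (.br .no (.br (.br .no .no .no (.br .no .no (.de 43) .no)) (.br (.br .no .no (.br .no (.br (.br .no .no (.br (.de 47) .no .no .no) .no) .no .no .no) .no (.de 44)) (.br .no (.br (.br .no .no (.br (.de 47) .no .no .no) .no) .no .no .no) .no .no)) .no .no (.de 42)) .no .no) .no .no)) .no) .no .no .no) .no (.br (.br .no .no (.br (.sw 1 3 [25,26]) .no .no (.sy 28 30 5)) .no) (.br (.br .no .no .no (.br .no (.sy 33 39 4) .no .no)) .no (.br (.br .no (.br (.br .no (.br (.br .no .no .no (.br .no (.de 45) .no .no))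 .no (.br (.br .no (.br .no .no (.de 41) (.br .no .no (.br .no .no .no (.de 43)) .no)) .no (.br .no .no (.de 41) .no)) .no .no (.de 44)) .no) .no .no) (.br (.br .no .no (.br (.sw 1 3 [25,26,30,31]) .no .no (.de 44)) .no) .no .no .no) .no .no) .no .no) .no .no (.sy 28 27 5)) .no) .no .no)) .no)) (.sy 25 54 5)) .no .no)) (.br .no (.br .no .no .no (.sy 21 180 5)) .no .no)) .no (.br .no .no .no (.br .no (.br .no .no .no (.br .no .no (.br .no .no (.br (.br .no (.br (.br .no .no (.br (.sy 29 228 4) (.br .no .no .no (.br .no (.br .no .no (.br .no .no .no (.de 43)) (.de 42)) .no (.br .no .no (.br .no .no .no (.de 43)) .no))) .no .no) .no) .no (.br (.sy 18 216 14) .no .no .no) .no) .no .no) .no .no (.br (.br .no .no (.br (.sy 18 216 14) .no .no .no) .no) (.sw 0 2 [23]) .no .no)) (.br (.br .no (.br (.br .no .no (.br (.sy 29 228 4) (.de 34) .no .no) .no) .no (.br (.sy 18 216 14) .no .no .no) .no) .no .no) .no .no .no)) .no)) .no .no)) .no) .no .no) .no .no (.br (.br .no .no (.br .no .no .no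 (.br .no (.br .no .no .no (.br .no .no (.sw 0 1 [14,20]) .no)) .no .no)) .no) (.sw 0 2 [15]) .no .no)) .no .no .no) .no) .no .no (.br (.de 20) .no (.sw 0 1 [12]) .no)) .no .no)) .no) .no .no)) .no .no) .no) 11 503172 4194304 (by norm_num) (by norm_num) (by norm_num) (by decide +kernel)

def c7_3_0 : Cert := (.br (.br .no .no (.br (.br .no (.br .no .no (.br (.sy 20 228 4) .no .no (.br .no .no (.br .no (.br .no .no .no (.br .no .no (.br (.sy 15 216 10) .no .no (.br (.de 27) (.br (.br (.br .no .no (.br (.br .no (.br (.sy 28 216 4) .no (.sw 0 3 [25]) .no) .no .no) (.sw 0 3 [10,17,23]) .no .no) .no) .no .no (.br (.sy 15 216 14) .no (.br (.br .no (.br (.br .no .no (.br .no (.sw 0 3 [20,27]) .no .no) (.br .no (.sy 30 180 5) .no .no)) .no (.sw 0 3 [25]) .no) .no .no) (.sw 0 3 [10,17,23]) .no .no) .no)) .no .no .no) .no .no)) .no)) .no (.br .no (.br .no .no (.sw 0 3 [10,17]) (.br (.br .no (.br (.sy 22 54 5) .no .no .no) .no .no) .no .no .no)) .no .no)) (.br .no (.br .no .no .no (.br .no .no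 (.br (.sy 15 216 10) .no .no (.sy 21 39 4)) .no)) .no .no))) (.br (.sy 20 228 4) .no .no .no)) .no (.br .no .no (.br (.sy 20 228 4) .no .no (.sy 15 156 5)) .no)) (.sw 0 3 [10]) .no .no) .no) .no (.br (.br .no (.br .no .no .no (.br .no .no (.br (.br (.br .no (.br .no .no (.sw 0 3 [10,16]) (.br (.br .no (.br .no .no .no (.br .no .no (.br .no .no (.br (.br .no (.sw 2 3 [23]) (.br .no .no .no (.br (.br .no (.br .no .no .no (.br .no (.br .no .no .no (.de 42)) .no (.br .no (.de 42) .no .no))) .no .no) .no (.sy 28 141 4) .no)) .no) .no .no .no) (.br (.br .no (.sw 2 3 [23]) (.br .no .no .no (.br (.br .no (.de 34) .no .no) .no (.br (.br .no (.br .no (.br .no .no .no (.de 42)) (.br .no (.br (.br .no (.br .no .no .no (.de 45)) .no .no) .no .no .no) .no (.br (.sw 1 2 [30]) (.br (.br .no (.br .no .no (.br (.de 47) .no .no .no) (.br (.br .no (.de 48) .no .no) .no .no .no)) .no (.br .no .no (.br (.de 47) .no .no .no) .no)) .no .no .no) .no .no)) .no) .no .no) (.de 34) .no .no) .no)) .no) .no (.br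 .no (.br .no .no (.br (.br .no (.de 34) .no .no) .no .no .no) (.br (.br .no (.de 34) .no .no) .no (.br (.br .no (.br (.br .no .no .no (.br (.br .no (.br .no .no .no (.de 45)) .no .no) .no (.de 43) .no)) (.br (.br .no .no (.br (.br .no (.br .no .no (.br (.de 47) .no .no .no) (.br (.de 48) .no (.br .no .no .no (.de 43)) .no)) .no (.br .no .no (.br (.de 47) .no .no .no) .no)) (.br .no .no .no (.de 45)) .no .no) .no) .no .no (.de 42)) .no .no) .no .no) (.de 34) .no .no) .no)) .no .no) .no)) .no)) .no .no) .no (.br (.br .no (.br .no .no (.br .no .no (.br (.br .no (.br .no .no .no (.br .no .no (.br (.br .no (.br .no (.br .no .no (.sw 0 3 [10,16,23,29]) (.de 42)) .no (.br .no .no (.br (.br .no (.br .no .no .no (.de 45)) .no .no) .no .no .no) .no)) .no (.br .no (.br .no .no (.sw 0 3 [10,16,23,29]) (.de 42)) .no (.br .no .no (.br (.br .no (.br .no .no .no (.de 45)) .no .no) .no .no .no) .no))) .no .no (.br .no (.br .no (.br .no .no (.sw 0 3 [10,16,23,29]) (.de 42)) .no (.br .no .no (.br (.br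 .no (.br (.br .no .no (.br (.de 47) .no .no .no) .no) .no .no .no) .no .no) .no .no .no) .no)) .no .no)) .no)) .no .no) .no .no .no) (.br (.br .no (.br .no .no .no (.br .no .no (.br (.br .no (.br .no (.br .no .no (.br (.br .no (.br .no .no .no (.de 45)) .no .no) .no .no .no) (.de 42)) (.br .no .no .no (.br (.br .no (.br .no .no .no (.de 45)) .no .no) .no (.de 43) .no)) .no) .no .no) .no .no (.br .no (.sy 31 27 4) .no .no)) .no)) .no .no) .no (.br (.br .no (.br .no .no (.br (.br .no (.br (.br .no (.br .no .no (.sw 0 3 [10,16,23,30]) (.br (.br .no (.br .no .no (.de 41) (.br .no .no (.br .no .no .no (.br .no .no (.de 44) .no)) .no)) .no (.br .no .no (.de 41) .no)) .no .no .no)) .no (.br .no .no (.de 43) .no)) (.br .no .no .no (.de 42)) .no .no) .no .no) .no .no (.br .no (.br (.br .no (.br .no .no (.sw 0 3 [10,16,23,30]) (.br (.br .no (.br (.br .no .no (.de 47) .no) .no (.de 41) .no) .no .no) .no .no .no)) .no (.br .no .no (.de 43) .no)) (.br .no .no .no (.de 42)) .no .no) .no .no))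 (.br (.br .no (.br (.br .no (.br .no .no (.sw 0 3 [10,16,23,30]) (.br (.br .no (.sw 2 3 [32]) (.br .no .no .no (.br .no .no (.br .no .no .no (.br .no .no (.de 44) .no)) .no)) .no) .no (.de 44) .no)) .no (.br .no .no (.de 43) .no)) (.br .no .no .no (.de 42)) .no .no) .no .no) .no .no .no)) .no (.br .no .no (.br (.br .no (.br (.br .no (.br .no .no (.br (.sw 1 3 [31]) (.br .no .no .no (.de 45)) .no .no) .no) .no (.br .no (.br (.br .no (.br .no .no (.de 41) (.br .no .no (.br .no (.de 48) .no .no) .no)) .no (.br .no .no (.de 41) .no)) .no .no .no) (.de 43) .no)) (.br .no .no .no (.de 42)) .no .no) .no .no) .no .no (.br .no (.sy 31 27 4) .no .no)) .no)) (.sw 0 3 [10,16,23]) .no .no) .no)) (.br .no .no (.br (.br .no (.br .no .no .no (.br .no .no (.br (.br .no (.sw 2 3 [27]) .no .no) .no .no .no) .no)) .no .no) .no .no .no) (.br (.br .no (.br .no .no .no (.br .no .no (.br (.br .no (.sw 2 3 [27]) (.br .no (.br .no .no (.br (.br .no (.br .no .no .no (.de 45)) .no .no) .no .no .no) (.de 42))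 (.br .no .no .no (.br (.br .no (.br .no .no .no (.de 45)) .no .no) .no (.de 43) .no)) .no) .no) .no .no .no) .no)) .no .no) .no (.br (.br .no (.br .no .no (.br (.br .no (.sw 2 3 [27]) (.sy 32 141 4) .no) .no .no .no) (.br (.br .no (.sw 2 3 [27]) (.br (.br .no (.br .no .no (.sw 0 3 [10,16,23,30]) (.br (.br .no (.sw 2 3 [32]) (.br .no (.de 41) .no (.br .no (.de 48) .no .no)) .no) .no (.de 44) .no)) .no (.br .no .no (.de 43) .no)) (.br .no .no .no (.de 42)) .no .no) .no) .no (.br .no (.sw 0 2 [15,16,21]) .no .no) .no)) .no (.br .no .no (.br (.br .no (.sw 2 3 [27]) (.sy 32 141 4) .no) .no .no .no) .no)) (.sw 0 3 [10,16,23]) .no .no) .no))) .no (.br .no .no (.br .no .no (.br (.br .no (.br .no .no .no (.br .no (.br (.br .no (.sy 30 114 4) .no (.br .no (.br .no .no (.sw 0 3 [10,16,23,29]) (.de 42)) .no (.br .no .no (.br (.br .no .no (.br .no .no .no (.br .no (.sy 30 114 10) (.sy 36 141 4) .no)) .no) .no .no .no) .no))) .no .no .no) (.br (.sw 1 3 [26]) (.br .no .no .no (.br .no (.br .no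 .no (.sw 0 3 [10,16,23,29]) (.de 42)) .no (.br .no .no (.br (.br .no (.br (.br .no .no (.br (.de 47) (.br .no (.br .no .no .no (.br .no .no (.br .no .no .no (.de 46)) .no)) .no .no) .no .no) .no) .no .no (.de 45)) .no .no) .no .no .no) .no))) .no .no) .no)) .no .no) .no .no .no) (.br (.br .no (.br .no .no .no (.br .no (.br (.br .no (.sy 30 114 4) .no .no) .no .no .no) (.br (.sw 1 3 [26]) (.de 34) .no .no) .no)) .no .no) .no (.br (.br .no (.br .no .no (.br (.sw 1 3 [26]) (.de 34) .no .no) .no) .no (.br .no (.br (.br .no (.br (.br .no (.br .no .no (.br (.br .no .no (.sw 1 3 [26,31,32]) (.br .no .no (.de 41) .no)) .no .no .no) .no) .no (.br .no (.br (.br .no .no (.br .no .no .no (.br .no .no (.br .no (.de 48) .no .no) .no)) (.br .no .no (.de 41) .no)) .no (.br .no .no .no (.br .no .no (.de 41) .no)) .no) (.de 43) .no)) (.br .no .no .no (.de 42)) .no .no) .no .no) .no .no .no) (.br (.sw 1 3 [26]) (.de 34) .no .no) .no)) (.sw 0 3 [10,16,23]) .no .no) .no)) .no)) (.br .no .no .no (.br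 .no .no (.br .no .no (.br (.br .no (.br (.br .no .no (.br (.sy 29 228 4) (.br .no .no .no (.br .no (.br .no .no (.sw 0 3 [10,16,23,29]) (.de 42)) .no (.br .no .no (.br .no .no .no (.de 43)) .no))) .no .no) .no) .no .no (.sw 0 2 [24])) .no .no) .no .no .no) (.br (.br .no (.br (.br .no .no (.br (.sy 29 228 4) (.de 34) .no .no) .no) .no .no (.sw 0 2 [24])) .no .no) .no (.br (.br .no .no .no (.br (.br .no (.de 34) .no .no) .no (.sw 0 1 [25]) .no)) (.sw 0 3 [10,16,23]) .no .no) .no)) .no)) .no .no) .no)) .no (.br .no .no (.br (.br .no (.br .no .no .no (.br .no .no (.br .no (.br (.br .no (.br .no .no (.br (.br .no (.sy 28 225 5) .no .no) .no .no .no) (.br (.br .no (.sy 28 177 5) .no .no) .no (.br (.br .no .no .no (.br .no .no (.br .no .no .no (.br (.br .no (.br .no .no .no (.de 45)) .no .no) .no (.de 43) .no)) (.br .no .no (.br (.br .no (.br .no .no .no (.de 45)) .no .no) .no .no .no) .no))) (.br .no .no .no (.sy 33 114 4)) .no .no) .no)) .no (.br .no .no (.br (.br .no (.br .no .no .no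 (.br .no .no (.br .no (.br (.br .no (.br .no .no (.br (.de 41) .no .no .no) (.de 45)) .no (.br .no .no (.br (.de 41) .no .no .no) .no)) .no .no .no) .no .no) (.br .no (.de 42) (.br (.sw 1 3 [30]) (.br .no .no .no (.br .no .no (.br (.br .no .no (.de 47) .no) .no .no .no) .no)) .no .no) .no))) .no .no) .no .no .no) .no)) .no .no .no) (.br (.sw 1 3 [22]) (.br .no .no .no (.br .no .no (.br (.br .no (.br .no .no .no (.br (.br .no .no (.br (.sw 1 3 [22,29,30]) (.br .no .no .no (.br .no .no (.br (.br .no (.de 48) .no .no) .no .no .no) .no)) .no .no) .no) .no .no (.br (.br .no (.br .no .no .no (.br .no .no (.br (.br .no (.br .no (.br .no .no (.de 44) (.br .no .no (.br .no (.br .no .no .no (.br .no .no (.sw 0 1 [4]) .no)) .no .no) .no)) .no .no) .no .no) .no .no .no) .no)) .no .no) .no (.sw 0 1 [29]) .no))) .no .no) .no .no .no) .no)) .no .no) .no) .no)) .no .no) .no .no .no) .no)) .no .no (.br .no (.br .no .no (.sw 0 3 [10,16]) (.sw 0 2 [15,16])) .no .no)) .no .no (.br (.br .no (.br .no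 .no (.sw 0 3 [10,16]) (.br (.br .no (.br (.br .no .no (.sy 24 228 4) .no) .no .no .no) .no .no) .no (.br (.br .no (.br .no .no (.sw 0 3 [20]) .no) .no .no) (.br (.br .no .no (.br .no .no (.br (.br .no (.br (.br .no .no (.br .no (.sw 0 3 [20,26]) .no (.sy 18 27 15)) (.sy 18 27 14)) .no .no (.sw 0 2 [24])) .no .no) .no .no .no) (.br (.br .no (.br (.br .no .no (.br .no (.de 34) .no (.sy 18 27 15)) (.sy 18 27 14)) .no .no (.sw 0 2 [24])) .no .no) .no (.br (.br .no .no .no (.br .no .no (.br .no (.de 34) .no (.sw 0 1 [25,26])) .no)) (.sw 0 3 [10,16,23]) .no .no) .no)) .no) .no .no .no) .no .no) .no)) .no (.br .no .no (.br (.br .no (.br (.br .no .no (.sy 24 228 4) .no) .no .no .no) .no .no) .no .no .no) .no)) .no .no (.br .no (.br .no .no (.sw 0 3 [10,16]) (.sw 0 2 [15,16])) .no .no))) .no)) .no .no) .no .no .no) .no)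

theorem P7_3 : R.S 11 3648900 :=
  R.piece L hL (.br (.br .no (.br .no .no .no (.sy 13 27 4)) .no .no) .no (.br (.br .no (.br (.br .no .no (.br (.br .no (.br .no .no .no (.br .no .no (.br .no .no .no (.sy 18 30 5)) .no)) .no .no) .no .no .no) .no) c7_3_0 .no .no) .no (.sy 13 27 4)) (.br .no .no .no (.sy 13 27 4)) .no .no) .no) 11 3648900 4194304 (by norm_num) (by norm_num) (by norm_num) (by decide +kernel)

def c7_4_0 : Cert := (.br (.br .no (.br (.sw 2 3 [7,8,15,16]) .no .no (.br (.br .no (.br .no .no .no (.br .no .no (.br .no .no (.br (.br .no (.sw 2 3 [7,8,15,16,23]) (.br .no .no .no (.br (.br .no (.br .no .no .no (.br .no (.br .no .no .no (.de 42)) .no (.sy 28 141 7))) .no .no) .no (.sy 28 141 4) .no)) .no) .no .no .no) (.br (.br .no (.sw 2 3 [7,8,15,16,23]) (.br .no .no .no (.br (.br .no (.de 34) .no .no) .no (.br (.br .no (.br .no (.br .no .no .no (.de 42)) (.br .no (.br (.br .no (.br .no .no .no (.de 45)) .no .no) .no .no .no) .no (.br (.sw 1 2 [30]) (.br (.br .no (.br .no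 .no (.br (.de 47) .no .no .no) (.br (.br .no (.de 48) .no .no) .no .no .no)) .no (.br .no .no (.br (.de 47) .no .no .no) .no)) .no .no .no) .no .no)) .no) .no .no) (.de 34) .no .no) .no)) .no) .no (.br .no (.br .no .no (.br (.br .no (.de 34) .no .no) .no .no .no) (.br (.br .no (.de 34) .no .no) .no (.br (.br .no (.br (.br .no .no .no (.br (.br .no (.br .no .no .no (.de 45)) .no .no) .no (.de 43) .no)) (.br (.br .no .no (.br (.br .no (.br .no .no (.br (.de 47) .no .no .no) (.br (.de 48) .no (.sw 0 3 [15,21,28]) .no)) .no (.br .no .no (.br (.de 47) .no .no .no) .no)) (.br .no .no .no (.de 45)) .no .no) .no) .no .no (.de 42)) .no .no) .no .no) (.de 34) .no .no) .no)) .no .no) .no)) .no)) .no .no) .no (.br (.br .no (.br .no .no (.br .no .no (.br (.br .no (.br .no .no .no (.br .no .no (.br (.br .no (.sw 0 3 [15,21]) .no (.br .no (.br .no .no (.sw 0 3 [23,29]) (.de 42)) .no (.br .no .no (.br (.br .no (.br .no .no .no (.de 45)) .no .no) .no .no .no) .no))) .no .no (.br .no (.sw 0 3 [15,21])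 .no .no)) .no)) .no .no) .no .no .no) (.br (.br .no (.br .no .no .no (.br .no .no (.br (.br .no (.br .no (.br .no .no (.br (.br .no (.br .no .no .no (.de 45)) .no .no) .no .no .no) (.de 42)) (.br .no .no .no (.br (.br .no (.br .no .no .no (.de 45)) .no .no) .no (.de 43) .no)) .no) .no .no) .no .no (.br .no (.sy 31 27 4) .no .no)) .no)) .no .no) .no (.br (.br .no (.br .no .no (.br (.br .no (.br (.br .no (.br .no .no (.sw 0 3 [23,30]) (.br (.br .no (.br .no .no (.de 41) (.br .no .no (.br .no .no .no (.br .no .no (.de 44) .no)) .no)) .no (.br .no .no (.de 41) .no)) .no .no .no)) .no (.br .no .no (.de 43) .no)) (.br .no .no .no (.de 42)) .no .no) .no .no) .no .no (.br .no (.br (.br .no (.br .no .no (.sw 0 3 [23,30]) (.br (.br .no (.br (.br .no .no (.de 47) .no) .no (.de 41) .no) .no .no) .no .no .no)) .no (.br .no .no (.de 43) .no)) (.br .no .no .no (.de 42)) .no .no) .no .no)) (.br (.br .no (.br (.br .no (.br .no .no (.sw 0 3 [23,30]) (.br (.br .no (.sw 2 3 [32]) (.br .no .no .no (.br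 .no .no (.br .no .no .no (.br .no .no (.de 44) .no)) .no)) .no) .no (.de 44) .no)) .no (.br .no .no (.de 43) .no)) (.br .no .no .no (.de 42)) .no .no) .no .no) .no .no .no)) .no (.br .no .no (.br (.br .no (.br (.br .no (.br .no .no (.br (.sw 1 3 [31]) (.br .no .no .no (.de 45)) .no .no) .no) .no (.br .no (.br (.br .no (.br .no .no (.de 41) (.br .no .no (.br .no (.de 48) .no .no) .no)) .no (.br .no .no (.de 41) .no)) .no .no .no) (.de 43) .no)) (.br .no .no .no (.de 42)) .no .no) .no .no) .no .no (.br .no (.sy 31 27 4) .no .no)) .no)) (.sw 0 3 [23]) .no .no) .no)) (.br .no .no (.br (.br .no (.br .no .no .no (.br .no .no (.br (.br .no (.sw 2 3 [27]) .no .no) .no .no .no) .no)) .no .no) .no .no .no) (.br (.br .no (.br .no .no .no (.br .no .no (.br (.br .no (.sw 2 3 [27]) (.br .no (.br .no .no (.br (.br .no (.br .no .no .no (.de 45)) .no .no) .no .no .no) (.de 42)) (.br .no .no .no (.br (.br .no (.br .no .no .no (.de 45)) .no .no) .no (.de 43) .no)) .no) .no) .no .no .no) .no)) .no .no)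 .no (.br (.br .no (.br .no .no (.br (.br .no (.sw 2 3 [27]) (.sy 32 141 4) .no) .no .no .no) (.br (.br .no (.sw 2 3 [27]) (.br (.br .no (.br .no .no (.sw 0 3 [23,30]) (.br (.br .no (.sw 2 3 [32]) (.br .no (.de 41) .no (.br .no (.de 48) .no .no)) .no) .no (.de 44) .no)) .no (.br .no .no (.de 43) .no)) (.br .no .no .no (.de 42)) .no .no) .no) .no (.br .no (.br (.br .no (.br .no .no (.sw 0 3 [23,30]) (.br (.br .no (.br (.sw 2 3 [27,32,33]) .no .no (.sw 0 2 [33])) .no .no) .no (.de 44) .no)) .no (.br .no .no (.de 43) .no)) (.br .no .no .no (.de 42)) .no .no) .no .no) .no)) .no (.br .no .no (.br (.br .no (.sw 2 3 [27]) (.sy 32 141 4) .no) .no .no .no) .no)) (.sw 0 3 [23]) .no .no) .no))) .no (.br .no .no (.br .no .no (.br (.br .no (.br .no .no .no (.br .no (.br (.br .no (.sw 0 3 [15,21]) .no (.br .no (.br .no .no (.sw 0 3 [23,29]) (.de 42)) .no (.br .no .no (.br (.sy 30 114 7) .no .no .no) .no))) .no .no .no) (.br (.sw 1 3 [26]) (.br .no .no .no (.br .no (.br .no .no (.sw 0 3 [23,29])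 (.de 42)) .no (.br .no .no (.br (.br .no (.br (.br .no .no (.br (.de 47) (.sw 0 3 [15,21,34]) .no .no) .no) .no .no (.de 45)) .no .no) .no .no .no) .no))) .no .no) .no)) .no .no) .no .no .no) (.br (.br .no (.br .no .no .no (.br .no (.br (.br .no (.sy 30 114 4) .no .no) .no .no .no) (.br (.sw 1 3 [26]) (.de 34) .no .no) .no)) .no .no) .no (.br (.br .no (.br .no .no (.br (.sw 1 3 [26]) (.de 34) .no .no) .no) .no (.br .no (.br (.br .no (.br (.br .no (.br .no .no (.br (.br .no .no (.sw 1 3 [26,31,32]) (.br .no .no (.de 41) .no)) .no .no .no) .no) .no (.br .no (.br (.br .no .no (.br .no .no .no (.br .no .no (.br .no (.de 48) .no .no) .no)) (.br .no .no (.de 41) .no)) .no (.br .no .no .no (.br .no .no (.de 41) .no)) .no) (.de 43) .no)) (.br .no .no .no (.de 42)) .no .no) .no .no) .no .no .no) (.br (.sw 1 3 [26]) (.de 34) .no .no) .no)) (.sw 0 3 [23]) .no .no) .no)) .no)) (.br .no .no .no (.br .no .no (.br .no .no (.br (.br .no (.br (.br .no .no (.br (.sy 29 228 4) (.br .no .no .no (.br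 .no (.br .no .no (.sw 0 3 [23,29]) (.de 42)) .no (.br .no .no (.sy 29 228 7) .no))) .no .no) .no) .no .no (.sw 0 2 [24])) .no .no) .no .no .no) (.br (.br .no (.br (.br .no .no (.br (.sy 29 228 4) (.de 34) .no .no) .no) .no .no (.sw 0 2 [24])) .no .no) .no (.br (.br .no .no .no (.br (.br .no (.de 34) .no .no) .no (.sw 0 1 [25]) .no)) (.sw 0 3 [23]) .no .no) .no)) .no)) .no .no) .no)) .no .no) .no (.br (.br .no .no .no (.br (.br .no (.br .no .no .no (.de 27)) .no .no) .no (.br (.br .no (.br .no .no .no (.br .no (.br .no .no (.br (.br .no (.br .no .no (.br (.de 34) .no .no .no) (.br (.de 34) .no (.br (.br (.br .no (.br .no .no (.sw 0 3 [15,22,23,30]) (.br (.br .no (.br .no .no .no (.br .no .no (.br .no .no .no (.br .no .no (.de 44) .no)) .no)) .no .no) .no (.de 44) .no)) .no (.br .no .no (.de 43) .no)) .no .no (.br .no (.de 42) .no .no)) .no .no .no) .no)) .no (.br .no .no (.br (.de 34) .no .no .no) .no)) (.sw 0 3 [15,22,23]) .no .no) .no) .no (.br .no (.br (.br .no (.br .no .no (.br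 (.br .no (.sy 34 114 4) .no .no) .no .no .no) (.br (.br .no (.sy 34 114 4) .no .no) .no (.br (.br (.br .no .no (.br .no .no .no (.de 43)) (.br .no .no (.de 43) .no)) .no (.br .no .no .no (.br .no .no (.de 43) .no)) .no) (.sy 34 114 4) .no .no) .no)) .no (.br .no .no (.br (.br .no (.br (.br .no .no (.br .no (.br (.br .no (.br .no .no (.de 41) (.br .no .no (.sy 41 201 5) .no)) .no (.br .no .no (.de 41) .no)) .no .no .no) .no .no) (.br .no (.br (.br .no (.br .no .no (.de 41) (.br .no .no (.br .no (.de 48) .no .no) .no)) .no (.br .no .no (.de 41) .no)) .no .no .no) (.de 43) .no)) .no (.br .no .no .no (.br .no (.br (.br .no (.br .no .no (.br (.de 47) .no .no .no) (.br (.sy 34 114 7) .no .no .no)) .no (.br .no .no (.br (.de 47) .no .no .no) .no)) .no .no .no) (.de 43) .no)) .no) .no .no) .no .no .no) .no)) .no .no .no) (.br (.br .no (.br .no .no (.br (.br .no (.br (.br .no (.br .no .no (.br (.br .no (.br .no .no (.de 41) (.br .no .no (.br .no .no .no (.de 43)) .no)) .no (.br .no .no (.de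 41) .no)) .no .no (.de 44)) (.br (.br .no (.br .no .no (.de 41) (.br .no .no (.br .no .no .no (.br .no .no (.de 44) .no)) .no)) .no (.br .no .no (.de 41) .no)) .no .no .no)) .no (.sw 1 2 [29])) (.br .no .no .no (.de 42)) .no .no) .no .no) .no .no .no) (.br (.br .no (.br (.br .no (.br .no .no (.br (.br .no (.sw 2 3 [32]) (.br .no .no .no (.br .no .no (.sy 37 141 4) .no)) .no) .no .no .no) (.br (.br .no (.sw 2 3 [32]) (.br .no .no .no (.br .no .no (.br .no .no .no (.br .no .no (.de 44) .no)) .no)) .no) .no (.de 44) .no)) .no (.sw 1 2 [29])) (.br .no .no .no (.de 42)) .no .no) .no .no) .no (.br (.br (.br .no (.br .no .no (.br (.br .no (.br .no .no .no (.br .no (.de 48) (.sw 1 3 [28]) .no)) .no .no) .no .no .no) (.br (.br .no (.br .no .no .no (.br .no (.de 48) (.sw 1 3 [28]) .no)) .no .no) .no (.de 44) .no)) .no (.sw 1 2 [29])) (.br .no .no .no (.de 42)) .no .no) (.br (.br .no (.br .no .no (.br (.br .no (.br (.br .no .no (.de 47) .no) .no .no (.sw 0 2 [33])) .no .no) .no .no .no) (.br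 (.br .no (.br (.br .no .no (.de 47) .no) .no .no (.sw 0 2 [33])) .no .no) .no (.de 44) .no)) .no (.sw 1 2 [29])) (.br .no .no .no (.de 42)) .no .no) .no .no) .no)) .no (.br .no .no (.br (.br .no (.br (.br .no (.br .no .no (.br (.sw 1 3 [31]) (.br .no .no .no (.de 45)) .no .no) .no) .no (.sw 1 2 [29])) (.br .no .no .no (.de 42)) .no .no) .no .no) .no .no .no) .no)) (.br .no .no .no (.br .no .no (.br (.br .no (.br (.br .no .no .no (.br (.br .no (.br .no .no .no (.de 45)) .no .no) .no (.de 43) .no)) (.br (.br .no .no (.br (.br .no (.br .no .no (.br (.de 47) .no .no .no) (.br (.de 48) .no (.sw 0 3 [15,22,23,28]) .no)) .no (.br .no .no (.br (.de 47) .no .no .no) .no)) (.br .no .no .no (.de 45)) .no .no) .no) .no .no (.de 42)) .no .no) .no .no) .no .no .no) .no)) .no .no) .no))) .no (.de 27)) (.br .no .no .no (.de 27)) .no .no) .no)) (.sw 0 3 [15]) .no .no) .no)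

def c7_4_1 : Cert := (.br .no (.br (.br .no (.br .no .no (.sw 0 3 [10,17]) (.br (.br .no (.sy 21 177 5) .no .no) .no (.br (.br .no .no .no (.br .no .no (.br .no .no .no (.br (.br .no (.br .no .no .no (.br .no (.br (.br (.br .no (.br .no .no (.br (.br .no .no (.br .no .no .no (.br .no (.de 48) .no .no)) .no) .no .no .no) (.br (.br .no .no (.br .no .no .no (.br .no (.de 48) .no .no)) .no) .no (.de 44) .no)) (.br .no .no .no (.de 43)) .no) (.br .no .no (.br .no .no .no (.de 43)) .no) .no .no) .no .no .no) (.br (.br (.br .no (.br .no .no (.br (.br .no (.br .no .no .no (.sy 33 141 7)) .no .no) .no .no .no) (.br (.br .no (.br .no .no .no (.sy 33 141 7)) .no .no) .no (.de 44) .no)) (.br .no .no .no (.de 43)) .no) (.br .no .no (.br .no .no .no (.de 43)) .no) .no .no) .no .no .no) .no)) .no .no) .no (.br (.br .no (.br .no .no (.br (.sy 33 141 4) .no .no .no) .no) .no (.br .no (.br (.br (.sy 28 78 7) (.br (.br .no (.br .no .no (.br (.br .no .no (.sy 35 225 5) (.de 41)) .no .no .no) .no) .no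 (.br .no (.br (.br .no .no (.br .no .no .no (.br .no .no .no (.br .no .no (.de 44) .no))) (.de 41)) .no (.sy 28 78 11) .no) (.de 44) .no)) .no .no .no) .no .no) .no .no .no) (.sy 28 78 5) .no)) (.sw 0 3 [10,17,24]) .no .no) .no)) (.br .no .no (.br (.br .no (.br .no .no .no (.br .no (.br (.br (.br .no (.br .no .no (.sw 0 3 [10,17,24,30]) (.br (.sy 31 114 7) .no (.de 44) .no)) .no (.br .no .no (.de 43) .no)) (.br .no .no .no (.de 42)) .no .no) .no (.sy 31 99 5) .no) (.br (.br (.br .no (.br .no .no (.sw 0 3 [10,17,24,30]) (.br (.br .no (.br .no .no .no (.br .no (.de 48) (.br .no .no .no (.br .no .no (.de 44) .no)) .no)) .no .no) .no (.de 44) .no)) .no (.br .no .no (.de 43) .no)) (.br .no .no .no (.de 42)) .no .no) .no .no .no) .no)) .no .no) .no .no .no) .no))) (.br .no .no .no (.sy 26 114 4)) .no .no) .no)) .no (.br .no .no (.br (.br .no (.br .no .no .no (.br .no .no (.br .no (.br (.br .no (.br .no .no (.br (.de 34) .no .no .no) (.br (.de 34) .no (.br (.sy 33 201 5) .no .no .no) .no))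 .no (.br .no .no (.br (.de 34) .no .no .no) .no)) .no .no .no) .no .no) (.br .no (.br (.br .no (.br .no .no (.br (.sy 26 114 7) .no .no .no) (.br (.sy 26 114 7) .no (.br (.sy 26 114 10) .no .no .no) .no)) .no (.br .no .no (.br (.sy 26 114 7) .no .no .no) .no)) .no .no .no) (.br (.sw 1 3 [23]) (.br .no .no .no (.br .no .no (.br (.sy 26 114 7) .no .no .no) .no)) .no .no) .no))) .no .no) .no .no .no) .no)) .no .no .no) (.br (.br .no (.br .no .no (.sw 0 3 [10,17]) (.br (.br .no (.br .no .no .no (.br .no (.br .no .no (.br (.br .no (.sw 2 3 [24]) (.br .no .no .no (.br (.de 34) .no (.sy 29 141 4) .no)) .no) .no .no .no) (.br (.br .no (.sw 2 3 [24]) (.br .no .no .no (.br (.de 34) .no (.br (.br (.br .no (.sw 2 3 [29]) (.br .no (.br (.br .no (.br .no .no .no (.br .no .no (.sy 41 201 5) .no)) .no .no) .no .no .no) .no (.de 43)) .no) .no (.br .no (.br .no .no .no (.br (.sw 1 2 [31]) (.br (.br .no (.sy 36 114 4) .no (.de 41)) .no .no .no) .no .no)) .no .no) .no) .no .no .no) .no)) .no) .no (.br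 .no (.br .no .no (.br (.de 34) .no .no .no) (.br (.de 34) .no (.br (.br (.br .no (.br (.sw 2 3 [24,29,30]) .no .no (.sw 0 2 [30])) .no .no) .no (.br (.br .no .no .no (.br (.br .no (.br .no .no .no (.de 41)) .no .no) .no (.de 44) .no)) (.br (.br .no .no (.br (.br .no (.br .no .no .no (.br .no .no .no (.br .no .no (.br .no .no .no (.br .no (.br .no .no .no (.sy 42 27 4)) .no .no)) .no))) .no (.de 41)) (.br .no .no .no (.de 41)) .no .no) .no) .no .no (.sw 0 2 [30])) .no .no) .no) .no .no .no) .no)) .no .no) .no)) .no (.br .no .no (.br (.br .no (.sw 2 3 [24]) (.br .no .no .no (.br (.br .no (.br (.br .no (.br .no .no .no (.br (.sw 1 2 [31]) (.br .no .no (.br .no .no .no (.br .no .no (.sy 36 99 5) .no)) .no) .no .no)) .no (.sy 29 141 7)) (.br .no .no .no (.de 42)) .no .no) .no .no) .no (.sy 29 141 4) .no)) .no) .no .no .no) .no))) .no .no) .no (.br (.br .no (.br .no (.br .no .no (.br (.br .no (.br .no .no .no (.br .no .no (.br (.br (.br .no (.br .no .no (.sw 0 3 [10,17,24,30]) (.br (.br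 .no (.br .no .no .no (.br .no .no (.br .no .no .no (.br .no .no (.de 44) .no)) .no)) .no .no) .no (.de 44) .no)) .no (.br .no .no (.de 43) .no)) .no .no (.br .no (.de 42) .no .no)) .no .no (.br (.br .no (.br .no .no (.sw 0 3 [10,17,24,30]) (.br (.br .no (.sy 32 27 7) .no .no) .no (.de 44) .no)) .no (.br .no .no (.de 43) .no)) .no .no (.br .no (.de 42) .no .no))) .no)) .no .no) .no .no .no) (.br (.br .no (.br .no .no .no (.br .no .no (.br (.br (.br .no (.sw 2 3 [29]) (.br .no .no .no (.de 43)) .no) .no (.br .no (.br .no .no (.br (.br .no (.br .no .no .no (.de 41)) .no .no) .no .no .no) (.br (.br .no (.br .no .no .no (.de 41)) .no .no) .no (.de 44) .no)) .no .no) .no) .no .no (.sy 32 27 4)) .no)) .no .no) .no (.br (.br .no (.br .no .no (.br (.br (.br .no (.br .no .no .no (.br .no .no (.de 44) .no)) .no .no) .no (.br (.br .no (.br .no .no (.sw 0 3 [10,17,24,31]) (.br (.br .no (.br .no .no .no (.br .no (.br .no .no (.de 44) (.br .no .no (.br .no (.sw 2 3 [38,43,44]) .no .no) .no)) .no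 (.br .no .no (.de 44) .no))) .no (.de 41)) .no .no .no)) .no (.br .no .no (.de 44) .no)) (.br .no .no .no (.br .no .no (.de 44) .no)) .no .no) .no) .no .no (.br (.br .no (.br .no .no .no (.br .no .no (.de 44) .no)) .no .no) .no (.br (.br .no (.br .no .no (.sw 0 3 [10,17,24,31]) (.br (.br .no (.br (.sy 39 228 4) .no .no .no) .no .no) .no .no .no)) .no (.br .no .no (.de 44) .no)) (.br .no .no .no (.br .no .no (.de 44) .no)) .no .no) .no)) (.br (.br (.br .no (.br .no .no .no (.br .no .no (.de 44) .no)) .no .no) .no (.br (.br .no (.br .no .no (.sw 0 3 [10,17,24,31]) (.br (.br .no (.sw 2 3 [33]) (.br .no .no .no (.br .no (.br .no .no (.de 44) (.br .no .no (.br .no (.sw 2 3 [38,43,44]) .no .no) .no)) .no (.br .no .no (.de 44) .no))) .no) .no (.br .no (.br .no .no .no (.br .no (.br .no .no (.de 44) (.br .no .no (.br .no (.sw 0 3 [10,17,24,31,38]) .no .no) .no)) .no (.br .no .no (.de 44) .no))) .no .no) .no)) .no (.br .no .no (.de 44) .no)) (.br .no .no .no (.br .no .no (.de 44) .no)) .no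 .no) .no) .no .no .no)) .no (.br .no .no (.br (.br (.br .no (.br .no .no .no (.br .no (.br (.br .no (.sy 36 114 4) .no (.de 46)) .no .no .no) (.de 44) .no)) .no .no) .no (.br (.br .no (.br .no .no (.br (.sw 1 3 [32]) (.br .no .no .no (.de 41)) .no .no) .no) .no (.br .no (.br (.br .no (.br .no .no .no (.br .no (.br .no .no (.de 44) .no) .no (.br .no .no (.de 44) .no))) .no (.de 41)) .no .no .no) (.de 44) .no)) (.br .no .no .no (.br .no (.br (.br .no (.sy 36 114 4) .no (.de 41)) .no .no .no) (.de 44) .no)) .no .no) .no) .no .no (.sy 32 27 4)) .no)) (.sw 0 3 [10,17,24]) .no .no) .no)) .no (.br .no .no (.br (.br .no (.br .no .no .no (.br .no .no (.br (.br (.br .no (.br .no .no (.sw 0 3 [10,17,24,30]) (.br (.br .no (.br .no .no .no (.br .no (.de 48) (.sw 1 3 [28]) .no)) .no .no) .no (.de 44) .no)) .no (.br .no .no (.de 43) .no)) (.br .no .no .no (.de 42)) .no .no) .no .no .no) .no)) .no .no) .no .no .no) .no)) .no (.br .no (.br .no .no (.br (.br .no (.br .no .no .no (.br .no (.br (.sy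 31 114 4) .no .no .no) (.br (.sw 1 3 [27]) .no .no .no) .no)) .no .no) .no .no .no) (.br (.br .no (.br .no .no .no (.br .no (.br (.sy 31 114 4) .no .no .no) (.br (.sw 1 3 [27]) .no .no .no) .no)) .no .no) .no (.br (.br .no (.br .no .no (.br (.sw 1 3 [27]) .no .no .no) .no) .no (.br .no (.br (.br (.br .no (.br .no .no .no (.br .no (.br (.br .no .no (.br .no .no .no (.sw 1 2 [21,28])) (.de 46)) .no (.br .no .no .no (.br .no .no (.sy 36 99 5) .no)) .no) (.de 44) .no)) .no .no) .no (.br (.br .no (.br .no .no (.br (.br .no .no (.sw 1 3 [27,32,33]) (.de 41)) .no .no .no) .no) .no (.br .no (.br (.br .no .no (.br .no .no .no (.br .no (.br .no .no (.de 44) .no) .no (.br .no .no (.de 44) .no))) (.de 41)) .no (.br .no .no .no (.de 41)) .no) (.de 44) .no)) (.br .no .no .no (.br .no (.br (.br .no .no (.br .no .no .no (.sy 40 75 5)) (.de 41)) .no (.br .no .no .no (.de 41)) .no) (.de 44) .no)) .no .no) .no) .no .no .no) (.br (.sw 1 3 [27]) .no .no .no) .no)) (.sw 0 3 [10,17,24]) .no .no) .no))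 .no (.br .no .no (.br (.br .no (.br .no .no .no (.br .no (.br (.sw 1 2 [21]) .no .no .no) (.br (.sw 1 2 [21]) (.br (.br .no (.br .no .no (.sw 0 3 [10,17,24,30]) (.br (.br .no (.br (.br .no .no (.de 47) .no) .no .no (.br .no .no (.sw 0 1 [34]) .no)) .no .no) .no (.de 44) .no)) .no (.br .no .no (.de 43) .no)) (.br .no .no .no (.de 42)) .no .no) .no .no) .no)) .no .no) .no .no .no) .no))) (.br .no .no .no (.br .no (.br .no .no (.br (.br .no (.br (.br .no .no (.br (.sy 30 228 4) .no .no .no) .no) .no .no (.sw 0 2 [25])) .no .no) .no .no .no) (.br (.br .no (.br (.br .no .no (.br (.sy 30 228 4) .no .no .no) .no) .no .no (.sw 0 2 [25])) .no .no) .no (.br (.br .no .no .no (.br (.de 34) .no (.sw 0 1 [26]) .no)) (.sw 0 3 [10,17,24]) .no .no) .no)) .no (.br .no .no (.br (.br .no (.br (.br .no .no (.br (.sw 1 2 [21]) (.br (.br .no (.br .no .no (.sw 0 3 [10,17,24,30]) (.br .no .no (.de 44) .no)) .no (.br .no .no (.de 43) .no)) (.br .no .no .no (.de 42)) .no .no) .no .no) .no) .no .no (.sw 0 2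 [25])) .no .no) .no .no .no) .no))) .no .no) .no)) .no (.br .no .no (.br (.br .no (.br .no .no .no (.br .no (.br .no .no (.br (.sw 1 3 [23]) (.br .no .no .no (.br .no .no (.br (.de 34) .no .no .no) .no)) .no .no) .no) .no (.br .no (.br (.br .no (.br .no .no (.br (.br .no (.sy 34 114 4) .no .no) .no .no .no) (.br (.br .no (.sy 34 114 4) .no .no) .no (.br (.sw 1 2 [21]) (.sy 34 114 4) .no .no) .no)) .no (.br .no .no (.br (.br .no (.br (.br .no .no (.br .no (.br (.br .no (.br .no .no (.de 41) (.br .no .no (.sy 41 201 5) .no)) .no (.br .no .no (.de 41) .no)) .no .no .no) .no .no) (.br .no (.br (.br .no (.br .no .no (.de 41) (.br .no .no (.sy 34 114 10) .no)) .no (.br .no .no (.de 41) .no)) .no .no .no) (.de 43) .no)) .no (.br .no .no .no (.br .no (.br (.br .no (.br .no .no (.br (.de 47) .no .no .no) (.br (.sw 1 2 [21,34]) .no .no .no)) .no (.br .no .no (.br (.de 47) .no .no .no) .no)) .no .no .no) (.de 43) .no)) .no) .no .no) .no .no .no) .no)) .no .no .no) (.br (.sw 1 3 [23]) (.br .no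 .no .no (.br .no .no (.br (.br .no (.br (.br .no .no .no (.br (.br .no (.br .no .no .no (.de 45)) .no .no) .no (.de 43) .no)) (.br (.br .no .no (.br (.sw 1 3 [23,30,31]) (.br .no .no .no (.de 45)) .no .no) .no) .no .no (.de 42)) .no .no) .no .no) .no .no .no) .no)) .no .no) .no))) .no .no) .no .no .no) .no)) (.br .no .no .no (.br .no .no (.br (.br .no (.br .no .no .no (.br (.br .no .no (.br (.br .no (.br .no .no (.br (.sy 28 216 5) .no .no .no) (.br (.br .no (.sy 33 228 4) .no .no) .no (.br .no (.br .no (.br .no .no .no (.de 42)) .no (.br .no (.de 42) .no .no)) .no .no) .no)) .no (.br .no .no (.br (.sy 28 156 5) .no .no .no) .no)) (.sw 0 3 [10,17,23]) .no .no) .no) .no .no (.br (.br .no (.br .no .no .no (.br .no .no (.br (.br .no (.br .no (.br .no .no (.br (.br .no (.br .no .no .no (.de 45)) .no .no) .no .no .no) (.de 42)) (.br .no .no .no (.br (.br .no (.br .no .no .no (.de 45)) .no .no) .no (.de 43) .no)) .no) .no .no) .no .no .no) .no)) .no .no) .no (.sw 0 1 [22]) .no))) .no .no)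 .no .no .no) .no)) .no .no) .no)

def c7_4_2 : Cert := (.br .no .no (.br (.br (.br .no (.br .no .no .no (.br .no .no (.br (.br .no (.br .no .no (.br .no .no (.br (.br .no (.br .no .no .no (.br .no .no (.br (.br .no (.sw 0 3 [15,21]) .no (.br .no (.br .no .no (.sw 0 3 [10,17,23,29]) (.de 42)) .no (.br .no .no (.br (.br .no (.br .no .no .no (.de 45)) .no .no) .no .no .no) .no))) .no .no (.br .no (.sw 0 3 [15,21]) .no .no)) .no)) .no .no) .no .no .no) (.br (.br .no (.br .no .no .no (.br .no .no (.br (.br .no (.br .no (.br .no .no (.br (.br .no (.br .no .no .no (.de 45)) .no .no) .no .no .no) (.de 42)) (.br .no .no .no (.br (.br .no (.br .no .no .no (.de 45)) .no .no) .no (.de 43) .no)) .no) .no .no) .no .no (.br .no (.sy 31 27 4) .no .no)) .no)) .no .no) .no (.br (.br .no (.br .no .no (.br (.br .no (.br (.br .no (.br .no .no (.sw 0 3 [10,17,23,30]) (.br (.br .no (.br .no .no (.de 41) (.br .no .no (.br .no .no .no (.br .no .no (.de 44) .no)) .no)) .no (.br .no .no (.de 41) .no)) .no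 .no .no)) .no (.br .no .no (.de 43) .no)) (.br .no .no .no (.de 42)) .no .no) .no .no) .no .no (.br .no (.br (.br .no (.br .no .no (.sw 0 3 [10,17,23,30]) (.br (.br .no (.br (.br .no .no (.de 47) .no) .no (.de 41) .no) .no .no) .no .no .no)) .no (.br .no .no (.de 43) .no)) (.br .no .no .no (.de 42)) .no .no) .no .no)) (.br (.br .no (.br (.br .no (.br .no .no (.sw 0 3 [10,17,23,30]) (.br (.br .no (.sw 2 3 [32]) (.br .no .no .no (.br .no .no (.br .no .no .no (.br .no .no (.de 44) .no)) .no)) .no) .no (.de 44) .no)) .no (.br .no .no (.de 43) .no)) (.br .no .no .no (.de 42)) .no .no) .no .no) .no .no .no)) .no (.br .no .no (.br (.br .no (.br (.br .no (.br .no .no (.br (.sw 1 3 [31]) (.sw 0 3 [10,17,23,25,30,31]) .no .no) .no) .no (.br .no (.br (.br .no (.br .no .no (.de 41) (.br .no .no (.br .no (.de 48) .no .no) .no)) .no (.br .no .no (.de 41) .no)) .no .no .no) (.de 43) .no)) (.br .no .no .no (.de 42)) .no .no) .no .no) .no .no (.br .no (.sy 31 27 4) .no .no)) .no)) (.sw 0 3 [10,17,23])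 .no .no) .no)) (.br .no .no (.br (.br .no (.br .no .no .no (.br .no .no (.br (.br .no (.sw 2 3 [27]) .no .no) .no .no .no) .no)) .no .no) .no .no .no) (.br (.br .no (.br .no .no .no (.br .no .no (.br (.br .no (.sw 2 3 [27]) (.br .no (.br .no .no (.br (.br .no (.br .no .no .no (.de 45)) .no .no) .no .no .no) (.de 42)) (.br .no .no .no (.br (.br .no (.br .no .no .no (.de 45)) .no .no) .no (.de 43) .no)) .no) .no) .no .no .no) .no)) .no .no) .no (.br (.br .no (.br .no .no (.br (.br .no (.sw 2 3 [27]) (.sy 32 141 4) .no) .no .no .no) (.br (.br .no (.sw 2 3 [27]) (.br (.br .no (.br .no .no (.sw 0 3 [10,17,23,30]) (.br (.br .no (.sw 2 3 [32]) (.br .no (.de 41) .no (.br .no (.de 48) .no .no)) .no) .no (.de 44) .no)) .no (.br .no .no (.de 43) .no)) (.br .no .no .no (.de 42)) .no .no) .no) .no (.br .no (.br (.br .no (.br .no .no (.sw 0 3 [10,17,23,30]) (.br (.br .no (.br (.sw 2 3 [27,32,33]) .no .no (.sw 0 2 [33])) .no .no) .no (.de 44) .no)) .no (.br .no .no (.de 43) .no)) (.br .no .no .no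 (.de 42)) .no .no) .no .no) .no)) .no (.br .no .no (.br (.br .no (.sw 2 3 [27]) (.sy 32 141 4) .no) .no .no .no) .no)) (.sw 0 3 [10,17,23]) .no .no) .no))) .no (.br .no .no (.br .no .no (.br (.br .no (.br .no .no .no (.br .no (.br (.br .no (.sw 0 3 [15,21]) .no (.br .no (.br .no .no (.sw 0 3 [10,17,23,29]) (.de 42)) .no (.br .no .no (.br (.sy 30 114 7) .no .no .no) .no))) .no .no .no) (.br (.sw 1 3 [26]) (.br .no .no .no (.br .no (.br .no .no (.sw 0 3 [10,17,23,29]) (.de 42)) .no (.br .no .no (.br (.br .no (.br (.br .no .no (.br (.de 47) (.sw 0 3 [15,21,34]) .no .no) .no) .no .no (.de 45)) .no .no) .no .no .no) .no))) .no .no) .no)) .no .no) .no .no .no) (.br (.br .no (.br .no .no .no (.br .no (.br (.br .no (.sy 30 114 4) .no .no) .no .no .no) (.br (.sw 1 3 [26]) (.de 34) .no .no) .no)) .no .no) .no (.br (.br .no (.br .no .no (.br (.sw 1 3 [26]) (.de 34) .no .no) .no) .no (.br .no (.br (.br .no (.br (.br .no (.br .no .no (.br (.br .no .no (.sw 1 3 [26,31,32]) (.br .no .no (.de 41)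 .no)) .no .no .no) .no) .no (.br .no (.br (.br .no .no (.br .no .no .no (.br .no .no (.br .no (.de 48) .no .no) .no)) (.br .no .no (.de 41) .no)) .no (.br .no .no .no (.br .no .no (.de 41) .no)) .no) (.de 43) .no)) (.br .no .no .no (.de 42)) .no .no) .no .no) .no .no .no) (.br (.sw 1 3 [26]) (.de 34) .no .no) .no)) (.sw 0 3 [10,17,23]) .no .no) .no)) .no)) .no .no (.br .no (.br .no .no (.br .no .no (.br (.br .no (.sy 23 27 7) .no .no) .no .no .no) (.br (.br .no (.sy 23 27 7) .no .no) .no (.br (.br .no (.br (.br .no .no .no (.br .no (.sy 30 180 5) .no .no)) .no (.sw 0 3 [25]) .no) .no .no) (.sw 0 3 [10,17,23]) .no .no) .no)) (.sy 23 27 4)) .no .no)) .no)) .no .no) .no (.br (.br .no (.br .no .no (.sw 0 3 [10,17]) (.br (.br .no (.br .no .no .no (.br .no (.br .no .no (.sw 0 3 [15,22]) (.br (.br .no (.sw 2 3 [24]) (.br .no .no .no (.br (.de 34) .no (.br (.br (.br .no (.sw 2 3 [29]) (.br .no (.br (.br .no (.br .no .no .no (.br .no .no (.sy 41 201 5) .no)) .no .no) .no .no .no) .no (.de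 43)) .no) .no (.br .no (.br .no .no .no (.br (.sw 1 2 [31]) (.br (.br .no (.sy 36 114 4) .no (.de 41)) .no .no .no) .no .no)) .no .no) .no) .no .no .no) .no)) .no) .no (.br .no (.br .no .no (.sw 0 3 [10,17,24,25]) (.br (.de 34) .no (.br (.br (.br .no (.br (.sw 2 3 [24,29,30]) .no .no (.sw 0 2 [30])) .no .no) .no (.br (.br .no .no .no (.br (.br .no (.br .no .no .no (.de 41)) .no .no) .no (.de 44) .no)) (.sw 0 3 [15,22,29]) .no .no) .no) .no .no .no) .no)) .no .no) .no)) .no (.br .no .no (.br (.br .no (.sw 2 3 [24]) (.br .no .no .no (.br (.br .no (.br (.br .no (.br .no .no .no (.br (.sw 1 2 [31]) (.br .no .no (.br .no .no .no (.br .no .no (.sy 36 99 5) .no)) .no) .no .no)) .no (.sy 29 141 7)) (.br .no .no .no (.de 42)) .no .no) .no .no) .no (.sy 29 141 4) .no)) .no) .no .no .no) .no))) .no (.de 27)) .no .no .no)) .no (.br .no .no (.br (.br .no (.br .no .no .no (.br .no (.br .no .no (.br (.sw 1 3 [23]) (.sw 0 3 [10,15,17,22,23]) .no .no) .no) .no (.br .no (.br (.br .no (.br .no .no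 (.br (.br .no (.sy 34 114 4) .no .no) .no .no .no) (.br (.br .no (.sy 34 114 4) .no .no) .no (.br (.br (.br .no .no (.br .no .no .no (.de 43)) (.br .no .no (.de 43) .no)) .no (.br .no .no .no (.br .no .no (.de 43) .no)) .no) (.sy 34 114 4) .no .no) .no)) .no (.br .no .no (.br (.br .no (.br (.br .no .no (.br .no (.br (.br .no (.br .no .no (.de 41) (.br .no .no (.sy 41 201 5) .no)) .no (.br .no .no (.de 41) .no)) .no .no .no) .no .no) (.br .no (.br (.br .no (.br .no .no (.de 41) (.br .no .no (.sy 34 114 10) .no)) .no (.br .no .no (.de 41) .no)) .no .no .no) (.de 43) .no)) .no (.br .no .no .no (.br .no (.br (.br .no (.br .no .no (.br (.de 47) .no .no .no) (.br (.sy 34 114 7) .no .no .no)) .no (.br .no .no (.br (.de 47) .no .no .no) .no)) .no .no .no) (.de 43) .no)) .no) .no .no) .no .no .no) .no)) .no .no .no) (.br (.sw 1 3 [23]) (.br .no .no .no (.br .no .no (.br (.br .no (.br (.br .no .no .no (.br (.br .no (.br .no .no .no (.de 45)) .no .no) .no (.de 43) .no)) (.br (.br .no .no (.br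 (.sw 1 3 [23,30,31]) (.br .no .no .no (.de 45)) .no .no) .no) .no .no (.de 42)) .no .no) .no .no) .no .no .no) .no)) .no .no) .no))) .no (.de 27)) .no .no (.br .no (.br .no .no .no (.sy 23 27 4)) .no .no)) .no)) (.sw 0 3 [15]) .no .no) .no) .no .no .no) (.br (.br (.br .no (.br .no .no .no (.br .no .no (.br (.br .no (.sw 2 3 [19]) (.br .no .no .no (.br .no .no (.br (.br .no (.br .no .no .no (.sy 24 141 7)) .no .no) .no .no .no) (.br (.br .no (.br .no .no .no (.sy 24 141 7)) .no .no) .no (.br (.br .no (.br .no .no .no (.br (.sw 1 2 [26]) (.br .no .no (.sy 31 99 5) .no) .no .no)) .no (.sy 24 141 7)) (.sw 0 3 [10,17,23]) .no .no) .no))) .no) .no .no .no) .no)) .no .no) .no (.br (.br .no (.br .no .no (.sw 0 3 [10,17]) (.br (.br .no (.sw 2 3 [19]) (.br .no .no .no (.br .no (.br .no .no (.sw 0 3 [15,22]) (.br (.br .no (.sw 2 3 [24]) (.br .no (.br (.de 34) .no .no .no) .no (.br (.de 34) (.br (.br (.br .no (.sw 2 3 [29]) (.br .no (.br (.br .no .no (.br .no .no .no (.sy 33 177 7)) .no) .no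 .no .no) .no (.de 43)) .no) .no (.br .no (.br .no .no .no (.br (.sw 1 2 [31]) (.br (.br .no .no (.br .no .no .no (.sy 40 75 5)) (.de 41)) .no (.br .no .no .no (.de 41)) .no) .no .no)) .no .no) .no) .no .no .no) .no .no)) .no) .no (.br .no (.br .no .no .no (.br (.de 34) (.br (.sy 31 114 4) .no .no .no) .no .no)) .no .no) .no)) .no (.br .no .no (.br (.br .no (.sw 2 3 [24]) (.br .no (.br (.br .no (.sy 29 201 5) .no .no) .no .no .no) .no (.br (.sw 1 2 [26]) (.br (.br (.br .no (.br .no .no .no (.br (.sw 1 2 [31]) (.br (.br .no .no (.br .no (.de 48) .no .no) (.de 46)) .no (.br .no .no .no (.br .no (.de 48) (.sw 1 3 [28]) .no)) .no) .no .no)) .no (.br .no (.br (.br .no .no (.br .no .no .no (.br .no (.de 48) (.sw 1 3 [28]) .no)) .no) .no .no .no) .no .no)) (.br .no .no .no (.de 42)) .no .no) .no .no .no) .no .no)) .no) .no .no .no) .no))) .no) .no (.br .no (.br .no .no .no (.br .no (.br .no .no (.sw 0 3 [15,22]) (.br (.br .no (.br (.sw 2 3 [19,24,25]) .no .no (.sw 0 2 [25])) .no .no) .no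 (.br (.br .no .no .no (.br (.de 34) .no (.br (.br (.br .no (.br .no .no .no (.br .no (.sw 0 2 [25,30,31]) (.de 44) .no)) .no .no) .no (.br (.br .no (.br .no .no (.br (.br .no (.br .no .no .no (.br .no (.br .no .no (.sw 0 3 [15,22,29,36]) (.de 44)) .no (.br .no .no (.br .no .no .no (.br .no (.br .no .no .no (.sy 42 27 4)) .no .no)) .no))) .no (.de 41)) (.sw 0 3 [10,17,24,31,32]) .no .no) .no) .no (.br .no (.br (.br .no (.br .no .no .no (.br .no (.br .no .no (.de 44) .no) .no (.br .no .no (.de 44) .no))) .no (.de 41)) .no .no .no) (.de 44) .no)) (.sw 0 3 [15,22,29]) .no .no) .no) .no .no .no) .no)) (.sw 0 3 [10,17,24]) .no .no) .no)) .no (.br .no .no (.br (.br .no (.br (.sw 2 3 [19,24,25]) .no .no (.sw 0 2 [25])) .no .no) .no .no .no) .no))) .no .no) .no)) .no (.br .no .no (.br (.br .no (.sw 2 3 [19]) (.br .no .no .no (.sy 24 141 4)) .no) .no .no .no) .no)) (.sw 0 3 [15]) .no .no) .no) .no (.br (.br .no (.br .no .no .no (.br .no .no (.br (.br .no (.br .no .no .no (.sw 0 2 [20])) .no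 .no) .no .no .no) .no)) .no .no) .no (.br (.br .no (.br .no .no (.sw 0 3 [10,17]) (.br (.br .no (.br (.sy 25 228 4) .no .no (.sw 0 1 [14])) .no .no) .no (.br (.br .no .no .no (.sw 0 1 [14])) (.br (.br .no (.br .no .no (.sw 0 3 [15,22]) (.br (.br .no (.br (.br .no .no (.br .no .no .no (.sy 34 54 5)) (.de 34)) .no .no (.sw 0 2 [25])) .no .no) .no (.br (.br .no .no .no (.br .no .no (.br .no .no .no (.sw 0 1 [14,26,27])) .no)) (.sw 0 3 [10,17,24]) .no .no) .no)) .no (.br .no .no (.br (.br .no (.br (.br .no .no (.br .no (.br (.br .no (.br .no .no (.sw 0 3 [10,17,24,30]) (.br .no .no (.de 44) .no)) .no (.br .no .no (.de 43) .no)) (.br .no .no .no (.de 42)) .no .no) .no .no) (.br .no (.sy 30 180 5) .no .no)) .no .no (.sw 0 2 [25])) .no .no) .no .no .no) .no)) .no .no (.sw 0 1 [14])) .no .no) .no)) .no (.br .no .no (.br (.br .no (.br (.sy 25 228 4) .no .no (.sw 0 1 [14])) .no .no) .no .no .no) .no)) (.sw 0 3 [15]) .no .no) .no) .no))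

def c7_4_3 : Cert := (.br (.br .no .no (.br (.br .no (.br (.br .no .no .no (.br .no .no (.br .no (.br .no .no .no (.br .no .no (.de 20) .no)) .no (.br .no (.br .no .no (.de 20) (.sy 15 27 4)) .no .no)) .no)) (.br (.br .no .no (.br .no (.br .no .no .no (.br .no .no (.br (.sw 2 3 [7,8]) .no .no .no) .no)) .no (.br .no (.br .no .no (.br (.sw 2 3 [7,8]) .no .no .no) (.br (.sw 2 3 [7,8]) .no (.br .no .no (.br .no (.br (.br .no .no (.sy 17 39 7) .no) .no .no .no) .no (.br (.br .no .no (.sy 17 39 7) .no) (.br (.br .no .no (.br (.br .no .no .no (.sy 24 156 5)) (.br (.br (.br .no .no (.br .no .no .no (.br .no (.br (.sw 2 3 [7,8,19,20,25]) .no .no (.br .no .no (.br .no (.br .no (.br (.br .no .no (.sy 30 39 7) .no) .no .no .no) .no (.br (.br .no .no (.sy 30 39 7) .no) (.de 42) .no .no)) .no (.sy 30 39 4)) .no)) .no .no)) .no) (.br (.br .no .no (.br .no (.br (.sw 2 3 [7,8,19,20,25]) .no .no (.br .no .no (.br .no .no .no (.br .no .no (.br .no (.br (.br .no .no (.br (.br .no (.br (.sy 37 216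 4) .no .no .no) .no .no) (.sw 0 3 [32]) .no .no) .no) .no .no (.br (.br .no (.br (.de 41) .no .no .no) .no .no) .no (.de 44) .no)) .no (.br (.br .no .no (.br (.br .no (.br (.sy 37 216 4) .no .no .no) .no .no) (.sw 0 3 [32]) .no .no) .no) .no .no .no)) (.br .no (.de 42) .no .no))) .no)) .no (.br (.br .no .no (.br .no .no .no (.br .no .no (.br .no (.br (.br .no (.sw 2 3 [7,8,19,20,25,30,31]) (.sw 1 3 [31]) .no) .no .no .no) .no (.br (.br .no (.br .no .no .no (.de 45)) (.sw 1 3 [31]) .no) (.br .no .no (.br .no (.br (.de 41) .no .no .no) .no (.br (.de 41) (.br (.br .no (.de 48) .no .no) .no .no .no) .no .no)) .no) .no .no)) (.br .no (.de 42) .no .no))) (.de 34)) .no .no .no)) (.br .no (.br (.sw 2 3 [7,8,19,20,25]) .no .no (.br .no .no (.br .no .no .no (.sy 30 39 4)) .no)) .no .no)) .no (.br .no .no .no (.br .no (.br (.sw 2 3 [7,8,19,20,25]) .no .no (.br .no .no (.br .no .no .no (.sy 30 39 4)) .no)) .no .no)) .no) .no .no) .no .no (.sw 0 2 [20])) .no .no) .no) .no (.sy 17 39 7) .no) .no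 .no)) (.br .no (.br (.br .no .no (.sy 17 39 7) .no) .no .no .no) .no .no)) .no)) .no .no)) (.br .no (.br .no .no .no (.br .no .no (.br (.sw 2 3 [7,8]) .no .no .no) .no)) .no .no)) .no .no (.br .no .no (.br .no (.br .no .no .no (.br .no .no (.br c7_4_0 .no .no .no) .no)) .no (.br .no (.br .no .no (.br (.br (.br .no (.sy 15 27 7) .no .no) .no (.br (.br .no (.br (.br .no .no .no (.br .no (.br .no .no .no (.sy 22 180 5)) .no .no)) .no (.br (.br .no (.br .no .no .no (.br .no (.br .no .no (.sw 0 3 [15,22]) (.br (.br .no (.br .no .no (.br (.de 34) .no .no .no) (.br (.de 34) .no (.br (.br (.br .no (.sw 2 3 [29]) (.br .no .no .no (.de 43)) .no) .no (.br .no (.br .no .no (.sw 0 3 [15,22,29,30]) (.br (.br .no (.br .no .no .no (.de 41)) .no .no) .no (.de 44) .no)) .no .no) .no) .no .no .no) .no)) .no (.br .no .no (.br (.de 34) .no .no .no) .no)) .no .no .no)) .no (.br .no .no (.br (.sw 1 3 [17,18,23]) .no .no (.br .no (.br .no .no (.br (.br .no (.br (.br .no (.br (.br .no .no .no (.br .no (.de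 45) .no .no)) .no (.sw 0 3 [30]) .no) .no .no) (.sy 28 27 7) .no .no) .no .no) .no .no .no) (.sy 28 27 4)) .no .no)) .no))) .no (.de 27)) .no .no (.br .no (.br .no .no .no (.br .no (.br .no .no (.sw 0 3 [15,22]) (.sy 15 27 14)) .no (.br .no .no (.br (.br .no (.br (.br .no .no (.br (.sy 30 228 4) (.br (.br .no (.br .no .no (.sy 30 228 7) (.br .no .no (.de 44) .no)) .no (.sy 15 27 21)) (.br .no .no .no (.de 42)) .no .no) .no .no) .no) .no (.sw 0 3 [25]) .no) .no .no) .no .no (.sy 15 27 15)) .no))) .no .no)) .no) .no .no) (.sw 0 3 [15]) .no .no) .no) .no .no .no) (.sy 15 27 4)) .no .no)) .no)) .no .no) .no .no) (.de 13) .no .no) .no) .no .no (.br (.br .no (.de 13) .no .no) .no (.br (.br .no (.br (.br .no .no .no (.br (.br .no (.br .no .no .no (.br .no .no (.de 20) .no)) .no .no) .no (.br (.br .no (.br .no .no (.de 20) (.br .no .no c7_4_1 .no)) .no (.br .no .no (.de 20) .no)) (.sw 0 3 [10]) .no .no) .no)) (.br (.br .no .no (.br (.br .no (.br .no .no (.br (.sw 2 3 [7,8]) .no .no .no)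 (.br (.sw 2 3 [7,8]) .no (.br .no .no (.br .no (.br .no .no .no (.br .no .no (.br (.br .no (.br (.sw 2 3 [7,8,19,20]) .no .no (.sw 0 2 [20])) .no .no) .no .no .no) .no)) .no (.br .no (.br .no .no (.sw 0 3 [10,17]) (.br (.br .no (.br (.sw 2 3 [7,8,19,20]) .no .no (.sw 0 2 [20])) .no .no) .no (.br (.br .no .no .no (.sy 27 27 4)) (.br (.br (.br .no .no (.sy 22 39 7) .no) (.br (.br .no .no (.br (.br .no .no .no (.br .no .no (.br .no .no .no (.sy 29 156 5)) .no)) (.sw 0 3 [10,17,24]) .no .no) .no) .no (.sy 22 39 7) .no) .no .no) .no .no (.sw 0 2 [20])) .no .no) .no)) .no .no)) (.br .no (.br .no .no .no (.br .no .no (.br (.br .no (.br (.sw 2 3 [7,8,19,20]) .no .no .no) .no .no) .no .no .no) .no)) .no .no)) .no)) .no (.br .no .no (.br (.sw 2 3 [7,8]) .no .no .no) .no)) (.sw 0 3 [10]) .no .no) .no) .no .no (.br (.br .no (.br .no .no .no (.br .no .no (.br (.br (.br .no (.sw 2 3 [7,8,15]) (.br .no .no .no (.br (.br .no (.br .no .no .no (.br .no .no (.br .no (.br (.br .no (.sw 2 3 [7,8,15,22,23])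 (.br .no .no .no (.br (.br .no (.br .no .no .no (.sy 27 141 7)) .no .no) .no (.br (.br .no .no .no (.sy 27 141 7)) (.br .no .no .no (.sy 30 75 5)) .no .no) .no)) .no) .no .no .no) .no (.br (.sw 1 2 [22]) (.br .no .no (.br .no .no .no (.br (.br .no (.de 34) .no .no) .no (.br (.br .no (.sy 34 99 5) .no .no) (.de 34) .no .no) .no)) .no) .no .no)) .no)) .no .no) .no (.br (.br .no (.br .no .no (.sy 27 141 4) (.br .no (.br (.br .no (.br .no .no .no (.br .no .no (.br (.br .no .no (.sy 32 201 5) .no) .no .no .no) .no)) .no .no) .no .no .no) .no (.br (.sw 1 2 [22]) (.br (.br .no (.br .no .no (.br (.br .no (.sw 2 3 [27]) (.sy 29 225 5) .no) .no .no .no) (.br (.br .no (.sw 2 3 [27]) (.br (.br .no .no (.br .no .no .no (.de 43)) (.sw 1 2 [22,29])) .no (.br .no .no .no (.sy 29 177 7)) .no) .no) .no (.br .no (.sy 34 114 4) .no .no) .no)) .no (.br .no .no (.br (.br .no (.sw 2 3 [27]) (.br (.br .no .no (.br .no (.br (.br .no (.br .no .no .no (.br .no (.de 48) .no .no)) .no (.br .no (.de 41) .no .no))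 .no .no .no) .no .no) (.sw 1 2 [22,29])) .no (.br .no .no .no (.br .no (.br (.br .no (.br .no .no .no (.br (.sw 1 2 [34]) (.sy 37 177 4) .no .no)) .no (.br .no (.br (.br .no (.de 48) .no .no) .no .no .no) .no .no)) .no .no .no) (.de 43) .no)) .no) .no) .no .no .no) .no)) .no .no .no) .no .no))) .no (.br .no .no (.sy 27 141 4) .no)) (.br .no .no .no (.br .no .no (.sy 27 141 4) .no)) .no .no) .no)) .no) .no (.br .no (.br .no .no (.sw 0 3 [10,15,16]) (.br (.br .no (.br .no .no .no (.de 27)) .no .no) .no (.br (.br .no (.br .no .no .no (.br (.br .no .no (.br (.br .no (.br .no .no (.br (.sy 28 216 5) .no .no .no) (.br (.br .no (.sw 2 3 [7,8,15,21,27]) .no .no) .no (.br .no (.br .no (.br .no .no .no (.de 42)) .no (.br .no (.de 42) .no .no)) .no .no) .no)) .no (.br .no .no (.br (.sy 28 156 5) .no .no .no) .no)) (.sw 0 3 [10,15,16,23]) .no .no) .no) .no .no (.br (.br .no (.br .no .no .no (.br .no .no (.br (.br .no (.sw 0 2 [21]) .no .no) .no .no .no) .no)) .no .no) .no (.br (.br .no (.br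 .no .no (.br (.br .no (.sw 0 2 [21]) .no .no) .no .no .no) (.br (.br .no (.sw 0 2 [21]) .no .no) .no (.br (.br (.br .no (.br .no .no (.sw 0 3 [10,15,16,23,30]) (.br (.br .no (.br .no .no .no (.br .no (.de 48) (.br .no .no .no (.br .no .no (.de 44) .no)) .no)) .no .no) .no (.de 44) .no)) .no (.br .no .no (.de 43) .no)) (.br .no .no .no (.de 42)) .no .no) (.sw 0 2 [21]) .no .no) .no)) .no (.br .no .no (.br (.br .no (.sw 0 2 [21]) .no .no) .no .no .no) .no)) (.sw 0 3 [10,15,16,23]) .no .no) .no))) .no (.de 27)) (.br .no .no .no (.de 27)) .no .no) .no)) .no .no) .no) .no .no .no) .no)) .no .no) .no (.br (.br .no c7_4_2 .no (.br .no .no (.br (.br (.br .no (.br .no .no .no (.br .no (.br (.br .no (.sy 22 114 4) .no (.br .no .no (.br .no .no (.br (.sy 22 114 7) .no .no .no) (.br (.sy 22 114 7) .no (.br (.br .no .no (.br .no (.br (.br .no (.sy 29 201 5) .no .no) .no .no .no) .no .no) (.br .no (.sy 22 114 10) (.br (.sw 1 3 [26]) (.de 34) .no .no) .no)) .no .no .no) .no)) .no)) .no .no .no)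 (.br (.sw 1 3 [18]) (.br .no .no .no (.br .no .no (.br .no .no (.br (.br .no (.br (.br .no .no (.br (.sw 1 3 [18,25,26]) (.br .no .no .no (.br .no (.br .no .no (.sy 29 228 7) (.de 42)) .no (.br .no .no (.sy 29 228 7) .no))) .no .no) .no) .no .no (.br (.br .no (.br .no .no .no (.br .no (.br .no .no (.br (.br .no (.br .no .no (.br (.de 41) .no .no .no) (.de 45)) (.br .no .no .no (.br (.de 41) .no (.sw 0 1 [25,32,33]) .no)) .no) .no .no .no) (.de 42)) .no (.br .no .no (.br (.br .no (.br .no .no (.br (.br .no (.br .no (.br .no .no .no (.br .no .no (.br .no .no .no (.de 46)) .no)) .no .no) .no .no) .no .no .no) (.de 45)) (.br .no .no .no (.br (.de 46) .no (.sw 0 1 [25,32,33]) .no)) .no) .no .no .no) .no))) .no .no) .no (.sw 0 1 [25]) .no)) .no .no) .no .no .no) (.br (.br .no (.br (.br .no .no (.br (.sw 1 3 [18,25,26]) (.de 34) .no .no) .no) .no .no (.br (.br .no (.de 34) .no .no) .no (.sw 0 1 [25]) .no)) .no .no) .no (.br (.br .no .no .no (.br (.br .no (.de 34) .no .no) .no (.sw 0 1 [25])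 .no)) (.br (.br .no .no (.br (.sw 1 3 [18,25,26]) (.de 34) .no .no) .no) .no .no (.br (.br .no (.de 34) .no .no) .no (.sw 0 1 [25]) .no)) .no .no) .no)) .no)) .no .no) .no)) .no .no) .no (.br (.br .no (.br .no .no (.br (.sw 1 3 [18]) (.br .no .no .no (.de 27)) .no .no) .no) .no (.br .no (.br (.br .no (.br .no .no .no (.br .no (.br .no .no (.br (.br .no .no (.sw 1 3 [18,23,24]) (.br .no .no (.br (.de 34) .no .no .no) .no)) .no .no .no) .no) .no (.br .no (.br (.br .no .no (.br .no .no .no (.br (.br .no (.br (.br .no .no (.br .no (.br (.br .no (.br .no .no (.de 41) (.br .no .no (.sy 41 201 5) .no)) (.br .no .no .no (.br .no .no (.sy 39 78 4) .no)) .no) .no .no .no) .no (.de 43)) (.br .no (.br (.br .no (.br .no .no (.de 41) (.br .no .no (.br .no (.de 48) .no .no) .no)) (.br .no .no .no (.br .no .no (.br .no (.de 48) .no .no) .no)) .no) .no .no .no) .no .no)) .no (.br .no .no .no (.br .no (.br (.br .no (.br .no .no (.br (.de 47) .no .no .no) (.br (.br .no (.de 48) .no .no) .no .no .no))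 (.br .no .no .no (.br (.br .no (.de 48) .no .no) .no .no .no)) .no) .no .no .no) .no .no)) .no) .no .no) .no (.br (.br (.br .no .no (.br .no (.br (.sy 31 78 7) .no .no .no) .no (.de 43)) (.br .no (.br (.sy 31 78 7) .no .no .no) .no .no)) .no (.br .no .no .no (.br .no (.br (.sy 31 78 7) .no .no .no) .no .no)) .no) (.sy 31 75 5) .no .no) .no)) (.br .no .no (.br (.br .no (.br (.br .no .no (.br .no (.br (.br .no (.sw 2 3 [31,32]) .no (.br .no .no (.de 41) .no)) .no .no .no) .no .no) (.br .no (.br (.br .no (.sw 2 3 [31,32]) .no (.br .no .no (.de 41) .no)) .no .no .no) (.de 43) .no)) .no (.br .no .no .no (.br .no (.br (.br .no (.sw 2 3 [31,32]) .no (.br .no .no (.br (.de 47) .no .no .no) .no)) .no .no .no) (.de 43) .no)) .no) .no .no) .no .no .no) .no)) .no (.br .no .no .no (.br .no .no (.br (.br .no (.sy 34 99 5) .no .no) .no .no .no) .no)) .no) (.br (.br .no .no (.sw 1 3 [18,23,24]) (.br .no .no (.br (.br .no (.br (.br .no (.br .no .no (.br (.sw 1 3 [18,23,24,31]) (.br .no .no .no (.de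 45)) .no .no) .no) .no (.sw 1 2 [29])) (.br .no .no .no (.de 42)) .no .no) .no .no) .no .no .no) .no)) .no .no .no) .no))) .no (.de 27)) .no .no .no) (.br (.sw 1 3 [18]) (.br .no .no .no (.de 27)) .no .no) .no)) (.sw 0 3 [15]) .no .no) .no) .no .no .no) .no)) (.sw 0 3 [10]) .no .no) .no)) .no .no) .no .no) (.de 13) .no .no) .no))

theorem P7_4 : R.S 8 60804 :=
  R.piece L hL (.br .no .no (.br .no c7_4_3 .no (.br (.br .no .no (.br (.sy 7 30 5) (.de 13) .no .no) .no) .no .no .no)) .no) 8 60804 65536 (by norm_num) (by norm_num) (by norm_num) (by decide +kernel)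

def c7_5_0 : Cert := (.br .no (.br (.br .no .no (.br .no .no .no (.br .no (.br (.br (.br .no .no (.br .no (.br (.br .no .no (.br .no .no .no (.br .no (.br .no (.br (.br .no .no (.br .no (.br (.br .no .no (.br .no .no .no (.br .no .no .no (.de 43))) .no) .no .no .no) .no (.de 44)) (.br .no (.br (.br .no .no (.br .no .no .no (.br .no .no .no (.br .no .no (.de 44) .no))) .no) .no .no .no) .no .no)) .no .no (.de 42)) .no (.br (.br .no .no (.br .no (.br (.br .no .no (.de 41) .no) .no .no .no) .no (.de 44)) (.br .no (.br (.sy 35 57 4) .no .no .no) .no .no)) .no .no .no)) .no .no)) .no) .no .no .no) .no (.br (.br .no .no (.br .no .no .no (.br .no (.br .no (.br (.br .no (.br .no .no .no (.br (.sy 35 177 4) (.de 45) .no .no)) (.sw 1 3 [30]) .no) .no .no .no) .no (.br (.br .no (.br .no .no .no (.br (.br .no .no (.de 41) .no) (.de 45) .no .no)) (.sw 1 3 [30]) .no) (.de 42) .no .no)) .no .no)) .no) (.br (.br .no .no (.br .no (.br .no (.br (.br .no .no (.br .no .no .no (.de 44)) .no) .no .no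 .no) .no (.br (.br .no .no (.br .no .no .no (.de 44)) .no) (.de 42) .no .no)) .no (.br .no (.br (.br .no .no (.br .no .no .no (.de 44)) .no) .no .no .no) .no (.br (.br .no .no (.br .no .no .no (.de 44)) .no) (.de 42) .no .no))) (.br .no (.br .no (.br (.br .no .no (.br .no .no .no (.de 44)) .no) .no .no .no) .no (.br (.br .no .no (.br .no .no .no (.de 44)) .no) (.de 42) .no .no)) .no .no)) .no (.br .no .no .no (.br .no (.br .no (.br (.br .no .no (.br (.br .no (.br (.de 46) .no (.sw 0 3 [12,19,20,25,27,33]) .no) .no .no) .no .no (.de 44)) .no) .no .no .no) .no (.br (.br .no .no (.br (.br .no (.br (.de 46) .no (.de 41) .no) .no .no) .no .no (.de 44)) .no) (.de 42) .no .no)) .no .no)) .no) .no .no)) (.br .no (.br (.br .no .no (.br .no .no .no (.br .no (.br .no (.br (.sw 2 3 [29]) .no (.br .no .no .no (.de 43)) .no) (.br (.br .no .no (.br .no (.br (.sy 35 201 4) .no .no .no) .no (.de 44)) (.br .no (.br (.br .no .no (.br .no .no .no (.sy 40 78 4)) .no) .no .no .no) .no .no)) .no .no .no)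 .no) .no .no)) .no) .no .no .no) .no .no)) .no .no (.br .no .no (.br .no (.br (.br .no .no (.br .no .no .no (.br .no (.sy 33 39 4) .no .no)) .no) .no .no .no) .no (.br (.br .no .no (.sy 28 30 4) .no) (.br (.br .no .no (.br .no (.br (.br .no (.br (.br .no .no (.br .no (.sw 0 3 [12,19,20,25,27,32]) .no (.br (.sy 35 228 5) .no .no .no)) (.br .no (.de 45) .no .no)) .no (.br .no .no .no (.de 44)) .no) .no .no) (.br (.br .no .no (.br .no .no .no (.de 44)) .no) .no .no .no) .no .no) .no .no) (.sy 28 27 5)) .no (.sy 28 27 4) .no) .no .no)) .no)) .no .no .no) (.br (.sy 24 78 4) .no .no .no) .no)) .no) .no .no .no) .no (.br (.br .no .no (.br .no .no .no (.br .no (.br (.br (.br .no (.br .no .no .no (.br (.br .no .no (.br .no .no .no (.br .no (.sy 34 177 4) .no .no)) .no) (.br (.br .no .no (.br .no (.sy 34 177 4) .no (.br .no .no (.br (.br .no .no (.br .no .no .no (.de 44)) .no) .no .no .no) (.br (.br .no .no (.br .no .no .no (.de 44)) .no) .no (.br (.br .no .no (.br .no (.br (.de 46) .no .no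 .no) .no (.br (.sy 36 141 4) (.br .no .no (.sy 41 78 4) .no) .no .no)) (.br .no (.de 45) .no .no)) .no .no .no) .no))) (.sy 29 114 4)) .no (.br .no .no .no (.sy 29 99 4)) .no) .no .no)) (.sw 1 3 [22]) .no) (.br .no .no (.br .no (.br (.br .no .no (.sy 28 210 4) .no) .no .no .no) .no (.br (.br .no .no (.br .no .no .no (.de 34)) .no) (.br (.br .no .no (.br .no .no .no (.br (.br .no (.br (.br .no .no (.br .no (.sy 35 228 4) .no (.br (.sy 35 228 5) (.br .no .no (.br .no .no .no (.de 48)) .no) .no .no)) (.br .no (.de 45) .no .no)) .no (.br .no .no .no (.de 44)) .no) .no .no) .no .no (.br (.br .no .no (.br .no .no .no (.de 44)) .no) (.de 42) .no .no))) (.de 34)) .no (.br .no .no .no (.de 34)) .no) .no .no)) .no) .no .no) .no .no .no) (.br (.sy 24 78 4) .no .no .no) .no)) .no) (.br (.br .no .no (.br .no (.br (.br (.br .no .no (.br .no .no .no (.br .no (.br (.br .no .no (.br .no (.sw 0 3 [12,19,20,27]) .no (.br .no (.br (.br .no .no (.br .no .no .no (.de 44)) .no) .no .no .no) .no (.br (.br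 .no .no (.br .no .no .no (.de 44)) .no) (.de 42) .no .no))) (.br .no (.br .no (.br (.br .no .no (.br .no .no .no (.de 44)) .no) .no .no .no) .no (.br (.br .no .no (.br .no .no .no (.de 44)) .no) (.de 42) .no .no)) .no .no)) .no .no (.br .no .no (.br .no (.sw 0 3 [12,19,20,27]) .no (.sy 30 39 4)) .no)) .no .no)) .no) (.br (.br .no .no (.br .no (.br (.br .no .no (.br .no .no .no (.br .no .no (.br .no (.br (.br .no .no (.br .no (.br (.de 41) .no .no .no) .no (.br (.de 41) (.br (.br .no .no .no (.de 48)) .no .no .no) .no .no)) (.br .no (.de 45) .no .no)) .no .no (.br .no .no (.de 44) .no)) .no (.br (.br .no .no (.br .no (.br (.de 41) .no .no .no) .no (.br (.de 41) (.br (.br .no (.br .no .no (.br .no .no .no (.br .no (.br (.br .no .no (.sw 0 3 [4,10,17,24,32,39,46]) .no) .no .no .no) .no .no)) .no) .no .no) .no .no .no) .no .no)) (.br .no (.de 45) .no .no)) .no .no .no)) (.br .no (.de 42) .no .no))) (.de 34)) .no .no (.br .no .no (.br .no .no .no (.br .no .no (.br .no (.br (.br .no .no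 (.br (.br .no (.de 46) .no .no) (.sw 0 3 [32]) .no .no) .no) .no .no (.br (.br .no (.br (.de 41) .no .no .no) .no .no) .no (.de 44) .no)) .no (.br (.br .no .no (.br (.br .no (.de 46) .no .no) (.sw 0 3 [32]) .no .no) .no) .no .no .no)) (.br .no (.de 42) .no .no))) .no)) .no (.br (.br .no .no (.br .no .no .no (.br .no .no (.br .no (.br (.br .no (.br .no .no .no (.de 45)) (.sw 1 3 [31]) .no) .no .no .no) .no (.br (.br .no (.br .no .no .no (.de 45)) (.sw 1 3 [31]) .no) (.br .no .no (.br .no (.br (.de 41) .no .no .no) .no (.br (.de 41) (.br (.br .no (.br .no .no (.br .no .no .no (.sw 0 1 [37])) .no) .no .no) .no .no .no) .no .no)) .no) .no .no)) (.br .no (.de 42) .no .no))) (.de 34)) .no .no .no)) (.br .no (.br (.br .no .no (.br .no .no .no (.br .no .no (.br .no (.br (.sw 2 3 [30]) .no (.br .no .no .no (.de 44)) .no) .no .no) (.br .no (.de 42) (.br (.br .no .no (.br .no (.br (.de 46) .no .no .no) .no (.br (.sy 36 141 4) (.br (.de 48) .no (.sw 0 3 [12,19,20,27,34]) .no) .no .no)) (.br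 .no (.de 45) .no .no)) .no .no .no) .no))) (.de 34)) .no .no (.br .no .no (.br .no .no .no (.sy 30 39 4)) .no)) .no .no)) .no (.br .no .no .no (.br .no (.br (.br .no .no (.br .no .no .no (.br (.br .no (.br (.br .no .no (.br .no (.sy 35 228 4) .no (.br (.sy 35 228 5) (.br .no .no (.sw 0 3 [12,19,20,27,34]) .no) .no .no)) (.br .no (.de 45) .no .no)) .no (.br .no .no .no (.de 44)) .no) .no .no) .no .no (.br (.br .no .no (.br .no .no .no (.de 44)) .no) (.de 42) .no .no))) (.de 34)) .no .no (.br .no .no (.br .no .no .no (.sy 30 39 4)) .no)) .no .no)) .no) .no .no) .no .no .no) .no .no) (.br .no (.br (.br (.br .no .no (.br .no .no .no (.br .no (.br (.sw 2 3 [25]) .no (.br .no .no .no (.br .no (.br .no (.br (.br .no .no (.br (.br .no (.br (.de 46) .no (.sy 36 216 4) .no) .no .no) .no .no (.de 44)) .no) .no .no .no) .no (.br (.br .no .no (.br (.br .no (.br (.de 46) .no (.de 41) .no) .no .no) .no .no (.de 44)) .no) (.de 42) .no .no)) .no .no)) .no) (.br (.br .no .no (.sy 29 78 4) (.sy 29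 78 4)) .no .no .no) .no)) .no) (.br (.br .no .no (.br .no (.br (.sw 2 3 [25]) .no (.br .no .no .no (.de 34)) .no) .no .no) (.br .no (.br (.sw 2 3 [25]) .no (.br .no .no .no (.de 34)) .no) (.br (.br .no .no (.br .no .no .no (.br .no .no (.br .no (.br (.br .no (.sw 2 3 [25,30,31]) .no (.sw 1 2 [31])) .no .no .no) .no .no) (.br .no (.de 42) (.br (.br .no (.br .no .no .no (.de 45)) .no (.sw 1 2 [31])) (.br .no .no .no (.br .no (.de 45) .no .no)) .no .no) .no))) (.de 34)) .no .no .no) .no)) .no (.br .no .no .no (.br .no (.br (.sw 2 3 [25]) .no (.br .no .no .no (.de 34)) .no) (.br (.br .no .no (.sy 29 78 4) (.de 34)) .no .no .no) .no)) .no) .no .no) .no .no .no) (.br (.br (.br .no .no (.br .no .no .no (.br .no (.br (.br .no (.br .no .no .no (.sy 31 177 4)) .no (.sw 1 2 [26])) .no .no .no) (.br (.br .no (.br .no .no .no (.br .no (.br (.br .no (.br .no .no .no (.br .no .no (.br (.br .no .no (.de 47) .no) .no .no .no) .no)) .no .no) .no .no .no) .no (.br (.br .no (.br .no .no .no (.br .no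 .no (.br (.br .no (.br .no (.br .no .no (.de 44) (.br .no .no (.br .no (.de 46) .no .no) .no)) .no .no) (.de 47) .no) .no .no .no) .no)) .no .no) (.de 42) .no .no))) .no (.sw 1 2 [26])) (.br .no .no .no (.sy 29 75 4)) .no .no) .no)) .no) (.br (.br .no .no (.br .no (.br (.br .no (.br .no .no .no (.sy 31 177 4)) .no (.de 34)) .no .no .no) .no .no) (.br .no (.br (.br .no (.br .no .no .no (.sy 31 177 4)) .no (.de 34)) .no .no .no) (.br (.br .no (.br .no .no .no (.sy 33 114 4)) .no (.de 34)) (.br .no .no .no (.de 34)) .no .no) .no)) .no (.br .no .no .no (.br .no (.br (.br .no (.br .no .no .no (.sy 31 177 4)) .no (.de 34)) .no .no .no) (.br (.br .no (.br .no .no .no (.sy 33 99 4)) .no (.de 34)) (.br .no .no .no (.de 34)) .no .no) .no)) .no) .no .no) .no .no .no) .no)) .no (.br .no .no .no (.br .no (.br (.br (.br .no .no (.br (.br .no (.br (.sy 28 216 4) .no (.sy 28 216 4) .no) .no .no) .no .no (.sw 0 1 [23])) .no) (.br (.br .no .no .no (.br (.br .no .no (.br .no .no .no (.de 34)) .no)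 (.sw 0 2 [24]) .no .no)) .no (.br (.br .no (.br (.br .no .no (.br .no .no .no (.br (.br .no (.br .no .no (.br .no .no .no (.de 44)) (.br .no .no (.de 44) .no)) .no (.br .no .no (.de 43) .no)) .no .no (.br .no (.de 42) .no .no))) (.de 34)) .no (.br .no .no .no (.de 34)) .no) .no .no) .no .no (.sw 0 1 [23])) .no) .no .no) .no .no .no) (.br (.sy 24 78 4) .no .no .no) .no)) .no) .no .no))

def c7_5_1 : Cert := (.br .no (.br (.br .no .no (.br (.sy 18 216 4) .no .no (.br .no .no (.br .no (.br (.br .no .no (.br .no (.sw 0 3 [12,18]) .no (.br (.de 27) (.br (.br (.br .no .no (.br .no (.br (.br .no .no (.br .no .no .no (.br .no (.br .no (.br (.br .no .no (.br .no (.sw 0 3 [12,18,25,31]) .no (.de 44)) (.br .no (.br (.br .no .no (.br .no .no .no (.br .no .no .no (.br .no .no (.de 44) .no))) .no) .no .no .no) .no .no)) .no .no (.de 42)) .no (.br (.br .no .no (.br .no (.sw 0 3 [12,18,25,31]) .no (.de 44)) (.br .no (.br (.sy 35 57 4) .no .no .no) .no .no)) .no .no .no)) .no .no)) .no) .no .no .no)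 .no (.br (.br .no .no (.br .no .no .no (.br .no (.br .no (.br (.br .no (.br .no .no .no (.br (.sy 35 177 4) (.de 45) .no .no)) (.sw 1 3 [30]) .no) .no .no .no) .no (.br (.br .no (.br .no .no .no (.br (.br .no .no (.de 41) .no) (.de 45) .no .no)) (.sw 1 3 [30]) .no) (.de 42) .no .no)) .no .no)) .no) (.br (.br .no .no (.br .no (.sw 0 3 [20,27]) .no (.br .no (.br (.br .no .no (.br .no .no .no (.de 44)) .no) .no .no .no) .no (.br (.br .no .no (.br .no .no .no (.de 44)) .no) (.de 42) .no .no))) (.br .no (.br .no (.br (.br .no .no (.br .no .no .no (.de 44)) .no) .no .no .no) .no (.br (.br .no .no (.br .no .no .no (.de 44)) .no) (.de 42) .no .no)) .no .no)) .no (.sw 0 3 [12,18,25]) .no) .no .no)) (.br .no (.br (.br .no .no (.br .no .no .no (.br .no (.br .no (.br (.sw 2 3 [29]) .no (.br .no .no .no (.de 43)) .no) (.br (.br .no .no (.br .no (.sw 0 3 [12,18,25,31]) .no (.de 44)) (.br .no (.br (.br .no .no (.br .no .no .no (.sy 40 78 4)) .no) .no .no .no) .no .no)) .no .no .no) .no) .no .no))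 .no) .no .no .no) .no .no)) .no .no (.br .no .no (.br .no (.br (.br .no .no (.br .no .no .no (.br .no (.sy 33 39 4) .no .no)) .no) .no .no .no) .no (.br (.br .no .no (.sy 28 30 4) .no) (.br (.br .no .no (.br .no (.sw 0 3 [20,27]) .no .no) (.sy 28 27 5)) .no (.sw 0 3 [12,18,25]) .no) .no .no)) .no)) .no .no .no) .no .no)) (.br .no (.br (.de 27) .no .no .no) .no .no)) .no .no (.br .no .no (.br .no (.sw 0 3 [12,18]) .no (.br (.de 27) (.br (.br (.br .no .no (.br (.br .no (.br (.sy 28 216 4) .no (.sw 0 3 [12,18,25]) .no) .no .no) (.sw 0 3 [23]) .no .no) .no) .no .no (.br (.br .no (.br (.br .no .no (.br .no .no .no (.br .no (.sy 33 54 4) .no .no)) .no) .no .no .no) .no .no) .no (.br (.br .no (.br (.br .no .no (.br .no (.sw 0 3 [20,27]) .no .no) (.br .no (.sy 30 180 4) .no .no)) .no (.sw 0 3 [12,18,25]) .no) .no .no) (.sw 0 3 [23]) .no .no) .no)) .no .no .no) .no .no)) .no)) .no (.br (.br .no .no (.br .no (.sw 0 3 [12,18]) .no (.br (.de 27) (.br (.br (.br .no (.br .no .no .no (.br (.br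 .no .no (.br .no .no .no (.br .no (.sy 34 177 4) .no .no)) .no) (.br (.br .no .no (.br .no (.sw 0 3 [20,27]) .no (.br .no .no (.br (.br .no .no (.br .no .no .no (.de 44)) .no) .no .no .no) (.br (.br .no .no (.br .no .no .no (.de 44)) .no) .no (.br (.br .no .no (.br .no (.sw 0 3 [12,18,25,32]) .no (.br (.sy 36 141 4) (.br .no .no (.sy 41 78 4) .no) .no .no)) (.br .no (.de 45) .no .no)) .no .no .no) .no))) (.sy 29 114 4)) .no (.sw 0 3 [12,18,25]) .no) .no .no)) (.sw 1 3 [22]) .no) (.br .no .no (.br .no (.br (.br .no .no (.sy 28 210 4) .no) .no .no .no) .no (.br (.br .no .no (.br .no .no .no (.de 34)) .no) (.br (.br .no .no (.br .no .no .no (.br (.br .no (.br (.br .no .no (.br .no (.sw 0 3 [12,18,25,32]) .no (.br (.sy 35 228 5) (.br .no .no (.sw 0 3 [20,27,34]) .no) .no .no)) (.br .no (.de 45) .no .no)) .no (.br .no .no .no (.de 44)) .no) .no .no) .no .no (.br (.br .no .no (.br .no .no .no (.de 44)) .no) (.de 42) .no .no))) (.de 34)) .no (.sw 0 3 [12,18,25]) .no) .no .no)) .no) .no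 .no) .no .no .no) .no .no)) (.br .no (.br (.de 27) .no .no .no) .no .no)) .no .no .no)) (.br .no (.br (.br .no .no (.br .no (.sw 0 3 [12,18]) .no (.br (.br .no .no (.br (.br .no .no (.br .no (.br (.br .no (.br .no .no .no (.br .no (.sy 30 177 4) .no .no)) (.sw 1 3 [25]) .no) .no .no .no) .no (.br (.br .no (.br .no .no .no (.br .no (.br .no (.br (.br .no (.br .no .no (.br (.sy 35 225 4) .no .no .no) (.br (.sy 35 177 4) .no (.br (.br .no .no (.de 47) (.br .no .no .no (.br .no .no (.de 44) .no))) .no .no .no) .no)) (.sw 1 3 [30]) .no) .no .no .no) .no (.br (.br .no (.br .no .no (.br (.br .no .no (.de 41) .no) .no .no .no) (.br (.br .no .no (.de 41) .no) .no (.br (.br .no .no (.de 47) .no) .no .no .no) .no)) (.sw 1 3 [30]) .no) (.de 42) .no .no)) .no .no)) (.sw 1 3 [25]) .no) (.br .no .no (.br .no (.de 34) .no (.br .no (.br .no (.br (.br .no .no (.br (.sw 1 3 [25,30,31]) .no .no (.de 44)) .no) .no .no .no) .no (.br (.br .no .no (.br (.sw 1 3 [25,30,31]) .no .no (.de 44)) .no) (.de 42)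 .no .no)) .no .no)) .no) .no .no)) (.br .no (.br (.br .no (.br .no .no .no (.br .no (.sy 30 177 4) .no .no)) (.sw 1 3 [25]) .no) .no .no .no) .no .no)) .no (.br .no .no .no (.br .no (.br (.br .no (.br .no .no .no (.br (.sy 30 177 4) (.sy 30 177 4) .no .no)) (.sw 1 3 [25]) .no) .no .no .no) .no .no)) .no) .no) (.br (.br (.br .no .no (.br .no (.br (.br .no .no (.br .no .no .no (.br .no (.sw 2 3 [21]) (.sy 32 78 4) .no)) .no) .no .no .no) .no (.br (.br .no .no (.br .no .no .no (.br .no (.sw 2 3 [21]) (.sy 32 78 4) .no)) .no) (.br (.br .no .no (.br .no (.sw 2 3 [21]) .no .no) (.br .no (.sw 2 3 [21]) (.br .no (.br (.br .no .no (.br .no .no .no (.de 44)) .no) .no .no .no) .no (.br (.br .no .no (.br .no .no .no (.de 44)) .no) (.de 42) .no .no)) .no)) .no (.sw 0 3 [12,18,25]) .no) .no .no)) (.br .no (.br (.br .no .no (.br .no .no .no (.br .no (.sw 2 3 [21]) (.sy 32 78 4) .no)) .no) .no .no .no) .no .no)) .no (.br .no .no .no (.br .no (.br (.br .no .no (.br .no .no .no (.br .no (.br (.br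 .no .no (.br .no .no .no (.de 43)) .no) (.br (.br .no .no (.br .no (.sw 0 3 [12,18,25,31]) .no (.de 44)) (.br .no (.br (.br .no .no (.br (.de 47) .no .no (.sw 0 2 [28])) .no) .no .no .no) .no .no)) .no (.br .no .no .no (.de 43)) .no) .no .no) .no .no)) .no) .no .no .no) .no .no)) .no) .no (.sw 0 3 [20]) .no) .no .no)) (.br .no (.br (.br .no .no (.br (.br .no .no (.br .no (.br (.sw 2 3 [24]) .no (.sw 0 3 [12,18,23,24]) .no) .no .no) (.br .no (.br (.sw 2 3 [24]) .no (.br .no .no .no (.br .no (.de 34) .no .no)) .no) (.br (.br .no .no (.br .no (.de 34) .no (.br .no (.br .no (.br (.br .no (.sw 2 3 [24,29,30]) .no (.sw 1 2 [30])) .no .no .no) (.br (.br .no (.br .no .no .no (.br (.br .no .no (.br .no .no .no (.br .no (.br .no .no (.de 44) (.br .no .no (.br .no (.de 46) .no .no) .no)) .no (.br .no .no (.de 44) .no))) .no) (.de 45) .no .no)) .no (.sw 1 2 [30])) (.br .no .no .no (.br .no (.br (.br .no .no (.br .no .no .no (.sy 40 75 4)) .no) .no .no .no) .no .no)) .no .no) .no) .no .no)) (.br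 .no (.de 34) .no .no)) .no .no .no) .no)) .no (.br .no .no .no (.br .no (.br (.sw 2 3 [24]) .no (.br .no .no .no (.br .no (.br (.br (.br .no .no (.br (.br .no (.br (.sw 2 3 [24,31,32]) .no (.sw 0 3 [20,26,32]) .no) .no .no) .no .no (.de 43)) .no) (.br (.br .no .no .no (.br (.br .no .no (.br .no .no .no (.de 41)) .no) (.sw 0 2 [31]) .no .no)) .no (.sw 0 3 [12,18,23,24,29]) .no) .no .no) .no .no .no) .no .no)) .no) (.br (.br .no .no (.sy 28 78 4) (.sy 28 78 4)) .no .no .no) .no)) .no) .no) .no .no .no) .no .no)) .no .no (.br .no .no (.br .no (.sw 0 3 [12,18]) .no (.sy 21 39 4)) .no)) .no .no))) .no) .no .no .no) .no (.br (.br .no .no (.br (.sy 18 216 4) .no .no (.br .no .no (.br .no (.br (.br .no (.br .no .no .no (.br (.de 27) (.sy 22 177 4) .no .no)) (.sw 1 3 [17]) .no) .no .no .no) .no (.br (.br .no (.br .no .no .no (.br (.de 27) (.br (.br (.br .no (.br .no .no (.br (.br .no .no (.br .no .no .no (.br .no (.sy 34 225 4) .no .no)) .no) .no .no .no) (.br (.br .no .no (.br .no .no .no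 (.br .no (.sy 34 177 4) .no .no)) .no) .no (.br (.br .no .no (.br .no (.sw 0 3 [20,27]) .no (.sy 31 141 4)) (.br .no (.br .no .no (.br (.br .no (.br .no .no .no (.br .no (.de 45) (.br (.br .no .no .no (.br .no (.br .no .no (.de 44) (.br .no .no (.br .no (.de 46) .no .no) .no)) .no (.br .no .no (.de 44) .no))) .no .no .no) .no)) .no .no) .no .no .no) (.br (.br .no (.br .no .no .no (.br .no (.de 45) (.br (.br .no .no (.de 47) .no) .no .no .no) .no)) .no .no) .no (.br (.br .no (.br .no .no (.br (.br .no .no (.de 47) .no) .no .no .no) .no) .no (.br .no (.de 45) (.br (.br .no .no (.de 47) .no) .no .no .no) .no)) (.br .no .no .no (.br .no (.de 45) (.br (.br .no .no (.de 47) .no) .no .no .no) .no)) .no .no) .no)) .no .no)) .no .no .no) .no)) (.sw 1 3 [22]) .no) (.br .no .no (.br .no .no .no (.br (.br .no .no (.br .no .no .no (.de 34)) .no) .no (.br (.br .no .no (.sy 29 78 4) (.de 34)) .no .no .no) .no)) .no) .no .no) .no .no .no) .no .no)) (.sw 1 3 [17]) .no) (.br .no .no (.br .no (.br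 (.de 27) .no .no .no) .no (.br (.de 27) (.br (.br (.br .no .no (.br (.sw 1 3 [17,22,23]) .no .no (.sw 0 1 [23])) .no) (.br (.br .no .no .no (.br (.br .no .no (.br .no .no .no (.de 34)) .no) (.br (.br .no .no (.br .no .no .no (.br .no .no (.br .no (.br (.br .no .no (.br .no (.br (.de 41) .no .no .no) .no (.br (.de 41) (.br (.br .no .no .no (.de 48)) .no .no .no) .no .no)) (.br .no (.de 45) .no .no)) .no (.br .no .no .no (.de 44)) .no) .no .no) (.br .no (.de 42) (.br (.br .no .no (.br .no (.br (.de 46) .no .no .no) .no (.br (.sy 36 141 4) (.br (.de 48) .no (.sw 0 1 [23,28,29]) .no) .no .no)) (.br .no (.de 45) .no .no)) .no .no .no) .no))) (.de 34)) .no (.br .no .no .no (.de 34)) .no) .no .no)) .no (.br (.br .no (.br (.br .no .no (.br .no .no .no (.br (.br .no (.br .no .no (.br .no .no .no (.de 44)) (.br .no .no (.de 44) .no)) .no (.br .no .no (.de 43) .no)) .no .no (.br .no (.de 42) .no .no))) (.de 34)) .no (.br .no .no .no (.de 34)) .no) .no .no) .no .no (.sw 0 1 [23])) .no) .no .no)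 .no .no .no) .no .no)) .no) .no .no)) (.br .no (.br (.br .no (.br .no .no .no (.br (.sy 22 177 4) (.sy 22 177 4) .no .no)) (.sw 1 3 [17]) .no) .no .no .no) .no .no))) .no) (.br (.br .no .no .no (.br .no .no c7_5_0 (.br .no (.br (.br .no .no (.br .no .no .no (.br .no (.br (.br (.br .no .no (.br .no (.br (.br .no .no (.br .no .no .no (.br .no (.sw 2 3 [21]) (.sy 32 78 4) .no)) .no) .no .no .no) .no (.br (.br .no .no (.br .no .no .no (.br .no (.sw 2 3 [21]) (.sy 32 78 4) .no)) .no) (.br (.br .no .no (.br .no (.sw 2 3 [21]) .no .no) (.br .no (.sw 2 3 [21]) (.br .no (.br (.br .no .no (.br .no .no .no (.de 44)) .no) .no .no .no) .no (.br (.br .no .no (.br .no .no .no (.de 44)) .no) (.de 42) .no .no)) .no)) .no (.br .no .no .no (.br .no (.sw 2 3 [21]) (.sy 32 78 4) .no)) .no) .no .no)) (.br .no (.br (.br .no .no (.br .no .no .no (.br .no (.sw 2 3 [21]) (.sy 32 78 4) .no)) .no) .no .no .no) .no .no)) .no (.br .no .no .no (.br .no (.br (.br .no .no (.br .no .no .no (.br .no (.br (.br .no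 .no (.br .no .no .no (.de 43)) .no) (.br (.br .no .no (.br .no (.br (.br .no .no (.br (.de 47) .no .no (.sw 0 2 [28])) .no) .no .no .no) .no (.de 44)) (.br .no (.br (.br .no .no (.br (.de 47) .no .no (.sw 0 2 [28])) .no) .no .no .no) .no .no)) .no (.br .no .no .no (.de 43)) .no) .no .no) .no .no)) .no) .no .no .no) .no .no)) .no) .no (.br (.br .no .no (.br .no (.br (.br .no .no (.br (.br .no (.sy 31 216 4) .no .no) .no .no (.br .no (.sw 0 2 [27]) .no .no)) .no) .no .no .no) .no (.br (.br .no .no (.br (.br .no (.sy 31 216 4) .no .no) .no .no (.br .no (.sw 0 2 [27]) .no .no)) .no) (.br (.br .no .no .no (.br .no (.sw 0 2 [27]) .no .no)) .no (.sw 0 3 [12,19,20,25]) .no) .no .no)) (.br .no (.br (.br .no .no (.br (.br .no (.sy 31 216 4) .no .no) .no .no (.br .no (.sw 0 2 [27]) .no .no)) .no) .no .no .no) .no .no)) .no (.br .no .no .no (.br .no (.br (.br .no .no (.br (.br .no (.sy 31 216 4) .no .no) .no .no (.br (.br (.br .no .no (.br .no .no .no (.de 43)) .no) (.br (.br .no .no (.br .no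 (.sw 0 3 [12,19,20,25,31]) .no (.de 44)) (.br .no (.br (.br .no (.de 46) (.br .no .no .no (.br .no .no .no (.br .no .no (.de 44) .no))) .no) .no .no .no) .no .no)) .no (.br .no .no .no (.de 43)) .no) .no .no) (.sw 0 2 [27]) .no .no)) .no) .no .no .no) .no .no)) .no) .no) (.br (.sy 24 78 4) .no .no .no) .no)) .no) .no .no .no) .no .no))) .no (.sw 0 3 [12]) .no) .no .no))

def c7_5_2 : Cert := (.br (.br .no .no (.br .no .no .no (.br .no (.br (.br .no .no (.br .no .no .no (.br .no (.br (.br .no .no (.br .no .no .no (.br .no (.br (.br .no .no (.br .no .no (.br .no (.br (.br .no .no (.br .no .no .no (.br .no (.br (.br (.br .no .no (.br .no (.sw 0 3 [12,18,24,30]) .no (.de 43)) (.br .no (.br (.br .no .no (.br .no .no .no (.br .no (.br .no (.br .no .no (.br .no .no .no (.br .no (.sw 2 3 [36,43,44]) .no .no)) .no) .no .no) .no .no)) .no) .no .no .no) .no .no)) .no .no (.br .no .no (.br .no (.sw 0 3 [12,18,24,30]) .no (.de 43)) .no)) .no .no (.sy 32 39 4)) .no .no)) .no) .no .no .no) .no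 (.br (.br .no .no (.br .no .no .no (.br .no (.br (.br (.br .no (.br .no .no .no (.br (.br .no .no (.br .no .no .no (.br .no (.sy 41 177 4) .no .no)) .no) (.br (.br .no .no (.br .no (.sy 41 177 4) .no (.de 48)) (.sy 36 114 4)) .no (.br .no .no .no (.sy 36 99 4)) .no) .no .no)) (.sw 1 3 [29]) .no) (.br .no .no (.br .no (.br (.br .no .no (.sy 35 210 4) .no) .no .no .no) .no (.de 43)) .no) .no .no) .no .no (.sy 32 39 4)) .no .no)) .no) (.br (.br .no .no (.br .no (.br (.br (.br .no .no (.br .no .no .no (.de 43)) .no) (.br (.br .no .no (.br .no (.sw 0 3 [12,18,24,31]) .no (.de 44)) (.br .no (.br (.br .no .no (.br .no .no .no (.br .no .no .no (.br .no .no (.de 44) .no))) (.de 41)) .no .no (.de 45)) .no .no)) .no (.br .no .no .no (.de 43)) .no) .no .no) .no .no (.br (.br .no .no (.br .no .no .no (.de 43)) .no) (.br (.br .no .no (.br .no (.sw 0 3 [12,18,24,31]) .no (.de 44)) (.br .no (.br (.br .no .no (.br (.de 47) .no .no .no) .no) .no .no (.de 45)) .no .no)) .no (.br .no .no .no (.de 43))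 .no) .no .no)) .no (.br (.br (.br .no .no (.br .no .no .no (.de 43)) .no) (.br (.br .no .no (.br .no (.sw 0 3 [12,18,24,31]) .no (.de 44)) (.br .no (.br (.br .no (.de 46) (.sw 1 3 [33]) .no) .no .no .no) .no .no)) .no (.br .no .no .no (.de 43)) .no) .no .no) .no .no .no)) (.br .no (.br (.br (.br .no .no (.br .no .no .no (.de 43)) .no) (.br (.br .no .no (.br .no (.br (.sw 2 3 [32]) .no (.br .no .no .no (.de 41)) .no) .no .no) (.br .no (.br (.sw 2 3 [32]) .no (.br .no .no .no (.de 41)) .no) (.de 44) .no)) .no (.br .no .no .no (.de 43)) .no) .no .no) .no .no (.sy 32 39 4)) .no .no)) .no (.sw 0 3 [12,18,24]) .no) .no .no)) (.br .no (.br (.br .no .no (.br .no .no .no (.br .no (.br (.br (.br .no .no (.br .no (.sw 0 3 [12,18,24,30]) .no (.de 43)) (.br .no (.br (.br .no .no (.br .no .no .no (.br .no (.sw 2 3 [28]) (.sy 39 78 4) .no)) .no) .no .no .no) .no .no)) .no (.br .no .no .no (.br .no (.br (.br .no .no (.br .no .no .no (.br .no (.br .no (.br .no .no (.sw 0 3 [12,18,24,30,36]) .no)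 .no .no) .no .no)) .no) .no .no .no) .no .no)) .no) .no .no .no) .no .no)) .no) .no .no .no) .no .no)) .no) .no .no .no) .no .no)) .no) .no .no .no) .no (.br (.br .no .no (.br .no .no .no (.br .no (.br (.br .no (.sy 25 177 4) (.br .no (.br .no .no .no (.br (.br .no .no (.br .no .no .no (.br .no (.br (.sy 33 177 4) .no .no .no) .no .no)) .no) (.br (.br .no .no (.br .no (.sy 28 114 5) .no (.br (.sw 1 2 [27]) .no .no .no)) (.sy 28 114 4)) .no (.sw 0 3 [12,18,24]) .no) .no .no)) (.br .no (.br (.br .no .no (.br .no .no .no (.br .no (.br (.sw 1 3 [21]) .no .no .no) .no .no)) .no) .no .no .no) .no (.br (.br .no .no (.br .no .no .no (.br .no (.br (.sw 1 3 [21]) .no .no .no) .no .no)) .no) (.br (.br .no .no (.br .no (.br (.sw 1 3 [21]) .no .no .no) .no (.br (.sw 1 2 [27]) (.br (.br .no .no (.br .no .no .no (.de 43)) .no) (.br (.br .no .no (.br .no (.sw 0 3 [12,18,24,31]) .no (.de 44)) (.br .no (.br (.br .no .no (.br (.de 47) .no .no (.sw 0 1 [34])) .no) .no .no .no) .no .no)) .no (.br .no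 .no .no (.de 43)) .no) .no .no) .no .no)) (.br .no (.br (.sw 1 3 [21]) .no .no .no) .no .no)) .no (.sw 0 3 [12,18,24]) .no) .no .no)) .no) .no) .no .no .no) .no .no)) .no) (.br (.br .no .no (.br .no (.sw 0 3 [12,18]) .no (.br (.br .no (.br (.br .no .no (.br .no (.br (.br .no (.br .no .no (.de 34) (.br .no .no (.sy 34 201 4) .no)) (.sw 1 3 [25]) .no) .no .no .no) .no (.br (.br .no (.br .no .no (.de 34) (.br .no .no (.sy 34 141 4) .no)) (.sw 1 3 [25]) .no) (.br .no .no (.br .no .no .no (.br .no .no (.sy 32 78 4) .no)) .no) .no .no)) (.br .no (.br (.br .no (.br .no .no (.de 34) (.br .no .no (.br .no (.br (.sw 2 3 [29]) .no (.br .no .no .no (.de 43)) .no) (.br (.br .no .no (.br .no .no .no (.de 44)) (.br .no .no (.de 44) .no)) .no .no .no) .no) .no)) (.sw 1 3 [25]) .no) .no .no .no) .no .no)) .no (.br .no .no .no (.br .no (.br (.br .no (.br .no .no (.br (.sy 30 225 4) .no .no .no) (.br (.sy 30 177 4) .no .no .no)) (.sw 1 3 [25]) .no) .no .no .no) .no .no)) .no) (.br (.br .no .no (.br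 .no (.br (.br .no (.br .no .no .no (.br .no (.sy 30 177 4) .no .no)) (.sw 1 3 [25]) .no) .no .no .no) .no (.br (.br .no (.br .no .no .no (.br .no (.br .no (.br (.br .no (.br .no .no (.br (.sy 35 225 4) .no .no .no) (.br (.sy 35 177 4) .no (.br (.br .no .no (.de 47) (.sw 1 2 [27,34])) .no .no .no) .no)) (.sw 1 3 [30]) .no) .no .no .no) .no (.br (.br .no (.br .no .no (.br (.br .no .no (.de 41) .no) .no .no .no) (.br (.br .no .no (.de 41) .no) .no (.br (.br .no .no (.de 47) .no) .no .no .no) .no)) (.sw 1 3 [30]) .no) (.de 42) .no .no)) .no .no)) (.sw 1 3 [25]) .no) (.br .no .no (.br .no (.de 34) .no (.br .no (.br .no (.br (.br .no .no (.br (.sw 1 3 [25,30,31]) .no .no (.de 44)) .no) .no .no .no) .no (.br (.br .no .no (.br (.sw 1 3 [25,30,31]) .no .no (.de 44)) .no) (.de 42) .no .no)) .no .no)) .no) .no .no)) (.br .no (.br (.br .no (.br .no .no .no (.br .no (.sy 30 177 4) .no .no)) (.sw 1 3 [25]) .no) .no .no .no) .no .no)) .no (.br .no .no .no (.br .no (.br (.br .no (.br .no .no .no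 (.br (.sw 1 2 [27]) (.sy 30 177 4) .no .no)) (.sw 1 3 [25]) .no) .no .no .no) .no .no)) .no) .no) (.br .no .no (.br (.br .no .no (.br .no (.br (.br .no .no (.br (.br .no (.sy 31 216 4) .no .no) .no .no (.sw 0 1 [26])) .no) .no .no .no) .no (.br (.br .no .no (.br (.br .no (.sy 31 216 4) .no .no) .no .no (.sw 0 1 [26])) .no) (.br (.br .no .no .no (.br .no (.br .no (.br (.br .no .no (.br .no .no .no (.de 44)) .no) .no .no .no) .no (.br (.br .no .no (.br .no .no .no (.de 44)) .no) (.de 42) .no .no)) .no .no)) .no (.sw 0 3 [12,18,25]) .no) .no .no)) (.br .no (.br (.br .no .no (.br (.br .no (.sy 31 216 4) .no .no) .no .no (.sw 0 1 [26])) .no) .no .no .no) .no .no)) .no (.br .no .no .no (.br .no (.br (.br .no .no (.br (.br .no (.sy 31 216 4) .no .no) .no .no (.sw 0 1 [26])) .no) .no .no .no) .no .no)) .no) .no) .no .no)) (.br .no (.br (.br .no (.sy 25 177 4) (.br (.br .no .no (.br .no (.br (.sw 2 3 [24]) .no (.br .no .no .no (.br .no (.de 34) .no .no)) .no) .no .no) (.br .no (.br (.sw 2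 3 [24]) .no (.br .no .no .no (.br .no (.de 34) .no .no)) .no) (.br (.br .no .no (.br .no (.de 34) .no (.br .no (.br .no (.br (.br .no (.sw 2 3 [24,29,30]) .no (.sw 1 2 [30])) .no .no .no) (.br (.br .no (.br .no .no .no (.br (.br .no .no (.br .no .no .no (.br .no (.br .no .no (.de 44) (.br .no .no (.br .no (.de 46) .no .no) .no)) .no (.br .no .no (.de 44) .no))) .no) (.de 45) .no .no)) .no (.sw 1 2 [30])) (.br .no .no .no (.br .no (.br (.br .no .no (.br .no .no .no (.sy 40 75 4)) .no) .no .no .no) .no .no)) .no .no) .no) .no .no)) (.br .no (.de 34) .no .no)) .no .no .no) .no)) .no (.br .no .no .no (.br .no (.br (.sw 2 3 [24]) .no (.br .no .no .no (.br .no (.br (.br (.br .no .no (.br (.br .no (.br (.sw 2 3 [24,31,32]) .no (.sy 35 216 4) .no) .no .no) .no .no (.de 43)) .no) (.br (.br .no .no .no (.br (.br .no .no (.br .no .no .no (.de 41)) .no) (.sw 0 2 [31]) .no .no)) .no (.br (.br .no (.br (.sw 2 3 [24,31,32]) .no (.br .no .no .no (.de 41)) .no) .no .no) .no .no (.de 43)) .no) .no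 .no) .no .no .no) .no .no)) .no) (.br (.br .no .no (.sy 28 78 4) (.sy 28 78 4)) .no .no .no) .no)) .no) .no) .no .no .no) .no .no)) .no (.br .no .no .no (.br .no (.br (.br .no (.sy 25 177 4) (.br (.br .no .no .no (.br (.br .no .no (.br .no .no .no (.sy 28 108 4)) .no) (.sw 0 2 [23]) .no .no)) .no (.br (.br .no (.br (.br .no .no (.br .no (.sy 29 228 4) .no (.br (.sw 1 2 [27]) (.br .no (.br .no .no (.br .no .no .no (.de 43)) (.de 42)) .no (.br .no .no (.br .no .no .no (.de 43)) .no)) .no .no)) (.br .no (.sy 29 180 4) .no .no)) .no (.sw 0 3 [12,18,24]) .no) .no .no) .no .no (.sw 0 1 [22])) .no) .no) .no .no .no) .no .no)) .no) .no .no))) .no) .no .no .no) .no .no)) .no) (.br (.br .no .no c7_5_1 (.br .no (.br (.br .no .no (.br (.sy 18 216 4) .no .no (.br .no .no (.br .no (.br (.sw 2 3 [16]) .no (.br .no .no .no (.br .no (.sy 21 135 4) .no .no)) .no) .no .no) (.br .no (.br (.sw 2 3 [16]) .no (.br .no .no .no (.br .no (.br (.br .no .no (.br (.br .no .no .no (.br (.br .no .no (.br .no .no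 .no (.sy 28 108 4)) .no) (.sw 0 2 [23]) .no .no)) .no (.br (.br .no (.br (.sw 2 3 [16,23,24]) .no (.sw 0 3 [12,18,24]) .no) .no .no) .no .no (.br (.br .no .no (.br .no .no .no (.br .no (.br (.br (.br .no (.br .no .no .no (.br (.br .no .no (.br .no .no .no (.br .no (.sy 41 177 4) .no .no)) .no) (.sw 0 2 [23,30,31]) .no .no)) (.br .no (.br (.br .no .no (.br .no .no .no (.br .no (.br .no (.br .no .no .no (.br .no .no (.br .no (.sw 0 3 [20,26,32,38]) .no (.br (.sw 1 3 [45]) (.br (.br .no .no .no (.sy 48 39 4)) .no (.sw 0 1 [46]) .no) .no .no)) .no)) .no (.de 43)) .no .no)) .no) .no .no .no) .no (.de 43)) .no) (.br .no .no (.br .no (.sw 0 3 [12,18,24,29,30]) .no (.de 43)) .no) .no .no) .no .no .no) .no .no)) .no) (.sw 0 2 [23]) .no .no)) .no) .no) .no .no .no) .no .no)) .no) (.br (.br .no .no (.br .no (.sw 0 3 [12,18]) .no (.br (.sy 22 141 4) (.br (.br (.br .no (.br .no .no .no (.br (.br .no .no (.br .no .no .no (.br .no (.sw 2 3 [16,21,22]) (.br .no .no (.br (.br .no (.br .no .no .no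 (.br (.br .no (.de 46) .no .no) (.de 45) .no .no)) (.br .no (.br (.sy 35 201 4) .no .no .no) .no (.de 44)) .no) .no .no .no) (.br (.sw 1 2 [22,29]) .no (.br .no (.br .no .no .no (.br (.br .no (.de 41) .no .no) (.de 45) .no .no)) .no .no) .no)) .no)) .no) (.br (.br .no .no (.br .no (.sw 2 3 [16,21,22]) .no .no) (.sy 29 114 4)) .no (.sw 0 3 [12,18,25]) .no) .no .no)) .no (.sw 1 2 [22])) (.br .no .no .no (.br .no (.br (.br .no .no (.br .no .no .no (.br .no .no (.sy 32 75 4) .no)) .no) .no .no .no) .no .no)) .no .no) .no (.sw 0 3 [20]) .no) .no .no)) (.br .no (.br (.br .no .no (.sy 27 78 4) .no) .no .no .no) .no .no)) .no .no .no) .no))) .no) .no .no .no) .no .no)) .no (.br .no .no .no (.br .no (.br (.br .no .no (.br (.sy 18 216 4) .no .no (.br (.br .no (.br (.br .no .no (.br .no (.sw 0 3 [12,18]) .no (.br (.sy 21 228 5) (.br .no .no (.sw 0 3 [20]) .no) .no .no)) (.br .no (.sy 21 180 4) .no .no)) .no (.br .no .no .no (.br .no (.br (.br .no .no (.sy 26 216 4) .no) .no .no .no) .no .no))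 .no) .no .no) .no .no (.br (.br .no .no (.br .no .no .no (.br .no (.br (.br .no .no (.sw 0 1 [14]) .no) .no .no .no) .no .no)) .no) (.sw 0 2 [15]) .no .no))) .no) .no .no .no) .no .no)) .no) .no .no)

theorem P7_5 : R.S 5 900 :=
  R.piece L hL (.br (.br .no (.sy 5 228 3) (.sy 5 216 4) (.sy 4 57 3)) (.br .no .no (.br .no .no (.br .no .no .no (.br .no (.br (.br .no .no (.br (.br .no (.sy 10 216 4) .no (.sy 10 156 4)) .no .no (.br .no c7_5_2 .no .no)) .no) .no .no .no) .no .no)) (.br .no .no (.br .no (.br (.br .no .no (.br (.br .no (.br (.br .no .no .no (.br .no .no (.br .no (.sy 10 216 7) .no (.br .no (.br .no .no (.de 20) (.sy 15 27 4)) .no .no)) .no)) (.br (.br .no .no (.br .no (.sy 10 216 7) .no (.br .no (.br .no .no (.br (.sw 2 3 [7,8]) .no .no .no) (.br (.sw 2 3 [7,8]) .no (.sy 17 39 4) .no)) .no .no)) (.br .no (.sy 10 216 7) .no .no)) .no .no (.br .no .no (.br .no (.sy 10 216 7) .no (.br .no (.br .no .no (.sy 15 27 4) (.sy 15 27 4)) .no .no)) .no)) .no .no) .no .no) .no .no (.br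 .no (.sy 12 39 4) .no .no)) .no) .no .no .no) .no (.br (.br .no .no (.sy 7 30 4) .no) (.br (.br .no .no .no (.sy 7 27 5)) .no (.sy 7 27 4) .no) .no .no)) .no)) (.sy 4 54 4)) (.br .no (.sy 6 225 3) .no (.sy 3 78 3)) .no) 5 900 1024 (by norm_num) (by norm_num) (by norm_num) (by decide +kernel)

end T7
end Pool.Agent.H411R2.WSK
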