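import Pool.Agent.H411R2.WSK.T7

set_option maxRecDepth 100000
set_option linter.all false

namespace Pool.Agent.H411R2.WSK

namespace T7

def c8_0_0 : Cert := (.br (.br .no (.br .no .no (.br (.br .no (.br .no .no (.br .no .no .no (.br .no .no (.br (.br .no (.br .no .no (.br (.sy 21 228 11) .no .no (.br (.br .no (.br .no (.br .no .no (.de 42) (.br (.br .no (.br .no .no (.br .no .no .no (.de 46)) .no) .no .no) .no .no .no)) .no (.br .no .no (.br (.br .no (.br .no .no (.br .no .no .no (.de 46)) .no) .no .no) .no .no (.de 43)) .no)) .no .no) (.de 34) .no .no)) (.br (.br .no (.de 34) .no .no) .no .no .no)) .no (.br .no .no (.br (.br .no (.de 34) .no .no) .no .no (.sy 30 30 2)) .no)) .no .no (.br .no (.br .no .no (.br (.br .no (.de 34) .no .no) .no .no (.br (.br .no (.br (.br .no .no (.br (.sy 35 216 2) .no .no (.de 43)) .no) (.br (.br .no .no .no (.br (.de 44) (.br .no .no (.br .no .no .no (.de 46)) .no) .no .no)) .no (.de 42) .no) .no .no) .no .no) (.de 34) .no .no))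 (.sy 29 54 2)) .no .no)) (.br (.br .no (.br .no .no (.br (.br .no (.br .no .no (.br .no (.br .no .no (.de 42) (.br (.br .no (.br .no .no (.br (.de 41) .no .no (.de 46)) (.de 45)) .no (.de 44)) .no .no .no)) (.br .no .no .no (.br (.br .no (.br .no .no (.br (.br .no (.br .no (.br .no .no (.br .no .no .no (.de 45)) .no) .no .no) .no .no) .no .no (.de 46)) (.de 45)) .no (.de 44)) .no .no .no)) .no) .no) .no .no) .no .no (.br (.br .no (.br .no (.br .no .no (.de 42) (.br (.br .no (.br .no .no (.br .no .no .no (.de 46)) .no) .no .no) .no .no .no)) (.br .no .no .no (.br (.br .no (.br .no .no (.br .no .no .no (.de 46)) .no) .no .no) .no .no .no)) .no) (.br .no (.br .no .no (.de 42) (.br (.br .no (.br .no .no (.br .no (.sy 38 210 2) .no (.de 46)) .no) .no .no) .no .no .no)) (.br .no .no .no (.br (.br .no (.br .no .no (.br .no (.sy 38 210 2) .no (.de 46)) .no) .no .no) .no .no .no)) .no) .no) (.br .no .no (.br .no (.br .no .no (.de 42) (.br (.br .no (.br (.sy 37 228 2) .no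 (.sw 0 3 [32]) .no) .no .no) .no .no .no)) (.br .no .no .no (.br (.br .no (.br (.sy 37 228 2) .no (.sw 0 3 [32]) .no) .no .no) .no .no .no)) .no) .no) .no .no)) (.br (.br .no (.br .no .no (.br .no (.br .no .no (.de 42) (.br (.br .no (.sw 2 3 [31]) (.br .no .no .no (.br (.de 41) .no .no .no)) .no) .no (.de 43) .no)) (.br .no .no .no (.br (.br .no (.sw 2 3 [31]) (.br .no .no .no (.br (.br .no (.br .no (.br .no .no (.br .no .no .no (.br .no (.br .no .no (.br .no .no .no (.br (.sw 1 3 [6,13,19,25,30,31,36,42]) .no .no .no)) .no) .no .no)) .no) .no .no) .no .no) .no .no .no)) .no) .no (.de 43) .no)) .no) .no) .no .no) .no .no .no)) .no (.sy 28 57 2)) .no .no .no))) .no) .no .no) .no .no (.br (.br .no (.br .no .no (.br .no .no (.br (.br .no (.br .no .no (.br .no .no .no (.br (.br .no (.br .no (.br .no .no (.de 42) (.br (.br .no (.br .no .no (.br .no .no .no (.de 46)) .no) .no .no) .no .no .no)) .no (.br .no .no (.br (.br .no (.br .no .no (.br .no .no .no (.de 46)) .no)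 .no .no) .no .no (.de 43)) .no)) .no (.sy 32 57 2)) .no .no .no)) .no) .no .no) .no .no (.br (.br .no (.br .no .no (.br (.br .no (.br (.br .no (.br .no .no (.br (.br .no (.br .no .no (.br .no .no .no (.br .no .no (.br .no .no .no (.de 44)) .no)) (.de 41)) .no (.br .no .no (.de 46) .no)) .no .no (.br .no (.de 45) .no .no)) (.br (.de 44) .no .no .no)) (.br .no .no .no (.de 43)) .no) (.br .no .no (.de 42) .no) .no .no) .no (.sy 34 30 2)) .no .no (.br .no (.br (.br .no (.br .no .no (.br (.br .no (.br (.sy 38 228 2) .no (.sw 0 3 [33]) .no) .no .no) .no .no (.br (.br .no .no (.br .no .no .no (.br .no .no (.br .no .no .no (.br (.br .no (.br .no .no .no (.br (.br .no (.sw 0 2 [5,12,18,25,32,39,40,47]) .no .no) .no .no .no)) .no .no) .no .no .no)) .no)) .no) (.de 45) .no .no)) (.br (.de 44) .no .no .no)) (.br .no .no .no (.de 43)) .no) (.br .no .no (.de 42) .no) .no .no) .no .no)) (.br (.br .no (.br (.br .no (.br .no .no (.br (.br .no (.sw 2 3 [32]) (.sy 37 201 2) .no) .no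 .no .no) (.br (.de 44) .no (.br .no (.br .no .no (.sy 38 198 2) (.de 41)) .no .no) .no)) (.br .no .no .no (.de 43)) .no) (.br .no .no (.de 42) .no) .no .no) .no (.sy 32 57 2)) .no .no .no)) (.br .no .no .no (.br (.br .no (.br (.br .no (.br .no .no .no (.br (.de 44) (.sy 36 114 2) .no .no)) (.br .no (.br (.br .no (.sy 37 225 2) (.br .no .no .no (.de 41)) .no) .no .no .no) .no (.de 43)) .no) (.br .no .no (.de 42) .no) .no .no) .no (.sy 32 57 2)) .no .no .no)) .no) (.br .no .no (.br .no .no .no (.br (.br .no (.br (.br .no .no (.br (.sy 35 216 2) .no .no (.de 43)) .no) (.br (.br .no .no .no (.br (.de 44) (.br .no .no (.br .no .no .no (.de 46)) .no) .no .no)) .no (.de 42) .no) .no .no) .no (.sy 32 57 2)) .no .no .no)) .no) .no .no)) (.br (.br .no (.br .no .no (.br .no .no .no (.br (.br .no (.br .no (.br .no .no (.de 42) (.br (.br .no (.br .no .no (.br .no .no .no (.de 46)) .no) .no .no) .no .no .no)) (.br .no .no .no (.br (.br .no (.br .no .no (.br .no .no .no (.de 46))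 .no) .no .no) .no .no .no)) .no) .no .no) .no .no .no)) .no) .no .no) .no .no .no)) (.br .no .no (.br (.br .no (.br .no .no (.br .no .no .no (.br (.br .no (.sw 2 3 [27]) .no .no) .no (.sy 31 78 2) .no)) .no) .no .no) .no .no (.br (.br .no (.br .no .no (.br (.br .no (.sw 2 3 [27]) .no .no) .no .no .no) (.br (.br .no (.sw 2 3 [27]) .no .no) .no (.br .no (.sy 33 198 2) .no .no) .no)) (.br .no .no .no (.br (.br .no (.sw 2 3 [27]) .no .no) .no (.sy 31 78 2) .no)) .no) (.br .no .no (.br .no .no .no (.br (.br .no (.sw 2 3 [27]) .no .no) .no (.sy 31 78 2) .no)) .no) .no .no)) (.br (.br .no (.br .no .no (.br .no .no .no (.br (.br .no (.sw 2 3 [27]) (.br .no (.br .no .no (.de 42) (.br (.br .no (.br .no .no (.br .no (.sy 38 210 2) .no (.de 46)) .no) .no .no) .no .no .no)) (.br .no .no .no (.br (.br .no (.br .no .no (.br .no (.sy 38 210 2) .no (.de 46)) .no) .no .no) .no .no .no)) .no) .no) .no (.sy 31 78 2) .no)) .no) .no .no) .no .no .no))) (.br .no .no .no (.br .no .no (.br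 (.br .no (.br .no .no (.br .no (.sy 30 210 2) .no (.br (.sw 1 2 [26]) (.de 34) .no .no)) .no) .no .no) .no .no (.br (.br .no (.br .no .no .no (.br (.sw 1 2 [26]) (.de 34) .no .no)) (.br .no (.br (.br .no (.sy 32 225 2) .no .no) .no .no .no) .no (.br (.sw 1 2 [26]) (.de 34) .no .no)) .no) (.br .no .no (.br .no (.sy 30 210 2) .no (.br (.sw 1 2 [26]) (.de 34) .no .no)) .no) .no .no)) (.br (.br .no (.br .no .no (.br .no (.sy 30 210 2) .no (.br (.sw 1 2 [26]) (.br .no .no (.br .no (.br .no .no (.de 42) (.br (.br .no (.br (.sy 37 228 2) .no (.br (.de 41) .no .no (.de 46)) .no) .no .no) .no .no .no)) (.br .no .no .no (.br (.br .no (.br (.sy 37 228 2) .no (.br (.br .no (.br .no (.br .no .no (.br .no .no .no (.de 45)) .no) .no .no) .no .no) .no .no (.de 46)) .no) .no .no) .no .no .no)) .no) .no) .no .no)) .no) .no .no) .no .no .no))) .no) (.br .no .no (.br .no .no .no (.br .no .no (.br (.br .no (.br (.sy 29 228 2) .no (.sw 0 3 [24]) .no) .no .no) .no .no (.br (.br .no .no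 (.br (.sy 30 216 2) .no .no (.sw 0 1 [25])) .no) (.br (.br .no .no .no (.br (.sy 31 120 2) (.de 34) .no .no)) .no (.sw 0 3 [24]) .no) .no .no)) (.br (.br .no (.br (.sy 29 228 2) .no (.sw 0 3 [24]) .no) .no .no) .no .no .no))) .no) .no .no)) (.br (.br .no (.br .no .no (.br .no .no .no (.br .no .no (.br (.br .no (.sw 2 3 [23]) (.sy 28 201 2) .no) .no .no .no) (.br (.br .no (.sw 2 3 [23]) (.br .no .no .no (.br (.br .no (.br .no .no (.br .no (.br .no .no .no (.br (.sw 1 2 [30]) (.sy 35 114 2) .no .no)) (.br .no (.de 42) .no (.br (.sw 1 2 [30]) (.br .no .no (.br .no .no .no (.br (.br .no (.br .no (.br .no .no (.br (.br .no (.br .no .no (.br .no .no .no (.br (.sw 0 2 [5,12,18,24,29,30,35,48]) .no .no .no)) .no) .no .no) .no .no (.sw 0 1 [37])) .no) .no .no) .no .no) .no .no .no)) .no) .no .no)) .no) .no) .no .no) .no .no .no)) .no) .no (.br .no (.br .no .no (.sy 29 198 2) (.br (.br .no (.br .no .no (.sy 34 78 2) .no) .no .no) .no .no .no)) .no .no) .no))) .no) .no .no)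 .no .no .no)) .no (.br .no .no (.br (.br .no (.br .no .no (.br .no .no .no (.sy 27 57 2)) .no) .no .no) .no .no (.sy 22 30 2)) .no)) .no .no (.br .no (.br .no .no (.br (.br .no (.br .no .no (.de 27) .no) .no .no) .no .no (.br (.br .no (.br .no .no (.br (.br .no .no .no (.br (.sy 28 120 2) (.br .no .no (.br .no .no .no (.br (.br .no (.sy 33 228 2) .no .no) .no .no .no)) .no) .no .no)) .no (.br (.br .no (.br .no .no (.br .no .no .no (.br (.br .no (.sw 0 3 [21]) .no .no) .no .no .no)) .no) .no .no) .no .no (.br (.br .no (.br .no .no (.br (.br .no (.sw 0 3 [21]) .no .no) .no .no (.br (.br (.br .no (.br .no .no (.br (.br .no (.br .no .no (.br .no (.de 48) .no (.br .no .no (.br .no .no .no (.de 44)) .no)) .no) .no .no) .no .no (.br (.br .no (.br .no .no .no (.br .no .no (.br .no .no .no (.br (.br .no (.br .no .no (.br (.br .no (.sw 1 3 [6,13,19,26,33,40,41,48]) .no .no) .no .no .no) (.br (.sw 2 3 [46]) .no .no .no)) .no .no) .no .no .no)) .no)) (.br .no (.de 48) .no (.br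 .no .no (.br .no .no .no (.br (.br .no (.br .no .no .no (.br (.sw 1 2 [40]) .no .no .no)) .no .no) .no .no .no)) .no)) .no) (.de 45) .no .no)) (.br (.de 44) .no .no .no)) (.br .no .no .no (.de 43)) .no) (.br .no .no (.de 42) .no) .no .no) (.sw 0 3 [21]) .no .no)) (.br (.br .no (.sw 0 3 [21]) .no .no) .no .no .no)) (.br .no .no .no (.br (.br .no (.sw 0 3 [21]) .no .no) .no .no .no)) .no) (.br .no .no (.br .no .no .no (.br (.br .no (.sw 0 3 [21]) .no .no) .no .no .no)) .no) .no .no)) .no) .no) (.de 27) .no) (.br .no .no (.de 27) .no) .no .no)) (.sy 21 54 2)) .no .no))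

def c8_0_1 : Cert := (.br (.br (.br .no (.br .no .no (.br .no .no .no (.br (.br .no (.br .no .no (.sy 12 228 16) (.br .no .no (.br (.br .no (.br .no .no (.br .no .no .no (.br (.br .no (.sw 2 3 [27]) .no .no) .no (.sy 31 78 2) .no)) .no) .no .no) .no .no (.br (.br .no (.br .no .no (.br (.br .no (.sw 2 3 [27]) .no .no) .no .no .no) (.br (.br .no (.sw 2 3 [27]) .no .no) .no (.br .no (.sy 33 198 2) .no .no) .no)) (.br .no .no .no (.br (.br .no (.sw 2 3 [27]) .no .no) .no (.sy 31 78 2) .no)) .no) (.br .no .no (.br .no .no .no (.br (.br .no (.sw 2 3 [27]) .no .no) .no (.sy 31 78 2) .no)) .no) .no .no)) (.br (.br .no (.br .no .no (.br .no .no .no (.br (.br .no (.sw 2 3 [27]) (.br .no (.br .no .no (.de 42) (.br (.br .no (.br .no .no (.br .no (.sy 38 210 2) .no (.de 46)) .no) .no .no) .no .no .no)) (.br .no .no .no (.br (.br .no (.br .no .no (.br .no (.sy 38 210 2) .no (.de 46)) .no) .no .no) .no .no .no)) .no) .no) .no (.sy 31 78 2) .no)) .no) .no .no) .no .no .no))) .no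 (.sy 24 57 2)) .no .no .no)) .no) .no .no) .no .no (.br (.br .no (.br .no .no (.br (.br .no (.br .no .no (.br .no (.br .no .no (.br (.br .no (.br .no .no (.br (.de 34) .no .no (.br (.br (.br .no (.br .no .no (.br (.sy 22 228 16) .no .no (.br (.br .no (.br .no .no (.br .no .no (.br .no .no .no (.br (.br .no (.br .no .no (.br (.br .no (.sw 1 3 [6,13,48]) .no .no) .no .no (.br .no (.sw 0 3 [47]) .no .no)) (.br (.sw 2 3 [46]) .no .no .no)) .no .no) .no .no .no)) .no) (.br .no .no (.br .no .no .no (.br (.br .no (.br .no .no (.br (.br .no (.sw 2 3 [41]) .no .no) .no .no .no) (.br (.sw 2 3 [46]) .no .no .no)) .no .no) .no .no .no)) .no)) (.br .no .no .no (.br .no .no (.br .no .no .no (.br (.br .no (.br .no .no .no (.br (.sw 1 2 [40]) .no .no .no)) .no .no) .no .no .no)) .no)) .no) (.de 45) .no .no)) (.br (.de 44) .no .no .no)) .no (.br .no .no (.de 43) .no)) .no .no (.br .no (.br .no .no (.br (.sy 22 228 16) .no .no (.br (.br .no (.br .no .no (.br .no .no (.br .no .no .no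 (.br (.br .no (.br .no .no (.br (.br .no (.sw 0 3 [35]) .no .no) .no .no (.br (.sw 1 3 [6,13]) (.sw 0 1 [48]) .no .no)) (.br (.sw 2 3 [46]) .no .no .no)) .no .no) .no .no .no)) .no) .no) (.de 41) .no) (.de 45) .no .no)) (.sy 35 54 2)) .no .no)) .no .no .no)) (.br (.de 34) .no .no .no)) .no (.br .no .no (.br (.de 34) .no .no (.sy 31 30 2)) .no)) .no .no (.br .no (.br .no .no (.br (.de 34) .no .no (.br (.br (.br .no (.br (.sy 35 228 2) .no (.sw 0 3 [30]) .no) .no .no) .no .no (.br (.br .no .no (.br (.sy 36 216 2) .no .no (.br (.br .no (.br .no .no (.br .no (.br .no .no .no (.br (.br .no (.br .no .no (.br (.de 48) .no .no (.br .lf .no .no .no)) (.br (.de 48) .no .no .no)) .no .no) .no .no .no)) (.br .no .no .no (.br (.br .no (.br .no .no (.br (.br .no (.sw 1 3 [6,13,14,21,28,35,48]) .no .no) .no .no (.br (.sw 1 2 [42]) (.sw 0 1 [48]) .no .no)) (.br (.sw 2 3 [46]) .no .no .no)) .no .no) .no .no .no)) .no) .no) (.de 41) .no) (.de 45) .no .no)) .no) (.br (.br .no .no .no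 (.de 44)) .no (.sw 0 3 [30]) .no) .no .no)) .no .no .no)) (.sy 30 54 2)) .no .no)) (.br (.br .no (.br .no .no (.br (.de 34) .no .no (.br (.br (.br .no (.sw 2 3 [29]) (.br .no .no .no (.de 43)) .no) .no (.br .no (.de 42) .no .no) .no) .no .no .no)) (.br (.de 34) .no .no .no)) .no (.sy 29 57 2)) .no .no .no)) (.br .no .no .no (.br (.br .no (.br .no .no (.br (.sy 17 228 16) .no .no (.br (.br (.br .no (.br .no .no (.br (.br .no (.br .no .no (.br .no (.de 48) .no (.sw 1 2 [28])) .no) .no .no) .no .no (.br (.br .no (.br .no .no .no (.sw 1 2 [28])) (.br .no (.de 48) .no (.sw 1 2 [28])) .no) (.de 45) .no .no)) (.br (.de 44) .no .no .no)) (.br .no .no .no (.de 43)) .no) (.br .no .no (.de 42) .no) .no .no) (.br (.br .no (.br .no .no (.br (.br .no (.br (.sy 38 228 2) .no (.sw 0 3 [33]) .no) .no .no) .no .no (.br (.br .no .no (.br .no .no .no (.sw 0 1 [34])) .no) (.de 45) .no .no)) (.br (.de 44) .no .no .no)) (.br .no .no .no (.de 43)) .no) (.br .no .no (.de 42) .no) .no .no)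 .no .no)) (.br (.sy 12 228 21) .no .no .no)) .no (.sy 29 57 2)) .no .no .no)) .no) .no) .no (.br .no .no (.sy 26 30 2) .no)) .no .no (.br .no (.br .no .no (.br .no (.br .no .no (.br (.br .no (.br (.sy 30 228 2) .no (.sw 0 3 [25]) .no) .no .no) .no .no (.br (.br .no .no (.br (.de 34) .no .no (.br (.br (.br .no (.br .no .no (.br .no (.sw 0 3 [25,30,31]) .no (.br (.br .no (.br .no .no (.br .no .no (.br .no .no .no (.br (.br .no (.br .no .no (.sw 1 3 [38,45]) (.br (.sw 2 3 [46]) .no .no .no)) .no .no) .no .no .no)) .no) (.br .no .no (.br .no .no .no (.br (.br .no (.br .no .no (.sw 1 3 [38,45]) (.br (.sw 2 3 [46]) .no .no .no)) .no .no) .no .no .no)) .no)) (.br .no .no .no (.br .no .no (.br .no .no .no (.br (.br .no (.br .no .no .no (.br (.sw 1 2 [40]) .no .no .no)) .no .no) .no .no .no)) .no)) .no) (.de 45) .no .no)) .no) .no .no) .no .no (.br (.br .no (.br .no .no .no (.br (.br .no (.br .no .no (.br .no (.br .no .no (.br (.br .no (.br .no .no (.br (.de 48) .no .no (.br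 (.sw 1 3 [6,13,14,21,28,35,42]) .no .no .no)) (.br (.de 48) .no .no .no)) .no .no) .no .no .no) (.br (.sw 2 3 [43]) .no .no .no)) (.br .no .no .no (.br (.br .no (.br .no .no (.br (.br .no (.sw 1 3 [6,13,14,21,28,35,48]) .no .no) .no .no (.br (.sw 1 2 [42]) (.sw 0 1 [48]) .no .no)) (.br (.sw 2 3 [46]) .no .no .no)) .no .no) .no .no .no)) .no) .no) (.de 41) .no) (.de 45) .no .no)) (.br .no (.br (.br .no (.sy 38 225 2) (.de 41) .no) .no .no .no) .no (.br (.br .no (.br .no .no (.br .no (.br .no .no .no (.br (.sw 1 2 [37]) .no .no .no)) (.br .no .no .no (.br (.sw 1 2 [37]) .no .no .no)) .no) .no) (.de 41) .no) (.de 45) .no .no)) .no) (.br .no .no (.br .no (.sw 0 3 [25,30,31]) .no (.br (.br .no (.br .no .no (.br .no .no (.br .no .no .no (.sw 0 1 [36])) .no) .no) (.de 41) .no) (.de 45) .no .no)) .no) .no .no)) .no .no .no)) .no) (.br (.br .no .no .no (.br (.sy 32 120 2) .no .no .no)) .no (.sw 0 3 [25]) .no) .no .no)) (.br (.br .no (.br (.sy 30 228 2) .no (.sw 0 3 [25])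 .no) .no .no) .no .no .no)) (.br .no .no .no (.br (.br .no (.br (.sy 30 228 2) .no (.sw 0 3 [25]) .no) .no .no) .no .no .no)) .no) .no) .no .no)) (.br (.br .no (.br .no .no (.br .no (.br .no .no (.br (.br .no (.sw 2 3 [24]) (.sy 29 201 2) .no) .no .no .no) (.br (.br .no (.sw 2 3 [24]) (.br .no .no .no (.br (.de 34) .no .no .no)) .no) .no (.br .no (.br .no .no (.sy 30 198 2) (.br (.de 34) .no .no .no)) .no .no) .no)) (.br .no .no .no (.br (.br .no (.sw 2 3 [24]) (.br .no .no .no (.br (.br .no (.br (.br .no (.br .no .no .no (.br (.de 44) (.sy 36 114 2) .no .no)) (.br .no (.br (.br .no (.sw 2 3 [24,31,32]) (.br .no .no .no (.de 41)) .no) .no .no .no) .no (.de 43)) .no) (.br .no .no (.de 42) .no) .no .no) .no .no) .no .no .no)) .no) .no (.sy 28 78 2) .no)) .no) .no) .no (.sy 24 57 2)) .no .no .no)) (.br .no .no .no (.br (.br .no (.br .no .no (.br .no (.br .no .no .no (.br (.sw 1 2 [23]) (.sy 28 114 2) .no .no)) (.br .no (.br (.br .no (.sy 29 225 2) (.br .no .no .no (.br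 (.br .no (.sy 34 210 2) .no .no) .no .no .no)) .no) .no .no .no) .no (.br (.sw 1 2 [23]) (.br .no .no (.br .no .no .no (.br (.br .no (.br (.br .no .no (.br (.sy 35 216 2) .no .no (.de 43)) .no) (.br (.br .no .no .no (.br (.de 44) (.br .no .no (.br .no .no .no (.de 46)) .no) .no .no)) .no (.de 42) .no) .no .no) .no .no) .no .no .no)) .no) .no .no)) .no) .no) .no (.sy 24 57 2)) .no .no .no)) .no) (.br .no .no (.br .no .no .no (.br (.br .no (.br .no .no (.br (.br .no .no .no (.br (.sy 28 120 2) (.br .no .no (.br .no .no .no (.br (.br .no (.sy 33 228 2) .no .no) .no .no .no)) .no) .no .no)) .no (.br (.br .no (.br .no .no (.br .no .no .no (.br (.br .no (.sw 0 3 [21]) .no .no) .no .no .no)) .no) .no .no) .no .no (.sw 0 1 [22])) .no) .no) .no (.sy 24 57 2)) .no .no .no)) .no) .no .no)) .no .no (.br (.br .no (.br .no .no (.br .no .no .no (.br (.br .no (.br .no .no (.sw 0 3 [20]) .no) .no .no) .no .no .no)) .no) .no .no) .no .no (.br (.br .no (.br .no .no (.br (.br .no (.br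 (.sy 25 228 2) .no (.sw 0 3 [20]) .no) .no .no) .no .no (.br (.br .no .no (.br .no (.br .no .no (.br (.br .no (.br .no .no (.br .no (.sw 0 3 [20,25,26]) .no (.br (.br (.br .no (.br .no .no (.br (.br .no (.br .no .no (.br .no .no .no (.br .no .no (.br .no .no .no (.de 44)) .no)) .no) .no .no) .no .no (.br (.br .no (.br .no .no (.br .no .no (.br .no .no .no (.br (.br .no (.br .no .no (.br (.sw 1 3 [33,40]) .no .no (.br .no (.sw 0 3 [47]) .no .no)) (.br (.sw 2 3 [46]) .no .no .no)) .no .no) .no .no .no)) .no) (.br .no .no (.br .no .no .no (.br (.br .no (.br .no .no (.br (.br .no (.sw 2 3 [41]) .no .no) .no .no .no) (.br (.sw 2 3 [46]) .no .no .no)) .no .no) .no .no .no)) .no)) (.sw 1 3 [33]) .no) (.de 45) .no .no)) (.br (.de 44) .no .no .no)) .no (.br .no .no (.de 43) .no)) .no .no (.br .no (.br .no .no (.br (.br .no (.br .no .no (.de 41) .no) .no .no) .no .no (.br (.br .no (.br .no .no (.br .no .no (.br .no .no .no (.br (.br .no (.br .no .no (.br (.sw 1 3 [33,40])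 .no .no (.br .lf (.sw 0 1 [48]) .no .no)) (.br (.sw 2 3 [46]) .no .no .no)) .no .no) .no .no .no)) .no) .no) (.de 41) .no) (.de 45) .no .no)) (.sy 35 54 2)) .no .no)) .no .no .no)) .no) .no .no) .no .no (.br (.br .no (.br .no .no .no (.br (.br (.br .no (.br .no .no (.br .no .no .no (.br (.br .no (.br .no .no (.br .no .no (.br .no .no .no (.br (.br .no (.br .no .no (.br (.br .no (.sw 1 3 [6,13,14,20,21,28,48]) .no .no) .no .no (.br .no (.sw 0 3 [47]) .no .no)) (.br (.sw 2 3 [46]) .no .no .no)) .no .no) .no .no .no)) .no) (.br .no .no (.br .no .no .no (.br (.br .no (.br .no .no (.br (.br .no (.sw 2 3 [41]) .no .no) .no .no .no) (.br (.sw 2 3 [46]) .no .no .no)) .no .no) .no .no .no)) .no)) (.br .no .no .no (.br .no .no (.br .no .no .no (.br (.br .no (.br .no .no .no (.br (.sw 1 2 [40]) .no .no .no)) .no .no) .no .no .no)) .no)) .no) .no (.sy 37 78 2) .no)) .no) .no .no) .no .no (.br (.br .no (.br .no .no (.br (.br .no (.br .no .no (.br .no (.br .no .no (.br (.br .no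 (.br .no .no (.br (.de 48) .no .no (.br (.sw 0 2 [5,12,19,26,27,34,41,48]) .no .no .no)) (.br (.de 48) .no .no .no)) .no (.br .no .no (.sw 1 3 [45]) .no)) .no .no (.br .no (.sw 0 3 [44]) .no .no)) (.br (.sw 2 3 [43]) .no .no .no)) (.br .no .no .no (.br (.br .no (.br .no .no (.br (.br .no (.sw 1 3 [6,13,14,20,21,28,35,48]) .no .no) .no .no (.br (.sw 1 2 [42]) (.sw 0 1 [48]) .no .no)) (.br (.sw 2 3 [46]) .no .no .no)) .no (.sy 43 57 2)) .no .no .no)) .no) .no) (.de 41) .no) .no .no .no) (.br (.br .no (.br .no .no (.br .no (.br .no .no (.br (.br .no (.sw 2 3 [38]) .no .no) .no .no .no) (.br (.sw 2 3 [43]) .no .no .no)) (.br .no .no .no (.br (.br .no (.sw 2 3 [38]) .no .no) .no .no .no)) .no) .no) (.de 41) .no) .no (.br .no (.br .no .no (.sy 39 198 2) .no) .no .no) .no)) (.br .no .no .no (.br (.br .no (.br .no .no (.br .no (.br .no .no .no (.br (.sw 1 2 [37]) .no .no .no)) (.br .no .no .no (.br (.sw 1 2 [37]) .no .no .no)) .no) .no) (.de 41) .no) .no (.sy 37 78 2) .no))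 .no) (.br .no .no (.br .no .no .no (.br (.br .no (.br .no .no (.br .no .no (.br .no .no .no (.sw 0 1 [36])) .no) .no) (.de 41) .no) .no (.sy 37 78 2) .no)) .no) .no .no)) .no .no .no)) (.br .no (.br (.sy 33 225 2) .no .no .no) .no (.br (.br (.br .no (.br .no .no (.br .no (.sy 36 210 2) .no (.br (.sw 1 2 [32]) (.de 45) .no .no)) .no) .no .no) .no .no (.br (.br .no (.br .no .no .no (.br (.sw 1 2 [32]) (.de 45) .no .no)) (.br .no (.br (.br .no (.sy 38 225 2) (.de 41) .no) .no .no .no) .no (.br (.sw 1 2 [32]) (.de 45) .no .no)) .no) (.br .no .no (.br .no (.sy 36 210 2) .no (.br (.sw 1 2 [32]) (.de 45) .no .no)) .no) .no .no)) .no .no .no)) .no) (.br .no .no (.br .no (.sw 0 3 [20,25,26]) .no (.br (.br (.br .no (.br (.sy 35 228 2) .no (.sw 0 3 [30]) .no) .no .no) .no .no (.br (.br .no .no (.br (.sy 36 216 2) .no .no (.sw 0 1 [31])) .no) (.br (.br .no .no .no (.de 44)) .no (.sw 0 3 [30]) .no) .no .no)) .no .no .no)) .no) .no .no)) (.br (.br .no (.br .no .no (.br .no (.sw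 0 3 [20,25,26]) .no (.br (.br (.br .no (.sw 2 3 [29]) (.br .no .no .no (.de 43)) .no) .no (.br .no (.de 42) .no .no) .no) .no .no .no)) .no) .no .no) .no .no .no)) (.br .no .no .no (.br (.br .no (.br .no .no (.br .no (.sw 0 3 [20,25,26]) .no (.br (.br (.br .no (.br .no .no (.br (.br .no (.br .no .no (.br .no (.de 48) .no (.sw 1 2 [28])) .no) .no .no) .no .no (.br (.br .no (.br .no .no .no (.sw 1 2 [28])) (.sw 1 3 [33]) .no) (.de 45) .no .no)) (.br (.de 44) .no .no .no)) (.br .no .no .no (.de 43)) .no) (.br .no .no (.de 42) .no) .no .no) (.br (.br .no (.br .no .no (.br (.br .no (.br (.sy 38 228 2) .no (.sw 0 3 [20,25,26,33]) .no) .no .no) .no .no (.br (.br .no .no (.br .no .no .no (.sw 0 1 [34])) .no) (.de 45) .no .no)) (.br (.de 44) .no .no .no)) (.br .no .no .no (.de 43)) .no) (.br .no .no (.de 42) .no) .no .no) .no .no)) .no) .no .no) .no .no .no)) .no) .no) (.br (.sy 27 120 2) .no (.sw 0 3 [20]) .no) .no .no)) (.br (.br .no (.br (.sy 25 228 2) .no (.sw 0 3 [20])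 .no) .no .no) .no .no .no)) (.br .no .no .no (.br (.br .no (.br (.sy 25 228 2) .no (.sw 0 3 [20]) .no) .no .no) .no .no .no)) .no) (.br .no .no (.br .no .no .no (.br (.br .no (.br (.sy 25 228 2) .no (.sw 0 3 [20]) .no) .no .no) .no .no .no)) .no) .no .no)))

def c8_0_2 : Cert := (.br (.br .no (.br .no .no (.br (.br .no (.de 13) .no .no) .no .no (.br (.br .no (.br .no (.br .no .no (.br (.br .no (.br .no .no (.br .no .no .no (.br c8_0_0 .no .no .no)) .no) .no .no) .no .no (.br (.br .no (.br .no .no c8_0_1 (.br (.br (.br .no (.br .no .no (.br .no .no .no (.br (.br .no (.sw 2 3 [19]) (.br .no .no .no (.br .no .no (.br (.br .no (.br .no .no (.br .no (.sy 30 210 2) .no (.br (.sw 1 2 [26]) (.de 34) .no .no)) .no) .no .no) .no .no (.br (.br .no (.br .no .no .no (.br (.sw 1 2 [26]) (.de 34) .no .no)) (.br .no (.br (.br .no (.sw 2 3 [19,26,27]) .no .no) .no .no .no) .no (.br (.sw 1 2 [26]) (.de 34) .no .no)) .no) (.br .no .no (.br .no (.sy 30 210 2) .no (.br (.sw 1 2 [26])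 (.de 34) .no .no)) .no) .no .no)) (.br (.br .no (.br .no .no (.br .no (.sy 30 210 2) .no (.br (.sw 1 2 [26]) (.br .no .no (.br .no (.br .no .no (.de 42) (.br (.br .no (.br (.sy 37 228 2) .no (.br (.de 41) .no .no (.de 46)) .no) .no .no) .no .no .no)) (.br .no .no .no (.br (.br .no (.br (.sy 37 228 2) .no (.br (.br .no (.br .no (.br .no .no (.br .no .no .no (.de 45)) .no) .no .no) .no .no) .no .no (.de 46)) .no) .no .no) .no .no .no)) .no) .no) .no .no)) .no) .no .no) .no .no .no))) .no) .no (.sy 23 78 2) .no)) .no) .no .no) .no .no (.br (.br .no (.br .no .no (.br (.br .no (.sw 2 3 [19]) (.de 27) .no) .no .no .no) (.br (.br .no (.sw 2 3 [19]) (.de 27) .no) .no (.br .no (.br .no .no (.sy 25 198 2) .no) .no .no) .no)) (.br .no .no .no (.br (.br .no (.sw 2 3 [19]) (.de 27) .no) .no (.sy 23 78 2) .no)) .no) (.br .no .no (.br .no .no .no (.br (.br .no (.sw 2 3 [19]) (.de 27) .no) .no (.sy 23 78 2) .no)) .no) .no .no)) .no .no .no)) (.br .no .no .no (.br (.br (.br .no (.br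 .no .no (.br .no (.sy 22 210 2) .no (.br (.sw 1 2 [18]) (.br .no .no (.br .no .no .no (.br .no .no (.br (.br .no (.br (.sy 29 228 2) .no (.br (.br .no (.de 34) .no .no) .no .no (.sw 0 1 [25])) .no) .no .no) .no .no (.br (.br .no .no (.br (.sy 30 216 2) .no .no (.sw 0 1 [25])) .no) (.br (.br .no .no .no (.br (.sw 1 2 [18,25,26]) (.de 34) .no .no)) .no (.br (.br .no (.de 34) .no .no) .no .no (.sw 0 1 [25])) .no) .no .no)) (.br (.br .no (.br (.sy 29 228 2) .no (.br (.br .no (.br .no .no (.br .no (.br .no .no (.de 42) (.br (.br .no (.br .no .no (.br (.de 41) .no .no (.de 46)) (.de 45)) .no (.de 44)) .no .no .no)) (.br .no .no .no (.br (.br .no (.br .no .no (.br (.br .no (.br .no (.br .no .no (.br .no .no .no (.de 45)) .no) .no .no) .no .no) .no .no (.de 46)) (.de 45)) .no (.de 44)) .no .no .no)) .no) .no) .no .no) .no .no (.sw 0 1 [25])) .no) .no .no) .no .no .no))) .no) .no .no)) .no) .no .no) .no .no (.br (.br .no (.br .no .no .no (.br (.sw 1 2 [18]) (.sy 23 114 2)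 .no .no)) (.br .no (.br (.br .no (.sy 24 225 2) (.de 27) .no) .no .no .no) .no (.br (.sw 1 2 [18]) (.br .no .no (.de 27) .no) .no .no)) .no) (.br .no .no (.br .no (.sy 22 210 2) .no (.br (.sw 1 2 [18]) (.br .no .no (.de 27) .no) .no .no)) .no) .no .no)) .no .no .no)) .no) (.br .no .no (.br .no .no .no (.br (.br (.br .no (.br (.sy 21 228 2) .no (.sw 0 3 [16]) .no) .no .no) .no .no (.br (.br .no .no (.br (.sy 22 216 2) .no .no (.sw 0 1 [17])) .no) (.br (.br .no .no .no (.br (.sy 23 120 2) (.br .no .no (.de 27) .no) .no .no)) .no (.sw 0 3 [16]) .no) .no .no)) .no .no .no)) .no) .no .no)) (.br (.br .no (.br .no .no (.br .no .no .no (.br (.br (.br .no (.sw 2 3 [15]) (.br .no .no .no (.br (.br .no (.br .no .no (.br .no .no .no (.br .no (.br (.br .no (.sw 2 3 [15,22,23]) (.br .no .no .no (.br (.br .no (.br .no .no (.sy 33 210 2) .no) .no .no) .no .no .no)) .no) .no .no .no) .no (.br (.sw 1 2 [22]) (.br .no .no (.br .no .no .no (.br (.br .no (.br .no .no (.br (.br .no .no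 .no (.br (.sw 1 2 [22,29,30]) (.br .no .no (.br .no .no .no (.br (.br .no (.de 48) .no .no) .no .no .no)) .no) .no .no)) .no (.br (.br .no (.br .no .no (.br .no .no .no (.br (.br .no (.br .no (.br .no .no (.br (.br .no (.br .no .no (.br .no .no .no (.br (.sw 1 3 [6,13,19,25,31,37,42]) .no .no .no)) .no) .no .no) .no .no (.br .no (.sw 0 3 [44]) .no .no)) (.br (.sw 2 3 [43]) .no .no .no)) .no .no) .no .no) .no .no .no)) .no) .no .no) .no .no (.sw 0 1 [29])) .no) .no) .no .no) .no .no .no)) .no) .no .no))) .no) .no .no) .no .no .no)) .no) .no (.br .no (.br .no .no (.sy 21 198 2) (.br (.br .no (.br .no .no (.br .no .no .no (.sy 26 78 2)) .no) .no .no) .no .no .no)) .no .no) .no) .no .no .no)) .no) .no .no) .no .no .no)) .no (.br .no .no (.br (.br .no (.br .no .no (.br .no .no .no (.br (.sy 19 57 2) .no .no .no)) .no) .no .no) .no .no (.sy 14 30 2)) .no)) .no .no) (.de 13) .no .no)) (.br (.br .no (.de 13) .no .no) .no .no .no)) .no (.br .no .no (.br (.br .no (.de 13)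 .no .no) .no .no (.sy 9 30 2)) .no)) .no .no (.br .no (.br .no .no (.br (.br .no (.de 13) .no .no) .no .no (.br (.br .no (.br (.br .no .no (.br (.sy 14 216 2) .no .no (.br (.br .no (.br .no .no (.br .no .no .no (.br .no (.br (.br .no (.sy 21 225 2) (.br .no .no .no (.br (.br .no (.br .no .no (.sw 0 3 [8,14,20]) .no) .no .no) .no .no .no)) .no) .no .no .no) .no (.br (.br .no (.br .no .no (.br (.br .no (.br .no .no (.br .no (.br .no .no (.br (.sy 22 228 8) .no .no (.br .no (.br .no .no (.br (.de 34) .no .no (.br (.br (.br .no (.br (.sy 35 228 2) .no (.sw 0 3 [30]) .no) .no .no) .no .no (.br (.br .no .no (.br (.sy 36 216 2) .no .no (.br (.br .no (.br .no .no (.br .no (.br .no .no .no (.br (.br .no (.br .no .no (.br (.de 48) .no .no (.br .lf .no .no .no)) (.br (.de 48) .no .no .no)) .no .no) .no .no .no)) (.br .no .no .no (.br (.br .no (.br .no .no (.br (.br .no (.sw 1 3 [6,13,20,21,26,28,33,35,40,48]) .no .no) .no .no (.br (.sw 1 2 [42]) (.sw 0 1 [48]) .no .no)) (.br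 (.sw 2 3 [46]) .no .no .no)) .no .no) .no .no .no)) .no) .no) (.de 41) .no) (.de 45) .no .no)) .no) (.sy 28 147 8) .no .no)) .no .no .no)) (.sy 30 54 2)) .no .no)) (.br (.br .no (.br .no .no (.br (.de 34) .no .no (.br (.br (.br .no (.sw 2 3 [29]) (.br .no .no .no (.de 43)) .no) .no (.br .no (.de 42) .no .no) .no) .no .no .no)) (.br (.de 34) .no .no .no)) .no (.sy 29 57 2)) .no .no .no)) (.br .no .no .no (.br (.br .no (.br .no .no (.br (.br .no (.br (.br .no (.br .no .no (.br (.sy 30 228 8) .no .no (.br .no (.de 45) .no .no)) (.br (.de 44) .no .no .no)) (.br .no .no .no (.de 43)) .no) (.br .no .no (.de 42) .no) .no .no) .no .no) .no .no (.br (.sw 1 3 [21]) (.br (.br .no (.br .no .no (.br (.br .no (.br (.sy 38 228 2) .no (.sw 0 3 [33]) .no) .no .no) .no .no (.br (.br .no .no (.br .no .no .no (.sw 0 1 [34])) .no) (.de 45) .no .no)) (.br (.de 44) .no .no .no)) (.br .no .no .no (.de 43)) .no) (.br .no .no (.de 42) .no) .no .no) .no .no)) (.br (.br .no (.br (.br .no (.br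 .no .no (.br (.br .no (.sw 2 3 [32]) (.sy 37 201 2) .no) .no .no .no) (.sy 29 57 8)) (.br .no .no .no (.de 43)) .no) (.br .no .no (.de 42) .no) .no .no) .no .no) .no .no .no)) .no (.sy 29 57 2)) .no .no .no)) .no) .no) .no .no) .no .no (.br (.br .no (.br .no (.br .no .no (.br (.br .no (.br .no .no (.br .no .no .no (.br (.br (.br .no (.br .no .no (.br (.br .no (.br .no .no (.br .no .no .no (.br .no .no (.br .no .no .no (.de 44)) .no)) .no) .no .no) .no .no (.br (.br .no (.br .no .no (.sy 34 228 8) (.br .no .no (.br .no .no .no (.br (.br .no (.br .no .no (.br (.br .no (.sw 2 3 [41]) .no .no) .no .no .no) (.sy 38 57 8)) .no .no) .no .no .no)) .no)) (.br .no .no .no (.br .no .no (.br .no .no .no (.br (.br .no (.br .no .no .no (.br (.sw 1 2 [40]) .no .no .no)) .no .no) .no .no .no)) .no)) .no) (.de 45) .no .no)) (.br (.de 44) .no .no .no)) .no (.br .no .no (.de 43) .no)) .no .no (.br .no (.br .no .no (.br (.br .no (.br .no .no (.de 41) .no) .no .no) .no .no (.br (.br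 .no (.br .no .no (.br .no .no (.br .no .no .no (.br (.br .no (.br .no .no (.br (.br .no (.sw 0 3 [35]) .no .no) .no .no (.br (.sy 34 228 25) (.sw 0 1 [48]) .no .no)) (.br (.sw 2 3 [46]) .no .no .no)) .no .no) .no .no .no)) .no) .no) (.de 41) .no) (.de 45) .no .no)) (.sy 35 54 2)) .no .no)) .no (.sy 32 78 2) .no)) .no) .no .no) .no .no (.br (.br .no (.br .no .no (.br (.br (.br .no (.br .no .no (.br .no .no .no (.br (.br .no (.br .no .no (.br .no .no (.br .no .no .no (.br (.br .no (.br .no .no (.br (.sy 39 228 8) .no .no (.br .no (.sw 0 3 [47]) .no .no)) (.sw 0 2 [2,3,10,17,24,31,37,44])) .no .no) .no .no .no)) .no) (.br .no .no (.br .no .no .no (.br (.br .no (.br .no .no (.br (.br .no (.sw 2 3 [41]) .no .no) .no .no .no) (.sw 0 2 [2,3,10,17,24,31,37,44])) .no .no) .no .no .no)) .no)) .no (.sy 38 57 2)) .no .no .no)) .no) .no .no) .no .no (.br (.br .no (.br .no .no (.br (.sy 31 228 8) .no .no (.br .no (.br .no .no (.br .no (.br .no .no (.br (.br .no (.br .no .no (.sw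 0 3 [39]) .no) .no .no) .no .no (.br .no (.sw 0 3 [44]) .no .no)) (.br (.sw 2 3 [43]) .no .no .no)) (.br .no .no .no (.br (.br .no (.br .no .no (.sw 0 3 [39]) .no) .no .no) .no .no .no)) .no) .no) .no .no)) (.br (.br .no (.br .no .no (.br .no (.br .no .no (.br (.br .no (.sw 2 3 [38]) .no .no) .no .no .no) (.sy 35 57 8)) (.br .no .no .no (.br (.br .no (.sw 2 3 [38]) .no .no) .no .no .no)) .no) .no) .no (.sy 38 57 2)) .no .no .no)) (.br .no .no .no (.br (.br .no (.br .no .no (.sy 19 78 25) .no) .no (.sy 38 57 2)) .no .no .no)) .no) (.br .no .no (.br .no .no .no (.br (.br .no (.br .no .no (.sy 13 147 30) .no) .no (.sy 38 57 2)) .no .no .no)) .no) .no .no)) .no .no .no) (.sy 25 57 8)) (.br .no .no .no (.br (.br (.br .no (.br .no .no (.br .no (.sy 36 210 2) .no (.br (.sw 1 2 [32]) (.de 45) .no .no)) .no) .no .no) .no .no (.br (.br .no (.br .no .no .no (.br (.sw 1 2 [32]) (.de 45) .no .no)) (.sy 29 78 8) .no) (.br .no .no (.br .no (.sy 36 210 2) .no (.br (.sw 1 2 [32])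 (.de 45) .no .no)) .no) .no .no)) .no (.sy 32 78 2) .no)) .no) (.br .no .no (.br .no .no .no (.br (.sy 13 147 25) .no (.sy 32 78 2) .no)) .no) .no .no)) (.br (.br .no (.br .no .no (.br .no .no .no (.br (.br (.br .no (.sw 2 3 [29]) (.br .no .no .no (.de 43)) .no) .no (.br .no (.de 42) .no .no) .no) .no (.sy 32 78 2) .no)) .no) .no .no) .no .no .no)) (.br .no .no .no (.br (.br .no (.br .no .no (.br .no .no .no (.br (.br (.br .no (.br .no .no (.br (.br .no (.br .no .no (.br .no (.de 48) .no (.sw 1 2 [28])) .no) .no .no) .no .no (.br (.br .no (.br .no .no .no (.sw 1 2 [28])) (.sy 32 78 8) .no) (.de 45) .no .no)) (.br (.de 44) .no .no .no)) (.br .no .no .no (.de 43)) .no) (.br .no .no (.de 42) .no) .no .no) .no .no .no)) .no) .no .no) .no .no .no)) .no) (.sy 19 78 8) .no) (.br .no .no (.br .no (.br .no .no (.br (.br .no (.br (.sy 30 228 2) .no (.sw 0 3 [25]) .no) .no .no) .no .no (.br (.br .no .no (.br (.de 34) .no .no (.sw 0 1 [26])) .no) (.sy 23 147 8) .no .no)) (.br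 (.br .no (.br (.sy 30 228 2) .no (.sw 0 3 [25]) .no) .no .no) .no .no .no)) (.br .no .no .no (.br (.br .no (.br (.sy 30 228 2) .no (.sw 0 3 [25]) .no) .no .no) .no .no .no)) .no) .no) .no .no)) (.br (.br .no (.br .no .no (.br .no (.br .no .no (.br (.br .no (.sw 2 3 [24]) (.sy 29 201 2) .no) .no .no .no) (.sy 21 57 8)) (.br .no .no .no (.br (.br .no (.sw 2 3 [24]) (.br .no .no .no (.br (.br .no (.br (.br .no (.br .no .no .no (.br (.de 44) (.sy 36 114 2) .no .no)) (.sy 28 78 8) .no) (.br .no .no (.de 42) .no) .no .no) .no .no) .no .no .no)) .no) .no (.sy 28 78 2) .no)) .no) .no) .no .no) .no .no .no)) (.br .no .no .no (.br (.br .no (.br .no .no (.br .no (.br .no .no .no (.br (.sw 1 2 [23]) (.sy 28 114 2) .no .no)) (.br .no (.br (.br .no (.sy 29 225 2) (.br .no .no .no (.br (.br .no (.sy 34 210 2) .no .no) .no .no .no)) .no) .no .no .no) .no (.br (.sw 1 2 [23]) (.br .no .no (.br .no .no .no (.br (.br .no (.br (.br .no .no (.br (.sy 35 216 2) .no .no (.de 43)) .no) (.br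 (.br .no .no .no (.br (.de 44) (.br .no .no (.br .no .no .no (.de 46)) .no) .no .no)) .no (.de 42) .no) .no .no) .no .no) .no .no .no)) .no) .no .no)) .no) .no) .no .no) .no .no .no)) .no) (.br .no .no (.br .no .no .no (.br (.br .no (.br .no .no (.br (.br .no .no .no (.br (.sy 28 120 2) (.br .no .no (.br .no .no .no (.br (.br .no (.sy 33 228 2) .no .no) .no .no .no)) .no) .no .no)) .no (.br (.br .no (.br .no .no (.br .no .no .no (.br (.br .no (.sw 0 3 [8,14,20,21]) .no .no) .no .no .no)) .no) .no .no) .no .no (.sw 0 1 [22])) .no) .no) .no .no) .no .no .no)) .no) .no .no))) (.de 20)) (.br .no .no .no (.de 20)) .no) (.br .no .no (.br .no .no .no (.de 20)) .no) .no .no)) .no) (.br (.br .no .no .no (.br (.sy 15 120 2) (.br .no .no (.br .no .no .no (.br (.sy 20 228 2) .no .no .no)) .no) .no .no)) .no (.sw 0 3 [8]) .no) .no .no) .no .no) (.de 13) .no .no)) (.sy 8 54 2)) .no .no))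

def c8_0_3 : Cert := (.br .no (.br .no .no (.sy 8 228 7) (.br (.br .no (.br .no .no (.br (.de 20) .no .no (.br (.br (.br .no (.sw 2 3 [15]) (.br .no .no .no (.br (.br .no (.br .no .no (.br .no .no .no (.br .no (.br (.br .no (.sw 2 3 [15,22,23]) (.br .no .no .no (.br (.br .no (.br .no .no (.sy 33 210 2) .no) .no .no) .no .no .no)) .no) .no .no .no) .no (.br (.sw 1 2 [22]) (.br .no .no (.br .no .no .no (.br (.br .no (.br .no .no (.br (.br .no .no .no (.br (.sw 1 2 [22,29,30]) (.br .no .no (.br .no .no .no (.br (.br .no (.de 48) .no .no) .no .no .no)) .no) .no .no)) .no (.br (.br .no (.br .no .no (.br .no .no .no (.br (.br .no (.br .no (.br .no .no (.br (.br .no (.br .no .no (.br .no .no .no (.br (.sw 1 3 [6,12,19,25,31,37,42]) .no .no .no)) .no) .no .no) .no .no (.br .no (.sw 0 3 [44]) .no .no)) (.br (.sw 2 3 [43]) .no .no .no)) .no .no) .no .no) .no .no .no)) .no) .no .no) .no .no (.sw 0 1 [29])) .no) .no) .no .no) .no .no .no)) .no) .no .no))) .no) .no .no) .no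 .no .no)) .no) .no (.br .no (.br .no .no (.sy 21 198 2) (.br (.br .no (.br .no .no (.br .no .no .no (.sy 26 78 2)) .no) .no .no) .no .no .no)) .no .no) .no) .no .no .no)) (.br (.de 20) .no .no .no)) .no (.sy 15 57 2)) .no .no .no)) (.br .no .no .no (.br (.br .no (.br .no .no (.br (.br .no (.br (.br .no (.sy 8 228 14) (.br .no .no .no (.br (.br .no (.br .no .no (.br .no .no .no (.br .no (.br (.br .no (.sy 28 225 2) (.br .no .no .no (.br (.br .no (.br .no .no (.sy 33 210 2) .no) .no .no) .no .no .no)) .no) .no .no .no) .no (.br (.sw 1 2 [22]) (.br .no .no (.br .no .no .no (.br (.br .no (.br .no .no (.br (.br .no .no .no (.br (.sw 1 2 [22,29,30]) (.br .no .no (.br .no .no .no (.br (.br .no (.de 48) .no .no) .no .no .no)) .no) .no .no)) .no (.br (.br .no (.br .no .no (.br .no .no .no (.br (.br .no (.br .no (.br .no .no (.br (.br .no (.br .no .no (.br .no .no .no (.br (.sw 1 3 [6,12,42]) .no .no .no)) .no) .no .no) .no .no (.br .no (.sw 0 3 [44]) .no .no)) (.br (.sw 2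 3 [43]) .no .no .no)) .no .no) .no .no) .no .no .no)) .no) .no .no) .no .no (.sw 0 1 [29])) .no) .no) .no .no) .no .no .no)) .no) .no .no))) (.de 27)) .no (.sy 23 57 2)) .no .no .no)) .no) (.br .no .no (.br .no .no .no (.br (.br .no (.br .no .no (.br (.br (.br .no (.br .no .no (.br .no .no .no (.br (.br .no (.br .no .no (.br .no .no (.br (.br .no (.br .no .no (.br .no .no .no (.br (.br .no (.br .no (.br .no .no (.br (.br .no (.br .no .no (.br .no .no .no (.br (.sw 1 3 [6,12,42]) .no .no .no)) .no) .no .no) .no .no (.br .no (.sw 0 3 [44]) .no .no)) (.br (.sw 2 3 [43]) .no .no .no)) .no .no) .no (.de 47)) .no .no .no)) .no) .no .no) .no .no (.br (.sy 16 228 21) (.br .no .no (.br .no .no .no (.br (.br .no (.br .no (.br .no .no (.sw 0 3 [36]) .no) .no .no) .no (.de 47)) .no .no .no)) .no) .no .no)) (.br (.br .no (.br .no .no (.br .no .no .no (.br (.br .no (.br .no (.br .no .no (.br (.br .no (.br .no .no (.br .no .no .no (.br (.sw 2 3 [35]) .no .no .no)) .no) .no .no)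 .no .no (.br .no (.sw 0 3 [44]) .no .no)) (.br (.sw 2 3 [43]) .no .no .no)) (.br .no .no .no (.br (.br .no (.br .no .no (.br .no .no .no (.br (.sw 1 2 [42]) .no .no .no)) .no) .no .no) .no .no .no)) .no) .no .no) .no .no .no)) .no) .no .no) .no .no .no)) (.br .no .no (.br (.br .no (.br .no .no (.br .no .no .no (.br (.br .no (.sw 2 3 [34]) .no .no) .no (.de 46) .no)) .no) .no .no) .no .no (.br (.br .no (.sy 31 57 7) (.br .no .no .no (.br (.br .no (.sw 2 3 [34]) .no .no) .no (.de 46) .no)) .no) (.br .no .no (.br .no .no .no (.br (.br .no (.sw 2 3 [34]) .no .no) .no (.de 46) .no)) .no) .no .no)) (.br (.br .no (.br .no .no (.br .no .no .no (.br (.br .no (.sw 2 3 [34]) (.br .no (.br .no .no (.br (.br .no (.br .no .no (.br .no .no .no (.br (.sw 1 2 [41]) .no .no .no)) .no) .no .no) .no .no (.br .no (.sw 0 3 [44]) .no .no)) (.br (.sw 2 3 [43]) .no .no .no)) (.br .no .no .no (.br (.br .no (.br .no .no (.br .no .no .no (.br (.sw 1 2 [41]) (.sw 0 1 [48]) .no .no)) .no) .no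 .no) .no .no .no)) .no) .no) .no (.de 46) .no)) .no) .no .no) .no .no .no))) .no (.sy 31 57 2)) .no .no .no)) .no) .no .no) .no .no (.br (.sy 8 228 21) (.br .no .no (.br .no .no .no (.br (.br .no (.br .no .no (.br (.br .no .no .no (.br (.sy 35 120 2) (.br .no .no (.br .no .no .no (.br (.br .no (.de 48) .no .no) .no .no .no)) .no) .no .no)) .no (.br (.br .no (.br .no .no (.br .no .no .no (.br (.br .no (.sw 0 3 [28]) .no .no) .no .no .no)) .no) .no .no) .no .no (.sw 0 1 [29])) .no) .no) .no (.sy 31 57 2)) .no .no .no)) .no) .no .no)) .no .no (.br (.br .no (.br .no .no (.br .no .no .no (.br (.br .no (.br .no .no (.sw 0 3 [27]) .no) .no .no) .no .no .no)) .no) .no .no) .no .no (.br (.br .no (.br .no .no (.br (.br .no (.br (.sy 32 228 2) .no (.sw 0 1 [21]) .no) .no .no) .no .no (.sy 25 147 7)) (.br (.br .no (.br (.sy 32 228 2) .no (.sw 0 1 [21]) .no) .no .no) .no .no .no)) (.br .no .no .no (.br (.br .no (.br (.sy 32 228 2) .no (.sw 0 1 [21]) .no) .no .no) .no .no .no))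 .no) (.br .no .no (.br .no .no .no (.br (.br .no (.br (.sy 32 228 2) .no (.sw 0 1 [21]) .no) .no .no) .no .no .no)) .no) .no .no))) (.br (.br (.br .no (.br .no .no (.br .no .no .no (.br (.br .no (.sw 2 3 [26]) (.br .no .no .no (.br .no .no (.br (.br .no (.br .no .no (.br .no (.sy 37 210 2) .no (.br (.sw 1 2 [33]) (.de 41) .no .no)) .no) .no .no) .no .no (.br (.sy 30 78 7) (.br .no .no (.br .no (.sy 37 210 2) .no (.br (.sw 1 2 [33]) (.de 41) .no .no)) .no) .no .no)) (.br (.br .no (.br .no .no (.br .no (.sy 37 210 2) .no (.br (.sw 1 2 [33]) (.br .no .no (.br .no (.br .no .no (.br (.br .no (.br .no .no (.br (.de 48) .no .no (.sw 0 1 [40])) .no) .no .no) .no .no (.sy 37 147 7)) (.br (.sw 2 3 [43]) .no .no .no)) (.br .no .no .no (.br (.br .no (.br .no .no (.br (.br .no (.sw 1 3 [6,12,17,23,29,35,48]) .no .no) .no .no (.sw 0 1 [40])) .no) .no .no) .no .no .no)) .no) .no) .no .no)) .no) .no .no) .no .no .no))) .no) .no (.sy 30 78 2) .no)) .no) .no .no) .no .no (.br (.br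 .no (.sy 23 57 7) (.br .no .no .no (.br (.br .no (.sw 2 3 [26]) (.de 34) .no) .no (.sy 30 78 2) .no)) .no) (.br .no .no (.br .no .no .no (.br (.br .no (.sw 2 3 [26]) (.de 34) .no) .no (.sy 30 78 2) .no)) .no) .no .no)) .no .no .no)) .no (.sy 23 57 2)) .no .no .no)) .no) .no .no) .no .no) .no .no (.br (.br (.br .no (.br .no .no (.br (.br .no (.br .no .no (.br .no (.sy 25 210 2) .no (.sw 1 2 [14])) .no) .no .no) .no .no (.br (.sy 18 78 7) (.br .no .no (.br .no (.sy 25 210 2) .no (.sw 1 2 [14])) .no) .no .no)) (.br (.br .no (.br .no .no (.br .no (.sy 25 210 2) .no (.sw 1 2 [14])) .no) .no .no) .no .no .no)) (.br .no .no .no (.br (.br .no (.br .no .no (.br .no (.sy 25 210 2) .no (.sw 1 2 [14])) .no) .no .no) .no .no .no)) .no) (.br .no .no (.br .no .no .no (.br (.br .no (.br .no .no (.br .no .no .no (.br (.br .no (.br .no .no (.br .no .no .no (.br (.br .no (.br .no .no (.br .no .no (.br (.br .no (.br .no .no (.br .no .no .no (.br (.br .no (.br .no (.br .no .no (.br (.br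 .no (.br .no .no (.br .no .no .no (.br (.sw 1 3 [6,12,19,25,31,37,42]) .no .no .no)) .no) .no .no) .no .no (.br .no (.sw 0 3 [44]) .no .no)) (.br (.sw 2 3 [43]) .no .no .no)) .no .no) .no (.de 47)) .no .no .no)) .no) .no .no) .no .no (.br (.br .no (.br .no .no (.sy 32 228 7) (.de 45)) (.br .no .no .no (.br (.br .no (.br .no (.br .no .no (.br .no .no .no (.br .no (.br .no .no (.br .no .no .no (.br (.sw 1 3 [6,12,17,19,23,25,29,31,36,42]) .no .no .no)) .no) .no .no)) .no) .no .no) .no (.de 47)) .no .no .no)) .no) (.br .no .no (.br .no .no .no (.br (.br .no (.br .no (.br .no .no (.sw 0 3 [36]) .no) .no .no) .no (.de 47)) .no .no .no)) .no) .no .no)) (.br (.br .no (.br .no .no (.br .no .no .no (.br (.br .no (.br .no (.br .no .no (.br (.br .no (.br .no .no (.br .no .no .no (.br (.sw 2 3 [35]) .no .no .no)) .no) .no .no) .no .no (.br .no (.sw 0 3 [44]) .no .no)) (.br (.sw 2 3 [43]) .no .no .no)) (.br .no .no .no (.br (.br .no (.br .no .no (.br .no .no .no (.br (.sw 1 2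 [42]) .no .no .no)) .no) .no .no) .no .no .no)) .no) .no .no) .no .no .no)) .no) .no .no) .no .no .no)) .no) .no .no) .no .no .no)) .no) .no .no) .no .no (.br (.br .no (.br .no .no (.br (.br .no (.br (.sw 1 2 [14,21,22]) .no (.sw 0 1 [21]) .no) .no .no) .no .no (.sy 25 147 7)) (.br (.br .no (.br (.sw 1 2 [14,21,22]) .no (.sw 0 1 [21]) .no) .no .no) .no .no .no)) (.br .no .no .no (.br (.br .no (.br (.sw 1 2 [14,21,22]) .no (.sw 0 1 [21]) .no) .no .no) .no .no .no)) .no) (.br .no .no (.br .no .no .no (.br (.br .no (.br (.sy 32 228 2) .no (.sw 0 1 [21]) .no) .no .no) .no .no .no)) .no) .no .no))) .no) .no .no) .no .no .no)) .no) .no .no) (.br (.br .no (.br .no .no (.br (.br .no (.br (.sy 24 228 2) .no (.sw 0 3 [19]) .no) .no .no) .no .no (.sy 17 147 7)) (.br (.br .no (.br (.sy 24 228 2) .no (.sw 0 3 [19]) .no) .no .no) .no .no .no)) (.br .no .no .no (.br (.br .no (.br (.sy 24 228 2) .no (.sw 0 3 [19]) .no) .no .no) .no .no .no)) .no) (.br .no .no (.br .no .no .no (.br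 (.br .no (.br (.sy 24 228 2) .no (.sw 0 3 [19]) .no) .no .no) .no .no .no)) .no) .no .no) .no .no)) (.br (.br .no (.br (.br .no (.sy 15 57 7) (.br .no .no .no (.br (.br .no (.sw 2 3 [18]) (.br .no .no .no (.de 27)) .no) .no (.sy 22 78 2) .no)) .no) (.br .no .no (.br .no .no .no (.br (.br .no (.sw 2 3 [18]) (.br .no .no .no (.br (.br (.br .no (.br .no .no (.br .no (.sy 29 210 2) .no (.br (.sw 1 2 [25]) (.br .no .no (.br .no .no .no (.br .no .no (.br (.br .no (.br (.sy 36 228 2) .no (.br (.br .no (.de 41) .no .no) .no .no (.sw 0 1 [32])) .no) .no .no) .no .no (.sy 29 147 7)) (.br (.br .no (.br (.sy 36 228 2) .no (.br (.br .no (.br .no .no (.br .no (.br .no .no (.sy 36 228 7) (.br (.sw 2 3 [43]) .no .no .no)) (.br .no .no .no (.br (.br .no (.br .no .no (.br (.br .no (.sw 1 3 [6,12,17,18,23,29,35,48]) .no .no) .no .no (.br (.sw 1 2 [42]) (.sw 0 1 [48]) .no .no)) (.br (.sw 2 3 [46]) .no .no .no)) .no (.sy 43 57 2)) .no .no .no)) .no) .no) .no .no) .no .no (.sw 0 1 [32]))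 .no) .no .no) .no .no .no))) .no) .no .no)) .no) .no .no) .no .no (.br (.sy 22 78 7) (.br .no .no (.br .no (.sy 29 210 2) .no (.br (.sw 1 2 [25]) (.br .no .no (.de 34) .no) .no .no)) .no) .no .no)) .no .no .no)) .no) .no (.sy 22 78 2) .no)) .no) .no .no) .no .no) .no .no .no)) .no (.sy 15 57 2)) .no .no .no)) .no)

theorem P8_0 : R.S 3 36 :=
  R.piece L hL (.br (.br .no (.br (.sy 3 228 2) .no (.br .no (.sy 4 210 2) .no (.br .no .no c8_0_2 (.br (.br .no (.br .no .no (.br (.br .no (.br .no .no c8_0_3 .no) .no .no) .no .no (.br (.br .no (.br .no (.br .no .no (.br (.br .no (.br .no .no (.br .no .no .no (.br (.sw 2 3 [7]) .no (.sy 18 78 2) .no)) .no) .no .no) .no .no (.br (.br .no (.sy 11 57 7) (.br .no .no .no (.br (.sw 2 3 [7]) .no (.sy 18 78 2) .no)) .no) (.br .no .no (.br .no .no .no (.br (.sw 2 3 [7]) .no (.sy 18 78 2) .no)) .no) .no .no)) (.br (.br .no (.br .no .no (.br .no .no .no (.br (.sw 2 3 [7]) .no (.sy 18 78 2) .no)) .no) .no .no) .no .no .no)) (.br .no .no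 .no (.br (.br .no (.br .no .no (.br .no .no .no (.br (.br (.br .no (.br .no .no (.br (.br .no (.br .no .no (.br .no (.sw 2 3 [7,14,15]) .no (.sw 1 2 [14])) .no) .no .no) .no .no (.br (.sy 18 78 7) (.br .no .no (.br .no (.sw 2 3 [7,14,15]) .no (.sw 1 2 [14])) .no) .no .no)) (.br (.br .no (.br .no .no (.br .no (.sw 2 3 [7,14,15]) .no (.sw 1 2 [14])) .no) .no .no) .no .no .no)) (.br .no .no .no (.br (.br .no (.br .no .no (.br .no (.sy 25 210 2) .no (.sw 1 2 [14])) .no) .no .no) .no .no .no)) .no) (.br .no .no (.br .no .no .no (.br (.br .no (.br .no .no (.br .no .no .no (.br (.br .no (.br .no .no (.br .no .no .no (.br (.br .no (.br .no .no (.br .no .no (.br (.br .no (.br .no .no (.br .no .no .no (.br (.br .no (.sy 32 228 11) .no (.de 47)) .no .no .no)) .no) .no .no) .no .no (.br (.br .no (.br .no .no (.sy 32 228 7) (.de 45)) (.br .no .no .no (.br (.br .no (.br .no (.br .no .no (.br .no .no .no (.br .no (.br .no .no (.br .no .no .no (.br .lf .no .no .no)) .no) .no .no))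 .no) .no .no) .no (.de 47)) .no .no .no)) .no) (.br .no .no (.br .no .no .no (.br (.br .no (.br .no (.br .no .no (.sw 0 3 [36]) .no) .no .no) .no (.de 47)) .no .no .no)) .no) .no .no)) (.br (.br .no (.br .no .no (.br .no .no .no (.br (.br .no (.br .no (.br .no .no (.br (.br .no (.br .no .no (.br .no .no .no (.br (.sw 2 3 [35]) .no .no .no)) .no) .no .no) .no .no (.br .no (.sw 0 3 [44]) .no .no)) (.br (.sw 2 3 [43]) .no .no .no)) (.br .no .no .no (.br (.br .no (.br .no .no (.br .no .no .no (.sw 0 2 [2,3,8,10,14,16,20,22,26,28,32,34,38,40,44,46])) .no) .no .no) .no .no .no)) .no) .no .no) .no .no .no)) .no) .no .no) .no .no .no)) .no) .no .no) .no .no .no)) .no) .no .no) .no .no (.br (.br .no (.br .no .no (.br (.br .no (.br (.sw 1 2 [14,21,22]) .no (.sw 0 1 [21]) .no) .no .no) .no .no (.sy 25 147 7)) (.br (.br .no (.br (.sw 1 2 [14,21,22]) .no (.sw 0 1 [21]) .no) .no .no) .no .no .no)) (.br .no .no .no (.br (.br .no (.br (.sw 1 2 [14,21,22]) .no (.sw 0 1 [21]) .no)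 .no .no) .no .no .no)) .no) (.br .no .no (.br .no .no .no (.br (.br .no (.br (.sy 32 228 2) .no (.sw 0 1 [21]) .no) .no .no) .no .no .no)) .no) .no .no))) .no) .no .no) .no .no .no)) .no) .no .no) .no .no .no)) .no) .no .no) .no .no .no)) .no) (.br .no (.br .no .no (.br (.br .no (.br .no .no (.br .no (.sy 17 210 2) .no (.br (.sw 1 2 [13]) .no .no .no)) .no) .no .no) .no .no (.br (.sy 10 78 7) (.br .no .no (.br .no (.sy 17 210 2) .no (.br (.sw 1 2 [13]) .no .no .no)) .no) .no .no)) (.br (.br .no (.br .no .no (.br .no (.sy 17 210 2) .no (.br (.sw 1 2 [13]) .no .no .no)) .no) .no .no) .no .no .no)) (.br .no .no .no (.br (.br .no (.br .no .no (.br .no (.sy 17 210 2) .no (.br (.sw 1 2 [13]) (.br (.br .no (.br .no .no (.br (.br .no (.br (.sy 24 228 2) .no (.br .no .no .no (.sw 0 1 [20])) .no) .no .no) .no .no (.sy 17 147 7)) (.br (.br .no (.br (.sy 24 228 2) .no (.br .no .no .no (.sw 0 1 [20])) .no) .no .no) .no .no .no)) (.br .no .no .no (.br (.br .no (.br (.sy 24 228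 2) .no (.br .no .no .no (.sw 0 1 [20])) .no) .no .no) .no .no .no)) .no) (.br .no .no (.br .no .no .no (.br (.br .no (.br (.sy 24 228 2) .no (.br (.br (.br .no (.br .no .no (.br .no .no .no (.br (.br .no (.br .no .no (.sy 24 228 11) (.br .no .no (.br (.br .no (.br .no .no (.br .no .no .no (.br (.br .no (.sw 2 3 [34]) .no .no) .no (.de 46) .no)) .no) .no .no) .no .no (.br (.br .no (.sy 31 57 7) (.br .no .no .no (.br (.br .no (.sw 2 3 [34]) .no .no) .no (.de 46) .no)) .no) (.br .no .no (.br .no .no .no (.br (.br .no (.sw 2 3 [34]) .no .no) .no (.de 46) .no)) .no) .no .no)) (.br (.br .no (.br .no .no (.br .no .no .no (.br (.br .no (.sw 2 3 [34]) (.br .no (.br .no .no (.br (.br .no (.br .no .no (.br .no .no .no (.br (.sw 1 2 [41]) .no .no .no)) .no) .no .no) .no .no (.br .no (.sw 0 3 [44]) .no .no)) (.br (.sw 2 3 [43]) .no .no .no)) (.br .no .no .no (.br (.br .no (.br .no .no (.br .no .no .no (.br (.sw 1 2 [41]) (.sw 0 1 [48]) .no .no)) .no) .no .no) .no .no .no)) .no)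 .no) .no (.de 46) .no)) .no) .no .no) .no .no .no))) .no (.sy 31 57 2)) .no .no .no)) .no) .no .no) .no .no (.br (.br .no (.br .no .no (.sy 24 228 7) (.br (.br .no (.br .no .no (.sy 24 228 13) .no) .no (.sy 31 57 2)) .no .no .no)) (.br .no .no .no (.br (.br .no (.br .no .no (.br .no (.br .no .no .no (.br (.sw 1 2 [30]) (.sy 35 114 2) .no .no)) (.br .no (.de 42) .no (.br (.sw 1 2 [30]) (.br .no .no (.br .no .no .no (.br (.br .no (.br .no (.br .no .no (.br (.br .no (.br .no .no (.br .no .no .no (.br (.sy 48 228 11) .no .no .no)) .no) .no .no) .no .no (.sw 0 1 [37])) .no) .no .no) .no .no) .no .no .no)) .no) .no .no)) .no) .no) .no (.sy 31 57 2)) .no .no .no)) .no) (.br .no .no (.br .no .no .no (.br (.br .no (.br .no .no (.br (.br .no .no .no (.br (.sy 35 120 2) (.br .no .no (.br .no .no .no (.br (.br .no (.de 48) .no .no) .no .no .no)) .no) .no .no)) .no (.br (.br .no (.br .no .no (.br .no .no .no (.br (.br .no (.sw 0 3 [28]) .no .no) .no .no .no)) .no) .no .no) .no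 .no (.sw 0 1 [29])) .no) .no) .no (.sy 31 57 2)) .no .no .no)) .no) .no .no)) .no .no (.sw 0 1 [20])) .no) .no .no) .no .no .no)) .no) .no .no) .no .no)) .no) .no .no) .no .no .no)) .no) .no) (.br .no .no (.br .no (.br .no .no (.br (.br .no (.br (.sy 16 228 2) .no (.sw 0 3 [11]) .no) .no .no) .no .no (.sy 9 147 7)) (.br (.br .no (.br (.sy 16 228 2) .no (.sw 0 3 [11]) .no) .no .no) .no .no .no)) (.br .no .no .no (.br (.br .no (.br (.sy 16 228 2) .no (.sw 0 3 [11]) .no) .no .no) .no .no .no)) .no) .no) .no .no)) (.br (.br .no (.br .no .no (.br .no (.sy 7 57 7) (.br .no .no .no (.br (.br .no (.sw 2 3 [10]) (.br .no .no .no (.br (.br .no (.br (.sy 14 78 7) (.br .no .no (.br .no (.sy 21 210 2) .no (.br (.sw 1 2 [17]) (.br .no .no (.br .no .no .no (.br (.br (.br .no (.br (.sy 28 228 2) .no (.br (.br .no (.br .no .no (.br .no .no .no (.br .no .no (.sy 28 228 7) (.br (.br .no (.br .no .no (.sy 28 228 10) (.br (.br .no (.br .no .no (.br .no (.sy 35 57 7) (.br .no .no .no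 (.br (.br .no (.sw 2 3 [38]) .no .no) .no .no .no)) .no) .no) .no .no) .no .no .no)) .no (.sy 35 57 2)) .no .no .no))) .no) .no .no) .no .no (.sw 0 1 [24])) .no) .no .no) .no .no (.sy 21 147 7)) .no .no .no)) .no) .no .no)) .no) .no .no) .no .no) .no .no .no)) .no) .no (.sy 14 78 2) .no)) .no) .no) .no .no) .no .no .no)) .no (.sy 7 57 2)) .no .no .no))) (.br .no (.sy 4 114 2) (.sy 6 201 5) .no)) (.sy 2 201 2) (.br (.sy 3 120 2) (.br .no .no (.sy 5 210 4) (.sy 4 54 2)) (.br .no (.sy 6 225 2) .no (.sy 4 30 2)) .no)) (.sy 1 210 2) .no (.br (.br .no (.br .no .no (.sy 4 228 3) (.sy 3 57 3)) (.sy 2 78 3) (.sy 3 57 2)) (.sy 1 147 3) (.sy 2 78 2) .no)) 3 36 64 (by norm_num) (by norm_num) (by norm_num) (by decide +kernel)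

end T7
end Pool.Agent.H411R2.WSK
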