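import Pool.Agent.H411R2.WSK.T7p0
import Pool.Agent.H411R2.WSK.T7p1
import Pool.Agent.H411R2.WSK.T7p2
import Pool.Agent.H411R2.WSK.T7p3
import Pool.Agent.H411R2.WSK.T7p4
import Pool.Agent.H411R2.WSK.T7p5
import Pool.Agent.H411R2.WSK.T7p6
import Pool.Agent.H411R2.WSK.T7p7
import Pool.Agent.H411R2.WSK.T7p8

set_option maxRecDepth 100000
set_option linter.all false

namespace Pool.Agent.H411R2.WSK

namespace T7

def Lt : List (ℕ × ℕ) := [(6, 1092), (6, 2116), (15, 122397252), (17, 4685800004), (17, 13275734596), (12, 13345348), (11, 3908164), (8, 57924), (12, 4960836), (15, 114012740), (15, 382448196), (15, 105837124), (15, 374272580), (13, 30339652), (13, 47116868), (15, 80459332), (15, 348894788), (13, 46904900), (15, 114226756), (15, 382662212), (6, 3652), (15, 79144068), (16, 347579524), (16, 2495063172), (14, 213361796), (13, 62366852), (15, 79094916), (15, 347530372), (13, 62317700), (12, 10413188), (12, 14607492), (15, 79148164), (16, 347583620), (16, 2495067268), (15, 79099012), (15, 347534468),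 (14, 146207876), (10, 980100), (8, 44164), (10, 453764), (10, 978052), (8, 47492), (11, 457092), (11, 3602820), (11, 503172), (11, 3648900), (8, 60804), (5, 900), (3, 36)]

theorem hLt : ∀ x ∈ Lt, R.S x.1 x.2 := by
  intro x hx
  simp only [Lt, List.mem_cons, List.not_mem_nil, or_false] at hx
  rcases hx with rfl | rfl | rfl | rfl | rfl | rfl | rfl | rfl | rfl | rfl | rfl | rfl | rfl | rfl | rfl | rfl | rfl | rfl | rfl | rfl | rfl | rfl | rfl | rfl | rfl | rfl | rfl | rfl | rfl | rfl | rfl | rfl | rfl | rfl | rfl | rfl | rfl | rfl | rfl | rfl | rfl | rfl | rfl | rfl | rfl | rfl | rfl | rfl | rfl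
  · exact P0_0
  · exact P0_1
  · exact P0_2
  · exact P0_3
  · exact P0_4
  · exact P1_0
  · exact P1_1
  · exact P1_2
  · exact P1_3
  · exact P1_4
  · exact P1_5
  · exact P2_0
  · exact P2_1
  · exact P2_2
  · exact P2_3
  · exact P2_4
  · exact P2_5
  · exact P3_0
  · exact P3_1
  · exact P3_2
  · exact P3_3
  · exact P3_4
  · exact P3_5
  · exact P4_0
  · exact P4_1
  · exact P4_2
  · exact P4_3
  · exact P4_4
  · exact P4_5
  · exact P4_6
  · exact P5_0
  · exact P5_1
  · exact P5_2
  · exact P5_3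
  · exact P5_4
  · exact P5_5
  · exact P5_6
  · exact P6_0
  · exact P6_1
  · exact P6_2
  · exact P6_3
  · exact P6_4
  · exact P7_0
  · exact P7_1
  · exact P7_2
  · exact P7_3
  · exact P7_4
  · exact P7_5
  · exact P8_0

theorem hLL : ∀ x ∈ Lt ++ L, R.S x.1 x.2 := by
  intro x hx
  rcases List.mem_append.mp hx with h | h
  · exact hLt x h
  · exact hL x h

theorem solved : R.S 0 0 := R.piece (Lt ++ L) hLL (.br (.br .no (.br (.br .no (.br (.br .no .lf .lf (.sy 0 180 5)) .no (.br (.br .no (.sy 5 228 4) (.br .no .no (.br .no .no .no (.br .no .no (.br (.br .no (.br .no .no .no (.br .no (.br .lf (.br (.br .no .lf .no .lf) .no .no .no) .no .no) .no .no)) .no .lf) .no .no .lf) .no)) .lf) (.br .no .no (.br .no .no .no (.br .no .no (.br (.br .no .lf .no (.br .no (.de 13) (.br .no (.br .lf .lf .no .no) .no .no) .no)) .no .no (.br .no (.br .no .no (.br .no (.sy 7 75 6) .no .no) .no) .no .no)) .no)) (.br .no .no (.br .no .no .no (.br (.br .no (.br .no .no (.br .no (.br .lf .lf .no .no) .no .no) .no)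 .no (.br .no .lf .lf .no)) .no .no .no)) .no))) (.br .no .no (.sy 3 210 5) (.br .no .no (.br .no .no .no (.br .no .no (.br (.br .no .no .no (.br (.br .no (.br .lf .lf .no .no) .no .no) .no .lf .no)) .no .no (.br (.br .no .no (.sy 7 78 5) .no) .no .no .no)) .no)) (.br .no .no (.br .no .no .no (.br (.br .no .no .no (.br (.br .no (.sy 9 57 5) (.sy 9 45 5) .no) .no (.br .no (.br .lf .lf .no .no) .no .no) .no)) .no .no .no)) .no))) .no .lf) (.sy 0 180 4)) (.br (.br .no (.br .no .no (.br .no .no (.br .no .no .no (.br .no (.br .no .no .no (.br .no .no (.br (.br .no (.br .lf (.br .lf .no .lf .no) .no .no) .no .lf) .no .no .lf) .no)) .no .no)) (.br .no .no (.br .no (.br .no .no .no (.br .no .no (.br (.br .no (.br .lf .lf .no .no) .no .no) .no .no .lf) .no)) .no (.br .no (.br .no .no .lf .lf) .no .no)) .no)) (.br .no .no (.br .no .no .no (.br .no (.br .no .no .no (.br .no .no (.br (.br .no (.br .lf (.br .lf .no .lf .no) .no .no) .no .no) .no .no .no) .no)) .no .no)) (.br .no .no (.br .no (.br .no .no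 .no (.br .no .no (.br (.br .no (.br .lf .lf .no .no) .lf .no) .no .no .no) .no)) .no .lf) .no))) (.sy 2 216 3) (.br .no (.sy 6 225 3) (.br .no .no .lf (.br .no .no (.br .no .lf .no .lf) .no)) .no)) (.br (.br .no (.sy 4 225 3) (.sy 5 216 4) (.sy 5 120 4)) .no (.br .no (.sy 3 198 3) .no (.br .no .no .lf (.br .no .no (.br .no (.br .lf .no .no .lf) .no (.br (.br .no .no .no (.sy 7 30 4)) .no .no .no)) .no))) (.br .no (.sy 6 225 3) (.br .no .no (.br .no .no .no (.br .no (.br .lf .no .no .lf) .no .no)) .lf) .no)) .no .lf) (.sy 0 180 3)) .no .lf (.sy 0 180 2)) (.sy 0 216 1) (.sy 0 120 1)) (.sy 0 225 0) (.sy 0 201 0) (.sy 0 57 0)) 0 0 1 (by norm_num) (by norm_num) (by norm_num) (by decide +kernel)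

theorem ergodic : WSKErgodic (triangular 7) 4 := R.ergodic solved

end T7
end Pool.Agent.H411R2.WSK
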