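import Pool.Agent.H411R2.WSK.Kempe
import Pool.Agent.H411R2.WSK.Orient

/-!
The degree of a 4-colouring of the periodic triangular lattice modulo 4 is invariant under Kempe
changes.
-/

namespace Pool.Agent.H411R2.WSK

open Finset

section

variable {n : ℕ} [NeZero n]

/-- proper 4-colourings of the triangular torus, as functions -/
def Prop4 (c : (ZMod n × ZMod n) → Fin 4) : Prop :=
  ∀ x : (ZMod n × ZMod n), c x ≠ c (x + (1, 0)) ∧ c x ≠ c (x + (0, 1)) ∧ c (x + (1, 0)) ≠ c (x + (0, 1))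

/-- sum of a function of the colours (weighted with a function of the vertices) over all faces -/
def faceSum (w : (ZMod n × ZMod n) → ℤ) (f : Fin 4 → Fin 4 → Fin 4 → ℤ) (c : (ZMod n × ZMod n) → Fin 4) : ℤ :=
  ∑ x : (ZMod n × ZMod n), ((w x + w (x + (1, 0)) + w (x + (0, 1))) * f (c x) (c (x + (1, 0))) (c (x + (0, 1))) +
    (w (x + (1, 0)) + w (x + (1, 1)) + w (x + (0, 1))) *
      f (c (x + (1, 0))) (c (x + (1, 1))) (c (x + (0, 1))))

/-- sum over the faces at the vertex `x` -/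
def linkSum (f : Fin 4 → Fin 4 → Fin 4 → ℤ) (c : (ZMod n × ZMod n) → Fin 4) (x : (ZMod n × ZMod n)) : ℤ :=
  f (c x) (c (x + (1, 0))) (c (x + (0, 1))) + f (c x) (c (x + (0, 1))) (c (x + (-1, 1))) +
    f (c x) (c (x + (-1, 1))) (c (x + (-1, 0))) + f (c x) (c (x + (-1, 0))) (c (x + (0, -1))) +
    f (c x) (c (x + (0, -1))) (c (x + (1, -1))) + f (c x) (c (x + (1, -1))) (c (x + (1, 0)))

theorem sum_shift (F : (ZMod n × ZMod n) → ℤ) (d : (ZMod n × ZMod n)) : ∑ x : (ZMod n × ZMod n), F (x + d) = ∑ x : (ZMod n × ZMod n), F x :=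
  Equiv.sum_comp (Equiv.addRight d) F

theorem reindex (w : (ZMod n × ZMod n) → ℤ) (f : Fin 4 → Fin 4 → Fin 4 → ℤ) (hf : ∀ p q r, f p q r = f q r p)
    (c : (ZMod n × ZMod n) → Fin 4) : faceSum w f c = ∑ x : (ZMod n × ZMod n), w x * linkSum f c x := by
  have s1 := sum_shift (fun x : (ZMod n × ZMod n) => w x * f (c x) (c (x + (-1, 1))) (c (x + (-1, 0)))) (1, 0)
  have s2 := sum_shift (fun x : (ZMod n × ZMod n) => w x * f (c x) (c (x + (0, -1))) (c (x + (1, -1)))) (0, 1)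
  have s3 := sum_shift (fun x : (ZMod n × ZMod n) => w x * f (c x) (c (x + (0, 1))) (c (x + (-1, 1)))) (1, 0)
  have s4 := sum_shift (fun x : (ZMod n × ZMod n) => w x * f (c x) (c (x + (-1, 0))) (c (x + (0, -1)))) (1, 1)
  have s5 := sum_shift (fun x : (ZMod n × ZMod n) => w x * f (c x) (c (x + (1, -1))) (c (x + (1, 0)))) (0, 1)
  simp only [add_assoc, Prod.mk_add_mk, add_neg_cancel, add_zero, zero_add] at s1 s2 s3 s4 s5
  simp only [faceSum, linkSum, add_mul, mul_add, sum_add_distrib]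
  rw [← s1, ← s2, ← s3, ← s4, ← s5]
  have e00 : ((0 : ZMod n), (0 : ZMod n)) = 0 := rfl
  simp only [e00, add_zero]
  have r1 : ∀ x : (ZMod n × ZMod n), f (c (x + (1, 0))) (c (x + (0, 1))) (c x) =
      f (c x) (c (x + (1, 0))) (c (x + (0, 1))) := fun x => (hf _ _ _).symm
  have r2 : ∀ x : (ZMod n × ZMod n), f (c (x + (0, 1))) (c x) (c (x + (1, 0))) =
      f (c x) (c (x + (1, 0))) (c (x + (0, 1))) := fun x => hf _ _ _
  have r3 : ∀ x : (ZMod n × ZMod n), f (c (x + (1, 1))) (c (x + (0, 1))) (c (x + (1, 0))) =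
      f (c (x + (1, 0))) (c (x + (1, 1))) (c (x + (0, 1))) := fun x => (hf _ _ _).symm
  have r4 : ∀ x : (ZMod n × ZMod n), f (c (x + (0, 1))) (c (x + (1, 0))) (c (x + (1, 1))) =
      f (c (x + (1, 0))) (c (x + (1, 1))) (c (x + (0, 1))) := fun x => hf _ _ _
  simp only [r1, r2, r3, r4]
  ring

theorem link_telescope (a d d' e : Fin 4) (h1 : a ≠ d) (h2 : a ≠ d') (h3 : a ≠ e) (h4 : d ≠ d')
    (h5 : d ≠ e) (h6 : d' ≠ e) (c : (ZMod n × ZMod n) → Fin 4) (hc : Prop4 c) (x : (ZMod n × ZMod n)) (hx : c x = a) :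
    linkSum (orm d) c x = linkSum (orm d') c x := by
  have P := hc x
  have P1 := hc (x + (-1, 0))
  have P2 := hc (x + (0, -1))
  have P3 := hc (x + (-1, 1))
  have P4 := hc (x + (1, -1))
  have P5 := hc (x + (-1, -1))
  simp only [add_assoc, Prod.mk_add_mk, neg_add_cancel, add_neg_cancel, add_zero, zero_add] at P P1 P2 P3 P4 P5
  have e00 : ((0 : ZMod n), (0 : ZMod n)) = 0 := rfl
  simp only [e00, add_zero] at P P1 P2 P3 P4 P5
  have L := orm_link a d d' e h1 h2 h3 h4 h5 h6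
  have k1 := L (c (x + (1, 0))) (c (x + (0, 1))) (hx ▸ P.1.symm) (hx ▸ P.2.1.symm) P.2.2
  have k2 := L (c (x + (0, 1))) (c (x + (-1, 1))) (hx ▸ P.2.1.symm) (hx ▸ P1.2.2.symm) P3.1.symm
  have k3 := L (c (x + (-1, 1))) (c (x + (-1, 0))) (hx ▸ P1.2.2.symm) (hx ▸ P1.1) P1.2.1.symm
  have k4 := L (c (x + (-1, 0))) (c (x + (0, -1))) (hx ▸ P1.1) (hx ▸ P2.2.1) P5.2.2.symm
  have k5 := L (c (x + (0, -1))) (c (x + (1, -1))) (hx ▸ P2.2.1) (hx ▸ P2.2.2) P2.1
  have k6 := L (c (x + (1, -1))) (c (x + (1, 0))) (hx ▸ P2.2.2) (hx ▸ P.1.symm) P4.2.1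
  rw [linkSum, linkSum, hx]
  linear_combination k1 + k2 + k3 + k4 + k5 + k6

theorem link_even (a d : Fin 4) (h1 : a ≠ d) (c : (ZMod n × ZMod n) → Fin 4) (hc : Prop4 c) (x : (ZMod n × ZMod n))
    (hx : c x = a) : ∃ t : ℤ, linkSum (orm d) c x = 2 * t := by
  have P := hc x
  have P1 := hc (x + (-1, 0))
  have P2 := hc (x + (0, -1))
  have P3 := hc (x + (-1, 1))
  have P4 := hc (x + (1, -1))
  have P5 := hc (x + (-1, -1))
  simp only [add_assoc, Prod.mk_add_mk, neg_add_cancel, add_neg_cancel, add_zero, zero_add] at P P1 P2 P3 P4 P5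
  have e00 : ((0 : ZMod n), (0 : ZMod n)) = 0 := rfl
  simp only [e00, add_zero] at P P1 P2 P3 P4 P5
  have L := orm_even a d h1
  obtain ⟨t1, k1⟩ := L (c (x + (1, 0))) (c (x + (0, 1))) (hx ▸ P.1.symm) (hx ▸ P.2.1.symm) P.2.2
  obtain ⟨t2, k2⟩ := L (c (x + (0, 1))) (c (x + (-1, 1))) (hx ▸ P.2.1.symm) (hx ▸ P1.2.2.symm) P3.1.symm
  obtain ⟨t3, k3⟩ := L (c (x + (-1, 1))) (c (x + (-1, 0))) (hx ▸ P1.2.2.symm) (hx ▸ P1.1) P1.2.1.symm
  obtain ⟨t4, k4⟩ := L (c (x + (-1, 0))) (c (x + (0, -1))) (hx ▸ P1.1) (hx ▸ P2.2.1) P5.2.2.symm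
  obtain ⟨t5, k5⟩ := L (c (x + (0, -1))) (c (x + (1, -1))) (hx ▸ P2.2.1) (hx ▸ P2.2.2) P2.1
  obtain ⟨t6, k6⟩ := L (c (x + (1, -1))) (c (x + (1, 0))) (hx ▸ P2.2.2) (hx ▸ P.1.symm) P4.2.1
  rw [linkSum, hx, k1, k2, k3, k4, k5, k6]
  refine ⟨3 + (if c (x + (1, 0)) = d then 1 else 0) + (if c (x + (0, 1)) = d then 1 else 0) +
    (if c (x + (-1, 1)) = d then 1 else 0) + (if c (x + (-1, 0)) = d then 1 else 0) +
    (if c (x + (0, -1)) = d then 1 else 0) + (if c (x + (1, -1)) = d then 1 else 0) -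
    t1 - t2 - t3 - t4 - t5 - t6, ?_⟩
  ring

/-- total number (with signs) of faces not coloured `d` -/
def M (d : Fin 4) (c : (ZMod n × ZMod n) → Fin 4) : ℤ :=
  ∑ x : (ZMod n × ZMod n), (orm d (c x) (c (x + (1, 0))) (c (x + (0, 1))) +
    orm d (c (x + (1, 0))) (c (x + (1, 1))) (c (x + (0, 1))))

/-- signed number of all faces: four times the degree -/
def E (c : (ZMod n × ZMod n) → Fin 4) : ℤ :=
  ∑ x : (ZMod n × ZMod n), (or4 (c x) (c (x + (1, 0))) (c (x + (0, 1))) +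
    or4 (c (x + (1, 0))) (c (x + (1, 1))) (c (x + (0, 1))))

theorem orm_count : ∀ a d : Fin 4, a ≠ d → ∀ p q r : Fin 4,
    ((if p = a then 1 else 0) + (if q = a then 1 else 0) + (if r = a then 1 else 0)) * orm d p q r =
      orm d p q r := by
  decide

theorem M_eq (a d : Fin 4) (h : a ≠ d) (c : (ZMod n × ZMod n) → Fin 4) :
    M d c = ∑ x : (ZMod n × ZMod n), (if c x = a then 1 else 0) * linkSum (orm d) c x := by
  rw [← reindex _ _ (orm_cyc d)]
  unfold M faceSum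
  refine Finset.sum_congr rfl fun x _ => ?_
  rw [orm_count a d h, orm_count a d h]

theorem M_const (d d' : Fin 4) (c : (ZMod n × ZMod n) → Fin 4) (hc : Prop4 c) : M d c = M d' c := by
  rcases eq_or_ne d d' with rfl | hdd
  · rfl
  obtain ⟨a, e, h1, h2, h3, h5, h6⟩ : ∃ a e : Fin 4, a ≠ d ∧ a ≠ d' ∧ a ≠ e ∧ d ≠ e ∧ d' ≠ e := by
    revert d d'; decide
  rw [M_eq a d h1, M_eq a d' h2]
  refine Finset.sum_congr rfl fun x _ => ?_
  by_cases hx : c x = a
  · rw [link_telescope a d d' e h1 h2 h3 hdd h5 h6 c hc x hx]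
  · simp [hx]

theorem E_eq (c : (ZMod n × ZMod n) → Fin 4) (hc : Prop4 c) (d : Fin 4) : E c = 4 * M d c := by
  have : E c = M 0 c + M 1 c + M 2 c + M 3 c := by
    unfold E M
    rw [← sum_add_distrib, ← sum_add_distrib, ← sum_add_distrib]
    refine Finset.sum_congr rfl fun x _ => ?_
    rw [or4_sum, or4_sum (c (x + (1, 0)))]
    ring
  rw [this, M_const 0 d c hc, M_const 1 d c hc, M_const 2 d c hc, M_const 3 d c hc]
  ring

/-- the effect of a closed swap on one face -/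
theorem face_swap {c c' : (ZMod n × ZMod n) → Fin 4} {a b d : Fin 4} (hab : a ≠ b) (hda : d ≠ a) (hdb : d ≠ b)
    {U : Set (ZMod n × ZMod n)} [DecidablePred (· ∈ U)]
    (hU1 : ∀ v ∈ U, c v = a ∨ c v = b) (hs : IsSwap c c' a b U)
    {u v w : (ZMod n × ZMod n)} (huv : c u = a ∨ c u = b → c v = a ∨ c v = b → (u ∈ U ↔ v ∈ U))
    (hvw : c v = a ∨ c v = b → c w = a ∨ c w = b → (v ∈ U ↔ w ∈ U))
    (huw : c u = a ∨ c u = b → c w = a ∨ c w = b → (u ∈ U ↔ w ∈ U)) :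
    orm d (c' u) (c' v) (c' w) = orm d (c u) (c v) (c w) -
      2 * (((if c u = a ∧ u ∈ U then 1 else 0) + (if c v = a ∧ v ∈ U then 1 else 0) +
        (if c w = a ∧ w ∈ U then 1 else 0)) * orm d (c u) (c v) (c w)) := by
  by_cases hf : u ∉ U ∧ v ∉ U ∧ w ∉ U
  · obtain ⟨hu, hv, hw⟩ := hf
    rw [hs.2 u hu, hs.2 v hv, hs.2 w hw]
    simp [hu, hv, hw]
  · -- all vertices coloured `a` or `b` are in `U`
    have all : (c u = a ∨ c u = b → u ∈ U) ∧ (c v = a ∨ c v = b → v ∈ U) ∧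
        (c w = a ∨ c w = b → w ∈ U) := by
      by_cases hu : u ∈ U
      · have := hU1 u hu
        exact ⟨fun _ => hu, fun h => (huv this h).1 hu, fun h => (huw this h).1 hu⟩
      · by_cases hv : v ∈ U
        · have := hU1 v hv
          exact ⟨fun h => (huv h this).2 hv, fun _ => hv, fun h => (hvw this h).1 hv⟩
        · by_cases hw : w ∈ U
          · have := hU1 w hw
            exact ⟨fun h => (huw h this).2 hw, fun h => (hvw h this).2 hw, fun _ => hw⟩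
          · exact absurd ⟨hu, hv, hw⟩ hf
    have sw : ∀ z : (ZMod n × ZMod n), (c z = a ∨ c z = b → z ∈ U) → c' z = Equiv.swap a b (c z) := by
      intro z hz
      by_cases h : z ∈ U
      · exact hs.1 z h
      · rw [hs.2 z h, Equiv.swap_apply_of_ne_of_ne]
        · exact fun h' => h (hz (Or.inl h'))
        · exact fun h' => h (hz (Or.inr h'))
    rw [sw u all.1, sw v all.2.1, sw w all.2.2, orm_swap a b hab d hda hdb]
    have i1 : (c u = a ∧ u ∈ U) ↔ c u = a := ⟨fun h => h.1, fun h => ⟨h, all.1 (Or.inl h)⟩⟩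
    have i2 : (c v = a ∧ v ∈ U) ↔ c v = a := ⟨fun h => h.1, fun h => ⟨h, all.2.1 (Or.inl h)⟩⟩
    have i3 : (c w = a ∧ w ∈ U) ↔ c w = a := ⟨fun h => h.1, fun h => ⟨h, all.2.2 (Or.inl h)⟩⟩
    simp only [i1, i2, i3]
    rw [orm_count a d hda.symm]
    ring

theorem adj_iff {x y : (ZMod n × ZMod n)} : (triangular n).Adj x y ↔
    x ≠ y ∧ ((y = x + (1, 0) ∨ y = x + (0, 1) ∨ y = x + (1, -1)) ∨
      (x = y + (1, 0) ∨ x = y + (0, 1) ∨ x = y + (1, -1))) := by
  simp only [triangular, SimpleGraph.fromRel_adj]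

/-- closedness along one edge -/
theorem closed_edge {c : (ZMod n × ZMod n) → Fin 4} (hc : ∀ x y : (ZMod n × ZMod n), (triangular n).Adj x y → c x ≠ c y)
    {a b : Fin 4} {U : Set (ZMod n × ZMod n)} (hU : Closed (triangular n) c a b U) {x y : (ZMod n × ZMod n)}
    (h : (triangular n).Adj x y) (hx : c x = a ∨ c x = b) (hy : c y = a ∨ c y = b) :
    x ∈ U ↔ y ∈ U :=
  ⟨fun h' => hU.2 x h' y h hy, fun h' => hU.2 y h' x h.symm hx⟩

end

/-- for `n ≥ 2` the three directions give edges -/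
theorem adj1 {n : ℕ} (hn : 2 ≤ n) (x : ZMod n × ZMod n) : (triangular n).Adj x (x + (1, 0)) := by
  have : Fact (1 < n) := ⟨hn⟩
  rw [triangular, SimpleGraph.fromRel_adj]
  refine ⟨fun h => ?_, Or.inl (Or.inl rfl)⟩
  have := congrArg Prod.fst h
  simp at this

theorem adj2 {n : ℕ} (hn : 2 ≤ n) (x : ZMod n × ZMod n) : (triangular n).Adj x (x + (0, 1)) := by
  have : Fact (1 < n) := ⟨hn⟩
  rw [triangular, SimpleGraph.fromRel_adj]
  refine ⟨fun h => ?_, Or.inl (Or.inr (Or.inl rfl))⟩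
  have := congrArg Prod.snd h
  simp at this

theorem adj3 {n : ℕ} (hn : 2 ≤ n) (x : ZMod n × ZMod n) :
    (triangular n).Adj (x + (1, 0)) (x + (0, 1)) := by
  have : Fact (1 < n) := ⟨hn⟩
  rw [triangular, SimpleGraph.fromRel_adj]
  refine ⟨fun h => ?_, Or.inr (Or.inr (Or.inr ?_))⟩
  · have := congrArg Prod.fst h
    simp at this
  · rw [add_assoc]; simp

theorem adj4 {n : ℕ} (hn : 2 ≤ n) (x : ZMod n × ZMod n) :
    (triangular n).Adj (x + (1, 0)) (x + (1, 1)) := by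
  have := adj2 hn (x + (1, 0))
  have e : x + (1, 0) + (0, 1) = x + (1, 1) := by rw [add_assoc]; simp
  rwa [e] at this

theorem adj5 {n : ℕ} (hn : 2 ≤ n) (x : ZMod n × ZMod n) :
    (triangular n).Adj (x + (1, 1)) (x + (0, 1)) := by
  have := adj1 hn (x + (0, 1))
  have e : x + (0, 1) + (1, 0) = x + (1, 1) := by rw [add_assoc]; simp
  rw [e] at this
  exact this.symm

theorem prop4_of_adj {n : ℕ} (hn : 2 ≤ n) {c : ZMod n × ZMod n → Fin 4}
    (hc : ∀ x y, (triangular n).Adj x y → c x ≠ c y) : Prop4 c := fun x =>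
  ⟨hc _ _ (adj1 hn x), hc _ _ (adj2 hn x), hc _ _ (adj3 hn x)⟩

theorem exists_third : ∀ a b : Fin 4, ∃ d : Fin 4, d ≠ a ∧ d ≠ b := by decide

/-- **Invariance**: `E` modulo 16 (the degree modulo 4) does not change under a closed swap. -/
theorem E_invariant {n : ℕ} [NeZero n] (hn : 2 ≤ n) {c c' : ZMod n × ZMod n → Fin 4}
    (hc : ∀ x y, (triangular n).Adj x y → c x ≠ c y) {a b : Fin 4} (hab : a ≠ b)
    {U : Set (ZMod n × ZMod n)} (hU : Closed (triangular n) c a b U) (hs : IsSwap c c' a b U) :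
    ∃ t : ℤ, E c' = E c + 16 * t := by
  classical
  have hc' := proper_of_swap hc hU hs
  obtain ⟨d, hda, hdb⟩ : ∃ d : Fin 4, d ≠ a ∧ d ≠ b := exists_third a b
  rw [E_eq c' (prop4_of_adj hn hc') d, E_eq c (prop4_of_adj hn hc) d]
  have key : M d c' = M d c - 2 * faceSum (fun x => if c x = a ∧ x ∈ U then 1 else 0) (orm d) c := by
    unfold M faceSum
    rw [mul_sum, ← sum_sub_distrib]
    refine Finset.sum_congr rfl fun x _ => ?_
    have ce := @closed_edge n _ c hc a b U hU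
    rw [face_swap hab hda hdb hU.1 hs (u := x) (v := x + (1, 0)) (w := x + (0, 1))
        (fun h h' => ce (adj1 hn x) h h') (fun h h' => ce (adj3 hn x) h h')
        (fun h h' => ce (adj2 hn x) h h'),
      face_swap hab hda hdb hU.1 hs (u := x + (1, 0)) (v := x + (1, 1)) (w := x + (0, 1))
        (fun h h' => ce (adj4 hn x) h h') (fun h h' => ce (adj5 hn x) h h')
        (fun h h' => ce (adj3 hn x) h h')]
    ring
  have ev : ∀ x : ZMod n × ZMod n, ∃ t : ℤ,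
      (if c x = a ∧ x ∈ U then 1 else 0) * linkSum (orm d) c x = 2 * t := by
    intro x
    by_cases hx : c x = a
    · obtain ⟨t, ht⟩ := link_even a d hda.symm c (prop4_of_adj hn hc) x hx
      exact ⟨(if c x = a ∧ x ∈ U then 1 else 0) * t, by rw [ht]; ring⟩
    · exact ⟨0, by simp [hx]⟩
  choose t ht using ev
  rw [reindex _ _ (orm_cyc d)] at key
  simp only [ht, ← mul_sum] at key
  refine ⟨-∑ x, t x, ?_⟩
  rw [key]; ring

/-- `E` modulo 16 is constant along sequences of Kempe changes. -/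
theorem E_reach {n : ℕ} [NeZero n] (hn : 2 ≤ n) {c c' : (triangular n).Coloring (Fin 4)}
    (h : Relation.ReflTransGen KempeStep c c') : ∃ t : ℤ, E c' = E c + 16 * t := by
  induction h with
  | refl => exact ⟨0, by ring⟩
  | tail _ hstep ih =>
    obtain ⟨t, ht⟩ := ih
    obtain ⟨a, b, hab, U, hU, hs⟩ := hstep.closed
    obtain ⟨t', ht'⟩ := E_invariant hn (fun x y h => SimpleGraph.Coloring.valid _ h) hab hU hs
    exact ⟨t + t', by rw [ht', ht]; ring⟩

end Pool.Agent.H411R2.WSK
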