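import Pool.Agent.H411R2.WSK.TriFam

/-!
The WSK dynamics for 4 colours on `T_n` is not ergodic for `n = 6` and all `n ≥ 8`.
-/

namespace Pool.Agent.H411R2.WSK

theorem not_ergodic_aux {n : ℕ} (hn : 2 ≤ n) (k m k' m' : ℤ) (hk : 0 ≤ k) (hm : 0 ≤ m)
    (h : (n : ℤ) = k + 3 * m) (hk' : 0 ≤ k') (hm' : 0 ≤ m') (h' : (n : ℤ) = k' + 3 * m')
    (he : Even k) (he' : Even k') (hne : ∀ t : ℤ, -2 * k' ^ 2 ≠ -2 * k ^ 2 + 16 * t) :
    ¬ WSKErgodic (triangular n) 4 := by
  intro herg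
  have : NeZero n := ⟨by omega⟩
  obtain ⟨c, hc⟩ := exists_colouring k m n hk hm h hn he
  obtain ⟨c', hc'⟩ := exists_colouring k' m' n hk' hm' h' hn he'
  obtain ⟨t, ht⟩ := E_reach hn (herg c c')
  rw [hc, hc'] at ht
  exact hne t ht

theorem triangular_not_ergodic {n : ℕ} (h : n = 6 ∨ 8 ≤ n) : ¬ WSKErgodic (triangular n) 4 := by
  have h3 : n % 3 = 0 ∨ n % 3 = 1 ∨ n % 3 = 2 := by omega
  rcases h3 with h3 | h3 | h3
  · refine not_ergodic_aux (by omega) 6 (((n - 6) / 3 : ℕ) : ℤ) 0 ((n / 3 : ℕ) : ℤ) (by norm_num)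
      (by positivity) (by omega) (by norm_num) (by positivity) (by omega) (by decide) (by decide) ?_
    intro t; omega
  · refine not_ergodic_aux (by omega) 10 (((n - 10) / 3 : ℕ) : ℤ) 4 (((n - 4) / 3 : ℕ) : ℤ)
      (by norm_num) (by positivity) (by omega) (by norm_num) (by positivity) (by omega)
      (by decide) (by decide) ?_
    intro t; omega
  · refine not_ergodic_aux (by omega) 2 (((n - 2) / 3 : ℕ) : ℤ) 8 (((n - 8) / 3 : ℕ) : ℤ)
      (by norm_num) (by positivity) (by omega) (by norm_num) (by positivity) (by omega)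
      (by decide) (by decide) ?_
    intro t; omega

end Pool.Agent.H411R2.WSK
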