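import Pool.Agent.H411R2.WSK.Tri
import Pool.Agent.H411R2.WSK.Conn

/-!
The search applied to the periodic triangular lattice.
-/

namespace Pool.Agent.H411R2.WSK

/-- the vertex with number `v` -/
def ixT (n v : ℕ) : ZMod n × ZMod n := (((v / n : ℕ) : ZMod n), ((v % n : ℕ) : ZMod n))

def idx (n i j : ℕ) : ℕ := (i % n) * n + j % n

def nbf (n v : ℕ) : List ℕ :=
  [idx n (v / n + 1) (v % n), idx n (v / n) (v % n + 1), idx n (v / n + 1) (v % n + (n - 1)),
    idx n (v / n + (n - 1)) (v % n), idx n (v / n) (v % n + (n - 1)),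
    idx n (v / n + (n - 1)) (v % n + 1)]

/-- translation number `g` -/
def gT (n g v : ℕ) : ℕ :=
  Nat.add (Nat.mul (Nat.mod (Nat.add (Nat.div v n) (Nat.div g n)) n) n)
    (Nat.mod (Nat.add (Nat.mod v n) (Nat.mod g n)) n)

theorem gT_eq (n g v : ℕ) : gT n g v = idx n (v / n + g / n) (v % n + g % n) := rfl

theorem idx_lt {n i j : ℕ} (hn : 0 < n) : idx n i j < n * n := by
  unfold idx
  have h1 := Nat.mod_lt i hn
  have h2 := Nat.mod_lt j hn
  calc i % n * n + j % n < i % n * n + n := by omega
    _ = (i % n + 1) * n := by ring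
    _ ≤ n * n := Nat.mul_le_mul_right _ h1

theorem ixT_idx {n i j : ℕ} (hn : 0 < n) : ixT n (idx n i j) = ((i : ZMod n), (j : ZMod n)) := by
  unfold ixT idx
  have h2 := Nat.mod_lt j hn
  have e1 : (i % n * n + j % n) / n = i % n := by
    rw [add_comm, Nat.add_mul_div_right _ _ hn, Nat.div_eq_of_lt h2, zero_add]
  have e2 : (i % n * n + j % n) % n = j % n := by
    rw [add_comm, Nat.add_mul_mod_self_right, Nat.mod_eq_of_lt h2]
  rw [e1, e2]
  simp

theorem ixT_gT {n g v : ℕ} (hn : 0 < n) : ixT n (gT n g v) = ixT n v + ixT n g := by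
  rw [gT_eq, ixT_idx hn]
  ext <;> simp [ixT]

theorem cast_pred {n : ℕ} (hn : 0 < n) : ((n - 1 : ℕ) : ZMod n) = -1 := by
  rw [Nat.cast_sub hn]; simp

theorem sysT (n : ℕ) (hn : 2 ≤ n) (nbt : List (List ℕ)) (hlen : nbt.length = n * n)
    (htab : ∀ v < n * n, nth nbt v = nbf n v) :
    Sys (triangular n) (n * n) (ixT n) (nth nbt) := by
  have hn0 : 0 < n := by omega
  have : NeZero n := ⟨by omega⟩
  have hnil : ∀ (l : List (List ℕ)) (v : ℕ), l.length ≤ v → nth l v = [] := by
    intro l
    induction l with
    | nil => intro v _; rfl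
    | cons x l ih =>
      intro v hv
      cases v with
      | zero => simp at hv
      | succ v =>
        show nth l v = []
        exact ih v (by simpa using hv)
  have hcast : ∀ v, ixT n v = (((v / n : ℕ) : ZMod n), ((v % n : ℕ) : ZMod n)) := fun v => rfl
  refine ⟨?_, ?_, ?_, ?_⟩
  · rintro ⟨a, b⟩
    refine ⟨idx n a.val b.val, idx_lt hn0, ?_⟩
    rw [ixT_idx hn0]
    simp
  · intro v hv w hw h
    have h1 := congrArg Prod.fst h
    have h2 := congrArg Prod.snd h
    simp only [ixT] at h1 h2
    rw [ZMod.natCast_eq_natCast_iff'] at h1 h2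
    have e1 : v / n < n := Nat.div_lt_of_lt_mul hv
    have e2 : w / n < n := Nat.div_lt_of_lt_mul hw
    rw [Nat.mod_eq_of_lt e1, Nat.mod_eq_of_lt e2] at h1
    rw [Nat.mod_mod, Nat.mod_mod] at h2
    rw [← Nat.div_add_mod v n, ← Nat.div_add_mod w n, h1, h2]
  · intro v w hw
    by_cases hv : v < n * n
    · rw [htab v hv] at hw
      simp only [nbf, List.mem_cons, List.not_mem_nil, or_false] at hw
      have hx := hcast v
      rcases hw with rfl | rfl | rfl | rfl | rfl | rfl
      · refine ⟨idx_lt hn0, ?_⟩
        have := adj1 hn (ixT n v)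
        rw [ixT_idx hn0]
        convert this using 1
        rw [hx]; ext <;> simp
      · refine ⟨idx_lt hn0, ?_⟩
        have := adj2 hn (ixT n v)
        rw [ixT_idx hn0]
        convert this using 1
        rw [hx]; ext <;> simp
      · refine ⟨idx_lt hn0, ?_⟩
        have := adj3 hn (ixT n v + (0, -1))
        have e1 : ixT n v + (0, -1) + (1, 0) = ixT n v + (1, -1) := by rw [add_assoc]; simp
        have e2 : ixT n v + (0, -1) + (0, 1) = ixT n v := by rw [add_assoc]; ext <;> simp
        rw [e1, e2] at this
        rw [ixT_idx hn0]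
        convert this.symm using 1
        rw [hx]; ext <;> simp [cast_pred hn0]
      · refine ⟨idx_lt hn0, ?_⟩
        have := adj1 hn (ixT n v + (-1, 0))
        have e2 : ixT n v + (-1, 0) + (1, 0) = ixT n v := by rw [add_assoc]; ext <;> simp
        rw [e2] at this
        rw [ixT_idx hn0]
        convert this.symm using 1
        rw [hx]; ext <;> simp [cast_pred hn0]
      · refine ⟨idx_lt hn0, ?_⟩
        have := adj2 hn (ixT n v + (0, -1))
        have e2 : ixT n v + (0, -1) + (0, 1) = ixT n v := by rw [add_assoc]; ext <;> simp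
        rw [e2] at this
        rw [ixT_idx hn0]
        convert this.symm using 1
        rw [hx]; ext <;> simp [cast_pred hn0]
      · refine ⟨idx_lt hn0, ?_⟩
        have := adj3 hn (ixT n v + (-1, 0))
        have e1 : ixT n v + (-1, 0) + (1, 0) = ixT n v := by rw [add_assoc]; ext <;> simp
        have e2 : ixT n v + (-1, 0) + (0, 1) = ixT n v + (-1, 1) := by rw [add_assoc]; simp
        rw [e1, e2] at this
        rw [ixT_idx hn0]
        convert this using 1
        rw [hx]; ext <;> simp [cast_pred hn0]
    · rw [hnil nbt v (by omega)] at hw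
      simp at hw
  · intro v hv y hy
    rw [adj_iff] at hy
    rw [htab v hv]
    have hx := hcast v
    have mem : ∀ i j : ℕ, ixT n (idx n i j) = ((i : ZMod n), (j : ZMod n)) := fun i j => ixT_idx hn0
    rcases hy.2 with (h | h | h) | (h | h | h)
    · refine ⟨idx n (v / n + 1) (v % n), by simp [nbf], ?_⟩
      rw [mem, h, hx]; ext <;> simp
    · refine ⟨idx n (v / n) (v % n + 1), by simp [nbf], ?_⟩
      rw [mem, h, hx]; ext <;> simp
    · refine ⟨idx n (v / n + 1) (v % n + (n - 1)), by simp [nbf], ?_⟩
      rw [mem, h, hx]; ext <;> simp [cast_pred hn0]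
    · refine ⟨idx n (v / n + (n - 1)) (v % n), by simp [nbf], ?_⟩
      have h' : y = ixT n v + (-1, 0) := by rw [h, add_assoc]; ext <;> simp
      rw [mem, h', hx]; ext <;> simp [cast_pred hn0]
    · refine ⟨idx n (v / n) (v % n + (n - 1)), by simp [nbf], ?_⟩
      have h' : y = ixT n v + (0, -1) := by rw [h, add_assoc]; ext <;> simp
      rw [mem, h', hx]; ext <;> simp [cast_pred hn0]
    · refine ⟨idx n (v / n + (n - 1)) (v % n + 1), by simp [nbf], ?_⟩
      have h' : y = ixT n v + (-1, 1) := by rw [h, add_assoc]; ext <;> simp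
      rw [mem, h', hx]; ext <;> simp [cast_pred hn0]

/-- the colouring with code `s` -/
def baseT (n s : ℕ) : ZMod n × ZMod n → Fin 4 := fun x => ⟨dig s (x.1.val * n + x.2.val), dig_lt _ _⟩

theorem baseT_ixT {n s v : ℕ} (hn : 0 < n) (hv : v < n * n) : (baseT n s (ixT n v)).val = dig s v := by
  have e1 : v / n < n := Nat.div_lt_of_lt_mul hv
  have e2 : v % n < n := Nat.mod_lt _ hn
  show dig s _ = _
  congr 1
  simp only [ixT]
  rw [ZMod.val_natCast_of_lt e1, ZMod.val_natCast_of_lt e2]
  exact Nat.div_add_mod' v n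

/-- translation by `t` is an automorphism -/
theorem adj_add {n : ℕ} (t : ZMod n × ZMod n) (v w : ZMod n × ZMod n) (h : (triangular n).Adj v w) :
    (triangular n).Adj (Equiv.addRight t v) (Equiv.addRight t w) := by
  rw [triangular, SimpleGraph.fromRel_adj] at h ⊢
  simp only [Equiv.coe_addRight]
  refine ⟨fun h' => h.1 (add_right_cancel h'), ?_⟩
  rcases h.2 with (h | h | h) | (h | h | h) <;> rw [h]
  · left; left; abel
  · left; right; left; abel
  · left; right; right; abel
  · right; left; abel
  · right; right; left; abel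
  · right; right; right; abel

/-- instance for the derivations that use colour permutations only -/
noncomputable def inst1 (n : ℕ) (nbt : List (List ℕ)) : Inst :=
  ⟨4, nth nbt, gT n, fun g pi => cond (Nat.beq g 0) (memb pi permCodes) false, []⟩

/-- instance with all translations -/
noncomputable def inst2 (n : ℕ) (nbt : List (List ℕ)) (leaves : List (ℕ × ℕ)) : Inst :=
  ⟨4, nth nbt, gT n, fun _ pi => memb pi permCodes, leaves⟩

section

variable {n : ℕ} (hn : 2 ≤ n) {nbt : List (List ℕ)} (hlen : nbt.length = n * n)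
  (htab : ∀ v < n * n, nth nbt v = nbf n v) {s0 : ℕ}
  (hbase : ∀ v < n * n, ∀ w ∈ nth nbt v, dig s0 v ≠ dig s0 w)

include hn hlen htab hbase

theorem base_proper : Proper (triangular n) (baseT n s0) := by
  intro x y hxy h
  have S := sysT n hn nbt hlen htab
  obtain ⟨v, hv, rfl⟩ := S.surj x
  obtain ⟨w, hw, rfl⟩ := S.comp v hv y hxy
  have := congrArg Fin.val h
  rw [baseT_ixT (by omega) hv, baseT_ixT (by omega) (S.adj v w hw).1] at this
  exact hbase v hv w hw this

theorem goodcode_base : GoodCode (q := 4) (triangular n) (n * n) (ixT n)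
    (fun c => Conn (triangular n) c (baseT n s0)) s0 := by
  intro c hc hm
  have S := sysT n hn nbt hlen htab
  have : c = baseT n s0 := by
    funext x
    obtain ⟨v, hv, rfl⟩ := S.surj x
    apply Fin.ext
    rw [baseT_ixT (by omega) hv, hm v hv]
  subst this
  exact Conn.refl hc

/-- all translates of the base colouring are joined to it -/
theorem base_trans {s1 s2 : ℕ} (hs1 : ∀ v < n * n, dig s1 v = dig s0 (gT n n v))
    (hs2 : ∀ v < n * n, dig s2 v = dig s0 (gT n 1 v)) (D : List Der)
    (hD : chkDer (inst1 n nbt) (n * n) D [s0] [s1, s2] = true) (t : ZMod n × ZMod n) :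
    Conn (triangular n) (fun x => baseT n s0 (x + t)) (baseT n s0) := by
  have : NeZero n := ⟨by omega⟩
  have hn0 : 0 < n := by omega
  have S := sysT n hn nbt hlen htab
  have hN : 0 < n * n := Nat.mul_pos hn0 hn0
  have hP := base_proper hn hlen htab hbase
  have good := chkDer_sound (q := 4) (Good := fun c => Conn (triangular n) c (baseT n s0))
    (inst1 n nbt) S (by norm_num) rfl
    (fun c a b U hc hab hU h => conn_hswap c a b U hc hab hU h)
    (by
      intro g pi hg c hc
      change cond (Nat.beq g 0) (memb pi permCodes) false = true at hg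
      rw [cond_tf, beq_tt, memb_iff] at hg
      obtain ⟨rfl, hpi⟩ := hg
      obtain ⟨σ, hσ⟩ := exists_perm hpi
      refine ⟨fun v => σ (c v), proper_perm hc σ, ?_, fun h => (Conn.perm hc σ).trans h⟩
      intro v hv
      rw [hσ]
      have : ixT n ((inst1 n nbt).g 0 v) = ixT n v := by
        change ixT n (gT n 0 v) = _
        rw [ixT_gT hn0]
        simp [ixT]
      rw [this])
    (fun g pi _ v _ => idx_lt hn0) hN D [s0] [s1, s2]
    (by
      intro s hs
      rw [List.mem_singleton] at hs
      subst hs
      exact goodcode_base hn hlen htab hbase) hD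
  have e1 : ixT n n = (1, 0) := by
    simp only [ixT, Nat.mod_self, Nat.div_self hn0]; simp
  have e2 : ixT n 1 = (0, 1) := by
    simp only [ixT, Nat.div_eq_of_lt (show 1 < n by omega), Nat.mod_eq_of_lt (show 1 < n by omega)]
    simp
  have g1 : Conn (triangular n) (fun x => baseT n s0 (x + (1, 0))) (baseT n s0) := by
    apply good s1 (by simp) _ (proper_comp hP (Equiv.addRight (1, 0)) (adj_add _))
    intro v hv
    have : Equiv.addRight ((1 : ZMod n), (0 : ZMod n)) (ixT n v) = ixT n (gT n n v) := by
      rw [ixT_gT hn0, e1]; rfl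
    rw [this, baseT_ixT (v := gT n n v) hn0 (idx_lt hn0), hs1 v hv]
  have g2 : Conn (triangular n) (fun x => baseT n s0 (x + (0, 1))) (baseT n s0) := by
    apply good s2 (by simp) _ (proper_comp hP (Equiv.addRight (0, 1)) (adj_add _))
    intro v hv
    have : Equiv.addRight ((0 : ZMod n), (1 : ZMod n)) (ixT n v) = ixT n (gT n 1 v) := by
      rw [ixT_gT hn0, e2]; rfl
    rw [this, baseT_ixT (v := gT n 1 v) hn0 (idx_lt hn0), hs2 v hv]
  -- translations form a group
  have hadd : ∀ t u : ZMod n × ZMod n, Conn (triangular n) (fun x => baseT n s0 (x + t)) (baseT n s0) →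
      Conn (triangular n) (fun x => baseT n s0 (x + u)) (baseT n s0) →
      Conn (triangular n) (fun x => baseT n s0 (x + (t + u))) (baseT n s0) := by
    intro t u ht hu
    have := (ht.comp (Equiv.addRight u) (adj_add u)).trans hu
    convert this using 1
    funext x
    simp only [Equiv.coe_addRight]
    congr 1
    abel
  have h0 : Conn (triangular n) (fun x => baseT n s0 (x + 0)) (baseT n s0) := by
    simpa using Conn.refl hP
  have hs1' : ∀ k : ℕ, Conn (triangular n) (fun x => baseT n s0 (x + ((k : ZMod n), 0))) (baseT n s0) := by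
    intro k
    induction k with
    | zero =>
      rw [Nat.cast_zero]
      exact h0
    | succ k ih =>
      have := hadd _ _ ih g1
      simpa using this
  have hs2' : ∀ k : ℕ, Conn (triangular n) (fun x => baseT n s0 (x + (0, (k : ZMod n)))) (baseT n s0) := by
    intro k
    induction k with
    | zero =>
      rw [Nat.cast_zero]
      exact h0
    | succ k ih =>
      have := hadd _ _ ih g2
      simpa using this
  have := hadd _ _ (hs1' t.1.val) (hs2' t.2.val)
  simpa using this

theorem hsym2 (hT : ∀ t : ZMod n × ZMod n,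
      Conn (triangular n) (fun x => baseT n s0 (x + t)) (baseT n s0)) (leaves : List (ℕ × ℕ)) :
    ∀ g pi, (inst2 n nbt leaves).sok g pi = true → ∀ c : ZMod n × ZMod n → Fin 4,
      Proper (triangular n) c → ∃ c' : ZMod n × ZMod n → Fin 4, Proper (triangular n) c' ∧
        (∀ v < n * n, (c' (ixT n v)).val = dig pi (c (ixT n ((inst2 n nbt leaves).g g v))).val) ∧
        (Conn (triangular n) c' (baseT n s0) → Conn (triangular n) c (baseT n s0)) := by
  have : NeZero n := ⟨by omega⟩
  have hn0 : 0 < n := by omega
  have hP := base_proper hn hlen htab hbase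
  intro g pi hg c hc
  change memb pi permCodes = true at hg
  rw [memb_iff] at hg
  obtain ⟨σ, hσ⟩ := exists_perm hg
  have hc1 := proper_comp hc (Equiv.addRight (ixT n g)) (adj_add _)
  refine ⟨fun v => σ (c (v + ixT n g)), proper_perm hc1 σ, ?_, ?_⟩
  · intro v hv
    rw [hσ]
    have : ixT n ((inst2 n nbt leaves).g g v) = ixT n v + ixT n g := ixT_gT hn0
    rw [this]
  · intro h
    have h1 : Conn (triangular n) (fun v => c (v + ixT n g)) (baseT n s0) :=
      (Conn.perm hc1 σ).trans h
    have h2 := h1.comp (Equiv.addRight (-(ixT n g))) (adj_add _)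
    simp only [Equiv.coe_addRight, neg_add_cancel_right] at h2
    exact h2.trans (hT _)

/-- the leaves are good -/
theorem leaves_good (hT : ∀ t : ZMod n × ZMod n,
      Conn (triangular n) (fun x => baseT n s0 (x + t)) (baseT n s0)) (goals : List ℕ)
    (D : List Der) (hD : chkDer (inst2 n nbt []) (n * n) D [s0] goals = true) :
    ∀ s ∈ goals, GoodCode (q := 4) (triangular n) (n * n) (ixT n)
      (fun c => Conn (triangular n) c (baseT n s0)) s := by
  have : NeZero n := ⟨by omega⟩
  have hn0 : 0 < n := by omega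
  have S := sysT n hn nbt hlen htab
  exact chkDer_sound (q := 4) (Good := fun c => Conn (triangular n) c (baseT n s0))
    (inst2 n nbt []) S (by norm_num) rfl
    (fun c a b U hc hab hU h => conn_hswap c a b U hc hab hU h)
    (hsym2 hn hlen htab hbase hT [])
    (fun g pi _ v _ => idx_lt hn0) (Nat.mul_pos hn0 hn0) D [s0] goals
    (by
      intro s hs
      rw [List.mem_singleton] at hs
      subst hs
      exact goodcode_base hn hlen htab hbase) hD

/-- one piece of the search -/
theorem piece (hT : ∀ t : ZMod n × ZMod n,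
      Conn (triangular n) (fun x => baseT n s0 (x + t)) (baseT n s0)) (leaves : List (ℕ × ℕ))
    (hleaf : ∀ k s, (k, s) ∈ leaves → Solved (q := 4) (triangular n) (n * n) (ixT n)
      (fun c => Conn (triangular n) c (baseT n s0)) k s)
    (C : Cert) (NB : List (List ℕ)) (k s : ℕ) (hNB : NBok (nth nbt) (n * n) NB k) (hk : k ≤ n * n)
    (hs : s < 4 ^ k) (h : check (inst2 n nbt leaves) C NB k s (4 ^ k) = true) :
    Solved (q := 4) (triangular n) (n * n) (ixT n)
      (fun c => Conn (triangular n) c (baseT n s0)) k s := by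
  have : NeZero n := ⟨by omega⟩
  have hn0 : 0 < n := by omega
  exact check_sound (inst2 n nbt leaves) rfl (le_refl 4) (sysT n hn nbt hlen htab)
    (fun c a b U hc hab hU h => conn_hswap c a b U hc hab hU h)
    (hsym2 hn hlen htab hbase hT leaves) (fun g pi _ v _ => idx_lt hn0) hleaf C NB k s _ hNB hk rfl
    hs h

omit hn hlen htab hbase in
theorem solved_of_goodcode {s : ℕ} {Good : (ZMod n × ZMod n → Fin 4) → Prop}
    (h : GoodCode (q := 4) (triangular n) (n * n) (ixT n) Good s) :
    Solved (triangular n) (n * n) (ixT n) Good (n * n) s :=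
  fun c hc hm _ => h c hc fun v hv => hm.2 v hv

omit hlen htab hbase in
theorem ergodic_of_solved
    (h : Solved (q := 4) (triangular n) (n * n) (ixT n)
      (fun c => Conn (triangular n) c (baseT n s0)) 0 0) : WSKErgodic (triangular n) 4 := by
  have : NeZero n := ⟨by omega⟩
  exact ergodic_of_conn (base := baseT n s0) fun c hc => good_of_solved h c hc

end

end Pool.Agent.H411R2.WSK
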